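import Pool.Agent.Work.MP_e17eac_co.Bd.B06

/-! Bundle of small proof modules (one section per former module). -/

section

/-!
# Number of values of a finer function in a fibre of a coarser one
-/

namespace Pool.Agent.Work.MP_e17eac_co.DH

open Finset

namespace XCNT

theorem fib_eq {α β : Type} [DecidableEq α] [DecidableEq β] (E : Finset ℕ) (f : ℕ → α)
    (g : ℕ → β) (hfg : ∀ n ∈ E, ∀ k ∈ E, g n = g k → f n = f k) (n k : ℕ)
    (hk : k ∈ E.filter (fun k => f k = f n)) :
    (E.filter (fun k => f k = f n)).filter (fun l => g l = g k) =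
      E.filter (fun l => g l = g k) := by
  rw [mem_filter] at hk
  ext l
  simp only [mem_filter]
  constructor
  · rintro ⟨⟨h1, _⟩, h3⟩
    exact ⟨h1, h3⟩
  · rintro ⟨h1, h3⟩
    exact ⟨⟨h1, (hfg l h1 k hk.1 h3).trans hk.2⟩, h3⟩

theorem card_eq {β : Type} [DecidableEq β] (A : Finset ℕ) (g : ℕ → β) :
    (A.card : ℝ) = ∑ b ∈ A.image g, ((A.filter (fun l => g l = b)).card : ℝ) := by
  rw [card_eq_sum_card_image g A]
  push_cast
  rfl

end XCNT

theorem I_CNT : StCnt := by
  intro α β _ _ Λ E f g hΛ hf hg hfg n hn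
  have hN : (0 : ℝ) < E.card := by
    exact_mod_cast card_pos.2 ⟨n, hn⟩
  set A := E.filter (fun k => f k = f n) with hA
  obtain ⟨h1, h2⟩ := hf n hn
  have hG : ∀ b ∈ A.image g, (E.card : ℝ) ≤ Λ * ((A.filter (fun l => g l = b)).card : ℝ) *
      (im E g : ℝ) ∧ ((A.filter (fun l => g l = b)).card : ℝ) * (im E g : ℝ) ≤ Λ * E.card := by
    intro b hb
    rw [mem_image] at hb
    obtain ⟨k, hk, rfl⟩ := hb
    rw [hA, XCNT.fib_eq E f g hfg n k hk]
    exact hg k (mem_filter.1 hk).1
  have hc := XCNT.card_eq A g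
  have h3 : (A.card : ℝ) * (im E g : ℝ) ≤ (im A g : ℝ) * (Λ * E.card) := by
    rw [hc, sum_mul]
    refine (sum_le_sum fun b hb => (hG b hb).2).trans ?_
    rw [sum_const, nsmul_eq_mul]
    rfl
  have h4 : (im A g : ℝ) * E.card ≤ Λ * (A.card : ℝ) * (im E g : ℝ) := by
    rw [hc, mul_sum, sum_mul]
    refine le_trans ?_ (sum_le_sum fun b hb => (hG b hb).1)
    rw [sum_const, nsmul_eq_mul]
    rfl
  have hf0 : (0 : ℝ) ≤ im E f := Nat.cast_nonneg _
  have hg0 : (0 : ℝ) ≤ im E g := Nat.cast_nonneg _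
  have hΛ0 : (0 : ℝ) ≤ Λ := by linarith
  constructor
  · have h5 : (E.card : ℝ) * (im E g : ℝ) ≤ (E.card : ℝ) * (Λ ^ 2 * (im A g : ℝ) * (im E f : ℝ)) := by
      calc (E.card : ℝ) * (im E g : ℝ) ≤ (Λ * (A.card : ℝ) * (im E f : ℝ)) * (im E g : ℝ) :=
            mul_le_mul_of_nonneg_right h1 hg0
        _ = (Λ * (im E f : ℝ)) * ((A.card : ℝ) * (im E g : ℝ)) := by ring
        _ ≤ (Λ * (im E f : ℝ)) * ((im A g : ℝ) * (Λ * E.card)) :=
            mul_le_mul_of_nonneg_left h3 (mul_nonneg hΛ0 hf0)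
        _ = (E.card : ℝ) * (Λ ^ 2 * (im A g : ℝ) * (im E f : ℝ)) := by ring
    exact le_of_mul_le_mul_left h5 hN
  · have h5 : (E.card : ℝ) * ((im A g : ℝ) * (im E f : ℝ)) ≤ (E.card : ℝ) * (Λ ^ 2 * (im E g : ℝ)) := by
      calc (E.card : ℝ) * ((im A g : ℝ) * (im E f : ℝ)) = ((im A g : ℝ) * E.card) * (im E f : ℝ) := by
            ring
        _ ≤ (Λ * (A.card : ℝ) * (im E g : ℝ)) * (im E f : ℝ) := mul_le_mul_of_nonneg_right h4 hf0
        _ = (Λ * (im E g : ℝ)) * ((A.card : ℝ) * (im E f : ℝ)) := by ring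
        _ ≤ (Λ * (im E g : ℝ)) * (Λ * E.card) :=
            mul_le_mul_of_nonneg_left h2 (mul_nonneg hΛ0 hg0)
        _ = (E.card : ℝ) * (Λ ^ 2 * (im E g : ℝ)) := by ring
    exact le_of_mul_le_mul_left h5 hN

end Pool.Agent.Work.MP_e17eac_co.DH

end

section

/-!
# Edges without crossings
-/

namespace Pool.Agent.Work.MP_e17eac_co.DH

open Finset

namespace XPL

variable {ι : Type} [Fintype ι] [DecidableEq ι]

theorem seg (K : KSys ι) (n : ℕ) (hn : n < K.N) (X : ℝ) :
    K.y (K.b n) + (K.y (K.a n) - K.y (K.b n)) / (K.x (K.a n) - K.x (K.b n)) *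
      (X - K.x (K.b n)) = K.h n - K.t n * X := by
  have h1 := K.meet n hn
  have h2 := K.x_lt n hn
  have h3 : K.x (K.a n) - K.x (K.b n) ≠ 0 := by
    intro h
    linarith
  have h4 : (K.y (K.a n) - K.y (K.b n)) / (K.x (K.a n) - K.x (K.b n)) = - K.t n := by
    rw [div_eq_iff h3]
    linarith
  rw [h4]
  unfold KSys.h KSys.ht
  linarith

theorem inj (K : KSys ι) (n n' : ℕ) (hn : n < K.N) (hn' : n' < K.N) (h1 : K.b n = K.b n')
    (h2 : K.a n = K.a n') : n = n' := by
  have m1 := K.meet n hn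
  have m2 := K.meet n' hn'
  have m3 := K.x_lt n hn
  rw [← h1, ← h2] at m2
  have h3 : (K.x (K.a n) - K.x (K.b n)) * (K.t n - K.t n') = 0 := by linarith
  have h4 : K.t n = K.t n' := by
    rcases mul_eq_zero.1 h3 with h | h
    · linarith
    · linarith
  rcases lt_trichotomy n n' with h | h | h
  · have := K.t_lt n n' h hn'
    linarith
  · exact h
  · have := K.t_lt n' n h hn
    linarith

theorem third (K : KSys ι) (n n' : ℕ) (hn' : n' < K.N) (hlt : n < n')
    (hc : ¬ K.Cross n n') (X : ℝ) (h1 : K.x (K.b n) < X) (h2 : X < K.x (K.a n))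
    (h3 : K.x (K.b n') < X) (h4 : X < K.x (K.a n')) :
    K.h n - K.t n * X ≠ K.h n' - K.t n' * X := by
  intro h
  apply hc
  have h5 := K.t_lt n n' hlt hn'
  have h6 : (K.h n' - K.h n) / (K.t n' - K.t n) = X := by
    rw [div_eq_iff (by linarith)]
    linarith
  unfold KSys.Cross
  rw [h6]
  exact ⟨h1, h2, h3, h4⟩

end XPL

theorem I_PL (hPlanar : StPlanar) (hLeq : StLeq) : StPl := by
  intro ι _ _ K hx E hE hc
  have hinj : Set.InjOn (fun n => (K.b n, K.a n)) (E : Set ℕ) := by
    intro n hn n' hn' h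
    rw [Prod.mk.injEq] at h
    exact XPL.inj K n n' (hE n hn) (hE n' hn') h.1 h.2
  have hcard : (E.image (fun n => (K.b n, K.a n))).card = E.card := card_image_of_injOn hinj
  rw [← hcard]
  refine hPlanar ι K.x K.y hx (E.image (fun n => (K.b n, K.a n))) (K.lines E) ?_ ?_ ?_
  · intro e he
    obtain ⟨n, hn, rfl⟩ := mem_image.1 he
    unfold KSys.lines
    exact ⟨mem_union_right _ (mem_image_of_mem _ hn), mem_union_left _ (mem_image_of_mem _ hn),
      K.x_lt n (hE n hn)⟩
  · intro e he w _ h1 h2 h3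
    obtain ⟨n, hn, rfl⟩ := mem_image.1 he
    simp only at h1 h2 h3
    have hN := hE n hn
    have m1 := K.meet n hN
    have m2 := K.x_lt n hN
    have hwa : w ≠ K.a n := by
      rintro rfl
      exact absurd h2 (lt_irrefl _)
    have hwb : w ≠ K.b n := by
      rintro rfl
      exact absurd h1 (lt_irrefl _)
    apply K.third n hN w hwa hwb
    have h4 : K.y (K.a n) - K.y (K.b n) = - K.t n * (K.x (K.a n) - K.x (K.b n)) := by linarith
    rw [h4] at h3
    have h5 : (K.x (K.a n) - K.x (K.b n)) *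
        (K.y w - K.y (K.b n) + K.t n * (K.x w - K.x (K.b n))) = 0 := by linarith
    rcases mul_eq_zero.1 h5 with h | h
    · linarith
    · linarith
  · intro e he f hf hef X h1 h2 h3 h4
    obtain ⟨n, hn, rfl⟩ := mem_image.1 he
    obtain ⟨n', hn', rfl⟩ := mem_image.1 hf
    simp only at h1 h2 h3 h4 ⊢
    rw [XPL.seg K n (hE n hn) X, XPL.seg K n' (hE n' hn') X]
    rcases lt_trichotomy n n' with h | h | h
    · exact XPL.third K n n' (hE n' hn') h (hc n hn n' hn' h) X h1 h2 h3 h4
    · exact absurd (by rw [h]) hef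
    · exact (XPL.third K n' n (hE n hn) h (hc n' hn' n hn h) X h3 h4 h1 h2).symm

end Pool.Agent.Work.MP_e17eac_co.DH

end

section

/-!
# Item SWEEP: existence of the sweep of a level
-/

namespace Pool.Agent.Work.MP_e17eac_co.DH

open Finset

namespace XSWEEP

/-- A step function which is at most `k` at `s` and above `k` at `s'` passes `k` upwards at an
event in `[s, s')`. -/
lemma step_up (f : ℝ → ℕ) (T : Finset ℝ) (up : ℝ → Prop) (k : ℕ)
    (h0 : ∀ s s', s ≤ s' → (∀ c ∈ T, ¬(s ≤ c ∧ c < s')) → f s = f s')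
    (h1 : ∀ c ∈ T, ∀ s', c < s' → (∀ c' ∈ T, ¬(c < c' ∧ c' < s')) →
      (up c ∧ f s' = f c + 1) ∨ (¬ up c ∧ f c = f s' + 1)) (s : ℝ) :
    ∀ (n : ℕ) (s' : ℝ), (T.filter (fun c => s ≤ c ∧ c < s')).card = n → s ≤ s' →
      f s ≤ k → k < f s' → ∃ c ∈ T, s ≤ c ∧ c < s' ∧ up c ∧ f c = k := by
  intro n
  induction n using Nat.strong_induction_on with
  | _ n ih =>
    intro s' hn hs h2 h3
    by_cases hne : (T.filter (fun c => s ≤ c ∧ c < s')).Nonempty
    · obtain ⟨c, hcm, hmax⟩ := exists_max_image _ (fun c : ℝ => c) hne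
      rw [mem_filter] at hcm
      obtain ⟨hcT, hsc, hcs⟩ := hcm
      have hno : ∀ c' ∈ T, ¬(c < c' ∧ c' < s') := by
        rintro c' hc' ⟨h4, h5⟩
        have := hmax c' (by rw [mem_filter]; exact ⟨hc', by linarith, h5⟩)
        linarith
      by_cases h6 : f c ≤ k
      · rcases h1 c hcT s' hcs hno with ⟨h7, h8⟩ | ⟨h7, h8⟩
        · exact ⟨c, hcT, hsc, hcs, h7, by omega⟩
        · omega
      · have hlt : (T.filter (fun c' => s ≤ c' ∧ c' < c)).card < n := by
          rw [← hn]
          apply card_lt_card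
          refine ⟨fun a ha => ?_, fun h => ?_⟩
          · rw [mem_filter] at ha ⊢
            exact ⟨ha.1, ha.2.1, by linarith [ha.2.2]⟩
          · have := h (show c ∈ T.filter (fun c => s ≤ c ∧ c < s') by
              rw [mem_filter]; exact ⟨hcT, hsc, hcs⟩)
            rw [mem_filter] at this
            exact lt_irrefl _ this.2.2
        obtain ⟨c', h7, h8, h9, h10⟩ := ih _ hlt c rfl hsc h2 (by omega)
        exact ⟨c', h7, h8, by linarith, h10⟩
    · rw [not_nonempty_iff_eq_empty] at hne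
      have := h0 s s' hs (fun c hc h => by
        have : c ∈ T.filter (fun c => s ≤ c ∧ c < s') := by rw [mem_filter]; exact ⟨hc, h⟩
        rw [hne] at this
        exact absurd this (notMem_empty c))
      omega

/-- A step function which is above `k` at `s` and at most `k` at `s'` passes from `k + 1` to `k`
at an event in `[s, s')`. -/
lemma step_down (f : ℝ → ℕ) (T : Finset ℝ) (up : ℝ → Prop) (k : ℕ)
    (h0 : ∀ s s', s ≤ s' → (∀ c ∈ T, ¬(s ≤ c ∧ c < s')) → f s = f s')
    (h1 : ∀ c ∈ T, ∀ s', c < s' → (∀ c' ∈ T, ¬(c < c' ∧ c' < s')) →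
      (up c ∧ f s' = f c + 1) ∨ (¬ up c ∧ f c = f s' + 1)) (s : ℝ) :
    ∀ (n : ℕ) (s' : ℝ), (T.filter (fun c => s ≤ c ∧ c < s')).card = n → s ≤ s' →
      k < f s → f s' ≤ k → ∃ c ∈ T, s ≤ c ∧ c < s' ∧ ¬ up c ∧ f c = k + 1 := by
  intro n
  induction n using Nat.strong_induction_on with
  | _ n ih =>
    intro s' hn hs h2 h3
    by_cases hne : (T.filter (fun c => s ≤ c ∧ c < s')).Nonempty
    · obtain ⟨c, hcm, hmax⟩ := exists_max_image _ (fun c : ℝ => c) hne
      rw [mem_filter] at hcm
      obtain ⟨hcT, hsc, hcs⟩ := hcm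
      have hno : ∀ c' ∈ T, ¬(c < c' ∧ c' < s') := by
        rintro c' hc' ⟨h4, h5⟩
        have := hmax c' (by rw [mem_filter]; exact ⟨hc', by linarith, h5⟩)
        linarith
      by_cases h6 : k < f c
      · rcases h1 c hcT s' hcs hno with ⟨h7, h8⟩ | ⟨h7, h8⟩
        · omega
        · exact ⟨c, hcT, hsc, hcs, h7, by omega⟩
      · have hlt : (T.filter (fun c' => s ≤ c' ∧ c' < c)).card < n := by
          rw [← hn]
          apply card_lt_card
          refine ⟨fun a ha => ?_, fun h => ?_⟩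
          · rw [mem_filter] at ha ⊢
            exact ⟨ha.1, ha.2.1, by linarith [ha.2.2]⟩
          · have := h (show c ∈ T.filter (fun c => s ≤ c ∧ c < s') by
              rw [mem_filter]; exact ⟨hcT, hsc, hcs⟩)
            rw [mem_filter] at this
            exact lt_irrefl _ this.2.2
        obtain ⟨c', h7, h8, h9, h10⟩ := ih _ hlt c rfl hsc h2 (by omega)
        exact ⟨c', h7, h8, by linarith, h10⟩
    · rw [not_nonempty_iff_eq_empty] at hne
      have := h0 s s' hs (fun c hc h => by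
        have : c ∈ T.filter (fun c => s ≤ c ∧ c < s') := by rw [mem_filter]; exact ⟨hc, h⟩
        rw [hne] at this
        exact absurd this (notMem_empty c))
      omega

section

variable {ι : Type} [Fintype ι] [DecidableEq ι] (x y : ι → ℝ)

/-- height of the line `i` -/
def ht (i : ι) (s : ℝ) : ℝ := y i + x i * s

/-- meeting time of two lines -/
noncomputable def cm (i j : ι) : ℝ := (y i - y j) / (x j - x i)

/-- `j` is below `i` just before time `s` -/
def Pr (i j : ι) (s : ℝ) : Prop := ht x y j s < ht x y i s ∨ (ht x y j s = ht x y i s ∧ x i < x j)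

open Classical in
/-- rank of `i` just before time `s` -/
noncomputable def R (i : ι) (s : ℝ) : ℕ := (univ.filter (fun j => Pr x y i j s)).card

open Classical in
/-- number of lines below the meeting point of `i` and `j` -/
noncomputable def cnt (i j : ι) : ℕ :=
  (univ.filter (fun l => ht x y l (cm x y i j) < ht x y i (cm x y i j))).card

variable {x y}

lemma ht_sub {i j : ι} (h : x i ≠ x j) (s : ℝ) :
    ht x y j s - ht x y i s = (x j - x i) * (s - cm x y i j) := by
  unfold ht cm
  have : x j - x i ≠ 0 := fun h' => h (by linarith)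
  field_simp
  ring

lemma cm_symm (i j : ι) : cm x y i j = cm x y j i := by
  unfold cm
  rw [← neg_sub (y j) (y i), ← neg_sub (x i) (x j), neg_div_neg_eq]

lemma ht_cm {i j : ι} (h : x i ≠ x j) : ht x y j (cm x y i j) = ht x y i (cm x y i j) := by
  have := ht_sub (y := y) h (cm x y i j)
  rw [sub_self, mul_zero] at this
  linarith

lemma eq_cm {i j : ι} (h : x i ≠ x j) {s : ℝ} (hs : ht x y j s = ht x y i s) :
    s = cm x y i j := by
  have := ht_sub (y := y) h s
  rw [hs, sub_self] at this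
  have h2 : x j - x i ≠ 0 := fun h' => h (by linarith)
  rcases mul_eq_zero.mp this.symm with h3 | h3
  · exact absurd h3 h2
  · linarith

lemma Pr_iff {i j : ι} (h : x i ≠ x j) (s : ℝ) :
    Pr x y i j s ↔ (x i < x j ∧ s ≤ cm x y i j) ∨ (x j < x i ∧ cm x y i j < s) := by
  have e := ht_sub (y := y) h s
  unfold Pr
  rcases lt_or_gt_of_ne h with h1 | h1
  · have h2 : 0 < x j - x i := by linarith
    constructor
    · rintro (h3 | ⟨h3, _⟩)
      · left
        refine ⟨h1, ?_⟩
        by_contra h4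
        have : 0 < (x j - x i) * (s - cm x y i j) := mul_pos h2 (by linarith)
        linarith
      · left
        exact ⟨h1, (eq_cm h h3).le⟩
    · rintro (⟨_, h3⟩ | ⟨h3, _⟩)
      · rcases h3.lt_or_eq with h4 | h4
        · left
          have : (x j - x i) * (s - cm x y i j) < 0 := mul_neg_of_pos_of_neg h2 (by linarith)
          linarith
        · right
          refine ⟨?_, h1⟩
          rw [h4]
          exact ht_cm h
      · linarith
  · have h2 : x j - x i < 0 := by linarith
    constructor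
    · rintro (h3 | ⟨_, h3⟩)
      · right
        refine ⟨h1, ?_⟩
        by_contra h4
        have : 0 ≤ (x j - x i) * (s - cm x y i j) :=
          mul_nonneg_of_nonpos_of_nonpos h2.le (by linarith)
        linarith
      · linarith
    · rintro (⟨h3, _⟩ | ⟨_, h3⟩)
      · linarith
      · left
        have : (x j - x i) * (s - cm x y i j) < 0 := mul_neg_of_neg_of_pos h2 (by linarith)
        linarith

lemma not_Pr_self (i : ι) (s : ℝ) : ¬ Pr x y i i s := by
  rintro (h | ⟨_, h⟩) <;> exact lt_irrefl _ h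

/-- General position. -/
def GP (x y : ι → ℝ) : Prop := ∀ i j l, i ≠ j → i ≠ l → j ≠ l →
  (x j - x i) * (y l - y i) ≠ (y j - y i) * (x l - x i)

lemma GP.conc (hg : GP x y) {i j l : ι} (h1 : i ≠ j) (h2 : i ≠ l) (h3 : j ≠ l) {s : ℝ}
    (e1 : ht x y j s = ht x y i s) (e2 : ht x y l s = ht x y i s) : False := by
  apply hg i j l h1 h2 h3
  unfold ht at e1 e2
  have a1 : y j - y i = -(x j - x i) * s := by linarith
  have a2 : y l - y i = -(x l - x i) * s := by linarith
  rw [a1, a2]
  ring

lemma GP.inj (hg : GP x y) (hx : Function.Injective x) {i j l : ι} (h1 : i ≠ j) (h2 : i ≠ l)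
    (h : cm x y i j = cm x y i l) : j = l := by
  by_contra h3
  refine hg.conc h1 h2 h3 (s := cm x y i j) (ht_cm fun h => h1 (hx h)) ?_
  rw [h]
  exact ht_cm fun h => h2 (hx h)

open Classical in
/-- events of `i` -/
noncomputable def Ev (x y : ι → ℝ) (i : ι) : Finset ℝ := (univ.erase i).image (cm x y i)

lemma mem_Ev {i : ι} {c : ℝ} : c ∈ Ev x y i ↔ ∃ j, i ≠ j ∧ cm x y i j = c := by
  unfold Ev
  rw [mem_image]
  constructor
  · rintro ⟨j, hj, h⟩
    exact ⟨j, (ne_of_mem_erase hj).symm, h⟩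
  · rintro ⟨j, hj, h⟩
    exact ⟨j, mem_erase.mpr ⟨hj.symm, mem_univ _⟩, h⟩

lemma R_const (hx : Function.Injective x) {i : ι} {s s' : ℝ} (hs : s ≤ s')
    (h : ∀ c ∈ Ev x y i, ¬(s ≤ c ∧ c < s')) : R x y i s = R x y i s' := by
  classical
  unfold R
  congr 1
  ext j
  simp only [mem_filter, mem_univ, true_and]
  by_cases hij : i = j
  · subst hij
    exact iff_of_false (not_Pr_self _ _) (not_Pr_self _ _)
  · have hxx : x i ≠ x j := fun h => hij (hx h)
    have hc := h (cm x y i j) (mem_Ev.mpr ⟨j, hij, rfl⟩)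
    rw [Pr_iff hxx, Pr_iff hxx]
    constructor
    · rintro (⟨h1, h2⟩ | ⟨h1, h2⟩)
      · left
        refine ⟨h1, ?_⟩
        by_contra h3
        exact hc ⟨h2, by linarith⟩
      · right
        exact ⟨h1, by linarith⟩
    · rintro (⟨h1, h2⟩ | ⟨h1, h2⟩)
      · left
        exact ⟨h1, by linarith⟩
      · right
        refine ⟨h1, ?_⟩
        by_contra h3
        exact hc ⟨by linarith, h2⟩

/-- The direction of an event. -/
def up (x y : ι → ℝ) (i : ι) (c : ℝ) : Prop := ∃ j, i ≠ j ∧ cm x y i j = c ∧ x j < x i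

lemma R_step (hg : GP x y) (hx : Function.Injective x) {i : ι} {c : ℝ} (hc : c ∈ Ev x y i)
    {s' : ℝ} (hs : c < s') (h : ∀ c' ∈ Ev x y i, ¬(c < c' ∧ c' < s')) :
    (up x y i c ∧ R x y i s' = R x y i c + 1) ∨ (¬ up x y i c ∧ R x y i c = R x y i s' + 1) := by
  classical
  obtain ⟨j0, hj0, rfl⟩ := mem_Ev.mp hc
  have hx0 : x i ≠ x j0 := fun h => hj0 (hx h)
  -- the other lines do not change
  have key : ∀ j, j ≠ j0 → (Pr x y i j (cm x y i j0) ↔ Pr x y i j s') := by
    intro j hj
    by_cases hij : i = j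
    · subst hij
      exact iff_of_false (not_Pr_self _ _) (not_Pr_self _ _)
    · have hxx : x i ≠ x j := fun h => hij (hx h)
      have hc1 := h (cm x y i j) (mem_Ev.mpr ⟨j, hij, rfl⟩)
      have hc2 : cm x y i j ≠ cm x y i j0 := fun h => hj (hg.inj hx hij hj0 h)
      rw [Pr_iff hxx, Pr_iff hxx]
      constructor
      · rintro (⟨h1, h2⟩ | ⟨h1, h2⟩)
        · left
          refine ⟨h1, ?_⟩
          by_contra h3
          exact hc1 ⟨lt_of_le_of_ne h2 hc2.symm, by linarith⟩
        · right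
          exact ⟨h1, by linarith⟩
      · rintro (⟨h1, h2⟩ | ⟨h1, h2⟩)
        · left
          exact ⟨h1, by linarith⟩
        · right
          refine ⟨h1, ?_⟩
          by_contra h3
          exact hc1 ⟨lt_of_le_of_ne (by linarith) hc2.symm, h2⟩
  rcases lt_or_gt_of_ne hx0 with h1 | h1
  · right
    constructor
    · rintro ⟨j, h2, h3, h4⟩
      have := hg.inj hx h2 hj0 h3
      subst this
      linarith
    · unfold R
      have e : univ.filter (fun j => Pr x y i j (cm x y i j0)) =
          insert j0 (univ.filter (fun j => Pr x y i j s')) := by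
        ext j
        simp only [mem_filter, mem_univ, true_and, mem_insert]
        by_cases hj : j = j0
        · subst hj
          simp only [true_or, iff_true]
          rw [Pr_iff hx0]
          exact Or.inl ⟨h1, le_refl _⟩
        · simp only [hj, false_or]
          exact key j hj
      rw [e, card_insert_of_notMem]
      simp only [mem_filter, mem_univ, true_and]
      rw [Pr_iff hx0]
      rintro (⟨_, h2⟩ | ⟨h2, _⟩) <;> linarith
  · left
    refine ⟨⟨j0, hj0, rfl, h1⟩, ?_⟩
    unfold R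
    have e : univ.filter (fun j => Pr x y i j s') =
        insert j0 (univ.filter (fun j => Pr x y i j (cm x y i j0))) := by
      ext j
      simp only [mem_filter, mem_univ, true_and, mem_insert]
      by_cases hj : j = j0
      · subst hj
        simp only [true_or, iff_true]
        rw [Pr_iff hx0]
        exact Or.inr ⟨h1, hs⟩
      · simp only [hj, false_or]
        exact (key j hj).symm
    rw [e, card_insert_of_notMem]
    simp only [mem_filter, mem_univ, true_and]
    rw [Pr_iff hx0]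
    rintro (⟨h2, _⟩ | ⟨_, h2⟩)
    · linarith
    · exact lt_irrefl _ h2

/-- rank at a meeting time -/
lemma R_cm (hg : GP x y) (hx : Function.Injective x) {i j : ι} (hij : i ≠ j) :
    R x y i (cm x y i j) = cnt x y i j + (if x i < x j then 1 else 0) := by
  classical
  have hxx : x i ≠ x j := fun h => hij (hx h)
  unfold R cnt
  split_ifs with h
  · have e : univ.filter (fun l => Pr x y i l (cm x y i j)) =
        insert j (univ.filter (fun l => ht x y l (cm x y i j) < ht x y i (cm x y i j))) := by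
      ext l
      simp only [mem_filter, mem_univ, true_and, mem_insert]
      constructor
      · rintro (h1 | ⟨h1, h2⟩)
        · exact Or.inr h1
        · left
          by_contra h3
          have hil : i ≠ l := fun h => by subst h; exact lt_irrefl _ h2
          exact hg.conc hij hil (Ne.symm h3) (ht_cm hxx) h1
      · rintro (rfl | h1)
        · exact Or.inr ⟨ht_cm hxx, h⟩
        · exact Or.inl h1
    rw [e, card_insert_of_notMem]
    simp only [mem_filter, mem_univ, true_and, not_lt]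
    exact (ht_cm hxx).ge
  · have e : univ.filter (fun l => Pr x y i l (cm x y i j)) =
        univ.filter (fun l => ht x y l (cm x y i j) < ht x y i (cm x y i j)) := by
      ext l
      simp only [mem_filter, mem_univ, true_and]
      constructor
      · rintro (h1 | ⟨h1, h2⟩)
        · exact h1
        · exfalso
          have hil : i ≠ l := fun h => by subst h; exact lt_irrefl _ h2
          have hjl : j ≠ l := fun h3 => by subst h3; exact h h2
          exact hg.conc hij hil hjl (ht_cm hxx) h1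
      · exact fun h1 => Or.inl h1
    rw [e, add_zero]

lemma cnt_symm (hx : Function.Injective x) {i j : ι} (hij : i ≠ j) :
    cnt x y i j = cnt x y j i := by
  classical
  have hxx : x i ≠ x j := fun h => hij (hx h)
  unfold cnt
  rw [cm_symm j i, ← ht_cm (y := y) hxx]

open Classical in
/-- the `k`-edges -/
noncomputable def EE (x y : ι → ℝ) (k : ℕ) : Finset (ι × ι) :=
  univ.filter (fun e => x e.1 < x e.2 ∧ cnt x y e.1 e.2 = k)

/-- time of an edge -/
noncomputable def tm (x y : ι → ℝ) (e : ι × ι) : ℝ := cm x y e.1 e.2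

lemma mem_EE {k : ℕ} {e : ι × ι} : e ∈ EE x y k ↔ x e.1 < x e.2 ∧ cnt x y e.1 e.2 = k := by
  classical
  unfold EE
  simp only [mem_filter, mem_univ, true_and]

lemma EE_aux {k : ℕ} {e e' : ι × ι} (he : e ∈ EE x y k)
    (he' : e' ∈ EE x y k) (h : tm x y e = tm x y e') :
    ¬ ht x y e.1 (tm x y e) < ht x y e'.1 (tm x y e) := by
  classical
  intro hlt
  obtain ⟨h1, h2⟩ := mem_EE.mp he
  obtain ⟨h1', h2'⟩ := mem_EE.mp he'
  have h3 : cnt x y e.1 e.2 < cnt x y e'.1 e'.2 := by
    unfold cnt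
    apply card_lt_card
    unfold tm at h hlt
    rw [← h]
    refine ⟨fun l hl => ?_, fun hsub => ?_⟩
    · rw [mem_filter] at hl ⊢
      exact ⟨hl.1, hl.2.trans hlt⟩
    · have := hsub (show e.1 ∈ _ by rw [mem_filter]; exact ⟨mem_univ _, hlt⟩)
      rw [mem_filter] at this
      exact lt_irrefl _ this.2
  omega

lemma EE_inj (hg : GP x y) {k : ℕ} {e e' : ι × ι} (he : e ∈ EE x y k)
    (he' : e' ∈ EE x y k) (h : tm x y e = tm x y e') : e = e' := by
  have h1 := EE_aux he he' h
  have h2 := EE_aux he' he h.symm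
  rw [← h] at h2
  obtain ⟨h3, _⟩ := mem_EE.mp he
  obtain ⟨h3', _⟩ := mem_EE.mp he'
  have e1 : ht x y e.2 (tm x y e) = ht x y e.1 (tm x y e) := ht_cm h3.ne
  have e2 : ht x y e'.2 (tm x y e) = ht x y e'.1 (tm x y e) := by
    rw [h]
    exact ht_cm h3'.ne
  have e3 : ht x y e'.1 (tm x y e) = ht x y e.1 (tm x y e) := le_antisymm (not_lt.mp h1)
    (not_lt.mp h2)
  have n1 : e.1 ≠ e.2 := fun h => by rw [h] at h3; exact lt_irrefl _ h3
  have n2 : e'.1 ≠ e'.2 := fun h => by rw [h] at h3'; exact lt_irrefl _ h3'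
  have m1 : e'.1 = e.1 ∨ e'.1 = e.2 := by
    by_contra hh
    push Not at hh
    exact hg.conc n1 (Ne.symm hh.1) (Ne.symm hh.2) e1 e3
  have m2 : e'.2 = e.1 ∨ e'.2 = e.2 := by
    by_contra hh
    push Not at hh
    exact hg.conc n1 (Ne.symm hh.1) (Ne.symm hh.2) e1 (e2.trans e3)
  rcases m1 with m1 | m1 <;> rcases m2 with m2 | m2
  · exact absurd (m1.trans m2.symm) n2
  · exact Prod.ext m1.symm m2.symm
  · rw [m1, m2] at h3'
    exact absurd h3 (by linarith)
  · exact absurd (m1.trans m2.symm) n2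

lemma cross_up (hg : GP x y) (hx : Function.Injective x) {k : ℕ} {i : ι} {s s' : ℝ}
    (hs : s ≤ s') (h1 : R x y i s ≤ k) (h2 : k < R x y i s') :
    ∃ e ∈ EE x y k, s ≤ tm x y e ∧ tm x y e < s' ∧ e.2 = i := by
  obtain ⟨c, _, h3, h4, ⟨j, h5, h6, h7⟩, h8⟩ := step_up (R x y i) (Ev x y i) (up x y i) k
    (fun s s' hs h => R_const hx hs h) (fun c hc s' hs h => R_step hg hx hc hs h) s _ s' rfl hs h1 h2
  subst h6
  rw [R_cm hg hx h5, if_neg (by linarith), add_zero] at h8
  refine ⟨(j, i), mem_EE.mpr ⟨h7, ?_⟩, ?_, ?_, rfl⟩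
  · rw [← h8]
    exact cnt_symm hx h5.symm
  · unfold tm
    rw [cm_symm]
    exact h3
  · unfold tm
    rw [cm_symm]
    exact h4

lemma cross_down (hg : GP x y) (hx : Function.Injective x) {k : ℕ} {i : ι} {s s' : ℝ}
    (hs : s ≤ s') (h1 : k < R x y i s) (h2 : R x y i s' ≤ k) :
    ∃ e ∈ EE x y k, s ≤ tm x y e ∧ tm x y e < s' ∧ e.1 = i := by
  obtain ⟨c, h0, h3, h4, h5, h8⟩ := step_down (R x y i) (Ev x y i) (up x y i) k
    (fun s s' hs h => R_const hx hs h) (fun c hc s' hs h => R_step hg hx hc hs h) s _ s' rfl hs h1 h2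
  obtain ⟨j, h6, rfl⟩ := mem_Ev.mp h0
  have h7 : x i < x j := by
    rcases lt_or_gt_of_ne (fun h => h6 (hx h) : x i ≠ x j) with h | h
    · exact h
    · exact absurd ⟨j, h6, rfl, h⟩ h5
  rw [R_cm hg hx h6, if_pos h7] at h8
  exact ⟨(i, j), mem_EE.mpr ⟨h7, by simpa using h8⟩, h3, h4, rfl⟩

open Classical in
/-- the `k + 1` lowest lines just before time `s` -/
noncomputable def B (x y : ι → ℝ) (k : ℕ) (s : ℝ) : Finset ι := univ.filter (fun i => R x y i s ≤ k)

lemma mem_B {k : ℕ} {s : ℝ} {i : ι} : i ∈ B x y k s ↔ R x y i s ≤ k := by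
  classical
  unfold B
  simp only [mem_filter, mem_univ, true_and]

lemma B_const (hg : GP x y) (hx : Function.Injective x) {k : ℕ} {s s' : ℝ} (hs : s ≤ s')
    (h : ∀ e ∈ EE x y k, ¬(s ≤ tm x y e ∧ tm x y e < s')) : B x y k s = B x y k s' := by
  ext i
  rw [mem_B, mem_B]
  constructor
  · intro h1
    by_contra h2
    obtain ⟨e, h3, h4, h5, _⟩ := cross_up hg hx hs h1 (not_le.mp h2)
    exact h e h3 ⟨h4, h5⟩
  · intro h1
    by_contra h2
    obtain ⟨e, h3, h4, h5, _⟩ := cross_down hg hx hs (not_le.mp h2) h1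
    exact h e h3 ⟨h4, h5⟩

lemma R_snd (hg : GP x y) (hx : Function.Injective x) {k : ℕ} {e : ι × ι} (he : e ∈ EE x y k) :
    R x y e.2 (tm x y e) = k := by
  obtain ⟨h1, h2⟩ := mem_EE.mp he
  have n1 : e.2 ≠ e.1 := fun h => by rw [h] at h1; exact lt_irrefl _ h1
  unfold tm
  rw [cm_symm, R_cm hg hx n1, if_neg (by linarith), add_zero, cnt_symm hx n1, h2]

lemma R_fst (hg : GP x y) (hx : Function.Injective x) {k : ℕ} {e : ι × ι} (he : e ∈ EE x y k) :
    R x y e.1 (tm x y e) = k + 1 := by
  obtain ⟨h1, h2⟩ := mem_EE.mp he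
  have n1 : e.1 ≠ e.2 := fun h => by rw [h] at h1; exact lt_irrefl _ h1
  unfold tm
  rw [R_cm hg hx n1, if_pos h1, h2]

lemma exists_between_no (T : Finset ℝ) {t s' : ℝ} (h : t < s') :
    ∃ s1, t < s1 ∧ s1 < s' ∧ ∀ c ∈ T, ¬(t < c ∧ c < s1) := by
  induction T using Finset.induction_on with
  | empty =>
    obtain ⟨s1, h1, h2⟩ := exists_between h
    exact ⟨s1, h1, h2, fun c hc => absurd hc (notMem_empty c)⟩
  | insert c T _ ih =>
    obtain ⟨s1, h1, h2, h3⟩ := ih
    by_cases hc : t < c ∧ c < s1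
    · refine ⟨c, hc.1, hc.2.trans h2, fun c' hc' => ?_⟩
      rcases mem_insert.mp hc' with rfl | hc'
      · exact fun h => lt_irrefl _ h.2
      · rintro ⟨h4, h5⟩
        exact h3 c' hc' ⟨h4, h5.trans hc.2⟩
    · refine ⟨s1, h1, h2, fun c' hc' => ?_⟩
      rcases mem_insert.mp hc' with rfl | hc'
      · exact hc
      · exact h3 c' hc'

lemma B_swap (hg : GP x y) (hx : Function.Injective x) {k : ℕ} {e : ι × ι} (he : e ∈ EE x y k)
    {s' : ℝ} (hs : tm x y e < s') (h : ∀ e' ∈ EE x y k, ¬(tm x y e < tm x y e' ∧ tm x y e' < s')) :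
    B x y k s' = insert e.1 ((B x y k (tm x y e)).erase e.2) := by
  obtain ⟨hlt, _⟩ := mem_EE.mp he
  have n1 : e.1 ≠ e.2 := fun h => by rw [h] at hlt; exact lt_irrefl _ hlt
  have R1 := R_fst hg hx he
  have R2 := R_snd hg hx he
  -- the two lines of the edge
  have A2 : k < R x y e.2 s' := by
    obtain ⟨s1, h1, h2, h3⟩ := exists_between_no (Ev x y e.2) hs
    have hev : tm x y e ∈ Ev x y e.2 := mem_Ev.mpr ⟨e.1, n1.symm, cm_symm _ _⟩
    by_contra h4
    have h5 : k < R x y e.2 s1 := by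
      rcases R_step hg hx hev h1 h3 with ⟨_, h6⟩ | ⟨h6, _⟩
      · omega
      · exact absurd ⟨e.1, n1.symm, cm_symm _ _, hlt⟩ h6
    obtain ⟨e', h6, h7, h8, _⟩ := cross_down hg hx h2.le h5 (not_lt.mp h4)
    exact h e' h6 ⟨by linarith, h8⟩
  have A1 : R x y e.1 s' ≤ k := by
    obtain ⟨s1, h1, h2, h3⟩ := exists_between_no (Ev x y e.1) hs
    have hev : tm x y e ∈ Ev x y e.1 := mem_Ev.mpr ⟨e.2, n1, rfl⟩
    by_contra h4
    have h5 : R x y e.1 s1 ≤ k := by
      rcases R_step hg hx hev h1 h3 with ⟨⟨j, h6, h7, h8⟩, _⟩ | ⟨_, h6⟩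
      · have := hg.inj hx h6 n1 h7
        subst this
        linarith
      · omega
    obtain ⟨e', h6, h7, h8, _⟩ := cross_up hg hx h2.le h5 (not_le.mp h4)
    exact h e' h6 ⟨by linarith, h8⟩
  -- events in the half-open interval
  have key : ∀ e' ∈ EE x y k, tm x y e ≤ tm x y e' → tm x y e' < s' → e' = e := by
    intro e' he' h1 h2
    rcases h1.lt_or_eq with h3 | h3
    · exact absurd ⟨h3, h2⟩ (h e' he')
    · exact EE_inj hg he' he h3.symm
  ext i
  rw [mem_insert, mem_erase, mem_B, mem_B]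
  by_cases hi1 : i = e.1
  · subst hi1
    simp only [true_or, iff_true]
    exact A1
  · by_cases hi2 : i = e.2
    · subst hi2
      simp only [hi1, ne_eq, not_true_eq_false, false_and, or_self, iff_false, not_le]
      exact A2
    · simp only [hi1, hi2, ne_eq, not_false_eq_true, true_and, false_or]
      constructor
      · intro h1
        by_contra h2
        obtain ⟨e', h3, h4, h5, h6⟩ := cross_down hg hx hs.le (not_le.mp h2) h1
        rw [key e' h3 h4 h5] at h6
        exact hi1 h6.symm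
      · intro h1
        by_contra h2
        obtain ⟨e', h3, h4, h5, h6⟩ := cross_up hg hx hs.le h1 (not_le.mp h2)
        rw [key e' h3 h4 h5] at h6
        exact hi2 h6.symm

lemma R_mono {i j : ι} {s : ℝ} (h : ht x y i s < ht x y j s) : R x y i s ≤ R x y j s := by
  classical
  unfold R
  apply card_le_card
  intro l hl
  rw [mem_filter] at hl ⊢
  refine ⟨hl.1, Or.inl ?_⟩
  rcases hl.2 with h1 | ⟨h1, _⟩
  · exact h1.trans h
  · rw [h1]
    exact h

lemma exists_level [Nonempty ι] (k : ℕ) (s : ℝ) : ∃ v : ℝ, (∀ i ∈ B x y k s, ht x y i s ≤ v) ∧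
    ∀ i, i ∉ B x y k s → v ≤ ht x y i s := by
  by_cases hne : (B x y k s).Nonempty
  · obtain ⟨i0, h1, h2⟩ := exists_max_image (B x y k s) (fun i => ht x y i s) hne
    refine ⟨ht x y i0 s, h2, fun i hi => ?_⟩
    by_contra h3
    have h4 := R_mono (not_le.mp h3)
    rw [mem_B] at h1 hi
    omega
  · obtain ⟨i0, _, h2⟩ := exists_min_image (univ : Finset ι) (fun i => ht x y i s) univ_nonempty
    refine ⟨ht x y i0 s, fun i hi => absurd ⟨i, hi⟩ hne, fun i _ => h2 i (mem_univ i)⟩

/-- The edges in the order of their times. -/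
lemma exists_sort [Nonempty ι] (hg : GP x y) (k : ℕ) : ∃ (t : ℕ → ℝ) (e : ℕ → ι × ι) (M : ℝ),
    (∀ n, n < (EE x y k).card → e n ∈ EE x y k ∧ tm x y (e n) = t n) ∧
    (∀ n m, n < m → m < (EE x y k).card → t n < t m) ∧
    (∀ e' ∈ EE x y k, ∃ n, n < (EE x y k).card ∧ t n = tm x y e') ∧
    (∀ n, n < (EE x y k).card → t n < M) ∧ (∀ n, (EE x y k).card ≤ n → t n = M) := by
  classical
  set N := (EE x y k).card with hN
  have hcard : ((EE x y k).image (tm x y)).card = N :=
    card_image_of_injOn fun e he e' he' h => EE_inj hg he he' h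
  set f := ((EE x y k).image (tm x y)).orderEmbOfFin hcard with hf
  obtain ⟨M, hM⟩ : ∃ M : ℝ, ∀ c ∈ (EE x y k).image (tm x y), c < M := by
    obtain ⟨M, hM⟩ := ((EE x y k).image (tm x y)).exists_le
    exact ⟨M + 1, fun c hc => by linarith [hM c hc]⟩
  have hmem : ∀ i, f i ∈ (EE x y k).image (tm x y) := fun i => orderEmbOfFin_mem _ hcard i
  have hex : ∀ n, ∃ e : ι × ι, ∀ h : n < N, e ∈ EE x y k ∧ tm x y e = f ⟨n, h⟩ := by
    intro n
    by_cases h : n < N
    · obtain ⟨e, he, he'⟩ := mem_image.mp (hmem ⟨n, h⟩)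
      exact ⟨e, fun _ => ⟨he, he'⟩⟩
    · exact ⟨Classical.arbitrary _, fun h' => absurd h' h⟩
  choose e he using hex
  refine ⟨fun n => if h : n < N then f ⟨n, h⟩ else M, e, M, ?_, ?_, ?_, ?_, ?_⟩
  · intro n hn
    simp only [hn, dite_true]
    exact he n hn
  · intro n m hnm hm
    have hn : n < N := hnm.trans hm
    simp only [hn, hm, dite_true]
    exact f.strictMono (by simpa using hnm)
  · intro e' he'
    have h1 : tm x y e' ∈ Set.range f := by
      rw [hf, range_orderEmbOfFin]
      exact mem_coe.mpr (mem_image_of_mem _ he')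
    obtain ⟨⟨n, hn⟩, h2⟩ := h1
    refine ⟨n, hn, ?_⟩
    simp only [hn, dite_true]
    exact h2
  · intro n hn
    simp only [hn, dite_true]
    exact hM _ (hmem _)
  · intro n hn
    simp only [not_lt.mpr hn, dite_false]

theorem main [Nonempty ι] (k : ℕ) (h01 : ∀ i, 0 ≤ x i ∧ x i ≤ 1) (hx : Function.Injective x)
    (hg : GP x y) : ∃ K : KSys ι, K.x = x ∧ K.N = (EE x y k).card := by
  classical
  obtain ⟨t, e, M, he, ht1, hsurj, hM, hM'⟩ := exists_sort hg k
  choose L hL using fun s => exists_level (x := x) (y := y) k s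
  set N := (EE x y k).card with hN
  -- times of edges below `t n`
  have hbelow : ∀ n, n ≤ N → ∀ e' ∈ EE x y k, tm x y e' < t n → ∃ m, m < n ∧ m < N ∧ t m = tm x y e' := by
    intro n hn e' he' hlt
    obtain ⟨m, hm, hm'⟩ := hsurj e' he'
    refine ⟨m, ?_, hm, hm'⟩
    rcases lt_trichotomy m n with h | h | h
    · exact h
    · rw [h] at hm'
      linarith
    · have h1 : n < N := h.trans hm
      have := ht1 n m h hm
      linarith
  have hswap : ∀ n, n < N → B x y k (t (n + 1)) =
      insert (e n).1 ((B x y k (t n)).erase (e n).2) := by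
    intro n hn
    obtain ⟨h1, h2⟩ := he n hn
    have h3 : t n < t (n + 1) := by
      by_cases h : n + 1 < N
      · exact ht1 n (n + 1) (Nat.lt_succ_self n) h
      · rw [hM' (n + 1) (not_lt.mp h)]
        exact hM n hn
    have := B_swap hg hx h1 (s' := t (n + 1)) (by rw [h2]; exact h3) (fun e' he' h => by
      obtain ⟨m, h4, h5, h6⟩ := hbelow (n + 1) hn e' he' h.2
      rw [h2, ← h6] at h
      rcases (Nat.lt_succ_iff.mp h4).lt_or_eq with h7 | h7
      · have := ht1 m n h7 hn
        linarith [h.1]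
      · rw [h7] at h
        exact lt_irrefl _ h.1)
    rw [this, h2]
  have hlev : ∀ n, n ≤ N → ∀ s, (∀ k, k < n → t k ≤ s) → (∀ k, n ≤ k → k < N → s ≤ t k) →
      (∀ i ∈ B x y k (t n), ht x y i s ≤ L s) ∧ (∀ i, i ∉ B x y k (t n) → L s ≤ ht x y i s) := by
    intro n hn s h1 h2
    by_cases hcase : ∃ m, m + 1 = n ∧ t m = s
    · obtain ⟨m, rfl, rfl⟩ := hcase
      have hm : m < N := hn
      obtain ⟨h3, h4⟩ := he m hm
      have a1 : (e m).2 ∈ B x y k (t m) := by
        rw [mem_B, ← h4, R_snd hg hx h3]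
      have a2 : (e m).1 ∉ B x y k (t m) := by
        rw [mem_B, ← h4, R_fst hg hx h3]
        omega
      have a3 : ht x y (e m).2 (t m) = ht x y (e m).1 (t m) := by
        rw [← h4]
        exact ht_cm (mem_EE.mp h3).1.ne
      rw [hswap m hm]
      refine ⟨fun i hi => ?_, fun i hi => ?_⟩
      · rcases mem_insert.mp hi with rfl | hi
        · rw [← a3]
          exact (hL _).1 _ a1
        · exact (hL _).1 _ (mem_of_mem_erase hi)
      · rw [mem_insert, mem_erase, not_or, not_and] at hi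
        by_cases hi2 : i = (e m).2
        · rw [hi2, a3]
          exact (hL _).2 _ a2
        · exact (hL _).2 _ (hi.2 hi2)
    · have hB : B x y k s = B x y k (t n) := by
        rcases le_total s (t n) with h3 | h3
        · apply B_const hg hx h3
          rintro e' he' ⟨h4, h5⟩
          obtain ⟨m, h6, h7, h8⟩ := hbelow n hn e' he' h5
          have h9 := h1 m h6
          have h10 : t m = s := le_antisymm h9 (by rw [h8]; exact h4)
          rcases (Nat.succ_le_iff.mpr h6).lt_or_eq with h11 | h11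
          · -- a later edge before `n`
            have h12 := h1 (m + 1) h11
            have h13 := ht1 m (m + 1) (Nat.lt_succ_self m) (by omega)
            linarith
          · exact hcase ⟨m, h11, h10⟩
        · symm
          apply B_const hg hx h3
          rintro e' he' ⟨h4, h5⟩
          obtain ⟨m, h6, h7⟩ := hsurj e' he'
          by_cases h8 : n ≤ m
          · have := h2 m h8 h6
            linarith
          · push Not at h8
            by_cases h9 : n < N
            · have := ht1 m n h8 h9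
              linarith
            · have h10 := hM m h6
              rw [hM' n (not_lt.mp h9)] at h4
              linarith
      rw [← hB]
      exact hL s
  refine ⟨{ x := x, y := y, N := N, t := t, a := fun n => (e n).2, b := fun n => (e n).1,
            S := fun n => B x y k (t n), L := L
            x_nonneg := fun i => (h01 i).1
            x_le_one := fun i => (h01 i).2
            t_lt := ht1
            a_mem := fun n hn => ?_
            b_mem := fun n hn => ?_
            S_succ := hswap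
            x_lt := fun n hn => (mem_EE.mp (he n hn).1).1
            meet := fun n hn => ?_
            third := fun n hn i h1 h2 => ?_
            below := fun n hn s h1 h2 => (hlev n hn s h1 h2).1
            above := fun n hn s h1 h2 => (hlev n hn s h1 h2).2 }, rfl, rfl⟩
  · obtain ⟨h3, h4⟩ := he n hn
    rw [mem_B, ← h4, R_snd hg hx h3]
  · obtain ⟨h3, h4⟩ := he n hn
    rw [mem_B, ← h4, R_fst hg hx h3]
    omega
  · obtain ⟨h3, h4⟩ := he n hn
    show ht x y (e n).2 (t n) = ht x y (e n).1 (t n)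
    rw [← h4]
    exact ht_cm (mem_EE.mp h3).1.ne
  · obtain ⟨h3, h4⟩ := he n hn
    have h5 := (mem_EE.mp h3).1
    show ht x y i (t n) ≠ ht x y (e n).2 (t n)
    intro h6
    refine hg.conc (i := (e n).2) (j := (e n).1) (l := i) (fun h => ?_) (Ne.symm h1) (Ne.symm h2)
      (s := t n) ?_ h6
    · rw [h] at h5
      exact lt_irrefl _ h5
    · rw [← h4]
      exact (ht_cm h5.ne).symm

lemma card_le {k : ℕ} (F : Finset (ι × ι)) (hF : ∀ e ∈ F, x e.1 < x e.2 ∧
    {l : ι | (x e.2 - x e.1) * (y l - y e.1) < (y e.2 - y e.1) * (x l - x e.1)}.ncard = k) :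
    F.card ≤ (EE x y k).card := by
  classical
  apply card_le_card
  intro e he
  obtain ⟨h1, h2⟩ := hF e he
  refine mem_EE.mpr ⟨h1, ?_⟩
  rw [← h2]
  unfold cnt
  rw [← Set.ncard_coe_finset]
  congr 1
  ext l
  simp only [coe_filter, mem_univ, true_and, Set.mem_ofPred_eq]
  have hD : 0 < x e.2 - x e.1 := by linarith
  have e1 : ht x y l (cm x y e.1 e.2) - ht x y e.1 (cm x y e.1 e.2) =
      ((x e.2 - x e.1) * (y l - y e.1) - (y e.2 - y e.1) * (x l - x e.1)) / (x e.2 - x e.1) := by
    unfold ht cm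
    field_simp
    ring
  constructor
  · intro h3
    by_contra h4
    have : 0 ≤ ((x e.2 - x e.1) * (y l - y e.1) - (y e.2 - y e.1) * (x l - x e.1)) /
        (x e.2 - x e.1) := div_nonneg (by linarith) hD.le
    linarith
  · intro h3
    have : ((x e.2 - x e.1) * (y l - y e.1) - (y e.2 - y e.1) * (x l - x e.1)) /
        (x e.2 - x e.1) < 0 := div_neg_of_neg_of_pos (by linarith) hD
    linarith

end

/-- Existence of the sweep for a nonempty set of lines. -/
theorem sweep : ∀ (ι : Type) [Fintype ι] [DecidableEq ι] [Nonempty ι] (x y : ι → ℝ) (k : ℕ),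
    (∀ i, 0 ≤ x i ∧ x i ≤ 1) → Function.Injective x →
    (∀ i j l, i ≠ j → i ≠ l → j ≠ l → (x j - x i) * (y l - y i) ≠ (y j - y i) * (x l - x i)) →
    ∀ F : Finset (ι × ι), (∀ e ∈ F, x e.1 < x e.2 ∧
      {l : ι | (x e.2 - x e.1) * (y l - y e.1) < (y e.2 - y e.1) * (x l - x e.1)}.ncard = k) →
    ∃ K : KSys ι, K.x = x ∧ F.card ≤ K.N := by
  intro ι _ _ _ x y k h01 hx hg F hF
  obtain ⟨K, h1, h2⟩ := main k h01 hx hg
  exact ⟨K, h1, by rw [h2]; exact card_le F hF⟩

end XSWEEP

/-- Item SWEEP. -/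
theorem I_SWEEP : StSweep := XSWEEP.sweep

end Pool.Agent.Work.MP_e17eac_co.DH

end
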