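import Pool.Agent.Work.MP_e17eac_co.Bd.B17

/-! Bundle of small proof modules (one section per former module). -/

section

/-!
TROP: the tropical theorem (note 2669 (A), helper17), abstract form:
`2 Σ c ≤ (1 + 2 L)^(L / w) (3 + 2 L² 2^w) n`, `L = log₂ n`, for all `w ≥ 1`.
-/
set_option autoImplicit false
set_option linter.unusedSectionVars false
set_option linter.unusedVariables false
set_option linter.unusedSimpArgs false
set_option linter.unnecessarySeqFocus false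

namespace Pool.Agent.Work.MP_e17eac_co.TROP

open Finset

variable {X N1 N2 : Type*} [DecidableEq X] [Fintype X] [Fintype N1] [DecidableEq N1]
  [Fintype N2] [DecidableEq N2]

namespace Run

variable {T1 : BT X N1} {T2 : BT X N2} {m : ℕ} (ρ : Run T1 T2 m) (w : ℕ)

theorem P_le {i j : ℕ} (hij : i ≤ j) (hj : j ≤ m) {A : N1} {B : N2} (h : ρ.P i A B) :
    ρ.P j A B := by
  induction j, hij using Nat.le_induction with
  | base => exact h
  | succ j hij ih => exact ρ.P_mono (Nat.lt_of_succ_le hj) (ih (by omega))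

theorem ab_inj {i j : ℕ} (hi : i < m) (hj : j < m) (ha : ρ.a i = ρ.a j) (hb : ρ.b i = ρ.b j) :
    i = j := by
  rcases lt_trichotomy i j with h | h | h
  · exfalso
    have h1 : ρ.P (i + 1) (ρ.a i) (ρ.b i) := (ρ.step i hi _ _).2 (Or.inr ⟨rfl, rfl⟩)
    have h2 := ρ.P_le (Nat.succ_le_of_lt h) hj.le h1
    rw [ha, hb] at h2
    exact ρ.new j hj h2
  · exact h
  · exfalso
    have h1 : ρ.P (j + 1) (ρ.a j) (ρ.b j) := (ρ.step j hj _ _).2 (Or.inr ⟨rfl, rfl⟩)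
    have h2 := ρ.P_le (Nat.succ_le_of_lt h) hi.le h1
    rw [← ha, ← hb] at h2
    exact ρ.new i hi h2

theorem c_le_lt {i : ℕ} (hi : i < m) (hs : T1.sd (ρ.a i) ≠ T2.sd (ρ.b i)) :
    ρ.c i ≤ (T1.lt (ρ.a i) ∩ T2.lt (ρ.b i)).card := by
  by_cases h : T1.sd (ρ.a i) = true
  · have h2 : ¬ T2.sd (ρ.b i) = true := fun h' => hs (h.trans h'.symm)
    rw [(lt_l h).1, (lt_r h2).1]
    exact card_le_card (ρ.up i hi)
  · have h2 : T2.sd (ρ.b i) = true := by
      cases h3 : T2.sd (ρ.b i)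
      · exfalso
        apply hs
        rw [h3]
        simpa using h
      · rfl
    rw [(lt_r h).1, (lt_l h2).1, ← ρ.card_dn hi]
    exact card_le_card (ρ.dn i hi)

theorem c_le_sp {i : ℕ} (hi : i < m) :
    ρ.c i ≤ (T1.sp (ρ.a i) ∩ T2.lt (ρ.b i)).card := by
  by_cases h : T2.sd (ρ.b i) = true
  · rw [(lt_l h).1, ← ρ.card_dn hi]
    refine card_le_card fun x hx => ?_
    have := ρ.mem_dn hi hx
    exact mem_inter.2 ⟨mem_union_right _ this.1, this.2⟩
  · rw [(lt_r h).1]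
    refine card_le_card fun x hx => ?_
    have := ρ.mem_up hi hx
    exact mem_inter.2 ⟨mem_union_left _ this.1, this.2⟩

open Classical in
/-- exchanges at relevant nodes of level `k` and level `b` of the second tree -/
noncomputable def tt (k b : ℕ) : ℕ :=
  ∑ i ∈ (range m).filter (fun i => (T1.Rel w (ρ.a i) ∧ rl T1 w (ρ.a i) = k) ∧
    T2.lv (ρ.b i) = b), ρ.c i

open Classical in
/-- the same with opposite signs -/
noncomputable def oo (k b : ℕ) : ℕ :=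
  ∑ i ∈ (range m).filter (fun i => ((T1.Rel w (ρ.a i) ∧ rl T1 w (ρ.a i) = k) ∧
    T2.lv (ρ.b i) = b) ∧ T1.sd (ρ.a i) ≠ T2.sd (ρ.b i)), ρ.c i

open Classical in
/-- exchanges at relevant nodes of level less than `k` -/
noncomputable def qq (k : ℕ) : ℕ :=
  ∑ i ∈ (range m).filter (fun i => T1.Rel w (ρ.a i) ∧ rl T1 w (ρ.a i) < k), ρ.c i

open Classical in
/-- exchanges at irrelevant nodes -/
noncomputable def irr : ℕ := ∑ i ∈ (range m).filter (fun i => ¬ T1.Rel w (ρ.a i)), ρ.c i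

theorem oo_le (k b : ℕ) : ρ.oo w k b ≤ Fintype.card X := by
  classical
  unfold oo
  set I := (range m).filter (fun i => ((T1.Rel w (ρ.a i) ∧ rl T1 w (ρ.a i) = k) ∧
    T2.lv (ρ.b i) = b) ∧ T1.sd (ρ.a i) ≠ T2.sd (ρ.b i)) with hI
  have hmem : ∀ i ∈ I, i < m ∧ ((T1.Rel w (ρ.a i) ∧ rl T1 w (ρ.a i) = k) ∧
      T2.lv (ρ.b i) = b) ∧ T1.sd (ρ.a i) ≠ T2.sd (ρ.b i) := by
    intro i hi
    rw [hI, mem_filter, mem_range] at hi
    exact hi
  calc ∑ i ∈ I, ρ.c i ≤ ∑ i ∈ I, (T1.lt (ρ.a i) ∩ T2.lt (ρ.b i)).card :=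
        sum_le_sum fun i hi => ρ.c_le_lt (hmem i hi).1 (hmem i hi).2.2
    _ = ∑ i ∈ I, ∑ x : X, if x ∈ T1.lt (ρ.a i) ∩ T2.lt (ρ.b i) then 1 else 0 := by
        refine sum_congr rfl fun i _ => ?_
        rw [← card_filter]
        congr 1
        ext x
        simp
    _ = ∑ x : X, ∑ i ∈ I, if x ∈ T1.lt (ρ.a i) ∩ T2.lt (ρ.b i) then 1 else 0 := sum_comm
    _ ≤ ∑ _x : X, 1 := by
        refine sum_le_sum fun x _ => ?_
        rw [← card_filter, card_le_one]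
        intro i hi j hj
        rw [mem_filter, mem_inter] at hi hj
        have h1 := hmem i hi.1
        have h2 := hmem j hj.1
        refine ρ.ab_inj h1.1 h2.1 ?_ ?_
        · refine T1.lev_inj h1.2.1.1.1 h2.2.1.1.1 hi.2.1 hj.2.1 ?_
          have h3 := h1.2.1.1.2
          have h4 := h2.2.1.1.2
          unfold rl at h3 h4
          rw [h3, h4]
        · exact T2.lev_inj (R := fun _ => True) trivial trivial hi.2.2 hj.2.2
            (h1.2.1.2.trans h2.2.1.2.symm)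
    _ = Fintype.card X := by simp

theorem irr_le : ρ.irr w ≤
    Nat.log 2 (Fintype.card X) ^ 2 * 2 ^ w * Fintype.card X := by
  classical
  set L := Nat.log 2 (Fintype.card X) with hL
  unfold irr
  set I := (range m).filter (fun i => ¬ T1.Rel w (ρ.a i)) with hI
  have hmem : ∀ i ∈ I, i < m ∧ ¬ T1.Rel w (ρ.a i) := by
    intro i hi
    rw [hI, mem_filter, mem_range] at hi
    exact hi
  have h1 : ∑ i ∈ I, ρ.c i ≤ ∑ A ∈ univ.filter (fun A => ¬ T1.Rel w A), ∑ B : N2,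
      (T1.sp A ∩ T2.lt B).card := by
    calc ∑ i ∈ I, ρ.c i ≤ ∑ i ∈ I, (T1.sp (ρ.a i) ∩ T2.lt (ρ.b i)).card :=
          sum_le_sum fun i hi => ρ.c_le_sp (hmem i hi).1
      _ = ∑ p ∈ I.image (fun i => (ρ.a i, ρ.b i)), (T1.sp p.1 ∩ T2.lt p.2).card := by
          rw [sum_image]
          intro i hi j hj h
          exact ρ.ab_inj (hmem i hi).1 (hmem j hj).1 (Prod.ext_iff.1 h).1 (Prod.ext_iff.1 h).2
      _ ≤ ∑ p ∈ (univ.filter (fun A => ¬ T1.Rel w A)) ×ˢ (univ : Finset N2),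
            (T1.sp p.1 ∩ T2.lt p.2).card := by
          refine sum_le_sum_of_subset fun p hp => ?_
          obtain ⟨i, hi, rfl⟩ := mem_image.1 hp
          simp [(hmem i hi).2]
      _ = _ := sum_product _ _ _
  have h2 : ∀ A : N1, ∑ B : N2, (T1.sp A ∩ T2.lt B).card ≤ L * (T1.sp A).card := by
    intro A
    calc ∑ B : N2, (T1.sp A ∩ T2.lt B).card
        = ∑ B : N2, ∑ x ∈ T1.sp A, if x ∈ T2.lt B then 1 else 0 := by
          refine sum_congr rfl fun B _ => ?_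
          rw [← card_filter]
          congr 1
      _ = ∑ x ∈ T1.sp A, ∑ B : N2, if x ∈ T2.lt B then 1 else 0 := sum_comm
      _ ≤ ∑ _x ∈ T1.sp A, L := by
          refine sum_le_sum fun x _ => ?_
          rw [← card_filter]
          exact T2.anc_le x
      _ = L * (T1.sp A).card := by rw [sum_const, smul_eq_mul, mul_comm]
  have h3 : ∑ A : N1, (T1.lt A).card ≤ L * Fintype.card X := by
    calc ∑ A : N1, (T1.lt A).card = ∑ A : N1, ∑ x : X, if x ∈ T1.lt A then 1 else 0 := by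
          refine sum_congr rfl fun B _ => ?_
          rw [← card_filter]
          congr 1
          ext x
          simp
      _ = ∑ x : X, ∑ A : N1, if x ∈ T1.lt A then 1 else 0 := sum_comm
      _ ≤ ∑ _x : X, L := by
          refine sum_le_sum fun x _ => ?_
          rw [← card_filter]
          exact T1.anc_le x
      _ = L * Fintype.card X := by rw [sum_const, smul_eq_mul, mul_comm, card_univ]
  calc ∑ i ∈ I, ρ.c i ≤ _ := h1
    _ ≤ ∑ A ∈ univ.filter (fun A => ¬ T1.Rel w A), L * (2 ^ w * (T1.lt A).card) := by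
        refine sum_le_sum fun A hA => (h2 A).trans (Nat.mul_le_mul_left _ (T1.irr_card ?_))
        simpa using hA
    _ ≤ ∑ A : N1, L * (2 ^ w * (T1.lt A).card) := sum_le_sum_of_subset (filter_subset _ _)
    _ = L * (2 ^ w * ∑ A : N1, (T1.lt A).card) := by rw [← mul_sum, ← mul_sum]
    _ ≤ L * (2 ^ w * (L * Fintype.card X)) :=
        Nat.mul_le_mul_left _ (Nat.mul_le_mul_left _ h3)
    _ = L ^ 2 * 2 ^ w * Fintype.card X := by ring

theorem Ph_sum (k b : ℕ) : ∀ j ≤ m, ρ.Ph w k b j ≤ ρ.Ph w k b 0 + ∑ i ∈ range j, ρ.dl w k b i := by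
  intro j
  induction j with
  | zero => intro _; simp
  | succ j ih =>
    intro hj
    rw [sum_range_succ]
    have h1 := ih (by omega)
    have h2 := ρ.Ph_step w (Nat.lt_of_succ_le hj) k b
    linarith

theorem tt_le (k b : ℕ) :
    ρ.tt w k b ≤ 3 * Fintype.card X + 2 * ρ.irr w + 2 * ρ.qq w k := by
  classical
  have h1 := ρ.Ph_sum w k b m le_rfl
  have h2 := ρ.Ph_nonneg w k b m
  have h3 := ρ.Ph_le w k b 0
  have ho := ρ.oo_le w k b
  -- bound each term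
  have h4 : ∀ i ∈ range m, ρ.dl w k b i ≤
      - (if (T1.Rel w (ρ.a i) ∧ rl T1 w (ρ.a i) = k) ∧ T2.lv (ρ.b i) = b then (ρ.c i : ℤ) else 0)
      + 2 * (if ((T1.Rel w (ρ.a i) ∧ rl T1 w (ρ.a i) = k) ∧ T2.lv (ρ.b i) = b) ∧
          T1.sd (ρ.a i) ≠ T2.sd (ρ.b i) then (ρ.c i : ℤ) else 0)
      + 2 * (if ¬ T1.Rel w (ρ.a i) then (ρ.c i : ℤ) else 0)
      + 2 * (if T1.Rel w (ρ.a i) ∧ rl T1 w (ρ.a i) < k then (ρ.c i : ℤ) else 0) := by
    intro i _
    have hc0 : (0 : ℤ) ≤ ρ.c i := Int.natCast_nonneg _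
    unfold dl
    by_cases hR : T1.Rel w (ρ.a i)
    · rcases lt_trichotomy (rl T1 w (ρ.a i)) k with hk | hk | hk
      · have e1 : ¬ k < rl T1 w (ρ.a i) := by omega
        have e2 : ¬ rl T1 w (ρ.a i) = k := by omega
        simp only [e1, e2, hR, hk, if_false, if_true, and_true, and_false, false_and, true_and,
          not_true]
        split_ifs <;> linarith
      · have e1 : ¬ k < rl T1 w (ρ.a i) := by omega
        have e2 : ¬ rl T1 w (ρ.a i) < k := by omega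
        simp only [e1, e2, hR, hk, if_false, if_true, and_true, and_false, false_and, true_and,
          not_true, ne_eq]
        by_cases hb : T2.lv (ρ.b i) = b <;> by_cases hs : T1.sd (ρ.a i) = T2.sd (ρ.b i) <;>
          simp [hb, hs] <;> linarith
      · have e1 : ¬ rl T1 w (ρ.a i) < k := by omega
        have e2 : ¬ rl T1 w (ρ.a i) = k := by omega
        simp only [e1, e2, hR, hk, if_false, if_true, and_true, and_false, false_and, true_and,
          not_true]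
        norm_num
    · by_cases hk : k < rl T1 w (ρ.a i)
      · simp only [hR, hk, if_false, if_true, and_true, and_false, false_and, true_and,
          not_false_iff]
        linarith
      · simp only [hR, hk, if_false, if_true, and_true, and_false, false_and, true_and,
          not_false_iff]
        split_ifs <;> linarith
  have h5 := sum_le_sum h4
  rw [sum_add_distrib, sum_add_distrib, sum_add_distrib, sum_neg_distrib, ← mul_sum, ← mul_sum,
    ← mul_sum] at h5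
  have e1 : ∑ i ∈ range m, (if (T1.Rel w (ρ.a i) ∧ rl T1 w (ρ.a i) = k) ∧ T2.lv (ρ.b i) = b
      then (ρ.c i : ℤ) else 0) = (ρ.tt w k b : ℤ) := by
    unfold tt
    rw [← sum_filter]
    push_cast
    rfl
  have e2 : ∑ i ∈ range m, (if ((T1.Rel w (ρ.a i) ∧ rl T1 w (ρ.a i) = k) ∧
      T2.lv (ρ.b i) = b) ∧ T1.sd (ρ.a i) ≠ T2.sd (ρ.b i) then (ρ.c i : ℤ) else 0) =
      (ρ.oo w k b : ℤ) := by
    unfold oo
    rw [← sum_filter]
    push_cast
    rfl
  have e3 : ∑ i ∈ range m, (if ¬ T1.Rel w (ρ.a i) then (ρ.c i : ℤ) else 0) =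
      (ρ.irr w : ℤ) := by
    unfold irr
    rw [← sum_filter]
    push_cast
    rfl
  have e4 : ∑ i ∈ range m, (if T1.Rel w (ρ.a i) ∧ rl T1 w (ρ.a i) < k then (ρ.c i : ℤ) else 0) =
      (ρ.qq w k : ℤ) := by
    unfold qq
    rw [← sum_filter]
    push_cast
    rfl
  rw [e1, e2, e3, e4] at h5
  zify
  zify at ho
  linarith

theorem qq_zero : ρ.qq w 0 = 0 := by
  classical
  unfold qq
  rw [sum_eq_zero]
  intro i hi
  rw [mem_filter] at hi
  exact absurd hi.2.2 (Nat.not_lt_zero _)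

theorem qq_succ (k : ℕ) : ρ.qq w (k + 1) ≤
    ρ.qq w k + ∑ b ∈ range (Nat.log 2 (Fintype.card X)), ρ.tt w k b := by
  classical
  unfold qq tt
  set F := (range m).filter (fun i => T1.Rel w (ρ.a i) ∧ rl T1 w (ρ.a i) = k) with hF
  have h1 : (range m).filter (fun i => T1.Rel w (ρ.a i) ∧ rl T1 w (ρ.a i) < k + 1) ⊆
      (range m).filter (fun i => T1.Rel w (ρ.a i) ∧ rl T1 w (ρ.a i) < k) ∪ F := by
    intro i hi
    rw [mem_filter] at hi
    rw [mem_union, hF, mem_filter, mem_filter]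
    by_cases h : rl T1 w (ρ.a i) < k
    · exact Or.inl ⟨hi.1, hi.2.1, h⟩
    · exact Or.inr ⟨hi.1, hi.2.1, by omega⟩
  have h2 : ∑ i ∈ F, ρ.c i = ∑ b ∈ range (Nat.log 2 (Fintype.card X)),
      ∑ i ∈ (range m).filter (fun i => (T1.Rel w (ρ.a i) ∧ rl T1 w (ρ.a i) = k) ∧
        T2.lv (ρ.b i) = b), ρ.c i := by
    rw [← sum_fiberwise_of_maps_to (s := F) (t := range (Nat.log 2 (Fintype.card X)))
      (g := fun i => T2.lv (ρ.b i)) (fun i _ => mem_range.2 (T2.lv_lt_log _))]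
    refine sum_congr rfl fun b _ => ?_
    rw [hF, filter_filter]
  refine (sum_le_sum_of_subset h1).trans ?_
  rw [← h2]
  have h3 := sum_union_inter (s₁ := (range m).filter
    (fun i => T1.Rel w (ρ.a i) ∧ rl T1 w (ρ.a i) < k)) (s₂ := F) (f := ρ.c)
  omega

theorem qq_bound (k : ℕ) :
    2 * ρ.qq w k + (3 * Fintype.card X + 2 * ρ.irr w) ≤
      (1 + 2 * Nat.log 2 (Fintype.card X)) ^ k * (3 * Fintype.card X + 2 * ρ.irr w) := by
  induction k with
  | zero => rw [ρ.qq_zero]; simp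
  | succ k ih =>
    have h1 := ρ.qq_succ w k
    have h2 : ∑ b ∈ range (Nat.log 2 (Fintype.card X)), ρ.tt w k b ≤
        ∑ _b ∈ range (Nat.log 2 (Fintype.card X)),
          (3 * Fintype.card X + 2 * ρ.irr w + 2 * ρ.qq w k) :=
      sum_le_sum fun b _ => ρ.tt_le w k b
    rw [sum_const, card_range, smul_eq_mul] at h2
    set L := Nat.log 2 (Fintype.card X)
    set C := 3 * Fintype.card X + 2 * ρ.irr w
    have h3 : ρ.qq w (k + 1) ≤ ρ.qq w k + L * (C + 2 * ρ.qq w k) := h1.trans (by omega)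
    calc 2 * ρ.qq w (k + 1) + C ≤ 2 * (ρ.qq w k + L * (C + 2 * ρ.qq w k)) + C := by omega
      _ = (1 + 2 * L) * (2 * ρ.qq w k + C) := by ring
      _ ≤ (1 + 2 * L) * ((1 + 2 * L) ^ k * C) := Nat.mul_le_mul_left _ ih
      _ = (1 + 2 * L) ^ (k + 1) * C := by ring

/-- THE TROPICAL THEOREM, abstract form. -/
theorem total (hw : 1 ≤ w) :
    2 * ∑ i ∈ range m, ρ.c i ≤
      (1 + 2 * Nat.log 2 (Fintype.card X)) ^ (Nat.log 2 (Fintype.card X) / w) *
        ((3 + 2 * (Nat.log 2 (Fintype.card X) ^ 2 * 2 ^ w)) * Fintype.card X) := by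
  classical
  set L := Nat.log 2 (Fintype.card X) with hL
  have h1 : ∑ i ∈ range m, ρ.c i ≤ ρ.qq w (L / w) + ρ.irr w := by
    unfold qq irr
    rw [← sum_filter_add_sum_filter_not (range m) (fun i => T1.Rel w (ρ.a i))]
    refine add_le_add (sum_le_sum_of_subset ?_) le_rfl
    intro i hi
    rw [mem_filter] at hi ⊢
    refine ⟨hi.1, hi.2, ?_⟩
    have h2 := T1.rel_lev hi.2
    unfold rl
    have h3 : T1.lev (T1.Rel w) (ρ.a i) + 1 ≤ L / w := by
      rw [Nat.le_div_iff_mul_le (by omega), mul_comm]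
      exact h2
    omega
  have h2 := ρ.qq_bound w (L / w)
  have h3 := ρ.irr_le w
  have h4 : 2 * ∑ i ∈ range m, ρ.c i ≤
      (1 + 2 * L) ^ (L / w) * (3 * Fintype.card X + 2 * ρ.irr w) := by
    rw [← hL] at h2
    omega
  refine h4.trans (Nat.mul_le_mul_left _ ?_)
  calc 3 * Fintype.card X + 2 * ρ.irr w
      ≤ 3 * Fintype.card X + 2 * (L ^ 2 * 2 ^ w * Fintype.card X) := by
        rw [← hL] at h3
        omega
    _ = (3 + 2 * (L ^ 2 * 2 ^ w)) * Fintype.card X := by ring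

end Run

end Pool.Agent.Work.MP_e17eac_co.TROP

end

section

/-!
# Ring module: the popular slope
-/

namespace Pool.Agent.Work.MP_e17eac_co.RING

open Finset
open scoped Pointwise

namespace XRL

variable {a R K : ℝ} {A : Finset ℝ} {T : Finset (ℝ × ℝ)} {I : Finset ((ℝ × ℝ) × ℝ)}

/-- The cells with first coordinate in `A₀`. -/
noncomputable def GG (T : Finset (ℝ × ℝ)) (I : Finset ((ℝ × ℝ) × ℝ)) (x₁ x₂ : ℝ) (A₀ : Finset ℤ)
    (x : ℝ) : Finset (ℝ × ℝ) := (G T I x₁ x₂ x).filter fun p => ⌊bb x₁ p⌋ ∈ A₀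

lemma GG_card {x₁ x₂ x k L l : ℝ} {U A₀ : Finset ℤ} (hk : 0 ≤ k) (hL : 0 < L) (hl : 0 < l)
    (hc : k ≤ l * ((U ∩ A₀).card : ℝ))
    (hU : ∀ u ∈ U, k ≤ L * (((PP T I x₂).filter fun v => (u, v) ∈ EE T I x₁ x₂ x).card : ℝ)) :
    k ^ 2 ≤ l * L * ((GG T I x₁ x₂ A₀ x).card : ℝ) := by
  have h1 : ∑ u ∈ U ∩ A₀, ((PP T I x₂).filter fun v => (u, v) ∈ EE T I x₁ x₂ x).card ≤
      (GG T I x₁ x₂ A₀ x).card := by
    rw [← card_sigma]
    have h2 : ((U ∩ A₀).sigma fun u => (PP T I x₂).filter fun v => (u, v) ∈ EE T I x₁ x₂ x).card ≤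
        ((GG T I x₁ x₂ A₀ x).image fun p => (⌊bb x₁ p⌋, ⌊bb x₂ p⌋)).card := by
      refine card_le_card_of_injOn (fun z => (z.1, z.2)) ?_ ?_
      · intro z hz
        rw [mem_coe, mem_sigma, mem_inter, mem_filter] at hz
        obtain ⟨⟨_, hz1⟩, _, hz2⟩ := hz
        rw [EE, mem_image] at hz2
        obtain ⟨p, hp, hpz⟩ := hz2
        rw [mem_coe, mem_image]
        refine ⟨p, mem_filter.mpr ⟨hp, ?_⟩, hpz⟩
        rw [(Prod.mk.inj hpz).1]
        exact hz1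
      · rintro ⟨u, v⟩ _ ⟨u', v'⟩ _ h
        simp only [Prod.mk.injEq] at h
        obtain ⟨rfl, rfl⟩ := h
        rfl
    exact h2.trans card_image_le
  have h3 : ((U ∩ A₀).card : ℝ) * (k / L) ≤ ((GG T I x₁ x₂ A₀ x).card : ℝ) := by
    refine le_trans ?_ (by exact_mod_cast h1 :
      ((∑ u ∈ U ∩ A₀, ((PP T I x₂).filter fun v => (u, v) ∈ EE T I x₁ x₂ x).card : ℕ) : ℝ) ≤ _)
    push_cast
    rw [← nsmul_eq_mul, ← sum_const]
    refine sum_le_sum fun u hu => ?_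
    rw [div_le_iff₀ hL]
    have := hU u (mem_inter.mp hu).1
    linarith
  have h4 : k / l ≤ ((U ∩ A₀).card : ℝ) := by
    rw [div_le_iff₀ hl]
    linarith
  have h5 : k / l * (k / L) ≤ ((GG T I x₁ x₂ A₀ x).card : ℝ) :=
    le_trans (by gcongr) h3
  have h6 : k / l * (k / L) = k ^ 2 / (l * L) := by
    field_simp
  rw [h6, div_le_iff₀ (by positivity)] at h5
  linarith

lemma popular (hEdge : StEdge) (hCls : StCls) (hBSG : StBSG) (hPop : StPop) (hDil : StDil)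
    (h : Config a R K A T I)
    (hR : 1 ≤ R) (ha : 0 < a) (ha1 : a ≤ 1) (hK : 100 ≤ K) {W : ℝ} (hW : K ^ 10 ≤ W)
    {x₁ x₂ : ℝ} (hx₁ : x₁ ∈ A) (hx₂ : x₂ ∈ A) (h12 : 1 ≤ W * |x₁ - x₂|) {X : Finset ℝ}
    (hXA : X ⊆ A) (hXne : X.Nonempty)
    (hX : ∀ x ∈ X, 1 ≤ W * |x - x₁| ∧ 1 ≤ W * |x - x₂| ∧
        (R ^ a) ^ 2 ≤ 4 * K ^ 8 * ((G T I x₁ x₂ x).card : ℝ)) :
    ∃ x₀ ∈ X, ∃ X₀ ⊆ X, ∃ A₀ ⊆ PP T I x₁, (X.card : ℝ) ≤ (W ^ 66) ^ 9 * (X₀.card : ℝ) ∧
      R ^ a ≤ W ^ 66 * (A₀.card : ℝ) ∧ ∀ x ∈ X₀,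
      ((dl (cc x₁ x₂ x) A₀ - dl (cc x₁ x₂ x₀) A₀).card : ℝ) ≤ ((W ^ 66) ^ 8) ^ 16 * R ^ a ∧
      (R ^ a) ^ 2 ≤ (W ^ 66) ^ 9 * ((GG T I x₁ x₂ A₀ x).card : ℝ) := by
  set k : ℝ := R ^ a with hk
  have hk1 : 1 ≤ k := Real.one_le_rpow hR ha.le
  have hK1 : 1 ≤ K := by linarith
  have hKW : K ≤ W := by
    calc K = K ^ 1 := (pow_one K).symm
      _ ≤ K ^ 10 := pow_le_pow_right₀ hK1 (by norm_num)
      _ ≤ W := hW
  have hW100 : 100 ≤ W := hK.trans hKW
  have hW1 : 1 ≤ W := by linarith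
  have hW0 : 0 < W := by linarith
  have hWL : W ≤ W ^ 66 := by
    calc W = W ^ 1 := (pow_one W).symm
      _ ≤ W ^ 66 := pow_le_pow_right₀ hW1 (by norm_num)
  have hL1 : (W ^ 3) ^ 22 = W ^ 66 := by rw [← pow_mul]
  have hg := fun x (hx : x ∈ X) => graph hEdge hCls hBSG h hR ha ha1 hK hW hx₁ hx₂ (hXA hx) h12
    (hX x hx).1 (hX x hx).2.1 (hX x hx).2.2
  rw [hL1] at hg
  choose! U hU V hV hUc hVc himg hdeg using hg
  have hKL : K * k ≤ W ^ 66 * k := by gcongr; exact hKW.trans hWL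
  obtain ⟨x₀, hx₀, X₀, hX₀, hcard, hX₀p⟩ := hPop (W ^ 66) k X (PP T I x₁) (PP T I x₂) U V
    (by linarith) (by linarith) hXne ((PP_le h hx₁).trans hKL) ((PP_le h hx₂).trans hKL)
    (fun x hx => ⟨hU x hx, hV x hx, hUc x hx, hVc x hx⟩)
  refine ⟨x₀, hx₀, X₀, hX₀, U x₀, hU x₀ hx₀, hcard, hUc x₀ hx₀, fun x hx => ?_⟩
  have hxX := hX₀ hx
  have c := cc_bd hW1 (h.slope x (hXA hxX)) (h.slope x₁ hx₁) (h.slope x₂ hx₂) (hX x hxX).1
    (hX x hxX).2.1
  have c0 := cc_bd hW1 (h.slope x₀ (hXA hx₀)) (h.slope x₁ hx₁) (h.slope x₂ hx₂) (hX x₀ hx₀).1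
    (hX x₀ hx₀).2.1
  have hL8 : W ^ 66 ≤ (W ^ 66) ^ 8 := by
    calc W ^ 66 = (W ^ 66) ^ 1 := (pow_one _).symm
      _ ≤ (W ^ 66) ^ 8 := pow_le_pow_right₀ (one_le_pow₀ hW1) (by norm_num)
  have hWL8 : W ≤ (W ^ 66) ^ 8 := hWL.trans hL8
  constructor
  · refine hDil ((W ^ 66) ^ 8) k _ _ (U x) (U x₀) (V x) (V x₀) (by linarith) hk1
      (c.1.trans hWL8) (c.2.trans (by gcongr)) (c0.1.trans hWL8) (c0.2.trans (by gcongr))
      ((himg x hxX).trans (by gcongr)) ((himg x₀ hx₀).trans (by gcongr)) (hX₀p x hx).1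
      (hX₀p x hx).2
  · have := GG_card (T := T) (I := I) (x₁ := x₁) (x₂ := x₂) (x := x) (k := k) (L := W ^ 66)
      (l := (W ^ 66) ^ 8) (U := U x) (A₀ := U x₀) (by linarith) (by positivity) (by positivity)
      (hX₀p x hx).1 (hdeg x hxX)
    calc k ^ 2 ≤ (W ^ 66) ^ 8 * W ^ 66 * ((GG T I x₁ x₂ (U x₀) x).card : ℝ) := this
      _ = _ := by ring

end XRL

end Pool.Agent.Work.MP_e17eac_co.RING

end
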