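import Pool.Agent.Work.MP_e17eac_co.Bd.B06
import Pool.Agent.Work.MP_e17eac_co.Bd.B18
import Pool.Agent.Work.MP_e17eac_co.Bd.B12

/-! Bundle of small proof modules (one section per former module). -/

section

/-!
# Arbitrary sets, blueprint part B-1 (note 2870): definitions

Mass cells: level `x` has `r ^ (4 x)` cells, the cell of the edge `i` is `i * r ^ (4 x) / N`
(nested index intervals). Hygienic edges, two-sided structures, structures with units.
-/

namespace Pool.Agent.Work.MP_e17eac_co.B1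

open Finset
open Pool.Agent.Work.MP_e17eac_co.DH

variable {ι : Type} [Fintype ι] [DecidableEq ι]

/-- The cell of level `x` of the edge `i`. -/
def cell (K : KSys ι) (r x i : ℕ) : ℕ := i * r ^ (4 * x) / K.N

/-- The edges of the cell `c` of level `x`. -/
def ce (K : KSys ι) (r x c : ℕ) : Finset ℕ := (range K.N).filter (fun i => cell K r x i = c)

/-- The lines visited in the cell `c` of level `x`. -/
def vis (K : KSys ι) (r x c : ℕ) : Finset ι := K.lines (ce K r x c)

/-- The number of cells of level `x` visited by `p`. -/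
def W (K : KSys ι) (r x : ℕ) (p : ι) : ℕ :=
  ((range (r ^ (4 * x))).filter (fun w => p ∈ vis K r x w)).card

/-- The number of cells of level `x` in the cell `c` of level `z` visited by `p`. -/
def Wr (K : KSys ι) (r z c x : ℕ) (p : ι) : ℕ :=
  ((range (r ^ (4 * x))).filter (fun w => w / r ^ (4 * (x - z)) = c ∧ p ∈ vis K r x w)).card

open Classical in
/-- The typical lines. -/
noncomputable def PS (K : KSys ι) (r m : ℕ) (H : ℝ) : Finset ι :=
  (K.lines (range K.N)).filter (fun p => ∀ x, x ≤ m → (W K r x p : ℝ) ≤ H * (r : ℝ) ^ x)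

open Classical in
/-- The lines which are typical in the cell `c` of level `z`. -/
noncomputable def PSr (K : KSys ι) (r m : ℕ) (H : ℝ) (z c : ℕ) : Finset ι :=
  (vis K r z c).filter (fun p => ∀ x, z ≤ x → x ≤ m →
    (Wr K r z c x p : ℝ) ≤ H * (r : ℝ) ^ (x - z))

/-- Hygienic edges: both lines are typical, absolutely and relatively to all cells, the cells are
not crowded, the pairs (line, cell) are light. -/
structure Hyg (K : KSys ι) (r m : ℕ) (H : ℝ) (i : ℕ) : Prop where
  lt : i < K.N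
  ps : ∀ s, K.ln s i ∈ PS K r m H
  crowd : ∀ x, x ≤ m → ((vis K r x (cell K r x i)).card : ℝ) * (r : ℝ) ^ (3 * x) ≤
    H * Fintype.card ι
  light : ∀ s x, x ≤ m → (((range K.N).filter (fun j => K.ln s j = K.ln s i ∧
    cell K r x j = cell K r x i)).card : ℝ) * (Fintype.card ι * (r : ℝ) ^ x) ≤ H * K.N
  rel : ∀ s z, z ≤ m → K.ln s i ∈ PSr K r m H z (cell K r z i)

/-- Two-sided structure: `H` = hygiene (fixed), `D` = losses. -/
structure TS (K : KSys ι) (r m : ℕ) (H D : ℝ) (P : Finset ι) (E : Bool → Finset ℕ) : Prop where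
  hyg : ∀ s, ∀ i ∈ E s, Hyg K r m H i
  aP : ∀ s, ∀ i ∈ E s, K.a i ∈ P
  sub : P ⊆ PS K r m H
  deg : ∀ s, ∀ p ∈ P, (K.N : ℝ) ≤
    D * Fintype.card ι * (((E s).filter (fun i => K.a i = p)).card : ℝ)
  big : (Fintype.card ι : ℝ) ≤ D * P.card

/-- `(P', E')` is a substructure of `(P, E)`. -/
def SubTS (P' : Finset ι) (E' : Bool → Finset ℕ) (P : Finset ι) (E : Bool → Finset ℕ) : Prop :=
  P' ⊆ P ∧ ∀ s, E' s ⊆ E s

/-- One-sided structure. -/
structure OS (K : KSys ι) (r m : ℕ) (H D : ℝ) (P : Finset ι) (E : Finset ℕ) : Prop where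
  hyg : ∀ i ∈ E, Hyg K r m H i
  aP : ∀ i ∈ E, K.a i ∈ P
  sub : P ⊆ PS K r m H
  deg : ∀ p ∈ P, (K.N : ℝ) ≤ D * Fintype.card ι * ((E.filter (fun i => K.a i = p)).card : ℝ)
  big : (Fintype.card ι : ℝ) ≤ D * P.card

/-- Standing assumptions: `r` large, few levels, dense level. -/
structure Std (K : KSys ι) (r m : ℕ) (H : ℝ) : Prop where
  inj : Function.Injective K.x
  two : 2 ≤ r
  one : 1 ≤ H
  pow : r ^ (4 * m) ≤ K.N
  dense : (Fintype.card ι : ℝ) ^ ((4 : ℝ) / 3) ≤ H * K.N

end Pool.Agent.Work.MP_e17eac_co.B1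

end

section

/-!
TROP: two trees adapted to two real functions `f`, `c`; the orders given by `f` for the pairs of nodes
which are not processed and by `c` for the processed ones, and the run they define.
-/
set_option autoImplicit false
set_option linter.unusedSectionVars false
set_option linter.unusedVariables false

namespace Pool.Agent.Work.MP_e17eac_co.TROP

open Finset

section rank

variable {Y : Type*} [Fintype Y]

open Classical in
/-- the rank of an element for a relation -/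
noncomputable def rk (R : Y → Y → Prop) (y : Y) : ℕ := (univ.filter fun z => R z y).card

/-- strict total orders -/
structure STO (R : Y → Y → Prop) : Prop where
  irr : ∀ y, ¬ R y y
  tot : ∀ y z, y ≠ z → R y z ∨ R z y
  tra : ∀ x y z, R x y → R y z → R x z

theorem rk_lt {R : Y → Y → Prop} (h : STO R) {y z : Y} (hyz : R y z) : rk R y < rk R z := by
  classical
  unfold rk
  apply card_lt_card
  constructor
  · intro x hx
    simp only [mem_filter, mem_univ, true_and] at hx ⊢
    exact h.tra _ _ _ hx hyz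
  · intro hcon
    have h1 : y ∈ univ.filter fun x => R x y := hcon (by simpa using hyz)
    simp only [mem_filter, mem_univ, true_and] at h1
    exact h.irr y h1

theorem rk_lt_iff {R : Y → Y → Prop} (h : STO R) {y z : Y} : rk R y < rk R z ↔ R y z := by
  constructor
  · intro h1
    by_contra h2
    by_cases hyz : y = z
    · subst hyz
      exact lt_irrefl _ h1
    · rcases h.tot y z hyz with h3 | h3
      · exact h2 h3
      · exact absurd (rk_lt h h3) (not_lt.2 h1.le)
  · exact rk_lt h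

theorem rk_inj {R : Y → Y → Prop} (h : STO R) : Function.Injective (rk R) := by
  intro y z hyz
  by_contra hne
  rcases h.tot y z hne with h3 | h3
  · exact absurd hyz (rk_lt h h3).ne
  · exact absurd hyz (rk_lt h h3).ne'

theorem rk_bound {R : Y → Y → Prop} (h : STO R) (y : Y) : rk R y < Fintype.card Y := by
  classical
  unfold rk
  rw [← card_univ]
  apply card_lt_card
  constructor
  · exact filter_subset _ _
  · intro hcon
    have h1 : y ∈ univ.filter fun x => R x y := hcon (mem_univ _)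
    simp only [mem_filter, mem_univ, true_and] at h1
    exact h.irr y h1

theorem rk_image {R : Y → Y → Prop} (h : STO R) :
    univ.image (rk R) = range (Fintype.card Y) := by
  apply eq_of_subset_of_card_le
  · intro j hj
    obtain ⟨y, _, rfl⟩ := mem_image.1 hj
    exact mem_range.2 (rk_bound h y)
  · rw [card_range, card_image_of_injective _ (rk_inj h), card_univ]

theorem rk_surj {R : Y → Y → Prop} (h : STO R) {j : ℕ} (hj : j < Fintype.card Y) :
    ∃ y, rk R y = j := by
  have h1 : j ∈ univ.image (rk R) := by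
    rw [rk_image h]
    exact mem_range.2 hj
  obtain ⟨y, _, hy⟩ := mem_image.1 h1
  exact ⟨y, hy⟩

theorem card_low {R : Y → Y → Prop} (h : STO R) (k : ℕ) :
    (univ.filter fun y => rk R y < k).card = min k (Fintype.card Y) := by
  classical
  have h1 : ((univ.filter fun y => rk R y < k).image (rk R)).card =
      (univ.filter fun y => rk R y < k).card :=
    card_image_of_injective _ (rk_inj h)
  rw [← h1]
  have h2 : (univ.filter fun y => rk R y < k).image (rk R) = range (min k (Fintype.card Y)) := by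
    ext j
    simp only [mem_image, mem_filter, mem_univ, true_and, mem_range]
    constructor
    · rintro ⟨y, hy, rfl⟩
      exact lt_min hy (rk_bound h y)
    · intro hj
      obtain ⟨y, hy⟩ := rk_surj h (lt_of_lt_of_le hj (min_le_right _ _))
      exact ⟨y, by rw [hy]; exact lt_of_lt_of_le hj (min_le_left _ _), hy⟩
  rw [h2, card_range]

end rank

variable {X N1 N2 : Type*} [DecidableEq X] [Fintype X] [Fintype N1] [DecidableEq N1]
  [Fintype N2] [DecidableEq N2]

/-- the tree describes the order of the values of `f` -/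
structure Ad {N : Type*} (T : BT X N) (f : X → ℝ) : Prop where
  inj : Function.Injective f
  ex : ∀ y z, f y < f z → ∃ A, y ∈ T.l A ∧ z ∈ T.r A
  lt : ∀ A y z, y ∈ T.l A → z ∈ T.r A → f y < f z

/-- `A` is the meet of `y` and `z` -/
def Mt {N : Type*} (T : BT X N) (A : N) (y z : X) : Prop :=
  (y ∈ T.l A ∧ z ∈ T.r A) ∨ (z ∈ T.l A ∧ y ∈ T.r A)

theorem Mt.symm {N : Type*} {T : BT X N} {A : N} {y z : X} (h : Mt T A y z) : Mt T A z y := by
  rcases h with h | h
  · exact Or.inr h
  · exact Or.inl h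

theorem Mt.sp {N : Type*} {T : BT X N} {A : N} {y z : X} (h : Mt T A y z) :
    y ∈ T.sp A ∧ z ∈ T.sp A := by
  rcases h with h | h
  · exact ⟨mem_union_left _ h.1, mem_union_right _ h.2⟩
  · exact ⟨mem_union_right _ h.2, mem_union_left _ h.1⟩

/-- a node above the meet does not separate -/
theorem Mt.not_bel {N : Type*} {T : BT X N} {A A' : N} {y z : X} (h' : Mt T A' y z)
    (hy : y ∈ T.sp A) (hz : z ∈ T.sp A) (hb : T.Bel A A') : False := by
  rcases hb with hb | hb <;> rcases h' with h' | h'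
  · exact T.disj A' z (hb hz) h'.2
  · exact T.disj A' y (hb hy) h'.2
  · exact T.disj A' y h'.1 (hb hy)
  · exact T.disj A' z h'.1 (hb hz)

theorem Mt.unique {N : Type*} {T : BT X N} {A A' : N} {y z : X} (h : Mt T A y z)
    (h' : Mt T A' y z) : A = A' := by
  by_contra hne
  rcases T.lam' hne h.sp.1 h'.sp.1 with hb | hb
  · exact h'.not_bel h.sp.1 h.sp.2 hb
  · exact h.not_bel h'.sp.1 h'.sp.2 hb

/-- if `y`, `z` lie in the same child of `A` then their meet is below `A` -/
theorem Mt.bel {N : Type*} {T : BT X N} {A A' : N} {y z : X} (h' : Mt T A' y z)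
    (h : (y ∈ T.l A ∧ z ∈ T.l A) ∨ (y ∈ T.r A ∧ z ∈ T.r A)) : T.Bel A' A := by
  have hne : A' ≠ A := by
    rintro rfl
    rcases h with h | h <;> rcases h' with h' | h'
    · exact T.disj A' z h.2 h'.2
    · exact T.disj A' y h.1 h'.2
    · exact T.disj A' y h'.1 h.1
    · exact T.disj A' z h'.1 h.2
  have hy : y ∈ T.sp A := by
    rcases h with h | h
    · exact mem_union_left _ h.1
    · exact mem_union_right _ h.1
  have hz : z ∈ T.sp A := by
    rcases h with h | h
    · exact mem_union_left _ h.2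
    · exact mem_union_right _ h.2
  rcases T.lam' hne h'.sp.1 hy with hb | hb
  · exact hb
  · exact (h'.not_bel hy hz hb).elim

theorem Ad.mt {N : Type*} {T : BT X N} {f : X → ℝ} (h : Ad T f) {y z : X} (hyz : y ≠ z) :
    ∃ A, Mt T A y z := by
  rcases lt_or_gt_of_ne (fun e => hyz (h.inj e)) with h1 | h1
  · obtain ⟨A, hA⟩ := h.ex y z h1
    exact ⟨A, Or.inl hA⟩
  · obtain ⟨A, hA⟩ := h.ex z y h1
    exact ⟨A, Or.inr hA⟩

/-- `x` is the outlier of `x`, `y`, `z` in the tree -/
def Out {N : Type*} (T : BT X N) (f : X → ℝ) (x y z : X) : Prop :=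
  ∃ A' A, Mt T A' x y ∧ Mt T A' x z ∧ Mt T A y z ∧ T.Bel A A' ∧ (f x < f y ↔ f x < f z) ∧
    (f y < f x ↔ f z < f x)

theorem Ad.out {N : Type*} {T : BT X N} {f : X → ℝ} (h : Ad T f) {x y z : X} (hxy : x ≠ y)
    (hxz : x ≠ z) (hyz : y ≠ z) : Out T f x y z ∨ Out T f y z x ∨ Out T f z x y := by
  obtain ⟨A, hA⟩ := h.mt hxy
  obtain ⟨A1, hA1⟩ := h.mt hxz
  obtain ⟨A2, hA2⟩ := h.mt hyz
  by_cases hz : z ∈ T.sp A
  · rcases hA with hA | hA
    · -- x left, y right
      rcases mem_union.1 hz with hz | hz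
      · -- z left: outlier y
        right; left
        have e : Mt T A y z := Or.inr ⟨hz, hA.2⟩
        refine ⟨A, A1, e, Or.inr hA, hA1.symm, hA1.bel (Or.inl ⟨hA.1, hz⟩), ?_, ?_⟩
        · have a1 := h.lt A z y hz hA.2
          have a2 := h.lt A x y hA.1 hA.2
          constructor <;> intro h3 <;> linarith
        · have a1 := h.lt A z y hz hA.2
          have a2 := h.lt A x y hA.1 hA.2
          exact ⟨fun _ => a2, fun _ => a1⟩
      · -- z right: outlier x
        left
        refine ⟨A, A2, Or.inl hA, Or.inl ⟨hA.1, hz⟩, hA2, hA2.bel (Or.inr ⟨hA.2, hz⟩), ?_, ?_⟩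
        · have a1 := h.lt A x z hA.1 hz
          have a2 := h.lt A x y hA.1 hA.2
          exact ⟨fun _ => a1, fun _ => a2⟩
        · have a1 := h.lt A x z hA.1 hz
          have a2 := h.lt A x y hA.1 hA.2
          constructor <;> intro h3 <;> linarith
    · -- y left, x right
      rcases mem_union.1 hz with hz | hz
      · -- z left: outlier x
        left
        refine ⟨A, A2, Or.inr hA, Or.inr ⟨hz, hA.2⟩, hA2, hA2.bel (Or.inl ⟨hA.1, hz⟩), ?_, ?_⟩
        · have a1 := h.lt A z x hz hA.2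
          have a2 := h.lt A y x hA.1 hA.2
          constructor <;> intro h3 <;> linarith
        · have a1 := h.lt A z x hz hA.2
          have a2 := h.lt A y x hA.1 hA.2
          exact ⟨fun _ => a1, fun _ => a2⟩
      · -- z right: outlier y
        right; left
        have e : Mt T A y z := Or.inl ⟨hA.1, hz⟩
        refine ⟨A, A1, e, Or.inl hA, hA1.symm, hA1.bel (Or.inr ⟨hA.2, hz⟩), ?_, ?_⟩
        · have a1 := h.lt A y z hA.1 hz
          have a2 := h.lt A y x hA.1 hA.2
          exact ⟨fun _ => a2, fun _ => a1⟩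
        · have a1 := h.lt A y z hA.1 hz
          have a2 := h.lt A y x hA.1 hA.2
          constructor <;> intro h3 <;> linarith
  · -- z outside: outlier z
    right; right
    have hbel : T.Bel A A1 := by
      have hne : A ≠ A1 := by
        rintro rfl
        exact hz hA1.sp.2
      rcases T.lam' hne hA.sp.1 hA1.sp.1 with hb | hb
      · exact hb
      · exact absurd (T.bel_sub hb hA1.sp.2) hz
    have hm : (z ∈ T.l A1 ∧ T.sp A ⊆ T.r A1) ∨ (z ∈ T.r A1 ∧ T.sp A ⊆ T.l A1) := by
      rcases hbel with hb | hb <;> rcases hA1 with hA1 | hA1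
      · exact Or.inr ⟨hA1.2, hb⟩
      · exact absurd hA1.2 (T.disj A1 x (hb hA.sp.1))
      · exact absurd (hb hA.sp.1) (T.disj A1 x hA1.1)
      · exact Or.inl ⟨hA1.1, hb⟩
    have e1 : Mt T A1 z x := hA1.symm
    have e2 : Mt T A1 z y := by
      rcases hm with hm | hm
      · exact Or.inl ⟨hm.1, hm.2 hA.sp.2⟩
      · exact Or.inr ⟨hm.2 hA.sp.2, hm.1⟩
    refine ⟨A1, A, e1, e2, hA, hbel, ?_, ?_⟩
    · rcases hm with hm | hm
      · exact ⟨fun _ => h.lt A1 z y hm.1 (hm.2 hA.sp.2), fun _ => h.lt A1 z x hm.1 (hm.2 hA.sp.1)⟩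
      · have a1 := h.lt A1 x z (hm.2 hA.sp.1) hm.1
        have a2 := h.lt A1 y z (hm.2 hA.sp.2) hm.1
        constructor <;> intro h3 <;> linarith
    · rcases hm with hm | hm
      · have a1 := h.lt A1 z x hm.1 (hm.2 hA.sp.1)
        have a2 := h.lt A1 z y hm.1 (hm.2 hA.sp.2)
        constructor <;> intro h3 <;> linarith
      · exact ⟨fun _ => h.lt A1 y z (hm.2 hA.sp.2) hm.1, fun _ => h.lt A1 x z (hm.2 hA.sp.1) hm.1⟩

section order

variable (T1 : BT X N1) (T2 : BT X N2) (f c : X → ℝ) (P : N1 → N2 → Prop)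

/-- the pair of the meets is processed -/
def Pr (y z : X) : Prop := ∃ A B, Mt T1 A y z ∧ Mt T2 B y z ∧ P A B

/-- the order: by `c` for processed pairs, by `f` for the others -/
def Ord (y z : X) : Prop := (Pr T1 T2 P y z ∧ c y < c z) ∨ (¬ Pr T1 T2 P y z ∧ f y < f z)

variable {T1 T2 f c P}

theorem Pr.symm {y z : X} (h : Pr T1 T2 P y z) : Pr T1 T2 P z y := by
  obtain ⟨A, B, h1, h2, h3⟩ := h
  exact ⟨A, B, h1.symm, h2.symm, h3⟩

theorem pr_iff {y z : X} {A : N1} {B : N2} (hA : Mt T1 A y z) (hB : Mt T2 B y z) :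
    Pr T1 T2 P y z ↔ P A B := by
  constructor
  · rintro ⟨A', B', h1, h2, h3⟩
    rw [hA.unique h1, hB.unique h2]
    exact h3
  · intro h
    exact ⟨A, B, hA, hB, h⟩

/-- no cycles, if `x` is the outlier in the first tree -/
theorem no_cycle (h2 : Ad T2 c) (m1 : ∀ A A' B, P A' B → T1.Bel A A' → P A B)
    (m2 : ∀ A B B', P A B → T2.Bel B B' → P A B') {x y z : X} (hxy : x ≠ y)
    (hxz : x ≠ z) (hyz : y ≠ z) (ho : Out T1 f x y z)
    (a1 : Ord T1 T2 f c P x y) (a2 : Ord T1 T2 f c P y z) (a3 : Ord T1 T2 f c P z x) : False := by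
  obtain ⟨A', A, k1, k2, k3, k4, k5, k6⟩ := ho
  -- decide by `P` on the pairs
  rcases h2.out hxy hxz hyz with ho | ho | ho
  · obtain ⟨B', B, l1, l2, l3, l4, l5, l6⟩ := ho
    have e1 := pr_iff (P := P) k1 l1
    have e2 := pr_iff (P := P) k2.symm l2.symm
    rcases a1 with a1 | a1 <;> rcases a3 with a3 | a3
    · have := l5.1 a1.2
      linarith [a3.2]
    · exact a3.1 (e2.2 (e1.1 a1.1))
    · exact a1.1 (e1.2 (e2.1 a3.1))
    · have := k5.1 a1.2
      linarith [a3.2]
  · -- outlier y in the second tree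
    obtain ⟨B', B, l1, l2, l3, l4, l5, l6⟩ := ho
    have e1 := pr_iff (P := P) k1 l2.symm
    have e2 := pr_iff (P := P) k3 l1
    have e3 := pr_iff (P := P) k2.symm l3
    by_cases hP : P A' B'
    · have hP2 : P A B' := m1 _ _ _ hP k4
      rcases a1 with a1 | a1
      · rcases a2 with a2 | a2
        · have := l5.1 a2.2
          linarith [a1.2]
        · exact a2.1 (e2.2 hP2)
      · exact a1.1 (e1.2 hP)
    · have hP2 : ¬ P A' B := fun h => hP (m2 _ _ _ h l4)
      rcases a1 with a1 | a1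
      · exact hP (e1.1 a1.1)
      · rcases a3 with a3 | a3
        · exact hP2 (e3.1 a3.1)
        · have := k5.1 a1.2
          linarith [a3.2]
  · -- outlier z in the second tree
    obtain ⟨B', B, l1, l2, l3, l4, l5, l6⟩ := ho
    have e3 := pr_iff (P := P) k2.symm l1
    have e2 := pr_iff (P := P) k3 l2.symm
    have e1 := pr_iff (P := P) k1 l3
    by_cases hP : P A' B'
    · have hP2 : P A B' := m1 _ _ _ hP k4
      rcases a3 with a3 | a3
      · rcases a2 with a2 | a2
        · have := l5.1 a3.2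
          linarith [a2.2]
        · exact a2.1 (e2.2 hP2)
      · exact a3.1 (e3.2 hP)
    · have hP2 : ¬ P A' B := fun h => hP (m2 _ _ _ h l4)
      rcases a3 with a3 | a3
      · exact hP (e3.1 a3.1)
      · rcases a1 with a1 | a1
        · exact hP2 (e1.1 a1.1)
        · have := k5.1 a1.2
          linarith [a3.2]

theorem ord_sto (h1 : Ad T1 f) (h2 : Ad T2 c) (m1 : ∀ A A' B, P A' B → T1.Bel A A' → P A B)
    (m2 : ∀ A B B', P A B → T2.Bel B B' → P A B') : STO (Ord T1 T2 f c P) := by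
  have irr : ∀ y, ¬ Ord T1 T2 f c P y y := by
    rintro y (h | h) <;> exact lt_irrefl _ h.2
  have tot : ∀ y z, y ≠ z → Ord T1 T2 f c P y z ∨ Ord T1 T2 f c P z y := by
    intro y z hyz
    by_cases hP : Pr T1 T2 P y z
    · rcases lt_or_gt_of_ne (fun e => hyz (h2.inj e)) with h | h
      · exact Or.inl (Or.inl ⟨hP, h⟩)
      · exact Or.inr (Or.inl ⟨hP.symm, h⟩)
    · rcases lt_or_gt_of_ne (fun e => hyz (h1.inj e)) with h | h
      · exact Or.inl (Or.inr ⟨hP, h⟩)
      · exact Or.inr (Or.inr ⟨fun h' => hP h'.symm, h⟩)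
  have asym : ∀ y z, Ord T1 T2 f c P y z → Ord T1 T2 f c P z y → False := by
    rintro y z (h | h) (h' | h')
    · exact lt_asymm h.2 h'.2
    · exact h'.1 h.1.symm
    · exact h.1 h'.1.symm
    · exact lt_asymm h.2 h'.2
  refine ⟨irr, tot, fun x y z a1 a2 => ?_⟩
  have hxy : x ≠ y := by rintro rfl; exact irr _ a1
  have hyz : y ≠ z := by rintro rfl; exact irr _ a2
  have hxz : x ≠ z := by rintro rfl; exact asym _ _ a1 a2
  rcases tot x z hxz with h | a3
  · exact h
  · exfalso
    rcases h1.out hxy hxz hyz with ho | ho | ho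
    · exact no_cycle h2 m1 m2 hxy hxz hyz ho a1 a2 a3
    · exact no_cycle h2 m1 m2 hyz hxy.symm hxz.symm ho a2 a3 a1
    · exact no_cycle h2 m1 m2 hxz.symm hyz.symm hxy ho a3 a1 a2

end order

end Pool.Agent.Work.MP_e17eac_co.TROP

end

section

/-!
TROP: the gap tree of an injective real function.
-/
set_option autoImplicit false
set_option linter.unusedSectionVars false
set_option linter.unusedVariables false

namespace Pool.Agent.Work.MP_e17eac_co.TROP

open Finset

variable {X : Type*} [DecidableEq X] [Fintype X]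

/-- nodes of the gap tree: the points which are not the maximum of `f` -/
def GN (f : X → ℝ) : Type _ := {p : X // ∃ q, f p < f q}

noncomputable instance (f : X → ℝ) : DecidableEq (GN f) := Classical.decEq _

noncomputable instance (f : X → ℝ) : Fintype (GN f) := by
  classical
  unfold GN
  infer_instance

open Classical in
theorem gap_ne (f : X → ℝ) (p : GN f) : (univ.filter fun q => f p.1 < f q).Nonempty := by
  obtain ⟨q, hq⟩ := p.2
  exact ⟨q, by simpa using hq⟩

open Classical in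
/-- the gap above `p` -/
noncomputable def gap (f : X → ℝ) (p : GN f) : ℝ :=
  (univ.filter fun q => f p.1 < f q).inf' (gap_ne f p) f - f p.1

theorem gap_le (f : X → ℝ) (p : GN f) {q : X} (h : f p.1 < f q) : gap f p ≤ f q - f p.1 := by
  classical
  unfold gap
  have h1 := inf'_le f (s := univ.filter fun q => f p.1 < f q) (b := q) (by simpa using h)
  linarith

theorem gap_ex (f : X → ℝ) (p : GN f) : ∃ q, f p.1 < f q ∧ f q = f p.1 + gap f p := by
  classical
  obtain ⟨q, hq, hq'⟩ := exists_mem_eq_inf' (gap_ne f p) f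
  refine ⟨q, by simpa using hq, ?_⟩
  unfold gap
  rw [hq']
  ring

theorem gap_pos (f : X → ℝ) (p : GN f) : 0 < gap f p := by
  obtain ⟨q, h1, h2⟩ := gap_ex f p
  linarith

/-- order of the nodes: by gap, ties by value -/
def KL (f : X → ℝ) (p p' : GN f) : Prop :=
  gap f p < gap f p' ∨ (gap f p = gap f p' ∧ f p.1 < f p'.1)

theorem KL.gap_le {f : X → ℝ} {p p' : GN f} (h : KL f p p') : gap f p ≤ gap f p' := by
  rcases h with h | h
  · exact h.le
  · exact h.1.le

theorem KL.trans {f : X → ℝ} {p p' p'' : GN f} (h : KL f p p') (h' : KL f p' p'') :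
    KL f p p'' := by
  rcases h with h | h <;> rcases h' with h' | h'
  · exact Or.inl (h.trans h')
  · exact Or.inl (by rw [← h'.1]; exact h)
  · exact Or.inl (by rw [h.1]; exact h')
  · exact Or.inr ⟨h.1.trans h'.1, h.2.trans h'.2⟩

theorem KL.irrefl {f : X → ℝ} (p : GN f) : ¬ KL f p p := by
  rintro (h | h)
  · exact lt_irrefl _ h
  · exact lt_irrefl _ h.2

theorem gn_ext {f : X → ℝ} (hf : Function.Injective f) {p p' : GN f} (h : f p.1 = f p'.1) :
    p = p' := Subtype.ext (hf h)

theorem KL.tot {f : X → ℝ} (hf : Function.Injective f) {p p' : GN f} (h : p ≠ p') :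
    KL f p p' ∨ KL f p' p := by
  rcases lt_trichotomy (gap f p) (gap f p') with h1 | h1 | h1
  · exact Or.inl (Or.inl h1)
  · rcases lt_or_gt_of_ne (fun e => h (gn_ext hf e)) with h2 | h2
    · exact Or.inl (Or.inr ⟨h1, h2⟩)
    · exact Or.inr (Or.inr ⟨h1.symm, h2⟩)
  · exact Or.inr (Or.inl h1)

open Classical in
/-- left child -/
noncomputable def gl (f : X → ℝ) (p : GN f) : Finset X :=
  univ.filter fun y => f y ≤ f p.1 ∧ ∀ p' : GN f, f y ≤ f p'.1 → f p'.1 < f p.1 → KL f p' p

open Classical in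
/-- right child -/
noncomputable def gr (f : X → ℝ) (p : GN f) : Finset X :=
  univ.filter fun z => f p.1 < f z ∧ ∀ p' : GN f, f p.1 < f p'.1 → f p'.1 < f z → KL f p' p

theorem mem_gl {f : X → ℝ} {p : GN f} {y : X} : y ∈ gl f p ↔
    f y ≤ f p.1 ∧ ∀ p' : GN f, f y ≤ f p'.1 → f p'.1 < f p.1 → KL f p' p := by
  simp [gl]

theorem mem_gr {f : X → ℝ} {p : GN f} {y : X} : y ∈ gr f p ↔
    f p.1 < f y ∧ ∀ p' : GN f, f p.1 < f p'.1 → f p'.1 < f y → KL f p' p := by
  simp [gr]

theorem self_gl (f : X → ℝ) (p : GN f) : p.1 ∈ gl f p :=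
  mem_gl.2 ⟨le_rfl, fun p' h1 h2 => absurd h1 (not_le.2 h2)⟩

theorem next_gr (f : X → ℝ) (p : GN f) : ∃ q, q ∈ gr f p := by
  obtain ⟨q, h1, h2⟩ := gap_ex f p
  refine ⟨q, mem_gr.2 ⟨h1, fun p' h3 h4 => ?_⟩⟩
  have := gap_le f p h3
  linarith

theorem between {f : X → ℝ} (hf : Function.Injective f) {p p' : GN f} {y x : X}
    (hy : y ∈ gl f p ∪ gr f p) (hx : x ∈ gl f p ∪ gr f p) (h1 : f y ≤ f p'.1)
    (h2 : f p'.1 < f x) (hne : p' ≠ p) : KL f p' p := by
  rcases lt_or_gt_of_ne (fun e => hne (gn_ext hf e)) with h | h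
  · rcases mem_union.1 hy with hy | hy
    · exact (mem_gl.1 hy).2 p' h1 h
    · have := (mem_gr.1 hy).1
      linarith
  · rcases mem_union.1 hx with hx | hx
    · have := (mem_gl.1 hx).1
      linarith
    · exact (mem_gr.1 hx).2 p' h h2

theorem lam_aux {f : X → ℝ} (hf : Function.Injective f) {p p' : GN f} (h : KL f p p') {x : X}
    (hx : x ∈ gl f p ∪ gr f p) (hx' : x ∈ gl f p' ∪ gr f p') :
    gl f p ∪ gr f p ⊆ gl f p' ∨ gl f p ∪ gr f p ⊆ gr f p' := by
  have hne : p ≠ p' := by
    rintro rfl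
    exact KL.irrefl _ h
  have hcon : ¬ KL f p' p := fun h' => KL.irrefl _ (h.trans h')
  rcases lt_or_gt_of_ne (fun e => hne (gn_ext hf e)) with hlt | hgt
  · left
    have key : ∀ y ∈ gl f p ∪ gr f p, f y ≤ f p'.1 := by
      intro y hy
      rcases mem_union.1 hy with hy | hy
      · exact (mem_gl.1 hy).1.trans hlt.le
      · by_contra hc
        exact hcon ((mem_gr.1 hy).2 p' hlt (not_le.1 hc))
    have hx2 : x ∈ gl f p' := by
      rcases mem_union.1 hx' with h3 | h3
      · exact h3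
      · have := (mem_gr.1 h3).1
        have := key x hx
        linarith
    intro y hy
    refine mem_gl.2 ⟨key y hy, fun p'' h3 h4 => ?_⟩
    by_cases h5 : f x ≤ f p''.1
    · exact (mem_gl.1 hx2).2 p'' h5 h4
    · by_cases h6 : p'' = p
      · rw [h6]
        exact h
      · exact (between hf hy hx h3 (not_le.1 h5) h6).trans h
  · right
    have key : ∀ y ∈ gl f p ∪ gr f p, f p'.1 < f y := by
      intro y hy
      rcases mem_union.1 hy with hy | hy
      · by_contra hc
        exact hcon ((mem_gl.1 hy).2 p' (not_lt.1 hc) hgt)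
      · exact hgt.trans (mem_gr.1 hy).1
    have hx2 : x ∈ gr f p' := by
      rcases mem_union.1 hx' with h3 | h3
      · have := (mem_gl.1 h3).1
        have := key x hx
        linarith
      · exact h3
    intro y hy
    refine mem_gr.2 ⟨key y hy, fun p'' h3 h4 => ?_⟩
    by_cases h5 : f p''.1 < f x
    · exact (mem_gr.1 hx2).2 p'' h3 h5
    · by_cases h6 : p'' = p
      · rw [h6]
        exact h
      · exact (between hf hx hy (not_lt.1 h5) h4 h6).trans h

/-- the gap tree -/
noncomputable def gtree (f : X → ℝ) (hf : Function.Injective f) : BT X (GN f) where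
  l := gl f
  r := gr f
  ne_l p := ⟨p.1, self_gl f p⟩
  ne_r p := by
    obtain ⟨q, hq⟩ := next_gr f p
    exact ⟨q, hq⟩
  disj p x h1 h2 := by
    have a1 := (mem_gl.1 h1).1
    have a2 := (mem_gr.1 h2).1
    linarith
  lam p p' hne x hx hx' := by
    rcases KL.tot hf hne with h | h
    · exact Or.inl (lam_aux hf h hx hx')
    · exact Or.inr (lam_aux hf h hx' hx)

theorem gtree_ad (f : X → ℝ) (hf : Function.Injective f) : Ad (gtree f hf) f where
  inj := hf
  lt A y z hy hz := by
    have a1 := (mem_gl.1 hy).1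
    have a2 := (mem_gr.1 hz).1
    linarith
  ex y z hyz := by
    classical
    -- the node with the biggest key between `y` and `z`
    let F : Finset (GN f) := univ.filter fun p => f y ≤ f p.1 ∧ f p.1 < f z
    have hF : F.Nonempty := ⟨⟨y, z, hyz⟩, by simp only [F, mem_filter, mem_univ, true_and]; exact ⟨le_rfl, hyz⟩⟩
    have hST : STO (KL f) :=
      ⟨KL.irrefl, fun _ _ h => KL.tot hf h, fun _ _ _ h h' => h.trans h'⟩
    obtain ⟨A, hA, hmax⟩ := exists_max_image F (rk (KL f)) hF
    have hA' : f y ≤ f A.1 ∧ f A.1 < f z := by simpa [F] using hA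
    have hmax' : ∀ p' : GN f, f y ≤ f p'.1 → f p'.1 < f z → p' ≠ A → KL f p' A := by
      intro p' h1 h2 hne
      have h3 := hmax p' (by simp only [F, mem_filter, mem_univ, true_and]; exact ⟨h1, h2⟩)
      rcases KL.tot hf hne with h4 | h4
      · exact h4
      · exact absurd (rk_lt hST h4) (not_lt.2 h3)
    refine ⟨A, mem_gl.2 ⟨hA'.1, fun p' h1 h2 => ?_⟩, mem_gr.2 ⟨hA'.2, fun p' h1 h2 => ?_⟩⟩
    · refine hmax' p' h1 (h2.trans hA'.2) ?_
      rintro rfl
      exact lt_irrefl _ h2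
    · refine hmax' p' (hA'.1.trans h1.le) h2 ?_
      rintro rfl
      exact lt_irrefl _ h1

theorem bel_KL (f : X → ℝ) (hf : Function.Injective f) {A A' : GN f}
    (h : (gtree f hf).Bel A A') : KL f A A' := by
  have hne : A ≠ A' := by
    rintro rfl
    exact (gtree f hf).not_bel_self _ h
  rcases KL.tot hf hne with h1 | h1
  · exact h1
  · exfalso
    have h2 : A.1 ∈ gl f A ∪ gr f A := mem_union_left _ (self_gl f A)
    have h3 : A.1 ∈ gl f A' ∪ gr f A' := (gtree f hf).bel_sub h h2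
    have h4 : (gtree f hf).Bel A' A := lam_aux hf h1 h3 h2
    exact (gtree f hf).not_bel_self _ ((gtree f hf).bel_trans h h4)

/-- differences are sums of gaps -/
theorem diff_le (f : X → ℝ) (hf : Function.Injective f) {g : ℝ} (N : ℕ) : ∀ y z : X,
    f y ≤ f z → (univ.filter fun p : X => f y ≤ f p ∧ f p < f z).card = N →
    (∀ p : GN f, f y ≤ f p.1 → f p.1 < f z → gap f p ≤ g) → f z - f y ≤ N * g := by
  classical
  induction N with
  | zero =>
    intro y z hyz hc hg
    have h1 : ¬ f y < f z := by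
      intro h
      rw [card_eq_zero] at hc
      have : y ∈ (univ.filter fun p : X => f y ≤ f p ∧ f p < f z) := by simp [h]
      rw [hc] at this
      simp at this
    push_cast
    linarith [not_lt.1 h1]
  | succ N ih =>
    intro y z hyz hc hg
    have h1 : f y < f z := by
      by_contra h
      have h2 : (univ.filter fun p : X => f y ≤ f p ∧ f p < f z) = ∅ := by
        ext p
        simp only [mem_filter, mem_univ, true_and, notMem_empty, iff_false, not_and, not_lt]
        intro h3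
        linarith [not_lt.1 h]
      rw [h2] at hc
      simp at hc
    obtain ⟨q, h2, h3⟩ := gap_ex f ⟨y, z, h1⟩
    have h4 : f q ≤ f z := by
      have := gap_le f ⟨y, z, h1⟩ h1
      simp only at h3
      linarith
    have h5 : (univ.filter fun p : X => f y ≤ f p ∧ f p < f z) =
        insert y (univ.filter fun p : X => f q ≤ f p ∧ f p < f z) := by
      ext p
      simp only [mem_filter, mem_univ, true_and, mem_insert]
      constructor
      · rintro ⟨h6, h7⟩
        by_cases h8 : p = y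
        · exact Or.inl h8
        · right
          refine ⟨?_, h7⟩
          have h9 : f y < f p := lt_of_le_of_ne h6 (fun e => h8 (hf e.symm))
          have := gap_le f ⟨y, z, h1⟩ h9
          simp only at h3 this
          linarith
      · rintro (rfl | ⟨h6, h7⟩)
        · exact ⟨le_rfl, h1⟩
        · simp only at h2
          exact ⟨by linarith, h7⟩
    have h6 : y ∉ (univ.filter fun p : X => f q ≤ f p ∧ f p < f z) := by
      simp only [mem_filter, mem_univ, true_and, not_and, not_lt]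
      intro h7
      simp only at h2
      linarith
    rw [h5, card_insert_of_notMem h6] at hc
    simp only at h2
    have h7 := ih q z h4 (by omega) (fun p h8 h9 => hg p (by linarith) h9)
    have h8 := hg ⟨y, z, h1⟩ le_rfl h1
    push_cast
    simp only at h3
    linarith

/-- the gap at the meet is the difference up to the factor `n - 1` -/
theorem meet_gap (f : X → ℝ) (hf : Function.Injective f) {A : GN f} {y z : X}
    (hy : y ∈ (gtree f hf).l A) (hz : z ∈ (gtree f hf).r A) :
    gap f A ≤ f z - f y ∧ f z - f y < Fintype.card X * gap f A := by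
  classical
  have hlt := (gtree_ad f hf).lt A y z hy hz
  have hy' := mem_gl.1 hy
  have hz' := mem_gr.1 hz
  constructor
  · have := gap_le f A hz'.1
    linarith [hy'.1]
  · have hg : ∀ p : GN f, f y ≤ f p.1 → f p.1 < f z → gap f p ≤ gap f A := by
      intro p h1 h2
      by_cases h3 : p = A
      · rw [h3]
      · exact (between hf (mem_union_left _ hy) (mem_union_right _ hz) h1 h2 h3).gap_le
    have h1 := diff_le f hf _ y z hlt.le rfl hg
    have h2 : (univ.filter fun p : X => f y ≤ f p ∧ f p < f z).card < Fintype.card X := by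
      rw [← card_univ]
      apply card_lt_card
      refine ⟨filter_subset _ _, fun hcon => ?_⟩
      have : z ∈ (univ.filter fun p : X => f y ≤ f p ∧ f p < f z) := hcon (mem_univ _)
      simp at this
    have h3 : ((univ.filter fun p : X => f y ≤ f p ∧ f p < f z).card : ℝ) < Fintype.card X := by
      exact_mod_cast h2
    have h4 := gap_pos f A
    nlinarith

end Pool.Agent.Work.MP_e17eac_co.TROP

end

section

/-!
# Arbitrary sets, blueprint part B-1 (note 2870): statements
-/

namespace Pool.Agent.Work.MP_e17eac_co.B1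

open Finset
open Pool.Agent.Work.MP_e17eac_co.DH
open Pool.Agent.Work.MP_e17eac_co.DH.XSWEEP (GP)

/-- Basic facts on cells. -/
def StCell : Prop := ∀ (ι : Type) [Fintype ι] [DecidableEq ι] (K : KSys ι) (r x : ℕ), 1 ≤ r →
  (∀ i, i < K.N → cell K r x i < r ^ (4 * x)) ∧
  (∀ i j, i ≤ j → cell K r x i ≤ cell K r x j) ∧
  (∀ z, z ≤ x → ∀ i, cell K r z i = cell K r x i / r ^ (4 * (x - z))) ∧
  (∀ i, i < K.N → cell K r 0 i = 0) ∧
  (∀ c, (ce K r x c).card * r ^ (4 * x) ≤ K.N + r ^ (4 * x)) ∧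
  (∃ p q : ℕ → ℕ, (∀ c, ce K r x c = Ico (p c) (q c)) ∧ (∀ c, p c ≤ q c) ∧ (∀ c, q c ≤ K.N) ∧
    ∀ c c', c < c' → q c ≤ p c')

/-- Lines and tokens of the edges in a cell. -/
def StCellTok : Prop := ∀ (ι : Type) [Fintype ι] [DecidableEq ι] (K : KSys ι) (r x c : ℕ),
  1 ≤ r → ∀ F ⊆ ce K r x c,
  (∀ s, F.image (K.ln s) ⊆ vis K r x c) ∧ (∀ s, (F.image (K.ln s)).card ≤ (vis K r x c).card) ∧
  (∀ s, (F.image (K.tok s)).card ≤ (vis K r x c).card)

/-- T2 for mass cells. -/
def StT2c : Prop := ∃ C : ℝ, 1 ≤ C ∧ ∀ (ι : Type) [Fintype ι] [DecidableEq ι] (K : KSys ι),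
  Function.Injective K.x → GP K.x K.y → ∀ (r x : ℕ), 1 ≤ r →
  (∑ c ∈ range (r ^ (4 * x)), ((vis K r x c).card : ℝ) ≤ C * Fintype.card ι * (r : ℝ) ^ x) ∧
  (∑ p : ι, (W K r x p : ℝ) ≤ C * Fintype.card ι * (r : ℝ) ^ x) ∧
  (∀ z, z ≤ x → ∑ c ∈ range (r ^ (4 * z)), ∑ p : ι, (Wr K r z c x p : ℝ) ≤
    C * Fintype.card ι * (r : ℝ) ^ x) ∧
  (∀ E ⊆ range K.N, ∀ s,
    ((E.image (fun i => (cell K r x i, K.ln s i))).card : ℝ) ≤ C * Fintype.card ι * (r : ℝ) ^ x ∧
    ((E.image (fun i => (cell K r x i, K.tok s i))).card : ℝ) ≤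
      C * Fintype.card ι * (r : ℝ) ^ x) ∧
  ∀ lam : ℝ, 0 < lam →
    (((range (r ^ (4 * x))).filter (fun c => lam ≤ ((vis K r x c).card : ℝ))).card : ℝ) ≤
      (C * Fintype.card ι / lam) ^ ((4 : ℝ) / 3)

/-- **FP**: few pairs (cell, line) or (cell, token) => few edges. -/
def StFP : Prop := ∀ (ι : Type) [Fintype ι] [DecidableEq ι] (K : KSys ι),
  Function.Injective K.x → ∀ (r x : ℕ), 1 ≤ r → ∀ (H : ℝ), 0 ≤ H → ∀ F ⊆ range K.N,
  (∀ i ∈ F, ((vis K r x (cell K r x i)).card : ℝ) * (r : ℝ) ^ (3 * x) ≤ H * Fintype.card ι) →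
  ∀ s, ((F.card : ℝ) ^ 3 * (r : ℝ) ^ x ≤ 4096 * H ^ 3 * (Fintype.card ι : ℝ) ^ 3 *
    ((F.image (fun i => (cell K r x i, K.ln s i))).card : ℝ)) ∧
  ((F.card : ℝ) ^ 3 * (r : ℝ) ^ x ≤ 4096 * H ^ 3 * (Fintype.card ι : ℝ) ^ 3 *
    ((F.image (fun i => (cell K r x i, K.tok s i))).card : ℝ))

/-- Few lines => few edges. -/
def StFL : Prop := ∀ (ι : Type) [Fintype ι] [DecidableEq ι] (K : KSys ι),
  Function.Injective K.x → ∀ F ⊆ range K.N, ∀ s,
  ((F.card : ℝ) ^ 3 ≤ 4096 * (Fintype.card ι : ℝ) ^ 3 * ((F.image (K.ln s)).card : ℝ)) ∧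
  ((F.card : ℝ) ^ 3 ≤ 4096 * (Fintype.card ι : ℝ) ^ 3 * ((F.image (K.tok s)).card : ℝ))

open Classical in
/-- **Hygiene**: most edges are hygienic. -/
def StHygCnt : Prop := ∃ C : ℝ, 1 ≤ C ∧ ∀ (ι : Type) [Fintype ι] [DecidableEq ι] (K : KSys ι),
  Function.Injective K.x → GP K.x K.y → ∀ (r m : ℕ) (H H0 : ℝ), 1 ≤ r → 1 ≤ H → 1 ≤ H0 →
  r ^ (4 * m) ≤ K.N → (Fintype.card ι : ℝ) ^ ((4 : ℝ) / 3) ≤ H0 * K.N →
  (((range K.N).filter (fun i => ¬ Hyg K r m H i)).card : ℝ) ≤
    C * ((m : ℝ) + 1) ^ 2 * H0 * H ^ (-((1 : ℝ) / 6)) * K.N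

/-- Monotonicity. -/
def StTSmono : Prop := ∀ (ι : Type) [Fintype ι] [DecidableEq ι] (K : KSys ι) (r m : ℕ)
  (H D D' : ℝ) (P : Finset ι) (E : Bool → Finset ℕ), D ≤ D' → TS K r m H D P E →
  TS K r m H D' P E

/-- (TS1) deleting few edges. -/
def StTS1 : Prop := ∀ (ι : Type) [Fintype ι] [DecidableEq ι] (K : KSys ι) (r m : ℕ)
  (H D : ℝ) (P : Finset ι) (E E' : Bool → Finset ℕ), 4 ≤ D → 0 < K.N → TS K r m H D P E →
  (∀ s, E' s ⊆ E s) → (∀ s, D ^ 4 * ((E s \ E' s).card : ℝ) ≤ K.N) →
  ∃ P' ⊆ P, TS K r m H (4 * D) P' (fun s => (E' s).filter (fun i => K.a i ∈ P'))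

/-- (TS2) restriction to a set of lines. -/
def StTS2 : Prop := ∀ (ι : Type) [Fintype ι] [DecidableEq ι] (K : KSys ι) (r m : ℕ)
  (H D D' : ℝ) (P P' : Finset ι) (E : Bool → Finset ℕ), 0 ≤ D → 1 ≤ D' → TS K r m H D P E →
  P' ⊆ P → (P.card : ℝ) ≤ D' * P'.card →
  TS K r m H (D * D') P' (fun s => (E s).filter (fun i => K.a i ∈ P'))

/-- (TS3) deleting less than half at every line. -/
def StTS3 : Prop := ∀ (ι : Type) [Fintype ι] [DecidableEq ι] (K : KSys ι) (r m : ℕ)
  (H D : ℝ) (P : Finset ι) (E E' : Bool → Finset ℕ), 0 ≤ D → TS K r m H D P E →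
  (∀ s, E' s ⊆ E s) →
  (∀ s, ∀ p ∈ P, 2 * D * Fintype.card ι *
    (((E s \ E' s).filter (fun i => K.a i = p)).card : ℝ) ≤ K.N) →
  TS K r m H (2 * D) P E'

/-! ### Crossing lemma with units -/

open Classical in
/-- The crossing pairs of `E` inside the units (fibres of `u`). -/
noncomputable def XU {ι υ : Type} [Fintype ι] [DecidableEq ι] (K : KSys ι) (u : ℕ → υ)
    (E : Finset ℕ) : Finset (ℕ × ℕ) := (crossPairs K E).filter (fun z => u z.1 = u z.2)

/-- **Crossing lemma with units.** -/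
def StX0 : Prop := ∀ (ι υ : Type) [Fintype ι] [DecidableEq ι] [DecidableEq υ] (K : KSys ι),
  Function.Injective K.x → ∀ (u : ℕ → υ) (V : υ → ℕ), ∀ E ⊆ range K.N,
  (∀ U ∈ E.image u, ∀ s, ((E.filter (fun i => u i = U)).image (K.ln s)).card ≤ V U) →
  32 * ∑ U ∈ E.image u, V U ≤ E.card →
  (E.card : ℝ) ^ 3 ≤ 16384 * ((∑ U ∈ E.image u, V U : ℕ) : ℝ) ^ 2 * ((XU K u E).card : ℝ)

/-- The crossing pairs with fixed labels are determined by their tokens. -/
def StX1 : Prop := ∀ (ι υ γ : Type) [Fintype ι] [DecidableEq ι] [DecidableEq υ] [DecidableEq γ]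
  (K : KSys ι) (u : ℕ → υ) (g : ℕ → γ), ∀ E ⊆ range K.N,
  (XU K u E).card ≤ ∑ w ∈ (XU K u E).image (fun z => (g z.1, g z.2)),
    ((E.filter (fun i => g i = w.1)).image K.tokB).card *
      ((E.filter (fun i => g i = w.2)).image K.tokT).card

/-- **(X)**: many realised pairs of cells. -/
def StX : Prop := ∀ (ι υ : Type) [Fintype ι] [DecidableEq ι] [DecidableEq υ] (K : KSys ι),
  Function.Injective K.x → ∀ (r x : ℕ), 1 ≤ r → ∀ (H : ℝ), 0 ≤ H →
  ∀ (u : ℕ → υ) (V : υ → ℕ), ∀ E ⊆ range K.N,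
  (∀ i ∈ E, ((vis K r x (cell K r x i)).card : ℝ) * (r : ℝ) ^ (3 * x) ≤ H * Fintype.card ι) →
  (∀ U ∈ E.image u, ∀ s, ((E.filter (fun i => u i = U)).image (K.ln s)).card ≤ V U) →
  32 * ∑ U ∈ E.image u, V U ≤ E.card →
  (E.card : ℝ) ^ 3 * (r : ℝ) ^ (6 * x) ≤
    16384 * ((∑ U ∈ E.image u, V U : ℕ) : ℝ) ^ 2 * H ^ 2 * (Fintype.card ι : ℝ) ^ 2 *
    (((XU K u E).image (fun z => (cell K r x z.1, cell K r x z.2))).card : ℝ)

/-- **(P2)**: units with a set `R U` of relatively typical lines visited in all cells of `U`. -/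
def StP2 : Prop := ∃ C : ℝ, 1 ≤ C ∧ ∀ (ι υ : Type) [Fintype ι] [DecidableEq ι] [DecidableEq υ]
  (K : KSys ι), Function.Injective K.x → GP K.x K.y →
  ∀ (r m x z : ℕ), 1 ≤ r → z ≤ x → x ≤ m → ∀ (H : ℝ), 0 ≤ H →
  ∀ (u : ℕ → υ) (V : υ → ℕ), ∀ E ⊆ range K.N, (∀ i ∈ E, Hyg K r m H i) →
  (∀ i ∈ E, ∀ j ∈ E, u i = u j → cell K r z i = cell K r z j) →
  (∀ U ∈ E.image u, ∀ s, ((E.filter (fun i => u i = U)).image (K.ln s)).card ≤ V U) →
  32 * ∑ U ∈ E.image u, V U ≤ E.card →
  ∀ (R : υ → Finset ι) (M : ℝ), (∀ i ∈ E, M ≤ ((R (u i)).card : ℝ) ∧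
    R (u i) ⊆ PSr K r m H z (cell K r z i) ∧ R (u i) ⊆ vis K r x (cell K r x i)) →
  M * (E.card : ℝ) ^ 3 * (r : ℝ) ^ (4 * x + z) ≤
    C * H ^ 4 * (Fintype.card ι : ℝ) ^ 3 * ((∑ U ∈ E.image u, V U : ℕ) : ℝ) ^ 2

/-- **(AV)** choice of one line in every unit. -/
def StAV : Prop := ∀ (ι υ : Type) [Fintype ι] [DecidableEq ι] [DecidableEq υ] (K : KSys ι)
  (r m x z : ℕ), 1 ≤ r → z ≤ x → x ≤ m → ∀ (H D : ℝ), 0 < H → 0 < D → 0 < K.N →
  ∀ (u : ℕ → υ) (E : Finset ℕ), (∀ i ∈ E, Hyg K r m H i) →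
  (∀ i ∈ E, ∀ j ∈ E, K.a i = K.a j → cell K r z i = cell K r z j → u i = u j) →
  (∀ i ∈ E, (K.N : ℝ) ≤ D * Fintype.card ι * (r : ℝ) ^ z *
    ((E.filter (fun j => K.a j = K.a i ∧ cell K r z j = cell K r z i)).card : ℝ)) →
  (∀ i ∈ E, (((E.filter (fun j => u j = u i)).image (cell K r x)).card : ℝ) ≤
    D * (r : ℝ) ^ (x - z)) →
  ∃ pf : υ → ι, (∀ i ∈ E, ∃ j ∈ E, u j = u i ∧ K.a j = pf (u i)) ∧
    (E.card : ℝ) ≤ H * D ^ 2 * ((E.filter (fun i => ∃ j ∈ E, u j = u i ∧ K.a j = pf (u i) ∧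
      cell K r x j = cell K r x i)).card : ℝ)

end Pool.Agent.Work.MP_e17eac_co.B1

end

section

/-!
TROP: the run defined by two adapted trees and an order of the pairs of nodes.
-/
set_option autoImplicit false
set_option linter.unusedSectionVars false
set_option linter.unusedVariables false

namespace Pool.Agent.Work.MP_e17eac_co.TROP

open Finset

/-- a lower set of a strict total order is an initial segment for the rank -/
theorem rk_low {Y : Type*} [Fintype Y] {R : Y → Y → Prop} (h : STO R) (D : Finset Y)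
    (hD : ∀ y z, z ∈ D → R y z → y ∈ D) (y : Y) : rk R y < D.card ↔ y ∈ D := by
  classical
  constructor
  · intro h1
    by_contra h2
    have h3 : D ⊆ univ.filter fun z => R z y := by
      intro z hz
      simp only [mem_filter, mem_univ, true_and]
      have hne : z ≠ y := by
        rintro rfl
        exact h2 hz
      rcases h.tot z y hne with h4 | h4
      · exact h4
      · exact absurd (hD y z hz h4) h2
    have h4 := card_le_card h3
    unfold rk at h1
    omega
  · intro h1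
    unfold rk
    apply card_lt_card
    constructor
    · intro z hz
      simp only [mem_filter, mem_univ, true_and] at hz
      exact hD z y h1 hz
    · intro hcon
      have := hcon h1
      simp only [mem_filter, mem_univ, true_and] at this
      exact h.irr y this

variable {X N1 N2 : Type*} [DecidableEq X] [Fintype X] [Fintype N1] [DecidableEq N1]
  [Fintype N2] [DecidableEq N2]

variable (T1 : BT X N1) (T2 : BT X N2) (f c : X → ℝ) (K : N1 × N2 → N1 × N2 → Prop) (k : ℕ)

/-- processed at stage `i` -/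
def Pi (K : N1 × N2 → N1 × N2 → Prop) (i : ℕ) (A : N1) (B : N2) : Prop := rk K (A, B) < i

open Classical in
/-- the set at stage `i` -/
noncomputable def Si (i : ℕ) : Finset X :=
  univ.filter fun y => rk (Ord T1 T2 f c (Pi K i)) y < k

variable {T1 T2 f c K}

theorem Pi_sto (h1 : Ad T1 f) (h2 : Ad T2 c) (hK : STO K)
    (m1 : ∀ A A' B, T1.Bel A A' → K (A, B) (A', B))
    (m2 : ∀ A B B', T2.Bel B B' → K (A, B') (A, B)) (i : ℕ) :
    STO (Ord T1 T2 f c (Pi K i)) :=
  ord_sto h1 h2 (fun A A' B h hb => (rk_lt hK (m1 A A' B hb)).trans h)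
    (fun A B B' h hb => (rk_lt hK (m2 A B B' hb)).trans h)

theorem changed (h1 : Ad T1 f) (h2 : Ad T2 c) (hK : STO K) (i : ℕ)
    {y z : X} (hR : Ord T1 T2 f c (Pi K i) y z) (hR' : Ord T1 T2 f c (Pi K (i + 1)) z y) :
    ∃ A B, rk K (A, B) = i ∧ y ∈ T1.l A ∧ z ∈ T1.r A ∧ z ∈ T2.l B ∧ y ∈ T2.r B := by
  have hne : y ≠ z := by
    rintro rfl
    rcases hR with h | h <;> exact lt_irrefl _ h.2
  obtain ⟨A, hA⟩ := h1.mt hne
  obtain ⟨B, hB⟩ := h2.mt hne
  have e1 := pr_iff (P := Pi K i) hA hB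
  have e2 := pr_iff (P := Pi K (i + 1)) hA.symm hB.symm
  unfold Pi at e1 e2
  rcases hR with h3 | h3 <;> rcases hR' with h4 | h4
  · exact absurd h3.2 (lt_asymm h4.2)
  · exfalso
    refine h4.1 (e2.2 ?_)
    have := e1.1 h3.1
    omega
  · refine ⟨A, B, ?_, ?_⟩
    · have a1 : ¬ rk K (A, B) < i := fun h => h3.1 (e1.2 h)
      have a2 := e2.1 h4.1
      omega
    · have b1 : y ∈ T1.l A ∧ z ∈ T1.r A := by
        rcases hA with hA | hA
        · exact hA
        · exact absurd (h1.lt A z y hA.1 hA.2) (lt_asymm h3.2)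
      have b2 : z ∈ T2.l B ∧ y ∈ T2.r B := by
        rcases hB with hB | hB
        · exact absurd (h2.lt B y z hB.1 hB.2) (lt_asymm h4.2)
        · exact hB
      exact ⟨b1.1, b1.2, b2.1, b2.2⟩
  · exact absurd h3.2 (lt_asymm h4.2)

theorem moved {R R' : X → X → Prop} (hR : STO R) (hR' : STO R') {y : X}
    (h : rk R y < rk R' y) : ∃ z, R y z ∧ R' z y := by
  classical
  by_contra hcon
  push Not at hcon
  have h1 : (univ.filter fun z => R' z y) ⊆ univ.filter fun z => R z y := by
    intro z hz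
    simp only [mem_filter, mem_univ, true_and] at hz ⊢
    have hne : z ≠ y := by
      rintro rfl
      exact hR'.irr _ hz
    rcases hR.tot z y hne with h2 | h2
    · exact h2
    · exact absurd hz (hcon z h2)
  have h2 := card_le_card h1
  unfold rk at h
  omega

/-- the run -/
noncomputable def mkRun [Nonempty (N1 × N2)] (h1 : Ad T1 f) (h2 : Ad T2 c) (hK : STO K)
    (m1 : ∀ A A' B, T1.Bel A A' → K (A, B) (A', B))
    (m2 : ∀ A B B', T2.Bel B B' → K (A, B') (A, B)) :
    Run T1 T2 (Fintype.card (N1 × N2)) := by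
  classical
  let ab : ℕ → N1 × N2 := fun i =>
    if h : i < Fintype.card (N1 × N2) then (rk_surj hK h).choose else Classical.arbitrary _
  have hab : ∀ i, i < Fintype.card (N1 × N2) → rk K (ab i) = i := by
    intro i hi
    have : ab i = (rk_surj hK hi).choose := dif_pos hi
    rw [this]
    exact (rk_surj hK hi).choose_spec
  have hst := Pi_sto (f := f) (c := c) h1 h2 hK m1 m2
  exact
  { P := Pi K
    a := fun i => (ab i).1
    b := fun i => (ab i).2
    S := Si T1 T2 f c K k
    step := by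
      intro i hi A B
      unfold Pi
      constructor
      · intro h
        by_cases h3 : rk K (A, B) < i
        · exact Or.inl h3
        · right
          have h4 : rk K (A, B) = rk K (ab i) := by
            rw [hab i hi]
            omega
          have h5 := rk_inj hK h4
          rw [← h5]
          exact ⟨rfl, rfl⟩
      · rintro (h | ⟨rfl, rfl⟩)
        · omega
        · have := hab i hi
          simp only [Prod.mk.eta]
          omega
    new := by
      intro i hi h
      unfold Pi at h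
      simp only [Prod.mk.eta] at h
      rw [hab i hi] at h
      omega
    mono1 := fun i _ A A' B h hb => (rk_lt hK (m1 A A' B hb)).trans h
    mono2 := fun i _ A B B' h hb => (rk_lt hK (m2 A B B' hb)).trans h
    up := by
      intro i hi y hy
      simp only [Si, mem_sdiff, mem_filter, mem_univ, true_and, not_lt] at hy
      obtain ⟨z, h3, h4⟩ := moved (hst i) (hst (i + 1)) (lt_of_lt_of_le hy.1 hy.2)
      obtain ⟨A, B, h5, h6, h7, h8, h9⟩ := changed h1 h2 hK i h3 h4
      have h10 : (A, B) = ab i := rk_inj hK (by rw [h5, hab i hi])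
      rw [← h10]
      exact mem_inter.2 ⟨h6, h9⟩
    dn := by
      intro i hi y hy
      simp only [Si, mem_sdiff, mem_filter, mem_univ, true_and, not_lt] at hy
      obtain ⟨z, h3, h4⟩ := moved (hst (i + 1)) (hst i) (lt_of_lt_of_le hy.1 hy.2)
      obtain ⟨A, B, h5, h6, h7, h8, h9⟩ := changed h1 h2 hK i h4 h3
      have h10 : (A, B) = ab i := rk_inj hK (by rw [h5, hab i hi])
      rw [← h10]
      exact mem_inter.2 ⟨h7, h8⟩
    crd := by
      intro i hi
      have a1 := card_low (hst i) k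
      have a2 := card_low (hst (i + 1)) k
      unfold Si
      rw [a1, a2] }

theorem mkRun_S [Nonempty (N1 × N2)] (h1 : Ad T1 f) (h2 : Ad T2 c) (hK : STO K)
    (m1 : ∀ A A' B, T1.Bel A A' → K (A, B) (A', B))
    (m2 : ∀ A B B', T2.Bel B B' → K (A, B') (A, B)) :
    (mkRun k h1 h2 hK m1 m2).S = Si T1 T2 f c K k := rfl

theorem Si_card (h1 : Ad T1 f) (h2 : Ad T2 c) (hK : STO K)
    (m1 : ∀ A A' B, T1.Bel A A' → K (A, B) (A', B))
    (m2 : ∀ A B B', T2.Bel B B' → K (A, B') (A, B)) (i : ℕ) :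
    (Si T1 T2 f c K k i).card = min k (Fintype.card X) := by
  have a1 := card_low (Pi_sto (f := f) (c := c) h1 h2 hK m1 m2 i) k
  unfold Si
  rw [a1]

/-- elements of the stage set precede the others -/
theorem Si_ord (h1 : Ad T1 f) (h2 : Ad T2 c) (hK : STO K)
    (m1 : ∀ A A' B, T1.Bel A A' → K (A, B) (A', B))
    (m2 : ∀ A B B', T2.Bel B B' → K (A, B') (A, B)) (i : ℕ) {p q : X}
    (hp : p ∈ Si T1 T2 f c K k i) (hq : q ∉ Si T1 T2 f c K k i) :
    Ord T1 T2 f c (Pi K i) p q := by
  have hst := Pi_sto (f := f) (c := c) h1 h2 hK m1 m2 i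
  simp only [Si, mem_filter, mem_univ, true_and, not_lt] at hp hq
  exact (rk_lt_iff hst).1 (lt_of_lt_of_le hp hq)

/-- the change between two stages -/
theorem Run.sdiff_le {m : ℕ} (ρ : Run T1 T2 m) {i j : ℕ} (hij : i ≤ j) :
    (ρ.S i \ ρ.S j).card ≤ ∑ t ∈ Ico i j, ρ.c t := by
  induction j, hij using Nat.le_induction with
  | base => simp
  | succ j hij ih =>
    rw [sum_Ico_succ_top hij]
    have h1 : ρ.S i \ ρ.S (j + 1) ⊆ (ρ.S i \ ρ.S j) ∪ (ρ.S j \ ρ.S (j + 1)) := by
      intro x hx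
      rw [mem_union, mem_sdiff, mem_sdiff]
      rw [mem_sdiff] at hx
      by_cases h : x ∈ ρ.S j
      · exact Or.inr ⟨h, hx.2⟩
      · exact Or.inl ⟨hx.1, h⟩
    exact (card_le_card h1).trans ((card_union_le _ _).trans (add_le_add ih le_rfl))

end Pool.Agent.Work.MP_e17eac_co.TROP

end
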