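import Mathlib

/-! Bundle of small proof modules (one section per former module). -/

section

/-!
# Ring module: nearly complete incidence configurations (interface)

A configuration lives in the square `[-R,R]^2` at unit resolution: `T` is a finite set of cells
`(time, height)`, `A` a finite set of slopes, `I` the incidences. For every slope `x` the numbers
`height - x * time` of the incident cells take at most `K R^a` values at unit resolution, although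
there are about `R^(2a)` cells, about `R^a` slopes and a proportion `1/K` of all incidences. Both
`T` and `A` are regular (Katz-Tao condition), with exponents `2a` and `a`. The main theorem of the
module says that this is impossible for `K = R^ε`.
-/

namespace Pool.Agent.Work.MP_e17eac_co.RING

open Finset

/-- A nearly complete incidence configuration. -/
structure Config (a R K : ℝ) (A : Finset ℝ) (T : Finset (ℝ × ℝ)) (I : Finset ((ℝ × ℝ) × ℝ)) :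
    Prop where
  slope : ∀ x ∈ A, 0 ≤ x ∧ x ≤ 1
  box : ∀ p ∈ T, |p.1| ≤ R ∧ |p.2| ≤ R
  sub : I ⊆ T ×ˢ A
  regA : ∀ y r : ℝ, 1 ≤ r → ((A.filter fun x => |x - y| ≤ r / R).card : ℝ) ≤ K * r ^ a
  regT : ∀ (q : ℝ × ℝ) (r : ℝ), 1 ≤ r →
    ((T.filter fun p => |p.1 - q.1| ≤ r ∧ |p.2 - q.2| ≤ r).card : ℝ) ≤ K * r ^ (2 * a)
  cls : ∀ x ∈ A,
    (((I.filter fun z => z.2 = x).image fun z => ⌊z.1.2 - x * z.1.1⌋).card : ℝ) ≤ K * R ^ a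
  inc : R ^ (3 * a) ≤ K * (I.card : ℝ)

/-- The main theorem of the ring module. -/
def RingMain : Prop :=
  ∀ a₀ : ℝ, 0 < a₀ → ∃ ε : ℝ, 0 < ε ∧ ∃ R₀ : ℝ, 1 ≤ R₀ ∧ ∀ a R : ℝ, a₀ ≤ a → a ≤ 1 - a₀ →
    R₀ ≤ R → ∀ (A : Finset ℝ) (T : Finset (ℝ × ℝ)) (I : Finset ((ℝ × ℝ) × ℝ)),
      ¬ Config a R (R ^ ε) A T I

end Pool.Agent.Work.MP_e17eac_co.RING

end

section

/-!
# Ring module: auxiliary definitions and statements of the items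
-/

namespace Pool.Agent.Work.MP_e17eac_co.RING

open Finset
open scoped Pointwise

/-- Height of the cell `p` seen in the direction `x`. -/
noncomputable def bb (x : ℝ) (p : ℝ × ℝ) : ℝ := p.2 - x * p.1

/-- The multiplier of the slope `x` when the slopes `x₁`, `x₂` are the coordinate directions. -/
noncomputable def cc (x₁ x₂ x : ℝ) : ℝ := (x - x₁) / (x - x₂)

/-- The classes of `f` at unit resolution. -/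
noncomputable def cl {ι : Type} (f : ι → ℝ) (S : Finset ι) : Finset ℤ := S.image fun i => ⌊f i⌋

/-- Integer parts of the dilate of a set of integers. -/
noncomputable def dl (γ : ℝ) (X : Finset ℤ) : Finset ℤ := X.image fun x : ℤ => ⌊γ * (x : ℝ)⌋

/-- The quadruples of `D` almost on a line of slope `t`. -/
noncomputable def quad (D : Finset ℝ) (t δ : ℝ) : Finset ((ℝ × ℝ) × (ℝ × ℝ)) :=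
  ((D ×ˢ D) ×ˢ (D ×ˢ D)).filter fun z => |z.1.1 - z.1.2 + t * (z.2.1 - z.2.2)| ≤ δ

/-- Katz-Tao regularity of a set of slopes. -/
def RegA (a R L : ℝ) (A : Finset ℝ) : Prop :=
  ∀ y r : ℝ, 1 ≤ r → ((A.filter fun x => |x - y| ≤ r / R).card : ℝ) ≤ L * r ^ a

/-- Katz-Tao regularity of a set of cells. -/
def RegT (a L : ℝ) (T : Finset (ℝ × ℝ)) : Prop :=
  ∀ (q : ℝ × ℝ) (r : ℝ), 1 ≤ r →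
    ((T.filter fun p => |p.1 - q.1| ≤ r ∧ |p.2 - q.2| ≤ r).card : ℝ) ≤ L * r ^ (2 * a)

/-- A large affine copy of a set of multipliers inside a set closed under these multipliers. -/
structure RL (a R L : ℝ) (D : Finset ℝ) (A₀ : Finset ℤ) (r : ℝ → ℤ) (β Y : ℝ) : Prop where
  bdD : ∀ c ∈ D, |c| ≤ L ∧ 1 ≤ L * |c|
  card : R ^ a ≤ L * (D.card : ℝ)
  reg : ∀ c δ : ℝ, 1 ≤ R * δ → ((D.filter fun c' => |c' - c| ≤ δ).card : ℝ) ≤ L * (R * δ) ^ a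
  bdA : ∀ u ∈ A₀, |(u : ℝ)| ≤ L * R
  mem : ∀ c ∈ D, r c ∈ A₀
  aff : ∀ c ∈ D, |(r c : ℝ) - (β + Y * c)| ≤ L
  low : R ≤ L * |Y|
  sum : ∀ γ : Fin 9 → ℝ, (∀ i, γ i ∈ D ∨ -γ i ∈ D) → ((∑ i, dl (γ i) A₀).card : ℝ) ≤ L * R ^ a

/-! ### Step 1: two coordinate directions -/

def StSel : Prop :=
  ∀ (K k w : ℝ) (A : Finset ℝ) (T : Finset (ℝ × ℝ)) (I : Finset ((ℝ × ℝ) × ℝ)),
    1 ≤ K → 0 < k → I ⊆ T ×ˢ A → (A.card : ℝ) ≤ K * k → (T.card : ℝ) ≤ K * k ^ 2 →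
    k ^ 3 ≤ K * (I.card : ℝ) →
    (∀ y ∈ A, ((A.filter fun x => |x - y| < w).card : ℝ) ≤ k / (6 * K ^ 8)) →
    ∃ x₁ ∈ A, ∃ x₂ ∈ A, w ≤ |x₁ - x₂| ∧ k ^ 3 ≤ 2 * K ^ 7 *
      ((I.filter fun z => (z.1, x₁) ∈ I ∧ (z.1, x₂) ∈ I ∧
        w ≤ |z.2 - x₁| ∧ w ≤ |z.2 - x₂|).card : ℝ)

/-! ### Step 2: the graph of one slope and the Balog-Szemeredi-Gowers theorem -/

def StEdge : Prop :=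
  ∀ (a K W x₁ x₂ : ℝ) (T G : Finset (ℝ × ℝ)), 0 < a → a ≤ 1 → 1 ≤ K → 1 ≤ W →
    0 ≤ x₁ → x₁ ≤ 1 → 1 ≤ W * |x₁ - x₂| → G ⊆ T → RegT a K T →
    (G.card : ℝ) ≤ 9 * K * W ^ 2 * ((G.image fun p => (⌊bb x₁ p⌋, ⌊bb x₂ p⌋)).card : ℝ)

def StCls : Prop :=
  ∀ (W x₁ x₂ x : ℝ) (G : Finset (ℝ × ℝ)), 1 ≤ W → |x₁ - x₂| ≤ 1 → |x - x₁| ≤ 1 →
    1 ≤ W * |x - x₂| →
    (((G.image fun p => (⌊bb x₁ p⌋, ⌊bb x₂ p⌋)).image fun z : ℤ × ℤ =>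
      ⌊(z.1 : ℝ) - cc x₁ x₂ x * (z.2 : ℝ)⌋).card : ℝ) ≤ 5 * W * ((cl (bb x) G).card : ℝ)

def StBSG : Prop :=
  ∀ (L k c : ℝ) (U V : Finset ℤ) (E : Finset (ℤ × ℤ)), 100 ≤ L → 1 ≤ k → |c| ≤ L →
    1 ≤ L * |c| → E ⊆ U ×ˢ V → (U.card : ℝ) ≤ L * k → (V.card : ℝ) ≤ L * k →
    k ^ 2 ≤ L * (E.card : ℝ) →
    ((E.image fun z : ℤ × ℤ => ⌊(z.1 : ℝ) - c * (z.2 : ℝ)⌋).card : ℝ) ≤ L * k →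
    ∃ U' ⊆ U, ∃ V' ⊆ V, k ≤ L ^ 22 * (U'.card : ℝ) ∧ k ≤ L ^ 22 * (V'.card : ℝ) ∧
      (((U' ×ˢ V').image fun z : ℤ × ℤ => ⌊(z.1 : ℝ) - c * (z.2 : ℝ)⌋).card : ℝ) ≤ L ^ 22 * k ∧
      ∀ u ∈ U', k ≤ L ^ 22 * ((V.filter fun v => (u, v) ∈ E).card : ℝ)

/-! ### Step 3: a popular slope -/

def StPop : Prop :=
  ∀ (L k : ℝ) (X : Finset ℝ) (P₁ P₂ : Finset ℤ) (U V : ℝ → Finset ℤ), 2 ≤ L → 0 < k →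
    X.Nonempty → (P₁.card : ℝ) ≤ L * k → (P₂.card : ℝ) ≤ L * k →
    (∀ x ∈ X, U x ⊆ P₁ ∧ V x ⊆ P₂ ∧ k ≤ L * ((U x).card : ℝ) ∧ k ≤ L * ((V x).card : ℝ)) →
    ∃ x₀ ∈ X, ∃ X₀ ⊆ X, (X.card : ℝ) ≤ L ^ 9 * (X₀.card : ℝ) ∧ ∀ x ∈ X₀,
      k ≤ L ^ 8 * ((U x ∩ U x₀).card : ℝ) ∧ k ≤ L ^ 8 * ((V x ∩ V x₀).card : ℝ)

/-! ### Step 4: sums of dilates -/

def StDil : Prop :=
  ∀ (L k c c₀ : ℝ) (U U₀ V V₀ : Finset ℤ), 100 ≤ L → 1 ≤ k → |c| ≤ L → 1 ≤ L * |c| →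
    |c₀| ≤ L → 1 ≤ L * |c₀| →
    (((U ×ˢ V).image fun z : ℤ × ℤ => ⌊(z.1 : ℝ) - c * (z.2 : ℝ)⌋).card : ℝ) ≤ L * k →
    (((U₀ ×ˢ V₀).image fun z : ℤ × ℤ => ⌊(z.1 : ℝ) - c₀ * (z.2 : ℝ)⌋).card : ℝ) ≤ L * k →
    k ≤ L * ((U ∩ U₀).card : ℝ) → k ≤ L * ((V ∩ V₀).card : ℝ) →
    ((dl c U₀ - dl c₀ U₀).card : ℝ) ≤ L ^ 16 * k

def StSum : Prop :=
  ∀ (L k c₀ : ℝ) (U : Finset ℤ) (γ : Fin 9 → ℝ), 100 ≤ L → 1 ≤ k → |c₀| ≤ L → 1 ≤ L * |c₀| →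
    k ≤ L * (U.card : ℝ) →
    (∀ i, (((dl (γ i) U - dl c₀ U).card : ℝ) ≤ L * k ∧ |γ i| ≤ L ∧ 1 ≤ L * |γ i|) ∨
      (((dl (-γ i) U - dl c₀ U).card : ℝ) ≤ L * k ∧ |γ i| ≤ L ∧ 1 ≤ L * |γ i|)) →
    ((∑ i, dl (γ i) U).card : ℝ) ≤ L ^ 150 * k

/-! ### Step 5: an affine copy of the multipliers -/

def StNear : Prop :=
  ∀ (a R L M : ℝ) (A : Finset ℝ) (T : Finset (ℝ × ℝ)), 0 < a → a ≤ 1 → 1 ≤ M → M ≤ R →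
    100 ≤ L → Real.logb 2 R + 2 ≤ L → (∀ x ∈ A, 0 ≤ x ∧ x ≤ 1) →
    (T.card : ℝ) ≤ L * R ^ (2 * a) → RegA a R L A → RegT a L T →
    ((((T ×ˢ T) ×ˢ A).filter fun z => |z.1.1.1 - z.1.2.1| < R / M ∧
      |bb z.2 z.1.1 - bb z.2 z.1.2| < 1).card : ℝ) ≤
        16 * L ^ 4 * R ^ (4 * a) / M ^ a + 4 * L ^ 3 * R ^ (3 * a)

def StTri : Prop :=
  ∀ (L k d x₂ : ℝ) (T : Finset (ℝ × ℝ)) (X₀ : Finset ℝ) (P₂ : Finset ℤ)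
    (G : ℝ → Finset (ℝ × ℝ)), 1 ≤ L → 0 < k → (T.card : ℝ) ≤ L * k ^ 2 →
    (P₂.card : ℝ) ≤ L * k → k ≤ L * (X₀.card : ℝ) →
    (∀ x ∈ X₀, G x ⊆ T ∧ k ^ 2 ≤ L * ((G x).card : ℝ) ∧ ((cl (bb x) (G x)).card : ℝ) ≤ L * k ∧
      ∀ p ∈ G x, ⌊bb x₂ p⌋ ∈ P₂) →
    2 * L ^ 4 * ((((T ×ˢ T) ×ˢ X₀).filter fun z => |z.1.1.1 - z.1.2.1| < d ∧
      |bb z.2 z.1.1 - bb z.2 z.1.2| < 1).card : ℝ) ≤ k ^ 4 →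
    ∃ p₀ ∈ T, ∃ y ∈ P₂, k ≤ 2 * L ^ 6 * (((T ×ˢ X₀).filter fun z => z.1 ∈ G z.2 ∧
      p₀ ∈ G z.2 ∧ ⌊bb z.2 z.1⌋ = ⌊bb z.2 p₀⌋ ∧ d ≤ |z.1.1 - p₀.1| ∧
      ⌊bb x₂ z.1⌋ = y).card : ℝ)

def StAff : Prop :=
  ∀ (a L k d x₁ x₂ : ℝ) (T : Finset (ℝ × ℝ)) (X₀ : Finset ℝ) (A₀ : Finset ℤ)
    (G : ℝ → Finset (ℝ × ℝ)) (p₀ : ℝ × ℝ) (y : ℤ), 0 < a → a ≤ 1 → 100 ≤ L → 0 < k →
    4 * L ≤ d → 0 ≤ x₁ → x₁ ≤ 1 → 0 ≤ x₂ → x₂ ≤ 1 → 1 ≤ L * |x₁ - x₂| →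
    (∀ x ∈ X₀, 0 ≤ x ∧ x ≤ 1 ∧ 1 ≤ L * |x - x₁| ∧ 1 ≤ L * |x - x₂| ∧ G x ⊆ T ∧
      ∀ p ∈ G x, ⌊bb x₁ p⌋ ∈ A₀) → RegT a L T →
    k ≤ 2 * L ^ 6 * (((T ×ˢ X₀).filter fun z => z.1 ∈ G z.2 ∧
      p₀ ∈ G z.2 ∧ ⌊bb z.2 z.1⌋ = ⌊bb z.2 p₀⌋ ∧ d ≤ |z.1.1 - p₀.1| ∧
      ⌊bb x₂ z.1⌋ = y).card : ℝ) →
    ∃ (β Y : ℝ) (r : ℝ → ℤ), ∃ C ⊆ X₀, k ≤ L ^ 10 * (C.card : ℝ) ∧ d ≤ 2 * L * |Y| ∧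
      ∀ x ∈ C, r x ∈ A₀ ∧ |(r x : ℝ) - (β + Y * cc x₁ x₂ x)| ≤ 3 * L

/-! ### Step 6: the configuration gives an affine copy -/

def StRL : Prop :=
  ∀ (a R K : ℝ) (N : ℕ) (A : Finset ℝ) (T : Finset (ℝ × ℝ)) (I : Finset ((ℝ × ℝ) × ℝ)),
    0 < a → a ≤ 1 → 1 ≤ N → 1 ≤ a * N → 100 ≤ K → Real.logb 2 R + 2 ≤ K → 1 ≤ R →
    K ^ (100000 * N ^ 2) ≤ R ^ a → Config a R K A T I →
    ∃ (D : Finset ℝ) (A₀ : Finset ℤ) (r : ℝ → ℤ) (β Y : ℝ),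
      RL a R (K ^ (13000000 * N ^ 2)) D A₀ r β Y

/-! ### Step 7: many quadruples for the quotients -/

def StCov : Prop :=
  ∀ (a R L : ℝ) (D : Finset ℝ) (A₀ : Finset ℤ) (r : ℝ → ℤ) (β Y : ℝ), 0 < a → a ≤ 1 →
    100 ≤ L → 1 ≤ R → RL a R L D A₀ r β Y →
    ∀ c₁ ∈ D, ∀ c₂ ∈ D, ∀ c₃ ∈ D, ∀ c₄ ∈ D, ∀ d₁ ∈ D, ∀ d₂ ∈ D, 1 ≤ R * |c₃ - c₄| →
      |c₁ - c₂| ≤ 2 * |c₃ - c₄| → |d₁ - d₂| ≤ 2 * |c₃ - c₄| →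
      (((A₀ ×ˢ A₀).image fun z : ℤ × ℤ => ⌊2 * (c₃ - c₄) * (z.1 : ℝ) +
        (c₁ - c₂ + (d₁ - d₂)) * (z.2 : ℝ)⌋).card : ℝ) ≤ 288 * L ^ 6 * R ^ a * |c₃ - c₄| ^ a

def StUp : Prop :=
  ∀ (a R L : ℝ) (D : Finset ℝ) (A₀ : Finset ℤ) (r : ℝ → ℤ) (β Y : ℝ), 0 < a → a ≤ 1 →
    100 ≤ L → 1 ≤ R → RL a R L D A₀ r β Y →
    ∀ c₁ ∈ D, ∀ c₂ ∈ D, ∀ c₃ ∈ D, ∀ c₄ ∈ D, ∀ d₁ ∈ D, ∀ d₂ ∈ D, 1 ≤ R * |c₃ - c₄| →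
      |c₁ - c₂| ≤ 2 * |c₃ - c₄| → |d₁ - d₂| ≤ 2 * |c₃ - c₄| →
      R ^ (3 * a) ≤ L ^ 12 * |c₃ - c₄| ^ a *
        ((quad D ((c₁ - c₂ + (d₁ - d₂)) / (2 * (c₃ - c₄))) (L ^ 4 / (|c₃ - c₄| * R))).card : ℝ)

/-! ### Step 8: the pivot argument -/

def StPN : Prop :=
  ∀ (a R L s t δ : ℝ) (D : Finset ℝ), 0 < a → a ≤ 1 → 1 ≤ L → 1 ≤ R → 1 ≤ R * s → 1 ≤ R * δ →
    (∀ c ∈ D, |c| ≤ L) →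
    (∀ c δ : ℝ, 1 ≤ R * δ → ((D.filter fun c' => |c' - c| ≤ δ).card : ℝ) ≤ L * (R * δ) ^ a) →
    (((quad D t δ).filter fun z => |z.2.1 - z.2.2| < s).card : ℝ) ≤
      L ^ 6 * R ^ (2 * a) * (R * s) ^ a * (R * δ) ^ a

def StBis : Prop :=
  ∀ (Q : Set ℝ) (τ : ℝ), 0 < τ → τ ≤ 1 / 4 → 0 ∈ Q → 1 ∈ Q →
    (∀ q ∈ Q, -1 ≤ q → q ≤ 2 → (∃ q' ∈ Q, |q' - q / 2| ≤ τ) ∧ ∃ q' ∈ Q, |q' - (q + 1) / 2| ≤ τ) →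
    ∀ y : ℝ, 0 ≤ y → y ≤ 1 → ∃ q ∈ Q, |q - y| ≤ 3 * τ

def StFar : Prop :=
  ∀ (s τ : ℝ) (m : ℕ) (t : ℕ → ℝ) (D : Finset ℝ), 0 < s → 0 < τ →
    (∀ i < m, ∀ j < m, i ≠ j → 2 * τ ≤ |t i - t j|) →
    ∑ i ∈ range m, (((quad D (t i) (τ * s)).filter fun z => s ≤ |z.2.1 - z.2.2|).card : ℝ) ≤
      2 * (D.card : ℝ) ^ 4

def StPiv : Prop :=
  ∀ (a R L s : ℝ) (D : Finset ℝ), 0 < a → a ≤ 1 → 100 ≤ L → 1 ≤ R → 0 < s → s ≤ 1 →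
    R ^ a ≤ L * (D.card : ℝ) → (∀ c ∈ D, |c| ≤ L) →
    (∀ c δ : ℝ, 1 ≤ R * δ → ((D.filter fun c' => |c' - c| ≤ δ).card : ℝ) ≤ L * (R * δ) ^ a) →
    (∀ c₁ ∈ D, ∀ c₂ ∈ D, ∀ c₃ ∈ D, ∀ c₄ ∈ D, ∀ d₁ ∈ D, ∀ d₂ ∈ D, 1 ≤ R * |c₃ - c₄| →
      |c₁ - c₂| ≤ 2 * |c₃ - c₄| → |d₁ - d₂| ≤ 2 * |c₃ - c₄| →
      R ^ (3 * a) ≤ L ^ 12 * |c₃ - c₄| ^ a *
        ((quad D ((c₁ - c₂ + (d₁ - d₂)) / (2 * (c₃ - c₄))) (L ^ 4 / (|c₃ - c₄| * R))).card : ℝ)) →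
    2 * L ^ 22 * s ^ a ≤ 1 → L ^ 26 ≤ s ^ 2 * R ^ (1 - a) → False

end Pool.Agent.Work.MP_e17eac_co.RING

end
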