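import Mathlib
import Pool.Agent.Work.MP_e17eac_co.Bd.B03

/-! Bundle of small proof modules (one section per former module). -/

section

/-!
# Vitali selection in a finite set with a distance function
-/

namespace Pool.Agent.Work.MP_e17eac_co.B4

open Finset

/-- **Vitali selection.** `d` is any symmetric function with `d p p = 0`, `rho > 0`. -/
theorem vitali {α : Type} [DecidableEq α] (d : α → α → ℝ) (rho : α → ℝ)
    (hs : ∀ p q, d p q = d q p) (h0 : ∀ p, d p p = 0) (P : Finset α)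
    (hr : ∀ p ∈ P, 0 < rho p) :
    ∃ Z ⊆ P, ∃ g : α → α, (∀ p ∈ P, g p ∈ Z ∧ d p (g p) < rho p + rho (g p) ∧
      rho p ≤ rho (g p)) ∧ ∀ z ∈ Z, ∀ z' ∈ Z, z ≠ z' → rho z + rho z' ≤ d z z' := by
  classical
  induction P using Finset.strongInduction with
  | _ P ih =>
    rcases P.eq_empty_or_nonempty with hP | hP
    · subst hP
      exact ⟨∅, Subset.refl _, id, by simp, by simp⟩
    · obtain ⟨p0, hp0, hmax⟩ := P.exists_max_image rho hP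
      set P' := P.filter (fun p => rho p + rho p0 ≤ d p p0) with hP'
      have hlt : P' ⊂ P := by
        refine ⟨filter_subset _ _, fun h => ?_⟩
        have := h hp0
        rw [hP', mem_filter, h0] at this
        have := hr p0 hp0
        linarith
      obtain ⟨Z, hZP, g, hg, hZ⟩ := ih P' hlt (fun p hp => hr p (filter_subset _ _ hp))
      refine ⟨insert p0 Z, ?_, fun p => if p ∈ P' then g p else p0, ?_, ?_⟩
      · intro z hz
        rcases mem_insert.1 hz with rfl | hz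
        · exact hp0
        · exact filter_subset _ _ (hZP hz)
      · intro p hp
        by_cases hpP : p ∈ P'
        · simp only [hpP, if_true]
          obtain ⟨h1, h2, h3⟩ := hg p hpP
          exact ⟨mem_insert_of_mem h1, h2, h3⟩
        · simp only [hpP, if_false]
          refine ⟨mem_insert_self _ _, ?_, hmax p hp⟩
          by_contra hcon
          push Not at hcon
          exact hpP (mem_filter.2 ⟨hp, hcon⟩)
      · intro z hz z' hz' hne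
        rcases mem_insert.1 hz with rfl | hz
        · rcases mem_insert.1 hz' with rfl | hz'
          · exact absurd rfl hne
          · have := (mem_filter.1 (hZP hz')).2
            rw [hs, add_comm]; exact this
        · rcases mem_insert.1 hz' with h' | hz'
          · rw [h']; exact (mem_filter.1 (hZP hz)).2
          · exact hZ z hz z' hz' hne

end Pool.Agent.Work.MP_e17eac_co.B4

end

section

/-!
# Last step for arbitrary sets: the abstract configuration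

Lines are given by their heights `u` and `v` at the two ends of the base interval; time is
normalised so that the base interval is `[0, 1]`. A `Cfg` is a set `PG` of lines close to a line
`p0`, with a linear profile of masses `U`, times `tm` of windows, and incidences. The theorem
`StCfg` says that it cannot exist (it is a configuration of the uniform ring module).
-/

namespace Pool.Agent.Work.MP_e17eac_co.CFG

open Finset

variable {ι α β : Type}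

/-- Distance of two lines on the base interval. -/
noncomputable def d0 (u v : ι → ℝ) (p p' : ι) : ℝ := max |u p - u p'| |v p - v p'|

/-- Height at the normalised time `τ`. -/
noncomputable def val (u v : ι → ℝ) (τ : ℝ) (p : ι) : ℝ := u p + τ * (v p - u p)

open Classical in
/-- Number of lines of `PS` at distance less than `ρ` from `p`. -/
noncomputable def mass (PS : Finset ι) (u v : ι → ℝ) (p : ι) (ρ : ℝ) : ℕ :=
  (PS.filter (fun s => d0 u v s p < ρ)).card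

/-- The configuration at the end of the proof. `q` = unit of counts, `q ^ s` = losses, `d` = number
of levels, `θ` = slope of the profile `U` (radii `exp (-U i)` with masses `M * q ^ (-2 i)`).
`Al` = windows, `tm` = their times, `A p` = windows incident to `p`, `S p w` = certificates. -/
structure Cfg (s d : ℕ) (q θ M F : ℝ) (U : ℕ → ℝ) (PS PG : Finset ι) (u v : ι → ℝ) (p0 : ι)
    (Al : Finset β) (tm : β → ℝ) (A : ι → Finset β) (S : ι → β → Finset α)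
    (Un : β → Finset α) : Prop where
  hq : 10 ≤ q
  hθ : 2 * Real.log q ≤ θ
  hM : 0 < M
  hF : 0 < F
  lin_lo : ∀ i j, i + j ≤ d → θ * ((j : ℝ) - 2) ≤ U (i + j) - U i
  lin_hi : ∀ i j, i + j ≤ d → U (i + j) - U i ≤ θ * ((j : ℝ) + 2)
  box : ∀ p ∈ PG, 4 * d0 u v p p0 ≤ Real.exp (-U 0)
  mass_hi : ∀ p ∈ PG, ∀ i, i ≤ d →
    (mass PS u v p (Real.exp (-U i)) : ℝ) * q ^ (2 * i) ≤ M * q ^ s
  mass_lo : ∀ p ∈ PG, M ≤ q ^ (2 * d + s) * (mass PS u v p (Real.exp (-U d) / 2) : ℝ)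
  sub : PG ⊆ PS
  tm_mem : ∀ w ∈ Al, 0 ≤ tm w ∧ tm w ≤ 1
  tm_inj : ∀ w ∈ Al, ∀ w' ∈ Al, tm w = tm w' → w = w'
  regA : ∀ i, i ≤ d → ∀ y δ : ℝ, δ ≤ Real.exp (U 0 - U i) →
    ((Al.filter (fun w => |tm w - y| ≤ δ)).card : ℝ) ≤ q ^ (d - i + s)
  A_sub : ∀ p ∈ PG, A p ⊆ Al
  S_sub : ∀ p ∈ PG, ∀ w ∈ A p, S p w ⊆ Un w
  S_card : ∀ p ∈ PG, ∀ w ∈ A p, F ≤ ((S p w).card : ℝ)
  Un_card : ∀ w ∈ Al, ((Un w).card : ℝ) ≤ F * q ^ (d + s)
  S_near : ∀ p ∈ PG, ∀ p' ∈ PG, ∀ w ∈ A p, w ∈ A p' → ∀ z ∈ S p w, z ∈ S p' w →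
    |val u v (tm w) p - val u v (tm w) p'| ≤ Real.exp (-U d)
  inc : M * q ^ d ≤ q ^ s * ∑ p ∈ PG, ((A p).card : ℝ)

/-- **Last step.** There is no configuration with many levels. -/
def StCfg : Prop := ∀ s : ℕ, ∃ dmin : ℕ, ∀ (ι α β : Type) (d : ℕ), dmin ≤ d →
  ∀ (q θ M F : ℝ) (U : ℕ → ℝ) (PS PG : Finset ι) (u v : ι → ℝ) (p0 : ι)
    (Al : Finset β) (tm : β → ℝ) (A : ι → Finset β) (S : ι → β → Finset α)
    (Un : β → Finset α), ¬ Cfg s d q θ M F U PS PG u v p0 Al tm A S Un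

end Pool.Agent.Work.MP_e17eac_co.CFG

end

section

/-!
# Ring module, item DIL: sums of dilates
-/

namespace Pool.Agent.Work.MP_e17eac_co.RING

open Finset
open scoped Pointwise

namespace XDIL

/-- Integers in a closed real interval. -/
theorem card_interval (S : Finset ℤ) (p q : ℝ) (hpq : p ≤ q)
    (h : ∀ s ∈ S, p ≤ (s : ℝ) ∧ (s : ℝ) ≤ q) : (S.card : ℝ) ≤ q - p + 1 := by
  have hsub : S ⊆ Finset.Icc ⌈p⌉ ⌊q⌋ := by
    intro s hs
    obtain ⟨h1, h2⟩ := h s hs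
    rw [Finset.mem_Icc]
    exact ⟨Int.ceil_le.mpr h1, Int.le_floor.mpr h2⟩
  have h1 : (S.card : ℝ) ≤ ((Finset.Icc ⌈p⌉ ⌊q⌋).card : ℝ) := by
    exact_mod_cast Finset.card_le_card hsub
  rw [Int.card_Icc] at h1
  have h2 : (((⌊q⌋ + 1 - ⌈p⌉).toNat : ℕ) : ℝ) ≤ q - p + 1 := by
    rcases le_total 0 (⌊q⌋ + 1 - ⌈p⌉) with hn | hn
    · have h3 : (((⌊q⌋ + 1 - ⌈p⌉).toNat : ℕ) : ℝ) = (⌊q⌋ : ℝ) + 1 - (⌈p⌉ : ℝ) := by
        have h4 : (((⌊q⌋ + 1 - ⌈p⌉).toNat : ℕ) : ℤ) = ⌊q⌋ + 1 - ⌈p⌉ := Int.toNat_of_nonneg hn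
        have h5 : (((((⌊q⌋ + 1 - ⌈p⌉).toNat : ℕ) : ℤ)) : ℝ) = ((⌊q⌋ + 1 - ⌈p⌉ : ℤ) : ℝ) := by
          rw [h4]
        push_cast at h5
        exact h5
      rw [h3]
      have h6 := Int.floor_le q
      have h7 := Int.le_ceil p
      linarith
    · rw [Int.toNat_of_nonpos hn]
      push_cast
      linarith
  linarith

/-- Covering by short intervals indexed by `M`. -/
theorem card_cover (S M : Finset ℤ) (φ : ℤ → ℝ) (w : ℝ) (hw : 0 ≤ w)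
    (h : ∀ s ∈ S, ∃ m ∈ M, φ m ≤ (s : ℝ) ∧ (s : ℝ) ≤ φ m + w) :
    (S.card : ℝ) ≤ (w + 1) * (M.card : ℝ) := by
  classical
  have hsub : S ⊆ M.biUnion (fun m => S.filter fun s : ℤ => φ m ≤ (s : ℝ) ∧ (s : ℝ) ≤ φ m + w) := by
    intro s hs
    obtain ⟨m, hm, h1⟩ := h s hs
    rw [Finset.mem_biUnion]
    exact ⟨m, hm, Finset.mem_filter.mpr ⟨hs, h1⟩⟩
  have h1 : (S.card : ℝ) ≤
      ∑ m ∈ M, ((S.filter fun s : ℤ => φ m ≤ (s : ℝ) ∧ (s : ℝ) ≤ φ m + w).card : ℝ) := by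
    have h2 := (Finset.card_le_card hsub).trans Finset.card_biUnion_le
    exact_mod_cast h2
  have h3 : ∑ m ∈ M, ((S.filter fun s : ℤ => φ m ≤ (s : ℝ) ∧ (s : ℝ) ≤ φ m + w).card : ℝ) ≤
      ∑ _m ∈ M, (w + 1) := by
    apply Finset.sum_le_sum
    intro m _
    have h4 := card_interval (S.filter fun s : ℤ => φ m ≤ (s : ℝ) ∧ (s : ℝ) ≤ φ m + w) (φ m) (φ m + w)
      (by linarith) (fun s hs => (Finset.mem_filter.mp hs).2)
    linarith
  rw [Finset.sum_const, nsmul_eq_mul] at h3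
  linarith

/-- F1. -/
theorem f1 (X Y : Finset ℤ) (c : ℝ) : ((X - dl c Y).card : ℝ) ≤
    2 * (((X ×ˢ Y).image fun z : ℤ × ℤ => ⌊(z.1 : ℝ) - c * (z.2 : ℝ)⌋).card : ℝ) := by
  have h := card_cover (X - dl c Y) ((X ×ˢ Y).image fun z : ℤ × ℤ => ⌊(z.1 : ℝ) - c * (z.2 : ℝ)⌋)
    (fun m => (m : ℝ)) 1 zero_le_one ?_
  · linarith
  · intro s hs
    obtain ⟨x, hx, y', hy', rfl⟩ := Finset.mem_sub.mp hs
    obtain ⟨y, hy, rfl⟩ := Finset.mem_image.mp hy'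
    refine ⟨⌊(x : ℝ) - c * (y : ℝ)⌋, Finset.mem_image.mpr ⟨(x, y), Finset.mem_product.mpr ⟨hx, hy⟩,
      rfl⟩, ?_⟩
    have h1 := Int.floor_le (c * (y : ℝ))
    have h2 := Int.lt_floor_add_one (c * (y : ℝ))
    have h3 : ⌊(x : ℝ) - c * (y : ℝ)⌋ ≤ x - ⌊c * (y : ℝ)⌋ := by
      rw [Int.floor_le_iff]
      push_cast
      linarith
    have h4 : x - ⌊c * (y : ℝ)⌋ ≤ ⌊(x : ℝ) - c * (y : ℝ)⌋ + 1 := by
      have h5 : x - ⌊c * (y : ℝ)⌋ - 1 ≤ ⌊(x : ℝ) - c * (y : ℝ)⌋ := by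
        rw [Int.le_floor]
        push_cast
        linarith
      linarith
    constructor
    · exact_mod_cast h3
    · exact_mod_cast h4

/-- F2. -/
theorem f2 (X : Finset ℤ) (g L : ℝ) (hg : 1 ≤ L ^ 2 * |g|) :
    (X.card : ℝ) ≤ (L ^ 2 + 1) * ((dl g X).card : ℝ) := by
  classical
  have hg0 : 0 < |g| := by
    by_contra hcon
    have h1 : |g| = 0 := le_antisymm (not_lt.mp hcon) (abs_nonneg g)
    rw [h1] at hg
    linarith
  have hgne : g ≠ 0 := abs_pos.mp hg0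
  have hsub : X ⊆ (dl g X).biUnion (fun m => X.filter fun v : ℤ => ⌊g * (v : ℝ)⌋ = m) := by
    intro v hv
    rw [Finset.mem_biUnion]
    exact ⟨⌊g * (v : ℝ)⌋, Finset.mem_image.mpr ⟨v, hv, rfl⟩, Finset.mem_filter.mpr ⟨hv, rfl⟩⟩
  have h1 : (X.card : ℝ) ≤
      ∑ m ∈ dl g X, ((X.filter fun v : ℤ => ⌊g * (v : ℝ)⌋ = m).card : ℝ) := by
    have h2 := (Finset.card_le_card hsub).trans Finset.card_biUnion_le
    exact_mod_cast h2
  have hinv : 1 / |g| ≤ L ^ 2 := by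
    rw [div_le_iff₀ hg0]
    exact hg
  have h3 : ∑ m ∈ dl g X, ((X.filter fun v : ℤ => ⌊g * (v : ℝ)⌋ = m).card : ℝ) ≤
      ∑ _m ∈ dl g X, (L ^ 2 + 1) := by
    apply Finset.sum_le_sum
    intro m _
    rcases lt_or_gt_of_ne hgne with hneg | hpos
    · have h4 := card_interval (X.filter fun v : ℤ => ⌊g * (v : ℝ)⌋ = m) (((m : ℝ) + 1) / g)
        ((m : ℝ) / g) ?_ ?_
      · have h5 : (m : ℝ) / g - ((m : ℝ) + 1) / g = 1 / |g| := by
          rw [abs_of_neg hneg]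
          field_simp
          ring
        linarith
      · rw [div_le_div_right_of_neg hneg]
        linarith
      · intro v hv
        have h6 := (Finset.mem_filter.mp hv).2
        have h7 := Int.floor_le (g * (v : ℝ))
        have h8 := Int.lt_floor_add_one (g * (v : ℝ))
        rw [h6] at h7 h8
        constructor
        · rw [div_le_iff_of_neg hneg]
          linarith
        · rw [le_div_iff_of_neg hneg]
          linarith
    · have h4 := card_interval (X.filter fun v : ℤ => ⌊g * (v : ℝ)⌋ = m) ((m : ℝ) / g)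
        (((m : ℝ) + 1) / g) ?_ ?_
      · have h5 : ((m : ℝ) + 1) / g - (m : ℝ) / g = 1 / |g| := by
          rw [abs_of_pos hpos]
          field_simp
          ring
        linarith
      · gcongr
        linarith
      · intro v hv
        have h6 := (Finset.mem_filter.mp hv).2
        have h7 := Int.floor_le (g * (v : ℝ))
        have h8 := Int.lt_floor_add_one (g * (v : ℝ))
        rw [h6] at h7 h8
        constructor
        · rw [div_le_iff₀ hpos]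
          linarith
        · rw [le_div_iff₀ hpos]
          linarith
  rw [Finset.sum_const, nsmul_eq_mul] at h3
  linarith

theorem dl_one (X : Finset ℤ) : dl 1 X = X := by
  unfold dl
  simp

/-- F3. -/
theorem f3 (X Y : Finset ℤ) (e g h : ℝ) : ((dl (e * g) X - dl (e * h) Y).card : ℝ) ≤
    (2 * |e| + 3) * ((dl g X - dl h Y).card : ℝ) := by
  have hc := card_cover (dl (e * g) X - dl (e * h) Y) (dl g X - dl h Y)
    (fun m => e * (m : ℝ) - |e| - 1) (2 * |e| + 2) (by positivity) ?_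
  · linarith
  · intro s hs
    obtain ⟨x', hx', y', hy', rfl⟩ := Finset.mem_sub.mp hs
    obtain ⟨x, hx, rfl⟩ := Finset.mem_image.mp hx'
    obtain ⟨y, hy, rfl⟩ := Finset.mem_image.mp hy'
    refine ⟨⌊g * (x : ℝ)⌋ - ⌊h * (y : ℝ)⌋, Finset.mem_sub.mpr ⟨_, Finset.mem_image.mpr ⟨x, hx, rfl⟩,
      _, Finset.mem_image.mpr ⟨y, hy, rfl⟩, rfl⟩, ?_⟩
    have a1 := Int.floor_le (g * (x : ℝ))
    have a2 := Int.lt_floor_add_one (g * (x : ℝ))
    have b1 := Int.floor_le (h * (y : ℝ))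
    have b2 := Int.lt_floor_add_one (h * (y : ℝ))
    have c1 := Int.floor_le (e * g * (x : ℝ))
    have c2 := Int.lt_floor_add_one (e * g * (x : ℝ))
    have d1 := Int.floor_le (e * h * (y : ℝ))
    have d2 := Int.lt_floor_add_one (e * h * (y : ℝ))
    have key : |e * ((g * (x : ℝ) - h * (y : ℝ)) - (((⌊g * (x : ℝ)⌋ : ℤ) : ℝ) -
        ((⌊h * (y : ℝ)⌋ : ℤ) : ℝ)))| ≤ |e| := by
      rw [abs_mul]
      have h1 : |(g * (x : ℝ) - h * (y : ℝ)) - (((⌊g * (x : ℝ)⌋ : ℤ) : ℝ) -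
          ((⌊h * (y : ℝ)⌋ : ℤ) : ℝ))| ≤ 1 := by
        rw [abs_le]
        constructor <;> linarith
      calc |e| * _ ≤ |e| * 1 := by gcongr
        _ = |e| := mul_one _
    obtain ⟨k1, k2⟩ := abs_le.mp key
    push_cast
    have e1 : e * ((g * (x : ℝ) - h * (y : ℝ)) - (((⌊g * (x : ℝ)⌋ : ℤ) : ℝ) -
        ((⌊h * (y : ℝ)⌋ : ℤ) : ℝ))) = e * g * (x : ℝ) - e * h * (y : ℝ) -
        e * (((⌊g * (x : ℝ)⌋ : ℤ) : ℝ) - ((⌊h * (y : ℝ)⌋ : ℤ) : ℝ)) := by ring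
    rw [e1] at k1 k2
    constructor <;> linarith

/-- F4, Ruzsa triangle inequality. -/
theorem f4 (X Y Z : Finset ℤ) : ((X - Z).card : ℝ) * (Y.card : ℝ) ≤
    ((X - Y).card : ℝ) * ((Y - Z).card : ℝ) := by
  have h := Finset.ruzsa_triangle_inequality_sub_sub_sub X Y Z
  have h2 : (Z - Y).card = (Y - Z).card := by
    rw [← Finset.card_neg (Z - Y), neg_sub]
  rw [h2] at h
  exact_mod_cast h

theorem card_sub_comm' (X Y : Finset ℤ) : (X - Y).card = (Y - X).card := by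
  rw [← Finset.card_neg (X - Y), neg_sub]

/-- F1 with subsets. -/
theorem f1' {X Y X' Y' : Finset ℤ} {c B : ℝ} (hX : X' ⊆ X) (hY : Y' ⊆ Y)
    (h : (((X ×ˢ Y).image fun z : ℤ × ℤ => ⌊(z.1 : ℝ) - c * (z.2 : ℝ)⌋).card : ℝ) ≤ B) :
    ((X' - dl c Y').card : ℝ) ≤ 2 * B := by
  have h1 := f1 X' Y' c
  have h2 : (((X' ×ˢ Y').image fun z : ℤ × ℤ => ⌊(z.1 : ℝ) - c * (z.2 : ℝ)⌋).card : ℝ) ≤
      (((X ×ˢ Y).image fun z : ℤ × ℤ => ⌊(z.1 : ℝ) - c * (z.2 : ℝ)⌋).card : ℝ) := by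
    exact_mod_cast Finset.card_le_card (Finset.image_subset_image (Finset.product_subset_product
      hX hY))
  linarith

end XDIL

open XDIL in
theorem I_DIL : StDil := by
  intro L k c c₀ U U₀ V V₀ hL hk hc hc' hc0 hc0' h1 h2 hU hV
  have hL0 : 0 < L := by linarith
  have hk0 : 0 < k := by linarith
  set U2 := U ∩ U₀ with hU2
  set V2 := V ∩ V₀ with hV2
  -- step 1
  have s1 : ((U2 - dl c V2).card : ℝ) ≤ 2 * (L * k) :=
    f1' Finset.inter_subset_left Finset.inter_subset_left h1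
  have s2 : ((U₀ - dl c₀ V2).card : ℝ) ≤ 2 * (L * k) :=
    f1' (Finset.Subset.refl _) Finset.inter_subset_right h2
  have s3 : ((U2 - dl c₀ V2).card : ℝ) ≤ 2 * (L * k) :=
    f1' Finset.inter_subset_right Finset.inter_subset_right h2
  -- step 2
  have t1 : ((dl c V2 - dl c₀ V2).card : ℝ) ≤ 4 * L ^ 3 * k := by
    have h := f4 (dl c V2) U2 (dl c₀ V2)
    rw [card_sub_comm' (dl c V2) U2] at h
    have h3 : ((U2 - dl c V2).card : ℝ) * ((U2 - dl c₀ V2).card : ℝ) ≤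
        (2 * (L * k)) * (2 * (L * k)) := by gcongr
    have h4 : ((dl c V2 - dl c₀ V2).card : ℝ) * k ≤
        L * (((dl c V2 - dl c₀ V2).card : ℝ) * (U2.card : ℝ)) := by
      have : ((dl c V2 - dl c₀ V2).card : ℝ) * k ≤ ((dl c V2 - dl c₀ V2).card : ℝ) *
        (L * (U2.card : ℝ)) := by gcongr
      linarith
    have h5 : ((dl c V2 - dl c₀ V2).card : ℝ) * k ≤ (4 * L ^ 3 * k) * k := by
      calc ((dl c V2 - dl c₀ V2).card : ℝ) * k ≤
          L * (((dl c V2 - dl c₀ V2).card : ℝ) * (U2.card : ℝ)) := h4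
        _ ≤ L * ((2 * (L * k)) * (2 * (L * k))) :=
            mul_le_mul_of_nonneg_left (h.trans h3) hL0.le
        _ = (4 * L ^ 3 * k) * k := by ring
    exact le_of_mul_le_mul_right h5 hk0
  -- step 3
  have r1 : ((dl c U₀ - dl (c * c₀) V2).card : ℝ) ≤ 5 * L ^ 2 * k := by
    have h := f3 U₀ V2 c 1 c₀
    rw [mul_one, dl_one] at h
    calc ((dl c U₀ - dl (c * c₀) V2).card : ℝ) ≤ (2 * |c| + 3) * ((U₀ - dl c₀ V2).card : ℝ) := h
      _ ≤ (2 * L + 3) * (2 * (L * k)) := by gcongr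
      _ = 4 * L ^ 2 * k + 6 * (L * k) := by ring
      _ ≤ 4 * L ^ 2 * k + L * (L * k) := by gcongr; linarith
      _ = 5 * L ^ 2 * k := by ring
  have r2 : ((dl c₀ U₀ - dl (c₀ * c₀) V2).card : ℝ) ≤ 5 * L ^ 2 * k := by
    have h := f3 U₀ V2 c₀ 1 c₀
    rw [mul_one, dl_one] at h
    calc ((dl c₀ U₀ - dl (c₀ * c₀) V2).card : ℝ) ≤ (2 * |c₀| + 3) * ((U₀ - dl c₀ V2).card : ℝ) := h
      _ ≤ (2 * L + 3) * (2 * (L * k)) := by gcongr
      _ = 4 * L ^ 2 * k + 6 * (L * k) := by ring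
      _ ≤ 4 * L ^ 2 * k + L * (L * k) := by gcongr; linarith
      _ = 5 * L ^ 2 * k := by ring
  have r3 : ((dl (c₀ * c) V2 - dl (c₀ * c₀) V2).card : ℝ) ≤ 9 * L ^ 4 * k := by
    have h := f3 V2 V2 c₀ c c₀
    calc ((dl (c₀ * c) V2 - dl (c₀ * c₀) V2).card : ℝ) ≤
        (2 * |c₀| + 3) * ((dl c V2 - dl c₀ V2).card : ℝ) := h
      _ ≤ (2 * L + 3) * (4 * L ^ 3 * k) := by gcongr
      _ = 8 * L ^ 4 * k + 12 * (L ^ 3 * k) := by ring
      _ ≤ 8 * L ^ 4 * k + L * (L ^ 3 * k) := by gcongr; linarith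
      _ = 9 * L ^ 4 * k := by ring
  -- lower bounds for the dilates
  have hcc : 1 ≤ L ^ 2 * |c * c₀| := by
    rw [abs_mul]
    calc (1 : ℝ) = 1 * 1 := by norm_num
      _ ≤ (L * |c|) * (L * |c₀|) := by gcongr
      _ = L ^ 2 * (|c| * |c₀|) := by ring
  have hcc0 : 1 ≤ L ^ 2 * |c₀ * c₀| := by
    rw [abs_mul]
    calc (1 : ℝ) = 1 * 1 := by norm_num
      _ ≤ (L * |c₀|) * (L * |c₀|) := by gcongr
      _ = L ^ 2 * (|c₀| * |c₀|) := by ring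
  have l1 : k ≤ L * (L ^ 2 + 1) * ((dl (c * c₀) V2).card : ℝ) := by
    have h := f2 V2 (c * c₀) L hcc
    calc k ≤ L * (V2.card : ℝ) := hV
      _ ≤ L * ((L ^ 2 + 1) * ((dl (c * c₀) V2).card : ℝ)) := by gcongr
      _ = _ := by ring
  have l2 : k ≤ L * (L ^ 2 + 1) * ((dl (c₀ * c₀) V2).card : ℝ) := by
    have h := f2 V2 (c₀ * c₀) L hcc0
    calc k ≤ L * (V2.card : ℝ) := hV
      _ ≤ L * ((L ^ 2 + 1) * ((dl (c₀ * c₀) V2).card : ℝ)) := by gcongr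
      _ = _ := by ring
  have hL2 : (10000 : ℝ) ≤ L ^ 2 := by
    calc (10000 : ℝ) = 100 ^ 2 := by norm_num
      _ ≤ L ^ 2 := by gcongr
  have hL4 : 10000 * L ^ 2 ≤ L ^ 2 * L ^ 2 := mul_le_mul_of_nonneg_right hL2 (sq_nonneg L)
  -- step 4
  have u1 : ((dl c U₀ - dl (c₀ * c₀) V2).card : ℝ) ≤ 46 * L ^ 9 * k := by
    have h := f4 (dl c U₀) (dl (c * c₀) V2) (dl (c₀ * c₀) V2)
    have e1 : dl (c₀ * c) V2 = dl (c * c₀) V2 := by rw [mul_comm]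
    rw [e1] at r3
    have h3 : ((dl c U₀ - dl (c * c₀) V2).card : ℝ) *
        ((dl (c * c₀) V2 - dl (c₀ * c₀) V2).card : ℝ) ≤ (5 * L ^ 2 * k) * (9 * L ^ 4 * k) := by
      gcongr
    have h5 : ((dl c U₀ - dl (c₀ * c₀) V2).card : ℝ) * k ≤ (46 * L ^ 9 * k) * k := by
      calc ((dl c U₀ - dl (c₀ * c₀) V2).card : ℝ) * k ≤
          ((dl c U₀ - dl (c₀ * c₀) V2).card : ℝ) *
            (L * (L ^ 2 + 1) * ((dl (c * c₀) V2).card : ℝ)) := by gcongr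
        _ = L * (L ^ 2 + 1) * (((dl c U₀ - dl (c₀ * c₀) V2).card : ℝ) *
            ((dl (c * c₀) V2).card : ℝ)) := by ring
        _ ≤ L * (L ^ 2 + 1) * ((5 * L ^ 2 * k) * (9 * L ^ 4 * k)) :=
            mul_le_mul_of_nonneg_left (h.trans h3) (by positivity)
        _ = (45 * L ^ 9 + 45 * L ^ 7) * (k * k) := by ring
        _ ≤ (45 * L ^ 9 + L ^ 2 * L ^ 7) * (k * k) := by
            gcongr
            linarith
        _ = (46 * L ^ 9 * k) * k := by ring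
    exact le_of_mul_le_mul_right h5 hk0
  -- step 5
  have h := f4 (dl c U₀) (dl (c₀ * c₀) V2) (dl c₀ U₀)
  rw [card_sub_comm' (dl (c₀ * c₀) V2) (dl c₀ U₀)] at h
  have h3 : ((dl c U₀ - dl (c₀ * c₀) V2).card : ℝ) *
      ((dl c₀ U₀ - dl (c₀ * c₀) V2).card : ℝ) ≤ (46 * L ^ 9 * k) * (5 * L ^ 2 * k) := by
    gcongr
  have h5 : ((dl c U₀ - dl c₀ U₀).card : ℝ) * k ≤ (L ^ 16 * k) * k := by
    calc ((dl c U₀ - dl c₀ U₀).card : ℝ) * k ≤
        ((dl c U₀ - dl c₀ U₀).card : ℝ) *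
          (L * (L ^ 2 + 1) * ((dl (c₀ * c₀) V2).card : ℝ)) := by gcongr
      _ = L * (L ^ 2 + 1) * (((dl c U₀ - dl c₀ U₀).card : ℝ) *
          ((dl (c₀ * c₀) V2).card : ℝ)) := by ring
      _ ≤ L * (L ^ 2 + 1) * ((46 * L ^ 9 * k) * (5 * L ^ 2 * k)) :=
          mul_le_mul_of_nonneg_left (h.trans h3) (by positivity)
      _ = (230 * (L ^ 2 + 1)) * (L ^ 12 * (k * k)) := by ring
      _ ≤ (L ^ 2 * L ^ 2) * (L ^ 12 * (k * k)) :=
          mul_le_mul_of_nonneg_right (by linarith) (by positivity)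
      _ = (L ^ 16 * k) * k := by ring
  exact le_of_mul_le_mul_right h5 hk0

end Pool.Agent.Work.MP_e17eac_co.RING

end

section

/-!
# Ring module, uniform version: statements

The exponent `a` of the regularity may be arbitrarily small. All losses in counts are powers of
`K`; lengths may be lost up to factors `W = L ^ (1 / a)`, which cost only `W ^ a = L` in counts.
The sets are therefore measured at a resolution `r ≥ 1` which is a power of `W`.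
-/

namespace Pool.Agent.Work.MP_e17eac_co.RINGU

open Finset
open scoped Pointwise
open Pool.Agent.Work.MP_e17eac_co.RING

/-- The uniform main theorem: the exponent `C` does not depend on `a`. -/
def RingU : Prop :=
  ∃ C : ℕ, ∀ a R K : ℝ, 0 < a → a ≤ 1 / 2 → 100 ≤ K → 1 ≤ R → K ^ C ≤ R ^ a →
    ∀ (A : Finset ℝ) (T : Finset (ℝ × ℝ)) (I : Finset ((ℝ × ℝ) × ℝ)), ¬ Config a R K A T I

/-- Every interval of radius `ρ` contains at most `L` elements. -/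
def Spa (L ρ : ℝ) (S : Finset ℤ) : Prop :=
  ∀ y : ℝ, ((S.filter fun u : ℤ => |(u : ℝ) - y| ≤ ρ).card : ℝ) ≤ L

/-- A large affine copy of a set of multipliers inside a set closed under these multipliers, at
resolution `r`. -/
structure RLU (a R L W r : ℝ) (D : Finset ℝ) (A₀ : Finset ℤ) (q : ℝ → ℤ) (β Y : ℝ) : Prop where
  bdD : ∀ c ∈ D, |c| ≤ W ∧ 1 ≤ W * |c|
  card : R ^ a ≤ L * (D.card : ℝ)
  reg : ∀ c δ : ℝ, 1 ≤ R * δ → ((D.filter fun c' => |c' - c| ≤ δ).card : ℝ) ≤ L * (R * δ) ^ a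
  bdA : ∀ u ∈ A₀, |(u : ℝ)| ≤ W * R
  mem : ∀ c ∈ D, q c ∈ A₀
  aff : ∀ c ∈ D, |(q c : ℝ) - (β + Y * c)| ≤ W
  low : R ≤ W * |Y|
  sum : ∀ γ : Fin 9 → ℝ, (∀ i, γ i ∈ D ∨ -γ i ∈ D) →
    ((∑ i, dl (γ i / r) A₀).card : ℝ) ≤ L * R ^ a

/-! ### Steps 1 and 2: removal of the crowded classes, the graph of one slope -/

def StPrune : Prop :=
  ∀ (a K W ρ Λ k x₁ x₂ : ℝ) (T : Finset (ℝ × ℝ)), 0 < a → a ≤ 1 → 1 ≤ K → 1 ≤ W → 1 ≤ ρ →
    0 < Λ → 0 < k → 0 ≤ x₁ → x₁ ≤ 1 → 1 ≤ W * |x₁ - x₂| → RegT a K T →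
    ((cl (bb x₁) T).card : ℝ) ≤ K * k → ((cl (bb x₂) T).card : ℝ) ≤ K * k →
    ∃ T' ⊆ T, Spa Λ ρ (cl (bb x₁) T') ∧ Spa Λ ρ (cl (bb x₂) T') ∧
      Λ * ((T \ T').card : ℝ) ≤ 2 * K ^ 3 * k ^ 2 * (20 * ρ * W) ^ (2 * a)

def StEdgeU : Prop :=
  ∀ (a K W x₁ x₂ : ℝ) (T G : Finset (ℝ × ℝ)), 0 < a → 1 ≤ K → 1 ≤ W → 0 ≤ x₁ → x₁ ≤ 1 →
    1 ≤ W * |x₁ - x₂| → G ⊆ T → RegT a K T →
    (G.card : ℝ) ≤ K * (3 * W) ^ (2 * a) *
      ((G.image fun p => (⌊bb x₁ p⌋, ⌊bb x₂ p⌋)).card : ℝ)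

def StClsU : Prop :=
  ∀ (W r x₁ x₂ x : ℝ) (G : Finset (ℝ × ℝ)), 1 ≤ W → W ≤ r → |x₁ - x₂| ≤ 1 → |x - x₁| ≤ 1 →
    1 ≤ W * |x - x₂| →
    (((G.image fun p => (⌊bb x₁ p⌋, ⌊bb x₂ p⌋)).image fun z : ℤ × ℤ =>
      ⌊((z.1 : ℝ) - cc x₁ x₂ x * (z.2 : ℝ)) / r⌋).card : ℝ) ≤ 5 * ((cl (bb x) G).card : ℝ)

def StBSGU : Prop :=
  ∀ (L k c r ρ : ℝ) (U V : Finset ℤ) (E : Finset (ℤ × ℤ)), 100 ≤ L → 1 ≤ k → 1 ≤ r → r ≤ ρ →
    r ≤ ρ * |c| → Spa L ρ U → Spa L ρ V → E ⊆ U ×ˢ V → (U.card : ℝ) ≤ L * k →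
    (V.card : ℝ) ≤ L * k → k ^ 2 ≤ L * (E.card : ℝ) →
    ((E.image fun z : ℤ × ℤ => ⌊((z.1 : ℝ) - c * (z.2 : ℝ)) / r⌋).card : ℝ) ≤ L * k →
    ∃ U' ⊆ U, ∃ V' ⊆ V, k ≤ L ^ 22 * (U'.card : ℝ) ∧ k ≤ L ^ 22 * (V'.card : ℝ) ∧
      (((U' ×ˢ V').image fun z : ℤ × ℤ => ⌊((z.1 : ℝ) - c * (z.2 : ℝ)) / r⌋).card : ℝ) ≤
        L ^ 24 * k ∧
      ∀ u ∈ U', k ≤ L ^ 22 * ((V.filter fun v => (u, v) ∈ E).card : ℝ)

/-! ### Step 4: sums of dilates -/

def StDilU : Prop :=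
  ∀ (L W k c c₀ r ρ : ℝ) (U U₀ V V₀ : Finset ℤ), 100 ≤ L → 1 ≤ W → 1 ≤ k → |c| ≤ W →
    1 ≤ W * |c| → |c₀| ≤ W → 1 ≤ W * |c₀| → 1 ≤ r → r * W ^ 3 ≤ ρ → Spa L ρ U₀ → Spa L ρ V₀ →
    (((U ×ˢ V).image fun z : ℤ × ℤ => ⌊((z.1 : ℝ) - c * (z.2 : ℝ)) / r⌋).card : ℝ) ≤ L * k →
    (((U₀ ×ˢ V₀).image fun z : ℤ × ℤ => ⌊((z.1 : ℝ) - c₀ * (z.2 : ℝ)) / r⌋).card : ℝ) ≤ L * k →
    k ≤ L * ((U ∩ U₀).card : ℝ) → k ≤ L * ((V ∩ V₀).card : ℝ) →
    ((dl (c / (r * W)) U₀ - dl (c₀ / (r * W)) U₀).card : ℝ) ≤ L ^ 16 * k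

def StSumU : Prop :=
  ∀ (L k : ℝ) (U Y : Finset ℤ) (γ : Fin 9 → ℝ), 100 ≤ L → 1 ≤ k → k ≤ L * (Y.card : ℝ) →
    ((Y - Y).card : ℝ) ≤ L * k →
    (∀ i, ((dl (γ i) U - Y).card : ℝ) ≤ L * k ∨ ((dl (-γ i) U - Y).card : ℝ) ≤ L * k) →
    ((∑ i, dl (γ i) U).card : ℝ) ≤ L ^ 150 * k

/-! ### Step 5: an affine copy of the multipliers -/

def StNearU : Prop :=
  ∀ (a R L M : ℝ) (A : Finset ℝ) (T : Finset (ℝ × ℝ)), 0 < a → a ≤ 1 → 1 ≤ M → M ≤ R →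
    1 ≤ L → (∀ x ∈ A, 0 ≤ x ∧ x ≤ 1) → (T.card : ℝ) ≤ L * R ^ (2 * a) → RegA a R L A →
    RegT a L T →
    ((((T ×ˢ T) ×ˢ A).filter fun z => |z.1.1.1 - z.1.2.1| < R / M ∧
      |bb z.2 z.1.1 - bb z.2 z.1.2| < 1).card : ℝ) ≤
        100 * L ^ 3 * R ^ (4 * a) / M ^ a + 100 * L ^ 3 * R ^ (3 * a)

def StAffU : Prop :=
  ∀ (a L W k d x₁ x₂ : ℝ) (T : Finset (ℝ × ℝ)) (X₀ : Finset ℝ) (A₀ : Finset ℤ)
    (G : ℝ → Finset (ℝ × ℝ)) (p₀ : ℝ × ℝ) (y : ℤ), 0 < a → a ≤ 1 → 100 ≤ L → 1 ≤ W →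
    W ^ a ≤ L → 0 < k → 4 * W ≤ d → 0 ≤ x₁ → x₁ ≤ 1 → 0 ≤ x₂ → x₂ ≤ 1 → 1 ≤ W * |x₁ - x₂| →
    (∀ x ∈ X₀, 0 ≤ x ∧ x ≤ 1 ∧ 1 ≤ W * |x - x₁| ∧ 1 ≤ W * |x - x₂| ∧ G x ⊆ T ∧
      ∀ p ∈ G x, ⌊bb x₁ p⌋ ∈ A₀) → RegT a L T →
    k ≤ 2 * L ^ 6 * (((T ×ˢ X₀).filter fun z => z.1 ∈ G z.2 ∧
      p₀ ∈ G z.2 ∧ ⌊bb z.2 z.1⌋ = ⌊bb z.2 p₀⌋ ∧ d ≤ |z.1.1 - p₀.1| ∧
      ⌊bb x₂ z.1⌋ = y).card : ℝ) →
    ∃ (β Y : ℝ) (r : ℝ → ℤ), ∃ C ⊆ X₀, k ≤ L ^ 10 * (C.card : ℝ) ∧ d ≤ 2 * W * |Y| ∧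
      ∀ x ∈ C, r x ∈ A₀ ∧ |(r x : ℝ) - (β + Y * cc x₁ x₂ x)| ≤ 3 * W

/-! ### Step 6: the configuration gives an affine copy -/

def StRLU : Prop :=
  ∀ (a R K L W : ℝ) (A : Finset ℝ) (T : Finset (ℝ × ℝ)) (I : Finset ((ℝ × ℝ) × ℝ)),
    0 < a → a ≤ 1 → 100 ≤ K → 1 ≤ R → K ^ 1000000 ≤ R ^ a → L = K ^ 60000000 →
    W = L ^ (1 / a) → Config a R K A T I →
    ∃ (r : ℝ) (D : Finset ℝ) (A₀ : Finset ℤ) (q : ℝ → ℤ) (β Y : ℝ), 1 ≤ r ∧ r ≤ W ∧
      RLU a R L W r D A₀ q β Y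

/-! ### Step 7: many quadruples for the quotients -/

def StCovU : Prop :=
  ∀ (a R L W r : ℝ) (D : Finset ℝ) (A₀ : Finset ℤ) (q : ℝ → ℤ) (β Y : ℝ), 0 < a → a ≤ 1 →
    100 ≤ L → L ≤ W → W ^ a ≤ L → 1 ≤ r → r ≤ W → 1 ≤ R → RLU a R L W r D A₀ q β Y →
    ∀ c₁ ∈ D, ∀ c₂ ∈ D, ∀ c₃ ∈ D, ∀ c₄ ∈ D, ∀ d₁ ∈ D, ∀ d₂ ∈ D, 1 ≤ R * |c₃ - c₄| →
      |c₁ - c₂| ≤ 2 * |c₃ - c₄| → |d₁ - d₂| ≤ 2 * |c₃ - c₄| →
      (((A₀ ×ˢ A₀).image fun z : ℤ × ℤ => ⌊(2 * (c₃ - c₄) * (z.1 : ℝ) +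
        (c₁ - c₂ + (d₁ - d₂)) * (z.2 : ℝ)) / r⌋).card : ℝ) ≤
          288 * L ^ 6 * R ^ a * |c₃ - c₄| ^ a

def StUpU : Prop :=
  ∀ (a R L W r : ℝ) (D : Finset ℝ) (A₀ : Finset ℤ) (q : ℝ → ℤ) (β Y : ℝ), 0 < a → a ≤ 1 →
    100 ≤ L → L ≤ W → W ^ a ≤ L → 1 ≤ r → r ≤ W → 1 ≤ R → RLU a R L W r D A₀ q β Y →
    ∀ c₁ ∈ D, ∀ c₂ ∈ D, ∀ c₃ ∈ D, ∀ c₄ ∈ D, ∀ d₁ ∈ D, ∀ d₂ ∈ D, 1 ≤ R * |c₃ - c₄| →
      |c₁ - c₂| ≤ 2 * |c₃ - c₄| → |d₁ - d₂| ≤ 2 * |c₃ - c₄| →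
      R ^ (3 * a) ≤ L ^ 12 * |c₃ - c₄| ^ a *
        ((quad D ((c₁ - c₂ + (d₁ - d₂)) / (2 * (c₃ - c₄))) (W ^ 4 / (|c₃ - c₄| * R))).card : ℝ)

/-! ### Step 8: the pivot argument -/

def StPNU : Prop :=
  ∀ (a R L W s t δ : ℝ) (D : Finset ℝ), 0 < a → a ≤ 1 → 1 ≤ L → 1 ≤ W → W ^ a ≤ L → 1 ≤ R →
    1 ≤ R * s → 1 ≤ R * δ → (∀ c ∈ D, |c| ≤ W) →
    (∀ c δ : ℝ, 1 ≤ R * δ → ((D.filter fun c' => |c' - c| ≤ δ).card : ℝ) ≤ L * (R * δ) ^ a) →
    (((quad D t δ).filter fun z => |z.2.1 - z.2.2| < s).card : ℝ) ≤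
      L ^ 6 * R ^ (2 * a) * (R * s) ^ a * (R * δ) ^ a

def StPivU : Prop :=
  ∀ (a R L W s : ℝ) (D : Finset ℝ), 0 < a → a ≤ 1 → 100 ≤ L → L ≤ W → W ^ a ≤ L → 1 ≤ R →
    0 < s → s ≤ 1 → R ^ a ≤ L * (D.card : ℝ) → (∀ c ∈ D, |c| ≤ W) →
    (∀ c δ : ℝ, 1 ≤ R * δ → ((D.filter fun c' => |c' - c| ≤ δ).card : ℝ) ≤ L * (R * δ) ^ a) →
    (∀ c₁ ∈ D, ∀ c₂ ∈ D, ∀ c₃ ∈ D, ∀ c₄ ∈ D, ∀ d₁ ∈ D, ∀ d₂ ∈ D, 1 ≤ R * |c₃ - c₄| →
      |c₁ - c₂| ≤ 2 * |c₃ - c₄| → |d₁ - d₂| ≤ 2 * |c₃ - c₄| →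
      R ^ (3 * a) ≤ L ^ 12 * |c₃ - c₄| ^ a *
        ((quad D ((c₁ - c₂ + (d₁ - d₂)) / (2 * (c₃ - c₄))) (W ^ 4 / (|c₃ - c₄| * R))).card : ℝ)) →
    2 * L ^ 22 * s ^ a ≤ 1 → W ^ 4 * L ^ 22 ≤ s ^ 2 * R ^ (1 - a) → False

end Pool.Agent.Work.MP_e17eac_co.RINGU

end

section

/-!
# Ring module, uniform version: item AFFU, an affine copy of the multipliers
-/

set_option autoImplicit false

namespace Pool.Agent.Work.MP_e17eac_co.RINGU

open Finset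
open scoped Pointwise
open Pool.Agent.Work.MP_e17eac_co.RING

namespace XAFFU

theorem bb_sub (x x' : ℝ) (q : ℝ × ℝ) : bb x' q - bb x q = (x - x') * q.1 := by
  unfold bb; ring

/-- two cells in the same classes for `x` and `x₂` are near each other -/
theorem near {W x x₂ : ℝ} {p p' : ℝ × ℝ} (hL : 1 ≤ W) (hx0 : 0 ≤ x) (hx1 : x ≤ 1)
    (h2 : 1 ≤ W * |x - x₂|) (e1 : |bb x p - bb x p'| < 1) (e2 : |bb x₂ p - bb x₂ p'| < 1) :
    |p.1 - p'.1| ≤ 3 * W ∧ |p.2 - p'.2| ≤ 3 * W := by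
  have hL0 : 0 < W := by linarith
  have h3 : |x - x₂| * |p.1 - p'.1| ≤ 2 := by
    rw [← abs_mul]
    have h4 : (x - x₂) * (p.1 - p'.1) = (bb x₂ p - bb x₂ p') - (bb x p - bb x p') := by
      unfold bb; ring
    rw [h4]
    have := abs_sub (bb x₂ p - bb x₂ p') (bb x p - bb x p')
    linarith
  have h5 : |p.1 - p'.1| ≤ 2 * W := by
    have h6 : |p.1 - p'.1| * 1 ≤ |p.1 - p'.1| * (W * |x - x₂|) :=
      mul_le_mul_of_nonneg_left h2 (abs_nonneg _)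
    have h7 : W * (|x - x₂| * |p.1 - p'.1|) ≤ W * 2 := mul_le_mul_of_nonneg_left h3 hL0.le
    linarith
  refine ⟨by linarith, ?_⟩
  have h8 : p.2 - p'.2 = (bb x p - bb x p') + x * (p.1 - p'.1) := by unfold bb; ring
  rw [h8]
  have h9 : |x * (p.1 - p'.1)| ≤ 2 * W := by
    rw [abs_mul, abs_of_nonneg hx0]
    have : x * |p.1 - p'.1| ≤ 1 * |p.1 - p'.1| := mul_le_mul_of_nonneg_right hx1 (abs_nonneg _)
    linarith
  have := abs_add_le (bb x p - bb x p') (x * (p.1 - p'.1))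
  linarith

theorem fib {a L W : ℝ} {T S : Finset (ℝ × ℝ)} (ha1 : a ≤ 1) (hL : 100 ≤ L)
    (hW : 1 ≤ W) (hWa : W ^ a ≤ L) (hT : RegT a L T) (hS : S ⊆ T)
    (hn : ∀ p ∈ S, ∀ p' ∈ S, |p.1 - p'.1| ≤ 3 * W ∧ |p.2 - p'.2| ≤ 3 * W) :
    (S.card : ℝ) ≤ 9 * L ^ 3 := by
  classical
  have hL0 : 0 < L := by linarith
  have hW0 : 0 < W := by linarith
  rcases S.eq_empty_or_nonempty with h | ⟨q, hq⟩
  · rw [h, Finset.card_empty]; push_cast; positivity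
  have h1 := hT q (3 * W) (by linarith)
  have h2 : S ⊆ T.filter fun p => |p.1 - q.1| ≤ 3 * W ∧ |p.2 - q.2| ≤ 3 * W := by
    intro p hp
    exact Finset.mem_filter.2 ⟨hS hp, hn p hp q hq⟩
  have h3 := (Nat.cast_le (α := ℝ)).2 (Finset.card_le_card h2)
  have h4 : (3 : ℝ) ^ (2 * a) ≤ 9 := by
    have h41 : (3 : ℝ) ^ (2 * a) ≤ (3 : ℝ) ^ (2 : ℝ) :=
      Real.rpow_le_rpow_of_exponent_le (by norm_num) (by linarith)
    rw [Real.rpow_two] at h41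
    linarith
  have h5 : W ^ (2 * a) ≤ L ^ 2 := by
    have h51 : W ^ (2 * a) = (W ^ a) ^ 2 := by
      rw [mul_comm, Real.rpow_mul hW0.le, Real.rpow_two]
    rw [h51]
    exact pow_le_pow_left₀ (Real.rpow_nonneg hW0.le a) hWa 2
  have h6 : (3 * W) ^ (2 * a) ≤ 9 * L ^ 2 := by
    rw [Real.mul_rpow (by norm_num) hW0.le]
    exact mul_le_mul h4 h5 (Real.rpow_nonneg hW0.le _) (by norm_num)
  have h7 : L * (3 * W) ^ (2 * a) ≤ L * (9 * L ^ 2) := mul_le_mul_of_nonneg_left h6 hL0.le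
  have h8 : L * (9 * L ^ 2) = 9 * L ^ 3 := by ring
  linarith

theorem quot_le {L u v : ℝ} (hu : |u| ≤ 1) (hv : 1 ≤ L * |v|) : |u / v| ≤ L := by
  have hv0 : 0 < |v| := by
    rcases (abs_nonneg v).lt_or_eq with h | h
    · exact h
    · rw [← h, mul_zero] at hv; linarith
  rw [abs_div, div_le_iff₀ hv0]
  linarith

theorem lam_eq {x x₁ x₂ : ℝ} (h : x - x₂ ≠ 0) (u v : ℝ) :
    (v - x₁ * u) - (x - x₁) / (x - x₂) * (v - x₂ * u) =
      (x₁ - x₂) / (x - x₂) * (v - x * u) := by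
  field_simp
  ring

theorem split {x x₁ x₂ : ℝ} (h : x - x₂ ≠ 0) (f y : ℝ) (p p₀ : ℝ × ℝ) :
    f - (bb x₁ p₀ + (y - bb x₂ p₀) * cc x₁ x₂ x) =
      (f - bb x₁ p) - cc x₁ x₂ x * (y - bb x₂ p) +
        (x₁ - x₂) / (x - x₂) * (bb x p - bb x p₀) := by
  have h1 := lam_eq (x₁ := x₁) h (p.1 - p₀.1) (p.2 - p₀.2)
  unfold bb cc
  linear_combination h1

end XAFFU

namespace XAFFU

/-- the item for an abstract set `Z` -/
theorem core {a L W k d x₁ x₂ : ℝ} {T : Finset (ℝ × ℝ)} {X₀ : Finset ℝ} {A₀ : Finset ℤ}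
    {G : ℝ → Finset (ℝ × ℝ)} {p₀ : ℝ × ℝ} {y : ℤ} (ha1 : a ≤ 1) (hL : 100 ≤ L)
    (hW : 1 ≤ W) (hWa : W ^ a ≤ L) (hk : 0 < k) (hd : 4 * W ≤ d) (h10 : 0 ≤ x₁) (h11 : x₁ ≤ 1) (h20 : 0 ≤ x₂) (h21 : x₂ ≤ 1)
    (hX : ∀ x ∈ X₀, 0 ≤ x ∧ x ≤ 1 ∧ 1 ≤ W * |x - x₁| ∧ 1 ≤ W * |x - x₂| ∧ G x ⊆ T ∧
      ∀ p ∈ G x, ⌊bb x₁ p⌋ ∈ A₀) (hT : RegT a L T) (Z : Finset ((ℝ × ℝ) × ℝ))
    (hmem : ∀ z ∈ Z, z.1 ∈ T ∧ z.2 ∈ X₀ ∧ z.1 ∈ G z.2 ∧ ⌊bb z.2 z.1⌋ = ⌊bb z.2 p₀⌋ ∧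
      d ≤ |z.1.1 - p₀.1| ∧ ⌊bb x₂ z.1⌋ = y) (hZ : k ≤ 2 * L ^ 6 * (Z.card : ℝ)) :
    ∃ (β Y : ℝ) (r : ℝ → ℤ), ∃ C ⊆ X₀, k ≤ L ^ 10 * (C.card : ℝ) ∧ d ≤ 2 * W * |Y| ∧
      ∀ x ∈ C, r x ∈ A₀ ∧ |(r x : ℝ) - (β + Y * cc x₁ x₂ x)| ≤ 3 * W := by
  classical
  have hL0 : 0 < L := by linarith
  have hW0 : 0 < W := by linarith
  have hne : Z.Nonempty := by
    rw [← Finset.card_pos]
    by_contra h
    have h0 : Z.card = 0 := by omega
    rw [h0, Nat.cast_zero, mul_zero] at hZ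
    linarith
  let C : Finset ℝ := Z.image fun z => z.2
  have hC : ∀ x ∈ C, ∃ p : ℝ × ℝ, (p, x) ∈ Z := by
    intro x hx
    obtain ⟨z, hz, rfl⟩ := Finset.mem_image.1 hx
    exact ⟨z.1, hz⟩
  choose! P hP using hC
  -- multiplicity
  have hcard : (Z.card : ℝ) ≤ 9 * L ^ 3 * (C.card : ℝ) := by
    have h1 : Z.card ≤ ⌊9 * L ^ 3⌋₊ * C.card := by
      refine Finset.card_le_mul_card_image Z _ fun x _ => ?_
      apply Nat.le_floor
      have h2 : ((Z.filter fun z => z.2 = x).image fun z => z.1).card =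
          (Z.filter fun z => z.2 = x).card := by
        apply Finset.card_image_of_injOn
        intro z hz z' hz' h
        rw [Finset.coe_filter] at hz hz'
        exact Prod.ext h (hz.2.trans hz'.2.symm)
      rw [← h2]
      apply XAFFU.fib ha1 hL hW hWa hT
      · intro p hp
        obtain ⟨z, hz, rfl⟩ := Finset.mem_image.1 hp
        exact (hmem z (Finset.mem_filter.1 hz).1).1
      · intro p hp p' hp'
        obtain ⟨z, hz, rfl⟩ := Finset.mem_image.1 hp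
        obtain ⟨z', hz', rfl⟩ := Finset.mem_image.1 hp'
        obtain ⟨hz1, hz2⟩ := Finset.mem_filter.1 hz
        obtain ⟨hz1', hz2'⟩ := Finset.mem_filter.1 hz'
        have m := hmem z hz1
        have m' := hmem z' hz1'
        have g := hX z.2 m.2.1
        refine XAFFU.near (x := z.2) (x₂ := x₂) hW g.1 g.2.1 g.2.2.2.1 ?_ ?_
        · apply Int.abs_sub_lt_one_of_floor_eq_floor
          rw [m.2.2.2.1]
          have h3 := m'.2.2.2.1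
          rw [hz2', ← hz2] at h3
          exact h3.symm
        · apply Int.abs_sub_lt_one_of_floor_eq_floor
          rw [m.2.2.2.2.2, m'.2.2.2.2.2]
    calc (Z.card : ℝ) ≤ ((⌊9 * L ^ 3⌋₊ * C.card : ℕ) : ℝ) := by exact_mod_cast h1
      _ = (⌊9 * L ^ 3⌋₊ : ℝ) * C.card := by push_cast; ring
      _ ≤ 9 * L ^ 3 * (C.card : ℝ) :=
        mul_le_mul_of_nonneg_right (Nat.floor_le (by positivity)) (Nat.cast_nonneg _)
  refine ⟨bb x₁ p₀, (y : ℝ) - bb x₂ p₀, fun x => ⌊bb x₁ (P x)⌋, C, ?_, ?_, ?_, ?_⟩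
  · intro x hx
    exact (hmem _ (hP x hx)).2.1
  · have h1 : 2 * L ^ 6 * (Z.card : ℝ) ≤ 2 * L ^ 6 * (9 * L ^ 3 * (C.card : ℝ)) :=
      mul_le_mul_of_nonneg_left hcard (by positivity)
    have h2 : 2 * L ^ 6 * (9 * L ^ 3 * (C.card : ℝ)) = 18 * (L ^ 9 * (C.card : ℝ)) := by ring
    have h3 : L ^ 10 * (C.card : ℝ) = L * (L ^ 9 * (C.card : ℝ)) := by ring
    have h4 : 18 * (L ^ 9 * (C.card : ℝ)) ≤ L * (L ^ 9 * (C.card : ℝ)) :=
      mul_le_mul_of_nonneg_right (by linarith) (by positivity)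
    linarith
  · obtain ⟨z, hz⟩ := hne
    have m := hmem z hz
    have g := hX z.2 m.2.1
    have e1 : |bb z.2 z.1 - bb z.2 p₀| < 1 := Int.abs_sub_lt_one_of_floor_eq_floor m.2.2.2.1
    have e2 : |(y : ℝ) - bb x₂ z.1| ≤ 1 := by
      rw [← m.2.2.2.2.2, abs_le]
      have f1 := Int.floor_le (bb x₂ z.1)
      have f2 := Int.lt_floor_add_one (bb x₂ z.1)
      constructor <;> linarith
    have e3 : (z.2 - x₂) * (z.1.1 - p₀.1) =
        ((y : ℝ) - bb x₂ p₀) - ((y : ℝ) - bb x₂ z.1) - (bb z.2 z.1 - bb z.2 p₀) := by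
      unfold bb; ring
    have e4 : |z.2 - x₂| * |z.1.1 - p₀.1| ≤ |(y : ℝ) - bb x₂ p₀| + 2 := by
      rw [← abs_mul, e3]
      have i1 := abs_sub (((y : ℝ) - bb x₂ p₀) - ((y : ℝ) - bb x₂ z.1)) (bb z.2 z.1 - bb z.2 p₀)
      have i2 := abs_sub ((y : ℝ) - bb x₂ p₀) ((y : ℝ) - bb x₂ z.1)
      linarith
    have e5 : d ≤ W * (|z.2 - x₂| * |z.1.1 - p₀.1|) := by
      have i1 : |z.1.1 - p₀.1| * 1 ≤ |z.1.1 - p₀.1| * (W * |z.2 - x₂|) :=
        mul_le_mul_of_nonneg_left g.2.2.2.1 (abs_nonneg _)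
      have i2 := m.2.2.2.2.1
      linarith
    have e6 : W * (|z.2 - x₂| * |z.1.1 - p₀.1|) ≤ W * (|(y : ℝ) - bb x₂ p₀| + 2) :=
      mul_le_mul_of_nonneg_left e4 hW0.le
    linarith
  · intro x hx
    have m := hmem _ (hP x hx)
    have g := hX x m.2.1
    refine ⟨g.2.2.2.2.2 _ m.2.2.1, ?_⟩
    have e1 : |bb x (P x) - bb x p₀| < 1 := Int.abs_sub_lt_one_of_floor_eq_floor m.2.2.2.1
    have e2 : |(y : ℝ) - bb x₂ (P x)| ≤ 1 := by
      rw [← m.2.2.2.2.2, abs_le]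
      have f1 := Int.floor_le (bb x₂ (P x))
      have f2 := Int.lt_floor_add_one (bb x₂ (P x))
      constructor <;> linarith
    have e3 : |((⌊bb x₁ (P x)⌋ : ℤ) : ℝ) - bb x₁ (P x)| ≤ 1 := by
      rw [abs_le]
      have f1 := Int.floor_le (bb x₁ (P x))
      have f2 := Int.lt_floor_add_one (bb x₁ (P x))
      constructor <;> linarith
    have hxx : x - x₂ ≠ 0 := by
      intro h
      have := g.2.2.2.1
      rw [h, abs_zero, mul_zero] at this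
      linarith
    have c1 : |cc x₁ x₂ x| ≤ W := by
      unfold cc
      apply XAFFU.quot_le _ g.2.2.2.1
      rw [abs_le]
      constructor <;> linarith [g.1, g.2.1]
    have c2 : |(x₁ - x₂) / (x - x₂)| ≤ W := by
      apply XAFFU.quot_le _ g.2.2.2.1
      rw [abs_le]
      constructor <;> linarith
    have e4 : ((⌊bb x₁ (P x)⌋ : ℤ) : ℝ) - (bb x₁ p₀ + ((y : ℝ) - bb x₂ p₀) * cc x₁ x₂ x) =
        (((⌊bb x₁ (P x)⌋ : ℤ) : ℝ) - bb x₁ (P x)) - cc x₁ x₂ x * ((y : ℝ) - bb x₂ (P x)) +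
          (x₁ - x₂) / (x - x₂) * (bb x (P x) - bb x p₀) := XAFFU.split hxx _ _ _ _
    rw [e4]
    have t1 : |cc x₁ x₂ x * ((y : ℝ) - bb x₂ (P x))| ≤ W * 1 := by
      rw [abs_mul]
      exact mul_le_mul c1 e2 (abs_nonneg _) hW0.le
    have t2 : |(x₁ - x₂) / (x - x₂) * (bb x (P x) - bb x p₀)| ≤ W * 1 := by
      rw [abs_mul]
      exact mul_le_mul c2 e1.le (abs_nonneg _) hW0.le
    have i1 := abs_add_le ((((⌊bb x₁ (P x)⌋ : ℤ) : ℝ) - bb x₁ (P x)) -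
      cc x₁ x₂ x * ((y : ℝ) - bb x₂ (P x))) ((x₁ - x₂) / (x - x₂) * (bb x (P x) - bb x p₀))
    have i2 := abs_sub (((⌊bb x₁ (P x)⌋ : ℤ) : ℝ) - bb x₁ (P x))
      (cc x₁ x₂ x * ((y : ℝ) - bb x₂ (P x)))
    linarith

end XAFFU

theorem I_AFFU : StAffU := by
  intro a L W k d x₁ x₂ T X₀ A₀ G p₀ y ha ha1 hL hW hWa hk hd h10 h11 h20 h21 h12 hX hT hZ
  refine XAFFU.core (p₀ := p₀) (y := y) ha1 hL hW hWa hk hd h10 h11 h20 h21 hX hT _ ?_ hZ
  intro z hz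
  rw [Finset.mem_filter, Finset.mem_product] at hz
  exact ⟨hz.1.1, hz.1.2, hz.2.1, hz.2.2.2.1, hz.2.2.2.2.1, hz.2.2.2.2.2⟩

end Pool.Agent.Work.MP_e17eac_co.RINGU

end

section

/-! Ring module, uniform version, item CLSU: the classes of a third slope. -/

set_option autoImplicit false

namespace Pool.Agent.Work.MP_e17eac_co.RINGU

open Finset
open scoped Pointwise
open Pool.Agent.Work.MP_e17eac_co.RING

namespace XCLSU

theorem ident {x₁ x₂ x : ℝ} (h : x - x₂ ≠ 0) (p : ℝ × ℝ) :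
    bb x₁ p - cc x₁ x₂ x * bb x₂ p = (x₁ - x₂) / (x - x₂) * bb x p := by
  unfold bb cc
  field_simp
  ring

/-- the number of possible values over one class -/
theorem card_Icc {α W r : ℝ} (hW : 1 ≤ W) (hr : W ≤ r) :
    ((Finset.Icc ⌊α / r⌋ ⌊(α + (2 * W + 1)) / r⌋).card : ℝ) ≤ 5 := by
  have hr0 : 0 < r := by linarith
  rw [Int.card_Icc]
  have h1 : ⌊α / r⌋ ≤ ⌊(α + (2 * W + 1)) / r⌋ :=
    Int.floor_le_floor (div_le_div_of_nonneg_right (by linarith) hr0.le)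
  have h2 : (((⌊(α + (2 * W + 1)) / r⌋ + 1 - ⌊α / r⌋).toNat : ℤ) : ℝ) =
      ((⌊(α + (2 * W + 1)) / r⌋ + 1 - ⌊α / r⌋ : ℤ) : ℝ) := by
    rw [Int.toNat_of_nonneg (by omega)]
  have h3 : (((⌊(α + (2 * W + 1)) / r⌋ + 1 - ⌊α / r⌋).toNat : ℕ) : ℝ) =
      ((⌊(α + (2 * W + 1)) / r⌋ + 1 - ⌊α / r⌋ : ℤ) : ℝ) := by
    rw [← h2]
    norm_cast
  rw [h3]
  push_cast
  have h4 := Int.floor_le ((α + (2 * W + 1)) / r)
  have h5 := Int.lt_floor_add_one (α / r)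
  have h6 : (α + (2 * W + 1)) / r ≤ α / r + 3 := by
    rw [add_div]
    have h7 : (2 * W + 1) / r ≤ 3 := by
      rw [div_le_iff₀ hr0]; linarith
    linarith
  linarith

theorem fr (b : ℝ) : (⌊b⌋ : ℝ) = b - Int.fract b := by
  rw [Int.fract]
  ring

/-- the position over one class -/
theorem pos {W x₁ x₂ x : ℝ} (h12 : |x₁ - x₂| ≤ 1) (h1 : |x - x₁| ≤ 1)
    (hx : 1 ≤ W * |x - x₂|) (hW : 1 ≤ W) (p : ℝ × ℝ) :
    (x₁ - x₂) / (x - x₂) * (⌊bb x p⌋ : ℝ) + min ((x₁ - x₂) / (x - x₂)) 0 - 1 +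
        min (cc x₁ x₂ x) 0 ≤ (⌊bb x₁ p⌋ : ℝ) - cc x₁ x₂ x * (⌊bb x₂ p⌋ : ℝ) ∧
      (⌊bb x₁ p⌋ : ℝ) - cc x₁ x₂ x * (⌊bb x₂ p⌋ : ℝ) ≤
        (x₁ - x₂) / (x - x₂) * (⌊bb x p⌋ : ℝ) + min ((x₁ - x₂) / (x - x₂)) 0 - 1 +
          min (cc x₁ x₂ x) 0 + (2 * W + 1) := by
  have hpos : 0 < |x - x₂| := by
    by_contra h0
    have h0' : |x - x₂| = 0 := le_antisymm (not_lt.1 h0) (abs_nonneg _)
    rw [h0', mul_zero] at hx
    linarith
  have hne : x - x₂ ≠ 0 := abs_pos.1 hpos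
  have hid := ident (x₁ := x₁) hne p
  have hinv : 1 / |x - x₂| ≤ W := by
    rw [div_le_iff₀ hpos]
    exact hx
  have hlam : |(x₁ - x₂) / (x - x₂)| ≤ W := by
    rw [abs_div]
    calc |x₁ - x₂| / |x - x₂| ≤ 1 / |x - x₂| := div_le_div_of_nonneg_right h12 hpos.le
      _ ≤ W := hinv
  have hc : |cc x₁ x₂ x| ≤ W := by
    unfold cc
    rw [abs_div]
    calc |x - x₁| / |x - x₂| ≤ 1 / |x - x₂| := div_le_div_of_nonneg_right h1 hpos.le
      _ ≤ W := hinv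
  rw [abs_le] at hlam hc
  set lam := (x₁ - x₂) / (x - x₂)
  set c := cc x₁ x₂ x
  rw [fr (bb x₁ p), fr (bb x₂ p), fr (bb x p)]
  have f0 := Int.fract_nonneg (bb x p)
  have f1 := (Int.fract_lt_one (bb x p)).le
  have g0 := Int.fract_nonneg (bb x₁ p)
  have g1 := (Int.fract_lt_one (bb x₁ p)).le
  have k0 := Int.fract_nonneg (bb x₂ p)
  have k1 := (Int.fract_lt_one (bb x₂ p)).le
  generalize Int.fract (bb x p) = f at *
  generalize Int.fract (bb x₁ p) = g at *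
  generalize Int.fract (bb x₂ p) = k at *
  have e1 : bb x₁ p - g - c * (bb x₂ p - k) = lam * (bb x p - f) + lam * f - g + c * k := by
    linear_combination hid
  have l1 : min lam 0 ≤ lam * f := by
    rcases le_total 0 lam with h | h
    · rw [min_eq_right h]
      positivity
    · rw [min_eq_left h]
      nlinarith
  have l2 : lam * f ≤ min lam 0 + W := by
    rcases le_total 0 lam with h | h
    · rw [min_eq_right h]
      nlinarith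
    · rw [min_eq_left h]
      nlinarith
  have c1 : min c 0 ≤ c * k := by
    rcases le_total 0 c with h | h
    · rw [min_eq_right h]
      positivity
    · rw [min_eq_left h]
      nlinarith
  have c2 : c * k ≤ min c 0 + W := by
    rcases le_total 0 c with h | h
    · rw [min_eq_right h]
      nlinarith
    · rw [min_eq_left h]
      nlinarith
  rw [e1]
  constructor <;> linarith

end XCLSU

open XCLSU in
/-- **CLSU** -/
theorem I_CLSU : StClsU := by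
  classical
  intro W r x₁ x₂ x G hW hr h12 h1 hx
  have hr0 : 0 < r := by linarith
  let al : ℤ → ℝ := fun m => (x₁ - x₂) / (x - x₂) * (m : ℝ) + min ((x₁ - x₂) / (x - x₂)) 0 - 1 +
    min (cc x₁ x₂ x) 0
  have hsub : ((G.image fun p => (⌊bb x₁ p⌋, ⌊bb x₂ p⌋)).image fun z : ℤ × ℤ =>
      ⌊((z.1 : ℝ) - cc x₁ x₂ x * (z.2 : ℝ)) / r⌋) ⊆
      (cl (bb x) G).biUnion fun m => Finset.Icc ⌊al m / r⌋ ⌊(al m + (2 * W + 1)) / r⌋ := by
    intro v hv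
    rw [Finset.mem_image] at hv
    obtain ⟨z, hz, rfl⟩ := hv
    rw [Finset.mem_image] at hz
    obtain ⟨p, hp, rfl⟩ := hz
    rw [Finset.mem_biUnion]
    refine ⟨⌊bb x p⌋, Finset.mem_image_of_mem _ hp, ?_⟩
    obtain ⟨h3, h4⟩ := pos h12 h1 hx hW p
    rw [Finset.mem_Icc]
    exact ⟨Int.floor_le_floor (div_le_div_of_nonneg_right h3 hr0.le),
      Int.floor_le_floor (div_le_div_of_nonneg_right h4 hr0.le)⟩
  have h5 := (Finset.card_le_card hsub).trans Finset.card_biUnion_le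
  have h6 : ((((G.image fun p => (⌊bb x₁ p⌋, ⌊bb x₂ p⌋)).image fun z : ℤ × ℤ =>
      ⌊((z.1 : ℝ) - cc x₁ x₂ x * (z.2 : ℝ)) / r⌋).card : ℕ) : ℝ) ≤
      ∑ m ∈ cl (bb x) G, ((Finset.Icc ⌊al m / r⌋ ⌊(al m + (2 * W + 1)) / r⌋).card : ℝ) := by
    exact_mod_cast h5
  refine h6.trans ?_
  calc ∑ m ∈ cl (bb x) G, ((Finset.Icc ⌊al m / r⌋ ⌊(al m + (2 * W + 1)) / r⌋).card : ℝ)
      ≤ ∑ _m ∈ cl (bb x) G, 5 := Finset.sum_le_sum fun m _ => card_Icc hW hr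
    _ = 5 * ((cl (bb x) G).card : ℝ) := by
        rw [Finset.sum_const, nsmul_eq_mul, mul_comm]

end Pool.Agent.Work.MP_e17eac_co.RINGU

end

section

/-!
# Uniform ring module, item EDGEU: the cells of one slope give many pairs of classes
-/

namespace Pool.Agent.Work.MP_e17eac_co.RINGU

open Finset
open scoped Pointwise
open Pool.Agent.Work.MP_e17eac_co.RING

namespace XEDGEU

lemma fib (K W x₁ x₂ : ℝ) (a : ℝ) (T G : Finset (ℝ × ℝ)) (hK : 1 ≤ K)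
    (hW : 1 ≤ W) (h0 : 0 ≤ x₁) (h1 : x₁ ≤ 1) (hx : 1 ≤ W * |x₁ - x₂|) (hG : G ⊆ T)
    (hT : RegT a K T) (y : ℤ × ℤ) :
    ((G.filter fun p => (⌊bb x₁ p⌋, ⌊bb x₂ p⌋) = y).card : ℝ) ≤ K * (3 * W) ^ (2 * a) := by
  classical
  set F := G.filter fun p => (⌊bb x₁ p⌋, ⌊bb x₂ p⌋) = y with hF
  rcases F.eq_empty_or_nonempty with he | ⟨p0, hp0⟩
  · rw [he]
    simp only [card_empty, Nat.cast_zero]
    positivity
  · have hsub : F ⊆ T.filter fun p => |p.1 - p0.1| ≤ 3 * W ∧ |p.2 - p0.2| ≤ 3 * W := by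
      intro p hp
      rw [hF, mem_filter] at hp hp0
      rw [mem_filter]
      refine ⟨hG hp.1, ?_⟩
      have e1 : ⌊bb x₁ p⌋ = ⌊bb x₁ p0⌋ := by
        have := hp.2.trans hp0.2.symm
        exact (Prod.mk.inj this).1
      have e2 : ⌊bb x₂ p⌋ = ⌊bb x₂ p0⌋ := by
        have := hp.2.trans hp0.2.symm
        exact (Prod.mk.inj this).2
      have d1 := Int.abs_sub_lt_one_of_floor_eq_floor e1
      have d2 := Int.abs_sub_lt_one_of_floor_eq_floor e2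
      have k1 : (x₂ - x₁) * (p.1 - p0.1) =
          (bb x₁ p - bb x₁ p0) - (bb x₂ p - bb x₂ p0) := by
        unfold bb; ring
      have k2 : |x₁ - x₂| * |p.1 - p0.1| < 2 := by
        rw [abs_sub_comm x₁ x₂, ← abs_mul, k1]
        rw [abs_lt] at d1 d2 ⊢
        constructor <;> linarith [d1.1, d1.2, d2.1, d2.2]
      have k3 : |p.1 - p0.1| ≤ 2 * W := by
        have hn : 0 ≤ |p.1 - p0.1| := abs_nonneg _
        have : |p.1 - p0.1| * 1 ≤ |p.1 - p0.1| * (W * |x₁ - x₂|) :=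
          mul_le_mul_of_nonneg_left hx hn
        have h3 : W * (|x₁ - x₂| * |p.1 - p0.1|) ≤ W * 2 :=
          mul_le_mul_of_nonneg_left k2.le (by linarith)
        nlinarith
      have k4 : p.2 - p0.2 = (bb x₁ p - bb x₁ p0) + x₁ * (p.1 - p0.1) := by
        unfold bb; ring
      have k5 : |x₁ * (p.1 - p0.1)| ≤ 2 * W := by
        rw [abs_mul, abs_of_nonneg h0]
        have hn : 0 ≤ |p.1 - p0.1| := abs_nonneg _
        nlinarith
      constructor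
      · linarith
      · rw [k4]
        calc |bb x₁ p - bb x₁ p0 + x₁ * (p.1 - p0.1)|
            ≤ |bb x₁ p - bb x₁ p0| + |x₁ * (p.1 - p0.1)| := abs_add_le _ _
          _ ≤ 1 + 2 * W := by linarith
          _ ≤ 3 * W := by linarith
    have h3 : (1 : ℝ) ≤ 3 * W := by linarith
    calc (F.card : ℝ)
        ≤ ((T.filter fun p => |p.1 - p0.1| ≤ 3 * W ∧ |p.2 - p0.2| ≤ 3 * W).card : ℝ) := by
          exact_mod_cast card_le_card hsub
      _ ≤ K * (3 * W) ^ (2 * a) := hT p0 (3 * W) h3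

end XEDGEU

theorem I_EDGEU : StEdgeU := by
  classical
  intro a K W x₁ x₂ T G _ hK hW h0 h1 hx hG hT
  have hs := Finset.card_eq_sum_card_image (fun p : ℝ × ℝ => (⌊bb x₁ p⌋, ⌊bb x₂ p⌋)) G
  rw [hs]
  push_cast
  calc ∑ y ∈ G.image (fun p : ℝ × ℝ => (⌊bb x₁ p⌋, ⌊bb x₂ p⌋)),
        ((G.filter fun p => (⌊bb x₁ p⌋, ⌊bb x₂ p⌋) = y).card : ℝ)
      ≤ ∑ _y ∈ G.image (fun p : ℝ × ℝ => (⌊bb x₁ p⌋, ⌊bb x₂ p⌋)), K * (3 * W) ^ (2 * a) :=
        Finset.sum_le_sum fun y _ =>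
          XEDGEU.fib K W x₁ x₂ a T G hK hW h0 h1 hx hG hT y
    _ = K * (3 * W) ^ (2 * a) * ((G.image fun p => (⌊bb x₁ p⌋, ⌊bb x₂ p⌋)).card : ℝ) := by
        rw [Finset.sum_const, nsmul_eq_mul]; ring

end Pool.Agent.Work.MP_e17eac_co.RINGU

end

section

/-!
# Ring module, uniform version, item PNU: few quadruples with two near members
-/

set_option autoImplicit false

namespace Pool.Agent.Work.MP_e17eac_co.RINGU

open Finset
open scoped Pointwise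
open Pool.Agent.Work.MP_e17eac_co.RING

namespace XPNU

theorem nat_bound {n : ℕ} {x : ℝ} (h : (n : ℝ) ≤ x) : n ≤ ⌊x⌋₊ := Nat.le_floor h

theorem card_quad (D : Finset ℝ) (t δ s X Y Z : ℝ) (hX : 0 ≤ X) (hY : 0 ≤ Y) (hZ : 0 ≤ Z)
    (h1 : (D.card : ℝ) ≤ X)
    (h2 : ∀ c : ℝ, ((D.filter fun c' => |c' - c| ≤ s).card : ℝ) ≤ Y)
    (h3 : ∀ c : ℝ, ((D.filter fun c' => |c' - c| ≤ δ).card : ℝ) ≤ Z) :
    (((quad D t δ).filter fun z => |z.2.1 - z.2.2| < s).card : ℝ) ≤ X * (Y * (X * Z)) := by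
  classical
  let F : Finset ((ℝ × ℝ) × (ℝ × ℝ)) := D.biUnion fun z3 =>
    (D.filter fun c' => |c' - z3| ≤ s).biUnion fun z4 => D.biUnion fun z2 =>
      (D.filter fun c' => |c' - (z2 - t * (z3 - z4))| ≤ δ).image fun z1 => ((z1, z2), (z3, z4))
  have hsub : ((quad D t δ).filter fun z => |z.2.1 - z.2.2| < s) ⊆ F := by
    rintro ⟨⟨z1, z2⟩, ⟨z3, z4⟩⟩ hz
    simp only [quad, mem_filter, mem_product] at hz
    obtain ⟨⟨⟨⟨m1, m2⟩, ⟨m3, m4⟩⟩, hd⟩, hs⟩ := hz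
    simp only [F, mem_biUnion, mem_filter, mem_image]
    refine ⟨z3, m3, z4, ⟨m4, ?_⟩, z2, m2, z1, ⟨m1, ?_⟩, rfl⟩
    · rw [abs_sub_comm]
      exact hs.le
    · have : z1 - (z2 - t * (z3 - z4)) = z1 - z2 + t * (z3 - z4) := by ring
      rw [this]
      exact hd
  have hF : F.card ≤ D.card * (⌊Y⌋₊ * (D.card * ⌊Z⌋₊)) := by
    refine card_biUnion_le_card_mul _ _ _ fun z3 _ => ?_
    refine le_trans (card_biUnion_le_card_mul _ _ (D.card * ⌊Z⌋₊) fun z4 _ => ?_)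
      (Nat.mul_le_mul_right _ (nat_bound (h2 z3)))
    refine card_biUnion_le_card_mul _ _ _ fun z2 _ => ?_
    exact card_image_le.trans (nat_bound (h3 _))
  have hY' : ((⌊Y⌋₊ : ℕ) : ℝ) ≤ Y := Nat.floor_le hY
  have hZ' : ((⌊Z⌋₊ : ℕ) : ℝ) ≤ Z := Nat.floor_le hZ
  have h4 : (((quad D t δ).filter fun z => |z.2.1 - z.2.2| < s).card : ℝ) ≤
      (D.card : ℝ) * ((⌊Y⌋₊ : ℝ) * ((D.card : ℝ) * (⌊Z⌋₊ : ℝ))) := by
    exact_mod_cast (card_le_card hsub).trans hF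
  refine h4.trans ?_
  gcongr

end XPNU

theorem I_PNU : StPNU := by
  intro a R L W s t δ D ha ha1 hL hW hWL hR hs hδ hD hreg
  have hR0 : 0 < R := by linarith
  have hL0 : 0 < L := by linarith
  have hW0 : 0 < W := by linarith
  have hs0 : 0 ≤ R * s := by linarith
  have hδ0 : 0 ≤ R * δ := by linarith
  have hcard : (D.card : ℝ) ≤ L ^ 2 * R ^ a := by
    have h1 := hreg 0 W (by nlinarith)
    have h2 : D.filter (fun c' => |c' - 0| ≤ W) = D := by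
      refine filter_true_of_mem fun c hc => ?_
      rw [sub_zero]
      exact hD c hc
    rw [h2, Real.mul_rpow hR0.le hW0.le] at h1
    have h4 : 0 ≤ R ^ a := Real.rpow_nonneg hR0.le a
    calc (D.card : ℝ) ≤ L * (R ^ a * W ^ a) := h1
      _ ≤ L * (R ^ a * L) := by gcongr
      _ = L ^ 2 * R ^ a := by ring
  have h5 : 0 ≤ R ^ a := Real.rpow_nonneg hR0.le a
  have h6 : 0 ≤ (R * s) ^ a := Real.rpow_nonneg hs0 a
  have h7 : 0 ≤ (R * δ) ^ a := Real.rpow_nonneg hδ0 a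
  refine (XPNU.card_quad D t δ s (L ^ 2 * R ^ a) (L * (R * s) ^ a) (L * (R * δ) ^ a)
    (by positivity) (by positivity) (by positivity) hcard (fun c => hreg c s hs)
    (fun c => hreg c δ hδ)).trans (le_of_eq ?_)
  have h8 : R ^ (2 * a) = R ^ a * R ^ a := by
    rw [← Real.rpow_add hR0]
    congr 1
    ring
  rw [h8]
  ring

end Pool.Agent.Work.MP_e17eac_co.RINGU

end

section

/-!
# Ring module, uniform version, item PRUNE: removal of the crowded classes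
-/

namespace Pool.Agent.Work.MP_e17eac_co.RINGU

open Finset
open scoped Pointwise
open Pool.Agent.Work.MP_e17eac_co.RING

namespace XPRUNE

/-- The classes near `u`. -/
noncomputable def nb (ρ : ℝ) (P : Finset ℤ) (u : ℤ) : Finset ℤ :=
  P.filter fun v : ℤ => |(v : ℝ) - (u : ℝ)| ≤ 2 * ρ

theorem exists_netZ (D : Finset ℤ) (δ : ℝ) (hδ : 0 ≤ δ) :
    ∃ Z ⊆ D, (∀ z ∈ Z, ∀ z' ∈ Z, z ≠ z' → δ < |(z : ℝ) - (z' : ℝ)|) ∧
      ∀ c ∈ D, ∃ z ∈ Z, |(c : ℝ) - (z : ℝ)| ≤ δ := by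
  classical
  set F := D.powerset.filter fun Z : Finset ℤ => ∀ z ∈ Z, ∀ z' ∈ Z, z ≠ z' → δ < |(z : ℝ) - (z' : ℝ)| with hF
  have h0 : (∅ : Finset ℤ) ∈ F := by
    rw [hF, mem_filter]
    exact ⟨mem_powerset.2 (empty_subset _), fun z hz => absurd hz (notMem_empty z)⟩
  obtain ⟨Z, hZ, hmax⟩ := Finset.exists_max_image F Finset.card ⟨_, h0⟩
  obtain ⟨hZD, hsep⟩ := mem_filter.1 hZ
  refine ⟨Z, mem_powerset.1 hZD, hsep, fun c hc => ?_⟩
  by_contra hcon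
  push Not at hcon
  have hcZ : c ∉ Z := by
    intro h
    have := hcon c h
    rw [sub_self, abs_zero] at this
    linarith
  have hin : insert c Z ∈ F := by
    rw [hF, mem_filter, mem_powerset]
    refine ⟨insert_subset hc (mem_powerset.1 hZD), ?_⟩
    intro z hz z' hz' hne
    rcases mem_insert.1 hz with rfl | hz1
    · rcases mem_insert.1 hz' with rfl | hz1'
      · exact absurd rfl hne
      · exact hcon z' hz1'
    · rcases mem_insert.1 hz' with rfl | hz1'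
      · rw [abs_sub_comm]
        exact hcon z hz1
      · exact hsep z hz1 z' hz1' hne
  have := hmax _ hin
  rw [card_insert_of_notMem hcZ] at this
  omega

theorem spa (f : ℝ × ℝ → ℝ) (T T' : Finset (ℝ × ℝ)) (Λ ρ : ℝ) (hΛ : 0 < Λ) (hT : T' ⊆ T)
    (h : ∀ p ∈ T', ¬ Λ < ((nb ρ (cl f T) ⌊f p⌋).card : ℝ)) : Spa Λ ρ (cl f T') := by
  classical
  intro y
  rcases ((cl f T').filter fun u : ℤ => |(u : ℝ) - y| ≤ ρ).eq_empty_or_nonempty with he | ⟨u0, hu0⟩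
  · rw [he, card_empty, Nat.cast_zero]
    exact hΛ.le
  · rw [mem_filter] at hu0
    obtain ⟨p, hp, hpu⟩ := mem_image.1 hu0.1
    have h1 := not_lt.1 (h p hp)
    refine le_trans ?_ h1
    have hsub : ((cl f T').filter fun u : ℤ => |(u : ℝ) - y| ≤ ρ) ⊆ nb ρ (cl f T) ⌊f p⌋ := by
      intro u hu
      rw [mem_filter] at hu
      unfold nb
      rw [mem_filter]
      refine ⟨image_subset_image hT hu.1, ?_⟩
      rw [hpu]
      have e : (u : ℝ) - (u0 : ℝ) = ((u : ℝ) - y) + (y - (u0 : ℝ)) := by ring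
      rw [e]
      refine (abs_add_le _ _).trans ?_
      have := hu0.2
      rw [abs_sub_comm] at this
      linarith [hu.2]
    exact_mod_cast card_le_card hsub

theorem crowd (f g : ℝ × ℝ → ℝ) (T : Finset (ℝ × ℝ)) (Λ ρ κ B : ℝ) (hρ : 1 ≤ ρ) (hΛ : 0 < Λ)
    (hB : 0 ≤ B) (hκ : 0 ≤ κ) (hf : ((cl f T).card : ℝ) ≤ κ) (hg : ((cl g T).card : ℝ) ≤ κ)
    (hbox : ∀ p ∈ T, ((T.filter fun p' => |f p' - f p| ≤ 8 * ρ + 1 ∧ |g p' - g p| < 1).card : ℝ)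
      ≤ B) :
    Λ * ((T.filter fun p => Λ < ((nb ρ (cl f T) ⌊f p⌋).card : ℝ)).card : ℝ) ≤ κ * κ * B := by
  classical
  set P := cl f T with hP
  set B1 := P.filter fun u => Λ < ((nb ρ P u).card : ℝ) with hB1
  obtain ⟨M, hM, hsep, hcov⟩ := exists_netZ B1 (4 * ρ) (by linarith)
  -- the separated crowded classes
  have hMc : Λ * (M.card : ℝ) ≤ κ := by
    have hdis : (M : Set ℤ).PairwiseDisjoint fun u => nb ρ P u := by
      intro u hu u' hu' hne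
      rw [Function.onFun, Finset.disjoint_left]
      intro v hv hv'
      unfold nb at hv hv'
      rw [mem_filter] at hv hv'
      have h1 := hsep u hu u' hu' hne
      have e : (u : ℝ) - (u' : ℝ) = -((v : ℝ) - (u : ℝ)) + ((v : ℝ) - (u' : ℝ)) := by ring
      have h2 : |(u : ℝ) - (u' : ℝ)| ≤ 4 * ρ := by
        rw [e]
        refine (abs_add_le _ _).trans ?_
        rw [abs_neg]
        linarith [hv.2, hv'.2]
      linarith
    have h1 : ((M.biUnion fun u => nb ρ P u).card : ℝ) = ∑ u ∈ M, ((nb ρ P u).card : ℝ) := by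
      rw [card_biUnion hdis]
      push_cast
      rfl
    have h2 : ((M.biUnion fun u => nb ρ P u).card : ℝ) ≤ (P.card : ℝ) := by
      have : (M.biUnion fun u => nb ρ P u) ⊆ P := by
        intro v hv
        obtain ⟨u, _, hvu⟩ := mem_biUnion.1 hv
        exact (mem_filter.1 hvu).1
      exact_mod_cast card_le_card this
    have h3 : Λ * (M.card : ℝ) ≤ ∑ u ∈ M, ((nb ρ P u).card : ℝ) := by
      calc Λ * (M.card : ℝ) = ∑ _u ∈ M, Λ := by rw [sum_const, nsmul_eq_mul, mul_comm]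
        _ ≤ _ := sum_le_sum fun u hu => (mem_filter.1 (hM hu)).2.le
    linarith
  -- the covering
  set S : ℤ × ℤ → Finset (ℝ × ℝ) := fun w =>
    T.filter fun p => |((⌊f p⌋ : ℤ) : ℝ) - (w.1 : ℝ)| ≤ 4 * ρ ∧ ⌊g p⌋ = w.2 with hS
  have hScard : ∀ w, ((S w).card : ℝ) ≤ B := by
    intro w
    rcases (S w).eq_empty_or_nonempty with he | ⟨p0, hp0⟩
    · rw [he, card_empty, Nat.cast_zero]
      exact hB
    · have hp0' := mem_filter.1 hp0
      refine le_trans ?_ (hbox p0 hp0'.1)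
      have hsub : S w ⊆ T.filter fun p' => |f p' - f p0| ≤ 8 * ρ + 1 ∧ |g p' - g p0| < 1 := by
        intro p hp
        have hp' := mem_filter.1 hp
        rw [mem_filter]
        refine ⟨hp'.1, ?_, ?_⟩
        · have a1 := abs_le.1 hp'.2.1
          have a2 := abs_le.1 hp0'.2.1
          have b1 := Int.floor_le (f p)
          have b2 := Int.lt_floor_add_one (f p)
          have b3 := Int.floor_le (f p0)
          have b4 := Int.lt_floor_add_one (f p0)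
          rw [abs_le]
          constructor <;> linarith [a1.1, a1.2, a2.1, a2.2]
        · exact Int.abs_sub_lt_one_of_floor_eq_floor (hp'.2.2.trans hp0'.2.2.symm)
      exact_mod_cast card_le_card hsub
  have hTsub : (T.filter fun p => Λ < ((nb ρ P ⌊f p⌋).card : ℝ)) ⊆
      (M ×ˢ cl g T).biUnion S := by
    intro p hp
    have hp' := mem_filter.1 hp
    have hfp : ⌊f p⌋ ∈ B1 := by
      rw [hB1, mem_filter]
      exact ⟨mem_image_of_mem _ hp'.1, hp'.2⟩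
    obtain ⟨z, hz, hzz⟩ := hcov _ hfp
    rw [mem_biUnion]
    refine ⟨(z, ⌊g p⌋), ?_, ?_⟩
    · rw [mem_product]
      exact ⟨hz, mem_image_of_mem (fun i => ⌊g i⌋) hp'.1⟩
    · rw [hS]
      rw [mem_filter]
      exact ⟨hp'.1, hzz, rfl⟩
  have hcount : ((T.filter fun p => Λ < ((nb ρ P ⌊f p⌋).card : ℝ)).card : ℝ) ≤
      (M.card : ℝ) * κ * B := by
    calc ((T.filter fun p => Λ < ((nb ρ P ⌊f p⌋).card : ℝ)).card : ℝ)
        ≤ (((M ×ˢ cl g T).biUnion S).card : ℝ) := by exact_mod_cast card_le_card hTsub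
      _ ≤ ∑ w ∈ M ×ˢ cl g T, ((S w).card : ℝ) := by exact_mod_cast card_biUnion_le
      _ ≤ ∑ _w ∈ M ×ˢ cl g T, B := sum_le_sum fun w _ => hScard w
      _ = (M.card : ℝ) * ((cl g T).card : ℝ) * B := by
          rw [sum_const, nsmul_eq_mul, card_product]
          push_cast
          ring
      _ ≤ (M.card : ℝ) * κ * B := by
          refine mul_le_mul_of_nonneg_right ?_ hB
          exact mul_le_mul_of_nonneg_left hg (Nat.cast_nonneg _)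
  calc Λ * ((T.filter fun p => Λ < ((nb ρ P ⌊f p⌋).card : ℝ)).card : ℝ)
      ≤ Λ * ((M.card : ℝ) * κ * B) := mul_le_mul_of_nonneg_left hcount hΛ.le
    _ = (Λ * (M.card : ℝ)) * (κ * B) := by ring
    _ ≤ κ * (κ * B) := mul_le_mul_of_nonneg_right hMc (mul_nonneg hκ hB)
    _ = κ * κ * B := by ring

theorem box (K W x₁ x₂ a ρ : ℝ) (T : Finset (ℝ × ℝ)) (hW : 1 ≤ W) (hρ : 1 ≤ ρ)
    (h0 : 0 ≤ x₁) (h1 : x₁ ≤ 1) (hx : 1 ≤ W * |x₁ - x₂|) (hT : RegT a K T) (p : ℝ × ℝ)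
    (Q : ℝ × ℝ → Prop) [DecidablePred Q]
    (hQ : ∀ p', Q p' → |bb x₁ p' - bb x₁ p| ≤ 8 * ρ + 1 ∧ |bb x₂ p' - bb x₂ p| ≤ 8 * ρ + 1 ∧
      |(bb x₁ p' - bb x₁ p) - (bb x₂ p' - bb x₂ p)| ≤ 8 * ρ + 2) :
    ((T.filter Q).card : ℝ) ≤ K * (20 * ρ * W) ^ (2 * a) := by
  classical
  have hρW : ρ ≤ ρ * W := by nlinarith
  have h3 : (1 : ℝ) ≤ 20 * ρ * W := by nlinarith
  refine le_trans ?_ (hT p (20 * ρ * W) h3)
  have hsub : T.filter Q ⊆
      T.filter fun p' => |p'.1 - p.1| ≤ 20 * ρ * W ∧ |p'.2 - p.2| ≤ 20 * ρ * W := by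
    intro p' hp'
    rw [mem_filter] at hp' ⊢
    obtain ⟨d1, d2, d3⟩ := hQ p' hp'.2
    refine ⟨hp'.1, ?_⟩
    have k1 : (x₂ - x₁) * (p'.1 - p.1) =
        (bb x₁ p' - bb x₁ p) - (bb x₂ p' - bb x₂ p) := by
      unfold bb; ring
    have k2 : |x₁ - x₂| * |p'.1 - p.1| ≤ 10 * ρ := by
      rw [abs_sub_comm x₁ x₂, ← abs_mul, k1]
      linarith
    have k3 : |p'.1 - p.1| ≤ 10 * ρ * W := by
      have hn : 0 ≤ |p'.1 - p.1| := abs_nonneg _
      have h2 : |p'.1 - p.1| * 1 ≤ |p'.1 - p.1| * (W * |x₁ - x₂|) :=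
        mul_le_mul_of_nonneg_left hx hn
      have h3 : W * (|x₁ - x₂| * |p'.1 - p.1|) ≤ W * (10 * ρ) :=
        mul_le_mul_of_nonneg_left k2 (by linarith)
      nlinarith
    have k4 : p'.2 - p.2 = (bb x₁ p' - bb x₁ p) + x₁ * (p'.1 - p.1) := by
      unfold bb; ring
    have k5 : |x₁ * (p'.1 - p.1)| ≤ 10 * ρ * W := by
      rw [abs_mul, abs_of_nonneg h0]
      have hn : 0 ≤ |p'.1 - p.1| := abs_nonneg _
      nlinarith
    constructor
    · nlinarith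
    · rw [k4]
      calc |bb x₁ p' - bb x₁ p + x₁ * (p'.1 - p.1)|
          ≤ |bb x₁ p' - bb x₁ p| + |x₁ * (p'.1 - p.1)| := abs_add_le _ _
        _ ≤ (8 * ρ + 1) + 10 * ρ * W := by linarith
        _ ≤ 20 * ρ * W := by nlinarith
  exact_mod_cast card_le_card hsub

end XPRUNE

theorem I_PRUNE : StPrune := by
  classical
  intro a K W ρ Λ k x₁ x₂ T _ _ hK hW hρ hΛ hk h0 h1 hx hT hc1 hc2
  have hK0 : 0 < K := by linarith
  have hB : 0 ≤ K * (20 * ρ * W) ^ (2 * a) := by positivity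
  have hκ : 0 ≤ K * k := by positivity
  have b1 := XPRUNE.crowd (bb x₁) (bb x₂) T Λ ρ (K * k) (K * (20 * ρ * W) ^ (2 * a)) hρ hΛ hB hκ
    hc1 hc2 (fun p _ => XPRUNE.box K W x₁ x₂ a ρ T hW hρ h0 h1 hx hT p _ (by
      rintro p' ⟨d1, d2⟩
      refine ⟨d1, by linarith, ?_⟩
      refine (abs_sub _ _).trans ?_
      linarith))
  have b2 := XPRUNE.crowd (bb x₂) (bb x₁) T Λ ρ (K * k) (K * (20 * ρ * W) ^ (2 * a)) hρ hΛ hB hκ
    hc2 hc1 (fun p _ => XPRUNE.box K W x₁ x₂ a ρ T hW hρ h0 h1 hx hT p _ (by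
      rintro p' ⟨d1, d2⟩
      refine ⟨by linarith, d1, ?_⟩
      refine (abs_sub _ _).trans ?_
      linarith))
  set T' := T.filter fun p => ¬ Λ < ((XPRUNE.nb ρ (cl (bb x₁) T) ⌊bb x₁ p⌋).card : ℝ) ∧
    ¬ Λ < ((XPRUNE.nb ρ (cl (bb x₂) T) ⌊bb x₂ p⌋).card : ℝ) with hT'
  refine ⟨T', filter_subset _ _, ?_, ?_, ?_⟩
  · exact XPRUNE.spa _ T T' Λ ρ hΛ (filter_subset _ _) fun p hp => (mem_filter.1 hp).2.1
  · exact XPRUNE.spa _ T T' Λ ρ hΛ (filter_subset _ _) fun p hp => (mem_filter.1 hp).2.2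
  · have hsub : T \ T' ⊆
        (T.filter fun p => Λ < ((XPRUNE.nb ρ (cl (bb x₁) T) ⌊bb x₁ p⌋).card : ℝ)) ∪
        (T.filter fun p => Λ < ((XPRUNE.nb ρ (cl (bb x₂) T) ⌊bb x₂ p⌋).card : ℝ)) := by
      intro p hp
      rw [mem_sdiff, hT', mem_filter] at hp
      rw [mem_union, mem_filter, mem_filter]
      by_contra hcon
      push Not at hcon
      exact hp.2 ⟨hp.1, not_lt.2 (hcon.1 hp.1), not_lt.2 (hcon.2 hp.1)⟩
    have hc : ((T \ T').card : ℝ) ≤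
        ((T.filter fun p => Λ < ((XPRUNE.nb ρ (cl (bb x₁) T) ⌊bb x₁ p⌋).card : ℝ)).card : ℝ) +
        ((T.filter fun p => Λ < ((XPRUNE.nb ρ (cl (bb x₂) T) ⌊bb x₂ p⌋).card : ℝ)).card : ℝ) := by
      exact_mod_cast (card_le_card hsub).trans (card_union_le _ _)
    calc Λ * ((T \ T').card : ℝ) ≤ _ := mul_le_mul_of_nonneg_left hc hΛ.le
      _ ≤ K * k * (K * k) * (K * (20 * ρ * W) ^ (2 * a)) +
          K * k * (K * k) * (K * (20 * ρ * W) ^ (2 * a)) := by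
          rw [mul_add]
          exact add_le_add b1 b2
      _ = 2 * K ^ 3 * k ^ 2 * (20 * ρ * W) ^ (2 * a) := by ring

end Pool.Agent.Work.MP_e17eac_co.RINGU

end

section

/-!
# Ring module, uniform version: choice of the parameters
-/

namespace Pool.Agent.Work.MP_e17eac_co.RINGU

open Finset
open Pool.Agent.Work.MP_e17eac_co.RING

theorem I_RINGU (hRLU : StRLU) (hUp : StUpU) (hPiv : StPivU) : RingU := by
  refine ⟨2 * 5000000000, ?_⟩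
  intro a R K ha ha2 hK hR hKR A T I hC
  have ha1 : a ≤ 1 := by linarith
  have hR0 : 0 < R := by linarith
  have hK1 : 1 ≤ K := by linarith
  have hK0 : 0 < K := by linarith
  have hp : ∀ {m n : ℕ}, m ≤ n → K ^ m ≤ K ^ n := fun hmn => pow_le_pow_right₀ hK1 hmn
  have h1a : 1 ≤ 1 / a := by rw [le_div_iff₀ ha]; linarith
  obtain ⟨L, hL⟩ : ∃ L, L = K ^ 60000000 := ⟨_, rfl⟩
  obtain ⟨W, hW⟩ : ∃ W, W = L ^ (1 / a) := ⟨_, rfl⟩
  obtain ⟨r, D, A₀, q, β, Y, hr, hrW, hD⟩ := hRLU a R K L W A T I ha ha1 hK hR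
    ((hp (by norm_num)).trans hKR) hL hW hC
  have hL100 : 100 ≤ L := by
    calc (100 : ℝ) ≤ K := hK
      _ = K ^ 1 := (pow_one K).symm
      _ ≤ L := by rw [hL]; exact hp (by norm_num)
  have hL0 : 0 < L := by linarith
  have hL1 : 1 ≤ L := by linarith
  have hWa : W ^ a = L := by
    rw [hW, ← Real.rpow_mul hL0.le, one_div, inv_mul_cancel₀ ha.ne', Real.rpow_one]
  have hLW : L ≤ W := by
    rw [hW]
    calc L = L ^ (1 : ℝ) := (Real.rpow_one L).symm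
      _ ≤ L ^ (1 / a) := Real.rpow_le_rpow_of_exponent_le hL1 h1a
  have hW1 : 1 ≤ W := hL1.trans hLW
  have hW0 : 0 < W := by linarith
  have hWs : (0 : ℝ) < W ^ 23 := by positivity
  refine hPiv a R L W ((W ^ 23)⁻¹) D ha ha1 hL100 hLW hWa.le hR (by positivity)
    (inv_le_one_of_one_le₀ (one_le_pow₀ hW1)) hD.card (fun c hc => (hD.bdD c hc).1) hD.reg
    (hUp a R L W r D A₀ q β Y ha ha1 hL100 hLW hWa.le hr hrW hR hD) ?_ ?_
  · have e : ((W ^ 23)⁻¹ : ℝ) ^ a = (L ^ 23)⁻¹ := by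
      rw [Real.inv_rpow hWs.le, ← Real.rpow_natCast W 23, ← Real.rpow_mul hW0.le, mul_comm,
        Real.rpow_mul hW0.le, hWa, Real.rpow_natCast]
    rw [e]
    calc 2 * L ^ 22 * (L ^ 23)⁻¹ = 2 / L := by field_simp
      _ ≤ 1 := by
        rw [div_le_one hL0]
        linarith
  · have key : W ^ 72 ≤ R ^ (1 - a) := by
      rw [← Real.rpow_le_rpow_iff (by positivity) (by positivity) ha]
      have e1 : (W ^ 72 : ℝ) ^ a = L ^ 72 := by
        rw [← Real.rpow_natCast W 72, ← Real.rpow_mul hW0.le, mul_comm,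
          Real.rpow_mul hW0.le, hWa, Real.rpow_natCast]
      have e2 : (R ^ (1 - a)) ^ a = (R ^ a) ^ (1 - a) := by
        rw [← Real.rpow_mul hR0.le, ← Real.rpow_mul hR0.le, mul_comm]
      rw [e1, e2]
      have e3 : (1 : ℝ) ≤ R ^ a := Real.one_le_rpow hR ha.le
      calc L ^ 72 = K ^ (60000000 * 72) := by rw [hL, ← pow_mul]
        _ ≤ K ^ 5000000000 := hp (by norm_num)
        _ = ((K ^ (2 * 5000000000)) ^ ((1 : ℝ) / 2)) := by
          rw [← Real.rpow_natCast K (2 * 5000000000), ← Real.rpow_mul hK0.le,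
            ← Real.rpow_natCast K 5000000000]
          congr 1
          norm_num
        _ ≤ (R ^ a) ^ ((1 : ℝ) / 2) := Real.rpow_le_rpow (by positivity) hKR (by norm_num)
        _ ≤ (R ^ a) ^ (1 - a) := Real.rpow_le_rpow_of_exponent_le e3 (by linarith)
    have e4 : ((W ^ 23)⁻¹ : ℝ) ^ 2 * W ^ 46 = 1 := by
      rw [inv_pow, ← pow_mul]
      exact inv_mul_cancel₀ (by positivity)
    calc W ^ 4 * L ^ 22 ≤ W ^ 4 * W ^ 22 := by gcongr
      _ = (((W ^ 23)⁻¹ : ℝ) ^ 2 * W ^ 46) * (W ^ 4 * W ^ 22) := by rw [e4, one_mul]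
      _ = ((W ^ 23)⁻¹ : ℝ) ^ 2 * W ^ 72 := by ring
      _ ≤ ((W ^ 23)⁻¹ : ℝ) ^ 2 * R ^ (1 - a) := by gcongr

end Pool.Agent.Work.MP_e17eac_co.RINGU

end

section

/-! Item SUMU of the ring module, uniform version: sums of nine dilates. -/

namespace Pool.Agent.Work.MP_e17eac_co.RINGU

open Finset
open scoped Pointwise
open Pool.Agent.Work.MP_e17eac_co.RING

namespace XSUMU

lemma sum_sub {ι : Type} [DecidableEq ι] (s : Finset ι) (D X : ι → Finset ℤ) (Z : Finset ℤ)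
    (h : ∀ i ∈ s, D i ⊆ X i + Z) : ∑ i ∈ s, D i ⊆ (∑ i ∈ s, X i) + s.card • Z := by
  induction s using Finset.induction_on with
  | empty => simp
  | insert a s ha ih =>
    rw [Finset.sum_insert ha, Finset.sum_insert ha, Finset.card_insert_of_notMem ha, succ_nsmul]
    have h1 := h a (Finset.mem_insert_self a s)
    have h2 := ih fun i hi => h i (Finset.mem_insert_of_mem hi)
    refine (Finset.add_subset_add h1 h2).trans ?_
    rw [show X a + Z + (∑ i ∈ s, X i + s.card • Z) = X a + ∑ i ∈ s, X i + (s.card • Z + Z) by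
      abel]

lemma card_sum_le {ι : Type} [DecidableEq ι] (s : Finset ι) (X : ι → Finset ℤ) :
    (∑ i ∈ s, X i).card ≤ ∏ i ∈ s, (X i).card := by
  induction s using Finset.induction_on with
  | empty => simp
  | insert a s ha ih =>
    rw [Finset.sum_insert ha, Finset.prod_insert ha]
    exact (Finset.card_add_le).trans (Nat.mul_le_mul_left _ ih)

lemma neg_dl (γ : ℝ) (U : Finset ℤ) : dl γ U ⊆ -(dl (-γ) U) + ({0, -1} : Finset ℤ) := by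
  intro m hm
  obtain ⟨u, hu, rfl⟩ := Finset.mem_image.1 hm
  rw [Finset.mem_add]
  have hmem : -(⌊-γ * (u : ℝ)⌋) ∈ -(dl (-γ) U) :=
    Finset.neg_mem_neg (Finset.mem_image.2 ⟨u, hu, rfl⟩)
  have f0 := Int.floor_le (-γ * (u : ℝ))
  have f1 := Int.lt_floor_add_one (-γ * (u : ℝ))
  set n := ⌊-γ * (u : ℝ)⌋ with hn
  have hlow : -n - 1 ≤ ⌊γ * (u : ℝ)⌋ := by
    apply Int.le_floor.2
    push_cast
    linarith
  have hup : ⌊γ * (u : ℝ)⌋ ≤ -n := by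
    have : ⌊γ * (u : ℝ)⌋ < -n + 1 := by
      apply Int.floor_lt.2
      push_cast
      linarith
    omega
  rcases (by omega : ⌊γ * (u : ℝ)⌋ = -n ∨ ⌊γ * (u : ℝ)⌋ = -n - 1) with h | h
  · exact ⟨-n, hmem, 0, by simp, by rw [h]; ring⟩
  · exact ⟨-n, hmem, -1, by simp, by rw [h]; ring⟩

lemma cover (L k : ℝ) (hL : 100 ≤ L) (C Y : Finset ℤ) (hY : Y.Nonempty)
    (hkY : k ≤ L * (Y.card : ℝ)) (hCY : ((C - Y).card : ℝ) ≤ L * k) :
    ∃ F : Finset ℤ, (F.card : ℝ) ≤ L ^ 2 ∧ C ⊆ F + (Y - Y) := by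
  have hY' : (-Y).Nonempty := hY.neg
  have hK : ((C + -Y).card : ℝ) ≤ (L ^ 2) * ((-Y).card : ℝ) := by
    rw [← sub_eq_add_neg, Finset.card_neg]
    calc ((C - Y).card : ℝ) ≤ L * k := hCY
      _ ≤ L * (L * (Y.card : ℝ)) := mul_le_mul_of_nonneg_left hkY (by linarith)
      _ = (L ^ 2) * (Y.card : ℝ) := by ring
  obtain ⟨F, -, hF, hsub⟩ := Finset.ruzsa_covering_add hY' hK
  refine ⟨F, hF, ?_⟩
  have e : (-Y - -Y : Finset ℤ) = Y - Y := by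
    rw [sub_neg_eq_add, add_comm, sub_eq_add_neg]
  rwa [e] at hsub

end XSUMU

open XSUMU in
theorem I_SUMU : StSumU := by
  intro L k U Y γ hL hk hkY hYYk hγ
  have hL0 : (0 : ℝ) < L := by linarith
  have hk0 : (0 : ℝ) < k := by linarith
  have hYpos : (0 : ℝ) < (Y.card : ℝ) := by
    by_contra hcon
    have : (Y.card : ℝ) = 0 := le_antisymm (not_lt.1 hcon) (Nat.cast_nonneg _)
    rw [this] at hkY
    linarith
  have hY : Y.Nonempty := Finset.card_pos.1 (by exact_mod_cast hYpos)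
  have hYk : (Y.card : ℝ) ≤ L * k := by
    have : Y.card ≤ (Y - Y).card := by
      rw [sub_eq_add_neg]
      calc Y.card = (-Y).card := (Finset.card_neg _).symm
        _ ≤ (Y + -Y).card := Finset.card_le_card_add_left hY
    calc (Y.card : ℝ) ≤ ((Y - Y).card : ℝ) := by exact_mod_cast this
      _ ≤ L * k := hYYk
  have hYY : ((Y - Y).card : ℝ) ≤ L ^ 2 * (Y.card : ℝ) := by
    calc ((Y - Y).card : ℝ) ≤ L * k := hYYk
      _ ≤ L * (L * (Y.card : ℝ)) := mul_le_mul_of_nonneg_left hkY (by linarith)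
      _ = L ^ 2 * (Y.card : ℝ) := by ring
  -- covering
  have hcov : ∀ i, ∃ X : Finset ℤ, (X.card : ℝ) ≤ 2 * L ^ 2 ∧ dl (γ i) U ⊆ X + (Y - Y) := by
    intro i
    rcases hγ i with h | h
    · obtain ⟨F, hF, hs⟩ := cover L k hL (dl (γ i) U) Y hY hkY h
      refine ⟨F, hF.trans ?_, hs⟩
      have : (0 : ℝ) ≤ L ^ 2 := by positivity
      linarith
    · obtain ⟨F, hF, hs⟩ := cover L k hL (dl (-γ i) U) Y hY hkY h
      refine ⟨-F + ({0, -1} : Finset ℤ), ?_, ?_⟩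
      · have h1 : (-F + ({0, -1} : Finset ℤ)).card ≤ F.card * 2 := by
          refine (Finset.card_add_le).trans ?_
          rw [Finset.card_neg]
          exact Nat.mul_le_mul_left _ Finset.card_le_two
        have h2 : ((-F + ({0, -1} : Finset ℤ)).card : ℝ) ≤ (F.card : ℝ) * 2 := by
          exact_mod_cast h1
        linarith
      · refine (neg_dl (γ i) U).trans ?_
        have h3 : -(dl (-γ i) U) ⊆ -F + (Y - Y) := by
          have h4 : -(dl (-γ i) U) ⊆ -(F + (Y - Y)) := Finset.neg_subset_neg hs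
          rwa [neg_add, neg_sub] at h4
        refine (Finset.add_subset_add_right h3).trans ?_
        rw [show -F + (Y - Y) + ({0, -1} : Finset ℤ) = -F + ({0, -1} : Finset ℤ) + (Y - Y) by
          rw [add_right_comm]]
  choose X hX1 hX2 using hcov
  have hsub := sum_sub (Finset.univ : Finset (Fin 9)) (fun i => dl (γ i) U) X (Y - Y)
    (fun i _ => hX2 i)
  have hcard9 : (Finset.univ : Finset (Fin 9)).card = 9 := by simp
  rw [hcard9] at hsub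
  have hXs : ((∑ i, X i).card : ℝ) ≤ (2 * L ^ 2) ^ 9 := by
    have h1 := card_sum_le (Finset.univ : Finset (Fin 9)) X
    calc ((∑ i, X i).card : ℝ) ≤ ((∏ i, (X i).card : ℕ) : ℝ) := by exact_mod_cast h1
      _ = ∏ i, ((X i).card : ℝ) := by push_cast; rfl
      _ ≤ ∏ _i : Fin 9, (2 * L ^ 2) :=
          Finset.prod_le_prod (fun _ _ => Nat.cast_nonneg _) fun i _ => hX1 i
      _ = (2 * L ^ 2) ^ 9 := by rw [Finset.prod_const, hcard9]
  have hpl : (((9 : ℕ) • (Y - Y)).card : ℝ) ≤ (L ^ 2) ^ 18 * (L * k) := by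
    have e : (9 : ℕ) • (Y - Y) = (9 : ℕ) • Y - (9 : ℕ) • Y := nsmul_sub Y Y 9
    rw [e]
    have h := Finset.pluennecke_ruzsa_inequality_nsmul_sub_nsmul_sub hY Y 9 9
    have h' : ((((9 : ℕ) • Y - (9 : ℕ) • Y).card : ℚ) : ℝ) ≤
        ((((Y - Y).card : ℚ) / (Y.card : ℚ)) ^ 18 * (Y.card : ℚ) : ℚ) := by
      have h2 : ((((9 : ℕ) • Y - (9 : ℕ) • Y).card : ℚ)) ≤
          (((Y - Y).card : ℚ) / (Y.card : ℚ)) ^ 18 * (Y.card : ℚ) := by
        have := (NNRat.coe_le_coe.2 h)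
        push_cast at this
        exact this
      exact_mod_cast h2
    push_cast at h'
    refine h'.trans ?_
    have h3 : ((Y - Y).card : ℝ) / (Y.card : ℝ) ≤ L ^ 2 := by
      rw [div_le_iff₀ hYpos]; exact hYY
    exact mul_le_mul (pow_le_pow_left₀ (by positivity) h3 18) hYk (Nat.cast_nonneg _)
      (by positivity)
  have htot : ((∑ i, dl (γ i) U).card : ℝ) ≤ (2 * L ^ 2) ^ 9 * ((L ^ 2) ^ 18 * (L * k)) := by
    have h1 : (∑ i, dl (γ i) U).card ≤ (∑ i, X i).card * ((9 : ℕ) • (Y - Y)).card :=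
      (card_le_card hsub).trans Finset.card_add_le
    calc ((∑ i, dl (γ i) U).card : ℝ)
        ≤ ((∑ i, X i).card : ℝ) * (((9 : ℕ) • (Y - Y)).card : ℝ) := by exact_mod_cast h1
      _ ≤ _ := mul_le_mul hXs hpl (Nat.cast_nonneg _) (by positivity)
  refine htot.trans ?_
  have e1 : (2 * L ^ 2) ^ 9 * ((L ^ 2) ^ 18 * (L * k)) = (2 ^ 9 * L ^ 55) * k := by ring
  rw [e1]
  apply mul_le_mul_of_nonneg_right _ hk0.le
  have h5 : (2 : ℝ) ^ 9 ≤ L ^ 95 := by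
    calc (2 : ℝ) ^ 9 ≤ 100 ^ 95 := by norm_num
      _ ≤ L ^ 95 := pow_le_pow_left₀ (by norm_num) hL 95
  calc (2 : ℝ) ^ 9 * L ^ 55 ≤ L ^ 95 * L ^ 55 := mul_le_mul_of_nonneg_right h5 (by positivity)
    _ = L ^ 150 := by rw [← pow_add]

end Pool.Agent.Work.MP_e17eac_co.RINGU

end
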