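import Pool.Agent.Work.MP_e17eac_co.Bd.B06

/-! Bundle of small proof modules (one section per former module). -/

section

/-!
# Number of crossing pairs
-/

namespace Pool.Agent.Work.MP_e17eac_co.DH

open Finset

namespace XCCNT

theorem mem_cp {ι : Type} [Fintype ι] [DecidableEq ι] {K : KSys ι} {E : Finset ℕ} {z : ℕ × ℕ} :
    z ∈ crossPairs K E ↔ (z.1 ∈ E ∧ z.2 ∈ E) ∧ z.1 < z.2 ∧ K.Cross z.1 z.2 := by
  classical
  unfold crossPairs
  rw [mem_filter, mem_product]

end XCCNT

theorem I_CCNT (hCinj : StCinj) : StCcnt := by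
  intro ι _ _ K E hE
  rw [← card_product]
  refine card_le_card_of_injOn (fun z => (K.tokB z.1, K.tokT z.2)) ?_ ?_
  · intro z hz
    have hz' := XCCNT.mem_cp.1 (mem_coe.1 hz)
    exact mem_coe.2 (mem_product.2 ⟨mem_image_of_mem _ hz'.1.1, mem_image_of_mem _ hz'.1.2⟩)
  · intro z hz w hw hzw
    have hz' := XCCNT.mem_cp.1 (mem_coe.1 hz)
    have hw' := XCCNT.mem_cp.1 (mem_coe.1 hw)
    have h1 : K.tokB z.1 = K.tokB w.1 := (Prod.mk.inj hzw).1
    have h2 : K.tokT z.2 = K.tokT w.2 := (Prod.mk.inj hzw).2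
    obtain ⟨h3, h4⟩ := hCinj ι K z.1 z.2 w.1 w.2 hz'.2.1 (hE _ hz'.1.2) hw'.2.1 (hE _ hw'.1.2)
      hz'.2.2 hw'.2.2 h1 h2
    exact Prod.ext h3 h4

end Pool.Agent.Work.MP_e17eac_co.DH

end

section

/-!
# Item CINJ: a crossing pair is determined by two tokens
-/

namespace Pool.Agent.Work.MP_e17eac_co.DH

open Finset

namespace XCINJ

variable {ι : Type} [Fintype ι] [DecidableEq ι]

theorem ht_a (K : KSys ι) (n : ℕ) (s : ℝ) :
    K.ht (K.a n) s = K.h n + K.x (K.a n) * (s - K.t n) := by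
  unfold KSys.h KSys.ht
  ring

theorem ht_b (K : KSys ι) {n : ℕ} (hn : n < K.N) (s : ℝ) :
    K.ht (K.b n) s = K.h n + K.x (K.b n) * (s - K.t n) := by
  have := K.meet n hn
  unfold KSys.h KSys.ht
  linarith

theorem t_ne (K : KSys ι) {n k : ℕ} (hn : n < K.N) (hk : k < K.N) (h : k ≠ n) :
    K.t k < K.t n ∨ K.t n < K.t k := by
  rcases lt_or_gt_of_ne h with h | h
  · exact Or.inl (K.t_lt k n h hn)
  · exact Or.inr (K.t_lt n k h hk)

/-- a bottom token stays below the line of slope `X` through its edge -/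
theorem low (hTouch : StTouch) (K : KSys ι) {n k : ℕ} {X : ℝ} (hn : n < K.N) (hk : k < K.N)
    (hB : K.tokB n = K.tokB k) (h1 : K.x (K.b n) < X) (h2 : X < K.x (K.a n)) :
    K.h k ≤ K.h n + X * (K.t k - K.t n) ∧ (k ≠ n → K.h k < K.h n + X * (K.t k - K.t n)) := by
  have ha := (hTouch ι K n k false hn hk).1 hB
  have hb := (hTouch ι K n k true hn hk).1 hB
  change K.h k ≤ K.ht (K.a n) (K.t k) at ha
  change K.h k ≤ K.ht (K.b n) (K.t k) at hb
  rw [ht_a] at ha
  rw [ht_b K hn] at hb
  have key : k ≠ n → K.h k < K.h n + X * (K.t k - K.t n) := by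
    intro hne
    rcases t_ne K hn hk hne with h | h
    · have : 0 < (K.x (K.a n) - X) * (K.t n - K.t k) := mul_pos (by linarith) (by linarith)
      nlinarith
    · have : 0 < (X - K.x (K.b n)) * (K.t k - K.t n) := mul_pos (by linarith) (by linarith)
      nlinarith
  refine ⟨?_, key⟩
  by_cases h : k = n
  · subst h; simp
  · exact (key h).le

/-- a top token stays above the line of slope `X` through its edge -/
theorem high (hTouch : StTouch) (K : KSys ι) {n k : ℕ} {X : ℝ} (hn : n < K.N) (hk : k < K.N)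
    (hB : K.tokT n = K.tokT k) (h1 : K.x (K.b n) < X) (h2 : X < K.x (K.a n)) :
    K.h n + X * (K.t k - K.t n) ≤ K.h k ∧ (k ≠ n → K.h n + X * (K.t k - K.t n) < K.h k) := by
  have ha := (hTouch ι K n k false hn hk).2 hB
  have hb := (hTouch ι K n k true hn hk).2 hB
  change K.ht (K.a n) (K.t k) ≤ K.h k at ha
  change K.ht (K.b n) (K.t k) ≤ K.h k at hb
  rw [ht_a] at ha
  rw [ht_b K hn] at hb
  have key : k ≠ n → K.h n + X * (K.t k - K.t n) < K.h k := by
    intro hne
    rcases t_ne K hn hk hne with h | h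
    · have : 0 < (X - K.x (K.b n)) * (K.t n - K.t k) := mul_pos (by linarith) (by linarith)
      nlinarith
    · have : 0 < (K.x (K.a n) - X) * (K.t k - K.t n) := mul_pos (by linarith) (by linarith)
      nlinarith
  refine ⟨?_, key⟩
  by_cases h : k = n
  · subst h; simp
  · exact (key h).le

end XCINJ

theorem I_CINJ (hTok : StTok) (hTouch : StTouch) (hLeq : StLeq) : StCinj := by
  intro ι _ _ K n n' k k' hnn hn' hkk hk' hc1 hc2 hB hT
  have _ := hTok
  have _ := hLeq
  have hn : n < K.N := hnn.trans hn'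
  have hk : k < K.N := hkk.trans hk'
  obtain ⟨a1, a2, a3, a4⟩ := hc1
  obtain ⟨b1, b2, b3, b4⟩ := hc2
  have ht1 : 0 < K.t n' - K.t n := by have := K.t_lt n n' hnn hn'; linarith
  have ht2 : 0 < K.t k' - K.t k := by have := K.t_lt k k' hkk hk'; linarith
  obtain ⟨X1, hX1⟩ : ∃ X, X = (K.h n' - K.h n) / (K.t n' - K.t n) := ⟨_, rfl⟩
  obtain ⟨X2, hX2⟩ : ∃ X, X = (K.h k' - K.h k) / (K.t k' - K.t k) := ⟨_, rfl⟩
  rw [← hX1] at a1 a2 a3 a4
  rw [← hX2] at b1 b2 b3 b4
  have e1 : K.h n' = K.h n + X1 * (K.t n' - K.t n) := by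
    rw [hX1, div_mul_cancel₀ _ ht1.ne']; ring
  have e2 : K.h k' = K.h k + X2 * (K.t k' - K.t k) := by
    rw [hX2, div_mul_cancel₀ _ ht2.ne']; ring
  obtain ⟨c1, c1'⟩ := XCINJ.low hTouch K hn hk hB a1 a2
  obtain ⟨c2, c2'⟩ := XCINJ.low hTouch K hk hn hB.symm b1 b2
  obtain ⟨c3, c3'⟩ := XCINJ.high hTouch K hn' hk' hT a3 a4
  obtain ⟨c4, c4'⟩ := XCINJ.high hTouch K hk' hn' hT.symm b3 b4
  have s1 : X2 ≤ X1 := by
    by_contra h
    push Not at h
    have := mul_pos (sub_pos.2 h) ht1
    nlinarith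
  have s2 : X1 ≤ X2 := by
    by_contra h
    push Not at h
    have := mul_pos (sub_pos.2 h) ht2
    nlinarith
  have s3 : X1 = X2 := le_antisymm s2 s1
  subst s3
  have e3 : K.h k = K.h n + X1 * (K.t k - K.t n) := by
    apply le_antisymm c1
    linarith
  constructor
  · by_contra h
    have := c1' (fun h' => h h'.symm)
    linarith
  · by_contra h
    have := c3' (fun h' => h h'.symm)
    rw [e1, e2] at this
    nlinarith

end Pool.Agent.Work.MP_e17eac_co.DH

end

section

/-!
# Item CRL: the crossing lemma with two sampling probabilities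
-/

namespace Pool.Agent.Work.MP_e17eac_co.DH

open Finset

namespace XCRL

variable {ι : Type} [Fintype ι] [DecidableEq ι]

/-- indicator of `c = z` on `J` -/
def ind {s : ℕ} (z : Fin s) (c : ι → Fin s) (J : Finset ι) : ℕ := if ∀ l ∈ J, c l = z then 1 else 0

/-- the number of colourings which are `z` on `J` -/
theorem sum_ind {s : ℕ} (z : Fin s) (J : Finset ι) :
    s ^ J.card * ∑ c : ι → Fin s, ind z c J = s ^ Fintype.card ι := by
  have h1 : ∑ c : ι → Fin s, ind z c J =
      (Fintype.piFinset (fun l : ι => if l ∈ J then ({z} : Finset (Fin s)) else univ)).card := by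
    unfold ind
    rw [← Finset.card_filter]
    congr 1
    ext c
    simp only [mem_filter, mem_univ, true_and, Fintype.mem_piFinset]
    constructor
    · intro h l
      by_cases hl : l ∈ J
      · rw [if_pos hl]; simpa using h l hl
      · rw [if_neg hl]; exact mem_univ _
    · intro h l hl
      have := h l
      rw [if_pos hl] at this
      simpa using this
  rw [h1, Fintype.card_piFinset]
  have h2 : ∀ l : ι, (if l ∈ J then ({z} : Finset (Fin s)) else univ).card =
      if l ∈ J then 1 else s := by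
    intro l
    split_ifs
    · simp
    · simp
  simp only [h2]
  rw [Finset.prod_ite, Finset.prod_const_one, one_mul, Finset.prod_const, ← pow_add]
  congr 1
  have h3 : univ.filter (fun l : ι => l ∉ J) = univ \ J := by
    ext l; simp
  rw [h3, Finset.card_sdiff_of_subset (subset_univ J), Finset.card_univ]
  have := Finset.card_le_univ J
  omega

/-- in a crossing pair the steep lines are different, and the flat lines are different -/
theorem cross_ne (K : KSys ι) {n n' : ℕ} (h : n < n') (hn' : n' < K.N) (hc : K.Cross n n') :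
    K.a n ≠ K.a n' ∧ K.b n ≠ K.b n' := by
  have ht := K.t_lt n n' h hn'
  have h1 : K.t n' - K.t n ≠ 0 := by
    have : 0 < K.t n' - K.t n := by linarith
    exact this.ne'
  obtain ⟨a1, a2, a3, a4⟩ := hc
  constructor
  · intro he
    apply a2.ne
    rw [div_eq_iff h1]
    unfold KSys.h KSys.ht
    rw [he]
    ring
  · intro he
    apply a1.ne'
    rw [div_eq_iff h1]
    have m1 := K.meet n (h.trans hn')
    have m2 := K.meet n' hn'
    unfold KSys.h KSys.ht
    rw [m1, m2, he]
    ring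

/-- the deletion bound -/
theorem del (hPl : StPl) (K : KSys ι) (hx : Function.Injective K.x) (E : Finset ℕ)
    (hE : ∀ n ∈ E, n < K.N) (A B : Finset ι) (hA : ∀ n ∈ E, K.a n ∈ A) (hB : ∀ n ∈ E, K.b n ∈ B) :
    E.card ≤ 4 * (A.card + B.card) + (crossPairs K E).card := by
  classical
  have h1 := hPl ι K hx (E \ (crossPairs K E).image Prod.fst)
    (fun n hn => hE n (mem_sdiff.1 hn).1) (fun n hn n' hn' hlt hc => by
      rw [mem_sdiff] at hn hn'
      apply hn.2
      rw [mem_image]
      refine ⟨(n, n'), ?_, rfl⟩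
      unfold crossPairs
      rw [mem_filter, mem_product]
      exact ⟨⟨hn.1, hn'.1⟩, hlt, hc⟩)
  have h2 : (K.lines (E \ (crossPairs K E).image Prod.fst)).card ≤ A.card + B.card := by
    refine le_trans (card_le_card ?_) (card_union_le A B)
    unfold KSys.lines
    apply union_subset_union
    · intro i hi
      obtain ⟨n, hn, rfl⟩ := mem_image.1 hi
      exact hA n (mem_sdiff.1 hn).1
    · intro i hi
      obtain ⟨n, hn, rfl⟩ := mem_image.1 hi
      exact hB n (mem_sdiff.1 hn).1
  have h3 : E.card ≤ (E \ (crossPairs K E).image Prod.fst).card + (crossPairs K E).card := by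
    have h4 := Finset.card_le_card_sdiff_add_card (s := E) (t := (crossPairs K E).image Prod.fst)
    have h5 := Finset.card_image_le (s := crossPairs K E) (f := Prod.fst)
    omega
  omega

theorem card_filter_ind {s s' : ℕ} (z : Fin s) (z' : Fin s') (K : KSys ι) (E : Finset ℕ)
    (c : ι → Fin s) (c' : ι → Fin s') :
    (E.filter (fun n => c (K.a n) = z ∧ c' (K.b n) = z')).card =
      ∑ n ∈ E, ind z c {K.a n} * ind z' c' {K.b n} := by
  rw [Finset.card_filter]
  refine sum_congr rfl fun n _ => ?_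
  unfold ind
  by_cases h1 : c (K.a n) = z <;> by_cases h2 : c' (K.b n) = z' <;> simp [h1, h2]

theorem card_image_ind {s : ℕ} (z : Fin s) (c : ι → Fin s) (A : Finset ι) :
    (A.filter (fun i => c i = z)).card = ∑ i ∈ A, ind z c {i} := by
  rw [Finset.card_filter]
  refine sum_congr rfl fun n _ => ?_
  unfold ind
  simp

theorem crossPairs_ind {s s' : ℕ} (z : Fin s) (z' : Fin s') (K : KSys ι) (E : Finset ℕ)
    (c : ι → Fin s) (c' : ι → Fin s') :
    (crossPairs K (E.filter (fun n => c (K.a n) = z ∧ c' (K.b n) = z'))).card =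
      ∑ p ∈ crossPairs K E, ind z c {K.a p.1, K.a p.2} * ind z' c' {K.b p.1, K.b p.2} := by
  classical
  have h1 : crossPairs K (E.filter (fun n => c (K.a n) = z ∧ c' (K.b n) = z')) =
      (crossPairs K E).filter (fun p => (c (K.a p.1) = z ∧ c' (K.b p.1) = z') ∧
        (c (K.a p.2) = z ∧ c' (K.b p.2) = z')) := by
    unfold crossPairs
    ext ⟨n, n'⟩
    simp only [mem_filter, mem_product]
    tauto
  rw [h1, Finset.card_filter]
  refine sum_congr rfl fun p _ => ?_
  unfold ind
  by_cases h1 : c (K.a p.1) = z <;> by_cases h2 : c' (K.b p.1) = z' <;>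
    by_cases h3 : c (K.a p.2) = z <;> by_cases h4 : c' (K.b p.2) = z' <;> simp [h1, h2, h3, h4]

theorem swap_sum {α β γ : Type} [Fintype α] [Fintype β] (E : Finset γ) (f : α → γ → ℕ)
    (g : β → γ → ℕ) : ∑ c, ∑ c', ∑ n ∈ E, f c n * g c' n =
      ∑ n ∈ E, (∑ c, f c n) * (∑ c', g c' n) := by
  have h1 : ∀ c, ∑ c', ∑ n ∈ E, f c n * g c' n = ∑ n ∈ E, f c n * ∑ c', g c' n := by
    intro c
    rw [sum_comm]
    refine sum_congr rfl fun n _ => ?_
    rw [mul_sum]
  simp only [h1]
  rw [sum_comm]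
  refine sum_congr rfl fun n _ => ?_
  rw [sum_mul]

end XCRL

open XCRL in
theorem I_CRL (hPl : StPl) : StCrl := by
  intro ι _ _ K hx E hE s s' hs hs'
  obtain ⟨z⟩ : Nonempty (Fin s) := ⟨⟨0, hs⟩⟩
  obtain ⟨z'⟩ : Nonempty (Fin s') := ⟨⟨0, hs'⟩⟩
  -- the bound for each colouring
  have h1 : ∀ (c : ι → Fin s) (c' : ι → Fin s'),
      ∑ n ∈ E, ind z c {K.a n} * ind z' c' {K.b n} ≤
        4 * (∑ i ∈ E.image K.a, ind z c {i} + ∑ i ∈ E.image K.b, ind z' c' {i}) +
          ∑ p ∈ crossPairs K E, ind z c {K.a p.1, K.a p.2} * ind z' c' {K.b p.1, K.b p.2} := by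
    intro c c'
    rw [← card_filter_ind, ← card_image_ind, ← card_image_ind, ← crossPairs_ind]
    refine del hPl K hx _ (fun n hn => hE n (mem_filter.1 hn).1) _ _ (fun n hn => ?_)
      (fun n hn => ?_)
    · obtain ⟨a1, a2, a3⟩ := mem_filter.1 hn
      exact mem_filter.2 ⟨mem_image_of_mem _ a1, a2⟩
    · obtain ⟨a1, a2, a3⟩ := mem_filter.1 hn
      exact mem_filter.2 ⟨mem_image_of_mem _ a1, a3⟩
  -- sum over all colourings
  have h2 : ∑ c : ι → Fin s, ∑ c' : ι → Fin s', ∑ n ∈ E, ind z c {K.a n} * ind z' c' {K.b n} ≤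
      ∑ c : ι → Fin s, ∑ c' : ι → Fin s',
        (4 * (∑ i ∈ E.image K.a, ind z c {i} + ∑ i ∈ E.image K.b, ind z' c' {i}) +
          ∑ p ∈ crossPairs K E, ind z c {K.a p.1, K.a p.2} * ind z' c' {K.b p.1, K.b p.2}) :=
    sum_le_sum fun c _ => sum_le_sum fun c' _ => h1 c c'
  have hT : 0 < s ^ Fintype.card ι := pow_pos hs _
  have hT' : 0 < s' ^ Fintype.card ι := pow_pos hs' _
  have one1 : ∀ i : ι, s * ∑ c : ι → Fin s, ind z c {i} = s ^ Fintype.card ι := by
    intro i
    have := sum_ind z ({i} : Finset ι)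
    rwa [card_singleton, pow_one] at this
  have one2 : ∀ i : ι, s' * ∑ c : ι → Fin s', ind z' c {i} = s' ^ Fintype.card ι := by
    intro i
    have := sum_ind z' ({i} : Finset ι)
    rwa [card_singleton, pow_one] at this
  have two1 : ∀ i j : ι, i ≠ j → s ^ 2 * ∑ c : ι → Fin s, ind z c {i, j} =
      s ^ Fintype.card ι := by
    intro i j hij
    have := sum_ind z ({i, j} : Finset ι)
    rwa [card_pair hij] at this
  have two2 : ∀ i j : ι, i ≠ j → s' ^ 2 * ∑ c : ι → Fin s', ind z' c {i, j} =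
      s' ^ Fintype.card ι := by
    intro i j hij
    have := sum_ind z' ({i, j} : Finset ι)
    rwa [card_pair hij] at this
  have e1 : s * s' * ∑ c : ι → Fin s, ∑ c' : ι → Fin s', ∑ n ∈ E,
      ind z c {K.a n} * ind z' c' {K.b n} =
      E.card * (s ^ Fintype.card ι * s' ^ Fintype.card ι) := by
    rw [swap_sum, mul_sum, Finset.card_eq_sum_ones, sum_mul]
    refine sum_congr rfl fun n _ => ?_
    rw [← one1 (K.a n), ← one2 (K.b n)]
    ring
  have e2 : s ^ 2 * s' ^ 2 * ∑ c : ι → Fin s, ∑ c' : ι → Fin s', ∑ p ∈ crossPairs K E,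
      ind z c {K.a p.1, K.a p.2} * ind z' c' {K.b p.1, K.b p.2} =
      (crossPairs K E).card * (s ^ Fintype.card ι * s' ^ Fintype.card ι) := by
    rw [swap_sum, mul_sum, Finset.card_eq_sum_ones, sum_mul]
    refine sum_congr rfl fun p hp => ?_
    classical
    unfold crossPairs at hp
    rw [mem_filter, mem_product] at hp
    obtain ⟨b1, b2⟩ := cross_ne K hp.2.1 (hE _ hp.1.2) hp.2.2
    have e3 := two1 _ _ b1
    have e4 := two2 _ _ b2
    rw [one_mul, ← e3, ← e4]
    ring
  have e3 : s * ∑ c : ι → Fin s, ∑ c' : ι → Fin s', ∑ i ∈ E.image K.a, ind z c {i} =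
      (E.image K.a).card * (s ^ Fintype.card ι * s' ^ Fintype.card ι) := by
    have : ∀ c : ι → Fin s, ∑ c' : ι → Fin s', ∑ i ∈ E.image K.a, ind z c {i} =
        s' ^ Fintype.card ι * ∑ i ∈ E.image K.a, ind z c {i} := by
      intro c
      rw [sum_const, card_univ, Fintype.card_fun, Fintype.card_fin, smul_eq_mul]
    simp only [this]
    rw [← mul_sum, sum_comm, mul_sum, mul_sum, Finset.card_eq_sum_ones, sum_mul]
    refine sum_congr rfl fun i _ => ?_
    rw [← one1 i]
    ring
  have e4 : s' * ∑ c : ι → Fin s, ∑ c' : ι → Fin s', ∑ i ∈ E.image K.b, ind z' c' {i} =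
      (E.image K.b).card * (s ^ Fintype.card ι * s' ^ Fintype.card ι) := by
    rw [sum_const, card_univ, Fintype.card_fun, Fintype.card_fin, smul_eq_mul]
    rw [sum_comm, mul_sum, mul_sum, Finset.card_eq_sum_ones, sum_mul]
    refine sum_congr rfl fun i _ => ?_
    rw [← one2 i]
    ring
  simp only [sum_add_distrib, ← mul_sum] at h2
  set A := ∑ c : ι → Fin s, ∑ c' : ι → Fin s', ∑ n ∈ E, ind z c {K.a n} * ind z' c' {K.b n}
  set B := ∑ c : ι → Fin s, ∑ c' : ι → Fin s', ∑ p ∈ crossPairs K E,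
      ind z c {K.a p.1, K.a p.2} * ind z' c' {K.b p.1, K.b p.2}
  set C := ∑ c : ι → Fin s, ∑ c' : ι → Fin s', ∑ i ∈ E.image K.a, ind z c {i}
  set F := ∑ c : ι → Fin s, ∑ c' : ι → Fin s', ∑ i ∈ E.image K.b, ind z' c' {i}
  set T := s ^ Fintype.card ι
  set T' := s' ^ Fintype.card ι
  have h3 : s ^ 2 * s' ^ 2 * A ≤ s ^ 2 * s' ^ 2 * (4 * (C + F) + B) := Nat.mul_le_mul_left _ h2
  have h4 : (E.card * s * s') * (T * T') ≤
      (4 * ((E.image K.a).card * s * s' ^ 2 + (E.image K.b).card * s ^ 2 * s') +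
        (crossPairs K E).card) * (T * T') := by
    calc (E.card * s * s') * (T * T') = s ^ 2 * s' ^ 2 * A := by
          have : s ^ 2 * s' ^ 2 * A = s * s' * (s * s' * A) := by ring
          rw [this, e1]; ring
      _ ≤ s ^ 2 * s' ^ 2 * (4 * (C + F) + B) := h3
      _ = 4 * (s * s' ^ 2 * (s * C) + s ^ 2 * s' * (s' * F)) + s ^ 2 * s' ^ 2 * B := by ring
      _ = _ := by rw [e2, e3, e4]; ring
  exact Nat.le_of_mul_le_mul_right h4 (Nat.mul_pos hT hT')

end Pool.Agent.Work.MP_e17eac_co.DH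

end

section

/-!
# Dey type bound for any set of edges
-/

namespace Pool.Agent.Work.MP_e17eac_co.DH

open Finset

namespace XDEY

/-- The arithmetic of the optimisation. -/
theorem arith (e A B X T : ℕ) (s s' : ℕ) (hA : 16 * A * s' ≤ e) (hB : 16 * B * s ≤ e)
    (hA2 : e ≤ 32 * A * s') (hB2 : e ≤ 32 * B * s)
    (h : e * s * s' ≤ 4 * (A * s * s' ^ 2 + B * s ^ 2 * s') + X) (hX : X ≤ T) :
    e ^ 3 ≤ 2048 * (A * B * T) := by
  have h1 : e * s * s' ≤ 2 * X := by
    have h2 : (16 * A * s' + 16 * B * s) * (s * s') ≤ (e + e) * (s * s') :=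
      Nat.mul_le_mul_right _ (Nat.add_le_add hA hB)
    nlinarith [h2, h]
  calc e ^ 3 = e * e * e := by ring
    _ ≤ (32 * B * s) * (32 * A * s') * e :=
        Nat.mul_le_mul_right _ (Nat.mul_le_mul hB2 hA2)
    _ = 1024 * (A * B) * (e * s * s') := by ring
    _ ≤ 1024 * (A * B) * (2 * X) := Nat.mul_le_mul_left _ h1
    _ ≤ 1024 * (A * B) * (2 * T) := Nat.mul_le_mul_left _ (Nat.mul_le_mul_left _ hX)
    _ = 2048 * (A * B * T) := by ring

/-- The floor of a number at least one is at least half of it. -/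
theorem half (e A : ℕ) (hA : 1 ≤ A) (h : 16 * A ≤ e) :
    1 ≤ e / (16 * A) ∧ 16 * A * (e / (16 * A)) ≤ e ∧ e ≤ 32 * A * (e / (16 * A)) := by
  have hpos : 0 < 16 * A := by omega
  have h1 : 1 ≤ e / (16 * A) := (Nat.one_le_div_iff hpos).2 h
  refine ⟨h1, Nat.mul_div_le e (16 * A), ?_⟩
  have h2 : e < 16 * A * (e / (16 * A) + 1) := Nat.lt_mul_div_succ e hpos
  nlinarith [Nat.mul_le_mul_left (16 * A) h1]

end XDEY

theorem I_DEY (hCrl : StCrl) (hCcnt : StCcnt) : StDey := by
  intro ι _ _ K hinj E hE hA hB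
  rcases E.eq_empty_or_nonempty with rfl | hne
  · simp
  · have hA1 : 1 ≤ (E.image K.a).card := Finset.card_pos.2 (hne.image _)
    have hB1 : 1 ≤ (E.image K.b).card := Finset.card_pos.2 (hne.image _)
    obtain ⟨a1, a2, a3⟩ := XDEY.half E.card _ hA1 hA
    obtain ⟨b1, b2, b3⟩ := XDEY.half E.card _ hB1 hB
    exact XDEY.arith E.card _ _ _ _ _ _ a2 b2 a3 b3 (hCrl ι K hinj E hE _ _ b1 a1)
      (hCcnt ι K E hE)

end Pool.Agent.Work.MP_e17eac_co.DH

end

section

/-!
# Dey's bound for all edges in a time interval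
-/

namespace Pool.Agent.Work.MP_e17eac_co.DH

open Finset

namespace XDEYI

variable {ι : Type} [Fintype ι] [DecidableEq ι]

/-- a token does not move as long as it does not occur -/
theorem stay (K : KSys ι) {p q : ℕ} (hq : q ≤ K.N) (ft : ℕ → ι)
    (hmv : ∀ n n', n < K.N → n' < K.N → ft n' ≠ ft n → K.pos (n + 1) (ft n') = K.pos n (ft n'))
    (n : ℕ) (hn : n < q) (hmin : ∀ k, p ≤ k → k < n → ft k ≠ ft n) (k : ℕ) (hpk : p ≤ k)
    (hkn : k ≤ n) : K.pos k (ft n) = K.pos p (ft n) := by
  induction k, hpk using Nat.le_induction with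
  | base => rfl
  | succ k hpk ih =>
    rw [← ih (by omega)]
    exact hmv k n (by omega) (by omega) (fun h => hmin k hpk (by omega) h.symm)

theorem card_tok (K : KSys ι) {p q : ℕ} (hq : q ≤ K.N) (ft g : ℕ → ι)
    (hg : ∀ n, n < K.N → K.pos n (ft n) = g n)
    (hmv : ∀ n n', n < K.N → n' < K.N → ft n' ≠ ft n → K.pos (n + 1) (ft n') = K.pos n (ft n')) :
    ((Ico p q).image ft).card ≤ ((Ico p q).image g).card := by
  refine Finset.card_le_card_of_injOn (fun τ => K.pos p τ) ?_ fun x _ y _ h =>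
    (K.pos p).injective h
  intro τ hτ
  rw [Finset.mem_coe, mem_image] at hτ
  obtain ⟨n, hn, rfl⟩ := hτ
  rw [mem_Ico] at hn
  have hex : ∃ k, p ≤ k ∧ k < q ∧ ft k = ft n := ⟨n, hn.1, hn.2, rfl⟩
  obtain ⟨h1, h2, h3⟩ := Nat.find_spec hex
  have hmin : ∀ k, p ≤ k → k < Nat.find hex → ft k ≠ ft (Nat.find hex) := by
    intro k hpk hk h
    exact Nat.find_min hex hk ⟨hpk, by omega, h.trans h3⟩
  have h4 := stay K hq ft hmv (Nat.find hex) h2 hmin (Nat.find hex) h1 le_rfl
  rw [h3] at h4
  rw [Finset.mem_coe, mem_image]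
  refine ⟨Nat.find hex, mem_Ico.2 ⟨h1, h2⟩, ?_⟩
  rw [← hg _ (by omega), h3]
  exact h4

theorem pow_bound {e v : ℕ} (h : e < 16 * v) : e ^ 3 ≤ 4096 * v ^ 4 := by
  have hv : 1 ≤ v := by omega
  calc e ^ 3 ≤ (16 * v) ^ 3 := Nat.pow_le_pow_left h.le 3
    _ = 4096 * v ^ 3 := by ring
    _ ≤ 4096 * v ^ 4 := Nat.mul_le_mul_left _ (Nat.pow_le_pow_right hv (by norm_num))

end XDEYI

open XDEYI in
theorem I_DEYI (hDey : StDey) (hTok : StTok) (hMono : StMono) : StDeyI := by
  have _ := hMono
  intro ι _ _ K hx p q hq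
  have hA : ((Ico p q).image K.a).card ≤ (K.lines (Ico p q)).card :=
    card_le_card subset_union_left
  have hB : ((Ico p q).image K.b).card ≤ (K.lines (Ico p q)).card :=
    card_le_card subset_union_right
  by_cases h1 : 16 * ((Ico p q).image K.a).card ≤ (Ico p q).card
  · by_cases h2 : 16 * ((Ico p q).image K.b).card ≤ (Ico p q).card
    · have h3 := hDey ι K hx (Ico p q) (fun n hn => by rw [mem_Ico] at hn; omega) h1 h2
      have hTB : ((Ico p q).image K.tokB).card ≤ ((Ico p q).image K.a).card := by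
        refine card_tok K hq K.tokB K.a (fun n hn => (hTok ι K n hn).2.2.1) ?_
        intro n n' hn hn' hne
        refine (hTok ι K n hn).2.2.2.2.2.2 _ hne fun h => ?_
        have h5 := (hTok ι K n' hn').1
        rw [h] at h5
        exact (hTok ι K n hn).2.1 h5
      have hTT : ((Ico p q).image K.tokT).card ≤ ((Ico p q).image K.b).card := by
        refine card_tok K hq K.tokT K.b (fun n hn => (hTok ι K n hn).2.2.2.2.1) ?_
        intro n n' hn hn' hne
        refine (hTok ι K n hn).2.2.2.2.2.2 _ (fun h => ?_) hne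
        have h5 := (hTok ι K n hn).1
        rw [← h] at h5
        exact (hTok ι K n' hn').2.1 h5
      refine h3.trans ?_
      have h6 : ((Ico p q).image K.a).card * ((Ico p q).image K.b).card *
          (((Ico p q).image K.tokB).card * ((Ico p q).image K.tokT).card) ≤
          (K.lines (Ico p q)).card ^ 4 := by
        calc _ ≤ (K.lines (Ico p q)).card * (K.lines (Ico p q)).card *
              ((K.lines (Ico p q)).card * (K.lines (Ico p q)).card) :=
              Nat.mul_le_mul (Nat.mul_le_mul hA hB)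
                (Nat.mul_le_mul (hTB.trans hA) (hTT.trans hB))
          _ = _ := by ring
      calc _ ≤ 2048 * (K.lines (Ico p q)).card ^ 4 := Nat.mul_le_mul_left _ h6
        _ ≤ _ := Nat.mul_le_mul_right _ (by norm_num)
    · exact pow_bound (by omega)
  · exact pow_bound (by omega)

end Pool.Agent.Work.MP_e17eac_co.DH

end

section

/-!
# Basic properties of `idx`
-/

namespace Pool.Agent.Work.MP_e17eac_co.DH

open Finset

namespace XIDX

theorem lt_iff {ι : Type} [Fintype ι] [DecidableEq ι] (K : KSys ι) (n : ℕ) (s : ℝ) :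
    n < K.idx s ↔ n < K.N ∧ K.t n < s := by
  classical
  have hmem : ∀ k, k ∈ (range K.N).filter (fun n => K.t n < s) ↔ k < K.N ∧ K.t k < s := by
    intro k
    rw [mem_filter, mem_range]
  have hlow : ∀ k l, k ≤ l → (l < K.N ∧ K.t l < s) → (k < K.N ∧ K.t k < s) := by
    intro k l hkl hl
    rcases hkl.eq_or_lt with rfl | h
    · exact hl
    · exact ⟨h.trans hl.1, (K.t_lt k l h hl.1).trans hl.2⟩
  have hidx : K.idx s = ((range K.N).filter (fun n => K.t n < s)).card := by
    unfold KSys.idx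
    congr
  rw [hidx]
  constructor
  · intro h
    by_contra hn
    have hsub : (range K.N).filter (fun n => K.t n < s) ⊆ range n := by
      intro k hk
      rw [hmem] at hk
      rw [mem_range]
      by_contra hkn
      exact hn (hlow n k (not_lt.1 hkn) hk)
    have := card_le_card hsub
    rw [card_range] at this
    omega
  · intro h
    have hsub : range (n + 1) ⊆ (range K.N).filter (fun n => K.t n < s) := by
      intro k hk
      rw [mem_range] at hk
      rw [hmem]
      exact hlow k n (by omega) h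
    have := card_le_card hsub
    rw [card_range] at this
    omega

end XIDX

theorem I_IDX : StIdx := by
  intro ι _ _ K
  have hN : ∀ s, K.idx s ≤ K.N := by
    intro s
    by_contra h
    have := (XIDX.lt_iff K K.N s).1 (not_le.1 h)
    exact absurd this.1 (lt_irrefl _)
  refine ⟨?_, XIDX.lt_iff K, ?_, hN⟩
  · intro s
    refine ⟨hN s, ?_, ?_⟩
    · intro k hk
      exact ((XIDX.lt_iff K k s).1 hk).2.le
    · intro k hk hkN
      by_contra h
      have := (XIDX.lt_iff K k s).2 ⟨hkN, not_le.1 h⟩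
      omega
  · intro s s' hss
    by_contra h
    have h1 := not_le.1 h
    have h2 := (XIDX.lt_iff K _ s).1 h1
    have h3 := (XIDX.lt_iff K (K.idx s') s').2 ⟨h2.1, h2.2.trans_le hss⟩
    exact absurd h3 (lt_irrefl _)

end Pool.Agent.Work.MP_e17eac_co.DH

end

section

/-!
MP_e17eac_co, block DH, item LEQ.
-/

namespace Pool.Agent.Work.MP_e17eac_co.DH

namespace XLEQ

variable {ι : Type} [Fintype ι] [DecidableEq ι]

theorem valid_self (K : KSys ι) (n : ℕ) (hn : n < K.N) : K.Valid n (K.t n) := by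
  refine ⟨hn.le, fun k hk => (K.t_lt k n hk hn).le, fun k hk hk' => ?_⟩
  rcases hk.eq_or_lt with rfl | h
  · exact le_rfl
  · exact (K.t_lt n k h hk').le

theorem valid_succ (K : KSys ι) (n : ℕ) (hn : n < K.N) : K.Valid (n + 1) (K.t n) := by
  refine ⟨hn, fun k hk => ?_, fun k hk hk' => (K.t_lt n k (by omega) hk').le⟩
  rcases (Nat.lt_succ_iff.mp hk).eq_or_lt with rfl | h
  · exact le_rfl
  · exact (K.t_lt k n h hn).le

end XLEQ

theorem I_LEQ : StLeq := by
  intro ι _ _ K n hn
  have hv := XLEQ.valid_self K n hn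
  have hv' := XLEQ.valid_succ K n hn
  have hm : K.ht (K.b n) (K.t n) = K.h n := (K.meet n hn).symm
  have h1 : K.ht (K.a n) (K.t n) ≤ K.L (K.t n) :=
    K.below n hv.1 (K.t n) hv.2.1 hv.2.2 (K.a n) (K.a_mem n hn)
  have h2 : K.L (K.t n) ≤ K.ht (K.b n) (K.t n) :=
    K.above n hv.1 (K.t n) hv.2.1 hv.2.2 (K.b n) (K.b_mem n hn)
  refine ⟨le_antisymm (h2.trans hm.le) h1, rfl, hm, hv, hv'⟩

end Pool.Agent.Work.MP_e17eac_co.DH

end

section

/-!
# The mirror image of a sweep
-/

namespace Pool.Agent.Work.MP_e17eac_co.DH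

open Finset

namespace XMIR

variable {ι : Type} [Fintype ι] [DecidableEq ι]

theorem pos_mirror (K : KSys ι) : ∀ n, K.mirror.pos n = K.pos n
  | 0 => rfl
  | n + 1 => by
    change Equiv.swap (K.b n) (K.a n) * K.mirror.pos n = Equiv.swap (K.a n) (K.b n) * K.pos n
    rw [pos_mirror K n, Equiv.swap_comm]

theorem idx_mirror (K : KSys ι) (s : ℝ) : K.mirror.idx s = K.idx s := rfl

theorem cell_mirror (K : KSys ι) (Q j n : ℕ) : K.mirror.cell Q j n = K.cell Q j n := rfl

end XMIR

open XMIR in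
theorem I_MIR : StMir := by
  intro ι _ _ K
  refine ⟨pos_mirror K, fun n => ?_, fun n => ?_, idx_mirror K, fun i s => ?_, fun n hn => ?_,
    fun n s => Iff.rfl, cell_mirror K, fun Q j k τ => ?_, fun m hm i j hij => ?_⟩
  · change (K.mirror.pos n).symm (K.b n) = (K.pos n).symm (K.b n)
    rw [pos_mirror]
  · change (K.mirror.pos n).symm (K.a n) = (K.pos n).symm (K.a n)
    rw [pos_mirror]
  · change -K.y i + (1 - K.x i) * s = s - (K.y i + K.x i * s)
    ring
  · change -K.y (K.b n) + (1 - K.x (K.b n)) * K.t n = K.t n - (K.y (K.a n) + K.x (K.a n) * K.t n)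
    have := K.meet n hn
    linarith
  · have h1 : K.mirror.ci Q j k = K.ci Q j k := rfl
    have h2 : K.mirror.ci Q j (k + 1) = K.ci Q j (k + 1) := rfl
    unfold KSys.disp
    rw [h1, h2, pos_mirror, pos_mirror]
    change |(1 - K.x (K.pos (K.ci Q j k) τ)) - (1 - K.x (K.pos (K.ci Q j (k + 1)) τ))| = _
    rw [← abs_neg]
    congr 1
    ring
  · have h1 := hm i j hij
    change 1 ≤ m * |(1 - K.x i) - (1 - K.x j)|
    have h2 : (1 - K.x i) - (1 - K.x j) = -(K.x i - K.x j) := by ring
    rw [h2, abs_neg]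
    exact h1

end Pool.Agent.Work.MP_e17eac_co.DH

end

section

/-!
# Slopes of bottom tokens decrease, slopes of top tokens increase
-/

namespace Pool.Agent.Work.MP_e17eac_co.DH

open Finset

namespace XMONO

variable {ι : Type} [Fintype ι] [DecidableEq ι]

theorem step_bot (hTok : StTok) (K : KSys ι) (n : ℕ) (hn : n < K.N) (τ : ι) (hτ : τ ∈ K.S 0) :
    K.x (K.pos (n + 1) τ) ≤ K.x (K.pos n τ) := by
  obtain ⟨_, h2, h3, h4, _, _, h7⟩ := hTok ι K n hn
  by_cases hB : τ = K.tokB n
  · rw [hB, h3, h4]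
    exact (K.x_lt n hn).le
  · have hT : τ ≠ K.tokT n := fun h => h2 (h ▸ hτ)
    rw [h7 τ hB hT]

theorem step_top (hTok : StTok) (K : KSys ι) (n : ℕ) (hn : n < K.N) (τ : ι) (hτ : τ ∉ K.S 0) :
    K.x (K.pos n τ) ≤ K.x (K.pos (n + 1) τ) := by
  obtain ⟨h1, _, _, _, h5, h6, h7⟩ := hTok ι K n hn
  by_cases hT : τ = K.tokT n
  · rw [hT, h5, h6]
    exact (K.x_lt n hn).le
  · have hB : τ ≠ K.tokB n := fun h => hτ (h ▸ h1)
    rw [h7 τ hB hT]

end XMONO

theorem I_MONO (hTok : StTok) : StMono := by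
  intro ι _ _ K n n' hnn' hn'
  induction n', hnn' using Nat.le_induction with
  | base => exact ⟨fun τ _ => le_rfl, fun τ _ => le_rfl⟩
  | succ k hk ih =>
    obtain ⟨h1, h2⟩ := ih (by omega)
    exact ⟨fun τ hτ => (XMONO.step_bot hTok K k (by omega) τ hτ).trans (h1 τ hτ),
      fun τ hτ => (h2 τ hτ).trans (XMONO.step_top hTok K k (by omega) τ hτ)⟩

end Pool.Agent.Work.MP_e17eac_co.DH

end

section

/-!
# Item PATH: the path of a bottom token is concave
-/

namespace Pool.Agent.Work.MP_e17eac_co.DH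

open Finset

namespace XPATH

variable {ι : Type} [Fintype ι] [DecidableEq ι]

/-- The time of the edge `n` is valid just before the edge `n`. -/
theorem valid_t (K : KSys ι) (n : ℕ) (hn : n < K.N) : K.Valid n (K.t n) := by
  refine ⟨hn.le, fun k hk => (K.t_lt k n hk hn).le, fun k hk hk' => ?_⟩
  rcases Nat.eq_or_lt_of_le hk with rfl | h
  · exact le_rfl
  · exact (K.t_lt n k h hk').le

/-- A bottom token does not jump in height at an edge. -/
theorem ht_succ (hTok : StTok) (K : KSys ι) (n : ℕ) (hn : n < K.N) (τ : ι) (hτ : τ ∈ K.S 0) :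
    K.ht (K.pos (n + 1) τ) (K.t n) = K.ht (K.pos n τ) (K.t n) := by
  obtain ⟨h1, h2, h3, h4, h5, h6, h7⟩ := hTok ι K n hn
  by_cases hB : τ = K.tokB n
  · subst hB
    rw [h3, h4]
    exact (K.meet n hn).symm
  · have hT : τ ≠ K.tokT n := fun h => h2 (h ▸ hτ)
    rw [h7 τ hB hT]

end XPATH

theorem I_PATH (hTok : StTok) (hMono : StMono) : StPath := by
  intro ι _ _ K n n' u s τ hτ hnn hu
  induction n', hnn using Nat.le_induction generalizing s with
  | base =>
    intro _ _
    refine ⟨le_rfl, by simp, le_rfl, by simp⟩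
  | succ n' hnn ih =>
    intro hs hus
    have hn' : n' < K.N := hs.1
    have hT : K.Valid n' (K.t n') := XPATH.valid_t K n' hn'
    have huT : u ≤ K.t n' := hu.2.2 n' hnn hn'
    have hTs : K.t n' ≤ s := hs.2.1 n' (Nat.lt_succ_self n')
    obtain ⟨A1, A2, A3, A4⟩ := ih (K.t n') hT huT
    have hH := XPATH.ht_succ hTok K n' hn' τ hτ
    have hx1 : K.x (K.pos (n' + 1) τ) ≤ K.x (K.pos n' τ) :=
      (hMono ι K n' (n' + 1) (Nat.le_succ _) hn').1 τ hτ
    have hx2 : K.x (K.pos n' τ) ≤ K.x (K.pos n τ) := (hMono ι K n n' hnn hn'.le).1 τ hτ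
    simp only [KSys.ht] at *
    set x0 := K.x (K.pos n τ)
    set x1 := K.x (K.pos n' τ)
    set x2 := K.x (K.pos (n' + 1) τ)
    set y0 := K.y (K.pos n τ)
    set y1 := K.y (K.pos n' τ)
    set y2 := K.y (K.pos (n' + 1) τ)
    set T := K.t n'
    have p1 : 0 ≤ (s - T) * (x0 - x2) := mul_nonneg (by linarith) (by linarith)
    have p2 : 0 ≤ (T - u) * (x1 - x2) := mul_nonneg (by linarith) (by linarith)
    refine ⟨?_, ?_, ?_, ?_⟩
    · nlinarith
    · nlinarith
    · nlinarith
    · nlinarith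

end Pool.Agent.Work.MP_e17eac_co.DH

end

section

/-!
# A plane straight line graph has at most four times as many edges as vertices

Every edge which is not the steepest right edge of its source `v` is the lower side of a wedge
at `v`; the first vertex `z` met by this wedge together with its type (end of the lower side, end
of the upper side, neither) determines the wedge.
-/

namespace Pool.Agent.Work.MP_e17eac_co.DH

open Finset

namespace XPLANAR

variable {ι : Type}

/-- The slope of an edge. -/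
noncomputable def sl (x y : ι → ℝ) (e : ι × ι) : ℝ := (y e.2 - y e.1) / (x e.2 - x e.1)

/-- The height of the line of an edge. -/
noncomputable def lv (x y : ι → ℝ) (e : ι × ι) (X : ℝ) : ℝ :=
  y e.1 + (y e.2 - y e.1) / (x e.2 - x e.1) * (X - x e.1)

lemma lv_end {x y : ι → ℝ} {e : ι × ι} (h : x e.1 < x e.2) : lv x y e (x e.2) = y e.2 := by
  unfold lv
  rw [div_mul_cancel₀ _ (sub_ne_zero.2 h.ne')]
  ring

lemma lv_start (x y : ι → ℝ) (e : ι × ι) : lv x y e (x e.1) = y e.1 := by
  unfold lv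
  simp

/-- Edges with the same source are compared by their slopes. -/
lemma lv_lt {x y : ι → ℝ} {e f : ι × ι} (h : f.1 = e.1) (hs : sl x y e < sl x y f) {X : ℝ}
    (hX : x e.1 < X) : lv x y e X < lv x y f X := by
  unfold lv
  unfold sl at hs
  rw [h] at hs ⊢
  have := mul_lt_mul_of_pos_right hs (sub_pos.2 hX)
  linarith

lemma lv_eq {x y : ι → ℝ} {e f : ι × ι} (h : f.1 = e.1) (hs : sl x y e = sl x y f) (X : ℝ) :
    lv x y e X = lv x y f X := by
  unfold lv
  unfold sl at hs
  rw [h] at hs ⊢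
  rw [hs]

variable {x y : ι → ℝ} {F : Finset (ι × ι)} {V : Finset ι}

/-- The hypothesis that the edges do not cross. -/
def HC (x y : ι → ℝ) (F : Finset (ι × ι)) : Prop :=
  ∀ e ∈ F, ∀ f ∈ F, e ≠ f → ∀ X : ℝ, x e.1 < X → X < x e.2 → x f.1 < X → X < x f.2 →
    lv x y e X ≠ lv x y f X

/-- The hypothesis that no vertex lies inside an edge. -/
def HV (x y : ι → ℝ) (F : Finset (ι × ι)) (V : Finset ι) : Prop :=
  ∀ e ∈ F, ∀ w ∈ V, x e.1 < x w → x w < x e.2 → lv x y e (x w) ≠ y w

/-- The hypothesis on endpoints. -/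
def HF (x : ι → ℝ) (F : Finset (ι × ι)) (V : Finset ι) : Prop :=
  ∀ e ∈ F, e.1 ∈ V ∧ e.2 ∈ V ∧ x e.1 < x e.2

lemma noCross (hC : HC x y F) {e g : ι × ι} (he : e ∈ F) (hg : g ∈ F) {X1 X2 : ℝ}
    (h12 : X1 < X2) (a1 : x e.1 ≤ X1) (a2 : x g.1 ≤ X1) (b1 : X2 ≤ x e.2) (b2 : X2 ≤ x g.2)
    (h1 : lv x y e X1 < lv x y g X1) (h2 : lv x y g X2 < lv x y e X2) : False := by
  have hc : ContinuousOn (fun X => lv x y g X - lv x y e X) (Set.Icc X1 X2) := by
    unfold lv
    fun_prop
  have h0 : (0 : ℝ) ∈ Set.Ioo ((fun X => lv x y g X - lv x y e X) X2)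
      ((fun X => lv x y g X - lv x y e X) X1) := by
    constructor
    · simp only; linarith
    · simp only; linarith
  obtain ⟨X, hX, hX0⟩ := intermediate_value_Ioo' h12.le hc h0
  have hX0' : lv x y g X - lv x y e X = 0 := hX0
  have hne : e ≠ g := by
    rintro rfl
    exact lt_irrefl _ h1
  exact hC e he g hg hne X (lt_of_le_of_lt a1 hX.1) (lt_of_lt_of_le hX.2 b1)
    (lt_of_le_of_lt a2 hX.1) (lt_of_lt_of_le hX.2 b2) (by linarith)

/-- Different edges with the same source have different slopes. -/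
lemma eq_of_sl (hF : HF x F V) (hC : HC x y F) {e g : ι × ι} (he : e ∈ F) (hg : g ∈ F)
    (h : g.1 = e.1) (hs : sl x y e = sl x y g) : e = g := by
  by_contra hne
  obtain ⟨X, hX1, hX2⟩ := exists_between (lt_min (hF e he).2.2 (h ▸ (hF g hg).2.2))
  exact hC e he g hg hne X hX1 (lt_of_lt_of_le hX2 (min_le_left _ _)) (h ▸ hX1)
    (lt_of_lt_of_le hX2 (min_le_right _ _)) (lv_eq h hs X)

/-- A wedge: consecutive right edges `e`, `f` of a vertex, and the first vertex `z` in it. -/
def W (x y : ι → ℝ) (F : Finset (ι × ι)) (V : Finset ι) (e f : ι × ι) (z : ι) : Prop :=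
  f ∈ F ∧ f.1 = e.1 ∧ sl x y e < sl x y f ∧
  (∀ g ∈ F, g.1 = e.1 → sl x y e < sl x y g → sl x y f ≤ sl x y g) ∧ z ∈ V ∧ x e.1 < x z ∧
  lv x y e (x z) ≤ y z ∧ y z ≤ lv x y f (x z) ∧ x z ≤ x e.2 ∧ x z ≤ x f.2 ∧
  ∀ w ∈ V, x e.1 < x w → lv x y e (x w) ≤ y w → y w ≤ lv x y f (x w) → x z ≤ x w

lemma exists_W (hF : HF x F V) {e g : ι × ι} (he : e ∈ F) (hg : g ∈ F)
    (h : g.1 = e.1) (hs : sl x y e < sl x y g) : ∃ f z, W x y F V e f z := by
  classical
  obtain ⟨f, hf, hfm⟩ := Finset.exists_min_image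
    (F.filter (fun k => k.1 = e.1 ∧ sl x y e < sl x y k)) (sl x y) ⟨g, by simp [hg, h, hs]⟩
  rw [Finset.mem_filter] at hf
  obtain ⟨hf1, hf2, hf3⟩ := hf
  have hex := (hF e he).2.2
  have hfx := (hF f hf1).2.2
  -- the two candidates
  have hcand : ∃ c ∈ V, x e.1 < x c ∧ lv x y e (x c) ≤ y c ∧ y c ≤ lv x y f (x c) ∧
      x c ≤ x e.2 ∧ x c ≤ x f.2 := by
    rcases le_total (x e.2) (x f.2) with hle | hle
    · refine ⟨e.2, (hF e he).2.1, hex, (lv_end hex).le, ?_, le_rfl, hle⟩
      have h1 := lv_lt hf2 hf3 hex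
      rw [lv_end hex] at h1
      exact h1.le
    · have hx2 : x e.1 < x f.2 := hf2 ▸ hfx
      refine ⟨f.2, (hF f hf1).2.1, hx2, ?_, (lv_end hfx).ge, hle, le_rfl⟩
      have h1 := lv_lt hf2 hf3 hx2
      rw [lv_end hfx] at h1
      exact h1.le
  obtain ⟨c, hcV, hc1, hc2, hc3, hc4, hc5⟩ := hcand
  obtain ⟨z, hz, hzm⟩ := Finset.exists_min_image
    (V.filter (fun w => x e.1 < x w ∧ lv x y e (x w) ≤ y w ∧ y w ≤ lv x y f (x w))) x
    ⟨c, by simp [hcV, hc1, hc2, hc3]⟩
  rw [Finset.mem_filter] at hz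
  obtain ⟨hz0, hz1, hz2, hz3⟩ := hz
  have hzc : x z ≤ x c := hzm c (by simp [hcV, hc1, hc2, hc3])
  refine ⟨f, z, hf1, hf2, hf3, ?_, hz0, hz1, hz2, hz3, hzc.trans hc4, hzc.trans hc5, ?_⟩
  · intro k hk1 hk2 hk3
    exact hfm k (by simp [hk1, hk2, hk3])
  · intro w hw h1 h2 h3
    exact hzm w (by simp [hw, h1, h2, h3])

lemma inj_lt (hx : Function.Injective x) (hF : HF x F V) (hV : HV x y F V) (hC : HC x y F)
    {e1 f1 e2 f2 : ι × ι} {z : ι} (he1 : e1 ∈ F) (he2 : e2 ∈ F)
    (h1 : W x y F V e1 f1 z) (h2 : W x y F V e2 f2 z)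
    (hlt : x e1.1 < x e2.1) (t1 : z = e2.2 → z = e1.2) (t2 : z = f2.2 → z = f1.2) : False := by
  obtain ⟨hf1, s1, sl1, -, hzV, xz1, lo1, up1, ze1, zf1, min1⟩ := h1
  obtain ⟨hf2, s2, sl2, -, -, xz2, lo2, up2, ze2, zf2, -⟩ := h2
  by_cases hlow : lv x y e1 (x e2.1) ≤ y e2.1
  · by_cases hup : y e2.1 ≤ lv x y f1 (x e2.1)
    · exact absurd (min1 e2.1 (hF e2 he2).1 hlt hlow hup) (not_le.2 xz2)
    · -- `v2` is strictly above `f1`
      push Not at hup
      have hst : lv x y e2 (x z) < lv x y f1 (x z) := by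
        by_cases hz : z = e2.2
        · have hz' := t1 hz
          have hl := lv_lt s1 sl1 xz1
          have he := lv_end (y := y) (hF e1 he1).2.2
          rw [← hz'] at he
          linarith
        · have hlt2 : x z < x e2.2 := lt_of_le_of_ne ze2 (fun h => hz (hx h))
          have := hV e2 he2 z hzV xz2 hlt2
          exact lt_of_lt_of_le (lt_of_le_of_ne lo2 this) up1
      refine noCross hC hf1 he2 xz2 (by rw [s1]; exact hlt.le) le_rfl zf1 ze2 ?_ hst
      rw [lv_start]
      exact hup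
  · -- `v2` is strictly below `e1`
    push Not at hlow
    have hst : lv x y e1 (x z) < lv x y f2 (x z) := by
      by_cases hz : z = f2.2
      · have hz' := t2 hz
        have hl := lv_lt s1 sl1 xz1
        have he := lv_end (y := y) (hF f1 hf1).2.2
        rw [← hz'] at he
        linarith
      · have hlt2 : x z < x f2.2 := lt_of_le_of_ne zf2 (fun h => hz (hx h))
        have := hV f2 hf2 z hzV (by rw [s2]; exact xz2) hlt2
        exact lt_of_le_of_lt lo1 (lt_of_le_of_ne up2 (Ne.symm this))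
    refine noCross hC hf2 he1 xz2 (by rw [s2]) hlt.le zf2 ze1 ?_ hst
    have := lv_start x y f2
    rw [s2] at this
    rw [this]
    exact hlow

lemma inj_eq (hx : Function.Injective x) (hF : HF x F V) (hV : HV x y F V) (hC : HC x y F)
    {e1 f1 e2 f2 : ι × ι} {z : ι} (he2 : e2 ∈ F)
    (h1 : W x y F V e1 f1 z) (h2 : W x y F V e2 f2 z)
    (heq : e2.1 = e1.1) (hs : sl x y e1 < sl x y e2) (t1 : z = e2.2 → z = e1.2) : False := by
  obtain ⟨hf1, s1, sl1, m1, hzV, xz1, lo1, up1, ze1, zf1, -⟩ := h1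
  obtain ⟨hf2, s2, sl2, -, -, xz2, lo2, up2, ze2, zf2, -⟩ := h2
  have hle : sl x y f1 ≤ sl x y e2 := m1 e2 he2 heq hs
  have hf : f1 = e2 := by
    rcases hle.lt_or_eq with hlt | he
    · exfalso
      have := lv_lt (e := f1) (f := e2) (by rw [heq, s1]) hlt (X := x z) (by rw [s1]; exact xz1)
      linarith
    · exact eq_of_sl hF hC hf1 he2 (by rw [heq, s1]) he
  subst hf
  have hz : z = f1.2 := by
    by_contra hne
    have hlt : x z < x f1.2 := lt_of_le_of_ne ze2 (fun h => hne (hx h))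
    exact hV f1 he2 z hzV xz2 hlt (le_antisymm lo2 up1)
  have hz' := t1 hz
  have : e1 = f1 := Prod.ext heq.symm (hz'.symm.trans hz)
  rw [this] at hs
  exact lt_irrefl _ hs

end XPLANAR

open XPLANAR in
theorem I_PLANAR : StPlanar := by
  classical
  intro ι _ _ x y hx F V hF hV0 hC0
  have hF' : HF x F V := hF
  have hC : HC x y F := by
    intro e he f hf hne X h1 h2 h3 h4
    exact hC0 e he f hf hne X h1 h2 h3 h4
  have hV : HV x y F V := by
    intro e he w hw h1 h2 h3
    apply hV0 e he w hw h1 h2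
    have hd : x e.2 - x e.1 ≠ 0 := sub_ne_zero.2 (hF e he).2.2.ne'
    rw [← h3]
    unfold lv
    field_simp
    ring
  -- top edges and the others
  set T := F.filter (fun e => ∀ g ∈ F, g.1 = e.1 → ¬ sl x y e < sl x y g) with hT
  set N := F.filter (fun e => ¬ ∀ g ∈ F, g.1 = e.1 → ¬ sl x y e < sl x y g) with hN
  have hcard : T.card + N.card = F.card := Finset.card_filter_add_card_filter_not _
  have hTc : T.card ≤ V.card := by
    apply Finset.card_le_card_of_injOn Prod.fst
    · intro e he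
      exact (hF e (Finset.mem_filter.1 he).1).1
    · intro e he g hg h
      have he' := Finset.mem_filter.1 he
      have hg' := Finset.mem_filter.1 hg
      have h1 := he'.2 g hg'.1 h.symm
      have h2 := hg'.2 e he'.1 h
      exact eq_of_sl hF' hC he'.1 hg'.1 h.symm (le_antisymm (not_lt.1 h2) (not_lt.1 h1))
  have hex : ∀ e : ι × ι, ∃ p : (ι × ι) × ι, e ∈ N → W x y F V e p.1 p.2 := by
    intro e
    by_cases he : e ∈ N
    · have he' := Finset.mem_filter.1 he
      have h2 := he'.2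
      push Not at h2
      obtain ⟨g, hg, h3, h4⟩ := h2
      obtain ⟨f, z, h5⟩ := exists_W hF' he'.1 hg h3 h4
      exact ⟨(f, z), fun _ => h5⟩
    · exact ⟨(e, e.1), fun h => absurd h he⟩
  choose p hp using hex
  have hNc : N.card ≤ (V ×ˢ (Finset.univ : Finset (Fin 3))).card := by
    apply Finset.card_le_card_of_injOn
      (fun e => ((p e).2, if (p e).2 = e.2 then (0 : Fin 3) else
        if (p e).2 = (p e).1.2 then 1 else 2))
    · intro e he
      have := hp e he
      simp only [Finset.coe_product, Set.mem_prod, Finset.mem_coe, Finset.mem_univ, and_true]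
      exact this.2.2.2.2.1
    · intro e he g hg h
      have he' := Finset.mem_filter.1 he
      have hg' := Finset.mem_filter.1 hg
      simp only [Prod.mk.injEq] at h
      obtain ⟨hz, ht⟩ := h
      have we := hp e he
      have wg := hp g hg
      rw [← hz] at wg ht
      -- equal types
      have hne : ∀ {e f : ι × ι} {z : ι}, W x y F V e f z → z = e.2 → z = f.2 → False := by
        intro e f z w h1 h2
        have : f = e := Prod.ext w.2.1 (h2.symm.trans h1)
        have hs := w.2.2.1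
        rw [this] at hs
        exact lt_irrefl _ hs
      have t1 : (p e).2 = e.2 ↔ (p e).2 = g.2 := by
        constructor
        · intro h1
          rw [if_pos h1] at ht
          by_contra h2
          rw [if_neg h2] at ht
          split_ifs at ht
          · exact absurd ht (by decide)
          · exact absurd ht (by decide)
        · intro h1
          rw [if_pos h1] at ht
          by_contra h2
          rw [if_neg h2] at ht
          split_ifs at ht
          · exact absurd ht (by decide)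
          · exact absurd ht (by decide)
      have t2 : (p e).2 = (p e).1.2 ↔ (p e).2 = (p g).1.2 := by
        constructor
        · intro h1
          have h2 : ¬ (p e).2 = e.2 := fun h2 => hne we h2 h1
          have h3 : ¬ (p e).2 = g.2 := fun h3 => h2 (t1.2 h3)
          rw [if_neg h2, if_pos h1, if_neg h3] at ht
          by_contra h4
          rw [if_neg h4] at ht
          exact absurd ht (by decide)
        · intro h1
          have h3 : ¬ (p e).2 = g.2 := fun h3 => hne wg h3 h1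
          have h2 : ¬ (p e).2 = e.2 := fun h2 => h3 (t1.1 h2)
          rw [if_neg h2, if_neg h3, if_pos h1] at ht
          by_contra h4
          rw [if_neg h4] at ht
          exact absurd ht (by decide)
      rcases lt_trichotomy (x e.1) (x g.1) with hlt | heq | hlt
      · exact (inj_lt hx hF' hV hC he'.1 hg'.1 we wg hlt t1.2 t2.2).elim
      · have h1 : e.1 = g.1 := hx heq
        rcases lt_trichotomy (sl x y e) (sl x y g) with hs | hs | hs
        · exact (inj_eq hx hF' hV hC hg'.1 we wg h1.symm hs t1.2).elim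
        · exact eq_of_sl hF' hC he'.1 hg'.1 h1.symm hs
        · exact (inj_eq hx hF' hV hC he'.1 wg we h1 hs t1.1).elim
      · exact (inj_lt hx hF' hV hC hg'.1 he'.1 wg we hlt t1.1 t2.1).elim
  rw [Finset.card_product, Finset.card_univ, Fintype.card_fin] at hNc
  omega

end Pool.Agent.Work.MP_e17eac_co.DH

end

section

/-!
# The bottom set is the image of the initial bottom set under the token permutation
-/

namespace Pool.Agent.Work.MP_e17eac_co.DH

open Finset

namespace XPOS

variable {ι : Type} [Fintype ι] [DecidableEq ι]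

theorem pos_succ_symm (K : KSys ι) (n : ℕ) (i : ι) :
    (K.pos (n + 1)).symm i = (K.pos n).symm (Equiv.swap (K.a n) (K.b n) i) := by
  rw [Equiv.symm_apply_eq]
  change i = (Equiv.swap (K.a n) (K.b n) * K.pos n) _
  rw [Equiv.Perm.mul_apply, Equiv.apply_symm_apply, Equiv.swap_apply_self]

end XPOS

open XPOS in
theorem I_POS  : StPos := by
  intro ι _ _ K n
  induction n with
  | zero =>
    intro _ i
    rfl
  | succ n ih =>
    intro hn i
    have hn' : n < K.N := by omega
    have ih := ih hn'.le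
    have ha := K.a_mem n hn'
    have hb := K.b_mem n hn'
    have hab : K.a n ≠ K.b n := fun h => hb (h ▸ ha)
    rw [pos_succ_symm, ← ih, K.S_succ n hn', mem_insert, mem_erase]
    by_cases h1 : i = K.a n
    · subst h1
      rw [Equiv.swap_apply_left]
      constructor
      · rintro (h | h)
        · exact absurd h hab
        · exact absurd rfl h.1
      · intro h
        exact absurd h hb
    · by_cases h2 : i = K.b n
      · subst h2
        rw [Equiv.swap_apply_right]
        exact ⟨fun _ => ha, fun _ => Or.inl rfl⟩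
      · rw [Equiv.swap_apply_of_ne_of_ne h1 h2]
        exact ⟨fun h => (h.resolve_left h2).2, fun h => Or.inr ⟨h1, h⟩⟩

end Pool.Agent.Work.MP_e17eac_co.DH

end

section

/-!
# Simultaneous regularisation of finitely many functions
-/

namespace Pool.Agent.Work.MP_e17eac_co.DH

open Finset

namespace XREG

/-- Pigeonhole without rounding. -/
theorem pigeon {E : Finset ℕ} (hE : E.Nonempty) (c : ℕ → ℕ) (M : ℕ) (hc : ∀ n ∈ E, c n ≤ M) :
    ∃ a, E.card ≤ (M + 1) * (E.filter (fun n => c n = a)).card ∧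
      (E.filter (fun n => c n = a)).Nonempty := by
  by_contra hcon
  push Not at hcon
  have hall : ∀ a, (M + 1) * (E.filter (fun n => c n = a)).card < E.card := by
    intro a
    by_contra h
    push Not at h
    have h0 := hcon a h
    rw [h0] at h
    simp at h
    rw [h] at hE
    exact absurd hE (by simp)
  have h1 : E.card = ∑ a ∈ range (M + 1), (E.filter (fun n => c n = a)).card := by
    apply Finset.card_eq_sum_card_fiberwise
    intro n hn
    simp only [coe_range, Set.mem_Iio]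
    have := hc n (by simpa using hn)
    omega
  have h2 : ∑ a ∈ range (M + 1), (M + 1) * (E.filter (fun n => c n = a)).card
      < ∑ a ∈ range (M + 1), E.card := by
    apply Finset.sum_lt_sum_of_nonempty
    · exact ⟨0, by simp⟩
    · intro a _
      exact hall a
  rw [← Finset.mul_sum, ← h1, Finset.sum_const, card_range, smul_eq_mul] at h2
  exact lt_irrefl _ h2

/-- One dyadic step. -/
theorem step {α : Type} [DecidableEq α] (f : ℕ → α) {E : Finset ℕ} (hE : E.Nonempty) (M : ℕ)
    (hM : Nat.log 2 E.card ≤ M) :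
    ∃ E' ⊆ E, E'.Nonempty ∧ E.card ≤ (M + 1) * E'.card ∧ ∃ a : ℕ,
      (∀ n ∈ E', (E'.filter (fun k => f k = f n)).card < 2 ^ (a + 1)) ∧
      2 ^ a * im E' f ≤ E'.card := by
  set c : ℕ → ℕ := fun n => Nat.log 2 (E.filter (fun k => f k = f n)).card with hc
  have hcM : ∀ n ∈ E, c n ≤ M := by
    intro n _
    refine le_trans ?_ hM
    exact Nat.log_mono_right (card_le_card (filter_subset _ _))
  obtain ⟨a, ha1, ha2⟩ := pigeon hE c M hcM
  have key : ∀ n ∈ E.filter (fun n => c n = a),
      (E.filter (fun n => c n = a)).filter (fun k => f k = f n) =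
        E.filter (fun k => f k = f n) := by
    intro n hn
    rw [mem_filter] at hn
    ext k
    simp only [mem_filter]
    constructor
    · rintro ⟨⟨h1, _⟩, h3⟩
      exact ⟨h1, h3⟩
    · rintro ⟨h1, h3⟩
      refine ⟨⟨h1, ?_⟩, h3⟩
      rw [← hn.2]
      simp only [hc]
      rw [h3]
  refine ⟨E.filter (fun n => c n = a), filter_subset _ _, ha2, ha1, a, ?_, ?_⟩
  · intro n hn
    rw [key n hn]
    have h2 := (mem_filter.1 hn).2
    rw [← h2]
    exact Nat.lt_pow_succ_log_self (by norm_num) _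
  · unfold im
    apply Finset.mul_card_image_le_card
    intro v hv
    obtain ⟨n, hn, rfl⟩ := mem_image.1 hv
    rw [key n hn]
    have h2 := (mem_filter.1 hn).2
    have hpos : (E.filter (fun k => f k = f n)).card ≠ 0 := by
      have : n ∈ E.filter (fun k => f k = f n) := by
        rw [mem_filter]
        exact ⟨(mem_filter.1 hn).1, rfl⟩
      exact Finset.card_ne_zero_of_mem this
    rw [← h2]
    exact Nat.pow_log_le_self 2 hpos

/-- Step 1: all functions at the same time. -/
theorem step1 {α κ : Type} [DecidableEq α] [DecidableEq κ] (f : κ → ℕ → α) {E : Finset ℕ}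
    (hE : E.Nonempty) (T : Finset κ) :
    ∃ E' ⊆ E, E'.Nonempty ∧ E.card ≤ (Nat.log 2 E.card + 1) ^ T.card * E'.card ∧
      ∀ k ∈ T, ∃ a : ℕ, (∀ n ∈ E', (E'.filter (fun i => f k i = f k n)).card < 2 ^ (a + 1)) ∧
      2 ^ a * im E' (f k) ≤ (Nat.log 2 E.card + 1) ^ T.card * E'.card := by
  induction T using Finset.induction_on with
  | empty => exact ⟨E, Subset.refl _, hE, by simp, by simp⟩
  | insert k0 T hk0 ih =>
    obtain ⟨E1, hE1, hne, hcard, hT⟩ := ih
    obtain ⟨E2, hE2, hne2, hcard2, a0, ha0, ha0'⟩ := step (f k0) hne (Nat.log 2 E.card)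
      (Nat.log_mono_right (card_le_card hE1))
    refine ⟨E2, hE2.trans hE1, hne2, ?_, ?_⟩
    · rw [card_insert_of_notMem hk0]
      calc E.card ≤ (Nat.log 2 E.card + 1) ^ T.card * E1.card := hcard
        _ ≤ (Nat.log 2 E.card + 1) ^ T.card * ((Nat.log 2 E.card + 1) * E2.card) :=
            Nat.mul_le_mul_left _ hcard2
        _ = _ := by ring
    · intro k hk
      rw [card_insert_of_notMem hk0]
      rcases mem_insert.1 hk with rfl | hk
      · refine ⟨a0, ha0, ha0'.trans ?_⟩
        exact Nat.le_mul_of_pos_left _ (by positivity)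
      · obtain ⟨a, ha, ha'⟩ := hT k hk
        refine ⟨a, ?_, ?_⟩
        · intro n hn
          refine lt_of_le_of_lt ?_ (ha n (hE2 hn))
          apply card_le_card
          intro i hi
          rw [mem_filter] at hi ⊢
          exact ⟨hE2 hi.1, hi.2⟩
        · calc 2 ^ a * im E2 (f k) ≤ 2 ^ a * im E1 (f k) := by
                apply Nat.mul_le_mul_left
                exact card_le_card (image_subset_image hE2)
            _ ≤ (Nat.log 2 E.card + 1) ^ T.card * E1.card := ha'
            _ ≤ (Nat.log 2 E.card + 1) ^ T.card * ((Nat.log 2 E.card + 1) * E2.card) :=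
                Nat.mul_le_mul_left _ hcard2
            _ = _ := by ring

theorem im_pos {α : Type} [DecidableEq α] {E : Finset ℕ} (hE : E.Nonempty) (f : ℕ → α) :
    0 < im E f := by
  unfold im
  exact card_pos.2 (hE.image f)

/-- Removing a fibre. -/
theorem im_sdiff {α : Type} [DecidableEq α] {E : Finset ℕ} (f : ℕ → α) {n : ℕ} (hn : n ∈ E) :
    im (E \ E.filter (fun k => f k = f n)) f + 1 ≤ im E f := by
  unfold im
  have h1 : (E \ E.filter (fun k => f k = f n)).image f ⊆ (E.image f).erase (f n) := by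
    intro v hv
    obtain ⟨k, hk, rfl⟩ := mem_image.1 hv
    rw [mem_sdiff, mem_filter] at hk
    rw [mem_erase]
    refine ⟨?_, mem_image_of_mem _ hk.1⟩
    intro h
    exact hk.2 ⟨hk.1, h⟩
  have h2 := card_le_card h1
  rw [card_erase_of_mem (mem_image_of_mem _ hn)] at h2
  have h3 : 0 < (E.image f).card := card_pos.2 ⟨f n, mem_image_of_mem _ hn⟩
  omega

theorem im_mono {α : Type} [DecidableEq α] {E E' : Finset ℕ} (h : E' ⊆ E) (f : ℕ → α) :
    im E' f ≤ im E f := card_le_card (image_subset_image h)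

/-- Step 2: deleting small fibres. -/
theorem step2 {α κ : Type} [DecidableEq α] [Fintype κ] (f : κ → ℕ → α) {E : Finset ℕ}
    (hE : E.Nonempty) :
    ∃ E' ⊆ E, (E.card : ℝ) ≤ 2 * E'.card ∧ ∀ k, ∀ n ∈ E',
      (E.card : ℝ) / (2 * ((Fintype.card κ : ℝ) + 1) * im E (f k)) ≤
        ((E'.filter (fun i => f k i = f k n)).card : ℝ) := by
  classical
  set w : κ → ℝ := fun k => (E.card : ℝ) / (2 * ((Fintype.card κ : ℝ) + 1) * im E (f k)) with hw
  have hF : ∀ k, (0 : ℝ) < im E (f k) := fun k => by exact_mod_cast im_pos hE (f k)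
  have hs : (0 : ℝ) ≤ (Fintype.card κ : ℝ) := by positivity
  have hw0 : ∀ k, 0 ≤ w k := fun k => by
    simp only [hw]
    have := hF k
    positivity
  let Φ : Finset ℕ → ℝ := fun X => (X.card : ℝ) + ∑ k, ((im E (f k) : ℝ) - im X (f k)) * w k
  let P : Finset (Finset ℕ) := E.powerset.filter (fun X => (E.card : ℝ) ≤ Φ X)
  have hP : P.Nonempty := ⟨E, by
    simp only [P, mem_filter, mem_powerset, Subset.refl, true_and, Φ]
    simp⟩
  obtain ⟨X, hXP, hmin⟩ := Finset.exists_min_image P (fun X => X.card) hP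
  have hX1 : X ⊆ E := mem_powerset.1 (mem_filter.1 hXP).1
  have hX2 : (E.card : ℝ) ≤ Φ X := (mem_filter.1 hXP).2
  refine ⟨X, hX1, ?_, ?_⟩
  · have h1 : ∑ k, ((im E (f k) : ℝ) - im X (f k)) * w k ≤
        ∑ k : κ, (E.card : ℝ) / (2 * ((Fintype.card κ : ℝ) + 1)) := by
      apply Finset.sum_le_sum
      intro k _
      calc ((im E (f k) : ℝ) - im X (f k)) * w k ≤ (im E (f k) : ℝ) * w k := by
            apply mul_le_mul_of_nonneg_right _ (hw0 k)
            have : (0 : ℝ) ≤ im X (f k) := by positivity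
            linarith
        _ = (E.card : ℝ) / (2 * ((Fintype.card κ : ℝ) + 1)) := by
            simp only [hw]
            have := (hF k).ne'
            field_simp
    rw [Finset.sum_const, card_univ, nsmul_eq_mul] at h1
    have h2 : (Fintype.card κ : ℝ) * ((E.card : ℝ) / (2 * ((Fintype.card κ : ℝ) + 1))) ≤
        (E.card : ℝ) / 2 := by
      rw [mul_div_assoc', div_le_div_iff₀ (by positivity) (by norm_num)]
      have : (0 : ℝ) ≤ E.card := by positivity
      nlinarith
    have h3 : (E.card : ℝ) ≤ (X.card : ℝ) + ∑ k, ((im E (f k) : ℝ) - im X (f k)) * w k := hX2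
    linarith
  · intro k n hn
    by_contra hcon
    push Not at hcon
    change ((X.filter (fun i => f k i = f k n)).card : ℝ) < w k at hcon
    set Y := X \ X.filter (fun i => f k i = f k n) with hY
    have hYX : Y ⊆ X := sdiff_subset
    have hnF : n ∈ X.filter (fun i => f k i = f k n) := mem_filter.2 ⟨hn, rfl⟩
    have hYcard : (Y.card : ℝ) = (X.card : ℝ) - (X.filter (fun i => f k i = f k n)).card := by
      rw [hY, Finset.card_sdiff_of_subset (filter_subset _ _)]
      rw [Nat.cast_sub (card_le_card (filter_subset _ _))]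
    have hlt : Y.card < X.card := by
      apply card_lt_card
      rw [Finset.ssubset_iff_of_subset hYX]
      exact ⟨n, hn, fun h => (mem_sdiff.1 h).2 hnF⟩
    have hYP : Y ∈ P := by
      simp only [P, mem_filter, mem_powerset]
      refine ⟨hYX.trans hX1, hX2.trans ?_⟩
      have h1 : ∑ j, ((im E (f j) : ℝ) - im X (f j)) * w j + w k ≤
          ∑ j, ((im E (f j) : ℝ) - im Y (f j)) * w j := by
        have h2 : ∑ j, ((im E (f j) : ℝ) - im X (f j)) * w j + w k =
            ∑ j, (((im E (f j) : ℝ) - im X (f j)) * w j + if j = k then w k else 0) := by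
          rw [Finset.sum_add_distrib]
          simp
        rw [h2]
        apply Finset.sum_le_sum
        intro j _
        by_cases hj : j = k
        · subst hj
          simp only [if_true]
          have h3 : (im Y (f j) : ℝ) + 1 ≤ im X (f j) := by
            exact_mod_cast im_sdiff (f j) hn
          have := hw0 j
          nlinarith
        · simp only [hj, if_false, add_zero]
          apply mul_le_mul_of_nonneg_right _ (hw0 j)
          have h3 : (im Y (f j) : ℝ) ≤ im X (f j) := by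
            exact_mod_cast im_mono hYX (f j)
          linarith
      change (X.card : ℝ) + ∑ j, ((im E (f j) : ℝ) - im X (f j)) * w j ≤
        (Y.card : ℝ) + ∑ j, ((im E (f j) : ℝ) - im Y (f j)) * w j
      rw [hYcard]
      linarith
    exact absurd (hmin Y hYP) (not_le.2 hlt)

end XREG

theorem I_REG : StReg := by
  intro α κ _ _ f E hE
  classical
  obtain ⟨E1, hE1, hne1, hcard1, hT⟩ := XREG.step1 f hE (Finset.univ : Finset κ)
  obtain ⟨E2, hE2, hcard2, hfib⟩ := XREG.step2 f hne1
  set s : ℝ := (Fintype.card κ : ℝ) with hs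
  set Lr : ℝ := ((Nat.log 2 E.card : ℝ) + 1) ^ (Fintype.card κ) with hLr
  have hL1 : 1 ≤ Lr := by
    rw [hLr]
    apply one_le_pow₀
    have : (0 : ℝ) ≤ (Nat.log 2 E.card : ℝ) := by positivity
    linarith
  have hs0 : 0 ≤ s := by rw [hs]; positivity
  have hE1pos : (0 : ℝ) < E1.card := by exact_mod_cast card_pos.2 hne1
  have hE2pos : (0 : ℝ) < E2.card := by linarith
  have hne2 : E2.Nonempty := by
    rw [← card_pos]
    exact_mod_cast hE2pos
  have hc1 : (E.card : ℝ) ≤ Lr * E1.card := by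
    have h : ((E.card : ℕ) : ℝ) ≤
        (((Nat.log 2 E.card + 1) ^ (Finset.univ : Finset κ).card * E1.card : ℕ) : ℝ) := by
      exact_mod_cast hcard1
    rw [card_univ] at h
    push_cast at h
    exact h
  refine ⟨E2, hE2.trans hE1, hne2, ?_, ?_⟩
  · calc (E.card : ℝ) ≤ Lr * E1.card := hc1
      _ ≤ Lr * (2 * E2.card) := by
          apply mul_le_mul_of_nonneg_left hcard2
          linarith
      _ = 2 * Lr * E2.card := by ring
  · intro k n hn
    obtain ⟨a, ha, ha'⟩ := hT k (mem_univ _)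
    have hF1 : (0 : ℝ) < im E1 (f k) := by exact_mod_cast XREG.im_pos hne1 (f k)
    have hF2 : (0 : ℝ) < im E2 (f k) := by exact_mod_cast XREG.im_pos hne2 (f k)
    have ha2 : (2 : ℝ) ^ a * im E1 (f k) ≤ Lr * E1.card := by
      have h : ((2 ^ a * im E1 (f k) : ℕ) : ℝ) ≤
          (((Nat.log 2 E.card + 1) ^ (Finset.univ : Finset κ).card * E1.card : ℕ) : ℝ) := by
        exact_mod_cast ha'
      rw [card_univ] at h
      push_cast at h
      exact h
    have hfibup : ∀ i ∈ E2, (E2.filter (fun j => f k j = f k i)).card ≤ 2 ^ (a + 1) := by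
      intro i hi
      refine le_of_lt (lt_of_le_of_lt ?_ (ha i (hE2 hi)))
      apply card_le_card
      intro j hj
      rw [mem_filter] at hj ⊢
      exact ⟨hE2 hj.1, hj.2⟩
    have hEim : (E2.card : ℝ) ≤ 2 ^ (a + 1) * im E2 (f k) := by
      have h : E2.card ≤ 2 ^ (a + 1) * im E2 (f k) := by
        unfold im
        apply Finset.card_le_mul_card_image
        intro v hv
        obtain ⟨i, hi, rfl⟩ := mem_image.1 hv
        exact hfibup i hi
      exact_mod_cast h
    have hfl := hfib k n hn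
    rw [div_le_iff₀ (by positivity)] at hfl
    set Fb : ℝ := ((E2.filter (fun i => f k i = f k n)).card : ℝ) with hFb
    have hFb0 : 0 ≤ Fb := by rw [hFb]; positivity
    have hFbup : Fb ≤ 2 ^ (a + 1) := by
      rw [hFb]
      exact_mod_cast hfibup n hn
    constructor
    · -- E2 ≤ 8 (s+1) L * Fb * im2
      have h1 : (E1.card : ℝ) * (2 ^ a * E2.card) ≤
          (Fb * (2 * (s + 1) * im E1 (f k))) * (2 ^ a * (2 ^ (a + 1) * im E2 (f k))) := by
        apply mul_le_mul hfl
        · exact mul_le_mul_of_nonneg_left hEim (by positivity)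
        · positivity
        · positivity
      have h2 : (Fb * (2 * (s + 1) * im E1 (f k))) * (2 ^ a * (2 ^ (a + 1) * im E2 (f k))) =
          (2 ^ a * im E1 (f k)) * (Fb * (2 * (s + 1)) * (2 ^ (a + 1) * im E2 (f k))) := by ring
      have h3 : (2 ^ a * im E1 (f k)) * (Fb * (2 * (s + 1)) * (2 ^ (a + 1) * im E2 (f k))) ≤
          (Lr * E1.card) * (Fb * (2 * (s + 1)) * (2 ^ (a + 1) * im E2 (f k))) := by
        apply mul_le_mul_of_nonneg_right ha2
        positivity
      have h4 : (E1.card : ℝ) * (2 ^ a * E2.card) ≤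
          (E1.card : ℝ) * (2 ^ a * (4 * (s + 1) * Lr * Fb * im E2 (f k))) := by
        calc (E1.card : ℝ) * (2 ^ a * E2.card) ≤
              (Lr * E1.card) * (Fb * (2 * (s + 1)) * (2 ^ (a + 1) * im E2 (f k))) := by
                rw [h2] at h1
                exact h1.trans h3
          _ = _ := by rw [pow_succ]; ring
      have h5 : (2 : ℝ) ^ a * E2.card ≤ 2 ^ a * (4 * (s + 1) * Lr * Fb * im E2 (f k)) :=
        le_of_mul_le_mul_left h4 hE1pos
      have h6 : (E2.card : ℝ) ≤ 4 * (s + 1) * Lr * Fb * im E2 (f k) :=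
        le_of_mul_le_mul_left h5 (by positivity)
      have h7 : 0 ≤ (s + 1) * Lr * Fb * im E2 (f k) := by positivity
      calc (E2.card : ℝ) ≤ 4 * (s + 1) * Lr * Fb * im E2 (f k) := h6
        _ ≤ 8 * (s + 1) * Lr * Fb * im E2 (f k) := by nlinarith
    · have h1 : Fb * im E2 (f k) ≤ 2 ^ (a + 1) * im E1 (f k) := by
        apply mul_le_mul hFbup _ (by positivity) (by positivity)
        exact_mod_cast XREG.im_mono hE2 (f k)
      have h2 : (2 : ℝ) ^ (a + 1) * im E1 (f k) = 2 * (2 ^ a * im E1 (f k)) := by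
        rw [pow_succ]; ring
      have h3 : Fb * im E2 (f k) ≤ 2 * (Lr * E1.card) := by
        rw [h2] at h1
        linarith
      have h4 : Lr * E1.card ≤ Lr * (2 * E2.card) := by
        apply mul_le_mul_of_nonneg_left hcard2
        linarith
      have h5 : 0 ≤ Lr * E2.card := by positivity
      have h6 : 4 * (Lr * E2.card) ≤ 8 * (s + 1) * Lr * E2.card := by nlinarith
      calc Fb * im E2 (f k) ≤ 4 * (Lr * E2.card) := by linarith
        _ ≤ 8 * (s + 1) * Lr * E2.card := h6

end Pool.Agent.Work.MP_e17eac_co.DH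

end

section

/-!
# The sandwich: the level stays close to the lines of an edge
-/

namespace Pool.Agent.Work.MP_e17eac_co.DH

open Finset

namespace XSAND

variable {ι : Type} [Fintype ι] [DecidableEq ι]

theorem prod_le {A B D E : ℝ} (hA : 0 ≤ A) (hAB : A ≤ B) (hDE : D ≤ E) (hE : 0 ≤ E) :
    A * D ≤ B * E :=
  le_trans (mul_le_mul_of_nonneg_left hDE hA) (mul_le_mul_of_nonneg_right hAB hE)

theorem exists_valid (hIdx : StIdx) (K : KSys ι) (p q : ℕ) (s0 s1 s : ℝ) (hp : K.Valid p s0)
    (hq : K.Valid q s1) (hpq : p ≤ q) (h0 : s0 ≤ s) (h1 : s ≤ s1) :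
    ∃ k, K.Valid k s ∧ p ≤ k ∧ k ≤ q := by
  have hv := (hIdx ι K).1 s
  rcases lt_or_ge (K.idx s) p with hc | hc
  · refine ⟨p, ⟨hp.1, fun k hk => le_trans (hp.2.1 k hk) h0, fun k hk hk' => ?_⟩, le_rfl, hpq⟩
    exact hv.2.2 k (by omega) hk'
  · rcases le_or_gt (K.idx s) q with hd | hd
    · exact ⟨K.idx s, hv, hc, hd⟩
    · refine ⟨q, ⟨hq.1, fun k hk => ?_, fun k hk hk' => le_trans h1 (hq.2.2 k hk hk')⟩, hpq, le_rfl⟩
      exact hv.2.1 k (by omega)

theorem lower (hPos : StPos) (hTok : StTok) (hMono : StMono) (hPath : StPath)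
    (hIdx : StIdx) (hLeq : StLeq) (K : KSys ι) (n p q : ℕ) (s0 s1 s : ℝ) (c : Bool)
    (hn : n < K.N) (hp : K.Valid p s0) (hq : K.Valid q s1) (hpn : p ≤ n) (hnq : n < q)
    (h0 : s0 ≤ s) (h1 : s ≤ s1) :
    K.ht (K.ln c n) s -
      (s1 - s0) * |K.x (K.pos p (K.tokB n)) - K.x (K.pos q (K.tokB n))| ≤ K.L s := by
  obtain ⟨k, hk, hpk, hkq⟩ := exists_valid hIdx K p q s0 s1 s hp hq (by omega) h0 h1
  obtain ⟨hβ, -, t1, t2, -, -, -⟩ := hTok ι K n hn
  obtain ⟨-, -, -, v0, v1⟩ := hLeq ι K n hn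
  have hmem : K.pos k (K.tokB n) ∈ K.S k := by
    rw [hPos ι K k hk.1]
    simpa using hβ
  have hbel : K.ht (K.pos k (K.tokB n)) s ≤ K.L s := K.below k hk.1 s hk.2.1 hk.2.2 _ hmem
  -- the index of the line
  obtain ⟨m, hm, hvm, hmn, hnm⟩ : ∃ m, K.pos m (K.tokB n) = K.ln c n ∧ K.Valid m (K.t n) ∧
      m ≤ n + 1 ∧ n ≤ m := by
    cases c
    · exact ⟨n, t1, v0, by omega, le_rfl⟩
    · exact ⟨n + 1, t2, v1, le_rfl, by omega⟩
  rw [← hm]
  have hs0 : s0 ≤ K.t n := hp.2.2 n hpn hn
  have hs1 : K.t n ≤ s1 := hq.2.1 n hnq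
  have hNq : q ≤ K.N := hq.1
  have mono := fun (i j : ℕ) (hij : i ≤ j) (hj : j ≤ K.N) =>
    (hMono ι K i j hij hj).1 (K.tokB n) hβ
  rcases le_or_gt k n with hc | hc
  · have hsn : s ≤ K.t n := hk.2.2 n hc hn
    have h4 := (hPath ι K k m s (K.t n) (K.tokB n) hβ (by omega) hk hvm hsn).2.2.2
    have e1 := mono p k hpk hk.1
    have e2 := mono m q (by omega) hNq
    have e3 : K.x (K.pos k (K.tokB n)) - K.x (K.pos m (K.tokB n)) ≤
        |K.x (K.pos p (K.tokB n)) - K.x (K.pos q (K.tokB n))| :=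
      le_trans (by linarith) (le_abs_self _)
    have := prod_le (A := K.t n - s) (B := s1 - s0) (by linarith) (by linarith) e3 (abs_nonneg _)
    linarith
  · have hsn : K.t n ≤ s := hk.2.1 n hc
    have h4 := (hPath ι K m k (K.t n) s (K.tokB n) hβ (by omega) hvm hk hsn).2.1
    have e1 := mono p m (by omega) hvm.1
    have e2 := mono k q hkq hNq
    have e3 : K.x (K.pos m (K.tokB n)) - K.x (K.pos k (K.tokB n)) ≤
        |K.x (K.pos p (K.tokB n)) - K.x (K.pos q (K.tokB n))| :=
      le_trans (by linarith) (le_abs_self _)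
    have := prod_le (A := s - K.t n) (B := s1 - s0) (by linarith) (by linarith) e3 (abs_nonneg _)
    linarith

end XSAND

theorem I_SAND (hPos : StPos) (hTok : StTok) (hMono : StMono) (hPath : StPath) (hMir : StMir)
    (hIdx : StIdx) (hLeq : StLeq) : StSand := by
  intro ι _ _ K n p q s0 s1 s c hn hp hq hpn hnq h0 h1
  refine ⟨XSAND.lower hPos hTok hMono hPath hIdx hLeq K n p q s0 s1 s c hn hp hq hpn hnq h0 h1, ?_⟩
  obtain ⟨m1, m2, -, -, m5, -, m7, -⟩ := hMir ι K
  have h := XSAND.lower hPos hTok hMono hPath hIdx hLeq K.mirror n p q s0 s1 s (!c) hn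
    ((m7 p s0).2 hp) ((m7 q s1).2 hq) hpn hnq h0 h1
  have hl : K.mirror.ln (!c) n = K.ln c n := by cases c <;> rfl
  have hx : ∀ i, K.mirror.x i = 1 - K.x i := fun _ => rfl
  have hL : K.mirror.L s = s - K.L s := rfl
  rw [hl, m1, m1, m2, m5, hx, hx, hL] at h
  have e : |(1 - K.x (K.pos p (K.tokT n))) - (1 - K.x (K.pos q (K.tokT n)))| =
      |K.x (K.pos p (K.tokT n)) - K.x (K.pos q (K.tokT n))| := by
    rw [← abs_neg]
    congr 1
    ring
  rw [e] at h
  linarith

end Pool.Agent.Work.MP_e17eac_co.DH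

end

section

/-!
# Behaviour of the tokens at an edge
-/

namespace Pool.Agent.Work.MP_e17eac_co.DH

theorem I_TOK (hPos : StPos) : StTok := by
  intro ι _ _ K n hn
  have hs : ∀ τ, K.pos (n + 1) τ = Equiv.swap (K.a n) (K.b n) (K.pos n τ) := fun τ => rfl
  have hB : K.pos n (K.tokB n) = K.a n := Equiv.apply_symm_apply _ _
  have hT : K.pos n (K.tokT n) = K.b n := Equiv.apply_symm_apply _ _
  refine ⟨(hPos ι K n hn.le _).1 (K.a_mem n hn),
    fun h => K.b_mem n hn ((hPos ι K n hn.le _).2 h), hB, ?_, hT, ?_, ?_⟩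
  · rw [hs, hB, Equiv.swap_apply_left]
  · rw [hs, hT, Equiv.swap_apply_right]
  · intro τ h1 h2
    rw [hs]
    refine Equiv.swap_apply_of_ne_of_ne (fun h => h1 ?_) (fun h => h2 ?_)
    · rw [KSys.tokB, ← h, Equiv.symm_apply_apply]
    · rw [KSys.tokT, ← h, Equiv.symm_apply_apply]

end Pool.Agent.Work.MP_e17eac_co.DH

end

section

/-!
# Supporting lines: other edges of the same token
-/

namespace Pool.Agent.Work.MP_e17eac_co.DH

open Finset

namespace XTOUCH

variable {ι : Type} [Fintype ι] [DecidableEq ι]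

/-- The line `ln c n` is the position of the bottom token of `n` at an index `m ∈ {n, n+1}`. -/
lemma index (hTok : StTok) (hLeq : StLeq) (K : KSys ι) (n : ℕ) (c : Bool) (hn : n < K.N) :
    ∃ m, n ≤ m ∧ m ≤ n + 1 ∧ K.Valid m (K.t n) ∧ K.pos m (K.tokB n) = K.ln c n := by
  obtain ⟨-, -, h1, h2, -, -, -⟩ := hTok ι K n hn
  obtain ⟨-, -, -, h3, h4⟩ := hLeq ι K n hn
  cases c with
  | false => exact ⟨n, le_refl _, Nat.le_succ _, h3, h1⟩
  | true => exact ⟨n + 1, Nat.le_succ _, le_refl _, h4, h2⟩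

/-- First half of `StTouch`. -/
lemma first (hTok : StTok) (hPath : StPath) (hLeq : StLeq) (K : KSys ι) (n n' : ℕ) (c : Bool)
    (hn : n < K.N) (hn' : n' < K.N) (hb : K.tokB n = K.tokB n') :
    K.h n' ≤ K.ht (K.ln c n) (K.t n') := by
  obtain ⟨m, hm1, hm2, hm3, hm4⟩ := index hTok hLeq K n c hn
  obtain ⟨hβ, -, h1, -, -, -, -⟩ := hTok ι K n' hn'
  obtain ⟨-, h2, h2', h3, -⟩ := hLeq ι K n' hn'
  have hm5 : K.pos m (K.tokB n') = K.ln c n := by rw [← hb]; exact hm4
  rcases lt_trichotomy n n' with h | h | h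
  · have ht : K.t n ≤ K.t n' := (K.t_lt n n' h hn').le
    have hP := (hPath ι K m n' (K.t n) (K.t n') (K.tokB n') hβ (by omega) hm3 h3 ht).1
    rw [h1, hm5, h2] at hP
    exact hP
  · subst h
    cases c with
    | false => exact h2.symm.le
    | true => exact h2'.symm.le
  · have ht : K.t n' ≤ K.t n := (K.t_lt n' n h hn).le
    have hP := (hPath ι K n' m (K.t n') (K.t n) (K.tokB n') hβ (by omega) h3 hm3 ht).2.2.1
    rw [h1, hm5, h2] at hP
    exact hP

end XTOUCH

/-- **Supporting lines**: other edges of the same token. -/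
theorem I_TOUCH (hPos : StPos) (hTok : StTok) (hMono : StMono) (hPath : StPath) (hMir : StMir)
    (hLeq : StLeq) : StTouch := by
  have _h1 := hPos
  have _h2 := hMono
  intro ι _ _ K n n' c hn hn'
  refine ⟨fun h => XTOUCH.first hTok hPath hLeq K n n' c hn hn' h, fun h => ?_⟩
  obtain ⟨-, hB, -, -, hH, hh, -, -, -, -⟩ := hMir ι K
  have h0 := XTOUCH.first hTok hPath hLeq K.mirror n n' (!c) hn hn' (by rw [hB, hB]; exact h)
  rw [hh n' hn', hH] at h0
  have e1 : K.mirror.t n' = K.t n' := rfl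
  have e2 : K.mirror.ln (!c) n = K.ln c n := by cases c <;> rfl
  rw [e1, e2] at h0
  linarith

end Pool.Agent.Work.MP_e17eac_co.DH

end
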