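import Mathlib

/-! Bundle of small proof modules (one section per former module). -/

section

/-!
# The k-level of lines with well separated slopes: basic definitions

A `KSys` is the sweep of the `k`-level of finitely many lines `y i + x i * s` (`s` = time).
The `k`-edges are numbered `0, ..., N-1` in the order of their times `t n`; at the edge `n` the
line `a n` (steeper) leaves the bottom set and the line `b n` (flatter) enters it.
-/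

namespace Pool.Agent.Work.MP_e17eac_co.DH

open Finset

/-- The sweep of a level in an arrangement of lines with slopes in `[0,1]`. -/
structure KSys (ι : Type) [Fintype ι] [DecidableEq ι] where
  x : ι → ℝ
  y : ι → ℝ
  N : ℕ
  t : ℕ → ℝ
  a : ℕ → ι
  b : ℕ → ι
  S : ℕ → Finset ι
  L : ℝ → ℝ
  x_nonneg : ∀ i, 0 ≤ x i
  x_le_one : ∀ i, x i ≤ 1
  t_lt : ∀ n k, n < k → k < N → t n < t k
  a_mem : ∀ n, n < N → a n ∈ S n
  b_mem : ∀ n, n < N → b n ∉ S n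
  S_succ : ∀ n, n < N → S (n + 1) = insert (b n) ((S n).erase (a n))
  x_lt : ∀ n, n < N → x (b n) < x (a n)
  meet : ∀ n, n < N → y (a n) + x (a n) * t n = y (b n) + x (b n) * t n
  third : ∀ n, n < N → ∀ i, i ≠ a n → i ≠ b n → y i + x i * t n ≠ y (a n) + x (a n) * t n
  below : ∀ n, n ≤ N → ∀ s, (∀ k, k < n → t k ≤ s) → (∀ k, n ≤ k → k < N → s ≤ t k) →
    ∀ i, i ∈ S n → y i + x i * s ≤ L s
  above : ∀ n, n ≤ N → ∀ s, (∀ k, k < n → t k ≤ s) → (∀ k, n ≤ k → k < N → s ≤ t k) →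
    ∀ i, i ∉ S n → L s ≤ y i + x i * s

namespace KSys

variable {ι : Type} [Fintype ι] [DecidableEq ι]

/-- Height of the line `i` at time `s`. -/
def ht (K : KSys ι) (i : ι) (s : ℝ) : ℝ := K.y i + K.x i * s

/-- Height of the level at the edge `n`. -/
def h (K : KSys ι) (n : ℕ) : ℝ := K.ht (K.a n) (K.t n)

/-- `s` is a time in the closed interval between the edges `n-1` and `n`. -/
def Valid (K : KSys ι) (n : ℕ) (s : ℝ) : Prop :=
  n ≤ K.N ∧ (∀ k, k < n → K.t k ≤ s) ∧ (∀ k, n ≤ k → k < K.N → s ≤ K.t k)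

/-- Position of the tokens: `pos n τ` is the line carrying the token `τ` just before edge `n`. -/
def pos (K : KSys ι) : ℕ → Equiv.Perm ι
  | 0 => 1
  | n + 1 => Equiv.swap (K.a n) (K.b n) * pos K n

/-- The bottom token of the edge `n` (moves from `a n` to `b n`). -/
def tokB (K : KSys ι) (n : ℕ) : ι := (K.pos n).symm (K.a n)

/-- The top token of the edge `n` (moves from `b n` to `a n`). -/
def tokT (K : KSys ι) (n : ℕ) : ι := (K.pos n).symm (K.b n)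

/-- The slopes are `1/m`-separated. -/
def Sep (K : KSys ι) (m : ℝ) : Prop := ∀ i j, i ≠ j → 1 ≤ m * |K.x i - K.x j|

open Classical in
/-- Number of edges before time `s`. -/
noncomputable def idx (K : KSys ι) (s : ℝ) : ℕ := ((range K.N).filter (fun n => K.t n < s)).card

open Classical in
/-- The edges with time in `[c - ρ, c + ρ]`. -/
noncomputable def ball (K : KSys ι) (c ρ : ℝ) : Finset ℕ :=
  (range K.N).filter (fun n => |K.t n - c| ≤ ρ)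

/-- The lines of a set of edges. -/
def lines (K : KSys ι) (E : Finset ℕ) : Finset ι := E.image K.a ∪ E.image K.b

/-- The lines visited in `[c - ρ, c + ρ]`. -/
noncomputable def vis (K : KSys ι) (c ρ : ℝ) : Finset ι := K.lines (K.ball c ρ)

/-- The two edges (as segments in the primal plane) cross, for `t n < t n'`:
`(h n' - h n) / (t n' - t n)` lies strictly between the slopes of both edges. -/
def Cross (K : KSys ι) (n n' : ℕ) : Prop :=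
  K.x (K.b n) < (K.h n' - K.h n) / (K.t n' - K.t n) ∧
  (K.h n' - K.h n) / (K.t n' - K.t n) < K.x (K.a n) ∧
  K.x (K.b n') < (K.h n' - K.h n) / (K.t n' - K.t n) ∧
  (K.h n' - K.h n) / (K.t n' - K.t n) < K.x (K.a n')

/-- The mirror image (heights `s - ht`): bottom and top are exchanged. -/
def mirror (K : KSys ι) : KSys ι where
  x i := 1 - K.x i
  y i := - K.y i
  N := K.N
  t := K.t
  a := K.b
  b := K.a
  S n := (K.S n)ᶜ
  L s := s - K.L s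
  x_nonneg i := by have := K.x_le_one i; linarith
  x_le_one i := by have := K.x_nonneg i; linarith
  t_lt := K.t_lt
  a_mem n hn := by simpa using K.b_mem n hn
  b_mem n hn := by simpa using K.a_mem n hn
  S_succ n hn := by
    have h1 := K.a_mem n hn
    have h2 := K.b_mem n hn
    have h3 : K.a n ≠ K.b n := fun h => h2 (h ▸ h1)
    rw [K.S_succ n hn]
    ext i
    simp only [mem_compl, mem_insert, mem_erase, not_or, not_and]
    constructor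
    · rintro ⟨h4, h5⟩
      by_cases hi : i = K.a n
      · exact Or.inl hi
      · exact Or.inr ⟨h4, h5 hi⟩
    · rintro (rfl | ⟨h4, h5⟩)
      · exact ⟨h3, fun h => absurd rfl h⟩
      · exact ⟨h4, fun _ => h5⟩
  x_lt n hn := by have := K.x_lt n hn; linarith
  meet n hn := by have := K.meet n hn; linarith
  third n hn i h1 h2 h3 := by
    apply K.third n hn i h2 h1
    have := K.meet n hn
    linarith
  below n hn s h1 h2 i hi := by
    have hi' : i ∉ K.S n := by simpa using hi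
    have := K.above n hn s h1 h2 i hi'
    linarith
  above n hn s h1 h2 i hi := by
    have hi' : i ∈ K.S n := by simpa using hi
    have := K.below n hn s h1 h2 i hi'
    linarith

/-- Affine change of time: new time `(t - c) / R`. -/
noncomputable def resc (K : KSys ι) (c R : ℝ) (hR : 0 < R) : KSys ι where
  x := K.x
  y i := (K.y i + K.x i * c) / R
  N := K.N
  t n := (K.t n - c) / R
  a := K.a
  b := K.b
  S := K.S
  L s := K.L (c + R * s) / R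
  x_nonneg := K.x_nonneg
  x_le_one := K.x_le_one
  t_lt n k h1 h2 := by
    have := K.t_lt n k h1 h2
    exact div_lt_div_of_pos_right (by linarith) hR
  a_mem := K.a_mem
  b_mem := K.b_mem
  S_succ := K.S_succ
  x_lt := K.x_lt
  meet n hn := by
    have := K.meet n hn
    field_simp
    linarith
  third n hn i h1 h2 h3 := by
    apply K.third n hn i h1 h2
    field_simp at h3
    linarith
  below n hn s h1 h2 i hi := by
    have h := K.below n hn (c + R * s) (fun k hk => by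
      have := h1 k hk
      rw [div_le_iff₀ hR] at this
      linarith) (fun k hk hk' => by
      have := h2 k hk hk'
      rw [le_div_iff₀ hR] at this
      linarith) i hi
    rw [le_div_iff₀ hR]
    have e : ((K.y i + K.x i * c) / R + K.x i * s) * R = K.y i + K.x i * (c + R * s) := by
      field_simp
      ring
    rw [e]
    exact h
  above n hn s h1 h2 i hi := by
    have h := K.above n hn (c + R * s) (fun k hk => by
      have := h1 k hk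
      rw [div_le_iff₀ hR] at this
      linarith) (fun k hk hk' => by
      have := h2 k hk hk'
      rw [le_div_iff₀ hR] at this
      linarith) i hi
    rw [div_le_iff₀ hR]
    have e : ((K.y i + K.x i * c) / R + K.x i * s) * R = K.y i + K.x i * (c + R * s) := by
      field_simp
      ring
    rw [e]
    exact h

/-! ### Cells -/

/-- The cell (of length `Q^{-j}`) of the edge `n`; used for edges with time in `[0,1)`. -/
noncomputable def cell (K : KSys ι) (Q j n : ℕ) : ℕ := ⌊K.t n * (Q : ℝ) ^ j⌋₊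

/-- Starting index of the cell `k` at level `j`. -/
noncomputable def ci (K : KSys ι) (Q j k : ℕ) : ℕ := K.idx ((k : ℝ) / (Q : ℝ) ^ j)

/-- Displacement (in slope) of the token `τ` during the cell `k` at level `j`. -/
noncomputable def disp (K : KSys ι) (Q j k : ℕ) (τ : ι) : ℝ :=
  |K.x (K.pos (K.ci Q j k) τ) - K.x (K.pos (K.ci Q j (k + 1)) τ)|

/-- The two lines of an edge. -/
def ln (K : KSys ι) : Bool → ℕ → ι
  | false => K.a
  | true => K.b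

/-- The two tokens of an edge. -/
def tok (K : KSys ι) : Bool → ℕ → ι
  | false => K.tokB
  | true => K.tokT

/-- The lines `i`, `i'` are within `Δ Q^{-j}` of each other on the cell `k` at level `j`. -/
def FlatP (K : KSys ι) (Q j k : ℕ) (Δ : ℝ) (i i' : ι) : Prop :=
  |K.ht i ((k : ℝ) / (Q : ℝ) ^ j) - K.ht i' ((k : ℝ) / (Q : ℝ) ^ j)| ≤ Δ / (Q : ℝ) ^ j ∧
  |K.ht i (((k : ℝ) + 1) / (Q : ℝ) ^ j) - K.ht i' (((k : ℝ) + 1) / (Q : ℝ) ^ j)| ≤ Δ / (Q : ℝ) ^ j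

end KSys

/-! ### Regular sets of edges -/

/-- Number of values of `f` on `E`. -/
def im {α : Type} [DecidableEq α] (E : Finset ℕ) (f : ℕ → α) : ℕ := (E.image f).card

/-- All fibres of `f` on `E` have about the same size (up to the factor `Λ`). -/
def RegF {α : Type} [DecidableEq α] (Λ : ℝ) (E : Finset ℕ) (f : ℕ → α) : Prop :=
  ∀ n ∈ E, (E.card : ℝ) ≤ Λ * ((E.filter (fun k => f k = f n)).card : ℝ) * (im E f : ℝ) ∧
    ((E.filter (fun k => f k = f n)).card : ℝ) * (im E f : ℝ) ≤ Λ * (E.card : ℝ)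

variable {ι : Type} [Fintype ι] [DecidableEq ι]

/-- Number of pairs (cell, line of kind `s`) at level `j`. -/
noncomputable def PL (K : KSys ι) (Q : ℕ) (E : Finset ℕ) (s : Bool) (j : ℕ) : ℕ :=
  im E (fun n => (K.cell Q j n, K.ln s n))

/-- Number of pairs (cell, token of kind `p`) at level `j`. -/
noncomputable def PT (K : KSys ι) (Q : ℕ) (E : Finset ℕ) (p : Bool) (j : ℕ) : ℕ :=
  im E (fun n => (K.cell Q j n, K.tok p n))

/-- Number of active cells at level `j`. -/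
noncomputable def PM (K : KSys ι) (Q : ℕ) (E : Finset ℕ) (j : ℕ) : ℕ :=
  im E (fun n => K.cell Q j n)

/-- Regular set of edges, with displacement classes `D p j`. -/
structure Reg (K : KSys ι) (Q J : ℕ) (E : Finset ℕ) (Λ : ℝ) (D : Bool → ℕ → ℝ) : Prop where
  sub : ∀ n ∈ E, n < K.N ∧ 0 ≤ K.t n ∧ K.t n < 1
  ne : E.Nonempty
  one_le : 1 ≤ Λ
  regM : ∀ j, j ≤ J → RegF Λ E (fun n => K.cell Q j n)
  regL : ∀ s j, j ≤ J → RegF Λ E (fun n => (K.cell Q j n, K.ln s n))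
  regT : ∀ p j, j ≤ J → RegF Λ E (fun n => (K.cell Q j n, K.tok p n))
  dlo : ∀ p j, j ≤ J → ∀ n ∈ E, D p j ≤ K.disp Q j (K.cell Q j n) (K.tok p n)
  dhi : ∀ p j, j ≤ J → ∀ n ∈ E, K.disp Q j (K.cell Q j n) (K.tok p n) < 2 * D p j

end Pool.Agent.Work.MP_e17eac_co.DH

end

section

/-!
# Abstract exponent inequalities for the k-edge bound (dense sets)

`s : Bool` indexes the two kinds of lines of an edge (steeper / flatter line), `p : Bool` indexes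
the two kinds of tokens (bottom / top).
-/

namespace Pool.Agent.Work.MP_e17eac_co.DH

/-- The system of (logarithmic) inequalities satisfied by a near-extremal configuration. -/
structure ExpData (J : ℕ) (δ e e1 : ℝ) (μ : ℕ → ℝ) (A Θ d : Bool → ℕ → ℝ) : Prop where
  hδ : 0 < δ
  he : 0 ≤ e
  he10 : 10 * e ≤ δ
  he1 : 0 ≤ e1
  hJ : (J : ℝ) * e1 ≤ δ
  mu0 : μ 0 ≤ e
  A0l : ∀ s, -e ≤ A s 0
  A0u : ∀ s, A s 0 ≤ e
  T0l : ∀ p, -e ≤ Θ p 0
  d0 : ∀ p j, j ≤ J → 0 ≤ d p j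
  mumono : ∀ i j, i ≤ j → j ≤ J → μ i ≤ μ j
  Amono : ∀ s i j, i ≤ j → j ≤ J → A s i ≤ A s j
  Tmono : ∀ p i j, i ≤ j → j ≤ J → Θ p i ≤ Θ p j
  dmono : ∀ p i j, i ≤ j → j ≤ J → d p i ≤ d p j + e
  muinc : ∀ j, j < J → μ (j + 1) ≤ μ j + δ
  Ainc : ∀ s j, j < J → A s (j + 1) ≤ A s j + δ
  Tinc : ∀ p j, j < J → Θ p (j + 1) ≤ Θ p j + δ
  h1 : ∀ p j, j ≤ J → Θ p j ≤ d p j + e
  h2 : ∀ j, j ≤ J → μ j ≤ A false j + A true j + Θ false j + Θ true j + e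
  h3A : ∀ s j, j ≤ J → 2 * A s j ≤ μ j - min (d false j) (d true j) + e
  h3T : ∀ p j, j ≤ J → 2 * Θ p j ≤ μ j - min (d false j) (d true j) + e
  h3a : ∀ s i j, i ≤ j → j ≤ J → A s 0 + 5 * δ ≤ A s i →
    A s j ≤ μ j - min (d false j) (d true j) - ((j : ℝ) - i) * δ / 2 + e
  h3b : ∀ s p i j, i ≤ j → j < J → A s 0 + 5 * δ ≤ A s i → Θ p j + e1 < Θ p (j + 1) →
    A s j ≤ μ j - d p j - ((j : ℝ) - i) * δ / 2 + 7 * δ
  h3c : ∀ s q i j, i ≤ j → j < J → A s 0 + 5 * δ ≤ A s i → A q j + e1 < A q (j + 1) →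
    A s j ≤ μ j - max (d false j) (d true j) - ((j : ℝ) - i) * δ / 2 + 7 * δ
  h3d : ∀ s i j, i ≤ j → j < J → A s 0 + 5 * δ ≤ A s i → A s j + e1 < A s (j + 1) →
    2 * A s j ≤ μ j - ((j : ℝ) - i) * δ / 2 + 7 * δ
  hS : ∀ s i j l, i ≤ j → j ≤ l → l ≤ J → A s 0 + 5 * δ ≤ A s i →
    ((j : ℝ) - i) * δ + min (d false j) (d true j) ≤ d false l →
    (Θ false l - d false l) - Θ false j + ((j : ℝ) - i) * δ + min (d false j) (d true j) ≤
      -min (d false j) (d true j) + μ j - A s j + e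
  h6 : 69000 * δ ≤ μ J

end Pool.Agent.Work.MP_e17eac_co.DH

end

section

/-!
# Statements, block 1: the sweep, tokens, the crossing bound
-/

namespace Pool.Agent.Work.MP_e17eac_co.DH

open Finset

/-- The bottom set is the image of the initial bottom set under the token permutation. -/
def StPos : Prop := ∀ (ι : Type) [Fintype ι] [DecidableEq ι] (K : KSys ι) (n : ℕ), n ≤ K.N →
  ∀ i, i ∈ K.S n ↔ (K.pos n).symm i ∈ K.S 0

/-- Behaviour of the tokens at an edge. -/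
def StTok : Prop := ∀ (ι : Type) [Fintype ι] [DecidableEq ι] (K : KSys ι) (n : ℕ), n < K.N →
  K.tokB n ∈ K.S 0 ∧ K.tokT n ∉ K.S 0 ∧
  K.pos n (K.tokB n) = K.a n ∧ K.pos (n + 1) (K.tokB n) = K.b n ∧
  K.pos n (K.tokT n) = K.b n ∧ K.pos (n + 1) (K.tokT n) = K.a n ∧
  ∀ τ, τ ≠ K.tokB n → τ ≠ K.tokT n → K.pos (n + 1) τ = K.pos n τ

/-- Slopes of bottom tokens decrease, slopes of top tokens increase. -/
def StMono : Prop := ∀ (ι : Type) [Fintype ι] [DecidableEq ι] (K : KSys ι) (n n' : ℕ), n ≤ n' →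
  n' ≤ K.N → (∀ τ, τ ∈ K.S 0 → K.x (K.pos n' τ) ≤ K.x (K.pos n τ)) ∧
    (∀ τ, τ ∉ K.S 0 → K.x (K.pos n τ) ≤ K.x (K.pos n' τ))

/-- The path of a bottom token is concave: bounds by the supporting lines. -/
def StPath : Prop := ∀ (ι : Type) [Fintype ι] [DecidableEq ι] (K : KSys ι) (n n' : ℕ) (u s : ℝ)
  (τ : ι), τ ∈ K.S 0 → n ≤ n' → K.Valid n u → K.Valid n' s → u ≤ s →
  K.ht (K.pos n' τ) s ≤ K.ht (K.pos n τ) s ∧
  K.ht (K.pos n τ) s - (s - u) * (K.x (K.pos n τ) - K.x (K.pos n' τ)) ≤ K.ht (K.pos n' τ) s ∧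
  K.ht (K.pos n τ) u ≤ K.ht (K.pos n' τ) u ∧
  K.ht (K.pos n' τ) u - (s - u) * (K.x (K.pos n τ) - K.x (K.pos n' τ)) ≤ K.ht (K.pos n τ) u

/-- The mirror image. -/
def StMir : Prop := ∀ (ι : Type) [Fintype ι] [DecidableEq ι] (K : KSys ι),
  (∀ n, K.mirror.pos n = K.pos n) ∧ (∀ n, K.mirror.tokB n = K.tokT n) ∧
  (∀ n, K.mirror.tokT n = K.tokB n) ∧ (∀ s, K.mirror.idx s = K.idx s) ∧
  (∀ i s, K.mirror.ht i s = s - K.ht i s) ∧ (∀ n, n < K.N → K.mirror.h n = K.t n - K.h n) ∧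
  (∀ n s, K.mirror.Valid n s ↔ K.Valid n s) ∧ (∀ Q j n, K.mirror.cell Q j n = K.cell Q j n) ∧
  (∀ Q j k τ, K.mirror.disp Q j k τ = K.disp Q j k τ) ∧
  (∀ m, K.Sep m → K.mirror.Sep m)

/-- Basic properties of `idx`. -/
def StIdx : Prop := ∀ (ι : Type) [Fintype ι] [DecidableEq ι] (K : KSys ι),
  (∀ s, K.Valid (K.idx s) s) ∧ (∀ n s, n < K.idx s ↔ n < K.N ∧ K.t n < s) ∧
  (∀ s s', s ≤ s' → K.idx s ≤ K.idx s') ∧ (∀ s, K.idx s ≤ K.N)

/-- The level at an edge. -/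
def StLeq : Prop := ∀ (ι : Type) [Fintype ι] [DecidableEq ι] (K : KSys ι) (n : ℕ), n < K.N →
  K.L (K.t n) = K.h n ∧ K.ht (K.a n) (K.t n) = K.h n ∧ K.ht (K.b n) (K.t n) = K.h n ∧
  K.Valid n (K.t n) ∧ K.Valid (n + 1) (K.t n)

/-- **Sandwich**: during a time interval the level stays close to the lines of an edge. -/
def StSand : Prop := ∀ (ι : Type) [Fintype ι] [DecidableEq ι] (K : KSys ι) (n p q : ℕ)
  (s0 s1 s : ℝ) (c : Bool), n < K.N → K.Valid p s0 → K.Valid q s1 → p ≤ n → n < q → s0 ≤ s →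
  s ≤ s1 →
  K.ht (K.ln c n) s - (s1 - s0) * |K.x (K.pos p (K.tokB n)) - K.x (K.pos q (K.tokB n))| ≤ K.L s ∧
  K.L s ≤ K.ht (K.ln c n) s + (s1 - s0) * |K.x (K.pos p (K.tokT n)) - K.x (K.pos q (K.tokT n))|

/-- Supporting lines: other edges of the same token. -/
def StTouch : Prop := ∀ (ι : Type) [Fintype ι] [DecidableEq ι] (K : KSys ι) (n n' : ℕ) (c : Bool),
  n < K.N → n' < K.N →
  (K.tokB n = K.tokB n' → K.h n' ≤ K.ht (K.ln c n) (K.t n')) ∧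
  (K.tokT n = K.tokT n' → K.ht (K.ln c n) (K.t n') ≤ K.h n')

/-- The line carrying a token at the start of a time interval. -/
def StStart : Prop := ∀ (ι : Type) [Fintype ι] [DecidableEq ι] (K : KSys ι) (p q : ℕ)
  (s0 s1 s : ℝ) (i : ι), K.Valid p s0 → K.Valid q s1 → p ≤ q → s0 ≤ s → s ≤ s1 →
  (i ∈ K.S p → K.ht i s - (s1 - s0) * |K.x i - K.x (K.pos q ((K.pos p).symm i))| ≤ K.L s) ∧
  (i ∉ K.S p → K.L s ≤ K.ht i s + (s1 - s0) * |K.x i - K.x (K.pos q ((K.pos p).symm i))|)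

/-- Start lines of the tokens of an edge are close to the level. -/
def StSflat : Prop := ∀ (ι : Type) [Fintype ι] [DecidableEq ι] (K : KSys ι) (n p q : ℕ)
  (s0 s1 s : ℝ), n < K.N → K.Valid p s0 → K.Valid q s1 → p ≤ n → n < q → s0 ≤ s → s ≤ s1 →
  |K.ht (K.pos p (K.tokB n)) s - K.L s| ≤
    (s1 - s0) * (|K.x (K.pos p (K.tokB n)) - K.x (K.pos q (K.tokB n))| +
      |K.x (K.pos p (K.tokT n)) - K.x (K.pos q (K.tokT n))|) ∧
  |K.ht (K.pos p (K.tokT n)) s - K.L s| ≤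
    (s1 - s0) * (|K.x (K.pos p (K.tokB n)) - K.x (K.pos q (K.tokB n))| +
      |K.x (K.pos p (K.tokT n)) - K.x (K.pos q (K.tokT n))|)

/-- The level is monotone and 1-Lipschitz. -/
def StLip : Prop := ∀ (ι : Type) [Fintype ι] [DecidableEq ι] (K : KSys ι) (n n' : ℕ), n ≤ n' →
  n' < K.N → 0 ≤ K.h n' - K.h n ∧ K.h n' - K.h n ≤ K.t n' - K.t n

/-- Total displacement of a token. -/
def StFlux : Prop := ∀ (ι : Type) [Fintype ι] [DecidableEq ι] (K : KSys ι) (p : ℕ → ℕ),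
  Monotone p → (∀ i, p i ≤ K.N) → ∀ (τ : ι) (k : ℕ),
  ∑ i ∈ range k, |K.x (K.pos (p i) τ) - K.x (K.pos (p (i + 1)) τ)| ≤ 1

/-- The displacement is at least the jump. -/
def StJump : Prop := ∀ (ι : Type) [Fintype ι] [DecidableEq ι] (K : KSys ι) (n p q : ℕ),
  n < K.N → p ≤ n → n < q → q ≤ K.N →
  K.x (K.a n) - K.x (K.b n) ≤ |K.x (K.pos p (K.tokB n)) - K.x (K.pos q (K.tokB n))| ∧
  K.x (K.a n) - K.x (K.b n) ≤ |K.x (K.pos p (K.tokT n)) - K.x (K.pos q (K.tokT n))|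

/-- Counting lines with separated slopes. -/
def StSep : Prop := ∀ (ι : Type) [Fintype ι] [DecidableEq ι] (K : KSys ι) (m : ℝ), 0 < m →
  K.Sep m → (∀ (G : Finset ι) (lam : ℝ), 0 ≤ lam → (∀ i ∈ G, ∀ i' ∈ G, |K.x i - K.x i'| ≤ lam) →
    (G.card : ℝ) ≤ m * lam + 1) ∧ (Fintype.card ι : ℝ) ≤ m + 1

/-! ### Crossings -/

/-- A crossing pair is determined by the bottom token of the earlier and the top token of the
later edge. -/
def StCinj : Prop := ∀ (ι : Type) [Fintype ι] [DecidableEq ι] (K : KSys ι) (n n' k k' : ℕ),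
  n < n' → n' < K.N → k < k' → k' < K.N → K.Cross n n' → K.Cross k k' →
  K.tokB n = K.tokB k → K.tokT n' = K.tokT k' → n = k ∧ n' = k'

open Classical in
/-- The crossing pairs of a set of edges. -/
noncomputable def crossPairs {ι : Type} [Fintype ι] [DecidableEq ι] (K : KSys ι) (E : Finset ℕ) :
    Finset (ℕ × ℕ) := (E ×ˢ E).filter (fun z => z.1 < z.2 ∧ K.Cross z.1 z.2)

def StCcnt : Prop := ∀ (ι : Type) [Fintype ι] [DecidableEq ι] (K : KSys ι) (E : Finset ℕ),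
  (∀ n ∈ E, n < K.N) → (crossPairs K E).card ≤ (E.image K.tokB).card * (E.image K.tokT).card

/-- A plane straight line graph has at most `4 |V|` edges (elementary, no Euler formula).
Points `(x i, y i)` with different abscissae; the edge `(u, v)`, `x u < x v`, is the segment. -/
def StPlanar : Prop := ∀ (ι : Type) [Fintype ι] [DecidableEq ι] (x y : ι → ℝ),
  Function.Injective x → ∀ (F : Finset (ι × ι)) (V : Finset ι),
  (∀ e ∈ F, e.1 ∈ V ∧ e.2 ∈ V ∧ x e.1 < x e.2) →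
  (∀ e ∈ F, ∀ w ∈ V, x e.1 < x w → x w < x e.2 →
    (y w - y e.1) * (x e.2 - x e.1) ≠ (y e.2 - y e.1) * (x w - x e.1)) →
  (∀ e ∈ F, ∀ f ∈ F, e ≠ f → ∀ X : ℝ, x e.1 < X → X < x e.2 → x f.1 < X → X < x f.2 →
    y e.1 + (y e.2 - y e.1) / (x e.2 - x e.1) * (X - x e.1) ≠
      y f.1 + (y f.2 - y f.1) / (x f.2 - x f.1) * (X - x f.1)) →
  F.card ≤ 4 * V.card

/-- Edges without crossings. -/
def StPl : Prop := ∀ (ι : Type) [Fintype ι] [DecidableEq ι] (K : KSys ι), Function.Injective K.x →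
  ∀ (E : Finset ℕ), (∀ n ∈ E, n < K.N) → (∀ n ∈ E, ∀ n' ∈ E, n < n' → ¬ K.Cross n n') →
  E.card ≤ 4 * (K.lines E).card

/-- Crossing lemma (two sampling probabilities `1/s`, `1/s'`). -/
def StCrl : Prop := ∀ (ι : Type) [Fintype ι] [DecidableEq ι] (K : KSys ι), Function.Injective K.x →
  ∀ (E : Finset ℕ), (∀ n ∈ E, n < K.N) → ∀ (s s' : ℕ), 1 ≤ s → 1 ≤ s' →
  E.card * s * s' ≤ 4 * ((E.image K.a).card * s * s' ^ 2 + (E.image K.b).card * s ^ 2 * s') +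
    (crossPairs K E).card

/-- Dey type bound for any set of edges. -/
def StDey : Prop := ∀ (ι : Type) [Fintype ι] [DecidableEq ι] (K : KSys ι), Function.Injective K.x →
  ∀ (E : Finset ℕ), (∀ n ∈ E, n < K.N) → 16 * (E.image K.a).card ≤ E.card →
  16 * (E.image K.b).card ≤ E.card →
  E.card ^ 3 ≤ 2048 * ((E.image K.a).card * (E.image K.b).card *
    ((E.image K.tokB).card * (E.image K.tokT).card))

/-- Dey's bound for all edges in a time interval. -/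
def StDeyI : Prop := ∀ (ι : Type) [Fintype ι] [DecidableEq ι] (K : KSys ι),
  Function.Injective K.x → ∀ (p q : ℕ), q ≤ K.N →
  (Ico p q).card ^ 3 ≤ 4096 * (K.lines (Ico p q)).card ^ 4

/-- A ball is an interval of indices. -/
def StBall : Prop := ∀ (ι : Type) [Fintype ι] [DecidableEq ι] (K : KSys ι) (c ρ : ℝ),
  ∃ p q, q ≤ K.N ∧ K.ball c ρ = Ico p q

/-- **Fan lemma.** If all but `u` of the lines visited in the large ball are visited in the small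
ball, then few edges lie in the large ball away from the small one. -/
def StFan : Prop := ∀ (ι : Type) [Fintype ι] [DecidableEq ι] (K : KSys ι) (m : ℝ), 1 ≤ m →
  K.Sep m → ∀ (c ρ R : ℝ), 0 ≤ ρ →
  ((K.ball c R).filter (fun n => 4 * m * ρ < |K.t n - c|)).card ^ 3 ≤
    2 ^ 19 * (K.vis c R \ K.vis c ρ).card ^ 4

/-! ### Regularisation -/

/-- Simultaneous regularisation of finitely many functions. -/
def StReg : Prop := ∀ (α κ : Type) [DecidableEq α] [Fintype κ] (f : κ → ℕ → α) (E : Finset ℕ),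
  E.Nonempty → ∃ E' ⊆ E, E'.Nonempty ∧
    (E.card : ℝ) ≤ 2 * ((Nat.log 2 E.card : ℝ) + 1) ^ (Fintype.card κ) * E'.card ∧
    ∀ k, RegF (8 * ((Fintype.card κ : ℝ) + 1) *
      ((Nat.log 2 E.card : ℝ) + 1) ^ (Fintype.card κ)) E' (f k)

/-- Dyadic classes of finitely many real functions. -/
def StDcl : Prop := ∀ (κ : Type) [Fintype κ] (v : κ → ℕ → ℝ) (E : Finset ℕ) (g : ℕ),
  E.Nonempty → (∀ k, ∀ n ∈ E, (1 : ℝ) / 2 ^ g ≤ v k n ∧ v k n ≤ 1) →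
  ∃ E' ⊆ E, E'.Nonempty ∧ E.card ≤ (g + 1) ^ (Fintype.card κ) * E'.card ∧
    ∃ D : κ → ℝ, ∀ k, ∀ n ∈ E', D k ≤ v k n ∧ v k n < 2 * D k

/-- Number of values of a finer function in a fibre of a coarser one. -/
def StCnt : Prop := ∀ (α β : Type) [DecidableEq α] [DecidableEq β] (Λ : ℝ) (E : Finset ℕ)
  (f : ℕ → α) (g : ℕ → β), 1 ≤ Λ → RegF Λ E f → RegF Λ E g →
  (∀ n ∈ E, ∀ k ∈ E, g n = g k → f n = f k) → ∀ n ∈ E,
  (im E g : ℝ) ≤ Λ ^ 2 * (im (E.filter (fun k => f k = f n)) g : ℝ) * (im E f : ℝ) ∧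
  (im (E.filter (fun k => f k = f n)) g : ℝ) * (im E f : ℝ) ≤ Λ ^ 2 * (im E g : ℝ)

/-- Existence of a regular subset. -/
def StRegEx : Prop := ∀ (ι : Type) [Fintype ι] [DecidableEq ι] (K : KSys ι) (m : ℝ), 2 ≤ m →
  K.Sep m → ∀ (Q J : ℕ), 2 ≤ Q → ∀ (E : Finset ℕ), E.Nonempty →
  (∀ n ∈ E, n < K.N ∧ 0 ≤ K.t n ∧ K.t n < 1) →
  ∃ E' ⊆ E, ∃ D : Bool → ℕ → ℝ,
    Reg K Q J E' (40 * (J + 1) * (8 * (1 + Real.log m)) ^ (7 * (J + 1))) D ∧
    (E.card : ℝ) ≤ (40 * (J + 1) * (8 * (1 + Real.log m)) ^ (7 * (J + 1))) * E'.card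

end Pool.Agent.Work.MP_e17eac_co.DH

end

section

/-!
# Statements, block 2: inequalities for regular sets of edges
-/

namespace Pool.Agent.Work.MP_e17eac_co.DH

open Finset

/-- Consequences of flatness for the slopes. -/
def StFlatX : Prop := ∀ (ι : Type) [Fintype ι] [DecidableEq ι] (K : KSys ι) (Q j k : ℕ) (Δ : ℝ)
  (i i' : ι), 1 ≤ Q → K.FlatP Q j k Δ i i' → |K.x i - K.x i'| ≤ 2 * Δ ∧
  ∀ k' : ℕ, K.FlatP Q j k' Δ i i' → |K.x i - K.x i'| * |(k : ℝ) - k'| ≤ 2 * Δ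

/-- Lines of edges of `E` in the same cell are close. -/
def StFlat0 : Prop := ∀ (ι : Type) [Fintype ι] [DecidableEq ι] (K : KSys ι) (Q J : ℕ)
  (E : Finset ℕ) (Λ : ℝ) (D : Bool → ℕ → ℝ), 1 ≤ Q → Reg K Q J E Λ D → ∀ j, j ≤ J →
  ∀ n ∈ E, ∀ n' ∈ E, K.cell Q j n = K.cell Q j n' → ∀ c c' : Bool,
    K.FlatP Q j (K.cell Q j n) (4 * max (D false j) (D true j)) (K.ln c n) (K.ln c' n')

/-- Start lines of the tokens of edges of `E` in the same cell are close. -/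
def StFlatS : Prop := ∀ (ι : Type) [Fintype ι] [DecidableEq ι] (K : KSys ι) (Q J : ℕ)
  (E : Finset ℕ) (Λ : ℝ) (D : Bool → ℕ → ℝ), 1 ≤ Q → Reg K Q J E Λ D → ∀ j, j ≤ J →
  ∀ n ∈ E, ∀ n' ∈ E, K.cell Q j n = K.cell Q j n' → ∀ p p' : Bool,
    K.FlatP Q j (K.cell Q j n) (8 * max (D false j) (D true j))
      (K.pos (K.ci Q j (K.cell Q j n)) (K.tok p n)) (K.pos (K.ci Q j (K.cell Q j n)) (K.tok p' n'))

/-- The displacement classes are between `1/(2m)` and `1`. -/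
def StDrange : Prop := ∀ (ι : Type) [Fintype ι] [DecidableEq ι] (K : KSys ι) (m : ℝ) (Q J : ℕ)
  (E : Finset ℕ) (Λ : ℝ) (D : Bool → ℕ → ℝ), 0 < m → K.Sep m → 1 ≤ Q → Reg K Q J E Λ D →
  ∀ p j, j ≤ J → D p j ≤ 1 ∧ 1 ≤ 2 * m * D p j ∧ ∀ i, i ≤ j → D p j ≤ 2 * D p i

/-- Counting of cells with many lines (Cordoba's argument, all distances). -/
def StCord : Prop := ∀ (ι : Type) [Fintype ι] [DecidableEq ι] (K : KSys ι) (m Δ g : ℝ) (R : ℕ)
  (𝒦 : Finset ℕ) (G : ℕ → Finset ι), 1 ≤ m → K.Sep m → 1 ≤ m * Δ → Δ ≤ 8 → 0 ≤ g →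
  (∀ k ∈ 𝒦, k < R) → (∀ k ∈ 𝒦, g ≤ ((G k).card : ℝ)) →
  (∀ k ∈ 𝒦, ∀ i ∈ G k, ∀ i' ∈ G k, |K.x i - K.x i'| ≤ 2 * Δ) →
  (∀ k ∈ 𝒦, ∀ k' ∈ 𝒦, k ≠ k' → ∀ i, i ∈ G k → i ∈ G k' → ∀ i', i' ∈ G k → i' ∈ G k' →
    |K.x i - K.x i'| * |(k : ℝ) - k'| ≤ 2 * Δ) →
  (𝒦.card : ℝ) * g ^ 2 ≤ 288 * (3 + Real.log R) * m ^ 2 * Δ + 8 * m * Δ * 𝒦.card

/-- `StCord` applied to lines and to start lines of tokens. -/
def StStar : Prop := ∀ (ι : Type) [Fintype ι] [DecidableEq ι] (K : KSys ι) (m : ℝ) (Q J : ℕ)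
  (E : Finset ℕ) (Λ : ℝ) (D : Bool → ℕ → ℝ), 1 ≤ m → K.Sep m → 1 ≤ Q → Reg K Q J E Λ D →
  ∀ j, j ≤ J →
  (∀ s, (PL K Q E s j : ℝ) ^ 2 ≤ Λ ^ 4 * PM K Q E j *
    (2304 * (3 + j * Real.log Q) * m ^ 2 * max (D false j) (D true j) +
      64 * m * max (D false j) (D true j) * PM K Q E j)) ∧
  (∀ p, (PT K Q E p j : ℝ) ^ 2 ≤ Λ ^ 4 * PM K Q E j *
    (2304 * (3 + j * Real.log Q) * m ^ 2 * max (D false j) (D true j) +
      64 * m * max (D false j) (D true j) * PM K Q E j))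

/-- Flux: the total displacement of the active tokens is at most the number of tokens. -/
def StFlux1 : Prop := ∀ (ι : Type) [Fintype ι] [DecidableEq ι] (K : KSys ι) (m : ℝ) (Q J : ℕ)
  (E : Finset ℕ) (Λ : ℝ) (D : Bool → ℕ → ℝ), 0 < m → K.Sep m → 1 ≤ Q → Reg K Q J E Λ D →
  ∀ p j, j ≤ J → (PT K Q E p j : ℝ) * D p j ≤ m + 1

/-- Dey's bound in a cell. -/
def StDey2 : Prop := ∀ (ι : Type) [Fintype ι] [DecidableEq ι] (K : KSys ι) (m : ℝ) (Q J : ℕ)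
  (E : Finset ℕ) (Λ : ℝ) (D : Bool → ℕ → ℝ), 0 < m → K.Sep m → 1 ≤ Q → Reg K Q J E Λ D →
  ∀ j, j ≤ J → 16 * Λ ^ 3 * PL K Q E false j ≤ E.card → 16 * Λ ^ 3 * PL K Q E true j ≤ E.card →
  (PM K Q E j : ℝ) * (E.card : ℝ) ^ 3 ≤
    2048 * Λ ^ 11 * (PL K Q E false j * PL K Q E true j * (PT K Q E false j * PT K Q E true j))

/-- Monotonicity in the level, and at most `Q` children. -/
def StInc : Prop := ∀ (ι : Type) [Fintype ι] [DecidableEq ι] (K : KSys ι) (Q : ℕ)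
  (E : Finset ℕ), 1 ≤ Q → (∀ n ∈ E, 0 ≤ K.t n ∧ K.t n < 1) →
  (∀ j, PM K Q E j ≤ PM K Q E (j + 1) ∧ PM K Q E (j + 1) ≤ Q * PM K Q E j) ∧
  (∀ s j, PL K Q E s j ≤ PL K Q E s (j + 1) ∧ PL K Q E s (j + 1) ≤ Q * PL K Q E s j) ∧
  (∀ p j, PT K Q E p j ≤ PT K Q E p (j + 1) ∧ PT K Q E p (j + 1) ≤ Q * PT K Q E p j) ∧
  (∀ j, PM K Q E j ≤ Q ^ j) ∧ PM K Q E 0 ≤ 1 ∧
  (∀ s, PL K Q E s 0 ≤ Fintype.card ι) ∧ (∀ p, PT K Q E p 0 ≤ Fintype.card ι) ∧
  (∀ s j, PL K Q E s j ≤ PM K Q E j * Fintype.card ι) ∧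
  (∀ p j, PT K Q E p j ≤ PM K Q E j * Fintype.card ι)

/-- Counting with far pairs. -/
def StFar : Prop := ∀ (ι : Type) [Fintype ι] [DecidableEq ι] (K : KSys ι) (m : ℝ) (Q J : ℕ)
  (E : Finset ℕ) (Λ : ℝ) (D : Bool → ℕ → ℝ), 1 ≤ m → K.Sep m → 1 ≤ Q → Reg K Q J E Λ D →
  ∀ (s : Bool) (i j : ℕ), i ≤ j → j ≤ J → ∀ (E2 : Finset ℕ) (θ Δ : ℝ), E2 ⊆ E → 0 < θ → θ ≤ 1 →
  0 ≤ Δ → θ * E.card ≤ E2.card →
  (∀ n ∈ E2, ∀ n' ∈ E2, K.cell Q j n = K.cell Q j n' →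
    K.FlatP Q j (K.cell Q j n) Δ (K.ln s n) (K.ln s n')) →
  48 * Λ ^ 5 * PL K Q E s 0 ≤ θ ^ 2 * PL K Q E s i →
  θ ^ 5 * (PL K Q E s j : ℝ) ^ 2 ≤ 64 * Λ ^ 10 * (PM K Q E j : ℝ) ^ 2 * (8 * m * Δ + 1) *
    (2 * m * Δ / (Q : ℝ) ^ (j - i) + 1)

/-- **Contact lemma** (pure analysis of two affine functions). -/
def StContact : Prop := ∀ (u v u' v' c w s0 s1 s t s' t' : ℝ) (L : ℝ → ℝ), 0 ≤ c → 0 < w →
  (∀ r, s0 ≤ r → r ≤ s1 → u + v * r ≤ L r + c) → (∀ r, s0 ≤ r → r ≤ s1 → u' + v' * r ≤ L r + c) →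
  s0 ≤ s → s ≤ s1 → s0 ≤ t → t ≤ s1 → s0 ≤ s' → s' ≤ s1 → s0 ≤ t' → t' ≤ s1 →
  s + w ≤ s' → s + w ≤ t' → t + w ≤ s' → t + w ≤ t' →
  L s ≤ u + v * s → L s' ≤ u + v * s' → L t ≤ u' + v' * t → L t' ≤ u' + v' * t' →
  ∀ r, s0 ≤ r → r ≤ s1 → |(u + v * r) - (u' + v' * r)| ≤ c + 2 * c * (s1 - s0) / w

/-- Popular pair of children (pigeonhole). `g n` is a pair of numbers `< Q`. -/
def StPop : Prop := ∀ (Q : ℕ) (E : Finset ℕ) (f : ℕ → ℕ) (g : ℕ → ℕ × ℕ), 1 ≤ Q →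
  (∀ n ∈ E, (g n).1 < Q ∧ (g n).2 < Q) →
  ∃ E2 ⊆ E, E.card ≤ Q ^ 2 * E2.card ∧ ∀ n ∈ E2, ∀ n' ∈ E2, f n = f n' → g n = g n'

/-- Branching of lines: flatness by the smaller displacement. -/
def StBrL : Prop := ∀ (ι : Type) [Fintype ι] [DecidableEq ι] (K : KSys ι) (Q J : ℕ)
  (E : Finset ℕ) (Λ : ℝ) (D : Bool → ℕ → ℝ), 2 ≤ Q → Reg K Q J E Λ D → ∀ (s : Bool) (j : ℕ),
  j + 1 ≤ J → 3 * Λ ^ 2 * PL K Q E s j ≤ PL K Q E s (j + 1) →
  ∃ E2 ⊆ E, E.card ≤ Q ^ 2 * E2.card ∧ ∀ c : Bool, ∀ n ∈ E2, ∀ n' ∈ E2,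
    K.cell Q j n = K.cell Q j n' →
    K.FlatP Q j (K.cell Q j n) (8 * Q * min (D false j) (D true j)) (K.ln c n) (K.ln c n')

/-- Branching of tokens of kind `p`: flatness by their displacement. -/
def StBrT : Prop := ∀ (ι : Type) [Fintype ι] [DecidableEq ι] (K : KSys ι) (Q J : ℕ)
  (E : Finset ℕ) (Λ : ℝ) (D : Bool → ℕ → ℝ), 2 ≤ Q → Reg K Q J E Λ D → ∀ (p : Bool) (j : ℕ),
  j + 1 ≤ J → 3 * Λ ^ 2 * PT K Q E p j ≤ PT K Q E p (j + 1) →
  ∃ E2 ⊆ E, E.card ≤ Q ^ 2 * E2.card ∧ ∀ c : Bool, ∀ n ∈ E2, ∀ n' ∈ E2,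
    K.cell Q j n = K.cell Q j n' →
    K.FlatP Q j (K.cell Q j n) (6 * Q * D p j) (K.ln c n) (K.ln c n')

/-- Branching of lines: flatness by the displacement of the start tokens. -/
def StBrS : Prop := ∀ (ι : Type) [Fintype ι] [DecidableEq ι] (K : KSys ι) (m : ℝ) (Q J : ℕ)
  (E : Finset ℕ) (Λ : ℝ) (D : Bool → ℕ → ℝ), 1 ≤ m → K.Sep m → 2 ≤ Q → Reg K Q J E Λ D →
  ∀ (s : Bool) (j : ℕ), j + 1 ≤ J → 3 * Λ ^ 2 * PL K Q E s j ≤ PL K Q E s (j + 1) →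
  ∃ E2 ⊆ E, E.card ≤ 4 * Q ^ 2 * E2.card ∧ ∀ n ∈ E2, ∀ n' ∈ E2,
    K.cell Q j n = K.cell Q j n' →
    K.FlatP Q j (K.cell Q j n) (24 * Q * Λ ^ 2 * m / PL K Q E s j) (K.ln s n) (K.ln s n')

/-- Slots: the bottom tokens of a cell visit many slopes. -/
def StSlot : Prop := ∀ (ι : Type) [Fintype ι] [DecidableEq ι] (K : KSys ι) (m : ℝ) (Q J : ℕ)
  (E : Finset ℕ) (Λ : ℝ) (D : Bool → ℕ → ℝ), 1 ≤ m → K.Sep m → 1 ≤ Q → Reg K Q J E Λ D →
  ∀ (s : Bool) (i j l : ℕ), i ≤ j → j ≤ l → l ≤ J →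
  6 * Λ ^ 4 * PL K Q E s 0 ≤ PL K Q E s i →
  D false l ≤ 8 * max (D false j) (D true j) / (Q : ℝ) ^ (j - i) →
  (PT K Q E false l : ℝ) * D false l * PL K Q E s j ≤
    16 * Λ ^ 8 * PT K Q E false j * (8 * max (D false j) (D true j) / (Q : ℝ) ^ (j - i)) *
      (32 * m * max (D false j) (D true j) + 1) * PM K Q E j

end Pool.Agent.Work.MP_e17eac_co.DH

end

section

/-!
# Statements, block 3: the descent (choice of the time scale), assembly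
-/

namespace Pool.Agent.Work.MP_e17eac_co.DH

open Finset

/-- Critical radius: the smallest radius in which `H` lines are visited. -/
def StCrit : Prop := ∀ (ι : Type) [Fintype ι] [DecidableEq ι] (K : KSys ι) (H : ℝ), 2 < H →
  H ≤ (K.lines (range K.N)).card →
  ∃ r : ℕ → ℝ, ∀ n, n < K.N → 0 < r n ∧ H ≤ (K.vis (K.t n) (r n)).card ∧
    ∀ ρ, ρ < r n → ((K.vis (K.t n) ρ).card : ℝ) < H

/-- Set of edges with controlled growth of the number of visited lines. `κ n` is the scale of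
the critical radius (powers of `m⁻²`), `j` the number of growth steps (powers of `m⁴`). -/
structure CritData {ι : Type} [Fintype ι] [DecidableEq ι] (K : KSys ι) (m H G : ℝ) (j0 : ℕ)
    (r : ℕ → ℝ) (κ : ℕ → ℤ) (j : ℕ) (V : ℝ) (E : Finset ℕ) : Prop where
  sub : ∀ n ∈ E, n < K.N
  jlt : j < j0
  rpos : ∀ n ∈ E, 0 < r n
  heavy : ∀ n ∈ E, H ≤ (K.vis (K.t n) (r n)).card
  light : ∀ n ∈ E, ∀ ρ, ρ < r n → ((K.vis (K.t n) ρ).card : ℝ) < H
  kapl : ∀ n ∈ E, m ^ (-2 * (κ n + 1)) < r n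
  kapu : ∀ n ∈ E, r n ≤ m ^ (-2 * κ n)
  res : ∀ n ∈ E, ∀ n' ∈ E, κ n < κ n' → κ n + (2 * j0 + 4) ≤ κ n'
  Vlo : ∀ n ∈ E, V ≤ (K.vis (K.t n) (m ^ (4 * j) * r n)).card
  grow : ∀ n ∈ E, ((K.vis (K.t n) (m ^ (4 * (j + 1)) * r n)).card : ℝ) ≤ 2 * G * V
  HV : H ≤ 2 * V

/-- Pigeonhole: growth step, dyadic class, residue class. -/
def StPig : Prop := ∀ (ι : Type) [Fintype ι] [DecidableEq ι] (K : KSys ι) (m H G : ℝ) (j0 : ℕ)
  (r : ℕ → ℝ), 2 ≤ m → K.Sep m → 1 ≤ G → 1 ≤ j0 → 2 < H → (Fintype.card ι : ℝ) ≤ H * G ^ j0 →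
  0 < K.N →
  (∀ n, n < K.N → 0 < r n ∧ H ≤ (K.vis (K.t n) (r n)).card ∧
    ∀ ρ, ρ < r n → ((K.vis (K.t n) ρ).card : ℝ) < H) →
  ∃ (κ : ℕ → ℤ) (j : ℕ) (V : ℝ) (E : Finset ℕ), E.Nonempty ∧
    CritData K m H G j0 r κ j V E ∧
    (K.N : ℝ) ≤ j0 * (2 * j0 + 4) * (2 + 2 * Real.log m) * E.card

/-- Choice of a centre `ω` near which many edges of `E` lie, at all scales up to that of `ω`. -/
def StTerm : Prop := ∀ (ι : Type) [Fintype ι] [DecidableEq ι] (K : KSys ι) (m H G : ℝ) (j0 : ℕ)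
  (r : ℕ → ℝ) (κ : ℕ → ℤ) (j : ℕ) (V : ℝ) (E : Finset ℕ), 100 ≤ m → K.Sep m → 1 ≤ G →
  10 * Real.sqrt m ≤ H → CritData K m H G j0 r κ j V E → E.Nonempty →
  ∃ ω ∈ E, ∃ E3 ⊆ E, (E.card : ℝ) * V ≤ 6 * m * E3.card ∧
    ∀ n ∈ E3, |K.t n - K.t ω| ≤ 24 * m * m ^ (4 * j) * m ^ (-2 * κ n) ∧ κ n ≤ κ ω

/-- The sum over the scales around the centre. -/
def StChain : Prop := ∀ (ι : Type) [Fintype ι] [DecidableEq ι] (K : KSys ι) (m H G : ℝ) (j0 : ℕ)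
  (r : ℕ → ℝ) (κ : ℕ → ℤ) (j : ℕ) (V : ℝ) (E E3 : Finset ℕ) (ω : ℕ), 100 ≤ m → K.Sep m → 1 ≤ G →
  0 < H → CritData K m H G j0 r κ j V E → ω ∈ E → E3 ⊆ E → E3.Nonempty →
  (∀ n ∈ E3, |K.t n - K.t ω| ≤ 24 * m * m ^ (4 * j) * m ^ (-2 * κ n) ∧ κ n ≤ κ ω) →
  ∃ κ0 : ℤ, (E3.card : ℝ) ^ 4 ≤ (54 * G * V) ^ 4 * (E3.filter (fun n => κ n = κ0)).card

/-- **Descent**: a time interval with almost all of the possible edges such that no very short
subinterval around these edges sees `H` lines. -/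
def StDesc : Prop := ∀ (ι : Type) [Fintype ι] [DecidableEq ι] (K : KSys ι) (m H G : ℝ) (j0 : ℕ),
  100 ≤ m → K.Sep m → 1 ≤ G → 1 ≤ j0 → 10 * Real.sqrt m ≤ H →
  (Fintype.card ι : ℝ) ≤ H * G ^ j0 → H ≤ (K.lines (range K.N)).card →
  ∃ (c R : ℝ) (E1 : Finset ℕ), 0 < R ∧ (∀ n ∈ E1, n < K.N ∧ |K.t n - c| ≤ R ∧
    ((K.vis (K.t n) (R / m ^ (4 * j0 + 1))).card : ℝ) < H) ∧
    (K.N : ℝ) ^ 4 ≤ (2000 * j0 * (2 * j0 + 4) * (1 + Real.log m) * m * G) ^ 4 * E1.card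

/-- Rescaling the time. -/
def StResc : Prop := ∀ (ι : Type) [Fintype ι] [DecidableEq ι] (K : KSys ι) (c R : ℝ)
  (hR : 0 < R), (∀ s ρ, (K.resc c R hR).vis s ρ = K.vis (c + R * s) (R * ρ)) ∧
  (∀ m, K.Sep m → (K.resc c R hR).Sep m)

/-- The abstract exponent lemma (proved in `ExpProof.lean`). -/
def StExp : Prop := ∀ (J : ℕ) (δ e e1 : ℝ) (μ : ℕ → ℝ) (A Θ d : Bool → ℕ → ℝ),
  ¬ ExpData J δ e e1 μ A Θ d

/-- Contradiction for regular sets of edges with nearly extremal cardinality. -/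
def StAsm : Prop := ∀ (ι : Type) [Fintype ι] [DecidableEq ι] (K : KSys ι) (m : ℝ) (Q J : ℕ)
  (E : Finset ℕ) (Λ : ℝ) (D : Bool → ℕ → ℝ) (W : ℝ), 2 ≤ m → K.Sep m → 2 ≤ Q →
  Reg K Q J E Λ D → 1 ≤ W → m ^ ((4 : ℝ) / 3) ≤ W * E.card →
  10 * (30 + 13 * Real.log Λ + 3 * Real.log W + Real.log (3 + J * Real.log Q)) ≤ Real.log Q →
  J * (2 * Real.log Λ + 2) ≤ Real.log Q → 500000 * Real.log Q ≤ Real.log m →
  (Q : ℝ) ^ 69000 ≤ PM K Q E J → False

/-- **Main theorem for sweeps.** -/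
def StMain : Prop := ∃ C : ℝ, 0 < C ∧ ∀ (ι : Type) [Fintype ι] [DecidableEq ι] (K : KSys ι)
  (m : ℝ), 1 ≤ m → K.Sep m → (K.N : ℝ) ≤ C * m ^ ((4 : ℝ) / 3 - 1 / 10 ^ 9)

/-! ### Back to point sets -/

/-- Existence of the sweep: pairs `(i, j)` with exactly `k` points below the line `ij`. -/
def StSweep : Prop := ∀ (ι : Type) [Fintype ι] [DecidableEq ι] [Nonempty ι] (x y : ι → ℝ) (k : ℕ),
  (∀ i, 0 ≤ x i ∧ x i ≤ 1) → Function.Injective x →
  (∀ i j l, i ≠ j → i ≠ l → j ≠ l → (x j - x i) * (y l - y i) ≠ (y j - y i) * (x l - x i)) →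
  ∀ F : Finset (ι × ι), (∀ e ∈ F, x e.1 < x e.2 ∧
    {l : ι | (x e.2 - x e.1) * (y l - y e.1) < (y e.2 - y e.1) * (x l - x e.1)}.ncard = k) →
  ∃ K : KSys ι, K.x = x ∧ F.card ≤ K.N

end Pool.Agent.Work.MP_e17eac_co.DH

end
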