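import Mathlib
import Pool.Agent.Work.MP_e17eac_co.Bd.B03
import Pool.Agent.Work.MP_e17eac_co.Bd.B06

/-! Bundle of small proof modules (one section per former module). -/

section

/-!
TROP: binary trees on a finite set (light children, levels, relevant nodes).
Tool for the tropical theorem (note 2669 (A), helper17).
-/
set_option autoImplicit false

namespace Pool.Agent.Work.MP_e17eac_co.TROP

open Finset

/-- A binary tree on `X` with inner nodes `N`; `l A`, `r A` are the two children of `A`. -/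
structure BT (X N : Type*) [DecidableEq X] where
  l : N → Finset X
  r : N → Finset X
  ne_l : ∀ A, (l A).Nonempty
  ne_r : ∀ A, (r A).Nonempty
  disj : ∀ A x, x ∈ l A → x ∉ r A
  lam : ∀ A A', A ≠ A' → ∀ x, x ∈ l A ∪ r A → x ∈ l A' ∪ r A' →
    (l A ∪ r A ⊆ l A' ∨ l A ∪ r A ⊆ r A') ∨ (l A' ∪ r A' ⊆ l A ∨ l A' ∪ r A' ⊆ r A)

namespace BT

variable {X N : Type*} [DecidableEq X] [Fintype X] [Fintype N] [DecidableEq N] (T : BT X N)

/-- all leaves below `A` -/
def sp (A : N) : Finset X := T.l A ∪ T.r A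

/-- `true` if the light child is the left one -/
def sd (A : N) : Bool := decide ((T.l A).card ≤ (T.r A).card)

/-- the light child -/
def lt (A : N) : Finset X := if T.sd A then T.l A else T.r A

/-- the heavy child -/
def hv (A : N) : Finset X := if T.sd A then T.r A else T.l A

/-- `A` is strictly below `A'` -/
def Bel (A A' : N) : Prop := T.sp A ⊆ T.l A' ∨ T.sp A ⊆ T.r A'

omit [Fintype X] [Fintype N] [DecidableEq N] in
theorem lt_sub (A : N) : T.lt A ⊆ T.sp A := by
  unfold lt sp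
  split_ifs
  · exact subset_union_left
  · exact subset_union_right

omit [Fintype X] [Fintype N] [DecidableEq N] in
theorem hv_sub (A : N) : T.hv A ⊆ T.sp A := by
  unfold hv sp
  split_ifs
  · exact subset_union_right
  · exact subset_union_left

omit [Fintype X] [Fintype N] [DecidableEq N] in
theorem lt_or_hv {A : N} {x : X} (h : x ∈ T.sp A) : x ∈ T.lt A ∨ x ∈ T.hv A := by
  unfold sp at h
  unfold lt hv
  rcases mem_union.1 h with h | h <;> split_ifs <;> simp [h]

omit [Fintype X] [Fintype N] [DecidableEq N] in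
theorem lt_not_hv {A : N} {x : X} (h : x ∈ T.lt A) : x ∉ T.hv A := by
  unfold lt at h
  unfold hv
  split_ifs at h ⊢
  · exact T.disj A x h
  · exact fun h' => T.disj A x h' h

omit [Fintype X] [Fintype N] [DecidableEq N] in
theorem ne_lt (A : N) : (T.lt A).Nonempty := by
  unfold lt
  split_ifs
  · exact T.ne_l A
  · exact T.ne_r A

omit [Fintype X] [Fintype N] [DecidableEq N] in
theorem two_lt (A : N) : 2 * (T.lt A).card ≤ (T.sp A).card := by
  have h1 : (T.sp A).card = (T.l A).card + (T.r A).card := by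
    unfold sp
    rw [card_union_of_disjoint]
    rw [Finset.disjoint_left]
    exact fun x hx => T.disj A x hx
  unfold lt
  split_ifs with h
  · have h2 : (T.l A).card ≤ (T.r A).card := by simpa [sd] using h
    omega
  · have h2 : ¬ (T.l A).card ≤ (T.r A).card := by simpa [sd] using h
    omega

omit [Fintype X] [Fintype N] [DecidableEq N] in
/-- strictly below: in the light or in the heavy child -/
theorem bel_iff {A A' : N} : T.Bel A A' ↔ T.sp A ⊆ T.lt A' ∨ T.sp A ⊆ T.hv A' := by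
  unfold Bel lt hv
  split_ifs
  · exact Iff.rfl
  · exact or_comm

omit [Fintype X] [Fintype N] [DecidableEq N] in
theorem bel_sub {A A' : N} (h : T.Bel A A') : T.sp A ⊆ T.sp A' := by
  rcases h with h | h
  · exact h.trans subset_union_left
  · exact h.trans subset_union_right

omit [Fintype X] [Fintype N] [DecidableEq N] in
theorem lam' {A A' : N} (h : A ≠ A') {x : X} (hx : x ∈ T.sp A) (hx' : x ∈ T.sp A') :
    T.Bel A A' ∨ T.Bel A' A := T.lam A A' h x hx hx'

omit [Fintype X] [Fintype N] [DecidableEq N] in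
theorem sp_ne (A : N) : (T.sp A).Nonempty := (T.ne_lt A).mono (T.lt_sub A)

omit [Fintype X] [Fintype N] [DecidableEq N] in
theorem not_bel_self (A : N) : ¬ T.Bel A A := by
  rintro (h | h)
  · obtain ⟨x, hx⟩ := T.ne_r A
    exact T.disj A x (h (mem_union_right _ hx)) hx
  · obtain ⟨x, hx⟩ := T.ne_l A
    exact T.disj A x hx (h (mem_union_left _ hx))

omit [Fintype X] [Fintype N] [DecidableEq N] in
theorem bel_trans {A A' A'' : N} (h : T.Bel A A') (h' : T.Bel A' A'') : T.Bel A A'' := by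
  rcases h' with h' | h'
  · exact Or.inl ((T.bel_sub h).trans h')
  · exact Or.inr ((T.bel_sub h).trans h')

omit [Fintype X] [Fintype N] [DecidableEq N] in
/-- two nodes with a common point in the light children are nested through a light child -/
theorem lt_nest {A A' : N} (h : A ≠ A') {x : X} (hx : x ∈ T.lt A) (hx' : x ∈ T.lt A') :
    T.sp A ⊆ T.lt A' ∨ T.sp A' ⊆ T.lt A := by
  rcases T.lam' h (T.lt_sub A hx) (T.lt_sub A' hx') with h1 | h1
  · rcases T.bel_iff.1 h1 with h2 | h2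
    · exact Or.inl h2
    · exact absurd (h2 (T.lt_sub A hx)) (T.lt_not_hv hx')
  · rcases T.bel_iff.1 h1 with h2 | h2
    · exact Or.inr h2
    · exact absurd (h2 (T.lt_sub A' hx')) (T.lt_not_hv hx)

open Classical in
/-- number of nodes with `R` strictly above `A` on the light side -/
noncomputable def lev (R : N → Prop) (A : N) : ℕ :=
  (univ.filter fun A' => R A' ∧ T.sp A ⊆ T.lt A').card

omit [Fintype X] [DecidableEq N] in
theorem lev_lt {R : N → Prop} {A A' : N} (hR : R A') (h : T.sp A ⊆ T.lt A') :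
    T.lev R A' < T.lev R A := by
  classical
  apply card_lt_card
  constructor
  · intro B hB
    simp only [mem_filter, mem_univ, true_and] at hB ⊢
    exact ⟨hB.1, (h.trans (T.lt_sub A')).trans hB.2⟩
  · intro hcon
    have h1 : A' ∈ univ.filter fun B => R B ∧ T.sp A' ⊆ T.lt B := by
      apply hcon
      simp only [mem_filter, mem_univ, true_and]
      exact ⟨hR, h⟩
    simp only [mem_filter, mem_univ, true_and] at h1
    exact T.not_bel_self A' (T.bel_iff.2 (Or.inl h1.2))

omit [Fintype X] [DecidableEq N] in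
theorem lev_mono {R : N → Prop} {A A' : N} (h : T.sp A ⊆ T.sp A') : T.lev R A' ≤ T.lev R A := by
  classical
  apply card_le_card
  intro B hB
  simp only [mem_filter, mem_univ, true_and] at hB ⊢
  exact ⟨hB.1, h.trans hB.2⟩

omit [Fintype X] [DecidableEq N] in
theorem lev_inj {R : N → Prop} {A A' : N} {x : X} (hA : R A) (hA' : R A') (hx : x ∈ T.lt A)
    (hx' : x ∈ T.lt A') (h : T.lev R A = T.lev R A') : A = A' := by
  by_contra hne
  rcases T.lt_nest hne hx hx' with h1 | h1
  · exact absurd h (T.lev_lt hA' h1).ne'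
  · exact absurd h (T.lev_lt hA h1).ne

omit [Fintype X] [DecidableEq N] in
theorem lev_exists {R : N → Prop} {A : N} {b : ℕ} (hb : b < T.lev R A) :
    ∃ A', R A' ∧ T.sp A ⊆ T.lt A' ∧ T.lev R A' = b := by
  classical
  set C := univ.filter fun A' => R A' ∧ T.sp A ⊆ T.lt A' with hC
  have hmem : ∀ B ∈ C, R B ∧ T.sp A ⊆ T.lt B := by
    intro B hB
    simpa [hC] using hB
  have hinj : Set.InjOn (T.lev R) (C : Set N) := by
    intro B hB B' hB' h
    obtain ⟨x, hx⟩ := T.sp_ne A
    exact T.lev_inj (hmem B hB).1 (hmem B' hB').1 ((hmem B hB).2 hx) ((hmem B' hB').2 hx) h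
  have hsub : C.image (T.lev R) ⊆ range (T.lev R A) := by
    intro j hj
    obtain ⟨B, hB, rfl⟩ := mem_image.1 hj
    exact mem_range.2 (T.lev_lt (hmem B hB).1 (hmem B hB).2)
  have hcard : (range (T.lev R A)).card ≤ (C.image (T.lev R)).card := by
    rw [card_range, card_image_of_injOn hinj]
    exact le_of_eq rfl
  have heq := eq_of_subset_of_card_le hsub hcard
  have hb' : b ∈ C.image (T.lev R) := by
    rw [heq]
    exact mem_range.2 hb
  obtain ⟨B, hB, hBb⟩ := mem_image.1 hb'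
  exact ⟨B, (hmem B hB).1, (hmem B hB).2, hBb⟩

/-- total level -/
noncomputable def lv (A : N) : ℕ := T.lev (fun _ => True) A

omit [DecidableEq N] in
theorem lv_bound (A : N) : 2 ^ (T.lv A) * (T.sp A).card ≤ Fintype.card X := by
  obtain ⟨k, hk⟩ : ∃ k, T.lv A = k := ⟨_, rfl⟩
  induction k generalizing A with
  | zero =>
    rw [hk, pow_zero, one_mul]
    exact card_le_univ _
  | succ k ih =>
    obtain ⟨B, -, hB, hBk⟩ := T.lev_exists (R := fun _ => True) (A := A) (b := k)
      (by unfold lv at hk; omega)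
    have h1 := ih B hBk
    have h2 : (T.sp A).card ≤ (T.lt B).card := card_le_card hB
    have h3 := T.two_lt B
    rw [hk, pow_succ]
    unfold lv at h1
    rw [hBk] at h1
    calc 2 ^ k * 2 * (T.sp A).card ≤ 2 ^ k * 2 * (T.lt B).card := Nat.mul_le_mul_left _ h2
      _ = 2 ^ k * (2 * (T.lt B).card) := by ring
      _ ≤ 2 ^ k * (T.sp B).card := Nat.mul_le_mul_left _ h3
      _ ≤ _ := h1

omit [DecidableEq N] in
theorem lv_lt_log (A : N) : T.lv A < Nat.log 2 (Fintype.card X) := by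
  have h1 := T.lv_bound A
  have h2 := T.two_lt A
  have h3 : 1 ≤ (T.lt A).card := card_pos.2 (T.ne_lt A)
  have h4 : 2 ^ (T.lv A + 1) ≤ Fintype.card X := by
    rw [pow_succ]
    exact (Nat.mul_le_mul_left _ (by omega)).trans h1
  have h5 : Fintype.card X ≠ 0 := by
    intro h
    rw [h] at h4
    have : 0 < 2 ^ (T.lv A + 1) := by positivity
    omega
  exact (Nat.le_log_iff_pow_le (by norm_num) h5).2 h4

omit [DecidableEq N] in
open Classical in
/-- the number of light ancestors of a point -/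
theorem anc_le (x : X) :
    (univ.filter fun A => x ∈ T.lt A).card ≤ Nat.log 2 (Fintype.card X) := by
  have hinj : Set.InjOn T.lv ((univ.filter fun A => x ∈ T.lt A : Finset N) : Set N) := by
    intro A hA A' hA' h
    simp only [coe_filter, mem_univ, true_and, Set.mem_ofPred_eq] at hA hA'
    exact T.lev_inj (R := fun _ => True) trivial trivial hA hA' h
  rw [← card_image_of_injOn hinj]
  have hsub : (univ.filter fun A => x ∈ T.lt A).image T.lv ⊆
      range (Nat.log 2 (Fintype.card X)) := by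
    intro j hj
    obtain ⟨B, _, rfl⟩ := mem_image.1 hj
    exact mem_range.2 (T.lv_lt_log B)
  simpa using card_le_card hsub

/-- relevant nodes -/
def Rel (i : ℕ) (A : N) : Prop :=
  2 ^ i * (T.lt A).card ≤ Fintype.card X ∧
    ∀ A', T.sp A ⊆ T.lt A' → 2 ^ i * (T.lt A).card ≤ (T.lt A').card

omit [DecidableEq N] in
theorem rel_bound {i : ℕ} {A : N} (hA : T.Rel i A) :
    (2 ^ i) ^ (T.lev (T.Rel i) A + 1) * (T.lt A).card ≤ Fintype.card X := by
  obtain ⟨k, hk⟩ : ∃ k, T.lev (T.Rel i) A = k := ⟨_, rfl⟩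
  induction k generalizing A with
  | zero =>
    rw [hk, zero_add, pow_one]
    exact hA.1
  | succ k ih =>
    obtain ⟨B, hBR, hB, hBk⟩ := T.lev_exists (R := T.Rel i) (A := A) (b := k) (by omega)
    have h1 := ih hBR hBk
    have h2 := hA.2 B hB
    rw [hk, pow_succ]
    rw [hBk] at h1
    calc (2 ^ i) ^ (k + 1) * 2 ^ i * (T.lt A).card
        = (2 ^ i) ^ (k + 1) * (2 ^ i * (T.lt A).card) := by ring
      _ ≤ (2 ^ i) ^ (k + 1) * (T.lt B).card := Nat.mul_le_mul_left _ h2
      _ ≤ _ := h1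

omit [DecidableEq N] in
theorem rel_lev {i : ℕ} {A : N} (hA : T.Rel i A) :
    i * (T.lev (T.Rel i) A + 1) ≤ Nat.log 2 (Fintype.card X) := by
  have h1 := T.rel_bound hA
  have h3 : 1 ≤ (T.lt A).card := card_pos.2 (T.ne_lt A)
  have h4 : 2 ^ (i * (T.lev (T.Rel i) A + 1)) ≤ Fintype.card X := by
    rw [pow_mul]
    exact (Nat.le_mul_of_pos_right _ h3).trans h1
  have h5 : Fintype.card X ≠ 0 := by
    intro h
    rw [h] at h4
    have : 0 < 2 ^ (i * (T.lev (T.Rel i) A + 1)) := by positivity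
    omega
  exact (Nat.le_log_iff_pow_le (by norm_num) h5).2 h4

omit [Fintype N] [DecidableEq N] in
theorem irr_card {i : ℕ} {A : N} (hA : ¬ T.Rel i A) : (T.sp A).card ≤ 2 ^ i * (T.lt A).card := by
  unfold Rel at hA
  by_cases h : 2 ^ i * (T.lt A).card ≤ Fintype.card X
  · have h' : ¬ ∀ A', T.sp A ⊆ T.lt A' → 2 ^ i * (T.lt A).card ≤ (T.lt A').card :=
      fun h' => hA ⟨h, h'⟩
    push Not at h'
    obtain ⟨A', hA', hlt⟩ := h'
    exact (card_le_card hA').trans hlt.le
  · exact (card_le_univ _).trans (not_le.1 h).le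

end BT

end Pool.Agent.Work.MP_e17eac_co.TROP

end

section

/-!
# Ring module: from a configuration to popular slopes
-/

namespace Pool.Agent.Work.MP_e17eac_co.RING

open Finset
open scoped Pointwise

namespace XRL

variable {a R K : ℝ} {A : Finset ℝ} {T : Finset (ℝ × ℝ)} {I : Finset ((ℝ × ℝ) × ℝ)}

lemma regA (h : Config a R K A T I) : RegA a R K A := h.regA

lemma regT (h : Config a R K A T I) : RegT a K T := h.regT

lemma cardA (h : Config a R K A T I) (hR : 1 ≤ R) : (A.card : ℝ) ≤ K * R ^ a := by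
  have h1 := h.regA 0 R hR
  rw [div_self (by linarith), Finset.filter_true_of_mem] at h1
  · exact h1
  · intro x hx
    have := h.slope x hx
    rw [sub_zero, abs_of_nonneg this.1]
    exact this.2

lemma cardT (h : Config a R K A T I) (hR : 1 ≤ R) : (T.card : ℝ) ≤ K * (R ^ a) ^ 2 := by
  have h1 := h.regT (0, 0) R hR
  rw [Finset.filter_true_of_mem] at h1
  · refine h1.trans_eq ?_
    rw [← Real.rpow_natCast, ← Real.rpow_mul (by linarith)]
    congr 2
    push_cast
    ring
  · intro p hp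
    have := h.box p hp
    simpa using this

lemma inc (h : Config a R K A T I) (hR : 1 ≤ R) : (R ^ a) ^ 3 ≤ K * (I.card : ℝ) := by
  refine le_trans (le_of_eq ?_) h.inc
  rw [← Real.rpow_natCast, ← Real.rpow_mul (by linarith)]
  congr 1
  push_cast
  ring

/-- The cells incident to `x₁`, `x₂` and `x`. -/
noncomputable def G (T : Finset (ℝ × ℝ)) (I : Finset ((ℝ × ℝ) × ℝ)) (x₁ x₂ x : ℝ) :
    Finset (ℝ × ℝ) := T.filter fun p => (p, x₁) ∈ I ∧ (p, x₂) ∈ I ∧ (p, x) ∈ I

lemma cl_le (h : Config a R K A T I) {x : ℝ} (hx : x ∈ A) (S : Finset (ℝ × ℝ))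
    (hS : ∀ p ∈ S, (p, x) ∈ I) : ((cl (bb x) S).card : ℝ) ≤ K * R ^ a := by
  refine le_trans ?_ (h.cls x hx)
  have : cl (bb x) S ⊆ (I.filter fun z => z.2 = x).image fun z => ⌊z.1.2 - x * z.1.1⌋ := by
    intro m hm
    rw [cl, mem_image] at hm
    obtain ⟨p, hp, rfl⟩ := hm
    rw [mem_image]
    exact ⟨(p, x), mem_filter.mpr ⟨hS p hp, rfl⟩, rfl⟩
  exact_mod_cast card_le_card this

/-- Selection of the coordinate directions and of the slopes with many cells. -/
lemma sel (hSel : StSel) (h : Config a R K A T I) (hR : 1 ≤ R) (ha : 0 < a) (hK : 100 ≤ K)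
    {W : ℝ} (hW : 1 ≤ W) (hWR : W ≤ R) (hWa : K ^ 10 ≤ W ^ a) :
    ∃ x₁ ∈ A, ∃ x₂ ∈ A, 1 ≤ W * |x₁ - x₂| ∧ ∃ X ⊆ A, R ^ a ≤ 4 * K ^ 8 * (X.card : ℝ) ∧
      ∀ x ∈ X, 1 ≤ W * |x - x₁| ∧ 1 ≤ W * |x - x₂| ∧
        (R ^ a) ^ 2 ≤ 4 * K ^ 8 * ((G T I x₁ x₂ x).card : ℝ) := by
  set k : ℝ := R ^ a with hk
  have hk1 : 1 ≤ k := Real.one_le_rpow hR ha.le
  have hk0 : 0 < k := by linarith
  have hK0 : 0 < K := by linarith
  have hW0 : 0 < W := by linarith
  have hw : ∀ y : ℝ, 1 / W ≤ |y| ↔ 1 ≤ W * |y| := fun y => by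
    rw [div_le_iff₀ hW0, mul_comm]
  obtain ⟨x₁, hx₁, x₂, hx₂, h12, hcount⟩ := hSel K k (1 / W) A T I (by linarith) hk0 h.sub
    (cardA h hR) (cardT h hR) (inc h hR) (by
      intro y _
      have h1 := h.regA y (R / W) (by rw [le_div_iff₀ hW0]; linarith)
      have h2 : R / W / R = 1 / W := by field_simp
      rw [h2] at h1
      have h3 : ((A.filter fun x => |x - y| < 1 / W).card : ℝ) ≤
          ((A.filter fun x => |x - y| ≤ 1 / W).card : ℝ) := by
        exact_mod_cast card_le_card (monotone_filter_right _ (fun x _ hx => le_of_lt hx))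
      refine h3.trans (h1.trans ?_)
      rw [Real.div_rpow (by linarith) hW0.le, ← hk]
      have h4 : K * (k / W ^ a) ≤ K * (k / K ^ 10) := by gcongr
      refine h4.trans ?_
      have h5 : K * (k / K ^ 10) = k / K ^ 9 := by field_simp
      rw [h5]
      apply div_le_div_of_nonneg_left hk0.le (by positivity)
      nlinarith [pow_pos hK0 8])
  refine ⟨x₁, hx₁, x₂, hx₂, (hw _).mp h12, ?_⟩
  set F : Finset ℝ := A.filter fun x => 1 / W ≤ |x - x₁| ∧ 1 / W ≤ |x - x₂| with hF
  set X : Finset ℝ := F.filter fun x => k ^ 2 ≤ 4 * K ^ 8 * ((G T I x₁ x₂ x).card : ℝ) with hX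
  refine ⟨X, (filter_subset _ _).trans (filter_subset _ _), ?_, ?_⟩
  · -- count
    have h1 : ((I.filter fun z => (z.1, x₁) ∈ I ∧ (z.1, x₂) ∈ I ∧
        1 / W ≤ |z.2 - x₁| ∧ 1 / W ≤ |z.2 - x₂|).card : ℝ) ≤
        ∑ x ∈ F, ((G T I x₁ x₂ x).card : ℝ) := by
      have h2 := card_eq_sum_card_fiberwise (f := fun z : (ℝ × ℝ) × ℝ => z.2)
        (s := I.filter fun z => (z.1, x₁) ∈ I ∧ (z.1, x₂) ∈ I ∧
        1 / W ≤ |z.2 - x₁| ∧ 1 / W ≤ |z.2 - x₂|) (t := F) (by
          intro z hz
          rw [mem_coe, mem_filter] at hz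
          rw [mem_coe, hF, mem_filter]
          exact ⟨(mem_product.mp (h.sub hz.1)).2, hz.2.2.2⟩)
      rw [h2]
      push_cast
      refine sum_le_sum fun x _ => ?_
      have : (((I.filter fun z => (z.1, x₁) ∈ I ∧ (z.1, x₂) ∈ I ∧
        1 / W ≤ |z.2 - x₁| ∧ 1 / W ≤ |z.2 - x₂|).filter fun z => z.2 = x).card) ≤
          (G T I x₁ x₂ x).card := by
        refine card_le_card_of_injOn (fun z => z.1) ?_ ?_
        · intro z hz
          rw [mem_coe, mem_filter, mem_filter] at hz
          rw [mem_coe, G, mem_filter]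
          refine ⟨(mem_product.mp (h.sub hz.1.1)).1, hz.1.2.1, hz.1.2.2.1, ?_⟩
          rw [← hz.2]
          exact hz.1.1
        · intro z hz z' hz' hzz
          rw [mem_coe, mem_filter] at hz hz'
          exact Prod.ext hzz (hz.2.trans hz'.2.symm)
      exact_mod_cast this
    have h2 : ∑ x ∈ F, ((G T I x₁ x₂ x).card : ℝ) ≤
        (X.card : ℝ) * (K * k ^ 2) + K * k * (k ^ 2 / (4 * K ^ 8)) := by
      rw [← sum_filter_add_sum_filter_not F
        (fun x => k ^ 2 ≤ 4 * K ^ 8 * ((G T I x₁ x₂ x).card : ℝ)), ← hX]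
      have h3 : ∑ x ∈ X, ((G T I x₁ x₂ x).card : ℝ) ≤ (X.card : ℝ) * (K * k ^ 2) := by
        rw [← nsmul_eq_mul, ← sum_const]
        refine sum_le_sum fun x _ => le_trans ?_ (cardT h hR)
        exact_mod_cast card_filter_le _ _
      have h4 : ∑ x ∈ F.filter (fun x => ¬ k ^ 2 ≤ 4 * K ^ 8 * ((G T I x₁ x₂ x).card : ℝ)),
          ((G T I x₁ x₂ x).card : ℝ) ≤ K * k * (k ^ 2 / (4 * K ^ 8)) := by
        have h5 : ∑ x ∈ F.filter (fun x => ¬ k ^ 2 ≤ 4 * K ^ 8 * ((G T I x₁ x₂ x).card : ℝ)),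
          ((G T I x₁ x₂ x).card : ℝ) ≤
            ((F.filter (fun x => ¬ k ^ 2 ≤ 4 * K ^ 8 * ((G T I x₁ x₂ x).card : ℝ))).card : ℝ) *
              (k ^ 2 / (4 * K ^ 8)) := by
          rw [← nsmul_eq_mul, ← sum_const]
          refine sum_le_sum fun x hx => ?_
          rw [mem_filter] at hx
          rw [le_div_iff₀ (by positivity)]
          have := not_le.mp hx.2
          linarith
        refine h5.trans ?_
        have h6 : ((F.filter (fun x => ¬ k ^ 2 ≤ 4 * K ^ 8 *
            ((G T I x₁ x₂ x).card : ℝ))).card : ℝ) ≤ K * k := by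
          refine le_trans ?_ (cardA h hR)
          exact_mod_cast card_le_card ((filter_subset _ _).trans (filter_subset _ _))
        gcongr
      linarith
    have h3 : k ^ 3 ≤ 2 * K ^ 7 * ((X.card : ℝ) * (K * k ^ 2) + K * k * (k ^ 2 / (4 * K ^ 8))) :=
      hcount.trans (by gcongr; exact h1.trans h2)
    have h4 : 2 * K ^ 7 * ((X.card : ℝ) * (K * k ^ 2) + K * k * (k ^ 2 / (4 * K ^ 8))) =
        2 * K ^ 8 * (X.card : ℝ) * k ^ 2 + k ^ 3 / 2 := by
      field_simp
      ring
    rw [h4] at h3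
    have h5 : k ^ 2 * k ≤ k ^ 2 * (4 * K ^ 8 * (X.card : ℝ)) := by nlinarith
    exact le_of_mul_le_mul_left h5 (by positivity)
  · intro x hx
    rw [hX, mem_filter, hF, mem_filter] at hx
    exact ⟨(hw _).mp hx.1.2.1, (hw _).mp hx.1.2.2, hx.2⟩

end XRL

end Pool.Agent.Work.MP_e17eac_co.RING

end

section

/-!
# Project PS: the base cell (interface between sections 2 and 3)

`Base K Q J s W m E`: the edges `E` have times in `[0,1)`, they are nearly extremal with respect
to `W` lines (`W^(4/3) ≤ Q |E|`), the number of active time cells of level `j` (length `Q^(-j)`)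
is `Q^(s j)` up to `Q^2`, and the number of pairs (active cell of level `j`, visited line) is at
most `Q^2 W Q^(s j / 4)`, for all `j ≤ J`.
-/

namespace Pool.Agent.Work.MP_e17eac_co.PS

open Finset
open Pool.Agent.Work.MP_e17eac_co.DH

variable {ι : Type} [Fintype ι] [DecidableEq ι]

open Classical in
/-- The lines visited (by any edge of the sweep) during the cell `c` of level `j`. -/
noncomputable def visC (K : KSys ι) (Q j c : ℕ) : Finset ι :=
  K.lines ((range K.N).filter (fun n => 0 ≤ K.t n ∧ K.cell Q j n = c))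

/-- The base cell. -/
structure Base (K : KSys ι) (Q J : ℕ) (s W m : ℝ) (E : Finset ℕ) : Prop where
  sub : ∀ n ∈ E, n < K.N ∧ 0 ≤ K.t n ∧ K.t n < 1
  ne : E.Nonempty
  hQ : 2 ≤ Q
  hs0 : 0 < s
  hs1 : s ≤ 1
  hm : 1 ≤ m
  sep : K.Sep m
  hW : 1 ≤ W
  big : W ^ ((4 : ℝ) / 3) ≤ Q * (E.card : ℝ)
  fib : ∀ j, j ≤ J → ∀ c : ℕ, ((E.filter (fun n => K.cell Q j n = c)).card : ℝ) *
    (Q : ℝ) ^ (s * (j : ℝ)) ≤ (Q : ℝ) ^ 2 * (E.card : ℝ)
  act : ∀ j, j ≤ J → ((E.image (K.cell Q j)).card : ℝ) ≤ (Q : ℝ) ^ 2 * (Q : ℝ) ^ (s * (j : ℝ))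
  t2 : ∀ j, j ≤ J → ∑ c ∈ E.image (K.cell Q j), ((visC K Q j c).card : ℝ) ≤
    (Q : ℝ) ^ 2 * W * (Q : ℝ) ^ (s * (j : ℝ) / 4)

end Pool.Agent.Work.MP_e17eac_co.PS

end
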