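import Pool.Agent.Work.MP_e17eac_co.Bd.B06
import Pool.Agent.Work.MP_e17eac_co.Bd.B13

/-! Bundle of small proof modules (one section per former module). -/

section

/-!
# Block SK: statuses of lines on windows (no metric)

A window is an index interval `c = (p, q)`, `p ≤ q ≤ N`; its edges are `p, ..., q - 1`, its bottom
sets are `S p, ..., S q`. A line is *above* the window if it is in none of these bottom sets,
*below* if it is in all of them; otherwise it is visited. The two coordinates of a window are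
`chi c true` (above) and `chi c false` (not below).
-/

namespace Pool.Agent.Work.MP_e17eac_co.SK

open Finset
open Pool.Agent.Work.MP_e17eac_co.DH

variable {ι : Type} [Fintype ι] [DecidableEq ι]

/-- A window of the sweep. -/
def IsWin (K : KSys ι) (c : ℕ × ℕ) : Prop := c.1 ≤ c.2 ∧ c.2 ≤ K.N

/-- The lines visited in the window. -/
def vs (K : KSys ι) (c : ℕ × ℕ) : Finset ι := K.lines (Ico c.1 c.2)

/-- The two coordinates of the status: `true`: above throughout, `false`: not below throughout. -/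
def chi (K : KSys ι) (c : ℕ × ℕ) : Bool → ι → Prop
  | true, i => ∀ n, c.1 ≤ n → n ≤ c.2 → i ∉ K.S n
  | false, i => ∃ n, c.1 ≤ n ∧ n ≤ c.2 ∧ i ∉ K.S n

open Classical in
/-- The status vector of a line on a set of windows (the set of the coordinates with value 1). -/
noncomputable def key (K : KSys ι) (W : Finset (ℕ × ℕ)) (i : ι) : Finset ((ℕ × ℕ) × Bool) :=
  (W ×ˢ (univ : Finset Bool)).filter (fun z => chi K z.1 z.2 i)

open Classical in
/-- The windows of `W` on which the two lines have different status. -/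
noncomputable def sep (K : KSys ι) (W : Finset (ℕ × ℕ)) (i j : ι) : Finset (ℕ × ℕ) :=
  W.filter (fun c => ∃ s, ¬ (chi K c s i ↔ chi K c s j))

/-- A partition of the lines whose classes are separated by coordinates. -/
def SKey {β : Type} (K : KSys ι) (κ : ι → β) : Prop :=
  ∀ i j, κ i ≠ κ j → ∃ c s, IsWin K c ∧ (∀ i', κ i' = κ i → (chi K c s i' ↔ chi K c s i)) ∧
    (∀ j', κ j' = κ j → (chi K c s j' ↔ chi K c s j)) ∧ ¬ (chi K c s i ↔ chi K c s j)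

/-! ### SK-V -/

/-- Order at an edge: afterwards `b n` is below `a n`, before it `a n` is below `b n`. -/
def StOrd : Prop := ∀ (ι : Type) [Fintype ι] [DecidableEq ι] (K : KSys ι) (n m : ℕ), n < K.N →
  m ≤ K.N → (n < m → K.b n ∉ K.S m → K.a n ∉ K.S m) ∧ (m ≤ n → K.a n ∉ K.S m → K.b n ∉ K.S m)

/-- Two lines cross at most once. -/
def StOnce : Prop := ∀ (ι : Type) [Fintype ι] [DecidableEq ι] (K : KSys ι) (i j : ι)
  (n₁ n₂ n₃ : ℕ), n₁ ≤ n₂ → n₂ ≤ n₃ → n₃ ≤ K.N → i ∉ K.S n₁ → j ∈ K.S n₁ → i ∈ K.S n₂ →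
  j ∉ K.S n₂ → i ∉ K.S n₃ → j ∈ K.S n₃ → False

/-- Visited = neither above nor below. -/
def StVs : Prop := ∀ (ι : Type) [Fintype ι] [DecidableEq ι] (K : KSys ι) (c : ℕ × ℕ),
  IsWin K c → ∀ i, i ∈ vs K c ↔ (chi K c false i ∧ ¬ chi K c true i)

/-- **Few status vectors** (VC dimension 2, Sauer-Shelah). -/
def StKeyCount : Prop := ∀ (ι : Type) [Fintype ι] [DecidableEq ι] (K : KSys ι)
  (W : Finset (ℕ × ℕ)), (∀ c ∈ W, IsWin K c) → (∀ c ∈ W, ∀ c' ∈ W, c ≠ c' → c.2 ≤ c'.1 ∨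
    c'.2 ≤ c.1) → ((univ : Finset ι).image (key K W)).card ≤ (2 * W.card + 1) ^ 2

/-! ### SK-DS, SK-CUT -/

/-- Along a bottom token the indices with `chi = 0` form an interval, along a top token those
with `chi = 1`. -/
def StTokInt : Prop := ∀ (ι : Type) [Fintype ι] [DecidableEq ι] (K : KSys ι) (c : ℕ × ℕ)
  (s : Bool) (τ : ι) (n₁ n₂ n₃ : ℕ), IsWin K c → n₁ ≤ n₂ → n₂ ≤ n₃ → n₃ ≤ K.N →
  (τ ∈ K.S 0 → ¬ chi K c s (K.pos n₁ τ) → ¬ chi K c s (K.pos n₃ τ) → ¬ chi K c s (K.pos n₂ τ)) ∧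
  (τ ∉ K.S 0 → chi K c s (K.pos n₁ τ) → chi K c s (K.pos n₃ τ) → chi K c s (K.pos n₂ τ))

/-- No alternation `A B A B` of the classes of the line of a token. -/
def StAlt : Prop := ∀ (ι β : Type) [Fintype ι] [DecidableEq ι] (K : KSys ι) (κ : ι → β),
  SKey K κ → ∀ (τ : ι) (n₁ n₂ n₃ n₄ : ℕ), n₁ ≤ n₂ → n₂ ≤ n₃ → n₃ ≤ n₄ → n₄ ≤ K.N →
  κ (K.pos n₁ τ) = κ (K.pos n₃ τ) → κ (K.pos n₂ τ) = κ (K.pos n₄ τ) →
  κ (K.pos n₁ τ) = κ (K.pos n₂ τ)

/-- Sequences without alternation `A B A B` refined by a monotone function. -/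
def StAltCount : Prop := ∀ (β : Type) [DecidableEq β] (E : Finset ℕ) (f : ℕ → β) (g : ℕ → ℕ),
  (∀ n ∈ E, ∀ m ∈ E, n ≤ m → g n ≤ g m) →
  (∀ n₁ ∈ E, ∀ n₂ ∈ E, ∀ n₃ ∈ E, ∀ n₄ ∈ E, n₁ ≤ n₂ → n₂ ≤ n₃ → n₃ ≤ n₄ → f n₁ = f n₃ →
    f n₂ = f n₄ → f n₁ = f n₂) →
  (E.image (fun n => (g n, f n))).card ≤ (E.image g).card + 2 * (E.image f).card

/-- **Classes met by the tokens in the cells** (`g` = cell of an edge, monotone). -/
def StTokClasses : Prop := ∀ (ι β : Type) [Fintype ι] [DecidableEq ι] [DecidableEq β]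
  (K : KSys ι) (κ : ι → β), SKey K κ → ∀ (E : Finset ℕ) (g : ℕ → ℕ),
  (∀ n ∈ E, n < K.N ∧ κ (K.a n) = κ (K.b n)) → (∀ n ∈ E, ∀ m ∈ E, n ≤ m → g n ≤ g m) →
  ((E.image (fun n => (g n, K.tokB n, κ (K.a n)))).card ≤
    (E.image (fun n => (g n, K.tokB n))).card + 2 * (E.image (fun n => (K.tokB n,
      κ (K.a n)))).card) ∧
  ((E.image (fun n => (g n, K.tokT n, κ (K.a n)))).card ≤
    (E.image (fun n => (g n, K.tokT n))).card + 2 * (E.image (fun n => (K.tokT n,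
      κ (K.a n)))).card)

open Classical in
/-- **Few edges between classes.** -/
def StCut : Prop := ∀ (ι : Type) [Fintype ι] [DecidableEq ι] (K : KSys ι)
  (W : Finset (ℕ × ℕ)), (∀ c ∈ W, IsWin K c) →
  ((range K.N).filter (fun n => ∃ c ∈ W, ∃ s, ¬ (chi K c s (K.a n) ↔ chi K c s (K.b n)))).card ≤
    4 * Fintype.card ι * W.card

/-- Status vectors on a set of windows, also relative to a coarser partition, are `SKey`. -/
def StSKey : Prop := ∀ (ι β : Type) [Fintype ι] [DecidableEq ι] (K : KSys ι) (κ : ι → β)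
  (W : β → Finset (ℕ × ℕ)), (∀ x, ∀ c ∈ W x, IsWin K c) → SKey K κ →
  SKey K (fun i => (κ i, key K (W (κ i)) i))

/-! ### SK-HASH -/

/-- Hitting sets: `m` sets with at least `h` elements each in a set of `g` elements are hit by
`r` elements if `m (1 - h/g)^r < 1`. -/
def StHit : Prop := ∀ (α I : Type) [DecidableEq α] (W : Finset α) (J : Finset I)
  (F : I → Finset α) (h : ℝ) (r : ℕ), 0 ≤ h → (∀ j ∈ J, F j ⊆ W ∧ h ≤ ((F j).card : ℝ)) →
  (J.card : ℝ) * (1 - h / (W.card : ℝ)) ^ r < 1 → ∃ R ⊆ W, R.card ≤ r ∧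
    ∀ j ∈ J, ∃ c ∈ R, c ∈ F j

/-- **Classes by hashing**: for a set `B` of lines and a family `W` of disjoint windows there are
few windows `R ⊆ W` which separate any two lines of `B` with different status in at least `h`
windows of `W`. -/
def StHash : Prop := ∀ (ι : Type) [Fintype ι] [DecidableEq ι] (K : KSys ι)
  (W : Finset (ℕ × ℕ)) (h : ℝ), 0 < h → 2 ≤ Fintype.card ι → (∀ c ∈ W, IsWin K c) →
  (∀ c ∈ W, ∀ c' ∈ W, c ≠ c' → c.2 ≤ c'.1 ∨ c'.2 ≤ c.1) →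
  ∃ R ⊆ W, (R.card : ℝ) ≤ 2 * (W.card / h) * Real.log (Fintype.card ι) + 1 ∧
    (∀ i j, key K R i = key K R j → ((sep K W i j).card : ℝ) < h) ∧
    ((univ : Finset ι).image (key K R)).card ≤ (2 * R.card + 1) ^ 2

/-- Most visits of a class are in windows which visit nearly the whole class. -/
def StHomog : Prop := ∀ (ι : Type) [Fintype ι] [DecidableEq ι] (K : KSys ι)
  (W : Finset (ℕ × ℕ)) (F : Finset ι) (h : ℝ), (∀ c ∈ W, IsWin K c) →
  (∀ i ∈ F, ∀ j ∈ F, ((sep K W i j).card : ℝ) ≤ h) →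
  ∑ c ∈ W, ((F ∩ vs K c).card : ℝ) * ((F \ vs K c).card : ℝ) ≤ (F.card : ℝ) ^ 2 * h

end Pool.Agent.Work.MP_e17eac_co.SK

end

section

/-!
TROP: the potentials of the tropical theorem (note 2669 (A), helper17) and their change in a step.
-/
set_option autoImplicit false
set_option linter.unusedSectionVars false
set_option linter.unusedVariables false

namespace Pool.Agent.Work.MP_e17eac_co.TROP

open Finset

variable {X N1 N2 : Type*} [DecidableEq X] [Fintype X] [Fintype N1] [DecidableEq N1]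
  [Fintype N2] [DecidableEq N2]

/-- A sequence of exchanges: in step `i` the pair `(a i, b i)` is processed and the set `S i`
changes only by elements of the two middle cells. -/
structure Run (T1 : BT X N1) (T2 : BT X N2) (m : ℕ) where
  P : ℕ → N1 → N2 → Prop
  a : ℕ → N1
  b : ℕ → N2
  S : ℕ → Finset X
  step : ∀ i < m, ∀ A B, P (i + 1) A B ↔ (P i A B ∨ (A = a i ∧ B = b i))
  new : ∀ i < m, ¬ P i (a i) (b i)
  mono1 : ∀ i ≤ m, ∀ A A' B, P i A' B → T1.Bel A A' → P i A B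
  mono2 : ∀ i ≤ m, ∀ A B B', P i A B → T2.Bel B B' → P i A B'
  up : ∀ i < m, S i \ S (i + 1) ⊆ T1.l (a i) ∩ T2.r (b i)
  dn : ∀ i < m, S (i + 1) \ S i ⊆ T1.r (a i) ∩ T2.l (b i)
  crd : ∀ i < m, (S i).card = (S (i + 1)).card

theorem sum_split {f g : X → ℤ} {U D : Finset X} (hd : Disjoint U D)
    (h : ∀ x, x ∉ U → x ∉ D → g x ≤ f x) :
    ∑ x, g x ≤ ∑ x, f x + (∑ x ∈ U, (g x - f x) + ∑ x ∈ D, (g x - f x)) := by
  have h1 : ∑ x, (g x - f x) = ∑ x ∈ univ \ (U ∪ D), (g x - f x) + ∑ x ∈ U ∪ D, (g x - f x) :=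
    (sum_sdiff (subset_univ _)).symm
  have h2 : ∑ x ∈ univ \ (U ∪ D), (g x - f x) ≤ 0 := by
    refine sum_nonpos fun x hx => ?_
    simp only [mem_sdiff, mem_univ, true_and, mem_union, not_or] at hx
    have := h x hx.1 hx.2
    linarith
  rw [sum_union hd] at h1
  rw [sum_sub_distrib] at h1
  linarith

namespace Run

variable {T1 : BT X N1} {T2 : BT X N2} {m : ℕ} (ρ : Run T1 T2 m) (w : ℕ)

/-- number of exchanges in step `i` -/
def c (i : ℕ) : ℕ := (ρ.S i \ ρ.S (i + 1)).card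

/-- relevant level of a node of the first tree -/
noncomputable def rl (T1 : BT X N1) (w : ℕ) (A : N1) : ℕ := T1.lev (T1.Rel w) A

/-- the point `x` is counted -/
def phi (k b i : ℕ) (x : X) : Prop :=
  ∃ A, T1.Rel w A ∧ x ∈ T1.lt A ∧ rl T1 w A = k ∧
    (∀ B, x ∈ T2.lt B → T2.lv B = b → ¬ ρ.P i A B) ∧ (T1.sd A = true ↔ x ∈ ρ.S i)

open Classical in
/-- indicator function -/
noncomputable def ff (k b i : ℕ) (x : X) : ℤ := if ρ.phi w k b i x then 1 else 0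

/-- the potential -/
noncomputable def Ph (k b i : ℕ) : ℤ := ∑ x, ρ.ff w k b i x

theorem ff_nonneg (k b i : ℕ) (x : X) : 0 ≤ ρ.ff w k b i x := by
  unfold ff
  split_ifs <;> norm_num

theorem ff_le_one (k b i : ℕ) (x : X) : ρ.ff w k b i x ≤ 1 := by
  unfold ff
  split_ifs <;> norm_num

theorem ff_zero {k b i : ℕ} {x : X} (h : ¬ ρ.phi w k b i x) : ρ.ff w k b i x = 0 := by
  unfold ff
  rw [if_neg h]

theorem ff_one {k b i : ℕ} {x : X} (h : ρ.phi w k b i x) : ρ.ff w k b i x = 1 := by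
  unfold ff
  rw [if_pos h]

theorem ff_mono {k b i j : ℕ} {x y : X} (h : ρ.phi w k b i x → ρ.phi w k b j y) :
    ρ.ff w k b i x ≤ ρ.ff w k b j y := by
  by_cases h1 : ρ.phi w k b i x
  · rw [ρ.ff_one w h1, ρ.ff_one w (h h1)]
  · rw [ρ.ff_zero w h1]
    exact ρ.ff_nonneg w _ _ _ _

theorem Ph_nonneg (k b i : ℕ) : 0 ≤ ρ.Ph w k b i := sum_nonneg fun x _ => ρ.ff_nonneg w _ _ _ _

theorem Ph_le (k b i : ℕ) : ρ.Ph w k b i ≤ Fintype.card X := by
  unfold Ph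
  calc ∑ x, ρ.ff w k b i x ≤ ∑ _x : X, (1 : ℤ) := sum_le_sum fun x _ => ρ.ff_le_one w _ _ _ _
    _ = _ := by simp

theorem P_mono {i : ℕ} (hi : i < m) {A : N1} {B : N2} (h : ρ.P i A B) : ρ.P (i + 1) A B :=
  (ρ.step i hi A B).2 (Or.inl h)

theorem card_dn {i : ℕ} (hi : i < m) : (ρ.S (i + 1) \ ρ.S i).card = ρ.c i := by
  unfold c
  have h1 := ρ.crd i hi
  have h2 := card_sdiff_add_card_inter (ρ.S i) (ρ.S (i + 1))
  have h3 := card_sdiff_add_card_inter (ρ.S (i + 1)) (ρ.S i)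
  rw [inter_comm] at h3
  omega

/-- a relevant node of level `k` above a point of `A'` lies below `A'` if `rl A' ≤ k` -/
theorem below {A A' : N1} {x : X} {k : ℕ} (hA : T1.Rel w A) (hx : x ∈ T1.lt A)
    (hx' : x ∈ T1.sp A') (hk : rl T1 w A = k) (hne : A ≠ A') (hk' : ¬ k < rl T1 w A') :
    T1.Bel A A' := by
  rcases T1.lam' hne (T1.lt_sub A hx) hx' with h | h
  · exact h
  · exfalso
    rcases T1.bel_iff.1 h with h1 | h1
    · have := T1.lev_lt (R := T1.Rel w) hA h1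
      unfold rl at hk hk'
      omega
    · exact T1.lt_not_hv hx (h1 hx')

/-- the same in the second tree -/
theorem below2 {B B' : N2} {x : X} {b : ℕ} (hx : x ∈ T2.lt B)
    (hx' : x ∈ T2.sp B') (hb : T2.lv B = b) (hne : B ≠ B') (hb' : ¬ b < T2.lv B') :
    T2.Bel B B' := by
  rcases T2.lam' hne (T2.lt_sub B hx) hx' with h | h
  · exact h
  · exfalso
    rcases T2.bel_iff.1 h with h1 | h1
    · have : T2.lv B < T2.lv B' := T2.lev_lt (R := fun _ => True) trivial h1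
      omega
    · exact T2.lt_not_hv hx (h1 hx')

/-- closed: the deeper node with a light ancestor of small level in the second tree -/
theorem closed {i : ℕ} (hi : i < m) {A : N1} {x : X} {k b : ℕ} (hA : T1.Bel A (ρ.a i))
    (hx : x ∈ T2.sp (ρ.b i)) (hb : b < T2.lv (ρ.b i) ∨ (b = T2.lv (ρ.b i) ∧ x ∈ T2.lt (ρ.b i)))
    (ho : ∀ B, x ∈ T2.lt B → T2.lv B = b → ¬ ρ.P (i + 1) A B) : False := by
  have h0 : ρ.P (i + 1) (ρ.a i) (ρ.b i) := (ρ.step i hi _ _).2 (Or.inr ⟨rfl, rfl⟩)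
  have h1 : ρ.P (i + 1) A (ρ.b i) := ρ.mono1 (i + 1) hi _ _ _ h0 hA
  rcases hb with hb | ⟨hb, hxb⟩
  · obtain ⟨B, -, hB, hBb⟩ := T2.lev_exists (R := fun _ => True) (A := ρ.b i) (b := b) hb
    exact ho B (hB hx) hBb (ρ.mono2 (i + 1) hi _ _ _ h1 (T2.bel_iff.2 (Or.inl hB)))
  · exact ho _ hxb hb.symm h1

/-- open: light ancestors of large level in the second tree are not yet processed -/
theorem opened {i : ℕ} (hi : i < m) {x : X} {b : ℕ} (hx : x ∈ T2.sp (ρ.b i))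
    (hb : T2.lv (ρ.b i) < b ∨ (b = T2.lv (ρ.b i) ∧ x ∈ T2.hv (ρ.b i))) :
    ∀ B, x ∈ T2.lt B → T2.lv B = b → ¬ ρ.P i (ρ.a i) B := by
  intro B hxB hBb hP
  have hne : B ≠ ρ.b i := by
    rintro rfl
    rcases hb with hb | ⟨_, hb⟩
    · omega
    · exact T2.lt_not_hv hxB hb
  have h1 := below2 (T2 := T2) hxB hx hBb hne (by rcases hb with hb | ⟨hb, _⟩ <;> omega)
  exact ρ.new i hi (ρ.mono2 i hi.le _ _ _ hP h1)

/-- outside of the exchanged elements nothing increases -/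
theorem phi_stay {i : ℕ} (hi : i < m) {k b : ℕ} {x : X} (hx : x ∈ ρ.S i ↔ x ∈ ρ.S (i + 1))
    (h : ρ.phi w k b (i + 1) x) : ρ.phi w k b i x := by
  obtain ⟨A, h1, h2, h3, h4, h5⟩ := h
  exact ⟨A, h1, h2, h3, fun B hB hb hP => h4 B hB hb (ρ.P_mono hi hP), h5.trans hx.symm⟩

/-- level above: exchanged elements replace each other -/
theorem phi_swap {i : ℕ} (hi : i < m) {k b : ℕ} (hk : k < rl T1 w (ρ.a i)) {y z : X}
    (hy : y ∈ T1.sp (ρ.a i)) (hy' : y ∈ T2.sp (ρ.b i)) (hz : z ∈ T1.sp (ρ.a i))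
    (hz' : z ∈ T2.sp (ρ.b i)) (hyz : y ∈ ρ.S (i + 1) ↔ z ∈ ρ.S i)
    (h : ρ.phi w k b (i + 1) y) : ρ.phi w k b i z := by
  obtain ⟨A, h1, h2, h3, h4, h5⟩ := h
  have hne : A ≠ ρ.a i := by
    rintro rfl
    omega
  have hsub : T1.sp (ρ.a i) ⊆ T1.lt A := by
    rcases T1.lam' hne (T1.lt_sub A h2) hy with h | h
    · have := T1.lev_mono (R := T1.Rel w) (T1.bel_sub h)
      unfold rl at hk h3
      omega
    · rcases T1.bel_iff.1 h with h' | h'
      · exact h'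
      · exact absurd (h' hy) (T1.lt_not_hv h2)
  refine ⟨A, h1, hsub hz, h3, ?_, h5.trans hyz⟩
  intro B hB hb hP
  by_cases hb' : b < T2.lv (ρ.b i)
  · have hneB : B ≠ ρ.b i := by
      rintro rfl
      omega
    have hsubB : T2.sp (ρ.b i) ⊆ T2.lt B := by
      rcases T2.lam' hneB (T2.lt_sub B hB) hz' with h | h
      · have : T2.lv (ρ.b i) ≤ T2.lv B := T2.lev_mono (R := fun _ => True) (T2.bel_sub h)
        omega
      · rcases T2.bel_iff.1 h with h' | h'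
        · exact h'
        · exact absurd (h' hz') (T2.lt_not_hv hB)
    exact h4 B (hsubB hy') hb (ρ.P_mono hi hP)
  · have h6 : ρ.P i A (ρ.b i) := by
      by_cases hBe : B = ρ.b i
      · rw [← hBe]
        exact hP
      · exact ρ.mono2 i hi.le _ _ _ hP (below2 (T2 := T2) hB hz' hb hBe hb')
    exact ρ.new i hi (ρ.mono1 i hi.le _ _ _ h6 (T1.bel_iff.2 (Or.inl hsub)))

open Classical in
/-- the bound for the change of the potential -/
noncomputable def dl (k b i : ℕ) : ℤ :=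
  if k < rl T1 w (ρ.a i) then 0
  else if rl T1 w (ρ.a i) = k ∧ T1.Rel w (ρ.a i) then
    (if T2.lv (ρ.b i) = b then (if T1.sd (ρ.a i) = T2.sd (ρ.b i) then - (ρ.c i : ℤ) else ρ.c i)
      else 0)
  else (if T2.lv (ρ.b i) ≤ b then 2 * ρ.c i else 0)


theorem sum_pair {U D : Finset X} (h : U.card = D.card) {f g : X → ℤ}
    (hfg : ∀ y ∈ U, ∀ z ∈ D, g y ≤ f z) : ∑ y ∈ U, g y ≤ ∑ z ∈ D, f z := by
  obtain ⟨e⟩ : Nonempty (U ≃ D) := ⟨Finset.equivOfCardEq h⟩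
  rw [← sum_coe_sort U, ← sum_coe_sort D, ← Equiv.sum_comp e]
  exact sum_le_sum fun y _ => hfg y.1 y.2 _ (e y).2

theorem disj_UD (i : ℕ) : Disjoint (ρ.S i \ ρ.S (i + 1)) (ρ.S (i + 1) \ ρ.S i) := by
  rw [Finset.disjoint_left]
  intro x hx hx'
  exact (mem_sdiff.1 hx').2 (mem_sdiff.1 hx).1

/-- bound through the exchanged elements -/
theorem Ph_split {i : ℕ} (hi : i < m) (k b : ℕ) :
    ρ.Ph w k b (i + 1) ≤ ρ.Ph w k b i +
      (∑ x ∈ ρ.S i \ ρ.S (i + 1), (ρ.ff w k b (i + 1) x - ρ.ff w k b i x) +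
        ∑ x ∈ ρ.S (i + 1) \ ρ.S i, (ρ.ff w k b (i + 1) x - ρ.ff w k b i x)) := by
  refine sum_split (ρ.disj_UD i) fun x hx hx' => ρ.ff_mono w (ρ.phi_stay w hi ?_)
  simp only [mem_sdiff, not_and, not_not] at hx hx'
  exact ⟨hx, hx'⟩

theorem mem_up {i : ℕ} (hi : i < m) {x : X} (hx : x ∈ ρ.S i \ ρ.S (i + 1)) :
    x ∈ T1.l (ρ.a i) ∧ x ∈ T2.r (ρ.b i) := mem_inter.1 (ρ.up i hi hx)

theorem mem_dn {i : ℕ} (hi : i < m) {x : X} (hx : x ∈ ρ.S (i + 1) \ ρ.S i) :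
    x ∈ T1.r (ρ.a i) ∧ x ∈ T2.l (ρ.b i) := mem_inter.1 (ρ.dn i hi hx)

/-- all exchanged elements lie in the two nodes -/
theorem mem_sp {i : ℕ} (hi : i < m) {x : X}
    (hx : x ∈ ρ.S i \ ρ.S (i + 1) ∨ x ∈ ρ.S (i + 1) \ ρ.S i) :
    x ∈ T1.sp (ρ.a i) ∧ x ∈ T2.sp (ρ.b i) := by
  rcases hx with hx | hx
  · exact ⟨mem_union_left _ (ρ.mem_up hi hx).1, mem_union_right _ (ρ.mem_up hi hx).2⟩
  · exact ⟨mem_union_right _ (ρ.mem_dn hi hx).1, mem_union_left _ (ρ.mem_dn hi hx).2⟩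

theorem lt_l {X N : Type*} [DecidableEq X] {T : BT X N} {A : N} (h : T.sd A = true) :
    T.lt A = T.l A ∧ T.hv A = T.r A := by
  unfold BT.lt BT.hv
  rw [if_pos h, if_pos h]
  exact ⟨rfl, rfl⟩

theorem lt_r {X N : Type*} [DecidableEq X] {T : BT X N} {A : N} (h : ¬ T.sd A = true) :
    T.lt A = T.r A ∧ T.hv A = T.l A := by
  unfold BT.lt BT.hv
  rw [if_neg h, if_neg h]
  exact ⟨rfl, rfl⟩

/-- elements of the light child of `a i` which cross are not counted after the step -/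
theorem not_phi_lt {i : ℕ} (hi : i < m) {k b : ℕ} {x : X} (hk : rl T1 w (ρ.a i) = k)
    (hR : T1.Rel w (ρ.a i)) (hx : x ∈ T1.lt (ρ.a i))
    (hx' : ¬ (T1.sd (ρ.a i) = true ↔ x ∈ ρ.S (i + 1))) : ¬ ρ.phi w k b (i + 1) x := by
  rintro ⟨A, h1, h2, h3, h4, h5⟩
  have : A = ρ.a i := T1.lev_inj h1 hR h2 hx (by unfold rl at h3 hk; rw [h3, hk])
  subst this
  exact hx' h5

/-- elements not in the light child of `a i` are not counted after the step if `b` is small -/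
theorem not_phi_hv {i : ℕ} (hi : i < m) {k b : ℕ} {x : X} (hk : ¬ k < rl T1 w (ρ.a i))
    (hR : rl T1 w (ρ.a i) = k → T1.Rel w (ρ.a i) → x ∉ T1.lt (ρ.a i))
    (hx : x ∈ T1.sp (ρ.a i)) (hx2 : x ∈ T2.sp (ρ.b i))
    (hb : b < T2.lv (ρ.b i) ∨ (b = T2.lv (ρ.b i) ∧ x ∈ T2.lt (ρ.b i))) :
    ¬ ρ.phi w k b (i + 1) x := by
  rintro ⟨A, h1, h2, h3, h4, h5⟩
  have hne : A ≠ ρ.a i := by
    rintro rfl
    exact hR h3 h1 h2
  exact ρ.closed hi (k := k) (below (T1 := T1) w h1 h2 hx h3 hne hk) hx2 hb h4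

/-- elements of the light child of `a i` which cross are counted before the step if `b` is big -/
theorem phi_lt {i : ℕ} (hi : i < m) {k b : ℕ} {x : X} (hk : rl T1 w (ρ.a i) = k)
    (hR : T1.Rel w (ρ.a i)) (hx : x ∈ T1.lt (ρ.a i)) (hx2 : x ∈ T2.sp (ρ.b i))
    (hb : T2.lv (ρ.b i) < b ∨ (b = T2.lv (ρ.b i) ∧ x ∈ T2.hv (ρ.b i)))
    (hx' : T1.sd (ρ.a i) = true ↔ x ∈ ρ.S i) : ρ.phi w k b i x :=
  ⟨ρ.a i, hR, hx, hk, ρ.opened hi hx2 hb, hx'⟩

/-- the change of the potential in a step -/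
theorem Ph_step {i : ℕ} (hi : i < m) (k b : ℕ) :
    ρ.Ph w k b (i + 1) ≤ ρ.Ph w k b i + ρ.dl w k b i := by
  refine (ρ.Ph_split w hi k b).trans (add_le_add le_rfl ?_)
  have hU := ρ.card_dn hi
  have hc : (ρ.S i \ ρ.S (i + 1)).card = ρ.c i := rfl
  have hspU : ∀ x ∈ ρ.S i \ ρ.S (i + 1), x ∈ T1.sp (ρ.a i) ∧ x ∈ T2.sp (ρ.b i) :=
    fun x hx => ρ.mem_sp hi (Or.inl hx)
  have hspD : ∀ x ∈ ρ.S (i + 1) \ ρ.S i, x ∈ T1.sp (ρ.a i) ∧ x ∈ T2.sp (ρ.b i) :=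
    fun x hx => ρ.mem_sp hi (Or.inr hx)
  have b1 : ∀ x, ρ.ff w k b (i + 1) x - ρ.ff w k b i x ≤ 1 := fun x => by
    have := ρ.ff_le_one w k b (i + 1) x
    have := ρ.ff_nonneg w k b i x
    linarith
  have b0 : ∀ x, ¬ ρ.phi w k b (i + 1) x →
      ρ.ff w k b (i + 1) x - ρ.ff w k b i x ≤ 0 := fun x hx => by
    have := ρ.ff_nonneg w k b i x
    rw [ρ.ff_zero w hx]
    linarith
  have bm : ∀ x, ¬ ρ.phi w k b (i + 1) x → ρ.phi w k b i x →
      ρ.ff w k b (i + 1) x - ρ.ff w k b i x ≤ -1 := fun x hx hx' => by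
    rw [ρ.ff_zero w hx, ρ.ff_one w hx']
    norm_num
  -- sums over the two sets
  have sU : ∀ t : ℤ, (∀ x ∈ ρ.S i \ ρ.S (i + 1), ρ.ff w k b (i + 1) x - ρ.ff w k b i x ≤ t) →
      ∑ x ∈ ρ.S i \ ρ.S (i + 1), (ρ.ff w k b (i + 1) x - ρ.ff w k b i x) ≤ ρ.c i * t := by
    intro t ht
    have := sum_le_card_nsmul _ _ t ht
    rw [hc, nsmul_eq_mul] at this
    exact this
  have sD : ∀ t : ℤ, (∀ x ∈ ρ.S (i + 1) \ ρ.S i, ρ.ff w k b (i + 1) x - ρ.ff w k b i x ≤ t) →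
      ∑ x ∈ ρ.S (i + 1) \ ρ.S i, (ρ.ff w k b (i + 1) x - ρ.ff w k b i x) ≤ ρ.c i * t := by
    intro t ht
    have := sum_le_card_nsmul _ _ t ht
    rw [hU, nsmul_eq_mul] at this
    exact this
  have hc0 : (0 : ℤ) ≤ ρ.c i := Int.natCast_nonneg _
  unfold dl
  split_ifs with h1 h2 h3 h4 h5
  · -- level above
    rw [sum_sub_distrib, sum_sub_distrib]
    have p1 := sum_pair (U := ρ.S i \ ρ.S (i + 1)) (D := ρ.S (i + 1) \ ρ.S i) (by rw [hU, hc])
      (f := ρ.ff w k b i) (g := ρ.ff w k b (i + 1)) (fun y hy z hz =>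
        ρ.ff_mono w (ρ.phi_swap w hi h1 (hspU y hy).1 (hspU y hy).2 (hspD z hz).1 (hspD z hz).2
          ⟨fun h => absurd h (mem_sdiff.1 hy).2, fun h => absurd h (mem_sdiff.1 hz).2⟩))
    have p2 := sum_pair (U := ρ.S (i + 1) \ ρ.S i) (D := ρ.S i \ ρ.S (i + 1)) (by rw [hU, hc])
      (f := ρ.ff w k b i) (g := ρ.ff w k b (i + 1)) (fun y hy z hz =>
        ρ.ff_mono w (ρ.phi_swap w hi h1 (hspD y hy).1 (hspD y hy).2 (hspU z hz).1 (hspU z hz).2
          ⟨fun _ => (mem_sdiff.1 hz).1, fun _ => (mem_sdiff.1 hy).1⟩))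
    linarith
  · -- same sign, same level
    by_cases hs : T1.sd (ρ.a i) = true
    · have hs2 : T2.sd (ρ.b i) = true := by rw [← h4]; exact hs
      have q1 := sU (-1) (fun x hx => bm x
        (ρ.not_phi_lt w hi h2.1 h2.2 (by rw [(lt_l hs).1]; exact (ρ.mem_up hi hx).1)
          (fun h => (mem_sdiff.1 hx).2 (h.1 hs)))
        (ρ.phi_lt w hi h2.1 h2.2 (by rw [(lt_l hs).1]; exact (ρ.mem_up hi hx).1) (hspU x hx).2
          (Or.inr ⟨h3.symm, by rw [(lt_l hs2).2]; exact (ρ.mem_up hi hx).2⟩)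
          ⟨fun _ => (mem_sdiff.1 hx).1, fun _ => hs⟩))
      have q2 := sD 0 (fun x hx => b0 x (ρ.not_phi_hv w hi h1
        (fun _ _ h => T1.lt_not_hv h (by rw [(lt_l hs).2]; exact (ρ.mem_dn hi hx).1))
        (hspD x hx).1 (hspD x hx).2
        (Or.inr ⟨h3.symm, by rw [(lt_l hs2).1]; exact (ρ.mem_dn hi hx).2⟩)))
      linarith
    · have hs2 : ¬ T2.sd (ρ.b i) = true := by rw [← h4]; exact hs
      have q1 := sD (-1) (fun x hx => bm x
        (ρ.not_phi_lt w hi h2.1 h2.2 (by rw [(lt_r hs).1]; exact (ρ.mem_dn hi hx).1)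
          (fun h => hs (h.2 (mem_sdiff.1 hx).1)))
        (ρ.phi_lt w hi h2.1 h2.2 (by rw [(lt_r hs).1]; exact (ρ.mem_dn hi hx).1) (hspD x hx).2
          (Or.inr ⟨h3.symm, by rw [(lt_r hs2).2]; exact (ρ.mem_dn hi hx).2⟩)
          ⟨fun h => absurd h hs, fun h => absurd h (mem_sdiff.1 hx).2⟩))
      have q2 := sU 0 (fun x hx => b0 x (ρ.not_phi_hv w hi h1
        (fun _ _ h => T1.lt_not_hv h (by rw [(lt_r hs).2]; exact (ρ.mem_up hi hx).1))
        (hspU x hx).1 (hspU x hx).2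
        (Or.inr ⟨h3.symm, by rw [(lt_r hs2).1]; exact (ρ.mem_up hi hx).2⟩)))
      linarith
  · -- opposite sign, same level
    by_cases hs : T1.sd (ρ.a i) = true
    · have q1 := sU 0 (fun x hx => b0 x
        (ρ.not_phi_lt w hi h2.1 h2.2 (by rw [(lt_l hs).1]; exact (ρ.mem_up hi hx).1)
          (fun h => (mem_sdiff.1 hx).2 (h.1 hs))))
      have q2 := sD 1 (fun x _ => b1 x)
      linarith
    · have q1 := sD 0 (fun x hx => b0 x
        (ρ.not_phi_lt w hi h2.1 h2.2 (by rw [(lt_r hs).1]; exact (ρ.mem_dn hi hx).1)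
          (fun h => hs (h.2 (mem_sdiff.1 hx).1))))
      have q2 := sU 1 (fun x _ => b1 x)
      linarith
  · -- other level of the second tree
    rcases lt_or_gt_of_ne h3 with hlt | hgt
    · -- `lv < b`
      by_cases hs : T1.sd (ρ.a i) = true
      · have q1 := sU (-1) (fun x hx => bm x
          (ρ.not_phi_lt w hi h2.1 h2.2 (by rw [(lt_l hs).1]; exact (ρ.mem_up hi hx).1)
            (fun h => (mem_sdiff.1 hx).2 (h.1 hs)))
          (ρ.phi_lt w hi h2.1 h2.2 (by rw [(lt_l hs).1]; exact (ρ.mem_up hi hx).1) (hspU x hx).2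
            (Or.inl hlt) ⟨fun _ => (mem_sdiff.1 hx).1, fun _ => hs⟩))
        have q2 := sD 1 (fun x _ => b1 x)
        linarith
      · have q1 := sD (-1) (fun x hx => bm x
          (ρ.not_phi_lt w hi h2.1 h2.2 (by rw [(lt_r hs).1]; exact (ρ.mem_dn hi hx).1)
            (fun h => hs (h.2 (mem_sdiff.1 hx).1)))
          (ρ.phi_lt w hi h2.1 h2.2 (by rw [(lt_r hs).1]; exact (ρ.mem_dn hi hx).1) (hspD x hx).2
            (Or.inl hlt) ⟨fun h => absurd h hs, fun h => absurd h (mem_sdiff.1 hx).2⟩))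
        have q2 := sU 1 (fun x _ => b1 x)
        linarith
    · -- `b < lv`
      by_cases hs : T1.sd (ρ.a i) = true
      · have q1 := sU 0 (fun x hx => b0 x
          (ρ.not_phi_lt w hi h2.1 h2.2 (by rw [(lt_l hs).1]; exact (ρ.mem_up hi hx).1)
            (fun h => (mem_sdiff.1 hx).2 (h.1 hs))))
        have q2 := sD 0 (fun x hx => b0 x (ρ.not_phi_hv w hi h1
          (fun _ _ h => T1.lt_not_hv h (by rw [(lt_l hs).2]; exact (ρ.mem_dn hi hx).1))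
          (hspD x hx).1 (hspD x hx).2 (Or.inl hgt)))
        linarith
      · have q1 := sD 0 (fun x hx => b0 x
          (ρ.not_phi_lt w hi h2.1 h2.2 (by rw [(lt_r hs).1]; exact (ρ.mem_dn hi hx).1)
            (fun h => hs (h.2 (mem_sdiff.1 hx).1))))
        have q2 := sU 0 (fun x hx => b0 x (ρ.not_phi_hv w hi h1
          (fun _ _ h => T1.lt_not_hv h (by rw [(lt_r hs).2]; exact (ρ.mem_up hi hx).1))
          (hspU x hx).1 (hspU x hx).2 (Or.inl hgt)))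
        linarith
  · -- lower levels and irrelevant nodes, `lv ≤ b`
    have q1 := sU 1 (fun x _ => b1 x)
    have q2 := sD 1 (fun x _ => b1 x)
    linarith
  · -- lower levels and irrelevant nodes, `b < lv`
    have q1 := sU 0 (fun x hx => b0 x (ρ.not_phi_hv w hi h1 (fun h h' => absurd ⟨h, h'⟩ h2)
      (hspU x hx).1 (hspU x hx).2 (Or.inl (not_le.1 h5))))
    have q2 := sD 0 (fun x hx => b0 x (ρ.not_phi_hv w hi h1 (fun h h' => absurd ⟨h, h'⟩ h2)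
      (hspD x hx).1 (hspD x hx).2 (Or.inl (not_le.1 h5))))
    linarith

end Run

end Pool.Agent.Work.MP_e17eac_co.TROP

end

section

/-!
# Ring module: the graph of a slope
-/

namespace Pool.Agent.Work.MP_e17eac_co.RING

open Finset
open scoped Pointwise

namespace XRL

variable {a R K : ℝ} {A : Finset ℝ} {T : Finset (ℝ × ℝ)} {I : Finset ((ℝ × ℝ) × ℝ)}

/-- All classes of the slope `x₁`. -/
noncomputable def PP (T : Finset (ℝ × ℝ)) (I : Finset ((ℝ × ℝ) × ℝ)) (x₁ : ℝ) : Finset ℤ :=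
  cl (bb x₁) (T.filter fun p => (p, x₁) ∈ I)

/-- The graph of the slope `x`. -/
noncomputable def EE (T : Finset (ℝ × ℝ)) (I : Finset ((ℝ × ℝ) × ℝ)) (x₁ x₂ x : ℝ) :
    Finset (ℤ × ℤ) := (G T I x₁ x₂ x).image fun p => (⌊bb x₁ p⌋, ⌊bb x₂ p⌋)

lemma PP_le (h : Config a R K A T I) {x : ℝ} (hx : x ∈ A) :
    ((PP T I x).card : ℝ) ≤ K * R ^ a :=
  cl_le h hx _ fun _ hp => (mem_filter.mp hp).2

lemma EE_sub (x₁ x₂ x : ℝ) : EE T I x₁ x₂ x ⊆ PP T I x₁ ×ˢ PP T I x₂ := by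
  intro z hz
  rw [EE, mem_image] at hz
  obtain ⟨p, hp, rfl⟩ := hz
  rw [G, mem_filter] at hp
  rw [mem_product]
  exact ⟨mem_image.mpr ⟨p, mem_filter.mpr ⟨hp.1, hp.2.1⟩, rfl⟩,
    mem_image.mpr ⟨p, mem_filter.mpr ⟨hp.1, hp.2.2.1⟩, rfl⟩⟩

lemma cc_bd {W x₁ x₂ x : ℝ} (hW : 1 ≤ W) (hx : 0 ≤ x ∧ x ≤ 1) (hx₁ : 0 ≤ x₁ ∧ x₁ ≤ 1)
    (hx₂ : 0 ≤ x₂ ∧ x₂ ≤ 1) (h1 : 1 ≤ W * |x - x₁|) (h2 : 1 ≤ W * |x - x₂|) :
    |cc x₁ x₂ x| ≤ W ∧ 1 ≤ W * |cc x₁ x₂ x| := by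
  have hW0 : 0 < W := by linarith
  have e1 : |x - x₁| ≤ 1 := abs_le.mpr ⟨by linarith, by linarith⟩
  have e2 : |x - x₂| ≤ 1 := abs_le.mpr ⟨by linarith, by linarith⟩
  have p2 : 0 < |x - x₂| := by
    by_contra hc
    have : |x - x₂| = 0 := le_antisymm (not_lt.mp hc) (abs_nonneg _)
    rw [this] at h2
    linarith
  rw [cc, abs_div]
  constructor
  · rw [div_le_iff₀ p2]
    linarith
  · rw [← mul_div_assoc, le_div_iff₀ p2]
    linarith

lemma graph (hEdge : StEdge) (hCls : StCls) (hBSG : StBSG) (h : Config a R K A T I)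
    (hR : 1 ≤ R) (ha : 0 < a) (ha1 : a ≤ 1) (hK : 100 ≤ K) {W : ℝ} (hW : K ^ 10 ≤ W)
    {x₁ x₂ x : ℝ} (hx₁ : x₁ ∈ A) (hx₂ : x₂ ∈ A) (hx : x ∈ A) (h12 : 1 ≤ W * |x₁ - x₂|)
    (h1 : 1 ≤ W * |x - x₁|) (h2 : 1 ≤ W * |x - x₂|)
    (hG : (R ^ a) ^ 2 ≤ 4 * K ^ 8 * ((G T I x₁ x₂ x).card : ℝ)) :
    ∃ U ⊆ PP T I x₁, ∃ V ⊆ PP T I x₂, R ^ a ≤ (W ^ 3) ^ 22 * (U.card : ℝ) ∧
      R ^ a ≤ (W ^ 3) ^ 22 * (V.card : ℝ) ∧
      (((U ×ˢ V).image fun z : ℤ × ℤ => ⌊(z.1 : ℝ) - cc x₁ x₂ x * (z.2 : ℝ)⌋).card : ℝ) ≤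
        (W ^ 3) ^ 22 * R ^ a ∧
      ∀ u ∈ U, R ^ a ≤ (W ^ 3) ^ 22 *
        (((PP T I x₂).filter fun v => (u, v) ∈ EE T I x₁ x₂ x).card : ℝ) := by
  set k : ℝ := R ^ a with hk
  have hk1 : 1 ≤ k := Real.one_le_rpow hR ha.le
  have hK1 : 1 ≤ K := by linarith
  have hK10 : 100 ≤ K ^ 10 := by
    calc (100 : ℝ) ≤ K := hK
      _ = K ^ 1 := (pow_one K).symm
      _ ≤ K ^ 10 := pow_le_pow_right₀ hK1 (by norm_num)
  have hW100 : 100 ≤ W := hK10.trans hW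
  have hW1 : 1 ≤ W := by linarith
  have hW0 : 0 < W := by linarith
  have hKW : K ≤ W := by
    calc K = K ^ 1 := (pow_one K).symm
      _ ≤ K ^ 10 := pow_le_pow_right₀ hK1 (by norm_num)
      _ ≤ W := hW
  have hL : 100 ≤ W ^ 3 := by
    calc (100 : ℝ) ≤ W := hW100
      _ = W ^ 1 := (pow_one W).symm
      _ ≤ W ^ 3 := pow_le_pow_right₀ hW1 (by norm_num)
  have hWL : W ≤ W ^ 3 := by
    calc W = W ^ 1 := (pow_one W).symm
      _ ≤ W ^ 3 := pow_le_pow_right₀ hW1 (by norm_num)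
  have hc := cc_bd hW1 (h.slope x hx) (h.slope x₁ hx₁) (h.slope x₂ hx₂) h1 h2
  have s := h.slope x hx
  have s₁ := h.slope x₁ hx₁
  have s₂ := h.slope x₂ hx₂
  have hKL : K * k ≤ W ^ 3 * k := by gcongr; exact hKW.trans hWL
  refine hBSG (W ^ 3) k (cc x₁ x₂ x) (PP T I x₁) (PP T I x₂) (EE T I x₁ x₂ x) hL hk1
    (hc.1.trans hWL) (hc.2.trans (by gcongr)) (EE_sub x₁ x₂ x) ((PP_le h hx₁).trans hKL)
    ((PP_le h hx₂).trans hKL) ?_ ?_
  · have e1 := hEdge a K W x₁ x₂ T (G T I x₁ x₂ x) ha ha1 hK1 hW1 s₁.1 s₁.2 h12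
      (filter_subset _ _) (regT h)
    change _ ≤ 9 * K * W ^ 2 * ((EE T I x₁ x₂ x).card : ℝ) at e1
    calc k ^ 2 ≤ 4 * K ^ 8 * ((G T I x₁ x₂ x).card : ℝ) := hG
      _ ≤ 4 * K ^ 8 * (9 * K * W ^ 2 * ((EE T I x₁ x₂ x).card : ℝ)) := by gcongr
      _ = (36 * K ^ 9) * W ^ 2 * ((EE T I x₁ x₂ x).card : ℝ) := by ring
      _ ≤ W * W ^ 2 * ((EE T I x₁ x₂ x).card : ℝ) := by
        gcongr
        refine le_trans ?_ hW
        have : 0 < K ^ 9 := by positivity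
        nlinarith
      _ = W ^ 3 * ((EE T I x₁ x₂ x).card : ℝ) := by ring
  · have e2 := hCls W x₁ x₂ x (G T I x₁ x₂ x) hW1 (abs_le.mpr ⟨by linarith, by linarith⟩)
      (abs_le.mpr ⟨by linarith, by linarith⟩) h2
    refine e2.trans ?_
    have e3 := cl_le h hx (G T I x₁ x₂ x) (fun p hp => (mem_filter.mp hp).2.2.2)
    calc 5 * W * ((cl (bb x) (G T I x₁ x₂ x)).card : ℝ) ≤ 5 * W * (K * k) := by gcongr
      _ = (5 * K) * W * k := by ring
      _ ≤ (W * W) * W * k := by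
        gcongr
        nlinarith
      _ = W ^ 3 * k := by ring

end XRL

end Pool.Agent.Work.MP_e17eac_co.RING

end
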