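import Pool.Agent.Work.MP_e17eac_co.Bd.B16
import Pool.Agent.Work.MP_e17eac_co.PS.T_BaseEx
import Pool.Agent.Work.MP_e17eac_co.Bd.B08
import Pool.Agent.Work.MP_e17eac_co.Bd.B19
import Pool.Agent.Work.MP_e17eac_co.Bd.B17
import Pool.Agent.Work.MP_e17eac_co.Bd.B04

/-! Bundle of small proof modules (one section per former module). -/

section

/-!
# Sections 1 and 2: assembly
-/

namespace Pool.Agent.Work.MP_e17eac_co.PS

open Pool.Agent.Work.MP_e17eac_co.DH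

theorem TMDey : StMDey := I_MDey I_SweepAll.1 I_Cinj2 I_CrlP

theorem TT2 : StT2 := I_T2 I_SweepAll.2.1 I_SweepAll.2.2 TMDey

theorem TBaseEx : StBaseEx := I_BaseEx I_REG I_NL TT2

end Pool.Agent.Work.MP_e17eac_co.PS

end

section

/-!
# The window bound (T2) for index windows
-/

namespace Pool.Agent.Work.MP_e17eac_co.NF

open Finset
open Pool.Agent.Work.MP_e17eac_co.DH
open Pool.Agent.Work.MP_e17eac_co.PS
open Pool.Agent.Work.MP_e17eac_co.DH.XSWEEP (GP)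

/-- **T2 for index windows.** -/
def StT2I : Prop := ∃ C : ℝ, 1 ≤ C ∧ ∀ (ι : Type) [Fintype ι] [DecidableEq ι] (K : KSys ι),
  Function.Injective K.x → GP K.x K.y → ∀ (κ : Type) (A : Finset κ) (p q : κ → ℕ),
  (∀ c ∈ A, q c ≤ K.N) → (∀ c ∈ A, ∀ c' ∈ A, c ≠ c' → q c ≤ p c' ∨ q c' ≤ p c) →
  ∑ c ∈ A, ((K.lines (Ico (p c) (q c))).card : ℝ) ≤
    C * Fintype.card ι * (A.card : ℝ) ^ ((1 : ℝ) / 4)

/-- Number of index windows with many visited lines. -/
def StT2J : Prop := ∃ C : ℝ, 1 ≤ C ∧ ∀ (ι : Type) [Fintype ι] [DecidableEq ι] (K : KSys ι),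
  Function.Injective K.x → GP K.x K.y → ∀ (κ : Type) (A : Finset κ) (p q : κ → ℕ) (lam : ℝ),
  0 < lam → (∀ c ∈ A, q c ≤ K.N) →
  (∀ c ∈ A, ∀ c' ∈ A, c ≠ c' → q c ≤ p c' ∨ q c' ≤ p c) →
  (∀ c ∈ A, lam ≤ ((K.lines (Ico (p c) (q c))).card : ℝ)) →
  (A.card : ℝ) ≤ (C * Fintype.card ι / lam) ^ ((4 : ℝ) / 3)

namespace XT2I

variable {ι : Type} [Fintype ι] [DecidableEq ι]

open Classical in
/-- The time of an index (also for the index `N`). -/
noncomputable def tt (K : KSys ι) (n : ℕ) : ℝ :=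
  if n < K.N then K.t n else if K.N = 0 then 0 else K.t (K.N - 1) + 1

theorem tt_lt (K : KSys ι) {n k : ℕ} (hn : n < K.N) (h : n < k) : tt K n < tt K k := by
  unfold tt
  rw [if_pos hn]
  by_cases hk : k < K.N
  · rw [if_pos hk]
    exact K.t_lt n k h hk
  · rw [if_neg hk, if_neg (by omega)]
    rcases (show n ≤ K.N - 1 by omega).lt_or_eq with h1 | h1
    · have := K.t_lt n (K.N - 1) h1 (by omega)
      linarith
    · rw [← h1]; linarith

theorem tt_mono (K : KSys ι) {n k : ℕ} (h : n ≤ k) : tt K n ≤ tt K k := by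
  by_cases hn : n < K.N
  · rcases h.lt_or_eq with h1 | h1
    · exact (tt_lt K hn h1).le
    · rw [h1]
  · have hk : ¬ k < K.N := by omega
    unfold tt
    rw [if_neg hn, if_neg hk]

theorem vis_eq (K : KSys ι) (p q : ℕ) (hq : q ≤ K.N) :
    visI K (tt K p) (tt K q) = K.lines (Ico p q) := by
  classical
  unfold visI
  congr 1
  ext n
  rw [mem_filter, mem_range, mem_Ico]
  constructor
  · rintro ⟨h1, h2, h3⟩
    have e : K.t n = tt K n := by unfold tt; rw [if_pos h1]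
    rw [e] at h2 h3
    constructor
    · by_contra h
      have := tt_lt K h1 (not_le.1 h)
      linarith
    · by_contra h
      have := tt_mono K (not_lt.1 h)
      linarith
  · rintro ⟨h1, h2⟩
    have hn : n < K.N := by omega
    have e : K.t n = tt K n := by unfold tt; rw [if_pos hn]
    rw [e]
    exact ⟨hn, tt_mono K h1, tt_lt K hn h2⟩

end XT2I

open XT2I in
theorem I_T2I (hT2 : StT2) : StT2I := by
  obtain ⟨C, hC, h⟩ := hT2
  refine ⟨max C 1, le_max_right _ _, ?_⟩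
  intro ι _ _ K hx hg κ A p q hq hdis
  classical
  -- number the windows
  let f := A.equivFin
  let g : ℕ → Option κ := fun i => if hi : i < A.card then some (f.symm ⟨i, hi⟩ : κ) else none
  let P : ℕ → ℕ := fun i => if hi : i < A.card then p (f.symm ⟨i, hi⟩ : κ) else 0
  let R : ℕ → ℕ := fun i => if hi : i < A.card then q (f.symm ⟨i, hi⟩ : κ) else 0
  have h1 := h ι K hx hg (range A.card) (fun i => tt K (P i)) (fun i => tt K (R i)) (by
    intro c hc c' hc' hne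
    rw [mem_range] at hc hc'
    have e1 : P c = p (f.symm ⟨c, hc⟩ : κ) := by simp only [P, hc, dite_true]
    have e2 : R c = q (f.symm ⟨c, hc⟩ : κ) := by simp only [R, hc, dite_true]
    have e3 : P c' = p (f.symm ⟨c', hc'⟩ : κ) := by simp only [P, hc', dite_true]
    have e4 : R c' = q (f.symm ⟨c', hc'⟩ : κ) := by simp only [R, hc', dite_true]
    rw [e1, e2, e3, e4]
    rcases hdis _ (f.symm ⟨c, hc⟩).2 _ (f.symm ⟨c', hc'⟩).2 (by
      intro he
      have := f.symm.injective (Subtype.ext he)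
      exact hne (by simpa using this)) with h2 | h2
    · exact Or.inl (tt_mono K h2)
    · exact Or.inr (tt_mono K h2))
  rw [card_range] at h1
  have h2 : ∑ c ∈ A, ((K.lines (Ico (p c) (q c))).card : ℝ) =
      ∑ i ∈ range A.card, ((visI K (tt K (P i)) (tt K (R i))).card : ℝ) := by
    rw [← sum_coe_sort, ← Fin.sum_univ_eq_sum_range (fun i =>
      ((visI K (tt K (P i)) (tt K (R i))).card : ℝ))]
    refine Fintype.sum_equiv f _ _ fun c => ?_
    have e1 : P (f c) = p (c : κ) := by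
      simp only [P, (f c).2, dite_true, Fin.eta, Equiv.symm_apply_apply]
    have e2 : R (f c) = q (c : κ) := by
      simp only [R, (f c).2, dite_true, Fin.eta, Equiv.symm_apply_apply]
    rw [e1, e2, vis_eq K _ _ (hq _ c.2)]
  rw [h2]
  refine h1.trans ?_
  have h3 : C ≤ max C 1 := le_max_left _ _
  have h4 : (0 : ℝ) ≤ (A.card : ℝ) ^ ((1 : ℝ) / 4) := Real.rpow_nonneg (Nat.cast_nonneg _) _
  exact mul_le_mul_of_nonneg_right (mul_le_mul_of_nonneg_right h3 (Nat.cast_nonneg _)) h4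

theorem I_T2J (h : StT2I) : StT2J := by
  obtain ⟨C, hC, h⟩ := h
  refine ⟨C, hC, ?_⟩
  intro ι _ _ K hx hg κ A p q lam hlam hq hdis hbig
  have h1 := h ι K hx hg κ A p q hq hdis
  have h2 : (A.card : ℝ) * lam ≤ ∑ c ∈ A, ((K.lines (Ico (p c) (q c))).card : ℝ) := by
    rw [← nsmul_eq_mul]
    exact card_nsmul_le_sum _ _ _ hbig
  have h3 := h2.trans h1
  rcases Nat.eq_zero_or_pos A.card with h0 | h0
  · rw [h0]
    simp only [Nat.cast_zero]
    positivity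
  have hA : (0 : ℝ) < A.card := by exact_mod_cast h0
  have h4 : (A.card : ℝ) ^ ((3 : ℝ) / 4) ≤ C * Fintype.card ι / lam := by
    rw [le_div_iff₀ hlam]
    have e : (A.card : ℝ) = (A.card : ℝ) ^ ((3 : ℝ) / 4) * (A.card : ℝ) ^ ((1 : ℝ) / 4) := by
      rw [← Real.rpow_add hA]
      norm_num
    have hp : (0 : ℝ) < (A.card : ℝ) ^ ((1 : ℝ) / 4) := Real.rpow_pos_of_pos hA _
    have h5 : ((A.card : ℝ) ^ ((3 : ℝ) / 4) * lam) * (A.card : ℝ) ^ ((1 : ℝ) / 4) ≤
        (C * Fintype.card ι) * (A.card : ℝ) ^ ((1 : ℝ) / 4) := by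
      calc ((A.card : ℝ) ^ ((3 : ℝ) / 4) * lam) * (A.card : ℝ) ^ ((1 : ℝ) / 4)
          = ((A.card : ℝ) ^ ((3 : ℝ) / 4) * (A.card : ℝ) ^ ((1 : ℝ) / 4)) * lam := by ring
        _ = (A.card : ℝ) * lam := by rw [← e]
        _ ≤ _ := h3
    exact le_of_mul_le_mul_right h5 hp
  have h5 := Real.rpow_le_rpow (Real.rpow_nonneg hA.le _) h4 (show (0 : ℝ) ≤ 4 / 3 by norm_num)
  rw [← Real.rpow_mul hA.le] at h5
  norm_num at h5
  exact h5

/-- T2 for index windows, without hypotheses. -/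
theorem t2I : StT2I := I_T2I TT2

theorem t2J : StT2J := I_T2J t2I

end Pool.Agent.Work.MP_e17eac_co.NF

end

section

/-!
# Arbitrary sets, blueprint parts B-3 .. B-6: definitions

Mass radius, labels (output of A-II), hash classes (output of B-2), the one-sided structure.
`H` = hygiene constant (fixed), `D` = current loss.
-/

namespace Pool.Agent.Work.MP_e17eac_co.BB

open Finset
open Pool.Agent.Work.MP_e17eac_co.DH
open Pool.Agent.Work.MP_e17eac_co.B1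

variable {ι : Type} [Fintype ι] [DecidableEq ι]

/-- Distance of two lines over the base interval `[s0, e0]`. -/
noncomputable def dist0 (K : KSys ι) (s0 e0 : ℝ) (p q : ι) : ℝ :=
  max |K.ht p s0 - K.ht q s0| |K.ht p e0 - K.ht q e0|

/-- The number of lines of `S` at distance less than `ρ` from `p`. -/
noncomputable def mass (K : KSys ι) (S : Finset ι) (s0 e0 : ℝ) (p : ι) (ρ : ℝ) : ℕ :=
  (S.filter (fun q => dist0 K s0 e0 p q < ρ)).card

/-- The radius with `n r^(-j)` lines of `S` around `p`. -/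
noncomputable def rad (K : KSys ι) (S : Finset ι) (s0 e0 : ℝ) (r j : ℕ) (p : ι) : ℝ :=
  sSup {ρ : ℝ | (mass K S s0 e0 p ρ : ℝ) * (r : ℝ) ^ j ≤ Fintype.card ι}

/-- Labels of the edges at all levels, with time intervals (hulls) and radii. -/
structure Lab where
  /-- the label of an edge -/
  lab : ℕ → ℕ → ℕ
  /-- start of the hull -/
  h0 : ℕ → ℕ → ℝ
  /-- end of the hull -/
  h1 : ℕ → ℕ → ℝ
  /-- the radius -/
  del : ℕ → ℕ → ℝ

/-- The properties (L1)-(L7) of the labels of the edges `E` (levels `1 ≤ x ≤ m`). -/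
structure LabOK (K : KSys ι) (r m : ℕ) (D s0 e0 : ℝ) (L : Lab) (E : Finset ℕ) : Prop where
  base : s0 < e0
  lt : ∀ i ∈ E, i < K.N
  tm : ∀ i ∈ E, s0 ≤ K.t i ∧ K.t i ≤ e0
  leq : ∀ x, 1 ≤ x → x ≤ m → ∀ i ∈ E, ∀ i' ∈ E, L.lab x i = L.lab x i' →
    cell K r x i = cell K r x i' ∧ L.h0 x i = L.h0 x i' ∧ L.h1 x i = L.h1 x i' ∧
    L.del x i = L.del x i'
  line : ∀ x, 1 ≤ x → x ≤ m → ∀ i ∈ E, ∀ i' ∈ E, K.a i = K.a i' →
    cell K r x i = cell K r x i' → L.lab x i = L.lab x i'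
  few : ∀ x, 1 ≤ x → x ≤ m → ∀ c : ℕ,
    (((E.filter (fun i => cell K r x i = c)).image (L.lab x)).card : ℝ) ≤ D
  hull : ∀ x, 1 ≤ x → x ≤ m → ∀ i ∈ E, s0 ≤ L.h0 x i ∧ L.h0 x i < L.h1 x i ∧ L.h1 x i ≤ e0 ∧
    L.h0 x i ≤ K.t i ∧ K.t i ≤ L.h1 x i
  nest : ∀ x, 1 ≤ x → x + 1 ≤ m → ∀ i ∈ E, L.h0 x i ≤ L.h0 (x + 1) i ∧
    L.h1 (x + 1) i ≤ L.h1 x i
  disj : ∀ x, 1 ≤ x → x ≤ m → ∀ i ∈ E, ∀ i' ∈ E, cell K r x i < cell K r x i' →
    L.h1 x i < L.h0 x i'
  pos : ∀ x, 1 ≤ x → x ≤ m → ∀ i ∈ E, 0 < L.del x i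
  clo : ∀ x, 1 ≤ x → x ≤ m → ∀ i ∈ E, ∀ q : ι,
    |K.ht q (L.h0 x i) - K.ht (K.a i) (L.h0 x i)| < L.del x i →
    |K.ht q (L.h1 x i) - K.ht (K.a i) (L.h1 x i)| < L.del x i → q ∈ vis K r x (cell K r x i)
  con : ∀ x, 1 ≤ x → x ≤ m → ∀ i ∈ E, ∀ i' ∈ E, L.lab x i = L.lab x i' →
    |K.ht (K.a i) (L.h0 x i) - K.ht (K.a i') (L.h0 x i)| ≤ D * L.del x i ∧
    |K.ht (K.a i) (L.h1 x i) - K.ht (K.a i') (L.h1 x i)| ≤ D * L.del x i
  mono : ∀ x, 1 ≤ x → x + 1 ≤ m → ∀ i ∈ E, L.del (x + 1) i ≤ L.del x i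
  stag : ∀ x, 1 ≤ x → x + 3 ≤ m → ∀ i ∈ E, r * L.del (x + 3) i ≤ L.del x i
  short : ∀ x, 1 ≤ x → x ≤ m → ∀ i ∈ E,
    (L.h1 x i - L.h0 x i) * (r : ℝ) ^ (4 * x) ≤ r * (e0 - s0)

/-- The properties (H1), (H2), (H4), (H5) of the classes `κ` of level `y` on the edges `E`
(`S` = typical lines). -/
structure HashOK (K : KSys ι) (r : ℕ) (D : ℝ) (S : Finset ι) (y : ℕ) (κ : ι → ℕ)
    (E : Finset ℕ) : Prop where
  edge : ∀ i ∈ E, κ (K.a i) = κ (K.b i)
  key : SK.SKey K κ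
  act : ∀ B : ℕ, (((E.filter (fun i => κ (K.a i) = B)).image (cell K r y)).card : ℝ) ≤
    D * (r : ℝ) ^ y
  most : ∀ i ∈ E, 100 * ((S.filter (fun q => κ q = κ (K.a i))) \ vis K r y (cell K r y i)).card ≤
    (S.filter (fun q => κ q = κ (K.a i))).card

/-- Global assumptions: a dense level of lines in general position, `r` large with respect to the
losses `D` (exponent `C`), `n` large with respect to `r` and the number `m` of levels. -/
structure Big (K : KSys ι) (r m : ℕ) (H D : ℝ) (C : ℕ) : Prop where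
  std : Std K r m H
  gp : XSWEEP.GP K.x K.y
  HD : H ≤ D
  D2 : 2 ≤ D
  log : ((Nat.log 2 (Fintype.card ι) : ℝ) + 2) ≤ H
  ub : (K.N : ℝ) ≤ H * (Fintype.card ι : ℝ) ^ ((4 : ℝ) / 3)
  Dr : D ^ C ≤ r
  rn : (r : ℝ) ^ (C * (m + 1)) ≤ Fintype.card ι

/-- The two-sided structure with labels and hash classes for the levels `X0 ≤ y ≤ X1`
(excess `e`); all hulls of the side `false` are before `s1`, those of `true` after `s2`. -/
structure Two (K : KSys ι) (r m : ℕ) (H D s0 s1 s2 e0 : ℝ) (L : Lab) (κ : ℕ → ι → ℕ)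
    (e X0 X1 : ℕ) (P : Finset ι) (E : Bool → Finset ℕ) : Prop where
  ts : TS K r m H D P E
  lab : ∀ s, LabOK K r m D s0 e0 L (E s)
  left : ∀ x, 1 ≤ x → x ≤ m → ∀ i ∈ E false, L.h1 x i ≤ s1
  right : ∀ x, 1 ≤ x → x ≤ m → ∀ i ∈ E true, s2 ≤ L.h0 x i
  gap : e0 - s0 ≤ D * (s2 - s1)
  lev : 1 ≤ X0 ∧ X1 ≤ m
  hash : ∀ y, X0 ≤ y → y ≤ X1 → ∀ s, HashOK K r D (PS K r m H) y (κ y) (E s)
  beta : ∀ y, X0 ≤ y → y ≤ X1 → (P.image (κ y)).card ≤ r ^ (4 * y + e)

/-- The one-sided structure after B-3: levels `X2 ≤ x ≤ X4`, good levels `S` (every `l + 1`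
consecutive levels contain one of them), loss `kp` in (W). -/
structure One (K : KSys ι) (r m : ℕ) (H D s0 e0 : ℝ) (L : Lab) (κ : ℕ → ι → ℕ)
    (e kp l X2 X4 : ℕ) (S : Finset ℕ) (E : Finset ℕ) : Prop where
  hyg : ∀ i ∈ E, Hyg K r m H i
  card : (K.N : ℝ) ≤ D * E.card
  lab : LabOK K r m D s0 e0 L E
  lev : 1 ≤ X2 ∧ X4 + 1 ≤ m
  hash : ∀ y, X2 ≤ y → y ≤ X4 → HashOK K r D (PS K r m H) y (κ y) E
  beta : ∀ y, X2 ≤ y → y ≤ X4 → ((E.image K.a).image (κ y)).card ≤ r ^ (4 * y + e)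
  sub : S ⊆ Icc X2 X4
  gap : ∀ x, X2 ≤ x → x + l ≤ X4 → ∃ x' ∈ S, x ≤ x' ∧ x' ≤ x + l
  up : ∀ x, X2 ≤ x → x ≤ X4 → ∀ i ∈ E,
    L.del x i ≤ rad K (PS K r m H) s0 e0 r (4 * x - 1) (K.a i)
  low : ∀ x ∈ S, ∀ i ∈ E, rad K (PS K r m H) s0 e0 r (4 * x + kp) (K.a i) ≤ r * L.del x i
  dm : ∀ y, X2 ≤ y → y ≤ X4 → ∀ i ∈ E, ∀ i' ∈ E, κ y (K.a i) = κ y (K.a i') →
    dist0 K s0 e0 (K.a i) (K.a i') ≤ r * rad K (PS K r m H) s0 e0 r (4 * y - 1) (K.a i)

end Pool.Agent.Work.MP_e17eac_co.BB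

end

section

/-!
# Distance of two lines over the base interval, mass radius: basic facts
-/

namespace Pool.Agent.Work.MP_e17eac_co.B4

open Finset
open Pool.Agent.Work.MP_e17eac_co.DH
open Pool.Agent.Work.MP_e17eac_co.BB

variable {ι : Type} [Fintype ι] [DecidableEq ι]

section dist
variable (K : KSys ι) (s0 e0 : ℝ)

theorem dist0_self (p : ι) : dist0 K s0 e0 p p = 0 := by simp [dist0]

theorem dist0_comm (p q : ι) : dist0 K s0 e0 p q = dist0 K s0 e0 q p := by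
  simp only [dist0]
  rw [abs_sub_comm (K.ht p s0), abs_sub_comm (K.ht p e0)]

theorem dist0_nonneg (p q : ι) : 0 ≤ dist0 K s0 e0 p q :=
  le_trans (abs_nonneg _) (le_max_left _ _)

theorem dist0_tri (p q s : ι) :
    dist0 K s0 e0 p s ≤ dist0 K s0 e0 p q + dist0 K s0 e0 q s := by
  simp only [dist0]
  refine max_le ?_ ?_
  · refine le_trans (abs_sub_le _ (K.ht q s0) _) (add_le_add (le_max_left _ _) (le_max_left _ _))
  · refine le_trans (abs_sub_le _ (K.ht q e0) _) (add_le_add (le_max_right _ _) (le_max_right _ _))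

/-- Interpolation: the distance at a time of the base interval is at most `dist0`. -/
theorem abs_ht_le (p q : ι) (τ : ℝ) (h0 : s0 ≤ τ) (h1 : τ ≤ e0) :
    |K.ht p τ - K.ht q τ| ≤ dist0 K s0 e0 p q := by
  have hA : |K.ht p s0 - K.ht q s0| ≤ dist0 K s0 e0 p q := le_max_left _ _
  have hB : |K.ht p e0 - K.ht q e0| ≤ dist0 K s0 e0 p q := le_max_right _ _
  rw [abs_le] at hA hB ⊢
  simp only [KSys.ht] at hA hB ⊢
  set M := dist0 K s0 e0 p q
  rcases le_total (K.x q) (K.x p) with h | h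
  · constructor
    · nlinarith [hA.1, mul_le_mul_of_nonneg_left h0 (sub_nonneg.2 h)]
    · nlinarith [hB.2, mul_le_mul_of_nonneg_left h1 (sub_nonneg.2 h)]
  · constructor
    · nlinarith [hB.1, mul_le_mul_of_nonneg_left h1 (sub_nonneg.2 h)]
    · nlinarith [hA.2, mul_le_mul_of_nonneg_left h0 (sub_nonneg.2 h)]

theorem dist0_pos (hx : Function.Injective K.x) (hse : s0 < e0) {p q : ι} (hpq : p ≠ q) :
    0 < dist0 K s0 e0 p q := by
  rcases (dist0_nonneg K s0 e0 p q).lt_or_eq with h | h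
  · exact h
  · exfalso
    have hA : |K.ht p s0 - K.ht q s0| ≤ 0 := by rw [h]; exact le_max_left _ _
    have hB : |K.ht p e0 - K.ht q e0| ≤ 0 := by rw [h]; exact le_max_right _ _
    have hA' := abs_nonpos_iff.1 hA
    have hB' := abs_nonpos_iff.1 hB
    simp only [KSys.ht] at hA' hB'
    have : (K.x p - K.x q) * (e0 - s0) = 0 := by linarith
    rcases mul_eq_zero.1 this with h' | h'
    · exact hpq (hx (by linarith))
    · linarith

end dist

section mass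
variable (K : KSys ι) (S : Finset ι) (s0 e0 : ℝ)

theorem mass_mono {p : ι} {ρ ρ' : ℝ} (h : ρ ≤ ρ') :
    mass K S s0 e0 p ρ ≤ mass K S s0 e0 p ρ' := by
  classical
  unfold mass
  refine card_le_card (fun q hq => ?_)
  rw [mem_filter] at hq ⊢
  exact ⟨hq.1, lt_of_lt_of_le hq.2 h⟩

theorem mass_le_card (p : ι) (ρ : ℝ) : mass K S s0 e0 p ρ ≤ S.card := by
  unfold mass
  exact card_le_card (filter_subset _ _)

theorem mass_nonpos {p : ι} {ρ : ℝ} (h : ρ ≤ 0) : mass K S s0 e0 p ρ = 0 := by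
  unfold mass
  rw [card_eq_zero, filter_eq_empty_iff]
  intro q _ hq
  have := dist0_nonneg K s0 e0 p q
  linarith

theorem mass_shift {p p' : ι} {ρ d : ℝ} (hd : dist0 K s0 e0 p p' ≤ d) :
    mass K S s0 e0 p ρ ≤ mass K S s0 e0 p' (ρ + d) := by
  unfold mass
  refine card_le_card (fun q hq => ?_)
  rw [mem_filter] at hq ⊢
  refine ⟨hq.1, ?_⟩
  have := dist0_tri K s0 e0 p' p q
  rw [dist0_comm K s0 e0 p' p] at this
  linarith [hq.2]

theorem exists_all (p : ι) : ∃ M : ℝ, 0 < M ∧ ∀ ρ, M ≤ ρ → mass K S s0 e0 p ρ = S.card := by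
  refine ⟨∑ q ∈ S, dist0 K s0 e0 p q + 1, ?_, ?_⟩
  · have : 0 ≤ ∑ q ∈ S, dist0 K s0 e0 p q := sum_nonneg (fun q _ => dist0_nonneg _ _ _ _ _)
    linarith
  · intro ρ hρ
    unfold mass
    rw [filter_true_of_mem]
    intro q hq
    have := single_le_sum (f := fun q => dist0 K s0 e0 p q)
      (fun q _ => dist0_nonneg K s0 e0 p q) hq
    linarith

end mass

section rad
variable (K : KSys ι) (S : Finset ι) (s0 e0 : ℝ) (r j : ℕ)

theorem rad_bdd {p : ι} (h : (Fintype.card ι : ℝ) < S.card * (r : ℝ) ^ j) :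
    BddAbove {ρ : ℝ | (mass K S s0 e0 p ρ : ℝ) * (r : ℝ) ^ j ≤ Fintype.card ι} := by
  obtain ⟨M, -, hM⟩ := exists_all K S s0 e0 p
  refine ⟨M, fun ρ hρ => ?_⟩
  by_contra hcon
  push Not at hcon
  rw [Set.mem_ofPred_eq, hM ρ hcon.le] at hρ
  linarith

theorem rad_mem0 (p : ι) :
    (0 : ℝ) ∈ {ρ : ℝ | (mass K S s0 e0 p ρ : ℝ) * (r : ℝ) ^ j ≤ Fintype.card ι} := by
  rw [Set.mem_ofPred_eq, mass_nonpos K S s0 e0 le_rfl]
  simp

theorem le_rad {p : ι} (h : (Fintype.card ι : ℝ) < S.card * (r : ℝ) ^ j) {ρ : ℝ}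
    (hρ : (mass K S s0 e0 p ρ : ℝ) * (r : ℝ) ^ j ≤ Fintype.card ι) :
    ρ ≤ rad K S s0 e0 r j p :=
  le_csSup (rad_bdd K S s0 e0 r j h) hρ

theorem rad_nonneg {p : ι} (h : (Fintype.card ι : ℝ) < S.card * (r : ℝ) ^ j) :
    0 ≤ rad K S s0 e0 r j p :=
  le_rad K S s0 e0 r j h (rad_mem0 K S s0 e0 r j p)

/-- At most `n r^(-j)` lines are nearer than the radius. -/
theorem mass_rad {p : ι} (h : (Fintype.card ι : ℝ) < S.card * (r : ℝ) ^ j) :
    (mass K S s0 e0 p (rad K S s0 e0 r j p) : ℝ) * (r : ℝ) ^ j ≤ Fintype.card ι := by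
  classical
  set R := rad K S s0 e0 r j p with hR
  set F := S.filter (fun q => dist0 K s0 e0 p q < R) with hF
  rcases F.eq_empty_or_nonempty with hE | hE
  · have : mass K S s0 e0 p R = 0 := by unfold mass; rw [card_eq_zero]; exact hE
    rw [this]; simp
  · obtain ⟨q0, hq0, hmax⟩ := F.exists_max_image (fun q => dist0 K s0 e0 p q) hE
    have hlt : dist0 K s0 e0 p q0 < R := (mem_filter.1 hq0).2
    obtain ⟨ρ, hρA, hρ⟩ := exists_lt_of_lt_csSup ⟨0, rad_mem0 K S s0 e0 r j p⟩ hlt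
    have hle : mass K S s0 e0 p R ≤ mass K S s0 e0 p ρ := by
      unfold mass
      refine card_le_card (fun q hq => ?_)
      have hq' := mem_filter.1 hq
      exact mem_filter.2 ⟨hq'.1, lt_of_le_of_lt (hmax q hq) hρ⟩
    refine le_trans ?_ hρA
    have : (0 : ℝ) ≤ (r : ℝ) ^ j := by positivity
    exact mul_le_mul_of_nonneg_right (by exact_mod_cast hle) this

/-- More than `n r^(-j)` lines are nearer than `ρ`, if `ρ` is larger than the radius. -/
theorem lt_mass {p : ι} (h : (Fintype.card ι : ℝ) < S.card * (r : ℝ) ^ j) {ρ : ℝ}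
    (hρ : rad K S s0 e0 r j p < ρ) :
    (Fintype.card ι : ℝ) < (mass K S s0 e0 p ρ : ℝ) * (r : ℝ) ^ j := by
  by_contra hcon
  push Not at hcon
  have := le_rad K S s0 e0 r j h hcon
  linarith

/-- At most `n r^(-j)` lines are nearer than `ρ`, if `ρ` is at most the radius. -/
theorem mass_le_rad {p : ι} (h : (Fintype.card ι : ℝ) < S.card * (r : ℝ) ^ j) {ρ : ℝ}
    (hρ : ρ ≤ rad K S s0 e0 r j p) :
    (mass K S s0 e0 p ρ : ℝ) * (r : ℝ) ^ j ≤ Fintype.card ι := by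
  refine le_trans ?_ (mass_rad K S s0 e0 r j h (p := p))
  have : (0 : ℝ) ≤ (r : ℝ) ^ j := by positivity
  exact mul_le_mul_of_nonneg_right (by exact_mod_cast mass_mono K S s0 e0 hρ) this

theorem rad_anti (hr : 1 ≤ r) {j' : ℕ} {p : ι} (hj : j ≤ j')
    (h : (Fintype.card ι : ℝ) < S.card * (r : ℝ) ^ j) :
    rad K S s0 e0 r j' p ≤ rad K S s0 e0 r j p := by
  have hr1 : (1 : ℝ) ≤ r := by exact_mod_cast hr
  have hpow : (r : ℝ) ^ j ≤ (r : ℝ) ^ j' := pow_le_pow_right₀ hr1 hj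
  have h' : (Fintype.card ι : ℝ) < S.card * (r : ℝ) ^ j' :=
    lt_of_lt_of_le h (mul_le_mul_of_nonneg_left hpow (Nat.cast_nonneg _))
  exact le_rad K S s0 e0 r j h (le_trans (mul_le_mul_of_nonneg_left hpow (Nat.cast_nonneg _))
    (mass_rad K S s0 e0 r j' h'))

theorem rad_lip {p p' : ι} (h : (Fintype.card ι : ℝ) < S.card * (r : ℝ) ^ j) :
    rad K S s0 e0 r j p' ≤ rad K S s0 e0 r j p + dist0 K s0 e0 p p' := by
  have h1 := mass_rad K S s0 e0 r j h (p := p')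
  have h2 := mass_shift K S s0 e0 (p := p) (p' := p')
    (ρ := rad K S s0 e0 r j p' - dist0 K s0 e0 p p') (d := dist0 K s0 e0 p p') le_rfl
  rw [sub_add_cancel] at h2
  have h3 : rad K S s0 e0 r j p' - dist0 K s0 e0 p p' ≤ rad K S s0 e0 r j p := by
    refine le_rad K S s0 e0 r j h (le_trans ?_ h1)
    have : (0 : ℝ) ≤ (r : ℝ) ^ j := by positivity
    exact mul_le_mul_of_nonneg_right (by exact_mod_cast h2) this
  linarith

theorem rad_pos (hx : Function.Injective K.x) (hse : s0 < e0) {p : ι}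
    (h : (Fintype.card ι : ℝ) < S.card * (r : ℝ) ^ j)
    (hn : (r : ℝ) ^ j ≤ Fintype.card ι) : 0 < rad K S s0 e0 r j p := by
  classical
  obtain ⟨δ, hδ, hδ'⟩ : ∃ δ : ℝ, 0 < δ ∧ ∀ q, q ≠ p → δ ≤ dist0 K s0 e0 p q := by
    rcases (univ.erase p).eq_empty_or_nonempty with hE | hE
    · refine ⟨1, one_pos, fun q hq => ?_⟩
      have : q ∈ univ.erase p := mem_erase.2 ⟨hq, mem_univ _⟩
      rw [hE] at this; simp at this
    · obtain ⟨q0, hq0, hmin⟩ := (univ.erase p).exists_min_image (fun q => dist0 K s0 e0 p q) hE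
      exact ⟨dist0 K s0 e0 p q0, dist0_pos K s0 e0 hx hse (ne_of_mem_erase hq0).symm,
        fun q hq => hmin q (mem_erase.2 ⟨hq, mem_univ _⟩)⟩
  refine lt_of_lt_of_le hδ (le_rad K S s0 e0 r j h ?_)
  have hm : mass K S s0 e0 p δ ≤ 1 := by
    unfold mass
    refine le_trans (card_le_card (t := {p}) (fun q hq => ?_)) (by simp)
    rw [mem_singleton]
    by_contra hne
    have := hδ' q hne
    have := (mem_filter.1 hq).2
    linarith
  calc (mass K S s0 e0 p δ : ℝ) * (r : ℝ) ^ j ≤ 1 * (r : ℝ) ^ j :=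
        mul_le_mul_of_nonneg_right (by exact_mod_cast hm) (by positivity)
    _ ≤ Fintype.card ι := by rw [one_mul]; exact hn

end rad

end Pool.Agent.Work.MP_e17eac_co.B4

end

section

/-!
# Arbitrary sets, B-6, bridge, part 1: general counting lemmas
-/

set_option autoImplicit false

namespace Pool.Agent.Work.MP_e17eac_co.B6.Br

open Finset

/-- Cleaning: after deleting few elements all fibres of the functions `f k` are large. -/
theorem clean {α κ : Type} [DecidableEq α] [Fintype κ] (f : κ → ℕ → α) (thr : κ → ℝ)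
    (hthr : ∀ k, 0 ≤ thr k) : ∀ (n : ℕ) (E : Finset ℕ), E.card ≤ n → ∃ E' ⊆ E,
    (∀ k, ∀ i ∈ E', thr k ≤ ((E'.filter (fun j => f k j = f k i)).card : ℝ)) ∧
    ((E \ E').card : ℝ) ≤ ∑ k, thr k * ((E.image (f k)).card : ℝ) := by
  intro n
  induction n with
  | zero =>
      intro E hE
      have hE0 : E = ∅ := by
        rw [← Finset.card_eq_zero]
        omega
      subst hE0
      exact ⟨∅, le_rfl, by simp, by simp⟩
  | succ n ih =>
      intro E hE
      by_cases hgood : ∀ k, ∀ i ∈ E, thr k ≤ ((E.filter (fun j => f k j = f k i)).card : ℝ)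
      · refine ⟨E, le_rfl, hgood, ?_⟩
        rw [Finset.sdiff_self, Finset.card_empty, Nat.cast_zero]
        exact Finset.sum_nonneg (fun k _ => mul_nonneg (hthr k) (Nat.cast_nonneg _))
      · push Not at hgood
        obtain ⟨k0, i0, hi0, hlt⟩ := hgood
        set E1 := E.filter (fun j => ¬ f k0 j = f k0 i0) with hE1
        have hsub : E1 ⊆ E := filter_subset _ _
        have hi0' : i0 ∉ E1 := by simp [hE1]
        have hcard1 : E1.card < E.card := card_lt_card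
          (Finset.ssubset_iff_subset_ne.2 ⟨hsub, fun h => hi0' (h ▸ hi0)⟩)
        obtain ⟨E', hE', hgood', hle⟩ := ih E1 (by omega)
        refine ⟨E', hE'.trans hsub, hgood', ?_⟩
        have h1 : ((E \ E').card : ℝ) ≤ ((E.filter (fun j => f k0 j = f k0 i0)).card : ℝ) +
            ((E1 \ E').card : ℝ) := by
          have : (E \ E').card ≤ (E.filter (fun j => f k0 j = f k0 i0)).card +
              (E1 \ E').card := by
            refine (card_le_card ?_).trans (card_union_le _ _)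
            intro j hj
            rw [mem_sdiff] at hj
            rw [mem_union, mem_filter, mem_sdiff, hE1, mem_filter]
            by_cases h : f k0 j = f k0 i0
            · exact Or.inl ⟨hj.1, h⟩
            · exact Or.inr ⟨⟨hj.1, h⟩, hj.2⟩
          exact_mod_cast this
        have h2 : ∀ k, ((E1.image (f k)).card : ℝ) ≤ ((E.image (f k)).card : ℝ) := fun k => by
          exact_mod_cast card_le_card (image_subset_image hsub)
        have h3 : ((E1.image (f k0)).card : ℝ) + 1 ≤ ((E.image (f k0)).card : ℝ) := by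
          have : (E1.image (f k0)).card < (E.image (f k0)).card := by
            apply card_lt_card
            refine Finset.ssubset_iff_subset_ne.2 ⟨image_subset_image hsub, fun h => ?_⟩
            have h4 : f k0 i0 ∈ E1.image (f k0) := by
              rw [h]
              exact mem_image_of_mem _ hi0
            rw [mem_image] at h4
            obtain ⟨j, hj, hj'⟩ := h4
            rw [hE1, mem_filter] at hj
            exact hj.2 hj'
          exact_mod_cast this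
        classical
        have h4 : ∑ k, thr k * ((E1.image (f k)).card : ℝ) + thr k0 ≤
            ∑ k, thr k * ((E.image (f k)).card : ℝ) := by
          rw [← Finset.add_sum_erase _ _ (mem_univ k0), ← Finset.add_sum_erase univ
            (fun k => thr k * ((E.image (f k)).card : ℝ)) (mem_univ k0)]
          have h5 : ∑ k ∈ univ.erase k0, thr k * ((E1.image (f k)).card : ℝ) ≤
              ∑ k ∈ univ.erase k0, thr k * ((E.image (f k)).card : ℝ) :=
            Finset.sum_le_sum (fun k _ => mul_le_mul_of_nonneg_left (h2 k) (hthr k))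
          have h6 := mul_le_mul_of_nonneg_left h3 (hthr k0)
          linarith
        linarith

/-- Counting by fibres: if all fibres of `g` in `F` have at most `A` elements. -/
theorem card_le_image_mul {α : Type} [DecidableEq α] (F : Finset ℕ) (g : ℕ → α) (A : ℝ)
    (h : ∀ i ∈ F, ((F.filter (fun j => g j = g i)).card : ℝ) ≤ A) :
    (F.card : ℝ) ≤ ((F.image g).card : ℝ) * A := by
  classical
  have h1 : F.card = ∑ b ∈ F.image g, (F.filter (fun j => g j = b)).card :=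
    card_eq_sum_card_fiberwise (fun i hi => mem_image_of_mem g hi)
  rw [h1]
  push_cast
  calc ∑ b ∈ F.image g, ((F.filter (fun j => g j = b)).card : ℝ)
      ≤ ∑ _b ∈ F.image g, A := by
        refine Finset.sum_le_sum (fun b hb => ?_)
        obtain ⟨i, hi, rfl⟩ := mem_image.1 hb
        exact h i hi
    _ = ((F.image g).card : ℝ) * A := by rw [sum_const, nsmul_eq_mul]

end Pool.Agent.Work.MP_e17eac_co.B6.Br

end

section

/-!
# Arbitrary sets, blueprint part B-3 (note 2875): statements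

Two-sided metric lemmas UP, LOW, DIAM and the choice of the side.
-/

namespace Pool.Agent.Work.MP_e17eac_co.BB

open Finset
open Pool.Agent.Work.MP_e17eac_co.DH
open Pool.Agent.Work.MP_e17eac_co.B1

variable {ι : Type} [Fintype ι] [DecidableEq ι]

/-! ### Geometry of lines over the base interval -/

/-- `dist0` is a distance, and bounds the difference of the heights in the base interval. -/
def StDist : Prop := ∀ (ι : Type) [Fintype ι] [DecidableEq ι] (K : KSys ι) (s0 e0 : ℝ),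
  s0 < e0 → (∀ p q, 0 ≤ dist0 K s0 e0 p q) ∧ (∀ p, dist0 K s0 e0 p p = 0) ∧
  (∀ p q, dist0 K s0 e0 p q = dist0 K s0 e0 q p) ∧
  (∀ p q u, dist0 K s0 e0 p u ≤ dist0 K s0 e0 p q + dist0 K s0 e0 q u) ∧
  (Function.Injective K.x → ∀ p q, p ≠ q → 0 < dist0 K s0 e0 p q) ∧
  ∀ p q t, s0 ≤ t → t ≤ e0 → |K.ht p t - K.ht q t| ≤ dist0 K s0 e0 p q

/-- Two lines which are close at two separated times are close over the base interval. -/
def StTwoPt : Prop := ∀ (ι : Type) [Fintype ι] [DecidableEq ι] (K : KSys ι)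
  (s0 e0 D M t t' : ℝ), s0 < e0 → 1 ≤ D → 0 ≤ M → s0 ≤ t → t' ≤ e0 → e0 - s0 ≤ D * (t' - t) →
  ∀ p q, |K.ht p t - K.ht q t| ≤ M → |K.ht p t' - K.ht q t'| ≤ M →
  dist0 K s0 e0 p q ≤ 3 * D * M

/-- Properties of the mass radius. -/
def StRad : Prop := ∀ (ι : Type) [Fintype ι] [DecidableEq ι] (K : KSys ι) (S : Finset ι)
  (s0 e0 : ℝ) (r : ℕ), s0 < e0 → 1 ≤ r → ∀ j : ℕ, Fintype.card ι < S.card * r ^ j →
  (∀ p, 0 ≤ rad K S s0 e0 r j p) ∧
  (∀ p ρ, ρ ≤ rad K S s0 e0 r j p → mass K S s0 e0 p ρ * r ^ j ≤ Fintype.card ι) ∧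
  (∀ p ρ, rad K S s0 e0 r j p < ρ → Fintype.card ι < mass K S s0 e0 p ρ * r ^ j) ∧
  (∀ j', j ≤ j' → ∀ p, rad K S s0 e0 r j' p ≤ rad K S s0 e0 r j p) ∧
  (∀ p q, rad K S s0 e0 r j p ≤ rad K S s0 e0 r j q + dist0 K s0 e0 p q) ∧
  (Function.Injective K.x → r ^ j ≤ Fintype.card ι → ∀ p, 0 < rad K S s0 e0 r j p)

/-- The set of typical lines is large enough for all radii of positive level. -/
def StPSbig : Prop := ∀ (ι : Type) [Fintype ι] [DecidableEq ι] (K : KSys ι) (r m : ℕ)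
  (H D : ℝ) (P : Finset ι) (E : Bool → Finset ℕ), 0 < Fintype.card ι → D < r → 1 ≤ r →
  TS K r m H D P E → ∀ j : ℕ, 1 ≤ j → Fintype.card ι < (PS K r m H).card * r ^ j

/-! ### Inheritance -/

/-- The two-sided structure is inherited by substructures. -/
def StTwoSub : Prop := ∀ (ι : Type) [Fintype ι] [DecidableEq ι] (K : KSys ι) (r m : ℕ)
  (H D D' s0 s1 s2 e0 : ℝ) (L : Lab) (κ : ℕ → ι → ℕ) (e X0 X1 : ℕ) (P P' : Finset ι)
  (E E' : Bool → Finset ℕ), 1 ≤ D → D ≤ D' → Two K r m H D s0 s1 s2 e0 L κ e X0 X1 P E →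
  SubTS P' E' P E → TS K r m H D' P' E' → Two K r m H D' s0 s1 s2 e0 L κ e X0 X1 P' E'

/-! ### Counting shared labels -/

/-- The labels of level `x` of the edges of `E` at the line `p`. -/
def labs (K : KSys ι) (L : Lab) (E : Finset ℕ) (x : ℕ) (p : ι) : Finset ℕ :=
  (E.filter (fun i => K.a i = p)).image (L.lab x)

/-- **COUNT**: the lines of one class share labels on both sides (Cauchy-Schwarz). `F s` = the
edges whose labels count. -/
def StCount : Prop := ∃ C : ℕ, ∀ (ι : Type) [Fintype ι] [DecidableEq ι] (K : KSys ι) (r m : ℕ)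
  (H D s0 s1 s2 e0 : ℝ) (L : Lab) (κ : ℕ → ι → ℕ) (e X0 X1 : ℕ) (P : Finset ι)
  (E : Bool → Finset ℕ), Big K r m H D C → Two K r m H D s0 s1 s2 e0 L κ e X0 X1 P E →
  ∀ x, X0 ≤ x → x ≤ X1 → ∀ (F : Bool → Finset ℕ), (∀ s, F s ⊆ E s) → ∀ (B : ℕ), ∀ P1 ⊆ P,
  (∀ p ∈ P1, κ x p = B ∧ ∀ s, (K.N : ℝ) ≤
    D ^ 4 * Fintype.card ι * (((F s).filter (fun i => K.a i = p)).card : ℝ)) →
  (P1.card : ℝ) ^ 2 ≤ D ^ C * (((P1 ×ˢ P1).filter (fun z => ∀ s,
    (labs K L (F s) x z.1 ∩ labs K L (F s) x z.2).Nonempty)).card : ℝ)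

/-- Two lines which share labels on both sides are close. -/
def StShare : Prop := ∀ (ι : Type) [Fintype ι] [DecidableEq ι] (K : KSys ι) (r m : ℕ)
  (H D s0 s1 s2 e0 : ℝ) (L : Lab) (κ : ℕ → ι → ℕ) (e X0 X1 : ℕ) (P : Finset ι)
  (E : Bool → Finset ℕ), 2 ≤ D → Two K r m H D s0 s1 s2 e0 L κ e X0 X1 P E →
  ∀ x, 1 ≤ x → x ≤ m → ∀ (M : ℝ) (i i' j j' : ℕ), i ∈ E false → i' ∈ E false → j ∈ E true →
  j' ∈ E true → K.a i = K.a j → K.a i' = K.a j' → L.lab x i = L.lab x i' →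
  L.lab x j = L.lab x j' → L.del x i ≤ M → L.del x j ≤ M →
  dist0 K s0 e0 (K.a i) (K.a i') ≤ 3 * D ^ 2 * M

/-! ### UP, LOW, DIAM -/

/-- **UP** on the side `s` at the level `x`. -/
def StUp : Prop := ∀ e : ℕ, ∃ C C' : ℕ, ∀ (ι : Type) [Fintype ι] [DecidableEq ι] (K : KSys ι)
  (r m : ℕ) (H D s0 s1 s2 e0 : ℝ) (L : Lab) (κ : ℕ → ι → ℕ) (X0 X1 : ℕ) (P : Finset ι)
  (E : Bool → Finset ℕ), Big K r m H D C → Two K r m H D s0 s1 s2 e0 L κ e X0 X1 P E →
  ∀ x, X0 ≤ x → x ≤ X1 → ∀ s, ∃ (P' : Finset ι) (E' : Bool → Finset ℕ), SubTS P' E' P E ∧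
    TS K r m H (D ^ C') P' E' ∧
    ∀ i ∈ E' s, L.del x i ≤ rad K (PS K r m H) s0 e0 r (4 * x - 1) (K.a i)

/-- **LOW** at the level `x`. -/
def StLow : Prop := ∀ e : ℕ, ∃ C C' : ℕ, ∀ (ι : Type) [Fintype ι] [DecidableEq ι] (K : KSys ι)
  (r m : ℕ) (H D s0 s1 s2 e0 : ℝ) (L : Lab) (κ : ℕ → ι → ℕ) (X0 X1 : ℕ) (P : Finset ι)
  (E : Bool → Finset ℕ), Big K r m H D C → Two K r m H D s0 s1 s2 e0 L κ e X0 X1 P E →
  ∀ x, X0 ≤ x → x ≤ X1 → ∃ (P' : Finset ι) (E' : Bool → Finset ℕ), SubTS P' E' P E ∧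
    TS K r m H (D ^ C') P' E' ∧
    ∀ i ∈ E' false, ∀ j ∈ E' true, K.a i = K.a j →
      rad K (PS K r m H) s0 e0 r (4 * x + (e + 2)) (K.a i) ≤ r * max (L.del x i) (L.del x j)

/-- **DIAM** at the level `y`. -/
def StDiam : Prop := ∀ e : ℕ, ∃ C C' : ℕ, ∀ (ι : Type) [Fintype ι] [DecidableEq ι] (K : KSys ι)
  (r m : ℕ) (H D s0 s1 s2 e0 : ℝ) (L : Lab) (κ : ℕ → ι → ℕ) (X0 X1 : ℕ) (P : Finset ι)
  (E : Bool → Finset ℕ), Big K r m H D C → Two K r m H D s0 s1 s2 e0 L κ e X0 X1 P E →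
  ∀ y, X0 ≤ y → y ≤ X1 →
  (∀ s, ∀ i ∈ E s, L.del y i ≤ rad K (PS K r m H) s0 e0 r (4 * y - 1) (K.a i)) →
  ∃ (P' : Finset ι) (E' : Bool → Finset ℕ), SubTS P' E' P E ∧ TS K r m H (D ^ C') P' E' ∧
    ∀ p ∈ P', ∀ q ∈ P', κ y p = κ y q →
      dist0 K s0 e0 p q ≤ r * rad K (PS K r m H) s0 e0 r (4 * y - 1) p

/-! ### All levels -/

/-- The two-sided structure with the facts UP, LOW, DIAM at all levels. -/
structure TwoF (K : KSys ι) (r m : ℕ) (H D s0 s1 s2 e0 : ℝ) (L : Lab) (κ : ℕ → ι → ℕ)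
    (e X0 X1 : ℕ) (P : Finset ι) (E : Bool → Finset ℕ) : Prop where
  two : Two K r m H D s0 s1 s2 e0 L κ e X0 X1 P E
  up : ∀ x, X0 ≤ x → x ≤ X1 → ∀ s, ∀ i ∈ E s,
    L.del x i ≤ rad K (PS K r m H) s0 e0 r (4 * x - 1) (K.a i)
  low : ∀ x, X0 ≤ x → x ≤ X1 → ∀ i ∈ E false, ∀ j ∈ E true, K.a i = K.a j →
    rad K (PS K r m H) s0 e0 r (4 * x + (e + 2)) (K.a i) ≤ r * max (L.del x i) (L.del x j)
  dm : ∀ y, X0 ≤ y → y ≤ X1 → ∀ p ∈ P, ∀ q ∈ P, κ y p = κ y q →
    dist0 K s0 e0 p q ≤ r * rad K (PS K r m H) s0 e0 r (4 * y - 1) p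

/-- Passing to all levels (from UP, LOW, DIAM and inheritance). -/
def StTwoF : Prop := ∀ m e : ℕ, ∃ C C' : ℕ, ∀ (ι : Type) [Fintype ι] [DecidableEq ι]
  (K : KSys ι) (r : ℕ) (H D s0 s1 s2 e0 : ℝ) (L : Lab) (κ : ℕ → ι → ℕ) (X0 X1 : ℕ)
  (P : Finset ι) (E : Bool → Finset ℕ), Big K r m H D C →
  Two K r m H D s0 s1 s2 e0 L κ e X0 X1 P E →
  ∃ (P' : Finset ι) (E' : Bool → Finset ℕ), SubTS P' E' P E ∧
    TwoF K r m H (D ^ C') s0 s1 s2 e0 L κ e X0 X1 P' E'

/-- Gaps of a coloured interval of levels. -/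
def StColour : Prop := ∀ (Th : ℕ → ℕ), Monotone Th → ∀ (X0 X1 : ℕ) (σ : ℕ → Bool),
  X0 + Th (Th 1 + 1) ≤ X1 → ∃ (s : Bool) (l X2 X4 : ℕ), l ≤ Th 1 + 1 ∧ X0 ≤ X2 ∧
    X2 + Th l ≤ X4 ∧ X4 ≤ X1 ∧ ∀ x, X2 ≤ x → x + l ≤ X4 → ∃ x', σ x' = s ∧ x ≤ x' ∧ x' ≤ x + l

/-- Choice of the colouring: a substructure with one colouring for all lines. -/
def StSide : Prop := ∀ m e : ℕ, ∃ C C' : ℕ, ∀ (ι : Type) [Fintype ι] [DecidableEq ι]
  (K : KSys ι) (r : ℕ) (H D s0 s1 s2 e0 : ℝ) (L : Lab) (κ : ℕ → ι → ℕ) (X0 X1 : ℕ)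
  (P : Finset ι) (E : Bool → Finset ℕ), Big K r m H D C →
  TwoF K r m H D s0 s1 s2 e0 L κ e X0 X1 P E →
  ∃ (P' : Finset ι) (E' : Bool → Finset ℕ) (σ : ℕ → Bool), SubTS P' E' P E ∧
    TwoF K r m H (D ^ C') s0 s1 s2 e0 L κ e X0 X1 P' E' ∧
    ∀ x, X0 ≤ x → x ≤ X1 → ∀ i ∈ E' (σ x),
      rad K (PS K r m H) s0 e0 r (4 * x + (e + 2)) (K.a i) ≤ r * L.del x i

/-- **B-3**: from the two-sided structure to the one-sided structure. `Th l` = length of the
interval of levels needed for the gap `l`. -/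
def StB3 : Prop := ∀ (m e : ℕ) (Th : ℕ → ℕ), Monotone Th → ∃ C C' : ℕ, ∀ (ι : Type)
  [Fintype ι] [DecidableEq ι] (K : KSys ι) (r : ℕ) (H D s0 s1 s2 e0 : ℝ) (L : Lab)
  (κ : ℕ → ι → ℕ) (X0 X1 : ℕ) (P : Finset ι) (E : Bool → Finset ℕ), Big K r m H D C →
  Two K r m H D s0 s1 s2 e0 L κ e X0 X1 P E → X0 + Th (Th 1 + 1) ≤ X1 → X1 + 1 ≤ m →
  ∃ (s : Bool) (l X2 X4 : ℕ) (S E' : Finset ℕ), l ≤ Th 1 + 1 ∧ X0 ≤ X2 ∧ X2 + Th l ≤ X4 ∧
    X4 ≤ X1 ∧ E' ⊆ E s ∧ One K r m H (D ^ C') s0 e0 L κ e (e + 2) l X2 X4 S E'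

end Pool.Agent.Work.MP_e17eac_co.BB

end

section

/-!
# Arbitrary sets, blueprint part B-6 (note 2886): statement of the bridge

From the one-sided structure with the linear profile at all edges (conclusion of B-5, theorem
`BB.profile`) to the abstract configuration `CFG.Cfg`.
-/

set_option autoImplicit false

namespace Pool.Agent.Work.MP_e17eac_co.B6

open Finset
open Pool.Agent.Work.MP_e17eac_co.DH
open Pool.Agent.Work.MP_e17eac_co.B1
open Pool.Agent.Work.MP_e17eac_co.BB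

variable {ι : Type} [Fintype ι] [DecidableEq ι]

/-- The profile of the radii of the line of the edge `i`: `u j = - log (rad (4 (X3 + k j)))`. -/
noncomputable def uu (K : KSys ι) (r m : ℕ) (H s0 e0 : ℝ) (X3 k i : ℕ) (j : ℕ) : ℝ :=
  - Real.log (rad K (PS K r m H) s0 e0 r (4 * (X3 + k * j)) (K.a i))

/-- The profile of the lengths of the hulls of the edge `i`. -/
noncomputable def gg (s0 e0 : ℝ) (L : Lab) (i : ℕ) (z : ℕ) : ℝ :=
  - Real.log ((L.h1 z i - L.h0 z i) / (e0 - s0))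

/-- The linear profile at the edge `i` (conclusion of `BB.profile`). -/
structure PrAt (K : KSys ι) (r m : ℕ) (H s0 e0 : ℝ) (L : Lab) (k X3 I dm : ℕ) (i : ℕ) : Prop where
  left : ∀ j d, j + d ≤ I →
    uu K r m H s0 e0 X3 k i (j + d) - uu K r m H s0 e0 X3 k i j ≤ gg s0 e0 L i (2 * k * d + k)
  right : ∀ j d, j + d + 1 ≤ I → gg s0 e0 L i (2 * k * d + k) ≤
    uu K r m H s0 e0 X3 k i (j + d + 1) - uu K r m H s0 e0 X3 k i j
  lin : ∀ j d, d ≤ dm → j + d ≤ I →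
    (uu K r m H s0 e0 X3 k i I - uu K r m H s0 e0 X3 k i 0) / I * ((d : ℝ) - 2) ≤
      uu K r m H s0 e0 X3 k i (j + d) - uu K r m H s0 e0 X3 k i j ∧
    uu K r m H s0 e0 X3 k i (j + d) - uu K r m H s0 e0 X3 k i j ≤
      (uu K r m H s0 e0 X3 k i I - uu K r m H s0 e0 X3 k i 0) / I * ((d : ℝ) + 2)
  th : 4 * (k : ℝ) * Real.log r ≤
    (uu K r m H s0 e0 X3 k i I - uu K r m H s0 e0 X3 k i 0) / I

open Classical in
/-- **B-6**: there is an absolute `d0` such that the one-sided structure with the profile for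
`dm ≥ d0`, the growth (G) of the radii and the bound (F) for the numbers of labels is
contradictory. -/
def StB6 : Prop := ∃ d0 : ℕ, ∀ (dm I : ℕ), d0 ≤ dm → (dm + 2) ^ 2 ≤ I →
  ∀ (m e kp l k k6 k8 : ℕ), e + k6 + k8 + l + 10 ≤ k → ∃ C : ℕ, ∀ (ι : Type) [Fintype ι]
  [DecidableEq ι] (K : KSys ι) (r : ℕ) (H D s0 e0 : ℝ) (L : Lab) (κ : ℕ → ι → ℕ)
  (X2 X4 : ℕ) (S E : Finset ℕ), Big K r m H D C → One K r m H D s0 e0 L κ e kp l X2 X4 S E →
  2 * (k * I) ≤ X2 → X2 + (k * I + 2 * k) ≤ X4 →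
  (∀ i ∈ E, ∀ j, 4 * X2 ≤ j → j + k6 ≤ 4 * X4 →
    (r : ℝ) ^ 2 * rad K (PS K r m H) s0 e0 r (j + k6) (K.a i) ≤
      rad K (PS K r m H) s0 e0 r j (K.a i)) →
  (∀ x ∈ S, ∀ y, X2 + k6 ≤ y → y < x → x ≤ 2 * y → x + k ≤ X4 →
    (E.image (fun i => (L.lab x i, κ y (K.a i)))).card ≤ r ^ (3 * x + 2 * y + k8)) →
  (∀ i ∈ E, PrAt K r m H s0 e0 L k (X2 + k) I dm i) → False

end Pool.Agent.Work.MP_e17eac_co.B6

end

section

/-!
# Arbitrary sets, B-6, bridge, part 2: cells of a line, intervals, radii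
-/

set_option autoImplicit false

namespace Pool.Agent.Work.MP_e17eac_co.B6.Br

open Finset
open Pool.Agent.Work.MP_e17eac_co.DH
open Pool.Agent.Work.MP_e17eac_co.B1
open Pool.Agent.Work.MP_e17eac_co.BB

variable {ι : Type} [Fintype ι] [DecidableEq ι]

/-- The line `a i` is visited in the cell of `i`. -/
theorem a_mem_vis (K : KSys ι) (r x i : ℕ) (hi : i < K.N) : K.a i ∈ vis K r x (cell K r x i) := by
  unfold vis KSys.lines ce
  refine mem_union_left _ (mem_image.2 ⟨i, ?_, rfl⟩)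
  rw [mem_filter, mem_range]
  exact ⟨hi, rfl⟩

/-- Upper bound for the number of cells of level `x` in a cell of level `z` at a line. -/
theorem cells_le (hCell : StCell) (K : KSys ι) (r m : ℕ) (H : ℝ) (hr : 1 ≤ r) (E : Finset ℕ)
    (hE : ∀ i ∈ E, Hyg K r m H i) (z x : ℕ) (hzx : z ≤ x) (hx : x ≤ m) (i : ℕ) (hi : i ∈ E) :
    (((E.filter (fun j => K.a j = K.a i ∧ cell K r z j = cell K r z i)).image
      (cell K r x)).card : ℝ) ≤ H * (r : ℝ) ^ (x - z) := by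
  have h0 := hCell ι K r x hr
  have h1 := (hE i hi).rel false z (hzx.trans hx)
  unfold PSr at h1
  rw [mem_filter] at h1
  have h2 := h1.2 x hzx hx
  refine le_trans ?_ h2
  unfold Wr
  have : ((E.filter (fun j => K.a j = K.a i ∧ cell K r z j = cell K r z i)).image
      (cell K r x)).card ≤ ((range (r ^ (4 * x))).filter (fun w =>
        w / r ^ (4 * (x - z)) = cell K r z i ∧ K.ln false i ∈ vis K r x w)).card := by
    apply card_le_card
    intro w hw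
    rw [mem_image] at hw
    obtain ⟨j, hj, rfl⟩ := hw
    rw [mem_filter] at hj
    have hjN := (hE j hj.1).lt
    rw [mem_filter, mem_range]
    refine ⟨h0.1 j hjN, ?_, ?_⟩
    · rw [← h0.2.2.1 z hzx j]
      exact hj.2.2
    · have : K.ln false i = K.a j := hj.2.1.symm
      rw [this]
      exact a_mem_vis K r x j hjN
  exact_mod_cast this

/-- Lower bound for the number of cells of level `x` of a set of edges of one line. -/
theorem cells_ge (K : KSys ι) (r m : ℕ) (H : ℝ) (E F : Finset ℕ) (hF : F ⊆ E)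
    (hE : ∀ i ∈ E, Hyg K r m H i) (x : ℕ) (hx : x ≤ m) (p : ι) (hp : ∀ i ∈ F, K.a i = p) :
    (F.card : ℝ) * (Fintype.card ι * (r : ℝ) ^ x) ≤
      ((F.image (cell K r x)).card : ℝ) * (H * K.N) := by
  rcases F.eq_empty_or_nonempty with rfl | hne
  · simp
  by_cases hn : (Fintype.card ι * (r : ℝ) ^ x) = 0
  · rw [hn, mul_zero]
    obtain ⟨i, hi⟩ := hne
    have h1 := (hE i (hF hi)).light false x hx
    rw [hn, mul_zero] at h1
    positivity
  · have hpos : (0 : ℝ) < Fintype.card ι * (r : ℝ) ^ x := lt_of_le_of_ne (by positivity) (Ne.symm hn)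
    have h1 := card_le_image_mul F (cell K r x) (H * K.N / (Fintype.card ι * (r : ℝ) ^ x)) (by
      intro i hi
      rw [le_div_iff₀ hpos]
      have h1 := (hE i (hF hi)).light false x hx
      refine le_trans ?_ h1
      gcongr
      intro j hj
      rw [mem_filter] at hj ⊢
      rw [mem_range]
      refine ⟨(hE j (hF hj.1)).lt, ?_, hj.2⟩
      show K.a j = K.a i
      rw [hp j hj.1, hp i hi])
    have h2 := mul_le_mul_of_nonneg_right h1 hpos.le
    rw [mul_assoc, div_mul_cancel₀ _ hn] at h2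
    exact h2

/-- Disjoint long intervals with marked points in a short interval are few. -/
theorem few_intervals (F : Finset ℕ) (a b t : ℕ → ℝ) (y δ : ℝ)
    (hat : ∀ c ∈ F, a c ≤ t c ∧ t c ≤ b c) (hd : ∀ c ∈ F, ∀ c' ∈ F, c < c' → b c < a c')
    (hl : ∀ c ∈ F, δ ≤ b c - a c) (ht : ∀ c ∈ F, |t c - y| ≤ δ) : F.card ≤ 3 := by
  by_contra hcon
  push Not at hcon
  obtain ⟨F', hF', hF4⟩ := Finset.exists_subset_card_eq (show 4 ≤ F.card by omega)
  set g := F'.orderEmbOfFin hF4 with hg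
  have hm : ∀ i, g i ∈ F := fun i => hF' (F'.orderEmbOfFin_mem hF4 i)
  have h01 := hd _ (hm 0) _ (hm 1) (g.strictMono (by decide))
  have h12 := hd _ (hm 1) _ (hm 2) (g.strictMono (by decide))
  have h23 := hd _ (hm 2) _ (hm 3) (g.strictMono (by decide))
  have l1 := hl _ (hm 1)
  have l2 := hl _ (hm 2)
  have t0 := abs_le.1 (ht _ (hm 0))
  have t3 := abs_le.1 (ht _ (hm 3))
  have a0 := hat _ (hm 0)
  have a3 := hat _ (hm 3)
  linarith [t0.1, t0.2, t3.1, t3.2, a0.1, a0.2, a3.1, a3.2]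

end Pool.Agent.Work.MP_e17eac_co.B6.Br

end
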