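import Pool.Agent.Work.MP_e17eac_co.AS2.P_Lev
import Pool.Agent.Work.MP_e17eac_co.Bd.B20
import Pool.Agent.Work.MP_e17eac_co.BB.St4
import Pool.Agent.Work.MP_e17eac_co.BB.Prof

/-! Bundle of small proof modules (one section per former module). -/

section

/-!
# Item Root: the root pair
-/

namespace Pool.Agent.Work.MP_e17eac_co.AS2

open Finset
open Pool.Agent.Work.MP_e17eac_co.DH
open Pool.Agent.Work.MP_e17eac_co.DH.XSWEEP (GP)
open Pool.Agent.Work.MP_e17eac_co.MX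

namespace XRoot

theorem pig {α β : Type} [DecidableEq α] [DecidableEq β] (P : Finset α) (T : Finset β) (f : α → β)
    (hf : ∀ p ∈ P, f p ∈ T) (hT : T.Nonempty) :
    ∃ w ∈ T, P.card ≤ T.card * (P.filter (fun p => f p = w)).card := by
  by_contra hcon
  push Not at hcon
  have h1 : ∑ w ∈ T, T.card * (P.filter (fun p => f p = w)).card < ∑ _w ∈ T, P.card :=
    sum_lt_sum_of_nonempty hT fun w hw => hcon w hw
  rw [← mul_sum, ← card_eq_sum_card_fiberwise (fun x hx => hf x hx), sum_const, smul_eq_mul] at h1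
  exact lt_irrefl _ h1

end XRoot

open XLev XRoot in
set_option maxHeartbeats 4000000 in
theorem I_Root (h1 : StReg) (h2 : StDeyI) (h3 : StMc) (h4 : StUp) (h5 : StLow) (h6 : StGP) :
    StRoot := by
  classical
  obtain ⟨CU, hCU, h4⟩ := h4
  obtain ⟨CL, hCL, h5⟩ := h5
  obtain ⟨CG, h6⟩ := h6
  intro D
  obtain ⟨g0, hg0⟩ : ∃ g0 : ℕ, g0 = CG * (D + 1 + 1) := ⟨_, rfl⟩
  refine ⟨9 * (D + 2) + 3 * g0 + D + 10, g0, fun η hη => ?_⟩
  obtain ⟨mG, h6⟩ := h6 η (D + 1) hη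
  obtain ⟨mL, hmL⟩ := logb η hη
  obtain ⟨mQ, hmQ⟩ : ∃ m1 : ℕ, ∀ n : ℕ, m1 ≤ n → 16 + CL + CU ≤ (n : ℝ) ^ η := by
    have := (tendsto_rpow_atTop hη).comp (tendsto_natCast_atTop_atTop (R := ℝ))
    obtain ⟨m1, h⟩ := Filter.eventually_atTop.1 (this.eventually_ge_atTop (16 + CL + CU))
    exact ⟨m1, fun n hn => h n hn⟩
  refine ⟨max mG (max mL (max mQ 1)), ?_⟩
  intro ι _ _ K hx hgp hn0 Q hQη hQN hQA E hE hEN
  have hnG : mG ≤ Fintype.card ι := le_trans (le_max_left _ _) hn0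
  have hnL : mL ≤ Fintype.card ι := le_trans (le_trans (le_max_left _ _) (le_max_right _ _)) hn0
  have hnQ : mQ ≤ Fintype.card ι := le_trans (le_trans (le_trans (le_max_left _ _)
    (le_max_right _ _)) (le_max_right _ _)) hn0
  have hn1 : 1 ≤ Fintype.card ι := le_trans (le_trans (le_trans (le_max_right _ _)
    (le_max_right _ _)) (le_max_right _ _)) hn0
  set n := Fintype.card ι with hn
  have hn1R : (1 : ℝ) ≤ n := by exact_mod_cast hn1
  have hQR : 16 + CL + CU ≤ (Q : ℝ) := le_trans (hmQ _ hnQ) hQη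
  have hQ16 : (16 : ℝ) ≤ Q := by linarith
  have hQ16' : 16 ≤ Q := by exact_mod_cast hQ16
  have hQL : CL ≤ Q := by linarith
  have hQU : CU ≤ Q := by linarith
  have hQ1 : 1 ≤ Q := by omega
  have hQ1R : (1 : ℝ) ≤ Q := by linarith
  -- `n ≤ Q * N`
  have hnQN : n ≤ Q * K.N := by
    have : (n : ℝ) ≤ Q * K.N := by
      refine le_trans ?_ hQN
      calc (n : ℝ) = (n : ℝ) ^ (1 : ℝ) := (Real.rpow_one _).symm
        _ ≤ (n : ℝ) ^ ((4 : ℝ) / 3) := Real.rpow_le_rpow_of_exponent_le hn1R (by norm_num)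
    exact_mod_cast this
  have hN1 : 1 ≤ K.N := by
    by_contra h
    have : K.N = 0 := by omega
    rw [this] at hnQN
    omega
  have hEne : E.Nonempty := by
    rw [nonempty_iff_ne_empty]
    intro h
    rw [h] at hEN
    simp at hEN
    omega
  have hgN : Q ^ g0 ≤ K.N := by
    have h'' : Q * Q ^ g0 ≤ Q * K.N := by
      calc Q * Q ^ g0 = Q ^ (g0 + 1) := by ring
        _ ≤ Q ^ (9 * (D + 2) + 3 * g0 + D + 10) := Nat.pow_le_pow_right hQ1 (by omega)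
        _ ≤ n := hQA
        _ ≤ Q * K.N := hnQN
    exact Nat.le_of_mul_le_mul_left h'' (by omega)
  have hQg1 : 1 ≤ Q ^ g0 := Nat.one_le_pow _ _ (by omega)
  have hcardE : E.card ≤ 16 * n ^ 2 := by
    refine le_trans ?_ (N_le h2 K hx hn1)
    simpa using card_le_card hE
  -- cells
  have hc := (h3 ι K 1 (by omega)).1
  have hdiv := (h3 ι K 1 (by omega)).2 (Q ^ g0) (by omega)
  have hcp := (h3 ι K (1 * Q ^ g0) (Nat.mul_pos (by omega) (by omega))).1
  rw [one_mul] at hcp hdiv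
  set c := mc K 1 with hcdef
  set cp := mc K (Q ^ g0) with hcpdef
  have href : Ref K c cp := by
    intro i j _ _ hij
    rw [← hdiv i, ← hdiv j, hij]
  -- regular subset
  obtain ⟨E1, hE1, hE1c, hr1, _⟩ := regul h1 E hEne (fun i => (cp i, K.a i))
    (fun i => (cp i, K.a i)) (Q : ℝ) (le_trans (hmL n hnL _ hcardE) hQη)
  have hE1c' : E.card ≤ Q * E1.card := by exact_mod_cast hE1c
  have hE1N : K.N ≤ Q ^ (D + 1) * E1.card := by
    calc K.N ≤ Q ^ D * E.card := hEN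
      _ ≤ Q ^ D * (Q * E1.card) := Nat.mul_le_mul_left _ hE1c'
      _ = Q ^ (D + 1) * E1.card := by ring
  have hE1r : E1 ⊆ range K.N := hE1.trans hE
  -- good pairs
  have hF0 : Q * (E1.filter (fun i => ¬ HasGood K c cp Q E1 i)).card ≤ E1.card :=
    h6 ι K hx hgp hnG Q hQη hQN 1 (Q ^ g0) le_rfl (by rw [hg0]) (by rw [one_mul]; exact hgN) c cp
      hc (by rw [one_mul]; exact hcp) href E1 hE1r hE1N _
      (filter_subset _ _) (fun i hi => (mem_filter.1 hi).2)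
  have hch : ∀ p : ι, ∃ kl : ℕ × ℕ,
      (∃ k ∈ E1, ∃ l ∈ E1, K.a k = p ∧ GoodP K c cp Q k l) →
      (kl.1 ∈ E1 ∧ kl.2 ∈ E1 ∧ K.a kl.1 = p ∧ GoodP K c cp Q kl.1 kl.2) := by
    intro p
    by_cases h : ∃ k ∈ E1, ∃ l ∈ E1, K.a k = p ∧ GoodP K c cp Q k l
    · obtain ⟨k, hk, l, hl, h⟩ := h
      exact ⟨(k, l), fun _ => ⟨hk, hl, h⟩⟩
    · exact ⟨(0, 0), fun h' => absurd h' h⟩
  choose kl hkl using hch
  set U := E1.filter (fun i => HasGood K c cp Q E1 i) with hU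
  have hUE : E1.card ≤ 2 * U.card := by
    have hs : U.card + (E1.filter (fun i => ¬ HasGood K c cp Q E1 i)).card = E1.card := by
      rw [hU]
      exact card_filter_add_card_filter_not _
    have h' : 16 * (E1.filter (fun i => ¬ HasGood K c cp Q E1 i)).card ≤ E1.card :=
      le_trans (Nat.mul_le_mul_right _ hQ16') hF0
    omega
  have hUN : K.N ≤ Q ^ (D + 2) * U.card := by
    calc K.N ≤ Q ^ (D + 1) * E1.card := hE1N
      _ ≤ Q ^ (D + 1) * (Q * U.card) :=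
          Nat.mul_le_mul_left _ (le_trans hUE (Nat.mul_le_mul_right _ (by omega)))
      _ = Q ^ (D + 2) * U.card := by ring
  have hUr : U ⊆ range K.N := (filter_subset _ _).trans hE1r
  set P0 := U.image K.a with hP0
  have hP0d : ∀ p ∈ P0, (kl p).1 ∈ E1 ∧ (kl p).2 ∈ E1 ∧ K.a (kl p).1 = p ∧
      GoodP K c cp Q (kl p).1 (kl p).2 := by
    intro p hp
    obtain ⟨i, hi, rfl⟩ := mem_image.1 hp
    obtain ⟨k, hk, l, hl, b1, _, b3⟩ := (mem_filter.1 hi).2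
    exact hkl _ ⟨k, hk, l, hl, b1, b3⟩
  have hlow := (h5 ι K hx hgp 1 c le_rfl hN1 hc U hUr ((Q : ℝ) ^ (D + 2)) (one_le_pow₀ hQ1R)
    (by exact_mod_cast hUN) (by
      refine le_trans hQN (mul_le_mul_of_nonneg_right ?_ (Nat.cast_nonneg _))
      calc (Q : ℝ) = (Q : ℝ) ^ 1 := (pow_one _).symm
        _ ≤ (Q : ℝ) ^ (D + 2) := pow_le_pow_right₀ hQ1R (by omega))).1 false
  have him : im U (fun i => (c i, K.ln false i)) ≤ P0.card := by
    have h' : U.image (fun i => (c i, K.ln false i)) ⊆ P0.image (fun p => (0, p)) := by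
      intro w hw
      obtain ⟨i, hi2, rfl⟩ := mem_image.1 hw
      have h4' : i < K.N := mem_range.1 (hUr hi2)
      have h5' : c i = 0 := by
        rw [hcdef]
        unfold mc
        rw [mul_one]
        exact Nat.div_eq_of_lt h4'
      refine mem_image.2 ⟨K.a i, mem_image_of_mem _ hi2, ?_⟩
      rw [h5']
      rfl
    exact le_trans (card_le_card h') card_image_le
  have hnP0 : n ≤ Q ^ (9 * (D + 2) + 1) * P0.card := by
    have h7 : (n : ℝ) ≤ CL * ((Q : ℝ) ^ (D + 2)) ^ 9 *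
        (im U (fun i => (c i, K.ln false i)) : ℝ) := by
      simpa using hlow
    have h8 : CL * ((Q : ℝ) ^ (D + 2)) ^ 9 ≤ (Q : ℝ) ^ (9 * (D + 2) + 1) := by
      calc CL * ((Q : ℝ) ^ (D + 2)) ^ 9 ≤ (Q : ℝ) * ((Q : ℝ) ^ (D + 2)) ^ 9 :=
            mul_le_mul_of_nonneg_right hQL (by positivity)
        _ = (Q : ℝ) ^ (9 * (D + 2) + 1) := by
            rw [← pow_mul, ← pow_succ']
            congr 1
            ring
    have h9 : (n : ℝ) ≤ (Q : ℝ) ^ (9 * (D + 2) + 1) * (P0.card : ℝ) := by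
      refine le_trans h7 ?_
      exact mul_le_mul h8 (by exact_mod_cast him) (Nat.cast_nonneg _) (by positivity)
    exact_mod_cast h9
  -- pigeonhole
  obtain ⟨w, _, hw⟩ := pig P0 (range (Q ^ g0) ×ˢ range (Q ^ g0))
    (fun p => (cp (kl p).1, cp (kl p).2)) (by
      intro p hp
      obtain ⟨d1, d2, _, _⟩ := hP0d p hp
      exact mem_product.2 ⟨mem_range.2 (hcp.lt _ (mem_range.1 (hE1r d1))),
        mem_range.2 (hcp.lt _ (mem_range.1 (hE1r d2)))⟩)
    ⟨(0, 0), mem_product.2 ⟨mem_range.2 (by omega), mem_range.2 (by omega)⟩⟩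
  set P := P0.filter (fun p => (cp (kl p).1, cp (kl p).2) = w) with hP
  rw [card_product, card_range] at hw
  have hPne : P.Nonempty := by
    rw [nonempty_iff_ne_empty]
    intro h
    rw [h, card_empty, mul_zero] at hw
    have : P0.card = 0 := by omega
    rw [this, mul_zero] at hnP0
    omega
  obtain ⟨p1, hp1⟩ := hPne
  obtain ⟨hp1a, hp1b⟩ := mem_filter.1 hp1
  obtain ⟨d1, d2, d3, d4, d5, d6, d7⟩ := hP0d p1 hp1a
  have hup := (h4 ι K hx hgp (Q ^ g0) cp hcp E1 hE1r).1 false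
  have hq : ((Q ^ g0 : ℕ) : ℝ) ^ ((1 : ℝ) / 4) ≤ (Q : ℝ) ^ g0 := by
    have h1' : (1 : ℝ) ≤ ((Q ^ g0 : ℕ) : ℝ) := by exact_mod_cast hQg1
    calc ((Q ^ g0 : ℕ) : ℝ) ^ ((1 : ℝ) / 4) ≤ ((Q ^ g0 : ℕ) : ℝ) ^ (1 : ℝ) :=
          Real.rpow_le_rpow_of_exponent_le h1' (by norm_num)
      _ = (Q : ℝ) ^ g0 := by rw [Real.rpow_one]; push_cast; rfl
  have hi2 : (im E1 (fun i => (cp i, K.a i)) : ℝ) ≤ (Q : ℝ) ^ (g0 + 1) * n := by
    refine le_trans hup ?_
    calc CU * (n : ℝ) * ((Q ^ g0 : ℕ) : ℝ) ^ ((1 : ℝ) / 4) ≤ CU * (n : ℝ) * (Q : ℝ) ^ g0 :=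
          mul_le_mul_of_nonneg_left hq (by positivity)
      _ ≤ (Q : ℝ) * (n : ℝ) * (Q : ℝ) ^ g0 :=
          mul_le_mul_of_nonneg_right (mul_le_mul_of_nonneg_right hQU (by positivity))
            (by positivity)
      _ = (Q : ℝ) ^ (g0 + 1) * n := by ring
  have hi3 : im E1 (fun i => (cp i, K.a i)) ≤ Q ^ (g0 + 1) * n := by exact_mod_cast hi2
  -- the density
  have key : ∀ p ∈ P, ∀ k ∈ E1, K.a k = p → ∀ v, cp v = cp k →
      K.N ≤ Q ^ (9 * (D + 2) + 3 * g0 + D + 10) * (n *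
        (E.filter (fun i => K.a i = p ∧ cp i = cp v)).card) := by
    intro p hp k hk hkp v hv
    have h' := (hr1 k hk).1
    have h'' : E1.card ≤ Q * (E1.filter (fun i => (cp i, K.a i) = (cp k, K.a k))).card *
        im E1 (fun i => (cp i, K.a i)) := by exact_mod_cast h'
    have hs : (E1.filter (fun i => (cp i, K.a i) = (cp k, K.a k))).card ≤
        (E.filter (fun i => K.a i = p ∧ cp i = cp v)).card := by
      apply card_le_card
      intro i hi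
      obtain ⟨a1, a2⟩ := mem_filter.1 hi
      refine mem_filter.2 ⟨hE1 a1, ?_, ?_⟩
      · exact (congrArg Prod.snd a2).trans hkp
      · exact (congrArg Prod.fst a2).trans hv.symm
    calc K.N ≤ Q ^ (D + 1) * E1.card := hE1N
      _ ≤ Q ^ (D + 1) * (Q * (E.filter (fun i => K.a i = p ∧ cp i = cp v)).card *
          (Q ^ (g0 + 1) * n)) := Nat.mul_le_mul_left _ (le_trans h''
            (Nat.mul_le_mul (Nat.mul_le_mul_left _ hs) hi3))
      _ = Q ^ (D + g0 + 3) * (n * (E.filter (fun i => K.a i = p ∧ cp i = cp v)).card) := by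
          rw [show D + g0 + 3 = (D + 1) + 1 + (g0 + 1) by ring, pow_add _ (D + 1 + 1) (g0 + 1),
            pow_succ _ (D + 1)]
          ring
      _ ≤ Q ^ (9 * (D + 2) + 3 * g0 + D + 10) *
          (n * (E.filter (fun i => K.a i = p ∧ cp i = cp v)).card) :=
          Nat.mul_le_mul_right _ (Nat.pow_le_pow_right hQ1 (by omega))
  refine ⟨P, (kl p1).1, (kl p1).2, mem_range.1 (hE1r d1), mem_range.1 (hE1r d2), d6, d7, ?_, ?_⟩
  · calc n ≤ Q ^ (9 * (D + 2) + 1) * P0.card := hnP0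
      _ ≤ Q ^ (9 * (D + 2) + 1) * (Q ^ g0 * Q ^ g0 * P.card) := Nat.mul_le_mul_left _ hw
      _ = Q ^ (9 * (D + 2) + 1 + g0 + g0) * P.card := by rw [pow_add, pow_add]; ring
      _ ≤ Q ^ (9 * (D + 2) + 3 * g0 + D + 10) * P.card :=
          Nat.mul_le_mul_right _ (Nat.pow_le_pow_right hQ1 (by omega))
  · intro p hp
    obtain ⟨a1, a2⟩ := mem_filter.1 hp
    obtain ⟨e1, e2, e3, e4, _, _, _⟩ := hP0d p a1
    have ew := a2.trans hp1b.symm
    have ew1 : cp (kl p1).1 = cp (kl p).1 := (congrArg Prod.fst ew).symm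
    have ew2 : cp (kl p1).2 = cp (kl p).2 := (congrArg Prod.snd ew).symm
    exact ⟨key p hp _ e1 e3 _ ew1, key p hp _ e2 (e4 ▸ e3) _ ew2⟩

end Pool.Agent.Work.MP_e17eac_co.AS2

end

section

/-!
# Arbitrary sets: basic facts on `dist0`, `mass`, `rad`
-/

set_option autoImplicit false

namespace Pool.Agent.Work.MP_e17eac_co.BB

open Finset
open Pool.Agent.Work.MP_e17eac_co.DH
open Pool.Agent.Work.MP_e17eac_co.B1

variable {ι : Type} [Fintype ι] [DecidableEq ι]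

section dist

variable (K : KSys ι) (s0 e0 : ℝ)

theorem dist0_nonneg (p q : ι) : 0 ≤ dist0 K s0 e0 p q := le_max_of_le_left (abs_nonneg _)

theorem dist0_self (p : ι) : dist0 K s0 e0 p p = 0 := by simp [dist0]

theorem dist0_comm (p q : ι) : dist0 K s0 e0 p q = dist0 K s0 e0 q p := by
  unfold dist0
  rw [abs_sub_comm (K.ht p s0), abs_sub_comm (K.ht p e0)]

theorem dist0_tri (p q u : ι) : dist0 K s0 e0 p u ≤ dist0 K s0 e0 p q + dist0 K s0 e0 q u := by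
  unfold dist0
  apply max_le
  · calc |K.ht p s0 - K.ht u s0| ≤ |K.ht p s0 - K.ht q s0| + |K.ht q s0 - K.ht u s0| :=
        abs_sub_le _ _ _
      _ ≤ _ := add_le_add (le_max_left _ _) (le_max_left _ _)
  · calc |K.ht p e0 - K.ht u e0| ≤ |K.ht p e0 - K.ht q e0| + |K.ht q e0 - K.ht u e0| :=
        abs_sub_le _ _ _
      _ ≤ _ := add_le_add (le_max_right _ _) (le_max_right _ _)

/-- The distance bounds the difference of heights on the base interval. -/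
theorem abs_ht_le_dist0 {s0 e0 : ℝ} (p q : ι) (t : ℝ) (h0 : s0 ≤ t) (h1 : t ≤ e0) :
    |K.ht p t - K.ht q t| ≤ dist0 K s0 e0 p q := by
  rcases eq_or_lt_of_le (h0.trans h1) with h | h
  · have e1 : t = s0 := by linarith
    subst e1
    exact le_max_left _ _
  · have a1 := (abs_le.1 (le_max_left |K.ht p s0 - K.ht q s0| |K.ht p e0 - K.ht q e0|))
    have a2 := (abs_le.1 (le_max_right |K.ht p s0 - K.ht q s0| |K.ht p e0 - K.ht q e0|))
    change |K.ht p t - K.ht q t| ≤ max |K.ht p s0 - K.ht q s0| |K.ht p e0 - K.ht q e0|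
    set M := max |K.ht p s0 - K.ht q s0| |K.ht p e0 - K.ht q e0| with hM
    have hw : 0 < e0 - s0 := by linarith
    have key : (e0 - s0) * (K.ht p t - K.ht q t) =
        (e0 - t) * (K.ht p s0 - K.ht q s0) + (t - s0) * (K.ht p e0 - K.ht q e0) := by
      unfold KSys.ht; ring
    rw [abs_le]
    constructor
    · have : (e0 - s0) * (-M) ≤ (e0 - s0) * (K.ht p t - K.ht q t) := by
        rw [key]; nlinarith [a1.1, a2.1]
      exact le_of_mul_le_mul_left this hw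
    · have : (e0 - s0) * (K.ht p t - K.ht q t) ≤ (e0 - s0) * M := by
        rw [key]; nlinarith [a1.2, a2.2]
      exact le_of_mul_le_mul_left this hw

/-- A difference of heights which is small at two times is small in between. -/
theorem abs_ht_between {u v t M : ℝ} (p q : ι) (hu : |K.ht p u - K.ht q u| ≤ M)
    (hv : |K.ht p v - K.ht q v| ≤ M) (h0 : u ≤ t) (h1 : t ≤ v) : |K.ht p t - K.ht q t| ≤ M :=
  (abs_ht_le_dist0 K p q t h0 h1).trans (max_le hu hv)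

/-- Change of the difference of heights. -/
theorem abs_ht_shift {s0 e0 : ℝ} (hse : s0 < e0) (p q : ι) (u t : ℝ) :
    |K.ht p t - K.ht q t| ≤ |K.ht p u - K.ht q u| +
      2 * dist0 K s0 e0 p q * (|t - u| / (e0 - s0)) := by
  have hw : 0 < e0 - s0 := by linarith
  have a1 := le_max_left |K.ht p s0 - K.ht q s0| |K.ht p e0 - K.ht q e0|
  have a2 := le_max_right |K.ht p s0 - K.ht q s0| |K.ht p e0 - K.ht q e0|
  have key : K.ht p t - K.ht q t = (K.ht p u - K.ht q u) +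
      ((K.ht p e0 - K.ht q e0) - (K.ht p s0 - K.ht q s0)) * ((t - u) / (e0 - s0)) := by
    field_simp
    unfold KSys.ht; ring
  rw [key]
  refine (abs_add_le _ _).trans ?_
  rw [abs_mul, abs_div, abs_of_pos hw]
  have h3 : |K.ht p e0 - K.ht q e0 - (K.ht p s0 - K.ht q s0)| ≤ 2 * dist0 K s0 e0 p q := by
    refine (abs_sub _ _).trans ?_
    unfold dist0
    linarith
  have h4 : 0 ≤ |t - u| / (e0 - s0) := by positivity
  have := mul_le_mul_of_nonneg_right h3 h4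
  linarith

/-- A difference of heights which is small at two distant times is small on the base interval. -/
theorem dist0_le_of_two {s0 e0 : ℝ} (hse : s0 < e0) (p q : ι) {u v M : ℝ} (huv : u < v)
    (h0 : s0 ≤ u) (h1 : v ≤ e0) (hu : |K.ht p u - K.ht q u| ≤ M) (hv : |K.ht p v - K.ht q v| ≤ M) :
    (v - u) * dist0 K s0 e0 p q ≤ 3 * M * (e0 - s0) := by
  have hM : 0 ≤ M := (abs_nonneg _).trans hu
  have hvu : 0 < v - u := by linarith
  have b1 := abs_le.1 hu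
  have b2 := abs_le.1 hv
  have key : ∀ t, s0 ≤ t → t ≤ e0 → (v - u) * |K.ht p t - K.ht q t| ≤ 3 * M * (e0 - s0) := by
    intro t ht0 ht1
    have e : (v - u) * (K.ht p t - K.ht q t) =
        (v - u) * (K.ht p u - K.ht q u) +
          (t - u) * ((K.ht p v - K.ht q v) - (K.ht p u - K.ht q u)) := by
      unfold KSys.ht; ring
    have e' : (v - u) * |K.ht p t - K.ht q t| = |(v - u) * (K.ht p t - K.ht q t)| := by
      rw [abs_mul, abs_of_pos hvu]
    rw [e', e]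
    refine (abs_add_le _ _).trans ?_
    rw [abs_mul, abs_mul, abs_of_pos hvu]
    have c1 : |K.ht p v - K.ht q v - (K.ht p u - K.ht q u)| ≤ 2 * M := by
      refine (abs_sub _ _).trans ?_
      linarith
    have c2 : |t - u| ≤ e0 - s0 := by rw [abs_le]; constructor <;> linarith
    have c3 : (v - u) * |K.ht p u - K.ht q u| ≤ (e0 - s0) * M := by
      apply mul_le_mul (by linarith) hu (abs_nonneg _) (by linarith)
    have c4 : |t - u| * |K.ht p v - K.ht q v - (K.ht p u - K.ht q u)| ≤ (e0 - s0) * (2 * M) :=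
      mul_le_mul c2 c1 (abs_nonneg _) (by linarith)
    linarith
  unfold dist0
  rcases max_choice |K.ht p s0 - K.ht q s0| |K.ht p e0 - K.ht q e0| with h | h
  · rw [h]; exact key s0 le_rfl hse.le
  · rw [h]; exact key e0 hse.le le_rfl

end dist

section mass

variable (K : KSys ι) (S : Finset ι) (s0 e0 : ℝ)

theorem mass_mono (p : ι) {ρ ρ' : ℝ} (h : ρ ≤ ρ') :
    mass K S s0 e0 p ρ ≤ mass K S s0 e0 p ρ' := by
  unfold mass
  apply card_le_card
  intro q hq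
  rw [mem_filter] at hq ⊢
  exact ⟨hq.1, hq.2.trans_le h⟩

theorem mass_nonpos (p : ι) {ρ : ℝ} (h : ρ ≤ 0) : mass K S s0 e0 p ρ = 0 := by
  unfold mass
  rw [card_eq_zero, filter_eq_empty_iff]
  intro q _ hq
  have := dist0_nonneg K s0 e0 p q
  linarith

theorem mass_le_card (p : ι) (ρ : ℝ) : mass K S s0 e0 p ρ ≤ S.card := card_filter_le _ _

variable (r j : ℕ) (p : ι)

theorem rad_zero_mem : (0 : ℝ) ∈ {ρ : ℝ | (mass K S s0 e0 p ρ : ℝ) * (r : ℝ) ^ j ≤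
    Fintype.card ι} := by
  simp [mass_nonpos K S s0 e0 p le_rfl]

theorem rad_bdd (hb : (Fintype.card ι : ℝ) < S.card * (r : ℝ) ^ j) :
    BddAbove {ρ : ℝ | (mass K S s0 e0 p ρ : ℝ) * (r : ℝ) ^ j ≤ Fintype.card ι} := by
  refine ⟨∑ q ∈ S, dist0 K s0 e0 p q + 1, fun ρ hρ => ?_⟩
  by_contra hlt
  push Not at hlt
  have : mass K S s0 e0 p ρ = S.card := by
    unfold mass
    rw [filter_true_of_mem]
    intro q hq
    have := single_le_sum (f := fun q => dist0 K s0 e0 p q)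
      (fun q _ => dist0_nonneg K s0 e0 p q) hq
    linarith
  have h2 : (mass K S s0 e0 p ρ : ℝ) * (r : ℝ) ^ j ≤ Fintype.card ι := hρ
  rw [this] at h2
  linarith

theorem rad_nonneg : 0 ≤ rad K S s0 e0 r j p := by
  unfold rad
  by_cases h : BddAbove {ρ : ℝ | (mass K S s0 e0 p ρ : ℝ) * (r : ℝ) ^ j ≤ Fintype.card ι}
  · exact le_csSup h (rad_zero_mem K S s0 e0 r j p)
  · rw [Real.sSup_of_not_bddAbove h]

variable {r j p}

/-- Below the radius the mass is small. -/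
theorem mass_le_of_lt_rad {ρ : ℝ} (h : ρ < rad K S s0 e0 r j p) :
    (mass K S s0 e0 p ρ : ℝ) * (r : ℝ) ^ j ≤ Fintype.card ι := by
  obtain ⟨ρ', h1, h2⟩ := exists_lt_of_lt_csSup ⟨0, rad_zero_mem K S s0 e0 r j p⟩ h
  have h3 : (mass K S s0 e0 p ρ : ℝ) ≤ mass K S s0 e0 p ρ' := by
    exact_mod_cast mass_mono K S s0 e0 p h2.le
  exact (mul_le_mul_of_nonneg_right h3 (by positivity)).trans h1

/-- At the radius the mass is small. -/
theorem mass_rad_le : (mass K S s0 e0 p (rad K S s0 e0 r j p) : ℝ) * (r : ℝ) ^ j ≤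
    Fintype.card ι := by
  set R := rad K S s0 e0 r j p with hR
  rcases (S.filter (fun q => dist0 K s0 e0 p q < R)).eq_empty_or_nonempty with h | h
  · have : mass K S s0 e0 p R = 0 := by unfold mass; rw [h]; simp
    rw [this]; simp
  · obtain ⟨q, hq, hmax⟩ := exists_max_image _ (fun q => dist0 K s0 e0 p q) h
    rw [mem_filter] at hq
    obtain ⟨ρ, h1, h2⟩ := exists_between hq.2
    have : mass K S s0 e0 p R ≤ mass K S s0 e0 p ρ := by
      unfold mass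
      apply card_le_card
      intro u hu
      have hu' := hmax u hu
      rw [mem_filter] at hu ⊢
      exact ⟨hu.1, by linarith⟩
    have h3 : (mass K S s0 e0 p R : ℝ) ≤ mass K S s0 e0 p ρ := by exact_mod_cast this
    exact (mul_le_mul_of_nonneg_right h3 (by positivity)).trans
      (mass_le_of_lt_rad K S s0 e0 (hR ▸ h2))

/-- Lines at distance at most `ρ < rad`. -/
theorem card_le_of_lt_rad {ρ : ℝ} (h : ρ < rad K S s0 e0 r j p) {T : Finset ι} (hT : T ⊆ S)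
    (hd : ∀ q ∈ T, dist0 K s0 e0 p q ≤ ρ) : (T.card : ℝ) * (r : ℝ) ^ j ≤ Fintype.card ι := by
  refine le_trans ?_ (mass_rad_le K S s0 e0 (r := r) (j := j) (p := p))
  have : T.card ≤ mass K S s0 e0 p (rad K S s0 e0 r j p) := by
    unfold mass
    apply card_le_card
    intro q hq
    rw [mem_filter]
    exact ⟨hT hq, (hd q hq).trans_lt h⟩
  have h3 : (T.card : ℝ) ≤ mass K S s0 e0 p (rad K S s0 e0 r j p) := by exact_mod_cast this
  exact mul_le_mul_of_nonneg_right h3 (by positivity)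

/-- Above the radius the mass is large. -/
theorem lt_mass_of_rad_lt (hb : (Fintype.card ι : ℝ) < S.card * (r : ℝ) ^ j) {ρ : ℝ}
    (h : rad K S s0 e0 r j p < ρ) :
    (Fintype.card ι : ℝ) < (mass K S s0 e0 p ρ : ℝ) * (r : ℝ) ^ j := by
  by_contra hle
  push Not at hle
  have := le_csSup (rad_bdd K S s0 e0 r j p hb) hle
  unfold rad at h
  linarith

/-- The radius decreases with the level. -/
theorem rad_anti {j' : ℕ} (hr : 1 ≤ r) (hb : (Fintype.card ι : ℝ) < S.card * (r : ℝ) ^ j)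
    (h : j ≤ j') : rad K S s0 e0 r j' p ≤ rad K S s0 e0 r j p := by
  unfold rad
  refine csSup_le_csSup (rad_bdd K S s0 e0 r j p hb) ⟨0, rad_zero_mem K S s0 e0 r j' p⟩ ?_
  intro ρ hρ
  have h1 : (mass K S s0 e0 p ρ : ℝ) * (r : ℝ) ^ j' ≤ Fintype.card ι := hρ
  have hr' : (1 : ℝ) ≤ r := by exact_mod_cast hr
  have h2 : (r : ℝ) ^ j ≤ (r : ℝ) ^ j' := pow_le_pow_right₀ hr' h
  have h3 : (0 : ℝ) ≤ mass K S s0 e0 p ρ := by positivity
  exact (mul_le_mul_of_nonneg_left h2 h3).trans h1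

/-- The radius is 1-Lipschitz. -/
theorem rad_lip (hb : (Fintype.card ι : ℝ) < S.card * (r : ℝ) ^ j) (q : ι) :
    rad K S s0 e0 r j p ≤ rad K S s0 e0 r j q + dist0 K s0 e0 p q := by
  unfold rad
  apply csSup_le ⟨0, rad_zero_mem K S s0 e0 r j p⟩
  intro ρ hρ
  have h1 : (mass K S s0 e0 p ρ : ℝ) * (r : ℝ) ^ j ≤ Fintype.card ι := hρ
  have h2 : mass K S s0 e0 q (ρ - dist0 K s0 e0 p q) ≤ mass K S s0 e0 p ρ := by
    unfold mass
    apply card_le_card
    intro u hu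
    rw [mem_filter] at hu ⊢
    refine ⟨hu.1, ?_⟩
    have := dist0_tri K s0 e0 p q u
    linarith [hu.2]
  have h3 : (mass K S s0 e0 q (ρ - dist0 K s0 e0 p q) : ℝ) ≤ mass K S s0 e0 p ρ := by
    exact_mod_cast h2
  have h4 : (mass K S s0 e0 q (ρ - dist0 K s0 e0 p q) : ℝ) * (r : ℝ) ^ j ≤ Fintype.card ι :=
    (mul_le_mul_of_nonneg_right h3 (by positivity)).trans h1
  have := le_csSup (rad_bdd K S s0 e0 r j q hb) h4
  linarith

end mass

end Pool.Agent.Work.MP_e17eac_co.BB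

end

section

/-!
# Arbitrary sets, blueprint part B-3 (note 2875), item B3: assembly
-/

set_option autoImplicit false

namespace Pool.Agent.Work.MP_e17eac_co.BB

open Finset
open Pool.Agent.Work.MP_e17eac_co.DH
open Pool.Agent.Work.MP_e17eac_co.B1

namespace X3B3

variable {ι : Type} [Fintype ι] [DecidableEq ι]

theorem ts_mono {K : KSys ι} {r m : ℕ} {H D D' : ℝ} {P : Finset ι} {E : Bool → Finset ℕ}
    (h : D ≤ D') (hT : TS K r m H D P E) : TS K r m H D' P E where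
  hyg := hT.hyg
  aP := hT.aP
  sub := hT.sub
  deg := by
    intro s p hp
    refine (hT.deg s p hp).trans ?_
    rw [mul_assoc, mul_assoc]
    exact mul_le_mul_of_nonneg_right h (by positivity)
  big := hT.big.trans (mul_le_mul_of_nonneg_right h (by positivity))

theorem twoF_mono (hSub : StTwoSub) {K : KSys ι} {r m : ℕ} {H D D' s0 s1 s2 e0 : ℝ} {L : Lab}
    {κ : ℕ → ι → ℕ} {e X0 X1 : ℕ} {P : Finset ι} {E : Bool → Finset ℕ} (h1 : 1 ≤ D)
    (h : D ≤ D') (hT : TwoF K r m H D s0 s1 s2 e0 L κ e X0 X1 P E) :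
    TwoF K r m H D' s0 s1 s2 e0 L κ e X0 X1 P E where
  two := hSub ι K r m H D D' s0 s1 s2 e0 L κ e X0 X1 P P E E h1 h hT.two
    ⟨Subset.refl _, fun _ => Subset.refl _⟩ (ts_mono h hT.two.ts)
  up := hT.up
  low := hT.low
  dm := hT.dm

theorem big_pow {K : KSys ι} {r m : ℕ} {H D : ℝ} {C c C2 : ℕ} (hB : Big K r m H D C)
    (hc : 1 ≤ c) (h1 : c * C2 ≤ C) : Big K r m H (D ^ c) C2 := by
  have hD1 : (1 : ℝ) ≤ D := by linarith [hB.D2]
  have hDc : D ≤ D ^ c := le_self_pow₀ hD1 (by omega)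
  have hr1 : (1 : ℝ) ≤ r := by
    have := hB.std.two
    exact_mod_cast (by omega : 1 ≤ r)
  exact
    { std := hB.std
      gp := hB.gp
      HD := hB.HD.trans hDc
      D2 := hB.D2.trans hDc
      log := hB.log
      ub := hB.ub
      Dr := by
        rw [← pow_mul]
        exact (pow_le_pow_right₀ hD1 h1).trans hB.Dr
      rn := by
        refine le_trans ?_ hB.rn
        refine pow_le_pow_right₀ hr1 ?_
        refine Nat.mul_le_mul_right _ (le_trans ?_ h1)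
        exact Nat.le_mul_of_pos_left _ hc }

theorem big_le {K : KSys ι} {r m : ℕ} {H D : ℝ} {C C2 : ℕ} (hB : Big K r m H D C)
    (h1 : C2 ≤ C) : Big K r m H D C2 := by
  have := big_pow (c := 1) (C2 := C2) hB le_rfl (by omega)
  rwa [pow_one] at this

theorem card_bd {K : KSys ι} {r m : ℕ} {H D : ℝ} {P : Finset ι} {E : Bool → Finset ℕ}
    (hD : 0 ≤ D) (hT : TS K r m H D P E) (s : Bool) : (K.N : ℝ) ≤ D ^ 2 * (E s).card := by
  have hn : (0 : ℝ) < Fintype.card ι := by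
    have : Nonempty ι := ⟨K.a 0⟩
    exact_mod_cast Fintype.card_pos
  have h1 : ((E s).card : ℝ) = ∑ p ∈ P, (((E s).filter (fun i => K.a i = p)).card : ℝ) := by
    rw [← Nat.cast_sum, ← card_eq_sum_card_fiberwise (f := K.a) (s := E s) (t := P)]
    intro i hi
    exact hT.aP s i (mem_coe.1 hi)
  have h2 : (P.card : ℝ) * K.N ≤ D * Fintype.card ι * (E s).card := by
    rw [h1, mul_sum, ← nsmul_eq_mul, ← sum_const]
    exact sum_le_sum fun p hp => hT.deg s p hp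
  have h3 : (Fintype.card ι : ℝ) * K.N ≤ Fintype.card ι * (D ^ 2 * (E s).card) := by
    calc (Fintype.card ι : ℝ) * K.N ≤ D * P.card * K.N :=
          mul_le_mul_of_nonneg_right hT.big (by positivity)
      _ = D * (P.card * K.N) := by ring
      _ ≤ D * (D * Fintype.card ι * (E s).card) := mul_le_mul_of_nonneg_left h2 hD
      _ = Fintype.card ι * (D ^ 2 * (E s).card) := by ring
  exact le_of_mul_le_mul_left h3 hn

end X3B3

open X3B3 in
theorem I3_B3 (hTwoF : StTwoF) (hSide : StSide) (hCol : StColour) (hSub : StTwoSub) : StB3 := by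
  classical
  intro m e Th hTh
  obtain ⟨C1, C1', h1⟩ := hTwoF m e
  obtain ⟨C2, C2', h2⟩ := hSide m e
  refine ⟨C1 + (C1' + 1) * C2, 2 * ((C1' + 1) * C2'), ?_⟩
  intro ι _ _ K r H D s0 s1 s2 e0 L κ X0 X1 P E hBig hTwo hX hm
  have hD1 : (1 : ℝ) ≤ D := by linarith [hBig.D2]
  obtain ⟨P1, E1, hs1, hF1⟩ := h1 ι K r H D s0 s1 s2 e0 L κ X0 X1 P E
    (big_le hBig (Nat.le_add_right _ _)) hTwo
  have hF1' : TwoF K r m H (D ^ (C1' + 1)) s0 s1 s2 e0 L κ e X0 X1 P1 E1 :=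
    twoF_mono hSub (one_le_pow₀ hD1) (pow_le_pow_right₀ hD1 (Nat.le_succ _)) hF1
  have hBig1 : Big K r m H (D ^ (C1' + 1)) C2 :=
    big_pow hBig (by omega) (Nat.le_add_left _ _)
  obtain ⟨P2, E2, σ, hs2, hF2, hσ⟩ := h2 ι K r H (D ^ (C1' + 1)) s0 s1 s2 e0 L κ X0 X1 P1 E1
    hBig1 hF1'
  rw [← pow_mul] at hF2
  obtain ⟨s, l, X2, X4, hl, hX2, hX4, hX41, hgap⟩ := hCol Th hTh X0 X1 σ hX
  have hle : (C1' + 1) * C2' ≤ 2 * ((C1' + 1) * C2') := by omega
  have hF : TwoF K r m H (D ^ (2 * ((C1' + 1) * C2'))) s0 s1 s2 e0 L κ e X0 X1 P2 E2 :=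
    twoF_mono hSub (one_le_pow₀ hD1) (pow_le_pow_right₀ hD1 hle) hF2
  refine ⟨s, l, X2, X4, (Icc X2 X4).filter (fun x => σ x = s), E2 s, hl, hX2, hX4, hX41,
    (hs2.2 s).trans (hs1.2 s), ?_⟩
  exact
    { hyg := hF.two.ts.hyg s
      card := by
        have := card_bd (by positivity) hF2.two.ts s
        rwa [← pow_mul, mul_comm _ 2] at this
      lab := hF.two.lab s
      lev := ⟨hF.two.lev.1.trans hX2, by omega⟩
      hash := fun y hy1 hy2 => hF.two.hash y (hX2.trans hy1) (hy2.trans hX41) s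
      beta := by
        intro y hy1 hy2
        refine le_trans (card_le_card (image_subset_image ?_))
          (hF.two.beta y (hX2.trans hy1) (hy2.trans hX41))
        intro p hp
        obtain ⟨i, hi, rfl⟩ := mem_image.1 hp
        exact hF.two.ts.aP s i hi
      sub := filter_subset _ _
      gap := by
        intro x hx1 hx2
        obtain ⟨x', h3, h4, h5⟩ := hgap x hx1 hx2
        exact ⟨x', mem_filter.2 ⟨mem_Icc.2 ⟨hx1.trans h4, h5.trans hx2⟩, h3⟩, h4, h5⟩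
      up := fun x hx1 hx2 i hi => hF.up x (hX2.trans hx1) (hx2.trans hX41) s i hi
      low := by
        intro x hx i hi
        obtain ⟨h3, h4⟩ := mem_filter.1 hx
        obtain ⟨h5, h6⟩ := mem_Icc.1 h3
        refine hσ x (hX2.trans h5) (h6.trans hX41) i ?_
        rw [h4]
        exact hi
      dm := by
        intro y hy1 hy2 i hi i' hi' hk
        exact hF.dm y (hX2.trans hy1) (hy2.trans hX41) (K.a i) (hF.two.ts.aP s i hi) (K.a i')
          (hF.two.ts.aP s i' hi') hk }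

end Pool.Agent.Work.MP_e17eac_co.BB

end

section

/-!
# Arbitrary sets: the statements of the blocks of team B (interfaces)

`StAS2` (output of A-I, A-II), `StSKM` (B-2), `StB3` (B-3, in `St3`), `StEnd` (B-4, B-5, B-6 and
RINGU), and the goal `StMain`. In the assembly `H = Q`, `r = Q ^ b`, `D = Q ^ A`, and `Q` is a
small power of `n`.
-/

namespace Pool.Agent.Work.MP_e17eac_co.BB

open Finset
open Pool.Agent.Work.MP_e17eac_co.DH
open Pool.Agent.Work.MP_e17eac_co.B1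

/-- **A-I, A-II**: labels on two sides of a root pair, for every dense set of hygienic edges. -/
def StAS2 : Prop := ∀ m : ℕ, ∃ A : ℕ, ∀ η : ℝ, 0 < η → ∃ n0 : ℕ, ∀ (ι : Type) [Fintype ι]
  [DecidableEq ι] (K : KSys ι) (Q b : ℕ) (H : ℝ), Function.Injective K.x →
  XSWEEP.GP K.x K.y → n0 ≤ Fintype.card ι → (Fintype.card ι : ℝ) ^ η ≤ Q →
  (Fintype.card ι : ℝ) ^ ((4 : ℝ) / 3) ≤ Q * K.N → A ≤ b →
  (Q ^ b) ^ (4 * m) * Q ^ A ≤ Fintype.card ι → ∀ E0 : Finset ℕ,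
  (∀ i ∈ E0, Hyg K (Q ^ b) m H i) → K.N ≤ Q * E0.card →
  ∃ (s0 s1 s2 e0 : ℝ) (L : Lab) (P : Finset ι) (E : Bool → Finset ℕ),
    (∀ s, E s ⊆ E0) ∧ TS K (Q ^ b) m H ((Q : ℝ) ^ A) P E ∧
    (∀ s, LabOK K (Q ^ b) m ((Q : ℝ) ^ A) s0 e0 L (E s)) ∧
    (∀ x, 1 ≤ x → x ≤ m → ∀ i ∈ E false, L.h1 x i ≤ s1) ∧
    (∀ x, 1 ≤ x → x ≤ m → ∀ i ∈ E true, s2 ≤ L.h0 x i) ∧ e0 - s0 ≤ (Q : ℝ) ^ A * (s2 - s1)

/-- **B-2**: hash classes at all levels, with excess at most `y / q + d`. -/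
def StSKM : Prop := ∀ q : ℕ, 1 ≤ q → ∃ d : ℕ, ∀ m : ℕ, ∃ C C' : ℕ, ∀ (ι : Type) [Fintype ι]
  [DecidableEq ι] (K : KSys ι) (r : ℕ) (H D : ℝ) (P : Finset ι) (E : Bool → Finset ℕ),
  Big K r m H D C → TS K r m H D P E →
  ∃ (P' : Finset ι) (E' : Bool → Finset ℕ) (κ : ℕ → ι → ℕ), SubTS P' E' P E ∧
    TS K r m H (D ^ C') P' E' ∧ ∀ y, 1 ≤ y → y ≤ m →
      (∀ s, HashOK K r (D ^ C') (PS K r m H) y (κ y) (E' s)) ∧
      (P'.image (κ y)).card ≤ r ^ (4 * y + (y / q + d))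

/-- **B-4, B-5, B-6 and RINGU**: no one-sided structure with a long interval of levels. -/
def StEnd : Prop := ∃ A : ℕ, ∀ (e l X2 X4 m : ℕ), A * (e + l + 1) ≤ X2 →
  X2 + A * (e + l + 1) ≤ X4 → X4 + 1 ≤ m → ∃ C : ℕ, ∀ (ι : Type) [Fintype ι] [DecidableEq ι]
  (K : KSys ι) (r : ℕ) (H D s0 e0 : ℝ) (L : Lab) (κ : ℕ → ι → ℕ) (S E : Finset ℕ),
  Big K r m H D C → ¬ One K r m H D s0 e0 L κ e (e + 2) l X2 X4 S E

/-- **The goal**: the bound for the number of edges of a level. -/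
def StMain : Prop := ∃ c : ℝ, 0 < c ∧ ∃ n0 : ℕ, ∀ (ι : Type) [Fintype ι] [DecidableEq ι]
  (K : KSys ι), Function.Injective K.x → XSWEEP.GP K.x K.y → n0 ≤ Fintype.card ι →
  (K.N : ℝ) ≤ (Fintype.card ι : ℝ) ^ ((4 : ℝ) / 3 - c)

end Pool.Agent.Work.MP_e17eac_co.BB

end

section

/-!
# Arbitrary sets, blueprint parts B-4, B-5: constants and one-sided structures

`kb`, `kz`, `kt` = constants of the hull lengths. `Flw` = output of B-4, `Five` = output of B-5.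
-/

namespace Pool.Agent.Work.MP_e17eac_co.BB

open Finset
open Pool.Agent.Work.MP_e17eac_co.DH
open Pool.Agent.Work.MP_e17eac_co.B1

/-- Shift of the radius in (HU). -/
def kb (e kp l : ℕ) : ℕ := 2 * k8 e kp l + kN kp l + 8

/-- Shift of the level of the hull in (HU). -/
def kz (e kp l : ℕ) : ℕ := k8 e kp l + k6 kp l + 5

/-- Levels lost at the upper end. -/
def kt (e kp l : ℕ) : ℕ := kb e kp l + 4 * k6 kp l + kp

variable {ι : Type} [Fintype ι] [DecidableEq ι]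

/-- The lines of the unit (label of level `x`, class of level `y`) of the edge `i`. -/
def unl (K : KSys ι) (L : Lab) (κ : ℕ → ι → ℕ) (E : Finset ℕ) (x y i : ℕ) : Finset ι :=
  (E.filter (fun i' => L.lab x i' = L.lab x i ∧ κ y (K.a i') = κ y (K.a i))).image K.a

/-- Output of B-4: one-sided structure with growth, flux bound and near pairs. -/
structure Flw (K : KSys ι) (r m : ℕ) (H D s0 e0 : ℝ) (L : Lab) (κ : ℕ → ι → ℕ)
    (e kp l X2 X4 : ℕ) (S E : Finset ℕ) : Prop where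
  one : One K r m H D s0 e0 L κ e kp l X2 X4 S E
  grow : ∀ j, 4 * X2 ≤ j → j + k6 kp l ≤ 4 * X4 → ∀ i ∈ E,
    (r : ℝ) ^ 2 * rd K r m H s0 e0 (j + k6 kp l) (K.a i) ≤ rd K r m H s0 e0 j (K.a i)
  flux : ∀ x ∈ S, ∀ y, X2 + k6 kp l + 1 ≤ y → y < x → x ≤ 2 * y → x + kt e kp l ≤ X4 →
    (E.image (fun i => (cell K r x i, κ y (K.a i)))).card ≤ r ^ (3 * x + 2 * y + k8 e kp l)
  near : ∀ x, 1 ≤ x → x ≤ m → ∀ j, 4 * X2 ≤ j → j + k6 kp l ≤ 4 * X4 → ∀ i ∈ E,
    near K r m H s0 e0 L E x j i ^ 2 * r ^ (4 * x + j) ≤ Fintype.card ι ^ 2 * r ^ kN kp l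

/-- Profile of the radii (levels at least one). -/
noncomputable def pf (K : KSys ι) (r m : ℕ) (H s0 e0 : ℝ) (p : ι) (j : ℕ) : ℝ :=
  - Real.log (rd K r m H s0 e0 (max j 1) p)

/-- Profile of the hull lengths. -/
noncomputable def pg (s0 e0 : ℝ) (L : Lab) (i z : ℕ) : ℝ :=
  if z = 0 then 0 else - Real.log ((L.h1 z i - L.h0 z i) / (e0 - s0))

/-- Output of B-5: every edge has a profile satisfying the profile inequalities. -/
structure Five (K : KSys ι) (r m : ℕ) (H D s0 e0 : ℝ) (L : Lab) (κ : ℕ → ι → ℕ)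
    (e kp l X2 X4 : ℕ) (S E : Finset ℕ) : Prop where
  flw : Flw K r m H D s0 e0 L κ e kp l X2 X4 S E
  prof : ∀ i ∈ E, Prof (Real.log r) (S : Set ℕ) X2 X4 m l (kp + k6 kp l) (k6 kp l + 1)
    (k8 e kp l + 5) (kb e kp l) (kt e kp l) (kz e kp l)
    (pf K r m H s0 e0 (K.a i)) (pg s0 e0 L i)

/-- Block B-4. -/
def StB4 : Prop := ∀ m e kp l : ℕ, ∃ C C' : ℕ, ∀ (ι : Type) [Fintype ι] [DecidableEq ι]
  (K : KSys ι) (r : ℕ) (H D s0 e0 : ℝ) (L : Lab) (κ : ℕ → ι → ℕ) (X2 X4 : ℕ)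
  (S E : Finset ℕ), Big K r m H D C → One K r m H D s0 e0 L κ e kp l X2 X4 S E →
  ∃ E' ⊆ E, Flw K r m H (D ^ C') s0 e0 L κ e kp l X2 X4 S E'

/-- Block B-5. -/
def StB5 : Prop := ∀ m e kp l : ℕ, ∃ C C' : ℕ, ∀ (ι : Type) [Fintype ι] [DecidableEq ι]
  (K : KSys ι) (r : ℕ) (H D s0 e0 : ℝ) (L : Lab) (κ : ℕ → ι → ℕ) (X2 X4 : ℕ)
  (S E : Finset ℕ), Big K r m H D C → Flw K r m H D s0 e0 L κ e kp l X2 X4 S E →
  ∃ E' ⊆ E, Five K r m H (D ^ C') s0 e0 L κ e kp l X2 X4 S E'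

end Pool.Agent.Work.MP_e17eac_co.BB

end

section

/-!
# Items OneSub, OneBig, Grow
-/

set_option autoImplicit false
set_option linter.unusedSectionVars false
set_option linter.unusedVariables false

namespace Pool.Agent.Work.MP_e17eac_co.BB

open Finset
open Pool.Agent.Work.MP_e17eac_co.DH
open Pool.Agent.Work.MP_e17eac_co.B1

namespace XOne

variable {ι : Type} [Fintype ι] [DecidableEq ι] {K : KSys ι}

theorem lab_sub {r m : ℕ} {D D' s0 e0 : ℝ} {L : Lab} {E E' : Finset ℕ} (hD : D ≤ D')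
    (h : LabOK K r m D s0 e0 L E) (hE : E' ⊆ E) : LabOK K r m D' s0 e0 L E' where
  base := h.base
  lt i hi := h.lt i (hE hi)
  tm i hi := h.tm i (hE hi)
  leq x h1 h2 i hi i' hi' := h.leq x h1 h2 i (hE hi) i' (hE hi')
  line x h1 h2 i hi i' hi' := h.line x h1 h2 i (hE hi) i' (hE hi')
  few x h1 h2 c := by
    refine le_trans ?_ ((h.few x h1 h2 c).trans hD)
    exact_mod_cast card_le_card (image_subset_image (filter_subset_filter _ hE))
  hull x h1 h2 i hi := h.hull x h1 h2 i (hE hi)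
  nest x h1 h2 i hi := h.nest x h1 h2 i (hE hi)
  disj x h1 h2 i hi i' hi' := h.disj x h1 h2 i (hE hi) i' (hE hi')
  pos x h1 h2 i hi := h.pos x h1 h2 i (hE hi)
  clo x h1 h2 i hi := h.clo x h1 h2 i (hE hi)
  con x h1 h2 i hi i' hi' heq := by
    have h3 := h.con x h1 h2 i (hE hi) i' (hE hi') heq
    have h4 := h.pos x h1 h2 i (hE hi)
    have h5 : D * L.del x i ≤ D' * L.del x i := mul_le_mul_of_nonneg_right hD h4.le
    exact ⟨h3.1.trans h5, h3.2.trans h5⟩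
  mono x h1 h2 i hi := h.mono x h1 h2 i (hE hi)
  stag x h1 h2 i hi := h.stag x h1 h2 i (hE hi)
  short x h1 h2 i hi := h.short x h1 h2 i (hE hi)

theorem hash_sub {r : ℕ} {D D' : ℝ} {S : Finset ι} {y : ℕ} {κ : ι → ℕ} {E E' : Finset ℕ}
    (hD : D ≤ D') (h : HashOK K r D S y κ E) (hE : E' ⊆ E) : HashOK K r D' S y κ E' where
  edge i hi := h.edge i (hE hi)
  key := h.key
  act B := by
    refine le_trans ?_ ((h.act B).trans (mul_le_mul_of_nonneg_right hD (by positivity)))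
    exact_mod_cast card_le_card (image_subset_image (filter_subset_filter _ hE))
  most i hi := h.most i (hE hi)

theorem del_mono {r m : ℕ} {D s0 e0 : ℝ} {L : Lab} {E : Finset ℕ}
    (h : LabOK K r m D s0 e0 L E) {i : ℕ} (hi : i ∈ E) {x : ℕ} (h1 : 1 ≤ x) :
    ∀ x', x ≤ x' → x' ≤ m → L.del x' i ≤ L.del x i := by
  intro x' hx
  induction x', hx using Nat.le_induction with
  | base => intro _; exact le_rfl
  | succ x' hx ih =>
    intro h2
    exact (h.mono x' (by omega) h2 i hi).trans (ih (by omega))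

end XOne

open XOne in
theorem I_OneSub : StOneSub := by
  intro ι _ _ K r m H D D' s0 e0 L κ e kp l X2 X4 S E E' hD1 hD h hE hcard
  exact
  { hyg := fun i hi => h.hyg i (hE hi)
    card := hcard
    lab := lab_sub hD h.lab hE
    lev := h.lev
    hash := fun y h1 h2 => hash_sub hD (h.hash y h1 h2) hE
    beta := fun y h1 h2 => (card_le_card (image_subset_image (image_subset_image hE))).trans
      (h.beta y h1 h2)
    sub := h.sub
    gap := h.gap
    up := fun x h1 h2 i hi => h.up x h1 h2 i (hE hi)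
    low := fun x hx i hi => h.low x hx i (hE hi)
    dm := fun y h1 h2 i hi i' hi' => h.dm y h1 h2 i (hE hi) i' (hE hi') }

theorem I_OneBig (hFL : StFL) : StOneBig := by
  classical
  refine ⟨19, ?_⟩
  intro ι _ _ K r m H D s0 e0 L κ e kp l X2 X4 S E hB h
  have hD2 := hB.D2
  have hD0 : 0 < D := by linarith
  have hD1 : 1 ≤ D := by linarith
  have hr2 : (2 : ℝ) ≤ r := by exact_mod_cast hB.std.two
  have hN : 0 < K.N := by
    have := hB.std.pow
    have h2 : 0 < r ^ (4 * m) := pow_pos (by have := hB.std.two; omega) _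
    omega
  have hNR : (0 : ℝ) < K.N := by exact_mod_cast hN
  have hEpos : (0 : ℝ) < E.card := by
    by_contra hc
    have h0 : (E.card : ℝ) ≤ 0 := not_lt.1 hc
    have := h.card
    nlinarith
  have hEne : E.Nonempty := by
    rw [← card_pos]
    exact_mod_cast hEpos
  have hEsub : E ⊆ range K.N := fun i hi => mem_range.2 (h.hyg i hi).lt
  have h1 := (hFL ι K hB.std.inj E hEsub false).1
  have h1' : (E.card : ℝ) ^ 3 ≤ 4096 * (Fintype.card ι : ℝ) ^ 3 * ((E.image K.a).card : ℝ) := h1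
  set n : ℝ := (Fintype.card ι : ℝ) with hn
  have hn0 : 0 ≤ n := Nat.cast_nonneg _
  -- `n^4 ≤ D^3 N^3`
  have h2 : n ^ 4 ≤ D ^ 3 * (K.N : ℝ) ^ 3 := by
    have h3 := hB.std.dense
    have h4 : n ^ ((4 : ℝ) / 3) ≤ D * K.N :=
      h3.trans (mul_le_mul_of_nonneg_right hB.HD hNR.le)
    have h5 : (n ^ ((4 : ℝ) / 3)) ^ 3 = n ^ 4 := by
      rw [← Real.rpow_natCast, ← Real.rpow_mul hn0, ← Real.rpow_natCast]
      norm_num
    calc n ^ 4 = (n ^ ((4 : ℝ) / 3)) ^ 3 := h5.symm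
      _ ≤ (D * K.N) ^ 3 := pow_le_pow_left₀ (by positivity) h4 3
      _ = _ := by ring
  have h3 : (K.N : ℝ) ^ 3 ≤ D ^ 3 * (E.card : ℝ) ^ 3 := by
    calc (K.N : ℝ) ^ 3 ≤ (D * E.card) ^ 3 := pow_le_pow_left₀ hNR.le h.card 3
      _ = _ := by ring
  have hmain : n ≤ D ^ 18 * ((E.image K.a).card : ℝ) := by
    have h4 : n ^ 4 ≤ D ^ 18 * n ^ 3 * ((E.image K.a).card : ℝ) := by
      calc n ^ 4 ≤ D ^ 3 * (K.N : ℝ) ^ 3 := h2
        _ ≤ D ^ 3 * (D ^ 3 * (E.card : ℝ) ^ 3) := mul_le_mul_of_nonneg_left h3 (by positivity)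
        _ = D ^ 6 * (E.card : ℝ) ^ 3 := by ring
        _ ≤ D ^ 6 * (4096 * n ^ 3 * ((E.image K.a).card : ℝ)) :=
            mul_le_mul_of_nonneg_left h1' (by positivity)
        _ = (4096 : ℝ) * (D ^ 6 * n ^ 3 * ((E.image K.a).card : ℝ)) := by ring
        _ ≤ D ^ 12 * (D ^ 6 * n ^ 3 * ((E.image K.a).card : ℝ)) := by
            refine mul_le_mul_of_nonneg_right ?_ (by positivity)
            calc (4096 : ℝ) = 2 ^ 12 := by norm_num
              _ ≤ D ^ 12 := pow_le_pow_left₀ (by norm_num) hD2 12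
        _ = _ := by ring
    rcases hn0.lt_or_eq with h5 | h5
    · have h6 : 0 < n ^ 3 := by positivity
      have h7 : n ^ 3 * n ≤ n ^ 3 * (D ^ 18 * ((E.image K.a).card : ℝ)) := by
        calc n ^ 3 * n = n ^ 4 := by ring
          _ ≤ D ^ 18 * n ^ 3 * ((E.image K.a).card : ℝ) := h4
          _ = _ := by ring
      exact le_of_mul_le_mul_left h7 h6
    · rw [← h5]
      positivity
  have hapos : (0 : ℝ) < (E.image K.a).card := by
    have : 0 < (E.image K.a).card := card_pos.2 (hEne.image _)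
    exact_mod_cast this
  constructor
  · refine hmain.trans (mul_le_mul_of_nonneg_right ?_ hapos.le)
    exact pow_le_pow_right₀ hD1 (by norm_num)
  · intro j hj
    have hsub : E.image K.a ⊆ PS K r m H := by
      intro p hp
      obtain ⟨i, hi, rfl⟩ := mem_image.1 hp
      exact (h.hyg i hi).ps false
    have h4 : ((E.image K.a).card : ℝ) ≤ (PS K r m H).card := by
      exact_mod_cast card_le_card hsub
    have h5 : n < (PS K r m H).card * (r : ℝ) ^ j := by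
      calc n ≤ D ^ 18 * ((E.image K.a).card : ℝ) := hmain
        _ < D ^ 19 * ((E.image K.a).card : ℝ) := by
            refine mul_lt_mul_of_pos_right ?_ hapos
            have : 0 < D ^ 18 := by positivity
            calc D ^ 18 = D ^ 18 * 1 := by ring
              _ < D ^ 18 * D := mul_lt_mul_of_pos_left (by linarith) this
              _ = D ^ 19 := by ring
        _ ≤ r * ((PS K r m H).card : ℝ) :=
            mul_le_mul hB.Dr h4 hapos.le (by linarith)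
        _ ≤ (r : ℝ) ^ j * ((PS K r m H).card : ℝ) := by
            refine mul_le_mul_of_nonneg_right ?_ (Nat.cast_nonneg _)
            calc (r : ℝ) = (r : ℝ) ^ 1 := by ring
              _ ≤ (r : ℝ) ^ j := pow_le_pow_right₀ (by linarith) hj
        _ = _ := by ring
    have h6 : (Fintype.card ι : ℝ) < (((PS K r m H).card * r ^ j : ℕ) : ℝ) := by
      push_cast
      exact h5
    exact_mod_cast h6

open XOne in
theorem I_Grow (hRad : StRad) (hBig : StOneBig) : StGrow := by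
  classical
  obtain ⟨C, hC⟩ := hBig
  intro m e kp l
  refine ⟨C, ?_⟩
  intro ι _ _ K r H D s0 e0 L κ X2 X4 S E hB h j hj1 hj2 i hi
  have hr1 : 1 ≤ r := by have := hB.std.two; omega
  have hX2 := h.lev.1
  have hX4 := h.lev.2
  have hbig := (hC ι K r m H D s0 e0 L κ e kp l X2 X4 S E hB h).2
  have hanti : ∀ j j', 1 ≤ j → j ≤ j' → ∀ p, rd K r m H s0 e0 j' p ≤ rd K r m H s0 e0 j p := by
    intro j j' h1 h2 p
    exact (hRad ι K (PS K r m H) s0 e0 r h.lab.base hr1 j (hbig j h1)).2.2.2.1 j' h2 p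
  unfold k6 at hj2 ⊢
  obtain ⟨x', hx'⟩ : ∃ x', x' = (j + 4) / 4 := ⟨_, rfl⟩
  obtain ⟨x, hxS, hx1, hx2⟩ := h.gap (x' + 9) (by omega) (by omega)
  have hxX := mem_Icc.1 (h.sub hxS)
  have a1 := h.low x hxS i hi
  have a2 := h.up x' (by omega) (by omega) i hi
  have a3 := h.lab.stag x' (by omega) (by omega) i hi
  have a4 := h.lab.stag (x' + 3) (by omega) (by omega) i hi
  have a5 := h.lab.stag (x' + 6) (by omega) (by omega) i hi
  have a6 := del_mono h.lab hi (show 1 ≤ x' + 9 by omega) x hx1 (by omega)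
  have a7 := hanti (4 * x + kp) (j + (44 + 4 * l + kp)) (by omega) (by omega) (K.a i)
  have a8 := hanti j (4 * x' - 1) (by omega) (by omega) (K.a i)
  have hr0 : (0 : ℝ) ≤ r := Nat.cast_nonneg _
  unfold rd at a7 a8 ⊢
  calc (r : ℝ) ^ 2 * rad K (PS K r m H) s0 e0 r (j + (44 + 4 * l + kp)) (K.a i)
      ≤ (r : ℝ) ^ 2 * (r * L.del x i) :=
        mul_le_mul_of_nonneg_left (a7.trans a1) (by positivity)
    _ ≤ (r : ℝ) ^ 2 * (r * L.del (x' + 9) i) :=
        mul_le_mul_of_nonneg_left (mul_le_mul_of_nonneg_left a6 hr0) (by positivity)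
    _ ≤ (r : ℝ) ^ 2 * L.del (x' + 6) i := mul_le_mul_of_nonneg_left a5 (by positivity)
    _ = r * (r * L.del (x' + 6) i) := by ring
    _ ≤ r * L.del (x' + 3) i := mul_le_mul_of_nonneg_left a4 hr0
    _ ≤ L.del x' i := a3
    _ ≤ _ := a2.trans a8

end Pool.Agent.Work.MP_e17eac_co.BB

end

section

/-!
# Arbitrary sets, blueprint part B-5 (note 2880): statements

Hull lengths (HU), (HL) and the linear profile. Input: `Flw` (output of B-4).
-/

namespace Pool.Agent.Work.MP_e17eac_co.BB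

open Finset
open Pool.Agent.Work.MP_e17eac_co.DH
open Pool.Agent.Work.MP_e17eac_co.B1

/-! ### General facts -/

/-- Cauchy-Schwarz and a count of near and far triples (label, line, line). -/
def St5Trip : Prop := ∀ (ι : Type) [DecidableEq ι] (P1 : Finset (ℕ × ι)) (κ : ι → ℕ)
  (far : ι → ι → Prop) [DecidableRel far] (A B M U : ℝ), 0 ≤ A → 0 ≤ B →
  ((P1.image (fun z => (z.1, κ z.2))).card : ℝ) ≤ U →
  (∀ z ∈ P1, ((P1.filter (fun z' => z'.1 = z.1 ∧ κ z'.2 = κ z.2 ∧ ¬ far z.2 z'.2)).card : ℝ) ≤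
    A) →
  (∀ p q, far p q → ((P1.filter (fun z => z.2 = p ∧ (z.1, q) ∈ P1)).card : ℝ) ≤ B) →
  (∀ p ∈ P1.image Prod.snd,
    (((P1.image Prod.snd).filter (fun q => κ q = κ p)).card : ℝ) ≤ M) →
  (P1.card : ℝ) ^ 2 ≤ U * (P1.card * A + (P1.image Prod.snd).card * M * B)

/-- Nested hulls. -/
def St5Nest : Prop := ∀ (ι : Type) [Fintype ι] [DecidableEq ι] (K : KSys ι) (r m : ℕ)
  (D s0 e0 : ℝ) (L : Lab) (E : Finset ℕ), LabOK K r m D s0 e0 L E → ∀ z x, 1 ≤ z → z ≤ x →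
  x ≤ m → ∀ i ∈ E, L.h0 z i ≤ L.h0 x i ∧ L.h1 x i ≤ L.h1 z i

/-- Numerical consequences of the global assumptions. -/
def St5Num : Prop := ∀ k : ℕ, ∃ C : ℕ, ∀ (ι : Type) [Fintype ι] [DecidableEq ι] (K : KSys ι)
  (r m : ℕ) (H D : ℝ), Big K r m H D C →
  0 < Fintype.card ι ∧ 0 < K.N ∧ 2 ≤ r ∧ D ^ k ≤ r ∧
  (Fintype.card ι : ℝ) ^ 4 ≤ D ^ 3 * (K.N : ℝ) ^ 3 ∧
  ∀ j, j ≤ k * (m + 1) → r ^ j ≤ Fintype.card ι ∧
    D ^ k * (Fintype.card ι * (r : ℝ) ^ j) ≤ K.N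

/-- Few pairs (cell, line) => few edges. -/
def St5Few : Prop := ∀ k : ℕ, ∃ C C' : ℕ, ∀ (ι : Type) [Fintype ι] [DecidableEq ι] (K : KSys ι)
  (r m : ℕ) (H D : ℝ), Big K r m H D C → ∀ x, x ≤ m → ∀ F : Finset ℕ,
  (∀ i ∈ F, Hyg K r m H i) →
  D ^ C' * (((F.image (fun i => (cell K r x i, K.a i))).card : ℕ) : ℝ) ≤
    Fintype.card ι * (r : ℝ) ^ x →
  D ^ k * (F.card : ℝ) ≤ K.N

/-- Inheritance of the output of B-4. -/
def St5Inh : Prop := ∀ (ι : Type) [Fintype ι] [DecidableEq ι] (K : KSys ι) (r m : ℕ)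
  (H D D' s0 e0 : ℝ) (L : Lab) (κ : ℕ → ι → ℕ) (e kp l X2 X4 : ℕ) (S E E' : Finset ℕ),
  1 ≤ D → D ≤ D' → Flw K r m H D s0 e0 L κ e kp l X2 X4 S E → E' ⊆ E →
  (K.N : ℝ) ≤ D' * E'.card → Flw K r m H D' s0 e0 L κ e kp l X2 X4 S E'

/-- The lines of one class are few. -/
def St5Ball : Prop := ∀ kp l : ℕ, ∃ C : ℕ, ∀ (ι : Type) [Fintype ι] [DecidableEq ι]
  (K : KSys ι) (r m : ℕ) (H D s0 e0 : ℝ) (L : Lab) (κ : ℕ → ι → ℕ) (e X2 X4 : ℕ)
  (S E : Finset ℕ), Big K r m H D C → Flw K r m H D s0 e0 L κ e kp l X2 X4 S E →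
  ∀ y, X2 + k6 kp l + 1 ≤ y → y ≤ X4 → ∀ i ∈ E,
  (((E.image K.a).filter (fun p => κ y p = κ y (K.a i))).card : ℝ) * (r : ℝ) ^ (4 * y) ≤
    Fintype.card ι * (r : ℝ) ^ (k6 kp l + 1)

/-! ### (HU) -/

/-- Two lines which are far apart share few labels in long hulls. -/
def St5Far : Prop := ∀ (ι : Type) [Fintype ι] [DecidableEq ι] (K : KSys ι) (r m : ℕ)
  (H D s0 e0 : ℝ) (L : Lab) (E : Finset ℕ), LabOK K r m D s0 e0 L E →
  (∀ i ∈ E, Hyg K r m H i) → 1 ≤ r → 0 ≤ H → ∀ x z, 1 ≤ z → z ≤ x → x ≤ m →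
  ∀ (p q : ι) (ε ρ : ℝ), 0 ≤ ε → ρ ≤ dist0 K s0 e0 p q → ∀ F ⊆ E,
  (∀ i ∈ F, K.a i = p ∧ (∃ i' ∈ E, K.a i' = q ∧ L.lab x i' = L.lab x i) ∧
    D * L.del x i ≤ ε ∧ 4 * ε * (e0 - s0) < ρ * (L.h1 z i - L.h0 z i)) →
  ((F.image (L.lab x)).card : ℝ) ≤ 2 * H * (r : ℝ) ^ (x - z)

/-- **(HU)**: few edges violate the upper bound for the hull lengths. -/
def St5HU : Prop := ∀ m e kp l k : ℕ, ∃ C : ℕ, ∀ (ι : Type) [Fintype ι] [DecidableEq ι]
  (K : KSys ι) (r : ℕ) (H D s0 e0 : ℝ) (L : Lab) (κ : ℕ → ι → ℕ) (X2 X4 : ℕ)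
  (S E : Finset ℕ), Big K r m H D C → Flw K r m H D s0 e0 L κ e kp l X2 X4 S E →
  ∀ x ∈ S, ∀ y, X2 + k6 kp l + 1 ≤ y → y < x → x ≤ 2 * y → x + kt e kp l ≤ X4 →
  ∀ z, z = 2 * (x - y) + kz e kp l → z ≤ x → ∀ E1 ⊆ E,
  (∀ i ∈ E1, r * rd K r m H s0 e0 (4 * x - 1) (K.a i) * (e0 - s0) <
    (L.h1 z i - L.h0 z i) * rd K r m H s0 e0 (4 * y + kb e kp l) (K.a i)) →
  D ^ k * (E1.card : ℝ) ≤ K.N

/-! ### (HL) -/

/-- **THICK**: few edges are in thin units. -/
def St5Thick : Prop := ∀ m e kp l k : ℕ, ∃ C : ℕ, ∀ (ι : Type) [Fintype ι] [DecidableEq ι]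
  (K : KSys ι) (r : ℕ) (H D s0 e0 : ℝ) (L : Lab) (κ : ℕ → ι → ℕ) (X2 X4 : ℕ)
  (S E : Finset ℕ), Big K r m H D C → Flw K r m H D s0 e0 L κ e kp l X2 X4 S E →
  ∀ x ∈ S, ∀ y, X2 + k6 kp l + 1 ≤ y → y < x → x ≤ 2 * y → x + kt e kp l ≤ X4 →
  ∀ E1 ⊆ E, (∀ i ∈ E1, ((unl K L κ E x y i).card : ℝ) *
    (r : ℝ) ^ (2 * x + 2 * y + k8 e kp l + 2) < Fintype.card ι) →
  D ^ k * (E1.card : ℝ) ≤ K.N

/-- Cleaning 1: few edges are in heavy pairs (class, cell). -/
def St5Heavy : Prop := ∀ k : ℕ, ∃ C C' : ℕ, ∀ (ι : Type) [Fintype ι] [DecidableEq ι]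
  (K : KSys ι) (r m : ℕ) (H D : ℝ), Big K r m H D C → ∀ z x', z ≤ x' → x' ≤ m →
  ∀ (κ : ι → ℕ) (E : Finset ℕ), (∀ i ∈ E, Hyg K r m H i) →
  HashOK K r D (PS K r m H) x' κ E → ∀ E1 ⊆ E,
  (∀ i ∈ E1, D ^ C' * (r : ℝ) ^ (x' - z) < (((E.filter (fun j => κ (K.a j) = κ (K.a i) ∧
    cell K r z j = cell K r z i)).image (cell K r x')).card : ℝ)) →
  D ^ k * (E1.card : ℝ) ≤ K.N

/-- Cleaning 2: the light pairs (line, cell) contain few edges. -/
def St5Light : Prop := ∀ k : ℕ, ∃ C C' : ℕ, ∀ (ι : Type) [Fintype ι] [DecidableEq ι]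
  (K : KSys ι) (r m : ℕ) (H D : ℝ), Big K r m H D C → ∀ z, z ≤ m → ∀ E1 : Finset ℕ,
  (∀ i ∈ E1, Hyg K r m H i) → (K.N : ℝ) ≤ D ^ k * E1.card →
  ∃ E2 ⊆ E1, E1.card ≤ 2 * E2.card ∧ ∀ i ∈ E2, (K.N : ℝ) ≤ D ^ C' * Fintype.card ι *
    (r : ℝ) ^ z *
    ((E2.filter (fun j => K.a j = K.a i ∧ cell K r z j = cell K r z i)).card : ℝ)

/-- **(AV) and (P2)**: every pair (line, cell of level `z`) of `E2` has a set `R` of lines visited
in all cells of level `x'` of this pair. -/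
def St5AVP : Prop := ∀ k : ℕ, ∃ C C' : ℕ, ∀ (ι : Type) [Fintype ι] [DecidableEq ι]
  (K : KSys ι) (r m : ℕ) (H D : ℝ), Big K r m H D C → ∀ z x', z ≤ x' → x' ≤ m →
  ∀ (κ : ι → ℕ) (E2 : Finset ℕ), (∀ i ∈ E2, Hyg K r m H i) →
  (∀ i ∈ E2, κ (K.a i) = κ (K.b i)) → (K.N : ℝ) ≤ D ^ k * E2.card →
  (∀ i ∈ E2, (K.N : ℝ) ≤ D ^ k * Fintype.card ι * (r : ℝ) ^ z *
    ((E2.filter (fun j => K.a j = K.a i ∧ cell K r z j = cell K r z i)).card : ℝ)) →
  (∀ i ∈ E2, (((E2.filter (fun j => κ (K.a j) = κ (K.a i) ∧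
    cell K r z j = cell K r z i)).image (cell K r x')).card : ℝ) ≤ D ^ k * (r : ℝ) ^ (x' - z)) →
  ∀ (R : ℕ → Finset ι) (M : ℝ),
  (∀ i ∈ E2, M ≤ ((R i).card : ℝ) ∧ R i ⊆ PSr K r m H z (cell K r z i)) →
  (∀ i ∈ E2, ∀ j ∈ E2, K.a j = K.a i → cell K r z j = cell K r z i →
    R i ⊆ vis K r x' (cell K r x' j)) →
  M * (r : ℝ) ^ (4 * x') ≤ D ^ C' * Fintype.card ι * (r : ℝ) ^ z

open Classical in
/-- The typical lines close to the line of the edge `i` on the hull of level `z`. -/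
noncomputable def RB {ι : Type} [Fintype ι] [DecidableEq ι] (K : KSys ι) (r m : ℕ) (H : ℝ)
    (L : Lab) (z i : ℕ) (ε : ℝ) : Finset ι :=
  (PSr K r m H z (cell K r z i)).filter (fun s =>
    |K.ht s (L.h0 z i) - K.ht (K.a i) (L.h0 z i)| ≤ ε ∧
    |K.ht s (L.h1 z i) - K.ht (K.a i) (L.h1 z i)| ≤ ε)

/-- The lines of the unit of a violating edge are close to its line on the hull of level `z`. -/
def St5GeoA : Prop := ∀ (ι : Type) [Fintype ι] [DecidableEq ι] (K : KSys ι) (r m : ℕ)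
  (H D s0 e0 : ℝ) (L : Lab) (κ : ℕ → ι → ℕ) (e kp l X2 X4 : ℕ) (S E : Finset ℕ),
  1 ≤ r → 2 ≤ D → One K r m H D s0 e0 L κ e kp l X2 X4 S E →
  ∀ x y z, X2 ≤ x → x ≤ X4 → X2 ≤ y → y ≤ X4 → 1 ≤ z → z ≤ x → ∀ i ∈ E,
  0 ≤ rd K r m H s0 e0 (4 * x - 1) (K.a i) →
  r * (L.h1 z i - L.h0 z i) * rd K r m H s0 e0 (4 * y - 1) (K.a i) ≤
    rd K r m H s0 e0 (4 * x - 1) (K.a i) * (e0 - s0) →
  unl K L κ E x y i ⊆ RB K r m H L z i
    (2 * D * rd K r m H s0 e0 (4 * x - 1) (K.a i))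

/-- The lines close to a line on the hull of level `z` are visited in its cells of level `x'`. -/
def St5GeoB : Prop := ∀ (ι : Type) [Fintype ι] [DecidableEq ι] (K : KSys ι) (r m : ℕ)
  (H D s0 e0 : ℝ) (L : Lab) (E : Finset ℕ), LabOK K r m D s0 e0 L E →
  ∀ x' z, 1 ≤ z → z ≤ x' → x' ≤ m → ∀ i ∈ E, ∀ i' ∈ E, K.a i' = K.a i →
  cell K r z i' = cell K r z i → ∀ ε, ε < L.del x' i' →
  RB K r m H L z i ε ⊆ vis K r x' (cell K r x' i')

/-- **(HL)**: few thick edges violate the lower bound for the hull lengths. -/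
def St5HL : Prop := ∀ m e kp l k : ℕ, ∃ C : ℕ, ∀ (ι : Type) [Fintype ι] [DecidableEq ι]
  (K : KSys ι) (r : ℕ) (H D s0 e0 : ℝ) (L : Lab) (κ : ℕ → ι → ℕ) (X2 X4 : ℕ)
  (S E : Finset ℕ), Big K r m H D C → Flw K r m H D s0 e0 L κ e kp l X2 X4 S E →
  ∀ x ∈ S, ∀ x' ∈ S, ∀ y, X2 + k6 kp l + 1 ≤ y → y < x → x ≤ 2 * y →
  x + kt e kp l ≤ X4 → 4 * x' + (kp + k6 kp l) ≤ 4 * x - 1 →
  ∀ z, 1 ≤ z → z + (4 * (x - x') + (k8 e kp l + 5)) = 2 * (x - y) → z ≤ x' → ∀ E1 ⊆ E,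
  (∀ i ∈ E1, (Fintype.card ι : ℝ) ≤ ((unl K L κ E x y i).card : ℝ) *
    (r : ℝ) ^ (2 * x + 2 * y + k8 e kp l + 2)) →
  (∀ i ∈ E1, r * (L.h1 z i - L.h0 z i) * rd K r m H s0 e0 (4 * y - 1) (K.a i) <
    rd K r m H s0 e0 (4 * x - 1) (K.a i) * (e0 - s0)) →
  D ^ k * (E1.card : ℝ) ≤ K.N

end Pool.Agent.Work.MP_e17eac_co.BB

end
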