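import Pool.Agent.Work.MP_e17eac_co.Bd.B08
import Pool.Agent.Work.MP_e17eac_co.Bd.B12
import Pool.Agent.Work.MP_e17eac_co.Bd.B17
import Pool.Agent.Work.MP_e17eac_co.DH.St4
import Pool.Agent.Work.MP_e17eac_co.Bd.B19

/-! Bundle of small proof modules (one section per former module). -/

section

/-!
# Base facts on the sweep (light import instead of `DH.Final`)
-/

namespace Pool.Agent.Work.MP_e17eac_co.B1

open Pool.Agent.Work.MP_e17eac_co.DH

theorem bPos : StPos := I_POS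

theorem bTok : StTok := I_TOK bPos

theorem bMono : StMono := I_MONO bTok

theorem bPath : StPath := I_PATH bTok bMono

theorem bMir : StMir := I_MIR

theorem bIdx : StIdx := I_IDX

theorem bLeq : StLeq := I_LEQ

theorem bTouch : StTouch := I_TOUCH bPos bTok bMono bPath bMir bLeq

theorem bCinj : StCinj := I_CINJ bTok bTouch bLeq

theorem bCcnt : StCcnt := I_CCNT bCinj

theorem bPlanar : StPlanar := I_PLANAR

theorem bPl : StPl := I_PL bPlanar bLeq

theorem bCrl : StCrl := I_CRL bPl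

theorem bDey : StDey := I_DEY bCrl bCcnt

end Pool.Agent.Work.MP_e17eac_co.B1

end

section

/-!
# Few edges between classes
-/

set_option autoImplicit false

namespace Pool.Agent.Work.MP_e17eac_co.SK

open Finset
open Pool.Agent.Work.MP_e17eac_co.DH

namespace XCUT

variable {ι : Type} [Fintype ι] [DecidableEq ι]

theorem pos_tokB (K : KSys ι) (n : ℕ) : K.pos n (K.tokB n) = K.a n :=
  Equiv.apply_symm_apply _ _

theorem pos_tokB_succ (K : KSys ι) (n : ℕ) : K.pos (n + 1) (K.tokB n) = K.b n := by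
  change Equiv.swap (K.a n) (K.b n) (K.pos n (K.tokB n)) = K.b n
  rw [pos_tokB, Equiv.swap_apply_left]

theorem alt (P1 Q1 P2 Q2 P3 Q3 : Prop) (e1 : ¬ (P1 ↔ Q1)) (e2 : ¬ (P2 ↔ Q2))
    (e3 : ¬ (P3 ↔ Q3)) (i1 : ¬ Q1 → ¬ Q2 → ¬ P2) (i2 : ¬ P2 → ¬ Q3 → ¬ P3)
    (i3 : ¬ P2 → ¬ P3 → ¬ Q2) (i4 : ¬ P1 → ¬ Q2 → ¬ P2) : False := by
  by_cases h2 : P2
  · have h2' : ¬ Q2 := fun h => e2 ⟨fun _ => h, fun _ => h2⟩
    by_cases h1 : P1
    · have h1' : ¬ Q1 := fun h => e1 ⟨fun _ => h, fun _ => h1⟩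
      exact i1 h1' h2' h2
    · exact i4 h1 h2' h2
  · have h2' : Q2 := by
      by_contra h
      exact e2 ⟨fun h' => absurd h' h2, fun h' => absurd h' h⟩
    by_cases h3 : P3
    · have h3' : ¬ Q3 := fun h => e3 ⟨fun _ => h, fun _ => h3⟩
      exact i2 h2 h3' h3
    · exact i3 h2 h3 h2'

/-- The status of a bottom token changes at most twice. -/
theorem key (hTOKI : StTokInt) (K : KSys ι) (c : ℕ × ℕ) (s : Bool) (hc : IsWin K c)
    (n n' n'' : ℕ) (h1 : n < n') (h2 : n' < n'') (h3 : n'' < K.N)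
    (e1 : ¬ (chi K c s (K.a n) ↔ chi K c s (K.b n)))
    (e2 : ¬ (chi K c s (K.a n') ↔ chi K c s (K.b n')))
    (e3 : ¬ (chi K c s (K.a n'') ↔ chi K c s (K.b n'')))
    (t1 : K.tokB n' = K.tokB n) (t2 : K.tokB n'' = K.tokB n) : False := by
  have hτ : K.tokB n ∈ K.S 0 :=
    (I_POS ι K n (by omega) _).1 (K.a_mem n (by omega))
  have I : ∀ m₁ m₂ m₃ : ℕ, m₁ ≤ m₂ → m₂ ≤ m₃ → m₃ ≤ K.N →
      ¬ chi K c s (K.pos m₁ (K.tokB n)) → ¬ chi K c s (K.pos m₃ (K.tokB n)) →
      ¬ chi K c s (K.pos m₂ (K.tokB n)) :=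
    fun m₁ m₂ m₃ a1 a2 a3 => (hTOKI ι K c s (K.tokB n) m₁ m₂ m₃ hc a1 a2 a3).1 hτ
  have p1 := pos_tokB K n
  have p1' := pos_tokB_succ K n
  have p2 := pos_tokB K n'
  have p2' := pos_tokB_succ K n'
  have p3 := pos_tokB K n''
  have p3' := pos_tokB_succ K n''
  rw [t1] at p2 p2'
  rw [t2] at p3 p3'
  rw [← p1, ← p1'] at e1
  rw [← p2, ← p2'] at e2
  rw [← p3, ← p3'] at e3
  have i1 := I (n + 1) n' (n' + 1) (by omega) (by omega) (by omega)
  have i2 := I n' n'' (n'' + 1) (by omega) (by omega) (by omega)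
  have i3 := I n' (n' + 1) n'' (by omega) (by omega) (by omega)
  have i4 := I n n' (n' + 1) (by omega) (by omega) (by omega)
  exact alt _ _ _ _ _ _ e1 e2 e3 i1 i2 i3 i4

open Classical in
/-- At most two changes for each bottom token. -/
theorem one (hTOKI : StTokInt) (K : KSys ι) (c : ℕ × ℕ) (s : Bool) (hc : IsWin K c) :
    ((range K.N).filter (fun n => ¬ (chi K c s (K.a n) ↔ chi K c s (K.b n)))).card ≤
      2 * Fintype.card ι := by
  set E := (range K.N).filter (fun n => ¬ (chi K c s (K.a n) ↔ chi K c s (K.b n))) with hE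
  have h := Finset.card_le_mul_card_image (f := K.tokB) E 2 (by
    intro τ _
    by_contra hcon
    push Not at hcon
    obtain ⟨x, y, z, hx, hy, hz, hxy, hxz, hyz⟩ := Finset.two_lt_card_iff.1 hcon
    have aux : ∀ u ∈ E.filter (fun n => K.tokB n = τ), u < K.N ∧
        ¬ (chi K c s (K.a u) ↔ chi K c s (K.b u)) ∧ K.tokB u = τ := by
      intro u hu
      rw [mem_filter, hE, mem_filter, mem_range] at hu
      exact ⟨hu.1.1, hu.1.2, hu.2⟩
    have tri : ∀ u ∈ E.filter (fun n => K.tokB n = τ), ∀ v ∈ E.filter (fun n => K.tokB n = τ),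
        ∀ w ∈ E.filter (fun n => K.tokB n = τ), u < v → v < w → False := by
      intro u hu v hv w hw h1 h2
      obtain ⟨_, u2, u3⟩ := aux u hu
      obtain ⟨_, v2, v3⟩ := aux v hv
      obtain ⟨w1, w2, w3⟩ := aux w hw
      exact key hTOKI K c s hc u v w h1 h2 w1 u2 v2 w2 (v3.trans u3.symm) (w3.trans u3.symm)
    rcases lt_or_gt_of_ne hxy with h1 | h1 <;> rcases lt_or_gt_of_ne hxz with h2 | h2 <;>
      rcases lt_or_gt_of_ne hyz with h3 | h3
    · exact tri x hx y hy z hz h1 h3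
    · exact tri x hx z hz y hy h2 h3
    · omega
    · exact tri z hz x hx y hy h2 h1
    · exact tri y hy x hx z hz h1 h2
    · omega
    · exact tri y hy z hz x hx h3 h2
    · exact tri z hz y hy x hx h3 h1)
  have h2 : (E.image K.tokB).card ≤ Fintype.card ι := Finset.card_le_univ _
  calc E.card ≤ 2 * (E.image K.tokB).card := h
    _ ≤ 2 * Fintype.card ι := by omega

end XCUT

theorem I_CUT (hTOKI : StTokInt) : StCut := by
  classical
  intro ι _ _ K W hW
  have hsub : ((range K.N).filter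
      (fun n => ∃ c ∈ W, ∃ s, ¬ (chi K c s (K.a n) ↔ chi K c s (K.b n)))) ⊆
      W.biUnion (fun c => (univ : Finset Bool).biUnion (fun s =>
        (range K.N).filter (fun n => ¬ (chi K c s (K.a n) ↔ chi K c s (K.b n))))) := by
    intro n hn
    rw [mem_filter] at hn
    obtain ⟨h1, c, hc, s, hs⟩ := hn
    rw [mem_biUnion]
    refine ⟨c, hc, ?_⟩
    rw [mem_biUnion]
    exact ⟨s, mem_univ _, mem_filter.2 ⟨h1, hs⟩⟩
  calc ((range K.N).filter
      (fun n => ∃ c ∈ W, ∃ s, ¬ (chi K c s (K.a n) ↔ chi K c s (K.b n)))).card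
      ≤ (W.biUnion (fun c => (univ : Finset Bool).biUnion (fun s =>
        (range K.N).filter (fun n => ¬ (chi K c s (K.a n) ↔ chi K c s (K.b n)))))).card :=
        card_le_card (by convert hsub)
    _ ≤ ∑ c ∈ W, ((univ : Finset Bool).biUnion (fun s =>
        (range K.N).filter (fun n => ¬ (chi K c s (K.a n) ↔ chi K c s (K.b n))))).card :=
        card_biUnion_le
    _ ≤ ∑ c ∈ W, ∑ s : Bool, ((range K.N).filter
        (fun n => ¬ (chi K c s (K.a n) ↔ chi K c s (K.b n)))).card :=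
        sum_le_sum (fun c _ => card_biUnion_le)
    _ ≤ ∑ c ∈ W, ∑ s : Bool, 2 * Fintype.card ι :=
        sum_le_sum (fun c hc => sum_le_sum (fun s _ => XCUT.one hTOKI K c s (hW c hc)))
    _ = 4 * Fintype.card ι * W.card := by
        rw [sum_const, sum_const, smul_eq_mul, smul_eq_mul, card_univ, Fintype.card_bool]
        ring

end Pool.Agent.Work.MP_e17eac_co.SK

end

section

/-!
# The coordinates along a token
-/

namespace Pool.Agent.Work.MP_e17eac_co.SK

open Finset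
open Pool.Agent.Work.MP_e17eac_co.DH

namespace XTOKI

variable {ι : Type} [Fintype ι] [DecidableEq ι]

theorem mid (hVS : StVs) (K : KSys ι) (c : ℕ × ℕ) (s : Bool) (hc : IsWin K c) (n : ℕ)
    (h1 : c.1 ≤ n) (h2 : n < c.2) : chi K c s (K.a n) ↔ chi K c s (K.b n) := by
  have ha : K.a n ∈ vs K c :=
    mem_union_left _ (mem_image_of_mem K.a (mem_Ico.2 ⟨h1, h2⟩))
  have hb : K.b n ∈ vs K c :=
    mem_union_right _ (mem_image_of_mem K.b (mem_Ico.2 ⟨h1, h2⟩))
  obtain ⟨a1, a2⟩ := (hVS ι K c hc _).1 ha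
  obtain ⟨b1, b2⟩ := (hVS ι K c hc _).1 hb
  cases s with
  | true => exact ⟨fun h => absurd h a2, fun h => absurd h b2⟩
  | false => exact ⟨fun _ => b1, fun _ => a1⟩

/-- before the end of the window -/
theorem ba (hORD : StOrd) (hVS : StVs) (K : KSys ι) (c : ℕ × ℕ) (s : Bool) (hc : IsWin K c)
    (n : ℕ) (hn : n < K.N) (h : n < c.2) : chi K c s (K.b n) → chi K c s (K.a n) := by
  rcases Nat.lt_or_ge n c.1 with h1 | h1
  · cases s with
    | true =>
      intro hb m hm1 hm2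
      exact (hORD ι K n m hn (hm2.trans hc.2)).1 (by omega) (hb m hm1 hm2)
    | false =>
      rintro ⟨m, hm1, hm2, hb⟩
      exact ⟨m, hm1, hm2, (hORD ι K n m hn (hm2.trans hc.2)).1 (by omega) hb⟩
  · exact (mid hVS K c s hc n h1 h).2

/-- after the start of the window -/
theorem ab (hORD : StOrd) (hVS : StVs) (K : KSys ι) (c : ℕ × ℕ) (s : Bool) (hc : IsWin K c)
    (n : ℕ) (hn : n < K.N) (h : c.1 ≤ n) : chi K c s (K.a n) → chi K c s (K.b n) := by
  rcases Nat.lt_or_ge n c.2 with h1 | h1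
  · exact (mid hVS K c s hc n h h1).1
  · cases s with
    | true =>
      intro ha m hm1 hm2
      exact (hORD ι K n m hn (hm2.trans hc.2)).2 (by omega) (ha m hm1 hm2)
    | false =>
      rintro ⟨m, hm1, hm2, ha⟩
      exact ⟨m, hm1, hm2, (hORD ι K n m hn (hm2.trans hc.2)).2 (by omega) ha⟩

theorem fwd (P : ℕ → Prop) (p q : ℕ) (hpq : p ≤ q)
    (h : ∀ n, p ≤ n → n < q → P n → P (n + 1)) : P p → P q := by
  intro hp
  obtain ⟨k, rfl⟩ := Nat.exists_eq_add_of_le hpq
  clear hpq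
  induction k with
  | zero => exact hp
  | succ k ih =>
    have := ih (fun n h1 h2 => h n h1 (by omega))
    exact h (p + k) (by omega) (by omega) this

theorem bwd (P : ℕ → Prop) (p q : ℕ) (hpq : p ≤ q)
    (h : ∀ n, p ≤ n → n < q → P (n + 1) → P n) : P q → P p := by
  intro hq
  by_contra hp
  exact fwd (fun n => ¬ P n) p q hpq (fun n h1 h2 h3 h4 => h3 (h n h1 h2 h4)) hp hq

/-- a bottom token stays or moves from `a n` to `b n` -/
theorem botStep (K : KSys ι) (τ : ι) (hτ : τ ∈ K.S 0) (n : ℕ) (hn : n < K.N) :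
    K.pos (n + 1) τ = K.pos n τ ∨ (K.pos n τ = K.a n ∧ K.pos (n + 1) τ = K.b n) := by
  obtain ⟨_, h2, h3, h4, _, _, h7⟩ := I_TOK I_POS ι K n hn
  by_cases h : τ = K.tokB n
  · subst h
    exact Or.inr ⟨h3, h4⟩
  · refine Or.inl (h7 τ h ?_)
    rintro rfl
    exact h2 hτ

/-- a top token stays or moves from `b n` to `a n` -/
theorem topStep (K : KSys ι) (τ : ι) (hτ : τ ∉ K.S 0) (n : ℕ) (hn : n < K.N) :
    K.pos (n + 1) τ = K.pos n τ ∨ (K.pos n τ = K.b n ∧ K.pos (n + 1) τ = K.a n) := by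
  obtain ⟨h1, _, _, _, h5, h6, h7⟩ := I_TOK I_POS ι K n hn
  by_cases h : τ = K.tokT n
  · subst h
    exact Or.inr ⟨h5, h6⟩
  · refine Or.inl (h7 τ ?_ h)
    rintro rfl
    exact hτ h1

end XTOKI

open XTOKI in
theorem I_TOKI (hORD : StOrd) (hVS : StVs) : StTokInt := by
  intro ι _ _ K c s τ n₁ n₂ n₃ hc h12 h23 h3
  constructor
  · intro hτ c1 c3 c2
    rcases le_total n₂ c.2 with h | h
    · refine c1 (bwd (fun n => chi K c s (K.pos n τ)) n₁ n₂ h12 (fun n _ hn2 hp => ?_) c2)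
      rcases botStep K τ hτ n (by omega) with e | ⟨e1, e2⟩
      · simpa only [e] using hp
      · simp only [e1]
        simp only [e2] at hp
        exact ba hORD hVS K c s hc n (by omega) (by omega) hp
    · refine c3 (fwd (fun n => chi K c s (K.pos n τ)) n₂ n₃ h23 (fun n hn1 hn2 hp => ?_) c2)
      rcases botStep K τ hτ n (by omega) with e | ⟨e1, e2⟩
      · simpa only [e] using hp
      · simp only [e2]
        simp only [e1] at hp
        exact ab hORD hVS K c s hc n (by omega) (by have := hc.1; omega) hp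
  · intro hτ c1 c3
    rcases le_total n₂ c.2 with h | h
    · refine fwd (fun n => chi K c s (K.pos n τ)) n₁ n₂ h12 (fun n _ hn2 hp => ?_) c1
      rcases topStep K τ hτ n (by omega) with e | ⟨e1, e2⟩
      · simpa only [e] using hp
      · simp only [e2]
        simp only [e1] at hp
        exact ba hORD hVS K c s hc n (by omega) (by omega) hp
    · refine bwd (fun n => chi K c s (K.pos n τ)) n₂ n₃ h23 (fun n hn1 hn2 hp => ?_) c3
      rcases topStep K τ hτ n (by omega) with e | ⟨e1, e2⟩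
      · simpa only [e] using hp
      · simp only [e1]
        simp only [e2] at hp
        exact ab hORD hVS K c s hc n (by omega) (by have := hc.1; omega) hp

end Pool.Agent.Work.MP_e17eac_co.SK

end

section

/-!
# Project PS: windows (interface between the sweep part and point sets), statements of section 10
-/

namespace Pool.Agent.Work.MP_e17eac_co.PS

open Finset
open Pool.Agent.Work.MP_e17eac_co.DH

/-- The determinant (twice the signed area) of three dual points. -/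
def det3 {ι : Type} (x y : ι → ℝ) (i j l : ι) : ℝ :=
  (x j - x i) * (y l - y i) - (y j - y i) * (x l - x i)

open Classical in
/-- Number of lines below the intersection point of the lines `i` and `j` (if `x i < x j`). -/
noncomputable def lvl {ι : Type} [Fintype ι] (x y : ι → ℝ) (i j : ι) : ℕ :=
  (univ.filter (fun l => det3 x y i j l < 0)).card

/-- Hypotheses on the sweep in a window: slopes `1/m`-separated, times `1/m`-separated, no three
lines concurrent. -/
structure Win {ι : Type} [Fintype ι] [DecidableEq ι] (K : KSys ι) (m : ℝ) : Prop where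
  hm : 1 ≤ m
  sep : K.Sep m
  gp : ∀ i j l, i ≠ j → i ≠ l → j ≠ l → det3 K.x K.y i j l ≠ 0
  gap : ∀ n n', n < n' → n' < K.N → 1 ≤ m * (K.t n' - K.t n)

open Classical in
/-- **Window theorem** (goal of sections 1 to 9). -/
def StWinPS : Prop := ∀ B : ℝ, 1 ≤ B → ∃ c : ℝ, 0 < c ∧ ∃ C : ℝ, 0 < C ∧
  ∀ (ι : Type) [Fintype ι] [DecidableEq ι] (K : KSys ι) (m : ℝ), Win K m →
  m ≤ (Fintype.card ι : ℝ) ^ B →
  (((range K.N).filter (fun n => 0 ≤ K.t n ∧ K.t n < 1)).card : ℝ) ≤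
    C * (Fintype.card ι : ℝ) ^ ((4 : ℝ) / 3 - c)

/-! ### Point sets -/

/-- The sweep of the level `k` of the lines `y i + x i * s`: its edges are exactly the pairs
`(i, j)` with `x i < x j` and `lvl x y i j = k`. -/
def StSweepY : Prop := ∀ (ι : Type) [Fintype ι] [DecidableEq ι] [Nonempty ι] (x y : ι → ℝ) (k : ℕ),
  (∀ i, 0 ≤ x i ∧ x i ≤ 1) → Function.Injective x →
  (∀ i j l, i ≠ j → i ≠ l → j ≠ l → det3 x y i j l ≠ 0) →
  ∃ K : KSys ι, K.x = x ∧ K.y = y ∧ (∀ n, n < K.N → lvl x y (K.b n) (K.a n) = k) ∧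
    ∀ i j, x i < x j → lvl x y i j = k → ∃ n, n < K.N ∧ K.b n = i ∧ K.a n = j

/-- Times of edges are separated if all triangles have area at least `1/m`. -/
def StGap : Prop := ∀ (ι : Type) [Fintype ι] [DecidableEq ι] (K : KSys ι) (m : ℝ), 0 < m →
  (∀ i j l, i ≠ j → i ≠ l → j ≠ l → 1 ≤ m * |det3 K.x K.y i j l|) →
  ∀ n n', n < n' → n' < K.N → 1 ≤ 2 * m * (K.t n' - K.t n)

/-- Edges of slope in `(-1, 0]` of a normalised point set. -/
def StWP : Prop := ∀ B : ℝ, 1 ≤ B → ∃ c : ℝ, 0 < c ∧ ∃ C : ℝ, 0 < C ∧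
  ∀ (P : Finset (ℝ × ℝ)) (m : ℝ), 1 ≤ m → m ≤ (P.card : ℝ) ^ B →
  (∀ p ∈ P, 0 ≤ p.1 ∧ p.1 ≤ 1) → (∀ p ∈ P, ∀ q ∈ P, p ≠ q → 1 ≤ m * |p.1 - q.1|) →
  (∀ p ∈ P, ∀ q ∈ P, ∀ r ∈ P, p ≠ q → p ≠ r → q ≠ r → 1 ≤ m * |side p q r|) →
  ∀ (k : ℕ) (T : Finset ((ℝ × ℝ) × (ℝ × ℝ))), (∀ e ∈ T, e.1 ∈ P ∧ e.2 ∈ P ∧ e.1.1 < e.2.1 ∧
    (P.filter fun r => side e.1 e.2 r < 0).card = k ∧ e.2.2 ≤ e.1.2 ∧
    e.1.2 - e.2.2 < e.2.1 - e.1.1) →
  (T.card : ℝ) ≤ C * (P.card : ℝ) ^ ((4 : ℝ) / 3 - c)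

/-- Choice of a shear which separates the abscissae: if all distances (in the maximum norm) are
at least `d` then for one of the shears `x + ε y`, `ε = i / M`, `i ≤ M`, `M` = square of the number
of points, all differences of abscissae are at least `d / (4 M)`. -/
def StShear : Prop := ∀ (P : Finset (ℝ × ℝ)) (d : ℝ), 0 < d → P.Nonempty →
  (∀ p ∈ P, ∀ q ∈ P, p ≠ q → d ≤ |p.1 - q.1| ∨ d ≤ |p.2 - q.2|) →
  ∃ ε : ℝ, 0 ≤ ε ∧ ε ≤ 1 / 2 ∧ ∀ p ∈ P, ∀ q ∈ P, p ≠ q →
    d ≤ 8 * (P.card : ℝ) ^ 2 * |(p.1 + ε * p.2) - (q.1 + ε * q.2)|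

/-- Edges in one octant of a point set in the square `[-1, 1]^2`. -/
def StOct : Prop := ∀ B : ℝ, 1 ≤ B → ∃ c : ℝ, 0 < c ∧ ∃ C : ℝ, 0 < C ∧
  ∀ (P : Finset (ℝ × ℝ)) (m : ℝ), 3 ≤ P.card → 1 ≤ m → m ≤ (P.card : ℝ) ^ B →
  (∀ p ∈ P, |p.1| ≤ 1 ∧ |p.2| ≤ 1) →
  (∀ p ∈ P, ∀ q ∈ P, ∀ r ∈ P, p ≠ q → p ≠ r → q ≠ r → 1 ≤ m * |side p q r|) →
  ∀ (k : ℕ) (T : Finset ((ℝ × ℝ) × (ℝ × ℝ))), (∀ e ∈ T, e.1 ∈ P ∧ e.2 ∈ P ∧ e.1.1 < e.2.1 ∧
    (P.filter fun r => side e.1 e.2 r < 0).card = k ∧ e.2.2 ≤ e.1.2 ∧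
    e.1.2 - e.2.2 ≤ e.2.1 - e.1.1) →
  (T.card : ℝ) ≤ C * (P.card : ℝ) ^ ((4 : ℝ) / 3 - c)

/-- All `k`-edges of a point set in the square `[-1, 1]^2`. -/
def StSq : Prop := ∀ B : ℝ, 1 ≤ B → ∃ c : ℝ, 0 < c ∧ ∃ C : ℝ, 0 < C ∧
  ∀ (P : Finset (ℝ × ℝ)) (m : ℝ), 3 ≤ P.card → 1 ≤ m → m ≤ (P.card : ℝ) ^ B →
  (∀ p ∈ P, |p.1| ≤ 1 ∧ |p.2| ≤ 1) →
  (∀ p ∈ P, ∀ q ∈ P, ∀ r ∈ P, p ≠ q → p ≠ r → q ≠ r → 1 ≤ m * |side p q r|) →
  ∀ k : ℕ, ((kEdges P k).card : ℝ) ≤ C * (P.card : ℝ) ^ ((4 : ℝ) / 3 - c)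

/-- **Main theorem**: `k`-edges of a set of `n` points such that the areas of any two triangles
differ by a factor of at most `n ^ B`. -/
def StArea : Prop := ∀ B : ℝ, 1 ≤ B → ∃ c : ℝ, 0 < c ∧ ∃ C : ℝ, 0 < C ∧
  ∀ (P : Finset (ℝ × ℝ)) (a : ℝ), 0 < a →
  (∀ p ∈ P, ∀ q ∈ P, ∀ r ∈ P, p ≠ q → p ≠ r → q ≠ r →
    a ≤ |side p q r| ∧ |side p q r| ≤ (P.card : ℝ) ^ B * a) →
  ∀ k : ℕ, ((kEdges P k).card : ℝ) ≤ C * (P.card : ℝ) ^ ((4 : ℝ) / 3 - c)

end Pool.Agent.Work.MP_e17eac_co.PS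

end

section

/-!
# FLUX: counting lemmas
-/

namespace Pool.Agent.Work.MP_e17eac_co.B4

open Finset
open Pool.Agent.Work.MP_e17eac_co.DH
open Pool.Agent.Work.MP_e17eac_co.B1

variable {ι : Type} [Fintype ι] [DecidableEq ι]

/-- A typical line which is visited in all cells of the edges `F`: few cells. -/
theorem deg_le (hCell : StCell) (K : KSys ι) {r x : ℕ} (hr : 1 ≤ r) (F : Finset ℕ)
    (hF : ∀ i ∈ F, i < K.N) (q : ι) (hv : ∀ i ∈ F, q ∈ vis K r x (cell K r x i)) :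
    (F.image (cell K r x)).card ≤ W K r x q := by
  unfold W
  refine card_le_card (fun c hc => ?_)
  obtain ⟨i, hi, rfl⟩ := mem_image.1 hc
  exact mem_filter.2 ⟨mem_range.2 ((hCell ι K r x hr).1 i (hF i hi)), hv i hi⟩

omit [Fintype ι] in
/-- Disjoint sets with many elements in a set with few elements. -/
theorem card_centres {n : ℕ} (hn : 0 < n) {r a b : ℕ} (hba : b ≤ a)
    (Z : Finset ι) (Cr : ι → Finset ι) (B : Finset ι)
    (hd : ∀ z ∈ Z, ∀ z' ∈ Z, z ≠ z' → Disjoint (Cr z) (Cr z')) (hsub : ∀ z ∈ Z, Cr z ⊆ B)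
    (hc : ∀ z ∈ Z, n < (Cr z).card * r ^ a) (hB : B.card * r ^ b ≤ n) :
    Z.card ≤ r ^ (a - b) := by
  have h1 : ∑ z ∈ Z, (Cr z).card ≤ B.card := by
    rw [← card_biUnion (fun z hz z' hz' hne => hd z hz z' hz' hne)]
    exact card_le_card (biUnion_subset.2 hsub)
  have h2 : Z.card * n ≤ (∑ z ∈ Z, (Cr z).card) * r ^ a := by
    rw [sum_mul, ← smul_eq_mul]
    exact card_nsmul_le_sum _ _ _ (fun z hz => (hc z hz).le)
  have h3 : Z.card * n ≤ r ^ (a - b) * n := by
    calc Z.card * n ≤ (∑ z ∈ Z, (Cr z).card) * r ^ a := h2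
      _ ≤ B.card * r ^ a := Nat.mul_le_mul_right _ h1
      _ = r ^ (a - b) * (B.card * r ^ b) := by
          have : r ^ a = r ^ (a - b) * r ^ b := by rw [← pow_add]; congr 1; omega
          rw [this]; ring
      _ ≤ r ^ (a - b) * n := Nat.mul_le_mul_left _ hB
  exact Nat.le_of_mul_le_mul_right h3 hn

omit [Fintype ι] in
/-- The total size of the units. -/
theorem sum_units (Z : Finset ι) (Bx : ι → Finset ι) (kp : ι → ℕ) (U : Finset (ℕ × ι))
    (hU : ∀ u ∈ U, u.2 ∈ Z) :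
    ∑ u ∈ U, ((Bx u.2).filter (fun s => kp s = u.1)).card ≤ ∑ z ∈ Z, (Bx z).card := by
  have h1 : ∑ u ∈ U, ((Bx u.2).filter (fun s => kp s = u.1)).card =
      ∑ z ∈ Z, ∑ u ∈ U.filter (fun u => u.2 = z), ((Bx u.2).filter (fun s => kp s = u.1)).card :=
    (sum_fiberwise_of_maps_to hU _).symm
  rw [h1]
  refine sum_le_sum (fun z _ => ?_)
  rw [← card_biUnion]
  · refine card_le_card (biUnion_subset.2 (fun u hu => ?_))
    rw [(mem_filter.1 hu).2]
    exact filter_subset _ _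
  · intro u hu u' hu' hne
    rw [Function.onFun, Finset.disjoint_left]
    intro s hs hs'
    apply hne
    have e1 := (mem_filter.1 hs).2
    have e2 := (mem_filter.1 hs').2
    have e3 := (mem_filter.1 hu).2
    have e4 := (mem_filter.1 hu').2
    exact Prod.ext (e1.symm.trans e2) (e3.trans e4.symm)

theorem mem_XU {υ : Type} [DecidableEq υ] (K : KSys ι) (u : ℕ → υ)
    (E : Finset ℕ) (z : ℕ × ℕ) (hz : z ∈ XU K u E) :
    z.1 ∈ E ∧ z.2 ∈ E ∧ u z.1 = u z.2 := by
  classical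
  unfold XU crossPairs at hz
  simp only [mem_filter, mem_product] at hz
  exact ⟨hz.1.1.1, hz.1.1.2, hz.2⟩

/-- Few realised pairs of (cell, class). -/
theorem card_pairs (K : KSys ι) (E : Finset ℕ) (kc cl : ℕ → ℕ) (g : ℕ → ι) (M : ℕ)
    (hdeg : ∀ i ∈ E, ((E.filter (fun j => g j = g i)).image cl).card ≤ M) :
    ((XU K (fun i => (kc i, g i)) E).image (fun z => ((cl z.1, kc z.1), (cl z.2, kc z.2)))).card ≤
      (E.image (fun i => (kc i, g i))).card * M ^ 2 := by
  classical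
  have hsub : (XU K (fun i => (kc i, g i)) E).image
      (fun z => ((cl z.1, kc z.1), (cl z.2, kc z.2))) ⊆
      (E.image (fun i => (kc i, g i))).biUnion (fun U =>
        (((E.filter (fun j => g j = U.2)).image cl) ×ˢ
          ((E.filter (fun j => g j = U.2)).image cl)).image
          (fun p => ((p.1, U.1), (p.2, U.1)))) := by
    intro w hw
    obtain ⟨z, hz, rfl⟩ := mem_image.1 hw
    obtain ⟨h1, h2, h3⟩ := mem_XU K _ E z hz
    simp only [Prod.mk.injEq] at h3
    refine mem_biUnion.2 ⟨(kc z.1, g z.1), mem_image_of_mem _ h1, ?_⟩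
    refine mem_image.2 ⟨(cl z.1, cl z.2), ?_, ?_⟩
    · refine mem_product.2 ⟨?_, ?_⟩
      · exact mem_image_of_mem _ (mem_filter.2 ⟨h1, rfl⟩)
      · exact mem_image_of_mem _ (mem_filter.2 ⟨h2, h3.2.symm⟩)
    · simp only [h3.1]
  refine (card_le_card hsub).trans (card_biUnion_le.trans ?_)
  refine (sum_le_card_nsmul _ _ (M ^ 2) (fun U hU => ?_)).trans (by simp)
  obtain ⟨i, hi, rfl⟩ := mem_image.1 hU
  refine card_image_le.trans ?_
  rw [card_product, pow_two]
  exact Nat.mul_le_mul (hdeg i hi) (hdeg i hi)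

/-- Tokens in a fibre of a regular set. -/
theorem tok_fibre (hCnt : StCnt) (K : KSys ι) {Λ : ℝ} (hΛ : 1 ≤ Λ) (E E2 : Finset ℕ)
    (hE2 : E2 ⊆ E) (cl kc : ℕ → ℕ) (s : Bool)
    (h1 : RegF Λ E (fun i => (cl i, kc i, (none : Option ι))))
    (h2 : RegF Λ E (fun i => (cl i, kc i, some (K.tok s i)))) (i : ℕ) (hi : i ∈ E) :
    (((E2.filter (fun j => (cl j, kc j) = (cl i, kc i))).image (K.tok s)).card : ℝ) *
      ((E.image (fun i => (cl i, kc i))).card : ℝ) ≤
      Λ ^ 2 * ((E.image (fun i => (cl i, kc i, K.tok s i))).card : ℝ) := by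
  have h := (hCnt _ _ Λ E _ _ hΛ h1 h2 (by
    intro n _ k _ h
    simp only [Prod.mk.injEq] at h ⊢
    exact ⟨h.1, h.2.1, trivial⟩) i hi).2
  have e1 : im E (fun i => (cl i, kc i, (none : Option ι))) =
      (E.image (fun i => (cl i, kc i))).card := by
    unfold im
    have : E.image (fun i => (cl i, kc i, (none : Option ι))) =
        (E.image (fun i => (cl i, kc i))).image (fun p => (p.1, p.2, (none : Option ι))) := by
      rw [image_image]; rfl
    rw [this]
    refine card_image_of_injective _ (fun p q hpq => ?_)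
    simp only [Prod.mk.injEq] at hpq
    exact Prod.ext hpq.1 hpq.2.1
  have e2 : im E (fun i => (cl i, kc i, some (K.tok s i))) =
      (E.image (fun i => (cl i, kc i, K.tok s i))).card := by
    unfold im
    have : E.image (fun i => (cl i, kc i, some (K.tok s i))) =
        (E.image (fun i => (cl i, kc i, K.tok s i))).image
          (fun p => (p.1, p.2.1, some p.2.2)) := by
      rw [image_image]; rfl
    rw [this]
    refine card_image_of_injective _ (fun p q hpq => ?_)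
    simp only [Prod.mk.injEq, Option.some.injEq] at hpq
    exact Prod.ext hpq.1 (Prod.ext hpq.2.1 hpq.2.2)
  have e3 : ((E2.filter (fun j => (cl j, kc j) = (cl i, kc i))).image (K.tok s)).card ≤
      im (E.filter (fun k => (cl k, kc k, (none : Option ι)) = (cl i, kc i, none)))
        (fun i => (cl i, kc i, some (K.tok s i))) := by
    unfold im
    rw [← card_image_of_injective ((E2.filter (fun j => (cl j, kc j) = (cl i, kc i))).image
      (K.tok s)) (Option.some_injective ι), image_image]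
    refine le_trans (card_le_card (t := ((E.filter
      (fun k => (cl k, kc k, (none : Option ι)) = (cl i, kc i, none))).image
      (fun i => (cl i, kc i, some (K.tok s i)))).image (fun p => p.2.2)) ?_) card_image_le
    rw [image_image]
    intro τ hτ
    obtain ⟨j, hj, rfl⟩ := mem_image.1 hτ
    obtain ⟨hj1, hj2⟩ := mem_filter.1 hj
    refine mem_image.2 ⟨j, mem_filter.2 ⟨hE2 hj1, ?_⟩, rfl⟩
    simp only [Prod.mk.injEq] at hj2 ⊢
    exact ⟨hj2.1, hj2.2, trivial⟩
  rw [e1, e2] at h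
  refine le_trans (mul_le_mul_of_nonneg_right ?_ (Nat.cast_nonneg _)) h
  exact_mod_cast e3

/-- The number of crossing pairs in the units, with regular labels (cell, class). -/
theorem card_XU (hX1 : StX1) (hCnt : StCnt) (K : KSys ι) {Λ : ℝ} (hΛ : 1 ≤ Λ)
    (E E2 : Finset ℕ) (hE : E ⊆ range K.N)
    (hE2 : E2 ⊆ E) (cl kc : ℕ → ℕ) (g : ℕ → ι) (M : ℕ)
    (hdeg : ∀ i ∈ E2, ((E2.filter (fun j => g j = g i)).image cl).card ≤ M)
    (h1 : RegF Λ E (fun i => (cl i, kc i, (none : Option ι))))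
    (h2 : ∀ s, RegF Λ E (fun i => (cl i, kc i, some (K.tok s i)))) (T : ℝ)
    (hT : ∀ s, ((E.image (fun i => (cl i, kc i, K.tok s i))).card : ℝ) ≤ T) :
    ((XU K (fun i => (kc i, g i)) E2).card : ℝ) *
      ((E.image (fun i => (cl i, kc i))).card : ℝ) ^ 2 ≤
      ((E2.image (fun i => (kc i, g i))).card : ℝ) * (M : ℝ) ^ 2 * (Λ ^ 2 * T) ^ 2 := by
  have hT0 : 0 ≤ T := le_trans (Nat.cast_nonneg _) (hT false)
  have e1 := hX1 ι (ℕ × ι) (ℕ × ℕ) K (fun i => (kc i, g i)) (fun i => (cl i, kc i)) E2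
    (hE2.trans hE)
  have e2 := card_pairs K E2 kc cl g M hdeg
  set G : ℝ := ((E.image (fun i => (cl i, kc i))).card : ℝ) with hG
  have hG0 : 0 ≤ G := Nat.cast_nonneg _
  set Wn := (XU K (fun i => (kc i, g i)) E2).image
    (fun z => ((cl z.1, kc z.1), (cl z.2, kc z.2))) with hWn
  have e1' : ((XU K (fun i => (kc i, g i)) E2).card : ℝ) ≤ ∑ w ∈ Wn,
      (((E2.filter (fun i => (cl i, kc i) = w.1)).image (K.tok false)).card : ℝ) *
        (((E2.filter (fun i => (cl i, kc i) = w.2)).image (K.tok true)).card : ℝ) := by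
    exact_mod_cast e1
  have e3 : ((XU K (fun i => (kc i, g i)) E2).card : ℝ) * G ^ 2 ≤
      ∑ w ∈ Wn, (Λ ^ 2 * T) ^ 2 := by
    refine le_trans (mul_le_mul_of_nonneg_right e1' (by positivity)) ?_
    rw [sum_mul]
    refine sum_le_sum (fun w hw => ?_)
    obtain ⟨z, hz, rfl⟩ := mem_image.1 hw
    obtain ⟨hz1, hz2, -⟩ := mem_XU K _ E2 z hz
    have a1 := tok_fibre hCnt K hΛ E E2 hE2 cl kc false h1 (h2 false) z.1 (hE2 hz1)
    have a2 := tok_fibre hCnt K hΛ E E2 hE2 cl kc true h1 (h2 true) z.2 (hE2 hz2)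
    have b1 := a1.trans (mul_le_mul_of_nonneg_left (hT false) (by positivity))
    have b2 := a2.trans (mul_le_mul_of_nonneg_left (hT true) (by positivity))
    have b3 := mul_le_mul b1 b2 (by positivity) (by positivity)
    refine le_trans (le_of_eq ?_) (le_trans b3 (le_of_eq ?_))
    · ring
    · ring
  rw [sum_const, nsmul_eq_mul] at e3
  refine e3.trans (mul_le_mul_of_nonneg_right ?_ (by positivity))
  exact_mod_cast e2

end Pool.Agent.Work.MP_e17eac_co.B4

end

section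

set_option autoImplicit false

/-!
# Project PS, item PtArea: the affine normalisation of a point set
-/

namespace Pool.Agent.Work.MP_e17eac_co.PS

open Finset
open Pool.Agent.Work.MP_e17eac_co.DH

namespace XPtArea

/-- The affine map which sends `p0, p1, p2` to `(0,0), (1,0), (0,1)`. -/
noncomputable def phi (p0 p1 p2 r : ℝ × ℝ) : ℝ × ℝ :=
  (side p0 r p2 / side p0 p1 p2, side p0 p1 r / side p0 p1 p2)

theorem key (p0 p1 p2 p q r : ℝ × ℝ) :
    (side p0 q p2 - side p0 p p2) * (side p0 p1 r - side p0 p1 p) -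
      (side p0 p1 q - side p0 p1 p) * (side p0 r p2 - side p0 p p2) =
      side p0 p1 p2 * side p q r := by
  unfold side
  ring

theorem side_phi (p0 p1 p2 : ℝ × ℝ) (hD : side p0 p1 p2 ≠ 0) (p q r : ℝ × ℝ) :
    side (phi p0 p1 p2 p) (phi p0 p1 p2 q) (phi p0 p1 p2 r) = side p q r / side p0 p1 p2 := by
  have h1 : side (phi p0 p1 p2 p) (phi p0 p1 p2 q) (phi p0 p1 p2 r) =
      ((side p0 q p2 - side p0 p p2) * (side p0 p1 r - side p0 p1 p) -
      (side p0 p1 q - side p0 p1 p) * (side p0 r p2 - side p0 p p2)) /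
        (side p0 p1 p2 * side p0 p1 p2) := by
    have h2 : side (phi p0 p1 p2 p) (phi p0 p1 p2 q) (phi p0 p1 p2 r) =
        (side p0 q p2 / side p0 p1 p2 - side p0 p p2 / side p0 p1 p2) *
          (side p0 p1 r / side p0 p1 p2 - side p0 p1 p / side p0 p1 p2) -
        (side p0 p1 q / side p0 p1 p2 - side p0 p1 p / side p0 p1 p2) *
          (side p0 r p2 / side p0 p1 p2 - side p0 p p2 / side p0 p1 p2) := rfl
    rw [h2]
    rw [← sub_div, ← sub_div, ← sub_div, ← sub_div, div_mul_div_comm, div_mul_div_comm, ← sub_div]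
  rw [h1, key, mul_div_mul_left _ _ hD]

theorem phi_inj (p0 p1 p2 : ℝ × ℝ) (hD : side p0 p1 p2 ≠ 0) :
    Function.Injective (phi p0 p1 p2) := by
  intro p q hpq
  have h1 : side p0 p p2 = side p0 q p2 := by
    have h := congrArg Prod.fst hpq
    exact (div_left_inj' hD).mp h
  have h2 : side p0 p1 p = side p0 p1 q := by
    have h := congrArg Prod.snd hpq
    exact (div_left_inj' hD).mp h
  have e1 : side p0 p1 p2 * (p.1 - q.1) = 0 := by
    have : side p0 p1 p2 * (p.1 - q.1) =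
        (p1.1 - p0.1) * (side p0 p p2 - side p0 q p2) +
          (p2.1 - p0.1) * (side p0 p1 p - side p0 p1 q) := by
      unfold side
      ring
    rw [this, h1, h2]
    ring
  have e2 : side p0 p1 p2 * (p.2 - q.2) = 0 := by
    have : side p0 p1 p2 * (p.2 - q.2) =
        (p1.2 - p0.2) * (side p0 p p2 - side p0 q p2) +
          (p2.2 - p0.2) * (side p0 p1 p - side p0 p1 q) := by
      unfold side
      ring
    rw [this, h1, h2]
    ring
  have f1 := (mul_eq_zero.mp e1).resolve_left hD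
  have f2 := (mul_eq_zero.mp e2).resolve_left hD
  exact Prod.ext (by linarith) (by linarith)

theorem card_filter {f : ℝ × ℝ → ℝ × ℝ} (hf : Function.Injective f) (P Q : Finset (ℝ × ℝ))
    (hQ : ∀ p, p ∈ Q ↔ ∃ p' ∈ P, f p' = p) (A B : ℝ × ℝ → Prop) [DecidablePred A]
    [DecidablePred B] (hAB : ∀ p, B (f p) ↔ A p) :
    (Q.filter B).card = (P.filter A).card := by
  symm
  apply Finset.card_bij (fun p _ => f p)
  · intro p hp
    rw [mem_filter] at hp ⊢
    exact ⟨(hQ _).2 ⟨p, hp.1, rfl⟩, (hAB p).2 hp.2⟩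
  · intro p _ q _ h
    exact hf h
  · intro q hq
    rw [mem_filter] at hq
    obtain ⟨p, hp, rfl⟩ := (hQ q).1 hq.1
    exact ⟨p, mem_filter.2 ⟨hp, (hAB p).1 hq.2⟩, rfl⟩

theorem isKEdge_image {f : ℝ × ℝ → ℝ × ℝ} (hf : Function.Injective f)
    (hs : ∀ p q r, 0 < side (f p) (f q) (f r) ↔ 0 < side p q r)
    (hs' : ∀ p q r, side (f p) (f q) (f r) < 0 ↔ side p q r < 0) {P Q : Finset (ℝ × ℝ)}
    (hQ : ∀ p, p ∈ Q ↔ ∃ p' ∈ P, f p' = p) {k : ℕ} {p q : ℝ × ℝ} (h : IsKEdge P k p q) :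
    IsKEdge Q k (f p) (f q) := by
  obtain ⟨h1, h2, h3, h4, h5⟩ := h
  refine ⟨(hQ _).2 ⟨p, h1, rfl⟩, (hQ _).2 ⟨q, h2, rfl⟩, fun e => h3 (hf e), ?_, ?_⟩
  · rw [← h4]
    exact card_filter hf P Q hQ _ _ (fun r => hs p q r)
  · rw [card_filter hf P Q hQ (fun r => side p q r < 0) _ (fun r => hs' p q r), h5]
    have h6 := card_filter hf P Q hQ (fun _ => True) (fun _ => True) (fun _ => Iff.rfl)
    simpa using h6.symm

/-- A triple of maximal area. -/
theorem exists_max (P : Finset (ℝ × ℝ)) (h3 : 3 ≤ P.card)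
    (hne : ∀ p ∈ P, ∀ q ∈ P, ∀ r ∈ P, p ≠ q → p ≠ r → q ≠ r → side p q r ≠ 0) :
    ∃ p0 ∈ P, ∃ p1 ∈ P, ∃ p2 ∈ P, p0 ≠ p1 ∧ p0 ≠ p2 ∧ p1 ≠ p2 ∧ 0 < side p0 p1 p2 ∧
      ∀ p ∈ P, ∀ q ∈ P, ∀ r ∈ P, p ≠ q → p ≠ r → q ≠ r → |side p q r| ≤ side p0 p1 p2 := by
  classical
  obtain ⟨x, y, z, hx, hy, hz, hxy, hxz, hyz⟩ := Finset.two_lt_card_iff.mp (show 2 < P.card by omega)
  obtain ⟨t, ht, hmax⟩ := Finset.exists_max_image
    (((P ×ˢ P) ×ˢ P).filter (fun t => t.1.1 ≠ t.1.2 ∧ t.1.1 ≠ t.2 ∧ t.1.2 ≠ t.2))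
    (fun t => |side t.1.1 t.1.2 t.2|)
    ⟨((x, y), z), by
      simp only [Finset.mem_filter, Finset.mem_product]
      exact ⟨⟨⟨hx, hy⟩, hz⟩, hxy, hxz, hyz⟩⟩
  simp only [Finset.mem_filter, Finset.mem_product] at ht
  obtain ⟨⟨⟨h1, h2⟩, h3'⟩, h12, h13, h23⟩ := ht
  have hm : ∀ p ∈ P, ∀ q ∈ P, ∀ r ∈ P, p ≠ q → p ≠ r → q ≠ r →
      |side p q r| ≤ |side t.1.1 t.1.2 t.2| := by
    intro p hp q hq r hr hpq hpr hqr
    exact hmax ((p, q), r) (by
      simp only [Finset.mem_filter, Finset.mem_product]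
      exact ⟨⟨⟨hp, hq⟩, hr⟩, hpq, hpr, hqr⟩)
  have hn0 := hne _ h1 _ h2 _ h3' h12 h13 h23
  rcases lt_or_gt_of_ne hn0 with hneg | hpos
  · refine ⟨t.1.1, h1, t.2, h3', t.1.2, h2, h13, h12, h23.symm, ?_, ?_⟩
    · have e : side t.1.1 t.2 t.1.2 = - side t.1.1 t.1.2 t.2 := by
        unfold side
        ring
      rw [e]
      linarith
    · intro p hp q hq r hr hpq hpr hqr
      have e : side t.1.1 t.2 t.1.2 = - side t.1.1 t.1.2 t.2 := by
        unfold side
        ring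
      rw [e, ← abs_of_neg hneg]
      exact hm p hp q hq r hr hpq hpr hqr
  · refine ⟨t.1.1, h1, t.1.2, h2, t.2, h3', h12, h13, h23, hpos, ?_⟩
    intro p hp q hq r hr hpq hpr hqr
    rw [← abs_of_pos hpos]
    exact hm p hp q hq r hr hpq hpr hqr

theorem kEdges_card_le (P : Finset (ℝ × ℝ)) (k : ℕ) :
    (kEdges P k).card ≤ P.card.choose 2 := by
  classical
  have h : (kEdges P k).card ≤ (P.powersetCard 2).card := by
    unfold kEdges
    exact Finset.card_le_card (Finset.filter_subset _ _)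
  rwa [Finset.card_powersetCard] at h

end XPtArea

open XPtArea in
theorem I_PtArea (h : StSq) : StArea := by
  classical
  intro B hB
  obtain ⟨c, hc, C, hC, hsq⟩ := h B hB
  have h2c : (0 : ℝ) < 2 ^ c := Real.rpow_pos_of_pos (by norm_num) c
  refine ⟨c, hc, C + 2 ^ c + 1, by positivity, ?_⟩
  intro P a ha hP k
  rcases Nat.lt_or_ge P.card 2 with hlt | hge2
  · -- at most one point
    have h0 : (kEdges P k).card = 0 := by
      have h1 := kEdges_card_le P k
      rw [Nat.choose_eq_zero_of_lt hlt] at h1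
      omega
    rw [h0, Nat.cast_zero]
    have h1 : (0 : ℝ) ≤ (P.card : ℝ) ^ ((4 : ℝ) / 3 - c) := Real.rpow_nonneg (Nat.cast_nonneg _) _
    positivity
  rcases Nat.lt_or_ge P.card 3 with hlt | hge
  · -- two points
    have h2 : P.card = 2 := by omega
    have h1 : ((kEdges P k).card : ℝ) ≤ 1 := by
      have h3 := kEdges_card_le P k
      rw [h2] at h3
      have h4 : Nat.choose 2 2 = 1 := by decide
      rw [h4] at h3
      exact_mod_cast h3
    rw [h2]
    have h5 : (0 : ℝ) < ((2 : ℕ) : ℝ) ^ ((4 : ℝ) / 3 - c) :=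
      Real.rpow_pos_of_pos (by norm_num) _
    have h6 : (1 : ℝ) ≤ 2 ^ c * ((2 : ℕ) : ℝ) ^ ((4 : ℝ) / 3 - c) := by
      have h7 : ((2 : ℕ) : ℝ) = 2 := by norm_num
      rw [h7, ← Real.rpow_add (by norm_num : (0 : ℝ) < 2)]
      have h8 : c + (4 / 3 - c) = (4 : ℝ) / 3 := by ring
      rw [h8]
      exact Real.one_le_rpow (by norm_num) (by norm_num)
    have h9 : (C + 2 ^ c + 1) * ((2 : ℕ) : ℝ) ^ ((4 : ℝ) / 3 - c) =
        C * ((2 : ℕ) : ℝ) ^ ((4 : ℝ) / 3 - c) + 2 ^ c * ((2 : ℕ) : ℝ) ^ ((4 : ℝ) / 3 - c) +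
          ((2 : ℕ) : ℝ) ^ ((4 : ℝ) / 3 - c) := by ring
    rw [h9]
    have h10 : 0 < C * ((2 : ℕ) : ℝ) ^ ((4 : ℝ) / 3 - c) := mul_pos hC h5
    linarith
  · -- at least three points
    have hne : ∀ p ∈ P, ∀ q ∈ P, ∀ r ∈ P, p ≠ q → p ≠ r → q ≠ r → side p q r ≠ 0 := by
      intro p hp q hq r hr hpq hpr hqr h0
      have h1 := (hP p hp q hq r hr hpq hpr hqr).1
      rw [h0, abs_zero] at h1
      linarith
    obtain ⟨p0, hp0, p1, hp1, p2, hp2, h01, h02, h12, hD, hmax⟩ := exists_max P hge hne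
    have hD0 : side p0 p1 p2 ≠ 0 := hD.ne'
    have hinj := phi_inj p0 p1 p2 hD0
    have hsphi := side_phi p0 p1 p2 hD0
    have hcard : (P.image (phi p0 p1 p2)).card = P.card := Finset.card_image_of_injective P hinj
    have hQ : ∀ p, p ∈ P.image (phi p0 p1 p2) ↔ ∃ p' ∈ P, phi p0 p1 p2 p' = p := by
      intro p
      rw [Finset.mem_image]
    have hn1 : (1 : ℝ) ≤ (P.card : ℝ) := by
      have : 1 ≤ P.card := by omega
      exact_mod_cast this
    have hm1 : (1 : ℝ) ≤ (P.card : ℝ) ^ B := Real.one_le_rpow hn1 (by linarith)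
    have hDle : side p0 p1 p2 ≤ (P.card : ℝ) ^ B * a :=
      (le_abs_self _).trans (hP p0 hp0 p1 hp1 p2 hp2 h01 h02 h12).2
    have hmain := hsq (P.image (phi p0 p1 p2)) ((P.card : ℝ) ^ B) (by rw [hcard]; exact hge) hm1
      (by rw [hcard]) ?_ ?_ k
    · rw [hcard] at hmain
      have hle : (kEdges P k).card ≤ (kEdges (P.image (phi p0 p1 p2)) k).card := by
        apply Finset.card_le_card_of_injOn (fun e => e.image (phi p0 p1 p2))
        · intro e he
          rw [Finset.mem_coe] at he ⊢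
          unfold kEdges at he ⊢
          rw [Finset.mem_filter, Finset.mem_powersetCard] at he ⊢
          obtain ⟨⟨he1, he2⟩, p, q, hpq, hk⟩ := he
          refine ⟨⟨Finset.image_subset_image he1, ?_⟩, phi p0 p1 p2 p, phi p0 p1 p2 q, ?_, ?_⟩
          · rw [Finset.card_image_of_injective e hinj, he2]
          · simp only [hpq, Finset.image_insert, Finset.image_singleton]
          · refine isKEdge_image hinj ?_ ?_ hQ hk
            · intro p q r
              rw [hsphi, div_pos_iff_of_pos_right hD]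
            · intro p q r
              rw [hsphi, div_neg_iff]
              constructor
              · rintro (⟨_, h2⟩ | ⟨h1, _⟩)
                · exact absurd h2 (not_lt.mpr hD.le)
                · exact h1
              · intro h1
                exact Or.inr ⟨h1, hD⟩
        · exact (Finset.image_injective hinj).injOn
      have hle' : ((kEdges P k).card : ℝ) ≤ ((kEdges (P.image (phi p0 p1 p2)) k).card : ℝ) := by
        exact_mod_cast hle
      have h5 : (0 : ℝ) < (P.card : ℝ) ^ ((4 : ℝ) / 3 - c) :=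
        Real.rpow_pos_of_pos (by linarith) _
      have h6 : C * (P.card : ℝ) ^ ((4 : ℝ) / 3 - c) ≤
          (C + 2 ^ c + 1) * (P.card : ℝ) ^ ((4 : ℝ) / 3 - c) := by
        apply mul_le_mul_of_nonneg_right _ h5.le
        linarith
      linarith
    · intro p hp
      obtain ⟨r, hr, rfl⟩ := Finset.mem_image.mp hp
      constructor
      · show |side p0 r p2 / side p0 p1 p2| ≤ 1
        rw [abs_div, abs_of_pos hD, div_le_one hD]
        by_cases e1 : r = p0
        · have e2 : side p0 r p2 = 0 := by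
            rw [e1]
            unfold side
            ring
          rw [e2, abs_zero]
          exact hD.le
        by_cases e3 : r = p2
        · have e2 : side p0 r p2 = 0 := by
            rw [e3]
            unfold side
            ring
          rw [e2, abs_zero]
          exact hD.le
        exact hmax p0 hp0 r hr p2 hp2 (Ne.symm e1) h02 e3
      · show |side p0 p1 r / side p0 p1 p2| ≤ 1
        rw [abs_div, abs_of_pos hD, div_le_one hD]
        by_cases e1 : r = p0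
        · have e2 : side p0 p1 r = 0 := by
            rw [e1]
            unfold side
            ring
          rw [e2, abs_zero]
          exact hD.le
        by_cases e3 : r = p1
        · have e2 : side p0 p1 r = 0 := by
            rw [e3]
            unfold side
            ring
          rw [e2, abs_zero]
          exact hD.le
        exact hmax p0 hp0 p1 hp1 r hr h01 (Ne.symm e1) (Ne.symm e3)
    · intro p hp q hq r hr hpq hpr hqr
      obtain ⟨p', hp', rfl⟩ := Finset.mem_image.mp hp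
      obtain ⟨q', hq', rfl⟩ := Finset.mem_image.mp hq
      obtain ⟨r', hr', rfl⟩ := Finset.mem_image.mp hr
      have g1 : p' ≠ q' := fun e => hpq (by rw [e])
      have g2 : p' ≠ r' := fun e => hpr (by rw [e])
      have g3 : q' ≠ r' := fun e => hqr (by rw [e])
      have h1 := (hP p' hp' q' hq' r' hr' g1 g2 g3).1
      rw [hsphi, abs_div, abs_of_pos hD, ← mul_div_assoc, le_div_iff₀ hD, one_mul]
      have h2 : (P.card : ℝ) ^ B * a ≤ (P.card : ℝ) ^ B * |side p' q' r'| := by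
        apply mul_le_mul_of_nonneg_left h1
        linarith
      linarith

end Pool.Agent.Work.MP_e17eac_co.PS

end

section

/-!
# Project PS, point sets of polynomial spread: statements
-/

namespace Pool.Agent.Work.MP_e17eac_co.PS

open Finset
open Pool.Agent.Work.MP_e17eac_co.DH

/-- **Main theorem for sweeps** (version with separated slopes only). -/
def StMainS : Prop := ∀ B : ℝ, 1 ≤ B → ∃ c : ℝ, 0 < c ∧ ∃ C : ℝ, 0 < C ∧
  ∀ (ι : Type) [Fintype ι] [DecidableEq ι] (K : KSys ι) (m : ℝ), 1 ≤ m → K.Sep m →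
  (∀ i j l, i ≠ j → i ≠ l → j ≠ l → det3 K.x K.y i j l ≠ 0) →
  m ≤ (Fintype.card ι : ℝ) ^ B →
  (K.N : ℝ) ≤ C * (Fintype.card ι : ℝ) ^ ((4 : ℝ) / 3 - c)

open Classical in
/-- **Window theorem**, version with separated slopes only. -/
def StWinR : Prop := ∀ B : ℝ, 1 ≤ B → ∃ c : ℝ, 0 < c ∧ ∃ C : ℝ, 0 < C ∧
  ∀ (ι : Type) [Fintype ι] [DecidableEq ι] (K : KSys ι) (m : ℝ), 1 ≤ m → K.Sep m →
  (∀ i j l, i ≠ j → i ≠ l → j ≠ l → det3 K.x K.y i j l ≠ 0) →
  m ≤ (Fintype.card ι : ℝ) ^ B →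
  (((range K.N).filter (fun n => 0 ≤ K.t n ∧ K.t n < 1)).card : ℝ) ≤
    C * (Fintype.card ι : ℝ) ^ ((4 : ℝ) / 3 - c)

/-- Point sets whose abscissae are polynomially separated. -/
def StX : Prop := ∀ B : ℝ, 1 ≤ B → ∃ c : ℝ, 0 < c ∧ ∃ C : ℝ, 0 < C ∧
  ∀ (P : Finset (ℝ × ℝ)) (w : ℝ), 0 < w → GenPos P →
  (∀ p ∈ P, ∀ q ∈ P, p ≠ q → w ≤ |p.1 - q.1| ∧ |p.1 - q.1| ≤ (P.card : ℝ) ^ B * w) →
  ∀ k : ℕ, ((kEdges P k).card : ℝ) ≤ C * (P.card : ℝ) ^ ((4 : ℝ) / 3 - c)

/-- Point sets of polynomial spread. -/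
def StSpr : Prop := ∀ B : ℝ, 1 ≤ B → ∃ c : ℝ, 0 < c ∧ ∃ C : ℝ, 0 < C ∧
  ∀ (P : Finset (ℝ × ℝ)) (d : ℝ), 0 < d → GenPos P →
  (∀ p ∈ P, ∀ q ∈ P, p ≠ q → d ≤ Real.sqrt ((p.1 - q.1) ^ 2 + (p.2 - q.2) ^ 2) ∧
    Real.sqrt ((p.1 - q.1) ^ 2 + (p.2 - q.2) ^ 2) ≤ (P.card : ℝ) ^ B * d) →
  ∀ k : ℕ, ((kEdges P k).card : ℝ) ≤ C * (P.card : ℝ) ^ ((4 : ℝ) / 3 - c)

end Pool.Agent.Work.MP_e17eac_co.PS

end

section

/-!
# Project PS, item ResS: point sets of polynomial spread, and the area version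
-/

namespace Pool.Agent.Work.MP_e17eac_co.PS

open Finset
open Pool.Agent.Work.MP_e17eac_co.DH

namespace XResS

/-- The shear. -/
def sh (ε : ℝ) (p : ℝ × ℝ) : ℝ × ℝ := (p.1 + ε * p.2, p.2)

theorem sh_inj (ε : ℝ) : Function.Injective (sh ε) := by
  intro p q h
  unfold sh at h
  rw [Prod.mk.injEq] at h
  obtain ⟨h1, h2⟩ := h
  rw [h2] at h1
  exact Prod.ext (by linarith) h2

theorem side_sh (ε : ℝ) (p q r : ℝ × ℝ) : side (sh ε p) (sh ε q) (sh ε r) = side p q r := by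
  unfold side sh
  ring

theorem kEdges_card_le {f : ℝ × ℝ → ℝ × ℝ} (hf : Function.Injective f)
    (hs : ∀ p q r, side (f p) (f q) (f r) = side p q r) (P : Finset (ℝ × ℝ)) (k : ℕ) :
    (kEdges P k).card ≤ (kEdges (P.image f) k).card := by
  classical
  have hQ : ∀ p, p ∈ P.image f ↔ ∃ p' ∈ P, f p' = p := by
    intro p
    rw [Finset.mem_image]
  apply Finset.card_le_card_of_injOn (fun e => e.image f)
  · intro e he
    rw [Finset.mem_coe] at he ⊢
    unfold kEdges at he ⊢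
    rw [Finset.mem_filter, Finset.mem_powersetCard] at he ⊢
    obtain ⟨⟨he1, he2⟩, p, q, hpq, hk⟩ := he
    refine ⟨⟨Finset.image_subset_image he1, ?_⟩, f p, f q, ?_, ?_⟩
    · rw [Finset.card_image_of_injective e hf, he2]
    · simp only [hpq, Finset.image_insert, Finset.image_singleton]
    · exact XPtArea.isKEdge_image hf (fun p q r => by rw [hs]) (fun p q r => by rw [hs]) hQ hk
  · exact (Finset.image_injective hf).injOn

theorem genPos_image {f : ℝ × ℝ → ℝ × ℝ}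
    (hs : ∀ p q r, side (f p) (f q) (f r) = side p q r) {P : Finset (ℝ × ℝ)} (h : GenPos P) :
    GenPos (P.image f) := by
  classical
  intro p hp q hq r hr hpq hpr hqr
  obtain ⟨p', hp', rfl⟩ := Finset.mem_image.mp hp
  obtain ⟨q', hq', rfl⟩ := Finset.mem_image.mp hq
  obtain ⟨r', hr', rfl⟩ := Finset.mem_image.mp hr
  rw [hs]
  exact h p' hp' q' hq' r' hr' (fun e => hpq (by rw [e])) (fun e => hpr (by rw [e]))
    (fun e => hqr (by rw [e]))

/-- Sets with bounded coordinate differences and separated in the maximum norm. -/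
theorem core (hX : StX) (hSh : StShear) : ∀ B : ℝ, 1 ≤ B → ∃ c : ℝ, 0 < c ∧ ∃ C : ℝ, 0 < C ∧
    ∀ (P : Finset (ℝ × ℝ)) (d D : ℝ), 0 < d → 0 < D → 2 ≤ P.card → GenPos P →
    D ≤ (P.card : ℝ) ^ B * d →
    (∀ p ∈ P, ∀ q ∈ P, p ≠ q → (d ≤ |p.1 - q.1| ∨ d ≤ |p.2 - q.2|) ∧ |p.1 - q.1| ≤ D ∧
      |p.2 - q.2| ≤ D) →
    ∀ k : ℕ, ((kEdges P k).card : ℝ) ≤ C * (P.card : ℝ) ^ ((4 : ℝ) / 3 - c) := by
  classical
  intro B hB
  obtain ⟨c, hc, C, hC, h⟩ := hX (B + 6) (by linarith)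
  refine ⟨c, hc, C, hC, ?_⟩
  intro P d D hd hD hcard hgen hDd hP k
  have hne : P.Nonempty := Finset.card_pos.1 (by omega)
  obtain ⟨ε, he0, he1, he⟩ := hSh P d hd hne (fun p hp q hq hpq => (hP p hp q hq hpq).1)
  have hn2 : (2 : ℝ) ≤ (P.card : ℝ) := by exact_mod_cast hcard
  have hn0 : (0 : ℝ) < (P.card : ℝ) := by linarith
  set n : ℝ := (P.card : ℝ) with hn
  have hcardi : (P.image (sh ε)).card = P.card := Finset.card_image_of_injective P (sh_inj ε)
  have hw : 0 < d / (8 * n ^ 2) := by positivity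
  have hmain := h (P.image (sh ε)) (d / (8 * n ^ 2)) hw (genPos_image (side_sh ε) hgen) ?_ k
  · rw [hcardi] at hmain
    refine le_trans ?_ hmain
    exact_mod_cast kEdges_card_le (sh_inj ε) (side_sh ε) P k
  · intro p hp q hq hpq
    obtain ⟨p', hp', rfl⟩ := Finset.mem_image.mp hp
    obtain ⟨q', hq', rfl⟩ := Finset.mem_image.mp hq
    have hne' : p' ≠ q' := fun e => hpq (by rw [e])
    obtain ⟨-, h1, h2⟩ := hP p' hp' q' hq' hne'
    have h3 := he p' hp' q' hq' hne'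
    rw [hcardi]
    constructor
    · show d / (8 * n ^ 2) ≤ |(p'.1 + ε * p'.2) - (q'.1 + ε * q'.2)|
      rw [div_le_iff₀ (by positivity)]
      linarith
    · show |(p'.1 + ε * p'.2) - (q'.1 + ε * q'.2)| ≤ n ^ (B + 6) * (d / (8 * n ^ 2))
      have h4 : (p'.1 + ε * p'.2) - (q'.1 + ε * q'.2) = (p'.1 - q'.1) + ε * (p'.2 - q'.2) := by
        ring
      have h5 : |(p'.1 + ε * p'.2) - (q'.1 + ε * q'.2)| ≤ 2 * D := by
        rw [h4]
        refine (abs_add_le _ _).trans ?_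
        rw [abs_mul, abs_of_nonneg he0]
        have h6 : ε * |p'.2 - q'.2| ≤ 1 * D :=
          mul_le_mul (by linarith) h2 (abs_nonneg _) (by norm_num)
        linarith
      refine h5.trans ?_
      have h6 : n ^ (B + 6) = n ^ B * n ^ 6 := by
        rw [Real.rpow_add hn0]
        congr 1
        exact_mod_cast Real.rpow_natCast n 6
      have h7 : n ^ (B + 6) * (d / (8 * n ^ 2)) = (n ^ B * d) * (n ^ 4 / 8) := by
        rw [h6]
        field_simp
      rw [h7]
      have h8 : (2 : ℝ) ≤ n ^ 4 / 8 := by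
        have : (2 : ℝ) ^ 4 ≤ n ^ 4 := pow_le_pow_left₀ (by norm_num) hn2 4
        linarith
      have h9 : D * 2 ≤ (n ^ B * d) * (n ^ 4 / 8) :=
        mul_le_mul hDd h8 (by norm_num) (by positivity)
      linarith

theorem small (P : Finset (ℝ × ℝ)) (h : P.card < 2) (k : ℕ) : (kEdges P k).card = 0 := by
  classical
  rw [Finset.card_eq_zero]
  apply Finset.eq_empty_of_forall_notMem
  intro e he
  unfold kEdges at he
  rw [Finset.mem_filter, Finset.mem_powersetCard] at he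
  have := Finset.card_le_card he.1.1
  omega

end XResS

open XResS in
/-- Polynomial spread. -/
theorem I_ResS (hX : StX) (hSh : StShear) : StSpr := by
  intro B hB
  obtain ⟨c, hc, C, hC, h⟩ := core hX hSh (B + 1) (by linarith)
  refine ⟨c, hc, C, hC, ?_⟩
  intro P d hd hgen hP k
  rcases Nat.lt_or_ge P.card 2 with h2 | h2
  · rw [small P h2, Nat.cast_zero]
    positivity
  have hn2 : (2 : ℝ) ≤ (P.card : ℝ) := by exact_mod_cast h2
  have hn0 : (0 : ℝ) < (P.card : ℝ) := by linarith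
  have hpos : 0 < (P.card : ℝ) ^ B := Real.rpow_pos_of_pos hn0 _
  refine h P (d / 2) ((P.card : ℝ) ^ B * d) (by linarith) (by positivity) h2 hgen ?_ ?_ k
  · rw [Real.rpow_add hn0, Real.rpow_one]
    have : (P.card : ℝ) ^ B * d * 1 ≤ (P.card : ℝ) ^ B * d * ((P.card : ℝ) / 2) :=
      mul_le_mul_of_nonneg_left (by linarith) (by positivity)
    linarith
  · intro p hp q hq hpq
    obtain ⟨h1, h3⟩ := hP p hp q hq hpq
    have h4 : 0 ≤ (p.1 - q.1) ^ 2 + (p.2 - q.2) ^ 2 := by positivity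
    refine ⟨?_, ?_, ?_⟩
    · by_contra hcon
      push Not at hcon
      obtain ⟨h5, h6⟩ := hcon
      have h7 : (p.1 - q.1) ^ 2 < (d / 2) ^ 2 := sq_lt_sq' (by linarith [neg_abs_le (p.1 - q.1)])
        (by linarith [le_abs_self (p.1 - q.1)])
      have h8 : (p.2 - q.2) ^ 2 < (d / 2) ^ 2 := sq_lt_sq' (by linarith [neg_abs_le (p.2 - q.2)])
        (by linarith [le_abs_self (p.2 - q.2)])
      have h9 : d ^ 2 ≤ (p.1 - q.1) ^ 2 + (p.2 - q.2) ^ 2 := (Real.le_sqrt' hd).1 h1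
      nlinarith
    · refine le_trans ?_ h3
      apply Real.abs_le_sqrt
      nlinarith [sq_nonneg (p.2 - q.2)]
    · refine le_trans ?_ h3
      apply Real.abs_le_sqrt
      nlinarith [sq_nonneg (p.1 - q.1)]

open XResS in
/-- Point sets in the square with triangles of area at least `1/m`. -/
theorem I_ResSq (hX : StX) (hSh : StShear) : StSq := by
  intro B hB
  obtain ⟨c, hc, C, hC, h⟩ := core hX hSh (B + 3) (by linarith)
  refine ⟨c, hc, C, hC, ?_⟩
  intro P m h3 hm hmB h11 harea k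
  have hn3 : (3 : ℝ) ≤ (P.card : ℝ) := by exact_mod_cast h3
  have hn0 : (0 : ℝ) < (P.card : ℝ) := by linarith
  have hm0 : 0 < m := by linarith
  refine h P (1 / (4 * m)) 2 (by positivity) (by norm_num) (by omega) ?_ ?_ ?_ k
  · intro p hp q hq r hr hpq hpr hqr h0
    have := harea p hp q hq r hr hpq hpr hqr
    rw [h0, abs_zero, mul_zero] at this
    linarith
  · have h6 : (P.card : ℝ) ^ (B + 3) = (P.card : ℝ) ^ B * (P.card : ℝ) ^ 3 := by
      rw [Real.rpow_add hn0]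
      congr 1
      exact_mod_cast Real.rpow_natCast (P.card : ℝ) 3
    rw [h6, mul_one_div, le_div_iff₀ (by positivity)]
    have h7 : (3 : ℝ) ^ 3 ≤ (P.card : ℝ) ^ 3 := pow_le_pow_left₀ (by norm_num) hn3 3
    have h8 : m * 8 ≤ (P.card : ℝ) ^ B * (P.card : ℝ) ^ 3 :=
      mul_le_mul hmB (by linarith) (by norm_num) (by positivity)
    linarith
  · intro p hp q hq hpq
    have hb1 := h11 p hp
    have hb2 := h11 q hq
    have a1 := abs_le.1 hb1.1
    have a2 := abs_le.1 hb1.2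
    have a3 := abs_le.1 hb2.1
    have a4 := abs_le.1 hb2.2
    refine ⟨?_, abs_le.2 ⟨by linarith, by linarith⟩, abs_le.2 ⟨by linarith, by linarith⟩⟩
    obtain ⟨r, hr, hrp, hrq⟩ : ∃ r ∈ P, r ≠ p ∧ r ≠ q := by
      classical
      have h5 : 1 ≤ ((P.erase p).erase q).card := by
        rw [Finset.card_erase_of_mem (Finset.mem_erase.2 ⟨hpq.symm, hq⟩),
          Finset.card_erase_of_mem hp]
        omega
      obtain ⟨r, hr⟩ := Finset.card_pos.1 (by omega : 0 < ((P.erase p).erase q).card)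
      rw [Finset.mem_erase, Finset.mem_erase] at hr
      exact ⟨r, hr.2.2, hr.2.1, hr.1⟩
    have h1 := harea p hp q hq r hr hpq hrp.symm hrq.symm
    have hb3 := h11 r hr
    have a5 := abs_le.1 hb3.1
    have a6 := abs_le.1 hb3.2
    by_contra hcon
    push Not at hcon
    obtain ⟨h5, h6⟩ := hcon
    rw [lt_div_iff₀ (by positivity)] at h5 h6
    have h7 : |side p q r| ≤ 2 * |p.1 - q.1| + 2 * |p.2 - q.2| := by
      have e : side p q r = (q.1 - p.1) * (r.2 - p.2) - (q.2 - p.2) * (r.1 - p.1) := rfl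
      rw [e]
      refine (abs_sub _ _).trans ?_
      rw [abs_mul, abs_mul, abs_sub_comm q.1 p.1, abs_sub_comm q.2 p.2]
      have b1 : |r.2 - p.2| ≤ 2 := abs_le.2 ⟨by linarith, by linarith⟩
      have b2 : |r.1 - p.1| ≤ 2 := abs_le.2 ⟨by linarith, by linarith⟩
      have b3 : |p.1 - q.1| * |r.2 - p.2| ≤ |p.1 - q.1| * 2 :=
        mul_le_mul_of_nonneg_left b1 (abs_nonneg _)
      have b4 : |p.2 - q.2| * |r.1 - p.1| ≤ |p.2 - q.2| * 2 :=
        mul_le_mul_of_nonneg_left b2 (abs_nonneg _)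
      linarith
    have h8 : m * |side p q r| ≤ m * (2 * |p.1 - q.1| + 2 * |p.2 - q.2|) :=
      mul_le_mul_of_nonneg_left h7 hm0.le
    nlinarith

/-- The area version. -/
theorem I_ResA (hX : StX) (hSh : StShear) : StArea := I_PtArea (I_ResSq hX hSh)

end Pool.Agent.Work.MP_e17eac_co.PS

end

section

/-!
# Project PS, item ResX: point sets with polynomially separated abscissae
-/

namespace Pool.Agent.Work.MP_e17eac_co.PS

open Finset
open Pool.Agent.Work.MP_e17eac_co.DH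

namespace XResX

theorem side_swap (p q r : ℝ × ℝ) : side q p r = - side p q r := by
  unfold side; ring

theorem filter_swap (P : Finset (ℝ × ℝ)) (p q : ℝ × ℝ) :
    (P.filter fun r => side q p r < 0) = P.filter fun r => 0 < side p q r := by
  apply Finset.filter_congr
  intro r _
  rw [side_swap, neg_lt_zero]

/-- The determinant in scaled coordinates. -/
theorem scale (X0 u : ℝ) (hu : 0 < u) (p q r : ℝ × ℝ) :
    (q.1 - X0) / u - (p.1 - X0) / u = (q.1 - p.1) / u ∧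
    ((q.1 - X0) / u - (p.1 - X0) / u) * (r.2 - p.2) - (q.2 - p.2) *
      ((r.1 - X0) / u - (p.1 - X0) / u) = side p q r / u := by
  constructor
  · field_simp
    ring
  · unfold side
    field_simp
    ring

end XResX

open Classical XResX in
/-- Ordered pairs. -/
theorem XResX.ordered (hMain : StMainS) (hS : StSweepY) : ∀ B : ℝ, 1 ≤ B → ∃ c : ℝ, 0 < c ∧
    ∃ C : ℝ, 0 < C ∧ ∀ (P : Finset (ℝ × ℝ)) (w : ℝ), 0 < w → GenPos P →
    (∀ p ∈ P, ∀ q ∈ P, p ≠ q → w ≤ |p.1 - q.1| ∧ |p.1 - q.1| ≤ (P.card : ℝ) ^ B * w) →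
    ∀ (k : ℕ) (T : Finset ((ℝ × ℝ) × (ℝ × ℝ))), (∀ e ∈ T, e.1 ∈ P ∧ e.2 ∈ P ∧ e.1.1 < e.2.1 ∧
      (P.filter fun r => side e.1 e.2 r < 0).card = k) →
    (T.card : ℝ) ≤ C * (P.card : ℝ) ^ ((4 : ℝ) / 3 - c) := by
  intro B hB
  obtain ⟨c, hc, C, hC, hM⟩ := hMain B hB
  refine ⟨c, hc, C, hC, ?_⟩
  intro P w hw hgen hsep k T hT
  rcases P.eq_empty_or_nonempty with hP | hP
  · have : T = ∅ := by
      apply Finset.eq_empty_of_forall_notMem
      intro e he
      have := (hT e he).1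
      rw [hP] at this
      simp at this
    rw [this]
    simp only [Finset.card_empty, Nat.cast_zero]
    positivity
  obtain ⟨p0, hp0, hmin⟩ := Finset.exists_min_image P Prod.fst hP
  haveI : Nonempty P := ⟨⟨p0, hp0⟩⟩
  have hn1 : (1 : ℝ) ≤ (P.card : ℝ) := by exact_mod_cast Finset.card_pos.2 hP
  set m : ℝ := (P.card : ℝ) ^ B with hmdef
  have hm : 1 ≤ m := Real.one_le_rpow hn1 (by linarith)
  have hm0 : 0 < m := by linarith
  have hmw : 0 < m * w := by positivity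
  set X0 : ℝ := p0.1 with hX0
  let x : P → ℝ := fun i => ((i : ℝ × ℝ).1 - X0) / (m * w)
  let y : P → ℝ := fun i => (i : ℝ × ℝ).2
  have hx01 : ∀ i, 0 ≤ x i ∧ x i ≤ 1 := by
    intro i
    have h1 := hmin i i.2
    constructor
    · exact div_nonneg (by linarith) hmw.le
    · rw [div_le_one hmw]
      by_cases h : (i : ℝ × ℝ) = p0
      · rw [h, hX0]
        simp only [sub_self]
        exact hmw.le
      · have := (hsep i i.2 p0 hp0 h).2
        exact le_trans (le_abs_self _) this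
  have hdiff : ∀ i j : P, x i - x j = ((i : ℝ × ℝ).1 - (j : ℝ × ℝ).1) / (m * w) := by
    intro i j
    exact (scale X0 (m * w) hmw j i i).1
  have hsepx : ∀ i j : P, i ≠ j → 1 ≤ m * |x i - x j| := by
    intro i j hij
    have hne : (i : ℝ × ℝ) ≠ j := fun h => hij (Subtype.ext h)
    have h1 := (hsep i i.2 j j.2 hne).1
    rw [hdiff, abs_div, abs_of_pos hmw]
    have : m * (|(i : ℝ × ℝ).1 - (j : ℝ × ℝ).1| / (m * w)) =
        |(i : ℝ × ℝ).1 - (j : ℝ × ℝ).1| / w := by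
      field_simp
    rw [this, le_div_iff₀ hw]
    linarith
  have hinj : Function.Injective x := by
    intro i j h
    by_contra hne
    have := hsepx i j hne
    rw [h, sub_self, abs_zero, mul_zero] at this
    linarith
  have hdet : ∀ i j l : P, det3 x y i j l = side (i : ℝ × ℝ) j l / (m * w) := by
    intro i j l
    exact (scale X0 (m * w) hmw i j l).2
  have hnc : ∀ i j l : P, i ≠ j → i ≠ l → j ≠ l → det3 x y i j l ≠ 0 := by
    intro i j l hij hil hjl h
    rw [hdet] at h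
    have h3 : side (i : ℝ × ℝ) j l = 0 := by
      rcases div_eq_zero_iff.1 h with h | h
      · exact h
      · exact absurd h hmw.ne'
    exact hgen i i.2 j j.2 l l.2 (fun h => hij (Subtype.ext h)) (fun h => hil (Subtype.ext h))
      (fun h => hjl (Subtype.ext h)) h3
  have hlvl : ∀ i j : P, lvl x y i j = (P.filter fun r => side (i : ℝ × ℝ) j r < 0).card := by
    intro i j
    unfold lvl
    refine Finset.card_bij (fun i _ => (i : ℝ × ℝ)) ?_ ?_ ?_
    · intro l hl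
      rw [Finset.mem_filter] at hl ⊢
      refine ⟨l.2, ?_⟩
      have h1 := hl.2
      rw [hdet, div_neg_iff] at h1
      exact h1.elim (fun h => absurd h.2 (not_lt.2 hmw.le)) (fun h => h.1)
    · intro i _ j _ h
      exact Subtype.ext h
    · intro r hr
      rw [Finset.mem_filter] at hr
      refine ⟨⟨r, hr.1⟩, Finset.mem_filter.2 ⟨Finset.mem_univ _, ?_⟩, rfl⟩
      rw [hdet]
      exact div_neg_of_neg_of_pos hr.2 hmw
  obtain ⟨K, hKx, hKy, -, hKex⟩ := hS P x y k hx01 hinj hnc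
  have hKsep : K.Sep m := by
    intro i j hij
    rw [hKx]
    exact hsepx i j hij
  have hcardP : Fintype.card P = P.card := Fintype.card_coe P
  have hN := hM P K m hm hKsep (by rw [hKx, hKy]; exact hnc) (by rw [hcardP])
  rw [hcardP] at hN
  refine le_trans ?_ hN
  have hidx : ∀ e ∈ T, ∃ n, n < K.N ∧ ((K.b n : P) : ℝ × ℝ) = e.1 ∧
      ((K.a n : P) : ℝ × ℝ) = e.2 := by
    intro e he
    obtain ⟨h1, h2, h3, h4⟩ := hT e he
    have hx : x ⟨e.1, h1⟩ < x ⟨e.2, h2⟩ := by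
      have h5 := hdiff ⟨e.2, h2⟩ ⟨e.1, h1⟩
      have h6 : 0 < (e.2.1 - e.1.1) / (m * w) := div_pos (by linarith) hmw
      have h7 : x ⟨e.2, h2⟩ - x ⟨e.1, h1⟩ = (e.2.1 - e.1.1) / (m * w) := h5
      linarith
    obtain ⟨n, hn, hb, ha⟩ := hKex ⟨e.1, h1⟩ ⟨e.2, h2⟩ hx (by rw [hlvl]; exact h4)
    exact ⟨n, hn, by rw [hb], by rw [ha]⟩
  choose! f hf1 hf2 hf3 using hidx
  have : T.card ≤ (range K.N).card := by
    apply Finset.card_le_card_of_injOn f
    · intro e he
      have he' : e ∈ T := he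
      rw [Finset.mem_coe, Finset.mem_range]
      exact hf1 e he'
    · intro e he e' he' h
      have he1 : e ∈ T := he
      have he2 : e' ∈ T := he'
      have a1 := hf2 e he1
      have a2 := hf2 e' he2
      have b1 := hf3 e he1
      have b2 := hf3 e' he2
      rw [h] at a1 b1
      exact Prod.ext (a1.symm.trans a2) (b1.symm.trans b2)
  rw [Finset.card_range] at this
  exact_mod_cast this

open Classical XResX in
theorem I_ResX (hMain : StMainS) (hS : StSweepY) : StX := by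
  intro B hB
  obtain ⟨c, hc, C, hC, h⟩ := XResX.ordered hMain hS B hB
  refine ⟨c, hc, 2 * C, by positivity, ?_⟩
  intro P w hw hgen hsep k
  set T : ℕ → Finset ((ℝ × ℝ) × (ℝ × ℝ)) := fun j =>
    (P ×ˢ P).filter fun e => e.1.1 < e.2.1 ∧ (P.filter fun r => side e.1 e.2 r < 0).card = j
    with hT
  have hTb : ∀ j, ((T j).card : ℝ) ≤ C * (P.card : ℝ) ^ ((4 : ℝ) / 3 - c) := by
    intro j
    refine h P w hw hgen hsep j (T j) ?_
    intro e he
    simp only [hT, Finset.mem_filter, Finset.mem_product] at he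
    exact ⟨he.1.1, he.1.2, he.2.1, he.2.2⟩
  have hsub : kEdges P k ⊆ (T (P.card - 2 - k) ∪ T k).image fun e => ({e.1, e.2} : Finset (ℝ × ℝ)) := by
    intro e he
    simp only [kEdges, Finset.mem_filter] at he
    obtain ⟨-, p, q, rfl, hp, hq, hne, hk1, hk2⟩ := he
    have hx : p.1 ≠ q.1 := by
      intro hx
      have := (hsep p hp q hq hne).1
      rw [hx, sub_self, abs_zero] at this
      linarith
    rcases lt_or_gt_of_ne hx with hlt | hlt
    · refine Finset.mem_image.2 ⟨(p, q), Finset.mem_union_left _ ?_, rfl⟩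
      simp only [hT, Finset.mem_filter, Finset.mem_product]
      refine ⟨⟨hp, hq⟩, hlt, ?_⟩
      omega
    · refine Finset.mem_image.2 ⟨(q, p), Finset.mem_union_right _ ?_, Finset.pair_comm q p⟩
      simp only [hT, Finset.mem_filter, Finset.mem_product]
      refine ⟨⟨hq, hp⟩, hlt, ?_⟩
      rw [filter_swap]
      exact hk1
  have h1 : (kEdges P k).card ≤ (T (P.card - 2 - k)).card + (T k).card :=
    (Finset.card_le_card hsub).trans (Finset.card_image_le.trans (Finset.card_union_le _ _))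
  have h2 : ((kEdges P k).card : ℝ) ≤ (T (P.card - 2 - k)).card + (T k).card := by
    exact_mod_cast h1
  linarith [hTb (P.card - 2 - k), hTb k]

end Pool.Agent.Work.MP_e17eac_co.PS

end
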