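import Pool.Agent.Work.MP_e17eac_co.Bd.B17
import Pool.Agent.Work.MP_e17eac_co.Bd.B23
import Pool.Agent.Work.MP_e17eac_co.Bd.B12

/-! Bundle of small proof modules (one section per former module). -/

section

/-!
# Block SK, item ALT: no alternation of the classes along a token
-/

namespace Pool.Agent.Work.MP_e17eac_co.SK

open Finset
open Pool.Agent.Work.MP_e17eac_co.DH

theorem I_ALT (hTOKI : StTokInt) : StAlt := by
  intro ι β _ _ K κ hK τ n₁ n₂ n₃ n₄ h12 h23 h34 h4N e13 e24
  by_contra hne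
  obtain ⟨c, s, hc, hA, hB, hAB⟩ := hK (K.pos n₁ τ) (K.pos n₂ τ) hne
  have h3 := hA (K.pos n₃ τ) e13.symm
  have h4 := hB (K.pos n₄ τ) e24.symm
  have t1 := hTOKI ι K c s τ n₁ n₂ n₃ hc h12 h23 (by omega)
  have t2 := hTOKI ι K c s τ n₂ n₃ n₄ hc h23 h34 h4N
  by_cases hτ : τ ∈ K.S 0
  · have t1' := t1.1 hτ
    have t2' := t2.1 hτ
    clear t1 t2
    by_cases q1 : chi K c s (K.pos n₁ τ)
    · have q2 : ¬ chi K c s (K.pos n₂ τ) := fun h => hAB ⟨fun _ => h, fun _ => q1⟩
      exact t2' q2 (fun h => q2 (h4.mp h)) (h3.mpr q1)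
    · have q2 := t1' q1 (fun h => q1 (h3.mp h))
      exact hAB ⟨fun h => absurd h q1, fun h => absurd h q2⟩
  · have t1' := t1.2 hτ
    have t2' := t2.2 hτ
    clear t1 t2
    by_cases q1 : chi K c s (K.pos n₁ τ)
    · have q2 := t1' q1 (h3.mpr q1)
      exact hAB ⟨fun _ => q2, fun _ => q1⟩
    · have q2 : chi K c s (K.pos n₂ τ) := by
        by_contra h
        exact hAB ⟨fun h' => absurd h' q1, fun h' => absurd h' h⟩
      exact q1 (h3.mp (t2' q2 (h4.mpr q2)))

end Pool.Agent.Work.MP_e17eac_co.SK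

end

section

/-!
# Block SK, item ALTC: counting for sequences without alternation `A B A B`
-/

namespace Pool.Agent.Work.MP_e17eac_co.SK

open Finset

namespace XALTC

open Classical in
/-- The values which are surrounded by another value. -/
noncomputable def Sur {β : Type} [DecidableEq β] (f : ℕ → β) (E : Finset ℕ) : Finset β :=
  (E.image f).filter (fun x => ∃ j ∈ E, ∃ k ∈ E, ∃ l ∈ E, j ≤ k ∧ k ≤ l ∧ f j = f l ∧ f k = x ∧
    f j ≠ x)

theorem mem_Sur {β : Type} [DecidableEq β] {f : ℕ → β} {E : Finset ℕ} {x : β} :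
    x ∈ Sur f E ↔ ∃ j ∈ E, ∃ k ∈ E, ∃ l ∈ E, j ≤ k ∧ k ≤ l ∧ f j = f l ∧ f k = x ∧ f j ≠ x := by
  unfold Sur
  rw [mem_filter]
  constructor
  · exact fun h => h.2
  · intro h
    refine ⟨?_, h⟩
    obtain ⟨j, _, k, hk, l, _, _, _, _, h1, _⟩ := h
    exact mem_image.mpr ⟨k, hk, h1⟩

theorem Sur_mono {β : Type} [DecidableEq β] {f : ℕ → β} {E E' : Finset ℕ} (h : E ⊆ E') :
    Sur f E ⊆ Sur f E' := by
  intro x hx
  rw [mem_Sur] at hx ⊢
  obtain ⟨j, hj, k, hk, l, hl, h1⟩ := hx
  exact ⟨j, h hj, k, h hk, l, h hl, h1⟩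

theorem main {β : Type} [DecidableEq β] (f : ℕ → β) (g : ℕ → ℕ) (E : Finset ℕ) :
    (∀ n ∈ E, ∀ m ∈ E, n ≤ m → g n ≤ g m) →
    (∀ n₁ ∈ E, ∀ n₂ ∈ E, ∀ n₃ ∈ E, ∀ n₄ ∈ E, n₁ ≤ n₂ → n₂ ≤ n₃ → n₃ ≤ n₄ → f n₁ = f n₃ →
      f n₂ = f n₄ → f n₁ = f n₂) →
    (E.image (fun n => (g n, f n))).card ≤ (E.image g).card + (E.image f).card +
      (Sur f E).card := by
  induction E using Finset.induction_on_max with
  | empty => simp [Sur]
  | insert n E hn ih =>
    intro hg hf
    have hsub : E ⊆ insert n E := Finset.subset_insert _ _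
    have hg' : ∀ n ∈ E, ∀ m ∈ E, n ≤ m → g n ≤ g m :=
      fun a ha b hb => hg a (hsub ha) b (hsub hb)
    have hf' : ∀ n₁ ∈ E, ∀ n₂ ∈ E, ∀ n₃ ∈ E, ∀ n₄ ∈ E, n₁ ≤ n₂ → n₂ ≤ n₃ → n₃ ≤ n₄ →
        f n₁ = f n₃ → f n₂ = f n₄ → f n₁ = f n₂ :=
      fun a ha b hb c hc d hd => hf a (hsub ha) b (hsub hb) c (hsub hc) d (hsub hd)
    have h := ih hg' hf'
    have hmg : (E.image g).card ≤ ((insert n E).image g).card :=
      Finset.card_le_card (Finset.image_subset_image hsub)
    have hmf : (E.image f).card ≤ ((insert n E).image f).card :=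
      Finset.card_le_card (Finset.image_subset_image hsub)
    have hms : (Sur f E).card ≤ (Sur f (insert n E)).card :=
      Finset.card_le_card (Sur_mono hsub)
    by_cases hp : (g n, f n) ∈ E.image (fun n => (g n, f n))
    · have h1 : (insert n E).image (fun n => (g n, f n)) = E.image (fun n => (g n, f n)) := by
        rw [Finset.image_insert, Finset.insert_eq_of_mem hp]
      rw [h1]
      omega
    · have h1 : ((insert n E).image (fun n => (g n, f n))).card =
          (E.image (fun n => (g n, f n))).card + 1 := by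
        rw [Finset.image_insert, Finset.card_insert_of_notMem hp]
      rw [h1]
      by_cases hgn : g n ∈ E.image g
      · by_cases hfn : f n ∈ E.image f
        · -- the surrounded values
          obtain ⟨j, hj, hjf⟩ := Finset.mem_image.mp hfn
          obtain ⟨i, hi, hig⟩ := Finset.mem_image.mp hgn
          have hne : E.Nonempty := ⟨j, hj⟩
          set m := E.max' hne with hm
          have hmE : m ∈ E := Finset.max'_mem E hne
          have hmle : ∀ x ∈ E, x ≤ m := fun x hx => Finset.le_max' E x hx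
          have hmn : m ≤ n := (hn m hmE).le
          have hgm : g m = g n := by
            refine le_antisymm (hg m (hsub hmE) n (Finset.mem_insert_self _ _) hmn) ?_
            rw [← hig]
            exact hg' i hi m hmE (hmle i hi)
          have hfm : f m ≠ f n := by
            intro heq
            exact hp (Finset.mem_image.mpr ⟨m, hmE, by rw [hgm, heq]⟩)
          have h2 : f m ∈ Sur f (insert n E) := by
            rw [mem_Sur]
            exact ⟨j, hsub hj, m, hsub hmE, n, Finset.mem_insert_self _ _, hmle j hj, hmn, hjf,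
              rfl, fun h3 => hfm (h3.symm.trans hjf)⟩
          have h3 : f m ∉ Sur f E := by
            rw [mem_Sur]
            rintro ⟨j', hj', k', hk', l', hl', h4, h5, h6, h7, h8⟩
            exact h8 ((hf' j' hj' k' hk' l' hl' m hmE h4 h5 (hmle l' hl') h6 h7).trans h7)
          have h4 : (Sur f E).card + 1 ≤ (Sur f (insert n E)).card := by
            rw [← Finset.card_insert_of_notMem h3]
            refine Finset.card_le_card ?_
            rw [Finset.insert_subset_iff]
            exact ⟨h2, Sur_mono hsub⟩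
          omega
        · have h2 : ((insert n E).image f).card = (E.image f).card + 1 := by
            rw [Finset.image_insert, Finset.card_insert_of_notMem hfn]
          omega
      · have h2 : ((insert n E).image g).card = (E.image g).card + 1 := by
          rw [Finset.image_insert, Finset.card_insert_of_notMem hgn]
        omega

end XALTC

open XALTC in
theorem I_ALTC : StAltCount := by
  intro β _ E f g hg hf
  have h := XALTC.main f g E hg hf
  have h1 : (Sur f E).card ≤ (E.image f).card := by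
    unfold Sur
    exact Finset.card_filter_le _ _
  omega

end Pool.Agent.Work.MP_e17eac_co.SK

end

section

set_option autoImplicit false

namespace Pool.Agent.Work.MP_e17eac_co.SK

open Finset
open Pool.Agent.Work.MP_e17eac_co.DH

namespace XHASH

variable {ι : Type} [Fintype ι] [DecidableEq ι]

lemma sep_subset (K : KSys ι) (W : Finset (ℕ × ℕ)) (i j : ι) : sep K W i j ⊆ W := by
  classical
  unfold sep
  exact Finset.filter_subset _ _

lemma sep_self (K : KSys ι) (W : Finset (ℕ × ℕ)) (i : ι) : sep K W i i = ∅ := by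
  classical
  unfold sep
  apply Finset.filter_eq_empty_iff.2
  rintro c - ⟨s, hs⟩
  exact hs Iff.rfl

lemma mem_sep (K : KSys ι) (W : Finset (ℕ × ℕ)) (i j : ι) (c : ℕ × ℕ)
    (h : c ∈ sep K W i j) : ∃ s, ¬ (chi K c s i ↔ chi K c s j) := by
  classical
  unfold sep at h
  exact (Finset.mem_filter.1 h).2

lemma mem_key (K : KSys ι) (W : Finset (ℕ × ℕ)) (i : ι) (c : ℕ × ℕ) (s : Bool)
    (hc : c ∈ W) : (c, s) ∈ key K W i ↔ chi K c s i := by
  classical
  unfold key
  rw [Finset.mem_filter]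
  constructor
  · exact fun h => h.2
  · exact fun h => ⟨Finset.mem_product.2 ⟨hc, Finset.mem_univ _⟩, h⟩

lemma chi_of_key (K : KSys ι) (R : Finset (ℕ × ℕ)) (i j : ι) (h : key K R i = key K R j)
    (c : ℕ × ℕ) (hc : c ∈ R) (s : Bool) : chi K c s i ↔ chi K c s j := by
  rw [← mem_key K R i c s hc, ← mem_key K R j c s hc, h]

end XHASH

open XHASH in
theorem I_HASH (hHIT : StHit) (hKEYC : StKeyCount) : StHash := by
  classical
  intro ι _ _ K W h hh hn hwin hdisj
  have hlog : 0 ≤ Real.log (Fintype.card ι) :=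
    Real.log_nonneg (by exact_mod_cast (by omega : 1 ≤ Fintype.card ι))
  have hkey : ∀ R ⊆ W, ((univ : Finset ι).image (key K R)).card ≤ (2 * R.card + 1) ^ 2 :=
    fun R hR => hKEYC ι K R (fun c hc => hwin c (hR hc))
      (fun c hc c' hc' => hdisj c (hR hc) c' (hR hc'))
  set J : Finset (ι × ι) := univ.filter (fun p => h ≤ ((sep K W p.1 p.2).card : ℝ)) with hJ
  by_cases hJe : J = ∅
  · refine ⟨∅, Finset.empty_subset _, ?_, ?_, hkey ∅ (Finset.empty_subset _)⟩
    · have : 0 ≤ 2 * ((W.card : ℝ) / h) * Real.log (Fintype.card ι) := by positivity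
      simp only [Finset.card_empty, Nat.cast_zero]
      linarith
    · intro i j _
      by_contra hcon
      push Not at hcon
      have : (i, j) ∈ J := by
        rw [hJ, Finset.mem_filter]
        exact ⟨Finset.mem_univ _, hcon⟩
      rw [hJe] at this
      exact absurd this (Finset.notMem_empty _)
  · obtain ⟨p, hp⟩ := Finset.nonempty_iff_ne_empty.2 hJe
    have hpg : h ≤ (W.card : ℝ) := by
      rw [hJ, Finset.mem_filter] at hp
      refine hp.2.trans ?_
      exact_mod_cast Finset.card_le_card (sep_subset K W p.1 p.2)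
    have hg : (0 : ℝ) < W.card := lt_of_lt_of_le hh hpg
    set n : ℝ := (Fintype.card ι : ℝ) with hnd
    have hn0 : 0 < n := by
      rw [hnd]; exact_mod_cast (by omega : 0 < Fintype.card ι)
    set r : ℕ := ⌈2 * ((W.card : ℝ) / h) * Real.log n⌉₊ with hr
    have hr0 : 0 ≤ 2 * ((W.card : ℝ) / h) * Real.log n := by positivity
    have hr1 : (r : ℝ) ≤ 2 * ((W.card : ℝ) / h) * Real.log n + 1 :=
      (Nat.ceil_lt_add_one hr0).le
    have hr2 : 2 * ((W.card : ℝ) / h) * Real.log n ≤ r := Nat.le_ceil _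
    have hx1 : h / (W.card : ℝ) ≤ 1 := (div_le_one hg).2 hpg
    have hpow : (1 - h / (W.card : ℝ)) ^ r ≤ (n ^ 2)⁻¹ := by
      have h1 : (1 - h / (W.card : ℝ)) ^ r ≤ (Real.exp (-(h / (W.card : ℝ)))) ^ r :=
        pow_le_pow_left₀ (by linarith) (Real.one_sub_le_exp_neg _) r
      have h2 : (Real.exp (-(h / (W.card : ℝ)))) ^ r
          = Real.exp (-((r : ℝ) * (h / (W.card : ℝ)))) := by
        rw [← Real.exp_nat_mul]
        congr 1
        ring
      have h3 : 2 * Real.log n ≤ (r : ℝ) * (h / (W.card : ℝ)) := by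
        have h4 : (2 * ((W.card : ℝ) / h) * Real.log n) * (h / (W.card : ℝ))
            = 2 * Real.log n := by
          field_simp
        rw [← h4]
        exact mul_le_mul_of_nonneg_right hr2 (by positivity)
      have h5 : (n ^ 2)⁻¹ = Real.exp (-(2 * Real.log n)) := by
        rw [Real.exp_neg, ← Real.exp_log (show 0 < n ^ 2 by positivity), Real.log_pow]
        norm_num
      rw [h5]
      refine h1.trans ?_
      rw [h2]
      exact Real.exp_le_exp.2 (by linarith)
    have hJc : (J.card : ℝ) < n ^ 2 := by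
      obtain ⟨i0⟩ : Nonempty ι := Fintype.card_pos_iff.1 (by omega)
      have hnot : (i0, i0) ∉ J := by
        rw [hJ, Finset.mem_filter]
        rintro ⟨-, hc⟩
        rw [sep_self, Finset.card_empty, Nat.cast_zero] at hc
        linarith
      have h1 := Finset.card_lt_univ_of_notMem hnot
      rw [Fintype.card_prod] at h1
      have h2 : (J.card : ℝ) < ((Fintype.card ι * Fintype.card ι : ℕ) : ℝ) := by
        exact_mod_cast h1
      rw [Nat.cast_mul] at h2
      rw [hnd, sq]
      exact h2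
    have hlt : (J.card : ℝ) * (1 - h / (W.card : ℝ)) ^ r < 1 := by
      have h1 : (J.card : ℝ) * (1 - h / (W.card : ℝ)) ^ r ≤ (J.card : ℝ) * (n ^ 2)⁻¹ :=
        mul_le_mul_of_nonneg_left hpow (by positivity)
      have h2 : (J.card : ℝ) * (n ^ 2)⁻¹ < n ^ 2 * (n ^ 2)⁻¹ :=
        mul_lt_mul_of_pos_right hJc (by positivity)
      rw [mul_inv_cancel₀ (by positivity)] at h2
      linarith
    obtain ⟨R, hRW, hRc, hRhit⟩ := hHIT (ℕ × ℕ) (ι × ι) W J (fun p => sep K W p.1 p.2) h r
      hh.le (by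
        intro q hq
        rw [hJ, Finset.mem_filter] at hq
        exact ⟨sep_subset K W q.1 q.2, hq.2⟩) hlt
    refine ⟨R, hRW, ?_, ?_, hkey R hRW⟩
    · have : (R.card : ℝ) ≤ (r : ℝ) := by exact_mod_cast hRc
      linarith
    · intro i j hij
      by_contra hcon
      push Not at hcon
      have hm : (i, j) ∈ J := by
        rw [hJ, Finset.mem_filter]
        exact ⟨Finset.mem_univ _, hcon⟩
      obtain ⟨c, hcR, hcF⟩ := hRhit (i, j) hm
      obtain ⟨s, hs⟩ := mem_sep K W i j c hcF
      exact hs (chi_of_key K R i j hij c hcR s)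

end Pool.Agent.Work.MP_e17eac_co.SK

end

section

/-!
# Item SK HIT: small hitting sets
-/

namespace Pool.Agent.Work.MP_e17eac_co.SK

open Finset

theorem I_HIT : StHit := by
  intro α I _ W J F h r
  classical
  induction r generalizing J with
  | zero =>
    intro h0 hF hJ
    refine ⟨∅, empty_subset _, by simp, ?_⟩
    intro j hj
    exfalso
    rw [pow_zero, mul_one] at hJ
    have : 0 < J.card := card_pos.2 ⟨j, hj⟩
    have h1 : (1 : ℝ) ≤ (J.card : ℝ) := by exact_mod_cast this
    linarith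
  | succ r ih =>
    intro h0 hF hJ
    rcases J.eq_empty_or_nonempty with rfl | ⟨j0, hj0⟩
    · exact ⟨∅, empty_subset _, by simp, by simp⟩
    have hJ1 : (1 : ℝ) ≤ (J.card : ℝ) := by
      exact_mod_cast (card_pos.2 ⟨j0, hj0⟩ : 0 < J.card)
    rcases W.eq_empty_or_nonempty with hW | hW
    · exfalso
      obtain ⟨a1, a2⟩ := hF j0 hj0
      rw [hW, subset_empty] at a1
      rw [a1] at a2
      simp only [card_empty, Nat.cast_zero] at a2
      have a3 : h = 0 := le_antisymm a2 h0
      rw [a3, zero_div, sub_zero, one_pow, mul_one] at hJ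
      linarith
    have hWc : (0 : ℝ) < (W.card : ℝ) := by exact_mod_cast card_pos.2 hW
    have hsum : ∑ w ∈ W, (J.card : ℝ) * h / (W.card : ℝ) ≤
        ∑ w ∈ W, ((J.filter (fun j => w ∈ F j)).card : ℝ) := by
      have e1 : ∑ w ∈ W, ((J.filter (fun j => w ∈ F j)).card : ℝ) =
          ∑ j ∈ J, ((F j).card : ℝ) := by
        have e2 : ∀ w ∈ W, ((J.filter (fun j => w ∈ F j)).card : ℝ) =
            ∑ j ∈ J, if w ∈ F j then (1 : ℝ) else 0 := by
          intro w _
          rw [sum_ite, sum_const_zero, add_zero, sum_const, nsmul_eq_mul, mul_one]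
        rw [sum_congr rfl e2, sum_comm]
        apply sum_congr rfl
        intro j hj
        rw [sum_ite, sum_const_zero, add_zero, sum_const, nsmul_eq_mul, mul_one]
        have e3 : W.filter (fun w => w ∈ F j) = F j := by
          ext w
          simp only [mem_filter]
          exact ⟨fun hw => hw.2, fun hw => ⟨(hF j hj).1 hw, hw⟩⟩
        rw [e3]
      rw [e1, sum_const, nsmul_eq_mul]
      have e4 : (W.card : ℝ) * ((J.card : ℝ) * h / (W.card : ℝ)) = ∑ j ∈ J, h := by
        rw [sum_const, nsmul_eq_mul]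
        field_simp
      rw [e4]
      exact sum_le_sum (fun j hj => (hF j hj).2)
    obtain ⟨w, hw, hw1⟩ := exists_le_of_sum_le hW hsum
    have hle1 : 0 ≤ 1 - h / (W.card : ℝ) := by
      obtain ⟨a1, a2⟩ := hF j0 hj0
      have a3 : ((F j0).card : ℝ) ≤ (W.card : ℝ) := by exact_mod_cast card_le_card a1
      have a4 : h / (W.card : ℝ) ≤ 1 := by
        rw [div_le_one hWc]
        linarith
      linarith
    have hc : ((J.filter (fun j => w ∉ F j)).card : ℝ) ≤
        (J.card : ℝ) * (1 - h / (W.card : ℝ)) := by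
      have e1 : (J.filter (fun j => w ∈ F j)).card + (J.filter (fun j => w ∉ F j)).card =
          J.card := card_filter_add_card_filter_not _
      have e2 : ((J.filter (fun j => w ∈ F j)).card : ℝ) +
          ((J.filter (fun j => w ∉ F j)).card : ℝ) = (J.card : ℝ) := by exact_mod_cast e1
      have e3 : (J.card : ℝ) * (1 - h / (W.card : ℝ)) =
          (J.card : ℝ) - (J.card : ℝ) * h / (W.card : ℝ) := by ring
      rw [e3]
      linarith
    obtain ⟨R, hR, hRc, hRh⟩ := ih (J.filter (fun j => w ∉ F j)) h0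
      (fun j hj => hF j (mem_filter.1 hj).1) (by
        refine lt_of_le_of_lt ?_ hJ
        rw [pow_succ]
        calc ((J.filter (fun j => w ∉ F j)).card : ℝ) * (1 - h / (W.card : ℝ)) ^ r
            ≤ ((J.card : ℝ) * (1 - h / (W.card : ℝ))) * (1 - h / (W.card : ℝ)) ^ r :=
              mul_le_mul_of_nonneg_right hc (pow_nonneg hle1 r)
          _ = _ := by ring)
    refine ⟨insert w R, insert_subset hw hR, (card_insert_le _ _).trans (by omega), ?_⟩
    intro j hj
    by_cases hjw : w ∈ F j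
    · exact ⟨w, mem_insert_self _ _, hjw⟩
    · obtain ⟨c, hc1, hc2⟩ := hRh j (mem_filter.2 ⟨hj, hjw⟩)
      exact ⟨c, mem_insert_of_mem hc1, hc2⟩

end Pool.Agent.Work.MP_e17eac_co.SK

end

section

/-!
# Item SK HOMOG
-/

namespace Pool.Agent.Work.MP_e17eac_co.SK

open Finset
open Pool.Agent.Work.MP_e17eac_co.DH

namespace XHOMOG

variable {ι : Type} [Fintype ι] [DecidableEq ι]

theorem mem_sep_of (hVS : StVs) (K : KSys ι) (W : Finset (ℕ × ℕ)) (c : ℕ × ℕ) (hc : c ∈ W)
    (hw : IsWin K c) (i j : ι) (hi : i ∈ vs K c) (hj : j ∉ vs K c) : c ∈ sep K W i j := by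
  classical
  unfold sep
  rw [mem_filter]
  refine ⟨hc, ?_⟩
  by_contra hcon
  push Not at hcon
  apply hj
  rw [hVS ι K c hw] at hi ⊢
  have h1 := hcon true
  have h2 := hcon false
  exact ⟨h2.1 hi.1, fun h => hi.2 (h1.2 h)⟩

theorem card_mul (F V : Finset ι) : ((F ∩ V).card : ℝ) * ((F \ V).card : ℝ) =
    ∑ i ∈ F, ∑ j ∈ F, (if i ∈ V ∧ j ∉ V then (1 : ℝ) else 0) := by
  have h1 : ((F ∩ V).card : ℝ) = ∑ i ∈ F, (if i ∈ V then (1 : ℝ) else 0) := by
    rw [sum_boole, filter_mem_eq_inter]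
  have h2 : ((F \ V).card : ℝ) = ∑ j ∈ F, (if j ∉ V then (1 : ℝ) else 0) := by
    rw [sum_boole, filter_notMem_eq_sdiff]
  rw [h1, h2, sum_mul_sum]
  refine sum_congr rfl fun i _ => sum_congr rfl fun j _ => ?_
  by_cases hi : i ∈ V <;> by_cases hj : j ∈ V <;> simp [hi, hj]

end XHOMOG

open XHOMOG in
theorem I_HOMOG (hVS : StVs) : StHomog := by
  intro ι _ _ K W F h hW hsep
  classical
  have h1 : ∑ c ∈ W, ((F ∩ vs K c).card : ℝ) * ((F \ vs K c).card : ℝ) ≤
      ∑ c ∈ W, ∑ i ∈ F, ∑ j ∈ F, (if c ∈ sep K W i j then (1 : ℝ) else 0) := by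
    refine sum_le_sum fun c hc => ?_
    rw [card_mul]
    refine sum_le_sum fun i _ => sum_le_sum fun j _ => ?_
    by_cases h2 : i ∈ vs K c ∧ j ∉ vs K c
    · rw [if_pos h2, if_pos (mem_sep_of hVS K W c hc (hW c hc) i j h2.1 h2.2)]
    · rw [if_neg h2]
      split_ifs
      · exact zero_le_one
      · exact le_rfl
  refine h1.trans ?_
  rw [sum_comm]
  have h3 : ∀ i ∈ F, ∑ c ∈ W, ∑ j ∈ F, (if c ∈ sep K W i j then (1 : ℝ) else 0) ≤
      (F.card : ℝ) * h := by
    intro i hi
    rw [sum_comm, ← nsmul_eq_mul]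
    refine sum_le_card_nsmul _ _ _ fun j hj => ?_
    have h4 : ∑ c ∈ W, (if c ∈ sep K W i j then (1 : ℝ) else 0) = ((sep K W i j).card : ℝ) := by
      rw [sum_boole, filter_mem_eq_inter, inter_eq_right.2]
      exact filter_subset _ _
    rw [h4]
    exact hsep i hi j hj
  calc ∑ i ∈ F, ∑ c ∈ W, ∑ j ∈ F, (if c ∈ sep K W i j then (1 : ℝ) else 0)
      ≤ F.card • ((F.card : ℝ) * h) := sum_le_card_nsmul _ _ _ h3
    _ = (F.card : ℝ) ^ 2 * h := by rw [nsmul_eq_mul]; ring

end Pool.Agent.Work.MP_e17eac_co.SK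

end

section

set_option autoImplicit false

/-!
# Item KEYC: few status vectors (Sauer-Shelah)
-/

namespace Pool.Agent.Work.MP_e17eac_co.SK

open Finset
open Pool.Agent.Work.MP_e17eac_co.DH

namespace XKEYC

variable {ι : Type} [Fintype ι] [DecidableEq ι]

theorem sepn (K : KSys ι) (c : ℕ × ℕ) (s : Bool) (i j : ι) (hi : chi K c s i)
    (hj : ¬ chi K c s j) : ∃ n, c.1 ≤ n ∧ n ≤ c.2 ∧ i ∉ K.S n ∧ j ∈ K.S n := by
  cases s with
  | true =>
    simp only [chi, not_forall, not_not] at hi hj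
    obtain ⟨n, h1, h2, h3⟩ := hj
    exact ⟨n, h1, h2, hi n h1 h2, h3⟩
  | false =>
    simp only [chi, not_exists, not_and, not_not] at hi hj
    obtain ⟨n, h1, h2, h3⟩ := hi
    exact ⟨n, h1, h2, h3, hj n h1 h2⟩

theorem mem_key (K : KSys ι) (W : Finset (ℕ × ℕ)) (i : ι) (z : (ℕ × ℕ) × Bool) :
    z ∈ key K W i ↔ z.1 ∈ W ∧ chi K z.1 z.2 i := by
  unfold key
  simp

/-- the patterns of a shattered set -/
theorem pattern (K : KSys ι) (W : Finset (ℕ × ℕ)) (s : Finset ((ℕ × ℕ) × Bool))
    (hs : ((univ : Finset ι).image (key K W)).Shatters s) (hW : ∀ z ∈ s, z.1 ∈ W)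
    (t : Finset ((ℕ × ℕ) × Bool)) (ht : t ⊆ s) :
    ∃ i : ι, ∀ z ∈ s, (chi K z.1 z.2 i ↔ z ∈ t) := by
  obtain ⟨u, hu, hut⟩ := hs ht
  obtain ⟨i, _, rfl⟩ := mem_image.1 hu
  refine ⟨i, fun z hz => ?_⟩
  rw [← hut, mem_inter, mem_key]
  constructor
  · intro h
    exact ⟨hz, hW z hz, h⟩
  · rintro ⟨_, _, h⟩
    exact h

theorem core (hONCE : StOnce) (K : KSys ι) (W : Finset (ℕ × ℕ)) (hW : ∀ c ∈ W, IsWin K c)
    (s : Finset ((ℕ × ℕ) × Bool)) (hs : ((univ : Finset ι).image (key K W)).Shatters s)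
    (hsW : ∀ z ∈ s, z.1 ∈ W) (x y z : (ℕ × ℕ) × Bool) (hx : x ∈ s) (hy : y ∈ s) (hz : z ∈ s)
    (hxy : x ≠ y) (hyz : y ≠ z) (h1 : x.1.2 ≤ y.1.1) (h2 : y.1.2 ≤ z.1.1) : False := by
  obtain ⟨i, hi⟩ := pattern K W s hs hsW {x, z} (by
    intro w hw
    rcases mem_insert.1 hw with h | h
    · rwa [h]
    · rwa [mem_singleton.1 h])
  obtain ⟨j, hj⟩ := pattern K W s hs hsW {y} (by
    intro w hw
    rwa [mem_singleton.1 hw])
  have ix : chi K x.1 x.2 i := (hi x hx).2 (by simp)
  have iz : chi K z.1 z.2 i := (hi z hz).2 (by simp)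
  have iy : ¬ chi K y.1 y.2 i := fun h => by
    have := (hi y hy).1 h
    rcases mem_insert.1 this with h | h
    · exact hxy h.symm
    · exact hyz (mem_singleton.1 h)
  have jy : chi K y.1 y.2 j := (hj y hy).2 (by simp)
  have jx : ¬ chi K x.1 x.2 j := fun h => hxy (mem_singleton.1 ((hj x hx).1 h))
  have jz : ¬ chi K z.1 z.2 j := fun h => hyz (mem_singleton.1 ((hj z hz).1 h)).symm
  obtain ⟨n1, a1, a2, a3, a4⟩ := sepn K x.1 x.2 i j ix jx
  obtain ⟨n2, b1, b2, b3, b4⟩ := sepn K y.1 y.2 j i jy iy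
  obtain ⟨n3, c1, c2, c3, c4⟩ := sepn K z.1 z.2 i j iz jz
  have hz' := (hW z.1 (hsW z hz)).2
  exact hONCE ι K i j n1 n2 n3 (by omega) (by omega) (by omega) a3 a4 b4 b3 c3 c4

theorem win_ne (K : KSys ι) (W : Finset (ℕ × ℕ)) (hW : ∀ c ∈ W, IsWin K c)
    (s : Finset ((ℕ × ℕ) × Bool)) (hs : ((univ : Finset ι).image (key K W)).Shatters s)
    (hsW : ∀ z ∈ s, z.1 ∈ W) (c : ℕ × ℕ) (h1 : (c, true) ∈ s) (h2 : (c, false) ∈ s) : False := by
  obtain ⟨i, hi⟩ := pattern K W s hs hsW {(c, true)} (by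
    intro w hw
    rwa [mem_singleton.1 hw])
  have i1 : chi K c true i := (hi _ h1).2 (by simp)
  have i2 : ¬ chi K c false i := fun h => by
    have := mem_singleton.1 ((hi _ h2).1 h)
    simp at this
  have hc := hW c (hsW _ h1)
  simp only [chi, not_exists, not_and, not_not] at i1 i2
  exact i1 c.1 le_rfl hc.1 (i2 c.1 le_rfl hc.1)

theorem win_ne' (K : KSys ι) (W : Finset (ℕ × ℕ)) (hW : ∀ c ∈ W, IsWin K c)
    (s : Finset ((ℕ × ℕ) × Bool)) (hs : ((univ : Finset ι).image (key K W)).Shatters s)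
    (hsW : ∀ z ∈ s, z.1 ∈ W) (x y : (ℕ × ℕ) × Bool) (hx : x ∈ s) (hy : y ∈ s) (hxy : x ≠ y) :
    x.1 ≠ y.1 := by
  intro h
  obtain ⟨c, p⟩ := x
  obtain ⟨c', q⟩ := y
  simp only at h
  subst h
  cases p <;> cases q
  · exact hxy rfl
  · exact win_ne K W hW s hs hsW c hy hx
  · exact win_ne K W hW s hs hsW c hx hy
  · exact hxy rfl

theorem card_le_two (hONCE : StOnce) (K : KSys ι) (W : Finset (ℕ × ℕ))
    (hW : ∀ c ∈ W, IsWin K c) (hd : ∀ c ∈ W, ∀ c' ∈ W, c ≠ c' → c.2 ≤ c'.1 ∨ c'.2 ≤ c.1)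
    (s : Finset ((ℕ × ℕ) × Bool)) (hs : ((univ : Finset ι).image (key K W)).Shatters s)
    (hsW : ∀ z ∈ s, z.1 ∈ W) : s.card ≤ 2 := by
  by_contra hcon
  push Not at hcon
  obtain ⟨x, hx, y, hy, z, hz, hxy, hxz, hyz⟩ := Finset.two_lt_card.1 hcon
  have wxy := win_ne' K W hW s hs hsW x y hx hy hxy
  have wxz := win_ne' K W hW s hs hsW x z hx hz hxz
  have wyz := win_ne' K W hW s hs hsW y z hy hz hyz
  have C := core hONCE K W hW s hs hsW
  rcases hd x.1 (hsW x hx) y.1 (hsW y hy) wxy with h1 | h1 <;>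
  rcases hd y.1 (hsW y hy) z.1 (hsW z hz) wyz with h2 | h2 <;>
  rcases hd x.1 (hsW x hx) z.1 (hsW z hz) wxz with h3 | h3
  · exact C x y z hx hy hz hxy hyz h1 h2
  · exact C x y z hx hy hz hxy hyz h1 h2
  · exact C x z y hx hz hy hxz hyz.symm h3 h2
  · exact C z x y hz hx hy hxz.symm hxy h3 h1
  · exact C y x z hy hx hz hxy.symm hxz h1 h3
  · exact C y z x hy hz hx hyz hxz.symm h2 h3
  · exact C z y x hz hy hx hyz.symm hxy.symm h2 h1
  · exact C z y x hz hy hx hyz.symm hxy.symm h2 h1

theorem small (G s : Finset ((ℕ × ℕ) × Bool)) (hs : s ⊆ G) (h2 : s.card ≤ 2) :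
    s ∈ ((insertNone G) ×ˢ (insertNone G)).image
      (fun p : Option ((ℕ × ℕ) × Bool) × Option ((ℕ × ℕ) × Bool) =>
        p.1.toFinset ∪ p.2.toFinset) := by
  rw [mem_image]
  interval_cases h : s.card
  · refine ⟨(none, none), by simp, ?_⟩
    rw [card_eq_zero.1 h]
    simp
  · obtain ⟨a, rfl⟩ := card_eq_one.1 h
    refine ⟨(some a, none), ?_, by simp⟩
    have : a ∈ G := hs (by simp)
    simp [this]
  · obtain ⟨a, b, _, rfl⟩ := card_eq_two.1 h
    refine ⟨(some a, some b), ?_, ?_⟩
    · have h1 : a ∈ G := hs (by simp)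
      have h2 : b ∈ G := hs (by simp)
      simp [h1, h2]
    · ext w
      simp

end XKEYC

open XKEYC in
theorem I_KEYC (hONCE : StOnce) : StKeyCount := by
  intro ι _ _ K W hW hd
  set 𝒜 := (univ : Finset ι).image (key K W) with hA
  set G : Finset ((ℕ × ℕ) × Bool) := W ×ˢ (univ : Finset Bool) with hG
  have hsub : 𝒜.shatterer ⊆ ((insertNone G) ×ˢ (insertNone G)).image
      (fun p : Option ((ℕ × ℕ) × Bool) × Option ((ℕ × ℕ) × Bool) =>
        p.1.toFinset ∪ p.2.toFinset) := by
    intro s hs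
    rw [mem_shatterer] at hs
    have h1 : s ⊆ G := by
      obtain ⟨u, hu, hsu⟩ := hs (Subset.refl s)
      obtain ⟨i, _, rfl⟩ := mem_image.1 hu
      intro z hz
      rw [← hsu] at hz
      have := (mem_key K W i z).1 (mem_inter.1 hz).2
      rw [hG, mem_product]
      exact ⟨this.1, mem_univ _⟩
    have h2 : ∀ z ∈ s, z.1 ∈ W := fun z hz => by
      have := h1 hz
      rw [hG, mem_product] at this
      exact this.1
    exact small G s h1 (card_le_two hONCE K W hW hd s hs h2)
  calc 𝒜.card ≤ 𝒜.shatterer.card := card_le_card_shatterer 𝒜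
    _ ≤ _ := card_le_card hsub
    _ ≤ ((insertNone G) ×ˢ (insertNone G)).card := card_image_le
    _ = (2 * W.card + 1) ^ 2 := by
      rw [card_product, card_insertNone, hG, card_product]
      simp only [card_univ, Fintype.card_bool]
      ring

end Pool.Agent.Work.MP_e17eac_co.SK

end

section

set_option autoImplicit false

/-!
# Two lines cross at most once
-/

namespace Pool.Agent.Work.MP_e17eac_co.SK

open Finset
open Pool.Agent.Work.MP_e17eac_co.DH

namespace XONCE

theorem leave {P : ℕ → Prop} {m : ℕ} (hm : P m) : ∀ k, ¬ P (m + k) →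
    ∃ n, m ≤ n ∧ n < m + k ∧ P n ∧ ¬ P (n + 1) := by
  intro k
  induction k with
  | zero => intro h; exact absurd hm h
  | succ k ih =>
    intro h
    by_cases hk : P (m + k)
    · exact ⟨m + k, by omega, by omega, hk, h⟩
    · obtain ⟨n, h1, h2, h3, h4⟩ := ih hk
      exact ⟨n, h1, by omega, h3, h4⟩

variable {ι : Type} [Fintype ι] [DecidableEq ι]

/-- A valid time: later indices have later times. -/
theorem tm (K : KSys ι) (n : ℕ) (hn : n ≤ K.N) (hN : 0 < K.N) : ∃ s : ℝ,
    (∀ k, k < n → K.t k ≤ s) ∧ (∀ k, n ≤ k → k < K.N → s ≤ K.t k) ∧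
    (∀ k, k < n → K.t k < s) ∧ (n < K.N → s = K.t n) := by
  rcases Nat.lt_or_ge n K.N with h | h
  · refine ⟨K.t n, ?_, ?_, ?_, fun _ => rfl⟩
    · intro k hk
      exact (K.t_lt k n hk h).le
    · intro k hk hkN
      rcases Nat.eq_or_lt_of_le hk with h1 | h1
      · rw [h1]
      · exact (K.t_lt n k h1 hkN).le
    · intro k hk
      exact K.t_lt k n hk h
  · have h0 : ∀ k, k < n → K.t k < K.t (K.N - 1) + 1 := by
      intro k hk
      rcases Nat.lt_or_ge k (K.N - 1) with h1 | h1
      · have := K.t_lt k (K.N - 1) h1 (by omega)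
        linarith
      · have h2 : k = K.N - 1 := by omega
        rw [h2]
        linarith
    refine ⟨K.t (K.N - 1) + 1, fun k hk => (h0 k hk).le, ?_, h0, ?_⟩
    · intro k hk hkN
      omega
    · intro h1
      omega

end XONCE

open XONCE in
theorem I_ONCE : StOnce := by
  intro ι _ _ K i j n₁ n₂ n₃ h12 h23 h3 i1 j1 i2 j2 i3 j3
  have l12 : n₁ < n₂ := lt_of_le_of_ne h12 (fun h => i1 (h ▸ i2))
  have l23 : n₂ < n₃ := lt_of_le_of_ne h23 (fun h => i3 (h ▸ i2))
  have hN : 0 < K.N := by omega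
  obtain ⟨s1, a1, b1, -, e1⟩ := tm K n₁ (by omega) hN
  obtain ⟨s2, a2, b2, c2, e2⟩ := tm K n₂ (by omega) hN
  obtain ⟨s3, a3, b3, c3, -⟩ := tm K n₃ h3 hN
  have s12 : s1 < s2 := by
    rw [e1 (by omega)]
    exact c2 n₁ l12
  have s23 : s2 < s3 := by
    rw [e2 (by omega)]
    exact c3 n₂ l23
  have f1 := K.below n₁ (by omega) s1 a1 b1 j j1
  have f1' := K.above n₁ (by omega) s1 a1 b1 i i1
  have f2 := K.below n₂ (by omega) s2 a2 b2 i i2
  have f2' := K.above n₂ (by omega) s2 a2 b2 j j2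
  have f3 := K.below n₃ h3 s3 a3 b3 j j3
  have f3' := K.above n₃ h3 s3 a3 b3 i i3
  -- the difference of the heights is affine
  have hx : K.x i = K.x j := by
    have g1 : 0 ≤ (K.x j - K.x i) * (s2 - s1) := by nlinarith
    have g2 : 0 ≤ (K.x i - K.x j) * (s3 - s2) := by nlinarith
    have g3 : 0 ≤ K.x j - K.x i := by
      by_contra hcon
      push Not at hcon
      nlinarith
    have g4 : 0 ≤ K.x i - K.x j := by
      by_contra hcon
      push Not at hcon
      nlinarith
    linarith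
  have hy : K.y i = K.y j := by
    rw [hx] at f1' f2 f3'
    linarith
  obtain ⟨k, hk⟩ : ∃ k, n₂ = n₁ + k := ⟨n₂ - n₁, by omega⟩
  obtain ⟨n, hn1, hn2, hn3, hn4⟩ := leave (P := fun n => j ∈ K.S n) j1 k (by rw [← hk]; exact j2)
  have hnN : n < K.N := by omega
  rw [K.S_succ n hnN] at hn4
  have hja : j = K.a n := by
    by_contra hcon
    exact hn4 (Finset.mem_insert_of_mem (Finset.mem_erase.mpr ⟨hcon, hn3⟩))
  have hij : i ≠ j := fun h => i1 (h ▸ j1)
  by_cases hib : i = K.b n
  · have := K.x_lt n hnN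
    rw [← hib, ← hja, hx] at this
    exact lt_irrefl _ this
  · apply K.third n hnN i (fun h => hij (h.trans hja.symm)) hib
    rw [← hja, hx, hy]

end Pool.Agent.Work.MP_e17eac_co.SK

end

section

set_option autoImplicit false

namespace Pool.Agent.Work.MP_e17eac_co.SK

open Finset
open Pool.Agent.Work.MP_e17eac_co.DH

namespace XORD

variable {ι : Type} [Fintype ι] [DecidableEq ι]

theorem t_le (K : KSys ι) {n k : ℕ} (h : n ≤ k) (hk : k < K.N) : K.t n ≤ K.t k := by
  rcases h.lt_or_eq with h' | h'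
  · exact (K.t_lt n k h' hk).le
  · rw [h']

end XORD

open XORD in
theorem I_ORD : StOrd := by
  intro ι _ _ K n m hn hm
  have hx := K.x_lt n hn
  have hmeet := K.meet n hn
  refine ⟨fun hnm hb ha => ?_, fun hmn ha hb => ?_⟩
  · have hne : m ≠ n + 1 := by
      intro h
      apply hb
      rw [h, K.S_succ n hn]
      exact mem_insert_self _ _
    have h1 : n < m - 1 := by omega
    have h2 : m - 1 < K.N := by omega
    have v1 : ∀ k, k < m → K.t k ≤ K.t (m - 1) := fun k hk => t_le K (by omega) h2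
    have v2 : ∀ k, m ≤ k → k < K.N → K.t (m - 1) ≤ K.t k := fun k hk hk' =>
      t_le K (by omega) hk'
    have e1 := K.below m hm (K.t (m - 1)) v1 v2 _ ha
    have e2 := K.above m hm (K.t (m - 1)) v1 v2 _ hb
    have e3 := K.t_lt n (m - 1) h1 h2
    nlinarith [mul_pos (sub_pos.mpr hx) (sub_pos.mpr e3)]
  · have hne : m ≠ n := by
      intro h
      rw [h] at ha
      exact ha (K.a_mem n hn)
    have h1 : m < n := by omega
    have v1 : ∀ k, k < m → K.t k ≤ K.t m := fun k hk => t_le K (by omega) (by omega)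
    have v2 : ∀ k, m ≤ k → k < K.N → K.t m ≤ K.t k := fun k hk hk' => t_le K hk hk'
    have e1 := K.below m hm (K.t m) v1 v2 _ hb
    have e2 := K.above m hm (K.t m) v1 v2 _ ha
    have e3 := K.t_lt m n h1 hn
    nlinarith [mul_pos (sub_pos.mpr hx) (sub_pos.mpr e3)]

end Pool.Agent.Work.MP_e17eac_co.SK

end

section

namespace Pool.Agent.Work.MP_e17eac_co.SK.XSKEY

open Finset
open Pool.Agent.Work.MP_e17eac_co.DH

variable {ι : Type} [Fintype ι] [DecidableEq ι]

theorem mem_key {K : KSys ι} {W : Finset (ℕ × ℕ)} {i : ι} {z : (ℕ × ℕ) × Bool} :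
    z ∈ key K W i ↔ z.1 ∈ W ∧ chi K z.1 z.2 i := by
  classical
  unfold key
  simp only [mem_filter, mem_product, mem_univ, and_true]

end Pool.Agent.Work.MP_e17eac_co.SK.XSKEY

namespace Pool.Agent.Work.MP_e17eac_co.SK

open Finset
open Pool.Agent.Work.MP_e17eac_co.DH
open XSKEY

theorem I_SKEY : StSKey := by
  classical
  intro ι β _ _ K κ W hW hK i j hij
  by_cases hκ : κ i = κ j
  · have hkey : key K (W (κ i)) i ≠ key K (W (κ i)) j := by
      intro h
      apply hij
      show ((κ i, key K (W (κ i)) i) : β × Finset ((ℕ × ℕ) × Bool)) = (κ j, key K (W (κ j)) j)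
      rw [← hκ, h]
    have hex : ∃ z, ¬ (z ∈ key K (W (κ i)) i ↔ z ∈ key K (W (κ i)) j) := by
      by_contra hcon
      push Not at hcon
      exact hkey (Finset.ext (fun z => hcon z))
    obtain ⟨⟨c, s⟩, hz⟩ := hex
    rw [mem_key, mem_key] at hz
    have hcW : c ∈ W (κ i) := by
      by_contra hc
      exact hz (by simp [hc])
    refine ⟨c, s, hW _ c hcW, ?_, ?_, ?_⟩
    · intro i' hi'
      have h1 : κ i' = κ i := congrArg Prod.fst hi'
      have h2 : key K (W (κ i')) i' = key K (W (κ i)) i := congrArg Prod.snd hi'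
      rw [h1] at h2
      have h3 : ((c, s) ∈ key K (W (κ i)) i' ↔ (c, s) ∈ key K (W (κ i)) i) := by rw [h2]
      rw [mem_key, mem_key] at h3
      simpa [hcW] using h3
    · intro j' hj'
      have h1 : κ j' = κ j := congrArg Prod.fst hj'
      have h2 : key K (W (κ j')) j' = key K (W (κ j)) j := congrArg Prod.snd hj'
      rw [h1] at h2
      have h3 : ((c, s) ∈ key K (W (κ j)) j' ↔ (c, s) ∈ key K (W (κ j)) j) := by rw [h2]
      rw [mem_key, mem_key] at h3
      have hcW' : c ∈ W (κ j) := hκ ▸ hcW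
      simpa [hcW'] using h3
    · intro h
      apply hz
      simp [hcW, h]
  · obtain ⟨c, s, hc, h1, h2, h3⟩ := hK i j hκ
    exact ⟨c, s, hc, fun i' hi' => h1 i' (congrArg Prod.fst hi'),
      fun j' hj' => h2 j' (congrArg Prod.fst hj'), h3⟩

end Pool.Agent.Work.MP_e17eac_co.SK

end

section

/-!
# Classes met by the tokens in the cells
-/

namespace Pool.Agent.Work.MP_e17eac_co.SK

open Finset
open Pool.Agent.Work.MP_e17eac_co.DH

namespace XTOKCL

/-- Counting pairs fibrewise. -/
theorem cardPair {α γ : Type} [DecidableEq α] [DecidableEq γ] (E : Finset ℕ) (T : ℕ → α)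
    (h : ℕ → γ) : (E.image (fun n => (T n, h n))).card =
      ∑ τ ∈ E.image T, ((E.filter (fun n => T n = τ)).image h).card := by
  rw [Finset.card_eq_sum_card_fiberwise (f := Prod.fst) (t := E.image T)]
  · refine Finset.sum_congr rfl fun τ _ => ?_
    have : (E.image (fun n => (T n, h n))).filter (fun z => z.1 = τ) =
        ((E.filter (fun n => T n = τ)).image h).image (fun y => (τ, y)) := by
      ext z
      simp only [mem_filter, mem_image]
      constructor
      · rintro ⟨⟨n, hn, rfl⟩, hz⟩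
        simp only at hz
        exact ⟨h n, ⟨n, ⟨hn, hz⟩, rfl⟩, by rw [hz]⟩
      · rintro ⟨y, ⟨n, ⟨hn, hT⟩, rfl⟩, rfl⟩
        exact ⟨⟨n, hn, by rw [hT]⟩, rfl⟩
    rw [this, card_image_of_injective _ (fun a b hab => (Prod.mk.inj hab).2)]
  · intro z hz
    obtain ⟨n, hn, rfl⟩ := mem_image.1 (mem_coe.1 hz)
    exact mem_coe.2 (mem_image_of_mem T hn)

theorem gen {α β : Type} [DecidableEq α] [DecidableEq β] (E : Finset ℕ) (T : ℕ → α) (f : ℕ → β)
    (g : ℕ → ℕ) (H : ∀ τ, ((E.filter (fun n => T n = τ)).image (fun n => (g n, f n))).card ≤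
      ((E.filter (fun n => T n = τ)).image g).card +
        2 * ((E.filter (fun n => T n = τ)).image f).card) :
    (E.image (fun n => (g n, T n, f n))).card ≤
      (E.image (fun n => (g n, T n))).card + 2 * (E.image (fun n => (T n, f n))).card := by
  have h1 : (E.image (fun n => (g n, T n, f n))).card =
      (E.image (fun n => (T n, (g n, f n)))).card := by
    have : E.image (fun n => (g n, T n, f n)) =
        (E.image (fun n => (T n, (g n, f n)))).image (fun z => (z.2.1, z.1, z.2.2)) := by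
      rw [image_image]
      rfl
    rw [this]
    refine card_image_of_injective _ ?_
    rintro ⟨a, b, c⟩ ⟨a', b', c'⟩ h
    simp only [Prod.mk.injEq] at h ⊢
    exact ⟨h.2.1, h.1, h.2.2⟩
  have h2 : (E.image (fun n => (g n, T n))).card = (E.image (fun n => (T n, g n))).card := by
    have : E.image (fun n => (g n, T n)) =
        (E.image (fun n => (T n, g n))).image (fun z => (z.2, z.1)) := by
      rw [image_image]
      rfl
    rw [this]
    refine card_image_of_injective _ ?_
    rintro ⟨a, b⟩ ⟨a', b'⟩ h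
    simp only [Prod.mk.injEq] at h ⊢
    exact ⟨h.2, h.1⟩
  rw [h1, h2, cardPair, cardPair, cardPair, Finset.mul_sum, ← Finset.sum_add_distrib]
  exact Finset.sum_le_sum fun τ _ => H τ

end XTOKCL

theorem I_TOKCL (hALT : StAlt) (hALTC : StAltCount) : StTokClasses := by
  intro ι β _ _ _ K κ hκ E g hE hg
  refine ⟨XTOKCL.gen E K.tokB (fun n => κ (K.a n)) g fun τ => ?_,
    XTOKCL.gen E K.tokT (fun n => κ (K.a n)) g fun τ => ?_⟩
  · refine hALTC β _ (fun n => κ (K.a n)) g
      (fun n hn m hm => hg n (mem_filter.1 hn).1 m (mem_filter.1 hm).1) ?_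
    have hp : ∀ n ∈ E.filter (fun n => K.tokB n = τ), n ≤ K.N ∧ κ (K.a n) = κ (K.pos n τ) := by
      intro n hn
      obtain ⟨h1, h2⟩ := mem_filter.1 hn
      refine ⟨(hE n h1).1.le, ?_⟩
      rw [← h2, KSys.tokB, Equiv.apply_symm_apply]
    intro n₁ h1 n₂ h2 n₃ h3 n₄ h4 h12 h23 h34 e13 e24
    simp only [(hp n₁ h1).2, (hp n₂ h2).2, (hp n₃ h3).2, (hp n₄ h4).2] at e13 e24 ⊢
    exact hALT ι β K κ hκ τ n₁ n₂ n₃ n₄ h12 h23 h34 (hp n₄ h4).1 e13 e24
  · refine hALTC β _ (fun n => κ (K.a n)) g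
      (fun n hn m hm => hg n (mem_filter.1 hn).1 m (mem_filter.1 hm).1) ?_
    have hp : ∀ n ∈ E.filter (fun n => K.tokT n = τ), n ≤ K.N ∧ κ (K.a n) = κ (K.pos n τ) := by
      intro n hn
      obtain ⟨h1, h2⟩ := mem_filter.1 hn
      refine ⟨(hE n h1).1.le, ?_⟩
      rw [← h2, KSys.tokT, Equiv.apply_symm_apply]
      exact (hE n h1).2
    intro n₁ h1 n₂ h2 n₃ h3 n₄ h4 h12 h23 h34 e13 e24
    simp only [(hp n₁ h1).2, (hp n₂ h2).2, (hp n₃ h3).2, (hp n₄ h4).2] at e13 e24 ⊢
    exact hALT ι β K κ hκ τ n₁ n₂ n₃ n₄ h12 h23 h34 (hp n₄ h4).1 e13 e24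

end Pool.Agent.Work.MP_e17eac_co.SK

end

section

namespace Pool.Agent.Work.MP_e17eac_co.SK

open Finset
open Pool.Agent.Work.MP_e17eac_co.DH

theorem I_VS : StVs := by
  intro ι _ _ K c hc i
  obtain ⟨h1, h2⟩ := hc
  have hab : ∀ n, n < K.N → K.a n ≠ K.b n := fun n hn h => K.b_mem n hn (h ▸ K.a_mem n hn)
  constructor
  · intro hi
    unfold vs KSys.lines at hi
    rw [mem_union, mem_image, mem_image] at hi
    rcases hi with ⟨n, hn, rfl⟩ | ⟨n, hn, rfl⟩
    · rw [mem_Ico] at hn
      have hN : n < K.N := by omega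
      refine ⟨⟨n + 1, by omega, by omega, ?_⟩, ?_⟩
      · rw [K.S_succ n hN]
        simp [hab n hN]
      · intro h
        exact h n (by omega) (by omega) (K.a_mem n hN)
    · rw [mem_Ico] at hn
      have hN : n < K.N := by omega
      refine ⟨⟨n, by omega, by omega, K.b_mem n hN⟩, ?_⟩
      intro h
      apply h (n + 1) (by omega) (by omega)
      rw [K.S_succ n hN]
      simp
  · rintro ⟨⟨n, hn1, hn2, hn3⟩, h4⟩
    by_contra hi
    have key : ∀ d, c.1 + d ≤ c.2 → (i ∈ K.S (c.1 + d) ↔ i ∈ K.S c.1) := by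
      intro d
      induction d with
      | zero => intro _; simp
      | succ d ih =>
        intro hd
        have hN : c.1 + d < K.N := by omega
        rw [← ih (by omega), ← add_assoc, K.S_succ _ hN]
        have ha : i ≠ K.a (c.1 + d) := by
          rintro h
          apply hi
          unfold vs KSys.lines
          rw [mem_union, mem_image]
          exact Or.inl ⟨c.1 + d, by rw [mem_Ico]; omega, h.symm⟩
        have hb : i ≠ K.b (c.1 + d) := by
          rintro h
          apply hi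
          unfold vs KSys.lines
          rw [mem_union, mem_image, mem_image]
          exact Or.inr ⟨c.1 + d, by rw [mem_Ico]; omega, h.symm⟩
        simp [ha, hb]
    apply h4
    intro m hm1 hm2 hm
    have e1 := key (m - c.1) (by omega)
    have e2 := key (n - c.1) (by omega)
    rw [show c.1 + (m - c.1) = m by omega] at e1
    rw [show c.1 + (n - c.1) = n by omega] at e2
    exact hn3 (e2.2 (e1.1 hm))

end Pool.Agent.Work.MP_e17eac_co.SK

end

section

/-!
# Item PtSwy: the sweep of a level, with all its edges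
-/

namespace Pool.Agent.Work.MP_e17eac_co.PS

open Finset

open Pool.Agent.Work.MP_e17eac_co.DH

namespace XPtSwy

open Pool.Agent.Work.MP_e17eac_co.DH.XSWEEP

section

variable {ι : Type} [Fintype ι] [DecidableEq ι] {x y : ι → ℝ}

theorem main [Nonempty ι] (k : ℕ) (h01 : ∀ i, 0 ≤ x i ∧ x i ≤ 1) (hx : Function.Injective x)
    (hg : GP x y) : ∃ K : KSys ι, K.x = x ∧ K.y = y ∧ (∀ n, n < K.N → (K.b n, K.a n) ∈ EE x y k) ∧
      ∀ e' ∈ EE x y k, ∃ n, n < K.N ∧ (K.b n, K.a n) = e' := by
  classical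
  obtain ⟨t, e, M, he, ht1, hsurj, hM, hM'⟩ := exists_sort hg k
  choose L hL using fun s => exists_level (x := x) (y := y) k s
  set N := (EE x y k).card with hN
  -- times of edges below `t n`
  have hbelow : ∀ n, n ≤ N → ∀ e' ∈ EE x y k, tm x y e' < t n → ∃ m, m < n ∧ m < N ∧ t m = tm x y e' := by
    intro n hn e' he' hlt
    obtain ⟨m, hm, hm'⟩ := hsurj e' he'
    refine ⟨m, ?_, hm, hm'⟩
    rcases lt_trichotomy m n with h | h | h
    · exact h
    · rw [h] at hm'
      linarith
    · have h1 : n < N := h.trans hm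
      have := ht1 n m h hm
      linarith
  have hswap : ∀ n, n < N → B x y k (t (n + 1)) =
      insert (e n).1 ((B x y k (t n)).erase (e n).2) := by
    intro n hn
    obtain ⟨h1, h2⟩ := he n hn
    have h3 : t n < t (n + 1) := by
      by_cases h : n + 1 < N
      · exact ht1 n (n + 1) (Nat.lt_succ_self n) h
      · rw [hM' (n + 1) (not_lt.mp h)]
        exact hM n hn
    have := B_swap hg hx h1 (s' := t (n + 1)) (by rw [h2]; exact h3) (fun e' he' h => by
      obtain ⟨m, h4, h5, h6⟩ := hbelow (n + 1) hn e' he' h.2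
      rw [h2, ← h6] at h
      rcases (Nat.lt_succ_iff.mp h4).lt_or_eq with h7 | h7
      · have := ht1 m n h7 hn
        linarith [h.1]
      · rw [h7] at h
        exact lt_irrefl _ h.1)
    rw [this, h2]
  have hlev : ∀ n, n ≤ N → ∀ s, (∀ k, k < n → t k ≤ s) → (∀ k, n ≤ k → k < N → s ≤ t k) →
      (∀ i ∈ B x y k (t n), ht x y i s ≤ L s) ∧ (∀ i, i ∉ B x y k (t n) → L s ≤ ht x y i s) := by
    intro n hn s h1 h2
    by_cases hcase : ∃ m, m + 1 = n ∧ t m = s
    · obtain ⟨m, rfl, rfl⟩ := hcase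
      have hm : m < N := hn
      obtain ⟨h3, h4⟩ := he m hm
      have a1 : (e m).2 ∈ B x y k (t m) := by
        rw [mem_B, ← h4, R_snd hg hx h3]
      have a2 : (e m).1 ∉ B x y k (t m) := by
        rw [mem_B, ← h4, R_fst hg hx h3]
        omega
      have a3 : ht x y (e m).2 (t m) = ht x y (e m).1 (t m) := by
        rw [← h4]
        exact ht_cm (mem_EE.mp h3).1.ne
      rw [hswap m hm]
      refine ⟨fun i hi => ?_, fun i hi => ?_⟩
      · rcases mem_insert.mp hi with rfl | hi
        · rw [← a3]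
          exact (hL _).1 _ a1
        · exact (hL _).1 _ (mem_of_mem_erase hi)
      · rw [mem_insert, mem_erase, not_or, not_and] at hi
        by_cases hi2 : i = (e m).2
        · rw [hi2, a3]
          exact (hL _).2 _ a2
        · exact (hL _).2 _ (hi.2 hi2)
    · have hB : B x y k s = B x y k (t n) := by
        rcases le_total s (t n) with h3 | h3
        · apply B_const hg hx h3
          rintro e' he' ⟨h4, h5⟩
          obtain ⟨m, h6, h7, h8⟩ := hbelow n hn e' he' h5
          have h9 := h1 m h6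
          have h10 : t m = s := le_antisymm h9 (by rw [h8]; exact h4)
          rcases (Nat.succ_le_iff.mpr h6).lt_or_eq with h11 | h11
          · -- a later edge before `n`
            have h12 := h1 (m + 1) h11
            have h13 := ht1 m (m + 1) (Nat.lt_succ_self m) (by omega)
            linarith
          · exact hcase ⟨m, h11, h10⟩
        · symm
          apply B_const hg hx h3
          rintro e' he' ⟨h4, h5⟩
          obtain ⟨m, h6, h7⟩ := hsurj e' he'
          by_cases h8 : n ≤ m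
          · have := h2 m h8 h6
            linarith
          · push Not at h8
            by_cases h9 : n < N
            · have := ht1 m n h8 h9
              linarith
            · have h10 := hM m h6
              rw [hM' n (not_lt.mp h9)] at h4
              linarith
      rw [← hB]
      exact hL s
  refine ⟨{ x := x, y := y, N := N, t := t, a := fun n => (e n).2, b := fun n => (e n).1,
            S := fun n => B x y k (t n), L := L
            x_nonneg := fun i => (h01 i).1
            x_le_one := fun i => (h01 i).2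
            t_lt := ht1
            a_mem := fun n hn => ?_
            b_mem := fun n hn => ?_
            S_succ := hswap
            x_lt := fun n hn => (mem_EE.mp (he n hn).1).1
            meet := fun n hn => ?_
            third := fun n hn i h1 h2 => ?_
            below := fun n hn s h1 h2 => (hlev n hn s h1 h2).1
            above := fun n hn s h1 h2 => (hlev n hn s h1 h2).2 }, rfl, rfl,
              fun n hn => (he n hn).1, fun e' he' => ?_⟩
  · obtain ⟨h3, h4⟩ := he n hn
    rw [mem_B, ← h4, R_snd hg hx h3]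
  · obtain ⟨h3, h4⟩ := he n hn
    rw [mem_B, ← h4, R_fst hg hx h3]
    omega
  · obtain ⟨h3, h4⟩ := he n hn
    show ht x y (e n).2 (t n) = ht x y (e n).1 (t n)
    rw [← h4]
    exact ht_cm (mem_EE.mp h3).1.ne
  · obtain ⟨h3, h4⟩ := he n hn
    have h5 := (mem_EE.mp h3).1
    show ht x y i (t n) ≠ ht x y (e n).2 (t n)
    intro h6
    refine hg.conc (i := (e n).2) (j := (e n).1) (l := i) (fun h => ?_) (Ne.symm h1) (Ne.symm h2)
      (s := t n) ?_ h6
    · rw [h] at h5
      exact lt_irrefl _ h5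
    · rw [← h4]
      exact (ht_cm h5.ne).symm
  · obtain ⟨n, hn, hn'⟩ := hsurj e' he'
    refine ⟨n, hn, ?_⟩
    obtain ⟨h3, h4⟩ := he n hn
    exact EE_inj hg h3 he' (h4.trans hn')

lemma cnt_eq {i j : ι} (h : x i < x j) : cnt x y i j = lvl x y i j := by
  classical
  unfold cnt lvl
  congr 1
  ext l
  simp only [mem_filter, mem_univ, true_and]
  have hD : 0 < x j - x i := by linarith
  have e1 : ht x y l (cm x y i j) - ht x y i (cm x y i j) = det3 x y i j l / (x j - x i) := by
    unfold ht cm det3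
    field_simp
    ring
  constructor
  · intro h3
    by_contra h4
    have : 0 ≤ det3 x y i j l / (x j - x i) := div_nonneg (by linarith) hD.le
    linarith
  · intro h3
    have : det3 x y i j l / (x j - x i) < 0 := div_neg_of_neg_of_pos h3 hD
    linarith

end

end XPtSwy

/-- Item PtSwy. -/
theorem I_PtSwy : StSweepY := by
  intro ι _ _ _ x y k h01 hx hg
  obtain ⟨K, h1, h2, h3, h4⟩ := XPtSwy.main (x := x) (y := y) k h01 hx
    (fun i j l a b c h => hg i j l a b c (by unfold det3; linarith))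
  refine ⟨K, h1, h2, fun n hn => ?_, fun i j hij hl => ?_⟩
  · obtain ⟨h5, h6⟩ := XSWEEP.mem_EE.mp (h3 n hn)
    rw [← XPtSwy.cnt_eq h5]
    exact h6
  · obtain ⟨n, hn, h5⟩ := h4 (i, j) (XSWEEP.mem_EE.mpr ⟨hij, by rw [XPtSwy.cnt_eq hij]; exact hl⟩)
    rw [Prod.mk.injEq] at h5
    exact ⟨n, hn, h5.1, h5.2⟩

end Pool.Agent.Work.MP_e17eac_co.PS

end
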