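import Pool.Agent.Work.MP_e17eac_co.PS.T2St
import Pool.Agent.Work.MP_e17eac_co.Bd.B12

/-! Bundle of small proof modules (one section per former module). -/

section

/-!
# Arbitrary sets (master extraction, notes 2808, 2810): basic definitions

All cells are *mass* cells: index intervals of the sweep. `IsCells K M c`: the function `c` cuts the
edges `0, .., N-1` into at most `M` index intervals of about `N / M` edges.
-/

namespace Pool.Agent.Work.MP_e17eac_co.MX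

open Finset
open Pool.Agent.Work.MP_e17eac_co.DH

variable {ι : Type} [Fintype ι] [DecidableEq ι]

/-- The lines visited in the index window `[p, q)`. -/
def vi (K : KSys ι) (p q : ℕ) : Finset ι := K.lines (Ico p q)

/-- The lines visited by the edges of the class `k` of `c`. -/
def vf (K : KSys ι) (c : ℕ → ℕ) (k : ℕ) : Finset ι :=
  K.lines ((range K.N).filter (fun n => c n = k))

/-- The mass cell (among `M` cells of equal mass) of the edge `n`. -/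
def mc (K : KSys ι) (M n : ℕ) : ℕ := n * M / K.N

/-- A partition of the edges into at most `M` index intervals of about `N / M` edges. -/
structure IsCells (K : KSys ι) (M : ℕ) (c : ℕ → ℕ) : Prop where
  mono : ∀ n m, n ≤ m → m < K.N → c n ≤ c m
  lt : ∀ n, n < K.N → c n < M
  size : ∀ k, ((range K.N).filter (fun n => c n = k)).card * M ≤ K.N + 2 * M

/-- `cp` refines `c`. -/
def Ref (K : KSys ι) (c cp : ℕ → ℕ) : Prop :=
  ∀ n m, n < K.N → m < K.N → cp n = cp m → c n = c m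

/-- First edge of the class of `n`. -/
noncomputable def lo (c : ℕ → ℕ) (n : ℕ) : ℕ := sInf {m | c m = c n}

/-- Last edge of the class of `n`. -/
def hi (K : KSys ι) (c : ℕ → ℕ) (n : ℕ) : ℕ :=
  ((range K.N).filter (fun m => c m = c n)).sup id

/-- Time length of the class of `n` (from its first to its last edge). -/
noncomputable def len (K : KSys ι) (c : ℕ → ℕ) (n : ℕ) : ℝ := K.t (hi K c n) - K.t (lo c n)

/-- Time between the classes of `k` and `l` (`k` before `l`). -/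
noncomputable def gap (K : KSys ι) (c : ℕ → ℕ) (k l : ℕ) : ℝ := K.t (lo c l) - K.t (hi K c k)

/-- Time length of the hull of the classes of `k` and `l` (`k` before `l`). -/
noncomputable def hull (K : KSys ι) (c : ℕ → ℕ) (k l : ℕ) : ℝ := K.t (hi K c l) - K.t (lo c k)

/-- `k`, `l` lie in two different children (`cp`) of the same cell (`c`), are edges of the same
line `a`, and the gap between the two children is at least `hull / Q`. -/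
def GoodP (K : KSys ι) (c cp : ℕ → ℕ) (Q : ℝ) (k l : ℕ) : Prop :=
  K.a k = K.a l ∧ c k = c l ∧ cp k < cp l ∧ hull K cp k l ≤ Q * gap K cp k l

/-- The edge `n` has a good pair among the edges of `E`. -/
def HasGood (K : KSys ι) (c cp : ℕ → ℕ) (Q : ℝ) (E : Finset ℕ) (n : ℕ) : Prop :=
  ∃ k ∈ E, ∃ l ∈ E, K.a k = K.a n ∧ c k = c n ∧ GoodP K c cp Q k l

end Pool.Agent.Work.MP_e17eac_co.MX

end

section

/-!
# The base cell: combinatorial part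
-/

namespace Pool.Agent.Work.MP_e17eac_co.PS

open Finset
open Pool.Agent.Work.MP_e17eac_co.DH

namespace XBase1

variable {ι : Type} [Fintype ι] [DecidableEq ι]

/-- coarser cells -/
lemma cell_div (K : KSys ι) (Q a r n : ℕ) (hQ : 1 ≤ Q) :
    K.cell Q a n = K.cell Q (a + r) n / Q ^ r := by
  unfold KSys.cell
  rw [← Nat.floor_div_natCast]
  congr 1
  have : (0 : ℝ) < (Q : ℝ) ^ r := by
    have : (0 : ℝ) < Q := by exact_mod_cast hQ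
    positivity
  push_cast
  rw [pow_add]
  field_simp

/-- `cell` determines the coarser cells -/
lemma cell_eq (K : KSys ι) (Q a r n k : ℕ) (hQ : 1 ≤ Q)
    (h : K.cell Q (a + r) n = K.cell Q (a + r) k) : K.cell Q a n = K.cell Q a k := by
  rw [cell_div K Q a r n hQ, cell_div K Q a r k hQ, h]

/-- number of cells is monotone -/
lemma im_mono (K : KSys ι) (Q : ℕ) (hQ : 1 ≤ Q) (E : Finset ℕ) (a r : ℕ) :
    im E (K.cell Q a) ≤ im E (K.cell Q (a + r)) := by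
  unfold im
  have : E.image (K.cell Q a) = (E.image (K.cell Q (a + r))).image (fun c => c / Q ^ r) := by
    rw [image_image]
    apply image_congr
    intro n _
    exact cell_div K Q a r n hQ
  rw [this]
  exact card_image_le

/-- number of cells grows by at most `Q` -/
lemma im_step (K : KSys ι) (Q : ℕ) (hQ : 1 ≤ Q) (E : Finset ℕ) (a : ℕ) :
    im E (K.cell Q (a + 1)) ≤ Q * im E (K.cell Q a) := by
  unfold im
  calc (E.image (K.cell Q (a + 1))).card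
      ≤ ((E.image (K.cell Q a)) ×ˢ (range Q)).card := by
        refine card_le_card_of_injOn (fun c => (c / Q, c % Q)) ?_ ?_
        · intro c hc
          rw [mem_coe, mem_image] at hc
          obtain ⟨n, hn, rfl⟩ := hc
          rw [mem_coe, mem_product]
          refine ⟨?_, mem_range.2 (Nat.mod_lt _ hQ)⟩
          have := cell_div K Q a 1 n hQ
          rw [pow_one] at this
          simp only
          rw [← this]
          exact mem_image_of_mem _ hn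
        · intro c _ c' _ h
          rw [Prod.mk.injEq] at h
          rw [← Nat.div_add_mod c Q, h.1, h.2, Nat.div_add_mod]
    _ = Q * (E.image (K.cell Q a)).card := by
        rw [card_product, card_range, mul_comm]

lemma im_zero (K : KSys ι) (Q : ℕ) (E : Finset ℕ) (hE : E.Nonempty)
    (h : ∀ n ∈ E, 0 ≤ K.t n ∧ K.t n < 1) : im E (K.cell Q 0) = 1 := by
  unfold im
  have : E.image (K.cell Q 0) = {0} := by
    ext c
    rw [mem_image, mem_singleton]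
    constructor
    · rintro ⟨n, hn, rfl⟩
      unfold KSys.cell
      rw [pow_zero, mul_one]
      exact Nat.floor_eq_zero.2 (h n hn).2
    · rintro rfl
      obtain ⟨n, hn⟩ := hE
      refine ⟨n, hn, ?_⟩
      unfold KSys.cell
      rw [pow_zero, mul_one]
      exact Nat.floor_eq_zero.2 (h n hn).2
  rw [this, card_singleton]

/-- cells are windows -/
lemma cell_window (K : KSys ι) (Q a n : ℕ) (hQ : 1 ≤ Q) (h0 : 0 ≤ K.t n) :
    ((K.cell Q a n : ℕ) : ℝ) / (Q : ℝ) ^ a ≤ K.t n ∧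
    K.t n < (((K.cell Q a n : ℕ) : ℝ) + 1) / (Q : ℝ) ^ a := by
  have hp : (0 : ℝ) < (Q : ℝ) ^ a := by
    have : (0 : ℝ) < Q := by exact_mod_cast hQ
    positivity
  constructor
  · rw [div_le_iff₀ hp]
    exact Nat.floor_le (by positivity)
  · rw [lt_div_iff₀ hp]
    exact Nat.lt_floor_add_one _

lemma windows_disj (Q a : ℕ) (hQ : 1 ≤ Q) (c c' : ℕ) (h : c ≠ c') :
    ((c : ℝ) + 1) / (Q : ℝ) ^ a ≤ (c' : ℝ) / (Q : ℝ) ^ a ∨
    ((c' : ℝ) + 1) / (Q : ℝ) ^ a ≤ (c : ℝ) / (Q : ℝ) ^ a := by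
  have hp : (0 : ℝ) < (Q : ℝ) ^ a := by
    have : (0 : ℝ) < Q := by exact_mod_cast hQ
    positivity
  rcases lt_or_gt_of_ne h with h | h
  · left
    apply div_le_div_of_nonneg_right _ hp.le
    exact_mod_cast h
  · right
    apply div_le_div_of_nonneg_right _ hp.le
    exact_mod_cast h

/-- The window of the cell `c` of level `l`. -/
noncomputable def wv (K : KSys ι) (Q l c : ℕ) : ℝ :=
  ((visI K ((c : ℝ) / (Q : ℝ) ^ l) (((c : ℝ) + 1) / (Q : ℝ) ^ l)).card : ℝ)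

lemma wv_nonneg (K : KSys ι) (Q l c : ℕ) : 0 ≤ wv K Q l c := by
  unfold wv
  positivity

/-- **Averaging**: a cell of level `a` which is good for all the levels `a + κ i`. -/
lemma average (K : KSys ι) (Q : ℕ) (hQ : 1 ≤ Q) (E : Finset ℕ) (hE : E.Nonempty) (a κ J : ℕ)
    (w : ℕ → ℝ) (hw : ∀ i, 0 < w i)
    (hT : ∀ i, i ≤ J → ∑ c ∈ E.image (K.cell Q (a + κ * i)), wv K Q (a + κ * i) c ≤ w i) :
    ∃ I ∈ E.image (K.cell Q a), ∀ i, i ≤ J →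
      (∑ c ∈ (E.filter (fun n => K.cell Q a n = I)).image (K.cell Q (a + κ * i)),
        wv K Q (a + κ * i) c) * (im E (K.cell Q a) : ℝ) ≤ (J + 1) * w i := by
  classical
  obtain ⟨S, hS⟩ : ∃ S : ℕ → ℕ → ℝ, ∀ I i, S I i =
      ∑ c ∈ (E.filter (fun n => K.cell Q a n = I)).image (K.cell Q (a + κ * i)),
        wv K Q (a + κ * i) c := ⟨_, fun _ _ => rfl⟩
  have hS0 : ∀ I i, 0 ≤ S I i := by
    intro I i
    rw [hS]
    exact sum_nonneg fun c _ => wv_nonneg K Q _ c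
  have hsum : ∀ i, i ≤ J → ∑ I ∈ E.image (K.cell Q a), S I i ≤ w i := by
    intro i hi
    refine le_trans ?_ (hT i hi)
    simp only [hS]
    rw [← sum_biUnion]
    · apply sum_le_sum_of_subset_of_nonneg
      · intro c hc
        rw [mem_biUnion] at hc
        obtain ⟨I, _, hc⟩ := hc
        obtain ⟨n, hn, rfl⟩ := mem_image.1 hc
        exact mem_image_of_mem _ (mem_filter.1 hn).1
      · intro c _ _
        exact wv_nonneg K Q _ c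
    · intro I _ I' _ hne
      rw [Function.onFun, disjoint_left]
      intro c hc hc'
      obtain ⟨n, hn, h1⟩ := mem_image.1 hc
      obtain ⟨n', hn', h2⟩ := mem_image.1 hc'
      apply hne
      rw [← (mem_filter.1 hn).2, ← (mem_filter.1 hn').2]
      exact cell_eq K Q a (κ * i) n n' hQ (h1.trans h2.symm)
  have hpos : (0 : ℝ) < im E (K.cell Q a) := by
    unfold im
    exact_mod_cast (hE.image _).card_pos
  have htot : ∑ I ∈ E.image (K.cell Q a), ∑ i ∈ range (J + 1), S I i / w i ≤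
      ∑ I ∈ E.image (K.cell Q a), ((J : ℝ) + 1) / (im E (K.cell Q a) : ℝ) := by
    rw [sum_comm, sum_const, nsmul_eq_mul]
    have h1 : ((E.image (K.cell Q a)).card : ℝ) * (((J : ℝ) + 1) / (im E (K.cell Q a) : ℝ)) =
        (J : ℝ) + 1 := by
      unfold im at hpos ⊢
      field_simp
    rw [h1]
    calc ∑ i ∈ range (J + 1), ∑ I ∈ E.image (K.cell Q a), S I i / w i
        ≤ ∑ i ∈ range (J + 1), (1 : ℝ) := by
          refine sum_le_sum fun i hi => ?_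
          rw [← sum_div, div_le_one (hw i)]
          exact hsum i (Nat.lt_succ_iff.1 (mem_range.1 hi))
      _ = (J : ℝ) + 1 := by
          rw [sum_const, card_range, nsmul_eq_mul]
          push_cast
          ring
  obtain ⟨I, hI, hle⟩ := exists_le_of_sum_le (hE.image _) htot
  refine ⟨I, hI, fun i hi => ?_⟩
  have h1 : S I i / w i ≤ ((J : ℝ) + 1) / (im E (K.cell Q a) : ℝ) := by
    refine le_trans ?_ hle
    exact single_le_sum (f := fun i => S I i / w i)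
      (fun i _ => div_nonneg (hS0 I i) (hw i).le) (mem_range.2 (by omega))
  rw [div_le_div_iff₀ (hw i) hpos, hS] at h1
  exact h1

/-- cells after rescaling -/
lemma cell_resc (K : KSys ι) (Q0 κ a I i n : ℕ) (hQ : 1 ≤ Q0)
    (hR : 0 < 1 / (Q0 : ℝ) ^ a) :
    (K.resc ((I : ℝ) / (Q0 : ℝ) ^ a) (1 / (Q0 : ℝ) ^ a) hR).cell (Q0 ^ κ) i n =
      K.cell Q0 (a + κ * i) n - I * Q0 ^ (κ * i) := by
  have hq : (0 : ℝ) < Q0 := by exact_mod_cast hQ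
  have hp : (0 : ℝ) < (Q0 : ℝ) ^ a := by positivity
  unfold KSys.cell
  rw [← Nat.floor_sub_natCast]
  congr 1
  change (K.t n - (I : ℝ) / (Q0 : ℝ) ^ a) / (1 / (Q0 : ℝ) ^ a) * (((Q0 ^ κ : ℕ) : ℝ)) ^ i = _
  push_cast
  rw [pow_add, pow_mul]
  field_simp

end XBase1

open XBase1 in
/-- **The base cell** from a regular set of edges. -/
theorem base_of {ι : Type} [Fintype ι] [DecidableEq ι] (K : KSys ι) (m : ℝ) (hm : 1 ≤ m)
    (hsep : K.Sep m) (Q0 κ a J Q : ℕ) (hQ0 : 2 ≤ Q0) (hκ : 1 ≤ κ) (hQ : Q = Q0 ^ κ)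
    (s Λ C n W : ℝ) (hs0 : 0 < s) (hs1 : s ≤ 1) (hC : 0 < C) (hn : 0 < n)
    (E' : Finset ℕ) (hE' : E'.Nonempty) (hsub : ∀ k ∈ E', k < K.N ∧ 0 ≤ K.t k ∧ K.t k < 1)
    (hΛ : 1 ≤ Λ) (hreg : ∀ i, i ≤ J → RegF Λ E' (K.cell Q0 (a + κ * i)))
    (hup : ∀ i, i ≤ J → (im E' (K.cell Q0 (a + κ * i)) : ℝ) ≤
      Q * (Q : ℝ) ^ (s * i) * im E' (K.cell Q0 a))
    (hlo : ∀ i, i ≤ J → (im E' (K.cell Q0 a) : ℝ) * (Q : ℝ) ^ (s * i) ≤
      Q * im E' (K.cell Q0 (a + κ * i)))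
    (hΛQ : Λ ^ 2 ≤ Q) (hCQ : (J + 1) * C ≤ Q)
    (hT : ∀ i, i ≤ J → ∑ c ∈ E'.image (K.cell Q0 (a + κ * i)), wv K Q0 (a + κ * i) c ≤
      C * n * (im E' (K.cell Q0 (a + κ * i)) : ℝ) ^ ((1 : ℝ) / 4))
    (hbig : n ^ ((4 : ℝ) / 3) * Λ ≤ Q * (E'.card : ℝ))
    (hW : W = n / (im E' (K.cell Q0 a) : ℝ) ^ ((3 : ℝ) / 4)) (hW1 : 1 ≤ W) :
    ∃ (E : Finset ℕ) (c R : ℝ) (hR : 0 < R), Base (K.resc c R hR) Q J s W m E := by
  classical
  have hQ01 : 1 ≤ Q0 := by omega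
  have hQ2 : 2 ≤ Q := by
    rw [hQ]
    calc 2 ≤ Q0 := hQ0
      _ = Q0 ^ 1 := (pow_one _).symm
      _ ≤ Q0 ^ κ := Nat.pow_le_pow_right hQ01 hκ
  have hQr : (2 : ℝ) ≤ Q := by exact_mod_cast hQ2
  have hQpos : (0 : ℝ) < Q := by linarith
  obtain ⟨M, hM⟩ : ∃ M : ℕ → ℝ, ∀ i, M i = (im E' (K.cell Q0 (a + κ * i)) : ℝ) :=
    ⟨_, fun _ => rfl⟩
  have hMpos : ∀ i, 1 ≤ M i := by
    intro i
    rw [hM]
    unfold im
    exact_mod_cast (hE'.image _).card_pos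
  obtain ⟨Ma, hMa⟩ : ∃ Ma : ℝ, Ma = (im E' (K.cell Q0 a) : ℝ) := ⟨_, rfl⟩
  have hMa1 : 1 ≤ Ma := by
    rw [hMa]
    unfold im
    exact_mod_cast (hE'.image _).card_pos
  have hMa0 : 0 < Ma := by linarith
  simp only [← hM, ← hMa] at hup hlo hT hW
  have hp : (0 : ℝ) < (Q0 : ℝ) ^ a := by
    have : (0 : ℝ) < Q0 := by exact_mod_cast hQ01
    positivity
  obtain ⟨I, hI, hav⟩ := average K Q0 hQ01 E' hE' a κ J (fun i => C * n * M i ^ ((1 : ℝ) / 4))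
    (fun i => by have := hMpos i; positivity) hT
  rw [← hMa] at hav
  obtain ⟨n0, hn0, hn0I⟩ := mem_image.1 hI
  obtain ⟨E, hE⟩ : ∃ E : Finset ℕ, E = E'.filter (fun k => K.cell Q0 a k = I) := ⟨_, rfl⟩
  rw [← hE] at hav
  have hn0E : n0 ∈ E := by rw [hE, mem_filter]; exact ⟨hn0, hn0I⟩
  have hR : 0 < 1 / (Q0 : ℝ) ^ a := by positivity
  have hreg0 : RegF Λ E' (K.cell Q0 a) := by
    have := hreg 0 (Nat.zero_le _)
    simpa using this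
  obtain ⟨hr1, hr2⟩ := hreg0 n0 hn0
  rw [hn0I, ← hE, ← hMa] at hr1 hr2
  have hcell : ∀ j k, (K.resc ((I : ℝ) / (Q0 : ℝ) ^ a) (1 / (Q0 : ℝ) ^ a) hR).cell Q j k =
      K.cell Q0 (a + κ * j) k - I * Q0 ^ (κ * j) := by
    intro j k
    rw [hQ]
    exact cell_resc K Q0 κ a I j k hQ01 hR
  have hge : ∀ j, ∀ k ∈ E, I * Q0 ^ (κ * j) ≤ K.cell Q0 (a + κ * j) k := by
    intro j k hk
    rw [hE, mem_filter] at hk
    rw [← hk.2, cell_div K Q0 a (κ * j) k hQ01]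
    exact Nat.div_mul_le_self _ _
  have hEsub : ∀ k ∈ E, k < K.N ∧ 0 ≤ K.t k ∧ K.t k < 1 := fun k hk => by
    rw [hE, mem_filter] at hk
    exact hsub k hk.1
  have hEpos : (0 : ℝ) < E.card := by
    have : 0 < E.card := card_pos.2 ⟨n0, hn0E⟩
    exact_mod_cast this
  have hE'pos : (0 : ℝ) < E'.card := by exact_mod_cast hE'.card_pos
  have hq1 : ∀ j : ℕ, 1 ≤ (Q : ℝ) ^ (s * j) := fun j =>
    Real.one_le_rpow (by linarith) (by positivity)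
  refine ⟨E, (I : ℝ) / (Q0 : ℝ) ^ a, 1 / (Q0 : ℝ) ^ a, hR, ?_⟩
  constructor
  · -- sub
    intro k hk
    obtain ⟨h1, h2, h3⟩ := hEsub k hk
    have hk' := hk
    rw [hE, mem_filter] at hk'
    obtain ⟨h4, h5⟩ := cell_window K Q0 a k hQ01 h2
    rw [hk'.2] at h4 h5
    refine ⟨h1, ?_, ?_⟩
    · exact div_nonneg (by linarith) hR.le
    · change (K.t k - (I : ℝ) / (Q0 : ℝ) ^ a) / (1 / (Q0 : ℝ) ^ a) < 1
      rw [div_lt_one hR]
      have e : ((I : ℝ) + 1) / (Q0 : ℝ) ^ a = (I : ℝ) / (Q0 : ℝ) ^ a + 1 / (Q0 : ℝ) ^ a := by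
        rw [add_div]
      linarith
  · exact ⟨n0, hn0E⟩
  · exact hQ2
  · exact hs0
  · exact hs1
  · exact hm
  · exact hsep
  · exact hW1
  · -- big
    have h1 : W ^ ((4 : ℝ) / 3) = n ^ ((4 : ℝ) / 3) / Ma := by
      rw [hW, Real.div_rpow hn.le (by positivity), ← Real.rpow_mul hMa0.le]
      norm_num
    rw [h1, div_le_iff₀ hMa0]
    have h2 : n ^ ((4 : ℝ) / 3) * Λ ≤ (Q * (E.card : ℝ) * Ma) * Λ := by
      calc n ^ ((4 : ℝ) / 3) * Λ ≤ Q * (E'.card : ℝ) := hbig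
        _ ≤ Q * (Λ * (E.card : ℝ) * Ma) := mul_le_mul_of_nonneg_left hr1 hQpos.le
        _ = (Q * (E.card : ℝ) * Ma) * Λ := by ring
    exact le_of_mul_le_mul_right h2 (by linarith)
  · -- fib
    intro j hj c
    by_cases hne : (E.filter (fun k =>
        (K.resc ((I : ℝ) / (Q0 : ℝ) ^ a) (1 / (Q0 : ℝ) ^ a) hR).cell Q j k = c)).Nonempty
    · obtain ⟨k0, hk0⟩ := hne
      rw [mem_filter] at hk0
      have hk0' := hk0.1
      rw [hE, mem_filter] at hk0'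
      obtain ⟨h1, h2⟩ := hreg j hj k0 hk0'.1
      rw [← hM] at h1 h2
      have h3 : ((E.filter (fun k =>
          (K.resc ((I : ℝ) / (Q0 : ℝ) ^ a) (1 / (Q0 : ℝ) ^ a) hR).cell Q j k = c)).card : ℝ) ≤
          ((E'.filter (fun k => K.cell Q0 (a + κ * j) k = K.cell Q0 (a + κ * j) k0)).card : ℝ) := by
        have : (E.filter (fun k =>
          (K.resc ((I : ℝ) / (Q0 : ℝ) ^ a) (1 / (Q0 : ℝ) ^ a) hR).cell Q j k = c)) ⊆
          (E'.filter (fun k => K.cell Q0 (a + κ * j) k = K.cell Q0 (a + κ * j) k0)) := by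
          intro k hk
          rw [mem_filter] at hk
          have hk' := hk.1
          rw [hE, mem_filter] at hk'
          rw [mem_filter]
          refine ⟨hk'.1, ?_⟩
          have e1 := hk.2
          have e2 := hk0.2
          rw [hcell] at e1 e2
          have g1 := hge j k hk.1
          have g2 := hge j k0 hk0.1
          omega
        exact_mod_cast card_le_card this
      obtain ⟨F, hF⟩ : ∃ F : ℝ, F =
        ((E'.filter (fun k => K.cell Q0 (a + κ * j) k = K.cell Q0 (a + κ * j) k0)).card : ℝ) :=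
        ⟨_, rfl⟩
      rw [← hF] at h2 h3
      have hF0 : 0 ≤ F := by rw [hF]; positivity
      have h4 := hlo j hj
      -- F * M j ≤ Λ |E'| ≤ Λ² |E| Ma, Ma q^{sj} ≤ Q M j
      have h5 : (F * (Q : ℝ) ^ (s * (j : ℝ))) * (M j) ≤ ((Q : ℝ) ^ 2 * (E.card : ℝ)) * M j := by
        have h6 : F * M j ≤ Λ ^ 2 * E.card * Ma := by
          calc F * M j ≤ Λ * E'.card := h2
            _ ≤ Λ * (Λ * E.card * Ma) := mul_le_mul_of_nonneg_left hr1 (by linarith)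
            _ = Λ ^ 2 * E.card * Ma := by ring
        calc (F * (Q : ℝ) ^ (s * (j : ℝ))) * (M j) = (F * M j) * (Q : ℝ) ^ (s * (j : ℝ)) := by ring
          _ ≤ (Λ ^ 2 * E.card * Ma) * (Q : ℝ) ^ (s * (j : ℝ)) :=
              mul_le_mul_of_nonneg_right h6 (by have := hq1 j; linarith)
          _ = (Λ ^ 2 * E.card) * (Ma * (Q : ℝ) ^ (s * (j : ℝ))) := by ring
          _ ≤ (Λ ^ 2 * E.card) * (Q * M j) := mul_le_mul_of_nonneg_left h4 (by positivity)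
          _ ≤ (Q * E.card) * (Q * M j) := by
              apply mul_le_mul_of_nonneg_right _ (by have := hMpos j; positivity)
              exact mul_le_mul_of_nonneg_right hΛQ hEpos.le
          _ = ((Q : ℝ) ^ 2 * (E.card : ℝ)) * M j := by ring
      have h6 := le_of_mul_le_mul_right h5 (by have := hMpos j; linarith)
      refine le_trans ?_ h6
      exact mul_le_mul_of_nonneg_right h3 (by have := hq1 j; linarith)
    · rw [not_nonempty_iff_eq_empty] at hne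
      rw [hne]
      simp only [card_empty, Nat.cast_zero, zero_mul]
      positivity
  · -- act
    intro j hj
    have h1 := I_CNT ℕ ℕ Λ E' (K.cell Q0 a) (K.cell Q0 (a + κ * j)) hΛ hreg0 (hreg j hj)
      (fun k _ k' _ h => cell_eq K Q0 a (κ * j) k k' hQ01 h) n0 hn0
    rw [hn0I, ← hE, ← hM, ← hMa] at h1
    have h2 : (E.image ((K.resc ((I : ℝ) / (Q0 : ℝ) ^ a) (1 / (Q0 : ℝ) ^ a) hR).cell Q j)).card ≤
        im E (K.cell Q0 (a + κ * j)) := by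
      unfold im
      have : E.image ((K.resc ((I : ℝ) / (Q0 : ℝ) ^ a) (1 / (Q0 : ℝ) ^ a) hR).cell Q j) =
          (E.image (K.cell Q0 (a + κ * j))).image (fun c => c - I * Q0 ^ (κ * j)) := by
        rw [image_image]
        exact image_congr fun k _ => hcell j k
      rw [this]
      exact card_image_le
    have h2' : ((E.image ((K.resc ((I : ℝ) / (Q0 : ℝ) ^ a)
        (1 / (Q0 : ℝ) ^ a) hR).cell Q j)).card : ℝ) ≤ (im E (K.cell Q0 (a + κ * j)) : ℝ) := by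
      exact_mod_cast h2
    refine h2'.trans ?_
    have h3 : (im E (K.cell Q0 (a + κ * j)) : ℝ) * Ma ≤
        ((Q : ℝ) ^ 2 * (Q : ℝ) ^ (s * (j : ℝ))) * Ma := by
      calc (im E (K.cell Q0 (a + κ * j)) : ℝ) * Ma ≤ Λ ^ 2 * M j := h1.2
        _ ≤ Q * (Q * (Q : ℝ) ^ (s * j) * Ma) :=
            mul_le_mul hΛQ (hup j hj) (by have := hMpos j; linarith) hQpos.le
        _ = ((Q : ℝ) ^ 2 * (Q : ℝ) ^ (s * (j : ℝ))) * Ma := by ring
    exact le_of_mul_le_mul_right h3 hMa0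
  · -- t2
    intro j hj
    have himg : E.image ((K.resc ((I : ℝ) / (Q0 : ℝ) ^ a) (1 / (Q0 : ℝ) ^ a) hR).cell Q j) =
        (E.image (K.cell Q0 (a + κ * j))).image (fun c => c - I * Q0 ^ (κ * j)) := by
      rw [image_image]
      exact image_congr fun k _ => hcell j k
    rw [himg, sum_image]
    swap
    · intro c hc c' hc' h
      rw [mem_coe] at hc hc'
      obtain ⟨k, hk, rfl⟩ := mem_image.1 hc
      obtain ⟨k', hk', rfl⟩ := mem_image.1 hc'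
      have g1 := hge j k hk
      have g2 := hge j k' hk'
      simp only at h
      omega
    have h1 : ∀ c ∈ E.image (K.cell Q0 (a + κ * j)),
        ((visC (K.resc ((I : ℝ) / (Q0 : ℝ) ^ a) (1 / (Q0 : ℝ) ^ a) hR) Q j
          (c - I * Q0 ^ (κ * j))).card : ℝ) ≤ wv K Q0 (a + κ * j) c := by
      intro c hc
      obtain ⟨k, hk, rfl⟩ := mem_image.1 hc
      have g1 := hge j k hk
      unfold wv
      have hsub' : visC (K.resc ((I : ℝ) / (Q0 : ℝ) ^ a) (1 / (Q0 : ℝ) ^ a) hR) Q j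
          (K.cell Q0 (a + κ * j) k - I * Q0 ^ (κ * j)) ⊆
          visI K (((K.cell Q0 (a + κ * j) k : ℕ) : ℝ) / (Q0 : ℝ) ^ (a + κ * j))
            ((((K.cell Q0 (a + κ * j) k : ℕ) : ℝ) + 1) / (Q0 : ℝ) ^ (a + κ * j)) := by
        have hf : ∀ l, (l < K.N ∧ 0 ≤ (K.t l - (I : ℝ) / (Q0 : ℝ) ^ a) / (1 / (Q0 : ℝ) ^ a) ∧
            (K.resc ((I : ℝ) / (Q0 : ℝ) ^ a) (1 / (Q0 : ℝ) ^ a) hR).cell Q j l =
              K.cell Q0 (a + κ * j) k - I * Q0 ^ (κ * j)) →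
            (((K.cell Q0 (a + κ * j) k : ℕ) : ℝ) / (Q0 : ℝ) ^ (a + κ * j) ≤ K.t l ∧
            K.t l < (((K.cell Q0 (a + κ * j) k : ℕ) : ℝ) + 1) / (Q0 : ℝ) ^ (a + κ * j)) := by
          rintro l ⟨_, h2, h3⟩
          rw [hcell] at h3
          have h4 : (I : ℝ) / (Q0 : ℝ) ^ a ≤ K.t l := by
            by_contra hcon
            push Not at hcon
            have : (K.t l - (I : ℝ) / (Q0 : ℝ) ^ a) / (1 / (Q0 : ℝ) ^ a) < 0 :=
              div_neg_of_neg_of_pos (by linarith) hR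
            linarith
          have h5 : 0 ≤ K.t l := le_trans (by positivity) h4
          have h6 : I ≤ K.cell Q0 a l := by
            unfold KSys.cell
            apply Nat.le_floor
            rwa [div_le_iff₀ hp] at h4
          have h7 : I * Q0 ^ (κ * j) ≤ K.cell Q0 (a + κ * j) l := by
            rw [cell_div K Q0 a (κ * j) l hQ01] at h6
            calc I * Q0 ^ (κ * j) ≤ (K.cell Q0 (a + κ * j) l / Q0 ^ (κ * j)) * Q0 ^ (κ * j) :=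
                  Nat.mul_le_mul_right _ h6
              _ ≤ _ := Nat.div_mul_le_self _ _
          have h8 : K.cell Q0 (a + κ * j) l = K.cell Q0 (a + κ * j) k := by omega
          have h9 := cell_window K Q0 (a + κ * j) l hQ01 h5
          rw [h8] at h9
          exact h9
        unfold visC visI
        unfold KSys.lines
        apply union_subset_union
        · intro i hi
          obtain ⟨l, hl, rfl⟩ := mem_image.1 hi
          rw [mem_filter, mem_range] at hl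
          exact mem_image_of_mem K.a (mem_filter.2 ⟨mem_range.2 hl.1, hf l ⟨hl.1, hl.2.1, hl.2.2⟩⟩)
        · intro i hi
          obtain ⟨l, hl, rfl⟩ := mem_image.1 hi
          rw [mem_filter, mem_range] at hl
          exact mem_image_of_mem K.b (mem_filter.2 ⟨mem_range.2 hl.1, hf l ⟨hl.1, hl.2.1, hl.2.2⟩⟩)
      exact_mod_cast card_le_card hsub'
    refine (sum_le_sum h1).trans ?_
    have h2 := hav j hj
    have h3 : M j ^ ((1 : ℝ) / 4) ≤ ((Q : ℝ) * (Q : ℝ) ^ (s * (j : ℝ) / 4)) * Ma ^ ((1 : ℝ) / 4) := by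
      calc M j ^ ((1 : ℝ) / 4) ≤ (Q * (Q : ℝ) ^ (s * j) * Ma) ^ ((1 : ℝ) / 4) :=
            Real.rpow_le_rpow (by have := hMpos j; linarith) (hup j hj) (by norm_num)
        _ = ((Q : ℝ) ^ ((1 : ℝ) / 4) * ((Q : ℝ) ^ (s * j)) ^ ((1 : ℝ) / 4)) *
              Ma ^ ((1 : ℝ) / 4) := by
            rw [Real.mul_rpow (by positivity) hMa0.le, Real.mul_rpow hQpos.le (by positivity)]
        _ ≤ ((Q : ℝ) * (Q : ℝ) ^ (s * (j : ℝ) / 4)) * Ma ^ ((1 : ℝ) / 4) := by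
            apply mul_le_mul_of_nonneg_right _ (by positivity)
            rw [← Real.rpow_mul hQpos.le]
            have e : s * (j : ℝ) * (1 / 4) = s * (j : ℝ) / 4 := by ring
            rw [e]
            apply mul_le_mul_of_nonneg_right _ (by positivity)
            calc (Q : ℝ) ^ ((1 : ℝ) / 4) ≤ (Q : ℝ) ^ (1 : ℝ) :=
                  Real.rpow_le_rpow_of_exponent_le (by linarith) (by norm_num)
              _ = Q := Real.rpow_one _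
    have h4 : n * Ma ^ ((1 : ℝ) / 4) = W * Ma := by
      rw [hW, div_mul_eq_mul_div, eq_div_iff (by positivity), mul_assoc, ← Real.rpow_add hMa0]
      norm_num
    have h5 : (∑ c ∈ E.image (K.cell Q0 (a + κ * j)), wv K Q0 (a + κ * j) c) * Ma ≤
        ((Q : ℝ) ^ 2 * W * (Q : ℝ) ^ (s * (j : ℝ) / 4)) * Ma := by
      calc _ ≤ ((J : ℝ) + 1) * (C * n * M j ^ ((1 : ℝ) / 4)) := h2
        _ = (((J : ℝ) + 1) * C) * (n * M j ^ ((1 : ℝ) / 4)) := by ring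
        _ ≤ Q * (n * (((Q : ℝ) * (Q : ℝ) ^ (s * (j : ℝ) / 4)) * Ma ^ ((1 : ℝ) / 4))) := by
            apply mul_le_mul hCQ _ (by have := hMpos j; positivity) hQpos.le
            exact mul_le_mul_of_nonneg_left h3 hn.le
        _ = (Q : ℝ) ^ 2 * (Q : ℝ) ^ (s * (j : ℝ) / 4) * (n * Ma ^ ((1 : ℝ) / 4)) := by ring
        _ = ((Q : ℝ) ^ 2 * W * (Q : ℝ) ^ (s * (j : ℝ) / 4)) * Ma := by rw [h4]; ring
    exact le_of_mul_le_mul_right h5 hMa0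

end Pool.Agent.Work.MP_e17eac_co.PS

end

section

/-!
# Arbitrary sets, block GP (note 2808): statements

The GOOD PAIR LEMMA and its ingredients.
-/

namespace Pool.Agent.Work.MP_e17eac_co.MX

open Finset
open Pool.Agent.Work.MP_e17eac_co.DH
open Pool.Agent.Work.MP_e17eac_co.DH.XSWEEP (GP)

/-- Mass cells. -/
def StMc : Prop := ∀ (ι : Type) [Fintype ι] [DecidableEq ι] (K : KSys ι) (M : ℕ), 0 < M →
  IsCells K M (mc K M) ∧ ∀ M' : ℕ, 0 < M' → ∀ n, mc K (M * M') n / M' = mc K M n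

/-- First and last edge of a class. -/
def StLoHi : Prop := ∀ (ι : Type) [Fintype ι] [DecidableEq ι] (K : KSys ι) (M : ℕ) (c : ℕ → ℕ),
  IsCells K M c → ∀ n, n < K.N →
    lo c n ≤ n ∧ n ≤ hi K c n ∧ hi K c n < K.N ∧ c (lo c n) = c n ∧ c (hi K c n) = c n ∧
    (∀ m, m < K.N → (c m = c n ↔ lo c n ≤ m ∧ m ≤ hi K c n)) ∧
    (∀ m, m < K.N → (c m < c n ↔ m < lo c n)) ∧ (∀ m, m < K.N → (c n < c m ↔ hi K c n < m)) ∧
    (hi K c n + 1 - lo c n) * M ≤ K.N + 2 * M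

/-- Halving tree of a partition. -/
def StHalve : Prop := ∀ (ι : Type) [Fintype ι] [DecidableEq ι] (K : KSys ι) (M : ℕ) (c : ℕ → ℕ),
  0 < M → IsCells K M c → ∃ Y : ℕ → ℕ → ℕ, Y 0 = c ∧ ∀ a, IsCells K (M * 2 ^ a) (Y a) ∧
    Ref K (Y a) (Y (a + 1)) ∧
    ∀ n m l, n < K.N → m < K.N → l < K.N → Y a n = Y a m → Y a m = Y a l →
      Y (a + 1) n = Y (a + 1) m ∨ Y (a + 1) m = Y (a + 1) l ∨ Y (a + 1) n = Y (a + 1) l

/-- **T2** for index windows. -/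
def StT2i : Prop := ∃ C : ℝ, 1 ≤ C ∧ ∀ (ι : Type) [Fintype ι] [DecidableEq ι] (K : KSys ι),
  Function.Injective K.x → GP K.x K.y → ∀ (α : Type) (A : Finset α) (p q : α → ℕ),
  (∀ z ∈ A, q z ≤ K.N) → (∀ z ∈ A, ∀ z' ∈ A, z ≠ z' → q z ≤ p z' ∨ q z' ≤ p z) →
  (∑ z ∈ A, ((vi K (p z) (q z)).card : ℝ) ≤ C * Fintype.card ι * (A.card : ℝ) ^ ((1 : ℝ) / 4)) ∧
  ∀ lam : ℝ, 0 < lam → (∀ z ∈ A, lam ≤ ((vi K (p z) (q z)).card : ℝ)) →
    (A.card : ℝ) ≤ (C * Fintype.card ι / lam) ^ ((4 : ℝ) / 3)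

/-- Dey in a window: few `a`-lines, few tokens. -/
def StDeyV : Prop := ∀ (ι : Type) [Fintype ι] [DecidableEq ι] (K : KSys ι),
  Function.Injective K.x → ∀ (p q : ℕ), q ≤ K.N → ∀ E ⊆ Ico p q,
  (∀ s, (E.image (K.ln s)).card ≤ (vi K p q).card) ∧
  (∀ r, (E.image (K.tok r)).card ≤ (vi K p q).card) ∧
  (∀ s, E.card ^ 3 ≤ 4096 * ((E.image (K.ln s)).card * (vi K p q).card ^ 3)) ∧
  (∀ r, E.card ^ 3 ≤ 4096 * ((E.image (K.tok r)).card * (vi K p q).card ^ 3))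

/-- Upper bounds for the numbers of pairs (cell, line), (cell, token). -/
def StUp : Prop := ∃ C : ℝ, 1 ≤ C ∧ ∀ (ι : Type) [Fintype ι] [DecidableEq ι] (K : KSys ι),
  Function.Injective K.x → GP K.x K.y → ∀ (M : ℕ) (c : ℕ → ℕ), IsCells K M c →
  ∀ E ⊆ range K.N,
  (∀ s, (im E (fun n => (c n, K.ln s n)) : ℝ) ≤ C * Fintype.card ι * (M : ℝ) ^ ((1 : ℝ) / 4)) ∧
  (∀ r, (im E (fun n => (c n, K.tok r n)) : ℝ) ≤ C * Fintype.card ι * (M : ℝ) ^ ((1 : ℝ) / 4))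

/-- Lower bounds for the numbers of pairs (cell, line), (cell, token), for dense sets `E`. -/
def StLow : Prop := ∃ C : ℝ, 1 ≤ C ∧ ∀ (ι : Type) [Fintype ι] [DecidableEq ι] (K : KSys ι),
  Function.Injective K.x → GP K.x K.y → ∀ (M : ℕ) (c : ℕ → ℕ), 1 ≤ M → M ≤ K.N → IsCells K M c →
  ∀ E ⊆ range K.N, ∀ H : ℝ, 1 ≤ H → (K.N : ℝ) ≤ H * E.card →
  (Fintype.card ι : ℝ) ^ ((4 : ℝ) / 3) ≤ H * K.N →
  (∀ s, Fintype.card ι * (M : ℝ) ^ ((1 : ℝ) / 4) ≤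
    C * H ^ 9 * (im E (fun n => (c n, K.ln s n)) : ℝ)) ∧
  (∀ r, Fintype.card ι * (M : ℝ) ^ ((1 : ℝ) / 4) ≤
    C * H ^ 9 * (im E (fun n => (c n, K.tok r n)) : ℝ))

/-- **Net flips** (helper40, note 2759, Lemma 1). -/
def StNet : Prop := ∀ (ι : Type) [Fintype ι] [DecidableEq ι] (K : KSys ι),
  Function.Injective K.x → GP K.x K.y → ∀ (p q : ℕ), p ≤ q → q ≤ K.N →
  (q - p) ^ 3 ≤ 2 ^ 15 * ((vi K p q).card ^ 3 * (K.S p \ K.S q).card)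

/-- **Samples** (helper40, note 2759, Lemma 2). -/
def StSamp : Prop := ∀ ε : ℝ, 0 < ε → ∃ n0 : ℕ, ∀ (ι : Type) [Fintype ι] [DecidableEq ι]
  (K : KSys ι), Function.Injective K.x → n0 ≤ Fintype.card ι →
  ∀ (p q m : ℕ) (i : ℕ → ℕ) (τ : ℕ → ℝ) (e : ℝ), q ≤ K.N →
  (∀ j, j ≤ m → p ≤ i j ∧ i j ≤ q ∧ K.Valid (i j) (τ j) ∧ τ j < e) →
  (∀ j, j < m → (Fintype.card ι : ℝ) ^ 3 * (e - τ (j + 1)) ≤ e - τ j) →
  ∑ j ∈ range m, ((K.S (i j) \ K.S (i (j + 1))).card : ℝ) ≤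
    ((vi K p q).card : ℝ) * (Fintype.card ι : ℝ) ^ ε

/-- Hölder's inequality for windows of at most `lam` lines. -/
def StHol : Prop := ∀ (α : Type) (A : Finset α) (V c : α → ℝ) (W lam : ℝ), 0 < W → 0 < lam →
  (∀ z ∈ A, 0 ≤ V z ∧ V z ≤ lam ∧ 0 ≤ c z) →
  (∀ A' ⊆ A, ∑ z ∈ A', V z ≤ W * (A'.card : ℝ) ^ ((1 : ℝ) / 4)) →
  ∑ z ∈ A, V z * (c z) ^ ((1 : ℝ) / 3) ≤
    10 * W ^ ((8 : ℝ) / 9) * lam ^ ((1 : ℝ) / 9) * (∑ z ∈ A, c z) ^ ((1 : ℝ) / 3)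

/-- Intervals `[s u, e u]` without a good pair are super-separated around one of them. -/
def StSup : Prop := ∀ (U : Finset ℕ) (s e : ℕ → ℝ) (Q : ℝ), 8 ≤ Q → U.Nonempty →
  (∀ u ∈ U, s u ≤ e u) → (∀ u ∈ U, ∀ u' ∈ U, u < u' → e u < s u') →
  (∀ u ∈ U, ∀ u' ∈ U, u < u' → Q * (s u' - e u) < e u' - s u) →
  ∃ b ∈ U, (∀ u ∈ U, u < b → s b - e u < 4 / Q * (e u - s u)) ∧
    (∀ u ∈ U, b < u → s u - e b < 4 / Q * (e u - s u))

/-- Super-separated intervals left of `e0`: few of them meet one scale class around `e0`. -/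
def StSupCnt : Prop := ∀ (U : Finset ℕ) (s e x : ℕ → ℝ) (e0 r ρ Q : ℝ) (k : ℕ), 8 ≤ Q → 0 < r →
  (∀ u ∈ U, s u ≤ x u ∧ x u ≤ e u ∧ e u < e0 ∧ e0 - e u < 4 / Q * (e u - s u)) →
  (∀ u ∈ U, ∀ u' ∈ U, u < u' → e u < s u') → (∀ u ∈ U, r < e0 - x u ∧ e0 - x u ≤ ρ * r) →
  2 * ρ ≤ (Q / 4) ^ k → U.card ≤ k + 2

/-- Rotation by 180 degrees (time and height reversed). -/
def StRot : Prop := ∀ (ι : Type) [Fintype ι] [DecidableEq ι] (K : KSys ι), ∃ K' : KSys ι,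
  K'.N = K.N ∧ K'.x = K.x ∧ (∀ i, K'.y i = - K.y i) ∧
  ∀ n, n < K.N → K'.a n = K.a (K.N - 1 - n) ∧ K'.b n = K.b (K.N - 1 - n) ∧
    K'.t n = - K.t (K.N - 1 - n)

/-- Scale classes: a dense set of edges super-separated to the left of one centre `μ (Y n)` per
cell of `Y` has few pairs (child, line). -/
def StScl : Prop := ∃ C0 : ℕ, ∀ (η : ℝ) (D : ℕ), 0 < η → ∃ n0 : ℕ, ∀ (ι : Type) [Fintype ι]
  [DecidableEq ι] (K : KSys ι), Function.Injective K.x → GP K.x K.y → n0 ≤ Fintype.card ι →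
  ∀ Q : ℕ, (Fintype.card ι : ℝ) ^ η ≤ Q → (Fintype.card ι : ℝ) ^ ((4 : ℝ) / 3) ≤ Q * K.N →
  ∀ (M B : ℕ) (Y cp : ℕ → ℕ), 1 ≤ M → IsCells K M Y → IsCells K B cp →
  ∀ F ⊆ range K.N, K.N ≤ Q ^ D * F.card → ∀ μ : ℕ → ℕ,
  (∀ n ∈ F, hi K cp n < μ (Y n) ∧ μ (Y n) < K.N ∧ Y (μ (Y n)) = Y n ∧
    K.t (μ (Y n)) - K.t (hi K cp n) < 4 / Q * len K cp n) →
  ∃ F' ⊆ F, F.card ≤ 2 * F'.card ∧ (im F' (fun n => (cp n, K.a n)) : ℝ) ≤
    (Q : ℝ) ^ (C0 * (D + 1)) * Fintype.card ι * (M : ℝ) ^ ((1 : ℝ) / 4)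

/-- No dense set of edges is super-separated to the left of centres `b (a n) (c n)`. -/
def StGPL : Prop := ∃ C0 : ℕ, ∀ (η : ℝ) (D : ℕ), 0 < η → ∃ n0 : ℕ, ∀ (ι : Type) [Fintype ι]
  [DecidableEq ι] (K : KSys ι), Function.Injective K.x → GP K.x K.y → n0 ≤ Fintype.card ι →
  ∀ Q : ℕ, (Fintype.card ι : ℝ) ^ η ≤ Q → (Fintype.card ι : ℝ) ^ ((4 : ℝ) / 3) ≤ Q * K.N →
  ∀ B G : ℕ, 1 ≤ B → Q ^ (C0 * (D + 1)) ≤ G → B * G ≤ K.N →
  ∀ c cp : ℕ → ℕ, IsCells K B c → IsCells K (B * G) cp → Ref K c cp →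
  ∀ E ⊆ range K.N, K.N ≤ Q ^ D * E.card → ∀ b : ι → ℕ → ℕ,
  (∀ n ∈ E, hi K cp n < b (K.a n) (c n) ∧ b (K.a n) (c n) < K.N ∧ c (b (K.a n) (c n)) = c n ∧
    K.t (b (K.a n) (c n)) - K.t (hi K cp n) < 4 / Q * len K cp n) → False

/-- **GOOD PAIR LEMMA.** -/
def StGP : Prop := ∃ C0 : ℕ, ∀ (η : ℝ) (D : ℕ), 0 < η → ∃ n0 : ℕ, ∀ (ι : Type) [Fintype ι]
  [DecidableEq ι] (K : KSys ι), Function.Injective K.x → GP K.x K.y → n0 ≤ Fintype.card ι →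
  ∀ Q : ℕ, (Fintype.card ι : ℝ) ^ η ≤ Q → (Fintype.card ι : ℝ) ^ ((4 : ℝ) / 3) ≤ Q * K.N →
  ∀ B G : ℕ, 1 ≤ B → Q ^ (C0 * (D + 1)) ≤ G → B * G ≤ K.N →
  ∀ c cp : ℕ → ℕ, IsCells K B c → IsCells K (B * G) cp → Ref K c cp →
  ∀ E ⊆ range K.N, K.N ≤ Q ^ D * E.card → ∀ F ⊆ E,
  (∀ n ∈ F, ¬ HasGood K c cp Q E n) → Q * F.card ≤ E.card

end Pool.Agent.Work.MP_e17eac_co.MX

end

section

/-!
# Arbitrary sets, block AS2 (notes 2810 = A-II, 2870 = B-1): definitions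

Hulls, deviations, labels of pairs (line, cell). `kk p z`, `ll p z` are the two edges of the good
pair chosen for the line `p` in the cell `z` (values of `c`); `cp` is the partition into children.
-/

namespace Pool.Agent.Work.MP_e17eac_co.AS2

open Finset
open Pool.Agent.Work.MP_e17eac_co.DH
open Pool.Agent.Work.MP_e17eac_co.MX

variable {ι : Type} [Fintype ι] [DecidableEq ι]

/-- Largest value of `level - p` at the edges of the index window `[i0, i1]`. -/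
noncomputable def up (K : KSys ι) (p : ι) (i0 i1 : ℕ) : ℝ :=
  sSup ((fun j => K.h j - K.ht p (K.t j)) '' Set.Icc i0 i1)

/-- Largest value of `p - level` at the edges of the index window `[i0, i1]`. -/
noncomputable def dn (K : KSys ι) (p : ι) (i0 i1 : ℕ) : ℝ :=
  sSup ((fun j => K.ht p (K.t j) - K.h j) '' Set.Icc i0 i1)

/-- The radius of the line `p` in the index window `[i0, i1]`. -/
noncomputable def del (K : KSys ι) (p : ι) (i0 i1 : ℕ) : ℝ := min (up K p i0 i1) (dn K p i0 i1)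

open Classical in
/-- The type of the line `p` in the index window `[i0, i1]`. -/
noncomputable def ty (K : KSys ι) (p : ι) (i0 i1 : ℕ) : Bool := decide (up K p i0 i1 ≤ dn K p i0 i1)

/-- First index of the hull of the pair chosen for `p` in the cell `z`. -/
noncomputable def j0 (cp : ℕ → ℕ) (kk : ι → ℕ → ℕ) (p : ι) (z : ℕ) : ℕ := lo cp (kk p z)

/-- Last index of the hull of the pair chosen for `p` in the cell `z`. -/
def j1 (K : KSys ι) (cp : ℕ → ℕ) (ll : ι → ℕ → ℕ) (p : ι) (z : ℕ) : ℕ := hi K cp (ll p z)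

/-- Radius of `p` in the cell `z`. -/
noncomputable def dl (K : KSys ι) (cp : ℕ → ℕ) (kk ll : ι → ℕ → ℕ) (p : ι) (z : ℕ) : ℝ :=
  del K p (j0 cp kk p z) (j1 K cp ll p z)

/-- Cell, pair of children, type. -/
noncomputable def psi (K : KSys ι) (cp : ℕ → ℕ) (kk ll : ι → ℕ → ℕ) (p : ι) (z : ℕ) :
    ℕ × ℕ × ℕ × Bool :=
  (z, cp (kk p z), cp (ll p z), ty K p (j0 cp kk p z) (j1 K cp ll p z))

/-- The label of `p` in the cell `z`: cell, pair of children, type, dyadic size of the radius. -/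
noncomputable def lb (K : KSys ι) (cp : ℕ → ℕ) (kk ll : ι → ℕ → ℕ) (p : ι) (z : ℕ) :
    (ℕ × ℕ × ℕ × Bool) × ℤ :=
  (psi K cp kk ll p z, Int.log 2 (dl K cp kk ll p z))

/-- `kk p z < ll p z` are edges of `p` in two different children of the cell `z`, with
gap at least `hull / Q`. -/
structure PD (K : KSys ι) (c cp : ℕ → ℕ) (Q : ℕ) (kk ll : ι → ℕ → ℕ) (p : ι) (z : ℕ) : Prop where
  kN : kk p z < K.N
  lN : ll p z < K.N
  ak : K.a (kk p z) = p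
  al : K.a (ll p z) = p
  ck : c (kk p z) = z
  cl : c (ll p z) = z
  lt : cp (kk p z) < cp (ll p z)
  good : hull K cp (kk p z) (ll p z) ≤ Q * gap K cp (kk p z) (ll p z)

/-- The label of the edge `n` for the cells `mc K B` and the children `mc K (B * Q ^ g)`. -/
noncomputable def lbn (K : KSys ι) (B g Q : ℕ) (kk ll : ι → ℕ → ℕ) (n : ℕ) :
    (ℕ × ℕ × ℕ × Bool) × ℤ :=
  lb K (mc K (B * Q ^ g)) kk ll (K.a n) (mc K B n)

/-- First index of the hull of the edge `n`. -/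
noncomputable def k0 (K : KSys ι) (B g Q : ℕ) (kk : ι → ℕ → ℕ) (n : ℕ) : ℕ :=
  j0 (mc K (B * Q ^ g)) kk (K.a n) (mc K B n)

/-- Last index of the hull of the edge `n`. -/
def k1 (K : KSys ι) (B g Q : ℕ) (ll : ι → ℕ → ℕ) (n : ℕ) : ℕ :=
  j1 K (mc K (B * Q ^ g)) ll (K.a n) (mc K B n)

/-- Radius of the edge `n`. -/
noncomputable def dln (K : KSys ι) (B g Q : ℕ) (kk ll : ι → ℕ → ℕ) (n : ℕ) : ℝ :=
  dl K (mc K (B * Q ^ g)) kk ll (K.a n) (mc K B n)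

/-- Radius of the label of the edge `n` (a power of two). -/
noncomputable def dlb (K : KSys ι) (B g Q : ℕ) (kk ll : ι → ℕ → ℕ) (n : ℕ) : ℝ :=
  (2 : ℝ) ^ (Int.log 2 (dln K B g Q kk ll n))

/-- Data of one level (cells `mc K B`) on the set of edges `E`; inherited by subsets of `E`. -/
structure Lev (K : KSys ι) (B g Q A : ℕ) (E : Finset ℕ) (kk ll : ι → ℕ → ℕ) : Prop where
  pd : ∀ n ∈ E, PD K (mc K B) (mc K (B * Q ^ g)) Q kk ll (K.a n) (mc K B n)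
  pos : ∀ n ∈ E, 0 < dln K B g Q kk ll n
  inn : ∀ n ∈ E, mc K (B * Q ^ g) n = mc K (B * Q ^ g) (kk (K.a n) (mc K B n)) ∨
    mc K (B * Q ^ g) n = mc K (B * Q ^ g) (ll (K.a n) (mc K B n))
  cnt : ∀ n ∈ E,
    ((E.filter (fun k => mc K B k = mc K B n)).image (lbn K B g Q kk ll)).card ≤ Q ^ A

/-- Setting of the annuli lemma: a set `S` of pairs (line, cell), reference lines `ref p z`
(depending only on `psi`), generic children `uu p z`, and the set `Eg` of generic edges. -/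
structure AnnS (K : KSys ι) (Q G M M' : ℕ) (c cp : ℕ → ℕ) (kk ll : ι → ℕ → ℕ) (ref : ι → ℕ → ι)
    (uu : ι → ℕ → ℕ) (S : Finset (ι × ℕ)) (Eg : Finset ℕ) : Prop where
  Qle : 2 ^ 20 ≤ Q
  Gle : 1 ≤ G
  hc : IsCells K M c
  hcp : IsCells K M' cp
  chG : ∀ n, cp n / G = c n
  pd : ∀ w ∈ S, PD K c cp Q kk ll w.1 w.2
  pos : ∀ w ∈ S, 0 < dl K cp kk ll w.1 w.2
  pdr : ∀ w ∈ S, PD K c cp Q kk ll (ref w.1 w.2) w.2
  posr : ∀ w ∈ S, 0 < dl K cp kk ll (ref w.1 w.2) w.2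
  psir : ∀ w ∈ S, psi K cp kk ll (ref w.1 w.2) w.2 = psi K cp kk ll w.1 w.2
  refc : ∀ w ∈ S, ∀ w' ∈ S, psi K cp kk ll w.1 w.2 = psi K cp kk ll w'.1 w'.2 →
    ref w.1 w.2 = ref w'.1 w'.2
  dlr : ∀ w ∈ S, 2 * dl K cp kk ll (ref w.1 w.2) w.2 ≤ dl K cp kk ll w.1 w.2
  uuc : ∀ w ∈ S, uu w.1 w.2 = cp (kk w.1 w.2) ∨ uu w.1 w.2 = cp (ll w.1 w.2)
  gen : ∀ w ∈ S, ∀ m, m < K.N → cp m = uu w.1 w.2 → ∀ s : ℝ,
    (s = K.t (j0 cp kk w.1 w.2) ∨ s = K.t (j1 K cp ll w.1 w.2)) →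
    |K.ht w.1 s - K.ht (ref w.1 w.2) s| ≤
      16 * Q * |K.ht w.1 (K.t m) - K.ht (ref w.1 w.2) (K.t m)|
  sub : ∀ m ∈ Eg, m < K.N
  eg : ∀ m ∈ Eg, (K.a m, c m) ∈ S ∧ cp m = uu (K.a m) (c m)

/-- Distance of `p` and its reference line on the hull. -/
noncomputable def Dd (K : KSys ι) (cp : ℕ → ℕ) (kk ll : ι → ℕ → ℕ) (ref : ι → ℕ → ι) (p : ι)
    (z : ℕ) : ℝ :=
  max |K.ht p (K.t (j0 cp kk p z)) - K.ht (ref p z) (K.t (j0 cp kk p z))|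
    |K.ht p (K.t (j1 K cp ll p z)) - K.ht (ref p z) (K.t (j1 K cp ll p z))|

/-- `psi` of the edge `m`. -/
noncomputable def ps (K : KSys ι) (c cp : ℕ → ℕ) (kk ll : ι → ℕ → ℕ) (m : ℕ) :
    ℕ × ℕ × ℕ × Bool := psi K cp kk ll (K.a m) (c m)

/-- Dyadic size of the distance from the reference line, for the edge `m`. -/
noncomputable def ii (K : KSys ι) (c cp : ℕ → ℕ) (kk ll : ι → ℕ → ℕ) (ref : ι → ℕ → ι) (m : ℕ) :
    ℤ := Int.log 2 (Dd K cp kk ll ref (K.a m) (c m))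

/-- Length of the hull of the edge `m`. -/
noncomputable def hl (K : KSys ι) (c cp : ℕ → ℕ) (kk ll : ι → ℕ → ℕ) (m : ℕ) : ℝ :=
  K.t (j1 K cp ll (K.a m) (c m)) - K.t (j0 cp kk (K.a m) (c m))

/-- The edge `m` is a jump. -/
def Jmp (K : KSys ι) (c cp : ℕ → ℕ) (kk ll : ι → ℕ → ℕ) (ref : ι → ℕ → ι) (m : ℕ) : Prop :=
  (2 : ℝ) ^ (ii K c cp kk ll ref m + 7) <
    hl K c cp kk ll m * (K.x (ref (K.a m) (c m)) - K.x (K.b m))

/-- Labels on one side (note 2870, (L1)-(L7)). The cell of level `x` of the edge `i` is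
`mc K (r ^ (4 * x)) i = i * r ^ (4 * x) / N`; `[s, s']` contains all hulls, `lam` is the length of
the base interval. Inherited by subsets of `E`. -/
structure IsLab (K : KSys ι) (r m : ℕ) (D : ℝ) (E : Finset ℕ) (s s' lam : ℝ)
    (lab : ℕ → ℕ → (ℕ × ℕ × ℕ × Bool) × ℤ) (h0 h1 del : ℕ → ℕ → ℝ) : Prop where
  sub : ∀ i ∈ E, i < K.N
  lab_cell : ∀ x ≤ m, ∀ i ∈ E, ∀ i' ∈ E, lab x i = lab x i' →
    mc K (r ^ (4 * x)) i = mc K (r ^ (4 * x)) i' ∧ h0 x i = h0 x i' ∧ h1 x i = h1 x i' ∧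
      del x i = del x i'
  lab_line : ∀ x ≤ m, ∀ i ∈ E, ∀ i' ∈ E, K.a i = K.a i' →
    mc K (r ^ (4 * x)) i = mc K (r ^ (4 * x)) i' → lab x i = lab x i'
  lab_card : ∀ x ≤ m, ∀ i ∈ E,
    (((E.filter (fun k => mc K (r ^ (4 * x)) k = mc K (r ^ (4 * x)) i)).image (lab x)).card : ℝ) ≤ D
  mem : ∀ x ≤ m, ∀ i ∈ E, h0 x i ≤ K.t i ∧ K.t i ≤ h1 x i ∧ h0 x i < h1 x i
  span : ∀ x ≤ m, ∀ i ∈ E, K.t (lo (mc K (r ^ (4 * x))) i) ≤ h0 x i ∧
    h1 x i ≤ K.t (hi K (mc K (r ^ (4 * x))) i)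
  nest : ∀ x, x < m → ∀ i ∈ E, h0 x i ≤ h0 (x + 1) i ∧ h1 (x + 1) i ≤ h1 x i
  clo : ∀ x ≤ m, ∀ i ∈ E, ∀ q : ι, |K.ht q (h0 x i) - K.ht (K.a i) (h0 x i)| < del x i →
    |K.ht q (h1 x i) - K.ht (K.a i) (h1 x i)| < del x i →
    q ∈ vf K (mc K (r ^ (4 * x))) (mc K (r ^ (4 * x)) i)
  con : ∀ x ≤ m, ∀ i ∈ E, ∀ i' ∈ E, lab x i = lab x i' →
    |K.ht (K.a i) (h0 x i) - K.ht (K.a i') (h0 x i)| ≤ D * del x i ∧
    |K.ht (K.a i) (h1 x i) - K.ht (K.a i') (h1 x i)| ≤ D * del x i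
  pos : ∀ x ≤ m, ∀ i ∈ E, 0 < del x i
  dec : ∀ x, x < m → ∀ i ∈ E, del (x + 1) i ≤ del x i
  stag : ∀ x, x + 3 ≤ m → ∀ i ∈ E, r * del (x + 3) i ≤ del x i
  short : ∀ x ≤ m, ∀ i ∈ E, (r : ℝ) ^ (4 * x) * (h1 x i - h0 x i) ≤ r * lam
  side : ∀ x ≤ m, ∀ i ∈ E, s ≤ h0 x i ∧ h1 x i ≤ s'

end Pool.Agent.Work.MP_e17eac_co.AS2

end

section

/-!
# Arbitrary sets, block AS2 (notes 2810, 2870): statements

Closure, contact, annuli lemma, level step, stagnation, and the two-sided label theorem `StTwo`.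
-/

namespace Pool.Agent.Work.MP_e17eac_co.AS2

open Finset
open Pool.Agent.Work.MP_e17eac_co.DH
open Pool.Agent.Work.MP_e17eac_co.DH.XSWEEP (GP)
open Pool.Agent.Work.MP_e17eac_co.MX

/-! ### One line, one window -/

/-- `up` and `dn` are maxima. -/
def StUD : Prop := ∀ (ι : Type) [Fintype ι] [DecidableEq ι] (K : KSys ι) (p : ι) (i0 i1 : ℕ),
  i0 ≤ i1 →
  (∀ j, i0 ≤ j → j ≤ i1 → K.h j - K.ht p (K.t j) ≤ up K p i0 i1) ∧
  (∃ j, i0 ≤ j ∧ j ≤ i1 ∧ up K p i0 i1 = K.h j - K.ht p (K.t j)) ∧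
  (∀ j, i0 ≤ j → j ≤ i1 → K.ht p (K.t j) - K.h j ≤ dn K p i0 i1) ∧
  (∃ j, i0 ≤ j ∧ j ≤ i1 ∧ dn K p i0 i1 = K.ht p (K.t j) - K.h j)

/-- **Closure.** -/
def StClo : Prop := ∀ (ι : Type) [Fintype ι] [DecidableEq ι] (K : KSys ι) (p q : ι) (i0 i1 : ℕ),
  i0 ≤ i1 → i1 < K.N → |K.ht q (K.t i0) - K.ht p (K.t i0)| < del K p i0 i1 →
  |K.ht q (K.t i1) - K.ht p (K.t i1)| < del K p i0 i1 → q ∈ vi K i0 (i1 + 1)

/-- The radius is at most (length) * (displacement of the bottom token). -/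
def StD2 : Prop := ∀ (ι : Type) [Fintype ι] [DecidableEq ι] (K : KSys ι) (n i0 i1 : ℕ),
  i0 ≤ n → n ≤ i1 → i1 < K.N → dn K (K.a n) i0 i1 ≤
    (K.t i1 - K.t i0) * |K.x (K.pos i0 (K.tokB n)) - K.x (K.pos (i1 + 1) (K.tokB n))|

/-- **Contact**: two lines of the same type with edges on both sides of the gap `[g0, g1]`. -/
def StCon : Prop := ∀ (ι : Type) [Fintype ι] [DecidableEq ι] (K : KSys ι) (p p' : ι)
  (i0 i1 k l k' l' : ℕ) (g0 g1 Q : ℝ), i1 < K.N → k < K.N → k' < K.N → i0 ≤ k → i0 ≤ k' →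
  l ≤ i1 → l' ≤ i1 →
  K.a k = p → K.a l = p → K.a k' = p' → K.a l' = p' → K.t k ≤ g0 → K.t k' ≤ g0 → g0 < g1 →
  g1 ≤ K.t l → g1 ≤ K.t l' → K.t i1 - K.t i0 ≤ Q * (g1 - g0) →
  ty K p i0 i1 = ty K p' i0 i1 → ∀ s : ℝ, (s = K.t i0 ∨ s = K.t i1) →
  |K.ht p s - K.ht p' s| ≤ 2 * Q * max (del K p i0 i1) (del K p' i0 i1)

/-- **Token lemma** (abstract form: a family of supporting lines of a concave path). -/
def StTL : Prop := ∀ Q : ℕ, 2 ^ 20 ≤ Q → ∀ (T : Finset ℕ) (t v s D : ℕ → ℝ) (H : ℝ), 0 < H →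
  (∀ n ∈ T, 0 < D n ∧ |v n| ≤ D n ∧ D n ≤ 16 * Q * |v n| ∧ |s n| * H ≤ 2 * D n) →
  (∀ n ∈ T, ∀ n' ∈ T, |t n - t n'| ≤ H ∧ v n' ≤ v n + s n * (t n' - t n)) →
  (T.image (fun n => Int.log 2 (D n))).card ≤ Q ^ 3

/-- An affine function is not small in both children. -/
def StGen : Prop := ∀ (α β s0 s1 g0 g1 Q : ℝ), 2 ≤ Q → s0 ≤ g0 → g0 < g1 → g1 ≤ s1 →
  s1 - s0 ≤ Q * (g1 - g0) →
  (∀ s, s0 ≤ s → s ≤ g0 → max |α + β * s0| |α + β * s1| ≤ 16 * Q * |α + β * s|) ∨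
  (∀ s, g1 ≤ s → s ≤ s1 → max |α + β * s0| |α + β * s1| ≤ 16 * Q * |α + β * s|)

/-! ### The annuli lemma -/

/-- Every token meets few annuli. -/
def StTokC : Prop := ∀ (ι : Type) [Fintype ι] [DecidableEq ι] (K : KSys ι) (Q G M M' : ℕ)
  (c cp : ℕ → ℕ) (kk ll : ι → ℕ → ℕ) (ref : ι → ℕ → ι) (uu : ι → ℕ → ℕ) (S : Finset (ι × ℕ))
  (Eg : Finset ℕ), AnnS K Q G M M' c cp kk ll ref uu S Eg → ∀ r : Bool, ∀ n ∈ Eg,
  ((Eg.filter (fun m => ps K c cp kk ll m = ps K c cp kk ll n ∧ K.tok r m = K.tok r n)).image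
    (ii K c cp kk ll ref)).card ≤ Q ^ 3

open Classical in
/-- At most one jump for every (token, annulus). -/
def StJmpC : Prop := ∀ (ι : Type) [Fintype ι] [DecidableEq ι] (K : KSys ι) (Q G M M' : ℕ)
  (c cp : ℕ → ℕ) (kk ll : ι → ℕ → ℕ) (ref : ι → ℕ → ι) (uu : ι → ℕ → ℕ) (S : Finset (ι × ℕ))
  (Eg : Finset ℕ), AnnS K Q G M M' c cp kk ll ref uu S Eg →
  (Eg.filter (fun m => Jmp K c cp kk ll ref m)).card ≤
    im Eg (fun m => ((ps K c cp kk ll m, ii K c cp kk ll ref m), K.tokB m))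

open Classical in
/-- Every `b`-line meets few annuli (without the jumps). -/
def StNJ : Prop := ∀ (ι : Type) [Fintype ι] [DecidableEq ι] (K : KSys ι) (Q G M M' : ℕ)
  (c cp : ℕ → ℕ) (kk ll : ι → ℕ → ℕ) (ref : ι → ℕ → ι) (uu : ι → ℕ → ℕ) (S : Finset (ι × ℕ))
  (Eg : Finset ℕ), AnnS K Q G M M' c cp kk ll ref uu S Eg → ∀ n ∈ Eg,
  ((Eg.filter (fun m => ¬ Jmp K c cp kk ll ref m ∧ ps K c cp kk ll m = ps K c cp kk ll n ∧
    K.b m = K.b n)).image (ii K c cp kk ll ref)).card ≤ Q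

/-- Number of lines of one annulus. -/
def StLaC : Prop := ∀ (ι : Type) [Fintype ι] [DecidableEq ι] (K : KSys ι) (Q G M M' : ℕ)
  (c cp : ℕ → ℕ) (kk ll : ι → ℕ → ℕ) (ref : ι → ℕ → ι) (uu : ι → ℕ → ℕ) (S : Finset (ι × ℕ))
  (Eg : Finset ℕ), AnnS K Q G M M' c cp kk ll ref uu S Eg → ∀ La : ℕ,
  (∀ w ∈ S, (S.filter (fun v => lb K cp kk ll v.1 v.2 = lb K cp kk ll w.1 w.2)).card ≤ La) →
  ∀ n ∈ Eg, ((Eg.filter (fun m => ps K c cp kk ll m = ps K c cp kk ll n ∧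
    ii K c cp kk ll ref m = ii K c cp kk ll ref n)).image K.a).card ≤ Q * La

/-- Dey's bound in every class of `κ`, and Hölder. -/
def StDeyS : Prop := ∀ (ι : Type) [Fintype ι] [DecidableEq ι] (K : KSys ι),
  Function.Injective K.x → ∀ E ⊆ range K.N, ∀ (β : Type) [DecidableEq β] (κ : ℕ → β) (La : ℕ),
  (∀ n ∈ E, ((E.filter (fun m => κ m = κ n)).image K.a).card ≤ La) →
  (E.card : ℝ) ≤ 16 * ((im E (fun n => (κ n, K.a n)) : ℝ) + (im E (fun n => (κ n, K.b n)) : ℝ)) +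
    13 * ((La : ℝ) * ((im E (fun n => (κ n, K.b n)) : ℝ) * (im E (fun n => (κ n, K.tokB n)) : ℝ) *
      (im E (fun n => (κ n, K.tokT n)) : ℝ))) ^ ((1 : ℝ) / 3)

/-- Upper bound for the number of generic edges. -/
def StAnnUB : Prop := ∀ (ι : Type) [Fintype ι] [DecidableEq ι] (K : KSys ι) (Q G M M' : ℕ)
  (c cp : ℕ → ℕ) (kk ll : ι → ℕ → ℕ) (ref : ι → ℕ → ι) (uu : ι → ℕ → ℕ) (S : Finset (ι × ℕ))
  (Eg : Finset ℕ), Function.Injective K.x → AnnS K Q G M M' c cp kk ll ref uu S Eg → ∀ La : ℕ,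
  1 ≤ La →
  (∀ w ∈ S, (S.filter (fun v => lb K cp kk ll v.1 v.2 = lb K cp kk ll w.1 w.2)).card ≤ La) →
  ∀ W : ℝ, (∀ s, (im Eg (fun m => (c m, K.ln s m)) : ℝ) ≤ W) →
  (∀ r, (im Eg (fun m => (c m, K.tok r m)) : ℝ) ≤ W) →
  (Eg.card : ℝ) ≤ 200 * (Q : ℝ) ^ 4 * (G : ℝ) ^ 2 * W * (La : ℝ) ^ ((1 : ℝ) / 3)

/-- Existence of the setting of the annuli lemma. -/
def StAnnG : Prop := ∀ (ι : Type) [Fintype ι] [DecidableEq ι] (K : KSys ι) (Q G M M' : ℕ)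
  (c cp : ℕ → ℕ), 2 ^ 20 ≤ Q → 1 ≤ G → IsCells K M c → IsCells K M' cp → (∀ n, cp n / G = c n) →
  ∀ E ⊆ range K.N, ∀ (kk ll : ι → ℕ → ℕ), ∀ F ⊆ E,
  (∀ n ∈ F, PD K c cp Q kk ll (K.a n) (c n) ∧ 0 < dl K cp kk ll (K.a n) (c n)) → ∀ La : ℕ,
  (∀ n ∈ F, ((F.filter (fun k => lb K cp kk ll (K.a k) (c k) =
    lb K cp kk ll (K.a n) (c n))).image K.a).card ≤ La) →
  ∃ (S : Finset (ι × ℕ)) (ref : ι → ℕ → ι) (uu : ι → ℕ → ℕ),
    S ⊆ F.image (fun n => (K.a n, c n)) ∧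
    im F (fun n => (c n, K.a n)) ≤ S.card + 4 * M * G ^ 2 * La ∧
    AnnS K Q G M M' c cp kk ll ref uu S
      (E.filter (fun m => (K.a m, c m) ∈ S ∧ cp m = uu (K.a m) (c m)))

/-- **Annuli lemma**: the edges whose label has few lines are few. -/
def StAnn : Prop := ∃ C0 : ℕ, ∀ (η : ℝ) (D : ℕ), 0 < η → ∃ n0 : ℕ, ∀ (ι : Type) [Fintype ι]
  [DecidableEq ι] (K : KSys ι), Function.Injective K.x → GP K.x K.y → n0 ≤ Fintype.card ι →
  ∀ Q : ℕ, (Fintype.card ι : ℝ) ^ η ≤ Q → (Fintype.card ι : ℝ) ^ ((4 : ℝ) / 3) ≤ Q * K.N →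
  ∀ B g : ℕ, 1 ≤ B → B * Q ^ (C0 * (g + D + 1)) ≤ Fintype.card ι →
  ∀ E ⊆ range K.N, K.N ≤ Q ^ D * E.card →
  RegF (Q : ℝ) E (fun n => (mc K (B * Q ^ g) n, K.a n)) →
  ∀ (kk ll : ι → ℕ → ℕ), ∀ F ⊆ E,
  (∀ n ∈ F, PD K (mc K B) (mc K (B * Q ^ g)) Q kk ll (K.a n) (mc K B n) ∧
    kk (K.a n) (mc K B n) ∈ E ∧ ll (K.a n) (mc K B n) ∈ E ∧ 0 < dln K B g Q kk ll n) →
  (∀ n ∈ F, (Q : ℝ) ^ (C0 * (g + D + 1)) * (B : ℝ) ^ ((3 : ℝ) / 4) *
    (((F.filter (fun k => lbn K B g Q kk ll k = lbn K B g Q kk ll n)).image K.a).card : ℝ) ≤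
      Fintype.card ι) →
  Q * F.card ≤ E.card

/-! ### The level step -/

open Classical in
/-- Few edges lie in crowded cells. -/
def StCrowd : Prop := ∃ Q0 : ℕ, ∀ (ι : Type) [Fintype ι] [DecidableEq ι] (K : KSys ι),
  Function.Injective K.x → GP K.x K.y → ∀ Q A M : ℕ, Q0 ≤ Q → 1 ≤ A → 1 ≤ M → M ≤ K.N →
  ∀ c : ℕ → ℕ, IsCells K M c →
  Q ^ A * ((range K.N).filter (fun n => (Q : ℝ) ^ A * Fintype.card ι <
    ((vf K c (c n)).card : ℝ) * (M : ℝ) ^ ((3 : ℝ) / 4))).card ≤ K.N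

/-- Few edges have radius zero. -/
def StZero : Prop := ∃ C0 : ℕ, ∀ (η : ℝ) (D : ℕ), 0 < η → ∃ n0 : ℕ, ∀ (ι : Type) [Fintype ι]
  [DecidableEq ι] (K : KSys ι), Function.Injective K.x → GP K.x K.y → n0 ≤ Fintype.card ι →
  ∀ Q : ℕ, (Fintype.card ι : ℝ) ^ η ≤ Q → (Fintype.card ι : ℝ) ^ ((4 : ℝ) / 3) ≤ Q * K.N →
  ∀ B g : ℕ, 1 ≤ B → B * Q ^ (C0 * (g + D + 1)) ≤ Fintype.card ι →
  ∀ F ⊆ range K.N, ∀ (kk ll : ι → ℕ → ℕ),
  (∀ n ∈ F, PD K (mc K B) (mc K (B * Q ^ g)) Q kk ll (K.a n) (mc K B n) ∧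
    dln K B g Q kk ll n = 0) → Q ^ D * F.card ≤ K.N

/-- **Level step.** -/
def StLev : Prop := ∃ C0 : ℕ, ∀ (η : ℝ) (D : ℕ), 0 < η → ∃ n0 : ℕ, ∀ (ι : Type) [Fintype ι]
  [DecidableEq ι] (K : KSys ι), Function.Injective K.x → GP K.x K.y → n0 ≤ Fintype.card ι →
  ∀ Q : ℕ, (Fintype.card ι : ℝ) ^ η ≤ Q → (Fintype.card ι : ℝ) ^ ((4 : ℝ) / 3) ≤ Q * K.N →
  ∀ B g : ℕ, 1 ≤ B → C0 * (D + 1) ≤ g → B * Q ^ (C0 * (g + D + 1)) ≤ Fintype.card ι →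
  ∀ E ⊆ range K.N, K.N ≤ Q ^ D * E.card →
  ∃ E' ⊆ E, ∃ (kk ll : ι → ℕ → ℕ), K.N ≤ Q ^ (C0 * (g + D + 1)) * E'.card ∧
    Lev K B g Q (C0 * (g + D + 1)) E' kk ll ∧
    ∀ n ∈ E', kk (K.a n) (mc K B n) ∈ E ∧ ll (K.a n) (mc K B n) ∈ E

/-- **All levels** `0, .., m` (level `x`: `r ^ (4 x)` cells, `r = Q ^ gp`). -/
def StLevs : Prop := ∀ m D g0 : ℕ, ∃ (A : ℕ) (g : ℕ → ℕ), (∀ x, g0 ≤ g x ∧ g x ≤ A) ∧
  ∀ η : ℝ, 0 < η → ∃ n0 : ℕ, ∀ (ι : Type) [Fintype ι] [DecidableEq ι] (K : KSys ι),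
  Function.Injective K.x → GP K.x K.y → n0 ≤ Fintype.card ι →
  ∀ Q gp : ℕ, (Fintype.card ι : ℝ) ^ η ≤ Q → (Fintype.card ι : ℝ) ^ ((4 : ℝ) / 3) ≤ Q * K.N →
  A ≤ gp → (Q ^ gp) ^ (4 * m) * Q ^ A ≤ Fintype.card ι →
  ∀ E ⊆ range K.N, K.N ≤ Q ^ D * E.card →
  ∃ E' ⊆ E, ∃ (kk ll : ℕ → ι → ℕ → ℕ), K.N ≤ Q ^ A * E'.card ∧
    ∀ x, x ≤ m → Lev K ((Q ^ gp) ^ (4 * x)) (g x) Q A E' (kk x) (ll x) ∧
      ∀ n ∈ E', kk x (K.a n) (mc K ((Q ^ gp) ^ (4 * x)) n) ∈ E ∧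
        ll x (K.a n) (mc K ((Q ^ gp) ^ (4 * x)) n) ∈ E

open Classical in
/-- **Stagnation lemma.** -/
def StStag : Prop := ∃ C0 : ℕ, ∀ (η : ℝ) (A A' : ℕ), 0 < η → ∃ n0 : ℕ, ∀ (ι : Type) [Fintype ι]
  [DecidableEq ι] (K : KSys ι), Function.Injective K.x → GP K.x K.y → n0 ≤ Fintype.card ι →
  ∀ Q : ℕ, (Fintype.card ι : ℝ) ^ η ≤ Q → (Fintype.card ι : ℝ) ^ ((4 : ℝ) / 3) ≤ Q * K.N →
  ∀ B g g' gp t : ℕ, 1 ≤ B → g ≤ 4 * gp → t + C0 * (A + A' + 1) ≤ gp →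
  B * Q ^ (4 * gp) ≤ K.N → ∀ E ⊆ range K.N, ∀ (kk ll kk' ll' : ι → ℕ → ℕ),
  Lev K B g Q A E kk ll → Lev K (B * Q ^ (4 * gp)) g' Q A E kk' ll' →
  Q ^ A' * (E.filter (fun n => ¬ ((Q : ℝ) ^ t * dlb K (B * Q ^ (4 * gp)) g' Q kk' ll' n ≤
    8 * Q * dlb K B g Q kk ll n))).card ≤ K.N

open Classical in
/-- Few edges have long hulls. -/
def StLong : Prop := ∀ (ι : Type) [Fintype ι] [DecidableEq ι] (K : KSys ι) (c : ℕ → ℕ)
  (M r : ℕ) (s s' lam : ℝ) (h0 h1 : ℕ → ℝ), IsCells K M c → 1 ≤ M → M ≤ K.N → 1 ≤ r →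
  s' - s ≤ lam → ∀ E ⊆ range K.N,
  (∀ n ∈ E, K.t (lo c n) ≤ h0 n ∧ h0 n ≤ h1 n ∧ h1 n ≤ K.t (hi K c n) ∧ s ≤ h0 n ∧ h1 n ≤ s') →
  r * (E.filter (fun n => (r : ℝ) * lam < M * (h1 n - h0 n))).card ≤ 3 * K.N

/-! ### Assembly -/

/-- **Labels on one side.** -/
def StOne : Prop := ∀ m D g0 : ℕ, ∃ A : ℕ, ∀ η : ℝ, 0 < η → ∃ n0 : ℕ, ∀ (ι : Type) [Fintype ι]
  [DecidableEq ι] (K : KSys ι), Function.Injective K.x → GP K.x K.y → n0 ≤ Fintype.card ι →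
  ∀ Q gp : ℕ, (Fintype.card ι : ℝ) ^ η ≤ Q → (Fintype.card ι : ℝ) ^ ((4 : ℝ) / 3) ≤ Q * K.N →
  A ≤ gp → (Q ^ gp) ^ (4 * m) * Q ^ A ≤ Fintype.card ι →
  ∀ E ⊆ range K.N, K.N ≤ Q ^ D * E.card →
  ∀ e, e < K.N → (∀ n ∈ E, mc K (Q ^ g0) n = mc K (Q ^ g0) e) →
  ∀ lam : ℝ, len K (mc K (Q ^ g0)) e ≤ lam →
  ∃ E' ⊆ E, ∃ (lab : ℕ → ℕ → (ℕ × ℕ × ℕ × Bool) × ℤ) (h0 h1 dl : ℕ → ℕ → ℝ),
    K.N ≤ Q ^ A * E'.card ∧
    IsLab K (Q ^ gp) m ((Q : ℝ) ^ A) E' (K.t (lo (mc K (Q ^ g0)) e))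
      (K.t (hi K (mc K (Q ^ g0)) e)) lam lab h0 h1 dl

/-- Popular lines. -/
def StPop : Prop := ∃ C0 : ℕ, ∀ (η : ℝ) (D : ℕ), 0 < η → ∃ n0 : ℕ, ∀ (ι : Type) [Fintype ι]
  [DecidableEq ι] (K : KSys ι), Function.Injective K.x → GP K.x K.y → n0 ≤ Fintype.card ι →
  ∀ Q : ℕ, (Fintype.card ι : ℝ) ^ η ≤ Q → (Fintype.card ι : ℝ) ^ ((4 : ℝ) / 3) ≤ Q * K.N →
  ∀ E ⊆ range K.N, K.N ≤ Q ^ D * E.card →
  ∃ P : Finset ι, Fintype.card ι ≤ Q ^ (C0 * (D + 1)) * P.card ∧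
    ∀ p ∈ P, K.N ≤ Q ^ (C0 * (D + 1)) * (Fintype.card ι * (E.filter (fun n => K.a n = p)).card)

/-- **The root pair.** -/
def StRoot : Prop := ∀ D : ℕ, ∃ A g0 : ℕ, ∀ η : ℝ, 0 < η → ∃ n0 : ℕ, ∀ (ι : Type) [Fintype ι]
  [DecidableEq ι] (K : KSys ι), Function.Injective K.x → GP K.x K.y → n0 ≤ Fintype.card ι →
  ∀ Q : ℕ, (Fintype.card ι : ℝ) ^ η ≤ Q → (Fintype.card ι : ℝ) ^ ((4 : ℝ) / 3) ≤ Q * K.N →
  Q ^ A ≤ Fintype.card ι → ∀ E ⊆ range K.N, K.N ≤ Q ^ D * E.card →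
  ∃ (P : Finset ι) (k l : ℕ), k < K.N ∧ l < K.N ∧ mc K (Q ^ g0) k < mc K (Q ^ g0) l ∧
    hull K (mc K (Q ^ g0)) k l ≤ Q * gap K (mc K (Q ^ g0)) k l ∧
    Fintype.card ι ≤ Q ^ A * P.card ∧ ∀ p ∈ P,
      K.N ≤ Q ^ A * (Fintype.card ι *
        (E.filter (fun n => K.a n = p ∧ mc K (Q ^ g0) n = mc K (Q ^ g0) k)).card) ∧
      K.N ≤ Q ^ A * (Fintype.card ι *
        (E.filter (fun n => K.a n = p ∧ mc K (Q ^ g0) n = mc K (Q ^ g0) l)).card)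

/-- **Two-sided labels** (note 2870, sections 2, 3). -/
def StTwo : Prop := ∀ m D : ℕ, ∃ A : ℕ, ∀ η : ℝ, 0 < η → ∃ n0 : ℕ, ∀ (ι : Type) [Fintype ι]
  [DecidableEq ι] (K : KSys ι), Function.Injective K.x → GP K.x K.y → n0 ≤ Fintype.card ι →
  ∀ Q gp : ℕ, (Fintype.card ι : ℝ) ^ η ≤ Q → (Fintype.card ι : ℝ) ^ ((4 : ℝ) / 3) ≤ Q * K.N →
  A ≤ gp → (Q ^ gp) ^ (4 * m) * Q ^ A ≤ Fintype.card ι →
  ∀ E ⊆ range K.N, K.N ≤ Q ^ D * E.card →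
  ∃ (P : Finset ι) (E0 E1 : Finset ℕ) (s0 s1 s2 e0 : ℝ)
    (lab lab' : ℕ → ℕ → (ℕ × ℕ × ℕ × Bool) × ℤ) (h0 h1 dl h0' h1' dl' : ℕ → ℕ → ℝ),
    E0 ⊆ E ∧ E1 ⊆ E ∧ s0 ≤ s1 ∧ s1 < s2 ∧ s2 ≤ e0 ∧ e0 - s0 ≤ Q * (s2 - s1) ∧
    Fintype.card ι ≤ Q ^ A * P.card ∧
    (∀ n ∈ E0, K.a n ∈ P) ∧ (∀ n ∈ E1, K.a n ∈ P) ∧
    (∀ p ∈ P, K.N ≤ Q ^ A * (Fintype.card ι * (E0.filter (fun n => K.a n = p)).card)) ∧
    (∀ p ∈ P, K.N ≤ Q ^ A * (Fintype.card ι * (E1.filter (fun n => K.a n = p)).card)) ∧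
    IsLab K (Q ^ gp) m ((Q : ℝ) ^ A) E0 s0 s1 (e0 - s0) lab h0 h1 dl ∧
    IsLab K (Q ^ gp) m ((Q : ℝ) ^ A) E1 s2 e0 (e0 - s0) lab' h0' h1' dl'

end Pool.Agent.Work.MP_e17eac_co.AS2

end
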