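import Pool.Agent.Work.MP_e17eac_co.PS.T2St
import Pool.Agent.Work.MP_e17eac_co.Bd.B08
import Pool.Agent.Work.MP_e17eac_co.Bd.B12

/-! Bundle of small proof modules (one section per former module). -/

section

/-!
# Item Cinj2: a crossing pair of two sweeps is determined by two tokens
-/

set_option autoImplicit false

namespace Pool.Agent.Work.MP_e17eac_co.PS

open Finset
open Pool.Agent.Work.MP_e17eac_co.DH

namespace XCinj2

theorem TTok : StTok := I_TOK I_POS

theorem TMono : StMono := I_MONO TTok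

theorem TPath : StPath := I_PATH TTok TMono

theorem TTouch : StTouch := I_TOUCH I_POS TTok TMono TPath I_MIR I_LEQ

theorem aux (hTouch : StTouch) : StCinj2 := by
  intro ι _ _ K K' n n' k k' hn hk hn' hk' htn htk hc1 hc2 hB hT
  obtain ⟨a1, a2, a3, a4⟩ := hc1
  obtain ⟨b1, b2, b3, b4⟩ := hc2
  have ht1 : 0 < K'.t n' - K.t n := by linarith
  have ht2 : 0 < K'.t k' - K.t k := by linarith
  obtain ⟨X1, hX1⟩ : ∃ X, X = (K'.h n' - K.h n) / (K'.t n' - K.t n) := ⟨_, rfl⟩
  obtain ⟨X2, hX2⟩ : ∃ X, X = (K'.h k' - K.h k) / (K'.t k' - K.t k) := ⟨_, rfl⟩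
  rw [← hX1] at a1 a2 a3 a4
  rw [← hX2] at b1 b2 b3 b4
  have e1 : K'.h n' = K.h n + X1 * (K'.t n' - K.t n) := by
    rw [hX1, div_mul_cancel₀ _ ht1.ne']; ring
  have e2 : K'.h k' = K.h k + X2 * (K'.t k' - K.t k) := by
    rw [hX2, div_mul_cancel₀ _ ht2.ne']; ring
  obtain ⟨c1, c1'⟩ := XCINJ.low hTouch K hn hk hB a1 a2
  obtain ⟨c2, c2'⟩ := XCINJ.low hTouch K hk hn hB.symm b1 b2
  obtain ⟨c3, c3'⟩ := XCINJ.high hTouch K' hn' hk' hT a3 a4
  obtain ⟨c4, c4'⟩ := XCINJ.high hTouch K' hk' hn' hT.symm b3 b4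
  have s1 : X2 ≤ X1 := by
    by_contra h
    push Not at h
    have := mul_pos (sub_pos.2 h) ht1
    nlinarith
  have s2 : X1 ≤ X2 := by
    by_contra h
    push Not at h
    have := mul_pos (sub_pos.2 h) ht2
    nlinarith
  have s3 : X1 = X2 := le_antisymm s2 s1
  subst s3
  have e3 : K.h k = K.h n + X1 * (K.t k - K.t n) := by
    apply le_antisymm c1
    linarith
  constructor
  · by_contra h
    have := c1' (fun h' => h h'.symm)
    linarith
  · by_contra h
    have := c3' (fun h' => h h'.symm)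
    rw [e1, e2] at this
    nlinarith

end XCinj2

theorem I_Cinj2 : StCinj2 := XCinj2.aux XCinj2.TTouch

end Pool.Agent.Work.MP_e17eac_co.PS

end

section

/-!
# Item CrlP: the crossing lemma for segments
-/

namespace Pool.Agent.Work.MP_e17eac_co.PS

open Finset
open Pool.Agent.Work.MP_e17eac_co.DH
open Pool.Agent.Work.MP_e17eac_co.DH.XSWEEP (GP EE tm)

namespace XCrlP

open Pool.Agent.Work.MP_e17eac_co.DH.XCRL (ind sum_ind)

set_option linter.unusedSectionVars false

variable {ι : Type} [Fintype ι] [DecidableEq ι] {x y : ι → ℝ}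

theorem seg (e : ι × ι) (X : ℝ) :
    y e.1 + (y e.2 - y e.1) / (x e.2 - x e.1) * (X - x e.1) = hE x y e - tm x y e * X := by
  have h : (y e.2 - y e.1) / (x e.2 - x e.1) = - tm x y e := by
    unfold tm XSWEEP.cm
    rw [← neg_div]
    congr 1
    ring
  rw [h]
  unfold hE XSWEEP.ht
  ring

theorem ht_fst (e : ι × ι) : XSWEEP.ht x y e.1 (tm x y e) = hE x y e := rfl

theorem ht_snd {e : ι × ι} (he : x e.1 < x e.2) : XSWEEP.ht x y e.2 (tm x y e) = hE x y e :=
  XSWEEP.ht_cm he.ne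

theorem eq_of (hg : GP x y) {e f : ι × ι} (he : x e.1 < x e.2) (hf : x f.1 < x f.2)
    (h1 : tm x y e = tm x y f) (h2 : hE x y e = hE x y f) : e = f := by
  have n1 : e.1 ≠ e.2 := fun h => by rw [h] at he; exact lt_irrefl _ he
  have n2 : f.1 ≠ f.2 := fun h => by rw [h] at hf; exact lt_irrefl _ hf
  have a1 := ht_fst (x := x) (y := y) e
  have a2 := ht_snd (y := y) he
  have b1 := ht_fst (x := x) (y := y) f
  have b2 := ht_snd (y := y) hf
  rw [← h1, ← h2] at b1 b2
  have m1 : f.1 = e.1 ∨ f.1 = e.2 := by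
    by_contra hh
    push Not at hh
    exact hg.conc n1 (Ne.symm hh.1) (Ne.symm hh.2) (a2.trans a1.symm) (b1.trans a1.symm)
  have m2 : f.2 = e.1 ∨ f.2 = e.2 := by
    by_contra hh
    push Not at hh
    exact hg.conc n1 (Ne.symm hh.1) (Ne.symm hh.2) (a2.trans a1.symm) (b2.trans a1.symm)
  rcases m1 with m1 | m1 <;> rcases m2 with m2 | m2
  · exact absurd (m1.trans m2.symm) n2
  · exact Prod.ext m1.symm m2.symm
  · rw [m1, m2] at hf
    exact absurd he (by linarith)
  · exact absurd (m1.trans m2.symm) n2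

/-- the abscissa of a crossing is not the slope of a common line -/
theorem cross_pt {e f : ι × ι} {p : ι} (h : tm x y e < tm x y f)
    (h1 : XSWEEP.ht x y p (tm x y e) = hE x y e) (h2 : XSWEEP.ht x y p (tm x y f) = hE x y f) :
    (hE x y f - hE x y e) / (tm x y f - tm x y e) = x p := by
  rw [div_eq_iff (by linarith), ← h1, ← h2]
  unfold XSWEEP.ht
  ring

theorem cross_ne {e f : ι × ι} (he : x e.1 < x e.2) (hf : x f.1 < x f.2) (h : PCross x y e f) :
    e.1 ≠ f.1 ∧ e.1 ≠ f.2 ∧ e.2 ≠ f.1 ∧ e.2 ≠ f.2 := by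
  obtain ⟨h0, c1, c2, c3, c4⟩ := h
  have a1 := ht_fst (x := x) (y := y) e
  have a2 := ht_snd (y := y) he
  have b1 := ht_fst (x := x) (y := y) f
  have b2 := ht_snd (y := y) hf
  refine ⟨fun hp => ?_, fun hp => ?_, fun hp => ?_, fun hp => ?_⟩
  · rw [← hp] at b1
    have := cross_pt h0 a1 b1
    linarith
  · rw [← hp] at b2
    have := cross_pt h0 a1 b2
    linarith
  · rw [← hp] at b1
    have := cross_pt h0 a2 b1
    linarith
  · rw [← hp] at b2
    have := cross_pt h0 a2 b2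
    linarith

theorem planar (hx : Function.Injective x) (hg : GP x y) (F : Finset (ι × ι)) (V : Finset ι)
    (hF : ∀ e ∈ F, e.1 ∈ V ∧ e.2 ∈ V ∧ x e.1 < x e.2)
    (hc : ∀ e ∈ F, ∀ f ∈ F, ¬ PCross x y e f) : F.card ≤ 4 * V.card := by
  refine I_PLANAR ι x y hx F V hF ?_ ?_
  · intro e he w _ h1 h2 h3
    have n1 : e.1 ≠ e.2 := fun h => by rw [← h] at h2; linarith
    have n2 : e.1 ≠ w := fun h => by rw [← h] at h1; exact lt_irrefl _ h1
    have n3 : e.2 ≠ w := fun h => by rw [← h] at h2; exact lt_irrefl _ h2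
    apply hg e.1 e.2 w n1 n2 n3
    linarith
  · intro e he f hf hef X h1 h2 h3 h4
    have e1 := (hF e he).2.2
    have f1 := (hF f hf).2.2
    rw [seg e, seg f]
    intro h
    rcases lt_trichotomy (tm x y e) (tm x y f) with h5 | h5 | h5
    · apply hc e he f hf
      have hX : (hE x y f - hE x y e) / (tm x y f - tm x y e) = X := by
        rw [div_eq_iff (by linarith)]
        linarith
      unfold PCross
      rw [hX]
      exact ⟨h5, h1, h2, h3, h4⟩
    · apply hef
      refine eq_of hg e1 f1 h5 ?_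
      rw [h5] at h
      linarith
    · apply hc f hf e he
      have hX : (hE x y e - hE x y f) / (tm x y e - tm x y f) = X := by
        rw [div_eq_iff (by linarith)]
        linarith
      unfold PCross
      rw [hX]
      exact ⟨h5, h3, h4, h1, h2⟩

theorem mem_pcp {F : Finset (ι × ι)} {z : (ι × ι) × (ι × ι)} :
    z ∈ pcp x y F ↔ (z.1 ∈ F ∧ z.2 ∈ F) ∧ PCross x y z.1 z.2 := by
  classical
  unfold pcp
  rw [mem_filter, mem_product]

theorem del (hx : Function.Injective x) (hg : GP x y) (F : Finset (ι × ι)) (V : Finset ι)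
    (hF : ∀ e ∈ F, e.1 ∈ V ∧ e.2 ∈ V ∧ x e.1 < x e.2) :
    F.card ≤ 4 * V.card + (pcp x y F).card := by
  have h1 := planar hx hg (F \ (pcp x y F).image Prod.fst) V
    (fun e he => hF e (mem_sdiff.1 he).1) (fun e he f hf hc => by
      rw [mem_sdiff] at he hf
      apply he.2
      rw [mem_image]
      exact ⟨(e, f), mem_pcp.2 ⟨⟨he.1, hf.1⟩, hc⟩, rfl⟩)
  have h4 := Finset.card_le_card_sdiff_add_card (s := F) (t := (pcp x y F).image Prod.fst)
  have h5 := Finset.card_image_le (s := pcp x y F) (f := Prod.fst)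
  omega

theorem card_F {s : ℕ} (z : Fin s) (c : ι → Fin s) (F : Finset (ι × ι)) :
    (F.filter (fun e => c e.1 = z ∧ c e.2 = z)).card = ∑ e ∈ F, ind z c {e.1, e.2} := by
  rw [Finset.card_filter]
  refine sum_congr rfl fun e _ => ?_
  unfold ind
  by_cases h1 : c e.1 = z <;> by_cases h2 : c e.2 = z <;> simp [h1, h2]

theorem card_V {s : ℕ} (z : Fin s) (c : ι → Fin s) :
    ((univ : Finset ι).filter (fun i => c i = z)).card = ∑ i : ι, ind z c {i} := by
  rw [Finset.card_filter]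
  refine sum_congr rfl fun n _ => ?_
  unfold ind
  simp

theorem card_P {s : ℕ} (z : Fin s) (c : ι → Fin s) (F : Finset (ι × ι)) :
    (pcp x y (F.filter (fun e => c e.1 = z ∧ c e.2 = z))).card =
      ∑ p ∈ pcp x y F, ind z c {p.1.1, p.1.2, p.2.1, p.2.2} := by
  have h1 : pcp x y (F.filter (fun e => c e.1 = z ∧ c e.2 = z)) =
      (pcp x y F).filter (fun p => (c p.1.1 = z ∧ c p.1.2 = z) ∧ (c p.2.1 = z ∧ c p.2.2 = z)) := by
    ext p
    rw [mem_filter, mem_pcp, mem_pcp, mem_filter, mem_filter]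
    tauto
  rw [h1, Finset.card_filter]
  refine sum_congr rfl fun p _ => ?_
  unfold ind
  by_cases h1 : c p.1.1 = z <;> by_cases h2 : c p.1.2 = z <;>
    by_cases h3 : c p.2.1 = z <;> by_cases h4 : c p.2.2 = z <;> simp [h1, h2, h3, h4]

end XCrlP

open XCrlP Pool.Agent.Work.MP_e17eac_co.DH.XCRL in
theorem I_CrlP : StCrlP := by
  intro ι _ _ x y hx hg F hF s hs
  obtain ⟨z⟩ : Nonempty (Fin s) := ⟨⟨0, hs⟩⟩
  have h1 : ∀ c : ι → Fin s, ∑ e ∈ F, ind z c {e.1, e.2} ≤
      4 * ∑ i : ι, ind z c {i} + ∑ p ∈ pcp x y F, ind z c {p.1.1, p.1.2, p.2.1, p.2.2} := by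
    intro c
    rw [← card_F, ← card_V, ← card_P]
    refine del hx hg _ _ fun e he => ?_
    obtain ⟨a1, a2, a3⟩ := mem_filter.1 he
    exact ⟨mem_filter.2 ⟨mem_univ _, a2⟩, mem_filter.2 ⟨mem_univ _, a3⟩, hF e a1⟩
  have h2 : ∑ c : ι → Fin s, ∑ e ∈ F, ind z c {e.1, e.2} ≤ ∑ c : ι → Fin s,
      (4 * ∑ i : ι, ind z c {i} + ∑ p ∈ pcp x y F, ind z c {p.1.1, p.1.2, p.2.1, p.2.2}) :=
    sum_le_sum fun c _ => h1 c
  have hT : 0 < s ^ Fintype.card ι := pow_pos hs _
  have hne : ∀ e : ι × ι, x e.1 < x e.2 → e.1 ≠ e.2 := fun e he h => by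
    rw [h] at he
    exact lt_irrefl _ he
  have e1 : s ^ 2 * ∑ c : ι → Fin s, ∑ e ∈ F, ind z c {e.1, e.2} =
      F.card * s ^ Fintype.card ι := by
    rw [sum_comm, mul_sum, Finset.card_eq_sum_ones, sum_mul]
    refine sum_congr rfl fun e he => ?_
    have := sum_ind z ({e.1, e.2} : Finset ι)
    rw [card_pair (hne e (hF e he))] at this
    rw [this, one_mul]
  have e2 : s * ∑ c : ι → Fin s, ∑ i : ι, ind z c {i} = Fintype.card ι * s ^ Fintype.card ι := by
    rw [sum_comm, mul_sum, ← Finset.card_univ, Finset.card_eq_sum_ones, sum_mul, ← Finset.card_eq_sum_ones]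
    refine sum_congr rfl fun i _ => ?_
    have := sum_ind z ({i} : Finset ι)
    rw [card_singleton, pow_one] at this
    rw [this, one_mul, Finset.card_univ]
  have e3 : s ^ 4 * ∑ c : ι → Fin s, ∑ p ∈ pcp x y F, ind z c {p.1.1, p.1.2, p.2.1, p.2.2} =
      (pcp x y F).card * s ^ Fintype.card ι := by
    rw [sum_comm, mul_sum, Finset.card_eq_sum_ones, sum_mul]
    refine sum_congr rfl fun p hp => ?_
    have := sum_ind z ({p.1.1, p.1.2, p.2.1, p.2.2} : Finset ι)
    obtain ⟨⟨b1, b2⟩, b3⟩ := mem_pcp.1 hp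
    obtain ⟨c1, c2, c3, c4⟩ := cross_ne (hF _ b1) (hF _ b2) b3
    have hcard : ({p.1.1, p.1.2, p.2.1, p.2.2} : Finset ι).card = 4 := by
      rw [card_insert_of_notMem, card_insert_of_notMem, card_pair (hne _ (hF _ b2))]
      · simp only [mem_insert, mem_singleton, not_or]
        exact ⟨c3, c4⟩
      · simp only [mem_insert, mem_singleton, not_or]
        exact ⟨hne _ (hF _ b1), c1, c2⟩
    rw [hcard] at this
    rw [this, one_mul]
  rw [sum_add_distrib, ← mul_sum] at h2
  set A := ∑ c : ι → Fin s, ∑ e ∈ F, ind z c {e.1, e.2}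
  set B := ∑ c : ι → Fin s, ∑ i : ι, ind z c {i}
  set C := ∑ c : ι → Fin s, ∑ p ∈ pcp x y F, ind z c {p.1.1, p.1.2, p.2.1, p.2.2}
  set T := s ^ Fintype.card ι
  have h3 : s ^ 4 * A ≤ s ^ 4 * (4 * B + C) := Nat.mul_le_mul_left _ h2
  have h4 : (F.card * s ^ 2) * T ≤ (4 * Fintype.card ι * s ^ 3 + (pcp x y F).card) * T := by
    calc (F.card * s ^ 2) * T = s ^ 4 * A := by
          have : s ^ 4 * A = s ^ 2 * (s ^ 2 * A) := by ring
          rw [this, e1]; ring
      _ ≤ s ^ 4 * (4 * B + C) := h3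
      _ = 4 * (s ^ 3 * (s * B)) + s ^ 4 * C := by ring
      _ = _ := by rw [e2, e3]; ring
  exact Nat.le_of_mul_le_mul_right h4 hT

end Pool.Agent.Work.MP_e17eac_co.PS

end

section

/-!
# Multilevel Dey bound
-/

namespace Pool.Agent.Work.MP_e17eac_co.PS

open Finset
open Pool.Agent.Work.MP_e17eac_co.DH
open Pool.Agent.Work.MP_e17eac_co.DH.XSWEEP (GP EE tm)

namespace XMDey

theorem arith (V n s X R : ℕ) (h1 : 8 * n * s ≤ V) (h2 : V ≤ 16 * n * s)
    (h : V * s ^ 2 ≤ 4 * n * s ^ 3 + X) (hX : X ≤ R ^ 2 * n ^ 2) :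
    V ^ 3 ≤ 512 * n ^ 4 * R ^ 2 := by
  have h3 : V * s ^ 2 ≤ 2 * X := by
    have h4 : 8 * n * s * s ^ 2 ≤ V * s ^ 2 := Nat.mul_le_mul_right _ h1
    nlinarith [h4, h]
  calc V ^ 3 = V * V * V := by ring
    _ ≤ (16 * n * s) * (16 * n * s) * V := Nat.mul_le_mul_right _ (Nat.mul_le_mul h2 h2)
    _ = 256 * n ^ 2 * (V * s ^ 2) := by ring
    _ ≤ 256 * n ^ 2 * (2 * X) := Nat.mul_le_mul_left _ h3
    _ ≤ 256 * n ^ 2 * (2 * (R ^ 2 * n ^ 2)) := Nat.mul_le_mul_left _ (Nat.mul_le_mul_left _ hX)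
    _ = 512 * n ^ 4 * R ^ 2 := by ring

theorem half (e A : ℕ) (hA : 1 ≤ A) (h : 8 * A ≤ e) :
    1 ≤ e / (8 * A) ∧ 8 * A * (e / (8 * A)) ≤ e ∧ e ≤ 16 * A * (e / (8 * A)) := by
  have hpos : 0 < 8 * A := by omega
  have h1 : 1 ≤ e / (8 * A) := (Nat.one_le_div_iff hpos).2 h
  refine ⟨h1, Nat.mul_div_le e (8 * A), ?_⟩
  have h2 : e < 8 * A * (e / (8 * A) + 1) := Nat.lt_mul_div_succ e hpos
  nlinarith [Nat.mul_le_mul_left (8 * A) h1]

theorem cross_card (h1 : StSweepAll) (h2 : StCinj2) {ι : Type} [Fintype ι] [DecidableEq ι]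
    [Nonempty ι] (x y : ι → ℝ) (h01 : ∀ i, 0 ≤ x i ∧ x i ≤ 1) (hinj : Function.Injective x)
    (hGP : GP x y) (Rs : Finset ℕ) :
    (pcp x y (Rs.biUnion (EE x y))).card ≤ Rs.card ^ 2 * (Fintype.card ι) ^ 2 := by
  classical
  choose K hKx hKy hKN hK1 hK2 using fun k => h1 ι x y k h01 hinj hGP
  choose g hg1 hg2 using hK2
  set lv : ι × ι → ℕ := fun e => XSWEEP.cnt x y e.1 e.2 with hlv
  set idx : ι × ι → ℕ := fun e => if h : e ∈ EE x y (lv e) then g (lv e) e h else 0 with hidx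
  have hmem : ∀ e ∈ Rs.biUnion (EE x y), lv e ∈ Rs ∧ e ∈ EE x y (lv e) := by
    intro e he
    obtain ⟨r, hr, her⟩ := Finset.mem_biUnion.1 he
    have : lv e = r := (XSWEEP.mem_EE.1 her).2
    rw [this]
    exact ⟨hr, her⟩
  have hprop : ∀ e ∈ Rs.biUnion (EE x y), idx e < (K (lv e)).N ∧
      ((K (lv e)).b (idx e), (K (lv e)).a (idx e)) = e := by
    intro e he
    have h := (hmem e he).2
    have hi : idx e = g (lv e) e h := by simp only [hidx, dif_pos h]
    rw [hi]
    exact ⟨hg1 _ _ h, hg2 _ _ h⟩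
  have htm : ∀ e ∈ Rs.biUnion (EE x y), tm x y e = (K (lv e)).t (idx e) := by
    intro e he
    obtain ⟨h3, h4⟩ := hprop e he
    have := (hK1 (lv e) (idx e) h3).2
    rw [h4] at this
    exact this
  have hhE : ∀ e ∈ Rs.biUnion (EE x y), hE x y e = (K (lv e)).h (idx e) := by
    intro e he
    obtain ⟨h3, h4⟩ := hprop e he
    have hm := (K (lv e)).meet (idx e) h3
    have hb : (K (lv e)).b (idx e) = e.1 := congrArg Prod.fst h4
    unfold hE KSys.h KSys.ht XSWEEP.ht
    rw [hm, htm e he, hb, hKx, hKy]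
  have hxa : ∀ e ∈ Rs.biUnion (EE x y), (K (lv e)).x ((K (lv e)).a (idx e)) = x e.2 := by
    intro e he
    have h4 := (hprop e he).2
    have ha : (K (lv e)).a (idx e) = e.2 := congrArg Prod.snd h4
    rw [ha, hKx]
  have hxb : ∀ e ∈ Rs.biUnion (EE x y), (K (lv e)).x ((K (lv e)).b (idx e)) = x e.1 := by
    intro e he
    have h4 := (hprop e he).2
    have ha : (K (lv e)).b (idx e) = e.1 := congrArg Prod.fst h4
    rw [ha, hKx]
  set φ : (ι × ι) × (ι × ι) → (ℕ × ℕ) × (ι × ι) := fun z =>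
    ((lv z.1, lv z.2), ((K (lv z.1)).tokB (idx z.1), (K (lv z.2)).tokT (idx z.2))) with hφ
  have hcard : ((Rs ×ˢ Rs) ×ˢ (univ : Finset (ι × ι))).card =
      Rs.card ^ 2 * (Fintype.card ι) ^ 2 := by
    rw [Finset.card_product, Finset.card_product, Finset.card_univ, Fintype.card_prod]
    ring
  rw [← hcard]
  refine Finset.card_le_card_of_injOn φ ?_ ?_
  · intro z hz
    have hz' := (Finset.mem_filter.1 (Finset.mem_coe.1 hz)).1
    obtain ⟨hz1, hz2⟩ := Finset.mem_product.1 hz'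
    simp only [hφ, Finset.coe_product, Set.mem_prod, Finset.mem_coe, Finset.coe_univ,
      Set.mem_univ, and_true]
    exact ⟨(hmem _ hz1).1, (hmem _ hz2).1⟩
  · intro z hz w hw hzw
    obtain ⟨hz', hzc⟩ := Finset.mem_filter.1 (Finset.mem_coe.1 hz)
    obtain ⟨hz1, hz2⟩ := Finset.mem_product.1 hz'
    obtain ⟨hw', hwc⟩ := Finset.mem_filter.1 (Finset.mem_coe.1 hw)
    obtain ⟨hw1, hw2⟩ := Finset.mem_product.1 hw'
    obtain ⟨e, f⟩ := z
    obtain ⟨e', f'⟩ := w
    simp only [hφ, Prod.mk.injEq] at hzw hz1 hz2 hw1 hw2 hzc hwc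
    obtain ⟨⟨he, hf⟩, hB, hT⟩ := hzw
    have p1 := hprop e hz1
    have p2 := hprop f hz2
    have p3 := hprop e' hw1
    have p4 := hprop f' hw2
    have q1 := htm e hz1
    have q2 := htm f hz2
    have q3 := htm e' hw1
    have q4 := htm f' hw2
    have r1 := hhE e hz1
    have r2 := hhE f hz2
    have r3 := hhE e' hw1
    have r4 := hhE f' hw2
    have a1 := hxa e hz1
    have a2 := hxa f hz2
    have a3 := hxa e' hw1
    have a4 := hxa f' hw2
    have b1 := hxb e hz1
    have b2 := hxb f hz2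
    have b3 := hxb e' hw1
    have b4 := hxb f' hw2
    rw [← he] at p3 q3 r3 a3 b3 hB
    rw [← hf] at p4 q4 r4 a4 b4 hT
    obtain ⟨c1, c2, c3, c4, c5⟩ := hzc
    obtain ⟨d1, d2, d3, d4, d5⟩ := hwc
    rw [r1, r2, q1, q2] at c2 c3 c4 c5
    rw [r3, r4, q3, q4] at d2 d3 d4 d5
    rw [q1, q2] at c1
    rw [q3, q4] at d1
    rw [← b1] at c2
    rw [← a1] at c3
    rw [← b2] at c4
    rw [← a2] at c5
    rw [← b3] at d2
    rw [← a3] at d3
    rw [← b4] at d4
    rw [← a4] at d5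
    obtain ⟨u1, u2⟩ := h2 ι (K (lv e)) (K (lv f)) (idx e) (idx f) (idx e') (idx f')
      p1.1 p3.1 p2.1 p4.1 c1 d1 ⟨c2, c3, c4, c5⟩ ⟨d2, d3, d4, d5⟩ hB hT
    have v1 : e = e' := by rw [← p1.2, ← p3.2, u1]
    have v2 : f = f' := by rw [← p2.2, ← p4.2, u2]
    rw [v1, v2]

end XMDey

theorem I_MDey (h1 : StSweepAll) (h2 : StCinj2) (h3 : StCrlP) : StMDey := by
  classical
  intro ι _ _ x y h01 hinj hGP Rs hV
  rcases isEmpty_or_nonempty ι with hι | hι
  · have : ∑ r ∈ Rs, (EE x y r).card = 0 := by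
      refine Finset.sum_eq_zero fun r _ => ?_
      rw [Finset.card_eq_zero, Finset.eq_empty_iff_forall_notMem]
      intro e _
      exact hι.elim e.1
    rw [this]
    simp
  · have hcard : (Rs.biUnion (EE x y)).card = ∑ r ∈ Rs, (EE x y r).card := by
      refine Finset.card_biUnion ?_
      intro r _ r' _ hrr
      rw [Function.onFun, Finset.disjoint_left]
      intro e he he'
      exact hrr ((XSWEEP.mem_EE.1 he).2.symm.trans (XSWEEP.mem_EE.1 he').2)
    have hX := XMDey.cross_card h1 h2 x y h01 hinj hGP Rs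
    have hn : 1 ≤ Fintype.card ι := Fintype.card_pos
    rw [← hcard] at hV ⊢
    obtain ⟨s1, s2, s3⟩ := XMDey.half _ _ hn hV
    have hF : ∀ e ∈ Rs.biUnion (EE x y), x e.1 < x e.2 := by
      intro e he
      obtain ⟨r, _, her⟩ := Finset.mem_biUnion.1 he
      exact (XSWEEP.mem_EE.1 her).1
    exact XMDey.arith _ _ _ _ _ s2 s3 (h3 ι x y hinj hGP _ hF _ s1) hX

end Pool.Agent.Work.MP_e17eac_co.PS

end

section

/-!
# Near linearity
-/

namespace Pool.Agent.Work.MP_e17eac_co.PS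

namespace XNL

lemma tel (μ : ℕ → ℝ) (j1 κ : ℕ) (M : ℝ) (h : ∀ a, a + κ ≤ j1 → μ (a + κ) - μ a ≤ κ * M) :
    ∀ t b : ℕ, b + κ * t ≤ j1 → μ (b + κ * t) - μ b ≤ κ * t * M := by
  intro t
  induction t with
  | zero =>
    intro b _
    simp
  | succ t ih =>
    intro b hb
    have e : b + κ * (t + 1) = (b + κ * t) + κ := by ring
    have h1 := ih b (by rw [e] at hb; omega)
    have h2 := h (b + κ * t) (by rw [e] at hb; exact hb)
    rw [e]
    push_cast
    have e2 : (κ : ℝ) * ((t : ℝ) + 1) * M = κ * t * M + κ * M := by ring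
    rw [e2]
    linarith

lemma incr (μ : ℕ → ℝ) (h : ∀ j, μ (j + 1) ≤ μ j + 1) (a κ : ℕ) : μ (a + κ) ≤ μ a + κ := by
  induction κ with
  | zero => simp
  | succ κ ih =>
    have := h (a + κ)
    rw [← add_assoc]
    push_cast
    linarith

end XNL

open XNL in
theorem I_NL : StNL := by
  intro J σ hJ hσ
  have hJ0 : (0 : ℝ) < J := by exact_mod_cast hJ
  have hpow : ∀ q, (0 : ℝ) < (J : ℝ) ^ q := fun q => pow_pos hJ0 q
  refine ⟨max (J ^ J) ⌈((J : ℝ) ^ J) / σ⌉₊, ?_⟩
  intro μ j1 hmono hinc hj1 hbig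
  have hJJ : J ^ J ≤ j1 := (le_max_left _ _).trans hj1
  have hJσ : ((J : ℝ) ^ J) ≤ σ * j1 := by
    have h1 : ((J : ℝ) ^ J) / σ ≤ j1 := by
      refine (Nat.le_ceil _).trans ?_
      exact_mod_cast (le_max_right _ _).trans hj1
    rw [div_le_iff₀ hσ] at h1
    linarith
  have hqJ : ∀ q, q ≤ J → J ^ q ≤ J ^ J := fun q hq => Nat.pow_le_pow_right (by omega) hq
  have hex : ∀ q, ∃ a : ℕ, q ≤ J → (a + J ^ q ≤ j1 ∧ ∀ a', a' + J ^ q ≤ j1 →
      μ (a' + J ^ q) - μ a' ≤ μ (a + J ^ q) - μ a) := by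
    intro q
    by_cases hq : q ≤ J
    · obtain ⟨a, ha, hmax⟩ := Finset.exists_max_image (Finset.range (j1 + 1 - J ^ q))
        (fun a => μ (a + J ^ q) - μ a) ⟨0, by
          rw [Finset.mem_range]
          have := (hqJ q hq).trans hJJ
          omega⟩
      rw [Finset.mem_range] at ha
      refine ⟨a, fun _ => ⟨by omega, fun a' ha' => hmax a' ?_⟩⟩
      rw [Finset.mem_range]
      omega
    · exact ⟨0, fun h => absurd h hq⟩
  choose a ha using hex
  obtain ⟨M, hM⟩ : ∃ M : ℕ → ℝ, ∀ q, M q = (μ (a q + J ^ q) - μ (a q)) / (J : ℝ) ^ q :=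
    ⟨_, fun q => rfl⟩
  have hM1 : ∀ q, q ≤ J → ∀ a', a' + J ^ q ≤ j1 → μ (a' + J ^ q) - μ a' ≤ ((J ^ q : ℕ) : ℝ) * M q := by
    intro q hq a' ha'
    have h1 := (ha q hq).2 a' ha'
    rw [hM]
    push_cast
    rw [mul_div_cancel₀ _ (hpow q).ne']
    exact h1
  have hM0 : ∀ q, M q ≤ 1 := by
    intro q
    rw [hM, div_le_one (hpow q)]
    have := incr μ hinc (a q) (J ^ q)
    push_cast at this
    linarith
  have hMσ : ∀ q, q ≤ J → σ ≤ M q := by
    intro q hq
    have hp : 0 < J ^ q := Nat.pow_pos (by omega)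
    obtain ⟨t, ht⟩ : ∃ t, t = j1 / J ^ q := ⟨_, rfl⟩
    have h1 : J ^ q * t ≤ j1 := by rw [ht]; exact Nat.mul_div_le _ _
    have h2 : j1 < J ^ q * t + J ^ q := by
      rw [ht]
      have := Nat.lt_mul_div_succ j1 hp
      rw [Nat.mul_add, mul_one] at this
      exact this
    have ht1 : 1 ≤ t := by
      rw [ht]
      exact (Nat.one_le_div_iff hp).2 ((hqJ q hq).trans hJJ)
    have h3 := tel μ j1 (J ^ q) (M q) (hM1 q hq) t 0 (by omega)
    rw [Nat.zero_add] at h3
    obtain ⟨d, hd⟩ : ∃ d, j1 = J ^ q * t + d := ⟨j1 - J ^ q * t, by omega⟩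
    have h4 := incr μ hinc (J ^ q * t) d
    rw [← hd] at h4
    have h5 : (d : ℝ) ≤ σ * j1 := by
      have : (d : ℝ) ≤ (J : ℝ) ^ J := by
        have h6 : d ≤ J ^ J := by have := hqJ q hq; omega
        exact_mod_cast h6
      linarith
    have h7 : σ * ((J ^ q : ℕ) * t) ≤ σ * j1 := by
      apply mul_le_mul_of_nonneg_left _ hσ.le
      exact_mod_cast h1
    have h8 : σ * (((J ^ q : ℕ) : ℝ) * t) ≤ M q * (((J ^ q : ℕ) : ℝ) * t) := by
      have : 2 * σ * (j1 : ℝ) ≤ ((J ^ q : ℕ) : ℝ) * t * M q + d := by linarith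
      nlinarith
    have h9 : (0 : ℝ) < ((J ^ q : ℕ) : ℝ) * t := by
      have : 0 < J ^ q * t := Nat.mul_pos hp ht1
      exact_mod_cast this
    exact le_of_mul_le_mul_right h8 h9
  -- a scale with small increment
  obtain ⟨q, hq1, hqJ', hqM⟩ : ∃ q, 1 ≤ q ∧ q ≤ J ∧ M (q - 1) ≤ M q + 1 / J := by
    by_contra hcon
    push Not at hcon
    have h1 : ∀ q, q ≤ J → M q + q / J ≤ M 0 ∧ (1 ≤ q → M q + q / J < M 0) := by
      intro q
      induction q with
      | zero =>
        intro _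
        refine ⟨by simp, fun h => absurd h (by omega)⟩
      | succ q ih =>
        intro hq
        have h2 := (ih (by omega)).1
        have h3 := hcon (q + 1) (by omega) hq
        rw [Nat.add_sub_cancel] at h3
        have e : M (q + 1) + ((q + 1 : ℕ) : ℝ) / J = (M (q + 1) + 1 / J) + q / J := by
          push_cast
          ring
        rw [e]
        exact ⟨by linarith, fun _ => by linarith⟩
    have h2 := (h1 J le_rfl).2 hJ
    rw [div_self hJ0.ne'] at h2
    have h3 := hM0 0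
    have h4 := hMσ J le_rfl
    linarith
  refine ⟨J ^ (q - 1), a q, M q, Nat.one_le_pow _ _ (by omega), ?_, ?_, hMσ q hqJ', hM0 q, ?_⟩
  · exact ((hqJ (q - 1) (by omega))).trans (le_max_left _ _)
  · have e : J ^ (q - 1) * J = J ^ q := by rw [← pow_succ]; congr 1; omega
    rw [e]
    exact (ha q hqJ').1
  · intro i hi
    have e : J ^ (q - 1) * J = J ^ q := by rw [← pow_succ]; congr 1; omega
    have hend := (ha q hqJ').1
    rw [← e] at hend
    have hκ0 : (0 : ℝ) < ((J ^ (q - 1) : ℕ) : ℝ) := by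
      have := Nat.pow_pos (n := q - 1) (show 0 < J by omega)
      exact_mod_cast this
    have hiJ : J ^ (q - 1) * i ≤ J ^ (q - 1) * J := Nat.mul_le_mul_left _ hi
    have hT := tel μ j1 (J ^ (q - 1)) (M (q - 1)) (hM1 (q - 1) (by omega))
    have h1 := hT i (a q) (by omega)
    obtain ⟨r, hr⟩ : ∃ r, J = i + r := ⟨J - i, by omega⟩
    have h2 := hT r (a q + J ^ (q - 1) * i) (by
      have : J ^ (q - 1) * i + J ^ (q - 1) * r = J ^ (q - 1) * J := by
        rw [← Nat.mul_add, ← hr]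
      omega)
    have e2 : a q + J ^ (q - 1) * i + J ^ (q - 1) * r = a q + J ^ (q - 1) * J := by
      rw [add_assoc, ← Nat.mul_add, ← hr]
    rw [e2] at h2
    have e3 : μ (a q + J ^ (q - 1) * J) - μ (a q) = ((J ^ (q - 1) : ℕ) : ℝ) * J * M q := by
      have h3 : (J : ℝ) ^ (q - 1) * J = (J : ℝ) ^ q := by exact_mod_cast e
      rw [e, hM]
      push_cast
      rw [h3, mul_div_cancel₀ _ (hpow q).ne']
    have hrJ : (J : ℝ) = i + r := by exact_mod_cast hr
    set κ : ℝ := ((J ^ (q - 1) : ℕ) : ℝ)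
    have h5 : κ * i * M (q - 1) ≤ κ * i * (M q + 1 / J) :=
      mul_le_mul_of_nonneg_left hqM (by positivity)
    have h6 : κ * r * M (q - 1) ≤ κ * r * (M q + 1 / J) :=
      mul_le_mul_of_nonneg_left hqM (by positivity)
    have hi1 : (i : ℝ) * (1 / J) ≤ 1 := by
      rw [mul_one_div, div_le_one hJ0]
      exact_mod_cast hi
    have hr1 : (r : ℝ) * (1 / J) ≤ 1 := by
      rw [mul_one_div, div_le_one hJ0]
      have : r ≤ J := by omega
      exact_mod_cast this
    have h7 : κ * (i * (1 / J)) ≤ κ * 1 := mul_le_mul_of_nonneg_left hi1 hκ0.le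
    have h8 : κ * (r * (1 / J)) ≤ κ * 1 := mul_le_mul_of_nonneg_left hr1 hκ0.le
    have e4 : κ * J * M q = κ * i * M q + κ * r * M q := by rw [hrJ]; ring
    have e5 : κ * i * (M q + 1 / J) = κ * i * M q + κ * (i * (1 / J)) := by ring
    have e6 : κ * r * (M q + 1 / J) = κ * r * M q + κ * (r * (1 / J)) := by ring
    have e7 : M q * κ * i = κ * i * M q := by ring
    rw [abs_le, e7]
    constructor
    · linarith
    · linarith

end Pool.Agent.Work.MP_e17eac_co.PS

end

section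

/-!
# Project PS, block T2, item SweepAll
-/

set_option autoImplicit false

namespace Pool.Agent.Work.MP_e17eac_co.PS

open Finset
open Pool.Agent.Work.MP_e17eac_co.DH
open Pool.Agent.Work.MP_e17eac_co.DH.XSWEEP (GP EE tm)

namespace XSweepAll

open Pool.Agent.Work.MP_e17eac_co.DH.XSWEEP

section

variable {ι : Type} [Fintype ι] [DecidableEq ι] {x y : ι → ℝ}

/-- the sweep of a level with all its edges -/
theorem main [Nonempty ι] (k : ℕ) (h01 : ∀ i, 0 ≤ x i ∧ x i ≤ 1) (hx : Function.Injective x)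
    (hg : GP x y) : ∃ K : KSys ι, K.x = x ∧ K.y = y ∧ K.N = (EE x y k).card ∧
    (∀ n, n < K.N → (K.b n, K.a n) ∈ EE x y k ∧ tm x y (K.b n, K.a n) = K.t n) ∧
    (∀ e ∈ EE x y k, ∃ n, n < K.N ∧ (K.b n, K.a n) = e) := by
  classical
  obtain ⟨t, e, M, he, ht1, hsurj, hM, hM'⟩ := exists_sort hg k
  choose L hL using fun s => exists_level (x := x) (y := y) k s
  set N := (EE x y k).card with hN
  -- times of edges below `t n`
  have hbelow : ∀ n, n ≤ N → ∀ e' ∈ EE x y k, tm x y e' < t n → ∃ m, m < n ∧ m < N ∧ t m = tm x y e' := by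
    intro n hn e' he' hlt
    obtain ⟨m, hm, hm'⟩ := hsurj e' he'
    refine ⟨m, ?_, hm, hm'⟩
    rcases lt_trichotomy m n with h | h | h
    · exact h
    · rw [h] at hm'
      linarith
    · have h1 : n < N := h.trans hm
      have := ht1 n m h hm
      linarith
  have hswap : ∀ n, n < N → B x y k (t (n + 1)) =
      insert (e n).1 ((B x y k (t n)).erase (e n).2) := by
    intro n hn
    obtain ⟨h1, h2⟩ := he n hn
    have h3 : t n < t (n + 1) := by
      by_cases h : n + 1 < N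
      · exact ht1 n (n + 1) (Nat.lt_succ_self n) h
      · rw [hM' (n + 1) (not_lt.mp h)]
        exact hM n hn
    have := B_swap hg hx h1 (s' := t (n + 1)) (by rw [h2]; exact h3) (fun e' he' h => by
      obtain ⟨m, h4, h5, h6⟩ := hbelow (n + 1) hn e' he' h.2
      rw [h2, ← h6] at h
      rcases (Nat.lt_succ_iff.mp h4).lt_or_eq with h7 | h7
      · have := ht1 m n h7 hn
        linarith [h.1]
      · rw [h7] at h
        exact lt_irrefl _ h.1)
    rw [this, h2]
  have hlev : ∀ n, n ≤ N → ∀ s, (∀ k, k < n → t k ≤ s) → (∀ k, n ≤ k → k < N → s ≤ t k) →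
      (∀ i ∈ B x y k (t n), ht x y i s ≤ L s) ∧ (∀ i, i ∉ B x y k (t n) → L s ≤ ht x y i s) := by
    intro n hn s h1 h2
    by_cases hcase : ∃ m, m + 1 = n ∧ t m = s
    · obtain ⟨m, rfl, rfl⟩ := hcase
      have hm : m < N := hn
      obtain ⟨h3, h4⟩ := he m hm
      have a1 : (e m).2 ∈ B x y k (t m) := by
        rw [mem_B, ← h4, R_snd hg hx h3]
      have a2 : (e m).1 ∉ B x y k (t m) := by
        rw [mem_B, ← h4, R_fst hg hx h3]
        omega
      have a3 : ht x y (e m).2 (t m) = ht x y (e m).1 (t m) := by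
        rw [← h4]
        exact ht_cm (mem_EE.mp h3).1.ne
      rw [hswap m hm]
      refine ⟨fun i hi => ?_, fun i hi => ?_⟩
      · rcases mem_insert.mp hi with rfl | hi
        · rw [← a3]
          exact (hL _).1 _ a1
        · exact (hL _).1 _ (mem_of_mem_erase hi)
      · rw [mem_insert, mem_erase, not_or, not_and] at hi
        by_cases hi2 : i = (e m).2
        · rw [hi2, a3]
          exact (hL _).2 _ a2
        · exact (hL _).2 _ (hi.2 hi2)
    · have hB : B x y k s = B x y k (t n) := by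
        rcases le_total s (t n) with h3 | h3
        · apply B_const hg hx h3
          rintro e' he' ⟨h4, h5⟩
          obtain ⟨m, h6, h7, h8⟩ := hbelow n hn e' he' h5
          have h9 := h1 m h6
          have h10 : t m = s := le_antisymm h9 (by rw [h8]; exact h4)
          rcases (Nat.succ_le_iff.mpr h6).lt_or_eq with h11 | h11
          · -- a later edge before `n`
            have h12 := h1 (m + 1) h11
            have h13 := ht1 m (m + 1) (Nat.lt_succ_self m) (by omega)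
            linarith
          · exact hcase ⟨m, h11, h10⟩
        · symm
          apply B_const hg hx h3
          rintro e' he' ⟨h4, h5⟩
          obtain ⟨m, h6, h7⟩ := hsurj e' he'
          by_cases h8 : n ≤ m
          · have := h2 m h8 h6
            linarith
          · push Not at h8
            by_cases h9 : n < N
            · have := ht1 m n h8 h9
              linarith
            · have h10 := hM m h6
              rw [hM' n (not_lt.mp h9)] at h4
              linarith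
      rw [← hB]
      exact hL s
  refine ⟨{ x := x, y := y, N := N, t := t, a := fun n => (e n).2, b := fun n => (e n).1,
            S := fun n => B x y k (t n), L := L
            x_nonneg := fun i => (h01 i).1
            x_le_one := fun i => (h01 i).2
            t_lt := ht1
            a_mem := fun n hn => ?_
            b_mem := fun n hn => ?_
            S_succ := hswap
            x_lt := fun n hn => (mem_EE.mp (he n hn).1).1
            meet := fun n hn => ?_
            third := fun n hn i h1 h2 => ?_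
            below := fun n hn s h1 h2 => (hlev n hn s h1 h2).1
            above := fun n hn s h1 h2 => (hlev n hn s h1 h2).2 }, rfl, rfl, rfl,
            fun n hn => he n hn, fun e' he' => ?_⟩
  · obtain ⟨h3, h4⟩ := he n hn
    rw [mem_B, ← h4, R_snd hg hx h3]
  · obtain ⟨h3, h4⟩ := he n hn
    rw [mem_B, ← h4, R_fst hg hx h3]
    omega
  · obtain ⟨h3, h4⟩ := he n hn
    show ht x y (e n).2 (t n) = ht x y (e n).1 (t n)
    rw [← h4]
    exact ht_cm (mem_EE.mp h3).1.ne
  · obtain ⟨h3, h4⟩ := he n hn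
    have h5 := (mem_EE.mp h3).1
    show ht x y i (t n) ≠ ht x y (e n).2 (t n)
    intro h6
    refine hg.conc (i := (e n).2) (j := (e n).1) (l := i) (fun h => ?_) (Ne.symm h1) (Ne.symm h2)
      (s := t n) ?_ h6
    · rw [h] at h5
      exact lt_irrefl _ h5
    · rw [← h4]
      exact (ht_cm h5.ne).symm
  · obtain ⟨n, hn, hn'⟩ := hsurj e' he'
    refine ⟨n, hn, ?_⟩
    obtain ⟨h1, h2⟩ := he n hn
    exact EE_inj hg h1 he' (h2.trans hn')

/-- the number of lines below a level is constant -/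
theorem card_S (K : KSys ι) (n : ℕ) (hn : n ≤ K.N) : (K.S n).card = (K.S 0).card := by
  induction n with
  | zero => rfl
  | succ n ih =>
    have hn' : n < K.N := hn
    rw [K.S_succ n hn', card_insert_of_notMem (fun h => K.b_mem n hn' (mem_of_mem_erase h)),
      card_erase_of_mem (K.a_mem n hn'), ← ih hn'.le]
    have : 0 < (K.S n).card := card_pos.2 ⟨_, K.a_mem n hn'⟩
    omega

theorem fullE (K : KSys ι) (hx : Function.Injective K.x) : ∃ k : ℕ, ∀ n, n < K.N →
    (K.b n, K.a n) ∈ EE K.x K.y k ∧ tm K.x K.y (K.b n, K.a n) = K.t n := by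
  classical
  refine ⟨(K.S 0).card - 1, fun n hn => ?_⟩
  have hlt := K.x_lt n hn
  have hmeet := K.meet n hn
  have hcm : K.t n = cm K.x K.y (K.b n) (K.a n) := eq_cm hlt.ne hmeet
  refine ⟨mem_EE.mpr ⟨hlt, ?_⟩, hcm.symm⟩
  have h1 : ∀ k, k < n → K.t k ≤ K.t n := fun k hk => (K.t_lt k n hk hn).le
  have h2 : ∀ k, n ≤ k → k < K.N → K.t n ≤ K.t k := by
    intro k hk hk'
    rcases hk.lt_or_eq with h | h
    · exact (K.t_lt n k h hk').le
    · rw [h]
  have hb := K.below n hn.le (K.t n) h1 h2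
  have ha := K.above n hn.le (K.t n) h1 h2
  have hba := hb _ (K.a_mem n hn)
  have hab := ha _ (K.b_mem n hn)
  have hset : univ.filter (fun l => XSWEEP.ht K.x K.y l (cm K.x K.y (K.b n) (K.a n)) <
      XSWEEP.ht K.x K.y (K.b n) (cm K.x K.y (K.b n) (K.a n))) = (K.S n).erase (K.a n) := by
    ext l
    rw [mem_filter, mem_erase, ← hcm]
    simp only [mem_univ, true_and]
    unfold XSWEEP.ht
    constructor
    · intro h
      constructor
      · rintro rfl
        linarith
      · by_contra hl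
        have := ha l hl
        linarith
    · rintro ⟨h3, h4⟩
      have h5 := hb l h4
      have h6 : l ≠ K.b n := fun h => K.b_mem n hn (h ▸ h4)
      have h7 := K.third n hn l h3 h6
      exact lt_of_le_of_ne (by linarith) fun h => h7 (by linarith)
  unfold cnt
  rw [hset, card_erase_of_mem (K.a_mem n hn), card_S K n hn.le]

theorem Pr_trans {i j l : ι} {s : ℝ} (h1 : Pr x y i j s) (h2 : Pr x y j l s) : Pr x y i l s := by
  unfold Pr at *
  rcases h1 with h1 | ⟨h1, h1'⟩ <;> rcases h2 with h2 | ⟨h2, h2'⟩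
  · exact Or.inl (by linarith)
  · exact Or.inl (by linarith)
  · exact Or.inl (by linarith)
  · exact Or.inr ⟨by linarith, by linarith⟩

theorem R_lt {i j : ι} {s : ℝ} (h : Pr x y i j s) : XSWEEP.R x y j s < XSWEEP.R x y i s := by
  classical
  unfold XSWEEP.R
  refine card_lt_card ⟨fun l hl => ?_, fun hsub => ?_⟩
  · rw [mem_filter] at hl ⊢
    exact ⟨hl.1, Pr_trans h hl.2⟩
  · have h1 : j ∈ univ.filter (fun l => Pr x y i l s) := mem_filter.2 ⟨mem_univ _, h⟩
    have h2 := hsub h1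
    rw [mem_filter] at h2
    exact not_Pr_self _ _ h2.2

theorem Rinj (hx : Function.Injective x) (s : ℝ) :
    Function.Injective (fun i => XSWEEP.R x y i s) := by
  intro i j hij
  by_contra hne
  simp only at hij
  have hxx : x i ≠ x j := fun h => hne (hx h)
  have htot : Pr x y i j s ∨ Pr x y j i s := by
    unfold Pr
    rcases lt_trichotomy (XSWEEP.ht x y j s) (XSWEEP.ht x y i s) with h | h | h
    · exact Or.inl (Or.inl h)
    · rcases lt_or_gt_of_ne hxx with h' | h'
      · exact Or.inl (Or.inr ⟨h, h'⟩)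
      · exact Or.inr (Or.inr ⟨h.symm, h'⟩)
    · exact Or.inr (Or.inl h)
  rcases htot with h | h
  · have := R_lt h
    omega
  · have := R_lt h
    omega

end

end XSweepAll

theorem I_SweepAll : StSweepAll ∧ StFullE ∧ StRinj := by
  refine ⟨?_, ?_, ?_⟩
  · intro ι _ _ _ x y k h01 hx hg
    exact XSweepAll.main k h01 hx hg
  · intro ι _ _ K hx
    exact XSweepAll.fullE K hx
  · intro ι _ _ x y hx s
    exact XSweepAll.Rinj hx s

end Pool.Agent.Work.MP_e17eac_co.PS

end

section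

/-!
# T2: the window bound
-/

namespace Pool.Agent.Work.MP_e17eac_co.PS

open Finset
open Pool.Agent.Work.MP_e17eac_co.DH
open Pool.Agent.Work.MP_e17eac_co.DH.XSWEEP (GP EE tm R)

namespace XT2

variable {ι : Type} [Fintype ι] [DecidableEq ι]

/-- a visited line has rank `k` or `k + 1` at some time of the window -/
lemma loc (K : KSys ι) (hx : Function.Injective K.x) (hg : GP K.x K.y) (k : ℕ)
    (hk : ∀ n, n < K.N → (K.b n, K.a n) ∈ EE K.x K.y k ∧ tm K.x K.y (K.b n, K.a n) = K.t n)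
    (u v : ℝ) (p : ι) (hp : p ∈ visI K u v) :
    ∃ s, u ≤ s ∧ s < v ∧ k ≤ R K.x K.y p s ∧ R K.x K.y p s ≤ k + 1 := by
  classical
  unfold visI KSys.lines at hp
  rw [mem_union] at hp
  rcases hp with hp | hp
  · obtain ⟨n, hn, rfl⟩ := mem_image.1 hp
    rw [mem_filter, mem_range] at hn
    obtain ⟨h1, h2⟩ := hk n hn.1
    have h3 : R K.x K.y (K.a n) (tm K.x K.y (K.b n, K.a n)) = k := XSWEEP.R_snd hg hx h1
    rw [h2] at h3
    exact ⟨K.t n, hn.2.1, hn.2.2, by omega, by omega⟩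
  · obtain ⟨n, hn, rfl⟩ := mem_image.1 hp
    rw [mem_filter, mem_range] at hn
    obtain ⟨h1, h2⟩ := hk n hn.1
    have h3 : R K.x K.y (K.b n) (tm K.x K.y (K.b n, K.a n)) = k + 1 := XSWEEP.R_fst hg hx h1
    rw [h2] at h3
    exact ⟨K.t n, hn.2.1, hn.2.2, by omega, by omega⟩

/-- the levels near `k` -/
def Rs (k T : ℕ) : Finset ℕ := Ico (k - T) k ∪ Ico (k + 1) (k + 1 + T)

lemma Rs_card (k T : ℕ) : (Rs k T).card ≤ 2 * T := by
  unfold Rs
  refine (card_union_le _ _).trans ?_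
  rw [Nat.card_Ico, Nat.card_Ico]
  omega

open Classical in
/-- vertices of the levels near `k` -/
noncomputable def FF (x y : ι → ℝ) (k T : ℕ) : Finset (ι × ι) := (Rs k T).biUnion (EE x y)

lemma FF_card (x y : ι → ℝ) (k T : ℕ) : (FF x y k T).card ≤ ∑ r ∈ Rs k T, (EE x y r).card := by
  classical
  unfold FF
  exact card_biUnion_le

open Classical in
/-- far lines have many incident vertices in the window -/
lemma far (x y : ι → ℝ) (hx : Function.Injective x) (hg : GP x y) (k T : ℕ)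
    (u s v : ℝ) (hus : u ≤ s) (hsv : s < v) (p : ι) (h1 : k ≤ R x y p s) (h2 : R x y p s ≤ k + 1)
    (h3 : ¬ (k - T ≤ R x y p u ∧ R x y p u ≤ k + 1 + T)) :
    T ≤ ((FF x y k T).filter (fun e => (u ≤ tm x y e ∧ tm x y e < v) ∧
      (e.1 = p ∨ e.2 = p))).card := by
  -- choose a vertex for each level of a set of `T` levels
  have key : ∀ I : Finset ℕ, I ⊆ Rs k T → I.card = T →
      (∀ r ∈ I, ∃ e ∈ EE x y r, u ≤ tm x y e ∧ tm x y e < s ∧ (e.1 = p ∨ e.2 = p)) →
      T ≤ ((FF x y k T).filter (fun e => (u ≤ tm x y e ∧ tm x y e < v) ∧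
        (e.1 = p ∨ e.2 = p))).card := by
    intro I hI hcard hex
    have hex' : ∀ r, ∃ e, r ∈ I → e ∈ EE x y r ∧ u ≤ tm x y e ∧ tm x y e < s ∧
        (e.1 = p ∨ e.2 = p) := by
      intro r
      by_cases hr : r ∈ I
      · obtain ⟨e, he⟩ := hex r hr
        exact ⟨e, fun _ => he⟩
      · exact ⟨(p, p), fun h => absurd h hr⟩
    choose e he using hex'
    calc T = I.card := hcard.symm
      _ ≤ _ := card_le_card_of_injOn e (fun r hr => by
          obtain ⟨h4, h5, h6, h7⟩ := he r hr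
          rw [mem_coe, mem_filter]
          refine ⟨?_, ⟨h5, h6.trans hsv⟩, h7⟩
          unfold FF
          rw [mem_biUnion]
          exact ⟨r, hI hr, h4⟩) (fun r hr r' hr' h => by
          have a1 := (XSWEEP.mem_EE.1 (he r hr).1).2
          have a2 := (XSWEEP.mem_EE.1 (he r' hr').1).2
          rw [← a1, ← a2, h])
  by_cases hlow : R x y p u < k - T
  · refine key (Ico (k - T) k) subset_union_left ?_ ?_
    · rw [Nat.card_Ico]; omega
    · intro r hr
      rw [mem_Ico] at hr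
      obtain ⟨e, h4, h5, h6, h7⟩ := XSWEEP.cross_up hg hx (k := r) (i := p) hus (by omega)
        (by omega)
      exact ⟨e, h4, h5, h6, Or.inr h7⟩
  · refine key (Ico (k + 1) (k + 1 + T)) subset_union_right ?_ ?_
    · rw [Nat.card_Ico]; omega
    · intro r hr
      rw [mem_Ico] at hr
      obtain ⟨e, h4, h5, h6, h7⟩ := XSWEEP.cross_down hg hx (k := r) (i := p) hus (by omega)
        (by omega)
      exact ⟨e, h4, h5, h6, Or.inl h7⟩

open Classical in
/-- sum over disjoint windows -/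
lemma windows {α : Type} (F : Finset α) (f : α → ℝ) (A : Finset ℕ) (u v : ℕ → ℝ)
    (hd : ∀ c ∈ A, ∀ c' ∈ A, c ≠ c' → v c ≤ u c' ∨ v c' ≤ u c) :
    ∑ c ∈ A, (F.filter (fun e => u c ≤ f e ∧ f e < v c)).card ≤ F.card := by
  rw [← card_biUnion]
  · apply card_le_card
    intro e he
    obtain ⟨c, _, hc⟩ := mem_biUnion.1 he
    exact (mem_filter.1 hc).1
  · intro c hc c' hc' hne
    rw [Function.onFun, disjoint_left]
    intro e he he'
    rw [mem_filter] at he he'
    rcases hd c hc c' hc' hne with h | h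
    · linarith [he.2.2, he'.2.1]
    · linarith [he.2.1, he'.2.2]

lemma incid (F : Finset (ι × ι)) (q : ι × ι → Prop) [DecidablePred q] :
    ∑ p : ι, (F.filter (fun e => q e ∧ (e.1 = p ∨ e.2 = p))).card ≤
      2 * (F.filter (fun e => q e)).card := by
  have h1 : ∀ p : ι, (F.filter (fun e => q e ∧ (e.1 = p ∨ e.2 = p))).card ≤
      ∑ e ∈ F.filter (fun e => q e), ((if e.1 = p then 1 else 0) + (if e.2 = p then 1 else 0)) := by
    intro p
    rw [← filter_filter, card_filter]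
    refine sum_le_sum fun e _ => ?_
    by_cases h1 : e.1 = p <;> by_cases h2 : e.2 = p <;> simp [h1, h2]
  refine (sum_le_sum fun p _ => h1 p).trans ?_
  rw [sum_comm]
  have h2 : ∀ e : ι × ι, ∑ p : ι, ((if e.1 = p then 1 else 0) + (if e.2 = p then 1 else 0)) = 2 := by
    intro e
    rw [sum_add_distrib]
    simp
  rw [sum_congr rfl fun e _ => h2 e, sum_const, smul_eq_mul, mul_comm]

/-- The count, with a parameter `T`. -/
lemma count (hRi : StRinj) (K : KSys ι) (hx : Function.Injective K.x) (hg : GP K.x K.y) (k : ℕ)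
    (hk : ∀ n, n < K.N → (K.b n, K.a n) ∈ EE K.x K.y k ∧ tm K.x K.y (K.b n, K.a n) = K.t n)
    (A : Finset ℕ) (u v : ℕ → ℝ)
    (hd : ∀ c ∈ A, ∀ c' ∈ A, c ≠ c' → v c ≤ u c' ∨ v c' ≤ u c) (T : ℕ) :
    (∑ c ∈ A, (visI K (u c) (v c)).card) * T ≤ A.card * (2 * T + 2) * T +
      2 * ∑ r ∈ Rs k T, (EE K.x K.y r).card := by
  classical
  have h1 : ∀ c ∈ A, (visI K (u c) (v c)).card * T ≤ (2 * T + 2) * T +
      2 * ((FF K.x K.y k T).filter (fun e => u c ≤ tm K.x K.y e ∧ tm K.x K.y e < v c)).card := by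
    intro c _
    set near := (visI K (u c) (v c)).filter (fun p => k - T ≤ R K.x K.y p (u c) ∧
      R K.x K.y p (u c) ≤ k + 1 + T)
    set fr := (visI K (u c) (v c)).filter (fun p => ¬ (k - T ≤ R K.x K.y p (u c) ∧
      R K.x K.y p (u c) ≤ k + 1 + T))
    have hsplit : near.card + fr.card = (visI K (u c) (v c)).card :=
      card_filter_add_card_filter_not _
    have hnear : near.card ≤ 2 * T + 2 := by
      calc near.card ≤ (Icc (k - T) (k + 1 + T)).card :=
            card_le_card_of_injOn (fun p => R K.x K.y p (u c)) (fun p hp => by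
              have := (mem_filter.1 (mem_coe.1 hp)).2
              exact mem_coe.2 (mem_Icc.2 this)) (fun p _ p' _ h => hRi ι K.x K.y hx (u c) h)
        _ ≤ 2 * T + 2 := by rw [Nat.card_Icc]; omega
    have hfr : fr.card * T ≤
        2 * ((FF K.x K.y k T).filter (fun e => u c ≤ tm K.x K.y e ∧ tm K.x K.y e < v c)).card := by
      calc fr.card * T = ∑ p ∈ fr, T := by rw [sum_const, smul_eq_mul]
        _ ≤ ∑ p ∈ fr, ((FF K.x K.y k T).filter (fun e => (u c ≤ tm K.x K.y e ∧
              tm K.x K.y e < v c) ∧ (e.1 = p ∨ e.2 = p))).card := by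
            refine sum_le_sum fun p hp => ?_
            obtain ⟨hp1, hp2⟩ := mem_filter.1 hp
            obtain ⟨s, a1, a2, a3, a4⟩ := loc K hx hg k hk (u c) (v c) p hp1
            exact far K.x K.y hx hg k T (u c) s (v c) a1 a2 p a3 a4 hp2
        _ ≤ ∑ p : ι, ((FF K.x K.y k T).filter (fun e => (u c ≤ tm K.x K.y e ∧
              tm K.x K.y e < v c) ∧ (e.1 = p ∨ e.2 = p))).card :=
            sum_le_sum_of_subset (subset_univ _)
        _ ≤ _ := incid (FF K.x K.y k T) (fun e => u c ≤ tm K.x K.y e ∧ tm K.x K.y e < v c)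
    rw [← hsplit, Nat.add_mul]
    exact Nat.add_le_add (Nat.mul_le_mul_right _ hnear) hfr
  calc (∑ c ∈ A, (visI K (u c) (v c)).card) * T
      = ∑ c ∈ A, (visI K (u c) (v c)).card * T := sum_mul _ _ _
    _ ≤ ∑ c ∈ A, ((2 * T + 2) * T + 2 * ((FF K.x K.y k T).filter
          (fun e => u c ≤ tm K.x K.y e ∧ tm K.x K.y e < v c)).card) := sum_le_sum h1
    _ = A.card * (2 * T + 2) * T + 2 * ∑ c ∈ A, ((FF K.x K.y k T).filter
          (fun e => u c ≤ tm K.x K.y e ∧ tm K.x K.y e < v c)).card := by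
        rw [sum_add_distrib, sum_const, smul_eq_mul, ← mul_sum, mul_assoc]
    _ ≤ A.card * (2 * T + 2) * T + 2 * (FF K.x K.y k T).card :=
        Nat.add_le_add_left (Nat.mul_le_mul_left _ (windows _ _ A u v hd)) _
    _ ≤ _ := Nat.add_le_add_left (Nat.mul_le_mul_left _ (FF_card _ _ _ _)) _

/-- The trivial count. -/
lemma triv (K : KSys ι) (k : ℕ)
    (hk : ∀ n, n < K.N → (K.b n, K.a n) ∈ EE K.x K.y k ∧ tm K.x K.y (K.b n, K.a n) = K.t n)
    (A : Finset ℕ) (u v : ℕ → ℝ)
    (hd : ∀ c ∈ A, ∀ c' ∈ A, c ≠ c' → v c ≤ u c' ∨ v c' ≤ u c) :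
    ∑ c ∈ A, (visI K (u c) (v c)).card ≤ 2 * (EE K.x K.y k).card := by
  classical
  have h1 : ∀ c ∈ A, (visI K (u c) (v c)).card ≤
      2 * ((range K.N).filter (fun n => u c ≤ K.t n ∧ K.t n < v c)).card := by
    intro c _
    unfold visI KSys.lines
    refine (card_union_le _ _).trans ?_
    have h2 := card_image_le (s := (range K.N).filter (fun n => u c ≤ K.t n ∧ K.t n < v c))
      (f := K.a)
    have h3 := card_image_le (s := (range K.N).filter (fun n => u c ≤ K.t n ∧ K.t n < v c))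
      (f := K.b)
    omega
  calc ∑ c ∈ A, (visI K (u c) (v c)).card
      ≤ ∑ c ∈ A, 2 * ((range K.N).filter (fun n => u c ≤ K.t n ∧ K.t n < v c)).card :=
        sum_le_sum h1
    _ = 2 * ∑ c ∈ A, ((range K.N).filter (fun n => u c ≤ K.t n ∧ K.t n < v c)).card := by
        rw [mul_sum]
    _ ≤ 2 * (range K.N).card := Nat.mul_le_mul_left _ (windows _ _ A u v hd)
    _ ≤ 2 * (EE K.x K.y k).card := by
        apply Nat.mul_le_mul_left
        refine card_le_card_of_injOn (fun n => (K.b n, K.a n)) (fun n hn => ?_)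
          (fun n hn n' hn' h => ?_)
        · rw [mem_coe, mem_range] at hn
          exact mem_coe.2 (hk n hn).1
        · rw [mem_coe, mem_range] at hn hn'
          rw [Prod.mk.injEq] at h
          exact XPL.inj K n n' hn hn' h.1 h.2

/-- cube roots -/
lemma cub {a b : ℝ} (hb : 0 ≤ b) (h : a ^ 3 ≤ b ^ 3) : a ≤ b := by
  by_contra h1
  push Not at h1
  have := pow_lt_pow_left₀ h1 hb (by norm_num : (3 : ℕ) ≠ 0)
  linarith

end XT2

open XT2 in
theorem I_T2 (hFull : StFullE) (hRi : StRinj) (hDey : StMDey) : StT2 := by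
  refine ⟨34, by norm_num, ?_⟩
  intro ι _ _ K hx hg A u v hd
  obtain ⟨k, hk⟩ := hFull ι K hx
  obtain ⟨n, hn⟩ : ∃ n : ℝ, n = (Fintype.card ι : ℝ) := ⟨_, rfl⟩
  have hn0 : 0 ≤ n := by rw [hn]; positivity
  rw [← hn]
  rcases A.eq_empty_or_nonempty with rfl | hA
  · simp only [sum_empty, card_empty, Nat.cast_zero]
    positivity
  have hM1 : (1 : ℝ) ≤ A.card := by exact_mod_cast hA.card_pos
  obtain ⟨a, ha⟩ : ∃ a : ℝ, a = (A.card : ℝ) ^ ((1 : ℝ) / 4) := ⟨_, rfl⟩
  rw [← ha]
  have ha1 : 1 ≤ a := by rw [ha]; exact Real.one_le_rpow hM1 (by norm_num)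
  have ha0 : 0 < a := by linarith
  have ha4 : a ^ 4 = A.card := by
    rw [ha, ← Real.rpow_natCast, ← Real.rpow_mul (by linarith)]
    norm_num
  have hx01 : ∀ i, 0 ≤ K.x i ∧ K.x i ≤ 1 := fun i => ⟨K.x_nonneg i, K.x_le_one i⟩
  have hcast : ∑ c ∈ A, ((visI K (u c) (v c)).card : ℝ) =
      ((∑ c ∈ A, (visI K (u c) (v c)).card : ℕ) : ℝ) := by push_cast; rfl
  rw [hcast]
  rcases le_or_gt (a ^ 3) n with hcase | hcase
  · -- the main case
    obtain ⟨T, hT⟩ : ∃ T : ℕ, T = ⌈n / a ^ 3⌉₊ := ⟨_, rfl⟩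
    have ha3 : 0 < a ^ 3 := by positivity
    have h1 : 1 ≤ n / a ^ 3 := by rw [one_le_div ha3]; exact hcase
    have hT1 : n / a ^ 3 ≤ T := by rw [hT]; exact Nat.le_ceil _
    have hT2 : (T : ℝ) ≤ 2 * (n / a ^ 3) := by
      have := Nat.ceil_lt_add_one (show 0 ≤ n / a ^ 3 by linarith)
      rw [← hT] at this
      linarith
    have hT0 : (1 : ℝ) ≤ T := h1.trans hT1
    have hnT : n ≤ a ^ 3 * T := by
      rw [div_le_iff₀ ha3] at hT1
      linarith
    have hTn : a ^ 3 * T ≤ 2 * n := by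
      have h2 : 2 * (n / a ^ 3) = 2 * n / a ^ 3 := by ring
      rw [h2, le_div_iff₀ ha3] at hT2
      linarith
    have hc := count hRi K hx hg k hk A u v hd T
    obtain ⟨V, hV⟩ : ∃ V : ℕ, V = ∑ r ∈ Rs k T, (EE K.x K.y r).card := ⟨_, rfl⟩
    rw [← hV] at hc
    obtain ⟨S, hS⟩ : ∃ S : ℕ, S = ∑ c ∈ A, (visI K (u c) (v c)).card := ⟨_, rfl⟩
    rw [← hS] at hc ⊢
    have hc' : (S : ℝ) * T ≤ A.card * (2 * T + 2) * T + 2 * V := by exact_mod_cast hc
    have hVb : (V : ℝ) ≤ 13 * (n * a * T) := by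
      by_cases h8 : 8 * Fintype.card ι ≤ V
      · have h9 := hDey ι K.x K.y hx01 hx hg (Rs k T) (by rw [← hV]; exact h8)
        rw [← hV] at h9
        have h10 : (V : ℝ) ^ 3 ≤ 512 * n ^ 4 * ((Rs k T).card : ℝ) ^ 2 := by
          rw [hn]
          exact_mod_cast h9
        have h11 : ((Rs k T).card : ℝ) ≤ 2 * T := by exact_mod_cast Rs_card k T
        have h12 : ((Rs k T).card : ℝ) ^ 2 ≤ (2 * T) ^ 2 :=
          pow_le_pow_left₀ (by positivity) h11 2
        apply cub (by positivity)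
        calc (V : ℝ) ^ 3 ≤ 512 * n ^ 4 * ((Rs k T).card : ℝ) ^ 2 := h10
          _ ≤ 512 * n ^ 4 * (2 * T) ^ 2 := mul_le_mul_of_nonneg_left h12 (by positivity)
          _ = 2048 * (n ^ 3 * T ^ 2) * n := by ring
          _ ≤ 2048 * (n ^ 3 * T ^ 2) * (a ^ 3 * T) :=
              mul_le_mul_of_nonneg_left hnT (by positivity)
          _ = 2048 * (n * a * T) ^ 3 := by ring
          _ ≤ 2197 * (n * a * T) ^ 3 := by
              have : 0 ≤ (n * a * T) ^ 3 := by positivity
              linarith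
          _ = (13 * (n * a * T)) ^ 3 := by ring
      · push Not at h8
        have h9 : (V : ℝ) ≤ 8 * n := by
          rw [hn]
          exact_mod_cast h8.le
        have h10 : n * 1 * 1 ≤ n * a * T := by gcongr
        linarith
    have h3 : (A.card : ℝ) * (2 * T + 2) ≤ 8 * (n * a) := by
      rw [← ha4]
      calc a ^ 4 * (2 * T + 2) ≤ a ^ 4 * (4 * T) :=
            mul_le_mul_of_nonneg_left (by linarith) (by positivity)
        _ = 4 * a * (a ^ 3 * T) := by ring
        _ ≤ 4 * a * (2 * n) := mul_le_mul_of_nonneg_left hTn (by positivity)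
        _ = 8 * (n * a) := by ring
    have h4 : (S : ℝ) * T ≤ (34 * n * a) * T := by
      calc (S : ℝ) * T ≤ A.card * (2 * T + 2) * T + 2 * V := hc'
        _ ≤ 8 * (n * a) * T + 2 * (13 * (n * a * T)) :=
            add_le_add (mul_le_mul_of_nonneg_right h3 (by linarith))
              (mul_le_mul_of_nonneg_left hVb (by norm_num))
        _ = (34 * n * a) * T := by ring
    exact le_of_mul_le_mul_right h4 (by linarith)
  · -- many windows
    have h1 := triv K k hk A u v hd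
    have h2 : ((EE K.x K.y k).card : ℝ) ≤ 8 * (n * a) := by
      by_cases h8 : 8 * Fintype.card ι ≤ (EE K.x K.y k).card
      · have h9 := hDey ι K.x K.y hx01 hx hg {k} (by rw [sum_singleton]; exact h8)
        rw [sum_singleton, card_singleton, one_pow, mul_one] at h9
        have h10 : ((EE K.x K.y k).card : ℝ) ^ 3 ≤ 512 * n ^ 4 := by
          rw [hn]
          exact_mod_cast h9
        apply cub (by positivity)
        calc ((EE K.x K.y k).card : ℝ) ^ 3 ≤ 512 * n ^ 4 := h10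
          _ = 512 * n ^ 3 * n := by ring
          _ ≤ 512 * n ^ 3 * a ^ 3 := mul_le_mul_of_nonneg_left hcase.le (by positivity)
          _ = (8 * (n * a)) ^ 3 := by ring
      · push Not at h8
        have h9 : ((EE K.x K.y k).card : ℝ) ≤ 8 * n := by
          rw [hn]
          exact_mod_cast h8.le
        have h10 : n * 1 ≤ n * a := by gcongr
        linarith
    have h3 : ((∑ c ∈ A, (visI K (u c) (v c)).card : ℕ) : ℝ) ≤ 2 * (EE K.x K.y k).card := by
      exact_mod_cast h1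
    have h4 : 0 ≤ n * a := by positivity
    linarith

end Pool.Agent.Work.MP_e17eac_co.PS

end
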