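import Pool.Agent.Work.MP_e17eac_co.Bd.B27
import Pool.Agent.Work.MP_e17eac_co.TROP.Sample

/-! Bundle of small proof modules (one section per former module). -/

section

/-!
# Ring module, uniform version: the popular slope
-/

namespace Pool.Agent.Work.MP_e17eac_co.RINGU

open Finset
open scoped Pointwise
open Pool.Agent.Work.MP_e17eac_co.RING
open Pool.Agent.Work.MP_e17eac_co.RING.XRL

namespace XRLU

variable {a R K : ℝ} {A : Finset ℝ} {T : Finset (ℝ × ℝ)} {I : Finset ((ℝ × ℝ) × ℝ)}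

/-- The cells with first coordinate in `A₀`. -/
noncomputable def GU (T' : Finset (ℝ × ℝ)) (I : Finset ((ℝ × ℝ) × ℝ)) (x₁ : ℝ) (A₀ : Finset ℤ)
    (x : ℝ) : Finset (ℝ × ℝ) := (G1 T' I x).filter fun p => ⌊bb x₁ p⌋ ∈ A₀

lemma GU_card {T' : Finset (ℝ × ℝ)} {x₁ x₂ x k L l : ℝ} {U A₀ : Finset ℤ} (hk : 0 ≤ k)
    (hL : 0 < L) (hl : 0 < l) (hc : k ≤ l * ((U ∩ A₀).card : ℝ))
    (hU : ∀ u ∈ U, k ≤ L *
      (((cl (bb x₂) T').filter fun v => (u, v) ∈ E1 T' I x₁ x₂ x).card : ℝ)) :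
    k ^ 2 ≤ l * L * ((GU T' I x₁ A₀ x).card : ℝ) := by
  have h1 : ∑ u ∈ U ∩ A₀, ((cl (bb x₂) T').filter fun v => (u, v) ∈ E1 T' I x₁ x₂ x).card ≤
      (GU T' I x₁ A₀ x).card := by
    rw [← card_sigma]
    have h2 : ((U ∩ A₀).sigma fun u => (cl (bb x₂) T').filter fun v =>
        (u, v) ∈ E1 T' I x₁ x₂ x).card ≤
        ((GU T' I x₁ A₀ x).image fun p => (⌊bb x₁ p⌋, ⌊bb x₂ p⌋)).card := by
      refine card_le_card_of_injOn (fun z => (z.1, z.2)) ?_ ?_
      · intro z hz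
        rw [mem_coe, mem_sigma, mem_inter, mem_filter] at hz
        obtain ⟨⟨_, hz1⟩, _, hz2⟩ := hz
        rw [E1, mem_image] at hz2
        obtain ⟨p, hp, hpz⟩ := hz2
        rw [mem_coe, mem_image]
        refine ⟨p, mem_filter.mpr ⟨hp, ?_⟩, hpz⟩
        rw [(Prod.mk.inj hpz).1]
        exact hz1
      · rintro ⟨u, v⟩ _ ⟨u', v'⟩ _ h
        simp only [Prod.mk.injEq] at h
        obtain ⟨rfl, rfl⟩ := h
        rfl
    exact h2.trans card_image_le
  have h3 : ((U ∩ A₀).card : ℝ) * (k / L) ≤ ((GU T' I x₁ A₀ x).card : ℝ) := by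
    refine le_trans ?_ (by exact_mod_cast h1 :
      ((∑ u ∈ U ∩ A₀, ((cl (bb x₂) T').filter fun v =>
        (u, v) ∈ E1 T' I x₁ x₂ x).card : ℕ) : ℝ) ≤ _)
    push_cast
    rw [← nsmul_eq_mul, ← sum_const]
    refine sum_le_sum fun u hu => ?_
    rw [div_le_iff₀ hL]
    have := hU u (mem_inter.mp hu).1
    linarith
  have h4 : k / l ≤ ((U ∩ A₀).card : ℝ) := by
    rw [div_le_iff₀ hl]
    linarith
  have h5 : k / l * (k / L) ≤ ((GU T' I x₁ A₀ x).card : ℝ) :=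
    le_trans (by gcongr) h3
  have h6 : k / l * (k / L) = k ^ 2 / (l * L) := by
    field_simp
  rw [h6, div_le_iff₀ (by positivity)] at h5
  linarith

lemma popular (hEdge : StEdgeU) (hCls : StClsU) (hBSG : StBSGU) (hPop : StPop)
    (hDil : StDilU) (h : Config a R K A T I)
    (hR : 1 ≤ R) (ha : 0 < a) (ha1 : a ≤ 1) (hK : 100 ≤ K) {W : ℝ} (hW1 : 1 ≤ W)
    (hWa : W ^ a ≤ K ^ 10) {x₁ x₂ : ℝ} (hx₁ : x₁ ∈ A) (hx₂ : x₂ ∈ A)
    (h12 : 1 ≤ W * |x₁ - x₂|) {T' : Finset (ℝ × ℝ)} (hT' : T' ⊆ T12 T I x₁ x₂)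
    (s1 : Spa (K ^ 120) (W ^ 4) (cl (bb x₁) T')) (s2 : Spa (K ^ 120) (W ^ 4) (cl (bb x₂) T'))
    {X : Finset ℝ} (hXA : X ⊆ A) (hXne : X.Nonempty)
    (hX : ∀ x ∈ X, 1 ≤ W * |x - x₁| ∧ 1 ≤ W * |x - x₂| ∧
        (R ^ a) ^ 2 ≤ 8 * K ^ 8 * ((G1 T' I x).card : ℝ)) :
    ∃ x₀ ∈ X, ∃ X₀ ⊆ X, ∃ A₀ ⊆ cl (bb x₁) T', (X.card : ℝ) ≤ K ^ 23760 * (X₀.card : ℝ) ∧
      R ^ a ≤ K ^ 2640 * (A₀.card : ℝ) ∧
      ((dl (cc x₁ x₂ x₀ / (W * W)) A₀ - dl (cc x₁ x₂ x₀ / (W * W)) A₀).card : ℝ) ≤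
        K ^ 337920 * R ^ a ∧ ∀ x ∈ X₀,
      ((dl (cc x₁ x₂ x / (W * W)) A₀ - dl (cc x₁ x₂ x₀ / (W * W)) A₀).card : ℝ) ≤
        K ^ 337920 * R ^ a ∧
      (R ^ a) ^ 2 ≤ K ^ 23760 * ((GU T' I x₁ A₀ x).card : ℝ) := by
  set k : ℝ := R ^ a with hk
  have hk1 : 1 ≤ k := Real.one_le_rpow hR ha.le
  have hK1 : 1 ≤ K := by linarith
  have hp : ∀ {m n : ℕ}, m ≤ n → K ^ m ≤ K ^ n := fun hmn => pow_le_pow_right₀ hK1 hmn
  have hW0 : 0 < W := by linarith
  have hg := fun x (hx : x ∈ X) => graph hEdge hCls hBSG h hR ha ha1 hK hW1 hWa hx₁ hx₂ (hXA hx)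
    h12 (hX x hx).1 (hX x hx).2.1 hT' s1 s2 (hX x hx).2.2
  choose! U hU V hV hUc hVc himg hdeg using hg
  have h100 : ∀ n : ℕ, 1 ≤ n → 100 ≤ K ^ n := fun n hn => by
    calc (100 : ℝ) ≤ K := hK
      _ = K ^ 1 := (pow_one K).symm
      _ ≤ K ^ n := hp hn
  have hKL : K * k ≤ K ^ 2640 * k := by
    gcongr
    calc K = K ^ 1 := (pow_one K).symm
      _ ≤ K ^ 2640 := hp (by norm_num)
  obtain ⟨x₀, hx₀, X₀, hX₀, hcard, hX₀p⟩ := hPop (K ^ 2640) k X (cl (bb x₁) T') (cl (bb x₂) T')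
    U V (by linarith [h100 2640 (by norm_num)]) (by linarith) hXne
    ((cl_le h hx₁ _ fun p hp => (mem_filter.mp (hT' hp)).2.1).trans hKL)
    ((cl_le h hx₂ _ fun p hp => (mem_filter.mp (hT' hp)).2.2).trans hKL)
    (fun x hx => ⟨hU x hx, hV x hx, hUc x hx, hVc x hx⟩)
  rw [← pow_mul] at hcard
  have hcb := fun x (hx : x ∈ X) => cc_bd hW1 (h.slope x (hXA hx)) (h.slope x₁ hx₁)
    (h.slope x₂ hx₂) (hX x hx).1 (hX x hx).2.1
  have su : Spa (K ^ 21120) (W ^ 4) (U x₀) := fun y =>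
    le_trans (by exact_mod_cast card_le_card (filter_subset_filter _ (hU x₀ hx₀)))
      ((s1 y).trans (hp (by norm_num)))
  have sv : Spa (K ^ 21120) (W ^ 4) (V x₀) := fun y =>
    le_trans (by exact_mod_cast card_le_card (filter_subset_filter _ (hV x₀ hx₀)))
      ((s2 y).trans (hp (by norm_num)))
  have dil : ∀ x ∈ X, k ≤ (K ^ 2640) ^ 8 * ((U x ∩ U x₀).card : ℝ) →
      k ≤ (K ^ 2640) ^ 8 * ((V x ∩ V x₀).card : ℝ) →
      ((dl (cc x₁ x₂ x / (W * W)) (U x₀) - dl (cc x₁ x₂ x₀ / (W * W)) (U x₀)).card : ℝ) ≤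
        K ^ 337920 * k := by
    intro x hx q1 q2
    rw [← pow_mul] at q1 q2
    have q3 : K ^ 2880 * k ≤ K ^ 21120 * k := by
      gcongr
      norm_num
    have := hDil (K ^ 21120) W k (cc x₁ x₂ x) (cc x₁ x₂ x₀) W (W ^ 4) (U x) (U x₀) (V x) (V x₀)
      (h100 _ (by norm_num)) hW1 hk1 (hcb x hx).1 (hcb x hx).2 (hcb x₀ hx₀).1 (hcb x₀ hx₀).2 hW1
      (le_of_eq (by ring)) su sv ((himg x hx).trans q3) ((himg x₀ hx₀).trans q3) q1 q2
    rw [← pow_mul] at this
    exact this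
  refine ⟨x₀, hx₀, X₀, hX₀, U x₀, hU x₀ hx₀, hcard, hUc x₀ hx₀, ?_, fun x hx => ?_⟩
  · refine dil x₀ hx₀ ?_ ?_
    · rw [inter_self, ← pow_mul]
      refine (hUc x₀ hx₀).trans ?_
      gcongr
      norm_num
    · rw [inter_self, ← pow_mul]
      refine (hVc x₀ hx₀).trans ?_
      gcongr
      norm_num
  have hxX := hX₀ hx
  constructor
  · exact dil x hxX (hX₀p x hx).1 (hX₀p x hx).2
  · have := GU_card (T' := T') (I := I) (x₁ := x₁) (x₂ := x₂) (x := x) (k := k) (L := K ^ 2640)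
      (l := (K ^ 2640) ^ 8) (U := U x) (A₀ := U x₀) (by linarith) (by positivity) (by positivity)
      (hX₀p x hx).1 (hdeg x hxX)
    calc k ^ 2 ≤ (K ^ 2640) ^ 8 * K ^ 2640 * ((GU T' I x₁ (U x₀) x).card : ℝ) := this
      _ = K ^ 23760 * ((GU T' I x₁ (U x₀) x).card : ℝ) := by
        rw [← pow_mul, ← pow_add]

end XRLU

end Pool.Agent.Work.MP_e17eac_co.RINGU

end

section

/-!
TROP: the sampled tropical theorem for lines `t ↦ a y * t + b y` with distinct slopes and sample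
times which approach a base point `e` from one side with ratio `≥ n²`; and the bound `C n^(1+ε)`.
-/
set_option autoImplicit false
set_option linter.unusedSectionVars false
set_option linter.unusedVariables false

namespace Pool.Agent.Work.MP_e17eac_co.TROP

open Finset

/-- the bound of the tropical theorem -/
def TB (n w : ℕ) : ℕ :=
  (1 + 2 * Nat.log 2 n) ^ (Nat.log 2 n / w) * ((3 + 2 * (Nat.log 2 n ^ 2 * 2 ^ w)) * n)

/-- `min_w TB n w ≤ C n^(1+ε)` -/
theorem TB_eps (ε : ℝ) (hε : 0 < ε) : ∃ C : ℝ, 0 < C ∧ ∀ n : ℕ, ∃ w : ℕ, 1 ≤ w ∧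
    (TB n w : ℝ) ≤ C * (n : ℝ) ^ (1 + ε) := by
  obtain ⟨q, hq⟩ := exists_nat_gt (2 / ε)
  have hq0 : (0 : ℝ) < q := lt_trans (by positivity) hq
  have hq0' : 0 < q := by exact_mod_cast hq0
  have hqε : 2 / (q : ℝ) ≤ ε := by
    rw [div_le_iff₀ hq0]
    rw [div_lt_iff₀ hε] at hq
    linarith
  let r : ℝ := (2 : ℝ) ^ (1 / (q : ℝ))
  have hr : 1 < r := Real.one_lt_rpow (by norm_num) (by positivity)
  have hrp : 0 < r := by linarith
  have hrq : ∀ L : ℕ, r ^ L = (2 : ℝ) ^ ((L : ℝ) / q) := by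
    intro L
    rw [← Real.rpow_natCast, ← Real.rpow_mul (by norm_num)]
    congr 1
    ring
  -- polynomial against exponential
  have hpoly : ∃ C : ℝ, 0 < C ∧ ∀ L : ℕ,
      3 + 2 * ((L : ℝ) ^ 2 * (2 * (1 + 2 * (L : ℝ))) ^ q) ≤ C * r ^ L := by
    have h1 := isLittleO_pow_const_const_pow_of_one_lt (R := ℝ) (q + 2) hr
    have h2 := h1.isBigO
    obtain ⟨c, hc, hc'⟩ := h2.exists_pos
    rw [Asymptotics.isBigOWith_iff, Filter.eventually_atTop] at hc'
    obtain ⟨N, hN⟩ := hc'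
    -- for `L ≥ max N 1`
    let g : ℕ → ℝ := fun L => 3 + 2 * ((L : ℝ) ^ 2 * (2 * (1 + 2 * (L : ℝ))) ^ q)
    have hg : ∀ L, 0 ≤ g L := fun L => by positivity
    let C : ℝ := ∑ L ∈ range (N + 1), g L + (3 + 2 * 6 ^ q) * c + 1
    have hC : 0 < C := by
      have := sum_nonneg (s := range (N + 1)) (fun L _ => hg L)
      positivity
    refine ⟨C, hC, fun L => ?_⟩
    by_cases hL : L < N + 1
    · have h3 : g L ≤ ∑ L ∈ range (N + 1), g L :=
        single_le_sum (fun L _ => hg L) (mem_range.2 hL)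
      have h4 : (1 : ℝ) ≤ r ^ L := one_le_pow₀ hr.le
      have h5 : 0 ≤ (3 + 2 * 6 ^ q) * c := by positivity
      have h6 : g L ≤ C := by
        simp only [C]
        linarith
      calc g L ≤ C * 1 := by linarith
        _ ≤ C * r ^ L := mul_le_mul_of_nonneg_left h4 hC.le
    · push Not at hL
      have h3 := hN L (by omega)
      have hL1 : (1 : ℝ) ≤ L := by
        have : 1 ≤ L := by omega
        exact_mod_cast this
      rw [Real.norm_of_nonneg (by positivity), Real.norm_of_nonneg (by positivity)] at h3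
      have h4 : (2 * (1 + 2 * (L : ℝ))) ^ q ≤ (6 * (L : ℝ)) ^ q :=
        pow_le_pow_left₀ (by positivity) (by linarith) _
      have h5 : (1 : ℝ) ≤ (L : ℝ) ^ (q + 2) := one_le_pow₀ hL1
      calc 3 + 2 * ((L : ℝ) ^ 2 * (2 * (1 + 2 * (L : ℝ))) ^ q)
          ≤ 3 * (L : ℝ) ^ (q + 2) + 2 * ((L : ℝ) ^ 2 * (6 * (L : ℝ)) ^ q) := by
            have := mul_le_mul_of_nonneg_left h4 (show (0 : ℝ) ≤ (L : ℝ) ^ 2 by positivity)
            linarith
        _ = (3 + 2 * 6 ^ q) * (L : ℝ) ^ (q + 2) := by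
            rw [mul_pow, pow_add]
            ring
        _ ≤ (3 + 2 * 6 ^ q) * (c * r ^ L) := mul_le_mul_of_nonneg_left h3 (by positivity)
        _ = ((3 + 2 * 6 ^ q) * c) * r ^ L := by ring
        _ ≤ C * r ^ L := by
            refine mul_le_mul_of_nonneg_right ?_ (by positivity)
            have := sum_nonneg (s := range (N + 1)) (fun L _ => hg L)
            simp only [C]
            linarith
  obtain ⟨C, hC, hC'⟩ := hpoly
  refine ⟨C, hC, fun n => ?_⟩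
  rcases Nat.eq_zero_or_pos n with hn | hn
  · subst hn
    refine ⟨1, le_rfl, ?_⟩
    unfold TB
    simp only [Nat.log_zero_right, mul_zero, Nat.cast_zero]
    positivity
  · set L := Nat.log 2 n with hL
    set D := 1 + 2 * L with hD
    set l := Nat.log 2 D + 1 with hl
    have h2L : 2 ^ L ≤ n := Nat.pow_log_le_self 2 (by omega)
    have hD2 : D < 2 ^ l := Nat.lt_pow_succ_log_self (by norm_num) D
    have hD3 : 2 ^ l ≤ 2 * D := by
      rw [hl, pow_succ]
      have := Nat.pow_log_le_self 2 (x := D) (by omega)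
      omega
    have hn1 : (1 : ℝ) ≤ n := by exact_mod_cast hn
    have hn0 : (0 : ℝ) < n := by linarith
    have hrL : r ^ L ≤ (n : ℝ) ^ (1 / (q : ℝ)) := by
      have h3 : r ^ L = ((2 : ℝ) ^ L) ^ (1 / (q : ℝ)) := by
        rw [hrq, ← Real.rpow_natCast, ← Real.rpow_mul (by norm_num)]
        congr 1
        ring
      rw [h3]
      refine Real.rpow_le_rpow (by positivity) ?_ (by positivity)
      exact_mod_cast h2L
    refine ⟨q * l, Nat.mul_pos hq0' (by omega), ?_⟩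
    -- first factor
    have e1 : ((D : ℝ)) ^ (L / (q * l)) ≤ r ^ L := by
      have h3 : (D : ℝ) ^ (L / (q * l)) ≤ ((2 : ℝ) ^ l) ^ (L / (q * l)) :=
        pow_le_pow_left₀ (by positivity) (by exact_mod_cast hD2.le) _
      refine h3.trans ?_
      rw [← pow_mul, hrq, ← Real.rpow_natCast]
      refine Real.rpow_le_rpow_of_exponent_le (by norm_num) ?_
      rw [le_div_iff₀ hq0]
      have h4 : l * (L / (q * l)) * q ≤ L := by
        have := Nat.div_mul_le_self L (q * l)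
        calc l * (L / (q * l)) * q = L / (q * l) * (q * l) := by ring
          _ ≤ L := this
      exact_mod_cast h4
    have e2 : (3 + 2 * ((L : ℝ) ^ 2 * 2 ^ (q * l))) ≤ C * r ^ L := by
      refine le_trans ?_ (hC' L)
      have h3 : (2 : ℝ) ^ (q * l) ≤ (2 * (1 + 2 * (L : ℝ))) ^ q := by
        rw [mul_comm q l, pow_mul]
        refine pow_le_pow_left₀ (by positivity) ?_ _
        have : ((2 ^ l : ℕ) : ℝ) ≤ ((2 * D : ℕ) : ℝ) := by exact_mod_cast hD3
        rw [hD] at this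
        push_cast at this
        linarith
      have h4 : (L : ℝ) ^ 2 * 2 ^ (q * l) ≤ (L : ℝ) ^ 2 * (2 * (1 + 2 * (L : ℝ))) ^ q :=
        mul_le_mul_of_nonneg_left h3 (by positivity)
      linarith
    have e3 : (TB n (q * l) : ℝ) = (D : ℝ) ^ (L / (q * l)) *
        ((3 + 2 * ((L : ℝ) ^ 2 * 2 ^ (q * l))) * n) := by
      unfold TB
      rw [← hL, ← hD]
      push_cast
      ring
    rw [e3]
    calc (D : ℝ) ^ (L / (q * l)) * ((3 + 2 * ((L : ℝ) ^ 2 * 2 ^ (q * l))) * n)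
        ≤ r ^ L * ((C * r ^ L) * n) := by
          refine mul_le_mul e1 ?_ (by positivity) (by positivity)
          exact mul_le_mul_of_nonneg_right e2 hn0.le
      _ ≤ (n : ℝ) ^ (1 / (q : ℝ)) * ((C * (n : ℝ) ^ (1 / (q : ℝ))) * n) := by
          refine mul_le_mul hrL ?_ (by positivity) (by positivity)
          exact mul_le_mul_of_nonneg_right (mul_le_mul_of_nonneg_left hrL hC.le) hn0.le
      _ = C * (n : ℝ) ^ (1 + 2 / (q : ℝ)) := by
          have h3 : (n : ℝ) ^ (1 + 2 / (q : ℝ)) =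
              (n : ℝ) * ((n : ℝ) ^ (1 / (q : ℝ)) * (n : ℝ) ^ (1 / (q : ℝ))) := by
            rw [← Real.rpow_add hn0, Real.rpow_add hn0, Real.rpow_one]
            congr 2
            ring
          rw [h3]
          ring
      _ ≤ C * (n : ℝ) ^ (1 + ε) := by
          refine mul_le_mul_of_nonneg_left ?_ hC.le
          exact Real.rpow_le_rpow_of_exponent_le hn1 (by linarith)

variable {X : Type*} [DecidableEq X] [Fintype X]

/-- a point of an open interval where the heights of finitely many lines are distinct -/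
theorem generic (a b : X → ℝ) (ha : Function.Injective a) {u v : ℝ} (huv : u < v) :
    ∃ e, u < e ∧ e < v ∧ Function.Injective fun y => a y * e + b y := by
  classical
  let B : Set ℝ := ⋃ p : X × X, {e | p.1 ≠ p.2 ∧ a p.1 * e + b p.1 = a p.2 * e + b p.2}
  have hB : B.Finite := by
    refine Set.finite_iUnion fun p => ?_
    refine Set.Subsingleton.finite ?_
    rintro x ⟨hx, hx'⟩ y ⟨_, hy'⟩
    have h1 : a p.1 - a p.2 ≠ 0 := sub_ne_zero.2 fun e => hx (ha e)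
    have h2 : (a p.1 - a p.2) * x = (a p.1 - a p.2) * y := by
      have e1 : (a p.1 - a p.2) * x = b p.2 - b p.1 := by linarith
      have e2 : (a p.1 - a p.2) * y = b p.2 - b p.1 := by linarith
      rw [e1, e2]
    exact mul_left_cancel₀ h1 h2
  have h1 : ((Set.Ioo u v) \ B).Nonempty := ((Set.Ioo_infinite huv).sdiff hB).nonempty
  obtain ⟨e, he, he'⟩ := h1
  refine ⟨e, he.1, he.2, fun y z hyz => ?_⟩
  by_contra hne
  exact he' (Set.mem_iUnion.2 ⟨(y, z), hne, hyz⟩)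

/-- SAMPLED TROPICAL THEOREM for lines, base point to the right of the sample times. -/
theorem samples_left (a b : X → ℝ) (ha : Function.Injective a) (J k w : ℕ) (hw : 1 ≤ w) (e : ℝ)
    (t : ℕ → ℝ) (h0 : ∀ j ≤ J, t j < e)
    (ht : ∀ j < J, (Fintype.card X : ℝ) ^ 2 * (e - t (j + 1)) ≤ e - t j) (S : ℕ → Finset X)
    (hS : ∀ j ≤ J, (S j).card = k)
    (hv : ∀ j ≤ J, ∀ y ∈ S j, ∀ z ∉ S j, a y * t j + b y ≤ a z * t j + b z) :
    ∑ j ∈ range J, (S (j + 1) \ S j).card ≤ TB (Fintype.card X) w := by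
  classical
  rcases isEmpty_or_nonempty X with hX | hX
  · have h1 : ∑ j ∈ range J, (S (j + 1) \ S j).card = 0 := by
      refine sum_eq_zero fun j _ => ?_
      rw [card_eq_zero]
      exact eq_empty_of_isEmpty _
    rw [h1]
    exact Nat.zero_le _
  -- a base point close to `e`
  obtain ⟨u, hu, hu'⟩ : ∃ u, u < e ∧ ∀ j ≤ J, t j ≤ u := by
    have hne : ((range (J + 1)).image t).Nonempty := ⟨t 0, mem_image.2 ⟨0, by simp, rfl⟩⟩
    refine ⟨((range (J + 1)).image t).max' hne, ?_, fun j hj => ?_⟩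
    · rw [max'_lt_iff]
      intro y hy
      obtain ⟨j, hj, rfl⟩ := mem_image.1 hy
      exact h0 j (by rw [mem_range] at hj; omega)
    · exact le_max' _ _ (mem_image.2 ⟨j, by rw [mem_range]; omega, rfl⟩)
  obtain ⟨e', he1, he2, hinj⟩ := generic a b ha hu
  have hV1 : (1 : ℝ) ≤ Fintype.card X := by
    have : 1 ≤ Fintype.card X := Fintype.card_pos
    exact_mod_cast this
  have hpos : ∀ j ≤ J, 0 < e' - t j := fun j hj => by
    have := hu' j hj
    linarith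
  have hval : ∀ j ≤ J, ∀ y, -a y + (e' - t j)⁻¹ * (a y * e' + b y) =
      (e' - t j)⁻¹ * (a y * t j + b y) := by
    intro j hj y
    have := (hpos j hj).ne'
    field_simp
    ring
  refine samples (fun y => - a y) (fun y => a y * e' + b y)
    (fun y z h => ha (neg_injective h)) hinj J k w hw
    (fun j => (e' - t j)⁻¹) (fun j hj => inv_pos.2 (hpos j hj)) ?_ S hS ?_
  · intro j hj
    have h1 := hpos j hj.le
    have h2 := hpos (j + 1) hj
    have h3 : (Fintype.card X : ℝ) ^ 2 * (e' - t (j + 1)) ≤ e' - t j := by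
      have h4 := ht j hj
      have h5 : (1 : ℝ) ≤ (Fintype.card X : ℝ) ^ 2 := one_le_pow₀ hV1
      have h6 : 0 ≤ ((Fintype.card X : ℝ) ^ 2 - 1) * (e - e') :=
        mul_nonneg (by linarith) (by linarith)
      linarith
    show (Fintype.card X : ℝ) ^ 2 * (e' - t j)⁻¹ ≤ (e' - t (j + 1))⁻¹
    rw [← div_eq_mul_inv, div_le_iff₀ h1, inv_mul_eq_div, le_div_iff₀ h2]
    exact h3
  · intro j hj y hy z hz
    rw [hval j hj, hval j hj]
    exact mul_le_mul_of_nonneg_left (hv j hj y hy z hz) (inv_pos.2 (hpos j hj)).le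

/-- SAMPLED TROPICAL THEOREM for lines, base point to the left of the sample times. -/
theorem samples_right (a b : X → ℝ) (ha : Function.Injective a) (J k w : ℕ) (hw : 1 ≤ w) (e : ℝ)
    (t : ℕ → ℝ) (h0 : ∀ j ≤ J, e < t j)
    (ht : ∀ j < J, (Fintype.card X : ℝ) ^ 2 * (t (j + 1) - e) ≤ t j - e) (S : ℕ → Finset X)
    (hS : ∀ j ≤ J, (S j).card = k)
    (hv : ∀ j ≤ J, ∀ y ∈ S j, ∀ z ∉ S j, a y * t j + b y ≤ a z * t j + b z) :
    ∑ j ∈ range J, (S (j + 1) \ S j).card ≤ TB (Fintype.card X) w := by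
  refine samples_left (fun y => - a y) b (fun y z h => ha (neg_injective h)) J k w hw (-e)
    (fun j => - t j) (fun j hj => neg_lt_neg (h0 j hj)) ?_ S hS ?_
  · intro j hj
    have := ht j hj
    linarith
  · intro j hj y hy z hz
    have := hv j hj y hy z hz
    simp only [neg_mul_neg]
    exact this

end Pool.Agent.Work.MP_e17eac_co.TROP

end
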