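import Pool.Agent.Work.MP_e17eac_co.Bd.B04
import Pool.Agent.Work.MP_e17eac_co.Bd.B03
import Pool.Agent.Work.MP_e17eac_co.Bd.B16
import Pool.Agent.Work.MP_e17eac_co.Bd.B08
import Pool.Agent.Work.MP_e17eac_co.Bd.B12
import Pool.Agent.Work.MP_e17eac_co.Bd.B14
import Pool.Agent.Work.MP_e17eac_co.Bd.B28
import Pool.Agent.Work.MP_e17eac_co.Bd.B06
import Pool.Agent.Work.MP_e17eac_co.Bd.B19

/-! Bundle of small proof modules (one section per former module). -/

section

/-! Last step: separated subset, number of values. -/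

namespace Pool.Agent.Work.MP_e17eac_co.CFG

open Finset

variable {ι α β : Type}

theorem d0_nonneg (u v : ι → ℝ) (p p' : ι) : 0 ≤ d0 u v p p' :=
  le_trans (abs_nonneg _) (le_max_left _ _)

theorem d0_self (u v : ι → ℝ) (p : ι) : d0 u v p p = 0 := by simp [d0]

theorem d0_comm (u v : ι → ℝ) (p p' : ι) : d0 u v p p' = d0 u v p' p := by
  simp only [d0, abs_sub_comm]

theorem d0_tri (u v : ι → ℝ) (p p' p'' : ι) :
    d0 u v p p'' ≤ d0 u v p p' + d0 u v p' p'' := by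
  unfold d0
  apply max_le
  · calc |u p - u p''| ≤ |u p - u p'| + |u p' - u p''| := abs_sub_le _ _ _
      _ ≤ _ := add_le_add (le_max_left _ _) (le_max_left _ _)
  · calc |v p - v p''| ≤ |v p - v p'| + |v p' - v p''| := abs_sub_le _ _ _
      _ ≤ _ := add_le_add (le_max_right _ _) (le_max_right _ _)

open Classical in
theorem greedy (PS : Finset ι) (u v : ι → ℝ) (w : ι → ℝ) (υ Mx : ℝ) (hυ : 0 < υ)
    (hw : ∀ p, 0 ≤ w p) :
    ∀ (n : ℕ) (PG : Finset ι), PG.card = n → PG ⊆ PS →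
    (∀ p ∈ PG, (mass PS u v p υ : ℝ) ≤ Mx) →
    ∃ T0 ⊆ PG, (∀ p ∈ T0, ∀ p' ∈ T0, p ≠ p' → υ ≤ d0 u v p p') ∧
      ∑ p ∈ PG, w p ≤ Mx * ∑ p ∈ T0, w p := by
  intro n
  induction n using Nat.strong_induction_on with
  | _ n ih =>
    intro PG hn hsub hm
    rcases PG.eq_empty_or_nonempty with he | hne
    · refine ⟨∅, by simp, by simp, by simp [he]⟩
    · obtain ⟨p, hp, hmax⟩ := PG.exists_max_image w hne
      set PG' := PG.filter (fun s => υ ≤ d0 u v s p) with hPG'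
      have hlt : PG'.card < n := by
        rw [← hn]
        apply Finset.card_lt_card
        refine ⟨Finset.filter_subset _ _, fun h => ?_⟩
        have := h hp
        rw [hPG', Finset.mem_filter, d0_self] at this
        linarith [this.2]
      obtain ⟨T0, hT, hsep, hsum⟩ := ih _ hlt PG' rfl
        ((Finset.filter_subset _ _).trans hsub)
        (fun s hs => hm s (Finset.mem_filter.1 hs).1)
      have hpT : p ∉ T0 := fun h => by
        have := hT h
        rw [hPG', Finset.mem_filter, d0_self] at this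
        linarith [this.2]
      refine ⟨insert p T0, ?_, ?_, ?_⟩
      · intro s hs
        rcases Finset.mem_insert.1 hs with rfl | hs
        · exact hp
        · exact (Finset.mem_filter.1 (hT hs)).1
      · intro s hs s' hs' hne'
        rcases Finset.mem_insert.1 hs with h | h
        · rcases Finset.mem_insert.1 hs' with h' | h'
          · exact absurd (h.trans h'.symm) hne'
          · rw [h, d0_comm]; exact (Finset.mem_filter.1 (hT h')).2
        · rcases Finset.mem_insert.1 hs' with h' | h'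
          · rw [h']; exact (Finset.mem_filter.1 (hT h)).2
          · exact hsep s h s' h' hne'
      · rw [Finset.sum_insert hpT]
        have h1 : ∑ s ∈ PG, w s = ∑ s ∈ PG', w s +
            ∑ s ∈ PG.filter (fun s => ¬ υ ≤ d0 u v s p), w s := by
          rw [hPG', Finset.sum_filter_add_sum_filter_not]
        have h2 : ∑ s ∈ PG.filter (fun s => ¬ υ ≤ d0 u v s p), w s ≤ Mx * w p := by
          calc ∑ s ∈ PG.filter (fun s => ¬ υ ≤ d0 u v s p), w s
              ≤ ∑ s ∈ PG.filter (fun s => ¬ υ ≤ d0 u v s p), w p :=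
                Finset.sum_le_sum fun s hs => hmax s (Finset.mem_filter.1 hs).1
            _ = ((PG.filter (fun s => ¬ υ ≤ d0 u v s p)).card : ℝ) * w p := by
                rw [Finset.sum_const, nsmul_eq_mul]
            _ ≤ Mx * w p := by
                apply mul_le_mul_of_nonneg_right _ (hw p)
                refine le_trans ?_ (hm p hp)
                unfold mass
                exact_mod_cast Finset.card_le_card (fun s hs => by
                  rw [Finset.mem_filter] at hs ⊢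
                  exact ⟨hsub hs.1, not_le.1 hs.2⟩)
        rw [h1, mul_add]
        linarith

/-- A set of integers of diameter at most one has at most two elements. -/
theorem card_le_two (Z : Finset ℤ) (h : ∀ a ∈ Z, ∀ b ∈ Z, a ≤ b + 1) : Z.card ≤ 2 := by
  rcases Z.eq_empty_or_nonempty with he | hne
  · simp [he]
  · set m := Z.min' hne
    have : Z ⊆ {m, m + 1} := by
      intro z hz
      have h1 := Z.min'_le z hz
      have h2 := h z hz m (Z.min'_mem hne)
      simp only [Finset.mem_insert, Finset.mem_singleton]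
      omega
    exact (Finset.card_le_card this).trans Finset.card_le_two

open Classical in
/-- Number of values of `⌊f⌋` on a set with certificates. -/
theorem values (PP : Finset ι) (f : ι → ℝ) (S : ι → Finset α) (Un : Finset α) (F : ℝ)
    (hS : ∀ p ∈ PP, S p ⊆ Un) (hF : ∀ p ∈ PP, F ≤ ((S p).card : ℝ))
    (hn : ∀ p ∈ PP, ∀ p' ∈ PP, ∀ z ∈ S p, z ∈ S p' → |f p - f p'| ≤ 1) :
    F * ((PP.image (fun p => ⌊f p⌋)).card : ℝ) ≤ 2 * (Un.card : ℝ) := by
  rcases PP.eq_empty_or_nonempty with he | ⟨pp, _⟩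
  · simp [he]
  have : Nonempty ι := ⟨pp⟩
  set Z := PP.image (fun p => ⌊f p⌋) with hZ
  have hrep : ∀ k ∈ Z, ∃ p ∈ PP, ⌊f p⌋ = k := fun k hk => by
    simpa [hZ] using hk
  choose! g hg using hrep
  have h1 : ∀ z ∈ Un, (Z.filter (fun k => z ∈ S (g k))).card ≤ 2 := by
    intro z _
    apply card_le_two
    intro a ha b hb
    rw [Finset.mem_filter] at ha hb
    have hab := hn _ (hg a ha.1).1 _ (hg b hb.1).1 z ha.2 hb.2
    rw [abs_le] at hab
    have e1 := (hg a ha.1).2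
    have e2 := (hg b hb.1).2
    have f1 := Int.floor_le (f (g a))
    have f2 := Int.lt_floor_add_one (f (g b))
    rw [e1] at f1
    rw [e2] at f2
    have : (a : ℝ) < (b : ℝ) + 2 := by linarith [hab.2]
    have h3 : a < b + 2 := by exact_mod_cast this
    omega
  have h2 : ∑ k ∈ Z, ((S (g k)).card : ℝ) = ∑ z ∈ Un, ((Z.filter (fun k => z ∈ S (g k))).card : ℝ) := by
    have : ∀ k ∈ Z, ((S (g k)).card : ℝ) = ∑ z ∈ Un, if z ∈ S (g k) then (1 : ℝ) else 0 := by
      intro k hk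
      rw [← Finset.sum_filter, Finset.sum_const, nsmul_eq_mul, mul_one]
      congr 2
      ext z
      rw [Finset.mem_filter]
      exact ⟨fun h => ⟨hS _ (hg k hk).1 h, h⟩, fun h => h.2⟩
    rw [Finset.sum_congr rfl this, Finset.sum_comm]
    refine Finset.sum_congr rfl fun z _ => ?_
    rw [← Finset.sum_filter, Finset.sum_const, nsmul_eq_mul, mul_one]
  calc F * (Z.card : ℝ) = ∑ k ∈ Z, F := by rw [Finset.sum_const, nsmul_eq_mul, mul_comm]
    _ ≤ ∑ k ∈ Z, ((S (g k)).card : ℝ) := Finset.sum_le_sum fun k hk => hF _ (hg k hk).1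
    _ = ∑ z ∈ Un, ((Z.filter (fun k => z ∈ S (g k))).card : ℝ) := h2
    _ ≤ ∑ z ∈ Un, (2 : ℝ) := Finset.sum_le_sum fun z hz => by exact_mod_cast h1 z hz
    _ = 2 * (Un.card : ℝ) := by rw [Finset.sum_const, nsmul_eq_mul, mul_comm]

end Pool.Agent.Work.MP_e17eac_co.CFG

end

section

/-! # Ring module, item BIS: bisection -/

namespace Pool.Agent.Work.MP_e17eac_co.RING

namespace XBIS

theorem step (Q : Set ℝ) (τ : ℝ) (hτ : 0 < τ) (hτ4 : τ ≤ 1 / 4) (h0 : (0 : ℝ) ∈ Q)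
    (h1 : (1 : ℝ) ∈ Q)
    (hQ : ∀ q ∈ Q, -1 ≤ q → q ≤ 2 →
      (∃ q' ∈ Q, |q' - q / 2| ≤ τ) ∧ ∃ q' ∈ Q, |q' - (q + 1) / 2| ≤ τ) (m : ℕ) :
    ∀ y : ℝ, 0 ≤ y → y ≤ 1 → ∃ q ∈ Q, |q - y| ≤ 2 * τ + (1 / 2) ^ (m + 1) := by
  induction m with
  | zero =>
    intro y hy0 hy1
    rcases le_total y (1 / 2) with h | h
    · refine ⟨0, h0, ?_⟩
      rw [abs_le]
      norm_num
      constructor <;> linarith
    · refine ⟨1, h1, ?_⟩
      rw [abs_le]
      norm_num
      constructor <;> linarith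
  | succ m ih =>
    intro y hy0 hy1
    have hpow : ((1 : ℝ) / 2) ^ (m + 1) ≤ 1 / 2 := by
      have h2 : ((1 : ℝ) / 2) ^ m ≤ 1 := pow_le_one₀ (by norm_num) (by norm_num)
      rw [pow_succ]
      linarith
    have hpow2 : ((1 : ℝ) / 2) ^ (m + 1 + 1) = (1 / 2) ^ (m + 1) / 2 := by
      rw [pow_succ]
      ring
    rcases le_total y (1 / 2) with h | h
    · obtain ⟨q, hq, hqy⟩ := ih (2 * y) (by linarith) (by linarith)
      have hb := abs_le.mp hqy
      obtain ⟨⟨q', hq', hqq⟩, -⟩ := hQ q hq (by linarith [hb.1]) (by linarith [hb.2])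
      refine ⟨q', hq', ?_⟩
      have hc := abs_le.mp hqq
      rw [abs_le, hpow2]
      constructor <;> linarith [hb.1, hb.2, hc.1, hc.2]
    · obtain ⟨q, hq, hqy⟩ := ih (2 * y - 1) (by linarith) (by linarith)
      have hb := abs_le.mp hqy
      obtain ⟨-, ⟨q', hq', hqq⟩⟩ := hQ q hq (by linarith [hb.1]) (by linarith [hb.2])
      refine ⟨q', hq', ?_⟩
      have hc := abs_le.mp hqq
      rw [abs_le, hpow2]
      constructor <;> linarith [hb.1, hb.2, hc.1, hc.2]

end XBIS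

theorem I_BIS : StBis := by
  intro Q τ hτ hτ4 h0 h1 hQ y hy0 hy1
  obtain ⟨m, hm⟩ := exists_pow_lt_of_lt_one hτ (by norm_num : (1 : ℝ) / 2 < 1)
  obtain ⟨q, hq, hqy⟩ := XBIS.step Q τ hτ hτ4 h0 h1 hQ m y hy0 hy1
  refine ⟨q, hq, hqy.trans ?_⟩
  have h3 : ((1 : ℝ) / 2) ^ (m + 1) ≤ (1 / 2) ^ m := by
    rw [pow_succ]
    have : (0 : ℝ) < (1 / 2) ^ m := by positivity
    linarith
  linarith

end Pool.Agent.Work.MP_e17eac_co.RING

end

section

/-!
# Ring module: item FAR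
-/

namespace Pool.Agent.Work.MP_e17eac_co.RING

open Finset

namespace XFAR

theorem three {κ x y z : ℝ} (hκ : 0 < κ) (hx : |x| ≤ κ) (hy : |y| ≤ κ) (hz : |z| ≤ κ)
    (hxy : 2 * κ ≤ |x - y|) (hxz : 2 * κ ≤ |x - z|) (hyz : 2 * κ ≤ |y - z|) : False := by
  rw [abs_le] at hx hy hz
  obtain ⟨hx1, hx2⟩ := hx
  obtain ⟨hy1, hy2⟩ := hy
  obtain ⟨hz1, hz2⟩ := hz
  rcases le_abs.1 hxy with h1 | h1 <;> rcases le_abs.1 hxz with h2 | h2 <;>
    rcases le_abs.1 hyz with h3 | h3 <;> linarith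

theorem sep {s τ u w a b : ℝ} (hτ : 0 < τ) (hw : s ≤ |w|) (hab : 2 * τ ≤ |a - b|) :
    2 * (τ * s) ≤ |(u + a * w) - (u + b * w)| := by
  have h1 : (u + a * w) - (u + b * w) = (a - b) * w := by ring
  rw [h1, abs_mul]
  have h2 : 2 * τ * s ≤ 2 * τ * |w| := mul_le_mul_of_nonneg_left hw (by linarith)
  have h3 : 2 * τ * |w| ≤ |a - b| * |w| := mul_le_mul_of_nonneg_right hab (abs_nonneg w)
  linarith

end XFAR

theorem I_FAR : StFar := by
  intro s τ m t D hs hτ ht
  classical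
  set U : Finset ((ℝ × ℝ) × (ℝ × ℝ)) := (D ×ˢ D) ×ˢ (D ×ˢ D) with hU
  let P : ℕ → (ℝ × ℝ) × (ℝ × ℝ) → Prop := fun i z =>
    |z.1.1 - z.1.2 + t i * (z.2.1 - z.2.2)| ≤ τ * s ∧ s ≤ |z.2.1 - z.2.2|
  have h1 : ∀ i, ((quad D (t i) (τ * s)).filter fun z => s ≤ |z.2.1 - z.2.2|) =
      U.filter (P i) := by
    intro i
    rw [quad, Finset.filter_filter]
  have h2 : ∑ i ∈ range m, (U.filter (P i)).card =
      ∑ z ∈ U, ((range m).filter fun i => P i z).card :=
    Finset.sum_card_bipartiteAbove_eq_sum_card_bipartiteBelow P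
  have h3 : ∀ z ∈ U, ((range m).filter fun i => P i z).card ≤ 2 := by
    intro z _
    by_contra hcon
    push Not at hcon
    obtain ⟨i, hi, j, hj, k, hk, hij, hik, hjk⟩ := Finset.two_lt_card.1 hcon
    simp only [Finset.mem_filter, Finset.mem_range, P] at hi hj hk
    exact XFAR.three (mul_pos hτ hs) hi.2.1 hj.2.1 hk.2.1
      (XFAR.sep hτ hi.2.2 (ht i hi.1 j hj.1 hij))
      (XFAR.sep hτ hi.2.2 (ht i hi.1 k hk.1 hik))
      (XFAR.sep hτ hi.2.2 (ht j hj.1 k hk.1 hjk))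
  have h4 : ∑ i ∈ range m, (U.filter (P i)).card ≤ 2 * D.card ^ 4 := by
    rw [h2]
    refine (Finset.sum_le_card_nsmul U _ 2 h3).trans (le_of_eq ?_)
    rw [hU, Finset.card_product, Finset.card_product, smul_eq_mul]
    ring
  simp only [h1]
  exact_mod_cast h4

end Pool.Agent.Work.MP_e17eac_co.RING

end

section

set_option autoImplicit false

namespace Pool.Agent.Work.MP_e17eac_co.RING

open Finset

namespace XPOP

open Classical in
lemma cardEq (P Z : Finset (ℤ × ℤ)) (h : Z ⊆ P) :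
    (Z.card : ℝ) = ∑ z ∈ P, (if z ∈ Z then (1 : ℝ) else 0) := by
  rw [Finset.sum_boole, Finset.filter_mem_eq_inter, Finset.inter_eq_right.mpr h]

open Classical in
lemma sumCard (X : Finset ℝ) (P : Finset (ℤ × ℤ)) (Z : ℝ → Finset (ℤ × ℤ))
    (h : ∀ x ∈ X, Z x ⊆ P) :
    ∑ x ∈ X, ((Z x).card : ℝ) = ∑ z ∈ P, ∑ x ∈ X, (if z ∈ Z x then (1 : ℝ) else 0) := by
  rw [Finset.sum_comm]
  exact Finset.sum_congr rfl fun x hx => cardEq P (Z x) (h x hx)

open Classical in
lemma sumSq (X : Finset ℝ) (P : Finset (ℤ × ℤ)) (Z : ℝ → Finset (ℤ × ℤ))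
    (h : ∀ x ∈ X, Z x ⊆ P) :
    ∑ z ∈ P, (∑ x ∈ X, (if z ∈ Z x then (1 : ℝ) else 0)) ^ 2 =
      ∑ x₀ ∈ X, ∑ x ∈ X, ((Z x ∩ Z x₀).card : ℝ) := by
  simp_rw [sq, Finset.sum_mul_sum]
  rw [Finset.sum_comm]
  refine Finset.sum_congr rfl fun x₀ hx₀ => ?_
  rw [Finset.sum_comm]
  refine Finset.sum_congr rfl fun x hx => ?_
  rw [cardEq P (Z x ∩ Z x₀) (Finset.inter_subset_left.trans (h x hx))]
  refine Finset.sum_congr rfl fun z _ => ?_
  by_cases h1 : z ∈ Z x <;> by_cases h2 : z ∈ Z x₀ <;> simp [h1, h2]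

end XPOP

open Classical in
theorem I_POP : StPop := by
  intro L k X P₁ P₂ U V hL hk hX hP₁ hP₂ hUV
  set P : Finset (ℤ × ℤ) := P₁ ×ˢ P₂ with hPdef
  set Z : ℝ → Finset (ℤ × ℤ) := fun x => U x ×ˢ V x with hZdef
  have hL0 : 0 < L := by linarith
  have hZP : ∀ x ∈ X, Z x ⊆ P := fun x hx =>
    Finset.product_subset_product (hUV x hx).1 (hUV x hx).2.1
  have hPc : (P.card : ℝ) ≤ L ^ 2 * k ^ 2 := by
    have : (P.card : ℝ) = (P₁.card : ℝ) * (P₂.card : ℝ) := by
      rw [hPdef, Finset.card_product]; push_cast; ring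
    rw [this]
    calc (P₁.card : ℝ) * (P₂.card : ℝ) ≤ (L * k) * (L * k) :=
          mul_le_mul hP₁ hP₂ (Nat.cast_nonneg _) (by positivity)
      _ = L ^ 2 * k ^ 2 := by ring
  have hZc : ∀ x ∈ X, k ^ 2 ≤ L ^ 2 * ((Z x).card : ℝ) := by
    intro x hx
    have : ((Z x).card : ℝ) = ((U x).card : ℝ) * ((V x).card : ℝ) := by
      rw [hZdef]; simp only [Finset.card_product]; push_cast; ring
    rw [this]
    obtain ⟨_, _, h1, h2⟩ := hUV x hx
    calc k ^ 2 = k * k := by ring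
      _ ≤ (L * ((U x).card : ℝ)) * (L * ((V x).card : ℝ)) := mul_le_mul h1 h2 hk.le (by positivity)
      _ = L ^ 2 * (((U x).card : ℝ) * ((V x).card : ℝ)) := by ring
  have hn : (0 : ℝ) < (X.card : ℝ) := by exact_mod_cast hX.card_pos
  -- Cauchy-Schwarz
  have hS1 : (X.card : ℝ) * k ^ 2 ≤ L ^ 2 * ∑ x ∈ X, ((Z x).card : ℝ) := by
    rw [Finset.mul_sum, ← nsmul_eq_mul, ← Finset.sum_const]
    exact Finset.sum_le_sum hZc
  have hCS : (∑ x ∈ X, ((Z x).card : ℝ)) ^ 2 ≤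
      (P.card : ℝ) * ∑ x₀ ∈ X, ∑ x ∈ X, ((Z x ∩ Z x₀).card : ℝ) := by
    rw [XPOP.sumCard X P Z hZP, ← XPOP.sumSq X P Z hZP]
    exact sq_sum_le_card_mul_sum_sq
  have hS0 : 0 ≤ ∑ x₀ ∈ X, ∑ x ∈ X, ((Z x ∩ Z x₀).card : ℝ) :=
    Finset.sum_nonneg fun _ _ => Finset.sum_nonneg fun _ _ => Nat.cast_nonneg _
  have hkey : (X.card : ℝ) ^ 2 * k ^ 2 ≤
      L ^ 6 * ∑ x₀ ∈ X, ∑ x ∈ X, ((Z x ∩ Z x₀).card : ℝ) := by
    have h1 : ((X.card : ℝ) * k ^ 2) ^ 2 ≤ (L ^ 2 * ∑ x ∈ X, ((Z x).card : ℝ)) ^ 2 :=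
      pow_le_pow_left₀ (by positivity) hS1 2
    have h2 : (L ^ 2 * ∑ x ∈ X, ((Z x).card : ℝ)) ^ 2 ≤
        L ^ 4 * ((L ^ 2 * k ^ 2) * ∑ x₀ ∈ X, ∑ x ∈ X, ((Z x ∩ Z x₀).card : ℝ)) := by
      rw [mul_pow]
      have : (L ^ 2) ^ 2 = L ^ 4 := by ring
      rw [this]
      exact mul_le_mul_of_nonneg_left (hCS.trans (mul_le_mul_of_nonneg_right hPc hS0))
        (by positivity)
    have h3 : k ^ 2 * ((X.card : ℝ) ^ 2 * k ^ 2) ≤
        k ^ 2 * (L ^ 6 * ∑ x₀ ∈ X, ∑ x ∈ X, ((Z x ∩ Z x₀).card : ℝ)) := by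
      calc k ^ 2 * ((X.card : ℝ) ^ 2 * k ^ 2) = ((X.card : ℝ) * k ^ 2) ^ 2 := by ring
        _ ≤ _ := h1.trans h2
        _ = k ^ 2 * (L ^ 6 * ∑ x₀ ∈ X, ∑ x ∈ X, ((Z x ∩ Z x₀).card : ℝ)) := by ring
    exact le_of_mul_le_mul_left h3 (by positivity)
  -- a popular slope
  obtain ⟨x₀, hx₀, hpop⟩ : ∃ x₀ ∈ X, (X.card : ℝ) * k ^ 2 ≤
      L ^ 6 * ∑ x ∈ X, ((Z x ∩ Z x₀).card : ℝ) := by
    by_contra hcon
    push Not at hcon
    have hlt : ∑ x₀ ∈ X, L ^ 6 * ∑ x ∈ X, ((Z x ∩ Z x₀).card : ℝ) <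
        ∑ _x₀ ∈ X, (X.card : ℝ) * k ^ 2 := Finset.sum_lt_sum_of_nonempty hX hcon
    rw [← Finset.mul_sum, Finset.sum_const, nsmul_eq_mul] at hlt
    have : (X.card : ℝ) * ((X.card : ℝ) * k ^ 2) = (X.card : ℝ) ^ 2 * k ^ 2 := by ring
    rw [this] at hlt
    linarith
  refine ⟨x₀, hx₀, X.filter fun x => k ^ 2 ≤ 2 * L ^ 6 * ((Z x ∩ Z x₀).card : ℝ),
    Finset.filter_subset _ _, ?_, ?_⟩
  · have hsplit := Finset.sum_filter_add_sum_filter_not X
      (fun x => k ^ 2 ≤ 2 * L ^ 6 * ((Z x ∩ Z x₀).card : ℝ)) fun x => ((Z x ∩ Z x₀).card : ℝ)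
    set X₀ := X.filter fun x => k ^ 2 ≤ 2 * L ^ 6 * ((Z x ∩ Z x₀).card : ℝ) with hX₀
    set X₁ := X.filter fun x => ¬ (k ^ 2 ≤ 2 * L ^ 6 * ((Z x ∩ Z x₀).card : ℝ)) with hX₁
    have h1 : ∑ x ∈ X₀, ((Z x ∩ Z x₀).card : ℝ) ≤ (X₀.card : ℝ) * (L ^ 2 * k ^ 2) := by
      rw [← nsmul_eq_mul, ← Finset.sum_const]
      refine Finset.sum_le_sum fun x hx => ?_
      have hxX : x ∈ X := (Finset.mem_filter.mp hx).1
      refine le_trans ?_ hPc
      exact_mod_cast Finset.card_le_card (Finset.inter_subset_left.trans (hZP x hxX))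
    have h2 : 2 * L ^ 6 * ∑ x ∈ X₁, ((Z x ∩ Z x₀).card : ℝ) ≤ (X.card : ℝ) * k ^ 2 := by
      have h3 : 2 * L ^ 6 * ∑ x ∈ X₁, ((Z x ∩ Z x₀).card : ℝ) ≤ (X₁.card : ℝ) * k ^ 2 := by
        rw [Finset.mul_sum, ← nsmul_eq_mul, ← Finset.sum_const]
        refine Finset.sum_le_sum fun x hx => ?_
        exact (not_le.mp (Finset.mem_filter.mp hx).2).le
      refine h3.trans (mul_le_mul_of_nonneg_right ?_ (by positivity))
      exact_mod_cast Finset.card_le_card (Finset.filter_subset _ _)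
    have h4 : (X.card : ℝ) * k ^ 2 ≤ 2 * L ^ 8 * (X₀.card : ℝ) * k ^ 2 := by
      have h5 : 2 * ((X.card : ℝ) * k ^ 2) ≤
          2 * L ^ 6 * (∑ x ∈ X₀, ((Z x ∩ Z x₀).card : ℝ) + ∑ x ∈ X₁, ((Z x ∩ Z x₀).card : ℝ)) := by
        rw [hsplit]; linarith
      have h6 : 2 * L ^ 6 * ∑ x ∈ X₀, ((Z x ∩ Z x₀).card : ℝ) ≤
          2 * L ^ 6 * ((X₀.card : ℝ) * (L ^ 2 * k ^ 2)) :=
        mul_le_mul_of_nonneg_left h1 (by positivity)
      nlinarith
    have h7 : (X.card : ℝ) ≤ 2 * L ^ 8 * (X₀.card : ℝ) :=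
      le_of_mul_le_mul_right h4 (by positivity)
    refine h7.trans (mul_le_mul_of_nonneg_right ?_ (Nat.cast_nonneg _))
    calc 2 * L ^ 8 ≤ L * L ^ 8 := mul_le_mul_of_nonneg_right hL (by positivity)
      _ = L ^ 9 := by ring
  · intro x hx
    obtain ⟨hxX, hxk⟩ := Finset.mem_filter.mp hx
    have hprod : ((Z x ∩ Z x₀).card : ℝ) =
        ((U x ∩ U x₀).card : ℝ) * ((V x ∩ V x₀).card : ℝ) := by
      rw [hZdef]
      simp only [Finset.product_inter_product, Finset.card_product]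
      push_cast; ring
    have hU : ((U x ∩ U x₀).card : ℝ) ≤ L * k := by
      refine le_trans ?_ hP₁
      exact_mod_cast Finset.card_le_card (Finset.inter_subset_left.trans (hUV x hxX).1)
    have hV : ((V x ∩ V x₀).card : ℝ) ≤ L * k := by
      refine le_trans ?_ hP₂
      exact_mod_cast Finset.card_le_card (Finset.inter_subset_left.trans (hUV x hxX).2.1)
    rw [hprod] at hxk
    have h28 : 2 * L ^ 7 ≤ L ^ 8 := by
      calc 2 * L ^ 7 ≤ L * L ^ 7 := mul_le_mul_of_nonneg_right hL (by positivity)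
        _ = L ^ 8 := by ring
    constructor
    · have h1 : k * k ≤ (2 * L ^ 7 * ((U x ∩ U x₀).card : ℝ)) * k := by
        calc k * k = k ^ 2 := by ring
          _ ≤ 2 * L ^ 6 * (((U x ∩ U x₀).card : ℝ) * ((V x ∩ V x₀).card : ℝ)) := hxk
          _ ≤ 2 * L ^ 6 * (((U x ∩ U x₀).card : ℝ) * (L * k)) := by
              exact mul_le_mul_of_nonneg_left
                (mul_le_mul_of_nonneg_left hV (Nat.cast_nonneg _)) (by positivity)
          _ = (2 * L ^ 7 * ((U x ∩ U x₀).card : ℝ)) * k := by ring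
      exact (le_of_mul_le_mul_right h1 hk).trans
        (mul_le_mul_of_nonneg_right h28 (Nat.cast_nonneg _))
    · have h1 : k * k ≤ (2 * L ^ 7 * ((V x ∩ V x₀).card : ℝ)) * k := by
        calc k * k = k ^ 2 := by ring
          _ ≤ 2 * L ^ 6 * (((U x ∩ U x₀).card : ℝ) * ((V x ∩ V x₀).card : ℝ)) := hxk
          _ ≤ 2 * L ^ 6 * ((L * k) * ((V x ∩ V x₀).card : ℝ)) := by
              exact mul_le_mul_of_nonneg_left
                (mul_le_mul_of_nonneg_right hU (Nat.cast_nonneg _)) (by positivity)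
          _ = (2 * L ^ 7 * ((V x ∩ V x₀).card : ℝ)) * k := by ring
      exact (le_of_mul_le_mul_right h1 hk).trans
        (mul_le_mul_of_nonneg_right h28 (Nat.cast_nonneg _))

end Pool.Agent.Work.MP_e17eac_co.RING

end

section

/-!
# Ring module, item SEL: selection of the two coordinate directions
-/

set_option autoImplicit false

namespace Pool.Agent.Work.MP_e17eac_co.RING

open Finset

namespace XSEL

/-- indicator -/
noncomputable def nd (p : Prop) : ℝ := by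
  classical
  exact if p then 1 else 0

theorem nd_t {p : Prop} (h : p) : nd p = 1 := by unfold nd; simp [h]

theorem nd_f {p : Prop} (h : ¬ p) : nd p = 0 := by unfold nd; simp [h]

theorem nd_nonneg (p : Prop) : 0 ≤ nd p := by
  by_cases h : p
  · rw [nd_t h]; norm_num
  · rw [nd_f h]

theorem nd_sum {α : Type} (S : Finset α) (p : α → Prop) [DecidablePred p] :
    ∑ x ∈ S, nd (p x) = ((S.filter p).card : ℝ) := by
  rw [Finset.card_filter]
  push_cast
  refine Finset.sum_congr rfl (fun x _ => ?_)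
  by_cases h : p x
  · rw [nd_t h]; simp [h]
  · rw [nd_f h]; simp [h]

theorem sum_I {T : Finset (ℝ × ℝ)} {A : Finset ℝ} {I : Finset ((ℝ × ℝ) × ℝ)}
    (hI : I ⊆ T ×ˢ A) (h : ℝ × ℝ → ℝ) :
    ∑ z ∈ I, h z.1 = ∑ p ∈ T, (∑ x ∈ A, nd ((p, x) ∈ I)) * h p := by
  classical
  have e : I = (T ×ˢ A).filter (fun z => z ∈ I) := by
    ext z
    rw [Finset.mem_filter]
    exact ⟨fun h => ⟨hI h, h⟩, fun h => h.2⟩
  conv_lhs => rw [e]
  rw [Finset.sum_filter, Finset.sum_product]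
  refine Finset.sum_congr rfl (fun p _ => ?_)
  rw [Finset.sum_mul]
  refine Finset.sum_congr rfl (fun x _ => ?_)
  by_cases h1 : (p, x) ∈ I
  · rw [nd_t h1, if_pos h1]; ring
  · rw [nd_f h1, if_neg h1]; ring

end XSEL

open XSEL in
theorem I_SEL : StSel := by
  classical
  intro K k w A T I hK hk hI hA hT hinc hnear
  have hK0 : 0 < K := by linarith
  set d : ℝ × ℝ → ℝ := fun p => ∑ x ∈ A, nd ((p, x) ∈ I) with hd
  have hd0 : ∀ p ∈ T, 0 ≤ d p := fun p _ => Finset.sum_nonneg (fun x _ => nd_nonneg _)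
  -- number of incidences
  have hIc : (I.card : ℝ) = ∑ p ∈ T, d p := by
    have := sum_I hI (fun _ => (1 : ℝ))
    simpa using this
  have hIle : (I.card : ℝ) ≤ K ^ 2 * k ^ 3 := by
    have h1 : (I.card : ℝ) ≤ (T.card : ℝ) * (A.card : ℝ) := by
      have := Finset.card_le_card hI
      rw [Finset.card_product] at this
      exact_mod_cast this
    calc (I.card : ℝ) ≤ (T.card : ℝ) * (A.card : ℝ) := h1
      _ ≤ (K * k ^ 2) * (K * k) := mul_le_mul hT hA (Nat.cast_nonneg _) (by positivity)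
      _ = K ^ 2 * k ^ 3 := by ring
  have hIpos : 0 < (I.card : ℝ) := by
    by_contra hcon
    push Not at hcon
    have : K * (I.card : ℝ) ≤ 0 := by nlinarith
    have h3 : 0 < k ^ 3 := by positivity
    linarith
  have hIne : I.Nonempty := by
    rw [← Finset.card_pos]; exact_mod_cast hIpos
  obtain ⟨z0, hz0⟩ := hIne
  have hz0' := Finset.mem_product.1 (hI hz0)
  have hAne : A.Nonempty := ⟨z0.2, hz0'.2⟩
  have hTpos : 0 < (T.card : ℝ) := by exact_mod_cast Finset.card_pos.2 ⟨z0.1, hz0'.1⟩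
  -- all quadruples
  have hall : ∑ x₁ ∈ A, ∑ x₂ ∈ A, ∑ z ∈ I, nd ((z.1, x₁) ∈ I) * nd ((z.1, x₂) ∈ I) =
      ∑ p ∈ T, d p ^ 3 := by
    have e1 : ∑ x₁ ∈ A, ∑ x₂ ∈ A, ∑ z ∈ I, nd ((z.1, x₁) ∈ I) * nd ((z.1, x₂) ∈ I) =
        ∑ z ∈ I, (d z.1) * (d z.1) := by
      have s1 : ∀ x₁ ∈ A, ∑ x₂ ∈ A, ∑ z ∈ I, nd ((z.1, x₁) ∈ I) * nd ((z.1, x₂) ∈ I) =
          ∑ z ∈ I, nd ((z.1, x₁) ∈ I) * d z.1 := by
        intro x₁ _
        rw [Finset.sum_comm]
        refine Finset.sum_congr rfl (fun z _ => ?_)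
        rw [hd, Finset.mul_sum]
      rw [Finset.sum_congr rfl s1, Finset.sum_comm]
      refine Finset.sum_congr rfl (fun z _ => ?_)
      rw [← Finset.sum_mul]
    rw [e1, sum_I hI (fun p => d p * d p)]
    refine Finset.sum_congr rfl (fun p _ => ?_)
    ring
  have hlow : k ^ 5 / K ^ 5 ≤ ∑ p ∈ T, d p ^ 3 := by
    have h1 := pow_sum_div_card_le_sum_pow (s := T) (f := d) hd0 2
    rw [← hIc] at h1
    refine le_trans ?_ h1
    norm_num only
    rw [div_le_div_iff₀ (by positivity) (by positivity)]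
    have h2 : (k ^ 3) ^ 3 ≤ (K * (I.card : ℝ)) ^ 3 := pow_le_pow_left₀ (by positivity) hinc 3
    have h3 : (T.card : ℝ) ^ 2 ≤ (K * k ^ 2) ^ 2 := pow_le_pow_left₀ hTpos.le hT 2
    calc k ^ 5 * (T.card : ℝ) ^ 2 ≤ k ^ 5 * (K * k ^ 2) ^ 2 :=
          mul_le_mul_of_nonneg_left h3 (by positivity)
      _ = K ^ 2 * (k ^ 3) ^ 3 := by ring
      _ ≤ K ^ 2 * (K * (I.card : ℝ)) ^ 3 := mul_le_mul_of_nonneg_left h2 (by positivity)
      _ = (I.card : ℝ) ^ 3 * K ^ 5 := by ring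
  -- the bad quadruples
  have hq : ∀ y ∈ A, ∑ x ∈ A, nd (|x - y| < w) ≤ k / (6 * K ^ 8) := by
    intro y hy
    rw [nd_sum]
    exact hnear y hy
  have hq0 : 0 ≤ k / (6 * K ^ 8) := by positivity
  have hbadv : (A.card : ℝ) * ((I.card : ℝ) * (k / (6 * K ^ 8))) ≤ k ^ 5 / (6 * K ^ 5) := by
    calc (A.card : ℝ) * ((I.card : ℝ) * (k / (6 * K ^ 8)))
        ≤ (K * k) * ((K ^ 2 * k ^ 3) * (k / (6 * K ^ 8))) :=
          mul_le_mul hA (mul_le_mul_of_nonneg_right hIle hq0) (by positivity) (by positivity)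
      _ = k ^ 5 / (6 * K ^ 5) := by field_simp
  have hb1 : ∑ x₁ ∈ A, ∑ x₂ ∈ A, ∑ _z ∈ I, nd (|x₂ - x₁| < w) ≤ k ^ 5 / (6 * K ^ 5) := by
    refine le_trans ?_ hbadv
    calc ∑ x₁ ∈ A, ∑ x₂ ∈ A, ∑ _z ∈ I, nd (|x₂ - x₁| < w)
        ≤ ∑ _x₁ ∈ A, (I.card : ℝ) * (k / (6 * K ^ 8)) := by
          refine Finset.sum_le_sum (fun x₁ hx₁ => ?_)
          have e : ∑ x₂ ∈ A, ∑ _z ∈ I, nd (|x₂ - x₁| < w) =
              (I.card : ℝ) * ∑ x₂ ∈ A, nd (|x₂ - x₁| < w) := by
            rw [Finset.mul_sum]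
            refine Finset.sum_congr rfl (fun x₂ _ => ?_)
            rw [Finset.sum_const, nsmul_eq_mul]
          rw [e]
          exact mul_le_mul_of_nonneg_left (hq x₁ hx₁) (Nat.cast_nonneg _)
      _ = _ := by rw [Finset.sum_const, nsmul_eq_mul]
  have hb2 : ∑ x₁ ∈ A, ∑ _x₂ ∈ A, ∑ z ∈ I, nd (|x₁ - z.2| < w) ≤ k ^ 5 / (6 * K ^ 5) := by
    refine le_trans ?_ hbadv
    rw [Finset.sum_comm]
    calc ∑ _x₂ ∈ A, ∑ x₁ ∈ A, ∑ z ∈ I, nd (|x₁ - z.2| < w)
        ≤ ∑ _x₂ ∈ A, (I.card : ℝ) * (k / (6 * K ^ 8)) := by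
          refine Finset.sum_le_sum (fun x₂ _ => ?_)
          rw [Finset.sum_comm]
          calc ∑ z ∈ I, ∑ x₁ ∈ A, nd (|x₁ - z.2| < w) ≤ ∑ _z ∈ I, k / (6 * K ^ 8) :=
                Finset.sum_le_sum (fun z hz => hq z.2 (Finset.mem_product.1 (hI hz)).2)
            _ = _ := by rw [Finset.sum_const, nsmul_eq_mul]
      _ = _ := by rw [Finset.sum_const, nsmul_eq_mul]
  have hb3 : ∑ _x₁ ∈ A, ∑ x₂ ∈ A, ∑ z ∈ I, nd (|x₂ - z.2| < w) ≤ k ^ 5 / (6 * K ^ 5) := by
    rw [Finset.sum_comm]; exact hb2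
  -- contradiction
  by_contra hcon
  push Not at hcon
  have hgood : ∀ x₁ ∈ A, ∀ x₂ ∈ A, ∑ z ∈ I, nd (w ≤ |x₁ - x₂| ∧ ((z.1, x₁) ∈ I ∧ (z.1, x₂) ∈ I ∧
      w ≤ |z.2 - x₁| ∧ w ≤ |z.2 - x₂|)) < k ^ 3 / (2 * K ^ 7) := by
    intro x₁ h1 x₂ h2
    by_cases hw : w ≤ |x₁ - x₂|
    · have h3 := hcon x₁ h1 x₂ h2 hw
      rw [lt_div_iff₀ (by positivity), mul_comm]
      refine lt_of_le_of_lt (mul_le_mul_of_nonneg_left ?_ (by positivity)) h3
      rw [nd_sum]
      have : (I.filter fun z => w ≤ |x₁ - x₂| ∧ ((z.1, x₁) ∈ I ∧ (z.1, x₂) ∈ I ∧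
          w ≤ |z.2 - x₁| ∧ w ≤ |z.2 - x₂|)).card ≤ (I.filter fun z => (z.1, x₁) ∈ I ∧
          (z.1, x₂) ∈ I ∧ w ≤ |z.2 - x₁| ∧ w ≤ |z.2 - x₂|).card := by
        apply Finset.card_le_card
        intro z hz
        rw [Finset.mem_filter] at hz ⊢
        exact ⟨hz.1, hz.2.2⟩
      exact_mod_cast this
    · have : ∑ z ∈ I, nd (w ≤ |x₁ - x₂| ∧ ((z.1, x₁) ∈ I ∧ (z.1, x₂) ∈ I ∧
          w ≤ |z.2 - x₁| ∧ w ≤ |z.2 - x₂|)) = 0 :=
        Finset.sum_eq_zero (fun z _ => nd_f (fun h => hw h.1))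
      rw [this]; positivity
  have hsum : ∑ x₁ ∈ A, ∑ x₂ ∈ A, ∑ z ∈ I, nd (w ≤ |x₁ - x₂| ∧ ((z.1, x₁) ∈ I ∧ (z.1, x₂) ∈ I ∧
      w ≤ |z.2 - x₁| ∧ w ≤ |z.2 - x₂|)) < k ^ 5 / (2 * K ^ 5) := by
    calc _ < ∑ _x₁ ∈ A, ∑ _x₂ ∈ A, k ^ 3 / (2 * K ^ 7) :=
          Finset.sum_lt_sum_of_nonempty hAne (fun x₁ h1 =>
            Finset.sum_lt_sum_of_nonempty hAne (fun x₂ h2 => hgood x₁ h1 x₂ h2))
      _ = (A.card : ℝ) * (A.card : ℝ) * (k ^ 3 / (2 * K ^ 7)) := by
          rw [Finset.sum_const, Finset.sum_const, nsmul_eq_mul, nsmul_eq_mul]; ring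
      _ ≤ (K * k) * (K * k) * (k ^ 3 / (2 * K ^ 7)) := by
          apply mul_le_mul_of_nonneg_right _ (by positivity)
          exact mul_le_mul hA hA (Nat.cast_nonneg _) (by positivity)
      _ = _ := by field_simp
  have hpt : ∑ x₁ ∈ A, ∑ x₂ ∈ A, ∑ z ∈ I, nd ((z.1, x₁) ∈ I) * nd ((z.1, x₂) ∈ I) ≤
      ∑ x₁ ∈ A, ∑ x₂ ∈ A, ∑ z ∈ I, nd (w ≤ |x₁ - x₂| ∧ ((z.1, x₁) ∈ I ∧ (z.1, x₂) ∈ I ∧
      w ≤ |z.2 - x₁| ∧ w ≤ |z.2 - x₂|)) +
      ∑ x₁ ∈ A, ∑ x₂ ∈ A, ∑ _z ∈ I, nd (|x₂ - x₁| < w) +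
      ∑ x₁ ∈ A, ∑ _x₂ ∈ A, ∑ z ∈ I, nd (|x₁ - z.2| < w) +
      ∑ _x₁ ∈ A, ∑ x₂ ∈ A, ∑ z ∈ I, nd (|x₂ - z.2| < w) := by
    simp only [← Finset.sum_add_distrib]
    refine Finset.sum_le_sum (fun x₁ _ => Finset.sum_le_sum (fun x₂ _ =>
      Finset.sum_le_sum (fun z _ => ?_)))
    have n1 := nd_nonneg (w ≤ |x₁ - x₂| ∧ ((z.1, x₁) ∈ I ∧ (z.1, x₂) ∈ I ∧
      w ≤ |z.2 - x₁| ∧ w ≤ |z.2 - x₂|))
    have n2 := nd_nonneg (|x₂ - x₁| < w)
    have n3 := nd_nonneg (|x₁ - z.2| < w)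
    have n4 := nd_nonneg (|x₂ - z.2| < w)
    by_cases a1 : (z.1, x₁) ∈ I
    swap
    · rw [nd_f a1]; linarith
    by_cases a2 : (z.1, x₂) ∈ I
    swap
    · rw [nd_f a2]; linarith
    rw [nd_t a1, nd_t a2]
    by_cases b1 : |x₂ - x₁| < w
    · rw [nd_t b1]; linarith
    by_cases b2 : |x₁ - z.2| < w
    · rw [nd_t b2]; linarith
    by_cases b3 : |x₂ - z.2| < w
    · rw [nd_t b3]; linarith
    have b4 : w ≤ |x₁ - x₂| ∧ ((z.1, x₁) ∈ I ∧ (z.1, x₂) ∈ I ∧
      w ≤ |z.2 - x₁| ∧ w ≤ |z.2 - x₂|) := by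
      push Not at b1 b2 b3
      rw [abs_sub_comm] at b1 b2 b3
      exact ⟨b1, a1, a2, b2, b3⟩
    rw [nd_t b4]
    linarith
  have hfin : k ^ 5 / K ^ 5 = k ^ 5 / (2 * K ^ 5) + 3 * (k ^ 5 / (6 * K ^ 5)) := by
    field_simp; ring
  rw [hall] at hpt
  linarith

end Pool.Agent.Work.MP_e17eac_co.RING

end

section

/-! Ring module, item TRI: many incidences through one cell and one class. -/

set_option autoImplicit false

namespace Pool.Agent.Work.MP_e17eac_co.RING

open Finset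

namespace XTRI

/-- Cauchy-Schwarz over the fibres. -/
theorem pairs {α β : Type} [DecidableEq α] [DecidableEq β] (S : Finset α) (f : α → β) :
    ((S.card : ℝ)) ^ 2 ≤ ((S.image f).card : ℝ) *
      (((S ×ˢ S).filter fun z => f z.1 = f z.2).card : ℝ) := by
  have h1 : (S.card : ℝ) = ∑ b ∈ S.image f, ((S.filter fun a => f a = b).card : ℝ) := by
    rw [Finset.card_eq_sum_card_image f S]
    push_cast
    rfl
  have h2 : (((S ×ˢ S).filter fun z => f z.1 = f z.2).card : ℝ) =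
      ∑ b ∈ S.image f, ((S.filter fun a => f a = b).card : ℝ) ^ 2 := by
    have h3 : ((S ×ˢ S).filter fun z => f z.1 = f z.2) =
        (S.image f).biUnion fun b => (S.filter fun a => f a = b) ×ˢ (S.filter fun a => f a = b) := by
      ext z
      simp only [mem_filter, mem_product, mem_biUnion, mem_image]
      constructor
      · rintro ⟨⟨ha, hb⟩, hab⟩
        exact ⟨f z.1, ⟨z.1, ha, rfl⟩, ⟨ha, rfl⟩, ⟨hb, hab.symm⟩⟩
      · rintro ⟨b, _, ⟨ha, hab⟩, ⟨hc, hcb⟩⟩
        exact ⟨⟨ha, hc⟩, hab.trans hcb.symm⟩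
    rw [h3, Finset.card_biUnion]
    · push_cast
      refine Finset.sum_congr rfl fun b _ => ?_
      rw [Finset.card_product]
      push_cast
      ring
    · intro b _ c _ hbc
      simp only [Function.onFun]
      rw [Finset.disjoint_left]
      intro z hz hz'
      rw [mem_product, mem_filter, mem_filter] at hz hz'
      exact hbc (hz.1.2.symm.trans hz'.1.2)
  rw [h1, h2]
  exact sq_sum_le_card_mul_sum_sq

/-- the triples of one slope -/
theorem slope {k L x : ℝ} {G : Finset (ℝ × ℝ)} (hL : 1 ≤ L) (hk : 0 < k)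
    (hG : k ^ 2 ≤ L * (G.card : ℝ)) (hc : ((cl (bb x) G).card : ℝ) ≤ L * k) :
    k ^ 3 ≤ L ^ 3 * (((G ×ˢ G).filter fun z => ⌊bb x z.1⌋ = ⌊bb x z.2⌋).card : ℝ) := by
  classical
  have h := pairs G (fun p => ⌊bb x p⌋)
  have hc' : ((G.image fun p => ⌊bb x p⌋).card : ℝ) ≤ L * k := hc
  set N : ℝ := (((G ×ˢ G).filter fun z => ⌊bb x z.1⌋ = ⌊bb x z.2⌋).card : ℝ)
  have hN : 0 ≤ N := Nat.cast_nonneg _
  have hL0 : 0 < L := by linarith
  have h1 : (k ^ 2) ^ 2 ≤ (L * (G.card : ℝ)) ^ 2 := by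
    have : 0 ≤ k ^ 2 := by positivity
    exact pow_le_pow_left₀ this hG 2
  have h2 : (G.card : ℝ) ^ 2 ≤ L * k * N := h.trans (mul_le_mul_of_nonneg_right hc' hN)
  have h3 : k * k ^ 3 ≤ k * (L ^ 3 * N) := by
    calc k * k ^ 3 = (k ^ 2) ^ 2 := by ring
      _ ≤ (L * (G.card : ℝ)) ^ 2 := h1
      _ = L ^ 2 * (G.card : ℝ) ^ 2 := by ring
      _ ≤ L ^ 2 * (L * k * N) := mul_le_mul_of_nonneg_left h2 (by positivity)
      _ = k * (L ^ 3 * N) := by ring
  exact le_of_mul_le_mul_left h3 hk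

end XTRI

open XTRI in
/-- **TRI** -/
theorem I_TRI : StTri := by
  classical
  intro L k d x₂ T X₀ P₂ G hL hk hT hP hX hG hnear
  have hL0 : 0 < L := by linarith
  let S : Finset (((ℝ × ℝ) × (ℝ × ℝ)) × ℝ) := ((T ×ˢ T) ×ˢ X₀).filter fun z =>
    z.1.1 ∈ G z.2 ∧ z.1.2 ∈ G z.2 ∧ ⌊bb z.2 z.1.1⌋ = ⌊bb z.2 z.1.2⌋
  let F := S.filter fun z => d ≤ |z.1.1.1 - z.1.2.1|
  let N : Finset (((ℝ × ℝ) × (ℝ × ℝ)) × ℝ) := ((T ×ˢ T) ×ˢ X₀).filter fun z =>
    |z.1.1.1 - z.1.2.1| < d ∧ |bb z.2 z.1.1 - bb z.2 z.1.2| < 1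
  -- the number of triples
  have hS : k ^ 4 ≤ L ^ 4 * (S.card : ℝ) := by
    have h1 : (S.card : ℝ) = ∑ x ∈ X₀,
        ((((G x) ×ˢ (G x)).filter fun z => ⌊bb x z.1⌋ = ⌊bb x z.2⌋).card : ℝ) := by
      have h2 : S.card = ∑ x ∈ X₀, (S.filter fun z => z.2 = x).card := by
        refine Finset.card_eq_sum_card_fiberwise fun z hz => ?_
        have hz' := Finset.mem_filter.1 (Finset.mem_coe.1 hz)
        exact Finset.mem_coe.2 (Finset.mem_product.1 hz'.1).2
      rw [h2]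
      push_cast
      refine Finset.sum_congr rfl fun x hx => ?_
      congr 1
      refine Finset.card_bij (fun z _ => z.1) ?_ ?_ ?_
      · intro z hz
        obtain ⟨hz1, hzx⟩ := Finset.mem_filter.1 hz
        obtain ⟨_, h3, h4, h5⟩ := Finset.mem_filter.1 hz1
        rw [Finset.mem_filter, Finset.mem_product]
        rw [hzx] at h3 h4 h5
        exact ⟨⟨h3, h4⟩, h5⟩
      · intro z hz w hw hzw
        have e1 := (Finset.mem_filter.1 hz).2
        have e2 := (Finset.mem_filter.1 hw).2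
        exact Prod.ext hzw (e1.trans e2.symm)
      · intro w hw
        rw [Finset.mem_filter, Finset.mem_product] at hw
        obtain ⟨⟨h3, h4⟩, h5⟩ := hw
        refine ⟨(w, x), ?_, rfl⟩
        rw [Finset.mem_filter]
        refine ⟨?_, rfl⟩
        refine Finset.mem_filter.2 ⟨?_, h3, h4, h5⟩
        rw [Finset.mem_product, Finset.mem_product]
        exact ⟨⟨(hG x hx).1 h3, (hG x hx).1 h4⟩, hx⟩
    have h2 : ∑ x ∈ X₀, k ^ 3 ≤ ∑ x ∈ X₀,
        L ^ 3 * ((((G x) ×ˢ (G x)).filter fun z => ⌊bb x z.1⌋ = ⌊bb x z.2⌋).card : ℝ) :=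
      Finset.sum_le_sum fun x hx => slope hL hk (hG x hx).2.1 (hG x hx).2.2.1
    rw [← Finset.mul_sum, ← h1, Finset.sum_const, nsmul_eq_mul] at h2
    calc k ^ 4 = k * k ^ 3 := by ring
      _ ≤ (L * (X₀.card : ℝ)) * k ^ 3 := mul_le_mul_of_nonneg_right hX (by positivity)
      _ = L * ((X₀.card : ℝ) * k ^ 3) := by ring
      _ ≤ L * (L ^ 3 * (S.card : ℝ)) := mul_le_mul_of_nonneg_left h2 hL0.le
      _ = L ^ 4 * (S.card : ℝ) := by ring
  have hN : 2 * L ^ 4 * (N.card : ℝ) ≤ k ^ 4 := hnear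
  have hSF : S ⊆ F ∪ N := by
    intro z hz
    rw [Finset.mem_union]
    by_cases h : d ≤ |z.1.1.1 - z.1.2.1|
    · exact Or.inl (Finset.mem_filter.2 ⟨hz, h⟩)
    · right
      obtain ⟨h1, _, _, h5⟩ := Finset.mem_filter.1 hz
      refine Finset.mem_filter.2 ⟨h1, not_le.1 h, ?_⟩
      exact Int.abs_sub_lt_one_of_floor_eq_floor h5
  have hF : k ^ 4 ≤ 2 * L ^ 4 * (F.card : ℝ) := by
    have h1 : (S.card : ℝ) ≤ (F.card : ℝ) + (N.card : ℝ) := by
      exact_mod_cast (Finset.card_le_card hSF).trans (Finset.card_union_le _ _)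
    have h2 : L ^ 4 * (S.card : ℝ) ≤ L ^ 4 * ((F.card : ℝ) + (N.card : ℝ)) :=
      mul_le_mul_of_nonneg_left h1 (by positivity)
    nlinarith
  -- the pigeonhole
  have hmaps : ∀ z ∈ F, (z.1.1, ⌊bb x₂ z.1.2⌋) ∈ T ×ˢ P₂ := by
    intro z hz
    obtain ⟨h1, _⟩ := Finset.mem_filter.1 hz
    obtain ⟨h2, h3, h4, _⟩ := Finset.mem_filter.1 h1
    rw [Finset.mem_product, Finset.mem_product] at h2
    rw [Finset.mem_product]
    exact ⟨h2.1.1, (hG z.2 h2.2).2.2.2 _ h4⟩
  have hFpos : 0 < (F.card : ℝ) := by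
    by_contra h0
    have h1 : (F.card : ℝ) = 0 := le_antisymm (not_lt.1 h0) (Nat.cast_nonneg _)
    rw [h1, mul_zero] at hF
    have : 0 < k ^ 4 := by positivity
    linarith
  have hFne : F.Nonempty := by
    rw [← Finset.card_pos]
    exact_mod_cast hFpos
  obtain ⟨w, hw⟩ := hFne
  have hne : (T ×ˢ P₂).Nonempty := ⟨_, hmaps w hw⟩
  have hcard : ((T ×ˢ P₂).card : ℝ) ≤ L ^ 2 * k ^ 3 := by
    rw [Finset.card_product]
    push_cast
    calc (T.card : ℝ) * (P₂.card : ℝ) ≤ (L * k ^ 2) * (L * k) :=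
          mul_le_mul hT hP (Nat.cast_nonneg _) (by positivity)
      _ = L ^ 2 * k ^ 3 := by ring
  have hn : (T ×ˢ P₂).card • (k / (2 * L ^ 6)) ≤ (F.card : ℝ) := by
    rw [nsmul_eq_mul]
    have h1 : 0 ≤ k / (2 * L ^ 6) := by positivity
    calc ((T ×ˢ P₂).card : ℝ) * (k / (2 * L ^ 6)) ≤ (L ^ 2 * k ^ 3) * (k / (2 * L ^ 6)) :=
          mul_le_mul_of_nonneg_right hcard h1
      _ = k ^ 4 / (2 * L ^ 4) := by
          field_simp
      _ ≤ (F.card : ℝ) := by
          rw [div_le_iff₀ (by positivity)]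
          linarith
  obtain ⟨b, hb, hfib⟩ := Finset.exists_le_card_fiber_of_nsmul_le_card_of_maps_to hmaps hne hn
  rw [Finset.mem_product] at hb
  refine ⟨b.1, hb.1, b.2, hb.2, ?_⟩
  set Q : Finset ((ℝ × ℝ) × ℝ) := (T ×ˢ X₀).filter fun z => z.1 ∈ G z.2 ∧
      b.1 ∈ G z.2 ∧ ⌊bb z.2 z.1⌋ = ⌊bb z.2 b.1⌋ ∧ d ≤ |z.1.1 - b.1.1| ∧
      ⌊bb x₂ z.1⌋ = b.2 with hQ
  have hle : (F.filter fun z => (z.1.1, ⌊bb x₂ z.1.2⌋) = b).card ≤ Q.card := by
    refine Finset.card_le_card_of_injOn (fun z => (z.1.2, z.2)) ?_ ?_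
    · intro z hz
      obtain ⟨h0, hzb⟩ := Finset.mem_filter.1 (Finset.mem_coe.1 hz)
      obtain ⟨h1, hd⟩ := Finset.mem_filter.1 h0
      obtain ⟨h2, h3, h4, h5⟩ := Finset.mem_filter.1 h1
      rw [Finset.mem_product, Finset.mem_product] at h2
      have e1 : z.1.1 = b.1 := congrArg Prod.fst hzb
      have e2 : ⌊bb x₂ z.1.2⌋ = b.2 := congrArg Prod.snd hzb
      rw [e1] at h3 h5 hd
      refine Finset.mem_coe.2 (Finset.mem_filter.2 ⟨?_, h4, h3, h5.symm, ?_, e2⟩)
      · rw [Finset.mem_product]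
        exact ⟨h2.1.2, h2.2⟩
      · rw [abs_sub_comm]
        exact hd
    · intro z hz w hw hzw
      have e1 := congrArg Prod.fst (Finset.mem_filter.1 (Finset.mem_coe.1 hz)).2
      have e2 := congrArg Prod.fst (Finset.mem_filter.1 (Finset.mem_coe.1 hw)).2
      have hzw' : (z.1.2, z.2) = (w.1.2, w.2) := hzw
      have e3 : z.1.2 = w.1.2 := (Prod.mk.inj hzw').1
      have e4 : z.2 = w.2 := (Prod.mk.inj hzw').2
      exact Prod.ext (Prod.ext (e1.trans e2.symm) e3) e4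
  have hle' : ((F.filter fun z => (z.1.1, ⌊bb x₂ z.1.2⌋) = b).card : ℝ) ≤ (Q.card : ℝ) := by
    exact_mod_cast hle
  have h1 := hfib.trans hle'
  rw [div_le_iff₀ (by positivity)] at h1
  linarith

end Pool.Agent.Work.MP_e17eac_co.RING

end

section

/-!
# Ring module, uniform version, item DILU: sums of dilates
-/

namespace Pool.Agent.Work.MP_e17eac_co.RINGU

open Finset
open scoped Pointwise
open Pool.Agent.Work.MP_e17eac_co.RING

namespace XDILU

open XDIL

/-- F1 at resolution `r`. -/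
theorem f1 (X Y : Finset ℤ) (c r : ℝ) : ((dl (1 / r) X - dl (c / r) Y).card : ℝ) ≤
    2 * (((X ×ˢ Y).image fun z : ℤ × ℤ => ⌊((z.1 : ℝ) - c * (z.2 : ℝ)) / r⌋).card : ℝ) := by
  have h := card_cover (dl (1 / r) X - dl (c / r) Y)
    ((X ×ˢ Y).image fun z : ℤ × ℤ => ⌊((z.1 : ℝ) - c * (z.2 : ℝ)) / r⌋)
    (fun m => (m : ℝ)) 1 zero_le_one ?_
  · linarith
  · intro s hs
    obtain ⟨x', hx', y', hy', rfl⟩ := Finset.mem_sub.mp hs
    obtain ⟨x, hx, rfl⟩ := Finset.mem_image.mp hx'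
    obtain ⟨y, hy, rfl⟩ := Finset.mem_image.mp hy'
    refine ⟨⌊((x : ℝ) - c * (y : ℝ)) / r⌋, Finset.mem_image.mpr ⟨(x, y),
      Finset.mem_product.mpr ⟨hx, hy⟩, rfl⟩, ?_⟩
    have e1 : ((x : ℝ) - c * (y : ℝ)) / r = 1 / r * (x : ℝ) - c / r * (y : ℝ) := by ring
    have h1 := Int.floor_le (1 / r * (x : ℝ))
    have h2 := Int.lt_floor_add_one (1 / r * (x : ℝ))
    have h3 := Int.floor_le (c / r * (y : ℝ))
    have h4 := Int.lt_floor_add_one (c / r * (y : ℝ))
    rw [e1]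
    have h5 := Int.floor_le (1 / r * (x : ℝ) - c / r * (y : ℝ))
    have h6 := Int.lt_floor_add_one (1 / r * (x : ℝ) - c / r * (y : ℝ))
    have h7 : ⌊1 / r * (x : ℝ) - c / r * (y : ℝ)⌋ ≤ ⌊1 / r * (x : ℝ)⌋ - ⌊c / r * (y : ℝ)⌋ := by
      have : ((⌊1 / r * (x : ℝ) - c / r * (y : ℝ)⌋ : ℤ) : ℝ) <
          (((⌊1 / r * (x : ℝ)⌋ - ⌊c / r * (y : ℝ)⌋ + 1 : ℤ)) : ℝ) := by
        push_cast
        linarith
      have h8 : ⌊1 / r * (x : ℝ) - c / r * (y : ℝ)⌋ <
          ⌊1 / r * (x : ℝ)⌋ - ⌊c / r * (y : ℝ)⌋ + 1 := by exact_mod_cast this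
      omega
    have h9 : ⌊1 / r * (x : ℝ)⌋ - ⌊c / r * (y : ℝ)⌋ ≤
        ⌊1 / r * (x : ℝ) - c / r * (y : ℝ)⌋ + 1 := by
      have : (((⌊1 / r * (x : ℝ)⌋ - ⌊c / r * (y : ℝ)⌋ : ℤ)) : ℝ) <
          (((⌊1 / r * (x : ℝ) - c / r * (y : ℝ)⌋ + 1 + 1 : ℤ)) : ℝ) := by
        push_cast
        linarith
      have h8 : ⌊1 / r * (x : ℝ)⌋ - ⌊c / r * (y : ℝ)⌋ <
          ⌊1 / r * (x : ℝ) - c / r * (y : ℝ)⌋ + 1 + 1 := by exact_mod_cast this
      omega
    constructor
    · exact_mod_cast h7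
    · exact_mod_cast h9

/-- F1 with subsets. -/
theorem f1' {X Y X' Y' : Finset ℤ} {c r B : ℝ} (hX : X' ⊆ X) (hY : Y' ⊆ Y)
    (h : (((X ×ˢ Y).image fun z : ℤ × ℤ => ⌊((z.1 : ℝ) - c * (z.2 : ℝ)) / r⌋).card : ℝ) ≤ B) :
    ((dl (1 / r) X' - dl (c / r) Y').card : ℝ) ≤ 2 * B := by
  have h1 := f1 X' Y' c r
  have h2 : (((X' ×ˢ Y').image fun z : ℤ × ℤ => ⌊((z.1 : ℝ) - c * (z.2 : ℝ)) / r⌋).card : ℝ) ≤
      (((X ×ˢ Y).image fun z : ℤ × ℤ => ⌊((z.1 : ℝ) - c * (z.2 : ℝ)) / r⌋).card : ℝ) := by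
    exact_mod_cast Finset.card_le_card (Finset.image_subset_image (Finset.product_subset_product
      hX hY))
  linarith

theorem spa_mono {L ρ : ℝ} {X Y : Finset ℤ} (h : Spa L ρ Y) (hX : X ⊆ Y) : Spa L ρ X := by
  intro y
  refine le_trans ?_ (h y)
  exact_mod_cast Finset.card_le_card (Finset.filter_subset_filter _ hX)

/-- F2. -/
theorem f2 (X : Finset ℤ) (g L ρ : ℝ) (hg : 1 ≤ |g| * ρ) (hs : Spa L ρ X) :
    (X.card : ℝ) ≤ L * ((dl g X).card : ℝ) := by
  classical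
  have hg0 : 0 < |g| := by
    rcases (abs_nonneg g).lt_or_eq with h | h
    · exact h
    · rw [← h] at hg
      linarith
  have hsub : X ⊆ (dl g X).biUnion (fun m => X.filter fun v : ℤ => ⌊g * (v : ℝ)⌋ = m) := by
    intro v hv
    rw [Finset.mem_biUnion]
    exact ⟨⌊g * (v : ℝ)⌋, Finset.mem_image.mpr ⟨v, hv, rfl⟩, Finset.mem_filter.mpr ⟨hv, rfl⟩⟩
  have h1 : (X.card : ℝ) ≤
      ∑ m ∈ dl g X, ((X.filter fun v : ℤ => ⌊g * (v : ℝ)⌋ = m).card : ℝ) := by
    have h2 := (Finset.card_le_card hsub).trans Finset.card_biUnion_le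
    exact_mod_cast h2
  have h3 : ∑ m ∈ dl g X, ((X.filter fun v : ℤ => ⌊g * (v : ℝ)⌋ = m).card : ℝ) ≤
      ∑ _m ∈ dl g X, L := by
    apply Finset.sum_le_sum
    intro m hm
    obtain ⟨w, hw, hwm⟩ := Finset.mem_image.mp hm
    refine le_trans ?_ (hs (w : ℝ))
    have hsub2 : (X.filter fun v : ℤ => ⌊g * (v : ℝ)⌋ = m) ⊆
        X.filter fun u : ℤ => |(u : ℝ) - (w : ℝ)| ≤ ρ := by
      intro v hv
      obtain ⟨hv1, hv2⟩ := Finset.mem_filter.mp hv
      refine Finset.mem_filter.mpr ⟨hv1, ?_⟩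
      have a1 := Int.floor_le (g * (v : ℝ))
      have a2 := Int.lt_floor_add_one (g * (v : ℝ))
      have b1 := Int.floor_le (g * (w : ℝ))
      have b2 := Int.lt_floor_add_one (g * (w : ℝ))
      rw [hv2] at a1 a2
      rw [hwm] at b1 b2
      have h4 : |g * ((v : ℝ) - (w : ℝ))| ≤ 1 := by
        rw [abs_le]
        constructor <;> linarith
      rw [abs_mul] at h4
      have h5 : |g| * |(v : ℝ) - (w : ℝ)| ≤ |g| * ρ := h4.trans hg
      exact le_of_mul_le_mul_left h5 hg0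
    exact_mod_cast Finset.card_le_card hsub2
  rw [Finset.sum_const, nsmul_eq_mul] at h3
  linarith

/-- F3 for `|e| ≤ 1`. -/
theorem f3' (X Y : Finset ℤ) {e g h eg eh B : ℝ} (he : |e| ≤ 1) (h1 : eg = e * g)
    (h2 : eh = e * h) (hB : ((dl g X - dl h Y).card : ℝ) ≤ B) :
    ((dl eg X - dl eh Y).card : ℝ) ≤ 5 * B := by
  rw [h1, h2]
  have h3 := f3 X Y e g h
  have h4 : (2 * |e| + 3) * ((dl g X - dl h Y).card : ℝ) ≤ 5 * B := by
    have h5 : (0 : ℝ) ≤ ((dl g X - dl h Y).card : ℝ) := by positivity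
    calc (2 * |e| + 3) * ((dl g X - dl h Y).card : ℝ) ≤
        5 * ((dl g X - dl h Y).card : ℝ) := by
          apply mul_le_mul_of_nonneg_right _ h5
          linarith
      _ ≤ 5 * B := by linarith
  exact h3.trans h4

/-- F4 with bounds. -/
theorem f4' {X Y Z : Finset ℤ} {k P A B C : ℝ} (hk : 0 < k) (hP : 0 ≤ P) (hA : 0 ≤ A)
    (h1 : ((X - Y).card : ℝ) ≤ A * k) (h2 : ((Y - Z).card : ℝ) ≤ B * k)
    (h3 : k ≤ P * (Y.card : ℝ)) (hC : P * (A * B) ≤ C) : ((X - Z).card : ℝ) ≤ C * k := by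
  have h4 := f4 X Y Z
  have h5 : ((X - Y).card : ℝ) * ((Y - Z).card : ℝ) ≤ (A * k) * (B * k) := by
    apply mul_le_mul h1 h2 (by positivity) (by positivity)
  have h6 : ((X - Z).card : ℝ) * k ≤ (C * k) * k := by
    calc ((X - Z).card : ℝ) * k ≤ ((X - Z).card : ℝ) * (P * (Y.card : ℝ)) := by gcongr
      _ = P * (((X - Z).card : ℝ) * (Y.card : ℝ)) := by ring
      _ ≤ P * ((A * k) * (B * k)) := mul_le_mul_of_nonneg_left (h4.trans h5) hP
      _ = (P * (A * B)) * (k * k) := by ring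
      _ ≤ C * (k * k) := mul_le_mul_of_nonneg_right hC (by positivity)
      _ = (C * k) * k := by ring
  exact le_of_mul_le_mul_right h6 hk

end XDILU

open XDILU in
theorem I_DILU : StDilU := by
  intro L W k c c₀ r ρ U U₀ V V₀ hL hW hk hc hc' hc0 hc0' hr hρ hsU hsV h1 h2 hU hV
  have hL0 : 0 < L := by linarith
  have hk0 : 0 < k := by linarith
  have hr0 : 0 < r := by linarith
  have hW0 : 0 < W := by linarith
  have hrW : 0 < r * W := by positivity
  set U2 := U ∩ U₀ with hU2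
  set V2 := V ∩ V₀ with hV2
  -- step 1
  have s1 : ((dl (1 / r) U2 - dl (c / r) V2).card : ℝ) ≤ 2 * (L * k) :=
    f1' Finset.inter_subset_left Finset.inter_subset_left h1
  have s2 : ((dl (1 / r) U₀ - dl (c₀ / r) V2).card : ℝ) ≤ 2 * (L * k) :=
    f1' (Finset.Subset.refl _) Finset.inter_subset_right h2
  have s3 : ((dl (1 / r) U2 - dl (c₀ / r) V2).card : ℝ) ≤ 2 * (L * k) :=
    f1' Finset.inter_subset_right Finset.inter_subset_right h2
  -- lower bounds for the dilates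
  have hW3 : 1 ≤ W ^ 3 := one_le_pow₀ hW
  have g1 : 1 ≤ |1 / r| * ρ := by
    rw [abs_of_pos (by positivity)]
    have : r ≤ ρ := by
      calc r = r * 1 := (mul_one r).symm
        _ ≤ r * W ^ 3 := by gcongr
        _ ≤ ρ := hρ
    rw [div_mul_eq_mul_div, one_mul, le_div_iff₀ hr0, one_mul]
    exact this
  have gen : ∀ b : ℝ, 1 ≤ W ^ 2 * |b| → 1 ≤ |b / (r * W)| * ρ := by
    intro b hb
    rw [abs_div, abs_of_pos hrW, div_mul_eq_mul_div, le_div_iff₀ hrW, one_mul]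
    calc r * W = r * W * 1 := (mul_one _).symm
      _ ≤ r * W * (W ^ 2 * |b|) := by gcongr
      _ = |b| * (r * W ^ 3) := by ring
      _ ≤ |b| * ρ := by gcongr
  have hcc : 1 ≤ W ^ 2 * |c * c₀| := by
    rw [abs_mul]
    calc (1 : ℝ) = 1 * 1 := by norm_num
      _ ≤ (W * |c|) * (W * |c₀|) := by gcongr
      _ = W ^ 2 * (|c| * |c₀|) := by ring
  have hcc0 : 1 ≤ W ^ 2 * |c₀ * c₀| := by
    rw [abs_mul]
    calc (1 : ℝ) = 1 * 1 := by norm_num
      _ ≤ (W * |c₀|) * (W * |c₀|) := by gcongr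
      _ = W ^ 2 * (|c₀| * |c₀|) := by ring
  have l0 : k ≤ L ^ 2 * ((dl (1 / r) U2).card : ℝ) := by
    have h := f2 U2 (1 / r) L ρ g1 (spa_mono hsU Finset.inter_subset_right)
    calc k ≤ L * (U2.card : ℝ) := hU
      _ ≤ L * (L * ((dl (1 / r) U2).card : ℝ)) := by gcongr
      _ = _ := by ring
  have l1 : k ≤ L ^ 2 * ((dl (c * c₀ / (r * W)) V2).card : ℝ) := by
    have h := f2 V2 (c * c₀ / (r * W)) L ρ (gen _ hcc) (spa_mono hsV Finset.inter_subset_right)
    calc k ≤ L * (V2.card : ℝ) := hV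
      _ ≤ L * (L * ((dl (c * c₀ / (r * W)) V2).card : ℝ)) := by gcongr
      _ = _ := by ring
  have l2 : k ≤ L ^ 2 * ((dl (c₀ * c₀ / (r * W)) V2).card : ℝ) := by
    have h := f2 V2 (c₀ * c₀ / (r * W)) L ρ (gen _ hcc0) (spa_mono hsV Finset.inter_subset_right)
    calc k ≤ L * (V2.card : ℝ) := hV
      _ ≤ L * (L * ((dl (c₀ * c₀ / (r * W)) V2).card : ℝ)) := by gcongr
      _ = _ := by ring
  -- step 2
  have t1 : ((dl (c / r) V2 - dl (c₀ / r) V2).card : ℝ) ≤ 4 * L ^ 4 * k := by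
    refine f4' hk0 (P := L ^ 2) (A := 2 * L) (B := 2 * L) (by positivity) (by positivity)
      (Y := dl (1 / r) U2) ?_ ?_ l0 (by apply le_of_eq; ring)
    · rw [XDIL.card_sub_comm']
      linarith
    · linarith
  -- step 3
  have he : |c / W| ≤ 1 := by
    rw [abs_div, abs_of_pos hW0, div_le_one hW0]
    exact hc
  have he0 : |c₀ / W| ≤ 1 := by
    rw [abs_div, abs_of_pos hW0, div_le_one hW0]
    exact hc0
  have r1 : ((dl (c / (r * W)) U₀ - dl (c * c₀ / (r * W)) V2).card : ℝ) ≤ 5 * (2 * (L * k)) :=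
    f3' U₀ V2 he (by field_simp) (by field_simp) s2
  have r2 : ((dl (c₀ / (r * W)) U₀ - dl (c₀ * c₀ / (r * W)) V2).card : ℝ) ≤ 5 * (2 * (L * k)) :=
    f3' U₀ V2 he0 (by field_simp) (by field_simp) s2
  have r3 : ((dl (c * c₀ / (r * W)) V2 - dl (c₀ * c₀ / (r * W)) V2).card : ℝ) ≤
      5 * (4 * L ^ 4 * k) :=
    f3' V2 V2 he0 (by field_simp) (by field_simp) t1
  -- step 5
  have u1 : ((dl (c / (r * W)) U₀ - dl (c₀ * c₀ / (r * W)) V2).card : ℝ) ≤ 200 * L ^ 7 * k := by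
    refine f4' hk0 (P := L ^ 2) (A := 10 * L) (B := 20 * L ^ 4) (by positivity) (by positivity)
      (Y := dl (c * c₀ / (r * W)) V2) ?_ ?_ l1 (by apply le_of_eq; ring)
    · linarith
    · linarith
  -- step 6
  refine f4' hk0 (P := L ^ 2) (A := 200 * L ^ 7) (B := 10 * L) (by positivity) (by positivity)
    (Y := dl (c₀ * c₀ / (r * W)) V2) u1 ?_ l2 ?_
  · rw [XDIL.card_sub_comm']
    linarith
  · have h6 : (2000 : ℝ) ≤ L ^ 6 := by
      calc (2000 : ℝ) ≤ 100 ^ 6 := by norm_num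
        _ ≤ L ^ 6 := by gcongr
    calc L ^ 2 * (200 * L ^ 7 * (10 * L)) = 2000 * L ^ 10 := by ring
      _ ≤ L ^ 6 * L ^ 10 := by gcongr
      _ = L ^ 16 := by ring

end Pool.Agent.Work.MP_e17eac_co.RINGU

end

section

/-!
# Net flips (Lemma 1 of note 2759)

In an index window `[p, q)` of the sweep with `V` visited lines and `c` net flips
(`c = |S p minus S q|`) the number of edges is at most `32 V c^(1/3)`.
-/

namespace Pool.Agent.Work.MP_e17eac_co.NF

open Finset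
open Pool.Agent.Work.MP_e17eac_co.DH
open Pool.Agent.Work.MP_e17eac_co.PS
open Pool.Agent.Work.MP_e17eac_co.DH.XSWEEP (GP EE tm cnt cm mem_EE eq_cm)

/-- **Net flips.** -/
def StNetF : Prop := ∀ (ι : Type) [Fintype ι] [DecidableEq ι] (K : KSys ι),
  Function.Injective K.x → GP K.x K.y → ∀ p q : ℕ, p ≤ q → q ≤ K.N →
  (q - p) ^ 3 ≤ 32768 * (K.lines (Ico p q)).card ^ 3 * (K.S p \ K.S q).card

namespace XNF

variable {ι : Type} [Fintype ι] [DecidableEq ι]

theorem a_ne_b (K : KSys ι) {n : ℕ} (hn : n < K.N) : K.a n ≠ K.b n := fun h =>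
  K.b_mem n hn (h ▸ K.a_mem n hn)

theorem card_succ (K : KSys ι) {n : ℕ} (hn : n < K.N) : (K.S (n + 1)).card = (K.S n).card := by
  rw [K.S_succ n hn, card_insert_of_notMem, card_erase_of_mem (K.a_mem n hn)]
  · have : 0 < (K.S n).card := card_pos.2 ⟨_, K.a_mem n hn⟩
    omega
  · intro h
    exact K.b_mem n hn (mem_of_mem_erase h)

theorem card_const (K : KSys ι) : ∀ n, n ≤ K.N → (K.S n).card = (K.S 0).card := by
  intro n
  induction n with
  | zero => intro _; rfl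
  | succ n ih =>
    intro h
    rw [card_succ K (by omega), ih (by omega)]

/-- Lines of the bottom set are below the edge, the other lines are above. -/
theorem lt_edge (K : KSys ι) {n : ℕ} (hn : n < K.N) (i : ι) :
    K.y i + K.x i * K.t n < K.y (K.a n) + K.x (K.a n) * K.t n ↔ i ∈ K.S n ∧ i ≠ K.a n := by
  obtain ⟨hL, -, -, hV, -⟩ := I_LEQ ι K n hn
  have e : K.L (K.t n) = K.y (K.a n) + K.x (K.a n) * K.t n := hL
  constructor
  · intro h
    refine ⟨?_, fun h' => ?_⟩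
    · by_contra h1
      have := K.above n hn.le (K.t n) hV.2.1 hV.2.2 i h1
      rw [e] at this
      linarith
    · rw [h'] at h
      exact lt_irrefl _ h
  · rintro ⟨h1, h2⟩
    have h3 := K.below n hn.le (K.t n) hV.2.1 hV.2.2 i h1
    rw [e] at h3
    refine lt_of_le_of_ne h3 ?_
    exact K.third n hn i h2 (fun h => K.b_mem n hn (h ▸ h1))

/-- The time of an edge is the meeting time. -/
theorem t_eq (K : KSys ι) {n : ℕ} (hn : n < K.N) : K.t n = cm K.x K.y (K.b n) (K.a n) := by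
  apply eq_cm (K.x_lt n hn).ne
  exact K.meet n hn

/-- An edge is determined by its lines. -/
theorem edge_inj (K : KSys ι) {n m : ℕ} (hn : n < K.N) (hm : m < K.N) (ha : K.a n = K.a m)
    (hb : K.b n = K.b m) : n = m := by
  have h : K.t n = K.t m := by rw [t_eq K hn, t_eq K hm, ha, hb]
  rcases lt_trichotomy n m with h1 | h1 | h1
  · have := K.t_lt n m h1 hm
    linarith
  · exact h1
  · have := K.t_lt m n h1 hn
    linarith

/-- Lines which are not visited keep their side. -/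
theorem unvis (K : KSys ι) {p q : ℕ} (hq : q ≤ K.N) {i : ι} (hi : i ∉ K.lines (Ico p q)) :
    ∀ n, p ≤ n → n ≤ q → (i ∈ K.S n ↔ i ∈ K.S p) := by
  intro n hpn
  induction n, hpn using Nat.le_induction with
  | base => intro _; rfl
  | succ n hpn ih =>
    intro hn
    rw [← ih (by omega), K.S_succ n (by omega), mem_insert, mem_erase]
    have h1 : i ≠ K.b n := fun h => hi (by
      rw [KSys.lines, mem_union]
      exact Or.inr (mem_image.2 ⟨n, mem_Ico.2 ⟨hpn, by omega⟩, h.symm⟩))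
    have h2 : i ≠ K.a n := fun h => hi (by
      rw [KSys.lines, mem_union]
      exact Or.inl (mem_image.2 ⟨n, mem_Ico.2 ⟨hpn, by omega⟩, h.symm⟩))
    simp only [h1, h2, false_or, ne_eq, not_false_eq_true, true_and]

/-- **Dichotomy.** -/
theorem dich (K : KSys ι) (hx : Function.Injective K.x) {p q : ℕ} (hq : q ≤ K.N) {n : ℕ}
    (hpn : p ≤ n) (hnq : n ≤ q) {i o : ι} (hi : i ∈ K.S p) (hi' : i ∈ K.S q) (ho : o ∉ K.S p)
    (ho' : o ∉ K.S q) (h1 : o ∈ K.S n) : i ∈ K.S n := by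
  by_contra h2
  have hp : p ≠ n := fun h => ho (h ▸ h1)
  have hn : n ≠ q := fun h => ho' (h ▸ h1)
  obtain ⟨m, rfl⟩ : ∃ m, n = m + 1 := ⟨n - 1, by omega⟩
  obtain ⟨r, rfl⟩ : ∃ r, q = r + 1 := ⟨q - 1, by omega⟩
  have hpm : p ≤ m := by omega
  have hmr : m + 1 ≤ r := by omega
  obtain ⟨-, -, -, v1, -⟩ := I_LEQ ι K p (by omega)
  obtain ⟨-, -, -, -, v2⟩ := I_LEQ ι K m (by omega)
  obtain ⟨-, -, -, v3, -⟩ := I_LEQ ι K (m + 1) (by omega)
  obtain ⟨-, -, -, -, v4⟩ := I_LEQ ι K r (by omega)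
  have e1 := (K.below p v1.1 _ v1.2.1 v1.2.2 i hi).trans (K.above p v1.1 _ v1.2.1 v1.2.2 o ho)
  have e2 := (K.below (m + 1) v2.1 _ v2.2.1 v2.2.2 o h1).trans
    (K.above (m + 1) v2.1 _ v2.2.1 v2.2.2 i h2)
  have e3 := (K.below (m + 1) v3.1 _ v3.2.1 v3.2.2 o h1).trans
    (K.above (m + 1) v3.1 _ v3.2.1 v3.2.2 i h2)
  have e4 := (K.below (r + 1) v4.1 _ v4.2.1 v4.2.2 i hi').trans
    (K.above (r + 1) v4.1 _ v4.2.1 v4.2.2 o ho')
  have t1 : K.t p ≤ K.t m := by
    rcases hpm.lt_or_eq with h | h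
    · exact (K.t_lt p m h (by omega)).le
    · rw [h]
  have t2 : K.t m < K.t (m + 1) := K.t_lt _ _ (Nat.lt_succ_self m) (by omega)
  have t3 : K.t (m + 1) ≤ K.t r := by
    rcases hmr.lt_or_eq with h | h
    · exact (K.t_lt (m + 1) r h (by omega)).le
    · rw [h]
  rcases lt_trichotomy (K.x o) (K.x i) with h | h | h
  · nlinarith [mul_nonneg (sub_nonneg.2 t3) (sub_nonneg.2 h.le),
      mul_pos (sub_pos.2 t2) (sub_pos.2 h)]
  · have := hx h
    subst this
    exact ho hi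
  · nlinarith [mul_nonneg (sub_nonneg.2 t1) (sub_nonneg.2 h.le),
      mul_pos (sub_pos.2 t2) (sub_pos.2 h)]

/-- Both sides of an exchange are of the same type. -/
theorem both (K : KSys ι) (hx : Function.Injective K.x) {p q : ℕ} (hq : q ≤ K.N) {n : ℕ}
    (hpn : p ≤ n) (hnq : n < q) :
    (K.S p ∩ K.S q ⊆ K.S n ∧ K.S p ∩ K.S q ⊆ K.S (n + 1)) ∨
    ((K.S p)ᶜ ∩ (K.S q)ᶜ ⊆ (K.S n)ᶜ ∧ (K.S p)ᶜ ∩ (K.S q)ᶜ ⊆ (K.S (n + 1))ᶜ) := by
  have hd : ∀ m, p ≤ m → m ≤ q → ¬ (K.S p ∩ K.S q ⊆ K.S m) →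
      (K.S p)ᶜ ∩ (K.S q)ᶜ ⊆ (K.S m)ᶜ := by
    intro m h1 h2 h3 o ho
    rw [mem_inter, mem_compl, mem_compl] at ho
    rw [mem_compl]
    intro h4
    apply h3
    intro i hi
    rw [mem_inter] at hi
    exact dich K hx hq h1 h2 hi.1 hi.2 ho.1 ho.2 h4
  have hN : n < K.N := by omega
  by_cases h1 : K.S p ∩ K.S q ⊆ K.S n
  · by_cases h2 : K.S p ∩ K.S q ⊆ K.S (n + 1)
    · exact Or.inl ⟨h1, h2⟩
    · right
      have h3 := hd (n + 1) (by omega) (by omega) h2
      refine ⟨fun o ho => ?_, h3⟩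
      have h4 := h3 ho
      rw [mem_compl, K.S_succ n hN, mem_insert, mem_erase, not_or, not_and] at h4
      rw [mem_compl]
      intro h5
      have h6 : o = K.a n := by
        by_contra h
        exact h4.2 h h5
      apply h2
      intro i hi
      rw [K.S_succ n hN, mem_insert, mem_erase]
      right
      refine ⟨fun h => ?_, h1 hi⟩
      rw [mem_inter, mem_compl, mem_compl] at ho
      rw [mem_inter] at hi
      rw [h6, ← h] at ho
      exact ho.1 hi.1
  · right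
    have h3 := hd n hpn (by omega) h1
    refine ⟨h3, ?_⟩
    by_cases h2 : K.S p ∩ K.S q ⊆ K.S (n + 1)
    · intro o ho
      rw [mem_compl, K.S_succ n hN, mem_insert, mem_erase, not_or, not_and]
      have h4 := h3 ho
      rw [mem_compl] at h4
      refine ⟨fun h => ?_, fun _ => h4⟩
      apply h1
      intro i hi
      have h5 := h2 hi
      rw [K.S_succ n hN, mem_insert, mem_erase] at h5
      rcases h5 with h5 | h5
      · exfalso
        rw [mem_inter, mem_compl, mem_compl] at ho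
        rw [mem_inter] at hi
        rw [h, ← h5] at ho
        exact ho.1 hi.1
      · exact h5.2
    · exact hd (n + 1) (by omega) (by omega) h2

theorem cnt_self (K : KSys ι) {n : ℕ} (hn : n < K.N) :
    cnt K.x K.y (K.b n) (K.a n) + 1 = (K.S n).card := by
  classical
  have h1 : cnt K.x K.y (K.b n) (K.a n) = ((K.S n).erase (K.a n)).card := by
    unfold cnt
    congr 1
    ext i
    rw [mem_filter, mem_erase, ← t_eq K hn]
    have h2 := lt_edge K hn i
    have h3 := K.meet n hn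
    unfold XSWEEP.ht
    rw [← h3, h2]
    simp only [mem_univ, true_and]
    exact and_comm
  rw [h1, card_erase_of_mem (K.a_mem n hn)]
  have : 0 < (K.S n).card := card_pos.2 ⟨_, K.a_mem n hn⟩
  omega

/-- The edges of the first type. -/
theorem typeI (hSw : StSweepAll) (hTok : StTok) (hDey : StDey) (K : KSys ι)
    (hx : Function.Injective K.x) (hg : GP K.x K.y) (p q : ℕ) (hpq : p ≤ q) (hq : q ≤ K.N) :
    ((Ico p q).filter (fun n => K.S p ∩ K.S q ⊆ K.S n ∧ K.S p ∩ K.S q ⊆ K.S (n + 1))).card ^ 3 ≤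
      4096 * (K.lines (Ico p q)).card ^ 3 * (K.S p \ K.S q).card := by
  classical
  set I := K.S p ∩ K.S q with hI
  set V := K.lines (Ico p q) with hV
  set c := (K.S p \ K.S q).card with hc
  set E1 := (Ico p q).filter (fun n => I ⊆ K.S n ∧ I ⊆ K.S (n + 1)) with hE1
  rcases E1.eq_empty_or_nonempty with h0 | ⟨n0, hn0⟩
  · rw [h0]; simp
  have hmem : ∀ n ∈ E1, (p ≤ n ∧ n < q) ∧ I ⊆ K.S n ∧ I ⊆ K.S (n + 1) := by
    intro n hn
    rw [hE1, mem_filter, mem_Ico] at hn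
    exact hn
  have hcard : ∀ n, n ≤ q → (K.S n).card = I.card + c := by
    intro n hn
    rw [card_const K n (by omega), ← card_const K p (by omega), hI, hc, add_comm]
    exact (card_sdiff_add_card_inter _ _).symm
  have haI : ∀ n ∈ E1, K.a n ∉ I := by
    intro n hn h
    obtain ⟨⟨h1, h2⟩, h3, h4⟩ := hmem n hn
    have h5 := h4 h
    rw [K.S_succ n (by omega), mem_insert, mem_erase] at h5
    rcases h5 with h5 | h5
    · exact a_ne_b K (by omega) h5
    · exact h5.1 rfl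
  have hbI : ∀ n ∈ E1, K.b n ∉ I := by
    intro n hn h
    obtain ⟨⟨h1, h2⟩, h3, h4⟩ := hmem n hn
    exact K.b_mem n (by omega) (h3 h)
  have haV : ∀ n ∈ E1, K.a n ∈ V := by
    intro n hn
    obtain ⟨h1, h3, h4⟩ := hmem n hn
    rw [hV, KSys.lines, mem_union]
    exact Or.inl (mem_image.2 ⟨n, mem_Ico.2 h1, rfl⟩)
  have hbV : ∀ n ∈ E1, K.b n ∈ V := by
    intro n hn
    obtain ⟨h1, h3, h4⟩ := hmem n hn
    rw [hV, KSys.lines, mem_union]
    exact Or.inr (mem_image.2 ⟨n, mem_Ico.2 h1, rfl⟩)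
  have hc1 : 1 ≤ c := by
    obtain ⟨⟨h1, h2⟩, h3, h4⟩ := hmem n0 hn0
    have h5 : (insert (K.a n0) I).card ≤ (K.S n0).card := card_le_card (by
      rw [insert_subset_iff]
      exact ⟨K.a_mem n0 (by omega), h3⟩)
    rw [card_insert_of_notMem (haI n0 hn0), hcard n0 (by omega)] at h5
    omega
  -- the other lines
  let W : Finset ι := V \ I
  have hWV : W.card ≤ V.card := card_le_card sdiff_subset
  have haW : ∀ n ∈ E1, K.a n ∈ W := fun n hn => mem_sdiff.2 ⟨haV n hn, haI n hn⟩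
  have hbW : ∀ n ∈ E1, K.b n ∈ W := fun n hn => mem_sdiff.2 ⟨hbV n hn, hbI n hn⟩
  let x' : W → ℝ := fun i => K.x i
  let y' : W → ℝ := fun i => K.y i
  have hx' : Function.Injective x' := fun i j h => Subtype.ext (hx h)
  have hg' : GP x' y' := fun i j l h1 h2 h3 =>
    hg i j l (fun h => h1 (Subtype.ext h)) (fun h => h2 (Subtype.ext h))
      (fun h => h3 (Subtype.ext h))
  have : Nonempty W := ⟨⟨K.a n0, haW n0 hn0⟩⟩
  obtain ⟨K', hKx, hKy, hKN, hK1, hK2⟩ := hSw W x' y' (c - 1)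
    (fun i => ⟨K.x_nonneg i, K.x_le_one i⟩) hx' hg'
  have hEE : ∀ n (hn : n ∈ E1), ((⟨K.b n, hbW n hn⟩, ⟨K.a n, haW n hn⟩) : W × W) ∈
      EE x' y' (c - 1) := by
    intro n hn
    obtain ⟨⟨h1, h2⟩, h3, h4⟩ := hmem n hn
    have hnN : n < K.N := by omega
    rw [mem_EE]
    refine ⟨K.x_lt n hnN, ?_⟩
    have hcm : cm x' y' ⟨K.b n, hbW n hn⟩ ⟨K.a n, haW n hn⟩ = K.t n := (t_eq K hnN).symm
    have e1 : (((K.S n) \ I).erase (K.a n)).card = c - 1 := by
      rw [card_erase_of_mem (mem_sdiff.2 ⟨K.a_mem n hnN, haI n hn⟩), card_sdiff_of_subset h3,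
        hcard n (by omega)]
      omega
    rw [← e1]
    unfold cnt
    rw [hcm]
    refine card_bij (fun i _ => (i : ι)) ?_ (fun i _ j _ h => Subtype.ext h) ?_
    · intro i hi
      rw [mem_filter] at hi
      have h5 := hi.2
      unfold XSWEEP.ht at h5
      have h6 := K.meet n hnN
      have h7 : K.y i + K.x i * K.t n < K.y (K.b n) + K.x (K.b n) * K.t n := h5
      rw [← h6, lt_edge K hnN] at h7
      rw [mem_erase, mem_sdiff]
      exact ⟨h7.2, h7.1, (mem_sdiff.1 i.2).2⟩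
    · intro i hi
      rw [mem_erase, mem_sdiff] at hi
      have hiV : i ∈ V := by
        by_contra h
        have h5 := unvis K hq h n h1 h2.le
        have h6 := unvis K hq h q hpq le_rfl
        exact hi.2.2 (mem_inter.2 ⟨h5.1 hi.2.1, h6.2 (h5.1 hi.2.1)⟩)
      refine ⟨⟨i, mem_sdiff.2 ⟨hiV, hi.2.2⟩⟩, ?_, rfl⟩
      rw [mem_filter]
      refine ⟨mem_univ _, ?_⟩
      have h7 := (lt_edge K hnN i).2 ⟨hi.2.1, hi.1⟩
      rw [K.meet n hnN] at h7
      exact h7
  have hex : ∀ n : ℕ, ∃ m : ℕ, ∀ hn : n ∈ E1, m < K'.N ∧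
      K'.b m = ⟨K.b n, hbW n hn⟩ ∧ K'.a m = ⟨K.a n, haW n hn⟩ := by
    intro n
    by_cases hn : n ∈ E1
    · obtain ⟨m, h1, h2⟩ := hK2 _ (hEE n hn)
      exact ⟨m, fun _ => ⟨h1, congrArg Prod.fst h2, congrArg Prod.snd h2⟩⟩
    · exact ⟨0, fun h => absurd h hn⟩
  choose m hm using hex
  set E' := E1.image m with hE'
  have hEc : E'.card = E1.card := by
    apply card_image_of_injOn
    intro n hn n' hn' h
    have h1 := hm n hn
    have h2 := hm n' hn'
    have h3 : m n = m n' := h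
    rw [h3] at h1
    have e1 := h1.2.1.symm.trans h2.2.1
    have e2 := h1.2.2.symm.trans h2.2.2
    have e3 : K.b n = K.b n' := congrArg Subtype.val e1
    have e4 : K.a n = K.a n' := congrArg Subtype.val e2
    obtain ⟨⟨_, h5⟩, _⟩ := hmem n hn
    obtain ⟨⟨_, h6⟩, _⟩ := hmem n' hn'
    exact edge_inj K (by omega) (by omega) e4 e3
  have hE'N : ∀ k ∈ E', k < K'.N := by
    intro k hk
    obtain ⟨n, hn, rfl⟩ := mem_image.1 hk
    exact (hm n hn).1
  have hWc : Fintype.card W = W.card := Fintype.card_coe W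
  have hS0 : (K'.S 0).card = c := by
    have h1 := (hm n0 hn0).1
    have h2 := cnt_self K' h1
    have h3 := (mem_EE.1 (hK1 (m n0) h1).1).2
    rw [hKx, hKy] at h2
    have h3' : cnt x' y' (K'.b (m n0)) (K'.a (m n0)) = c - 1 := h3
    rw [h3'] at h2
    rw [← card_const K' (m n0) h1.le, ← h2]
    omega
  have b1 : (E'.image K'.a).card ≤ V.card := by
    refine le_trans (card_le_univ _) ?_
    rw [hWc]; exact hWV
  have b2 : (E'.image K'.b).card ≤ V.card := by
    refine le_trans (card_le_univ _) ?_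
    rw [hWc]; exact hWV
  have b3 : (E'.image K'.tokT).card ≤ V.card := by
    refine le_trans (card_le_univ _) ?_
    rw [hWc]; exact hWV
  have b4 : (E'.image K'.tokB).card ≤ c := by
    rw [← hS0]
    apply card_le_card
    intro τ hτ
    obtain ⟨k, hk, rfl⟩ := mem_image.1 hτ
    exact (hTok W K' k (hE'N k hk)).1
  rw [← hEc]
  by_cases h16 : 16 * V.card ≤ E'.card
  · have h1 := hDey W K' (by rw [hKx]; exact hx') E' hE'N
      (le_trans (Nat.mul_le_mul_left 16 b1) h16) (le_trans (Nat.mul_le_mul_left 16 b2) h16)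
    calc E'.card ^ 3 ≤ 2048 * ((E'.image K'.a).card * (E'.image K'.b).card *
          ((E'.image K'.tokB).card * (E'.image K'.tokT).card)) := h1
      _ ≤ 2048 * (V.card * V.card * (c * V.card)) := by gcongr
      _ ≤ 4096 * V.card ^ 3 * c := by nlinarith [Nat.zero_le (V.card ^ 3 * c)]
  · push Not at h16
    calc E'.card ^ 3 ≤ (16 * V.card) ^ 3 := Nat.pow_le_pow_left h16.le 3
      _ = 4096 * V.card ^ 3 * 1 := by ring
      _ ≤ 4096 * V.card ^ 3 * c := Nat.mul_le_mul_left _ hc1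

theorem arith (A B X : ℕ) (hA : A ^ 3 ≤ X) (hB : B ^ 3 ≤ X) : (A + B) ^ 3 ≤ 8 * X := by
  rcases le_total A B with h | h
  · calc (A + B) ^ 3 ≤ (2 * B) ^ 3 := Nat.pow_le_pow_left (by omega) 3
      _ = 8 * B ^ 3 := by ring
      _ ≤ 8 * X := Nat.mul_le_mul_left 8 hB
  · calc (A + B) ^ 3 ≤ (2 * A) ^ 3 := Nat.pow_le_pow_left (by omega) 3
      _ = 8 * A ^ 3 := by ring
      _ ≤ 8 * X := Nat.mul_le_mul_left 8 hA

end XNF

open XNF in
theorem I_NetF (hSw : StSweepAll) (hTok : StTok) (hDey : StDey) : StNetF := by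
  intro ι _ _ K hx hg p q hpq hq
  classical
  have h1 := typeI hSw hTok hDey K hx hg p q hpq hq
  have hx2 : Function.Injective K.mirror.x := by
    intro i j h
    apply hx
    have : 1 - K.x i = 1 - K.x j := h
    linarith
  have hg2 : GP K.mirror.x K.mirror.y := by
    intro i j l e1 e2 e3 h
    apply hg i j l e1 e2 e3
    have h' : (1 - K.x j - (1 - K.x i)) * (-K.y l - -K.y i) =
      (-K.y j - -K.y i) * (1 - K.x l - (1 - K.x i)) := h
    linarith
  have h2 := typeI hSw hTok hDey K.mirror hx2 hg2 p q hpq hq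
  have e1 : K.mirror.lines (Ico p q) = K.lines (Ico p q) := by
    unfold KSys.lines
    exact union_comm _ _
  have e2 : (K.mirror.S p \ K.mirror.S q).card = (K.S p \ K.S q).card := by
    have e3 : K.mirror.S p \ K.mirror.S q = K.S q \ K.S p := by
      ext i
      show i ∈ (K.S p)ᶜ \ (K.S q)ᶜ ↔ _
      rw [mem_sdiff, mem_sdiff, mem_compl, mem_compl, not_not]
      exact and_comm
    rw [e3]
    have e4 := card_const K p (by omega)
    have e5 := card_const K q hq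
    have e6 := card_sdiff_add_card_inter (K.S p) (K.S q)
    have e7 := card_sdiff_add_card_inter (K.S q) (K.S p)
    rw [inter_comm (K.S q) (K.S p)] at e7
    omega
  rw [e1, e2] at h2
  have h3 : Ico p q ⊆ (Ico p q).filter (fun n => K.S p ∩ K.S q ⊆ K.S n ∧
      K.S p ∩ K.S q ⊆ K.S (n + 1)) ∪ (Ico p q).filter (fun n =>
      K.mirror.S p ∩ K.mirror.S q ⊆ K.mirror.S n ∧
      K.mirror.S p ∩ K.mirror.S q ⊆ K.mirror.S (n + 1)) := by
    intro n hn
    have hn' := mem_Ico.1 hn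
    rw [mem_union, mem_filter, mem_filter]
    rcases both K hx hq hn'.1 hn'.2 with h | h
    · exact Or.inl ⟨hn, h⟩
    · exact Or.inr ⟨hn, h⟩
  have h4 := (card_le_card h3).trans (card_union_le _ _)
  rw [Nat.card_Ico] at h4
  have h5 := arith _ _ _ h1 h2
  calc (q - p) ^ 3 ≤ _ := Nat.pow_le_pow_left h4 3
    _ ≤ _ := h5
    _ = 32768 * (K.lines (Ico p q)).card ^ 3 * (K.S p \ K.S q).card := by ring

/-- **Net flips**, without hypotheses. -/
theorem netFlips : StNetF := by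
  have hTok : StTok := I_TOK I_POS
  have hMono : StMono := I_MONO hTok
  have hPath : StPath := I_PATH hTok hMono
  have hTouch : StTouch := I_TOUCH I_POS hTok hMono hPath I_MIR I_LEQ
  exact I_NetF I_SweepAll.1 hTok
    (I_DEY (I_CRL (I_PL I_PLANAR I_LEQ)) (I_CCNT (I_CINJ hTok hTouch I_LEQ)))

end Pool.Agent.Work.MP_e17eac_co.NF

end

section

/-!
# Item MX DeyV: Dey's bound in an index window
-/

namespace Pool.Agent.Work.MP_e17eac_co.MX

open Finset
open Pool.Agent.Work.MP_e17eac_co.DH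

namespace XDeyV

variable {ι : Type} [Fintype ι] [DecidableEq ι]

theorem ln_mem (K : KSys ι) {p q : ℕ} (s : Bool) {n : ℕ} (hn : n ∈ Ico p q) :
    K.ln s n ∈ vi K p q := by
  unfold vi KSys.lines
  rw [mem_union]
  cases s with
  | false => exact Or.inl (mem_image_of_mem K.a hn)
  | true => exact Or.inr (mem_image_of_mem K.b hn)

theorem tok_kind (hTok : StTok) (K : KSys ι) (p : Bool) (n : ℕ) (hn : n < K.N) :
    (K.tok p n ∈ K.S 0 ↔ p = false) := by
  obtain ⟨h1, h2, -⟩ := hTok ι K n hn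
  cases p with
  | false => exact ⟨fun _ => rfl, fun _ => h1⟩
  | true => exact ⟨fun h => absurd h h2, fun h => absurd h (by decide)⟩

/-- A token which is not moved. -/
theorem pos_const (hTok : StTok) (K : KSys ι) (p : Bool) (n s m : ℕ) (hn : n < K.N)
    (hsm : s ≤ m) (hmn : m ≤ n) (hne : ∀ k, s ≤ k → k < m → K.tok p k ≠ K.tok p n) :
    K.pos m (K.tok p n) = K.pos s (K.tok p n) := by
  induction m with
  | zero =>
    have : s = 0 := by omega
    rw [this]
  | succ m ih =>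
    rcases Nat.lt_or_ge m s with h | h
    · have : s = m + 1 := by omega
      rw [this]
    · have hm : m < K.N := by omega
      have h1 := ih h (by omega) (fun k hk hk' => hne k hk (by omega))
      rw [← h1]
      obtain ⟨-, -, -, -, -, -, h8⟩ := hTok ι K m hm
      have hself := hne m h (by omega)
      have k1 := tok_kind hTok K p n hn
      have k2 := tok_kind hTok K (!p) m hm
      have hother : K.tok (!p) m ≠ K.tok p n := by
        intro he
        rw [he] at k2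
        cases p with
        | false => exact absurd (k2.1 (k1.2 rfl)) (by decide)
        | true => exact absurd (k1.1 (k2.2 rfl)) (by decide)
      cases p with
      | false => exact h8 _ (fun h => hself h.symm) (fun h => hother h.symm)
      | true => exact h8 _ (fun h => hother h.symm) (fun h => hself h.symm)

/-- The start line of a token moved in the window is visited in the window. -/
theorem tok_mem (hTok : StTok) (K : KSys ι) {p q : ℕ} (hq : q ≤ K.N) (r : Bool) {n : ℕ}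
    (hn : n ∈ Ico p q) : K.pos p (K.tok r n) ∈ vi K p q := by
  classical
  rw [mem_Ico] at hn
  have hnN : n < K.N := by omega
  have hex : ∃ m, p ≤ m ∧ K.tok r m = K.tok r n := ⟨n, hn.1, rfl⟩
  obtain ⟨h1, h2⟩ := Nat.find_spec hex
  have h3 : Nat.find hex ≤ n := Nat.find_min' hex ⟨hn.1, rfl⟩
  have h4 : ∀ k, p ≤ k → k < Nat.find hex → K.tok r k ≠ K.tok r n :=
    fun k hk hk' he => Nat.find_min hex hk' ⟨hk, he⟩
  set m := Nat.find hex with hm
  rw [← pos_const hTok K r n p m hnN h1 h3 h4]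
  have hmN : m < K.N := by omega
  have h7 : K.pos m (K.tok r n) = K.ln r m := by
    rw [← h2]
    obtain ⟨-, -, h8, -, h9, -, -⟩ := hTok ι K m hmN
    cases r with
    | false => exact h8
    | true => exact h9
  rw [h7]
  exact ln_mem K r (mem_Ico.2 ⟨h1, by omega⟩)

theorem ln_card (K : KSys ι) {p q : ℕ} {E : Finset ℕ} (hE : E ⊆ Ico p q) (s : Bool) :
    (E.image (K.ln s)).card ≤ (vi K p q).card := by
  refine card_le_card fun i hi => ?_
  rw [mem_image] at hi
  obtain ⟨n, hn, rfl⟩ := hi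
  exact ln_mem K s (hE hn)

theorem tok_card (hTok : StTok) (K : KSys ι) {p q : ℕ} (hq : q ≤ K.N) {E : Finset ℕ}
    (hE : E ⊆ Ico p q) (r : Bool) : (E.image (K.tok r)).card ≤ (vi K p q).card := by
  refine card_le_card_of_injOn (fun τ => K.pos p τ) ?_ ?_
  · intro τ hτ
    rw [mem_coe, mem_image] at hτ
    obtain ⟨n, hn, rfl⟩ := hτ
    exact tok_mem hTok K hq r (hE hn)
  · intro τ _ τ' _ h
    exact (K.pos p).injective h

theorem one_le_image {α : Type} [DecidableEq α] {E : Finset ℕ} (f : ℕ → α) (hE : 1 ≤ E.card) :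
    1 ≤ (E.image f).card := by
  have h1 : E.Nonempty := card_pos.1 hE
  exact card_pos.2 (h1.image f)

/-- The common arithmetic. -/
theorem arith {e a b x y V w : ℕ} (ha : a ≤ V) (hb : b ≤ V) (hx : x ≤ V) (hy : y ≤ V)
    (hw : 1 ≤ e → 1 ≤ w) (hwV : w = a ∨ w = b ∨ w = x ∨ w = y)
    (hD : 16 * a ≤ e → 16 * b ≤ e → e ^ 3 ≤ 2048 * (a * b * (x * y))) :
    e ^ 3 ≤ 4096 * (w * V ^ 3) := by
  rcases Nat.eq_zero_or_pos e with he | he
  · rw [he]; positivity
  by_cases h1 : 16 * a ≤ e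
  · by_cases h2 : 16 * b ≤ e
    · have h3 := hD h1 h2
      have h4 : a * b * (x * y) ≤ w * V ^ 3 := by
        rcases hwV with h | h | h | h <;> subst h
        · calc w * b * (x * y) = w * (b * x * y) := by ring
            _ ≤ w * (V * V * V) :=
              Nat.mul_le_mul_left _ (Nat.mul_le_mul (Nat.mul_le_mul hb hx) hy)
            _ = w * V ^ 3 := by ring
        · calc a * w * (x * y) = w * (a * x * y) := by ring
            _ ≤ w * (V * V * V) :=
              Nat.mul_le_mul_left _ (Nat.mul_le_mul (Nat.mul_le_mul ha hx) hy)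
            _ = w * V ^ 3 := by ring
        · calc a * b * (w * y) = w * (a * b * y) := by ring
            _ ≤ w * (V * V * V) :=
              Nat.mul_le_mul_left _ (Nat.mul_le_mul (Nat.mul_le_mul ha hb) hy)
            _ = w * V ^ 3 := by ring
        · calc a * b * (x * w) = w * (a * b * x) := by ring
            _ ≤ w * (V * V * V) :=
              Nat.mul_le_mul_left _ (Nat.mul_le_mul (Nat.mul_le_mul ha hb) hx)
            _ = w * V ^ 3 := by ring
      calc e ^ 3 ≤ 2048 * (a * b * (x * y)) := h3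
        _ ≤ 2048 * (w * V ^ 3) := Nat.mul_le_mul_left _ h4
        _ ≤ 4096 * (w * V ^ 3) := Nat.mul_le_mul_right _ (by norm_num)
    · exact small (by omega) (hw he)
  · exact small (by omega) (hw he)
where
  small {e V w : ℕ} (h : e ≤ 16 * V) (hw : 1 ≤ w) : e ^ 3 ≤ 4096 * (w * V ^ 3) := by
    calc e ^ 3 ≤ (16 * V) ^ 3 := Nat.pow_le_pow_left h 3
      _ = 4096 * (1 * V ^ 3) := by ring
      _ ≤ 4096 * (w * V ^ 3) :=
        Nat.mul_le_mul_left _ (Nat.mul_le_mul_right _ hw)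

end XDeyV

open XDeyV in
/-- Dey in a window: few `a`-lines, few tokens. -/
theorem I_DeyV (hDey : StDey) (hTok : StTok) : StDeyV := by
  intro ι _ _ K hx p q hq E hE
  have hN : ∀ n ∈ E, n < K.N := fun n hn => by
    have := hE hn
    rw [mem_Ico] at this
    omega
  have hD := hDey ι K hx E hN
  have ha : (E.image K.a).card ≤ (vi K p q).card := ln_card K hE false
  have hb : (E.image K.b).card ≤ (vi K p q).card := ln_card K hE true
  have hB : (E.image K.tokB).card ≤ (vi K p q).card := tok_card hTok K hq hE false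
  have hT : (E.image K.tokT).card ≤ (vi K p q).card := tok_card hTok K hq hE true
  refine ⟨ln_card K hE, tok_card hTok K hq hE, fun s => ?_, fun r => ?_⟩
  · refine arith ha hb hB hT (one_le_image _) ?_ hD
    cases s with
    | false => exact Or.inl rfl
    | true => exact Or.inr (Or.inl rfl)
  · refine arith ha hb hB hT (one_le_image _) ?_ hD
    cases r with
    | false => exact Or.inr (Or.inr (Or.inl rfl))
    | true => exact Or.inr (Or.inr (Or.inr rfl))

end Pool.Agent.Work.MP_e17eac_co.MX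

end

section

/-!
# Arbitrary sets, block MX: first and last edge of a class
-/

namespace Pool.Agent.Work.MP_e17eac_co.MX

open Finset
open Pool.Agent.Work.MP_e17eac_co.DH

namespace XLoHi

variable {ι : Type} [Fintype ι] [DecidableEq ι]

theorem lo_mem (c : ℕ → ℕ) (n : ℕ) : c (lo c n) = c n := by
  have h : sInf {m | c m = c n} ∈ {m | c m = c n} := Nat.sInf_mem ⟨n, rfl⟩
  exact h

theorem lo_le (c : ℕ → ℕ) {n m : ℕ} (h : c m = c n) : lo c n ≤ m := Nat.sInf_le h

theorem le_hi (K : KSys ι) (c : ℕ → ℕ) {n m : ℕ} (hm : m < K.N) (h : c m = c n) :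
    m ≤ hi K c n := by
  unfold hi
  exact Finset.le_sup (f := id) (Finset.mem_filter.mpr ⟨Finset.mem_range.mpr hm, h⟩)

theorem hi_mem (K : KSys ι) (c : ℕ → ℕ) {n : ℕ} (hn : n < K.N) :
    hi K c n < K.N ∧ c (hi K c n) = c n := by
  have hne : ((range K.N).filter (fun m => c m = c n)).Nonempty :=
    ⟨n, Finset.mem_filter.mpr ⟨Finset.mem_range.mpr hn, rfl⟩⟩
  obtain ⟨i, hi1, hi2⟩ := Finset.exists_mem_eq_sup _ hne id
  have e : hi K c n = i := hi2
  rw [e]
  obtain ⟨h1, h2⟩ := Finset.mem_filter.mp hi1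
  exact ⟨Finset.mem_range.mp h1, h2⟩

end XLoHi

open XLoHi in
theorem I_LoHi : StLoHi := by
  intro ι _ _ K M c hc n hn
  obtain ⟨h1, h2⟩ := hi_mem K c hn
  have h3 := lo_mem c n
  have h4 : lo c n ≤ n := lo_le c rfl
  have h5 : n ≤ hi K c n := le_hi K c hn rfl
  have key : ∀ m, m < K.N → (c m = c n ↔ lo c n ≤ m ∧ m ≤ hi K c n) := by
    intro m hm
    constructor
    · intro h
      exact ⟨lo_le c h, le_hi K c hm h⟩
    · rintro ⟨ha, hb⟩
      have e1 := hc.mono _ _ ha hm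
      have e2 := hc.mono _ _ hb h1
      omega
  refine ⟨h4, h5, h1, h3, h2, key, ?_, ?_, ?_⟩
  · intro m hm
    constructor
    · intro h
      by_contra hcon
      have e1 := hc.mono _ _ (not_lt.mp hcon) hm
      omega
    · intro h
      have e1 := hc.mono m n (h.le.trans h4) hn
      have e2 : c m ≠ c n := fun e => absurd (lo_le c e) (not_le.mpr h)
      omega
  · intro m hm
    constructor
    · intro h
      by_contra hcon
      have e1 := hc.mono _ _ (not_lt.mp hcon) h1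
      omega
    · intro h
      have e1 := hc.mono _ _ h.le hm
      have e2 : c m ≠ c n := fun e => absurd (le_hi K c hm e) (not_le.mpr h)
      omega
  · have e : (range K.N).filter (fun m => c m = c n) = Icc (lo c n) (hi K c n) := by
      ext m
      rw [Finset.mem_filter, Finset.mem_range, Finset.mem_Icc]
      constructor
      · rintro ⟨hm, h⟩
        exact (key m hm).mp h
      · rintro ⟨ha, hb⟩
        have hm : m < K.N := lt_of_le_of_lt hb h1
        exact ⟨hm, (key m hm).mpr ⟨ha, hb⟩⟩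
    have h6 := hc.size (c n)
    rw [e, Nat.card_Icc] at h6
    exact h6

end Pool.Agent.Work.MP_e17eac_co.MX

end

section

/-!
# Block GP: super-separated intervals
-/

namespace Pool.Agent.Work.MP_e17eac_co.MX

open Finset

namespace XSup

theorem key {Q d x : ℝ} (hQ : 8 ≤ Q) (hd : 0 < d) (h : Q * d < 2 * x + d) : d < 4 / Q * x := by
  have hQ0 : 0 < Q := by linarith
  rw [div_mul_eq_mul_div, lt_div_iff₀ hQ0]
  nlinarith

end XSup

theorem I_Sup : StSup := by
  intro U s e Q hQ hU hse hlt hgap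
  obtain ⟨b, hb, hmin⟩ := Finset.exists_min_image U (fun u => e u - s u) hU
  refine ⟨b, hb, ?_, ?_⟩
  · intro u hu hub
    have h1 := hlt u hu b hb hub
    have h2 := hgap u hu b hb hub
    have h3 := hmin u hu
    refine XSup.key hQ (by linarith) ?_
    linarith
  · intro u hu hbu
    have h1 := hlt b hb u hu hbu
    have h2 := hgap b hb u hu hbu
    have h3 := hmin u hu
    refine XSup.key hQ (by linarith) ?_
    linarith

end Pool.Agent.Work.MP_e17eac_co.MX

end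

section

/-!
# Block MX, item Up: upper bounds for the numbers of pairs (cell, line), (cell, token)
-/

namespace Pool.Agent.Work.MP_e17eac_co.MX

open Finset
open Pool.Agent.Work.MP_e17eac_co.DH
open Pool.Agent.Work.MP_e17eac_co.DH.XSWEEP (GP)

namespace XUp

variable {ι : Type} [Fintype ι] [DecidableEq ι]

/-- The pairs (class, value) are counted class by class. -/
theorem im_le (E : Finset ℕ) (c : ℕ → ℕ) (f : ℕ → ι) (M : ℕ) (hE : ∀ n ∈ E, c n < M) :
    im E (fun n => (c n, f n)) ≤ ∑ k ∈ range M, ((E.filter (fun n => c n = k)).image f).card := by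
  classical
  unfold im
  have h1 : E.image (fun n => (c n, f n)) ⊆
      (range M).biUnion (fun k => ((E.filter (fun n => c n = k)).image f).image
        (fun i => (k, i))) := by
    intro z hz
    obtain ⟨n, hn, rfl⟩ := mem_image.1 hz
    rw [mem_biUnion]
    refine ⟨c n, mem_range.2 (hE n hn), ?_⟩
    exact mem_image_of_mem _ (mem_image_of_mem _ (mem_filter.2 ⟨hn, rfl⟩))
  refine (card_le_card h1).trans (card_biUnion_le.trans ?_)
  exact sum_le_sum (fun k _ => card_image_le)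

/-- Windows of the classes. -/
theorem windows (h3 : StLoHi) (K : KSys ι) (M : ℕ) (c : ℕ → ℕ) (hc : IsCells K M c) :
    ∃ p q : ℕ → ℕ, (∀ k, q k ≤ K.N) ∧ (∀ k k', k ≠ k' → q k ≤ p k' ∨ q k' ≤ p k) ∧
      ∀ n, n < K.N → n ∈ Ico (p (c n)) (q (c n)) := by
  classical
  have h4 := h3 ι K M c hc
  let P : ℕ → Prop := fun k => ∃ n, n < K.N ∧ c n = k
  let w : ℕ → ℕ := fun k => if h : P k then h.choose else 0
  have hw : ∀ k, P k → w k < K.N ∧ c (w k) = k := by
    intro k hk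
    have : w k = hk.choose := dif_pos hk
    rw [this]
    exact hk.choose_spec
  have key : ∀ k k', P k → P k' → k < k' → hi K c (w k) < lo c (w k') := by
    intro k k' hk hk' hkk
    obtain ⟨a1, a2⟩ := hw k hk
    obtain ⟨b1, b2⟩ := hw k' hk'
    obtain ⟨b3, -, -, b4, -⟩ := h4 _ b1
    obtain ⟨-, -, -, -, -, -, -, a3, -⟩ := h4 _ a1
    exact (a3 _ (lt_of_le_of_lt b3 b1)).1 (by rw [a2, b4, b2]; exact hkk)
  refine ⟨fun k => if P k then lo c (w k) else 0, fun k => if P k then hi K c (w k) + 1 else 0,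
    ?_, ?_, ?_⟩
  · intro k
    by_cases hk : P k
    · simp only [if_pos hk]
      exact (h4 _ (hw k hk).1).2.2.1
    · simp only [if_neg hk]
      exact Nat.zero_le _
  · intro k k' hkk
    by_cases hk : P k
    · by_cases hk' : P k'
      · simp only [if_pos hk, if_pos hk']
        rcases lt_or_gt_of_ne hkk with h | h
        · exact Or.inl (key k k' hk hk' h)
        · exact Or.inr (key k' k hk' hk h)
      · right
        simp only [if_neg hk']
        exact Nat.zero_le _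
    · left
      simp only [if_neg hk]
      exact Nat.zero_le _
  · intro n hn
    have hk : P (c n) := ⟨n, hn, rfl⟩
    simp only [if_pos hk]
    obtain ⟨a1, a2⟩ := hw _ hk
    have h5 := ((h4 _ a1).2.2.2.2.2.1 n hn).1 a2.symm
    rw [mem_Ico]
    exact ⟨h5.1, Nat.lt_succ_of_le h5.2⟩

end XUp

open XUp in
/-- Item Up. -/
theorem I_Up (h1 : StT2i) (h2 : StDeyV) (h3 : StLoHi) : StUp := by
  classical
  obtain ⟨C, hC, h4⟩ := h1
  refine ⟨C, hC, ?_⟩
  intro ι _ _ K hx hGP M c hc E hE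
  obtain ⟨p, q, hq, hd, hm⟩ := windows h3 K M c hc
  have h5 := (h4 ι K hx hGP ℕ (range M) p q (fun k _ => hq k)
    (fun k _ k' _ hkk => hd k k' hkk)).1
  rw [card_range] at h5
  have hEM : ∀ n ∈ E, c n < M := fun n hn => hc.lt n (mem_range.1 (hE hn))
  have hsub : ∀ k, E.filter (fun n => c n = k) ⊆ Ico (p k) (q k) := by
    intro k n hn
    obtain ⟨h6, h7⟩ := mem_filter.1 hn
    have := hm n (mem_range.1 (hE h6))
    rwa [h7] at this
  have main : ∀ f : ℕ → ι, (∀ k, ((E.filter (fun n => c n = k)).image f).card ≤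
      (vi K (p k) (q k)).card) →
      (im E (fun n => (c n, f n)) : ℝ) ≤ C * Fintype.card ι * (M : ℝ) ^ ((1 : ℝ) / 4) := by
    intro f hf
    refine le_trans ?_ h5
    have h6 := (im_le E c f M hEM).trans (sum_le_sum (fun k _ => hf k))
    exact_mod_cast h6
  refine ⟨fun s => main _ (fun k => ?_), fun r => main _ (fun k => ?_)⟩
  · exact (h2 ι K hx (p k) (q k) (hq k) _ (hsub k)).1 s
  · exact (h2 ι K hx (p k) (q k) (hq k) _ (hsub k)).2.1 r

end Pool.Agent.Work.MP_e17eac_co.MX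

end

section

/-!
TROP: Lemma 2 of note 2759 (SAMPLES) for a `KSys` and an index window.
-/
set_option autoImplicit false
set_option linter.unusedSectionVars false
set_option linter.unusedVariables false

namespace Pool.Agent.Work.MP_e17eac_co.TROP

open Finset
open Pool.Agent.Work.MP_e17eac_co.DH

variable {ι : Type} [Fintype ι] [DecidableEq ι] (K : KSys ι)

/-- lines not visited in the window keep their status -/
theorem kstay {P P' : ℕ} (hP : P' ≤ K.N) {i : ι} (hi : i ∉ K.lines (Ico P P')) :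
    ∀ n, P ≤ n → n ≤ P' → (i ∈ K.S n ↔ i ∈ K.S P) := by
  intro n hn
  induction n, hn using Nat.le_induction with
  | base => intro _; exact Iff.rfl
  | succ n hn ih =>
    intro hn'
    have h1 : n ∈ Ico P P' := mem_Ico.2 ⟨hn, hn'⟩
    have ha : i ≠ K.a n := by
      rintro rfl
      exact hi (mem_union_left _ (mem_image_of_mem _ h1))
    have hb : i ≠ K.b n := by
      rintro rfl
      exact hi (mem_union_right _ (mem_image_of_mem _ h1))
    rw [K.S_succ n (by omega), mem_insert, mem_erase, ← ih (by omega)]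
    tauto

/-- the number of visited lines in the bottom set is constant -/
theorem kcard {P P' : ℕ} (hP : P' ≤ K.N) :
    ∀ n, P ≤ n → n ≤ P' → (K.S n ∩ K.lines (Ico P P')).card =
      (K.S P ∩ K.lines (Ico P P')).card := by
  intro n hn
  induction n, hn using Nat.le_induction with
  | base => intro _; rfl
  | succ n hn ih =>
    intro hn'
    have h1 : n ∈ Ico P P' := mem_Ico.2 ⟨hn, hn'⟩
    have ha : K.a n ∈ K.lines (Ico P P') := mem_union_left _ (mem_image_of_mem _ h1)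
    have hb : K.b n ∈ K.lines (Ico P P') := mem_union_right _ (mem_image_of_mem _ h1)
    have haS := K.a_mem n (by omega)
    have hbS := K.b_mem n (by omega)
    rw [← ih (by omega), K.S_succ n (by omega), insert_inter_of_mem hb, erase_inter,
      card_insert_of_notMem, card_erase_of_mem (mem_inter.2 ⟨haS, ha⟩)]
    · have : 0 < (K.S n ∩ K.lines (Ico P P')).card := card_pos.2 ⟨_, mem_inter.2 ⟨haS, ha⟩⟩
      omega
    · intro h
      exact hbS (mem_inter.1 (mem_of_mem_erase h)).1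

theorem kline (W : Finset ι) (S S' : Finset ι) (h : S \ S' ⊆ W) :
    (S \ S').card ≤ ((univ.filter fun i : {x // x ∈ W} => i.1 ∈ S) \
      (univ.filter fun i : {x // x ∈ W} => i.1 ∈ S')).card := by
  classical
  refine card_le_card_of_surjOn (fun i : {x // x ∈ W} => i.1) ?_
  intro x hx
  have hx' := mem_coe.1 hx
  refine ⟨⟨x, h hx'⟩, ?_, rfl⟩
  rw [mem_sdiff] at hx'
  simp only [coe_sdiff, Set.mem_sdiff, mem_coe, mem_filter, mem_univ, true_and]
  exact hx'

theorem kcard' (W : Finset ι) (S : Finset ι) :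
    (univ.filter fun i : {x // x ∈ W} => i.1 ∈ S).card = (S ∩ W).card := by
  classical
  refine card_bij (fun i _ => i.1) ?_ ?_ ?_
  · intro i hi
    rw [mem_filter] at hi
    exact mem_inter.2 ⟨hi.2, i.2⟩
  · intro i _ j _ h
    exact Subtype.ext h
  · intro x hx
    rw [mem_inter] at hx
    exact ⟨⟨x, hx.2⟩, by simp [hx.1], rfl⟩

/-- **SAMPLES**, base point to the right. -/
theorem ksamp_left (hx : Function.Injective K.x) (P P' : ℕ) (hP : P' ≤ K.N) (J w : ℕ)
    (hw : 1 ≤ w) (e : ℝ) (p : ℕ → ℕ) (s : ℕ → ℝ) (hp : ∀ j ≤ J, P ≤ p j ∧ p j ≤ P')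
    (hv : ∀ j ≤ J, K.Valid (p j) (s j)) (h0 : ∀ j ≤ J, s j < e)
    (hs : ∀ j < J, ((K.lines (Ico P P')).card : ℝ) ^ 2 * (e - s (j + 1)) ≤ e - s j) :
    ∑ j ∈ range J, (K.S (p (j + 1)) \ K.S (p j)).card ≤ TB (K.lines (Ico P P')).card w := by
  classical
  set W := K.lines (Ico P P') with hW
  have hc : Fintype.card {x // x ∈ W} = W.card := by simp
  have h1 := samples_left (X := {x // x ∈ W}) (fun i => K.x i.1) (fun i => K.y i.1)
    (fun i j h => Subtype.ext (hx h)) J (K.S P ∩ W).card w hw e s h0 (by rw [hc]; exact hs)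
    (fun j => univ.filter fun i : {x // x ∈ W} => i.1 ∈ K.S (p j))
    (fun j hj => by
      rw [kcard']
      exact kcard K hP (p j) (hp j hj).1 (hp j hj).2)
    (fun j hj y hy z hz => by
      have h2 := hv j hj
      simp only [mem_filter, mem_univ, true_and] at hy hz
      have h3 := K.below (p j) h2.1 (s j) h2.2.1 h2.2.2 y.1 hy
      have h4 := K.above (p j) h2.1 (s j) h2.2.1 h2.2.2 z.1 hz
      linarith)
  rw [hc] at h1
  refine le_trans (sum_le_sum fun j hj => ?_) h1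
  rw [mem_range] at hj
  refine kline W _ _ fun i hi => ?_
  by_contra hiW
  rw [mem_sdiff, kstay K hP hiW _ (hp (j + 1) hj).1 (hp (j + 1) hj).2,
    kstay K hP hiW _ (hp j hj.le).1 (hp j hj.le).2] at hi
  exact hi.2 hi.1

/-- **SAMPLES**, base point to the left. -/
theorem ksamp_right (hx : Function.Injective K.x) (P P' : ℕ) (hP : P' ≤ K.N) (J w : ℕ)
    (hw : 1 ≤ w) (e : ℝ) (p : ℕ → ℕ) (s : ℕ → ℝ) (hp : ∀ j ≤ J, P ≤ p j ∧ p j ≤ P')
    (hv : ∀ j ≤ J, K.Valid (p j) (s j)) (h0 : ∀ j ≤ J, e < s j)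
    (hs : ∀ j < J, ((K.lines (Ico P P')).card : ℝ) ^ 2 * (s (j + 1) - e) ≤ s j - e) :
    ∑ j ∈ range J, (K.S (p (j + 1)) \ K.S (p j)).card ≤ TB (K.lines (Ico P P')).card w := by
  classical
  set W := K.lines (Ico P P') with hW
  have hc : Fintype.card {x // x ∈ W} = W.card := by simp
  have h1 := samples_right (X := {x // x ∈ W}) (fun i => K.x i.1) (fun i => K.y i.1)
    (fun i j h => Subtype.ext (hx h)) J (K.S P ∩ W).card w hw e s h0 (by rw [hc]; exact hs)
    (fun j => univ.filter fun i : {x // x ∈ W} => i.1 ∈ K.S (p j))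
    (fun j hj => by
      rw [kcard']
      exact kcard K hP (p j) (hp j hj).1 (hp j hj).2)
    (fun j hj y hy z hz => by
      have h2 := hv j hj
      simp only [mem_filter, mem_univ, true_and] at hy hz
      have h3 := K.below (p j) h2.1 (s j) h2.2.1 h2.2.2 y.1 hy
      have h4 := K.above (p j) h2.1 (s j) h2.2.1 h2.2.2 z.1 hz
      linarith)
  rw [hc] at h1
  refine le_trans (sum_le_sum fun j hj => ?_) h1
  rw [mem_range] at hj
  refine kline W _ _ fun i hi => ?_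
  by_contra hiW
  rw [mem_sdiff, kstay K hP hiW _ (hp (j + 1) hj).1 (hp (j + 1) hj).2,
    kstay K hP hiW _ (hp j hj.le).1 (hp j hj.le).2] at hi
  exact hi.2 hi.1

end Pool.Agent.Work.MP_e17eac_co.TROP

end

section

/-!
# Item B1 CTOK: lines and tokens of the edges in a cell
-/

namespace Pool.Agent.Work.MP_e17eac_co.B1

open Finset
open Pool.Agent.Work.MP_e17eac_co.DH

namespace XCTOK

theorem hTok : StTok := I_TOK I_POS

end XCTOK

theorem I_CTOK (h : StCell) : StCellTok := by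
  intro ι _ _ K r x c hr F hF
  obtain ⟨-, -, -, -, -, p, q, h1, -, h3, -⟩ := h ι K r x hr
  have hv : vis K r x c = MX.vi K (p c) (q c) := by
    unfold vis MX.vi
    rw [h1 c]
  have hF' : F ⊆ Ico (p c) (q c) := by
    rw [← h1 c]
    exact hF
  rw [hv]
  refine ⟨fun s i hi => ?_, fun s => MX.XDeyV.ln_card K hF' s,
    fun s => MX.XDeyV.tok_card XCTOK.hTok K (h3 c) hF' s⟩
  rw [mem_image] at hi
  obtain ⟨n, hn, rfl⟩ := hi
  exact MX.XDeyV.ln_mem K s (hF' hn)

end Pool.Agent.Work.MP_e17eac_co.B1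

end

section

/-!
# Arbitrary sets, block GP: net flips and samples in the form of `MX`
-/

namespace Pool.Agent.Work.MP_e17eac_co.MX

open Finset
open Pool.Agent.Work.MP_e17eac_co.DH
open Pool.Agent.Work.MP_e17eac_co.DH.XSWEEP (GP)

/-- Net flips. -/
theorem stNet : StNet := by
  intro ι _ _ K hx hGP p q hpq hq
  have h := NF.netFlips ι K hx hGP p q hpq hq
  calc (q - p) ^ 3 ≤ 32768 * (K.lines (Ico p q)).card ^ 3 * (K.S p \ K.S q).card := h
    _ = 2 ^ 15 * ((vi K p q).card ^ 3 * (K.S p \ K.S q).card) := by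
      unfold vi
      ring

/-- Samples. -/
theorem stSamp : StSamp := by
  intro ε hε
  obtain ⟨C, hC, hTB⟩ := TROP.TB_eps (ε / 2) (by positivity)
  have h1 : Filter.Tendsto (fun n : ℕ => (n : ℝ) ^ (ε / 2)) Filter.atTop Filter.atTop :=
    (tendsto_rpow_atTop (by positivity)).comp tendsto_natCast_atTop_atTop
  obtain ⟨n0, hn0⟩ := Filter.eventually_atTop.1 (h1.eventually_ge_atTop C)
  refine ⟨max n0 1, ?_⟩
  intro ι _ _ K hx hn p q m i τ e hq hi hs
  have hn1 : 1 ≤ Fintype.card ι := le_trans (le_max_right _ _) hn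
  have hn2 : n0 ≤ Fintype.card ι := le_trans (le_max_left _ _) hn
  set n := Fintype.card ι with hndef
  have hnr : (1 : ℝ) ≤ n := by exact_mod_cast hn1
  set V := (K.lines (Ico p q)).card with hV
  have hVn : V ≤ n := by
    rw [hV, hndef]
    exact card_le_univ _
  have hVr : (V : ℝ) ≤ n := by exact_mod_cast hVn
  obtain ⟨w, hw, hTw⟩ := hTB V
  have h2 := TROP.ksamp_left K hx p q hq m w hw e i τ
    (fun j hj => ⟨(hi j hj).1, (hi j hj).2.1⟩) (fun j hj => (hi j hj).2.2.1)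
    (fun j hj => (hi j hj).2.2.2) (fun j hj => by
      have h3 := (hi (j + 1) (by omega)).2.2.2
      have h4 : (0 : ℝ) ≤ e - τ (j + 1) := by linarith
      refine le_trans (mul_le_mul_of_nonneg_right ?_ h4) (hs j hj)
      have h5 : (V : ℝ) ^ 2 ≤ (n : ℝ) ^ 2 := by
        exact pow_le_pow_left₀ (by positivity) hVr 2
      calc ((K.lines (Ico p q)).card : ℝ) ^ 2 = (V : ℝ) ^ 2 := by rw [hV]
        _ ≤ (n : ℝ) ^ 2 := h5
        _ ≤ (n : ℝ) ^ 3 := pow_le_pow_right₀ hnr (by norm_num))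
  have h6 : ∀ j ∈ range m, (K.S (i j) \ K.S (i (j + 1))).card =
      (K.S (i (j + 1)) \ K.S (i j)).card := by
    intro j hj
    rw [mem_range] at hj
    have ha := NF.XNF.card_const K (i j) (le_trans (hi j hj.le).2.1 hq)
    have hb := NF.XNF.card_const K (i (j + 1)) (le_trans (hi (j + 1) hj).2.1 hq)
    rw [card_sdiff, card_sdiff, ha, hb, inter_comm]
  have h7 : ∑ j ∈ range m, ((K.S (i j) \ K.S (i (j + 1))).card : ℝ) ≤ (TROP.TB V w : ℝ) := by
    rw [← Nat.cast_sum, Nat.cast_le, sum_congr rfl h6]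
    exact h2
  refine h7.trans (hTw.trans ?_)
  rcases Nat.eq_zero_or_pos V with h0 | h0
  · rw [h0]
    rw [Nat.cast_zero, Real.zero_rpow (by positivity), mul_zero]
    positivity
  · have hV0 : (0 : ℝ) < V := by exact_mod_cast h0
    rw [Real.rpow_add hV0, Real.rpow_one]
    have h8 : (V : ℝ) ^ (ε / 2) ≤ (n : ℝ) ^ (ε / 2) :=
      Real.rpow_le_rpow hV0.le hVr (by positivity)
    have h9 : C ≤ (n : ℝ) ^ (ε / 2) := hn0 n hn2
    have h10 : (n : ℝ) ^ (ε / 2) * (n : ℝ) ^ (ε / 2) = (n : ℝ) ^ ε := by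
      rw [← Real.rpow_add (by linarith)]
      congr 1
      ring
    have h11 : (0 : ℝ) ≤ (n : ℝ) ^ (ε / 2) := by positivity
    change C * ((V : ℝ) * (V : ℝ) ^ (ε / 2)) ≤ (V : ℝ) * (n : ℝ) ^ ε
    rw [← h10]
    calc C * ((V : ℝ) * (V : ℝ) ^ (ε / 2)) = V * (C * (V : ℝ) ^ (ε / 2)) := by ring
      _ ≤ V * ((n : ℝ) ^ (ε / 2) * (n : ℝ) ^ (ε / 2)) := by
        refine mul_le_mul_of_nonneg_left ?_ hV0.le
        exact mul_le_mul h9 h8 (by positivity) h11

end Pool.Agent.Work.MP_e17eac_co.MX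

end

section

/-!
# MX: halving tree of a partition into mass cells
-/

namespace Pool.Agent.Work.MP_e17eac_co.MX

open Finset
open Pool.Agent.Work.MP_e17eac_co.DH

namespace XHalve

variable {ι : Type} [Fintype ι] [DecidableEq ι]

/-- The halving of a partition. -/
noncomputable def half (K : KSys ι) (Z : ℕ → ℕ) (n : ℕ) : ℕ :=
  2 * Z n + if 2 * (n - lo Z n) < hi K Z n + 1 - lo Z n then 0 else 1

theorem half_div (K : KSys ι) (Z : ℕ → ℕ) (n : ℕ) : half K Z n / 2 = Z n := by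
  unfold half; split_ifs <;> omega

theorem half_cases (K : KSys ι) (Z : ℕ → ℕ) (n : ℕ) :
    half K Z n = 2 * Z n ∨ half K Z n = 2 * Z n + 1 := by
  unfold half; split_ifs <;> simp

theorem lo_congr {Z : ℕ → ℕ} {n m : ℕ} (h : Z n = Z m) : lo Z n = lo Z m := by
  unfold lo; rw [h]

theorem hi_congr (K : KSys ι) {Z : ℕ → ℕ} {n m : ℕ} (h : Z n = Z m) : hi K Z n = hi K Z m := by
  unfold hi; rw [h]

theorem half_ref (K : KSys ι) (Z : ℕ → ℕ) : Ref K Z (half K Z) := by
  intro n m _ _ h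
  rw [← half_div K Z n, ← half_div K Z m, h]

theorem half_three (K : KSys ι) (Z : ℕ → ℕ) (n m l : ℕ) (h1 : Z n = Z m) (h2 : Z m = Z l) :
    half K Z n = half K Z m ∨ half K Z m = half K Z l ∨ half K Z n = half K Z l := by
  have a := half_cases K Z n
  have b := half_cases K Z m
  have c := half_cases K Z l
  omega

theorem half_cells (h : StLoHi) (K : KSys ι) (M : ℕ) (Z : ℕ → ℕ) (hZ : IsCells K M Z) :
    IsCells K (2 * M) (half K Z) := by
  refine ⟨?_, ?_, ?_⟩
  · intro n m hnm hm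
    have hn : n < K.N := lt_of_le_of_lt hnm hm
    have h1 := hZ.mono n m hnm hm
    rcases Nat.lt_or_ge (Z n) (Z m) with h2 | h2
    · have a := half_cases K Z n
      have b := half_cases K Z m
      omega
    · have h3 : Z n = Z m := le_antisymm h1 h2
      have h4 := lo_congr h3
      have h5 := hi_congr K h3
      unfold half
      rw [h3, h4, h5]
      split_ifs with h6 h7
      · exact le_rfl
      · omega
      · exfalso; omega
      · exact le_rfl
  · intro n hn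
    have a := half_cases K Z n
    have b := hZ.lt n hn
    omega
  · intro k
    rcases ((range K.N).filter (fun n => half K Z n = k)).eq_empty_or_nonempty with h0 | ⟨n0, h0⟩
    · rw [h0]; simp
    · rw [mem_filter, mem_range] at h0
      obtain ⟨hn0, hk⟩ := h0
      obtain ⟨l1, l2, l3, _, _, l4, _, _, l5⟩ := h ι K M Z hZ n0 hn0
      set L := lo Z n0 with hL
      set H := hi K Z n0 with hH
      have hsub : ((range K.N).filter (fun n => half K Z n = k)).card ≤ (H + 1 - L + 1) / 2 := by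
        rcases half_cases K Z n0 with hc | hc
        · have : (range K.N).filter (fun n => half K Z n = k) ⊆ Ico L (L + (H + 1 - L + 1) / 2) := by
            intro n hn
            rw [mem_filter, mem_range] at hn
            obtain ⟨hn, hn2⟩ := hn
            have hz : Z n = Z n0 := by
              rw [← half_div K Z n, ← half_div K Z n0, hn2, hk]
            obtain ⟨b1, b2⟩ := (l4 n hn).1 hz
            have e1 := lo_congr hz
            have e2 := hi_congr K hz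
            have h6 : half K Z n = 2 * Z n := by omega
            unfold half at h6
            rw [e1, e2] at h6
            split_ifs at h6 with h7
            · rw [mem_Ico]; omega
            · omega
          refine (card_le_card this).trans ?_
          rw [Nat.card_Ico]; omega
        · have : (range K.N).filter (fun n => half K Z n = k) ⊆
              Ico (L + (H + 1 - L + 1) / 2) (H + 1) := by
            intro n hn
            rw [mem_filter, mem_range] at hn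
            obtain ⟨hn, hn2⟩ := hn
            have hz : Z n = Z n0 := by
              rw [← half_div K Z n, ← half_div K Z n0, hn2, hk]
            obtain ⟨b1, b2⟩ := (l4 n hn).1 hz
            have e1 := lo_congr hz
            have e2 := hi_congr K hz
            have h6 : half K Z n = 2 * Z n + 1 := by omega
            unfold half at h6
            rw [e1, e2] at h6
            split_ifs at h6 with h7
            · omega
            · rw [mem_Ico]; omega
          refine (card_le_card this).trans ?_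
          rw [Nat.card_Ico]; omega
      have h8 : (H + 1 - L + 1) / 2 * (2 * M) ≤ (H + 1 - L + 1) * M := by
        calc (H + 1 - L + 1) / 2 * (2 * M) = ((H + 1 - L + 1) / 2 * 2) * M := by ring
          _ ≤ (H + 1 - L + 1) * M := Nat.mul_le_mul_right _ (Nat.div_mul_le_self _ _)
      calc ((range K.N).filter (fun n => half K Z n = k)).card * (2 * M)
          ≤ (H + 1 - L + 1) / 2 * (2 * M) := Nat.mul_le_mul_right _ hsub
        _ ≤ (H + 1 - L + 1) * M := h8
        _ = (H + 1 - L) * M + M := by ring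
        _ ≤ K.N + 2 * M + M := by omega
        _ ≤ K.N + 2 * (2 * M) := by omega

/-- The halving tree. -/
noncomputable def tree (K : KSys ι) (c : ℕ → ℕ) : ℕ → ℕ → ℕ
  | 0 => c
  | a + 1 => half K (tree K c a)

end XHalve

open XHalve in
theorem I_Halve : StHalve := by
  intro ι _ _ K M c _ hc
  refine ⟨tree K c, rfl, fun a => ⟨?_, half_ref K _, fun n m l _ _ _ h1 h2 =>
    half_three K _ n m l h1 h2⟩⟩
  induction a with
  | zero => simpa [tree] using hc
  | succ a ih =>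
    have := half_cells I_LoHi K (M * 2 ^ a) (tree K c a) ih
    have e : M * 2 ^ (a + 1) = 2 * (M * 2 ^ a) := by ring
    rw [e]
    exact this

end Pool.Agent.Work.MP_e17eac_co.MX

end
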