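import Pool.Agent.Work.MP_e17eac_co.Bd.B04
import Pool.Agent.Work.MP_e17eac_co.RING.RLd
import Pool.Agent.Work.MP_e17eac_co.Bd.B19
import Pool.Agent.Work.MP_e17eac_co.Bd.B17

/-! Bundle of small proof modules (one section per former module). -/

section

/-!
# Ring module, uniform version: removal of the crowded classes, graph of one slope
-/

namespace Pool.Agent.Work.MP_e17eac_co.RINGU

open Finset
open scoped Pointwise
open Pool.Agent.Work.MP_e17eac_co.RING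
open Pool.Agent.Work.MP_e17eac_co.RING.XRL

namespace XRLU

variable {a R K : ℝ} {A : Finset ℝ} {T : Finset (ℝ × ℝ)} {I : Finset ((ℝ × ℝ) × ℝ)}

/-- The cells of `T'` incident to `x`. -/
noncomputable def G1 (T' : Finset (ℝ × ℝ)) (I : Finset ((ℝ × ℝ) × ℝ)) (x : ℝ) :
    Finset (ℝ × ℝ) := T'.filter fun p => (p, x) ∈ I

/-- The graph of the slope `x`. -/
noncomputable def E1 (T' : Finset (ℝ × ℝ)) (I : Finset ((ℝ × ℝ) × ℝ)) (x₁ x₂ x : ℝ) :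
    Finset (ℤ × ℤ) := (G1 T' I x).image fun p => (⌊bb x₁ p⌋, ⌊bb x₂ p⌋)

/-- The cells incident to `x₁` and `x₂`. -/
noncomputable def T12 (T : Finset (ℝ × ℝ)) (I : Finset ((ℝ × ℝ) × ℝ)) (x₁ x₂ : ℝ) :
    Finset (ℝ × ℝ) := T.filter fun p => (p, x₁) ∈ I ∧ (p, x₂) ∈ I

lemma pow_bound {W x : ℝ} {m : ℕ} (ha1 : a ≤ 1) (hW : 1 ≤ W) (hx : 1 ≤ x)
    (hWa : W ^ a ≤ K ^ 10) :
    (x * W ^ m) ^ (2 * a) ≤ x ^ 2 * (K ^ 10) ^ (2 * m) := by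
  have hW0 : 0 < W := by linarith
  have hx0 : 0 < x := by linarith
  rw [Real.mul_rpow hx0.le (by positivity)]
  have h1 : x ^ (2 * a) ≤ x ^ 2 := by
    calc x ^ (2 * a) ≤ x ^ (2 : ℝ) := Real.rpow_le_rpow_of_exponent_le hx (by linarith)
      _ = x ^ 2 := Real.rpow_ofNat x 2
  have h2 : (W ^ m) ^ (2 * a) = (W ^ a) ^ (2 * m) := by
    rw [← Real.rpow_natCast W m, ← Real.rpow_mul hW0.le, ← Real.rpow_natCast (W ^ a),
      ← Real.rpow_mul hW0.le]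
    congr 1
    push_cast
    ring
  rw [h2]
  gcongr

lemma prune (hPrune : StPrune) (h : Config a R K A T I) (hR : 1 ≤ R) (ha : 0 < a) (ha1 : a ≤ 1)
    (hK : 100 ≤ K) {W : ℝ} (hW1 : 1 ≤ W) (hWa : W ^ a ≤ K ^ 10) {x₁ x₂ : ℝ} (hx₁ : x₁ ∈ A)
    (hx₂ : x₂ ∈ A) (h12 : 1 ≤ W * |x₁ - x₂|) :
    ∃ T' ⊆ T12 T I x₁ x₂, Spa (K ^ 120) (W ^ 4) (cl (bb x₁) T') ∧
      Spa (K ^ 120) (W ^ 4) (cl (bb x₂) T') ∧ ∀ x : ℝ,
      (R ^ a) ^ 2 ≤ 4 * K ^ 8 * ((G T I x₁ x₂ x).card : ℝ) →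
      (R ^ a) ^ 2 ≤ 8 * K ^ 8 * ((G1 T' I x).card : ℝ) := by
  have hK0 : 0 < K := by linarith
  have hK1 : 1 ≤ K := by linarith
  set k : ℝ := R ^ a with hk
  have hk1 : 1 ≤ k := Real.one_le_rpow hR ha.le
  have hk0 : 0 < k := by linarith
  obtain ⟨T', hT', s1, s2, hc⟩ := hPrune a K W (W ^ 4) (K ^ 120) k x₁ x₂ (T12 T I x₁ x₂) ha ha1
    hK1 hW1 (one_le_pow₀ hW1) (by positivity) hk0 (h.slope x₁ hx₁).1 (h.slope x₁ hx₁).2 h12
    (fun q r hr => le_trans (by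
      exact_mod_cast card_le_card (filter_subset_filter _ (filter_subset _ _))) (h.regT q r hr))
    (cl_le h hx₁ _ fun p hp => (mem_filter.mp hp).2.1)
    (cl_le h hx₂ _ fun p hp => (mem_filter.mp hp).2.2)
  refine ⟨T', hT', s1, s2, fun x hx => ?_⟩
  have e1 : 20 * W ^ 4 * W = 20 * W ^ 5 := by ring
  rw [e1] at hc
  have e2 := pow_bound (m := 5) ha1 hW1 (by norm_num : (1 : ℝ) ≤ 20) hWa
  set m : ℝ := ((T12 T I x₁ x₂ \ T').card : ℝ) with hm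
  have hm0 : 0 ≤ m := Nat.cast_nonneg _
  have e3 : K ^ 120 * m ≤ K ^ 112 * (k ^ 2 / 8) := by
    calc K ^ 120 * m ≤ 2 * K ^ 3 * k ^ 2 * (20 * W ^ 5) ^ (2 * a) := hc
      _ ≤ 2 * K ^ 3 * k ^ 2 * (20 ^ 2 * (K ^ 10) ^ (2 * 5)) := by gcongr
      _ = 6400 * K ^ 103 * (k ^ 2 / 8) := by ring
      _ ≤ K ^ 9 * K ^ 103 * (k ^ 2 / 8) := by
        gcongr
        calc (6400 : ℝ) ≤ 100 ^ 9 := by norm_num
          _ ≤ K ^ 9 := by gcongr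
      _ = K ^ 112 * (k ^ 2 / 8) := by ring
  have e4 : K ^ 8 * m ≤ k ^ 2 / 8 := by
    have : K ^ 112 * (K ^ 8 * m) ≤ K ^ 112 * (k ^ 2 / 8) := by
      calc K ^ 112 * (K ^ 8 * m) = K ^ 120 * m := by ring
        _ ≤ _ := e3
    exact le_of_mul_le_mul_left this (by positivity)
  have e5 : ((G T I x₁ x₂ x).card : ℝ) ≤ ((G1 T' I x).card : ℝ) + m := by
    have : (G T I x₁ x₂ x).card ≤ (G1 T' I x ∪ (T12 T I x₁ x₂ \ T')).card := by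
      refine card_le_card fun p hp => ?_
      rw [G, mem_filter] at hp
      rw [mem_union, G1, mem_filter, mem_sdiff, T12, mem_filter]
      by_cases hpT : p ∈ T'
      · exact Or.inl ⟨hpT, hp.2.2.2⟩
      · exact Or.inr ⟨⟨hp.1, hp.2.1, hp.2.2.1⟩, hpT⟩
    rw [hm]
    exact_mod_cast this.trans (card_union_le _ _)
  have e6 : k ^ 2 ≤ 4 * K ^ 8 * (((G1 T' I x).card : ℝ) + m) :=
    hx.trans (by gcongr)
  have e7 : 4 * K ^ 8 * (((G1 T' I x).card : ℝ) + m) =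
      4 * K ^ 8 * ((G1 T' I x).card : ℝ) + 4 * (K ^ 8 * m) := by ring
  have e8 : 8 * K ^ 8 * ((G1 T' I x).card : ℝ) = 2 * (4 * K ^ 8 * ((G1 T' I x).card : ℝ)) := by
    ring
  rw [e8]
  linarith

lemma E1_sub (T' : Finset (ℝ × ℝ)) (x₁ x₂ x : ℝ) :
    E1 T' I x₁ x₂ x ⊆ cl (bb x₁) T' ×ˢ cl (bb x₂) T' := by
  intro z hz
  rw [E1, mem_image] at hz
  obtain ⟨p, hp, rfl⟩ := hz
  rw [G1, mem_filter] at hp
  rw [mem_product]
  exact ⟨mem_image.mpr ⟨p, hp.1, rfl⟩, mem_image.mpr ⟨p, hp.1, rfl⟩⟩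

lemma graph (hEdge : StEdgeU) (hCls : StClsU) (hBSG : StBSGU) (h : Config a R K A T I)
    (hR : 1 ≤ R) (ha : 0 < a) (ha1 : a ≤ 1) (hK : 100 ≤ K) {W : ℝ} (hW1 : 1 ≤ W)
    (hWa : W ^ a ≤ K ^ 10) {x₁ x₂ x : ℝ} (hx₁ : x₁ ∈ A) (hx₂ : x₂ ∈ A) (hx : x ∈ A)
    (h12 : 1 ≤ W * |x₁ - x₂|) (h1 : 1 ≤ W * |x - x₁|) (h2 : 1 ≤ W * |x - x₂|)
    {T' : Finset (ℝ × ℝ)} (hT' : T' ⊆ T12 T I x₁ x₂)
    (s1 : Spa (K ^ 120) (W ^ 4) (cl (bb x₁) T')) (s2 : Spa (K ^ 120) (W ^ 4) (cl (bb x₂) T'))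
    (hG : (R ^ a) ^ 2 ≤ 8 * K ^ 8 * ((G1 T' I x).card : ℝ)) :
    ∃ U ⊆ cl (bb x₁) T', ∃ V ⊆ cl (bb x₂) T', R ^ a ≤ K ^ 2640 * (U.card : ℝ) ∧
      R ^ a ≤ K ^ 2640 * (V.card : ℝ) ∧
      (((U ×ˢ V).image fun z : ℤ × ℤ =>
        ⌊((z.1 : ℝ) - cc x₁ x₂ x * (z.2 : ℝ)) / W⌋).card : ℝ) ≤ K ^ 2880 * R ^ a ∧
      ∀ u ∈ U, R ^ a ≤ K ^ 2640 *
        (((cl (bb x₂) T').filter fun v => (u, v) ∈ E1 T' I x₁ x₂ x).card : ℝ) := by
  set k : ℝ := R ^ a with hk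
  have hk1 : 1 ≤ k := Real.one_le_rpow hR ha.le
  have hK1 : 1 ≤ K := by linarith
  have hK0 : 0 < K := by linarith
  have hp : ∀ {m n : ℕ}, m ≤ n → K ^ m ≤ K ^ n := fun hmn => pow_le_pow_right₀ hK1 hmn
  have hW0 : 0 < W := by linarith
  have hL : 100 ≤ K ^ 120 := by
    calc (100 : ℝ) ≤ K := hK
      _ = K ^ 1 := (pow_one K).symm
      _ ≤ K ^ 120 := hp (by norm_num)
  have hc := cc_bd hW1 (h.slope x hx) (h.slope x₁ hx₁) (h.slope x₂ hx₂) h1 h2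
  have s := h.slope x hx
  have s₁ := h.slope x₁ hx₁
  have s₂ := h.slope x₂ hx₂
  have hTT : T' ⊆ T := hT'.trans (filter_subset _ _)
  have hKL : K * k ≤ K ^ 120 * k := by
    gcongr
    calc K = K ^ 1 := (pow_one K).symm
      _ ≤ K ^ 120 := hp (by norm_num)
  have hW3 : 1 ≤ W ^ 3 := one_le_pow₀ hW1
  have key := hBSG (K ^ 120) k (cc x₁ x₂ x) W (W ^ 4) (cl (bb x₁) T') (cl (bb x₂) T')
    (E1 T' I x₁ x₂ x) hL hk1 hW1
    (by
      calc W = W * 1 := (mul_one W).symm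
        _ ≤ W * W ^ 3 := by gcongr
        _ = W ^ 4 := by ring)
    (by
      calc W ≤ W ^ 3 * 1 := by
            have : W ^ 3 = W * W ^ 2 := by ring
            rw [this, mul_one]
            nlinarith [one_le_pow₀ hW1 (n := 2)]
        _ ≤ W ^ 3 * (W * |cc x₁ x₂ x|) := by
            gcongr
            exact hc.2
        _ = W ^ 4 * |cc x₁ x₂ x| := by ring)
    s1 s2 (E1_sub T' x₁ x₂ x)
    ((cl_le h hx₁ _ fun p hp => (mem_filter.mp (hT' hp)).2.1).trans hKL)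
    ((cl_le h hx₂ _ fun p hp => (mem_filter.mp (hT' hp)).2.2).trans hKL) ?_ ?_
  · obtain ⟨U, hU, V, hV, q1, q2, q3, q4⟩ := key
    rw [← pow_mul] at q1 q2 q3 q4
    exact ⟨U, hU, V, hV, q1, q2, q3, q4⟩
  · have e1 := hEdge a K W x₁ x₂ T (G1 T' I x) ha hK1 hW1 s₁.1 s₁.2 h12
      ((filter_subset _ _).trans hTT) (regT h)
    change _ ≤ K * (3 * W) ^ (2 * a) * ((E1 T' I x₁ x₂ x).card : ℝ) at e1
    have e2 := pow_bound (m := 1) ha1 hW1 (by norm_num : (1 : ℝ) ≤ 3) hWa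
    rw [pow_one] at e2
    calc k ^ 2 ≤ 8 * K ^ 8 * ((G1 T' I x).card : ℝ) := hG
      _ ≤ 8 * K ^ 8 * (K * (3 * W) ^ (2 * a) * ((E1 T' I x₁ x₂ x).card : ℝ)) := by gcongr
      _ ≤ 8 * K ^ 8 * (K * (3 ^ 2 * (K ^ 10) ^ (2 * 1)) * ((E1 T' I x₁ x₂ x).card : ℝ)) := by
        gcongr
      _ = 72 * K ^ 29 * ((E1 T' I x₁ x₂ x).card : ℝ) := by ring
      _ ≤ K * K ^ 29 * ((E1 T' I x₁ x₂ x).card : ℝ) := by
        gcongr
        linarith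
      _ = K ^ 30 * ((E1 T' I x₁ x₂ x).card : ℝ) := by ring
      _ ≤ K ^ 120 * ((E1 T' I x₁ x₂ x).card : ℝ) := by
        gcongr
        norm_num
  · have e2 := hCls W W x₁ x₂ x (G1 T' I x) hW1 le_rfl (abs_le.mpr ⟨by linarith, by linarith⟩)
      (abs_le.mpr ⟨by linarith, by linarith⟩) h2
    refine e2.trans ?_
    have e3 := cl_le h hx (G1 T' I x) (fun p hp => (mem_filter.mp hp).2)
    calc 5 * ((cl (bb x) (G1 T' I x)).card : ℝ) ≤ 5 * (K * k) := by gcongr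
      _ = (5 * K) * k := by ring
      _ ≤ (K * K) * k := by
        gcongr
        linarith
      _ = K ^ 2 * k := by ring
      _ ≤ K ^ 120 * k := by
        gcongr
        norm_num

/-- Fibres of a dilation of a sparse set. -/
lemma spa_dl {L ρ g : ℝ} {S : Finset ℤ} (_hL : 0 ≤ L) (hS : Spa L ρ S) (hg : 1 ≤ ρ * |g|) :
    (S.card : ℝ) ≤ L * ((dl g S).card : ℝ) := by
  have h1 : (S.card : ℝ) = ∑ m ∈ dl g S, ((S.filter fun u : ℤ => ⌊g * (u : ℝ)⌋ = m).card : ℝ) := by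
    have := card_eq_sum_card_image (fun u : ℤ => ⌊g * (u : ℝ)⌋) S
    rw [this]
    push_cast
    rfl
  rw [h1, mul_comm, ← nsmul_eq_mul, ← sum_const]
  refine sum_le_sum fun m hm => ?_
  obtain ⟨u₀, hu₀, hm0⟩ := mem_image.mp hm
  refine le_trans ?_ (hS u₀)
  have hsub : (S.filter fun u : ℤ => ⌊g * (u : ℝ)⌋ = m) ⊆
      S.filter fun u : ℤ => |(u : ℝ) - (u₀ : ℝ)| ≤ ρ := by
    intro u hu
    rw [mem_filter] at hu ⊢
    refine ⟨hu.1, ?_⟩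
    have h2 : |g * (u : ℝ) - g * (u₀ : ℝ)| < 1 :=
      Int.abs_sub_lt_one_of_floor_eq_floor (hu.2.trans hm0.symm)
    rw [← mul_sub, abs_mul] at h2
    by_contra hcon
    have hcon' : ρ < |(u : ℝ) - (u₀ : ℝ)| := not_le.mp hcon
    have h3 : ρ * |g| ≤ |g| * |(u : ℝ) - (u₀ : ℝ)| := by
      rw [mul_comm]
      exact mul_le_mul_of_nonneg_left hcon'.le (abs_nonneg _)
    linarith
  exact_mod_cast card_le_card hsub

end XRLU

end Pool.Agent.Work.MP_e17eac_co.RINGU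

end

section

/-!
# Arbitrary sets, blueprint part B-2 (note 2873): hash classes at every level, statements

`D` collects all losses, `C : ℕ` are exponents which depend only on the levels.
-/

namespace Pool.Agent.Work.MP_e17eac_co.SK

open Finset
open Pool.Agent.Work.MP_e17eac_co.DH
open Pool.Agent.Work.MP_e17eac_co.DH.XSWEEP (GP)
open Pool.Agent.Work.MP_e17eac_co.B1

variable {ι : Type} [Fintype ι] [DecidableEq ι]

/-- Range of the parameters. -/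
structure Rg (K : KSys ι) (r m : ℕ) (H D : ℝ) (C : ℕ) : Prop where
  std : Std K r m H
  gp : GP K.x K.y
  two : 2 ≤ D
  H_le : H ≤ D
  log_le : Real.log (Fintype.card ι) + 2 ≤ D
  rD : D ^ C ≤ r
  nN : (Fintype.card ι : ℝ) * (r : ℝ) ^ C ≤ K.N

/-- Classes at level `x` for the sets of edges `E`. -/
structure Cls (K : KSys ι) (r m : ℕ) (H : ℝ) (x : ℕ) (D : ℝ) (E : Bool → Finset ℕ)
    (κ : ι → ℕ) : Prop where
  key : SKey K κ
  h1 : ∀ s, ∀ i ∈ E s, κ (K.a i) = κ (K.b i)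
  h4 : ∀ s B, ((((E s).filter (fun i => κ (K.a i) = B)).image (cell K r x)).card : ℝ) ≤
    D * (r : ℝ) ^ x
  h5 : ∀ s, ∀ i ∈ E s, 100 *
    ((((PS K r m H).filter (fun p => κ p = κ (K.a i))) \ vis K r x (cell K r x i)).card) ≤
    ((PS K r m H).filter (fun p => κ p = κ (K.a i))).card

/-- Number of units (cell of level `x`, class) of `E`. -/
def Un (K : KSys ι) (r x : ℕ) (κ : ι → ℕ) (E : Finset ℕ) : ℕ :=
  (E.image (fun i => (cell K r x i, κ (K.a i)))).card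

/-- The window of a cell. -/
def win (K : KSys ι) (r x c : ℕ) : ℕ × ℕ :=
  (((range K.N).filter (fun i => cell K r x i < c)).card,
   ((range K.N).filter (fun i => cell K r x i ≤ c)).card)

/-- The class of `p` among the typical lines. -/
noncomputable def cl (K : KSys ι) (r m : ℕ) (H : ℝ) (κ : ι → ℕ) (p : ι) : Finset ι :=
  (PS K r m H).filter (fun q => κ q = κ p)

/-- Active cells of the class `B` (both sides). -/
def act (K : KSys ι) (r x : ℕ) (κ : ι → ℕ) (E : Bool → Finset ℕ) (B : ℕ) : Finset ℕ :=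
  (((E true) ∪ (E false)).filter (fun i => κ (K.a i) = B)).image (cell K r x)

/-- Stability: substructures with loss `D'` meet at least `1/r` of the classes. -/
def Stab (K : KSys ι) (r m : ℕ) (H D' : ℝ) (P : Finset ι) (E : Bool → Finset ℕ)
    (κ : ι → ℕ) : Prop :=
  ∀ (P' : Finset ι) (E' : Bool → Finset ℕ), SubTS P' E' P E → TS K r m H D' P' E' →
    (P.image κ).card ≤ r * (P'.image κ).card

/-! ### Windows and units -/

/-- Windows of cells. -/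
def StWin : Prop := ∀ (ι : Type) [Fintype ι] [DecidableEq ι] (K : KSys ι) (r x : ℕ), 1 ≤ r →
  (∀ c, IsWin K (win K r x c) ∧ vs K (win K r x c) = vis K r x c) ∧
  ∀ c c', c < c' → (win K r x c).2 ≤ (win K r x c').1

/-- Trivial bound for the number of units. -/
def StUTriv : Prop := ∀ (ι : Type) [Fintype ι] [DecidableEq ι] (K : KSys ι) (r m : ℕ)
  (H D : ℝ) (P : Finset ι) (E : Bool → Finset ℕ) (κ : ι → ℕ) (x0 x : ℕ), 1 ≤ r → x0 ≤ x →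
  0 ≤ D → (∀ s, ∀ i ∈ E s, K.a i ∈ P) → Cls K r m H x0 D E κ → ∀ s,
  (Un K r x κ (E s) : ℝ) ≤ (P.image κ).card * (D * (r : ℝ) ^ x0) * (r : ℝ) ^ (4 * (x - x0))

/-- Light units carry few edges (Dey in every unit, Hoelder). -/
def StLight : Prop := ∀ (ι υ : Type) [Fintype ι] [DecidableEq ι] [DecidableEq υ] (K : KSys ι),
  Function.Injective K.x → ∀ (u : ℕ → υ) (F : Finset ℕ) (θ : ℝ), F ⊆ range K.N → 0 ≤ θ →
  (∀ i ∈ F, ((F.filter (fun j => u j = u i)).card : ℝ) ≤ θ) →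
  ∃ F1 : ℝ, 0 ≤ F1 ∧ (F.card : ℝ) ≤ F1 + 16 * ((F.image (fun i => (u i, K.a i))).card : ℝ) +
    16 * ((F.image (fun i => (u i, K.b i))).card : ℝ) ∧
    F1 ^ 4 ≤ 2048 * θ * ((F.image (fun i => (u i, K.a i))).card : ℝ) *
      ((F.image (fun i => (u i, K.b i))).card : ℝ) *
      ((F.image (fun i => (u i, K.tokB i))).card : ℝ) *
      ((F.image (fun i => (u i, K.tokT i))).card : ℝ)

/-- Number of triples (cell of level `x`, token, class). -/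
def StTokU : Prop := ∃ C : ℝ, 1 ≤ C ∧ ∀ (ι : Type) [Fintype ι] [DecidableEq ι] (K : KSys ι),
  Function.Injective K.x → GP K.x K.y → ∀ (r m : ℕ) (H D : ℝ) (P : Finset ι)
  (E : Bool → Finset ℕ) (κ : ι → ℕ) (x0 x : ℕ), 1 ≤ r → x0 ≤ m → 0 ≤ D → 0 ≤ H →
  (∀ s, ∀ i ∈ E s, Hyg K r m H i ∧ K.a i ∈ P) → Cls K r m H x0 D E κ → ∀ s, ∀ F ⊆ E s, ∀ s',
  ((F.image (fun i => ((cell K r x i, κ (K.a i)), K.tok s' i))).card : ℝ) * (r : ℝ) ^ (2 * x0) ≤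
    C * Fintype.card ι * (r : ℝ) ^ (x + 2 * x0) +
      2 * (P.image κ).card * D * H * Fintype.card ι

/-- **Few units after deleting few edges** (flux). -/
def StFluxU : Prop := ∀ k : ℕ, ∃ C : ℕ, ∀ (ι : Type) [Fintype ι] [DecidableEq ι] (K : KSys ι)
  (r m : ℕ) (H D : ℝ) (P : Finset ι) (E : Bool → Finset ℕ) (κ : ι → ℕ) (x0 x : ℕ),
  x0 ≤ x → x ≤ m → Rg K r m H D (C + x) → TS K r m H D P E → Cls K r m H x0 D E κ →
  ∃ E' : Bool → Finset ℕ, ∀ s, E' s ⊆ E s ∧ D ^ k * ((E s \ E' s).card : ℝ) ≤ K.N ∧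
    (Un K r x κ (E' s) : ℝ) * (r : ℝ) ^ (4 * x0) ≤
      D ^ C * (r : ℝ) ^ (2 * x) * ((r : ℝ) ^ (x + 2 * x0) + (P.image κ).card) ^ 2

/-! ### The step lemma -/

/-- Deleting the classes with too many active cells. -/
def StClsDel : Prop := ∀ (ι : Type) [Fintype ι] [DecidableEq ι] (K : KSys ι) (r m : ℕ)
  (H D : ℝ) (P : Finset ι) (E : Bool → Finset ℕ) (κ : ι → ℕ) (x : ℕ) (G : ℝ), 3 ≤ r → 1 ≤ D →
  0 < Fintype.card ι → TS K r m H D P E → Stab K r m H (2 * D) P E κ → 0 < G →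
  (∀ s, (Un K r x κ (E s) : ℝ) ≤ G) →
  ∃ P' ⊆ P, TS K r m H (2 * D) P' (fun s => (E s).filter (fun i => K.a i ∈ P')) ∧
    ∀ p ∈ P', ((act K r x κ E (κ p)).card : ℝ) * (P.image κ).card ≤ 2 * G * (r : ℝ) ^ 2

/-- Every class has many active cells. -/
def StUnLow : Prop := ∀ (ι : Type) [Fintype ι] [DecidableEq ι] (K : KSys ι) (r m : ℕ)
  (H D : ℝ) (P : Finset ι) (E : Bool → Finset ℕ) (κ : ι → ℕ) (x : ℕ), 1 ≤ r → 0 < H → 0 < D →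
  x ≤ m → 0 < K.N → TS K r m H D P E → ∀ s,
  ((P.image κ).card : ℝ) * (r : ℝ) ^ x ≤ H * D * (Un K r x κ (E s) : ℝ)

/-- Choice of the windows: new classes. `A` bounds the number of active cells of a class. -/
def StHashB : Prop := ∀ (ι : Type) [Fintype ι] [DecidableEq ι] (K : KSys ι) (r x : ℕ),
  1 ≤ r → 2 ≤ Fintype.card ι → ∀ (P : Finset ι) (E : Bool → Finset ℕ) (κ : ι → ℕ) (h A : ℝ),
  0 < h → SKey K κ → (∀ p ∈ P, ((act K r x κ E (κ p)).card : ℝ) ≤ A) →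
  (∀ c ∈ E true ∪ E false, c < K.N) →
  ∃ κ' : ι → ℕ, SKey K κ' ∧ (∀ p q, κ' p = κ' q → κ p = κ q) ∧
    (((range K.N).filter (fun i => κ (K.a i) = κ (K.b i) ∧ κ' (K.a i) ≠ κ' (K.b i))).card ≤
      4 * Fintype.card ι * r ^ (4 * x)) ∧
    (∀ p ∈ P, ∀ q q', κ' q = κ' p → κ' q' = κ' p →
      ((sep K ((act K r x κ E (κ p)).image (win K r x)) q q').card : ℝ) ≤ h) ∧
    (((P.image κ').card : ℝ) ≤ (P.image κ).card *
      (4 * (A / h) * Real.log (Fintype.card ι) + 3) ^ 2)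

open Classical in
/-- Few edges violate (H5). -/
def StH5Del : Prop := ∀ (ι : Type) [Fintype ι] [DecidableEq ι] (K : KSys ι) (r m x : ℕ),
  1 ≤ r → x ≤ m → 0 < Fintype.card ι → ∀ (H h : ℝ), 0 ≤ H → 0 ≤ h →
  ∀ (P : Finset ι) (E : Bool → Finset ℕ) (κ κ' : ι → ℕ),
  (∀ s, ∀ i ∈ E s, Hyg K r m H i ∧ K.a i ∈ P) → (∀ p q, κ' p = κ' q → κ p = κ q) →
  (∀ p ∈ P, ∀ q q', κ' q = κ' p → κ' q' = κ' p →
      ((sep K ((act K r x κ E (κ p)).image (win K r x)) q q').card : ℝ) ≤ h) → ∀ s,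
  (((E s).filter (fun i => ¬ 100 * ((cl K r m H κ' (K.a i)) \ vis K r x (cell K r x i)).card ≤
    (cl K r m H κ' (K.a i)).card)).card : ℝ) * (r : ℝ) ^ x ≤ 200 * H * K.N * h

/-- (H5) gives (H4). -/
def StH4 : Prop := ∀ (ι : Type) [Fintype ι] [DecidableEq ι] (K : KSys ι) (r m x : ℕ),
  1 ≤ r → x ≤ m → ∀ (H : ℝ), 0 ≤ H → ∀ (E : Finset ℕ) (κ : ι → ℕ), (∀ i ∈ E, Hyg K r m H i) →
  (∀ i ∈ E, 100 * ((cl K r m H κ (K.a i)) \ vis K r x (cell K r x i)).card ≤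
    (cl K r m H κ (K.a i)).card) → ∀ B,
  (((E.filter (fun i => κ (K.a i) = B)).image (cell K r x)).card : ℝ) ≤ 2 * H * (r : ℝ) ^ x

/-- **The step**: from the number `G` of units to the number of new classes. -/
def StCore : Prop := ∃ C : ℕ, ∀ (ι : Type) [Fintype ι] [DecidableEq ι] (K : KSys ι) (r m : ℕ)
  (H D : ℝ) (P : Finset ι) (E : Bool → Finset ℕ) (κ : ι → ℕ) (x : ℕ) (G : ℝ),
  x ≤ m → Rg K r m H D (C + 4 * x) → TS K r m H D P E → SKey K κ →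
  (∀ s, ∀ i ∈ E s, κ (K.a i) = κ (K.b i)) → Stab K r m H (2 * D) P E κ →
  (∀ s, (Un K r x κ (E s) : ℝ) ≤ G) →
  ∃ (P' : Finset ι) (E' : Bool → Finset ℕ) (κ' : ι → ℕ), SubTS P' E' P E ∧
    TS K r m H (D ^ C) P' E' ∧ Cls K r m H x (D ^ C) E' κ' ∧
    (∀ p q, κ' p = κ' q → κ p = κ q) ∧
    ((P'.image κ').card : ℝ) * (P.image κ).card * (r : ℝ) ^ (2 * x) ≤
      D ^ C * (r : ℝ) ^ 4 * G ^ 2

/-! ### Lower bound, stability, walk and jump -/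

/-- **Lower bound** for the number of classes. -/
def StLower : Prop := ∃ C : ℕ, ∀ (ι : Type) [Fintype ι] [DecidableEq ι] (K : KSys ι) (r m : ℕ)
  (H D : ℝ) (P : Finset ι) (E : Bool → Finset ℕ) (κ : ι → ℕ) (x : ℕ),
  x ≤ m → Rg K r m H D C → TS K r m H D P E → Cls K r m H x D E κ →
  (r : ℝ) ^ (4 * x) ≤ D ^ C * (P.image κ).card

/-- **Stable substructures.** -/
def StStab : Prop := ∀ (ι : Type) [Fintype ι] [DecidableEq ι] (K : KSys ι) (r m : ℕ)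
  (H : ℝ) (κ : ι → ℕ) (C1 k : ℕ), 1 ≤ C1 → 1 ≤ r → 0 < Fintype.card ι → ∀ (D : ℝ)
  (P : Finset ι) (E : Bool → Finset ℕ), 1 ≤ D → TS K r m H D P E →
  ((P.image κ).card : ℝ) ≤ (r : ℝ) ^ k → ∃ j : ℕ, j ≤ k ∧ ∃ (P' : Finset ι)
  (E' : Bool → Finset ℕ), SubTS P' E' P E ∧ TS K r m H (D ^ (C1 ^ j)) P' E' ∧
  Stab K r m H ((D ^ (C1 ^ j)) ^ C1) P' E' κ

/-- One step of the walk: level `x` to level `x + 1`. -/
def StStepT : Prop := ∃ C : ℕ, ∀ (ι : Type) [Fintype ι] [DecidableEq ι] (K : KSys ι) (r m : ℕ)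
  (H D : ℝ) (P : Finset ι) (E : Bool → Finset ℕ) (κ : ι → ℕ) (x : ℕ),
  x + 1 ≤ m → Rg K r m H D (C + 4 * x) → TS K r m H D P E → Cls K r m H x D E κ →
  Stab K r m H (D ^ C) P E κ →
  ∃ (P' : Finset ι) (E' : Bool → Finset ℕ) (κ' : ι → ℕ), SubTS P' E' P E ∧
    TS K r m H (D ^ C) P' E' ∧ Cls K r m H (x + 1) (D ^ C) E' κ' ∧
    ((P'.image κ').card : ℝ) ≤ (r : ℝ) ^ 13 * (P.image κ).card

/-- The jump: level `x` to level `y`. -/
def StJump : Prop := ∃ C : ℕ, ∀ (ι : Type) [Fintype ι] [DecidableEq ι] (K : KSys ι) (r m : ℕ)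
  (H D : ℝ) (P : Finset ι) (E : Bool → Finset ℕ) (κ : ι → ℕ) (x y : ℕ),
  x ≤ y → y ≤ m → Rg K r m H D (C + 4 * y) → TS K r m H D P E → Cls K r m H x D E κ →
  Stab K r m H (D ^ C) P E κ → (r : ℝ) ^ (2 * x + y) ≤ (P.image κ).card →
  ((P.image κ).card : ℝ) ≤ (r : ℝ) ^ (2 * x + y + 11) →
  ∃ (P' : Finset ι) (E' : Bool → Finset ℕ) (κ' : ι → ℕ), SubTS P' E' P E ∧
    TS K r m H (D ^ C) P' E' ∧ Cls K r m H y (D ^ C) E' κ' ∧
    ((P'.image κ').card : ℝ) ≤ (r : ℝ) ^ (5 * y + 51 - 2 * x)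

/-- Classes at level `x` with at most `r ^ t` classes exist in every structure. -/
def Good (x t : ℕ) : Prop := ∃ C : ℕ, ∀ (ι : Type) [Fintype ι] [DecidableEq ι] (K : KSys ι)
  (r m : ℕ) (H D : ℝ) (P : Finset ι) (E : Bool → Finset ℕ), x ≤ m → Rg K r m H D C →
  TS K r m H D P E → ∃ (P' : Finset ι) (E' : Bool → Finset ℕ) (κ : ι → ℕ), SubTS P' E' P E ∧
    TS K r m H (D ^ C) P' E' ∧ Cls K r m H x (D ^ C) E' κ ∧
    ((P'.image κ).card : ℝ) ≤ (r : ℝ) ^ t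

/-- Trivial classes. -/
def StGood0 : Prop := Good 0 0

/-- **Walk and jump.** -/
def StWalk : Prop := ∀ x t y : ℕ, 1 ≤ y → x ≤ y → t ≤ 2 * x + y + 11 → Good x t →
  Good y (5 * y + 51 - 2 * x)

/-- Arithmetic of the induction. -/
def StArith : Prop := ∀ Gd : ℕ → ℕ → Prop, Gd 0 0 → (∀ x t t', t ≤ t' → Gd x t → Gd x t') →
  (∀ x t y : ℕ, 1 ≤ y → x ≤ y → t ≤ 2 * x + y + 11 → Gd x t → Gd y (5 * y + 51 - 2 * x)) →
  ∀ eps : ℝ, 0 < eps → ∃ d : ℕ, ∀ y : ℕ, Gd y (4 * y + ⌊eps * y⌋₊ + d)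

/-- **SKM**: hash classes at level `y`. -/
def StSKM : Prop := ∀ eps : ℝ, 0 < eps → ∃ d : ℕ, ∀ y : ℕ, Good y (4 * y + ⌊eps * y⌋₊ + d)

/-- **SKM for all levels.** -/
def StSKMall : Prop := ∀ eps : ℝ, 0 < eps → ∃ d : ℕ, ∀ M : ℕ, ∃ C : ℕ, ∀ (ι : Type) [Fintype ι]
  [DecidableEq ι] (K : KSys ι) (r m : ℕ) (H D : ℝ) (P : Finset ι) (E : Bool → Finset ℕ),
  M ≤ m → Rg K r m H D C → TS K r m H D P E → ∃ (P' : Finset ι) (E' : Bool → Finset ℕ)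
  (κ : ℕ → ι → ℕ), SubTS P' E' P E ∧ TS K r m H (D ^ C) P' E' ∧
    ∀ y, y ≤ M → Cls K r m H y (D ^ C) E' (κ y) ∧
      ((P'.image (κ y)).card : ℝ) ≤ (r : ℝ) ^ (4 * y + ⌊eps * y⌋₊ + d)

end Pool.Agent.Work.MP_e17eac_co.SK

end
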