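import Pool.Agent.Work.MP_e17eac_co.Bd.B04
import Pool.Agent.Work.MP_e17eac_co.Bd.B27

/-! Bundle of small proof modules (one section per former module). -/

section

/-!
# Ring module, uniform version, item NEARU: few almost coincident pairs of cells
-/

set_option autoImplicit false

namespace Pool.Agent.Work.MP_e17eac_co.RINGU

open Finset
open scoped Pointwise
open Pool.Agent.Work.MP_e17eac_co.RING

namespace XNEARU

theorem card_prod_filter_le {α β : Type} (S : Finset α) (B : Finset β) (P : α → β → Prop)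
    (Q : α → Prop) [∀ s b, Decidable (P s b)] [∀ s, Decidable (Q s)] (c : ℝ)
    (h : ∀ s ∈ S, Q s → ((B.filter (P s)).card : ℝ) ≤ c)
    (h0 : ∀ s ∈ S, ∀ b ∈ B, P s b → Q s) :
    (((S ×ˢ B).filter fun z => P z.1 z.2).card : ℝ) ≤ ((S.filter Q).card : ℝ) * c := by
  have e : (((S ×ˢ B).filter fun z => P z.1 z.2).card : ℝ)
      = ∑ s ∈ S, ((B.filter (P s)).card : ℝ) := by
    rw [Finset.card_filter, Finset.sum_product]
    push_cast
    refine Finset.sum_congr rfl fun s _ => ?_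
    rw [Finset.card_filter]
    push_cast
    rfl
  rw [e, Finset.card_filter]
  push_cast
  rw [Finset.sum_mul]
  refine Finset.sum_le_sum fun s hs => ?_
  by_cases hq : Q s
  · simpa [hq] using h s hs hq
  · have : B.filter (fun b => P s b) = ∅ := by
      rw [Finset.filter_eq_empty_iff]
      intro b hb hp
      exact hq (h0 s hs b hb hp)
    rw [this]
    simp [hq]

theorem cardA {a R L : ℝ} {A : Finset ℝ} (hR : 1 ≤ R) (hA : ∀ x ∈ A, 0 ≤ x ∧ x ≤ 1)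
    (hr : RegA a R L A) : (A.card : ℝ) ≤ L * R ^ a := by
  have h := hr 0 R hR
  have e : A.filter (fun x => |x - 0| ≤ R / R) = A := by
    rw [Finset.filter_eq_self]
    intro x hx
    rw [div_self (by linarith), sub_zero, abs_of_nonneg (hA x hx).1]
    exact (hA x hx).2
  rwa [e] at h

/-- Pairs of cells at distance at most `r`. -/
theorem card_pairs {a L r : ℝ} {T : Finset (ℝ × ℝ)} (hr : 1 ≤ r) (hT : RegT a L T) :
    (((T ×ˢ T).filter fun q => |q.2.1 - q.1.1| ≤ r ∧ |q.2.2 - q.1.2| ≤ r).card : ℝ) ≤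
      (T.card : ℝ) * (L * r ^ (2 * a)) := by
  have h := card_prod_filter_le T T (fun p p' => |p'.1 - p.1| ≤ r ∧ |p'.2 - p.2| ≤ r)
    (fun _ => True) (L * r ^ (2 * a)) (fun p _ _ => hT p r hr) (fun _ _ _ _ _ => trivial)
  have e : T.filter (fun _ => True) = T := Finset.filter_true_of_mem fun _ _ => trivial
  rw [e] at h
  convert h using 3

/-- The class of pairs with small time difference. -/
theorem class0 {a R L : ℝ} {A : Finset ℝ} {T : Finset (ℝ × ℝ)} (ha1 : a ≤ 1)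
    (hR : 1 ≤ R) (hL : 1 ≤ L) (hA : ∀ x ∈ A, 0 ≤ x ∧ x ≤ 1)
    (hTc : (T.card : ℝ) ≤ L * R ^ (2 * a)) (hr : RegA a R L A) (hT : RegT a L T) :
    ((((T ×ˢ T) ×ˢ A).filter fun z => |z.1.1.1 - z.1.2.1| < 1 ∧
      |bb z.2 z.1.1 - bb z.2 z.1.2| < 1).card : ℝ) ≤ 4 * L ^ 3 * R ^ (3 * a) := by
  have h := card_prod_filter_le (T ×ˢ T) A
    (fun q x => |q.1.1 - q.2.1| < 1 ∧ |bb x q.1 - bb x q.2| < 1)
    (fun q => |q.2.1 - q.1.1| ≤ 2 ∧ |q.2.2 - q.1.2| ≤ 2) (L * R ^ a)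
    (fun q _ _ => (Nat.cast_le.2 (Finset.card_filter_le _ _)).trans (cardA hR hA hr))
    (by
      rintro q - x hx ⟨h1, h2⟩
      have hx' := hA x hx
      unfold bb at h2
      rw [abs_lt] at h1 h2
      refine ⟨?_, ?_⟩
      · rw [abs_le]; constructor <;> linarith [h1.1, h1.2]
      · have h3 : |x * (q.1.1 - q.2.1)| ≤ 1 := by
          rw [abs_mul, abs_of_nonneg hx'.1]
          calc x * |q.1.1 - q.2.1| ≤ 1 * 1 :=
                mul_le_mul hx'.2 (abs_le.2 ⟨by linarith [h1.1], by linarith [h1.2]⟩)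
                  (abs_nonneg _) zero_le_one
            _ = 1 := by norm_num
        rw [abs_le] at h3 ⊢
        constructor <;> nlinarith [h3.1, h3.2, h2.1, h2.2])
  have hp := card_pairs (a := a) (L := L) (r := 2) (T := T) (by norm_num) hT
  have hRa : 0 < R ^ a := Real.rpow_pos_of_pos (by linarith) _
  have hR2a : 0 < R ^ (2 * a) := Real.rpow_pos_of_pos (by linarith) _
  have h4 : (2 : ℝ) ^ (2 * a) ≤ 4 := by
    calc (2 : ℝ) ^ (2 * a) ≤ 2 ^ (2 : ℝ) :=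
          Real.rpow_le_rpow_of_exponent_le (by norm_num) (by linarith)
      _ = 4 := by norm_num
  have h4' : (0 : ℝ) < (2 : ℝ) ^ (2 * a) := Real.rpow_pos_of_pos (by norm_num) _
  have e3 : R ^ (3 * a) = R ^ (2 * a) * R ^ a := by
    rw [← Real.rpow_add (by linarith)]; ring_nf
  calc _ ≤ _ := h
    _ ≤ ((T.card : ℝ) * (L * (2 : ℝ) ^ (2 * a))) * (L * R ^ a) :=
        mul_le_mul_of_nonneg_right (by convert hp using 3) (by positivity)
    _ ≤ ((L * R ^ (2 * a)) * (L * 4)) * (L * R ^ a) := by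
        gcongr
    _ = 4 * L ^ 3 * R ^ (3 * a) := by rw [e3]; ring

/-- The class of pairs with time difference between `s` and `t`. -/
theorem classU {a R L s t : ℝ} {A : Finset ℝ} {T : Finset (ℝ × ℝ)} (ha : 0 < a) (ha1 : a ≤ 1)
    (hs0 : 0 < s) (ht : 1 ≤ t) (htR : t ≤ R) (hL : 1 ≤ L) (hA : ∀ x ∈ A, 0 ≤ x ∧ x ≤ 1)
    (hTc : (T.card : ℝ) ≤ L * R ^ (2 * a)) (hr : RegA a R L A) (hT : RegT a L T) :
    ((((T ×ˢ T) ×ˢ A).filter fun z => (1 ≤ |z.1.1.1 - z.1.2.1| ∧ s ≤ |z.1.1.1 - z.1.2.1| ∧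
      |z.1.1.1 - z.1.2.1| ≤ t) ∧ |bb z.2 z.1.1 - bb z.2 z.1.2| < 1).card : ℝ) ≤
        4 * L ^ 3 * R ^ (3 * a) * (t ^ a * t ^ a) / s ^ a := by
  have hR : 1 ≤ R := ht.trans htR
  have ht0 : 0 < t := by linarith
  have hR0 : 0 < R := by linarith
  have h := card_prod_filter_le (T ×ˢ T) A
    (fun q x => (1 ≤ |q.1.1 - q.2.1| ∧ s ≤ |q.1.1 - q.2.1| ∧ |q.1.1 - q.2.1| ≤ t) ∧
      |bb x q.1 - bb x q.2| < 1)
    (fun q => |q.2.1 - q.1.1| ≤ 2 * t ∧ |q.2.2 - q.1.2| ≤ 2 * t) (L * (R / s) ^ a)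
    (by
      rintro q - -
      by_cases hq : 1 ≤ |q.1.1 - q.2.1| ∧ s ≤ |q.1.1 - q.2.1| ∧ |q.1.1 - q.2.1| ≤ t
      · obtain ⟨hq1, hq2, hq3⟩ := hq
        have hd : 0 < |q.1.1 - q.2.1| := by linarith
        have hd' : q.1.1 - q.2.1 ≠ 0 := abs_pos.1 hd
        have h1 : L * (R / |q.1.1 - q.2.1|) ^ a ≤ L * (R / s) ^ a := by
          gcongr
        refine le_trans ?_ ((hr ((q.1.2 - q.2.2) / (q.1.1 - q.2.1)) (R / |q.1.1 - q.2.1|)
          (by rw [le_div_iff₀ hd]; linarith)).trans h1)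
        refine Nat.cast_le.2 (Finset.card_le_card ?_)
        intro x hx
        rw [Finset.mem_filter] at hx ⊢
        refine ⟨hx.1, ?_⟩
        have hb := hx.2.2
        unfold bb at hb
        have e1 : x - (q.1.2 - q.2.2) / (q.1.1 - q.2.1) =
            -((q.1.2 - x * q.1.1 - (q.2.2 - x * q.2.1)) / (q.1.1 - q.2.1)) := by
          field_simp
          ring
        rw [e1, abs_neg, abs_div]
        calc |q.1.2 - x * q.1.1 - (q.2.2 - x * q.2.1)| / |q.1.1 - q.2.1|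
            ≤ 1 / |q.1.1 - q.2.1| := by gcongr
          _ = R / |q.1.1 - q.2.1| / R := by field_simp
      · have : A.filter (fun x => (1 ≤ |q.1.1 - q.2.1| ∧ s ≤ |q.1.1 - q.2.1| ∧
            |q.1.1 - q.2.1| ≤ t) ∧ |bb x q.1 - bb x q.2| < 1) = ∅ := by
          rw [Finset.filter_eq_empty_iff]
          intro x _ hx
          exact hq hx.1
        rw [this]
        simp only [Finset.card_empty, Nat.cast_zero]
        positivity)
    (by
      rintro q - x hx ⟨⟨-, -, h1⟩, h2⟩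
      have hx' := hA x hx
      unfold bb at h2
      rw [abs_le] at h1
      rw [abs_lt] at h2
      refine ⟨?_, ?_⟩
      · rw [abs_le]; constructor <;> linarith [h1.1, h1.2]
      · have h3 : |x * (q.1.1 - q.2.1)| ≤ t := by
          rw [abs_mul, abs_of_nonneg hx'.1]
          calc x * |q.1.1 - q.2.1| ≤ 1 * t :=
                mul_le_mul hx'.2 (abs_le.2 ⟨by linarith [h1.1], by linarith [h1.2]⟩)
                  (abs_nonneg _) zero_le_one
            _ = t := by ring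
        rw [abs_le] at h3 ⊢
        constructor <;> nlinarith [h3.1, h3.2, h2.1, h2.2])
  have hp := card_pairs (a := a) (L := L) (r := 2 * t) (T := T) (by linarith) hT
  have hRa : 0 < R ^ a := Real.rpow_pos_of_pos hR0 _
  have hR2a : 0 < R ^ (2 * a) := Real.rpow_pos_of_pos hR0 _
  have hsa : 0 < s ^ a := Real.rpow_pos_of_pos hs0 _
  have hta : 0 < t ^ a := Real.rpow_pos_of_pos ht0 _
  have h4 : (2 * t) ^ (2 * a) ≤ 4 * (t ^ a * t ^ a) := by
    rw [Real.mul_rpow (by norm_num) ht0.le]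
    have : (2 : ℝ) ^ (2 * a) ≤ 4 := by
      calc (2 : ℝ) ^ (2 * a) ≤ 2 ^ (2 : ℝ) :=
            Real.rpow_le_rpow_of_exponent_le (by norm_num) (by linarith)
        _ = 4 := by norm_num
    have e : t ^ (2 * a) = t ^ a * t ^ a := by
      rw [← Real.rpow_add ht0]; ring_nf
    rw [e]
    gcongr
  have e3 : R ^ (3 * a) = R ^ (2 * a) * R ^ a := by
    rw [← Real.rpow_add hR0]; ring_nf
  have ed : (R / s) ^ a = R ^ a / s ^ a := Real.div_rpow hR0.le hs0.le a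
  calc _ ≤ _ := h
    _ ≤ ((T.card : ℝ) * (L * (2 * t) ^ (2 * a))) * (L * (R / s) ^ a) :=
        mul_le_mul_of_nonneg_right (by convert hp using 3) (by positivity)
    _ ≤ ((L * R ^ (2 * a)) * (L * (4 * (t ^ a * t ^ a)))) * (L * (R / s) ^ a) := by
        gcongr
    _ = 4 * L ^ 3 * R ^ (3 * a) * (t ^ a * t ^ a) / s ^ a := by
        rw [e3, ed]; field_simp

theorem geom_le (n : ℕ) : ∑ i ∈ range n, (1 : ℝ) / 2 ^ i ≤ 2 := by
  have h : ∑ i ∈ range n, (1 : ℝ) / 2 ^ i = 2 - 2 / 2 ^ n := by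
    induction n with
    | zero => norm_num
    | succ n ih =>
      rw [Finset.sum_range_succ, ih, pow_succ]
      have : (0 : ℝ) < 2 ^ n := by positivity
      field_simp
      ring
  rw [h]
  have : (0 : ℝ) ≤ 2 / 2 ^ n := by positivity
  linarith

end XNEARU

open XNEARU in
theorem I_NEARU : StNearU := by
  intro a R L M A T ha ha1 hM hMR hL hA hTc hr hT
  have hR : 1 ≤ R := hM.trans hMR
  have hR0 : 0 < R := by linarith
  have hM0 : 0 < M := by linarith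
  set n : ℕ := ⌈R⌉₊ with hn
  set θ : ℝ := (2 : ℝ) ^ (1 / a) with hθ
  have hθa : θ ^ a = 2 := by
    rw [hθ, ← Real.rpow_mul (by norm_num), one_div_mul_cancel ha.ne', Real.rpow_one]
  have hθ2 : 2 ≤ θ := by
    have h1 : (2 : ℝ) ^ (1 : ℝ) ≤ (2 : ℝ) ^ (1 / a) :=
      Real.rpow_le_rpow_of_exponent_le (by norm_num) (by rw [le_div_iff₀ ha]; linarith)
    rw [Real.rpow_one] at h1
    exact h1
  have hθ0 : 0 < θ := by linarith
  set S0 := ((T ×ˢ T) ×ˢ A).filter fun z : ((ℝ × ℝ) × (ℝ × ℝ)) × ℝ =>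
    |z.1.1.1 - z.1.2.1| < 1 ∧ |bb z.2 z.1.1 - bb z.2 z.1.2| < 1 with hS0
  set Si := fun i : ℕ => ((T ×ˢ T) ×ˢ A).filter fun z : ((ℝ × ℝ) × (ℝ × ℝ)) × ℝ =>
    (1 ≤ |z.1.1.1 - z.1.2.1| ∧ R / M / θ ^ i / θ ≤ |z.1.1.1 - z.1.2.1| ∧
      |z.1.1.1 - z.1.2.1| ≤ R / M / θ ^ i) ∧ |bb z.2 z.1.1 - bb z.2 z.1.2| < 1 with hSi
  have hcov : (((T ×ˢ T) ×ˢ A).filter fun z => |z.1.1.1 - z.1.2.1| < R / M ∧
      |bb z.2 z.1.1 - bb z.2 z.1.2| < 1) ⊆ S0 ∪ (range n).biUnion Si := by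
    intro z hz
    rw [Finset.mem_filter] at hz
    obtain ⟨hz0, hz1, hz2⟩ := hz
    rw [Finset.mem_union]
    by_cases hc : |z.1.1.1 - z.1.2.1| < 1
    · left
      rw [hS0, Finset.mem_filter]
      exact ⟨hz0, hc, hz2⟩
    · right
      rw [not_lt] at hc
      have hc0 : 0 < |z.1.1.1 - z.1.2.1| := by linarith
      have hq1 : 1 ≤ R / M / |z.1.1.1 - z.1.2.1| := by
        rw [le_div_iff₀ hc0]; linarith
      obtain ⟨i, hi1, hi2⟩ := exists_nat_pow_near hq1 (by linarith : (1 : ℝ) < θ)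
      rw [Finset.mem_biUnion]
      have hθi : 0 < θ ^ i := by positivity
      refine ⟨i, ?_, ?_⟩
      · rw [Finset.mem_range, hn, Nat.lt_ceil]
        have h1 : θ ^ i ≤ R := by
          refine hi1.trans ?_
          rw [div_le_iff₀ hc0, div_le_iff₀ hM0]
          have : 1 ≤ |z.1.1.1 - z.1.2.1| * M := by nlinarith
          calc R = R * 1 := by ring
            _ ≤ R * (|z.1.1.1 - z.1.2.1| * M) := by gcongr
            _ = R * |z.1.1.1 - z.1.2.1| * M := by ring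
        have h2 : (2 : ℝ) ^ i ≤ θ ^ i := by gcongr
        have h3 : (i : ℝ) < 2 ^ i := by exact_mod_cast Nat.lt_two_pow_self
        linarith
      · rw [hSi]
        simp only [Finset.mem_filter]
        refine ⟨hz0, ⟨hc, ?_, ?_⟩, hz2⟩
        · rw [div_lt_iff₀ hc0] at hi2
          rw [div_div, ← pow_succ, div_le_iff₀ (by positivity)]
          linarith
        · rw [le_div_iff₀ hc0] at hi1
          rw [le_div_iff₀ hθi]
          linarith
  have hMa : 0 < M ^ a := Real.rpow_pos_of_pos hM0 _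
  have hR3 : 0 < R ^ (3 * a) := Real.rpow_pos_of_pos hR0 _
  have e4 : R ^ (4 * a) = R ^ (3 * a) * R ^ a := by
    rw [← Real.rpow_add hR0]; ring_nf
  have hR4 : 0 < R ^ (4 * a) := Real.rpow_pos_of_pos hR0 _
  have hRM : 0 < R / M := by positivity
  have hcl : ∀ i ∈ range n, ((Si i).card : ℝ) ≤
      8 * L ^ 3 * R ^ (4 * a) / M ^ a * (1 / 2 ^ i) := by
    intro i hi
    have hθi : 0 < θ ^ i := by positivity
    have hθi1 : 1 ≤ θ ^ i := one_le_pow₀ (by linarith)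
    set t := R / M / θ ^ i with ht
    have ht0 : 0 < t := by positivity
    by_cases h1 : 1 ≤ t
    · have htR : t ≤ R := by
        rw [ht, div_div, div_le_iff₀ (by positivity)]
        have : 1 ≤ M * θ ^ i := by nlinarith
        nlinarith
      have h := classU ha ha1 (s := t / θ) (by positivity) h1 htR hL hA hTc hr hT
      refine h.trans (le_of_eq ?_)
      have hta : 0 < t ^ a := Real.rpow_pos_of_pos ht0 _
      have e5 : t ^ a = R ^ a / M ^ a / 2 ^ i := by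
        rw [ht, Real.div_rpow hRM.le hθi.le, Real.div_rpow hR0.le hM0.le, ← Real.rpow_natCast,
          ← Real.rpow_mul hθ0.le, mul_comm (i : ℝ) a, Real.rpow_mul hθ0.le, hθa,
          Real.rpow_natCast]
      rw [Real.div_rpow ht0.le hθ0.le, hθa]
      have e6 : 4 * L ^ 3 * R ^ (3 * a) * (t ^ a * t ^ a) / (t ^ a / 2) =
          8 * L ^ 3 * R ^ (3 * a) * t ^ a := by
        field_simp
        ring
      rw [e6, e5, e4]
      field_simp
    · have : Si i = ∅ := by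
        rw [hSi]
        simp only [Finset.filter_eq_empty_iff]
        rintro z hz ⟨⟨h2, h3, h4⟩, h5⟩
        exact h1 (h2.trans h4)
      rw [this]
      simp only [Finset.card_empty, Nat.cast_zero]
      positivity
  have h0 := class0 ha1 hR hL hA hTc hr hT
  have hb : (((range n).biUnion Si).card : ℝ) ≤ 16 * L ^ 3 * R ^ (4 * a) / M ^ a := by
    have h1 : (((range n).biUnion Si).card : ℝ) ≤ ∑ i ∈ range n, ((Si i).card : ℝ) := by
      exact_mod_cast Finset.card_biUnion_le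
    have h2 := Finset.sum_le_sum hcl
    rw [← Finset.mul_sum] at h2
    calc _ ≤ _ := h1
      _ ≤ _ := h2
      _ ≤ 8 * L ^ 3 * R ^ (4 * a) / M ^ a * 2 :=
          mul_le_mul_of_nonneg_left (geom_le n) (by positivity)
      _ = 16 * L ^ 3 * R ^ (4 * a) / M ^ a := by ring
  have hp1 : 0 ≤ L ^ 3 * R ^ (4 * a) / M ^ a := by positivity
  have hp2 : 0 ≤ L ^ 3 * R ^ (3 * a) := by positivity
  calc _ ≤ ((S0 ∪ (range n).biUnion Si).card : ℝ) := by exact_mod_cast Finset.card_le_card hcov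
    _ ≤ (S0.card : ℝ) + (((range n).biUnion Si).card : ℝ) := by
        exact_mod_cast Finset.card_union_le _ _
    _ ≤ 4 * L ^ 3 * R ^ (3 * a) + 16 * L ^ 3 * R ^ (4 * a) / M ^ a := add_le_add h0 hb
    _ = 4 * (L ^ 3 * R ^ (3 * a)) + 16 * (L ^ 3 * R ^ (4 * a) / M ^ a) := by ring
    _ ≤ 100 * (L ^ 3 * R ^ (4 * a) / M ^ a) + 100 * (L ^ 3 * R ^ (3 * a)) := by linarith
    _ = _ := by ring

end Pool.Agent.Work.MP_e17eac_co.RINGU

end

section

/-!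
# Item PIVU: the pivot argument, uniform version
-/

namespace Pool.Agent.Work.MP_e17eac_co.RINGU

open Finset
open scoped Pointwise
open Pool.Agent.Work.MP_e17eac_co.RING

namespace XPIVU

theorem quad_mono {D : Finset ℝ} {t δ δ' : ℝ} (h : δ ≤ δ') : quad D t δ ⊆ quad D t δ' := by
  intro z hz
  simp only [quad, mem_filter] at hz ⊢
  exact ⟨hz.1, hz.2.trans h⟩

/-- Numerical core of the general estimate. -/
theorem num {X N F L S w P G : ℝ} (hL : 0 < L) (hS : 0 < S) (hX : 0 ≤ X)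
    (hP : P ≤ L ^ 4) (hw : 2 * L ^ 22 * w ≤ 1) (hw0 : 0 ≤ w)
    (hup : X ≤ L ^ 12 * S * (N + F)) (hN : N ≤ L ^ 6 * (X * w) * (P / S))
    (hS2 : S ≤ 2 * L) (hFG : F ≤ G) (hF : 0 ≤ F) :
    X ≤ 4 * L ^ 13 * G := by
  have h1 : L ^ 12 * S * N ≤ X / 2 := by
    calc L ^ 12 * S * N ≤ L ^ 12 * S * (L ^ 6 * (X * w) * (P / S)) := by gcongr
      _ = L ^ 18 * (X * w) * P := by field_simp
      _ ≤ L ^ 18 * (X * w) * L ^ 4 := by gcongr
      _ = X * (L ^ 22 * w) := by ring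
      _ ≤ X * (1 / 2) := by
          apply mul_le_mul_of_nonneg_left _ hX
          linarith
      _ = X / 2 := by ring
  have h2 : L ^ 12 * S * F ≤ L ^ 12 * (2 * L) * G := by
    calc L ^ 12 * S * F ≤ L ^ 12 * (2 * L) * F := by gcongr
      _ ≤ L ^ 12 * (2 * L) * G := by gcongr
  nlinarith [h1, h2, hup]

theorem general (hPN : StPNU) {a R L W s : ℝ} {D : Finset ℝ} (ha : 0 < a) (ha1 : a ≤ 1)
    (hL : 100 ≤ L) (hLW : L ≤ W) (hWa : W ^ a ≤ L) (hR : 1 ≤ R) (hs : 0 < s) (hRs : 1 ≤ R * s)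
    (hD : ∀ c ∈ D, |c| ≤ W)
    (hreg : ∀ c δ : ℝ, 1 ≤ R * δ → ((D.filter fun c' => |c' - c| ≤ δ).card : ℝ) ≤ L * (R * δ) ^ a)
    (hup : ∀ c₁ ∈ D, ∀ c₂ ∈ D, ∀ c₃ ∈ D, ∀ c₄ ∈ D, ∀ d₁ ∈ D, ∀ d₂ ∈ D, 1 ≤ R * |c₃ - c₄| →
      |c₁ - c₂| ≤ 2 * |c₃ - c₄| → |d₁ - d₂| ≤ 2 * |c₃ - c₄| →
      R ^ (3 * a) ≤ L ^ 12 * |c₃ - c₄| ^ a *
        ((quad D ((c₁ - c₂ + (d₁ - d₂)) / (2 * (c₃ - c₄))) (W ^ 4 / (|c₃ - c₄| * R))).card : ℝ))
    (hsa : 2 * L ^ 22 * s ^ a ≤ 1)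
    {c₁ c₂ c₃ c₄ d₁ d₂ : ℝ} (h1 : c₁ ∈ D) (h2 : c₂ ∈ D) (h3 : c₃ ∈ D) (h4 : c₄ ∈ D)
    (h5 : d₁ ∈ D) (h6 : d₂ ∈ D) (h34 : s ≤ |c₃ - c₄|) (h12 : |c₁ - c₂| ≤ 2 * |c₃ - c₄|)
    (h56 : |d₁ - d₂| ≤ 2 * |c₃ - c₄|) :
    R ^ (3 * a) ≤ 4 * L ^ 13 * (((quad D ((c₁ - c₂ + (d₁ - d₂)) / (2 * (c₃ - c₄)))
      ((W ^ 4 / (s ^ 2 * R)) * s)).filter fun z => s ≤ |z.2.1 - z.2.2|).card : ℝ) := by
  have hs1 : 0 < |c₃ - c₄| := lt_of_lt_of_le hs h34
  have hL0 : 0 < L := by linarith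
  have hW1 : 100 ≤ W := hL.trans hLW
  have hW0 : 0 < W := by linarith
  have hR0 : 0 < R := by linarith
  have hs1W : |c₃ - c₄| ≤ 2 * W := by
    have := abs_sub c₃ c₄
    linarith [hD c₃ h3, hD c₄ h4]
  have hW4 : 2 * W ≤ W ^ 4 := by
    have h0 : (2 : ℝ) ≤ W ^ 3 := by
      calc (2 : ℝ) ≤ 100 ^ 3 := by norm_num
        _ ≤ W ^ 3 := by gcongr
    calc 2 * W ≤ W ^ 3 * W := by gcongr
      _ = W ^ 4 := by ring
  have hRδ : R * (W ^ 4 / (|c₃ - c₄| * R)) = W ^ 4 / |c₃ - c₄| := by field_simp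
  have hRδ1 : 1 ≤ R * (W ^ 4 / (|c₃ - c₄| * R)) := by
    rw [hRδ, one_le_div hs1]; linarith
  have hRs1 : 1 ≤ R * |c₃ - c₄| := hRs.trans (by gcongr)
  have hu := hup c₁ h1 c₂ h2 c₃ h3 c₄ h4 d₁ h5 d₂ h6 hRs1 h12 h56
  have hpn := hPN a R L W s ((c₁ - c₂ + (d₁ - d₂)) / (2 * (c₃ - c₄)))
    (W ^ 4 / (|c₃ - c₄| * R)) D ha ha1 (by linarith) (by linarith) hWa hR hRs hRδ1 hD hreg
  rw [hRδ] at hpn
  have hsub : W ^ 4 / (|c₃ - c₄| * R) ≤ (W ^ 4 / (s ^ 2 * R)) * s := by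
    have e : (W ^ 4 / (s ^ 2 * R)) * s = W ^ 4 / (s * R) := by field_simp
    rw [e]
    gcongr
  have hsplit := Finset.card_filter_add_card_filter_not
    (s := quad D ((c₁ - c₂ + (d₁ - d₂)) / (2 * (c₃ - c₄))) (W ^ 4 / (|c₃ - c₄| * R)))
    (fun z => |z.2.1 - z.2.2| < s)
  have hle : ((quad D ((c₁ - c₂ + (d₁ - d₂)) / (2 * (c₃ - c₄)))
      (W ^ 4 / (|c₃ - c₄| * R))).filter fun z => ¬ |z.2.1 - z.2.2| < s).card ≤
      ((quad D ((c₁ - c₂ + (d₁ - d₂)) / (2 * (c₃ - c₄)))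
      ((W ^ 4 / (s ^ 2 * R)) * s)).filter fun z => s ≤ |z.2.1 - z.2.2|).card := by
    apply card_le_card
    intro z hz
    rw [mem_filter] at hz ⊢
    exact ⟨quad_mono hsub hz.1, not_lt.1 hz.2⟩
  have hle' : (((quad D ((c₁ - c₂ + (d₁ - d₂)) / (2 * (c₃ - c₄)))
      (W ^ 4 / (|c₃ - c₄| * R))).filter fun z => ¬ |z.2.1 - z.2.2| < s).card : ℝ) ≤
      (((quad D ((c₁ - c₂ + (d₁ - d₂)) / (2 * (c₃ - c₄)))
      ((W ^ 4 / (s ^ 2 * R)) * s)).filter fun z => s ≤ |z.2.1 - z.2.2|).card : ℝ) := by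
    exact_mod_cast hle
  rw [← hsplit] at hu
  push_cast at hu
  have hR3 : R ^ (3 * a) = R ^ (2 * a) * R ^ a := by
    rw [← Real.rpow_add hR0]; congr 1; ring
  refine num (S := |c₃ - c₄| ^ a) (w := s ^ a) (P := (W ^ 4) ^ a) hL0 (by positivity)
    (by positivity) ?_ hsa (by positivity) hu ?_ ?_ hle' (by positivity)
  · calc (W ^ 4) ^ a = (W ^ a) ^ 4 := by
          rw [← Real.rpow_natCast, ← Real.rpow_natCast, ← Real.rpow_mul hW0.le,
            ← Real.rpow_mul hW0.le, mul_comm]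
      _ ≤ L ^ 4 := by gcongr
  · refine hpn.trans (le_of_eq ?_)
    rw [Real.mul_rpow hR0.le hs.le, Real.div_rpow (by positivity) hs1.le, hR3]
    ring
  · calc |c₃ - c₄| ^ a ≤ (2 * W) ^ a := by
          apply Real.rpow_le_rpow hs1.le hs1W ha.le
      _ = 2 ^ a * W ^ a := Real.mul_rpow (by norm_num) hW0.le
      _ ≤ 2 ^ (1 : ℝ) * L := by
          gcongr
          norm_num
      _ = 2 * L := by rw [Real.rpow_one]

theorem two_points {a R L s : ℝ} {D : Finset ℝ} (hL : 100 ≤ L) (hR : 1 ≤ R) (hs : 0 < s)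
    (hRs : 1 ≤ R * s) (hcard : R ^ a ≤ L * (D.card : ℝ))
    (hreg : ∀ c δ : ℝ, 1 ≤ R * δ → ((D.filter fun c' => |c' - c| ≤ δ).card : ℝ) ≤ L * (R * δ) ^ a)
    (hsa : 2 * L ^ 22 * s ^ a ≤ 1) : ∃ c ∈ D, ∃ d ∈ D, s ≤ |c - d| := by
  by_contra hcon
  push Not at hcon
  have hL0 : 0 < L := by linarith
  have hR0 : 0 < R := by linarith
  have hRa : 0 < R ^ a := Real.rpow_pos_of_pos hR0 a
  have hsa0 : 0 < s ^ a := Real.rpow_pos_of_pos hs a
  have hne : D.Nonempty := by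
    rw [nonempty_iff_ne_empty]
    intro h
    rw [h] at hcard
    simp at hcard
    linarith
  obtain ⟨c0, hc0⟩ := hne
  have h : (D.filter fun c' => |c' - c0| ≤ s) = D :=
    filter_true_of_mem (fun c hc => (hcon c hc c0 hc0).le)
  have h2 := hreg c0 s hRs
  rw [h, Real.mul_rpow hR0.le hs.le] at h2
  have h3 : R ^ a ≤ R ^ a * (L ^ 2 * s ^ a) := by
    calc R ^ a ≤ L * (D.card : ℝ) := hcard
      _ ≤ L * (L * (R ^ a * s ^ a)) := by gcongr
      _ = R ^ a * (L ^ 2 * s ^ a) := by ring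
  have h4 : 1 ≤ L ^ 2 * s ^ a := by
    by_contra h5
    push Not at h5
    have : R ^ a * (L ^ 2 * s ^ a) < R ^ a * 1 := by gcongr
    linarith
  have h6 : L ^ 2 * s ^ a ≤ L ^ 22 * s ^ a := by
    gcongr
    · linarith
    · norm_num
  linarith

theorem natdist {i j : ℕ} (h : i ≠ j) : (1 : ℝ) ≤ |(i : ℝ) - (j : ℝ)| := by
  have h1 : (1 : ℤ) ≤ |(i : ℤ) - (j : ℤ)| := by
    apply Int.one_le_abs
    intro h2
    apply h
    omega
  exact_mod_cast h1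

/-- The final count. -/
theorem count {a R L W s τ : ℝ} {D : Finset ℝ} (hL : 100 ≤ L) (hLW : L ≤ W)
    (hWa : W ^ a ≤ L) (hR : 1 ≤ R) (hs : 0 < s) (hD : ∀ c ∈ D, |c| ≤ W)
    (hreg : ∀ c δ : ℝ, 1 ≤ R * δ → ((D.filter fun c' => |c' - c| ≤ δ).card : ℝ) ≤ L * (R * δ) ^ a)
    (hbig : W ^ 4 * L ^ 22 ≤ s ^ 2 * R ^ (1 - a)) (hτ : τ = W ^ 4 / (s ^ 2 * R)) {m : ℕ}
    (hm : 1 / (8 * τ) < (m : ℝ))
    (h : (m : ℝ) * R ^ (3 * a) ≤ 4 * L ^ 13 * (2 * (D.card : ℝ) ^ 4)) : False := by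
  have hL0 : 0 < L := by linarith
  have hR0 : 0 < R := by linarith
  have hRa : 0 < R ^ a := Real.rpow_pos_of_pos hR0 a
  have hRa3 : 0 < R ^ (3 * a) := Real.rpow_pos_of_pos hR0 _
  have hW1 : 100 ≤ W := hL.trans hLW
  have hW0 : 0 < W := by linarith
  have hcardD : (D.card : ℝ) ≤ L ^ 2 * R ^ a := by
    have h1 := hreg 0 W (by nlinarith)
    have h2 : (D.filter fun c' => |c' - 0| ≤ W) = D :=
      filter_true_of_mem (fun c hc => by rw [sub_zero]; exact hD c hc)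
    rw [h2, Real.mul_rpow hR0.le hW0.le] at h1
    calc (D.card : ℝ) ≤ L * (R ^ a * W ^ a) := h1
      _ ≤ L * (R ^ a * L) := by gcongr
      _ = L ^ 2 * R ^ a := by ring
  have h4 : (R ^ a) ^ 4 = R ^ (3 * a) * R ^ a := by
    rw [← Real.rpow_natCast, ← Real.rpow_mul hR0.le, ← Real.rpow_add hR0]
    congr 1
    push_cast
    ring
  have h5 : (m : ℝ) * R ^ (3 * a) ≤ (8 * L ^ 21 * R ^ a) * R ^ (3 * a) := by
    calc (m : ℝ) * R ^ (3 * a) ≤ 4 * L ^ 13 * (2 * (D.card : ℝ) ^ 4) := h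
      _ ≤ 4 * L ^ 13 * (2 * (L ^ 2 * R ^ a) ^ 4) := by gcongr
      _ = 8 * L ^ 21 * (R ^ a) ^ 4 := by ring
      _ = (8 * L ^ 21 * R ^ a) * R ^ (3 * a) := by rw [h4]; ring
  have h6 : (m : ℝ) ≤ 8 * L ^ 21 * R ^ a := le_of_mul_le_mul_right h5 hRa3
  have h7 : R ^ (1 - a) * R ^ a = R := by
    rw [← Real.rpow_add hR0]
    simp
  have h8 : W ^ 4 * L ^ 22 * R ^ a ≤ s ^ 2 * R := by
    calc W ^ 4 * L ^ 22 * R ^ a ≤ s ^ 2 * R ^ (1 - a) * R ^ a := by gcongr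
      _ = s ^ 2 * R := by rw [mul_assoc, h7]
  have h9 : 1 / (8 * τ) = (s ^ 2 * R) / (8 * W ^ 4) := by
    rw [hτ]; field_simp
  have h10 : L ^ 22 * R ^ a / 8 ≤ (s ^ 2 * R) / (8 * W ^ 4) := by
    rw [div_le_div_iff₀ (by norm_num) (by positivity)]
    linarith [h8]
  have h11 : L ^ 22 * R ^ a / 8 < 8 * L ^ 21 * R ^ a := by
    calc L ^ 22 * R ^ a / 8 ≤ (s ^ 2 * R) / (8 * W ^ 4) := h10
      _ = 1 / (8 * τ) := h9.symm
      _ < m := hm
      _ ≤ _ := h6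
  have h12 : 8 * L ^ 21 * R ^ a ≤ L ^ 22 * R ^ a / 8 := by
    have : 0 < L ^ 21 * R ^ a := by positivity
    have e : L ^ 22 * R ^ a / 8 = (L / 8) * (L ^ 21 * R ^ a) := by ring
    rw [e]
    nlinarith
  linarith

end XPIVU

open XPIVU in
theorem I_PIVU (h1 : StPNU) (h2 : StBis) (h3 : StFar) : StPivU := by
  intro a R L W s D ha ha1 hL hLW hWa hR hs hs1 hcard hD hreg hup hsa hbig
  have hL0 : 0 < L := by linarith
  have hR0 : 0 < R := by linarith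
  have hRa : 0 < R ^ a := Real.rpow_pos_of_pos hR0 a
  have hX : 0 < R ^ (3 * a) := Real.rpow_pos_of_pos hR0 _
  have hR1a : R ^ (1 - a) ≤ R := by
    calc R ^ (1 - a) ≤ R ^ (1 : ℝ) := Real.rpow_le_rpow_of_exponent_le hR (by linarith)
      _ = R := Real.rpow_one _
  have hW0 : 0 < W := by linarith
  have h26 : W ^ 4 * L ^ 22 ≤ s ^ 2 * R := hbig.trans (by gcongr)
  have hL26 : (1 : ℝ) ≤ W ^ 4 * L ^ 22 := by
    have hw : (1 : ℝ) ≤ W ^ 4 := one_le_pow₀ (by linarith)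
    have hl : (1 : ℝ) ≤ L ^ 22 := one_le_pow₀ (by linarith)
    nlinarith
  have hRs : 1 ≤ R * s := by
    calc (1 : ℝ) ≤ s ^ 2 * R := hL26.trans h26
      _ = R * s * s := by ring
      _ ≤ R * s * 1 := by gcongr
      _ = R * s := by ring
  have hs2R : 0 < s ^ 2 * R := by positivity
  obtain ⟨τ, hτ⟩ : ∃ τ : ℝ, τ = W ^ 4 / (s ^ 2 * R) := ⟨_, rfl⟩
  have hτ0 : 0 < τ := by rw [hτ]; positivity
  have hτ4 : τ ≤ 1 / 4 := by
    rw [hτ, div_le_div_iff₀ hs2R (by norm_num)]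
    have : 4 * W ^ 4 ≤ W ^ 4 * L ^ 22 := by
      have h22 : (4 : ℝ) ≤ L ^ 22 := by
        calc (4 : ℝ) ≤ 100 ^ 22 := by norm_num
          _ ≤ L ^ 22 := by gcongr
      calc 4 * W ^ 4 ≤ L ^ 22 * W ^ 4 := by gcongr
        _ = W ^ 4 * L ^ 22 := by ring
    linarith
  have gen : ∀ {c₁ c₂ c₃ c₄ d₁ d₂ : ℝ}, c₁ ∈ D → c₂ ∈ D → c₃ ∈ D → c₄ ∈ D → d₁ ∈ D → d₂ ∈ D →
      s ≤ |c₃ - c₄| → |c₁ - c₂| ≤ 2 * |c₃ - c₄| → |d₁ - d₂| ≤ 2 * |c₃ - c₄| →
      R ^ (3 * a) ≤ 4 * L ^ 13 * (((quad D ((c₁ - c₂ + (d₁ - d₂)) / (2 * (c₃ - c₄)))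
        (τ * s)).filter fun z => s ≤ |z.2.1 - z.2.2|).card : ℝ) := by
    intro c₁ c₂ c₃ c₄ d₁ d₂ m1 m2 m3 m4 m5 m6 k1 k2 k3
    rw [hτ]
    exact general h1 ha ha1 hL hLW hWa hR hs hRs hD hreg hup hsa m1 m2 m3 m4 m5 m6 k1 k2 k3
  obtain ⟨Q, hQ⟩ : ∃ Q : Set ℝ, Q = {q | ∃ c₁ ∈ D, ∃ c₂ ∈ D, ∃ c₃ ∈ D, ∃ c₄ ∈ D,
    s ≤ |c₃ - c₄| ∧ q = (c₁ - c₂) / (c₃ - c₄)} := ⟨_, rfl⟩
  obtain ⟨c, hc, d, hd, hcd⟩ := two_points hL hR hs hRs hcard hreg hsa
  have hcd0 : c - d ≠ 0 := by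
    intro h
    rw [h, abs_zero] at hcd
    linarith
  have hQ0 : (0 : ℝ) ∈ Q := by
    rw [hQ]
    exact ⟨c, hc, c, hc, c, hc, d, hd, hcd, by simp⟩
  have hQ1 : (1 : ℝ) ∈ Q := by
    rw [hQ]
    exact ⟨c, hc, d, hd, c, hc, d, hd, hcd, by rw [div_self hcd0]⟩
  have near : ∀ t : ℝ, R ^ (3 * a) ≤ 4 * L ^ 13 * (((quad D t
        (τ * s)).filter fun z => s ≤ |z.2.1 - z.2.2|).card : ℝ) → ∃ q' ∈ Q, |q' - t| ≤ τ := by
    intro t ht
    have hne : ((quad D t (τ * s)).filter fun z => s ≤ |z.2.1 - z.2.2|).Nonempty := by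
      rw [nonempty_iff_ne_empty]
      intro h
      rw [h] at ht
      simp at ht
      linarith
    obtain ⟨z, hz⟩ := hne
    simp only [quad, mem_filter, mem_product] at hz
    obtain ⟨⟨⟨⟨z1, z2⟩, ⟨z3, z4⟩⟩, hz1⟩, hz2⟩ := hz
    have hpos : 0 < |z.2.1 - z.2.2| := lt_of_lt_of_le hs hz2
    have hne' : z.2.1 - z.2.2 ≠ 0 := abs_pos.1 hpos
    refine ⟨(z.1.2 - z.1.1) / (z.2.1 - z.2.2), ?_, ?_⟩
    · rw [hQ]
      exact ⟨_, z2, _, z1, _, z3, _, z4, hz2, rfl⟩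
    · have e : (z.1.2 - z.1.1) / (z.2.1 - z.2.2) - t =
          -((z.1.1 - z.1.2 + t * (z.2.1 - z.2.2)) / (z.2.1 - z.2.2)) := by
        field_simp
        ring
      rw [e, abs_neg, abs_div, div_le_iff₀ hpos]
      exact hz1.trans (by gcongr)
  have bis := h2 Q τ hτ0 hτ4 hQ0 hQ1 (by
    intro q hq hq1 hq2
    have hq' := hq
    rw [hQ] at hq'
    obtain ⟨c₁, m1, c₂, m2, c₃, m3, c₄, m4, h34, rfl⟩ := hq'
    have hpos : 0 < |c₃ - c₄| := lt_of_lt_of_le hs h34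
    have hne' : c₃ - c₄ ≠ 0 := abs_pos.1 hpos
    have h12 : |c₁ - c₂| ≤ 2 * |c₃ - c₄| := by
      have : |(c₁ - c₂) / (c₃ - c₄)| ≤ 2 := abs_le.2 ⟨by linarith, hq2⟩
      rwa [abs_div, div_le_iff₀ hpos] at this
    constructor
    · have h := near _ (gen m1 m2 m3 m4 m1 m1 h34 h12 (by simp))
      have e : (c₁ - c₂ + (c₁ - c₁)) / (2 * (c₃ - c₄)) = (c₁ - c₂) / (c₃ - c₄) / 2 := by
        field_simp
        ring
      rwa [e] at h
    · have h := near _ (gen m1 m2 m3 m4 m3 m4 h34 h12 (by linarith))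
      have e : (c₁ - c₂ + (c₃ - c₄)) / (2 * (c₃ - c₄)) = ((c₁ - c₂) / (c₃ - c₄) + 1) / 2 := by
        field_simp
      rwa [e] at h)
  have hex : ∀ i : ℕ, ∃ q : ℝ, 8 * τ * i ≤ 1 → q ∈ Q ∧ |q - 8 * τ * i| ≤ 3 * τ := by
    intro i
    by_cases hi : 8 * τ * i ≤ 1
    · obtain ⟨q, hq, hq1⟩ := bis (8 * τ * i) (by positivity) hi
      exact ⟨q, fun _ => ⟨hq, hq1⟩⟩
    · exact ⟨0, fun h => absurd h hi⟩
  choose t ht using hex
  have hm1 : ∀ i < ⌊1 / (8 * τ)⌋₊ + 1, 8 * τ * (i : ℝ) ≤ 1 := by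
    intro i hi
    have h : (i : ℝ) ≤ 1 / (8 * τ) := by
      have h' : i ≤ ⌊1 / (8 * τ)⌋₊ := by omega
      calc (i : ℝ) ≤ (⌊1 / (8 * τ)⌋₊ : ℝ) := by exact_mod_cast h'
        _ ≤ 1 / (8 * τ) := Nat.floor_le (by positivity)
    rw [le_div_iff₀ (by positivity)] at h
    linarith
  have far := h3 s τ (⌊1 / (8 * τ)⌋₊ + 1) t D hs hτ0 (by
    intro i hi j hj hij
    have k1 := (ht i (hm1 i hi)).2
    have k2 := (ht j (hm1 j hj)).2
    have k3 := natdist hij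
    have k4 : 8 * τ ≤ |8 * τ * (i : ℝ) - 8 * τ * (j : ℝ)| := by
      rw [← mul_sub, abs_mul, abs_of_pos (by positivity : 0 < 8 * τ)]
      nlinarith
    have e : 8 * τ * (i : ℝ) - 8 * τ * (j : ℝ) =
        -(t i - 8 * τ * (i : ℝ)) + (t i - t j) + (t j - 8 * τ * (j : ℝ)) := by ring
    have k5 : |8 * τ * (i : ℝ) - 8 * τ * (j : ℝ)| ≤
        |t i - 8 * τ * (i : ℝ)| + |t i - t j| + |t j - 8 * τ * (j : ℝ)| := by
      rw [e]
      refine (abs_add_le _ _).trans ?_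
      gcongr
      refine (abs_add_le _ _).trans ?_
      rw [abs_neg]
    linarith)
  have each : ∀ i ∈ range (⌊1 / (8 * τ)⌋₊ + 1), R ^ (3 * a) ≤ 4 * L ^ 13 *
      (((quad D (t i) (τ * s)).filter fun z => s ≤ |z.2.1 - z.2.2|).card : ℝ) := by
    intro i hi
    rw [mem_range] at hi
    obtain ⟨k1, k2⟩ := ht i (hm1 i hi)
    have k3 := hm1 i hi
    have k4 : 0 ≤ 8 * τ * (i : ℝ) := by positivity
    obtain ⟨k5, k6⟩ := abs_le.1 k2
    have k7 : |t i| ≤ 2 := abs_le.2 ⟨by linarith, by linarith⟩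
    rw [hQ] at k1
    obtain ⟨c₁, m1, c₂, m2, c₃, m3, c₄, m4, h34, hti⟩ := k1
    have hpos : 0 < |c₃ - c₄| := lt_of_lt_of_le hs h34
    have hne' : c₃ - c₄ ≠ 0 := abs_pos.1 hpos
    have h12 : |c₁ - c₂| ≤ 2 * |c₃ - c₄| := by
      rw [hti, abs_div, div_le_iff₀ hpos] at k7
      exact k7
    have h := gen m1 m2 m3 m4 m1 m2 h34 h12 h12
    have e : (c₁ - c₂ + (c₁ - c₂)) / (2 * (c₃ - c₄)) = t i := by
      rw [hti]
      field_simp
      ring
    rwa [e] at h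
  have hsum := Finset.sum_le_sum each
  rw [sum_const, card_range, nsmul_eq_mul, ← mul_sum] at hsum
  refine count hL hLW hWa hR hs hD hreg hbig hτ (m := ⌊1 / (8 * τ)⌋₊ + 1) ?_ ?_
  · push_cast
    exact Nat.lt_floor_add_one _
  · refine hsum.trans ?_
    gcongr

end Pool.Agent.Work.MP_e17eac_co.RINGU

end

section

/-!
# Basic monotonicity facts for the block SKM
-/

namespace Pool.Agent.Work.MP_e17eac_co.SK

open Finset
open Pool.Agent.Work.MP_e17eac_co.DH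
open Pool.Agent.Work.MP_e17eac_co.B1

variable {ι : Type} [Fintype ι] [DecidableEq ι]

theorem Rg.mono {K : KSys ι} {r m : ℕ} {H D : ℝ} {C C' : ℕ} (h : Rg K r m H D C)
    (hC : C' ≤ C) : Rg K r m H D C' := by
  have h2 : (1 : ℝ) ≤ D := by linarith [h.two]
  have hr : (1 : ℝ) ≤ (r : ℝ) := by
    have := h.std.two
    exact_mod_cast (by omega : 1 ≤ r)
  refine ⟨h.std, h.gp, h.two, h.H_le, h.log_le, ?_, ?_⟩
  · exact (pow_le_pow_right₀ h2 hC).trans h.rD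
  · refine le_trans ?_ h.nN
    exact mul_le_mul_of_nonneg_left (pow_le_pow_right₀ hr hC) (by positivity)

theorem Rg.pow {K : KSys ι} {r m : ℕ} {H D : ℝ} {C j C' : ℕ} (h : Rg K r m H D C)
    (hj : 1 ≤ j) (hC : j * C' ≤ C) : Rg K r m H (D ^ j) C' := by
  have h2 : (1 : ℝ) ≤ D := by linarith [h.two]
  have h3 : D ≤ D ^ j := by
    calc D = D ^ 1 := (pow_one D).symm
      _ ≤ D ^ j := pow_le_pow_right₀ h2 hj
  have h4 : C' ≤ C := le_trans (Nat.le_mul_of_pos_left C' (by omega)) hC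
  refine ⟨h.std, h.gp, h.two.trans h3, h.H_le.trans h3, h.log_le.trans h3, ?_, (h.mono h4).nN⟩
  rw [← pow_mul]
  exact (h.mono hC).rD

theorem Rg.one_le {K : KSys ι} {r m : ℕ} {H D : ℝ} {C : ℕ} (h : Rg K r m H D C) : 1 ≤ D := by
  linarith [h.two]

theorem Rg.N_pos {K : KSys ι} {r m : ℕ} {H D : ℝ} {C : ℕ} (h : Rg K r m H D C) : 0 < K.N := by
  have h1 := h.std.pow
  have h2 : 0 < r ^ (4 * m) := by
    have := h.std.two
    positivity
  omega

theorem Rg.card {K : KSys ι} {r m : ℕ} {H D : ℝ} {C : ℕ} (h : Rg K r m H D C) :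
    2 ≤ Fintype.card ι := by
  have h0 : K.a 0 ≠ K.b 0 := by
    intro he
    have := K.x_lt 0 h.N_pos
    rw [he] at this
    exact lt_irrefl _ this
  have : Nontrivial ι := ⟨⟨_, _, h0⟩⟩
  have := Fintype.one_lt_card (α := ι)
  omega

/-- `n^4 <= D^3 N^3`. -/
theorem Rg.dense {K : KSys ι} {r m : ℕ} {H D : ℝ} {C : ℕ} (h : Rg K r m H D C) :
    (Fintype.card ι : ℝ) ^ 4 ≤ D ^ 3 * (K.N : ℝ) ^ 3 := by
  have h1 := h.std.dense
  have hn : (0 : ℝ) ≤ (Fintype.card ι : ℝ) := by positivity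
  have e : ((Fintype.card ι : ℝ) ^ ((4 : ℝ) / 3)) ^ 3 = (Fintype.card ι : ℝ) ^ 4 := by
    rw [← Real.rpow_natCast, ← Real.rpow_mul hn, ← Real.rpow_natCast]
    norm_num
  rw [← e, ← mul_pow]
  apply pow_le_pow_left₀ (by positivity)
  refine h1.trans ?_
  exact mul_le_mul_of_nonneg_right h.H_le (by positivity)

theorem ts_mono {K : KSys ι} {r m : ℕ} {H D D' : ℝ} {P : Finset ι} {E : Bool → Finset ℕ}
    (h : TS K r m H D P E) (hD : D ≤ D') : TS K r m H D' P E := by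
  refine ⟨h.hyg, h.aP, h.sub, ?_, ?_⟩
  · intro s p hp
    refine (h.deg s p hp).trans ?_
    gcongr
  · refine h.big.trans ?_
    gcongr

theorem ts_nonempty {K : KSys ι} {r m : ℕ} {H D : ℝ} {P : Finset ι} {E : Bool → Finset ℕ}
    (h : TS K r m H D P E) (hn : 0 < Fintype.card ι) : P.Nonempty := by
  by_contra h0
  rw [not_nonempty_iff_eq_empty] at h0
  have h1 := h.big
  rw [h0] at h1
  simp only [card_empty, Nat.cast_zero, mul_zero] at h1
  have : (0 : ℝ) < (Fintype.card ι : ℝ) := by exact_mod_cast hn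
  linarith

omit [Fintype ι] [DecidableEq ι] in
theorem subts_refl (P : Finset ι) (E : Bool → Finset ℕ) : SubTS P E P E :=
  ⟨Subset.refl _, fun _ => Subset.refl _⟩

omit [Fintype ι] [DecidableEq ι] in
theorem subts_trans {P P' P'' : Finset ι} {E E' E'' : Bool → Finset ℕ}
    (h : SubTS P' E' P E) (h' : SubTS P'' E'' P' E') : SubTS P'' E'' P E :=
  ⟨h'.1.trans h.1, fun s => (h'.2 s).trans (h.2 s)⟩

/-- Classes are inherited by subsets of the edges, with larger losses. -/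
theorem Cls.inh {K : KSys ι} {r m : ℕ} {H : ℝ} {x : ℕ} {D D' : ℝ} {E E' : Bool → Finset ℕ}
    {κ : ι → ℕ} (h : Cls K r m H x D E κ) (hD : D ≤ D') (hE : ∀ s, E' s ⊆ E s) :
    Cls K r m H x D' E' κ := by
  refine ⟨h.key, fun s i hi => h.h1 s i (hE s hi), ?_, fun s i hi => h.h5 s i (hE s hi)⟩
  intro s B
  have h1 := h.h4 s B
  have h2 : ((((E' s).filter (fun i => κ (K.a i) = B)).image (cell K r x)).card : ℝ) ≤
      ((((E s).filter (fun i => κ (K.a i) = B)).image (cell K r x)).card : ℝ) := by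
    exact_mod_cast card_le_card (image_subset_image (filter_subset_filter _ (hE s)))
  have h3 : D * (r : ℝ) ^ x ≤ D' * (r : ℝ) ^ x := by gcongr
  linarith

theorem Stab.mono {K : KSys ι} {r m : ℕ} {H D D' : ℝ} {P : Finset ι} {E : Bool → Finset ℕ}
    {κ : ι → ℕ} (h : Stab K r m H D' P E κ) (hD : D ≤ D') : Stab K r m H D P E κ :=
  fun P' E' h1 h2 => h P' E' h1 (ts_mono h2 hD)

/-- Stability of substructures which are themselves structures. -/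
theorem Stab.sub {K : KSys ι} {r m : ℕ} {H D : ℝ} {P P' : Finset ι} {E E' : Bool → Finset ℕ}
    {κ : ι → ℕ} (h : Stab K r m H D P E κ) (hs : SubTS P' E' P E) : Stab K r m H D P' E' κ := by
  intro P'' E'' h1 h2
  refine le_trans ?_ (h P'' E'' (subts_trans hs h1) h2)
  exact card_le_card (image_subset_image hs.1)

theorem Un_mono {K : KSys ι} {r x : ℕ} {κ : ι → ℕ} {E E' : Finset ℕ} (h : E' ⊆ E) :
    Un K r x κ E' ≤ Un K r x κ E := card_le_card (image_subset_image h)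

omit [Fintype ι] [DecidableEq ι] in
theorem image_card_mono {κ : ι → ℕ} {P P' : Finset ι} (h : P' ⊆ P) :
    (P'.image κ).card ≤ (P.image κ).card := card_le_card (image_subset_image h)

end Pool.Agent.Work.MP_e17eac_co.SK

end
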