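import Pool.Agent.Work.MP_e17eac_co.Bd.B19
import Pool.Agent.Work.MP_e17eac_co.Bd.B30

/-! Bundle of small proof modules (one section per former module). -/

section

/-!
# Block B1 (note 2870), item AV: choice of one line in every unit
-/

set_option autoImplicit false

namespace Pool.Agent.Work.MP_e17eac_co.B1

open Finset
open Pool.Agent.Work.MP_e17eac_co.DH

namespace XAV

/-- The edges of `F` whose cell is visited by the line `p`. -/
def G {ι : Type} [DecidableEq ι] (F : Finset ℕ) (a : ℕ → ι) (c : ℕ → ℕ) (p : ι) : Finset ℕ :=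
  F.filter (fun i => ∃ j ∈ F, a j = p ∧ c j = c i)

theorem sum_G {ι : Type} [DecidableEq ι] (F : Finset ℕ) (a : ℕ → ι) (c : ℕ → ℕ) :
    ∑ p ∈ F.image a, (G F a c p).card =
      ∑ w ∈ F.image c, (F.filter (fun i => c i = w)).card *
        ((F.filter (fun i => c i = w)).image a).card := by
  have h1 : ∀ p ∈ F.image a, (G F a c p).card =
      ∑ i ∈ F, if p ∈ (F.filter (fun j => c j = c i)).image a then 1 else 0 := by
    intro p _
    unfold G
    rw [card_filter]
    refine sum_congr rfl fun i _ => ?_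
    refine if_congr ?_ rfl rfl
    simp only [mem_image, mem_filter]
    constructor
    · rintro ⟨j, h1, h2, h3⟩
      exact ⟨j, ⟨h1, h3⟩, h2⟩
    · rintro ⟨j, ⟨h1, h3⟩, h2⟩
      exact ⟨j, h1, h2, h3⟩
  rw [sum_congr rfl h1, sum_comm]
  have h2 : ∀ i ∈ F, (∑ p ∈ F.image a,
      if p ∈ (F.filter (fun j => c j = c i)).image a then 1 else 0) =
      (fun w => ((F.filter (fun j => c j = w)).image a).card) (c i) := by
    intro i _
    simp only
    rw [← card_filter]
    congr 1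
    ext p
    simp only [mem_filter, mem_image]
    constructor
    · rintro ⟨_, h⟩
      exact h
    · rintro ⟨j, ⟨h1, h3⟩, h2⟩
      exact ⟨⟨j, h1, h2⟩, ⟨j, ⟨h1, h3⟩, h2⟩⟩
  rw [sum_congr rfl h2, sum_comp (fun w => ((F.filter (fun j => c j = w)).image a).card) c]
  refine sum_congr rfl fun w _ => ?_
  rw [smul_eq_mul]

theorem unit {ι : Type} [DecidableEq ι] (F : Finset ℕ) (hF : F.Nonempty) (a : ℕ → ι) (c : ℕ → ℕ)
    (A B T N1 D1 : ℝ) (hA : 0 < A) (hT : 0 < T) (hD : 0 < D1)
    (h1 : ∀ i ∈ F, ((F.filter (fun j => a j = a i ∧ c j = c i)).card : ℝ) * A ≤ B)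
    (h2 : ∀ i ∈ F, N1 ≤ D1 * ((F.filter (fun j => a j = a i)).card : ℝ))
    (h3 : ((F.image c).card : ℝ) ≤ T) :
    ∃ p ∈ F.image a, (F.card : ℝ) * A * N1 ≤ B * T * D1 * ((G F a c p).card : ℝ) := by
  by_contra hc
  push Not at hc
  have hS : ∑ p ∈ F.image a, B * T * D1 * ((G F a c p).card : ℝ) <
      ∑ _p ∈ F.image a, (F.card : ℝ) * A * N1 :=
    sum_lt_sum_of_nonempty (hF.image a) hc
  rw [← mul_sum, sum_const, nsmul_eq_mul] at hS
  -- number of lines
  have hL : ((F.image a).card : ℝ) * N1 ≤ D1 * F.card := by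
    have e1 : (F.card : ℝ) = ∑ p ∈ F.image a, ((F.filter (fun j => a j = p)).card : ℝ) := by
      rw [← Nat.cast_sum, ← card_eq_sum_card_image a F]
    rw [e1, mul_sum, ← nsmul_eq_mul, ← sum_const]
    refine sum_le_sum fun p hp => ?_
    obtain ⟨i, hi, rfl⟩ := mem_image.1 hp
    exact h2 i hi
  have hF0 : (0 : ℝ) ≤ F.card := Nat.cast_nonneg _
  -- cells
  have hcell : ∀ w ∈ F.image c, ((F.filter (fun i => c i = w)).card : ℝ) * A ≤
      B * (((F.filter (fun i => c i = w)).image a).card : ℝ) := by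
    intro w _
    have e1 : ((F.filter (fun i => c i = w)).card : ℝ) =
        ∑ p ∈ (F.filter (fun i => c i = w)).image a,
          (((F.filter (fun i => c i = w)).filter (fun j => a j = p)).card : ℝ) := by
      rw [← Nat.cast_sum, ← card_eq_sum_card_image a (F.filter (fun i => c i = w))]
    rw [e1, sum_mul, mul_comm B, ← nsmul_eq_mul, ← sum_const]
    refine sum_le_sum fun p hp => ?_
    obtain ⟨i, hi, rfl⟩ := mem_image.1 hp
    obtain ⟨hiF, hiw⟩ := mem_filter.1 hi
    have e2 := h1 i hiF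
    have e3 : (F.filter (fun i => c i = w)).filter (fun j => a j = a i) =
        F.filter (fun j => a j = a i ∧ c j = c i) := by
      ext j
      simp only [mem_filter, hiw]
      tauto
    rw [e3]
    exact e2
  have hsq : (F.card : ℝ) ^ 2 ≤ T * ∑ w ∈ F.image c, ((F.filter (fun i => c i = w)).card : ℝ) ^ 2 := by
    have e1 : (F.card : ℝ) = ∑ w ∈ F.image c, ((F.filter (fun j => c j = w)).card : ℝ) := by
      rw [← Nat.cast_sum, ← card_eq_sum_card_image c F]
    calc (F.card : ℝ) ^ 2 = (∑ w ∈ F.image c, ((F.filter (fun j => c j = w)).card : ℝ)) ^ 2 := by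
          rw [← e1]
      _ ≤ (F.image c).card * ∑ w ∈ F.image c, ((F.filter (fun i => c i = w)).card : ℝ) ^ 2 :=
          sq_sum_le_card_mul_sum_sq
      _ ≤ T * ∑ w ∈ F.image c, ((F.filter (fun i => c i = w)).card : ℝ) ^ 2 :=
          mul_le_mul_of_nonneg_right h3 (sum_nonneg fun w _ => sq_nonneg _)
  have hBG : A * ∑ w ∈ F.image c, ((F.filter (fun i => c i = w)).card : ℝ) ^ 2 ≤
      B * ∑ p ∈ F.image a, ((G F a c p).card : ℝ) := by
    have e1 : ∑ p ∈ F.image a, ((G F a c p).card : ℝ) =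
        ∑ w ∈ F.image c, ((F.filter (fun i => c i = w)).card : ℝ) *
        (((F.filter (fun i => c i = w)).image a).card : ℝ) := by
      have := sum_G F a c
      exact_mod_cast this
    rw [e1, mul_sum, mul_sum]
    refine sum_le_sum fun w hw => ?_
    have e2 := hcell w hw
    have e3 : (0 : ℝ) ≤ ((F.filter (fun i => c i = w)).card : ℝ) := Nat.cast_nonneg _
    nlinarith [mul_le_mul_of_nonneg_left e2 e3]
  set S := ∑ w ∈ F.image c, ((F.filter (fun i => c i = w)).card : ℝ) ^ 2 with hSdef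
  set Γ := ∑ p ∈ F.image a, ((G F a c p).card : ℝ) with hΓ
  have k1 : ((F.image a).card : ℝ) * ((F.card : ℝ) * A * N1) ≤ F.card * A * (D1 * F.card) := by
    calc ((F.image a).card : ℝ) * ((F.card : ℝ) * A * N1) =
        F.card * A * (((F.image a).card : ℝ) * N1) := by ring
      _ ≤ F.card * A * (D1 * F.card) := mul_le_mul_of_nonneg_left hL (by positivity)
  have k2 : F.card * A * (D1 * F.card) ≤ B * T * D1 * Γ := by
    calc F.card * A * (D1 * F.card) = A * D1 * (F.card : ℝ) ^ 2 := by ring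
      _ ≤ A * D1 * (T * S) := mul_le_mul_of_nonneg_left hsq (by positivity)
      _ = T * D1 * (A * S) := by ring
      _ ≤ T * D1 * (B * Γ) := mul_le_mul_of_nonneg_left hBG (by positivity)
      _ = B * T * D1 * Γ := by ring
  linarith

theorem main {ι υ : Type} [Fintype ι] [DecidableEq ι] [DecidableEq υ] (K : KSys ι)
    (r m x z : ℕ) (hr : 1 ≤ r) (hzx : z ≤ x) (hxm : x ≤ m) (H D : ℝ) (hH : 0 < H) (hD : 0 < D)
    (hN : 0 < K.N) (u : ℕ → υ) (E : Finset ℕ) (hyg : ∀ i ∈ E, Hyg K r m H i)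
    (hu : ∀ i ∈ E, ∀ j ∈ E, K.a i = K.a j → cell K r z i = cell K r z j → u i = u j)
    (hdeg : ∀ i ∈ E, (K.N : ℝ) ≤ D * Fintype.card ι * (r : ℝ) ^ z *
      ((E.filter (fun j => K.a j = K.a i ∧ cell K r z j = cell K r z i)).card : ℝ))
    (hcells : ∀ i ∈ E, (((E.filter (fun j => u j = u i)).image (cell K r x)).card : ℝ) ≤
      D * (r : ℝ) ^ (x - z)) :
    ∃ pf : υ → ι, (∀ i ∈ E, ∃ j ∈ E, u j = u i ∧ K.a j = pf (u i)) ∧
    (E.card : ℝ) ≤ H * D ^ 2 * ((E.filter (fun i => ∃ j ∈ E, u j = u i ∧ K.a j = pf (u i) ∧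
      cell K r x j = cell K r x i)).card : ℝ) := by
  classical
  have hr0 : (0 : ℝ) < r := by exact_mod_cast hr
  have hN0 : (0 : ℝ) < K.N := by exact_mod_cast hN
  have hn0 : (0 : ℝ) < Fintype.card ι := by
    have : Nonempty ι := ⟨K.a 0⟩
    exact_mod_cast Fintype.card_pos
  have key : ∀ U : υ, ∃ p : ι, U ∈ E.image u →
      p ∈ (E.filter (fun i => u i = U)).image K.a ∧
      ((E.filter (fun i => u i = U)).card : ℝ) ≤
        H * D ^ 2 * ((G (E.filter (fun i => u i = U)) K.a (cell K r x) p).card : ℝ) := by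
    intro U
    by_cases hU : U ∈ E.image u
    · obtain ⟨i0, hi0, hi0U⟩ := mem_image.1 hU
      set F := E.filter (fun i => u i = U) with hF
      have hFne : F.Nonempty := ⟨i0, mem_filter.2 ⟨hi0, hi0U⟩⟩
      have q1 : ∀ i ∈ F, ((F.filter (fun j => K.a j = K.a i ∧
          cell K r x j = cell K r x i)).card : ℝ) * (Fintype.card ι * (r : ℝ) ^ x) ≤
          H * K.N := by
        intro i hi
        have e1 := (hyg i (mem_filter.1 hi).1).light false x hxm
        refine le_trans ?_ e1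
        refine mul_le_mul_of_nonneg_right ?_ (by positivity)
        exact_mod_cast card_le_card (fun j hj => by
          obtain ⟨hjF, hj1, hj2⟩ := mem_filter.1 hj
          exact mem_filter.2 ⟨mem_range.2 (hyg j (mem_filter.1 hjF).1).lt, hj1, hj2⟩)
      have q2 : ∀ i ∈ F, (K.N : ℝ) ≤ D * Fintype.card ι * (r : ℝ) ^ z *
          ((F.filter (fun j => K.a j = K.a i)).card : ℝ) := by
        intro i hi
        obtain ⟨hiE, hiU⟩ := mem_filter.1 hi
        refine le_trans (hdeg i hiE) ?_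
        refine mul_le_mul_of_nonneg_left ?_ (by positivity)
        exact_mod_cast card_le_card (fun j hj => by
          obtain ⟨hjE, hj1, hj2⟩ := mem_filter.1 hj
          exact mem_filter.2 ⟨mem_filter.2 ⟨hjE, (hu j hjE i hiE hj1 hj2).trans hiU⟩, hj1⟩)
      have q3 : ((F.image (cell K r x)).card : ℝ) ≤ D * (r : ℝ) ^ (x - z) := by
        have e1 := hcells i0 hi0
        rw [hi0U] at e1
        exact e1
      obtain ⟨p, hp, hpb⟩ := unit F hFne K.a (cell K r x) (Fintype.card ι * (r : ℝ) ^ x)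
        (H * K.N) (D * (r : ℝ) ^ (x - z)) K.N (D * Fintype.card ι * (r : ℝ) ^ z)
        (by positivity) (by positivity) (by positivity) q1 q2 q3
      refine ⟨p, fun _ => ⟨hp, ?_⟩⟩
      have hrr : (r : ℝ) ^ (x - z) * (r : ℝ) ^ z = (r : ℝ) ^ x := by
        rw [← pow_add, Nat.sub_add_cancel hzx]
      have e1 : (F.card : ℝ) * (Fintype.card ι * (r : ℝ) ^ x) * K.N =
          (Fintype.card ι * (r : ℝ) ^ x * K.N) * F.card := by ring
      have e2 : H * K.N * (D * (r : ℝ) ^ (x - z)) * (D * Fintype.card ι * (r : ℝ) ^ z) *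
          ((G F K.a (cell K r x) p).card : ℝ) =
          (Fintype.card ι * (r : ℝ) ^ x * K.N) *
            (H * D ^ 2 * ((G F K.a (cell K r x) p).card : ℝ)) := by
        rw [← hrr]
        ring
      rw [e1, e2] at hpb
      exact le_of_mul_le_mul_left hpb (by positivity)
    · exact ⟨K.a 0, fun h => absurd h hU⟩
  choose pf hpf using key
  refine ⟨pf, ?_, ?_⟩
  · intro i hi
    obtain ⟨h1, -⟩ := hpf (u i) (mem_image_of_mem u hi)
    obtain ⟨j, hj, hja⟩ := mem_image.1 h1
    obtain ⟨hjE, hju⟩ := mem_filter.1 hj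
    exact ⟨j, hjE, hju, hja⟩
  · set R := E.filter (fun i => ∃ j ∈ E, u j = u i ∧ K.a j = pf (u i) ∧
      cell K r x j = cell K r x i) with hR
    have e1 : (E.card : ℝ) = ∑ U ∈ E.image u, ((E.filter (fun j => u j = U)).card : ℝ) := by
      rw [← Nat.cast_sum, ← card_eq_sum_card_image u E]
    have e2 : (R.card : ℝ) = ∑ U ∈ E.image u, ((R.filter (fun j => u j = U)).card : ℝ) := by
      rw [← Nat.cast_sum, ← card_eq_sum_card_fiberwise (f := u) (s := R) (t := E.image u)]
      intro i hi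
      exact mem_image_of_mem u (mem_filter.1 (mem_coe.1 hi)).1
    rw [e1, e2, mul_sum]
    refine sum_le_sum fun U hU => ?_
    obtain ⟨-, h2⟩ := hpf U hU
    refine h2.trans (mul_le_mul_of_nonneg_left ?_ (by positivity))
    exact_mod_cast card_le_card (fun i hi => by
      obtain ⟨hiF, j, hjF, hj1, hj2⟩ := mem_filter.1 hi
      obtain ⟨hiE, hiU⟩ := mem_filter.1 hiF
      obtain ⟨hjE, hjU⟩ := mem_filter.1 hjF
      refine mem_filter.2 ⟨mem_filter.2 ⟨hiE, j, hjE, hjU.trans hiU.symm, ?_, hj2⟩, hiU⟩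
      rw [hiU]
      exact hj1)

end XAV

theorem I_AV : StAV :=
  fun _ _ _ _ _ K r m x z hr hzx hxm H D hH hD hN u E hyg hu hdeg hcells =>
    XAV.main K r m x z hr hzx hxm H D hH hD hN u E hyg hu hdeg hcells

end Pool.Agent.Work.MP_e17eac_co.B1

end

section

/-!
# MP_e17eac_co, block B1, item CELL (helper81)
-/

set_option autoImplicit false

namespace Pool.Agent.Work.MP_e17eac_co.B1

open Finset
open Pool.Agent.Work.MP_e17eac_co.DH

namespace XCELL

/-- The first index of a cell. -/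
def pp (N R c : ℕ) : ℕ := min N ((c * N + R - 1) / R)

theorem lt_pp {N R : ℕ} (hR : 1 ≤ R) (c i : ℕ) : i < pp N R c ↔ i < N ∧ i * R < c * N := by
  unfold pp
  rw [lt_min_iff, Nat.lt_iff_add_one_le (n := (c * N + R - 1) / R),
    Nat.le_div_iff_mul_le (by omega), add_mul, one_mul]
  constructor
  · rintro ⟨h1, h2⟩
    exact ⟨h1, by omega⟩
  · rintro ⟨h1, h2⟩
    exact ⟨h1, by omega⟩

theorem mem_iff {N R : ℕ} (hR : 1 ≤ R) (c i : ℕ) :
    (i < N ∧ i * R / N = c) ↔ (pp N R c ≤ i ∧ i < pp N R (c + 1)) := by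
  rw [lt_pp hR, ← not_lt, lt_pp hR]
  constructor
  · rintro ⟨h1, h2⟩
    have hN : 0 < N := by omega
    have h3 : c ≤ i * R / N := h2.ge
    have h4 : i * R / N < c + 1 := by omega
    rw [Nat.le_div_iff_mul_le hN] at h3
    rw [Nat.div_lt_iff_lt_mul hN] at h4
    exact ⟨fun h => absurd h.2 (by omega), h1, h4⟩
  · rintro ⟨h1, h2, h3⟩
    have hN : 0 < N := by omega
    have h4 : c * N ≤ i * R := by
      by_contra h
      exact h1 ⟨h2, by omega⟩
    refine ⟨h2, le_antisymm ?_ ?_⟩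
    · have := (Nat.div_lt_iff_lt_mul hN).2 h3
      omega
    · exact (Nat.le_div_iff_mul_le hN).2 h4

end XCELL

open XCELL in
theorem I_CELL : StCell := by
  intro ι _ _ K r x hr
  have hR : 1 ≤ r ^ (4 * x) := Nat.one_le_pow _ _ hr
  have hce : ∀ c, ce K r x c = Ico (pp K.N (r ^ (4 * x)) c) (pp K.N (r ^ (4 * x)) (c + 1)) := by
    intro c
    ext i
    rw [Finset.mem_Ico, ← mem_iff hR, ce, Finset.mem_filter, Finset.mem_range]
    rfl
  refine ⟨?_, ?_, ?_, ?_, ?_, ?_⟩
  · intro i hi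
    unfold cell
    have hN : 0 < K.N := by omega
    rw [Nat.div_lt_iff_lt_mul hN, mul_comm (r ^ (4 * x))]
    exact Nat.mul_lt_mul_of_pos_right hi hR
  · intro i j hij
    exact Nat.div_le_div_right (Nat.mul_le_mul_right _ hij)
  · intro z hz i
    unfold cell
    have e : r ^ (4 * x) = r ^ (4 * z) * r ^ (4 * (x - z)) := by
      rw [← pow_add]
      congr 1
      omega
    rw [e, ← mul_assoc, Nat.div_div_eq_div_mul,
      Nat.mul_div_mul_right _ _ (Nat.one_le_pow _ _ hr)]
  · intro i hi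
    unfold cell
    rw [mul_zero, pow_zero, mul_one]
    exact Nat.div_eq_of_lt hi
  · intro c
    rcases (ce K r x c).eq_empty_or_nonempty with h | h
    · rw [h]
      simp
    · rw [hce c] at h ⊢
      rw [Nat.card_Ico]
      rw [Finset.nonempty_Ico] at h
      set P := pp K.N (r ^ (4 * x)) c with hP
      set Q := pp K.N (r ^ (4 * x)) (c + 1) with hQ
      have h1 : P < Q ∧ P ≤ P := ⟨h, le_rfl⟩
      have h2 : ¬ (P < pp K.N (r ^ (4 * x)) c) := by rw [← hP]; exact lt_irrefl _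
      have h3 : Q - 1 < pp K.N (r ^ (4 * x)) (c + 1) := by rw [← hQ]; omega
      rw [lt_pp hR] at h2 h3
      have h4 : P < pp K.N (r ^ (4 * x)) (c + 1) := by rw [← hQ]; exact h
      rw [lt_pp hR] at h4
      have h5 : c * K.N ≤ P * r ^ (4 * x) := by
        by_contra h5
        exact h2 ⟨h4.1, by omega⟩
      have h6 : (Q - P) * r ^ (4 * x) + P * r ^ (4 * x) = (Q - 1) * r ^ (4 * x) +
          r ^ (4 * x) := by
        rw [← add_mul, ← Nat.succ_mul]
        congr 1
        omega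
      have h7 := h3.2
      rw [add_mul, one_mul] at h7
      omega
  · refine ⟨pp K.N (r ^ (4 * x)), fun c => pp K.N (r ^ (4 * x)) (c + 1), hce, ?_, ?_, ?_⟩
    · intro c
      unfold pp
      exact min_le_min le_rfl (Nat.div_le_div_right (by
        have : c * K.N ≤ (c + 1) * K.N := Nat.mul_le_mul_right _ (Nat.le_succ c)
        omega))
    · intro c
      exact min_le_left _ _
    · intro c c' hcc
      show pp K.N (r ^ (4 * x)) (c + 1) ≤ pp K.N (r ^ (4 * x)) c'
      unfold pp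
      exact min_le_min le_rfl (Nat.div_le_div_right (by
        have : (c + 1) * K.N ≤ c' * K.N := Nat.mul_le_mul_right _ hcc
        omega))

end Pool.Agent.Work.MP_e17eac_co.B1

end

section

/-!
# Arbitrary sets, B-1, item (P2): units with relatively typical lines visited in all cells
-/

namespace Pool.Agent.Work.MP_e17eac_co.B1

open Finset
open Pool.Agent.Work.MP_e17eac_co.DH
open Pool.Agent.Work.MP_e17eac_co.DH.XSWEEP (GP)

namespace XP2

variable {ι : Type} [Fintype ι] [DecidableEq ι]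

/-- The cells of level `x` in the cell `c` of level `z` visited by `p`. -/
def Fil (K : KSys ι) (r z c x : ℕ) (p : ι) : Finset ℕ :=
  (range (r ^ (4 * x))).filter (fun w => w / r ^ (4 * (x - z)) = c ∧ p ∈ vis K r x w)

lemma count (K : KSys ι) (r m z x : ℕ) (H : ℝ) (PR : Finset (ℕ × ℕ))
    (h : ∀ w ∈ PR, w.1 < r ^ (4 * x) ∧ w.2 < r ^ (4 * x) ∧
      w.2 / r ^ (4 * (x - z)) = w.1 / r ^ (4 * (x - z)) ∧
      w.1 / r ^ (4 * (x - z)) < r ^ (4 * z)) :
    ∑ w ∈ PR, ((PSr K r m H z (w.1 / r ^ (4 * (x - z)))).filter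
      (fun p => p ∈ vis K r x w.1 ∧ p ∈ vis K r x w.2)).card ≤
    ∑ c ∈ range (r ^ (4 * z)), ∑ p ∈ PSr K r m H z c, (Wr K r z c x p) ^ 2 := by
  classical
  rw [← card_sigma]
  have e : ∑ c ∈ range (r ^ (4 * z)), ∑ p ∈ PSr K r m H z c, (Wr K r z c x p) ^ 2 =
      ((range (r ^ (4 * z))).sigma (fun c => (PSr K r m H z c).sigma
        (fun p => Fil K r z c x p ×ˢ Fil K r z c x p))).card := by
    rw [card_sigma]
    refine sum_congr rfl fun c _ => ?_
    rw [card_sigma]
    refine sum_congr rfl fun p _ => ?_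
    rw [card_product, ← pow_two]
    rfl
  rw [e]
  refine card_le_card_of_injOn (fun a => ⟨a.1.1 / r ^ (4 * (x - z)), ⟨a.2, a.1⟩⟩) ?_ ?_
  · intro a ha
    have ha' := mem_coe.1 ha
    rw [mem_sigma] at ha'
    obtain ⟨h1, h2⟩ := ha'
    rw [mem_filter] at h2
    obtain ⟨h3, h4, h5⟩ := h2
    obtain ⟨g1, g2, g3, g4⟩ := h _ h1
    refine mem_coe.2 (mem_sigma.2 ⟨mem_range.2 g4, mem_sigma.2 ⟨h3, mem_product.2 ⟨?_, ?_⟩⟩⟩)
    · exact mem_filter.2 ⟨mem_range.2 g1, rfl, h4⟩
    · exact mem_filter.2 ⟨mem_range.2 g2, g3, h5⟩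
  · rintro ⟨w, p⟩ _ ⟨w', p'⟩ _ hh
    simp only [Sigma.mk.injEq, heq_eq_eq] at hh
    obtain ⟨_, h2, h3⟩ := hh
    subst h2
    subst h3
    rfl

end XP2

open XP2 in
theorem I_P2 (hC : StCell) (hT : StT2c) (hX : StX) : StP2 := by
  classical
  obtain ⟨C, hC1, hT'⟩ := hT
  refine ⟨16384 * C, by linarith, ?_⟩
  intro ι υ _ _ _ K hx hg r m x z hr hzx hxm H hH u V E hE hhyg hu hV hbig R M hR
  have hn : (0 : ℝ) ≤ (Fintype.card ι : ℝ) := Nat.cast_nonneg _
  have hr1 : (1 : ℝ) ≤ (r : ℝ) := by exact_mod_cast hr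
  have hr0 : (0 : ℝ) < (r : ℝ) := by linarith
  have hC0 : (0 : ℝ) ≤ C := by linarith
  rcases lt_or_ge M 0 with hM | hM
  · have h1 : M * (E.card : ℝ) ^ 3 * (r : ℝ) ^ (4 * x + z) ≤ 0 := by
      have h2 : 0 ≤ (E.card : ℝ) ^ 3 * (r : ℝ) ^ (4 * x + z) := by positivity
      rw [mul_assoc]
      exact mul_nonpos_of_nonpos_of_nonneg hM.le h2
    refine h1.trans ?_
    positivity
  have e0 := hX ι υ K hx r x hr H hH u V E hE (fun i hi => (hhyg i hi).crowd x hxm) hV hbig
  obtain ⟨c1, c2, c3, _⟩ := hC ι K r x hr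
  obtain ⟨d1, _⟩ := hC ι K r z hr
  -- the realised pairs
  have hPR : ∀ w ∈ (XU K u E).image (fun z => (cell K r x z.1, cell K r x z.2)),
      (w.1 < r ^ (4 * x) ∧ w.2 < r ^ (4 * x) ∧
      w.2 / r ^ (4 * (x - z)) = w.1 / r ^ (4 * (x - z)) ∧
      w.1 / r ^ (4 * (x - z)) < r ^ (4 * z)) ∧
      M ≤ (((PSr K r m H z (w.1 / r ^ (4 * (x - z)))).filter
        (fun p => p ∈ vis K r x w.1 ∧ p ∈ vis K r x w.2)).card : ℝ) := by
    intro w hw
    obtain ⟨⟨i, j⟩, hz, rfl⟩ := mem_image.1 hw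
    have hz1 : (i ∈ E ∧ j ∈ E) ∧ u i = u j := by
      unfold XU crossPairs at hz
      simp only [mem_filter, mem_product] at hz
      exact ⟨hz.1.1, hz.2⟩
    obtain ⟨⟨hi, hj⟩, huij⟩ := hz1
    have hiN : i < K.N := mem_range.1 (hE hi)
    have hjN : j < K.N := mem_range.1 (hE hj)
    have hcz : cell K r z i = cell K r z j := hu i hi j hj huij
    have a1 : cell K r x i / r ^ (4 * (x - z)) = cell K r z i := (c3 z hzx i).symm
    have a2 : cell K r x j / r ^ (4 * (x - z)) = cell K r z j := (c3 z hzx j).symm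
    refine ⟨⟨c1 i hiN, c1 j hjN, ?_, ?_⟩, ?_⟩
    · show cell K r x j / r ^ (4 * (x - z)) = cell K r x i / r ^ (4 * (x - z))
      rw [a1, a2, hcz]
    · show cell K r x i / r ^ (4 * (x - z)) < r ^ (4 * z)
      rw [a1]
      exact d1 i hiN
    · show M ≤ (((PSr K r m H z (cell K r x i / r ^ (4 * (x - z)))).filter
        (fun p => p ∈ vis K r x (cell K r x i) ∧ p ∈ vis K r x (cell K r x j))).card : ℝ)
      rw [a1]
      obtain ⟨b1, b2, b3⟩ := hR i hi
      obtain ⟨_, _, b4⟩ := hR j hj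
      rw [← huij] at b4
      refine b1.trans ?_
      have h3 : R (u i) ⊆ (PSr K r m H z (cell K r z i)).filter
          (fun p => p ∈ vis K r x (cell K r x i) ∧ p ∈ vis K r x (cell K r x j)) := by
        intro p hp
        exact mem_filter.2 ⟨b2 hp, b3 hp, b4 hp⟩
      exact_mod_cast card_le_card h3
  have e1 : M * (((XU K u E).image (fun z => (cell K r x z.1, cell K r x z.2))).card : ℝ) ≤
      ∑ c ∈ range (r ^ (4 * z)), ∑ p ∈ PSr K r m H z c, (Wr K r z c x p : ℝ) ^ 2 := by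
    have h1 := count K r m z x H _ (fun w hw => (hPR w hw).1)
    have h2 : (∑ w ∈ (XU K u E).image (fun z => (cell K r x z.1, cell K r x z.2)),
        (((PSr K r m H z (w.1 / r ^ (4 * (x - z)))).filter
        (fun p => p ∈ vis K r x w.1 ∧ p ∈ vis K r x w.2)).card : ℝ)) ≤
        ∑ c ∈ range (r ^ (4 * z)), ∑ p ∈ PSr K r m H z c, (Wr K r z c x p : ℝ) ^ 2 := by
      exact_mod_cast h1
    refine le_trans ?_ h2
    have h3 := card_nsmul_le_sum ((XU K u E).image (fun z => (cell K r x z.1, cell K r x z.2)))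
      (fun w => (((PSr K r m H z (w.1 / r ^ (4 * (x - z)))).filter
        (fun p => p ∈ vis K r x w.1 ∧ p ∈ vis K r x w.2)).card : ℝ)) M
      (fun w hw => (hPR w hw).2)
    rw [nsmul_eq_mul, mul_comm] at h3
    exact h3
  have e2 : ∑ c ∈ range (r ^ (4 * z)), ∑ p ∈ PSr K r m H z c, (Wr K r z c x p : ℝ) ^ 2 ≤
      (H * (r : ℝ) ^ (x - z)) ^ 2 * (C * Fintype.card ι * (r : ℝ) ^ z) := by
    have t1 := (hT' ι K hx hg r z hr).1
    calc ∑ c ∈ range (r ^ (4 * z)), ∑ p ∈ PSr K r m H z c, (Wr K r z c x p : ℝ) ^ 2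
        ≤ ∑ c ∈ range (r ^ (4 * z)), ((vis K r z c).card : ℝ) * (H * (r : ℝ) ^ (x - z)) ^ 2 := by
          refine sum_le_sum fun c _ => ?_
          have h1 : ∑ p ∈ PSr K r m H z c, (Wr K r z c x p : ℝ) ^ 2 ≤
              ((PSr K r m H z c).card : ℝ) * (H * (r : ℝ) ^ (x - z)) ^ 2 := by
            rw [← nsmul_eq_mul]
            refine sum_le_card_nsmul _ _ _ fun p hp => ?_
            unfold PSr at hp
            rw [mem_filter] at hp
            exact pow_le_pow_left₀ (Nat.cast_nonneg _) (hp.2 x hzx hxm) 2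
          have h2 : ((PSr K r m H z c).card : ℝ) ≤ ((vis K r z c).card : ℝ) := by
            have h3 : (PSr K r m H z c) ⊆ vis K r z c := by
              unfold PSr
              exact filter_subset _ _
            exact_mod_cast card_le_card h3
          exact h1.trans (mul_le_mul_of_nonneg_right h2 (by positivity))
      _ = (H * (r : ℝ) ^ (x - z)) ^ 2 * ∑ c ∈ range (r ^ (4 * z)), ((vis K r z c).card : ℝ) := by
          rw [mul_sum]
          exact sum_congr rfl fun c _ => mul_comm _ _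
      _ ≤ (H * (r : ℝ) ^ (x - z)) ^ 2 * (C * Fintype.card ι * (r : ℝ) ^ z) :=
          mul_le_mul_of_nonneg_left t1 (by positivity)
  -- conclusion
  have hA : (0 : ℝ) ≤ 16384 * ((∑ U ∈ E.image u, V U : ℕ) : ℝ) ^ 2 * H ^ 2 *
      (Fintype.card ι : ℝ) ^ 2 := by positivity
  have e3 : M * ((E.card : ℝ) ^ 3 * (r : ℝ) ^ (6 * x)) ≤
      16384 * ((∑ U ∈ E.image u, V U : ℕ) : ℝ) ^ 2 * H ^ 2 * (Fintype.card ι : ℝ) ^ 2 *
      ((H * (r : ℝ) ^ (x - z)) ^ 2 * (C * Fintype.card ι * (r : ℝ) ^ z)) := by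
    calc M * ((E.card : ℝ) ^ 3 * (r : ℝ) ^ (6 * x))
        ≤ M * (16384 * ((∑ U ∈ E.image u, V U : ℕ) : ℝ) ^ 2 * H ^ 2 *
          (Fintype.card ι : ℝ) ^ 2 *
          (((XU K u E).image (fun z => (cell K r x z.1, cell K r x z.2))).card : ℝ)) :=
          mul_le_mul_of_nonneg_left e0 hM
      _ = 16384 * ((∑ U ∈ E.image u, V U : ℕ) : ℝ) ^ 2 * H ^ 2 * (Fintype.card ι : ℝ) ^ 2 *
          (M * (((XU K u E).image (fun z => (cell K r x z.1, cell K r x z.2))).card : ℝ)) := by
          ring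
      _ ≤ _ := mul_le_mul_of_nonneg_left (e1.trans e2) hA
  obtain ⟨k, rfl⟩ := Nat.exists_eq_add_of_le hzx
  have hk : z + k - z = k := by omega
  rw [hk] at e3
  have hpos : (0 : ℝ) < (r : ℝ) ^ (z + 2 * k) := by positivity
  refine le_of_mul_le_mul_right ?_ hpos
  have p1 : (r : ℝ) ^ (6 * (z + k)) = (r : ℝ) ^ (4 * (z + k) + z) * (r : ℝ) ^ (z + 2 * k) := by
    rw [← pow_add]
    congr 1
    ring
  have p2 : ((r : ℝ) ^ k) ^ 2 * (r : ℝ) ^ z = (r : ℝ) ^ (z + 2 * k) := by
    rw [← pow_mul, ← pow_add]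
    congr 1
    ring
  calc M * (E.card : ℝ) ^ 3 * (r : ℝ) ^ (4 * (z + k) + z) * (r : ℝ) ^ (z + 2 * k)
      = M * ((E.card : ℝ) ^ 3 * (r : ℝ) ^ (6 * (z + k))) := by rw [p1]; ring
    _ ≤ _ := e3
    _ = 16384 * C * H ^ 4 * (Fintype.card ι : ℝ) ^ 3 *
        ((∑ U ∈ E.image u, V U : ℕ) : ℝ) ^ 2 * (((r : ℝ) ^ k) ^ 2 * (r : ℝ) ^ z) := by ring
    _ = _ := by rw [p2]

end Pool.Agent.Work.MP_e17eac_co.B1

end

section

/-!
# Item TS: two-sided structures, monotonicity and restriction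
-/

namespace Pool.Agent.Work.MP_e17eac_co.B1

open Finset
open Pool.Agent.Work.MP_e17eac_co.DH

namespace XTS

variable {ι : Type} [Fintype ι] [DecidableEq ι]

/-- The number of edges at a line splits along a subset. -/
theorem split (K : KSys ι) (E E' : Finset ℕ) (h : E' ⊆ E) (p : ι) :
    ((E.filter (fun i => K.a i = p)).card : ℝ) =
      ((E'.filter (fun i => K.a i = p)).card : ℝ) +
      (((E \ E').filter (fun i => K.a i = p)).card : ℝ) := by
  have h1 : E.filter (fun i => K.a i = p) =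
      E'.filter (fun i => K.a i = p) ∪ (E \ E').filter (fun i => K.a i = p) := by
    rw [← filter_union, union_sdiff_of_subset h]
  have h2 : Disjoint (E'.filter (fun i => K.a i = p)) ((E \ E').filter (fun i => K.a i = p)) :=
    disjoint_filter_filter disjoint_sdiff
  rw [h1, card_union_of_disjoint h2]
  push_cast
  rfl

/-- Restricting to a set of lines does not change the edges at a line of the set. -/
theorem filt (K : KSys ι) (E : Finset ℕ) (P : Finset ι) (p : ι) (hp : p ∈ P) :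
    (E.filter (fun i => K.a i ∈ P)).filter (fun i => K.a i = p) =
      E.filter (fun i => K.a i = p) := by
  ext i
  simp only [mem_filter]
  constructor
  · rintro ⟨⟨h1, _⟩, h3⟩
    exact ⟨h1, h3⟩
  · rintro ⟨h1, h3⟩
    exact ⟨⟨h1, h3 ▸ hp⟩, h3⟩

/-- Half of the degree survives. -/
theorem half {N D n c c1 c2 : ℝ} (h1 : N ≤ D * n * c) (h2 : c = c1 + c2)
    (h3 : 2 * D * n * c2 ≤ N) : N ≤ 2 * D * n * c1 := by
  subst h2
  nlinarith

/-- The number of bad lines for one side. -/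
theorem bad (K : KSys ι) (F : Finset ℕ) (D : ℝ) (hD : 4 ≤ D) (hN : 0 < K.N)
    (hF : D ^ 4 * (F.card : ℝ) ≤ K.N) (B : Finset ι)
    (hB : ∀ p ∈ B, (K.N : ℝ) ≤ 2 * D * Fintype.card ι *
      ((F.filter (fun i => K.a i = p)).card : ℝ)) :
    D * (B.card : ℝ) ≤ (Fintype.card ι : ℝ) / 8 := by
  have hN' : (0 : ℝ) < K.N := by exact_mod_cast hN
  have h1 : ∑ p ∈ B, ((F.filter (fun i => K.a i = p)).card : ℝ) ≤ (F.card : ℝ) := by
    rw [← Nat.cast_sum]
    have h2 : ∑ p ∈ B, (F.filter (fun i => K.a i = p)).card ≤ F.card := by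
      rw [← card_biUnion]
      · exact card_le_card (by
          intro i hi
          rw [mem_biUnion] at hi
          obtain ⟨p, _, hi⟩ := hi
          exact (mem_filter.mp hi).1)
      · intro p _ q _ hpq
        rw [Function.onFun, disjoint_left]
        intro i hi hj
        exact hpq ((mem_filter.mp hi).2.symm.trans (mem_filter.mp hj).2)
    exact_mod_cast h2
  have h3 : (B.card : ℝ) * K.N ≤ 2 * D * Fintype.card ι * (F.card : ℝ) := by
    calc (B.card : ℝ) * K.N = ∑ p ∈ B, (K.N : ℝ) := by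
          rw [sum_const, nsmul_eq_mul]
      _ ≤ ∑ p ∈ B, 2 * D * Fintype.card ι * ((F.filter (fun i => K.a i = p)).card : ℝ) :=
          sum_le_sum hB
      _ = 2 * D * Fintype.card ι * ∑ p ∈ B, ((F.filter (fun i => K.a i = p)).card : ℝ) := by
          rw [mul_sum]
      _ ≤ 2 * D * Fintype.card ι * (F.card : ℝ) := by
          apply mul_le_mul_of_nonneg_left h1
          positivity
  have hn : (0 : ℝ) ≤ Fintype.card ι := Nat.cast_nonneg _
  have h4 : D ^ 4 * ((B.card : ℝ) * K.N) ≤ 2 * D * Fintype.card ι * K.N := by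
    calc D ^ 4 * ((B.card : ℝ) * K.N) ≤ D ^ 4 * (2 * D * Fintype.card ι * (F.card : ℝ)) := by
          apply mul_le_mul_of_nonneg_left h3
          positivity
      _ = 2 * D * Fintype.card ι * (D ^ 4 * (F.card : ℝ)) := by ring
      _ ≤ 2 * D * Fintype.card ι * K.N := by
          apply mul_le_mul_of_nonneg_left hF
          positivity
  have h5 : D ^ 3 * (B.card : ℝ) ≤ 2 * Fintype.card ι := by
    have h6 : (D * K.N) * (D ^ 3 * (B.card : ℝ)) ≤ (D * K.N) * (2 * Fintype.card ι) := by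
      calc (D * K.N) * (D ^ 3 * (B.card : ℝ)) = D ^ 4 * ((B.card : ℝ) * K.N) := by ring
        _ ≤ 2 * D * Fintype.card ι * K.N := h4
        _ = (D * K.N) * (2 * Fintype.card ι) := by ring
    exact le_of_mul_le_mul_left h6 (by positivity)
  have hb : (0 : ℝ) ≤ D * (B.card : ℝ) := by positivity
  have h7 : (16 : ℝ) * (D * (B.card : ℝ)) ≤ D ^ 3 * (B.card : ℝ) := by
    have h8 : (16 : ℝ) ≤ D ^ 2 := by nlinarith
    calc (16 : ℝ) * (D * (B.card : ℝ)) ≤ D ^ 2 * (D * (B.card : ℝ)) :=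
          mul_le_mul_of_nonneg_right h8 hb
      _ = D ^ 3 * (B.card : ℝ) := by ring
  linarith

end XTS

theorem I_TSmono : StTSmono := by
  intro ι _ _ K r m H D D' P E hD h
  refine ⟨h.hyg, h.aP, h.sub, ?_, ?_⟩
  · intro s p hp
    refine (h.deg s p hp).trans ?_
    apply mul_le_mul_of_nonneg_right _ (Nat.cast_nonneg _)
    exact mul_le_mul_of_nonneg_right hD (Nat.cast_nonneg _)
  · exact h.big.trans (mul_le_mul_of_nonneg_right hD (Nat.cast_nonneg _))

theorem I_TS3 : StTS3 := by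
  intro ι _ _ K r m H D P E E' hD h hE hdel
  refine ⟨fun s i hi => h.hyg s i (hE s hi), fun s i hi => h.aP s i (hE s hi), h.sub, ?_, ?_⟩
  · intro s p hp
    exact XTS.half (h.deg s p hp) (XTS.split K (E s) (E' s) (hE s) p) (hdel s p hp)
  · refine h.big.trans (mul_le_mul_of_nonneg_right ?_ (Nat.cast_nonneg _))
    linarith

theorem I_TS2 : StTS2 := by
  intro ι _ _ K r m H D D' P P' E hD hD' h hP hc
  refine ⟨fun s i hi => h.hyg s i (mem_filter.mp hi).1, fun s i hi => (mem_filter.mp hi).2,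
    hP.trans h.sub, ?_, ?_⟩
  · intro s p hp
    rw [XTS.filt K (E s) P' p hp]
    refine (h.deg s p (hP hp)).trans ?_
    apply mul_le_mul_of_nonneg_right _ (Nat.cast_nonneg _)
    apply mul_le_mul_of_nonneg_right _ (Nat.cast_nonneg _)
    exact le_mul_of_one_le_right hD hD'
  · calc (Fintype.card ι : ℝ) ≤ D * P.card := h.big
      _ ≤ D * (D' * P'.card) := mul_le_mul_of_nonneg_left hc hD
      _ = D * D' * P'.card := by ring

open Classical in
theorem I_TS1 : StTS1 := by
  intro ι _ _ K r m H D P E E' hD hN h hE hdel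
  have hn : (0 : ℝ) ≤ Fintype.card ι := Nat.cast_nonneg _
  let P' : Finset ι := P.filter (fun p => ∀ s, 2 * D * Fintype.card ι *
    (((E s \ E' s).filter (fun i => K.a i = p)).card : ℝ) ≤ K.N)
  let B : Bool → Finset ι := fun s => P.filter (fun p => ¬ (2 * D * Fintype.card ι *
    (((E s \ E' s).filter (fun i => K.a i = p)).card : ℝ) ≤ K.N))
  have hP' : P' ⊆ P := filter_subset _ _
  have hB : ∀ s, D * ((B s).card : ℝ) ≤ (Fintype.card ι : ℝ) / 8 := by
    intro s
    apply XTS.bad K (E s \ E' s) D hD hN (hdel s) (B s)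
    intro p hp
    exact (not_le.mp (mem_filter.mp hp).2).le
  have hcov : P ⊆ P' ∪ (B true ∪ B false) := by
    intro p hp
    by_cases h1 : p ∈ B true
    · exact mem_union_right _ (mem_union_left _ h1)
    by_cases h2 : p ∈ B false
    · exact mem_union_right _ (mem_union_right _ h2)
    apply mem_union_left
    refine mem_filter.mpr ⟨hp, ?_⟩
    intro s
    cases s with
    | true =>
      by_contra h3
      exact h1 (mem_filter.mpr ⟨hp, h3⟩)
    | false =>
      by_contra h3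
      exact h2 (mem_filter.mpr ⟨hp, h3⟩)
  have hcard : (P.card : ℝ) ≤ (P'.card : ℝ) + (((B true).card : ℝ) + ((B false).card : ℝ)) := by
    have h1 : P.card ≤ P'.card + ((B true).card + (B false).card) :=
      (card_le_card hcov).trans ((card_union_le _ _).trans
        (Nat.add_le_add_left (card_union_le _ _) _))
    exact_mod_cast h1
  refine ⟨P', hP', ?_, fun s i hi => (mem_filter.mp hi).2, hP'.trans h.sub, ?_, ?_⟩
  · exact fun s i hi => h.hyg s i (hE s (mem_filter.mp hi).1)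
  · intro s p hp
    rw [XTS.filt K (E' s) P' p hp]
    have h1 := XTS.half (h.deg s p (hP' hp)) (XTS.split K (E s) (E' s) (hE s) p)
      ((mem_filter.mp hp).2 s)
    have h2 : (0 : ℝ) ≤ D * Fintype.card ι *
        ((((E' s).filter (fun i => K.a i = p)).card : ℕ) : ℝ) := by
      have : (0 : ℝ) ≤ D := by linarith
      positivity
    calc (K.N : ℝ) ≤ 2 * D * Fintype.card ι *
          ((((E' s).filter (fun i => K.a i = p)).card : ℕ) : ℝ) := h1
      _ ≤ 4 * D * Fintype.card ι *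
          ((((E' s).filter (fun i => K.a i = p)).card : ℕ) : ℝ) := by linarith
  · have h0 := h.big
    have h1 := hB true
    have h2 := hB false
    have h3 : D * (P.card : ℝ) ≤
        D * ((P'.card : ℝ) + (((B true).card : ℝ) + ((B false).card : ℝ))) :=
      mul_le_mul_of_nonneg_left hcard (by linarith)
    have h4 : (0 : ℝ) ≤ D * (P'.card : ℝ) := by
      have : (0 : ℝ) ≤ D := by linarith
      positivity
    nlinarith

end Pool.Agent.Work.MP_e17eac_co.B1

end

section

/-!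
# Arbitrary sets, B-1, item (X): many realised pairs of cells
-/

namespace Pool.Agent.Work.MP_e17eac_co.B1

open Finset
open Pool.Agent.Work.MP_e17eac_co.DH
open Pool.Agent.Work.MP_e17eac_co.DH.XSWEEP (GP)

theorem I_X (h : StCellTok) (h0 : StX0) (h1 : StX1) : StX := by
  intro ι υ _ _ _ K hx r x hr H hH u V E hE hcr hV hbig
  have e0 := h0 ι υ K hx u V E hE hV hbig
  have e1 := h1 ι υ ℕ K u (cell K r x) E hE
  have hR : (0 : ℝ) ≤ (r : ℝ) := Nat.cast_nonneg r
  have hn : (0 : ℝ) ≤ (Fintype.card ι : ℝ) := Nat.cast_nonneg _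
  -- tokens of the edges of one realised cell
  have key : ∀ i ∈ E, ∀ s, (((E.filter (fun j => cell K r x j = cell K r x i)).image
      (K.tok s)).card : ℝ) * (r : ℝ) ^ (3 * x) ≤ H * Fintype.card ι := by
    intro i hi s
    have hsub : E.filter (fun j => cell K r x j = cell K r x i) ⊆ ce K r x (cell K r x i) := by
      intro j hj
      rw [mem_filter] at hj
      exact mem_filter.2 ⟨hE hj.1, hj.2⟩
    have h3 := (h ι K r x (cell K r x i) hr _ hsub).2.2 s
    have h4 : (((E.filter (fun j => cell K r x j = cell K r x i)).image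
      (K.tok s)).card : ℝ) ≤ ((vis K r x (cell K r x i)).card : ℝ) := by exact_mod_cast h3
    exact (mul_le_mul_of_nonneg_right h4 (by positivity)).trans (hcr i hi)
  have e2 : ((XU K u E).card : ℝ) * (r : ℝ) ^ (6 * x) ≤ H ^ 2 * (Fintype.card ι : ℝ) ^ 2 *
      (((XU K u E).image (fun z => (cell K r x z.1, cell K r x z.2))).card : ℝ) := by
    have e3 : ((XU K u E).card : ℝ) ≤ ∑ w ∈ (XU K u E).image
        (fun z => (cell K r x z.1, cell K r x z.2)),
        (((E.filter (fun i => cell K r x i = w.1)).image K.tokB).card : ℝ) *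
        (((E.filter (fun i => cell K r x i = w.2)).image K.tokT).card : ℝ) := by
      exact_mod_cast e1
    calc ((XU K u E).card : ℝ) * (r : ℝ) ^ (6 * x)
        ≤ (∑ w ∈ (XU K u E).image (fun z => (cell K r x z.1, cell K r x z.2)),
          (((E.filter (fun i => cell K r x i = w.1)).image K.tokB).card : ℝ) *
          (((E.filter (fun i => cell K r x i = w.2)).image K.tokT).card : ℝ)) *
          (r : ℝ) ^ (6 * x) := mul_le_mul_of_nonneg_right e3 (by positivity)
      _ = ∑ w ∈ (XU K u E).image (fun z => (cell K r x z.1, cell K r x z.2)),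
          ((((E.filter (fun i => cell K r x i = w.1)).image K.tokB).card : ℝ) *
            (r : ℝ) ^ (3 * x)) *
          ((((E.filter (fun i => cell K r x i = w.2)).image K.tokT).card : ℝ) *
            (r : ℝ) ^ (3 * x)) := by
          rw [sum_mul]
          refine sum_congr rfl fun w _ => ?_
          have : (r : ℝ) ^ (6 * x) = (r : ℝ) ^ (3 * x) * (r : ℝ) ^ (3 * x) := by
            rw [← pow_add]; congr 1; ring
          rw [this]; ring
      _ ≤ ∑ w ∈ (XU K u E).image (fun z => (cell K r x z.1, cell K r x z.2)),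
          (H * Fintype.card ι) * (H * Fintype.card ι) := by
          refine sum_le_sum fun w hw => ?_
          obtain ⟨z, hz, rfl⟩ := mem_image.1 hw
          have hz1 : z.1 ∈ E ∧ z.2 ∈ E := by
            unfold XU crossPairs at hz
            simp only [mem_filter, mem_product] at hz
            exact hz.1.1
          have a1 := key z.1 hz1.1 false
          have a2 := key z.2 hz1.2 true
          exact mul_le_mul a1 a2 (by positivity) (by positivity)
      _ = H ^ 2 * (Fintype.card ι : ℝ) ^ 2 *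
          (((XU K u E).image (fun z => (cell K r x z.1, cell K r x z.2))).card : ℝ) := by
          rw [sum_const, nsmul_eq_mul]; ring
  calc (E.card : ℝ) ^ 3 * (r : ℝ) ^ (6 * x)
      ≤ (16384 * ((∑ U ∈ E.image u, V U : ℕ) : ℝ) ^ 2 * ((XU K u E).card : ℝ)) *
        (r : ℝ) ^ (6 * x) := mul_le_mul_of_nonneg_right e0 (by positivity)
    _ = 16384 * ((∑ U ∈ E.image u, V U : ℕ) : ℝ) ^ 2 *
        (((XU K u E).card : ℝ) * (r : ℝ) ^ (6 * x)) := by ring
    _ ≤ 16384 * ((∑ U ∈ E.image u, V U : ℕ) : ℝ) ^ 2 * (H ^ 2 * (Fintype.card ι : ℝ) ^ 2 *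
      (((XU K u E).image (fun z => (cell K r x z.1, cell K r x z.2))).card : ℝ)) :=
        mul_le_mul_of_nonneg_left e2 (by positivity)
    _ = _ := by ring

end Pool.Agent.Work.MP_e17eac_co.B1

end

section

/-!
# Block B1, item X0: crossing lemma with units
-/

set_option autoImplicit false

namespace Pool.Agent.Work.MP_e17eac_co.B1

open Finset
open Pool.Agent.Work.MP_e17eac_co.DH

namespace XX0

/-- The arithmetic of one unit. -/
theorem unit_bound (e v x : ℕ) (hv : 1 ≤ v) (he : 16 * v ≤ e)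
    (h : ∀ s : ℕ, 1 ≤ s → e * s * s ≤ 4 * (v * s * s ^ 2 + v * s ^ 2 * s) + x) :
    (e : ℝ) ^ 3 ≤ 2048 * (v : ℝ) ^ 2 * x := by
  set s : ℕ := e / (16 * v) with hs
  have hv16 : 0 < 16 * v := by omega
  have hs1 : 1 ≤ s := (Nat.one_le_div_iff hv16).2 he
  have h1 : s * (16 * v) ≤ e := Nat.div_mul_le_self e (16 * v)
  have h2 : e < (s + 1) * (16 * v) := by
    have := Nat.lt_succ_iff.2 (le_refl (e / (16 * v)))
    exact (Nat.div_lt_iff_lt_mul hv16).1 this
  have h3 := h s hs1
  have hvR : (1 : ℝ) ≤ v := by exact_mod_cast hv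
  have hsR : (1 : ℝ) ≤ s := by exact_mod_cast hs1
  have h1R : (s : ℝ) * (16 * v) ≤ e := by exact_mod_cast h1
  have h2R : (e : ℝ) < (s + 1) * (16 * v) := by exact_mod_cast h2
  have h3R : (e : ℝ) * s * s ≤ 4 * (v * s * s ^ 2 + v * s ^ 2 * s) + x := by exact_mod_cast h3
  -- `x ≥ s^2 (e - 8 v s) ≥ s^2 e / 2`
  have h4 : (s : ℝ) ^ 2 * (e / 2) ≤ x := by
    have : (s : ℝ) ^ 2 * (8 * v * s) ≤ (s : ℝ) ^ 2 * (e / 2) := by
      refine mul_le_mul_of_nonneg_left ?_ (by positivity)
      linarith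
    have e1 : (e : ℝ) * s * s = (s : ℝ) ^ 2 * e := by ring
    have e2 : (4 : ℝ) * (v * s * s ^ 2 + v * s ^ 2 * s) = (s : ℝ) ^ 2 * (8 * v * s) := by ring
    have e3 : (s : ℝ) ^ 2 * (e / 2) + (s : ℝ) ^ 2 * (e / 2) = (s : ℝ) ^ 2 * e := by ring
    rw [e1, e2] at h3R
    linarith
  -- `e < 32 v s`
  have h5 : (e : ℝ) ≤ 32 * v * s := by
    have e4 : 16 * (v : ℝ) * 1 ≤ 16 * (v : ℝ) * s :=
      mul_le_mul_of_nonneg_left hsR (by positivity)
    have e5 : ((s : ℝ) + 1) * (16 * v) = 16 * v * s + 16 * v * 1 := by ring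
    have e6 : 32 * (v : ℝ) * s = 16 * v * s + 16 * v * s := by ring
    rw [e5] at h2R
    rw [e6]
    linarith
  have he0 : (0 : ℝ) ≤ e := by positivity
  have h6 : (e : ℝ) ^ 2 ≤ (32 * v * s) ^ 2 := pow_le_pow_left₀ he0 h5 2
  calc (e : ℝ) ^ 3 = (e : ℝ) ^ 2 * e := by ring
    _ ≤ (32 * v * s : ℝ) ^ 2 * e := mul_le_mul_of_nonneg_right h6 he0
    _ = 2048 * (v : ℝ) ^ 2 * ((s : ℝ) ^ 2 * (e / 2)) := by ring
    _ ≤ 2048 * (v : ℝ) ^ 2 * x := mul_le_mul_of_nonneg_left h4 (by positivity)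

/-- The tangent inequality. -/
theorem tangent (e v x t : ℝ) (he : 0 ≤ e) (hv : 0 < v) (ht : 0 ≤ t)
    (h : e ^ 3 ≤ 2048 * v ^ 2 * x) : 3 * t ^ 2 * e - 2 * t ^ 3 * v ≤ 2048 * x := by
  have h1 : 0 ≤ (e - t * v) ^ 2 * (e + 2 * t * v) := by positivity
  have h3 : (e - t * v) ^ 2 * (e + 2 * t * v) =
      e ^ 3 - (3 * t ^ 2 * e - 2 * t ^ 3 * v) * v ^ 2 := by ring
  have h4 : 2048 * v ^ 2 * x = 2048 * x * v ^ 2 := by ring
  have h2 : (3 * t ^ 2 * e - 2 * t ^ 3 * v) * v ^ 2 ≤ 2048 * x * v ^ 2 := by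
    rw [h3] at h1
    rw [h4] at h
    linarith
  exact le_of_mul_le_mul_right h2 (by positivity)

/-- The final arithmetic. -/
theorem final (S W X c GW : ℝ) (hS : 0 < S) (hW : 0 < W) (hGW : GW ≤ W) (hc : 0 ≤ c)
    (hcS : c ≤ 2 * S) (h : ∀ t : ℝ, 0 ≤ t → 3 * t ^ 2 * S - 2 * t ^ 3 * GW ≤ 2048 * X) :
    c ^ 3 ≤ 16384 * W ^ 2 * X := by
  obtain ⟨t, ht⟩ : ∃ t : ℝ, t * W = S := ⟨S / W, div_mul_cancel₀ S hW.ne'⟩
  have ht0 : 0 ≤ t := by
    by_contra hneg
    have := mul_neg_of_neg_of_pos (not_le.1 hneg) hW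
    linarith
  have h1 := h t ht0
  have h2 : 2 * t ^ 3 * GW ≤ 2 * t ^ 3 * W := mul_le_mul_of_nonneg_left hGW (by positivity)
  have h3 : 3 * t ^ 2 * S - 2 * t ^ 3 * W ≤ 2048 * X := by linarith
  have h5 := mul_le_mul_of_nonneg_right h3 (by positivity : (0 : ℝ) ≤ W ^ 2)
  have h4 : (3 * t ^ 2 * S - 2 * t ^ 3 * W) * W ^ 2 = 3 * (t * W) ^ 2 * S - 2 * (t * W) ^ 3 := by
    ring
  rw [h4, ht] at h5
  have h6 : S ^ 3 ≤ 2048 * W ^ 2 * X := by
    have e1 : 3 * S ^ 2 * S - 2 * S ^ 3 = S ^ 3 := by ring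
    have e2 : 2048 * X * W ^ 2 = 2048 * W ^ 2 * X := by ring
    rw [e1, e2] at h5
    exact h5
  calc c ^ 3 ≤ (2 * S) ^ 3 := pow_le_pow_left₀ hc hcS 3
    _ = 8 * S ^ 3 := by ring
    _ ≤ 8 * (2048 * W ^ 2 * X) := mul_le_mul_of_nonneg_left h6 (by norm_num)
    _ = 16384 * W ^ 2 * X := by ring

end XX0

open XX0 in
/-- Crossing lemma with units. -/
theorem I_X0 (h : StCrl) : StX0 := by
  classical
  intro ι υ _ _ _ K hx u V E hE hV hbig
  rcases E.eq_empty_or_nonempty with rfl | hne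
  · simp
  set I := E.image u with hI
  let EU : υ → Finset ℕ := fun U => E.filter (fun i => u i = U)
  have hV1 : ∀ U ∈ I, 1 ≤ V U := by
    intro U hU
    obtain ⟨i, hi, hiU⟩ := Finset.mem_image.1 hU
    refine le_trans ?_ (hV U hU true)
    exact Finset.card_pos.2 ⟨_, Finset.mem_image_of_mem _ (Finset.mem_filter.2 ⟨hi, hiU⟩)⟩
  -- the good units
  set G := I.filter (fun U => 16 * V U ≤ (EU U).card) with hG
  have hEc : E.card = ∑ U ∈ I, (EU U).card := Finset.card_eq_sum_card_image u E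
  have hsplit : ∑ U ∈ I, (EU U).card ≤ ∑ U ∈ G, (EU U).card + 16 * ∑ U ∈ I, V U := by
    rw [← Finset.sum_filter_add_sum_filter_not I (fun U => 16 * V U ≤ (EU U).card)]
    refine Nat.add_le_add_left ?_ _
    rw [Finset.mul_sum]
    refine le_trans (Finset.sum_le_sum (g := fun U => 16 * V U) ?_)
      (Finset.sum_le_sum_of_subset (Finset.filter_subset _ _))
    intro U hU
    have := (Finset.mem_filter.1 hU).2
    omega
  have hhalf : E.card ≤ 2 * ∑ U ∈ G, (EU U).card := by omega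
  -- the unit bound
  have hunit : ∀ U ∈ G, ((EU U).card : ℝ) ^ 3 ≤
      2048 * (V U : ℝ) ^ 2 * ((crossPairs K (EU U)).card : ℝ) := by
    intro U hU
    obtain ⟨hUI, hU16⟩ := Finset.mem_filter.1 hU
    refine unit_bound _ _ _ (hV1 U hUI) hU16 fun s hs => ?_
    have h1 := h ι K hx (EU U) (fun n hn =>
      Finset.mem_range.1 (hE (Finset.filter_subset _ _ hn))) s s hs hs
    refine h1.trans (Nat.add_le_add_right (Nat.mul_le_mul_left _ ?_) _)
    have ha : ((EU U).image K.a).card ≤ V U := by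
      have := hV U hUI false
      simpa [KSys.ln] using this
    have hb : ((EU U).image K.b).card ≤ V U := by
      have := hV U hUI true
      simpa [KSys.ln] using this
    exact Nat.add_le_add (Nat.mul_le_mul_right _ (Nat.mul_le_mul_right _ ha))
      (Nat.mul_le_mul_right _ (Nat.mul_le_mul_right _ hb))
  -- the crossings
  have hX : ∑ U ∈ G, (crossPairs K (EU U)).card ≤ (XU K u E).card := by
    have hd : ∀ U ∈ G, ∀ U' ∈ G, U ≠ U' → Disjoint (crossPairs K (EU U))
        (crossPairs K (EU U')) := by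
      intro U _ U' _ hne'
      refine Finset.disjoint_left.2 fun z hz hz' => hne' ?_
      have h1 := (Finset.mem_filter.1 (Finset.mem_product.1 (Finset.mem_filter.1 hz).1).1).2
      have h2 := (Finset.mem_filter.1 (Finset.mem_product.1 (Finset.mem_filter.1 hz').1).1).2
      rw [← h1, ← h2]
    rw [← Finset.card_biUnion hd]
    refine Finset.card_le_card ?_
    intro z hz
    obtain ⟨U, _, hzU⟩ := Finset.mem_biUnion.1 hz
    unfold crossPairs at hzU
    obtain ⟨h1, h2⟩ := Finset.mem_filter.1 hzU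
    obtain ⟨h3, h4⟩ := Finset.mem_product.1 h1
    obtain ⟨h5, h6⟩ := Finset.mem_filter.1 h3
    obtain ⟨h7, h8⟩ := Finset.mem_filter.1 h4
    simp only [XU, Finset.mem_filter]
    refine ⟨?_, h6.trans h8.symm⟩
    unfold crossPairs
    rw [Finset.mem_filter]
    exact ⟨Finset.mem_product.2 ⟨h5, h7⟩, h2⟩
  -- the sums
  have hWpos : 0 < ∑ U ∈ I, V U := by
    obtain ⟨i, hi⟩ := hne
    exact Finset.sum_pos (fun U hU => hV1 U hU) ⟨u i, Finset.mem_image_of_mem _ hi⟩
  have hEpos : 0 < E.card := Finset.card_pos.2 hne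
  refine final (∑ U ∈ G, ((EU U).card : ℝ)) _ _ _ (∑ U ∈ G, (V U : ℝ)) ?_ ?_ ?_ ?_ ?_ ?_
  · have : 0 < ∑ U ∈ G, (EU U).card := by omega
    exact_mod_cast this
  · exact_mod_cast hWpos
  · have : ∑ U ∈ G, V U ≤ ∑ U ∈ I, V U :=
      Finset.sum_le_sum_of_subset (Finset.filter_subset _ _)
    exact_mod_cast this
  · exact Nat.cast_nonneg _
  · exact_mod_cast hhalf
  · intro t ht0
    have h1 : ∑ U ∈ G, (3 * t ^ 2 * ((EU U).card : ℝ) - 2 * t ^ 3 * (V U : ℝ)) ≤
        ∑ U ∈ G, 2048 * ((crossPairs K (EU U)).card : ℝ) := by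
      refine Finset.sum_le_sum fun U hU => ?_
      have hv : (0 : ℝ) < V U := by
        exact_mod_cast hV1 U (Finset.mem_filter.1 hU).1
      exact tangent _ _ _ t (Nat.cast_nonneg _) hv ht0 (hunit U hU)
    rw [Finset.sum_sub_distrib, ← Finset.mul_sum, ← Finset.mul_sum, ← Finset.mul_sum] at h1
    refine h1.trans (mul_le_mul_of_nonneg_left ?_ (by norm_num))
    exact_mod_cast hX

end Pool.Agent.Work.MP_e17eac_co.B1

end

section

namespace Pool.Agent.Work.MP_e17eac_co.B1

open Finset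
open Pool.Agent.Work.MP_e17eac_co.DH

namespace XX1

theorem mem_XU {ι υ : Type} [Fintype ι] [DecidableEq ι] (K : KSys ι) (u : ℕ → υ)
    (E : Finset ℕ) (z : ℕ × ℕ) :
    z ∈ XU K u E ↔ (((z.1 ∈ E ∧ z.2 ∈ E) ∧ z.1 < z.2 ∧ K.Cross z.1 z.2) ∧ u z.1 = u z.2) := by
  classical
  unfold XU crossPairs
  simp [Finset.mem_filter, Finset.mem_product]

end XX1

theorem I_X1 (h : StCinj) : StX1 := by
  intro ι υ γ _ _ _ _ K u g E hE
  rw [Finset.card_eq_sum_card_fiberwise (f := fun z : ℕ × ℕ => (g z.1, g z.2))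
    (t := (XU K u E).image (fun z => (g z.1, g z.2)))
    (fun z hz => Finset.mem_image_of_mem _ hz)]
  refine Finset.sum_le_sum (fun w _ => ?_)
  rw [← Finset.card_product]
  refine Finset.card_le_card_of_injOn (fun z => (K.tokB z.1, K.tokT z.2)) ?_ ?_
  · intro z hz
    have hz' := Finset.mem_coe.1 hz
    rw [Finset.mem_filter, XX1.mem_XU] at hz'
    obtain ⟨⟨⟨⟨h1, h2⟩, _, _⟩, _⟩, h3⟩ := hz'
    have e1 : g z.1 = w.1 := congrArg Prod.fst h3
    have e2 : g z.2 = w.2 := congrArg Prod.snd h3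
    exact Finset.mem_coe.2 (Finset.mem_product.2
      ⟨Finset.mem_image_of_mem _ (Finset.mem_filter.2 ⟨h1, e1⟩),
       Finset.mem_image_of_mem _ (Finset.mem_filter.2 ⟨h2, e2⟩)⟩)
  · intro z hz z' hz' heq
    have hz := Finset.mem_coe.1 hz
    have hz' := Finset.mem_coe.1 hz'
    rw [Finset.mem_filter, XX1.mem_XU] at hz hz'
    obtain ⟨⟨⟨⟨h1, h2⟩, h3, h4⟩, _⟩, _⟩ := hz
    obtain ⟨⟨⟨⟨h1', h2'⟩, h3', h4'⟩, _⟩, _⟩ := hz'
    have e1 : K.tokB z.1 = K.tokB z'.1 := congrArg Prod.fst heq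
    have e2 : K.tokT z.2 = K.tokT z'.2 := congrArg Prod.snd heq
    have l2 := Finset.mem_range.1 (hE h2)
    have l2' := Finset.mem_range.1 (hE h2')
    obtain ⟨a1, a2⟩ := h ι K z.1 z.2 z'.1 z'.2 h3 l2 h3' l2' h4 h4' e1 e2
    exact Prod.ext a1 a2

end Pool.Agent.Work.MP_e17eac_co.B1

end

section

/-!
Arithmetic of the induction of SKM.
-/

set_option autoImplicit false

namespace Pool.Agent.Work.MP_e17eac_co.SK

namespace YARITH

theorem claim (Gd : ℕ → ℕ → Prop) (h0 : Gd 0 0)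
    (hm : ∀ x t t', t ≤ t' → Gd x t → Gd x t')
    (hr : ∀ x t y : ℕ, 1 ≤ y → x ≤ y → t ≤ 2 * x + y + 11 → Gd x t → Gd y (5 * y + 51 - 2 * x))
    (j : ℕ) : ∀ y : ℕ, Gd y (4 * y + y / 2 ^ j + (51 + 53 * j)) := by
  induction j with
  | zero =>
    intro y
    rcases Nat.eq_zero_or_pos y with rfl | hy
    · exact hm 0 0 _ (Nat.zero_le _) h0
    · refine hm y _ _ ?_ (hr 0 0 y hy (Nat.zero_le _) (Nat.zero_le _) h0)
      simp only [pow_zero, Nat.div_one]
      omega
  | succ j ih =>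
    intro y
    rcases Nat.eq_zero_or_pos y with rfl | hy
    · exact hm 0 0 _ (Nat.zero_le _) h0
    · obtain ⟨z, hz⟩ : ∃ z, z = y / 2 ^ (j + 1) := ⟨_, rfl⟩
      obtain ⟨d, hd⟩ : ∃ d, d = 51 + 53 * j := ⟨_, rfl⟩
      rw [← hz]
      by_cases hc : y ≤ z + d + 1
      · refine hm y _ _ ?_ (hr 0 0 y hy (Nat.zero_le _) (Nat.zero_le _) h0)
        omega
      · obtain ⟨x, hx⟩ : ∃ x, x = (y - z - d) / 2 := ⟨_, rfl⟩
        have hxy : x ≤ y := by omega
        have hx2 : x ≤ y / 2 := by omega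
        have hxz : x / 2 ^ j ≤ z := by
          rw [hz, pow_succ, mul_comm (2 ^ j) 2, ← Nat.div_div_eq_div_mul]
          exact Nat.div_le_div_right hx2
        have hg := ih x
        rw [← hd] at hg
        have hg2 := hr x _ y hy hxy (by omega) hg
        refine hm y _ _ ?_ hg2
        omega

end YARITH

theorem J_ARITH : StArith := by
  intro Gd h0 hm hr eps heps
  obtain ⟨j, hj⟩ := exists_pow_lt_of_lt_one heps (by norm_num : (1 / 2 : ℝ) < 1)
  refine ⟨51 + 53 * j, fun y => ?_⟩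
  refine hm y _ _ ?_ (YARITH.claim Gd h0 hm hr j y)
  have : y / 2 ^ j ≤ ⌊eps * y⌋₊ := by
    apply Nat.le_floor
    calc ((y / 2 ^ j : ℕ) : ℝ) ≤ (y : ℝ) / ((2 ^ j : ℕ) : ℝ) := Nat.cast_div_le
      _ = (1 / 2 : ℝ) ^ j * y := by
        push_cast
        rw [one_div, inv_pow]
        ring
      _ ≤ eps * y := mul_le_mul_of_nonneg_right hj.le (Nat.cast_nonneg y)
  omega

end Pool.Agent.Work.MP_e17eac_co.SK

end

section

/-!
# Block SKM: deleting the classes with many active cells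
-/

namespace Pool.Agent.Work.MP_e17eac_co.SK

open Finset
open Pool.Agent.Work.MP_e17eac_co.DH
open Pool.Agent.Work.MP_e17eac_co.B1

namespace YCLSDEL

variable {ι : Type} [Fintype ι] [DecidableEq ι]

theorem one_side (K : KSys ι) (r x : ℕ) (κ : ι → ℕ) (P : Finset ι) (E : Finset ℕ)
    (hE : ∀ i ∈ E, K.a i ∈ P) :
    ∑ B ∈ P.image κ, ((E.filter (fun i => κ (K.a i) = B)).image (cell K r x)).card ≤
      Un K r x κ E := by
  unfold Un
  have hmaps : ∀ z ∈ E.image (fun i => (cell K r x i, κ (K.a i))), z.2 ∈ P.image κ := by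
    intro z hz
    rw [mem_image] at hz
    obtain ⟨i, hi, rfl⟩ := hz
    exact mem_image_of_mem κ (hE i hi)
  rw [Finset.card_eq_sum_card_fiberwise hmaps]
  refine Finset.sum_le_sum fun B _ => ?_
  refine Finset.card_le_card_of_injOn (fun c => (c, B)) ?_ ?_
  · intro c hc
    rw [Finset.mem_coe, mem_image] at hc
    obtain ⟨i, hi, rfl⟩ := hc
    rw [mem_filter] at hi
    rw [Finset.mem_coe, mem_filter]
    refine ⟨?_, rfl⟩
    rw [mem_image]
    exact ⟨i, hi.1, by rw [hi.2]⟩
  · intro c _ c' _ h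
    exact (Prod.mk.inj h).1

theorem act_sum (K : KSys ι) (r x : ℕ) (κ : ι → ℕ) (P : Finset ι) (E : Bool → Finset ℕ)
    (hE : ∀ s, ∀ i ∈ E s, K.a i ∈ P) :
    ∑ B ∈ P.image κ, (act K r x κ E B).card ≤ Un K r x κ (E true) + Un K r x κ (E false) := by
  refine le_trans ?_ (Nat.add_le_add (one_side K r x κ P (E true) (hE true))
    (one_side K r x κ P (E false) (hE false)))
  rw [← Finset.sum_add_distrib]
  refine Finset.sum_le_sum fun B _ => ?_
  unfold act
  rw [Finset.filter_union, Finset.image_union]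
  exact Finset.card_union_le _ _

end YCLSDEL

open YCLSDEL in
theorem J_CLSDEL (hTS2 : StTS2) : StClsDel := by
  classical
  intro ι _ _ K r m H D P E κ x G hr hD hn hTS hStab hG hUn
  set β : ℕ := (P.image κ).card with hβ
  have hβ0 : 0 < β := Finset.card_pos.mpr ((ts_nonempty hTS hn).image κ)
  set Bad : Finset ℕ := (P.image κ).filter
    (fun B => 2 * G * (r : ℝ) ^ 2 < ((act K r x κ E B).card : ℝ) * β) with hBad
  have hr0 : (3 : ℝ) ≤ r := by exact_mod_cast hr
  -- the number of bad classes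
  have hsum : ∑ B ∈ Bad, ((act K r x κ E B).card : ℝ) ≤ 2 * G := by
    have h1 : ∑ B ∈ Bad, ((act K r x κ E B).card : ℝ) ≤
        ∑ B ∈ P.image κ, ((act K r x κ E B).card : ℝ) :=
      Finset.sum_le_sum_of_subset_of_nonneg (filter_subset _ _) fun _ _ _ => Nat.cast_nonneg _
    have h2 : ∑ B ∈ P.image κ, ((act K r x κ E B).card : ℝ) ≤
        ((Un K r x κ (E true) + Un K r x κ (E false) : ℕ) : ℝ) := by
      exact_mod_cast act_sum K r x κ P E hTS.aP
    push_cast at h2
    have h3 := hUn true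
    have h4 := hUn false
    linarith
  have hcard : (Bad.card : ℝ) * (r : ℝ) ^ 2 ≤ β := by
    have h1 : (Bad.card : ℝ) * (2 * G * (r : ℝ) ^ 2) ≤
        ∑ B ∈ Bad, ((act K r x κ E B).card : ℝ) * β := by
      rw [← nsmul_eq_mul, ← Finset.sum_const]
      exact Finset.sum_le_sum fun B hB => (mem_filter.mp hB).2.le
    rw [← Finset.sum_mul] at h1
    have h2 : (∑ B ∈ Bad, ((act K r x κ E B).card : ℝ)) * β ≤ 2 * G * β :=
      mul_le_mul_of_nonneg_right hsum (Nat.cast_nonneg _)
    have h3 : (2 * G) * ((Bad.card : ℝ) * (r : ℝ) ^ 2) ≤ (2 * G) * β := by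
      calc (2 * G) * ((Bad.card : ℝ) * (r : ℝ) ^ 2) = (Bad.card : ℝ) * (2 * G * (r : ℝ) ^ 2) := by
            ring
        _ ≤ _ := h1
        _ ≤ _ := h2
    exact le_of_mul_le_mul_left h3 (by positivity)
  have hsplit : (P.filter (fun p => κ p ∈ Bad)).card + (P.filter (fun p => κ p ∉ Bad)).card =
      P.card := Finset.card_filter_add_card_filter_not (fun p => κ p ∈ Bad)
  by_cases hc : (P.card : ℝ) ≤ 2 * ((P.filter (fun p => κ p ∉ Bad)).card : ℝ)
  · refine ⟨P.filter (fun p => κ p ∉ Bad), filter_subset _ _, ?_, ?_⟩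
    · have h := hTS2 ι K r m H D 2 P _ E (by linarith) (by norm_num) hTS (filter_subset _ _) hc
      rw [mul_comm] at h
      exact h
    · intro p hp
      rw [mem_filter] at hp
      by_contra hcon
      rw [not_le] at hcon
      apply hp.2
      rw [hBad, mem_filter]
      exact ⟨mem_image_of_mem κ hp.1, hcon⟩
  · exfalso
    have hc2 : (P.card : ℝ) ≤ 2 * ((P.filter (fun p => κ p ∈ Bad)).card : ℝ) := by
      have h1 : ((P.filter (fun p => κ p ∈ Bad)).card : ℝ) +
          (P.filter (fun p => κ p ∉ Bad)).card = P.card := by exact_mod_cast hsplit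
      rw [not_le] at hc
      linarith
    have h := hTS2 ι K r m H D 2 P _ E (by linarith) (by norm_num) hTS (filter_subset _ _) hc2
    rw [mul_comm] at h
    have h1 := hStab _ _ ⟨filter_subset _ _, fun s => filter_subset _ _⟩ h
    have h2 : ((P.filter (fun p => κ p ∈ Bad)).image κ).card ≤ Bad.card := by
      apply card_le_card
      intro B hB
      rw [mem_image] at hB
      obtain ⟨p, hp, rfl⟩ := hB
      exact (mem_filter.mp hp).2
    have h3 : β ≤ r * Bad.card := h1.trans (Nat.mul_le_mul_left r h2)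
    have h3' : (β : ℝ) ≤ r * Bad.card := by exact_mod_cast h3
    have hB0 : 0 < Bad.card := by
      by_contra hcon
      have : Bad.card = 0 := by omega
      rw [this, mul_zero] at h3
      omega
    have hB1 : (1 : ℝ) ≤ Bad.card := by exact_mod_cast hB0
    nlinarith

end Pool.Agent.Work.MP_e17eac_co.SK

end

section

/-!
# Block SKM, item H4: (H5) gives (H4)
-/

namespace Pool.Agent.Work.MP_e17eac_co.SK

open Finset
open Pool.Agent.Work.MP_e17eac_co.DH
open Pool.Agent.Work.MP_e17eac_co.B1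

theorem J_H4 (hCell : StCell) : StH4 := by
  intro ι _ _ K r m x hr hx H hH E κ hyg h5 B
  have hcell := (hCell ι K r x hr).1
  set A := (E.filter (fun i => κ (K.a i) = B)).image (cell K r x) with hA
  set F := (PS K r m H).filter (fun q => κ q = B) with hF
  have hR : (0 : ℝ) ≤ H * (r : ℝ) ^ x := by positivity
  rcases A.eq_empty_or_nonempty with h0 | ⟨c0, hc0⟩
  · rw [h0]
    simp only [card_empty, Nat.cast_zero]
    nlinarith
  obtain ⟨i0, hi0, -⟩ := mem_image.1 hc0
  rw [mem_filter] at hi0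
  have hFpos : 0 < F.card := by
    refine card_pos.2 ⟨K.a i0, mem_filter.2 ⟨?_, hi0.2⟩⟩
    exact (hyg i0 hi0.1).ps false
  -- every active cell visits most of `F`
  have h1 : ∀ c ∈ A, 99 * F.card ≤ 100 * (F.filter (fun q => q ∈ vis K r x c)).card := by
    intro c hc
    obtain ⟨i, hi, rfl⟩ := mem_image.1 hc
    rw [mem_filter] at hi
    have e1 := h5 i hi.1
    have e2 : cl K r m H κ (K.a i) = F := by
      unfold cl
      rw [hi.2]
    rw [e2] at e1
    have e3 : (F \ vis K r x (cell K r x i)).card +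
        (F.filter (fun q => q ∈ vis K r x (cell K r x i))).card = F.card := by
      rw [filter_mem_eq_inter, card_sdiff_add_card_inter]
    omega
  -- double counting
  have h2 : ∑ c ∈ A, (F.filter (fun q => q ∈ vis K r x c)).card =
      ∑ q ∈ F, (A.filter (fun c => q ∈ vis K r x c)).card :=
    sum_card_bipartiteAbove_eq_sum_card_bipartiteBelow (fun c q => q ∈ vis K r x c)
  have h3 : ∀ q ∈ F, ((A.filter (fun c => q ∈ vis K r x c)).card : ℝ) ≤ H * (r : ℝ) ^ x := by
    intro q hq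
    rw [hF, mem_filter] at hq
    have hPS := hq.1
    unfold PS at hPS
    rw [mem_filter] at hPS
    refine le_trans ?_ (hPS.2 x hx)
    unfold W
    refine Nat.cast_le.2 (card_le_card ?_)
    intro c hc
    rw [mem_filter] at hc ⊢
    obtain ⟨i, hi, rfl⟩ := mem_image.1 hc.1
    rw [mem_filter] at hi
    exact ⟨mem_range.2 (hcell i (hyg i hi.1).lt), hc.2⟩
  have h4 : 99 * (A.card : ℝ) * F.card ≤ 100 * ((F.card : ℝ) * (H * (r : ℝ) ^ x)) := by
    have e1 : ∑ c ∈ A, 99 * F.card ≤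
        ∑ c ∈ A, 100 * (F.filter (fun q => q ∈ vis K r x c)).card := sum_le_sum h1
    rw [sum_const, smul_eq_mul, ← mul_sum, h2] at e1
    have e2 : ((∑ q ∈ F, (A.filter (fun c => q ∈ vis K r x c)).card : ℕ) : ℝ) ≤
        (F.card : ℝ) * (H * (r : ℝ) ^ x) := by
      push_cast
      calc ∑ q ∈ F, ((A.filter (fun c => q ∈ vis K r x c)).card : ℝ)
          ≤ ∑ q ∈ F, H * (r : ℝ) ^ x := sum_le_sum h3
        _ = _ := by rw [sum_const, nsmul_eq_mul]
    have e3 : ((A.card * (99 * F.card) : ℕ) : ℝ) ≤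
        ((100 * ∑ q ∈ F, (A.filter (fun c => q ∈ vis K r x c)).card : ℕ) : ℝ) := by
      exact_mod_cast e1
    push_cast at e3 e2
    nlinarith
  have hFp : (0 : ℝ) < (F.card : ℝ) := by exact_mod_cast hFpos
  have h5' : (F.card : ℝ) * (99 * (A.card : ℝ)) ≤ (F.card : ℝ) * (100 * (H * (r : ℝ) ^ x)) := by
    nlinarith
  have h6 := le_of_mul_le_mul_left h5' hFp
  nlinarith

end Pool.Agent.Work.MP_e17eac_co.SK

end

section

/-!
# Few edges violate (H5)
-/

namespace Pool.Agent.Work.MP_e17eac_co.SK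

open Finset
open Pool.Agent.Work.MP_e17eac_co.DH
open Pool.Agent.Work.MP_e17eac_co.B1

namespace YH5DEL

theorem fib {α : Type} [DecidableEq α] (S : Finset ℕ) (f : ℕ → α) (T : Finset α)
    (hf : ∀ i ∈ S, f i ∈ T) (c : ℝ) (hc0 : 0 ≤ c)
    (hc : ∀ i ∈ S, ((S.filter (fun j => f j = f i)).card : ℝ) ≤ c) :
    (S.card : ℝ) ≤ c * T.card := by
  have h1 : S.card = ∑ t ∈ T, (S.filter (fun j => f j = t)).card :=
    card_eq_sum_card_fiberwise (fun i hi => hf i hi)
  rw [h1, Nat.cast_sum]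
  calc ∑ t ∈ T, ((S.filter (fun j => f j = t)).card : ℝ) ≤ ∑ t ∈ T, c := by
        apply sum_le_sum
        intro t _
        by_cases h : ∃ i ∈ S, f i = t
        · obtain ⟨i, hi, rfl⟩ := h
          exact hc i hi
        · have : S.filter (fun j => f j = t) = ∅ := by
            rw [filter_eq_empty_iff]
            intro j hj he
            exact h ⟨j, hj, he⟩
          rw [this, card_empty, Nat.cast_zero]
          exact hc0
    _ = c * T.card := by rw [sum_const, nsmul_eq_mul]; ring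

variable {ι : Type} [Fintype ι] [DecidableEq ι]

theorem win_lt (K : KSys ι) (r x c i : ℕ) (hi : i < K.N) (hc : cell K r x i = c) :
    (win K r x c).1 < (win K r x c).2 := by
  unfold win
  dsimp only
  apply card_lt_card
  rw [ssubset_iff_of_subset]
  · exact ⟨i, mem_filter.2 ⟨mem_range.2 hi, hc.le⟩, fun h => by
      have := (mem_filter.1 h).2
      omega⟩
  · intro j hj
    have h := mem_filter.1 hj
    exact mem_filter.2 ⟨h.1, h.2.le⟩

theorem cls (hHOMOG : StHomog) (hWIN : StWin) (K : KSys ι) (r m x : ℕ) (hr : 1 ≤ r)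
    (hx : x ≤ m) (hn : 0 < Fintype.card ι) (H h : ℝ) (hH : 0 ≤ H) (A : Finset ℕ)
    (hA : ∀ c ∈ A, ∃ i, i < K.N ∧ cell K r x i = c)
    (F : Finset ι) (hF : F.Nonempty)
    (hsep : ∀ q ∈ F, ∀ q' ∈ F, ((sep K (A.image (win K r x)) q q').card : ℝ) ≤ h)
    (S : Finset ℕ) (hS : ∀ i ∈ S, Hyg K r m H i ∧ K.a i ∈ F ∧ cell K r x i ∈ A ∧
      F.card < 100 * (F \ vis K r x (cell K r x i)).card) :
    (S.card : ℝ) * (Fintype.card ι * (r : ℝ) ^ x) ≤ 100 * H * K.N * h * F.card := by
  obtain ⟨hw1, hw2⟩ := hWIN ι K r x hr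
  have hinj : Set.InjOn (win K r x) (A : Set ℕ) := by
    have key : ∀ c ∈ A, ∀ c' ∈ A, c < c' → win K r x c ≠ win K r x c' := by
      intro c hc c' _ hlt he
      obtain ⟨i, hi, hci⟩ := hA c hc
      have h1 := win_lt K r x c i hi hci
      have h2 := hw2 c c' hlt
      rw [he] at h1 h2
      omega
    intro c hc c' hc' he
    rcases lt_trichotomy c c' with hlt | heq | hgt
    · exact absurd he (key c hc c' hc' hlt)
    · exact heq
    · exact absurd he.symm (key c' hc' c hc hgt)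
  have hhom := hHOMOG ι K (A.image (win K r x)) F h (by
    intro c hc
    obtain ⟨c', _, rfl⟩ := mem_image.1 hc
    exact (hw1 c').1) hsep
  rw [sum_image hinj] at hhom
  have hhom2 : ∑ c ∈ A, ((F ∩ vis K r x c).card : ℝ) * ((F \ vis K r x c).card : ℝ) ≤
      (F.card : ℝ) ^ 2 * h := by
    refine le_trans (le_of_eq ?_) hhom
    refine sum_congr rfl ?_
    intro c _
    rw [(hw1 c).2]
  set A' := A.filter (fun c => F.card < 100 * (F \ vis K r x c).card) with hA'
  have hFpos : (0 : ℝ) < (F.card : ℝ) := by exact_mod_cast hF.card_pos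
  have hsum : (∑ c ∈ A', ((F ∩ vis K r x c).card : ℝ)) ≤ 100 * h * F.card := by
    have h1 : (∑ c ∈ A', ((F ∩ vis K r x c).card : ℝ)) * F.card ≤
        100 * ∑ c ∈ A, ((F ∩ vis K r x c).card : ℝ) * ((F \ vis K r x c).card : ℝ) := by
      rw [sum_mul, mul_sum]
      calc ∑ c ∈ A', ((F ∩ vis K r x c).card : ℝ) * F.card
          ≤ ∑ c ∈ A', 100 * (((F ∩ vis K r x c).card : ℝ) * ((F \ vis K r x c).card : ℝ)) := by
            apply sum_le_sum
            intro c hc
            have h2 : F.card < 100 * (F \ vis K r x c).card := (mem_filter.1 hc).2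
            have h3 : (F.card : ℝ) ≤ 100 * ((F \ vis K r x c).card : ℝ) := by exact_mod_cast h2.le
            have h4 : (0 : ℝ) ≤ ((F ∩ vis K r x c).card : ℝ) := by positivity
            have h5 := mul_le_mul_of_nonneg_left h3 h4
            linarith
        _ ≤ ∑ c ∈ A, 100 * (((F ∩ vis K r x c).card : ℝ) * ((F \ vis K r x c).card : ℝ)) := by
            apply sum_le_sum_of_subset_of_nonneg (filter_subset _ _)
            intro c _ _
            positivity
    have h2 : (∑ c ∈ A', ((F ∩ vis K r x c).card : ℝ)) * F.card ≤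
        (100 * h * F.card) * F.card := by
      have e : (100 * h * (F.card : ℝ)) * F.card = 100 * ((F.card : ℝ) ^ 2 * h) := by ring
      rw [e]
      linarith
    exact le_of_mul_le_mul_right h2 hFpos
  -- the pairs
  set w : ℝ := (Fintype.card ι : ℝ) * (r : ℝ) ^ x with hw
  have hwpos : 0 < w := by
    have h1 : (0 : ℝ) < (Fintype.card ι : ℝ) := by exact_mod_cast hn
    have h2 : (0 : ℝ) < (r : ℝ) := by exact_mod_cast (by omega : 0 < r)
    positivity
  have hfib := fib S (fun i => (⟨cell K r x i, K.a i⟩ : (_ : ℕ) × ι))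
    (A'.sigma (fun c => F ∩ vis K r x c)) (by
      intro i hi
      obtain ⟨h1, h2, h3, h4⟩ := hS i hi
      rw [mem_sigma]
      refine ⟨mem_filter.2 ⟨h3, h4⟩, mem_inter.2 ⟨h2, ?_⟩⟩
      unfold vis KSys.lines ce
      refine mem_union_left _ (mem_image_of_mem _ ?_)
      exact mem_filter.2 ⟨mem_range.2 h1.lt, rfl⟩) (H * K.N / w) (by positivity) (by
      intro i hi
      obtain ⟨h1, h2, h3, h4⟩ := hS i hi
      rw [le_div_iff₀ hwpos]
      refine le_trans ?_ (h1.light false x hx)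
      refine mul_le_mul_of_nonneg_right ?_ hwpos.le
      have hsub : (S.filter (fun j => (⟨cell K r x j, K.a j⟩ : (_ : ℕ) × ι) =
          ⟨cell K r x i, K.a i⟩)) ⊆ (range K.N).filter (fun j => K.ln false j = K.ln false i ∧
            cell K r x j = cell K r x i) := by
        intro j hj
        obtain ⟨hj1, hj2⟩ := mem_filter.1 hj
        have hj3 := (hS j hj1).1.lt
        have e1 : cell K r x j = cell K r x i := congrArg Sigma.fst hj2
        have e2 : K.a j = K.a i := by
          have := (Sigma.mk.inj hj2).2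
          exact eq_of_heq this
        exact mem_filter.2 ⟨mem_range.2 hj3, e2, e1⟩
      exact_mod_cast card_le_card hsub)
  rw [card_sigma, Nat.cast_sum] at hfib
  have h5 : (S.card : ℝ) * w ≤ H * K.N * ∑ c ∈ A', ((F ∩ vis K r x c).card : ℝ) := by
    calc (S.card : ℝ) * w ≤ (H * K.N / w * ∑ c ∈ A', ((F ∩ vis K r x c).card : ℝ)) * w :=
          mul_le_mul_of_nonneg_right hfib hwpos.le
      _ = H * K.N * ∑ c ∈ A', ((F ∩ vis K r x c).card : ℝ) := by
          rw [div_mul_eq_mul_div, div_mul_cancel₀ _ hwpos.ne']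
  have h6 : (0 : ℝ) ≤ H * K.N := by positivity
  calc (S.card : ℝ) * w ≤ H * K.N * ∑ c ∈ A', ((F ∩ vis K r x c).card : ℝ) := h5
    _ ≤ H * K.N * (100 * h * F.card) := mul_le_mul_of_nonneg_left hsum h6
    _ = 100 * H * K.N * h * F.card := by ring

end YH5DEL

open YH5DEL in
theorem J_H5DEL (hHOMOG : StHomog) (hWIN : StWin) : StH5Del := by
  intro ι _ _ K r m x hr hx hn H h hH hh P E κ κ' hE hκ hsep s
  set Bad := (E s).filter (fun i => ¬ 100 * ((cl K r m H κ' (K.a i)) \
    vis K r x (cell K r x i)).card ≤ (cl K r m H κ' (K.a i)).card) with hBad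
  have hnR : (0 : ℝ) < (Fintype.card ι : ℝ) := by exact_mod_cast hn
  have hcls : ∀ b ∈ Bad.image (fun i => κ' (K.a i)),
      ((Bad.filter (fun i => κ' (K.a i) = b)).card : ℝ) * (Fintype.card ι * (r : ℝ) ^ x) ≤
        100 * H * K.N * h * (((PS K r m H).filter (fun q => κ' q = b)).card : ℝ) := by
    intro b hb
    obtain ⟨i0, hi0, hb0⟩ := mem_image.1 hb
    have hi0E := (mem_filter.1 hi0).1
    have hp0 := (hE s i0 hi0E).2
    have hcl : ∀ i, κ' (K.a i) = b → cl K r m H κ' (K.a i) =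
        (PS K r m H).filter (fun q => κ' q = b) := by
      intro i hi
      unfold cl
      rw [hi]
    refine cls hHOMOG hWIN K r m x hr hx hn H h hH (act K r x κ E (κ (K.a i0))) ?_ _ ?_ ?_ _ ?_
    · intro c hc
      unfold act at hc
      obtain ⟨i, hi, hci⟩ := mem_image.1 hc
      have hi1 := (mem_filter.1 hi).1
      rcases mem_union.1 hi1 with h1 | h1
      · exact ⟨i, (hE true i h1).1.lt, hci⟩
      · exact ⟨i, (hE false i h1).1.lt, hci⟩
    · exact ⟨K.a i0, mem_filter.2 ⟨(hE s i0 hi0E).1.ps false, hb0⟩⟩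
    · intro q hq q' hq'
      refine hsep (K.a i0) hp0 q q' ?_ ?_
      · rw [(mem_filter.1 hq).2]; exact hb0.symm
      · rw [(mem_filter.1 hq').2]; exact hb0.symm
    · intro i hi
      obtain ⟨hi1, hi2⟩ := mem_filter.1 hi
      obtain ⟨hi3, hi4⟩ := mem_filter.1 hi1
      refine ⟨(hE s i hi3).1, mem_filter.2 ⟨(hE s i hi3).1.ps false, hi2⟩, ?_, ?_⟩
      · unfold act
        refine mem_image_of_mem _ (mem_filter.2 ⟨?_, ?_⟩)
        · rcases s with _ | _
          · exact mem_union_right _ hi3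
          · exact mem_union_left _ hi3
        · apply hκ
          rw [hi2]; exact hb0.symm
      · rw [hcl i hi2] at hi4
        omega
  have hr0 : (0 : ℝ) < (r : ℝ) := by exact_mod_cast (by omega : 0 < r)
  have hsumcl : ∑ b ∈ Bad.image (fun i => κ' (K.a i)),
      (((PS K r m H).filter (fun q => κ' q = b)).card : ℝ) ≤ Fintype.card ι := by
    have h1 : ∑ b ∈ Bad.image (fun i => κ' (K.a i)),
        ((PS K r m H).filter (fun q => κ' q = b)).card ≤ (PS K r m H).card := by
      rw [← card_biUnion]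
      · apply card_le_card
        intro q hq
        obtain ⟨b, _, hb⟩ := mem_biUnion.1 hq
        exact (mem_filter.1 hb).1
      · intro b _ b' _ hbb'
        rw [Function.onFun, disjoint_left]
        intro q hq hq'
        exact hbb' ((mem_filter.1 hq).2.symm.trans (mem_filter.1 hq').2)
    have h2 : (PS K r m H).card ≤ Fintype.card ι := card_le_univ _
    exact_mod_cast h1.trans h2
  have hcard : (Bad.card : ℝ) = ∑ b ∈ Bad.image (fun i => κ' (K.a i)),
      ((Bad.filter (fun i => κ' (K.a i) = b)).card : ℝ) := by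
    rw [← Nat.cast_sum]
    congr 1
    exact card_eq_sum_card_image (fun i => κ' (K.a i)) Bad
  have hmain : (Bad.card : ℝ) * (Fintype.card ι * (r : ℝ) ^ x) ≤
      100 * H * K.N * h * Fintype.card ι := by
    rw [hcard, sum_mul]
    calc _ ≤ ∑ b ∈ Bad.image (fun i => κ' (K.a i)), 100 * H * K.N * h *
          (((PS K r m H).filter (fun q => κ' q = b)).card : ℝ) := sum_le_sum hcls
      _ = 100 * H * K.N * h * ∑ b ∈ Bad.image (fun i => κ' (K.a i)),
          (((PS K r m H).filter (fun q => κ' q = b)).card : ℝ) := by rw [mul_sum]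
      _ ≤ 100 * H * K.N * h * Fintype.card ι :=
          mul_le_mul_of_nonneg_left hsumcl (by positivity)
  have h7 : ((Bad.card : ℝ) * (r : ℝ) ^ x) * Fintype.card ι ≤
      (100 * H * K.N * h) * Fintype.card ι := by
    calc _ = (Bad.card : ℝ) * (Fintype.card ι * (r : ℝ) ^ x) := by ring
      _ ≤ _ := hmain
  have h8 := le_of_mul_le_mul_right h7 hnR
  have h9 : (0 : ℝ) ≤ H * K.N * h := by positivity
  have h10 : 100 * H * K.N * h = 100 * (H * K.N * h) := by ring
  have h11 : 200 * H * K.N * h = 200 * (H * K.N * h) := by ring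
  calc (Bad.card : ℝ) * (r : ℝ) ^ x ≤ 100 * H * K.N * h := h8
    _ ≤ 200 * H * K.N * h := by linarith

end Pool.Agent.Work.MP_e17eac_co.SK

end

section

/-!
# Arbitrary sets, block SKM, item HASHB: choice of the windows, new classes
-/

namespace Pool.Agent.Work.MP_e17eac_co.SK

open Finset
open Pool.Agent.Work.MP_e17eac_co.DH
open Pool.Agent.Work.MP_e17eac_co.B1

namespace YHASHB

variable {ι : Type} [Fintype ι] [DecidableEq ι]

theorem cell_lt (K : KSys ι) (r x i : ℕ) (hr : 1 ≤ r) (hi : i < K.N) :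
    cell K r x i < r ^ (4 * x) := by
  unfold cell
  have hN : 0 < K.N := by omega
  rw [Nat.div_lt_iff_lt_mul hN]
  have h1 : 0 < r ^ (4 * x) := by positivity
  rw [mul_comm (r ^ (4 * x)) K.N]
  exact Nat.mul_lt_mul_of_pos_right hi h1

theorem skey_inj {β γ : Type} (K : KSys ι) (κ : ι → β) (f : β → γ) (hf : Function.Injective f)
    (h : SKey K κ) : SKey K (fun i => f (κ i)) := by
  intro i j hij
  have hij' : κ i ≠ κ j := fun he => hij (congrArg f he)
  obtain ⟨c, s, h1, h2, h3, h4⟩ := h i j hij'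
  exact ⟨c, s, h1, fun i' hi' => h2 i' (hf hi'), fun j' hj' => h3 j' (hf hj'), h4⟩

theorem key_ne (K : KSys ι) (R : Finset (ℕ × ℕ)) (i j : ι) (h : key K R i ≠ key K R j) :
    ∃ c ∈ R, ∃ s, ¬ (chi K c s i ↔ chi K c s j) := by
  classical
  by_contra hn
  push Not at hn
  apply h
  unfold key
  apply Finset.filter_congr
  intro z hz
  exact hn z.1 (mem_product.1 hz).1 z.2

end YHASHB

open YHASHB in
theorem J_HASHB (hHASH : StHash) (hSKEY : StSKey) (hCUT : StCut) (hWIN : StWin) : StHashB := by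
  classical
  intro ι _ _ K r x hr hn P E κ h A hh hκ hA hE
  obtain ⟨hw1, hw2⟩ := hWIN ι K r x hr
  have hall : ∀ B : ℕ, ∃ R ⊆ (act K r x κ E B).image (win K r x),
      (R.card : ℝ) ≤ 2 * (((act K r x κ E B).image (win K r x)).card / h) *
        Real.log (Fintype.card ι) + 1 ∧
      (∀ i j, key K R i = key K R j →
        ((sep K ((act K r x κ E B).image (win K r x)) i j).card : ℝ) < h) ∧
      ((univ : Finset ι).image (key K R)).card ≤ (2 * R.card + 1) ^ 2 := by
    intro B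
    apply hHASH ι K _ h hh hn
    · intro c hc
      obtain ⟨d, _, rfl⟩ := mem_image.1 hc
      exact (hw1 d).1
    · intro c hc c' hc' hne
      obtain ⟨d, _, rfl⟩ := mem_image.1 hc
      obtain ⟨d', _, rfl⟩ := mem_image.1 hc'
      have hd : d ≠ d' := fun he => hne (by rw [he])
      rcases lt_or_gt_of_ne hd with hlt | hgt
      · exact Or.inl (hw2 d d' hlt)
      · exact Or.inr (hw2 d' d hgt)
  choose R hRW hRc hRs hRk using hall
  have hval : ∀ B, ∀ c ∈ R B, IsWin K c := by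
    intro B c hc
    obtain ⟨d, _, rfl⟩ := mem_image.1 (hRW B hc)
    exact (hw1 d).1
  have hSK := hSKEY ι ℕ K κ R hval hκ
  let κ' : ι → ℕ := fun i => Encodable.encode (κ i, key K (R (κ i)) i)
  have hinj : ∀ p q, κ' p = κ' q → κ p = κ q ∧ key K (R (κ p)) p = key K (R (κ q)) q := by
    intro p q hpq
    have h1 := Encodable.encode_injective hpq
    exact Prod.mk.inj h1
  refine ⟨κ', ?_, ?_, ?_, ?_, ?_⟩
  · exact skey_inj K (fun i => (κ i, key K (R (κ i)) i)) Encodable.encode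
      Encodable.encode_injective hSK
  · intro p q hpq
    exact (hinj p q hpq).1
  · have hsub : (range K.N).filter (fun i => κ (K.a i) = κ (K.b i) ∧ κ' (K.a i) ≠ κ' (K.b i)) ⊆
        (range K.N).filter (fun n => ∃ c ∈ (range (r ^ (4 * x))).image (win K r x), ∃ s,
          ¬ (chi K c s (K.a n) ↔ chi K c s (K.b n))) := by
      intro i hi
      rw [mem_filter] at hi ⊢
      obtain ⟨hi1, hi2, hi3⟩ := hi
      refine ⟨hi1, ?_⟩
      have hk : key K (R (κ (K.a i))) (K.a i) ≠ key K (R (κ (K.a i))) (K.b i) := by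
        intro he
        apply hi3
        show Encodable.encode _ = Encodable.encode _
        rw [← hi2, he]
      obtain ⟨c, hc, s, hs⟩ := key_ne K _ _ _ hk
      refine ⟨c, ?_, s, hs⟩
      obtain ⟨d, hd, rfl⟩ := mem_image.1 (hRW _ hc)
      refine mem_image.2 ⟨d, ?_, rfl⟩
      unfold act at hd
      obtain ⟨j, hj, rfl⟩ := mem_image.1 hd
      exact mem_range.2 (cell_lt K r x j hr (hE j (mem_filter.1 hj).1))
    have h1 := card_le_card hsub
    have h2 := hCUT ι K ((range (r ^ (4 * x))).image (win K r x)) (by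
      intro c hc
      obtain ⟨d, _, rfl⟩ := mem_image.1 hc
      exact (hw1 d).1)
    have h3 : ((range (r ^ (4 * x))).image (win K r x)).card ≤ r ^ (4 * x) := by
      refine card_image_le.trans ?_
      rw [card_range]
    calc _ ≤ _ := h1
      _ ≤ 4 * Fintype.card ι * ((range (r ^ (4 * x))).image (win K r x)).card := by
          convert h2
      _ ≤ 4 * Fintype.card ι * r ^ (4 * x) := Nat.mul_le_mul_left _ h3
  · intro p _ q q' hq hq'
    obtain ⟨h1, h2⟩ := hinj q p hq
    obtain ⟨h3, h4⟩ := hinj q' p hq'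
    rw [h1] at h2
    rw [h3] at h4
    exact (hRs (κ p) q q' (h2.trans h4.symm)).le
  · have hsub : P.image κ' ⊆ (P.image κ).biUnion (fun B =>
        ((univ : Finset ι).image (key K (R B))).image (fun k => Encodable.encode (B, k))) := by
      intro z hz
      obtain ⟨p, hp, rfl⟩ := mem_image.1 hz
      rw [mem_biUnion]
      refine ⟨κ p, mem_image_of_mem κ hp, ?_⟩
      exact mem_image.2 ⟨key K (R (κ p)) p, mem_image.2 ⟨p, mem_univ p, rfl⟩, rfl⟩
    have h1 : (P.image κ').card ≤ ∑ B ∈ P.image κ, (2 * (R B).card + 1) ^ 2 := by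
      refine (card_le_card hsub).trans (card_biUnion_le.trans ?_)
      refine sum_le_sum fun B _ => ?_
      exact card_image_le.trans (hRk B)
    have h2 : ((P.image κ').card : ℝ) ≤ ∑ B ∈ P.image κ, (2 * ((R B).card : ℝ) + 1) ^ 2 := by
      exact_mod_cast h1
    have hlog : 0 ≤ Real.log (Fintype.card ι) := Real.log_natCast_nonneg _
    have h3 : ∀ B ∈ P.image κ, (2 * ((R B).card : ℝ) + 1) ^ 2 ≤
        (4 * (A / h) * Real.log (Fintype.card ι) + 3) ^ 2 := by
      intro B hB
      obtain ⟨p, hp, rfl⟩ := mem_image.1 hB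
      have h4 : ((((act K r x κ E (κ p)).image (win K r x)).card : ℕ) : ℝ) ≤ A := by
        refine le_trans ?_ (hA p hp)
        exact_mod_cast card_image_le
      have h5 := hRc (κ p)
      have h6 : 2 * ((((act K r x κ E (κ p)).image (win K r x)).card : ℝ) / h) *
          Real.log (Fintype.card ι) ≤ 2 * (A / h) * Real.log (Fintype.card ι) := by
        gcongr
      apply pow_le_pow_left₀ (by positivity)
      linarith
    calc ((P.image κ').card : ℝ) ≤ ∑ B ∈ P.image κ, (2 * ((R B).card : ℝ) + 1) ^ 2 := h2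
      _ ≤ ∑ _B ∈ P.image κ, (4 * (A / h) * Real.log (Fintype.card ι) + 3) ^ 2 :=
          sum_le_sum h3
      _ = (P.image κ).card * (4 * (A / h) * Real.log (Fintype.card ι) + 3) ^ 2 := by
          rw [sum_const, nsmul_eq_mul]

end Pool.Agent.Work.MP_e17eac_co.SK

end

section

/-!
# Block SKM: lower bound for the number of classes
-/

namespace Pool.Agent.Work.MP_e17eac_co.SK

open Finset
open Pool.Agent.Work.MP_e17eac_co.DH
open Pool.Agent.Work.MP_e17eac_co.B1

namespace YLOWER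

variable {ι : Type} [Fintype ι] [DecidableEq ι]

/-- A structure has many edges. -/
theorem edges {K : KSys ι} {r m : ℕ} {H D : ℝ} {P : Finset ι} {E : Bool → Finset ℕ}
    (h : TS K r m H D P E) (hD : 0 ≤ D) (hn : 0 < Fintype.card ι) (s : Bool) :
    (K.N : ℝ) ≤ D ^ 2 * ((E s).card : ℝ) := by
  have h1 : (P.card : ℝ) * K.N ≤ D * Fintype.card ι * ((E s).card : ℝ) := by
    have e : ((E s).card : ℝ) = ∑ p ∈ P, (((E s).filter (fun i => K.a i = p)).card : ℝ) := by
      have := card_eq_sum_card_fiberwise (f := K.a) (s := E s) (t := P) (fun i hi => h.aP s i hi)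
      exact_mod_cast this
    rw [e, mul_sum, ← nsmul_eq_mul, ← sum_const]
    exact sum_le_sum (fun p hp => h.deg s p hp)
  have h2 := h.big
  have hn' : (0 : ℝ) < Fintype.card ι := by exact_mod_cast hn
  have h3 : (Fintype.card ι : ℝ) * K.N ≤ D * (P.card * K.N) := by
    have := mul_le_mul_of_nonneg_right h2 (Nat.cast_nonneg K.N : (0 : ℝ) ≤ K.N)
    linarith
  have h4 : (Fintype.card ι : ℝ) * K.N ≤ (Fintype.card ι : ℝ) * (D ^ 2 * ((E s).card : ℝ)) := by
    calc (Fintype.card ι : ℝ) * K.N ≤ D * (P.card * K.N) := h3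
      _ ≤ D * (D * Fintype.card ι * ((E s).card : ℝ)) := mul_le_mul_of_nonneg_left h1 hD
      _ = _ := by ring
  exact le_of_mul_le_mul_left h4 hn'

/-- The fibres of `κ` on the classes of the edges have total size at most `n`. -/
theorem fibres (κ : ι → ℕ) (T : Finset ℕ) :
    ∑ B ∈ T, ((univ : Finset ι).filter (fun p => κ p = B)).card ≤ Fintype.card ι := by
  rw [← card_biUnion]
  · exact card_le_univ _
  · intro B _ B' _ hne
    refine disjoint_left.mpr (fun p hp hp' => hne ?_)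
    rw [mem_filter] at hp hp'
    exact hp.2.symm.trans hp'.2

/-- The realised pairs of cells. -/
theorem pairs {K : KSys ι} {r x : ℕ} {P : Finset ι} {E : Finset ℕ} {κ : ι → ℕ} {A : ℝ}
    (hA : 0 ≤ A) (haP : ∀ i ∈ E, K.a i ∈ P)
    (h4 : ∀ B, (((E.filter (fun i => κ (K.a i) = B)).image (cell K r x)).card : ℝ) ≤ A) :
    (((XU K (fun i => κ (K.a i)) E).image
      (fun z => (cell K r x z.1, cell K r x z.2))).card : ℝ) ≤ (P.image κ).card * A ^ 2 := by
  have h1 : (XU K (fun i => κ (K.a i)) E).image (fun z => (cell K r x z.1, cell K r x z.2)) ⊆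
      (P.image κ).biUnion (fun B => ((E.filter (fun i => κ (K.a i) = B)).image (cell K r x)) ×ˢ
        ((E.filter (fun i => κ (K.a i) = B)).image (cell K r x))) := by
    intro w hw
    rw [mem_image] at hw
    obtain ⟨z, hz, rfl⟩ := hw
    unfold XU crossPairs at hz
    simp only [mem_filter, mem_product] at hz
    obtain ⟨⟨⟨h1, h2⟩, _⟩, h3⟩ := hz
    rw [mem_biUnion]
    refine ⟨κ (K.a z.1), mem_image_of_mem _ (haP _ h1), ?_⟩
    rw [mem_product]
    exact ⟨mem_image_of_mem _ (mem_filter.mpr ⟨h1, rfl⟩),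
      mem_image_of_mem _ (mem_filter.mpr ⟨h2, h3.symm⟩)⟩
  have h2 := (card_le_card h1).trans card_biUnion_le
  have h3 : (((XU K (fun i => κ (K.a i)) E).image
      (fun z => (cell K r x z.1, cell K r x z.2))).card : ℝ) ≤ ∑ B ∈ P.image κ,
      ((((E.filter (fun i => κ (K.a i) = B)).image (cell K r x)).card : ℝ) *
        (((E.filter (fun i => κ (K.a i) = B)).image (cell K r x)).card : ℝ)) := by
    have h2' : ((XU K (fun i => κ (K.a i)) E).image
      (fun z => (cell K r x z.1, cell K r x z.2))).card ≤ ∑ B ∈ P.image κ,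
      (((E.filter (fun i => κ (K.a i) = B)).image (cell K r x)).card *
        ((E.filter (fun i => κ (K.a i) = B)).image (cell K r x)).card) := by
      simpa only [card_product] using h2
    exact_mod_cast h2'
  refine h3.trans ?_
  rw [← nsmul_eq_mul, ← sum_const]
  refine sum_le_sum (fun B _ => ?_)
  have := h4 B
  rw [sq]
  exact mul_le_mul this this (by positivity) hA

/-- The final computation. -/
theorem final {n N e b w R D H V : ℝ} (hR : 0 < R) (hN : 0 < N) (hD : 2 ≤ D) (hH : 0 ≤ H)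
    (hHD : H ≤ D) (he : N ≤ D ^ 2 * e) (hb : 0 ≤ b) (hV0 : 0 ≤ V) (hV : V ≤ n)
    (hdn : n ^ 4 ≤ D ^ 3 * N ^ 3) (hw : w ≤ b * (D * R) ^ 2)
    (hX : e ^ 3 * R ^ 6 ≤ 16384 * V ^ 2 * H ^ 2 * n ^ 2 * w) :
    R ^ 4 ≤ D ^ 27 * b := by
  have hD0 : (0 : ℝ) < D := by linarith
  have h1 : N ^ 3 * R ^ 6 ≤ D ^ 6 * (e ^ 3 * R ^ 6) := by
    have : N ^ 3 ≤ (D ^ 2 * e) ^ 3 := pow_le_pow_left₀ hN.le he 3
    calc N ^ 3 * R ^ 6 ≤ (D ^ 2 * e) ^ 3 * R ^ 6 := by gcongr
      _ = _ := by ring
  have h2 : e ^ 3 * R ^ 6 ≤ 16384 * n ^ 4 * D ^ 2 * (b * (D * R) ^ 2) := by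
    refine hX.trans ?_
    calc 16384 * V ^ 2 * H ^ 2 * n ^ 2 * w ≤ 16384 * V ^ 2 * H ^ 2 * n ^ 2 * (b * (D * R) ^ 2) :=
          mul_le_mul_of_nonneg_left hw (by positivity)
      _ ≤ 16384 * n ^ 2 * D ^ 2 * n ^ 2 * (b * (D * R) ^ 2) := by gcongr
      _ = _ := by ring
  have h3 : N ^ 3 * R ^ 6 ≤ N ^ 3 * (D ^ 27 * b * R ^ 2) := by
    have hp : (16384 : ℝ) ≤ D ^ 14 := by
      calc (16384 : ℝ) = 2 ^ 14 := by norm_num
        _ ≤ D ^ 14 := pow_le_pow_left₀ (by norm_num) hD 14
    calc N ^ 3 * R ^ 6 ≤ D ^ 6 * (e ^ 3 * R ^ 6) := h1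
      _ ≤ D ^ 6 * (16384 * n ^ 4 * D ^ 2 * (b * (D * R) ^ 2)) :=
          mul_le_mul_of_nonneg_left h2 (by positivity)
      _ ≤ D ^ 6 * (D ^ 14 * (D ^ 3 * N ^ 3) * D ^ 2 * (b * (D * R) ^ 2)) := by gcongr
      _ = N ^ 3 * (D ^ 27 * b * R ^ 2) := by ring
  have h4 : R ^ 6 ≤ D ^ 27 * b * R ^ 2 := le_of_mul_le_mul_left h3 (by positivity)
  have h5 : R ^ 4 * R ^ 2 ≤ D ^ 27 * b * R ^ 2 := by
    calc R ^ 4 * R ^ 2 = R ^ 6 := by ring
      _ ≤ _ := h4
  exact le_of_mul_le_mul_right h5 (by positivity)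

end YLOWER

open YLOWER in
theorem J_LOWER (hX : StX) : StLower := by
  refine ⟨27, ?_⟩
  intro ι _ _ K r m H D P E κ x hx hR hT hC
  have hcard := hR.card
  have hn : 0 < Fintype.card ι := by omega
  have hD2 := hR.two
  have hD0 : (0 : ℝ) ≤ D := by linarith
  have hr2 := hR.std.two
  have hr0 : (0 : ℝ) < (r : ℝ) := by exact_mod_cast (by omega : 0 < r)
  have hr1 : (1 : ℝ) ≤ (r : ℝ) := by exact_mod_cast (by omega : 1 ≤ r)
  have hN := hR.N_pos
  have hN' : (0 : ℝ) < (K.N : ℝ) := by exact_mod_cast hN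
  have hH1 := hR.std.one
  have he := edges hT hD0 hn true
  set V : ℕ → ℕ := fun B => ((univ : Finset ι).filter (fun p => κ p = B)).card with hVdef
  have hEr : E true ⊆ range K.N := fun i hi => mem_range.mpr (hT.hyg true i hi).lt
  have hVn : ∑ U ∈ (E true).image (fun i => κ (K.a i)), V U ≤ Fintype.card ι :=
    fibres κ _
  have hlines : ∀ U ∈ (E true).image (fun i => κ (K.a i)), ∀ s,
      (((E true).filter (fun i => κ (K.a i) = U)).image (K.ln s)).card ≤ V U := by
    intro U _ s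
    refine card_le_card ?_
    intro p hp
    rw [mem_image] at hp
    obtain ⟨i, hi, rfl⟩ := hp
    rw [mem_filter] at hi
    rw [mem_filter]
    refine ⟨mem_univ _, ?_⟩
    cases s with
    | false => exact hi.2
    | true => exact (hC.h1 true i hi.1).symm.trans hi.2
  have h32 : 32 * ∑ U ∈ (E true).image (fun i => κ (K.a i)), V U ≤ (E true).card := by
    have h1 : (32 : ℝ) * Fintype.card ι ≤ ((E true).card : ℝ) := by
      have hnN := hR.nN
      have hrD := hR.rD
      have h2 : (32 : ℝ) * D ^ 2 ≤ (r : ℝ) ^ 27 := by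
        calc (32 : ℝ) * D ^ 2 = 2 ^ 5 * D ^ 2 := by norm_num
          _ ≤ D ^ 5 * D ^ 2 := by gcongr
          _ = D ^ 7 := by ring
          _ ≤ D ^ 27 := pow_le_pow_right₀ (by linarith) (by norm_num)
          _ ≤ r := hrD
          _ = (r : ℝ) ^ 1 := (pow_one _).symm
          _ ≤ (r : ℝ) ^ 27 := pow_le_pow_right₀ hr1 (by norm_num)
      have h3 : D ^ 2 * (32 * (Fintype.card ι : ℝ)) ≤ D ^ 2 * ((E true).card : ℝ) := by
        calc D ^ 2 * (32 * (Fintype.card ι : ℝ)) = (Fintype.card ι : ℝ) * (32 * D ^ 2) := by ring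
          _ ≤ (Fintype.card ι : ℝ) * (r : ℝ) ^ 27 := by gcongr
          _ ≤ K.N := hnN
          _ ≤ _ := he
      exact le_of_mul_le_mul_left h3 (by positivity)
    have h4 : 32 * Fintype.card ι ≤ (E true).card := by exact_mod_cast h1
    exact (Nat.mul_le_mul_left 32 hVn).trans h4
  have key := hX ι ℕ K hR.std.inj r x (by omega) H (by linarith) (fun i => κ (K.a i)) V
    (E true) hEr (fun i hi => (hT.hyg true i hi).crowd x hx) hlines h32
  have hw := pairs (K := K) (r := r) (x := x) (P := P) (E := E true) (κ := κ)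
    (A := D * (r : ℝ) ^ x) (by positivity) (hT.aP true) (hC.h4 true)
  have e6 : ((r : ℝ) ^ x) ^ 6 = (r : ℝ) ^ (6 * x) := by rw [← pow_mul, mul_comm]
  rw [← e6] at key
  have hVn' : ((∑ U ∈ (E true).image (fun i => κ (K.a i)), V U : ℕ) : ℝ) ≤ Fintype.card ι := by
    exact_mod_cast hVn
  have hV0 : (0 : ℝ) ≤ ((∑ U ∈ (E true).image (fun i => κ (K.a i)), V U : ℕ) : ℝ) :=
    Nat.cast_nonneg _
  have hfin := final (pow_pos hr0 x) hN' hD2 (by linarith) hR.H_le he
    (Nat.cast_nonneg _) hV0 hVn' hR.dense hw key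
  have e4 : ((r : ℝ) ^ x) ^ 4 = (r : ℝ) ^ (4 * x) := by rw [← pow_mul, mul_comm]
  rwa [e4] at hfin

end Pool.Agent.Work.MP_e17eac_co.SK

end

section

/-!
# Item STAB: stable substructures
-/

set_option autoImplicit false

namespace Pool.Agent.Work.MP_e17eac_co.SK

open Finset
open Pool.Agent.Work.MP_e17eac_co.DH
open Pool.Agent.Work.MP_e17eac_co.B1

theorem J_STAB : StStab := by
  intro ι _ _ K r m H κ C1 k _ hr hn D P E hD hTS hcard
  by_contra hcon
  have hcon' : ∀ j ≤ k, ∀ (P' : Finset ι) (E' : Bool → Finset ℕ), SubTS P' E' P E →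
      TS K r m H (D ^ (C1 ^ j)) P' E' → ∃ (P'' : Finset ι) (E'' : Bool → Finset ℕ),
        SubTS P'' E'' P' E' ∧ TS K r m H ((D ^ (C1 ^ j)) ^ C1) P'' E'' ∧
        r * (P''.image κ).card < (P'.image κ).card := by
    intro j hj P' E' h1 h2
    by_contra hno
    refine hcon ⟨j, hj, P', E', h1, h2, ?_⟩
    intro P'' E'' h3 h4
    by_contra h5
    exact hno ⟨P'', E'', h3, h4, not_le.1 h5⟩
  have hcardN : (P.image κ).card ≤ r ^ k := by exact_mod_cast hcard
  have key : ∀ i ≤ k, ∃ (P' : Finset ι) (E' : Bool → Finset ℕ), SubTS P' E' P E ∧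
      TS K r m H (D ^ (C1 ^ i)) P' E' ∧ (P'.image κ).card * r ^ i ≤ r ^ k := by
    intro i
    induction i with
    | zero =>
      intro _
      refine ⟨P, E, subts_refl P E, ?_, ?_⟩
      · rw [pow_zero, pow_one]
        exact hTS
      · rw [pow_zero, mul_one]
        exact hcardN
    | succ i ih =>
      intro hi
      obtain ⟨P', E', h1, h2, h3⟩ := ih (by omega)
      obtain ⟨P'', E'', h4, h5, h6⟩ := hcon' i (by omega) P' E' h1 h2
      refine ⟨P'', E'', subts_trans h1 h4, ?_, ?_⟩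
      · rw [pow_succ, pow_mul]
        exact h5
      · calc (P''.image κ).card * r ^ (i + 1) = (r * (P''.image κ).card) * r ^ i := by ring
          _ ≤ (P'.image κ).card * r ^ i := Nat.mul_le_mul_right _ h6.le
          _ ≤ r ^ k := h3
  obtain ⟨P', E', h1, h2, h3⟩ := key k le_rfl
  obtain ⟨P'', E'', h4, h5, h6⟩ := hcon' k le_rfl P' E' h1 h2
  have hrk : 0 < r ^ k := by positivity
  have hc1 : (P'.image κ).card ≤ 1 := by
    by_contra hlt
    have : 2 * r ^ k ≤ (P'.image κ).card * r ^ k := Nat.mul_le_mul_right _ (by omega)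
    omega
  have hc0 : r * (P''.image κ).card = 0 := by omega
  have hc2 : (P''.image κ).card = 0 := by
    rcases Nat.mul_eq_zero.1 hc0 with h | h
    · omega
    · exact h
  have hne : P''.Nonempty := ts_nonempty h5 hn
  have := (hne.image κ).card_pos
  omega

end Pool.Agent.Work.MP_e17eac_co.SK

end

section

/-!
# Trivial bound for the number of units
-/

namespace Pool.Agent.Work.MP_e17eac_co.SK

open Finset
open Pool.Agent.Work.MP_e17eac_co.DH
open Pool.Agent.Work.MP_e17eac_co.B1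

namespace YUTRIV

variable {ι : Type} [Fintype ι] [DecidableEq ι]

theorem cell_div (K : KSys ι) (r x0 x : ℕ) (hr : 1 ≤ r) (hx : x0 ≤ x) (i : ℕ) :
    cell K r x i / r ^ (4 * (x - x0)) = cell K r x0 i := by
  unfold cell
  have hR : 0 < r ^ (4 * (x - x0)) := Nat.pow_pos (by omega)
  have h1 : r ^ (4 * x) = r ^ (4 * x0) * r ^ (4 * (x - x0)) := by
    rw [← pow_add]
    congr 1
    omega
  rw [Nat.div_div_eq_div_mul, h1, ← mul_assoc, Nat.mul_div_mul_right _ _ hR]

end YUTRIV

open YUTRIV in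
theorem J_UTRIV : StUTriv := by
  intro ι _ _ K r m H D P E κ x0 x hr hx hD haP hC s
  have hR : 0 < r ^ (4 * (x - x0)) := Nat.pow_pos (by omega)
  have hsub : (E s).image (fun i => (cell K r x i, κ (K.a i))) ⊆
      (P.image κ).biUnion (fun B =>
        (((E s).filter (fun i => κ (K.a i) = B)).image (cell K r x0)).biUnion
          (fun c0 => (range (r ^ (4 * (x - x0)))).image
            (fun j => (r ^ (4 * (x - x0)) * c0 + j, B)))) := by
    intro u hu
    obtain ⟨i, hi, rfl⟩ := mem_image.1 hu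
    rw [mem_biUnion]
    refine ⟨κ (K.a i), mem_image_of_mem _ (haP s i hi), ?_⟩
    rw [mem_biUnion]
    refine ⟨cell K r x0 i, mem_image_of_mem _ (mem_filter.2 ⟨hi, rfl⟩), ?_⟩
    rw [mem_image]
    refine ⟨cell K r x i % r ^ (4 * (x - x0)), mem_range.2 (Nat.mod_lt _ hR), ?_⟩
    rw [← cell_div K r x0 x hr hx i, Nat.div_add_mod]
  have h1 := (card_le_card hsub).trans card_biUnion_le
  have h2 : ∀ B ∈ P.image κ, (((((E s).filter (fun i => κ (K.a i) = B)).image
      (cell K r x0)).biUnion (fun c0 => (range (r ^ (4 * (x - x0)))).image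
        (fun j => (r ^ (4 * (x - x0)) * c0 + j, B)))).card : ℝ) ≤
      D * (r : ℝ) ^ x0 * (r : ℝ) ^ (4 * (x - x0)) := by
    intro B _
    have h3 : ((((E s).filter (fun i => κ (K.a i) = B)).image
      (cell K r x0)).biUnion (fun c0 => (range (r ^ (4 * (x - x0)))).image
        (fun j => (r ^ (4 * (x - x0)) * c0 + j, B)))).card ≤
        (((E s).filter (fun i => κ (K.a i) = B)).image (cell K r x0)).card *
          r ^ (4 * (x - x0)) := by
      refine card_biUnion_le_card_mul _ _ _ (fun c0 _ => ?_)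
      exact card_image_le.trans (card_range _).le
    have h4 := hC.h4 s B
    have h5 : (((((E s).filter (fun i => κ (K.a i) = B)).image
      (cell K r x0)).biUnion (fun c0 => (range (r ^ (4 * (x - x0)))).image
        (fun j => (r ^ (4 * (x - x0)) * c0 + j, B)))).card : ℝ) ≤
        ((((E s).filter (fun i => κ (K.a i) = B)).image (cell K r x0)).card : ℝ) *
          (r : ℝ) ^ (4 * (x - x0)) := by exact_mod_cast h3
    exact h5.trans (mul_le_mul_of_nonneg_right h4 (by positivity))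
  have h6 : (Un K r x κ (E s) : ℝ) ≤ ∑ B ∈ P.image κ,
      (((((E s).filter (fun i => κ (K.a i) = B)).image
      (cell K r x0)).biUnion (fun c0 => (range (r ^ (4 * (x - x0)))).image
        (fun j => (r ^ (4 * (x - x0)) * c0 + j, B)))).card : ℝ) := by
    unfold Un
    exact_mod_cast h1
  refine (h6.trans (sum_le_sum h2)).trans ?_
  rw [sum_const, nsmul_eq_mul]
  apply le_of_eq
  ring

end Pool.Agent.Work.MP_e17eac_co.SK

end

section

/-!
# Windows of cells
-/

namespace Pool.Agent.Work.MP_e17eac_co.SK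

open Finset
open Pool.Agent.Work.MP_e17eac_co.DH
open Pool.Agent.Work.MP_e17eac_co.B1

namespace YWIN

/-- A finite initial segment of the natural numbers is a range. -/
theorem eq_range (A : Finset ℕ) (h : ∀ i ∈ A, ∀ j, j ≤ i → j ∈ A) : A = range A.card := by
  apply eq_of_subset_of_card_le
  · intro i hi
    rw [mem_range]
    have h1 : range (i + 1) ⊆ A := by
      intro j hj
      exact h i hi j (by rw [mem_range] at hj; omega)
    have h2 := card_le_card h1
    rw [card_range] at h2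
    omega
  · rw [card_range]

variable {ι : Type} [Fintype ι] [DecidableEq ι]

theorem cell_mono (K : KSys ι) (r x : ℕ) {i j : ℕ} (h : i ≤ j) :
    cell K r x i ≤ cell K r x j := by
  unfold cell
  exact Nat.div_le_div_right (Nat.mul_le_mul_right _ h)

theorem mem_lt (K : KSys ι) (r x c i : ℕ) :
    i < (win K r x c).1 ↔ i < K.N ∧ cell K r x i < c := by
  have h := eq_range ((range K.N).filter (fun i => cell K r x i < c)) (by
    intro i hi j hj
    rw [mem_filter, mem_range] at hi ⊢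
    exact ⟨lt_of_le_of_lt hj hi.1, lt_of_le_of_lt (cell_mono K r x hj) hi.2⟩)
  have e : (win K r x c).1 = ((range K.N).filter (fun i => cell K r x i < c)).card := rfl
  rw [e, ← mem_range, ← h, mem_filter, mem_range]

theorem mem_le (K : KSys ι) (r x c i : ℕ) :
    i < (win K r x c).2 ↔ i < K.N ∧ cell K r x i ≤ c := by
  have h := eq_range ((range K.N).filter (fun i => cell K r x i ≤ c)) (by
    intro i hi j hj
    rw [mem_filter, mem_range] at hi ⊢
    exact ⟨lt_of_le_of_lt hj hi.1, le_trans (cell_mono K r x hj) hi.2⟩)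
  have e : (win K r x c).2 = ((range K.N).filter (fun i => cell K r x i ≤ c)).card := rfl
  rw [e, ← mem_range, ← h, mem_filter, mem_range]

theorem main (K : KSys ι) (r x : ℕ) :
    (∀ c, IsWin K (win K r x c) ∧ vs K (win K r x c) = vis K r x c) ∧
    ∀ c c', c < c' → (win K r x c).2 ≤ (win K r x c').1 := by
  refine ⟨fun c => ⟨⟨?_, ?_⟩, ?_⟩, ?_⟩
  · by_contra hc
    rw [not_le] at hc
    have h1 := (mem_lt K r x c _).1 hc
    exact lt_irrefl _ ((mem_le K r x c _).2 ⟨h1.1, h1.2.le⟩)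
  · by_contra hc
    rw [not_le] at hc
    exact lt_irrefl _ ((mem_le K r x c _).1 hc).1
  · unfold vs vis
    have e : Ico (win K r x c).1 (win K r x c).2 = ce K r x c := by
      ext i
      rw [mem_Ico, ← not_lt, mem_lt, mem_le]
      unfold ce
      rw [mem_filter, mem_range]
      constructor
      · rintro ⟨h1, h2, h3⟩
        refine ⟨h2, le_antisymm h3 ?_⟩
        by_contra h4
        exact h1 ⟨h2, not_le.1 h4⟩
      · rintro ⟨h1, h2⟩
        exact ⟨fun h3 => absurd h3.2 (by rw [h2]; exact lt_irrefl _), h1, h2.le⟩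
    rw [e]
  · intro c c' hc
    by_contra h
    rw [not_le] at h
    have h1 := (mem_le K r x c _).1 h
    exact lt_irrefl _ ((mem_lt K r x c' _).2 ⟨h1.1, lt_of_le_of_lt h1.2 hc⟩)

end YWIN

theorem J_WIN : StWin := fun _ _ _ K r x _ => YWIN.main K r x

end Pool.Agent.Work.MP_e17eac_co.SK

end
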