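import Pool.Agent.Work.MP_e17eac_co.Bd.B23
import Pool.Agent.Work.MP_e17eac_co.Bd.B30

/-! Bundle of small proof modules (one section per former module). -/

section

/-!
# Project PS: sets such that the set or one of its projections to a line has polynomial spread
-/

namespace Pool.Agent.Work.MP_e17eac_co.PS

open Finset
open Pool.Agent.Work.MP_e17eac_co.DH

/-- The spread (largest distance over smallest distance) of `P` is at most `|P| ^ B`. -/
def SpreadLe (B : ℝ) (P : Finset (ℝ × ℝ)) : Prop :=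
  ∃ d : ℝ, 0 < d ∧ ∀ p ∈ P, ∀ q ∈ P, p ≠ q →
    d ≤ Real.sqrt ((p.1 - q.1) ^ 2 + (p.2 - q.2) ^ 2) ∧
    Real.sqrt ((p.1 - q.1) ^ 2 + (p.2 - q.2) ^ 2) ≤ (P.card : ℝ) ^ B * d

/-- Some linear projection of `P` to the line is injective with spread at most `|P| ^ B`. -/
def ProjSpreadLe (B : ℝ) (P : Finset (ℝ × ℝ)) : Prop :=
  ∃ a b w : ℝ, 0 < w ∧ ∀ p ∈ P, ∀ q ∈ P, p ≠ q →
    w ≤ |(a * p.1 + b * p.2) - (a * q.1 + b * q.2)| ∧
    |(a * p.1 + b * p.2) - (a * q.1 + b * q.2)| ≤ (P.card : ℝ) ^ B * w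

/-- Main theorem for point sets, in the form of the hand-in. -/
def StU : Prop := ∀ B : ℝ, 1 ≤ B → ∃ c : ℝ, 0 < c ∧ ∃ C : ℝ, 0 < C ∧
  ∀ P : Finset (ℝ × ℝ), GenPos P → (SpreadLe B P ∨ ProjSpreadLe B P) →
  ∀ k : ℕ, ((kEdges P k).card : ℝ) ≤ C * (P.card : ℝ) ^ ((4 : ℝ) / 3 - c)

namespace XResU

/-- The rotation with dilation taking the functional `a x + b y` to the first coordinate. -/
def lin (a b : ℝ) (p : ℝ × ℝ) : ℝ × ℝ := (a * p.1 + b * p.2, -(b * p.1) + a * p.2)

theorem lin_inj (a b : ℝ) (h : 0 < a ^ 2 + b ^ 2) : Function.Injective (lin a b) := by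
  intro p q hpq
  unfold lin at hpq
  rw [Prod.mk.injEq] at hpq
  obtain ⟨h1, h2⟩ := hpq
  have e1 : (a ^ 2 + b ^ 2) * (p.1 - q.1) = 0 := by linear_combination a * h1 - b * h2
  have e2 : (a ^ 2 + b ^ 2) * (p.2 - q.2) = 0 := by linear_combination b * h1 + a * h2
  have e3 := (mul_eq_zero.1 e1).resolve_left h.ne'
  have e4 := (mul_eq_zero.1 e2).resolve_left h.ne'
  exact Prod.ext (by linarith) (by linarith)

theorem side_lin (a b : ℝ) (p q r : ℝ × ℝ) :
    side (lin a b p) (lin a b q) (lin a b r) = (a ^ 2 + b ^ 2) * side p q r := by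
  unfold side lin
  ring

theorem kEdges_card_le {f : ℝ × ℝ → ℝ × ℝ} (hf : Function.Injective f) (D : ℝ) (hD : 0 < D)
    (hs : ∀ p q r, side (f p) (f q) (f r) = D * side p q r) (P : Finset (ℝ × ℝ)) (k : ℕ) :
    (kEdges P k).card ≤ (kEdges (P.image f) k).card := by
  classical
  have hQ : ∀ p, p ∈ P.image f ↔ ∃ p' ∈ P, f p' = p := by
    intro p
    rw [Finset.mem_image]
  apply Finset.card_le_card_of_injOn (fun e => e.image f)
  · intro e he
    rw [Finset.mem_coe] at he ⊢
    unfold kEdges at he ⊢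
    rw [Finset.mem_filter, Finset.mem_powersetCard] at he ⊢
    obtain ⟨⟨he1, he2⟩, p, q, hpq, hk⟩ := he
    refine ⟨⟨Finset.image_subset_image he1, ?_⟩, f p, f q, ?_, ?_⟩
    · rw [Finset.card_image_of_injective e hf, he2]
    · simp only [hpq, Finset.image_insert, Finset.image_singleton]
    · refine XPtArea.isKEdge_image hf (fun p q r => ?_) (fun p q r => ?_) hQ hk
      · rw [hs, mul_pos_iff_of_pos_left hD]
      · rw [hs]
        constructor
        · intro h
          by_contra hcon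
          push Not at hcon
          have := mul_nonneg hD.le hcon
          linarith
        · intro h
          exact mul_neg_of_pos_of_neg hD h
  · exact (Finset.image_injective hf).injOn

end XResU

open XResU in
theorem I_ResU (hX : StX) (hS : StSpr) : StU := by
  classical
  intro B hB
  obtain ⟨c1, hc1, C1, hC1, h1⟩ := hX B hB
  obtain ⟨c2, hc2, C2, hC2, h2⟩ := hS B hB
  refine ⟨min c1 c2, lt_min hc1 hc2, C1 + C2, by linarith, ?_⟩
  intro P hgen hP k
  rcases Nat.lt_or_ge P.card 2 with hcard | hcard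
  · rw [XResS.small P hcard, Nat.cast_zero]
    positivity
  have hn2 : (2 : ℝ) ≤ (P.card : ℝ) := by exact_mod_cast hcard
  have hn1 : (1 : ℝ) ≤ (P.card : ℝ) := by linarith
  have hmono : ∀ c', min c1 c2 ≤ c' → (P.card : ℝ) ^ ((4 : ℝ) / 3 - c') ≤
      (P.card : ℝ) ^ ((4 : ℝ) / 3 - min c1 c2) := by
    intro c' hc'
    exact Real.rpow_le_rpow_of_exponent_le hn1 (by linarith)
  have hpos : 0 ≤ (P.card : ℝ) ^ ((4 : ℝ) / 3 - min c1 c2) := by positivity
  rcases hP with ⟨d, hd, hP⟩ | ⟨a, b, w, hw, hP⟩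
  · have := h2 P d hd hgen hP k
    have h3 := mul_le_mul_of_nonneg_left (hmono c2 (min_le_right _ _)) hC2.le
    have h4 : 0 ≤ C1 * (P.card : ℝ) ^ ((4 : ℝ) / 3 - min c1 c2) := by positivity
    linarith
  · -- the functional is nonzero
    have hab : 0 < a ^ 2 + b ^ 2 := by
      obtain ⟨p, hp, q, hq, hpq⟩ := Finset.one_lt_card.1 (by omega : 1 < P.card)
      have h3 := (hP p hp q hq hpq).1
      by_contra hcon
      have ha : a = 0 := by
        have : a ^ 2 ≤ 0 := by nlinarith [sq_nonneg b]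
        exact pow_eq_zero_iff (two_ne_zero) |>.1 (le_antisymm this (sq_nonneg a))
      have hb : b = 0 := by
        have : b ^ 2 ≤ 0 := by nlinarith [sq_nonneg a]
        exact pow_eq_zero_iff (two_ne_zero) |>.1 (le_antisymm this (sq_nonneg b))
      rw [ha, hb] at h3
      simp only [zero_mul, add_zero, sub_self, abs_zero] at h3
      linarith
    have hinj := lin_inj a b hab
    have hcardi : (P.image (lin a b)).card = P.card := Finset.card_image_of_injective P hinj
    have hgen' : GenPos (P.image (lin a b)) := by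
      intro p hp q hq r hr hpq hpr hqr
      obtain ⟨p', hp', rfl⟩ := Finset.mem_image.mp hp
      obtain ⟨q', hq', rfl⟩ := Finset.mem_image.mp hq
      obtain ⟨r', hr', rfl⟩ := Finset.mem_image.mp hr
      rw [side_lin]
      exact mul_ne_zero hab.ne' (hgen p' hp' q' hq' r' hr' (fun e => hpq (by rw [e]))
        (fun e => hpr (by rw [e])) (fun e => hqr (by rw [e])))
    have hmain := h1 (P.image (lin a b)) w hw hgen' ?_ k
    · rw [hcardi] at hmain
      have h3 : ((kEdges P k).card : ℝ) ≤ ((kEdges (P.image (lin a b)) k).card : ℝ) := by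
        exact_mod_cast kEdges_card_le hinj (a ^ 2 + b ^ 2) hab (side_lin a b) P k
      have h4 := mul_le_mul_of_nonneg_left (hmono c1 (min_le_left _ _)) hC1.le
      have h5 : 0 ≤ C2 * (P.card : ℝ) ^ ((4 : ℝ) / 3 - min c1 c2) := by positivity
      linarith
    · intro p hp q hq hpq
      obtain ⟨p', hp', rfl⟩ := Finset.mem_image.mp hp
      obtain ⟨q', hq', rfl⟩ := Finset.mem_image.mp hq
      rw [hcardi]
      exact hP p' hp' q' hq' (fun e => hpq (by rw [e]))

end Pool.Agent.Work.MP_e17eac_co.PS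

end

section

/-!
# Item GOOD0: the trivial classes
-/

namespace Pool.Agent.Work.MP_e17eac_co.SK

open Finset
open Pool.Agent.Work.MP_e17eac_co.DH
open Pool.Agent.Work.MP_e17eac_co.B1

theorem J_GOOD0 (hCell : StCell) : StGood0 := by
  refine ⟨1, ?_⟩
  intro ι _ _ K r m H D P E _ hR hT
  have hr : 1 ≤ r := by
    have := hR.std.two
    omega
  have hD : (1 : ℝ) ≤ D := hR.one_le
  have hc : ∀ i, i < K.N → cell K r 0 i = 0 := (hCell ι K r 0 hr).2.2.2.1
  refine ⟨P, E, fun _ => 0, subts_refl P E, ?_, ?_, ?_⟩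
  · rw [pow_one]
    exact hT
  · refine ⟨fun i j hij => absurd rfl hij, fun s i _ => rfl, ?_, ?_⟩
    · intro s B
      rw [pow_one, pow_zero, mul_one]
      have h1 : (((E s).filter (fun _ => 0 = B)).image (cell K r 0)).card ≤ 1 := by
        rw [card_le_one]
        intro u hu v hv
        obtain ⟨i, hi, rfl⟩ := mem_image.mp hu
        obtain ⟨j, hj, rfl⟩ := mem_image.mp hv
        rw [hc i (hT.hyg s i (mem_filter.mp hi).1).lt, hc j (hT.hyg s j (mem_filter.mp hj).1).lt]
      have h2 : ((((E s).filter (fun _ => 0 = B)).image (cell K r 0)).card : ℝ) ≤ 1 := by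
        exact_mod_cast h1
      exact h2.trans hD
    · intro s i hi
      have h1 : ((PS K r m H).filter (fun _ => (0 : ℕ) = 0)) \ vis K r 0 (cell K r 0 i) = ∅ := by
        rw [sdiff_eq_empty_iff_subset]
        intro p hp
        have h2 : p ∈ K.lines (range K.N) :=
          (mem_filter.mp (mem_filter.mp hp).1).1
        have h3 : ce K r 0 (cell K r 0 i) = range K.N := by
          rw [ce, filter_eq_self]
          intro j hj
          rw [hc i (hT.hyg s i hi).lt, hc j (mem_range.mp hj)]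
        rw [vis, h3]
        exact h2
      rw [h1, card_empty, mul_zero]
      exact Nat.zero_le _
  · rw [pow_zero]
    have h1 : (P.image (fun _ => (0 : ℕ))).card ≤ 1 := by
      rw [card_le_one]
      intro u hu v hv
      obtain ⟨i, _, rfl⟩ := mem_image.mp hu
      obtain ⟨j, _, rfl⟩ := mem_image.mp hv
      rfl
    exact_mod_cast h1

end Pool.Agent.Work.MP_e17eac_co.SK

end

section

/-!
# Light units carry few edges
-/

namespace Pool.Agent.Work.MP_e17eac_co.SK

open Finset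
open Pool.Agent.Work.MP_e17eac_co.DH
open Pool.Agent.Work.MP_e17eac_co.B1

namespace YLIGHT

/-- Counting pairs by fibres. -/
theorem card_pair {υ α : Type} [DecidableEq υ] [DecidableEq α] (u : ℕ → υ) (g : ℕ → α)
    (F : Finset ℕ) : (F.image (fun i => (u i, g i))).card =
      ∑ U ∈ F.image u, ((F.filter (fun j => u j = U)).image g).card := by
  have hm : ((F.image (fun i => (u i, g i)) : Finset (υ × α)) : Set (υ × α)).MapsTo Prod.fst
      (F.image u : Finset υ) := by
    intro p hp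
    simp only [coe_image, Set.mem_image, mem_coe] at hp ⊢
    obtain ⟨i, hi, rfl⟩ := hp
    exact ⟨i, hi, rfl⟩
  rw [card_eq_sum_card_fiberwise hm]
  refine sum_congr rfl (fun U _ => ?_)
  have : (F.image (fun i => (u i, g i))).filter (fun p => p.1 = U) =
      ((F.filter (fun j => u j = U)).image g).image (fun y => (U, y)) := by
    ext ⟨p, q⟩
    simp only [mem_filter, mem_image, Prod.mk.injEq]
    constructor
    · rintro ⟨⟨i, hi, h1, h2⟩, h3⟩
      exact ⟨q, ⟨i, ⟨hi, h1.trans h3⟩, h2⟩, h3.symm, rfl⟩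
    · rintro ⟨y, ⟨i, ⟨hi, h1⟩, h2⟩, h3, h4⟩
      exact ⟨⟨i, hi, h1.trans h3, h2.trans h4⟩, h3.symm⟩
  rw [this]
  exact card_image_of_injective _ (fun y z h => (Prod.mk.injEq _ _ _ _ ▸ h).2)

/-- Hoelder for four factors. -/
theorem holder4 {υ : Type} (V : Finset υ) (x a b c d : υ → ℝ) (_hx : ∀ U ∈ V, 0 ≤ x U)
    (ha : ∀ U ∈ V, 0 ≤ a U) (hb : ∀ U ∈ V, 0 ≤ b U) (hc : ∀ U ∈ V, 0 ≤ c U)
    (hd : ∀ U ∈ V, 0 ≤ d U) (h : ∀ U ∈ V, x U ^ 4 ≤ a U * b U * (c U * d U)) :
    (∑ U ∈ V, x U) ^ 4 ≤ (∑ U ∈ V, a U) * (∑ U ∈ V, b U) * ((∑ U ∈ V, c U) * ∑ U ∈ V, d U) := by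
  have h1 : (∑ U ∈ V, x U) ^ 2 ≤ (∑ U ∈ V, √(a U * b U)) * ∑ U ∈ V, √(c U * d U) := by
    refine sum_sq_le_sum_mul_sum_of_sq_le_mul V (fun i _ => Real.sqrt_nonneg _)
      (fun i _ => Real.sqrt_nonneg _) (fun i hi => ?_)
    rw [← Real.sqrt_mul (mul_nonneg (ha i hi) (hb i hi))]
    apply Real.le_sqrt_of_sq_le
    calc (x i ^ 2) ^ 2 = x i ^ 4 := by ring
      _ ≤ _ := h i hi
  have h2 : (∑ U ∈ V, √(a U * b U)) ^ 2 ≤ (∑ U ∈ V, a U) * ∑ U ∈ V, b U :=
    sum_sq_le_sum_mul_sum_of_sq_le_mul V ha hb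
      (fun i hi => le_of_eq (Real.sq_sqrt (mul_nonneg (ha i hi) (hb i hi))))
  have h3 : (∑ U ∈ V, √(c U * d U)) ^ 2 ≤ (∑ U ∈ V, c U) * ∑ U ∈ V, d U :=
    sum_sq_le_sum_mul_sum_of_sq_le_mul V hc hd
      (fun i hi => le_of_eq (Real.sq_sqrt (mul_nonneg (hc i hi) (hd i hi))))
  calc (∑ U ∈ V, x U) ^ 4 = ((∑ U ∈ V, x U) ^ 2) ^ 2 := by ring
    _ ≤ ((∑ U ∈ V, √(a U * b U)) * ∑ U ∈ V, √(c U * d U)) ^ 2 := by
        exact pow_le_pow_left₀ (sq_nonneg _) h1 2
    _ = (∑ U ∈ V, √(a U * b U)) ^ 2 * (∑ U ∈ V, √(c U * d U)) ^ 2 := by ring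
    _ ≤ _ := mul_le_mul h2 h3 (sq_nonneg _)
        (mul_nonneg (sum_nonneg ha) (sum_nonneg hb))

/-- Sums over a subset. -/
theorem sub_le {υ α : Type} [DecidableEq υ] [DecidableEq α] (u : ℕ → υ) (g : ℕ → α)
    (F : Finset ℕ) (G : Finset υ) (hG : G ⊆ F.image u) :
    ∑ U ∈ G, ((((F.filter (fun j => u j = U)).image g).card : ℕ) : ℝ) ≤
      ((F.image (fun i => (u i, g i))).card : ℝ) := by
  rw [card_pair u g F, Nat.cast_sum]
  exact sum_le_sum_of_subset_of_nonneg hG (fun _ _ _ => Nat.cast_nonneg _)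

end YLIGHT

open YLIGHT in
theorem J_LIGHT (hDey : StDey) : StLight := by
  intro ι υ _ _ _ K hinj u F θ hF hθ hth
  classical
  set V := F.image u with hV
  set FU : υ → Finset ℕ := fun U => F.filter (fun j => u j = U) with hFU
  set G := V.filter (fun U => 16 * ((FU U).image K.a).card ≤ (FU U).card ∧
    16 * ((FU U).image K.b).card ≤ (FU U).card) with hG
  have hGV : G ⊆ F.image u := filter_subset _ _
  refine ⟨∑ U ∈ G, ((FU U).card : ℝ), sum_nonneg (fun _ _ => Nat.cast_nonneg _), ?_, ?_⟩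
  · have hcard : (F.card : ℝ) = ∑ U ∈ V, ((FU U).card : ℝ) := by
      rw [card_eq_sum_card_image u F, Nat.cast_sum]
    have hsplit : (F.card : ℝ) = ∑ U ∈ G, ((FU U).card : ℝ) +
        ∑ U ∈ V.filter (fun U => ¬ (16 * ((FU U).image K.a).card ≤ (FU U).card ∧
          16 * ((FU U).image K.b).card ≤ (FU U).card)), ((FU U).card : ℝ) := by
      rw [hcard, hG, sum_filter_add_sum_filter_not]
    have hbad : ∑ U ∈ V.filter (fun U => ¬ (16 * ((FU U).image K.a).card ≤ (FU U).card ∧
          16 * ((FU U).image K.b).card ≤ (FU U).card)), ((FU U).card : ℝ) ≤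
        ∑ U ∈ V.filter (fun U => ¬ (16 * ((FU U).image K.a).card ≤ (FU U).card ∧
          16 * ((FU U).image K.b).card ≤ (FU U).card)),
          (16 * (((FU U).image K.a).card : ℝ) + 16 * (((FU U).image K.b).card : ℝ)) := by
      refine sum_le_sum (fun U hU => ?_)
      have h := (mem_filter.1 hU).2
      have h' : (FU U).card ≤ 16 * ((FU U).image K.a).card + 16 * ((FU U).image K.b).card := by
        by_contra hc
        exact h ⟨by omega, by omega⟩
      exact_mod_cast h'
    have hA := sub_le u K.a F (V.filter (fun U => ¬ (16 * ((FU U).image K.a).card ≤ (FU U).card ∧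
          16 * ((FU U).image K.b).card ≤ (FU U).card))) (filter_subset _ _)
    have hB := sub_le u K.b F (V.filter (fun U => ¬ (16 * ((FU U).image K.a).card ≤ (FU U).card ∧
          16 * ((FU U).image K.b).card ≤ (FU U).card))) (filter_subset _ _)
    rw [sum_add_distrib, ← mul_sum, ← mul_sum] at hbad
    rw [hsplit]
    linarith
  · have key : ∀ U ∈ G, ((FU U).card : ℝ) ^ 4 ≤
        (2048 * θ * (((FU U).image K.a).card : ℝ)) * (((FU U).image K.b).card : ℝ) *
          ((((FU U).image K.tokB).card : ℝ) * (((FU U).image K.tokT).card : ℝ)) := by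
      intro U hU
      obtain ⟨hUV, h1, h2⟩ := mem_filter.1 hU
      obtain ⟨i, hi, rfl⟩ := mem_image.1 hUV
      have hD := hDey ι K hinj (FU (u i))
        (fun n hn => mem_range.1 (hF (filter_subset _ _ hn))) h1 h2
      have hD' : ((FU (u i)).card : ℝ) ^ 3 ≤ 2048 * ((((FU (u i)).image K.a).card : ℝ) *
          (((FU (u i)).image K.b).card : ℝ) * ((((FU (u i)).image K.tokB).card : ℝ) *
            (((FU (u i)).image K.tokT).card : ℝ))) := by exact_mod_cast hD
      have ht : ((FU (u i)).card : ℝ) ≤ θ := hth i hi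
      calc ((FU (u i)).card : ℝ) ^ 4 = ((FU (u i)).card : ℝ) * ((FU (u i)).card : ℝ) ^ 3 := by ring
        _ ≤ θ * (2048 * ((((FU (u i)).image K.a).card : ℝ) *
          (((FU (u i)).image K.b).card : ℝ) * ((((FU (u i)).image K.tokB).card : ℝ) *
            (((FU (u i)).image K.tokT).card : ℝ)))) :=
            mul_le_mul ht hD' (by positivity) hθ
        _ = _ := by ring
    have hH := holder4 G (fun U => ((FU U).card : ℝ))
      (fun U => 2048 * θ * (((FU U).image K.a).card : ℝ))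
      (fun U => (((FU U).image K.b).card : ℝ)) (fun U => (((FU U).image K.tokB).card : ℝ))
      (fun U => (((FU U).image K.tokT).card : ℝ)) (fun _ _ => Nat.cast_nonneg _)
      (fun _ _ => by positivity) (fun _ _ => Nat.cast_nonneg _) (fun _ _ => Nat.cast_nonneg _)
      (fun _ _ => Nat.cast_nonneg _) key
    refine hH.trans ?_
    have hA := sub_le u K.a F G hGV
    have hB := sub_le u K.b F G hGV
    have hTB := sub_le u K.tokB F G hGV
    have hTT := sub_le u K.tokT F G hGV
    rw [← mul_sum]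
    have e1 : 2048 * θ * ∑ U ∈ G, (((FU U).image K.a).card : ℝ) ≤
        2048 * θ * ((F.image (fun i => (u i, K.a i))).card : ℝ) :=
      mul_le_mul_of_nonneg_left hA (by positivity)
    calc _ ≤ (2048 * θ * ((F.image (fun i => (u i, K.a i))).card : ℝ) *
          ((F.image (fun i => (u i, K.b i))).card : ℝ)) *
          (((F.image (fun i => (u i, K.tokB i))).card : ℝ) *
            ((F.image (fun i => (u i, K.tokT i))).card : ℝ)) := by
          refine mul_le_mul (mul_le_mul e1 hB (sum_nonneg (fun _ _ => Nat.cast_nonneg _))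
            (by positivity)) (mul_le_mul hTB hTT (sum_nonneg (fun _ _ => Nat.cast_nonneg _))
            (by positivity)) ?_ (by positivity)
          exact mul_nonneg (sum_nonneg (fun _ _ => Nat.cast_nonneg _))
            (sum_nonneg (fun _ _ => Nat.cast_nonneg _))
      _ = _ := by ring

end Pool.Agent.Work.MP_e17eac_co.SK

end

section

/-!
# One step of the walk (item STEPT)
-/

namespace Pool.Agent.Work.MP_e17eac_co.SK

open Finset
open Pool.Agent.Work.MP_e17eac_co.DH
open Pool.Agent.Work.MP_e17eac_co.B1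

namespace YSTEPT

/-- The computation with real numbers. -/
theorem real {r D b b' : ℝ} {x C0 : ℕ} (hr : 1 ≤ r) (hD : 1 ≤ D) (hb : 0 < b)
    (h1 : D ^ (C0 + 2) ≤ r)
    (h2 : b' * b * r ^ (2 * (x + 1)) ≤ D ^ C0 * r ^ 4 * (b * (D * r ^ x) * r ^ 4) ^ 2) :
    b' ≤ r ^ 13 * b := by
  have hr0 : (0 : ℝ) < r := by linarith
  have hD0 : (0 : ℝ) < D := by linarith
  have e1 : D ^ C0 * r ^ 4 * (b * (D * r ^ x) * r ^ 4) ^ 2 =
      (D ^ (C0 + 2) * r ^ 10 * b) * (b * r ^ (2 * (x + 1))) := by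
    rw [show 2 * (x + 1) = 2 * x + 2 by ring, pow_add, pow_add, pow_mul' r 2 x]
    ring
  have e2 : b' * b * r ^ (2 * (x + 1)) = b' * (b * r ^ (2 * (x + 1))) := by ring
  rw [e1, e2] at h2
  have hp : 0 < b * r ^ (2 * (x + 1)) := by positivity
  have h3 : b' ≤ D ^ (C0 + 2) * r ^ 10 * b := le_of_mul_le_mul_right h2 hp
  calc b' ≤ D ^ (C0 + 2) * r ^ 10 * b := h3
    _ ≤ r * r ^ 10 * b := by gcongr
    _ = r ^ 11 * b := by ring
    _ ≤ r ^ 13 * b := by
        have : r ^ 11 ≤ r ^ 13 := pow_le_pow_right₀ hr (by norm_num)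
        exact mul_le_mul_of_nonneg_right this hb.le

end YSTEPT

theorem J_STEPT (hC : StCore) (hU : StUTriv) : StStepT := by
  obtain ⟨C0, hC⟩ := hC
  refine ⟨C0 + 4, ?_⟩
  intro ι _ _ K r m H D P E κ x hx hR hT hCl hS
  have hD1 : (1 : ℝ) ≤ D := hR.one_le
  have hD2 : (2 : ℝ) ≤ D := hR.two
  have hr1 : 1 ≤ r := by
    have := hR.std.two
    omega
  have hr1' : (1 : ℝ) ≤ (r : ℝ) := by exact_mod_cast hr1
  have hle : D ^ C0 ≤ D ^ (C0 + 4) := pow_le_pow_right₀ hD1 (by omega)
  have h2D : 2 * D ≤ D ^ (C0 + 4) := by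
    calc 2 * D ≤ D * D := by nlinarith
      _ = D ^ 2 := by ring
      _ ≤ D ^ (C0 + 4) := pow_le_pow_right₀ hD1 (by omega)
  have hun := hU ι K r m H D P E κ x (x + 1) hr1 (by omega) (by linarith) hT.aP hCl
  rw [show 4 * (x + 1 - x) = 4 by omega] at hun
  obtain ⟨P', E', κ', h1, h2, h3, _, h5⟩ := hC ι K r m H D P E κ (x + 1)
    ((P.image κ).card * (D * (r : ℝ) ^ x) * (r : ℝ) ^ 4) hx
    (hR.mono (by omega)) hT hCl.key hCl.h1 (hS.mono h2D) hun
  refine ⟨P', E', κ', h1, ts_mono h2 hle, h3.inh hle (fun s => Subset.refl _), ?_⟩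
  have hn : 0 < Fintype.card ι := by
    have := hR.card
    omega
  have hb : (0 : ℝ) < ((P.image κ).card : ℝ) := by
    have := (ts_nonempty hT hn).image κ
    exact_mod_cast this.card_pos
  exact YSTEPT.real hr1' hD1 hb (hR.mono (by omega)).rD h5

end Pool.Agent.Work.MP_e17eac_co.SK

end

section

/-!
# SKM item TOKU: number of triples (cell, token, class)
-/

namespace Pool.Agent.Work.MP_e17eac_co.SK

open Finset
open Pool.Agent.Work.MP_e17eac_co.DH
open Pool.Agent.Work.MP_e17eac_co.B1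

namespace YTOKU

theorem card_image_pair_le {α β γ : Type} [DecidableEq β] [DecidableEq γ] (F : Finset α)
    (f : α → β) (g : α → γ) (M : ℝ)
    (h : ∀ i ∈ F, (((F.filter (fun j => f j = f i)).image g).card : ℝ) ≤ M) :
    ((F.image (fun i => (f i, g i))).card : ℝ) ≤ ((F.image f).card : ℝ) * M := by
  classical
  have h1 : F.image (fun i => (f i, g i)) ⊆ (F.image f).biUnion
      (fun b => ((F.filter (fun j => f j = b)).image g).image (fun c => (b, c))) := by
    intro z hz
    rw [mem_image] at hz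
    obtain ⟨i, hi, rfl⟩ := hz
    rw [mem_biUnion]
    refine ⟨f i, mem_image_of_mem _ hi, ?_⟩
    rw [mem_image]
    exact ⟨g i, mem_image_of_mem _ (mem_filter.2 ⟨hi, rfl⟩), rfl⟩
  have h2 := card_le_card h1
  have h3 : (F.image (fun i => (f i, g i))).card ≤
      ∑ b ∈ F.image f, ((F.filter (fun j => f j = b)).image g).card := by
    refine h2.trans (card_biUnion_le.trans ?_)
    exact sum_le_sum (fun b _ => card_image_le)
  have h4 : ((F.image (fun i => (f i, g i))).card : ℝ) ≤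
      ∑ b ∈ F.image f, (((F.filter (fun j => f j = b)).image g).card : ℝ) := by
    exact_mod_cast h3
  refine h4.trans ?_
  have h5 : ∑ b ∈ F.image f, (((F.filter (fun j => f j = b)).image g).card : ℝ) ≤
      ∑ _b ∈ F.image f, M := by
    apply sum_le_sum
    intro b hb
    rw [mem_image] at hb
    obtain ⟨i, hi, rfl⟩ := hb
    exact h i hi
  refine h5.trans ?_
  rw [sum_const, nsmul_eq_mul]

end YTOKU

open YTOKU

theorem J_TOKU (hT2 : StT2c) (hCT : StCellTok) (hCell : StCell) (hTC : StTokClasses) :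
    StTokU := by
  obtain ⟨C, hC1, hC⟩ := hT2
  refine ⟨C, hC1, ?_⟩
  intro ι _ _ K hinj hgp r m H D P E κ x0 x hr hx0 hD hH hE hCls s F hF s'
  have hr0 : (0 : ℝ) < (r : ℝ) := by exact_mod_cast hr
  have hFN : F ⊆ range K.N := fun i hi => mem_range.2 ((hE s i (hF hi)).1.lt)
  -- step 1
  have hmono : ∀ n ∈ F, ∀ k ∈ F, n ≤ k → cell K r x n ≤ cell K r x k := fun n _ k _ hnk =>
    (hCell ι K r x hr).2.1 n k hnk
  have hk : ∀ n ∈ F, n < K.N ∧ κ (K.a n) = κ (K.b n) := fun n hn =>
    ⟨(hE s n (hF hn)).1.lt, hCls.h1 s n (hF hn)⟩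
  have h1 : (F.image (fun n => (cell K r x n, K.tok s' n, κ (K.a n)))).card ≤
      (F.image (fun n => (cell K r x n, K.tok s' n))).card +
        2 * (F.image (fun n => (K.tok s' n, κ (K.a n)))).card := by
    have := hTC ι ℕ K κ hCls.key F (cell K r x) hk hmono
    cases s'
    · exact this.1
    · exact this.2
  have h1' : (F.image (fun i => ((cell K r x i, κ (K.a i)), K.tok s' i))).card ≤
      (F.image (fun n => (cell K r x n, K.tok s' n, κ (K.a n)))).card := by
    have e : F.image (fun i => ((cell K r x i, κ (K.a i)), K.tok s' i)) =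
        (F.image (fun n => (cell K r x n, K.tok s' n, κ (K.a n)))).image
          (fun z => ((z.1, z.2.2), z.2.1)) := by
      rw [image_image]
      rfl
    rw [e]
    exact card_image_le
  -- step 2
  have h2 : ((F.image (fun n => (cell K r x n, K.tok s' n))).card : ℝ) ≤
      C * Fintype.card ι * (r : ℝ) ^ x := ((hC ι K hinj hgp r x hr).2.2.2.1 F hFN s').2
  -- step 3
  have h3 : ((F.image (fun n => (K.tok s' n, κ (K.a n)))).card : ℝ) * (r : ℝ) ^ (2 * x0) ≤
      (P.image κ).card * D * H * Fintype.card ι := by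
    set M : ℝ := H * Fintype.card ι / (r : ℝ) ^ (3 * x0) with hM
    have hMnn : 0 ≤ M := by positivity
    have a1 : (F.image (fun n => (K.tok s' n, κ (K.a n)))).card ≤
        (F.image (fun n => ((κ (K.a n), cell K r x0 n), K.tok s' n))).card := by
      have e : F.image (fun n => (K.tok s' n, κ (K.a n))) =
          (F.image (fun n => ((κ (K.a n), cell K r x0 n), K.tok s' n))).image
            (fun z => (z.2, z.1.1)) := by
        rw [image_image]
        rfl
      rw [e]
      exact card_image_le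
    have a2 : ((F.image (fun n => ((κ (K.a n), cell K r x0 n), K.tok s' n))).card : ℝ) ≤
        ((F.image (fun n => (κ (K.a n), cell K r x0 n))).card : ℝ) * M := by
      apply card_image_pair_le
      intro i hi
      have b1 : F.filter (fun j => (κ (K.a j), cell K r x0 j) = (κ (K.a i), cell K r x0 i)) ⊆
          ce K r x0 (cell K r x0 i) := by
        intro j hj
        rw [mem_filter] at hj
        refine mem_filter.2 ⟨hFN hj.1, ?_⟩
        exact congrArg Prod.snd hj.2
      have b2 := (hCT ι K r x0 (cell K r x0 i) hr _ b1).2.2 s'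
      have b3 := (hE s i (hF hi)).1.crowd x0 hx0
      rw [hM, le_div_iff₀ (by positivity)]
      refine le_trans ?_ b3
      have b4 : (((F.filter (fun j => (κ (K.a j), cell K r x0 j) =
          (κ (K.a i), cell K r x0 i))).image (K.tok s')).card : ℝ) ≤
          ((vis K r x0 (cell K r x0 i)).card : ℝ) := by exact_mod_cast b2
      gcongr
    have a3 : ((F.image (fun n => (κ (K.a n), cell K r x0 n))).card : ℝ) ≤
        ((F.image (fun n => κ (K.a n))).card : ℝ) * (D * (r : ℝ) ^ x0) := by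
      apply card_image_pair_le
      intro i hi
      refine le_trans ?_ (hCls.h4 s (κ (K.a i)))
      exact_mod_cast card_le_card (image_subset_image (filter_subset_filter _ hF))
    have a4 : ((F.image (fun n => κ (K.a n))).card : ℝ) ≤ ((P.image κ).card : ℝ) := by
      have : F.image (fun n => κ (K.a n)) ⊆ P.image κ := by
        intro z hz
        rw [mem_image] at hz
        obtain ⟨i, hi, rfl⟩ := hz
        exact mem_image_of_mem _ (hE s i (hF hi)).2
      exact_mod_cast card_le_card this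
    have a1' : ((F.image (fun n => (K.tok s' n, κ (K.a n)))).card : ℝ) ≤
        ((F.image (fun n => ((κ (K.a n), cell K r x0 n), K.tok s' n))).card : ℝ) := by
      exact_mod_cast a1
    have a5 : ((F.image (fun n => (K.tok s' n, κ (K.a n)))).card : ℝ) ≤
        ((P.image κ).card : ℝ) * (D * (r : ℝ) ^ x0) * M := by
      refine a1'.trans (a2.trans ?_)
      refine mul_le_mul_of_nonneg_right (a3.trans ?_) hMnn
      exact mul_le_mul_of_nonneg_right a4 (by positivity)
    calc ((F.image (fun n => (K.tok s' n, κ (K.a n)))).card : ℝ) * (r : ℝ) ^ (2 * x0)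
        ≤ (((P.image κ).card : ℝ) * (D * (r : ℝ) ^ x0) * M) * (r : ℝ) ^ (2 * x0) := by gcongr
      _ = (P.image κ).card * D * H * Fintype.card ι := by
          rw [hM]
          have : (r : ℝ) ^ (3 * x0) = (r : ℝ) ^ x0 * (r : ℝ) ^ (2 * x0) := by
            rw [← pow_add]; congr 1; ring
          rw [this]
          have hp1 : (r : ℝ) ^ x0 ≠ 0 := by positivity
          have hp2 : (r : ℝ) ^ (2 * x0) ≠ 0 := by positivity
          field_simp
  -- end
  have h4 : ((F.image (fun i => ((cell K r x i, κ (K.a i)), K.tok s' i))).card : ℝ) ≤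
      C * Fintype.card ι * (r : ℝ) ^ x +
        2 * ((F.image (fun n => (K.tok s' n, κ (K.a n)))).card : ℝ) := by
    have h5 : ((F.image (fun i => ((cell K r x i, κ (K.a i)), K.tok s' i))).card : ℝ) ≤
        ((F.image (fun n => (cell K r x n, K.tok s' n))).card : ℝ) +
        2 * ((F.image (fun n => (K.tok s' n, κ (K.a n)))).card : ℝ) := by
      exact_mod_cast h1'.trans h1
    linarith
  calc ((F.image (fun i => ((cell K r x i, κ (K.a i)), K.tok s' i))).card : ℝ) *
        (r : ℝ) ^ (2 * x0)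
      ≤ (C * Fintype.card ι * (r : ℝ) ^ x +
        2 * ((F.image (fun n => (K.tok s' n, κ (K.a n)))).card : ℝ)) * (r : ℝ) ^ (2 * x0) := by
        gcongr
    _ = C * Fintype.card ι * (r : ℝ) ^ (x + 2 * x0) +
        2 * (((F.image (fun n => (K.tok s' n, κ (K.a n)))).card : ℝ) * (r : ℝ) ^ (2 * x0)) := by
        rw [pow_add]; ring
    _ ≤ C * Fintype.card ι * (r : ℝ) ^ (x + 2 * x0) +
        2 * ((P.image κ).card * D * H * Fintype.card ι) := by gcongr
    _ = _ := by ring

end Pool.Agent.Work.MP_e17eac_co.SK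

end

section

/-!
# Every class has many active cells
-/

namespace Pool.Agent.Work.MP_e17eac_co.SK

open Finset
open Pool.Agent.Work.MP_e17eac_co.DH
open Pool.Agent.Work.MP_e17eac_co.B1

namespace YUNLOW

variable {ι : Type} [Fintype ι] [DecidableEq ι]

/-- The cells of the edges of `E` which start at `p`. -/
def Cp (K : KSys ι) (r x : ℕ) (E : Finset ℕ) (p : ι) : Finset ℕ :=
  (E.filter (fun i => K.a i = p)).image (cell K r x)

/-- Every line of `P` has many active cells. -/
theorem many {K : KSys ι} {r m : ℕ} {H D : ℝ} {P : Finset ι} {E : Bool → Finset ℕ} {x : ℕ}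
    (hD : 0 < D) (hx : x ≤ m) (hN : 0 < K.N)
    (h : TS K r m H D P E) (s : Bool) {p : ι} (hp : p ∈ P) :
    (r : ℝ) ^ x ≤ H * D * ((Cp K r x (E s) p).card : ℝ) := by
  classical
  have hN' : (0 : ℝ) < (K.N : ℝ) := by exact_mod_cast hN
  set F := (E s).filter (fun i => K.a i = p) with hF
  have hdeg := h.deg s p hp
  have key : (F.card : ℝ) * (Fintype.card ι * (r : ℝ) ^ x) ≤
      ((Cp K r x (E s) p).card : ℝ) * (H * K.N) := by
    have e1 : F.card = ∑ c ∈ Cp K r x (E s) p, (F.filter (fun i => cell K r x i = c)).card :=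
      card_eq_sum_card_fiberwise (fun i hi => mem_image_of_mem _ hi)
    rw [e1]
    push_cast
    rw [Finset.sum_mul]
    have : ((Cp K r x (E s) p).card : ℝ) * (H * K.N) =
        ∑ _c ∈ Cp K r x (E s) p, (H * K.N : ℝ) := by
      rw [sum_const, nsmul_eq_mul]
    rw [this]
    apply sum_le_sum
    intro c hc
    obtain ⟨i, hi, rfl⟩ := mem_image.1 hc
    rw [mem_filter] at hi
    obtain ⟨hiE, hia⟩ := hi
    have hy := h.hyg s i hiE
    have hl := hy.light false x hx
    refine le_trans ?_ hl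
    apply mul_le_mul_of_nonneg_right _ (by positivity)
    have hsub : F.filter (fun j => cell K r x j = cell K r x i) ⊆
        (range K.N).filter (fun j => K.ln false j = K.ln false i ∧
          cell K r x j = cell K r x i) := by
      intro j hj
      rw [mem_filter, hF, mem_filter] at hj
      rw [mem_filter, mem_range]
      refine ⟨(h.hyg s j hj.1.1).lt, ?_, hj.2⟩
      show K.a j = K.a i
      rw [hj.1.2, hia]
    exact_mod_cast card_le_card hsub
  have h2 : (K.N : ℝ) * (r : ℝ) ^ x ≤ (H * D * ((Cp K r x (E s) p).card : ℝ)) * K.N := by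
    calc (K.N : ℝ) * (r : ℝ) ^ x ≤ (D * Fintype.card ι * (F.card : ℝ)) * (r : ℝ) ^ x :=
          mul_le_mul_of_nonneg_right hdeg (by positivity)
      _ = D * ((F.card : ℝ) * (Fintype.card ι * (r : ℝ) ^ x)) := by ring
      _ ≤ D * (((Cp K r x (E s) p).card : ℝ) * (H * K.N)) :=
          mul_le_mul_of_nonneg_left key hD.le
      _ = _ := by ring
  have h3 : (r : ℝ) ^ x * K.N ≤ (H * D * ((Cp K r x (E s) p).card : ℝ)) * K.N := by
    rw [mul_comm]
    exact h2
  exact le_of_mul_le_mul_right h3 hN'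

end YUNLOW

open YUNLOW in
theorem J_UNLOW : StUnLow := by
  intro ι _ _ K r m H D P E κ x hr hH hD hx hN h s
  classical
  have hch : ∀ B ∈ P.image κ, ∃ p ∈ P, κ p = B := fun B hB => mem_image.1 hB
  have hU : ∑ B ∈ P.image κ, (((E s).filter (fun i => κ (K.a i) = B)).image (cell K r x)).card ≤
      Un K r x κ (E s) := by
    unfold Un
    have h1 : ∀ B ∈ P.image κ, (((E s).filter (fun i => κ (K.a i) = B)).image (cell K r x)).card =
        (((E s).image (fun i => (cell K r x i, κ (K.a i)))).filter (fun u => u.2 = B)).card := by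
      intro B _
      rw [← card_image_of_injective (f := fun c : ℕ => (c, B))
        (((E s).filter (fun i => κ (K.a i) = B)).image (cell K r x))
        (fun c c' hcc => (Prod.mk.inj hcc).1)]
      congr 1
      ext u
      simp only [mem_image, mem_filter]
      constructor
      · rintro ⟨c, ⟨i, ⟨hi, hB⟩, rfl⟩, rfl⟩
        exact ⟨⟨i, hi, by rw [hB]⟩, rfl⟩
      · rintro ⟨⟨i, hi, rfl⟩, hB⟩
        exact ⟨cell K r x i, ⟨i, ⟨hi, hB⟩, rfl⟩, by rw [← hB]⟩
    rw [sum_congr rfl h1]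
    rw [← card_biUnion]
    · apply card_le_card
      intro u hu
      rw [mem_biUnion] at hu
      obtain ⟨B, _, hu⟩ := hu
      exact (mem_filter.1 hu).1
    · intro B _ B' _ hne
      show Disjoint _ _
      rw [disjoint_left]
      intro u hu hu'
      exact hne ((mem_filter.1 hu).2.symm.trans (mem_filter.1 hu').2)
  have h1 : ∀ B ∈ P.image κ, (r : ℝ) ^ x ≤
      H * D * ((((E s).filter (fun i => κ (K.a i) = B)).image (cell K r x)).card : ℝ) := by
    intro B hB
    obtain ⟨p, hp, hpB⟩ := hch B hB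
    refine (many hD hx hN h s hp).trans ?_
    apply mul_le_mul_of_nonneg_left _ (by positivity)
    have : Cp K r x (E s) p ⊆ ((E s).filter (fun i => κ (K.a i) = B)).image (cell K r x) := by
      apply image_subset_image
      intro i hi
      rw [mem_filter] at hi ⊢
      exact ⟨hi.1, by rw [hi.2, hpB]⟩
    exact_mod_cast card_le_card this
  calc ((P.image κ).card : ℝ) * (r : ℝ) ^ x = ∑ _B ∈ P.image κ, (r : ℝ) ^ x := by
        rw [sum_const, nsmul_eq_mul]
    _ ≤ ∑ B ∈ P.image κ,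
        H * D * ((((E s).filter (fun i => κ (K.a i) = B)).image (cell K r x)).card : ℝ) :=
        sum_le_sum h1
    _ = H * D * ((∑ B ∈ P.image κ,
        (((E s).filter (fun i => κ (K.a i) = B)).image (cell K r x)).card : ℕ) : ℝ) := by
        rw [← mul_sum]
        push_cast
        rfl
    _ ≤ H * D * (Un K r x κ (E s) : ℝ) := by
        apply mul_le_mul_of_nonneg_left _ (by positivity)
        exact_mod_cast hU

end Pool.Agent.Work.MP_e17eac_co.SK

end

section

/-!
# SKM, item WALK: walk and jump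
-/

set_option autoImplicit false

namespace Pool.Agent.Work.MP_e17eac_co.SK

open Finset
open Pool.Agent.Work.MP_e17eac_co.DH
open Pool.Agent.Work.MP_e17eac_co.B1

namespace YWALK

/-- The induction statement. -/
def J (y x : ℕ) : Prop := ∃ C : ℕ, ∀ (ι : Type) [Fintype ι] [DecidableEq ι] (K : KSys ι)
  (r m : ℕ) (H D : ℝ) (P : Finset ι) (E : Bool → Finset ℕ) (κ : ι → ℕ), y ≤ m →
  Rg K r m H D C → TS K r m H D P E → Cls K r m H x D E κ →
  ((P.image κ).card : ℝ) ≤ (r : ℝ) ^ (2 * x + y + 11) →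
  ∃ (P' : Finset ι) (E' : Bool → Finset ℕ) (κ' : ι → ℕ), SubTS P' E' P E ∧
    TS K r m H (D ^ C) P' E' ∧ Cls K r m H y (D ^ C) E' κ' ∧
    ((P'.image κ').card : ℝ) ≤ (r : ℝ) ^ (5 * y + 51 - 2 * x)

/-- The jump, packed with the loss of a stable substructure. -/
theorem jump_case (hJ : StJump) : ∃ CJ : ℕ, ∀ (ι : Type) [Fintype ι] [DecidableEq ι]
    (K : KSys ι) (r m : ℕ) (H D : ℝ) (P P1 : Finset ι) (E E1 : Bool → Finset ℕ) (κ : ι → ℕ)
    (x y e C : ℕ), 1 ≤ e → x ≤ y → y ≤ m → Rg K r m H D C → e * (CJ + 4 * y) ≤ C →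
    TS K r m H (D ^ e) P1 E1 → Cls K r m H x (D ^ e) E1 κ → SubTS P1 E1 P E →
    Stab K r m H ((D ^ e) ^ CJ) P1 E1 κ → (r : ℝ) ^ (2 * x + y) ≤ (P1.image κ).card →
    ((P1.image κ).card : ℝ) ≤ (r : ℝ) ^ (2 * x + y + 11) →
    ∃ (P' : Finset ι) (E' : Bool → Finset ℕ) (κ' : ι → ℕ), SubTS P' E' P E ∧
      TS K r m H (D ^ C) P' E' ∧ Cls K r m H y (D ^ C) E' κ' ∧
      ((P'.image κ').card : ℝ) ≤ (r : ℝ) ^ (5 * y + 51 - 2 * x) := by
  obtain ⟨CJ, hJ⟩ := hJ
  refine ⟨CJ, ?_⟩
  intro ι _ _ K r m H D P P1 E E1 κ x y e C he hxy hym hRg hC hTS hCls hSub hSt hlo hup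
  have hRg1 : Rg K r m H (D ^ e) (CJ + 4 * y) := hRg.pow he hC
  obtain ⟨P', E', κ', h1, h2, h3, h4⟩ := hJ ι K r m H (D ^ e) P1 E1 κ x y hxy hym hRg1 hTS hCls
    hSt hlo hup
  have hD : (D ^ e) ^ CJ ≤ D ^ C := by
    rw [← pow_mul]
    refine pow_le_pow_right₀ hRg.one_le (le_trans ?_ hC)
    exact Nat.mul_le_mul_left e (Nat.le_add_right _ _)
  exact ⟨P', E', κ', subts_trans hSub h1, ts_mono h2 hD, h3.inh hD (fun s => Subset.refl _), h4⟩

theorem all_J (hS : StStab) (hT : StStepT) (hJ : StJump) (hL : StLower) (y : ℕ) (hy : 1 ≤ y) :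
    ∀ d x : ℕ, x + d = y → J y x := by
  obtain ⟨CJ, hJ⟩ := jump_case hJ
  obtain ⟨CT, hT⟩ := hT
  obtain ⟨CL, hL⟩ := hL
  -- the general step, with a hypothesis for the next level
  have key : ∀ x : ℕ, x ≤ y → (2 * x ≤ y → J y (x + 1)) → J y x := by
    intro x hxy hnext
    -- the constant of the next level
    obtain ⟨C', hC'⟩ : ∃ C' : ℕ, 2 * x ≤ y → ∀ (ι : Type) [Fintype ι] [DecidableEq ι]
        (K : KSys ι) (r m : ℕ) (H D : ℝ) (P : Finset ι) (E : Bool → Finset ℕ) (κ : ι → ℕ),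
        y ≤ m → Rg K r m H D C' → TS K r m H D P E → Cls K r m H (x + 1) D E κ →
        ((P.image κ).card : ℝ) ≤ (r : ℝ) ^ (2 * (x + 1) + y + 11) →
        ∃ (P' : Finset ι) (E' : Bool → Finset ℕ) (κ' : ι → ℕ), SubTS P' E' P E ∧
          TS K r m H (D ^ C') P' E' ∧ Cls K r m H y (D ^ C') E' κ' ∧
          ((P'.image κ').card : ℝ) ≤ (r : ℝ) ^ (5 * y + 51 - 2 * (x + 1)) := by
      by_cases h : 2 * x ≤ y
      · obtain ⟨C', hC'⟩ := hnext h
        exact ⟨C', fun _ => hC'⟩
      · exact ⟨0, fun h' => absurd h' h⟩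
    set C1 : ℕ := CT + CJ + 1 with hC1
    set k : ℕ := 2 * x + y + 11 with hk
    set G : ℕ := C' + CL + CJ + CT + 4 * y + 4 * x + 1 with hG
    refine ⟨C1 ^ (k + 1) * G, ?_⟩
    intro ι _ _ K r m H D P E κ hym hRg hTS hCls hcard
    have hD1 : 1 ≤ D := hRg.one_le
    have hr2 : 2 ≤ r := hRg.std.two
    have hr1 : (1 : ℝ) ≤ (r : ℝ) := by exact_mod_cast (by omega : 1 ≤ r)
    have hn : 0 < Fintype.card ι := by
      have := hRg.card
      omega
    have hC1' : 1 ≤ C1 := by omega
    obtain ⟨j, hjk, P1, E1, hSub1, hTS1, hSt1⟩ := hS ι K r m H κ C1 k hC1' (by omega) hn D P E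
      hD1 hTS hcard
    set e : ℕ := C1 ^ j with he
    have he1 : 1 ≤ e := Nat.one_le_pow _ _ (by omega)
    have hee : e ≤ C1 ^ k := Nat.pow_le_pow_right (by omega) hjk
    have hek : e * C1 ≤ C1 ^ (k + 1) := by
      rw [pow_succ]
      exact Nat.mul_le_mul_right _ hee
    have hek' : e ≤ C1 ^ (k + 1) := le_trans (Nat.le_mul_of_pos_right e (by omega)) hek
    have hDe : D ≤ D ^ e := by
      calc D = D ^ 1 := (pow_one D).symm
        _ ≤ D ^ e := pow_le_pow_right₀ hD1 he1
    have hCls1 : Cls K r m H x (D ^ e) E1 κ := hCls.inh hDe hSub1.2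
    have hβ1 : ((P1.image κ).card : ℝ) ≤ (r : ℝ) ^ k := by
      refine le_trans ?_ hcard
      exact_mod_cast image_card_mono hSub1.1
    have hDe1 : 1 ≤ D ^ e := hD1.trans hDe
    have hStJ : Stab K r m H ((D ^ e) ^ CJ) P1 E1 κ :=
      hSt1.mono (pow_le_pow_right₀ hDe1 (by omega))
    have hStT : Stab K r m H ((D ^ e) ^ CT) P1 E1 κ :=
      hSt1.mono (pow_le_pow_right₀ hDe1 (by omega))
    have hCJ : e * (CJ + 4 * y) ≤ C1 ^ (k + 1) * G := Nat.mul_le_mul hek' (by omega)
    by_cases hlow : (r : ℝ) ^ (2 * x + y) ≤ ((P1.image κ).card : ℝ)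
    · exact hJ ι K r m H D P P1 E E1 κ x y e _ he1 hxy hym hRg hCJ hTS1 hCls1 hSub1 hStJ hlow
        hβ1
    · -- the walk
      have h2x : 2 * x ≤ y := by
        by_contra h2
        apply hlow
        have hRgL : Rg K r m H (D ^ e) CL := hRg.pow he1 (Nat.mul_le_mul hek' (by omega))
        have h3 := hL ι K r m H (D ^ e) P1 E1 κ x (hxy.trans hym) hRgL hTS1 hCls1
        have h4 : (D ^ e) ^ CL ≤ (r : ℝ) := hRgL.rD
        have h5 : (r : ℝ) ^ (4 * x) ≤ (r : ℝ) * ((P1.image κ).card : ℝ) :=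
          h3.trans (mul_le_mul_of_nonneg_right h4 (by positivity))
        have h6 : (r : ℝ) * (r : ℝ) ^ (2 * x + y) ≤ (r : ℝ) ^ (4 * x) := by
          rw [← pow_succ']
          exact pow_le_pow_right₀ hr1 (by omega)
        exact le_of_mul_le_mul_left (h6.trans h5) (by linarith)
      have hxy1 : x + 1 ≤ y := by omega
      push Not at hlow
      have hRgT : Rg K r m H (D ^ e) (CT + 4 * x) := hRg.pow he1
        (Nat.mul_le_mul hek' (by omega))
      obtain ⟨P2, E2, κ2, hSub2, hTS2, hCls2, hβ2⟩ := hT ι K r m H (D ^ e) P1 E1 κ x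
        (hxy1.trans hym) hRgT hTS1 hCls1 hStT
      have hDD : (D ^ e) ^ CT ≤ D ^ (e * C1) := by
        rw [← pow_mul]
        exact pow_le_pow_right₀ hD1 (Nat.mul_le_mul_left e (by omega))
      have hTS3 := ts_mono hTS2 hDD
      have hCls3 := hCls2.inh hDD (fun s => Subset.refl (E2 s))
      have hβ3 : ((P2.image κ2).card : ℝ) ≤ (r : ℝ) ^ (2 * (x + 1) + y + 11) := by
        refine hβ2.trans ?_
        calc (r : ℝ) ^ 13 * ((P1.image κ).card : ℝ)
            ≤ (r : ℝ) ^ 13 * (r : ℝ) ^ (2 * x + y) :=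
              mul_le_mul_of_nonneg_left hlow.le (by positivity)
          _ = (r : ℝ) ^ (2 * (x + 1) + y + 11) := by
              rw [← pow_add]
              congr 1
              omega
      have hRg3 : Rg K r m H (D ^ (e * C1)) C' := hRg.pow
        (Nat.one_le_iff_ne_zero.2 (Nat.mul_ne_zero (by omega) (by omega)))
        (Nat.mul_le_mul hek (by omega))
      obtain ⟨P', E', κ', h1, h2, h3, h4⟩ := hC' h2x ι K r m H (D ^ (e * C1)) P2 E2 κ2 hym hRg3
        hTS3 hCls3 hβ3
      have hD4 : (D ^ (e * C1)) ^ C' ≤ D ^ (C1 ^ (k + 1) * G) := by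
        rw [← pow_mul]
        exact pow_le_pow_right₀ hD1 (Nat.mul_le_mul hek (by omega))
      refine ⟨P', E', κ', subts_trans hSub1 (subts_trans hSub2 h1), ts_mono h2 hD4,
        h3.inh hD4 (fun s => Subset.refl _), h4.trans (pow_le_pow_right₀ hr1 (by omega))⟩
  intro d
  induction d with
  | zero =>
    intro x hx
    exact key x (by omega) (fun h => absurd h (by omega))
  | succ d ih =>
    intro x hx
    exact key x (by omega) (fun _ => ih (x + 1) (by omega))

end YWALK

open YWALK in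
theorem J_WALK (hS : StStab) (hT : StStepT) (hJ : StJump) (hL : StLower) : StWalk := by
  intro x t y hy hxy ht hGood
  obtain ⟨CG, hG⟩ := hGood
  obtain ⟨Cx, hx⟩ := all_J hS hT hJ hL y hy (y - x) x (by omega)
  refine ⟨(CG + 1) * (Cx + 1), ?_⟩
  intro ι _ _ K r m H D P E hym hRg hTS
  have hD1 : 1 ≤ D := hRg.one_le
  have hr1 : (1 : ℝ) ≤ (r : ℝ) := by
    have := hRg.std.two
    exact_mod_cast (by omega : 1 ≤ r)
  have hCG : CG ≤ (CG + 1) * (Cx + 1) := by nlinarith
  obtain ⟨P1, E1, κ, hSub1, hTS1, hCls1, hc1⟩ := hG ι K r m H D P E (hxy.trans hym)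
    (hRg.mono hCG) hTS
  have hDD : D ^ CG ≤ D ^ (CG + 1) := pow_le_pow_right₀ hD1 (by omega)
  have hRg1 : Rg K r m H (D ^ (CG + 1)) Cx := hRg.pow (by omega)
    (Nat.mul_le_mul_left _ (by omega))
  obtain ⟨P', E', κ', h1, h2, h3, h4⟩ := hx ι K r m H (D ^ (CG + 1)) P1 E1 κ hym hRg1
    (ts_mono hTS1 hDD) (hCls1.inh hDD (fun s => Subset.refl _))
    (hc1.trans (pow_le_pow_right₀ hr1 ht))
  have hD2 : (D ^ (CG + 1)) ^ Cx ≤ D ^ ((CG + 1) * (Cx + 1)) := by
    rw [← pow_mul]
    exact pow_le_pow_right₀ hD1 (Nat.mul_le_mul_left _ (by omega))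
  exact ⟨P', E', κ', subts_trans hSub1 h1, ts_mono h2 hD2,
    h3.inh hD2 (fun s => Subset.refl _), h4⟩

end Pool.Agent.Work.MP_e17eac_co.SK

end
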