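import Pool.Agent.Work.MP_e17eac_co.Bd.B19
import Pool.Agent.Work.MP_e17eac_co.Bd.B14

/-! Bundle of small proof modules (one section per former module). -/

section

/-!
# Arbitrary sets, blueprint part B-1: few lines give few edges
-/

namespace Pool.Agent.Work.MP_e17eac_co.B1

open Finset
open Pool.Agent.Work.MP_e17eac_co.DH

namespace XFL

/-- Cast and use `V ≤ n`. -/
theorem aux {e m V n : ℕ} (hV : V ≤ n) (h : e ^ 3 ≤ 4096 * (m * V ^ 3)) :
    (e : ℝ) ^ 3 ≤ 4096 * (n : ℝ) ^ 3 * (m : ℝ) := by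
  have h1 : e ^ 3 ≤ 4096 * n ^ 3 * m := by
    calc e ^ 3 ≤ 4096 * (m * V ^ 3) := h
      _ ≤ 4096 * (m * n ^ 3) := by
          apply Nat.mul_le_mul_left
          apply Nat.mul_le_mul_left
          exact Nat.pow_le_pow_left hV 3
      _ = 4096 * n ^ 3 * m := by ring
  exact_mod_cast h1

end XFL

/-- Few lines give few edges. -/
theorem I_FL (hD : MX.StDeyV) : StFL := by
  intro ι _ _ K hx F hF s
  have hF' : F ⊆ Ico 0 K.N := by
    rw [← Finset.range_eq_Ico]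
    exact hF
  obtain ⟨_, _, h3, h4⟩ := hD ι K hx 0 K.N le_rfl F hF'
  have hV : (MX.vi K 0 K.N).card ≤ Fintype.card ι := Finset.card_le_univ _
  exact ⟨XFL.aux hV (h3 s), XFL.aux hV (h4 s)⟩

end Pool.Agent.Work.MP_e17eac_co.B1

end

section

/-!
# Item B1 FP: few pairs (cell, line) or (cell, token) give few edges
-/

namespace Pool.Agent.Work.MP_e17eac_co.B1

open Finset
open Pool.Agent.Work.MP_e17eac_co.DH

namespace XFP

/-- Power mean, exponent 3, sums over at most `M` cells. -/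
theorem pm3 (M : ℕ) (f : ℕ → ℝ) (hf : ∀ c, 0 ≤ f c) :
    (∑ c ∈ range M, f c) ^ 3 ≤ (M : ℝ) ^ 2 * ∑ c ∈ range M, f c ^ 3 := by
  rcases Nat.eq_zero_or_pos M with h | h
  · subst h
    simp
  · have h1 := pow_sum_div_card_le_sum_pow (s := range M) (f := f) (fun i _ => hf i) 2
    rw [card_range] at h1
    have h2 : (0 : ℝ) < (M : ℝ) ^ 2 := by positivity
    rw [div_le_iff₀ h2] at h1
    norm_num at h1
    linarith [mul_comm ((M : ℝ) ^ 2) (∑ c ∈ range M, f c ^ 3)]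

/-- The number of pairs is at least the sum over the cells. -/
theorem pairs_ge {ι : Type} [DecidableEq ι] (F : Finset ℕ) (M : ℕ) (κ : ℕ → ℕ) (g : ℕ → ι) :
    ∑ c ∈ range M, ((F.filter (fun i => κ i = c)).image g).card ≤
      (F.image (fun i => (κ i, g i))).card := by
  have h1 : ∀ c, ((F.filter (fun i => κ i = c)).image g).card =
      (((F.filter (fun i => κ i = c)).image g).image (fun p => (c, p))).card := by
    intro c
    exact (card_image_of_injective _ (fun p q h => (Prod.ext_iff.1 h).2)).symm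
  rw [sum_congr rfl (fun c _ => h1 c), ← card_biUnion]
  · apply card_le_card
    intro z hz
    obtain ⟨c, _, hz⟩ := mem_biUnion.1 hz
    obtain ⟨p, hp, rfl⟩ := mem_image.1 hz
    obtain ⟨i, hi, rfl⟩ := mem_image.1 hp
    obtain ⟨hi, hc⟩ := mem_filter.1 hi
    exact mem_image.2 ⟨i, hi, by rw [hc]⟩
  · intro c _ c' _ hne
    rw [Function.onFun, disjoint_left]
    intro z hz hz'
    obtain ⟨p, _, rfl⟩ := mem_image.1 hz
    obtain ⟨p', _, h⟩ := mem_image.1 hz'
    exact hne (Prod.ext_iff.1 h).1.symm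

theorem main {ι : Type} [DecidableEq ι] (F : Finset ℕ) (r x : ℕ) (hr : 1 ≤ r) (κ : ℕ → ℕ)
    (g : ℕ → ι) (v : ℕ → ℕ) (H n : ℝ) (hH : 0 ≤ H) (hn : 0 ≤ n)
    (hκ : ∀ i ∈ F, κ i < r ^ (4 * x))
    (hv : ∀ i ∈ F, (v (κ i) : ℝ) * (r : ℝ) ^ (3 * x) ≤ H * n)
    (hD : ∀ c, (F.filter (fun i => κ i = c)).card ^ 3 ≤
      4096 * (((F.filter (fun i => κ i = c)).image g).card * v c ^ 3)) :
    (F.card : ℝ) ^ 3 * (r : ℝ) ^ x ≤ 4096 * H ^ 3 * n ^ 3 *
      ((F.image (fun i => (κ i, g i))).card : ℝ) := by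
  have hr0 : (0 : ℝ) < r := by exact_mod_cast hr
  set M : ℕ := r ^ (4 * x) with hM
  have hMr : (M : ℝ) = (r : ℝ) ^ (4 * x) := by rw [hM]; push_cast; ring
  -- one cell
  have hc : ∀ c, ((F.filter (fun i => κ i = c)).card : ℝ) ^ 3 * (r : ℝ) ^ (9 * x) ≤
      4096 * (H * n) ^ 3 * (((F.filter (fun i => κ i = c)).image g).card : ℝ) := by
    intro c
    rcases (F.filter (fun i => κ i = c)).eq_empty_or_nonempty with h | ⟨i, hi⟩
    · rw [h]
      simp
    · obtain ⟨hi, hic⟩ := mem_filter.1 hi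
      have h1 := hv i hi
      rw [hic] at h1
      have h2 : ((F.filter (fun i => κ i = c)).card : ℝ) ^ 3 ≤
          4096 * (((F.filter (fun i => κ i = c)).image g).card * (v c : ℝ) ^ 3) := by
        exact_mod_cast hD c
      have h3 : ((v c : ℝ) * (r : ℝ) ^ (3 * x)) ^ 3 ≤ (H * n) ^ 3 :=
        pow_le_pow_left₀ (by positivity) h1 3
      have h4 : ((v c : ℝ) * (r : ℝ) ^ (3 * x)) ^ 3 = (v c : ℝ) ^ 3 * (r : ℝ) ^ (9 * x) := by
        rw [mul_pow, ← pow_mul]
        congr 2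
        ring
      rw [h4] at h3
      calc ((F.filter (fun i => κ i = c)).card : ℝ) ^ 3 * (r : ℝ) ^ (9 * x)
          ≤ (4096 * (((F.filter (fun i => κ i = c)).image g).card * (v c : ℝ) ^ 3)) *
            (r : ℝ) ^ (9 * x) := mul_le_mul_of_nonneg_right h2 (by positivity)
        _ = 4096 * (((F.filter (fun i => κ i = c)).image g).card : ℝ) *
            ((v c : ℝ) ^ 3 * (r : ℝ) ^ (9 * x)) := by ring
        _ ≤ 4096 * (((F.filter (fun i => κ i = c)).image g).card : ℝ) * (H * n) ^ 3 :=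
            mul_le_mul_of_nonneg_left h3 (by positivity)
        _ = _ := by ring
  have hcard : (F.card : ℝ) = ∑ c ∈ range M, ((F.filter (fun i => κ i = c)).card : ℝ) := by
    have := card_eq_sum_card_fiberwise (s := F) (t := range M) (f := κ)
      (fun i hi => mem_coe.2 (mem_range.2 (hκ i hi)))
    rw [this]
    push_cast
    rfl
  have hpm := pm3 M (fun c => ((F.filter (fun i => κ i = c)).card : ℝ)) (fun c => by positivity)
  rw [← hcard] at hpm
  have hpairs : ∑ c ∈ range M, (((F.filter (fun i => κ i = c)).image g).card : ℝ) ≤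
      ((F.image (fun i => (κ i, g i))).card : ℝ) := by
    exact_mod_cast pairs_ge F M κ g
  have hsum : (∑ c ∈ range M, ((F.filter (fun i => κ i = c)).card : ℝ) ^ 3) *
      (r : ℝ) ^ (9 * x) ≤ 4096 * (H * n) ^ 3 * ((F.image (fun i => (κ i, g i))).card : ℝ) := by
    rw [sum_mul]
    calc _ ≤ ∑ c ∈ range M, 4096 * (H * n) ^ 3 *
          (((F.filter (fun i => κ i = c)).image g).card : ℝ) := sum_le_sum (fun c _ => hc c)
      _ = 4096 * (H * n) ^ 3 *
          ∑ c ∈ range M, (((F.filter (fun i => κ i = c)).image g).card : ℝ) := by rw [mul_sum]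
      _ ≤ _ := mul_le_mul_of_nonneg_left hpairs (by positivity)
  have hfin : (F.card : ℝ) ^ 3 * (r : ℝ) ^ (9 * x) ≤ (r : ℝ) ^ (8 * x) *
      (4096 * (H * n) ^ 3 * ((F.image (fun i => (κ i, g i))).card : ℝ)) := by
    have e8 : (M : ℝ) ^ 2 = (r : ℝ) ^ (8 * x) := by
      rw [hMr, ← pow_mul]
      congr 1
      ring
    calc (F.card : ℝ) ^ 3 * (r : ℝ) ^ (9 * x)
        ≤ ((M : ℝ) ^ 2 * ∑ c ∈ range M, ((F.filter (fun i => κ i = c)).card : ℝ) ^ 3) *
          (r : ℝ) ^ (9 * x) := mul_le_mul_of_nonneg_right hpm (by positivity)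
      _ = (r : ℝ) ^ (8 * x) * ((∑ c ∈ range M, ((F.filter (fun i => κ i = c)).card : ℝ) ^ 3) *
          (r : ℝ) ^ (9 * x)) := by rw [e8]; ring
      _ ≤ _ := mul_le_mul_of_nonneg_left hsum (by positivity)
  have e9 : (r : ℝ) ^ (9 * x) = (r : ℝ) ^ (8 * x) * (r : ℝ) ^ x := by
    rw [← pow_add]
    congr 1
    ring
  rw [e9] at hfin
  have h8 : (0 : ℝ) < (r : ℝ) ^ (8 * x) := by positivity
  have : (r : ℝ) ^ (8 * x) * ((F.card : ℝ) ^ 3 * (r : ℝ) ^ x) ≤ (r : ℝ) ^ (8 * x) *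
      (4096 * (H * n) ^ 3 * ((F.image (fun i => (κ i, g i))).card : ℝ)) := by
    linarith [hfin, mul_assoc ((r : ℝ) ^ (8 * x)) ((F.card : ℝ) ^ 3) ((r : ℝ) ^ x),
      mul_left_comm ((F.card : ℝ) ^ 3) ((r : ℝ) ^ (8 * x)) ((r : ℝ) ^ x)]
  have h := le_of_mul_le_mul_left this h8
  rw [mul_pow] at h
  linarith [h, mul_assoc (4096 : ℝ) (H ^ 3) (n ^ 3)]

end XFP

theorem I_FP (h : StCell) (_h2 : StCellTok) (hD : MX.StDeyV) : StFP := by
  intro ι _ _ K hinj r x hr H hH F hF hcrowd s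
  obtain ⟨hlt, _, _, _, _, p, q, hpq, _, hq, _⟩ := h ι K r x hr
  have hsub : ∀ c, F.filter (fun i => cell K r x i = c) ⊆ Ico (p c) (q c) := by
    intro c i hi
    obtain ⟨hi, hc⟩ := mem_filter.1 hi
    rw [← hpq c, ce]
    exact mem_filter.2 ⟨hF hi, hc⟩
  have hvi : ∀ c, MX.vi K (p c) (q c) = vis K r x c := by
    intro c
    rw [MX.vi, vis, hpq c]
  have hκ : ∀ i ∈ F, cell K r x i < r ^ (4 * x) := fun i hi => hlt i (mem_range.1 (hF hi))
  constructor
  · refine XFP.main F r x hr (cell K r x) (K.ln s) (fun c => (vis K r x c).card) H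
      (Fintype.card ι) hH (Nat.cast_nonneg _) hκ hcrowd ?_
    intro c
    have := (hD ι K hinj (p c) (q c) (hq c) _ (hsub c)).2.2.1 s
    rwa [hvi c] at this
  · refine XFP.main F r x hr (cell K r x) (K.tok s) (fun c => (vis K r x c).card) H
      (Fintype.card ι) hH (Nat.cast_nonneg _) hκ hcrowd ?_
    intro c
    have := (hD ι K hinj (p c) (q c) (hq c) _ (hsub c)).2.2.2 s
    rwa [hvi c] at this

end Pool.Agent.Work.MP_e17eac_co.B1

end

section

/-!
# Arbitrary sets, item Low: lower bounds for the numbers of pairs (cell, line), (cell, token)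
-/

namespace Pool.Agent.Work.MP_e17eac_co.MX

open Finset
open Pool.Agent.Work.MP_e17eac_co.DH
open Pool.Agent.Work.MP_e17eac_co.DH.XSWEEP (GP)

namespace XLow

/-- The number of pairs (class, value) as a sum over the classes. -/
theorem im_sum {β : Type} [DecidableEq β] (E : Finset ℕ) (c : ℕ → ℕ) (f : ℕ → β) (M : ℕ)
    (hM : ∀ n ∈ E, c n < M) :
    ∑ k ∈ range M, ((E.filter (fun n => c n = k)).image f).card = im E (fun n => (c n, f n)) := by
  classical
  unfold im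
  rw [card_eq_sum_card_fiberwise (f := Prod.fst) (t := range M)]
  · refine sum_congr rfl fun k _ => ?_
    have hinj : Function.Injective (fun i : β => (k, i)) := by
      intro i j hij
      exact (Prod.mk.inj hij).2
    rw [← card_image_of_injective ((E.filter (fun n => c n = k)).image f) hinj]
    congr 1
    ext ⟨u, v⟩
    simp only [mem_image, mem_filter, Prod.mk.injEq]
    constructor
    · rintro ⟨w, ⟨n, ⟨hn, hc⟩, rfl⟩, rfl, rfl⟩
      exact ⟨⟨n, hn, hc, rfl⟩, rfl⟩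
    · rintro ⟨⟨n, hn, h1, h2⟩, h3⟩
      exact ⟨v, ⟨n, ⟨hn, h1.trans h3⟩, h2⟩, h3.symm, rfl⟩
  · intro z hz
    obtain ⟨n, hn, rfl⟩ := mem_image.1 hz
    exact mem_coe.2 (mem_range.2 (hM n hn))

/-- The analytic part. -/
theorem core {M : ℕ} (hM : 1 ≤ M) {ν N H C Ec X : ℝ} (e x V : ℕ → ℝ) (hν : 0 < ν)
    (hH : 1 ≤ H) (hC : 1 ≤ C) (hN : 0 ≤ N) (he0 : ∀ k, 0 ≤ e k) (hx0 : ∀ k, 0 ≤ x k)
    (hV0 : ∀ k, 0 ≤ V k)
    (hE : ∑ k ∈ range M, e k = Ec) (hX : ∑ k ∈ range M, x k = X)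
    (hdey : ∀ k ∈ range M, e k ^ 3 ≤ 4096 * (x k * V k ^ 3))
    (hsz : ∀ k ∈ range M, e k * M ≤ 3 * N)
    (hheavy : ∀ lam : ℝ, 0 < lam →
      (((range M).filter (fun k => e k ≠ 0 ∧ lam ≤ V k)).card : ℝ) ≤
        (C * ν / lam) ^ ((4 : ℝ) / 3))
    (hNE : N ≤ H * Ec) (hn : ν ^ ((4 : ℝ) / 3) ≤ H * N) :
    ν * (M : ℝ) ^ ((1 : ℝ) / 4) ≤ 7077888 * C ^ 3 * H ^ 9 * X := by
  classical
  have hM0 : (0 : ℝ) < M := by exact_mod_cast hM
  have hM1 : (1 : ℝ) ≤ M := by exact_mod_cast hM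
  have hX0 : 0 ≤ X := by rw [← hX]; exact sum_nonneg fun k _ => hx0 k
  set μ : ℝ := (M : ℝ) ^ ((1 : ℝ) / 4) with hμ
  have hμ0 : 0 < μ := Real.rpow_pos_of_pos hM0 _
  have hμ4 : μ ^ 4 = M := by
    rw [hμ, ← Real.rpow_natCast, ← Real.rpow_mul hM0.le]
    norm_num
  set h : ℝ := (6 * H) ^ ((1 : ℝ) / 4) with hh
  have h6 : 0 < 6 * H := by linarith
  have hh0 : 0 < h := Real.rpow_pos_of_pos h6 _
  have hh1 : 1 ≤ h := Real.one_le_rpow (by linarith) (by norm_num)
  have hh4 : h ^ 4 = 6 * H := by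
    rw [hh, ← Real.rpow_natCast, ← Real.rpow_mul h6.le]
    norm_num
  set lam : ℝ := C * ν * h ^ 3 / μ ^ 3 with hlam
  have hlam0 : 0 < lam := by positivity
  have hratio : C * ν / lam = (μ / h) ^ 3 := by
    rw [hlam, div_pow]
    field_simp
  have hpow : (C * ν / lam) ^ ((4 : ℝ) / 3) = M / (6 * H) := by
    rw [hratio, ← Real.rpow_natCast (μ / h) 3, ← Real.rpow_mul (by positivity)]
    have h1 : ((3 : ℕ) : ℝ) * ((4 : ℝ) / 3) = ((4 : ℕ) : ℝ) := by norm_num
    rw [h1, Real.rpow_natCast, div_pow, hμ4, hh4]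
  set A := (range M).filter (fun k => e k ≠ 0 ∧ lam ≤ V k) with hA
  have hAc : (A.card : ℝ) ≤ M / (6 * H) := by
    have h1 := hheavy lam hlam0
    rwa [hpow] at h1
  -- the heavy classes
  have hAE : ∑ k ∈ A, e k ≤ Ec / 2 := by
    have h1 : ∀ k ∈ A, e k ≤ 3 * N / M := by
      intro k hk
      rw [le_div_iff₀ hM0]
      exact hsz k (mem_filter.1 hk).1
    calc ∑ k ∈ A, e k ≤ ∑ _k ∈ A, 3 * N / M := sum_le_sum h1
      _ = A.card * (3 * N / M) := by rw [sum_const, nsmul_eq_mul]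
      _ ≤ M / (6 * H) * (3 * N / M) := mul_le_mul_of_nonneg_right hAc (by positivity)
      _ = N / (2 * H) := by
          have hMne : (M : ℝ) ≠ 0 := hM0.ne'
          have hHne : H ≠ 0 := by
            intro h0
            linarith
          rw [div_mul_div_comm, div_eq_div_iff (by positivity) (by positivity)]
          ring
      _ ≤ Ec / 2 := by
          rw [div_le_div_iff₀ (by positivity) (by norm_num)]
          nlinarith
  -- the light classes
  set f : ℕ → ℝ := fun k => if e k ≠ 0 ∧ lam ≤ V k then 0 else e k with hf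
  have hf0 : ∀ k, 0 ≤ f k := by
    intro k
    simp only [hf]
    split_ifs
    · exact le_rfl
    · exact he0 k
  have hsum : Ec / 2 ≤ ∑ k ∈ range M, f k := by
    have h1 : ∑ k ∈ range M, e k = ∑ k ∈ A, e k + ∑ k ∈ range M, f k := by
      rw [hA, sum_filter, ← sum_add_distrib]
      refine sum_congr rfl fun k _ => ?_
      simp only [hf]
      split_ifs <;> simp
    rw [hE] at h1
    linarith
  have hf3 : ∀ k ∈ range M, f k ^ 3 ≤ 4096 * lam ^ 3 * x k := by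
    intro k hk
    have hpos : 0 ≤ 4096 * lam ^ 3 * x k := mul_nonneg (by positivity) (hx0 k)
    simp only [hf]
    split_ifs with h1
    · simpa using hpos
    · by_cases h2 : e k = 0
      · rw [h2]; simpa using hpos
      · have h3 : V k < lam := by
          by_contra h4
          exact h1 ⟨h2, not_lt.1 h4⟩
        calc e k ^ 3 ≤ 4096 * (x k * V k ^ 3) := hdey k hk
          _ ≤ 4096 * (x k * lam ^ 3) := by
              have h4 : V k ^ 3 ≤ lam ^ 3 := pow_le_pow_left₀ (hV0 k) h3.le 3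
              have h5 := mul_le_mul_of_nonneg_left h4 (hx0 k)
              linarith
          _ = 4096 * lam ^ 3 * x k := by ring
  have hcube : (∑ k ∈ range M, f k) ^ 3 ≤ M ^ 2 * (4096 * lam ^ 3 * X) := by
    have h1 := pow_sum_div_card_le_sum_pow (s := range M) (f := f) (fun k _ => hf0 k) 2
    rw [card_range, div_le_iff₀ (by positivity)] at h1
    calc (∑ k ∈ range M, f k) ^ 3 ≤ (∑ k ∈ range M, f k ^ 3) * (M : ℝ) ^ 2 := h1
      _ ≤ (∑ k ∈ range M, 4096 * lam ^ 3 * x k) * (M : ℝ) ^ 2 :=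
          mul_le_mul_of_nonneg_right (sum_le_sum hf3) (by positivity)
      _ = M ^ 2 * (4096 * lam ^ 3 * X) := by rw [← mul_sum, hX]; ring
  have hEc0 : 0 ≤ Ec := by rw [← hE]; exact sum_nonneg fun k _ => he0 k
  have hEc3 : (Ec / 2) ^ 3 ≤ M ^ 2 * (4096 * lam ^ 3 * X) :=
    (pow_le_pow_left₀ (by positivity) hsum 3).trans hcube
  have hid : (M : ℝ) ^ 2 * lam ^ 3 * μ = C ^ 3 * ν ^ 3 * h ^ 9 := by
    rw [← hμ4, hlam]
    field_simp
  have hEμ : Ec ^ 3 * μ ≤ 32768 * (C ^ 3 * ν ^ 3 * h ^ 9) * X := by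
    have h1 := mul_le_mul_of_nonneg_right hEc3 hμ0.le
    have h2 : (M : ℝ) ^ 2 * (4096 * lam ^ 3 * X) * μ = 4096 * ((M : ℝ) ^ 2 * lam ^ 3 * μ) * X := by
      ring
    rw [h2, hid] at h1
    have h3 : (Ec / 2) ^ 3 * μ = Ec ^ 3 * μ / 8 := by ring
    rw [h3] at h1
    linarith
  have hν4 : ν ^ 4 ≤ H ^ 6 * Ec ^ 3 := by
    have h1 : ν ^ ((4 : ℝ) / 3) ≤ H ^ 2 * Ec := by
      calc ν ^ ((4 : ℝ) / 3) ≤ H * N := hn
        _ ≤ H * (H * Ec) := mul_le_mul_of_nonneg_left hNE (by linarith)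
        _ = H ^ 2 * Ec := by ring
    have h2 : (ν ^ ((4 : ℝ) / 3)) ^ 3 = ν ^ 4 := by
      rw [← Real.rpow_natCast (ν ^ ((4 : ℝ) / 3)) 3, ← Real.rpow_mul hν.le]
      have h3 : (4 : ℝ) / 3 * ((3 : ℕ) : ℝ) = ((4 : ℕ) : ℝ) := by norm_num
      rw [h3, Real.rpow_natCast]
    calc ν ^ 4 = (ν ^ ((4 : ℝ) / 3)) ^ 3 := h2.symm
      _ ≤ (H ^ 2 * Ec) ^ 3 := pow_le_pow_left₀ (by positivity) h1 3
      _ = H ^ 6 * Ec ^ 3 := by ring
  have hfin : ν ^ 3 * (ν * μ) ≤ ν ^ 3 * (7077888 * C ^ 3 * H ^ 9 * X) := by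
    have h9 : h ^ 9 ≤ 216 * H ^ 3 := by
      calc h ^ 9 ≤ h ^ 12 := pow_le_pow_right₀ hh1 (by norm_num)
        _ = (h ^ 4) ^ 3 := by ring
        _ = 216 * H ^ 3 := by rw [hh4]; ring
    calc ν ^ 3 * (ν * μ) = ν ^ 4 * μ := by ring
      _ ≤ H ^ 6 * Ec ^ 3 * μ := mul_le_mul_of_nonneg_right hν4 hμ0.le
      _ = H ^ 6 * (Ec ^ 3 * μ) := by ring
      _ ≤ H ^ 6 * (32768 * (C ^ 3 * ν ^ 3 * h ^ 9) * X) :=
          mul_le_mul_of_nonneg_left hEμ (by positivity)
      _ = (32768 * C ^ 3 * ν ^ 3 * H ^ 6 * X) * h ^ 9 := by ring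
      _ ≤ (32768 * C ^ 3 * ν ^ 3 * H ^ 6 * X) * (216 * H ^ 3) :=
          mul_le_mul_of_nonneg_left h9 (by positivity)
      _ = ν ^ 3 * (7077888 * C ^ 3 * H ^ 9 * X) := by ring
  exact le_of_mul_le_mul_left hfin (by positivity)

variable {ι : Type} [Fintype ι] [DecidableEq ι]

/-- First edge and (one more than) the last edge of the class `k`. -/
noncomputable def fp (c : ℕ → ℕ) (k : ℕ) : ℕ := sInf {m | c m = k}

/-- One more than the last edge of the class `k`. -/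
def fq (K : KSys ι) (c : ℕ → ℕ) (k : ℕ) : ℕ :=
  ((range K.N).filter (fun m => c m = k)).sup id + 1

theorem main {K : KSys ι} (hLH : StLoHi) {M : ℕ} {c : ℕ → ℕ} (hM : 1 ≤ M) (hMN : M ≤ K.N)
    (hc : IsCells K M c) {E : Finset ℕ} (hE : E ⊆ range K.N) {H C : ℝ} (hH : 1 ≤ H)
    (hNE : (K.N : ℝ) ≤ H * E.card) (hn : (Fintype.card ι : ℝ) ^ ((4 : ℝ) / 3) ≤ H * K.N)
    (hC : 1 ≤ C)
    (hT2 : ∀ (A : Finset ℕ) (p q : ℕ → ℕ),
      (∀ z ∈ A, q z ≤ K.N) → (∀ z ∈ A, ∀ z' ∈ A, z ≠ z' → q z ≤ p z' ∨ q z' ≤ p z) →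
      ∀ lam : ℝ, 0 < lam → (∀ z ∈ A, lam ≤ ((vi K (p z) (q z)).card : ℝ)) →
        (A.card : ℝ) ≤ (C * Fintype.card ι / lam) ^ ((4 : ℝ) / 3))
    (f : ℕ → ι) (hD : ∀ (p q : ℕ), q ≤ K.N → ∀ E ⊆ Ico p q,
      E.card ^ 3 ≤ 4096 * ((E.image f).card * (vi K p q).card ^ 3)) :
    Fintype.card ι * (M : ℝ) ^ ((1 : ℝ) / 4) ≤
      7077888 * C ^ 3 * H ^ 9 * (im E (fun n => (c n, f n)) : ℝ) := by
  classical
  have hprops := hLH ι K M c hc
  rcases Nat.eq_zero_or_pos (Fintype.card ι) with h0 | h0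
  · rw [h0, Nat.cast_zero, zero_mul]
    positivity
  have hlt : ∀ n ∈ E, c n < M := fun n hn => hc.lt n (mem_range.1 (hE hn))
  have hsub : ∀ k, E.filter (fun n => c n = k) ⊆ Ico (fp c k) (fq K c k) := by
    intro k n hn
    obtain ⟨hnE, hcn⟩ := mem_filter.1 hn
    have hnN := mem_range.1 (hE hnE)
    have h1 := hprops n hnN
    have hlo : fp c k = lo c n := by unfold fp lo; rw [hcn]
    have hhi : fq K c k = hi K c n + 1 := by unfold fq hi; rw [hcn]
    rw [mem_Ico, hlo, hhi]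
    exact ⟨h1.1, Nat.lt_succ_of_le h1.2.1⟩
  have hq : ∀ k, (E.filter (fun n => c n = k)).Nonempty → ∃ n, n < K.N ∧ c n = k ∧
      fp c k = lo c n ∧ fq K c k = hi K c n + 1 := by
    rintro k ⟨n, hn⟩
    obtain ⟨hnE, hcn⟩ := mem_filter.1 hn
    exact ⟨n, mem_range.1 (hE hnE), hcn, by unfold fp lo; rw [hcn], by unfold fq hi; rw [hcn]⟩
  have hne : ∀ k, ((E.filter (fun n => c n = k)).card : ℝ) ≠ 0 →
      (E.filter (fun n => c n = k)).Nonempty := by
    intro k hk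
    rw [← card_pos]
    rcases Nat.eq_zero_or_pos (E.filter (fun n => c n = k)).card with h | h
    · exact absurd (by exact_mod_cast h) hk
    · exact h
  refine core hM (N := K.N) (Ec := E.card)
    (fun k => ((E.filter (fun n => c n = k)).card : ℝ))
    (fun k => (((E.filter (fun n => c n = k)).image f).card : ℝ))
    (fun k => ((vi K (fp c k) (fq K c k)).card : ℝ)) (by exact_mod_cast h0) hH hC
    (Nat.cast_nonneg _) (fun k => Nat.cast_nonneg _) (fun k => Nat.cast_nonneg _)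
    (fun k => Nat.cast_nonneg _) ?_ ?_ ?_ ?_ ?_ hNE hn
  · rw [card_eq_sum_card_fiberwise (f := c) (t := range M)
      (fun n hn => mem_coe.2 (mem_range.2 (hlt n hn)))]
    push_cast
    rfl
  · rw [← im_sum E c f M hlt]
    push_cast
    rfl
  · intro k _
    by_cases hk : (E.filter (fun n => c n = k)).Nonempty
    · obtain ⟨n, hnN, _, _, hhi⟩ := hq k hk
      have h1 := (hprops n hnN).2.2.1
      have h2 := hD (fp c k) (fq K c k) (by omega) _ (hsub k)
      exact_mod_cast h2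
    · rw [not_nonempty_iff_eq_empty] at hk
      simp [hk]
  · intro k _
    have h1 : (E.filter (fun n => c n = k)).card ≤
        ((range K.N).filter (fun n => c n = k)).card :=
      card_le_card (filter_subset_filter _ hE)
    have h2 := hc.size k
    have h3 : (E.filter (fun n => c n = k)).card * M ≤ 3 * K.N := by
      calc (E.filter (fun n => c n = k)).card * M
          ≤ ((range K.N).filter (fun n => c n = k)).card * M := Nat.mul_le_mul_right _ h1
        _ ≤ K.N + 2 * M := h2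
        _ ≤ 3 * K.N := by omega
    exact_mod_cast h3
  · intro lam hlam
    refine hT2 _ (fp c) (fq K c) ?_ ?_ lam hlam (fun z hz => (mem_filter.1 hz).2.2)
    · intro z hz
      obtain ⟨n, hnN, _, _, hhi⟩ := hq z (hne z (mem_filter.1 hz).2.1)
      have h1 := (hprops n hnN).2.2.1
      omega
    · intro z hz z' hz' hzz
      obtain ⟨n, hnN, hcn, hlo, hhi⟩ := hq z (hne z (mem_filter.1 hz).2.1)
      obtain ⟨n', hnN', hcn', hlo', hhi'⟩ := hq z' (hne z' (mem_filter.1 hz').2.1)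
      obtain ⟨_, _, p3, _, p5, _, p7, _⟩ := hprops n hnN
      obtain ⟨_, _, q3, _, q5, _, q7, _⟩ := hprops n' hnN'
      rcases Nat.lt_or_ge z z' with h1 | h1
      · left
        have h2 : c (hi K c n) < c n' := by rw [p5, hcn, hcn']; exact h1
        have h3 := (q7 _ p3).1 h2
        omega
      · right
        have h2 : c (hi K c n') < c n := by
          rw [q5, hcn, hcn']; omega
        have h3 := (p7 _ q3).1 h2
        omega

end XLow

open XLow in
theorem I_Low (h1 : StT2i) (h2 : StDeyV) (h3 : StLoHi) : StLow := by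
  obtain ⟨C, hC, hT⟩ := h1
  refine ⟨7077888 * C ^ 3, ?_, ?_⟩
  · have : (1 : ℝ) ≤ C ^ 3 := one_le_pow₀ hC
    linarith
  intro ι _ _ K hinj hGP M c hM hMN hc E hE H hH hNE hn
  have hT2 : ∀ (A : Finset ℕ) (p q : ℕ → ℕ),
      (∀ z ∈ A, q z ≤ K.N) → (∀ z ∈ A, ∀ z' ∈ A, z ≠ z' → q z ≤ p z' ∨ q z' ≤ p z) →
      ∀ lam : ℝ, 0 < lam → (∀ z ∈ A, lam ≤ ((vi K (p z) (q z)).card : ℝ)) →
        (A.card : ℝ) ≤ (C * Fintype.card ι / lam) ^ ((4 : ℝ) / 3) :=
    fun A p q ha hb => (hT ι K hinj hGP ℕ A p q ha hb).2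
  constructor
  · intro s
    exact main h3 hM hMN hc hE hH hNE hn hC hT2 (K.ln s)
      (fun p q hq E' hE' => (h2 ι K hinj p q hq E' hE').2.2.1 s)
  · intro r
    exact main h3 hM hMN hc hE hH hNE hn hC hT2 (K.tok r)
      (fun p q hq E' hE' => (h2 ι K hinj p q hq E' hE').2.2.2 r)

end Pool.Agent.Work.MP_e17eac_co.MX

end

section

/-!
# Arbitrary sets, item Hol: Hölder's inequality for windows of at most `lam` lines
-/

namespace Pool.Agent.Work.MP_e17eac_co.MX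

open Finset

namespace XHol

theorem tang {a : ℝ} (ha1 : a < 1) :
    1 + a / 8 ≤ (1 - a) ^ (-(1 : ℝ) / 8) := by
  have h1 : 1 - a ≤ Real.exp (-a) := by
    have := Real.add_one_le_exp (-a)
    linarith
  have h2 : Real.exp (-a) ^ (-(1 : ℝ) / 8) ≤ (1 - a) ^ (-(1 : ℝ) / 8) :=
    Real.rpow_le_rpow_of_nonpos (by linarith) h1 (by norm_num)
  have h3 : Real.exp (-a) ^ (-(1 : ℝ) / 8) = Real.exp (a / 8) := by
    rw [← Real.exp_mul]
    congr 1
    ring
  have h4 := Real.add_one_le_exp (a / 8)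
  rw [h3] at h2
  linarith

theorem two_pow : (2 : ℝ) ^ ((9 : ℝ) / 8) ≤ 9 / 4 := by
  have h : ((2 : ℝ) ^ ((9 : ℝ) / 8)) ^ (8 : ℕ) ≤ (9 / 4 : ℝ) ^ (8 : ℕ) := by
    rw [← Real.rpow_natCast ((2 : ℝ) ^ ((9 : ℝ) / 8)) 8, ← Real.rpow_mul (by norm_num)]
    rw [show ((9 : ℝ) / 8 * ((8 : ℕ) : ℝ)) = ((9 : ℕ) : ℝ) by norm_num, Real.rpow_natCast]
    norm_num
  exact le_of_pow_le_pow_left₀ (by norm_num) (by norm_num) h

theorem step {t : ℝ} (ht : 0 < t) {n : ℝ} (hn : 0 ≤ n) {u : ℝ} (hu0 : 0 ≤ u) (hu1 : u ≤ 1)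
    (hu : (n + 1) * u ≤ t ^ ((3 : ℝ) / 4) * (n + 1) ^ ((1 : ℝ) / 4)) :
    u ^ ((3 : ℝ) / 2) ≤
      18 * t * ((t / (n + t)) ^ ((1 : ℝ) / 8) - (t / (n + 1 + t)) ^ ((1 : ℝ) / 8)) := by
  have hn1 : 0 < n + 1 := by linarith
  set a := t / (n + 1 + t) with ha
  have hd : 0 < n + 1 + t := by linarith
  have ha0 : 0 < a := div_pos ht hd
  -- u is at most (t/(n+1))^(3/4)
  have hu2 : u ≤ (t / (n + 1)) ^ ((3 : ℝ) / 4) := by
    rw [Real.div_rpow ht.le hn1.le, le_div_iff₀ (Real.rpow_pos_of_pos hn1 _)]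
    have h1 : (n + 1) = (n + 1) ^ ((3 : ℝ) / 4) * (n + 1) ^ ((1 : ℝ) / 4) := by
      rw [← Real.rpow_add hn1]
      norm_num
    have h2 : 0 < (n + 1) ^ ((1 : ℝ) / 4) := Real.rpow_pos_of_pos hn1 _
    have h3 : (u * (n + 1) ^ ((3 : ℝ) / 4)) * (n + 1) ^ ((1 : ℝ) / 4) ≤
        t ^ ((3 : ℝ) / 4) * (n + 1) ^ ((1 : ℝ) / 4) := by
      calc (u * (n + 1) ^ ((3 : ℝ) / 4)) * (n + 1) ^ ((1 : ℝ) / 4) =
          ((n + 1) ^ ((3 : ℝ) / 4) * (n + 1) ^ ((1 : ℝ) / 4)) * u := by ring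
        _ = (n + 1) * u := by rw [← h1]
        _ ≤ _ := hu
    exact le_of_mul_le_mul_right h3 h2
  have h2a : u ^ ((4 : ℝ) / 3) ≤ 2 * a := by
    by_cases hc : n + 1 ≤ t
    · have h1 : u ^ ((4 : ℝ) / 3) ≤ 1 := Real.rpow_le_one hu0 hu1 (by norm_num)
      have h2 : 1 ≤ 2 * a := by
        rw [ha, mul_div_assoc', le_div_iff₀ hd]
        linarith
      linarith
    · push Not at hc
      have h1 : u ^ ((4 : ℝ) / 3) ≤ ((t / (n + 1)) ^ ((3 : ℝ) / 4)) ^ ((4 : ℝ) / 3) :=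
        Real.rpow_le_rpow hu0 hu2 (by norm_num)
      rw [← Real.rpow_mul (div_nonneg ht.le hn1.le)] at h1
      have h3 : ((3 : ℝ) / 4 * (4 / 3)) = 1 := by norm_num
      rw [h3, Real.rpow_one] at h1
      refine h1.trans ?_
      rw [ha, mul_div_assoc', div_le_div_iff₀ hn1 hd]
      nlinarith
  have h4 : u ^ ((3 : ℝ) / 2) ≤ 9 / 4 * a ^ ((9 : ℝ) / 8) := by
    have h1 : u ^ ((3 : ℝ) / 2) = (u ^ ((4 : ℝ) / 3)) ^ ((9 : ℝ) / 8) := by
      rw [← Real.rpow_mul hu0]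
      norm_num
    rw [h1]
    calc (u ^ ((4 : ℝ) / 3)) ^ ((9 : ℝ) / 8) ≤ (2 * a) ^ ((9 : ℝ) / 8) :=
          Real.rpow_le_rpow (Real.rpow_nonneg hu0 _) h2a (by norm_num)
      _ = 2 ^ ((9 : ℝ) / 8) * a ^ ((9 : ℝ) / 8) := Real.mul_rpow (by norm_num) ha0.le
      _ ≤ 9 / 4 * a ^ ((9 : ℝ) / 8) :=
          mul_le_mul_of_nonneg_right two_pow (Real.rpow_nonneg ha0.le _)
  -- the difference
  set b := 1 / (n + 1 + t) with hb
  have hb0 : 0 < b := by rw [hb]; positivity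
  have hb1 : b < 1 := by
    rw [hb, div_lt_one hd]
    linarith
  have h5 : t / (n + t) = a * (1 - b)⁻¹ := by
    have h6 : 1 - b = (n + t) / (n + 1 + t) := by
      rw [hb]
      field_simp
      ring
    rw [h6, ha]
    have h7 : 0 < n + t := by linarith
    field_simp
  have h6 : (t / (n + t)) ^ ((1 : ℝ) / 8) = a ^ ((1 : ℝ) / 8) * (1 - b) ^ (-(1 : ℝ) / 8) := by
    rw [h5, Real.mul_rpow ha0.le (inv_nonneg.mpr (by linarith)), Real.inv_rpow (by linarith),
      show (-(1 : ℝ) / 8) = -((1 : ℝ) / 8) by norm_num, Real.rpow_neg (by linarith)]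
  have h7 := tang hb1
  have h8 : 0 < a ^ ((1 : ℝ) / 8) := Real.rpow_pos_of_pos ha0 _
  have h9 : a ^ ((9 : ℝ) / 8) = a * a ^ ((1 : ℝ) / 8) := by
    rw [show ((9 : ℝ) / 8) = 1 + 1 / 8 by norm_num, Real.rpow_add ha0, Real.rpow_one]
  have h10 : a = t * b := by rw [ha, hb]; ring
  rw [h6]
  calc u ^ ((3 : ℝ) / 2) ≤ 9 / 4 * (a * a ^ ((1 : ℝ) / 8)) := by rw [← h9]; exact h4
    _ = 18 * t * (a ^ ((1 : ℝ) / 8) * (1 + b / 8) - a ^ ((1 : ℝ) / 8)) := by
        rw [h10]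
        ring
    _ ≤ 18 * t * (a ^ ((1 : ℝ) / 8) * (1 - b) ^ (-(1 : ℝ) / 8) - a ^ ((1 : ℝ) / 8)) := by
        have := mul_le_mul_of_nonneg_left h7 h8.le
        exact mul_le_mul_of_nonneg_left (by linarith) (by positivity)

theorem sum_le {α : Type} {A : Finset α} {u : α → ℝ} {t : ℝ} (ht : 0 < t)
    (hu : ∀ z ∈ A, 0 ≤ u z ∧ u z ≤ 1)
    (hs : ∀ A' ⊆ A, ∑ z ∈ A', u z ≤ t ^ ((3 : ℝ) / 4) * (A'.card : ℝ) ^ ((1 : ℝ) / 4)) (n : ℕ) :
    ∀ A' ⊆ A, A'.card = n →
      ∑ z ∈ A', u z ^ ((3 : ℝ) / 2) ≤ 18 * t * (1 - (t / (n + t)) ^ ((1 : ℝ) / 8)) := by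
  classical
  induction n with
  | zero =>
    intro A' _ hc
    rw [Finset.card_eq_zero] at hc
    subst hc
    simp [div_self ht.ne']
  | succ n ih =>
    intro A' hA' hc
    have hne : A'.Nonempty := by
      rw [← Finset.card_pos, hc]
      omega
    obtain ⟨z, hz, hmin⟩ := Finset.exists_min_image A' u hne
    have h1 := ih (A'.erase z) ((Finset.erase_subset _ _).trans hA') (by
      rw [Finset.card_erase_of_mem hz, hc]
      omega)
    have h2 : ((n : ℝ) + 1) * u z ≤ t ^ ((3 : ℝ) / 4) * ((n : ℝ) + 1) ^ ((1 : ℝ) / 4) := by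
      have h3 := hs A' hA'
      have h4 : (A'.card : ℝ) * u z ≤ ∑ w ∈ A', u w := by
        rw [← nsmul_eq_mul]
        exact Finset.card_nsmul_le_sum A' u (u z) hmin
      rw [hc] at h3 h4
      push_cast at h3 h4
      linarith
    have h3 := step ht (Nat.cast_nonneg n) (hu z (hA' hz)).1 (hu z (hA' hz)).2 h2
    rw [← Finset.add_sum_erase A' _ hz]
    push_cast
    linarith

end XHol

open XHol in
theorem I_Hol : StHol := by
  intro α A V c W lam hW hlam hV hs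
  set t : ℝ := (W / lam) ^ ((4 : ℝ) / 3) with htd
  have hWl : 0 < W / lam := div_pos hW hlam
  have ht : 0 < t := Real.rpow_pos_of_pos hWl _
  have ht34 : t ^ ((3 : ℝ) / 4) = W / lam := by
    rw [htd, ← Real.rpow_mul hWl.le]
    norm_num
  set u : α → ℝ := fun z => V z / lam with hu
  have hu01 : ∀ z ∈ A, 0 ≤ u z ∧ u z ≤ 1 := by
    intro z hz
    obtain ⟨h1, h2, _⟩ := hV z hz
    exact ⟨div_nonneg h1 hlam.le, (div_le_one hlam).mpr h2⟩
  have hus : ∀ A' ⊆ A, ∑ z ∈ A', u z ≤ t ^ ((3 : ℝ) / 4) * (A'.card : ℝ) ^ ((1 : ℝ) / 4) := by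
    intro A' hA'
    rw [ht34, hu, ← Finset.sum_div, div_mul_eq_mul_div]
    exact div_le_div_of_nonneg_right (hs A' hA') hlam.le
  have h32 : ∑ z ∈ A, u z ^ ((3 : ℝ) / 2) ≤ 18 * t := by
    refine (sum_le ht hu01 hus A.card A (Finset.Subset.refl _) rfl).trans ?_
    have h0 : 0 ≤ (t / (A.card + t)) ^ ((1 : ℝ) / 8) :=
      Real.rpow_nonneg (by positivity) _
    nlinarith
  have hH := Real.inner_le_Lp_mul_Lq_of_nonneg A (p := 3 / 2) (q := 3)
    (f := u) (g := fun z => c z ^ ((1 : ℝ) / 3))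
    (Real.holderConjugate_iff.mpr ⟨by norm_num, by norm_num⟩)
    (fun z hz => (hu01 z hz).1) (fun z hz => Real.rpow_nonneg (hV z hz).2.2 _)
  have hc3 : ∑ z ∈ A, (c z ^ ((1 : ℝ) / 3)) ^ (3 : ℝ) = ∑ z ∈ A, c z := by
    refine Finset.sum_congr rfl fun z hz => ?_
    rw [← Real.rpow_mul (hV z hz).2.2]
    norm_num

  rw [hc3] at hH
  have hc0 : 0 ≤ (∑ z ∈ A, c z) ^ ((1 : ℝ) / 3) :=
    Real.rpow_nonneg (Finset.sum_nonneg fun z hz => (hV z hz).2.2) _
  have hS0 : 0 ≤ ∑ z ∈ A, u z ^ ((3 : ℝ) / 2) :=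
    Finset.sum_nonneg fun z hz => Real.rpow_nonneg (hu01 z hz).1 _
  have h23 : (∑ z ∈ A, u z ^ ((3 : ℝ) / 2)) ^ (1 / ((3 : ℝ) / 2)) ≤ 10 * t ^ ((2 : ℝ) / 3) := by
    have h1 : (∑ z ∈ A, u z ^ ((3 : ℝ) / 2)) ^ (1 / ((3 : ℝ) / 2)) ≤
        (18 * t) ^ (1 / ((3 : ℝ) / 2)) := Real.rpow_le_rpow hS0 h32 (by norm_num)
    refine h1.trans ?_
    rw [Real.mul_rpow (by norm_num) ht.le, show (1 / ((3 : ℝ) / 2)) = 2 / 3 by norm_num]
    refine mul_le_mul_of_nonneg_right ?_ (Real.rpow_nonneg ht.le _)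
    have h2 : ((18 : ℝ) ^ ((2 : ℝ) / 3)) ^ (3 : ℕ) ≤ (10 : ℝ) ^ (3 : ℕ) := by
      rw [← Real.rpow_natCast ((18 : ℝ) ^ ((2 : ℝ) / 3)) 3, ← Real.rpow_mul (by norm_num)]
      rw [show ((2 : ℝ) / 3 * ((3 : ℕ) : ℝ)) = ((2 : ℕ) : ℝ) by norm_num, Real.rpow_natCast]
      norm_num
    exact le_of_pow_le_pow_left₀ (by norm_num) (by norm_num) h2
  have hfin : W ^ ((8 : ℝ) / 9) * lam ^ ((1 : ℝ) / 9) = lam * t ^ ((2 : ℝ) / 3) := by
    rw [htd, ← Real.rpow_mul hWl.le, Real.div_rpow hW.le hlam.le]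
    rw [show ((4 : ℝ) / 3 * (2 / 3)) = 8 / 9 by norm_num]
    have h1 : lam = lam ^ ((8 : ℝ) / 9) * lam ^ ((1 : ℝ) / 9) := by
      rw [← Real.rpow_add hlam]
      norm_num
    have h2 : 0 < lam ^ ((8 : ℝ) / 9) := Real.rpow_pos_of_pos hlam _
    rw [mul_div_assoc', eq_div_iff h2.ne']
    calc W ^ ((8 : ℝ) / 9) * lam ^ ((1 : ℝ) / 9) * lam ^ ((8 : ℝ) / 9) =
        (lam ^ ((8 : ℝ) / 9) * lam ^ ((1 : ℝ) / 9)) * W ^ ((8 : ℝ) / 9) := by ring
      _ = lam * W ^ ((8 : ℝ) / 9) := by rw [← h1]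
  have hsum : ∑ z ∈ A, V z * c z ^ ((1 : ℝ) / 3) =
      lam * ∑ z ∈ A, u z * c z ^ ((1 : ℝ) / 3) := by
    rw [Finset.mul_sum]
    refine Finset.sum_congr rfl fun z _ => ?_
    rw [hu]
    field_simp
  calc ∑ z ∈ A, V z * c z ^ ((1 : ℝ) / 3) = lam * ∑ z ∈ A, u z * c z ^ ((1 : ℝ) / 3) := hsum
    _ ≤ lam * ((10 * t ^ ((2 : ℝ) / 3)) * (∑ z ∈ A, c z) ^ ((1 : ℝ) / 3)) :=
        mul_le_mul_of_nonneg_left (hH.trans (mul_le_mul_of_nonneg_right h23 hc0)) hlam.le
    _ = 10 * (lam * t ^ ((2 : ℝ) / 3)) * (∑ z ∈ A, c z) ^ ((1 : ℝ) / 3) := by ring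
    _ = 10 * (W ^ ((8 : ℝ) / 9) * lam ^ ((1 : ℝ) / 9)) * (∑ z ∈ A, c z) ^ ((1 : ℝ) / 3) := by
        rw [hfin]
    _ = _ := by ring

end Pool.Agent.Work.MP_e17eac_co.MX

end

section

/-!
# Item Mc: mass cells
-/

namespace Pool.Agent.Work.MP_e17eac_co.MX

open Finset
open Pool.Agent.Work.MP_e17eac_co.DH

theorem I_Mc : StMc := by
  intro ι _ _ K M hM
  refine ⟨⟨?_, ?_, ?_⟩, ?_⟩
  · intro n m hnm _
    exact Nat.div_le_div_right (Nat.mul_le_mul_right M hnm)
  · intro n hn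
    exact Nat.div_lt_of_lt_mul (Nat.mul_lt_mul_of_pos_right hn hM)
  · intro k
    rcases ((range K.N).filter (fun n => mc K M n = k)).eq_empty_or_nonempty with h0 | h0
    · rw [h0, card_empty]
      omega
    · have ha := Finset.min'_mem _ h0
      have hb := Finset.max'_mem _ h0
      have hsub : (range K.N).filter (fun n => mc K M n = k) ⊆
          Icc (((range K.N).filter (fun n => mc K M n = k)).min' h0)
            (((range K.N).filter (fun n => mc K M n = k)).max' h0) := fun n hn =>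
        mem_Icc.2 ⟨Finset.min'_le _ n hn, Finset.le_max' _ n hn⟩
      have hcard := Finset.card_le_card hsub
      rw [Nat.card_Icc] at hcard
      revert ha hb hcard
      generalize ((range K.N).filter (fun n => mc K M n = k)).min' h0 = a
      generalize ((range K.N).filter (fun n => mc K M n = k)).max' h0 = b
      intro ha hb hcard
      obtain ⟨ha1, ha2⟩ := mem_filter.1 ha
      obtain ⟨hb1, hb2⟩ := mem_filter.1 hb
      have hN : 0 < K.N := lt_of_le_of_lt (Nat.zero_le _) (mem_range.1 ha1)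
      have ha3 : k * K.N ≤ a * M := (Nat.le_div_iff_mul_le hN).1 (le_of_eq ha2.symm)
      have hb3 : b * M < (k + 1) * K.N := (Nat.div_lt_iff_lt_mul hN).1
        (lt_of_le_of_lt (le_of_eq hb2) (Nat.lt_succ_self k))
      have h1 : ((range K.N).filter (fun n => mc K M n = k)).card * M ≤ (b + 1 - a) * M :=
        Nat.mul_le_mul_right M hcard
      have h2 : (b + 1 - a) * M ≤ K.N + 2 * M := by
        rw [Nat.sub_mul]
        have h3 : (k + 1) * K.N = k * K.N + K.N := by ring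
        have h4 : (b + 1) * M = b * M + M := by ring
        omega
      exact le_trans h1 h2
  · intro M' hM' n
    show n * (M * M') / K.N / M' = n * M / K.N
    rw [Nat.div_div_eq_div_mul, ← mul_assoc, Nat.mul_div_mul_right _ _ hM']

end Pool.Agent.Work.MP_e17eac_co.MX

end

section

set_option autoImplicit false

/-!
# Item Rot: rotation by 180 degrees (time and height reversed)
-/

namespace Pool.Agent.Work.MP_e17eac_co.MX

open Finset
open Pool.Agent.Work.MP_e17eac_co.DH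

namespace XRot

variable {ι : Type} [Fintype ι] [DecidableEq ι]

theorem vlow (K : KSys ι) {n : ℕ} {s : ℝ}
    (h2 : ∀ k, n ≤ k → k < K.N → s ≤ - K.t (K.N - 1 - k)) :
    ∀ k, k < K.N - n → K.t k ≤ -s := by
  intro k hk
  have h := h2 (K.N - 1 - k) (by omega) (by omega)
  have e : K.N - 1 - (K.N - 1 - k) = k := by omega
  rw [e] at h
  linarith

theorem vhigh (K : KSys ι) {n : ℕ} (hn : n ≤ K.N) {s : ℝ}
    (h1 : ∀ k, k < n → - K.t (K.N - 1 - k) ≤ s) :
    ∀ k, K.N - n ≤ k → k < K.N → -s ≤ K.t k := by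
  intro k hk hkN
  have h := h1 (K.N - 1 - k) (by omega)
  have e : K.N - 1 - (K.N - 1 - k) = k := by omega
  rw [e] at h
  linarith

/-- The rotated system. -/
def rot (K : KSys ι) : KSys ι where
  x := K.x
  y i := - K.y i
  N := K.N
  t n := - K.t (K.N - 1 - n)
  a n := K.a (K.N - 1 - n)
  b n := K.b (K.N - 1 - n)
  S n := (K.S (K.N - n))ᶜ
  L s := - K.L (-s)
  x_nonneg := K.x_nonneg
  x_le_one := K.x_le_one
  t_lt n k h1 h2 := by
    have := K.t_lt (K.N - 1 - k) (K.N - 1 - n) (by omega) (by omega)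
    linarith
  a_mem n hn := by
    have hm : K.N - 1 - n < K.N := by omega
    have e : K.N - n = (K.N - 1 - n) + 1 := by omega
    have h1 := K.a_mem _ hm
    have h2 := K.b_mem _ hm
    have h3 : K.a (K.N - 1 - n) ≠ K.b (K.N - 1 - n) := fun h => h2 (h ▸ h1)
    rw [mem_compl, e, K.S_succ _ hm, mem_insert, mem_erase]
    rintro (h | ⟨h, -⟩)
    · exact h3 h
    · exact h rfl
  b_mem n hn := by
    have hm : K.N - 1 - n < K.N := by omega
    have e : K.N - n = (K.N - 1 - n) + 1 := by omega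
    rw [mem_compl, not_not, e, K.S_succ _ hm]
    exact mem_insert_self _ _
  S_succ n hn := by
    have hm : K.N - 1 - n < K.N := by omega
    have e : K.N - n = (K.N - 1 - n) + 1 := by omega
    have e' : K.N - (n + 1) = K.N - 1 - n := by omega
    have h1 := K.a_mem _ hm
    have h2 := K.b_mem _ hm
    rw [e', e, K.S_succ _ hm]
    ext i
    simp only [mem_compl, mem_insert, mem_erase, not_or, not_and]
    constructor
    · intro hi
      by_cases hb : i = K.b (K.N - 1 - n)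
      · exact Or.inl hb
      · exact Or.inr ⟨fun h => hi (h ▸ h1), hb, fun _ => hi⟩
    · rintro (rfl | ⟨h4, -, h5⟩)
      · exact h2
      · exact h5 h4
  x_lt n hn := K.x_lt _ (by omega)
  meet n hn := by
    have := K.meet (K.N - 1 - n) (by omega)
    linarith
  third n hn i h1 h2 h3 := by
    apply K.third (K.N - 1 - n) (by omega) i h1 h2
    linarith
  below n hn s h1 h2 i hi := by
    have hi' : i ∉ K.S (K.N - n) := by simpa using hi
    have := K.above (K.N - n) (by omega) (-s) (vlow K h2) (vhigh K hn h1) i hi'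
    linarith
  above n hn s h1 h2 i hi := by
    have hi' : i ∈ K.S (K.N - n) := by simpa using hi
    have := K.below (K.N - n) (by omega) (-s) (vlow K h2) (vhigh K hn h1) i hi'
    linarith

end XRot

theorem I_Rot : StRot := by
  intro ι _ _ K
  exact ⟨XRot.rot K, rfl, rfl, fun _ => rfl, fun _ _ => ⟨rfl, rfl, rfl⟩⟩

end Pool.Agent.Work.MP_e17eac_co.MX

end

section

set_option autoImplicit false

/-!
# Super-separated intervals and scale classes
-/

namespace Pool.Agent.Work.MP_e17eac_co.MX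

open Finset

namespace SupCnt

theorem chain (l : ℕ → ℝ) (q L : ℝ) (hq : 0 ≤ q) : ∀ U : Finset ℕ,
    (∀ u ∈ U, ∀ u' ∈ U, u < u' → q * l u' ≤ l u) → (∀ u ∈ U, L ≤ l u) →
    ∀ u ∈ U, (∀ u' ∈ U, u ≤ u') → q ^ (U.card - 1) * L ≤ l u := by
  intro U
  induction U using Finset.induction_on_min with
  | empty => intro _ _ u hu; exact absurd hu (Finset.notMem_empty u)
  | insert a S ha ih =>
    intro h1 h2 u hu hmin
    have hua : u = a := by
      rcases Finset.mem_insert.mp hu with h | h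
      · exact h
      · have h3 := ha u h
        have h4 := hmin a (Finset.mem_insert_self a S)
        omega
    subst hua
    have hnot : u ∉ S := fun h => lt_irrefl u (ha u h)
    rw [Finset.card_insert_of_notMem hnot, Nat.add_sub_cancel]
    rcases S.eq_empty_or_nonempty with h0 | h0
    · rw [h0, Finset.card_empty, pow_zero, one_mul]
      exact h2 u (Finset.mem_insert_self u S)
    · have hb := S.min'_mem h0
      have h3 := ih (fun v hv v' hv' => h1 v (Finset.mem_insert_of_mem hv) v'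
        (Finset.mem_insert_of_mem hv')) (fun v hv => h2 v (Finset.mem_insert_of_mem hv))
        (S.min' h0) hb (fun v hv => S.min'_le v hv)
      have h4 := h1 u (Finset.mem_insert_self u S) (S.min' h0) (Finset.mem_insert_of_mem hb)
        (ha _ hb)
      have h5 : S.card = (S.card - 1) + 1 := by
        have := Finset.card_pos.mpr h0
        omega
      rw [h5, pow_succ]
      calc q ^ (S.card - 1) * q * L = q * (q ^ (S.card - 1) * L) := by ring
        _ ≤ q * l (S.min' h0) := mul_le_mul_of_nonneg_left h3 hq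
        _ ≤ l u := h4

end SupCnt

open SupCnt in
theorem I_SupCnt : StSupCnt := by
  intro U s e x e0 r ρ Q k hQ hr h1 h2 h3 hk
  have hQ0 : (0 : ℝ) < Q := by linarith
  have hq : (2 : ℝ) ≤ Q / 4 := by linarith
  rcases Nat.lt_or_ge U.card 2 with hc | hc
  · omega
  have hne : U.Nonempty := Finset.card_pos.mp (by omega)
  set a := U.min' hne with ha
  have haU : a ∈ U := U.min'_mem hne
  set S := U.erase a with hS
  have hSc : S.card = U.card - 1 := Finset.card_erase_of_mem haU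
  have hSne : S.Nonempty := Finset.card_pos.mp (by omega)
  set b := S.min' hSne with hb
  have hbS : b ∈ S := S.min'_mem hSne
  have hbU : b ∈ U := Finset.mem_of_mem_erase hbS
  have hab : a < b := by
    have h4 := U.min'_le b hbU
    have h5 := Finset.ne_of_mem_erase hbS
    rw [← ha] at h4
    omega
  have key : ∀ u ∈ U, Q / 4 * (e0 - e u) < e u - s u := by
    intro u hu
    have h4 := (h1 u hu).2.2.2
    have h5 : Q / 4 * (e0 - e u) < Q / 4 * (4 / Q * (e u - s u)) :=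
      mul_lt_mul_of_pos_left h4 (by linarith)
    have h6 : Q / 4 * (4 / Q * (e u - s u)) = e u - s u := by
      field_simp
    linarith
  have hL : ∀ u ∈ U, r / 2 ≤ e u - s u := by
    intro u hu
    have h4 := key u hu
    obtain ⟨h5, h6, h7, _⟩ := h1 u hu
    obtain ⟨h8, _⟩ := h3 u hu
    have h9 : 2 * (e0 - e u) ≤ Q / 4 * (e0 - e u) :=
      mul_le_mul_of_nonneg_right hq (by linarith)
    linarith
  have hdec : ∀ u ∈ U, ∀ u' ∈ U, u < u' → Q / 4 * (e u' - s u') ≤ e u - s u := by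
    intro u hu u' hu' huu
    have h4 := key u hu
    have h5 := h2 u hu u' hu' huu
    have h6 := (h1 u' hu').2.2.1
    have h7 : Q / 4 * (e u' - s u') ≤ Q / 4 * (e0 - e u) :=
      mul_le_mul_of_nonneg_left (by linarith) (by linarith)
    linarith
  have h4 := chain (fun u => e u - s u) (Q / 4) (r / 2) (by linarith) S
    (fun u hu u' hu' => hdec u (Finset.mem_of_mem_erase hu) u' (Finset.mem_of_mem_erase hu'))
    (fun u hu => hL u (Finset.mem_of_mem_erase hu)) b hbS (fun u hu => S.min'_le u hu)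
  have h5 : e b - s b < e0 - e a := by
    have h6 := h2 a haU b hbU hab
    have h7 := (h1 b hbU).2.2.1
    linarith
  have h6 := (h3 a haU).2
  have h7 := (h1 a haU).2.1
  have h8 : (Q / 4) ^ (S.card - 1) * (r / 2) < ρ * r := by linarith
  have h9 : (Q / 4) ^ (S.card - 1) < 2 * ρ := by
    by_contra hcon
    push Not at hcon
    have h10 : 2 * ρ * (r / 2) ≤ (Q / 4) ^ (S.card - 1) * (r / 2) :=
      mul_le_mul_of_nonneg_right hcon (by linarith)
    linarith
  have h10 : (Q / 4) ^ (S.card - 1) < (Q / 4) ^ k := lt_of_lt_of_le h9 hk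
  have h11 : S.card - 1 < k := (pow_lt_pow_iff_right₀ (by linarith)).mp h10
  omega

end Pool.Agent.Work.MP_e17eac_co.MX

end

section

/-!
# T2 for index windows
-/

namespace Pool.Agent.Work.MP_e17eac_co.MX

open Finset
open Pool.Agent.Work.MP_e17eac_co.DH
open Pool.Agent.Work.MP_e17eac_co.DH.XSWEEP (GP)

namespace XT2i

variable {ι : Type} [Fintype ι] [DecidableEq ι]

/-- Right end (time) of the index window ending before `q`. -/
noncomputable def ve (K : KSys ι) (q : ℕ) : ℝ := if q < K.N then K.t q else K.t (K.N - 1) + 1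

lemma t_le_iff (K : KSys ι) {n m : ℕ} (hn : n < K.N) (hm : m < K.N) :
    K.t n ≤ K.t m ↔ n ≤ m := by
  constructor
  · intro h
    by_contra hc
    push Not at hc
    exact absurd (K.t_lt m n hc hn) (not_lt.mpr h)
  · intro h
    rcases h.eq_or_lt with h | h
    · rw [h]
    · exact (K.t_lt n m h hm).le

lemma t_lt_ve (K : KSys ι) {n q : ℕ} (hn : n < K.N) (hq : q ≤ K.N) :
    K.t n < ve K q ↔ n < q := by
  unfold ve
  split_ifs with h
  · rw [← not_le, t_le_iff K h hn, not_le]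
  · have hq' : q = K.N := by omega
    constructor
    · intro _; omega
    · intro _
      have : K.t n ≤ K.t (K.N - 1) := (t_le_iff K hn (by omega)).mpr (by omega)
      linarith

lemma visI_eq (K : KSys ι) {p q : ℕ} (hpq : p < q) (hq : q ≤ K.N) :
    PS.visI K (K.t p) (ve K q) = vi K p q := by
  unfold PS.visI vi
  congr 1
  ext n
  simp only [mem_filter, mem_range, mem_Ico]
  constructor
  · rintro ⟨hn, h1, h2⟩
    exact ⟨(t_le_iff K (by omega) hn).mp h1, (t_lt_ve K hn hq).mp h2⟩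
  · rintro ⟨h1, h2⟩
    have hn : n < K.N := by omega
    exact ⟨hn, (t_le_iff K (by omega) hn).mpr h1, (t_lt_ve K hn hq).mpr h2⟩

lemma vi_empty (K : KSys ι) {p q : ℕ} (h : ¬ p < q) : (vi K p q).card = 0 := by
  unfold vi KSys.lines
  rw [Ico_eq_empty h]
  simp

/-- Disjoint nonempty index windows. -/
lemma key {C : ℝ} (K : KSys ι)
    (hC : ∀ (A : Finset ℕ) (u v : ℕ → ℝ),
      (∀ c ∈ A, ∀ c' ∈ A, c ≠ c' → v c ≤ u c' ∨ v c' ≤ u c) →
      ∑ c ∈ A, ((PS.visI K (u c) (v c)).card : ℝ) ≤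
        C * Fintype.card ι * (A.card : ℝ) ^ ((1 : ℝ) / 4))
    (α : Type) (A : Finset α) (p q : α → ℕ) (hq : ∀ z ∈ A, q z ≤ K.N)
    (hpq : ∀ z ∈ A, p z < q z)
    (hd : ∀ z ∈ A, ∀ z' ∈ A, z ≠ z' → q z ≤ p z' ∨ q z' ≤ p z) (hA : A.Nonempty) :
    ∑ z ∈ A, ((vi K (p z) (q z)).card : ℝ) ≤
      C * Fintype.card ι * (A.card : ℝ) ^ ((1 : ℝ) / 4) := by
  classical
  obtain ⟨z0, hz0⟩ := hA
  let g : ℕ → α := fun n => if h : n < A.card then (A.equivFin.symm ⟨n, h⟩ : α) else z0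
  have hgm : ∀ n ∈ range A.card, g n ∈ A := by
    intro n hn
    have hn' : n < A.card := mem_range.mp hn
    simp only [g, hn', dif_pos]
    exact (A.equivFin.symm ⟨n, hn'⟩).2
  have hgi : Set.InjOn g (range A.card : Set ℕ) := by
    intro n hn m hm hnm
    have hn' : n < A.card := by simpa using hn
    have hm' : m < A.card := by simpa using hm
    simp only [g, hn', hm', dif_pos] at hnm
    have h1 := A.equivFin.symm.injective (Subtype.ext hnm)
    simpa using h1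
  have hgs : Set.SurjOn g (range A.card : Set ℕ) (A : Set α) := by
    intro z hz
    have hz' : z ∈ A := hz
    refine ⟨(A.equivFin ⟨z, hz'⟩ : ℕ), ?_, ?_⟩
    · simp
    · have h1 : ((A.equivFin ⟨z, hz'⟩ : Fin A.card) : ℕ) < A.card := Fin.is_lt _
      simp only [g, h1, dif_pos]
      simp
  have hsum : ∑ n ∈ range A.card, ((vi K (p (g n)) (q (g n))).card : ℝ) =
      ∑ z ∈ A, ((vi K (p z) (q z)).card : ℝ) :=
    Finset.sum_nbij g hgm hgi hgs (fun _ _ => rfl)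
  have hmain := hC (range A.card) (fun n => K.t (p (g n))) (fun n => ve K (q (g n))) (by
    intro c hc c' hc' hcc
    have hne : g c ≠ g c' := fun h => hcc (hgi hc hc' h)
    have h1 := hgm c hc
    have h2 := hgm c' hc'
    have aux : ∀ z ∈ A, ∀ z' ∈ A, q z ≤ p z' → ve K (q z) ≤ K.t (p z') := by
      intro z hz z' hz' h
      have hp' := hpq z' hz'
      have hq' := hq z' hz'
      have hlt : q z < K.N := by omega
      unfold ve
      rw [if_pos hlt]
      exact (t_le_iff K hlt (by omega)).mpr h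
    rcases hd _ h1 _ h2 hne with h | h
    · exact Or.inl (aux _ h1 _ h2 h)
    · exact Or.inr (aux _ h2 _ h1 h))
  rw [card_range] at hmain
  rw [← hsum]
  refine le_trans (le_of_eq ?_) hmain
  refine Finset.sum_congr rfl fun n hn => ?_
  rw [visI_eq K (hpq _ (hgm n hn)) (hq _ (hgm n hn))]

end XT2i

open XT2i in
theorem I_T2i (h : PS.StT2) : StT2i := by
  classical
  obtain ⟨C0, hC0, h⟩ := h
  refine ⟨max C0 1, le_max_right _ _, ?_⟩
  intro ι _ _ K hx hgp α A p q hq hd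
  have hn0 : (0 : ℝ) ≤ Fintype.card ι := Nat.cast_nonneg _
  have hC1 : (1 : ℝ) ≤ max C0 1 := le_max_right _ _
  have hfirst : ∑ z ∈ A, ((vi K (p z) (q z)).card : ℝ) ≤
      max C0 1 * Fintype.card ι * (A.card : ℝ) ^ ((1 : ℝ) / 4) := by
    have hs : ∑ z ∈ A, ((vi K (p z) (q z)).card : ℝ) =
        ∑ z ∈ A.filter (fun z => p z < q z), ((vi K (p z) (q z)).card : ℝ) := by
      symm
      refine Finset.sum_subset (filter_subset _ _) ?_
      intro z hz hz'
      have : ¬ p z < q z := fun hc => hz' (mem_filter.mpr ⟨hz, hc⟩)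
      rw [vi_empty K this]
      simp
    rw [hs]
    rcases (A.filter (fun z => p z < q z)).eq_empty_or_nonempty with he | hne
    · rw [he]
      simp only [sum_empty]
      positivity
    · have hk := key K (h ι K hx hgp) α (A.filter (fun z => p z < q z)) p q
        (fun z hz => hq z (mem_filter.mp hz).1) (fun z hz => (mem_filter.mp hz).2)
        (fun z hz z' hz' => hd z (mem_filter.mp hz).1 z' (mem_filter.mp hz').1) hne
      refine hk.trans ?_
      have hc : ((A.filter (fun z => p z < q z)).card : ℝ) ≤ (A.card : ℝ) := by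
        exact_mod_cast card_filter_le _ _
      have hr : ((A.filter (fun z => p z < q z)).card : ℝ) ^ ((1 : ℝ) / 4) ≤
          (A.card : ℝ) ^ ((1 : ℝ) / 4) :=
        Real.rpow_le_rpow (Nat.cast_nonneg _) hc (by norm_num)
      exact mul_le_mul (mul_le_mul_of_nonneg_right (le_max_left _ _) hn0) hr
        (Real.rpow_nonneg (Nat.cast_nonneg _) _) (mul_nonneg (by linarith) hn0)
  refine ⟨hfirst, ?_⟩
  intro lam hlam hl
  have hX : 0 ≤ max C0 1 * Fintype.card ι / lam :=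
    div_nonneg (mul_nonneg (by linarith) hn0) hlam.le
  rcases A.eq_empty_or_nonempty with he | hne
  · rw [he]
    simp only [card_empty, Nat.cast_zero]
    exact Real.rpow_nonneg hX _
  · have ha : (0 : ℝ) < A.card := by exact_mod_cast hne.card_pos
    have h1 : (A.card : ℝ) * lam ≤ ∑ z ∈ A, ((vi K (p z) (q z)).card : ℝ) := by
      have := Finset.card_nsmul_le_sum A (fun z => ((vi K (p z) (q z)).card : ℝ)) lam hl
      simpa [nsmul_eq_mul] using this
    have h2 := h1.trans hfirst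
    have h4 : 0 < (A.card : ℝ) ^ ((1 : ℝ) / 4) := Real.rpow_pos_of_pos ha _
    have h5 : (A.card : ℝ) = (A.card : ℝ) ^ ((3 : ℝ) / 4) * (A.card : ℝ) ^ ((1 : ℝ) / 4) := by
      rw [← Real.rpow_add ha]
      norm_num
    have h6 : (A.card : ℝ) ^ ((3 : ℝ) / 4) ≤ max C0 1 * Fintype.card ι / lam := by
      rw [le_div_iff₀ hlam]
      have h7 : ((A.card : ℝ) ^ ((3 : ℝ) / 4) * lam) * (A.card : ℝ) ^ ((1 : ℝ) / 4) ≤
          (max C0 1 * Fintype.card ι) * (A.card : ℝ) ^ ((1 : ℝ) / 4) := by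
        calc ((A.card : ℝ) ^ ((3 : ℝ) / 4) * lam) * (A.card : ℝ) ^ ((1 : ℝ) / 4)
            = ((A.card : ℝ) ^ ((3 : ℝ) / 4) * (A.card : ℝ) ^ ((1 : ℝ) / 4)) * lam := by ring
          _ = (A.card : ℝ) * lam := by rw [← h5]
          _ ≤ _ := h2
      exact le_of_mul_le_mul_right h7 h4
    have h8 : (A.card : ℝ) = ((A.card : ℝ) ^ ((3 : ℝ) / 4)) ^ ((4 : ℝ) / 3) := by
      rw [← Real.rpow_mul ha.le]
      norm_num
    rw [h8]
    exact Real.rpow_le_rpow (Real.rpow_nonneg ha.le _) h6 (by norm_num)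

end Pool.Agent.Work.MP_e17eac_co.MX

end

section

/-!
# Arbitrary sets, block AS2: every `b`-line meets few annuli without a jump
-/

namespace Pool.Agent.Work.MP_e17eac_co.AS2

open Finset
open Pool.Agent.Work.MP_e17eac_co.DH
open Pool.Agent.Work.MP_e17eac_co.MX

namespace XNJ

/-- A set of integers whose powers of two differ by at most `2 ^ 12 * Q` has at most `Q`
elements. -/
theorem cnt (Q : ℕ) (hQ : 2 ^ 20 ≤ Q) (s : Finset ℤ)
    (h : ∀ i ∈ s, ∀ i' ∈ s, (2 : ℝ) ^ i ≤ Q * (2 : ℝ) ^ (i' + 12)) : s.card ≤ Q := by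
  rcases s.eq_empty_or_nonempty with rfl | hne
  · simp
  have hm : s.min' hne ∈ s := s.min'_mem hne
  have hQ0 : Q ≠ 0 := by
    intro h0
    rw [h0] at hQ
    norm_num at hQ
  have hsub : s ⊆ Finset.Icc (s.min' hne) (s.min' hne + ((12 + Nat.log 2 Q : ℕ) : ℤ)) := by
    intro i hi
    rw [Finset.mem_Icc]
    refine ⟨s.min'_le i hi, ?_⟩
    by_contra hlt
    push Not at hlt
    have h1 := h i hi _ hm
    have h2 : (2 : ℝ) ^ (s.min' hne + 12 + ((Nat.log 2 Q + 1 : ℕ) : ℤ)) ≤ 2 ^ i := by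
      apply zpow_le_zpow_right₀ (by norm_num)
      push_cast at hlt ⊢
      omega
    have h3 : (Q : ℝ) < 2 ^ (Nat.log 2 Q + 1) := by
      exact_mod_cast Nat.lt_pow_succ_log_self (by norm_num) Q
    have h4 : (2 : ℝ) ^ (s.min' hne + 12 + ((Nat.log 2 Q + 1 : ℕ) : ℤ)) =
        2 ^ (s.min' hne + 12) * 2 ^ (Nat.log 2 Q + 1) := by
      rw [zpow_add₀ (by norm_num), zpow_natCast]
    have h5 : (0 : ℝ) < 2 ^ (s.min' hne + 12) := by positivity
    have h6 := mul_lt_mul_of_pos_right h3 h5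
    linarith
  have h6 := Finset.card_le_card hsub
  rw [Int.card_Icc] at h6
  have h7 : Nat.log 2 Q + 13 ≤ Q := by
    have h8 : 20 ≤ Nat.log 2 Q := (Nat.le_log_iff_pow_le (by norm_num) hQ0).2 hQ
    have h9 : 2 ^ Nat.log 2 Q ≤ Q := Nat.pow_log_le_self 2 hQ0
    have h10 : ∀ n : ℕ, 20 ≤ n → n + 13 ≤ 2 ^ n := by
      intro n hn
      induction n, hn using Nat.le_induction with
      | base => norm_num
      | succ k hk ih => rw [pow_succ]; omega
    exact (h10 _ h8).trans h9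
  omega

variable {ι : Type} [Fintype ι] [DecidableEq ι]

theorem lo_congr {cp : ℕ → ℕ} {m n : ℕ} (h : cp m = cp n) : lo cp m = lo cp n := by
  unfold lo
  rw [h]

theorem hi_congr (K : KSys ι) {cp : ℕ → ℕ} {m n : ℕ} (h : cp m = cp n) :
    hi K cp m = hi K cp n := by
  unfold hi
  rw [h]

theorem t_le (K : KSys ι) {m n : ℕ} (h : m ≤ n) (hn : n < K.N) : K.t m ≤ K.t n := by
  rcases h.eq_or_lt with rfl | h
  · exact le_rfl
  · exact (K.t_lt m n h hn).le

/-- An affine function on an interval is at most its maximum at the ends. -/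
theorem aff_le (K : KSys ι) (p q : ι) {s0 s1 s D : ℝ} (h0 : s0 ≤ s) (h1 : s ≤ s1)
    (hD0 : |K.ht p s0 - K.ht q s0| ≤ D) (hD1 : |K.ht p s1 - K.ht q s1| ≤ D) :
    |K.ht p s - K.ht q s| ≤ D := by
  unfold KSys.ht at *
  rw [abs_le] at *
  rcases le_total (K.x p) (K.x q) with hx | hx
  · constructor <;> nlinarith
  · constructor <;> nlinarith

/-- Geometry of the hull of an element of `S`. -/
theorem hullS (h0 : StLoHi) {K : KSys ι} {Q G M M' : ℕ} {c cp : ℕ → ℕ} {kk ll : ι → ℕ → ℕ}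
    {ref : ι → ℕ → ι} {uu : ι → ℕ → ℕ} {S : Finset (ι × ℕ)} {Eg : Finset ℕ}
    (A : AnnS K Q G M M' c cp kk ll ref uu S Eg) {p : ι} {z : ℕ}
    (P : PD K c cp Q kk ll p z) :
    j0 cp kk p z ≤ kk p z ∧ kk p z ≤ hi K cp (kk p z) ∧ hi K cp (kk p z) < lo cp (ll p z) ∧
      lo cp (ll p z) ≤ ll p z ∧ ll p z ≤ j1 K cp ll p z ∧ j1 K cp ll p z < K.N := by
  have a1 := h0 ι K M' cp A.hcp (kk p z) P.kN
  have a2 := h0 ι K M' cp A.hcp (ll p z) P.lN
  refine ⟨a1.1, a1.2.1, ?_, a2.1, a2.2.1, a2.2.2.1⟩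
  refine (a2.2.2.2.2.2.2.1 _ a1.2.2.1).1 ?_
  rw [a1.2.2.2.2.1]
  exact P.lt

/-- Elements of `S` with the same `psi` have the same cell, hull, and reference line. -/
theorem psi_eq {K : KSys ι} {cp : ℕ → ℕ} {kk ll : ι → ℕ → ℕ} {p q : ι} {z w : ℕ}
    (h : psi K cp kk ll p z = psi K cp kk ll q w) :
    z = w ∧ j0 cp kk p z = j0 cp kk q w ∧ j1 K cp ll p z = j1 K cp ll q w ∧
      cp (kk p z) = cp (kk q w) ∧ cp (ll p z) = cp (ll q w) ∧
      ty K p (j0 cp kk p z) (j1 K cp ll p z) = ty K q (j0 cp kk q w) (j1 K cp ll q w) := by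
  unfold psi at h
  simp only [Prod.mk.injEq] at h
  exact ⟨h.1, lo_congr h.2.1, hi_congr K h.2.2.1, h.2.1, h.2.2.1, h.2.2.2⟩

theorem mem_hull (h0 : StLoHi) {K : KSys ι} {Q G M M' : ℕ} {c cp : ℕ → ℕ} {kk ll : ι → ℕ → ℕ}
    {ref : ι → ℕ → ι} {uu : ι → ℕ → ℕ} {S : Finset (ι × ℕ)} {Eg : Finset ℕ}
    (A : AnnS K Q G M M' c cp kk ll ref uu S Eg) {m : ℕ} (hm : m ∈ Eg) :
    j0 cp kk (K.a m) (c m) ≤ m ∧ m ≤ j1 K cp ll (K.a m) (c m) := by
  obtain ⟨hS, hu⟩ := A.eg m hm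
  have P : PD K c cp Q kk ll (K.a m) (c m) := A.pd _ hS
  have hmN := A.sub m hm
  have H := hullS h0 A P
  have a1 := h0 ι K M' cp A.hcp _ P.kN
  have a2 := h0 ι K M' cp A.hcp _ P.lN
  rcases A.uuc _ hS with h | h
  · have h' : cp m = cp (kk (K.a m) (c m)) := hu.trans h
    have := (a1.2.2.2.2.2.1 m hmN).1 h'
    exact ⟨this.1, ((this.2.trans_lt H.2.2.1).le.trans H.2.2.2.1).trans H.2.2.2.2.1⟩
  · have h' : cp m = cp (ll (K.a m) (c m)) := hu.trans h
    have := (a2.2.2.2.2.2.1 m hmN).1 h'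
    exact ⟨((H.1.trans H.2.1).trans H.2.2.1.le).trans this.1, this.2⟩

/-- `Dd` is positive on `S`. -/
theorem Dd_pos (h0 : StLoHi) {K : KSys ι} {Q G M M' : ℕ} {c cp : ℕ → ℕ} {kk ll : ι → ℕ → ℕ}
    {ref : ι → ℕ → ι} {uu : ι → ℕ → ℕ} {S : Finset (ι × ℕ)} {Eg : Finset ℕ}
    (A : AnnS K Q G M M' c cp kk ll ref uu S Eg) {w : ι × ℕ} (hw : w ∈ S) :
    0 < Dd K cp kk ll ref w.1 w.2 := by
  by_contra hneg
  push Not at hneg
  have P := A.pd w hw
  have H := hullS h0 A P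
  have hlt : K.t (j0 cp kk w.1 w.2) < K.t (j1 K cp ll w.1 w.2) :=
    K.t_lt _ _ (((H.1.trans H.2.1).trans_lt H.2.2.1).trans_le (H.2.2.2.1.trans H.2.2.2.2.1))
      H.2.2.2.2.2
  have e0 := (le_max_left _ _).trans hneg
  have e1 := (le_max_right _ _).trans hneg
  have e0' := abs_nonpos_iff.1 e0
  have e1' := abs_nonpos_iff.1 e1
  unfold KSys.ht at e0' e1'
  have hx : (K.x w.1 - K.x (ref w.1 w.2)) *
      (K.t (j1 K cp ll w.1 w.2) - K.t (j0 cp kk w.1 w.2)) = 0 := by linarith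
  have hx' : K.x w.1 = K.x (ref w.1 w.2) := by
    rcases mul_eq_zero.1 hx with h | h
    · linarith
    · linarith
  have hy' : K.y w.1 = K.y (ref w.1 w.2) := by
    rw [hx'] at e0'
    linarith
  have hh : ∀ s, K.ht w.1 s = K.ht (ref w.1 w.2) s := by
    intro s
    unfold KSys.ht
    rw [hx', hy']
  have hp := psi_eq (A.psir w hw)
  have hd : dl K cp kk ll (ref w.1 w.2) w.2 = dl K cp kk ll w.1 w.2 := by
    unfold dl
    rw [hp.2.1, hp.2.2.1]
    unfold del up dn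
    simp only [hh]
  have h1 := A.dlr w hw
  have h2 := A.posr w hw
  rw [hd] at h1 h2
  linarith

/-- The estimates for one edge. -/
theorem est (h0 : StLoHi) {K : KSys ι} {Q G M M' : ℕ} {c cp : ℕ → ℕ} {kk ll : ι → ℕ → ℕ}
    {ref : ι → ℕ → ι} {uu : ι → ℕ → ℕ} {S : Finset (ι × ℕ)} {Eg : Finset ℕ}
    (A : AnnS K Q G M M' c cp kk ll ref uu S Eg) {m : ℕ} (hm : m ∈ Eg)
    (hj : ¬ Jmp K c cp kk ll ref m) {W : ℝ}
    (hW : W = max
      |K.ht (K.b m) (K.t (j0 cp kk (K.a m) (c m))) -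
        K.ht (ref (K.a m) (c m)) (K.t (j0 cp kk (K.a m) (c m)))|
      |K.ht (K.b m) (K.t (j1 K cp ll (K.a m) (c m))) -
        K.ht (ref (K.a m) (c m)) (K.t (j1 K cp ll (K.a m) (c m)))|) :
    (2 : ℝ) ^ (ii K c cp kk ll ref m) ≤ 16 * Q * W ∧ W ≤ 2 ^ (ii K c cp kk ll ref m + 8) := by
  obtain ⟨hS, hu⟩ := A.eg m hm
  have P : PD K c cp Q kk ll (K.a m) (c m) := A.pd _ hS
  have hmN := A.sub m hm
  have H := hullS h0 A P
  have MH := mem_hull h0 A hm
  have hD := Dd_pos h0 A hS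
  have g0 := A.gen _ hS m hmN hu _ (Or.inl rfl)
  have g1 := A.gen _ hS m hmN hu _ (Or.inr rfl)
  have hDle : Dd K cp kk ll ref (K.a m) (c m) ≤
      16 * Q * |K.ht (K.a m) (K.t m) - K.ht (ref (K.a m) (c m)) (K.t m)| := max_le g0 g1
  have hI1 : (2 : ℝ) ^ (ii K c cp kk ll ref m) ≤ Dd K cp kk ll ref (K.a m) (c m) :=
    Int.zpow_log_le_self (by norm_num) hD
  have hI2 : Dd K cp kk ll ref (K.a m) (c m) < (2 : ℝ) ^ (ii K c cp kk ll ref m + 1) :=
    Int.lt_zpow_succ_log_self (by norm_num) _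
  have ht0 : K.t (j0 cp kk (K.a m) (c m)) ≤ K.t m := t_le K MH.1 hmN
  have ht1 : K.t m ≤ K.t (j1 K cp ll (K.a m) (c m)) := t_le K MH.2 H.2.2.2.2.2
  have hmeet : K.ht (K.a m) (K.t m) = K.ht (K.b m) (K.t m) := K.meet m hmN
  have hW0 : |K.ht (K.b m) (K.t (j0 cp kk (K.a m) (c m))) -
        K.ht (ref (K.a m) (c m)) (K.t (j0 cp kk (K.a m) (c m)))| ≤ W := by
    rw [hW]; exact le_max_left _ _
  have hW1 : |K.ht (K.b m) (K.t (j1 K cp ll (K.a m) (c m))) -
        K.ht (ref (K.a m) (c m)) (K.t (j1 K cp ll (K.a m) (c m)))| ≤ W := by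
    rw [hW]; exact le_max_right _ _
  have hvW := aff_le K (K.b m) (ref (K.a m) (c m)) ht0 ht1 hW0 hW1
  have hD0 : |K.ht (K.a m) (K.t (j0 cp kk (K.a m) (c m))) -
        K.ht (ref (K.a m) (c m)) (K.t (j0 cp kk (K.a m) (c m)))| ≤
        Dd K cp kk ll ref (K.a m) (c m) := le_max_left _ _
  have hD1 : |K.ht (K.a m) (K.t (j1 K cp ll (K.a m) (c m))) -
        K.ht (ref (K.a m) (c m)) (K.t (j1 K cp ll (K.a m) (c m)))| ≤
        Dd K cp kk ll ref (K.a m) (c m) := le_max_right _ _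
  have hvD := aff_le K (K.a m) (ref (K.a m) (c m)) ht0 ht1 hD0 hD1
  rw [hmeet] at hvD hDle
  have hQ0 : (0 : ℝ) ≤ Q := Nat.cast_nonneg _
  refine ⟨?_, ?_⟩
  · calc (2 : ℝ) ^ (ii K c cp kk ll ref m) ≤ _ := hI1
      _ ≤ _ := hDle
      _ ≤ 16 * Q * W := by
        apply mul_le_mul_of_nonneg_left hvW
        positivity
  · -- slopes
    have hxlt := K.x_lt m hmN
    unfold Jmp at hj
    push Not at hj
    unfold hl at hj
    set s0 := K.t (j0 cp kk (K.a m) (c m))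
    set s1 := K.t (j1 K cp ll (K.a m) (c m))
    set l := ref (K.a m) (c m)
    set D := Dd K cp kk ll ref (K.a m) (c m)
    set I := ii K c cp kk ll ref m
    have hHpos : 0 ≤ s1 - s0 := by linarith
    have e1 : (s1 - s0) * (K.x (K.a m) - K.x l) ≤ 2 * D := by
      unfold KSys.ht at hD0 hD1
      rw [abs_le] at hD0 hD1
      nlinarith
    have e2 : (s1 - s0) * (K.x (K.b m) - K.x l) ≤ 2 * D := by
      refine le_trans ?_ e1
      apply mul_le_mul_of_nonneg_left _ hHpos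
      linarith
    have p0 : (2 : ℝ) ^ (I + 1) = 2 * 2 ^ I := by
      rw [zpow_add₀ (by norm_num)]; norm_num; ring
    have p7 : (2 : ℝ) ^ (I + 7) = 128 * 2 ^ I := by
      rw [zpow_add₀ (by norm_num)]; norm_num; ring
    have p8 : (2 : ℝ) ^ (I + 8) = 256 * 2 ^ I := by
      rw [zpow_add₀ (by norm_num)]; norm_num; ring
    have hIpos : (0 : ℝ) < 2 ^ I := by positivity
    rw [p7] at hj
    rw [p0] at hI2
    rw [p8]
    have e3 : (s1 - s0) * |K.x (K.b m) - K.x l| ≤ 128 * 2 ^ I := by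
      rcases abs_cases (K.x (K.b m) - K.x l) with ⟨h, -⟩ | ⟨h, -⟩
      · rw [h]; linarith
      · rw [h]; linarith
    have key : ∀ s, s0 ≤ s → s ≤ s1 → |K.ht (K.b m) s - K.ht l s| ≤ 256 * 2 ^ I := by
      intro s hs0 hs1
      have e4 : K.ht (K.b m) s - K.ht l s =
          (K.ht (K.b m) (K.t m) - K.ht l (K.t m)) + (K.x (K.b m) - K.x l) * (s - K.t m) := by
        unfold KSys.ht; ring
      rw [e4]
      have e5 : |(K.x (K.b m) - K.x l) * (s - K.t m)| ≤ (s1 - s0) * |K.x (K.b m) - K.x l| := by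
        rw [abs_mul, mul_comm]
        apply mul_le_mul_of_nonneg_right _ (abs_nonneg _)
        rw [abs_le]
        constructor <;> linarith
      have e6 := abs_add_le (K.ht (K.b m) (K.t m) - K.ht l (K.t m))
        ((K.x (K.b m) - K.x l) * (s - K.t m))
      linarith
    rw [hW]
    apply max_le
    · exact key _ le_rfl (by linarith)
    · exact key _ (by linarith) le_rfl

end XNJ

theorem I_NJ (h0 : StLoHi) : StNJ := by
  classical
  intro ι _ _ K Q G M M' c cp kk ll ref uu S Eg A n hn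
  apply XNJ.cnt Q A.Qle
  intro i hi i' hi'
  rw [mem_image] at hi hi'
  obtain ⟨m, hm, rfl⟩ := hi
  obtain ⟨m', hm', rfl⟩ := hi'
  rw [mem_filter] at hm hm'
  obtain ⟨hmE, hmJ, hmp, hmb⟩ := hm
  obtain ⟨hmE', hmJ', hmp', hmb'⟩ := hm'
  have hpp : psi K cp kk ll (K.a m) (c m) = psi K cp kk ll (K.a m') (c m') := hmp.trans hmp'.symm
  have hbb : K.b m = K.b m' := hmb.trans hmb'.symm
  have E := XNJ.psi_eq hpp
  have hr : ref (K.a m) (c m) = ref (K.a m') (c m') :=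
    A.refc _ (A.eg m hmE).1 _ (A.eg m' hmE').1 hpp
  have e1 := (XNJ.est h0 A hmE hmJ rfl).1
  have e2 := (XNJ.est h0 A hmE' hmJ' rfl).2
  rw [hbb, hr, E.2.1, E.2.2.1] at e1
  set W := max
      |K.ht (K.b m') (K.t (j0 cp kk (K.a m') (c m'))) -
        K.ht (ref (K.a m') (c m')) (K.t (j0 cp kk (K.a m') (c m')))|
      |K.ht (K.b m') (K.t (j1 K cp ll (K.a m') (c m'))) -
        K.ht (ref (K.a m') (c m')) (K.t (j1 K cp ll (K.a m') (c m')))|
  have hQ0 : (0 : ℝ) ≤ Q := Nat.cast_nonneg _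
  have e3 : 16 * (Q : ℝ) * W ≤ 16 * Q * 2 ^ (ii K c cp kk ll ref m' + 8) :=
    mul_le_mul_of_nonneg_left e2 (by positivity)
  have e4 : (2 : ℝ) ^ (ii K c cp kk ll ref m' + 12) = 16 * 2 ^ (ii K c cp kk ll ref m' + 8) := by
    rw [show ii K c cp kk ll ref m' + 12 = (ii K c cp kk ll ref m' + 8) + 4 by ring,
      zpow_add₀ (by norm_num : (2 : ℝ) ≠ 0) _ 4]
    norm_num
    ring
  rw [e4]
  linarith

end Pool.Agent.Work.MP_e17eac_co.AS2

end
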