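import Pool.Agent.Work.MP_e17eac_co.Bd.B19
import Pool.Agent.Work.MP_e17eac_co.Bd.B20
import Pool.Agent.Work.MP_e17eac_co.Bd.B29
import Pool.Agent.Work.MP_e17eac_co.Bd.B25
import Pool.Agent.Work.MP_e17eac_co.MX.P_Scl
import Pool.Agent.Work.MP_e17eac_co.MX.P_GPL
import Pool.Agent.Work.MP_e17eac_co.MX.P_GP
import Pool.Agent.Work.MP_e17eac_co.Bd.B08
import Pool.Agent.Work.MP_e17eac_co.Bd.B04
import Pool.Agent.Work.MP_e17eac_co.RINGU.P_RLU
import Pool.Agent.Work.MP_e17eac_co.RINGU.P_BSGU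
import Pool.Agent.Work.MP_e17eac_co.Bd.B30
import Pool.Agent.Work.MP_e17eac_co.RINGU.P_COVU
import Pool.Agent.Work.MP_e17eac_co.RINGU.P_UPU

/-! Bundle of small proof modules (one section per former module). -/

section

/-!
# Item B1 T2C: T2 for mass cells
-/

namespace Pool.Agent.Work.MP_e17eac_co.B1

open Finset
open Pool.Agent.Work.MP_e17eac_co.DH
open Pool.Agent.Work.MP_e17eac_co.DH.XSWEEP (GP)

namespace XT2C

variable {ι : Type} [Fintype ι] [DecidableEq ι]

theorem root (r x : ℕ) : (((r ^ (4 * x) : ℕ) : ℝ)) ^ ((1 : ℝ) / 4) = (r : ℝ) ^ x := by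
  have h : ((r ^ (4 * x) : ℕ) : ℝ) = ((r : ℝ) ^ x) ^ (4 : ℝ) := by
    rw [show (4 : ℝ) = ((4 : ℕ) : ℝ) by norm_num, Real.rpow_natCast]
    push_cast
    rw [← pow_mul, mul_comm]
  rw [h, ← Real.rpow_mul (by positivity)]
  norm_num

theorem sumW (K : KSys ι) (r x : ℕ) :
    ∑ p : ι, W K r x p = ∑ c ∈ range (r ^ (4 * x)), (vis K r x c).card := by
  simp only [W, card_filter]
  rw [sum_comm]
  refine sum_congr rfl (fun c _ => ?_)
  rw [← card_filter]
  congr 1
  ext p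
  simp

theorem sumWr (K : KSys ι) (r x z : ℕ) (hr : 1 ≤ r) (hz : z ≤ x) (p : ι) :
    ∑ c ∈ range (r ^ (4 * z)), Wr K r z c x p = W K r x p := by
  have hm : Set.MapsTo (fun w => w / r ^ (4 * (x - z)))
      (((range (r ^ (4 * x))).filter (fun w => p ∈ vis K r x w) : Finset ℕ) : Set ℕ)
      (range (r ^ (4 * z)) : Set ℕ) := by
    intro w hw
    rw [mem_coe, mem_filter, mem_range] at hw
    rw [mem_coe, mem_range]
    apply Nat.div_lt_of_lt_mul
    rw [← pow_add]
    have : 4 * (x - z) + 4 * z = 4 * x := by omega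
    rw [this]
    exact hw.1
  unfold W
  rw [card_eq_sum_card_fiberwise hm]
  refine sum_congr rfl (fun c _ => ?_)
  unfold Wr
  rw [filter_filter]
  congr 1
  apply filter_congr
  intro w _
  exact and_comm

theorem imln (h : StCell) (h2 : StCellTok) (K : KSys ι) (r x : ℕ) (hr : 1 ≤ r) (E : Finset ℕ)
    (hE : E ⊆ range K.N) (f : ℕ → ι)
    (hf : ∀ c, ((E.filter (fun i => cell K r x i = c)).image f).card ≤ (vis K r x c).card) :
    (E.image (fun i => (cell K r x i, f i))).card ≤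
      ∑ c ∈ range (r ^ (4 * x)), (vis K r x c).card := by
  have _ := h2
  have hsub : E.image (fun i => (cell K r x i, f i)) ⊆
      (range (r ^ (4 * x))).biUnion (fun c =>
        ((E.filter (fun i => cell K r x i = c)).image f).image (fun p => (c, p))) := by
    intro w hw
    rw [mem_image] at hw
    obtain ⟨i, hi, rfl⟩ := hw
    have hiN : i < K.N := by simpa using hE hi
    rw [mem_biUnion]
    refine ⟨cell K r x i, mem_range.2 ((h ι K r x hr).1 i hiN), ?_⟩
    rw [mem_image]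
    exact ⟨f i, mem_image_of_mem _ (mem_filter.2 ⟨hi, rfl⟩), rfl⟩
  refine (card_le_card hsub).trans (card_biUnion_le.trans ?_)
  apply sum_le_sum
  intro c _
  exact card_image_le.trans (hf c)

end XT2C

open XT2C in
theorem I_T2C (h : StCell) (h2 : StCellTok) (hI : NF.StT2I) (hJ : NF.StT2J) : StT2c := by
  obtain ⟨C1, hC1, hI⟩ := hI
  obtain ⟨C2, hC2, hJ⟩ := hJ
  refine ⟨max C1 C2, hC1.trans (le_max_left _ _), ?_⟩
  intro ι _ _ K hx hgp r x hr
  obtain ⟨k1, k2, k3, k4, k5, p, q, k6, k7, k8, k9⟩ := h ι K r x hr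
  have hdis : ∀ c c', c ≠ c' → q c ≤ p c' ∨ q c' ≤ p c := by
    intro c c' hc
    rcases lt_or_gt_of_ne hc with h' | h'
    · exact Or.inl (k9 _ _ h')
    · exact Or.inr (k9 _ _ h')
  have hvis : ∀ c, K.lines (Ico (p c) (q c)) = vis K r x c := by
    intro c
    unfold vis
    rw [k6]
  have hn0 : (0 : ℝ) ≤ Fintype.card ι := Nat.cast_nonneg _
  have s1 : ∑ c ∈ range (r ^ (4 * x)), ((vis K r x c).card : ℝ) ≤
      max C1 C2 * Fintype.card ι * (r : ℝ) ^ x := by
    have := hI ι K hx hgp ℕ (range (r ^ (4 * x))) p q (fun c _ => k8 c)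
      (fun c _ c' _ hc => hdis c c' hc)
    rw [card_range, root] at this
    simp only [hvis] at this
    refine this.trans ?_
    apply mul_le_mul_of_nonneg_right _ (by positivity)
    exact mul_le_mul_of_nonneg_right (le_max_left _ _) hn0
  have s1' : ((∑ c ∈ range (r ^ (4 * x)), (vis K r x c).card : ℕ) : ℝ) ≤
      max C1 C2 * Fintype.card ι * (r : ℝ) ^ x := by
    push_cast
    exact s1
  refine ⟨s1, ?_, ?_, ?_, ?_⟩
  · refine le_trans ?_ s1'
    rw [← sumW]
    push_cast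
    exact le_rfl
  · intro z hz
    refine le_trans ?_ s1'
    rw [← sumW]
    rw [sum_comm]
    push_cast
    apply sum_le_sum
    intro p' _
    have := sumWr K r x z hr hz p'
    rw [← this]
    push_cast
    exact le_rfl
  · intro E hE s
    constructor
    · refine le_trans ?_ s1'
      have := imln h h2 K r x hr E hE (K.ln s) (fun c => (h2 ι K r x c hr _ (by
        intro i hi
        rw [mem_filter] at hi
        rw [ce, mem_filter]
        exact ⟨hE hi.1, hi.2⟩)).2.1 s)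
      exact_mod_cast this
    · refine le_trans ?_ s1'
      have := imln h h2 K r x hr E hE (K.tok s) (fun c => (h2 ι K r x c hr _ (by
        intro i hi
        rw [mem_filter] at hi
        rw [ce, mem_filter]
        exact ⟨hE hi.1, hi.2⟩)).2.2 s)
      exact_mod_cast this
  · intro lam hlam
    have := hJ ι K hx hgp ℕ
      ((range (r ^ (4 * x))).filter (fun c => lam ≤ ((vis K r x c).card : ℝ))) p q lam hlam
      (fun c _ => k8 c) (fun c _ c' _ hc => hdis c c' hc)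
      (fun c hc => by rw [hvis]; exact (mem_filter.1 hc).2)
    refine this.trans ?_
    apply Real.rpow_le_rpow (by positivity) _ (by norm_num)
    apply div_le_div_of_nonneg_right _ hlam.le
    exact mul_le_mul_of_nonneg_right (le_max_right _ _) hn0

end Pool.Agent.Work.MP_e17eac_co.B1

end

section

/-!
# Arbitrary sets, block GP: assembly (the GOOD PAIR LEMMA without hypotheses)
-/

namespace Pool.Agent.Work.MP_e17eac_co.MX

open Pool.Agent.Work.MP_e17eac_co.DH
open Pool.Agent.Work.MP_e17eac_co.PS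

theorem tTok : StTok := I_TOK I_POS

theorem tDey : StDey :=
  I_DEY (I_CRL (I_PL I_PLANAR I_LEQ)) (I_CCNT (I_CINJ tTok
    (I_TOUCH I_POS tTok (I_MONO tTok) (I_PATH tTok (I_MONO tTok)) I_MIR I_LEQ) I_LEQ))

theorem tMc : StMc := I_Mc

theorem tLoHi : StLoHi := I_LoHi

theorem tHalve : StHalve := I_Halve

theorem tT2i : StT2i := I_T2i TT2

theorem tDeyV : StDeyV := I_DeyV tDey tTok

theorem tUp : StUp := I_Up tT2i tDeyV tLoHi

theorem tLow : StLow := I_Low tT2i tDeyV tLoHi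

theorem tHol : StHol := I_Hol

theorem tSup : StSup := I_Sup

theorem tSupCnt : StSupCnt := I_SupCnt

theorem tRot : StRot := I_Rot

theorem tScl : StScl := I_Scl tT2i stNet stSamp tHol tSupCnt tLoHi I_IDX

theorem tGPL : StGPL := I_GPL tUp tLow tHalve tScl tLoHi

/-- **GOOD PAIR LEMMA.** -/
theorem tGP : StGP := I_GP tUp tLow tSup tGPL tRot tLoHi

end Pool.Agent.Work.MP_e17eac_co.MX

end

section

/-!
# Ring module, uniform version: the main theorem
-/

namespace Pool.Agent.Work.MP_e17eac_co.RINGU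

open Pool.Agent.Work.MP_e17eac_co.RING

/-- The structure theorem, uniform in the exponent. -/
theorem stRLU : StRLU :=
  I_RLU I_SEL I_PRUNE I_EDGEU I_CLSU I_BSGU I_POP I_DILU I_SUMU I_NEARU I_TRI I_AFFU

/-- **Main theorem of the uniform ring module**: there is a constant `C` such that a nearly
complete incidence configuration with loss `K` and exponent `a ≤ 1/2` has `R ^ a < K ^ C`. -/
theorem ringU : RingU := I_RINGU stRLU (I_UPU I_COVU) (I_PIVU I_PNU I_BIS I_FAR)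

end Pool.Agent.Work.MP_e17eac_co.RINGU

end

section

/-!
# Arbitrary sets, B-4: the counting behind the near pair lemma
-/

set_option autoImplicit false

namespace Pool.Agent.Work.MP_e17eac_co.BB

open Finset
open Pool.Agent.Work.MP_e17eac_co.DH
open Pool.Agent.Work.MP_e17eac_co.B1

namespace XNEAR

variable {ι : Type} [Fintype ι] [DecidableEq ι]

open Classical in
/-- The lines of `S` near `z`. -/
noncomputable def box (K : KSys ι) (S : Finset ι) (s0 e0 : ℝ) (z : ι) (R : ℝ) : Finset ι :=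
  S.filter (fun s => dist0 K s0 e0 z s < R)

/-- The cells of level `x` of the edges of `E` in the unit `z`. -/
noncomputable def dg (K : KSys ι) (r x : ℕ) (g : ι → ι) (E : Finset ℕ) (z : ι) : Finset ℕ :=
  (E.filter (fun i => g (K.a i) = z)).image (cell K r x)

/-- Sum over cells of the number of lines of a set in the cell. -/
theorem sum_inter_le (K : KSys ι) (r x : ℕ) (T : Finset ι) (Cs : Finset ℕ)
    (hCs : Cs ⊆ range (r ^ (4 * x))) :
    ∑ w ∈ Cs, (T ∩ vis K r x w).card ≤ ∑ s ∈ T, W K r x s := by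
  classical
  have h1 : ∀ w, (T ∩ vis K r x w).card = ∑ s ∈ T, if s ∈ vis K r x w then 1 else 0 := by
    intro w
    rw [← Finset.filter_mem_eq_inter, Finset.card_filter]
  simp only [h1]
  rw [Finset.sum_comm]
  apply Finset.sum_le_sum
  intro s _
  rw [← Finset.card_filter]
  unfold W
  apply Finset.card_le_card
  intro w hw
  rw [mem_filter] at hw ⊢
  exact ⟨hCs hw.1, hw.2⟩

theorem near_core (hX : StX) (K : KSys ι) (hinj : Function.Injective K.x) (r m x j k6 : ℕ)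
    (H : ℝ) (hr : 2 ≤ r) (hH : 1 ≤ H) (hxm : x ≤ m) (s0 e0 : ℝ) (rho : ι → ℝ)
    (E E'' : Finset ℕ) (nr : ℕ → Finset ι) (Z : Finset ι) (g : ι → ι) (M : ℝ) (hM : 0 ≤ M)
    (hsub : E'' ⊆ E) (hyg : ∀ i ∈ E, Hyg K r m H i)
    (hZ : ∀ i ∈ E'', g (K.a i) ∈ Z)
    (hd : ∀ i ∈ E'', dist0 K s0 e0 (K.a i) (g (K.a i)) ≤ 2 * rho (g (K.a i)))
    (hrho : ∀ i ∈ E'', rho (K.a i) ≤ rho (g (K.a i)))
    (hcard : (Z.card : ℝ) ≤ (r : ℝ) ^ (j + k6))
    (hbox : ∀ z ∈ Z, ((box K (PS K r m H) s0 e0 z (3 * rho z)).card : ℝ) * (r : ℝ) ^ j ≤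
      Fintype.card ι)
    (hin : ∀ i ∈ E'', ∀ s, K.ln s i ∈ box K (PS K r m H) s0 e0 (g (K.a i))
      (3 * rho (g (K.a i))))
    (hnr1 : ∀ i ∈ E'', ∀ s ∈ nr i, s ∈ PS K r m H ∧ s ∈ vis K r x (cell K r x i) ∧
      dist0 K s0 e0 s (K.a i) < rho (K.a i))
    (hnr2 : ∀ i ∈ E'', M ≤ (nr i).card)
    (h32 : 32 * ((Fintype.card ι : ℝ) * (r : ℝ) ^ k6) ≤ E''.card) :
    M ^ 2 * (r : ℝ) ^ (4 * x + j) * (E''.card : ℝ) ^ 3 ≤
      16384 * H ^ 4 * (Fintype.card ι : ℝ) ^ 6 * (r : ℝ) ^ (3 * k6) := by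
  classical
  set n : ℝ := (Fintype.card ι : ℝ) with hn
  have hn0 : 0 ≤ n := Nat.cast_nonneg _
  have hr0 : (0 : ℝ) < r := by positivity
  have hr1 : (1 : ℝ) ≤ r := by exact_mod_cast (by omega : 1 ≤ r)
  have hH0 : 0 ≤ H := by linarith
  -- distance facts
  have dcomm : ∀ p q : ι, dist0 K s0 e0 p q = dist0 K s0 e0 q p := by
    intro p q
    unfold dist0
    rw [abs_sub_comm (K.ht p s0), abs_sub_comm (K.ht p e0)]
  have dtri : ∀ p q u : ι, dist0 K s0 e0 p u ≤ dist0 K s0 e0 p q + dist0 K s0 e0 q u := by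
    intro p q u
    unfold dist0
    apply max_le
    · calc |K.ht p s0 - K.ht u s0| ≤ |K.ht p s0 - K.ht q s0| + |K.ht q s0 - K.ht u s0| :=
          abs_sub_le _ _ _
        _ ≤ _ := add_le_add (le_max_left _ _) (le_max_left _ _)
    · calc |K.ht p e0 - K.ht u e0| ≤ |K.ht p e0 - K.ht q e0| + |K.ht q e0 - K.ht u e0| :=
          abs_sub_le _ _ _
        _ ≤ _ := add_le_add (le_max_right _ _) (le_max_right _ _)
  set Bx : ι → Finset ι := fun z => box K (PS K r m H) s0 e0 z (3 * rho z) with hBx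
  -- the sum of the boxes
  have hU : (E''.image (fun i => g (K.a i))) ⊆ Z := by
    intro z hz
    rw [mem_image] at hz
    obtain ⟨i, hi, rfl⟩ := hz
    exact hZ i hi
  have hV : ((∑ U ∈ E''.image (fun i => g (K.a i)), (Bx U).card : ℕ) : ℝ) ≤ n * (r : ℝ) ^ k6 := by
    have h1 : ((∑ U ∈ E''.image (fun i => g (K.a i)), (Bx U).card : ℕ) : ℝ) * (r : ℝ) ^ j ≤
        n * (r : ℝ) ^ (j + k6) := by
      push_cast
      rw [Finset.sum_mul]
      calc ∑ U ∈ E''.image (fun i => g (K.a i)), ((Bx U).card : ℝ) * (r : ℝ) ^ j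
          ≤ ∑ U ∈ Z, ((Bx U).card : ℝ) * (r : ℝ) ^ j := by
            apply Finset.sum_le_sum_of_subset_of_nonneg hU
            intro U _ _
            positivity
        _ ≤ ∑ U ∈ Z, n := Finset.sum_le_sum (fun U hU => hbox U hU)
        _ = Z.card * n := by rw [Finset.sum_const, nsmul_eq_mul]
        _ ≤ (r : ℝ) ^ (j + k6) * n := by nlinarith
        _ = n * (r : ℝ) ^ (j + k6) := mul_comm _ _
    have h2 : (0 : ℝ) < (r : ℝ) ^ j := by positivity
    rw [pow_add] at h1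
    have h3 : ((∑ U ∈ E''.image (fun i => g (K.a i)), (Bx U).card : ℕ) : ℝ) * (r : ℝ) ^ j ≤
        (n * (r : ℝ) ^ k6) * (r : ℝ) ^ j := by
      calc _ ≤ n * ((r : ℝ) ^ j * (r : ℝ) ^ k6) := h1
        _ = _ := by ring
    exact le_of_mul_le_mul_right h3 h2
  -- the crossing lemma
  have hlt : ∀ i ∈ E'', i < K.N := fun i hi => (hyg i (hsub hi)).lt
  have hX1 := hX ι ι K hinj r x (by omega) H hH0 (fun i => g (K.a i)) (fun z => (Bx z).card) E''
    (fun i hi => mem_range.2 (hlt i hi))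
    (fun i hi => (hyg i (hsub hi)).crowd x hxm)
    (by
      intro U hU s
      apply Finset.card_le_card
      intro p hp
      rw [mem_image] at hp
      obtain ⟨i, hi, rfl⟩ := hp
      rw [mem_filter] at hi
      have h1 := hin i hi.1 s
      rw [hi.2] at h1
      exact h1)
    (by
      have h1 : ((32 * ∑ U ∈ E''.image (fun i => g (K.a i)), (Bx U).card : ℕ) : ℝ) ≤ E''.card := by
        push_cast
        push_cast at hV
        linarith
      exact_mod_cast h1)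
  -- the realised pairs of cells
  set P : Finset (ℕ × ℕ) := (XU K (fun i => g (K.a i)) E'').image
    (fun z => (cell K r x z.1, cell K r x z.2)) with hP
  have hPd : (P.card : ℝ) ≤ ∑ z ∈ Z, ((dg K r x g E'' z).card : ℝ) ^ 2 := by
    have h1 : P ⊆ Z.biUnion (fun z => dg K r x g E'' z ×ˢ dg K r x g E'' z) := by
      intro c hc
      rw [hP, mem_image] at hc
      obtain ⟨e, he, rfl⟩ := hc
      simp only [XU, mem_filter] at he
      obtain ⟨he1, he2⟩ := he
      unfold crossPairs at he1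
      rw [mem_filter, mem_product] at he1
      rw [mem_biUnion]
      refine ⟨g (K.a e.1), hZ _ he1.1.1, ?_⟩
      rw [mem_product]
      refine ⟨mem_image.2 ⟨e.1, mem_filter.2 ⟨he1.1.1, rfl⟩, rfl⟩,
        mem_image.2 ⟨e.2, mem_filter.2 ⟨he1.1.2, he2.symm⟩, rfl⟩⟩
    have h2 : P.card ≤ ∑ z ∈ Z, (dg K r x g E'' z ×ˢ dg K r x g E'' z).card :=
      (Finset.card_le_card h1).trans Finset.card_biUnion_le
    have h3 : ((∑ z ∈ Z, (dg K r x g E'' z ×ˢ dg K r x g E'' z).card : ℕ) : ℝ) =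
        ∑ z ∈ Z, ((dg K r x g E'' z).card : ℝ) ^ 2 := by
      push_cast [Finset.card_product]
      apply Finset.sum_congr rfl
      intro z _
      ring
    calc (P.card : ℝ) ≤ ((∑ z ∈ Z, (dg K r x g E'' z ×ˢ dg K r x g E'' z).card : ℕ) : ℝ) := by
          exact_mod_cast h2
      _ = _ := h3
  -- the degrees
  have hdeg : ∀ z ∈ Z, M * ((dg K r x g E'' z).card : ℝ) * (r : ℝ) ^ j ≤ n * (H * (r : ℝ) ^ x) := by
    intro z hz
    -- a representative for every cell
    have hrep : ∀ w ∈ dg K r x g E'' z, M ≤ ((Bx z ∩ vis K r x w).card : ℝ) := by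
      intro w hw
      rw [dg, mem_image] at hw
      obtain ⟨i, hi, rfl⟩ := hw
      rw [mem_filter] at hi
      obtain ⟨hi, hgz⟩ := hi
      refine (hnr2 i hi).trans ?_
      have : nr i ⊆ Bx z ∩ vis K r x (cell K r x i) := by
        intro s hs
        obtain ⟨h1, h2, h3⟩ := hnr1 i hi s hs
        rw [mem_inter]
        refine ⟨?_, h2⟩
        rw [hBx]
        simp only [box, mem_filter]
        refine ⟨h1, ?_⟩
        have h4 := hd i hi
        have h5 := hrho i hi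
        rw [hgz] at h4 h5
        have h6 := dtri z (K.a i) s
        rw [dcomm z (K.a i), dcomm (K.a i) s] at h6
        linarith
      exact_mod_cast Finset.card_le_card this
    have hsubr : dg K r x g E'' z ⊆ range (r ^ (4 * x)) := by
      intro w hw
      rw [dg, mem_image] at hw
      obtain ⟨i, hi, rfl⟩ := hw
      rw [mem_filter] at hi
      have hi' := hlt i hi.1
      rw [mem_range]
      unfold cell
      rw [Nat.div_lt_iff_lt_mul (by omega)]
      have : 0 < r ^ (4 * x) := by positivity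
      rw [mul_comm]
      exact Nat.mul_lt_mul_of_pos_left hi' this
    have h1 : M * ((dg K r x g E'' z).card : ℝ) ≤ ∑ s ∈ Bx z, (W K r x s : ℝ) := by
      calc M * ((dg K r x g E'' z).card : ℝ) = ∑ w ∈ dg K r x g E'' z, M := by
            rw [Finset.sum_const, nsmul_eq_mul, mul_comm]
        _ ≤ ∑ w ∈ dg K r x g E'' z, ((Bx z ∩ vis K r x w).card : ℝ) := Finset.sum_le_sum hrep
        _ ≤ ∑ s ∈ Bx z, (W K r x s : ℝ) := by
            exact_mod_cast sum_inter_le K r x (Bx z) _ hsubr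
    have h2 : ∑ s ∈ Bx z, (W K r x s : ℝ) ≤ (Bx z).card * (H * (r : ℝ) ^ x) := by
      calc ∑ s ∈ Bx z, (W K r x s : ℝ) ≤ ∑ s ∈ Bx z, H * (r : ℝ) ^ x := by
            apply Finset.sum_le_sum
            intro s hs
            rw [hBx] at hs
            simp only [box, mem_filter] at hs
            have h3 := hs.1
            rw [PS, mem_filter] at h3
            exact h3.2 x hxm
        _ = _ := by rw [Finset.sum_const, nsmul_eq_mul]
    have h3 := hbox z hz
    have h4 : 0 ≤ H * (r : ℝ) ^ x := by positivity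
    calc M * ((dg K r x g E'' z).card : ℝ) * (r : ℝ) ^ j
        ≤ ((Bx z).card * (H * (r : ℝ) ^ x)) * (r : ℝ) ^ j := by
          apply mul_le_mul_of_nonneg_right (h1.trans h2) (by positivity)
      _ = ((Bx z).card * (r : ℝ) ^ j) * (H * (r : ℝ) ^ x) := by ring
      _ ≤ n * (H * (r : ℝ) ^ x) := mul_le_mul_of_nonneg_right h3 h4
  have hsum : M ^ 2 * (P.card : ℝ) * (r : ℝ) ^ j ≤ (r : ℝ) ^ k6 * (n * (H * (r : ℝ) ^ x)) ^ 2 := by
    have h1 : M ^ 2 * (P.card : ℝ) * ((r : ℝ) ^ j) ^ 2 ≤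
        (r : ℝ) ^ (j + k6) * (n * (H * (r : ℝ) ^ x)) ^ 2 := by
      calc M ^ 2 * (P.card : ℝ) * ((r : ℝ) ^ j) ^ 2
          ≤ M ^ 2 * (∑ z ∈ Z, ((dg K r x g E'' z).card : ℝ) ^ 2) * ((r : ℝ) ^ j) ^ 2 := by
            apply mul_le_mul_of_nonneg_right _ (by positivity)
            exact mul_le_mul_of_nonneg_left hPd (by positivity)
        _ = ∑ z ∈ Z, (M * ((dg K r x g E'' z).card : ℝ) * (r : ℝ) ^ j) ^ 2 := by
            rw [Finset.mul_sum, Finset.sum_mul]
            apply Finset.sum_congr rfl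
            intro z _
            ring
        _ ≤ ∑ z ∈ Z, (n * (H * (r : ℝ) ^ x)) ^ 2 := by
            apply Finset.sum_le_sum
            intro z hz
            apply pow_le_pow_left₀ (by positivity) (hdeg z hz)
        _ = Z.card * (n * (H * (r : ℝ) ^ x)) ^ 2 := by rw [Finset.sum_const, nsmul_eq_mul]
        _ ≤ _ := mul_le_mul_of_nonneg_right hcard (by positivity)
    have h2 : (0 : ℝ) < (r : ℝ) ^ j := by positivity
    have h3 : M ^ 2 * (P.card : ℝ) * (r : ℝ) ^ j * (r : ℝ) ^ j ≤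
        (r : ℝ) ^ k6 * (n * (H * (r : ℝ) ^ x)) ^ 2 * (r : ℝ) ^ j := by
      calc M ^ 2 * (P.card : ℝ) * (r : ℝ) ^ j * (r : ℝ) ^ j
          = M ^ 2 * (P.card : ℝ) * ((r : ℝ) ^ j) ^ 2 := by ring
        _ ≤ (r : ℝ) ^ (j + k6) * (n * (H * (r : ℝ) ^ x)) ^ 2 := h1
        _ = _ := by rw [pow_add]; ring
    exact le_of_mul_le_mul_right h3 h2
  -- conclusion
  have hX2 : (E''.card : ℝ) ^ 3 * (r : ℝ) ^ (6 * x) ≤
      16384 * (n * (r : ℝ) ^ k6) ^ 2 * H ^ 2 * n ^ 2 * (P.card : ℝ) := by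
    refine hX1.trans ?_
    have h1 : (((∑ U ∈ E''.image (fun i => g (K.a i)), (Bx U).card : ℕ) : ℝ)) ^ 2 ≤
        (n * (r : ℝ) ^ k6) ^ 2 := pow_le_pow_left₀ (Nat.cast_nonneg _) hV 2
    have h2 : (0 : ℝ) ≤ H ^ 2 * n ^ 2 * (P.card : ℝ) := by positivity
    calc 16384 * (((∑ U ∈ E''.image (fun i => g (K.a i)), (Bx U).card : ℕ) : ℝ)) ^ 2 * H ^ 2 *
          n ^ 2 * (P.card : ℝ)
        = 16384 * ((((∑ U ∈ E''.image (fun i => g (K.a i)), (Bx U).card : ℕ) : ℝ)) ^ 2 *
          (H ^ 2 * n ^ 2 * (P.card : ℝ))) := by ring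
      _ ≤ 16384 * ((n * (r : ℝ) ^ k6) ^ 2 * (H ^ 2 * n ^ 2 * (P.card : ℝ))) := by
          apply mul_le_mul_of_nonneg_left _ (by norm_num)
          exact mul_le_mul_of_nonneg_right h1 h2
      _ = _ := by ring
  have hfin : M ^ 2 * (r : ℝ) ^ (4 * x + j) * (E''.card : ℝ) ^ 3 * (r : ℝ) ^ (2 * x) ≤
      16384 * H ^ 4 * n ^ 6 * (r : ℝ) ^ (3 * k6) * (r : ℝ) ^ (2 * x) := by
    calc M ^ 2 * (r : ℝ) ^ (4 * x + j) * (E''.card : ℝ) ^ 3 * (r : ℝ) ^ (2 * x)
        = M ^ 2 * (r : ℝ) ^ j * ((E''.card : ℝ) ^ 3 * (r : ℝ) ^ (6 * x)) := by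
          rw [show 6 * x = 4 * x + 2 * x by ring, pow_add, pow_add]; ring
      _ ≤ M ^ 2 * (r : ℝ) ^ j * (16384 * (n * (r : ℝ) ^ k6) ^ 2 * H ^ 2 * n ^ 2 * (P.card : ℝ)) :=
          mul_le_mul_of_nonneg_left hX2 (by positivity)
      _ = 16384 * (n * (r : ℝ) ^ k6) ^ 2 * H ^ 2 * n ^ 2 *
          (M ^ 2 * (P.card : ℝ) * (r : ℝ) ^ j) := by ring
      _ ≤ 16384 * (n * (r : ℝ) ^ k6) ^ 2 * H ^ 2 * n ^ 2 *
          ((r : ℝ) ^ k6 * (n * (H * (r : ℝ) ^ x)) ^ 2) :=
          mul_le_mul_of_nonneg_left hsum (by positivity)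
      _ = _ := by
          rw [show 3 * k6 = k6 + k6 + k6 by ring, show 2 * x = x + x by ring, pow_add, pow_add,
            pow_add]
          ring
  exact le_of_mul_le_mul_right hfin (by positivity)

end XNEAR

end Pool.Agent.Work.MP_e17eac_co.BB

end

section

/-! Last step: numbers, regularity of the windows and of the lines. -/

namespace Pool.Agent.Work.MP_e17eac_co.CFG

open Finset Real

variable {ι α β : Type} {s d : ℕ} {q θ M F : ℝ} {U : ℕ → ℝ} {PS PG : Finset ι} {u v : ι → ℝ}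
  {p0 : ι} {Al : Finset β} {tm : β → ℝ} {A : ι → Finset β} {S : ι → β → Finset α}
  {Un : β → Finset α}

theorem find (d : ℕ) (P : ℕ → Prop) (h0 : P 0) : ∃ i, i ≤ d ∧ P i ∧ (i = d ∨ ¬ P (i + 1)) := by
  induction d with
  | zero => exact ⟨0, le_rfl, h0, Or.inl rfl⟩
  | succ n ih =>
    obtain ⟨i, hi, hP, h⟩ := ih
    rcases h with rfl | h
    · by_cases h1 : P (i + 1)
      · exact ⟨i + 1, le_rfl, h1, Or.inl rfl⟩
      · exact ⟨i, by omega, hP, Or.inr h1⟩
    · exact ⟨i, by omega, hP, Or.inr h⟩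

theorem q_pow (hq : 10 ≤ q) (n : ℕ) : q ^ n = exp ((n : ℝ) * log q) := by
  rw [Real.exp_nat_mul, Real.exp_log (by linarith)]

theorem lq_pos (hq : 10 ≤ q) : 0 < log q := Real.log_pos (by linarith)

theorem th_pos (hq : 10 ≤ q) (hθ : 2 * log q ≤ θ) : 0 < θ := by
  have := lq_pos hq
  linarith

theorem a_pos (hq : 10 ≤ q) (hθ : 2 * log q ≤ θ) : 0 < log q / θ :=
  div_pos (lq_pos hq) (th_pos hq hθ)

theorem a_le (hq : 10 ≤ q) (hθ : 2 * log q ≤ θ) : log q / θ ≤ 1 / 2 := by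
  rw [div_le_iff₀ (th_pos hq hθ)]
  linarith

theorem rpow_ge (hq : 10 ≤ q) (hθ : 2 * log q ≤ θ) {r k : ℝ} (hr : 0 < r)
    (hk : θ * k ≤ log r) : exp (k * log q) ≤ r ^ (log q / θ) := by
  have h1 := th_pos hq hθ
  have h2 := a_pos hq hθ
  rw [Real.rpow_def_of_pos hr]
  apply Real.exp_le_exp.2
  have h3 : θ * k * (log q / θ) ≤ log r * (log q / θ) := mul_le_mul_of_nonneg_right hk h2.le
  have h4 : θ * k * (log q / θ) = k * log q := by field_simp
  linarith

theorem one_le_rpow (hq : 10 ≤ q) (hθ : 2 * log q ≤ θ) {r : ℝ} (hr : 1 ≤ r) :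
    1 ≤ r ^ (log q / θ) := Real.one_le_rpow hr (a_pos hq hθ).le

theorem R_ge (h : Cfg s d q θ M F U PS PG u v p0 Al tm A S Un) :
    exp (((d : ℝ) - 2) * log q) ≤ (2 * exp (U d - U 0)) ^ (log q / θ) := by
  apply rpow_ge h.hq h.hθ (by positivity)
  rw [Real.log_mul (by norm_num) (Real.exp_pos _).ne', Real.log_exp]
  have h1 := h.lin_lo 0 d (by omega)
  rw [Nat.zero_add] at h1
  have h2 : 0 ≤ log (2 : ℝ) := Real.log_nonneg (by norm_num)
  linarith

theorem R_le (h : Cfg s d q θ M F U PS PG u v p0 Al tm A S Un) :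
    (2 * exp (U d - U 0)) ^ (log q / θ) ≤ exp (((d : ℝ) + 3) * log q) := by
  have h1 := th_pos h.hq h.hθ
  have h2 := a_pos h.hq h.hθ
  rw [Real.rpow_def_of_pos (by positivity)]
  apply Real.exp_le_exp.2
  rw [Real.log_mul (by norm_num) (Real.exp_pos _).ne', Real.log_exp]
  have h3 := h.lin_hi 0 d (by omega)
  rw [Nat.zero_add] at h3
  have h4 : log (2 : ℝ) ≤ θ := by
    have : log (2 : ℝ) ≤ log q := Real.log_le_log (by norm_num) (by linarith [h.hq])
    have := lq_pos h.hq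
    linarith [h.hθ]
  have h5 : (log 2 + (U d - U 0)) * (log q / θ) ≤ (θ * ((d : ℝ) + 3)) * (log q / θ) := by
    apply mul_le_mul_of_nonneg_right _ h2.le
    linarith
  have h6 : (θ * ((d : ℝ) + 3)) * (log q / θ) = ((d : ℝ) + 3) * log q := by field_simp
  linarith

theorem one_le_q (h : Cfg s d q θ M F U PS PG u v p0 Al tm A S Un) (n : ℕ) : 1 ≤ q ^ n :=
  one_le_pow₀ (by linarith [h.hq])

open Classical in
theorem regA' (h : Cfg s d q θ M F U PS PG u v p0 Al tm A S Un) (y r : ℝ) (hr : 1 ≤ r) :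
    (((Al.image tm).filter fun x => |x - y| ≤ r / (2 * exp (U d - U 0))).card : ℝ) ≤
      q ^ (2 * s + 20) * r ^ (log q / θ) := by
  have hlq := lq_pos h.hq
  have hq1 : 1 ≤ q := by linarith [h.hq]
  have hra := one_le_rpow h.hq h.hθ hr
  set δ := r / (2 * exp (U d - U 0)) with hδ
  have h0 : (((Al.image tm).filter fun x => |x - y| ≤ δ).card : ℝ) ≤
      ((Al.filter (fun w => |tm w - y| ≤ δ)).card : ℝ) := by
    rw [Finset.filter_image]
    exact_mod_cast Finset.card_image_le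
  refine h0.trans ?_
  have hmono : ∀ x y : ℝ, x ≤ y → exp (x * log q) ≤ exp (y * log q) := fun x y hxy =>
    Real.exp_le_exp.2 (mul_le_mul_of_nonneg_right hxy hlq.le)
  have hrpos : 0 < r := by linarith
  by_cases h1 : δ ≤ 1
  · obtain ⟨i, hi, hP, hc⟩ := find d (fun i => δ ≤ exp (U 0 - U i)) (by simpa using h1)
    have h2 := h.regA i hi y δ hP
    rcases hc with rfl | hc
    · calc ((Al.filter (fun w => |tm w - y| ≤ δ)).card : ℝ) ≤ q ^ (i - i + s) := by
            convert h2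
        _ ≤ q ^ (2 * s + 20) := pow_le_pow_right₀ hq1 (by omega)
        _ ≤ _ := le_mul_of_one_le_right (by positivity) hra
    · by_cases hid : i = d
      · subst hid
        calc ((Al.filter (fun w => |tm w - y| ≤ δ)).card : ℝ) ≤ q ^ (i - i + s) := by
              convert h2
          _ ≤ q ^ (2 * s + 20) := pow_le_pow_right₀ hq1 (by omega)
          _ ≤ _ := le_mul_of_one_le_right (by positivity) hra
      have hlt : i + 1 ≤ d := by omega
      simp only [not_le] at hc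
      have h3 : exp (U d - U (i + 1)) ≤ r := by
        rw [hδ, lt_div_iff₀ (by positivity)] at hc
        have h4 : exp (U 0 - U (i + 1)) * (2 * exp (U d - U 0)) =
            2 * exp (U d - U (i + 1)) := by
          rw [mul_comm, mul_assoc, ← Real.exp_add]
          congr 2
          ring
        have := Real.exp_pos (U d - U (i + 1))
        linarith
      have h4 : U d - U (i + 1) ≤ log r := by
        rw [← Real.log_exp (U d - U (i + 1))]
        exact Real.log_le_log (Real.exp_pos _) h3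
      have h5 := h.lin_lo (i + 1) (d - (i + 1)) (by omega)
      rw [Nat.add_sub_cancel' hlt, Nat.cast_sub hlt] at h5
      push_cast at h5
      have h6 := rpow_ge h.hq h.hθ (k := (d : ℝ) - (i + 1) - 2) hrpos (by linarith)
      calc ((Al.filter (fun w => |tm w - y| ≤ δ)).card : ℝ) ≤ q ^ (d - i + s) := by
            convert h2
        _ ≤ q ^ (2 * s + 20) * exp (((d : ℝ) - (i + 1) - 2) * log q) := by
            rw [q_pow h.hq, q_pow h.hq, ← Real.exp_add, ← add_mul]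
            apply hmono
            push_cast [Nat.cast_sub hi]
            have : (0 : ℝ) ≤ s := Nat.cast_nonneg s
            linarith
        _ ≤ _ := mul_le_mul_of_nonneg_left h6 (by positivity)
  · push Not at h1
    have h2 := h.regA 0 (by omega) (1 / 2) 1 (by simp)
    have h3 : ((Al.filter (fun w => |tm w - y| ≤ δ)).card : ℝ) ≤ q ^ (d - 0 + s) := by
      refine le_trans ?_ h2
      exact_mod_cast Finset.card_le_card (fun w hw => by
        rw [Finset.mem_filter] at hw ⊢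
        refine ⟨hw.1, ?_⟩
        have := h.tm_mem w hw.1
        rw [abs_le]
        constructor <;> linarith [this.1, this.2])
    have h4 : exp (U d - U 0) ≤ r := by
      rw [hδ, lt_div_iff₀ (by positivity)] at h1
      have := Real.exp_pos (U d - U 0)
      linarith
    have h5 : U d - U 0 ≤ log r := by
      rw [← Real.log_exp (U d - U 0)]
      exact Real.log_le_log (Real.exp_pos _) h4
    have h6 := h.lin_lo 0 d (by omega)
    rw [Nat.zero_add] at h6
    have h7 := rpow_ge h.hq h.hθ (k := (d : ℝ) - 2) hrpos (by linarith)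
    calc ((Al.filter (fun w => |tm w - y| ≤ δ)).card : ℝ) ≤ q ^ (d - 0 + s) := h3
      _ ≤ q ^ (2 * s + 20) * exp (((d : ℝ) - 2) * log q) := by
          rw [q_pow h.hq, q_pow h.hq, ← Real.exp_add, ← add_mul]
          apply hmono
          push_cast
          have : (0 : ℝ) ≤ s := Nat.cast_nonneg s
          simp only [Nat.sub_zero]
          linarith
      _ ≤ _ := mul_le_mul_of_nonneg_left h7 (by positivity)

end Pool.Agent.Work.MP_e17eac_co.CFG

end

section

/-!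
# Vitali groups (blueprint B-4, VIT)
-/

namespace Pool.Agent.Work.MP_e17eac_co.B4

open Finset
open Pool.Agent.Work.MP_e17eac_co.DH
open Pool.Agent.Work.MP_e17eac_co.BB

variable {ι : Type} [Fintype ι] [DecidableEq ι]

/-- The lines of `S` at distance less than `ρ` from `p`. -/
noncomputable def bal (K : KSys ι) (S : Finset ι) (s0 e0 : ℝ) (p : ι) (ρ : ℝ) : Finset ι :=
  S.filter (fun q => dist0 K s0 e0 p q < ρ)

theorem card_bal (K : KSys ι) (S : Finset ι) (s0 e0 : ℝ) (p : ι) (ρ : ℝ) :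
    (bal K S s0 e0 p ρ).card = mass K S s0 e0 p ρ := rfl

theorem tTok : StTok := I_TOK I_POS
theorem tMono : StMono := I_MONO tTok
theorem tPath : StPath := I_PATH tTok tMono
theorem tLeq : StLeq := I_LEQ

/-- Along a bottom token the height at an earlier time increases, at a later time decreases. -/
theorem tok_ht (K : KSys ι) {i k : ℕ} (hik : i < k) (hk : k < K.N) (h : K.tokB i = K.tokB k)
    {s0 e0 : ℝ} (hs : s0 ≤ K.t i) (he : K.t k ≤ e0) :
    K.ht (K.b i) s0 ≤ K.ht (K.a k) s0 ∧ K.ht (K.a k) e0 ≤ K.ht (K.b i) e0 := by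
  have hi : i < K.N := hik.trans hk
  obtain ⟨hb0, -, -, hb2, -⟩ := tTok ι K i hi
  obtain ⟨-, -, hk1, -⟩ := tTok ι K k hk
  obtain ⟨-, -, -, -, hv1⟩ := tLeq ι K i hi
  obtain ⟨-, -, -, hv2, -⟩ := tLeq ι K k hk
  have ht : K.t i ≤ K.t k := (K.t_lt i k hik hk).le
  have hp := tPath ι K (i + 1) k (K.t i) (K.t k) (K.tokB i) hb0 hik hv1 hv2 ht
  have hm := (tMono ι K (i + 1) k hik hk.le).1 (K.tokB i) hb0
  rw [hb2] at hp hm
  rw [h, hk1] at hp hm
  obtain ⟨h1, -, h3, -⟩ := hp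
  simp only [KSys.ht] at h1 h3 ⊢
  constructor
  · nlinarith [mul_nonneg (sub_nonneg.2 hm) (sub_nonneg.2 hs)]
  · nlinarith [mul_nonneg (sub_nonneg.2 hm) (sub_nonneg.2 he)]

/-- At an edge: `b` is above `a` before, below `a` afterwards. -/
theorem edge_ht (K : KSys ι) {i : ℕ} (hi : i < K.N) {s0 e0 : ℝ} (hs : s0 ≤ K.t i)
    (he : K.t i ≤ e0) :
    K.ht (K.a i) s0 ≤ K.ht (K.b i) s0 ∧ K.ht (K.b i) e0 ≤ K.ht (K.a i) e0 := by
  have h1 := K.meet i hi
  have h2 := (K.x_lt i hi).le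
  simp only [KSys.ht]
  constructor
  · nlinarith [mul_nonneg (sub_nonneg.2 h2) (sub_nonneg.2 hs)]
  · nlinarith [mul_nonneg (sub_nonneg.2 h2) (sub_nonneg.2 he)]

/-- **VIT**, basic form. -/
theorem vit (K : KSys ι) (hx : Function.Injective K.x) (S : Finset ι) {s0 e0 : ℝ}
    (hse : s0 < e0) {r j k6 : ℕ} (hr : 4 ≤ r)
    (hS : (Fintype.card ι : ℝ) < S.card * (r : ℝ) ^ j) (hn : (r : ℝ) ^ j ≤ Fintype.card ι)
    (E' : Finset ℕ)
    (hE : ∀ i ∈ E', i < K.N ∧ s0 ≤ K.t i ∧ K.t i ≤ e0 ∧ K.a i ∈ S ∧ K.b i ∈ S)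
    (hg : ∀ i ∈ E', (r : ℝ) ^ 2 * rad K S s0 e0 r (j + k6) (K.a i) ≤
      rad K S s0 e0 r j (K.a i)) :
    ∃ (Z : Finset ι) (g : ι → ι) (E'' : Finset ℕ), Z ⊆ E'.image K.a ∧ E'' ⊆ E' ∧
      (E' \ E'').card ≤ 2 * Fintype.card ι * Z.card ∧
      (∀ i ∈ E', g (K.a i) ∈ Z ∧
        dist0 K s0 e0 (K.a i) (g (K.a i)) < 2 * (rad K S s0 e0 r j (g (K.a i)) / 10) ∧
        rad K S s0 e0 r j (K.a i) ≤ rad K S s0 e0 r j (g (K.a i)) ∧
        4 * rad K S s0 e0 r j (g (K.a i)) ≤ 5 * rad K S s0 e0 r j (K.a i)) ∧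
      (∀ z ∈ Z, ∀ z' ∈ Z, z ≠ z' →
        Disjoint (bal K S s0 e0 z (rad K S s0 e0 r j z / 10))
          (bal K S s0 e0 z' (rad K S s0 e0 r j z' / 10))) ∧
      (∀ z ∈ Z, (Fintype.card ι : ℝ) <
        (bal K S s0 e0 z (rad K S s0 e0 r j z / 10)).card * (r : ℝ) ^ (j + k6)) ∧
      (Z.card : ℝ) ≤ (r : ℝ) ^ (j + k6) ∧
      (∀ z ∈ Z, ((bal K S s0 e0 z (3 * (rad K S s0 e0 r j z / 10))).card : ℝ) * (r : ℝ) ^ j ≤
        Fintype.card ι) ∧
      ∀ i ∈ E'', K.a i ∈ bal K S s0 e0 (g (K.a i)) (3 * (rad K S s0 e0 r j (g (K.a i)) / 10)) ∧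
        K.b i ∈ bal K S s0 e0 (g (K.a i)) (3 * (rad K S s0 e0 r j (g (K.a i)) / 10)) := by
  classical
  have hr4 : (4 : ℝ) ≤ r := by exact_mod_cast hr
  have hr1 : (1 : ℝ) ≤ r := by linarith
  have hpow : (r : ℝ) ^ j ≤ (r : ℝ) ^ (j + k6) := pow_le_pow_right₀ hr1 (Nat.le_add_right _ _)
  have hS' : (Fintype.card ι : ℝ) < S.card * (r : ℝ) ^ (j + k6) :=
    lt_of_lt_of_le hS (mul_le_mul_of_nonneg_left hpow (Nat.cast_nonneg _))
  set rd : ι → ℝ := fun p => rad K S s0 e0 r j p with hrd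
  have hpos : ∀ p, 0 < rd p := fun p => rad_pos K S s0 e0 r j hx hse hS hn
  obtain ⟨Z, hZP, g, hgv, hZ⟩ := vitali (dist0 K s0 e0) (fun p => rd p / 10)
    (dist0_comm K s0 e0) (dist0_self K s0 e0) (E'.image K.a)
    (fun p _ => by have := hpos p; linarith)
  have hga : ∀ i ∈ E', g (K.a i) ∈ Z ∧
        dist0 K s0 e0 (K.a i) (g (K.a i)) < 2 * (rd (g (K.a i)) / 10) ∧
        rd (K.a i) ≤ rd (g (K.a i)) ∧ 4 * rd (g (K.a i)) ≤ 5 * rd (K.a i) := by
    intro i hi
    obtain ⟨h1, h2, h3⟩ := hgv (K.a i) (mem_image_of_mem _ hi)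
    have h4 : dist0 K s0 e0 (K.a i) (g (K.a i)) < 2 * (rd (g (K.a i)) / 10) := by linarith
    have h5 : rd (g (K.a i)) ≤ rd (K.a i) + dist0 K s0 e0 (K.a i) (g (K.a i)) :=
      rad_lip K S s0 e0 r j hS
    exact ⟨h1, h4, by linarith, by linarith⟩
  have hgZ : ∀ z ∈ Z, (r : ℝ) ^ 2 * rad K S s0 e0 r (j + k6) z ≤ rd z := by
    intro z hz
    obtain ⟨i, hi, hiz⟩ := mem_image.1 (hZP hz)
    rw [← hiz]; exact hg i hi
  have hcore : ∀ z ∈ Z, (Fintype.card ι : ℝ) <
        (bal K S s0 e0 z (rd z / 10)).card * (r : ℝ) ^ (j + k6) := by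
    intro z hz
    rw [card_bal]
    refine lt_mass K S s0 e0 r (j + k6) hS' ?_
    have h1 := hgZ z hz
    have h2 := hpos z
    have h3 : 0 ≤ rad K S s0 e0 r (j + k6) z := rad_nonneg K S s0 e0 r (j + k6) hS'
    have h16 : (16 : ℝ) ≤ (r : ℝ) ^ 2 := by nlinarith
    have h5 := mul_le_mul_of_nonneg_right h16 h3
    change rad K S s0 e0 r (j + k6) z < rd z / 10
    linarith
  have hdisj : ∀ z ∈ Z, ∀ z' ∈ Z, z ≠ z' →
        Disjoint (bal K S s0 e0 z (rd z / 10)) (bal K S s0 e0 z' (rd z' / 10)) := by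
    intro z hz z' hz' hne
    rw [Finset.disjoint_left]
    intro q hq hq'
    have h1 := (mem_filter.1 hq).2
    have h2 := (mem_filter.1 hq').2
    have h3 := hZ z hz z' hz' hne
    have h4 := dist0_tri K s0 e0 z q z'
    rw [dist0_comm K s0 e0 q z'] at h4
    linarith
  have hncard : (0 : ℝ) < Fintype.card ι := lt_of_lt_of_le (by positivity) hn
  have hZc : (Z.card : ℝ) ≤ (r : ℝ) ^ (j + k6) := by
    have h1 : ∑ z ∈ Z, (bal K S s0 e0 z (rd z / 10)).card ≤ Fintype.card ι := by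
      rw [← card_biUnion (fun z hz z' hz' hne => hdisj z hz z' hz' hne)]
      exact card_le_univ _
    have h2 : (Z.card : ℝ) * Fintype.card ι ≤
        ∑ z ∈ Z, ((bal K S s0 e0 z (rd z / 10)).card : ℝ) * (r : ℝ) ^ (j + k6) := by
      rw [← nsmul_eq_mul]
      exact card_nsmul_le_sum _ _ _ (fun z hz => (hcore z hz).le)
    rw [← sum_mul] at h2
    have h3 : (∑ z ∈ Z, ((bal K S s0 e0 z (rd z / 10)).card : ℝ)) ≤ Fintype.card ι := by
      exact_mod_cast h1
    have h4 : (Z.card : ℝ) * Fintype.card ι ≤ (Fintype.card ι : ℝ) * (r : ℝ) ^ (j + k6) :=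
      le_trans h2 (mul_le_mul_of_nonneg_right h3 (by positivity))
    rw [mul_comm] at h4
    exact le_of_mul_le_mul_left h4 hncard
  have hbox : ∀ z ∈ Z, ((bal K S s0 e0 z (3 * (rd z / 10))).card : ℝ) * (r : ℝ) ^ j ≤
        Fintype.card ι := by
    intro z _
    rw [card_bal]
    refine mass_le_rad K S s0 e0 r j hS ?_
    have := hpos z
    simp only [hrd] at this ⊢
    linarith
  set E'' := E'.filter (fun i => K.b i ∈ bal K S s0 e0 (g (K.a i)) (3 * (rd (g (K.a i)) / 10)))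
    with hE''
  refine ⟨Z, g, E'', hZP, filter_subset _ _, ?_, hga, hdisj, hcore, hZc, hbox, ?_⟩
  swap
  · intro i hi
    have hi' := mem_filter.1 hi
    refine ⟨mem_filter.2 ⟨(hE i hi'.1).2.2.2.1, ?_⟩, hi'.2⟩
    have h1 := (hga i hi'.1).2.1
    have h2 := hpos (g (K.a i))
    rw [dist0_comm]
    linarith
  · -- the exceptional edges
    have hbad : ∀ i ∈ E' \ E'', 3 * (rd (g (K.a i)) / 10) ≤
        dist0 K s0 e0 (g (K.a i)) (K.b i) := by
      intro i hi
      rw [mem_sdiff] at hi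
      by_contra hcon
      push Not at hcon
      exact hi.2 (mem_filter.2 ⟨hi.1, mem_filter.2 ⟨(hE i hi.1).2.2.2.2, hcon⟩⟩)
    -- side
    set sd : ℕ → Bool := fun i => decide (3 * (rd (g (K.a i)) / 10) ≤
      |K.ht (g (K.a i)) s0 - K.ht (K.b i) s0|) with hsd
    have hmap : (E' \ E'').card ≤ ((univ : Finset ι) ×ˢ (Z ×ˢ (univ : Finset Bool))).card := by
      refine card_le_card_of_injOn (fun i => (K.tokB i, g (K.a i), sd i)) ?_ ?_
      · intro i hi
        have hi' : i ∈ E' := (mem_sdiff.1 hi).1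
        simp only [coe_product, Set.mem_prod, mem_coe]
        exact ⟨mem_univ _, (hga i hi').1, mem_univ _⟩
      · have key : ∀ i ∈ E' \ E'', ∀ k ∈ E' \ E'', i < k → K.tokB i = K.tokB k →
            g (K.a i) = g (K.a k) → sd i = sd k → False := by
          intro i hi k hk hik htok hgk hsk
          have hi' : i ∈ E' := (mem_sdiff.1 hi).1
          have hk' : k ∈ E' := (mem_sdiff.1 hk).1
          obtain ⟨hiN, his, hie, -, -⟩ := hE i hi'
          obtain ⟨hkN, hks, hke, -, -⟩ := hE k hk'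
          have hto := tok_ht K hik hkN htok his hke
          have hed := edge_ht K hiN his hie
          have hdi := (hga i hi').2.1
          have hdk := (hga k hk').2.1
          have hbi := hbad i hi
          rw [← hgk] at hdk
          set z := g (K.a i) with hz
          have hai0 : |K.ht (K.a i) s0 - K.ht z s0| ≤ dist0 K s0 e0 (K.a i) z := le_max_left _ _
          have hai1 : |K.ht (K.a i) e0 - K.ht z e0| ≤ dist0 K s0 e0 (K.a i) z := le_max_right _ _
          have hak0 : |K.ht (K.a k) s0 - K.ht z s0| ≤ dist0 K s0 e0 (K.a k) z := le_max_left _ _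
          have hak1 : |K.ht (K.a k) e0 - K.ht z e0| ≤ dist0 K s0 e0 (K.a k) z := le_max_right _ _
          rw [abs_le] at hai0 hai1 hak0 hak1
          have hpz := hpos z
          by_cases hside : 3 * (rd z / 10) ≤ |K.ht z s0 - K.ht (K.b i) s0|
          · rcases le_abs.1 hside with h | h
            · linarith [hai0.1, hed.1]
            · linarith [hak0.2, hto.1]
          · have hside' : 3 * (rd z / 10) ≤ |K.ht z e0 - K.ht (K.b i) e0| := by
              rcases le_max_iff.1 hbi with h | h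
              · exact absurd h hside
              · exact h
            rcases le_abs.1 hside' with h | h
            · linarith [hak1.1, hto.2]
            · linarith [hai1.2, hed.2]
        intro i hi k hk hik
        simp only [Prod.mk.injEq] at hik
        obtain ⟨h1, h2, h3⟩ := hik
        rcases lt_trichotomy i k with h | h | h
        · exact (key i hi k hk h h1 h2 h3).elim
        · exact h
        · exact (key k hk i hi h h1.symm h2.symm h3.symm).elim
    rw [card_product, card_product, card_univ, card_univ, Fintype.card_bool] at hmap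
    calc (E' \ E'').card ≤ Fintype.card ι * (Z.card * 2) := hmap
      _ = 2 * Fintype.card ι * Z.card := by ring

end Pool.Agent.Work.MP_e17eac_co.B4

end

section

/-!
# Arbitrary sets, B-6, bridge, part 3: radii, distances, hull lengths
-/

set_option autoImplicit false

namespace Pool.Agent.Work.MP_e17eac_co.B6.Br

open Finset
open Pool.Agent.Work.MP_e17eac_co.DH
open Pool.Agent.Work.MP_e17eac_co.B1
open Pool.Agent.Work.MP_e17eac_co.BB

/-- All the hypotheses of the bridge for a fixed structure. -/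
structure Hp {ι : Type} [Fintype ι] [DecidableEq ι] (K : KSys ι) (r m : ℕ) (H D s0 e0 : ℝ)
    (L : Lab) (κ : ℕ → ι → ℕ) (X2 X4 : ℕ) (S E : Finset ℕ)
    (e kp l k k6 k8 I dm d C : ℕ) : Prop where
  hCell : StCell
  hDist : StDist
  hRad : StRad
  big : Big K r m H D C
  one : One K r m H D s0 e0 L κ e kp l X2 X4 S E
  kk : e + k6 + k8 + l + 10 ≤ k
  XI : 2 * (k * I) ≤ X2
  XI' : X2 + (k * I + 2 * k) ≤ X4
  gr : ∀ i ∈ E, ∀ j, 4 * X2 ≤ j → j + k6 ≤ 4 * X4 →
    (r : ℝ) ^ 2 * rad K (PS K r m H) s0 e0 r (j + k6) (K.a i) ≤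
      rad K (PS K r m H) s0 e0 r j (K.a i)
  fl : ∀ x ∈ S, ∀ y, X2 + k6 ≤ y → y < x → x ≤ 2 * y → x + k ≤ X4 →
    (E.image (fun i => (L.lab x i, κ y (K.a i)))).card ≤ r ^ (3 * x + 2 * y + k8)
  pr : ∀ i ∈ E, PrAt K r m H s0 e0 L k (X2 + k) I dm i
  dd : d + 10 ≤ dm
  II : dm + 2 ≤ I
  CC : d + 100 ≤ C

variable {ι : Type} [Fintype ι] [DecidableEq ι] {K : KSys ι} {r m : ℕ} {H D s0 e0 : ℝ}
  {L : Lab} {κ : ℕ → ι → ℕ} {X2 X4 : ℕ} {S E : Finset ℕ} {e kp l k k6 k8 I dm d C : ℕ}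


namespace Hp

variable (h : Hp K r m H D s0 e0 L κ X2 X4 S E e kp l k k6 k8 I dm d C)

include h

theorem Dr : D ^ (d + 100) ≤ (r : ℝ) :=
  (pow_le_pow_right₀ (by linarith [h.big.D2]) h.CC).trans h.big.Dr

/-- Powers of the losses are less than `r`. -/
theorem Dr' (a : ℕ) (ha : a ≤ d + 100) : D ^ a ≤ (r : ℝ) :=
  (pow_le_pow_right₀ (by linarith [h.big.D2]) ha).trans h.Dr

theorem r_big : (2 : ℝ) ^ 100 ≤ r :=
  (pow_le_pow_left₀ (by norm_num) h.big.D2 100).trans (h.Dr' 100 (by omega))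

theorem r_pos : (0 : ℝ) < r := lt_of_lt_of_le (by norm_num) h.r_big

theorem r_one : (1 : ℝ) ≤ r := le_trans (by norm_num) h.r_big

theorem r_nat : 1 ≤ r := by
  have := h.r_pos
  have : 0 < r := by exact_mod_cast this
  omega

theorem H1 : 1 ≤ H := h.big.std.one

theorem n_pow (j : ℕ) (hj : j ≤ 100 * (m + 1)) : (r : ℝ) ^ j ≤ Fintype.card ι := by
  refine le_trans ?_ h.big.rn
  refine pow_le_pow_right₀ h.r_one (hj.trans ?_)
  exact Nat.mul_le_mul_right _ (by have := h.CC; omega)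

theorem n_pos : (0 : ℝ) < Fintype.card ι :=
  lt_of_lt_of_le (by positivity) (h.n_pow 0 (by omega))

theorem N_pos : (0 : ℝ) < K.N := by
  have h1 : (r : ℕ) ^ (4 * m) ≤ K.N := h.big.std.pow
  have h2 : 0 < r ^ (4 * m) := Nat.pow_pos (by have := h.r_nat; omega)
  exact_mod_cast lt_of_lt_of_le h2 h1

/-- Few edges at every line. -/
theorem card_le_lines (F : Finset ℕ) (hF : F ⊆ E) :
    (F.card : ℝ) * Fintype.card ι ≤ ((F.image K.a).card : ℝ) * (H * K.N) := by
  have hn := h.n_pos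
  have h1 := card_le_image_mul F K.a (H * K.N / Fintype.card ι) (by
    intro i hi
    rw [le_div_iff₀ hn]
    have h1 := (h.one.hyg i (hF hi)).light false 0 (Nat.zero_le _)
    rw [pow_zero, mul_one] at h1
    refine le_trans ?_ h1
    gcongr
    intro j hj
    rw [mem_filter] at hj ⊢
    have hjN := (h.one.hyg j (hF hj.1)).lt
    have hiN := (h.one.hyg i (hF hi)).lt
    have h0 := (h.hCell ι K r 0 h.r_nat).2.2.2.1
    rw [mem_range]
    exact ⟨hjN, hj.2, by rw [h0 j hjN, h0 i hiN]⟩)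
  have h2 := mul_le_mul_of_nonneg_right h1 hn.le
  rw [mul_assoc, div_mul_cancel₀ _ hn.ne'] at h2
  exact h2

theorem a_ps (i : ℕ) (hi : i ∈ E) : K.a i ∈ PS K r m H := (h.one.hyg i hi).ps false

theorem n_le_E : (Fintype.card ι : ℝ) ≤ D * H * ((E.image K.a).card : ℝ) := by
  have h1 := h.card_le_lines E le_rfl
  have h2 := h.one.card
  have hN := h.N_pos
  have hn := h.n_pos
  have hD : 0 < D := by linarith [h.big.D2]
  have h3 : (K.N : ℝ) * Fintype.card ι ≤ (D * H * ((E.image K.a).card : ℝ)) * K.N := by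
    calc (K.N : ℝ) * Fintype.card ι ≤ (D * E.card) * Fintype.card ι := by gcongr
      _ = D * (E.card * Fintype.card ι) := by ring
      _ ≤ D * (((E.image K.a).card : ℝ) * (H * K.N)) := by gcongr
      _ = _ := by ring
  rw [mul_comm] at h3
  exact le_of_mul_le_mul_right h3 hN

theorem ps_big (j : ℕ) (hj : 1 ≤ j) : Fintype.card ι < (PS K r m H).card * r ^ j := by
  have h1 := h.n_le_E
  have hn := h.n_pos
  have h2 : (E.image K.a).card ≤ (PS K r m H).card := card_le_card (by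
    intro p hp
    obtain ⟨i, hi, rfl⟩ := mem_image.1 hp
    exact h.a_ps i hi)
  have hD2 := h.big.D2
  have hH1 := h.H1
  have hHD := h.big.HD
  have h3 : D * H < r := by
    calc D * H ≤ D * D := by gcongr
      _ = D ^ 2 := by ring
      _ < D ^ 3 := pow_lt_pow_right₀ (by linarith) (by norm_num)
      _ ≤ r := h.Dr' 3 (by omega)
  have h4 : (Fintype.card ι : ℝ) ≤ D * H * ((PS K r m H).card : ℝ) := by
    refine h1.trans ?_
    gcongr
  have h5 : (0 : ℝ) < (PS K r m H).card := by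
    by_contra hcon
    push Not at hcon
    have : ((PS K r m H).card : ℝ) = 0 := le_antisymm hcon (Nat.cast_nonneg _)
    rw [this, mul_zero] at h4
    linarith
  have h6 : (Fintype.card ι : ℝ) < (PS K r m H).card * (r : ℝ) ^ j := by
    calc (Fintype.card ι : ℝ) ≤ D * H * ((PS K r m H).card : ℝ) := h4
      _ < r * ((PS K r m H).card : ℝ) := by gcongr
      _ = (PS K r m H).card * (r : ℝ) ^ 1 := by ring
      _ ≤ (PS K r m H).card * (r : ℝ) ^ j := by
        gcongr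
        · exact h.r_one
  exact_mod_cast h6

theorem base : s0 < e0 := h.one.lab.base

theorem rad_pos (j : ℕ) (hj : 1 ≤ j) (hj' : j ≤ 4 * X4) (p : ι) : 0 < (rad K (PS K r m H) s0 e0 r) j p := by
  have h1 := h.hRad ι K (PS K r m H) s0 e0 r h.base h.r_nat j (h.ps_big j hj)
  refine h1.2.2.2.2.2 h.big.std.inj ?_ p
  have hm := h.one.lev.2
  have := h.n_pow j (by omega)
  exact_mod_cast this

theorem rad_anti (j j' : ℕ) (hj : 1 ≤ j) (hjj : j ≤ j') (p : ι) : (rad K (PS K r m H) s0 e0 r) j' p ≤ (rad K (PS K r m H) s0 e0 r) j p :=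
  (h.hRad ι K (PS K r m H) s0 e0 r h.base h.r_nat j (h.ps_big j hj)).2.2.2.1 j' hjj p

theorem rad_lip (j : ℕ) (hj : 1 ≤ j) (p q : ι) : (rad K (PS K r m H) s0 e0 r) j p ≤ (rad K (PS K r m H) s0 e0 r) j q + dist0 K s0 e0 p q :=
  (h.hRad ι K (PS K r m H) s0 e0 r h.base h.r_nat j (h.ps_big j hj)).2.2.2.2.1 p q

theorem mass_le (j : ℕ) (hj : 1 ≤ j) (p : ι) (ρ : ℝ) (hρ : ρ ≤ (rad K (PS K r m H) s0 e0 r) j p) :
    (mass K (PS K r m H) s0 e0 p ρ : ℝ) * (r : ℝ) ^ j ≤ Fintype.card ι := by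
  exact_mod_cast (h.hRad ι K (PS K r m H) s0 e0 r h.base h.r_nat j (h.ps_big j hj)).2.1 p ρ hρ

theorem mass_gt (j : ℕ) (hj : 1 ≤ j) (p : ι) (ρ : ℝ) (hρ : (rad K (PS K r m H) s0 e0 r) j p < ρ) :
    (Fintype.card ι : ℝ) < (mass K (PS K r m H) s0 e0 p ρ : ℝ) * (r : ℝ) ^ j := by
  exact_mod_cast (h.hRad ι K (PS K r m H) s0 e0 r h.base h.r_nat j (h.ps_big j hj)).2.2.1 p ρ hρ

/-- Growth over four steps. -/
theorem G4 (i : ℕ) (hi : i ∈ E) (j j' : ℕ) (hj : 4 * X2 ≤ j) (hjj : j + 4 * k6 ≤ j')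
    (hj' : j' ≤ 4 * X4) : (r : ℝ) ^ 8 * (rad K (PS K r m H) s0 e0 r) j' (K.a i) ≤ (rad K (PS K r m H) s0 e0 r) j (K.a i) := by
  have h1 := h.gr i hi j hj (by omega)
  have h2 := h.gr i hi (j + k6) (by omega) (by omega)
  have h3 := h.gr i hi (j + k6 + k6) (by omega) (by omega)
  have h4 := h.gr i hi (j + k6 + k6 + k6) (by omega) (by omega)
  have h5 := h.rad_anti (j + k6 + k6 + k6 + k6) j' (by have := h.one.lev.1; omega) (by omega)
    (K.a i)
  have hr := h.r_pos
  calc (r : ℝ) ^ 8 * (rad K (PS K r m H) s0 e0 r) j' (K.a i)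
      ≤ (r : ℝ) ^ 8 * (rad K (PS K r m H) s0 e0 r) (j + k6 + k6 + k6 + k6) (K.a i) := by gcongr
    _ = (r : ℝ) ^ 6 * ((r : ℝ) ^ 2 * (rad K (PS K r m H) s0 e0 r) (j + k6 + k6 + k6 + k6) (K.a i)) := by ring
    _ ≤ (r : ℝ) ^ 6 * (rad K (PS K r m H) s0 e0 r) (j + k6 + k6 + k6) (K.a i) := by gcongr
    _ = (r : ℝ) ^ 4 * ((r : ℝ) ^ 2 * (rad K (PS K r m H) s0 e0 r) (j + k6 + k6 + k6) (K.a i)) := by ring
    _ ≤ (r : ℝ) ^ 4 * (rad K (PS K r m H) s0 e0 r) (j + k6 + k6) (K.a i) := by gcongr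
    _ = (r : ℝ) ^ 2 * ((r : ℝ) ^ 2 * (rad K (PS K r m H) s0 e0 r) (j + k6 + k6) (K.a i)) := by ring
    _ ≤ (r : ℝ) ^ 2 * (rad K (PS K r m H) s0 e0 r) (j + k6) (K.a i) := by gcongr
    _ ≤ (rad K (PS K r m H) s0 e0 r) j (K.a i) := h1

theorem kpos : 10 ≤ k := by have := h.kk; omega

theorem kI : k * (d + 12) ≤ k * I := Nat.mul_le_mul_left _ (by have := h.dd; have := h.II; omega)

theorem X4m : X4 + 1 ≤ m := h.one.lev.2

/-- Lines of the same class of level `X2 + 4 k` are close. -/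
theorem Dm (i i' : ℕ) (hi : i ∈ E) (hi' : i' ∈ E)
    (hκ : κ (X2 + 4 * k) (K.a i) = κ (X2 + 4 * k) (K.a i')) :
    (r : ℝ) ^ 7 * dist0 K s0 e0 (K.a i) (K.a i') ≤ (rad K (PS K r m H) s0 e0 r) (4 * (X2 + k + k * 2)) (K.a i) := by
  have h0 := h.kI
  have h0' := h.XI'
  have h0'' := h.kpos
  have hk : k * 12 ≤ k * (d + 12) := Nat.mul_le_mul_left _ (by omega)
  have h1 := h.one.dm (X2 + 4 * k) (by omega) (by omega) i hi i' hi' hκ
  have h2 := h.G4 i hi (4 * (X2 + k + k * 2)) (4 * (X2 + 4 * k) - 1) (by omega)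
    (by have := h.kk; omega) (by omega)
  have hr := h.r_pos
  calc (r : ℝ) ^ 7 * dist0 K s0 e0 (K.a i) (K.a i')
      ≤ (r : ℝ) ^ 7 * (r * (rad K (PS K r m H) s0 e0 r) (4 * (X2 + 4 * k) - 1) (K.a i)) := by gcongr
    _ = (r : ℝ) ^ 8 * (rad K (PS K r m H) s0 e0 r) (4 * (X2 + 4 * k) - 1) (K.a i) := by ring
    _ ≤ _ := h2

/-- Comparison of the radii in a class. -/
theorem rho2 (i i' : ℕ) (hi : i ∈ E) (hi' : i' ∈ E)
    (hκ : κ (X2 + 4 * k) (K.a i) = κ (X2 + 4 * k) (K.a i')) :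
    (rad K (PS K r m H) s0 e0 r) (4 * (X2 + k + k * 2)) (K.a i) ≤ 2 * (rad K (PS K r m H) s0 e0 r) (4 * (X2 + k + k * 2)) (K.a i') := by
  have h0 := h.kI
  have h0' := h.XI'
  have h0'' := h.kpos
  have hk : k * 12 ≤ k * (d + 12) := Nat.mul_le_mul_left _ (by omega)
  have h1 := h.Dm i i' hi hi' hκ
  have h2 := h.rad_lip (4 * (X2 + k + k * 2)) (by omega) (K.a i) (K.a i')
  have h3 := h.rad_pos (4 * (X2 + k + k * 2)) (by omega) (by omega) (K.a i)
  have h4 := (h.hDist ι K s0 e0 h.base).1 (K.a i) (K.a i')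
  have h5 : 2 * dist0 K s0 e0 (K.a i) (K.a i') ≤ (rad K (PS K r m H) s0 e0 r) (4 * (X2 + k + k * 2)) (K.a i) := by
    refine le_trans ?_ h1
    have : (2 : ℝ) ≤ (r : ℝ) ^ 7 := by
      calc (2 : ℝ) ≤ (2 : ℝ) ^ 100 := by norm_num
        _ ≤ r := h.r_big
        _ = (r : ℝ) ^ 1 := (pow_one _).symm
        _ ≤ (r : ℝ) ^ 7 := pow_le_pow_right₀ h.r_one (by norm_num)
    gcongr
  linarith

/-- Hull lengths. -/
theorem eta_pos (i : ℕ) (hi : i ∈ E) (z : ℕ) (hz : 1 ≤ z) (hz' : z ≤ m) :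
    0 < (L.h1 z i - L.h0 z i) / (e0 - s0) := by
  have h1 := h.one.lab.hull z hz hz' i hi
  have h2 := h.base
  exact div_pos (by linarith [h1.2.1]) (by linarith)

theorem zz_le (j : ℕ) (hj : j ≤ d + 10) : 2 * k * j + k ≤ X2 ∧ 1 ≤ 2 * k * j + k := by
  have h1 := h.XI
  have h2 := h.kI
  have h3 : 2 * k * j ≤ 2 * (k * (d + 10)) := by
    rw [mul_assoc]
    gcongr
  have h4 : k * (d + 12) = k * (d + 10) + 2 * k := by ring
  have h5 := h.kpos
  constructor <;> omega

theorem zz_m (j : ℕ) (hj : j ≤ d + 10) : 2 * k * j + k ≤ m := by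
  have h1 := (h.zz_le j hj).1
  have h2 := h.XI'
  have h3 := h.X4m
  omega

theorem lev_le (j : ℕ) (hj : j ≤ d + 12) : 4 * (X2 + k + k * j) ≤ 4 * X4 := by
  have h1 : k * j ≤ k * (d + 12) := Nat.mul_le_mul_left _ hj
  have h2 := h.kI
  have h3 := h.XI'
  omega

theorem rho_pos (j : ℕ) (hj : j ≤ d + 12) (p : ι) : 0 < (rad K (PS K r m H) s0 e0 r) (4 * (X2 + k + k * j)) p :=
  h.rad_pos _ (by have := h.kpos; omega) (h.lev_le j hj) p

/-- The left inequality. -/
theorem left' (i : ℕ) (hi : i ∈ E) (j c : ℕ) (hj : j + c ≤ d + 10) :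
    (L.h1 (2 * k * c + k) i - L.h0 (2 * k * c + k) i) / (e0 - s0) *
      (rad K (PS K r m H) s0 e0 r) (4 * (X2 + k + k * j)) (K.a i) ≤ (rad K (PS K r m H) s0 e0 r) (4 * (X2 + k + k * (j + c))) (K.a i) := by
  have h1 := (h.pr i hi).left j c (by have := h.dd; have := h.II; omega)
  have h2 := h.eta_pos i hi (2 * k * c + k) (h.zz_le c (by omega)).2 (h.zz_m c (by omega))
  have h3 := h.rho_pos j (by omega) (K.a i)
  have h4 := h.rho_pos (j + c) (by omega) (K.a i)
  unfold uu gg at h1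
  rw [← Real.log_le_log_iff (by positivity) h4, Real.log_mul h2.ne' h3.ne']
  linarith

/-- The right inequality. -/
theorem right' (i : ℕ) (hi : i ∈ E) (j c : ℕ) (hj : j + c + 1 ≤ d + 10) :
    (rad K (PS K r m H) s0 e0 r) (4 * (X2 + k + k * (j + c + 1))) (K.a i) ≤
    (L.h1 (2 * k * c + k) i - L.h0 (2 * k * c + k) i) / (e0 - s0) *
      (rad K (PS K r m H) s0 e0 r) (4 * (X2 + k + k * j)) (K.a i) := by
  have h1 := (h.pr i hi).right j c (by have := h.dd; have := h.II; omega)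
  have h2 := h.eta_pos i hi (2 * k * c + k) (h.zz_le c (by omega)).2 (h.zz_m c (by omega))
  have h3 := h.rho_pos j (by omega) (K.a i)
  have h4 := h.rho_pos (j + c + 1) (by omega) (K.a i)
  unfold uu gg at h1
  rw [← Real.log_le_log_iff h4 (by positivity), Real.log_mul h2.ne' h3.ne']
  linarith

/-- Comparison of the radii of two lines with a common label. -/
theorem comp (i i' : ℕ) (hi : i ∈ E) (hi' : i' ∈ E)
    (hκ : κ (X2 + 4 * k) (K.a i) = κ (X2 + 4 * k) (K.a i')) (j : ℕ) (hj : j + 3 ≤ d + 10)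
    (hl : L.lab (2 * k * j + k) i = L.lab (2 * k * j + k) i') :
    (rad K (PS K r m H) s0 e0 r) (4 * (X2 + k + k * (2 + j + 1))) (K.a i) ≤ 2 * (rad K (PS K r m H) s0 e0 r) (4 * (X2 + k + k * (2 + j))) (K.a i') := by
  have h1 := h.right' i hi 2 j (by omega)
  have h2 := h.left' i' hi' 2 j (by omega)
  have h3 := h.rho2 i i' hi hi' hκ
  have h4 := (h.one.lab.leq (2 * k * j + k) (h.zz_le j (by omega)).2 (h.zz_m j (by omega)) i hi i'
    hi' hl)
  have h5 := h.eta_pos i hi (2 * k * j + k) (h.zz_le j (by omega)).2 (h.zz_m j (by omega))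
  rw [← h4.2.1, ← h4.2.2.1] at h2
  calc (rad K (PS K r m H) s0 e0 r) (4 * (X2 + k + k * (2 + j + 1))) (K.a i)
      ≤ (L.h1 (2 * k * j + k) i - L.h0 (2 * k * j + k) i) / (e0 - s0) *
      (rad K (PS K r m H) s0 e0 r) (4 * (X2 + k + k * 2)) (K.a i) := h1
    _ ≤ (L.h1 (2 * k * j + k) i - L.h0 (2 * k * j + k) i) / (e0 - s0) *
      (2 * (rad K (PS K r m H) s0 e0 r) (4 * (X2 + k + k * 2)) (K.a i')) := by gcongr
    _ = 2 * ((L.h1 (2 * k * j + k) i - L.h0 (2 * k * j + k) i) / (e0 - s0) *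
      (rad K (PS K r m H) s0 e0 r) (4 * (X2 + k + k * 2)) (K.a i')) := by ring
    _ ≤ _ := by gcongr

end Hp

end Pool.Agent.Work.MP_e17eac_co.B6.Br

end
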