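import Pool.Agent.Work.MP_e17eac_co.Bd.B14

/-! Bundle of small proof modules (one section per former module). -/

section

/-!
# Item AS2 Ann: the annuli lemma
-/

namespace Pool.Agent.Work.MP_e17eac_co.AS2

open Finset
open Pool.Agent.Work.MP_e17eac_co.DH
open Pool.Agent.Work.MP_e17eac_co.DH.XSWEEP (GP)
open Pool.Agent.Work.MP_e17eac_co.MX

namespace XAnn

/-- The numerical contradiction. -/
theorem core {n b e l Q C1 C2 I S T Ec Eg N : ℝ} (g D : ℕ) (hn : 0 < n) (hb : 1 ≤ b)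
    (he : 0 < e) (_hl : 0 ≤ l) (hQ : 1 ≤ Q) (hC1 : 1 ≤ C1) (hC2 : 1 ≤ C2) (hQ1 : 8 * C1 ≤ Q)
    (hQ2 : 400 * C1 * C2 ^ 2 < Q) (_hS0 : 0 ≤ S) (hEc : 0 ≤ Ec)
    (h1 : n * b ≤ C1 * Q ^ (9 * (D + 1)) * I) (h2 : I ≤ S + T)
    (h3 : T * Q ^ (99 * (g + D + 1)) ≤ 4 * b * n * Q ^ (2 * g))
    (h4 : S * Ec ≤ Eg * (Q * (C2 * n * (b * Q ^ g)))) (h5 : N ≤ Q ^ D * Ec)
    (h6 : n * e ≤ Q * N) (h7 : Eg ≤ 200 * Q ^ 4 * (Q ^ g) ^ 2 * (C2 * n * b) * l)
    (h8 : l * Q ^ (33 * (g + D + 1)) * b ≤ e) : False := by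
  have hQ0 : 0 < Q := by linarith
  have hnb : 0 < n * b := by positivity
  have s1 : 8 * C1 * Q ^ (9 * (D + 1) + 2 * g) ≤ Q ^ (99 * (g + D + 1)) := by
    calc 8 * C1 * Q ^ (9 * (D + 1) + 2 * g) ≤ Q * Q ^ (9 * (D + 1) + 2 * g) :=
          mul_le_mul_of_nonneg_right hQ1 (by positivity)
      _ = Q ^ (9 * (D + 1) + 2 * g + 1) := by ring
      _ ≤ Q ^ (99 * (g + D + 1)) := pow_le_pow_right₀ hQ (by omega)
  have s2 : C1 * Q ^ (9 * (D + 1)) * T ≤ n * b / 2 := by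
    have hA : 0 < Q ^ (99 * (g + D + 1)) := by positivity
    refine le_of_mul_le_mul_right ?_ hA
    calc C1 * Q ^ (9 * (D + 1)) * T * Q ^ (99 * (g + D + 1))
        = C1 * Q ^ (9 * (D + 1)) * (T * Q ^ (99 * (g + D + 1))) := by ring
      _ ≤ C1 * Q ^ (9 * (D + 1)) * (4 * b * n * Q ^ (2 * g)) :=
          mul_le_mul_of_nonneg_left h3 (by positivity)
      _ = n * b / 2 * (8 * C1 * Q ^ (9 * (D + 1) + 2 * g)) := by rw [pow_add]; ring
      _ ≤ n * b / 2 * Q ^ (99 * (g + D + 1)) :=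
          mul_le_mul_of_nonneg_left s1 (by positivity)
  have s3 : n * b ≤ 2 * C1 * Q ^ (9 * (D + 1)) * S := by
    have h9 : C1 * Q ^ (9 * (D + 1)) * I ≤ C1 * Q ^ (9 * (D + 1)) * (S + T) :=
      mul_le_mul_of_nonneg_left h2 (by positivity)
    have h10 : C1 * Q ^ (9 * (D + 1)) * (S + T) =
      C1 * Q ^ (9 * (D + 1)) * S + C1 * Q ^ (9 * (D + 1)) * T := by ring
    linarith
  have s4 : n * e ≤ 2 * C1 * C2 * Q ^ (10 * D + 11 + g) * Eg := by
    refine le_of_mul_le_mul_right ?_ hnb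
    calc n * e * (n * b) ≤ Q * N * (n * b) := mul_le_mul_of_nonneg_right h6 hnb.le
      _ ≤ Q * (Q ^ D * Ec) * (n * b) :=
          mul_le_mul_of_nonneg_right (mul_le_mul_of_nonneg_left h5 hQ0.le) hnb.le
      _ ≤ Q * (Q ^ D * Ec) * (2 * C1 * Q ^ (9 * (D + 1)) * S) :=
          mul_le_mul_of_nonneg_left s3 (by positivity)
      _ = 2 * C1 * (Q * Q ^ D * Q ^ (9 * (D + 1))) * (S * Ec) := by ring
      _ ≤ 2 * C1 * (Q * Q ^ D * Q ^ (9 * (D + 1))) * (Eg * (Q * (C2 * n * (b * Q ^ g)))) :=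
          mul_le_mul_of_nonneg_left h4 (by positivity)
      _ = 2 * C1 * C2 * (Q * Q ^ D * Q ^ (9 * (D + 1)) * Q * Q ^ g) * Eg * (n * b) := by ring
      _ = 2 * C1 * C2 * Q ^ (10 * D + 11 + g) * Eg * (n * b) := by
          have : Q * Q ^ D * Q ^ (9 * (D + 1)) * Q * Q ^ g = Q ^ (10 * D + 11 + g) := by
            rw [← pow_succ', ← pow_add, ← pow_succ, ← pow_add]
            congr 1
            ring
          rw [this]
  have s5 : n * e ≤ 400 * C1 * C2 ^ 2 * Q ^ (10 * D + 15 + 3 * g) * (n * b * l) := by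
    calc n * e ≤ 2 * C1 * C2 * Q ^ (10 * D + 11 + g) * Eg := s4
      _ ≤ 2 * C1 * C2 * Q ^ (10 * D + 11 + g) *
          (200 * Q ^ 4 * (Q ^ g) ^ 2 * (C2 * n * b) * l) :=
          mul_le_mul_of_nonneg_left h7 (by positivity)
      _ = 400 * C1 * C2 ^ 2 * (Q ^ (10 * D + 11 + g) * Q ^ 4 * (Q ^ g) ^ 2) * (n * b * l) := by
          ring
      _ = 400 * C1 * C2 ^ 2 * Q ^ (10 * D + 15 + 3 * g) * (n * b * l) := by
          have : Q ^ (10 * D + 11 + g) * Q ^ 4 * (Q ^ g) ^ 2 = Q ^ (10 * D + 15 + 3 * g) := by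
            rw [← pow_mul, ← pow_add, ← pow_add]
            congr 1
            ring
          rw [this]
  have hne : 0 < n * e := by positivity
  have s6 : Q ^ (33 * (g + D + 1)) ≤ 400 * C1 * C2 ^ 2 * Q ^ (10 * D + 15 + 3 * g) := by
    refine le_of_mul_le_mul_right ?_ hne
    calc Q ^ (33 * (g + D + 1)) * (n * e)
        ≤ Q ^ (33 * (g + D + 1)) *
          (400 * C1 * C2 ^ 2 * Q ^ (10 * D + 15 + 3 * g) * (n * b * l)) :=
          mul_le_mul_of_nonneg_left s5 (by positivity)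
      _ = 400 * C1 * C2 ^ 2 * Q ^ (10 * D + 15 + 3 * g) * n *
          (l * Q ^ (33 * (g + D + 1)) * b) := by ring
      _ ≤ 400 * C1 * C2 ^ 2 * Q ^ (10 * D + 15 + 3 * g) * n * e :=
          mul_le_mul_of_nonneg_left h8 (by positivity)
      _ = 400 * C1 * C2 ^ 2 * Q ^ (10 * D + 15 + 3 * g) * (n * e) := by ring
  have s7 : 400 * C1 * C2 ^ 2 * Q ^ (10 * D + 15 + 3 * g) < Q * Q ^ (10 * D + 15 + 3 * g) :=
    mul_lt_mul_of_pos_right hQ2 (by positivity)
  have s8 : Q * Q ^ (10 * D + 15 + 3 * g) ≤ Q ^ (33 * (g + D + 1)) := by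
    rw [← pow_succ']
    exact pow_le_pow_right₀ hQ (by omega)
  linarith

/-- Quarter powers. -/
theorem quarter {B : ℝ} (hB : 0 ≤ B) : (B ^ ((1 : ℝ) / 4)) ^ 4 = B ∧
    B ^ ((3 : ℝ) / 4) = (B ^ ((1 : ℝ) / 4)) ^ 3 := by
  constructor
  · rw [← Real.rpow_natCast, ← Real.rpow_mul hB]; norm_num
  · rw [← Real.rpow_natCast, ← Real.rpow_mul hB]; norm_num

theorem third {n : ℝ} (hn : 0 ≤ n) : (n ^ ((1 : ℝ) / 3)) ^ 3 = n := by
  rw [← Real.rpow_natCast, ← Real.rpow_mul hn]; norm_num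

theorem fourthird {n : ℝ} (hn : 0 < n) : n ^ ((4 : ℝ) / 3) = n * n ^ ((1 : ℝ) / 3) := by
  have : (4 : ℝ) / 3 = 1 + 1 / 3 := by norm_num
  rw [this, Real.rpow_add hn, Real.rpow_one]

/-- Large `Q` for large `n`. -/
theorem largeQ (η : ℝ) (hη : 0 < η) (X : ℝ) : ∃ n0 : ℕ, ∀ n : ℕ, n0 ≤ n → X ≤ (n : ℝ) ^ η := by
  have h1 : Filter.Tendsto (fun n : ℕ => (n : ℝ) ^ η) Filter.atTop Filter.atTop :=
    (tendsto_rpow_atTop hη).comp tendsto_natCast_atTop_atTop
  obtain ⟨n0, h⟩ := Filter.eventually_atTop.1 (h1.eventually (Filter.eventually_ge_atTop X))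
  exact ⟨n0, h⟩

variable {ι : Type} [Fintype ι] [DecidableEq ι]

/-- Number of pairs with one label. -/
theorem cntS (K : KSys ι) (c cp : ℕ → ℕ) (kk ll : ι → ℕ → ℕ) (F : Finset ℕ)
    (S : Finset (ι × ℕ)) (La : ℕ) (hS : S ⊆ F.image (fun n => (K.a n, c n)))
    (hF : ∀ n ∈ F, ((F.filter (fun k => lb K cp kk ll (K.a k) (c k) =
      lb K cp kk ll (K.a n) (c n))).image K.a).card ≤ La) :
    ∀ w ∈ S, (S.filter (fun v => lb K cp kk ll v.1 v.2 = lb K cp kk ll w.1 w.2)).card ≤ La := by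
  intro w hw
  obtain ⟨n, hn, rfl⟩ := Finset.mem_image.1 (hS hw)
  refine le_trans (Finset.card_le_card_of_injOn Prod.fst ?_ ?_) (hF n hn)
  · intro v hv
    obtain ⟨hv1, hv2⟩ := Finset.mem_filter.1 (Finset.mem_coe.1 hv)
    obtain ⟨k, hk, rfl⟩ := Finset.mem_image.1 (hS hv1)
    exact Finset.mem_coe.2 (Finset.mem_image.2 ⟨k, Finset.mem_filter.2 ⟨hk, hv2⟩, rfl⟩)
  · intro v hv v' hv' h
    have e1 := (Finset.mem_filter.1 (Finset.mem_coe.1 hv)).2
    have e2 := (Finset.mem_filter.1 (Finset.mem_coe.1 hv')).2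
    have e3 : v.2 = v'.2 := congrArg (fun x => x.1.1) (e1.trans e2.symm)
    exact Prod.ext h e3

/-- Lower bound for the number of generic edges. -/
theorem fib (K : KSys ι) {c cp : ℕ → ℕ} {G : ℕ} (E : Finset ℕ) (S : Finset (ι × ℕ))
    (uu : ι → ℕ → ℕ) (hG : ∀ n, cp n / G = c n) {Q P : ℝ} (hQ : 0 ≤ Q)
    (hreg : RegF Q E (fun n => (cp n, K.a n)))
    (hP : (im E (fun n => (cp n, K.a n)) : ℝ) ≤ P)
    (hS : ∀ w ∈ S, ∃ k ∈ E, K.a k = w.1 ∧ c k = w.2 ∧ cp k = uu w.1 w.2) :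
    (S.card : ℝ) * E.card ≤
      ((E.filter (fun m => (K.a m, c m) ∈ S ∧ cp m = uu (K.a m) (c m))).card : ℝ) * (Q * P) := by
  set Eg := E.filter (fun m => (K.a m, c m) ∈ S ∧ cp m = uu (K.a m) (c m)) with hEg
  have h1 : ∀ w ∈ S, (E.card : ℝ) ≤
      ((Eg.filter (fun m => (K.a m, c m) = w)).card : ℝ) * (Q * P) := by
    intro w hw
    obtain ⟨k, hk, ha, hc, hu⟩ := hS w hw
    have h2 := (hreg k hk).1
    have h3 : E.filter (fun m => (cp m, K.a m) = (cp k, K.a k)) ⊆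
        Eg.filter (fun m => (K.a m, c m) = w) := by
      intro m hm
      obtain ⟨hmE, hmk⟩ := Finset.mem_filter.1 hm
      have e1 : cp m = cp k := congrArg Prod.fst hmk
      have e2 : K.a m = K.a k := congrArg Prod.snd hmk
      have e3 : c m = c k := by rw [← hG, ← hG, e1]
      have e4 : (K.a m, c m) = w := Prod.ext (e2.trans ha) (e3.trans hc)
      refine Finset.mem_filter.2 ⟨Finset.mem_filter.2 ⟨hmE, by rw [e4]; exact hw, ?_⟩, e4⟩
      rw [e1, hu, e2, ha, e3, hc]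
    have h4 : ((E.filter (fun m => (cp m, K.a m) = (cp k, K.a k))).card : ℝ) ≤
        ((Eg.filter (fun m => (K.a m, c m) = w)).card : ℝ) := by
      exact_mod_cast Finset.card_le_card h3
    have h5 : (0 : ℝ) ≤ (im E (fun n => (cp n, K.a n)) : ℝ) := Nat.cast_nonneg _
    calc (E.card : ℝ) ≤ Q * ((E.filter (fun m => (cp m, K.a m) = (cp k, K.a k))).card : ℝ) *
          (im E (fun n => (cp n, K.a n)) : ℝ) := h2
      _ ≤ Q * ((Eg.filter (fun m => (K.a m, c m) = w)).card : ℝ) * P := by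
          refine mul_le_mul (mul_le_mul_of_nonneg_left h4 hQ) hP h5 (by positivity)
      _ = ((Eg.filter (fun m => (K.a m, c m) = w)).card : ℝ) * (Q * P) := by ring
  have h2 : (Eg.card : ℝ) = ∑ w ∈ S, ((Eg.filter (fun m => (K.a m, c m) = w)).card : ℝ) := by
    rw [Finset.card_eq_sum_card_fiberwise (f := fun m => (K.a m, c m)) (t := S)]
    · push_cast
      rfl
    · intro m hm
      exact Finset.mem_coe.2 (Finset.mem_filter.1 (Finset.mem_coe.1 hm)).2.1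
  rw [h2, Finset.sum_mul]
  calc (S.card : ℝ) * E.card = ∑ w ∈ S, (E.card : ℝ) := by
        rw [Finset.sum_const, nsmul_eq_mul]
    _ ≤ _ := Finset.sum_le_sum h1

end XAnn

open XAnn in
theorem I_Ann (h1 : StMc) (h2 : StUp) (h3 : StLow) (h4 : StAnnG) (h5 : StAnnUB) : StAnn := by
  obtain ⟨C2, hC2, hUp⟩ := h2
  obtain ⟨C1, hC1, hLow⟩ := h3
  refine ⟨99, ?_⟩
  intro η D hη
  obtain ⟨n0, hn0⟩ := largeQ η hη (2 ^ 20 + 8 * C1 + 400 * C1 * C2 ^ 2 + 1)
  refine ⟨max n0 1, ?_⟩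
  intro ι _ _ K hinj hgp hn Q hQ hQN B g hB hBQ E hE hED hreg kk ll F hF hpd hlab
  by_contra hcon
  push Not at hcon
  have hnn : n0 ≤ Fintype.card ι := le_trans (le_max_left _ _) hn
  have hn1 : 1 ≤ Fintype.card ι := le_trans (le_max_right _ _) hn
  set n : ℝ := (Fintype.card ι : ℝ) with hndef
  have hnpos : 0 < n := by rw [hndef]; exact_mod_cast hn1
  have hQX : 2 ^ 20 + 8 * C1 + 400 * C1 * C2 ^ 2 + 1 ≤ (Q : ℝ) := le_trans (hn0 _ hnn) hQ
  have hp1 : 0 ≤ 400 * C1 * C2 ^ 2 := by positivity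
  have hQ20 : (2 : ℝ) ^ 20 ≤ (Q : ℝ) := by linarith
  have hQnat : 2 ^ 20 ≤ Q := by exact_mod_cast hQ20
  have hQ1 : 1 ≤ (Q : ℝ) := le_trans (by norm_num) hQ20
  have hQpos : 0 < (Q : ℝ) := by linarith
  have hQn0 : 0 < Q := by omega
  have hG0 : 0 < Q ^ g := pow_pos hQn0 g
  have hBpos : 0 < B := hB
  set e : ℝ := n ^ ((1 : ℝ) / 3) with hedef
  have he : 0 < e := Real.rpow_pos_of_pos hnpos _
  have he3 : e ^ 3 = n := third hnpos.le
  have hne : n ^ ((4 : ℝ) / 3) = n * e := fourthird hnpos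
  set b : ℝ := (B : ℝ) ^ ((1 : ℝ) / 4) with hbdef
  have hB1 : (1 : ℝ) ≤ (B : ℝ) := by exact_mod_cast hB
  have hb : 1 ≤ b := Real.one_le_rpow hB1 (by norm_num)
  have hb0 : 0 < b := by linarith
  have hb4 : b ^ 4 = (B : ℝ) := (quarter (by positivity)).1
  have hb3 : (B : ℝ) ^ ((3 : ℝ) / 4) = b ^ 3 := (quarter (by positivity)).2
  have hBQr : (B : ℝ) * (Q : ℝ) ^ (99 * (g + D + 1)) ≤ n := by
    rw [hndef]; exact_mod_cast hBQ
  have hb34 : b ^ 3 ≤ (B : ℝ) := by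
    rw [← hb4]; exact pow_le_pow_right₀ hb (by norm_num)
  have hQA : (0 : ℝ) < (Q : ℝ) ^ (99 * (g + D + 1)) := by positivity
  have hQb3 : (Q : ℝ) ^ (99 * (g + D + 1)) * b ^ 3 ≤ n := by
    calc (Q : ℝ) ^ (99 * (g + D + 1)) * b ^ 3 ≤ (Q : ℝ) ^ (99 * (g + D + 1)) * B :=
          mul_le_mul_of_nonneg_left hb34 hQA.le
      _ ≤ n := by rw [mul_comm]; exact hBQr
  have hden : (0 : ℝ) < (Q : ℝ) ^ (99 * (g + D + 1)) * b ^ 3 := by positivity
  -- `B ≤ N`
  have hQe : (Q : ℝ) ≤ e := by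
    have h : (Q : ℝ) ^ 3 ≤ e ^ 3 := by
      rw [he3]
      calc (Q : ℝ) ^ 3 ≤ (Q : ℝ) ^ (99 * (g + D + 1)) := pow_le_pow_right₀ hQ1 (by omega)
        _ ≤ B * (Q : ℝ) ^ (99 * (g + D + 1)) := le_mul_of_one_le_left hQA.le hB1
        _ ≤ n := hBQr
    exact (pow_le_pow_iff_left₀ hQpos.le he.le (by norm_num)).1 h
  have hNn : n ≤ (K.N : ℝ) := by
    rw [hne] at hQN
    have h : n * e ≤ K.N * e := by
      calc n * e ≤ Q * (K.N : ℝ) := hQN
        _ ≤ e * K.N := mul_le_mul_of_nonneg_right hQe (Nat.cast_nonneg _)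
        _ = K.N * e := by ring
    exact le_of_mul_le_mul_right h he
  have hBn : (B : ℝ) ≤ n := by
    refine le_trans ?_ hBQr
    exact le_mul_of_one_le_right (by positivity) (one_le_pow₀ hQ1)
  have hBN : B ≤ K.N := by exact_mod_cast hBn.trans hNn
  -- the cells
  have hcB := (h1 ι K B hBpos).1
  have hcG := (h1 ι K (B * Q ^ g) (Nat.mul_pos hBpos hG0)).1
  have hdiv : ∀ n, mc K (B * Q ^ g) n / Q ^ g = mc K B n := (h1 ι K B hBpos).2 (Q ^ g) hG0
  -- number of lines of a label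
  set La : ℕ := ⌊n / ((Q : ℝ) ^ (99 * (g + D + 1)) * b ^ 3)⌋₊ with hLadef
  have hLa1 : 1 ≤ La := by
    refine Nat.le_floor ?_
    rw [Nat.cast_one, le_div_iff₀ hden, one_mul]
    exact hQb3
  have hLaU : (La : ℝ) * ((Q : ℝ) ^ (99 * (g + D + 1)) * b ^ 3) ≤ n := by
    rw [← le_div_iff₀ hden]
    exact Nat.floor_le (by positivity)
  have hLaF : ∀ m ∈ F, ((F.filter (fun k => lb K (mc K (B * Q ^ g)) kk ll (K.a k) (mc K B k) =
      lb K (mc K (B * Q ^ g)) kk ll (K.a m) (mc K B m))).image K.a).card ≤ La := by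
    intro m hm
    have h := hlab m hm
    rw [hb3] at h
    refine Nat.le_floor ?_
    rw [le_div_iff₀ hden, mul_comm]
    exact h
  -- lower bound for the pairs
  have hlow := (hLow ι K hinj hgp B (mc K B) hB hBN hcB F (hF.trans hE) ((Q : ℝ) ^ (D + 1))
    (one_le_pow₀ hQ1) (by
      have e1 : (E.card : ℝ) ≤ Q * (F.card : ℝ) := by exact_mod_cast hcon.le
      have e2 : (K.N : ℝ) ≤ (Q : ℝ) ^ D * E.card := by exact_mod_cast hED
      calc (K.N : ℝ) ≤ (Q : ℝ) ^ D * E.card := e2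
        _ ≤ (Q : ℝ) ^ D * (Q * F.card) := mul_le_mul_of_nonneg_left e1 (by positivity)
        _ = (Q : ℝ) ^ (D + 1) * F.card := by rw [pow_succ]; ring) (by
      refine hQN.trans ?_
      refine mul_le_mul_of_nonneg_right ?_ (Nat.cast_nonneg _)
      calc (Q : ℝ) = (Q : ℝ) ^ 1 := (pow_one _).symm
        _ ≤ (Q : ℝ) ^ (D + 1) := pow_le_pow_right₀ hQ1 (by omega))).1 false
  -- the setting
  obtain ⟨S, ref, uu, hSF, hSc, hAnn⟩ := h4 ι K Q (Q ^ g) B (B * Q ^ g) (mc K B)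
    (mc K (B * Q ^ g)) hQnat hG0 hcB hcG hdiv E hE kk ll F hF
    (fun m hm => ⟨(hpd m hm).1, (hpd m hm).2.2.2⟩) La hLaF
  have hUB := h5 ι K Q (Q ^ g) B (B * Q ^ g) (mc K B) (mc K (B * Q ^ g)) kk ll ref uu S _ hinj
    hAnn La hLa1 (cntS K (mc K B) (mc K (B * Q ^ g)) kk ll F S La hSF hLaF) (C2 * n * b)
    (hUp ι K hinj hgp B (mc K B) hcB _ ((Finset.filter_subset _ _).trans hE)).1
    (hUp ι K hinj hgp B (mc K B) hcB _ ((Finset.filter_subset _ _).trans hE)).2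
  have hP : (im E (fun m => (mc K (B * Q ^ g) m, K.a m)) : ℝ) ≤
      C2 * n * (b * (Q : ℝ) ^ g) := by
    have h := (hUp ι K hinj hgp (B * Q ^ g) (mc K (B * Q ^ g)) hcG E hE).1 false
    refine le_trans h ?_
    refine mul_le_mul_of_nonneg_left ?_ (by positivity)
    push_cast
    rw [Real.mul_rpow (by positivity) (by positivity)]
    refine mul_le_mul_of_nonneg_left ?_ hb0.le
    have hQg1 : (1 : ℝ) ≤ (Q : ℝ) ^ g := one_le_pow₀ hQ1
    calc ((Q : ℝ) ^ g) ^ ((1 : ℝ) / 4) ≤ ((Q : ℝ) ^ g) ^ (1 : ℝ) :=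
          Real.rpow_le_rpow_of_exponent_le hQg1 (by norm_num)
      _ = (Q : ℝ) ^ g := Real.rpow_one _
  have hfib := fib K (c := mc K B) (cp := mc K (B * Q ^ g)) (G := Q ^ g) E S uu hdiv hQpos.le
    hreg hP (by
      intro w hw
      obtain ⟨m, hm, hmw⟩ := Finset.mem_image.1 (hSF hw)
      obtain ⟨hPD, hk, hl, _⟩ := hpd m hm
      rcases hAnn.uuc w hw with hu | hu
      · rw [← hmw] at hu ⊢
        exact ⟨kk (K.a m) (mc K B m), hk, hPD.ak, hPD.ck, hu.symm⟩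
      · rw [← hmw] at hu ⊢
        exact ⟨ll (K.a m) (mc K B m), hl, hPD.al, hPD.cl, hu.symm⟩)
  have hl0 : (0 : ℝ) ≤ (La : ℝ) ^ ((1 : ℝ) / 3) := by positivity
  have hl3 : ((La : ℝ) ^ ((1 : ℝ) / 3)) ^ 3 = (La : ℝ) := third (Nat.cast_nonneg _)
  refine core (n := n) (b := b) (e := e) (l := (La : ℝ) ^ ((1 : ℝ) / 3)) (Q := (Q : ℝ))
    (C1 := C1) (C2 := C2) (I := (im F (fun m => (mc K B m, K.a m)) : ℝ)) (S := (S.card : ℝ))
    (T := ((4 * B * (Q ^ g) ^ 2 * La : ℕ) : ℝ)) (Ec := (E.card : ℝ))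
    (Eg := ((E.filter (fun m => (K.a m, mc K B m) ∈ S ∧
      mc K (B * Q ^ g) m = uu (K.a m) (mc K B m))).card : ℝ)) (N := (K.N : ℝ)) g D hnpos hb he
    hl0 hQ1 hC1 hC2 (by linarith) (by linarith) (Nat.cast_nonneg _) (Nat.cast_nonneg _) ?_ ?_ ?_
    hfib ?_ ?_ ?_ ?_
  · refine le_trans hlow (le_of_eq ?_)
    rw [← pow_mul, mul_comm (D + 1) 9]
    rfl
  · exact_mod_cast hSc
  · push_cast
    rw [← hb4]
    calc 4 * b ^ 4 * ((Q : ℝ) ^ g) ^ 2 * (La : ℝ) * (Q : ℝ) ^ (99 * (g + D + 1))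
        = 4 * b * (Q : ℝ) ^ (2 * g) * ((La : ℝ) * ((Q : ℝ) ^ (99 * (g + D + 1)) * b ^ 3)) := by
          rw [mul_comm 2 g, pow_mul]; ring
      _ ≤ 4 * b * (Q : ℝ) ^ (2 * g) * n := mul_le_mul_of_nonneg_left hLaU (by positivity)
      _ = 4 * b * n * (Q : ℝ) ^ (2 * g) := by ring
  · exact_mod_cast hED
  · rw [← hne]; exact hQN
  · have h := hUB
    push_cast at h
    exact h
  · have h : ((La : ℝ) ^ ((1 : ℝ) / 3) * (Q : ℝ) ^ (33 * (g + D + 1)) * b) ^ 3 ≤ e ^ 3 := by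
      rw [mul_pow, mul_pow, hl3, he3, ← pow_mul]
      have : 33 * (g + D + 1) * 3 = 99 * (g + D + 1) := by ring
      rw [this, mul_assoc]
      exact hLaU
    exact (pow_le_pow_iff_left₀ (by positivity) he.le (by norm_num)).1 h

end Pool.Agent.Work.MP_e17eac_co.AS2

end

section

/-!
# Block AS2, item AnnG: existence of the setting of the annuli lemma
-/

namespace Pool.Agent.Work.MP_e17eac_co.AS2

open Finset
open Pool.Agent.Work.MP_e17eac_co.DH
open Pool.Agent.Work.MP_e17eac_co.MX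

namespace XAnnG

variable {ι : Type} [Fintype ι] [DecidableEq ι]

theorem t_le (K : KSys ι) {n k : ℕ} (h : n ≤ k) (hk : k < K.N) : K.t n ≤ K.t k := by
  rcases Nat.eq_or_lt_of_le h with h | h
  · rw [h]
  · exact (K.t_lt n k h hk).le

theorem ht_sub (K : KSys ι) (p q : ι) (s : ℝ) :
    K.ht p s - K.ht q s = (K.y p - K.y q) + (K.x p - K.x q) * s := by
  unfold KSys.ht; ring

/-- A minimiser in every fibre. -/
theorem exists_min {β : Type} [DecidableEq β] (F : Finset ℕ) (f : ℕ → β) (d : ℕ → ℝ) :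
    ∃ e : β → ℕ, ∀ n ∈ F, e (f n) ∈ F ∧ f (e (f n)) = f n ∧ d (e (f n)) ≤ d n := by
  classical
  have h : ∀ v : β, ∃ m : ℕ, v ∈ F.image f → (m ∈ F ∧ f m = v ∧ ∀ n ∈ F, f n = v → d m ≤ d n) := by
    intro v
    by_cases hv : v ∈ F.image f
    · have hne : (F.filter (fun n => f n = v)).Nonempty := by
        obtain ⟨n, hn, hnv⟩ := Finset.mem_image.1 hv
        exact ⟨n, Finset.mem_filter.2 ⟨hn, hnv⟩⟩
      obtain ⟨m, hm, hmin⟩ := Finset.exists_min_image _ d hne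
      rw [Finset.mem_filter] at hm
      exact ⟨m, fun _ => ⟨hm.1, hm.2, fun n hn hnv => hmin n (Finset.mem_filter.2 ⟨hn, hnv⟩)⟩⟩
    · exact ⟨0, fun h => absurd h hv⟩
  choose e he using h
  refine ⟨e, fun n hn => ?_⟩
  have h1 := he (f n) (Finset.mem_image_of_mem f hn)
  exact ⟨h1.1, h1.2.1, h1.2.2 n hn rfl⟩

/-- Dyadic sizes of numbers in `[r0, 2 r0)`. -/
theorem log_two {r0 r : ℝ} (h0 : 0 < r0) (h1 : r0 ≤ r) (h2 : r < 2 * r0) :
    Int.log 2 r0 ≤ Int.log 2 r ∧ Int.log 2 r ≤ Int.log 2 r0 + 1 := by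
  refine ⟨Int.log_mono_right h0 h1, ?_⟩
  have hr : 0 < r := lt_of_lt_of_le h0 h1
  have h3 : r0 < ((2 : ℕ) : ℝ) ^ (Int.log 2 r0 + 1) := Int.lt_zpow_succ_log_self (by norm_num) r0
  have h4 : r < ((2 : ℕ) : ℝ) ^ (Int.log 2 r0 + 2) := by
    have : ((2 : ℕ) : ℝ) ^ (Int.log 2 r0 + 2) = 2 * ((2 : ℕ) : ℝ) ^ (Int.log 2 r0 + 1) := by
      rw [show Int.log 2 r0 + 2 = (Int.log 2 r0 + 1) + 1 by ring, zpow_add_one₀ (by norm_num)]
      push_cast
      ring
    rw [this]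
    linarith
  have h5 := (Int.lt_zpow_iff_log_lt (by norm_num) hr).1 h4
  omega

end XAnnG

theorem I_AnnG (h0 : StGen) (h1 : StLoHi) : StAnnG := by
  classical
  intro ι _ _ K Q G M M' c cp hQ hG hc hcp hch E hE kk ll F hFE hF La hLa
  have hQ2 : (2 : ℝ) ≤ Q := by
    have : (2 : ℕ) ≤ Q := le_trans (by norm_num) hQ
    exact_mod_cast this
  -- minimisers
  obtain ⟨e, he⟩ := XAnnG.exists_min F (fun n => psi K cp kk ll (K.a n) (c n))
    (fun n => dl K cp kk ll (K.a n) (c n))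
  set ref : ι → ℕ → ι := fun p z => K.a (e (psi K cp kk ll p z)) with href
  set uu : ι → ℕ → ℕ := fun p z =>
    if (∀ s, K.t (j0 cp kk p z) ≤ s → s ≤ K.t (hi K cp (kk p z)) →
      max |(K.y p - K.y (ref p z)) + (K.x p - K.x (ref p z)) * K.t (j0 cp kk p z)|
        |(K.y p - K.y (ref p z)) + (K.x p - K.x (ref p z)) * K.t (j1 K cp ll p z)| ≤
      16 * Q * |(K.y p - K.y (ref p z)) + (K.x p - K.x (ref p z)) * s|)
    then cp (kk p z) else cp (ll p z) with huu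
  set Wf : Finset (ι × ℕ) := F.image (fun n => (K.a n, c n)) with hWf
  set S : Finset (ι × ℕ) := Wf.filter
    (fun w => 2 * dl K cp kk ll (ref w.1 w.2) w.2 ≤ dl K cp kk ll w.1 w.2) with hS
  -- facts on the elements of Wf
  have hWfact : ∀ w ∈ Wf, PD K c cp Q kk ll w.1 w.2 ∧ 0 < dl K cp kk ll w.1 w.2 ∧
      PD K c cp Q kk ll (ref w.1 w.2) w.2 ∧ 0 < dl K cp kk ll (ref w.1 w.2) w.2 ∧
      psi K cp kk ll (ref w.1 w.2) w.2 = psi K cp kk ll w.1 w.2 ∧
      dl K cp kk ll (ref w.1 w.2) w.2 ≤ dl K cp kk ll w.1 w.2 := by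
    intro w hw
    obtain ⟨n, hn, rfl⟩ := Finset.mem_image.1 hw
    obtain ⟨g1, g2, g3⟩ := he n hn
    have g4 : c (e (psi K cp kk ll (K.a n) (c n))) = c n := congrArg Prod.fst g2
    have g5 := hF n hn
    have g6 := hF _ g1
    rw [g4] at g6
    simp only [g4] at g2 g3
    exact ⟨g5.1, g5.2, g6.1, g6.2, g2, g3⟩
  refine ⟨S, ref, uu, Finset.filter_subset _ _, ?_, ?_⟩
  · -- counting
    have hsplit : Wf.card = S.card + (Wf.filter
        (fun w => ¬ 2 * dl K cp kk ll (ref w.1 w.2) w.2 ≤ dl K cp kk ll w.1 w.2)).card := by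
      rw [hS, Finset.card_filter_add_card_filter_not]
    set X : Finset (ι × ℕ) := Wf.filter
        (fun w => ¬ 2 * dl K cp kk ll (ref w.1 w.2) w.2 ≤ dl K cp kk ll w.1 w.2) with hX
    have him : im F (fun n => (c n, K.a n)) = Wf.card := by
      unfold im
      have : F.image (fun n => (c n, K.a n)) = Wf.image Prod.swap := by
        rw [hWf, Finset.image_image]
        rfl
      rw [this, Finset.card_image_of_injective _ Prod.swap_injective]
    have hfib : ∀ v ∈ X.image (fun w => lb K cp kk ll w.1 w.2),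
        (X.filter (fun w => lb K cp kk ll w.1 w.2 = v)).card ≤ La := by
      intro v hv
      obtain ⟨w, hw, rfl⟩ := Finset.mem_image.1 hv
      have hwW : w ∈ Wf := (Finset.mem_filter.1 hw).1
      obtain ⟨n, hn, hnw⟩ := Finset.mem_image.1 hwW
      refine le_trans ?_ (hLa n hn)
      refine Finset.card_le_card_of_injOn (fun w' => w'.1) ?_ ?_
      · intro w' hw'
        have h2 := Finset.mem_filter.1 (Finset.mem_coe.1 hw')
        obtain ⟨k, hk, hkw⟩ := Finset.mem_image.1 (Finset.mem_filter.1 h2.1).1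
        refine Finset.mem_coe.2 (Finset.mem_image.2 ⟨k, Finset.mem_filter.2 ⟨hk, ?_⟩, ?_⟩)
        · have e1 : lb K cp kk ll (K.a k) (c k) = lb K cp kk ll w'.1 w'.2 := by rw [← hkw]
          have e2 : lb K cp kk ll (K.a n) (c n) = lb K cp kk ll w.1 w.2 := by rw [← hnw]
          rw [e1, e2]
          exact h2.2
        · rw [← hkw]
      · intro w' hw' w'' hw'' h12
        have g1 := (Finset.mem_filter.1 (Finset.mem_coe.1 hw')).2
        have g2 := (Finset.mem_filter.1 (Finset.mem_coe.1 hw'')).2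
        have g3 : w'.2 = w''.2 := by
          have := g1.trans g2.symm
          exact congrArg (fun x => x.1.1) this
        exact Prod.ext h12 g3
    have hXc := Finset.card_le_mul_card_image X La hfib
    have hlab : (X.image (fun w => lb K cp kk ll w.1 w.2)).card ≤ 4 * M * G ^ 2 := by
      set i0 : (ℕ × ℕ × ℕ × Bool) → ℤ := fun v =>
        Int.log 2 (dl K cp kk ll (K.a (e v)) v.1) with hi0
      set φ : ((ℕ × ℕ × ℕ × Bool) × ℤ) → ℕ × ℕ × ℕ × Bool × ℕ := fun l =>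
        (l.1.1, l.1.2.1 % G, l.1.2.2.1 % G, l.1.2.2.2, (l.2 - i0 l.1).toNat) with hφ
      have hkey : ∀ l ∈ X.image (fun w => lb K cp kk ll w.1 w.2),
          l.1.1 < M ∧ l.1.2.1 / G = l.1.1 ∧ l.1.2.2.1 / G = l.1.1 ∧ i0 l.1 ≤ l.2 ∧
            l.2 ≤ i0 l.1 + 1 := by
        intro l hl
        obtain ⟨w, hw, rfl⟩ := Finset.mem_image.1 hl
        have hw2 := Finset.mem_filter.1 hw
        obtain ⟨f1, f2, f3, f4, f5, f6⟩ := hWfact w hw2.1
        refine ⟨?_, ?_, ?_, ?_⟩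
        · show w.2 < M
          rw [← f1.ck]
          exact hc.lt _ f1.kN
        · show cp (kk w.1 w.2) / G = w.2
          rw [hch, f1.ck]
        · show cp (ll w.1 w.2) / G = w.2
          rw [hch, f1.cl]
        · exact XAnnG.log_two f4 f6 (not_le.1 hw2.2)
      have hcard : (range M ×ˢ range G ×ˢ range G ×ˢ (univ : Finset Bool) ×ˢ range 2).card =
          4 * M * G ^ 2 := by
        simp only [Finset.card_product, Finset.card_range, Finset.card_univ, Fintype.card_bool]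
        ring
      rw [← hcard]
      refine Finset.card_le_card_of_injOn φ ?_ ?_
      · intro l hl
        obtain ⟨k1, k2, k3, k4, k5⟩ := hkey l (Finset.mem_coe.1 hl)
        refine Finset.mem_coe.2 ?_
        simp only [hφ, Finset.mem_product, Finset.mem_range, Finset.mem_univ, true_and]
        refine ⟨k1, Nat.mod_lt _ (by omega), Nat.mod_lt _ (by omega), ?_⟩
        omega
      · intro l hl l' hl' hll
        obtain ⟨k1, k2, k3, k4, k5⟩ := hkey l (Finset.mem_coe.1 hl)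
        obtain ⟨k1', k2', k3', k4', k5'⟩ := hkey l' (Finset.mem_coe.1 hl')
        simp only [hφ, Prod.mk.injEq] at hll
        obtain ⟨q1, q2, q3, q4, q5⟩ := hll
        have r1 : l.1.2.1 = l'.1.2.1 := by
          rw [← Nat.div_add_mod l.1.2.1 G, ← Nat.div_add_mod l'.1.2.1 G, k2, k2', q1, q2]
        have r2 : l.1.2.2.1 = l'.1.2.2.1 := by
          rw [← Nat.div_add_mod l.1.2.2.1 G, ← Nat.div_add_mod l'.1.2.2.1 G, k3, k3', q1, q3]
        have r3 : l.1 = l'.1 := Prod.ext q1 (Prod.ext r1 (Prod.ext r2 q4))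
        have r4 : l.2 = l'.2 := by
          rw [r3] at k4 k5 q5
          omega
        exact Prod.ext r3 r4
    rw [him, hsplit]
    have : X.card ≤ 4 * M * G ^ 2 * La := by
      calc X.card ≤ La * (X.image (fun w => lb K cp kk ll w.1 w.2)).card := hXc
        _ ≤ La * (4 * M * G ^ 2) := Nat.mul_le_mul_left _ hlab
        _ = 4 * M * G ^ 2 * La := by ring
    omega
  · -- the structure
    have hSW : ∀ w ∈ S, w ∈ Wf := fun w hw => (Finset.mem_filter.1 hw).1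
    refine
      { Qle := hQ
        Gle := hG
        hc := hc
        hcp := hcp
        chG := hch
        pd := fun w hw => (hWfact w (hSW w hw)).1
        pos := fun w hw => (hWfact w (hSW w hw)).2.1
        pdr := fun w hw => (hWfact w (hSW w hw)).2.2.1
        posr := fun w hw => (hWfact w (hSW w hw)).2.2.2.1
        psir := fun w hw => (hWfact w (hSW w hw)).2.2.2.2.1
        refc := ?_
        dlr := fun w hw => (Finset.mem_filter.1 hw).2
        uuc := ?_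
        gen := ?_
        sub := ?_
        eg := ?_ }
    · intro w hw w' hw' h
      simp only [href, h]
    · intro w hw
      simp only [huu]
      split_ifs
      · exact Or.inl rfl
      · exact Or.inr rfl
    · intro w hw m hm hmu s hs
      obtain ⟨f1, f2, f3, f4, f5, f6⟩ := hWfact w (hSW w hw)
      have hk := h1 ι K M' cp hcp (kk w.1 w.2) f1.kN
      have hl := h1 ι K M' cp hcp (ll w.1 w.2) f1.lN
      have hgap : hi K cp (kk w.1 w.2) < lo cp (ll w.1 w.2) := by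
        refine (hl.2.2.2.2.2.2.1 _ hk.2.2.1).1 ?_
        rw [hk.2.2.2.2.1]
        exact f1.lt
      have hlo : lo cp (ll w.1 w.2) < K.N := lt_of_le_of_lt hl.1 f1.lN
      have hgen := h0 (K.y w.1 - K.y (ref w.1 w.2)) (K.x w.1 - K.x (ref w.1 w.2))
        (K.t (j0 cp kk w.1 w.2)) (K.t (j1 K cp ll w.1 w.2)) (K.t (hi K cp (kk w.1 w.2)))
        (K.t (lo cp (ll w.1 w.2))) Q hQ2
        (XAnnG.t_le K (le_trans hk.1 hk.2.1) hk.2.2.1) (K.t_lt _ _ hgap hlo)
        (XAnnG.t_le K (le_trans hl.1 hl.2.1) hl.2.2.1) f1.good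
      have hmain : max |(K.y w.1 - K.y (ref w.1 w.2)) + (K.x w.1 - K.x (ref w.1 w.2)) *
            K.t (j0 cp kk w.1 w.2)|
          |(K.y w.1 - K.y (ref w.1 w.2)) + (K.x w.1 - K.x (ref w.1 w.2)) *
            K.t (j1 K cp ll w.1 w.2)| ≤
          16 * Q * |(K.y w.1 - K.y (ref w.1 w.2)) + (K.x w.1 - K.x (ref w.1 w.2)) * K.t m| := by
        by_cases hA : (∀ s, K.t (j0 cp kk w.1 w.2) ≤ s → s ≤ K.t (hi K cp (kk w.1 w.2)) →
          max |(K.y w.1 - K.y (ref w.1 w.2)) + (K.x w.1 - K.x (ref w.1 w.2)) *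
              K.t (j0 cp kk w.1 w.2)|
            |(K.y w.1 - K.y (ref w.1 w.2)) + (K.x w.1 - K.x (ref w.1 w.2)) *
              K.t (j1 K cp ll w.1 w.2)| ≤
          16 * Q * |(K.y w.1 - K.y (ref w.1 w.2)) + (K.x w.1 - K.x (ref w.1 w.2)) * s|)
        · have hmu' : cp m = cp (kk w.1 w.2) := by
            rw [hmu]
            simp only [huu]
            rw [if_pos hA]
          have hm2 := (hk.2.2.2.2.2.1 m hm).1 hmu'
          exact hA _ (XAnnG.t_le K hm2.1 hm) (XAnnG.t_le K hm2.2 hk.2.2.1)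
        · have hmu' : cp m = cp (ll w.1 w.2) := by
            rw [hmu]
            simp only [huu]
            rw [if_neg hA]
          have hm2 := (hl.2.2.2.2.2.1 m hm).1 hmu'
          rcases hgen with hgen | hgen
          · exact absurd hgen hA
          · exact hgen _ (XAnnG.t_le K hm2.1 hm) (XAnnG.t_le K hm2.2 hl.2.2.1)
      rw [XAnnG.ht_sub, XAnnG.ht_sub]
      refine le_trans ?_ hmain
      rcases hs with hs | hs
      · rw [hs]; exact le_max_left _ _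
      · rw [hs]; exact le_max_right _ _
    · intro m hm
      exact Finset.mem_range.1 (hE (Finset.mem_filter.1 hm).1)
    · intro m hm
      exact (Finset.mem_filter.1 hm).2

end Pool.Agent.Work.MP_e17eac_co.AS2

end

section

/-!
# Block AS2: the upper bound for the number of generic edges (`StAnnUB`)
-/

namespace Pool.Agent.Work.MP_e17eac_co.AS2

open Finset
open Pool.Agent.Work.MP_e17eac_co.DH
open Pool.Agent.Work.MP_e17eac_co.MX

namespace XAnnUB

/-- If every fibre of `f` has at most `R` values of `g`, then `(f, g)` has at most `R` times as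
many values as `f`. -/
theorem im_fib {α β : Type} [DecidableEq α] [DecidableEq β] (E : Finset ℕ) (f : ℕ → α)
    (g : ℕ → β) (R : ℕ)
    (h : ∀ n ∈ E, ((E.filter (fun m => f m = f n)).image g).card ≤ R) :
    im E (fun m => (f m, g m)) ≤ R * im E f := by
  unfold im
  refine card_le_mul_card_image_of_maps_to (f := Prod.fst) ?_ R ?_
  · intro v hv
    obtain ⟨m, hm, rfl⟩ := mem_image.mp hv
    exact mem_image_of_mem f hm
  · intro v hv
    obtain ⟨n, hn, rfl⟩ := mem_image.mp hv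
    refine le_trans ?_ (h n hn)
    have h1 : (E.image (fun m => (f m, g m))).filter (fun w => w.1 = f n) ⊆
        ((E.filter (fun m => f m = f n)).image g).image (fun u => (f n, u)) := by
      intro w hw
      rw [mem_filter] at hw
      obtain ⟨hw1, hw2⟩ := hw
      obtain ⟨m, hm, rfl⟩ := mem_image.mp hw1
      simp only at hw2
      refine mem_image.mpr ⟨g m, mem_image.mpr ⟨m, mem_filter.mpr ⟨hm, hw2⟩, rfl⟩, ?_⟩
      rw [hw2]
    exact le_trans (card_le_card h1) card_image_le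

/-- `f'` is a function of `f` on `E`, and `E ⊆ F`. -/
theorem im_fac {α β : Type} [DecidableEq α] [DecidableEq β] (E F : Finset ℕ) (hEF : E ⊆ F)
    (f : ℕ → α) (f' : ℕ → β) (h : ∀ m ∈ E, ∀ m' ∈ E, f m = f m' → f' m = f' m') :
    im E f' ≤ im F f := by
  unfold im
  refine le_trans ?_ (card_le_card (image_subset_image hEF))
  by_cases hE : E.Nonempty
  · obtain ⟨e0, he0⟩ := hE
    classical
    have h1 : E.image f' ⊆ (E.image f).image
        (fun v => if hv : ∃ m ∈ E, f m = v then f' hv.choose else f' e0) := by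
      intro w hw
      obtain ⟨m, hm, rfl⟩ := mem_image.mp hw
      refine mem_image.mpr ⟨f m, mem_image_of_mem f hm, ?_⟩
      have hv : ∃ m' ∈ E, f m' = f m := ⟨m, hm, rfl⟩
      simp only [dif_pos hv]
      exact h _ hv.choose_spec.1 _ hm hv.choose_spec.2
    exact le_trans (card_le_card h1) card_image_le
  · rw [not_nonempty_iff_eq_empty] at hE
    simp [hE]

variable {ι : Type} [Fintype ι] [DecidableEq ι]

/-- For a given cell there are at most `2 G ^ 2` values of `ps`. -/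
theorem im_ps {K : KSys ι} {Q G M M' : ℕ} {c cp : ℕ → ℕ} {kk ll : ι → ℕ → ℕ} {ref : ι → ℕ → ι}
    {uu : ι → ℕ → ℕ} {S : Finset (ι × ℕ)} {Eg : Finset ℕ}
    (H : AnnS K Q G M M' c cp kk ll ref uu S Eg) {γ : Type} [DecidableEq γ] (E : Finset ℕ)
    (hE : E ⊆ Eg) (f : ℕ → γ) :
    im E (fun m => (ps K c cp kk ll m, f m)) ≤ (2 * G ^ 2) * im E (fun m => (c m, f m)) := by
  have h1 : im E (fun m => ((c m, f m), (ps K c cp kk ll m).2)) ≤
      (2 * G ^ 2) * im E (fun m => (c m, f m)) := by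
    refine im_fib E (fun m => (c m, f m)) (fun m => (ps K c cp kk ll m).2) (2 * G ^ 2) ?_
    intro n hn
    have h2 : (E.filter (fun m => (c m, f m) = (c n, f n))).image
        (fun m => (ps K c cp kk ll m).2) ⊆
        (Ico (G * c n) (G * c n + G)) ×ˢ ((Ico (G * c n) (G * c n + G)) ×ˢ
          (univ : Finset Bool)) := by
      intro w hw
      obtain ⟨m, hm, rfl⟩ := mem_image.mp hw
      rw [mem_filter] at hm
      obtain ⟨hm1, hm2⟩ := hm
      have hcm : c m = c n := congrArg Prod.fst hm2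
      have hS := (H.eg m (hE hm1)).1
      have hP := H.pd _ hS
      have hG : 0 < G := H.Gle
      have key : ∀ e, c e = c m → cp e ∈ Ico (G * c n) (G * c n + G) := by
        intro e he
        have h3 := H.chG e
        rw [he, hcm] at h3
        rw [mem_Ico]
        have h4 : G * (cp e / G) + cp e % G = cp e := Nat.div_add_mod _ _
        have h5 : cp e % G < G := Nat.mod_lt _ hG
        rw [h3] at h4
        omega
      have h6 := hP.ck
      have h7 := hP.cl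
      simp only at h6 h7
      simp only [ps, psi, mem_product, mem_univ, and_true]
      exact ⟨key _ h6, key _ h7⟩
    refine le_trans (card_le_card h2) ?_
    rw [card_product, card_product, Nat.card_Ico, card_univ, Fintype.card_bool]
    have h8 : G * c n + G - G * c n = G := by omega
    rw [h8]
    apply le_of_eq
    ring
  refine le_trans (im_fac E E (Subset.refl _) _ _ ?_) h1
  intro m hm m' hm' e
  simp only [Prod.mk.injEq] at e ⊢
  obtain ⟨⟨e1, e2⟩, e3⟩ := e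
  refine ⟨?_, e2⟩
  refine Prod.ext ?_ e3
  simpa [ps, psi] using e1

end XAnnUB

open XAnnUB in
theorem I_AnnUB (h1 : StTokC) (h2 : StJmpC) (h3 : StNJ) (h4 : StLaC) (h5 : StDeyS) : StAnnUB := by
  classical
  intro ι _ _ K Q G M M' c cp kk ll ref uu S Eg hx H La hLa hS W hW1 hW2
  have hW0 : 0 ≤ W := le_trans (Nat.cast_nonneg _) (hW1 true)
  have hQ : (1 : ℝ) ≤ Q := by
    have := H.Qle
    have h : 1 ≤ Q := le_trans (by norm_num) this
    exact_mod_cast h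
  have hG : (1 : ℝ) ≤ G := by exact_mod_cast H.Gle
  have hL : (1 : ℝ) ≤ La := by exact_mod_cast hLa
  -- tokens
  have hB : ∀ r : Bool, ∀ E ⊆ Eg,
      (im E (fun m => ((ps K c cp kk ll m, ii K c cp kk ll ref m), K.tok r m)) : ℝ) ≤
        2 * (Q : ℝ) ^ 3 * (G : ℝ) ^ 2 * W := by
    intro r E hE
    have a1 : im Eg (fun m => ((ps K c cp kk ll m, K.tok r m), ii K c cp kk ll ref m)) ≤
        Q ^ 3 * im Eg (fun m => (ps K c cp kk ll m, K.tok r m)) := by
      refine im_fib Eg (fun m => (ps K c cp kk ll m, K.tok r m))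
        (ii K c cp kk ll ref) (Q ^ 3) ?_
      intro n hn
      have := h1 ι K Q G M M' c cp kk ll ref uu S Eg H r n hn
      simpa only [Prod.mk.injEq] using this
    have a2 := im_ps H Eg (Subset.refl _) (K.tok r)
    have a3 : im E (fun m => ((ps K c cp kk ll m, ii K c cp kk ll ref m), K.tok r m)) ≤
        im Eg (fun m => ((ps K c cp kk ll m, K.tok r m), ii K c cp kk ll ref m)) := by
      refine im_fac E Eg hE _ _ ?_
      intro m _ m' _ e
      simp only [Prod.mk.injEq] at e ⊢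
      exact ⟨⟨e.1.1, e.2⟩, e.1.2⟩
    have a4 : im E (fun m => ((ps K c cp kk ll m, ii K c cp kk ll ref m), K.tok r m)) ≤
        Q ^ 3 * ((2 * G ^ 2) * im Eg (fun m => (c m, K.tok r m))) :=
      le_trans a3 (le_trans a1 (Nat.mul_le_mul_left _ a2))
    have a5 : (im E (fun m => ((ps K c cp kk ll m, ii K c cp kk ll ref m), K.tok r m)) : ℝ) ≤
        (Q : ℝ) ^ 3 * ((2 * (G : ℝ) ^ 2) * (im Eg (fun m => (c m, K.tok r m)) : ℝ)) := by
      exact_mod_cast a4
    have a6 : (Q : ℝ) ^ 3 * ((2 * (G : ℝ) ^ 2) * (im Eg (fun m => (c m, K.tok r m)) : ℝ)) ≤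
        (Q : ℝ) ^ 3 * ((2 * (G : ℝ) ^ 2) * W) := by
      have := hW2 r
      gcongr
    calc _ ≤ _ := a5
      _ ≤ _ := a6
      _ = _ := by ring
  -- jumps
  have hJ : ((Eg.filter (fun m => Jmp K c cp kk ll ref m)).card : ℝ) ≤
      2 * (Q : ℝ) ^ 3 * (G : ℝ) ^ 2 * W := by
    have b1 := h2 ι K Q G M M' c cp kk ll ref uu S Eg H
    have b2 := hB false Eg (Subset.refl _)
    refine le_trans ?_ b2
    exact_mod_cast b1
  -- the other edges
  obtain ⟨E', hE'⟩ : ∃ E', E' = Eg.filter (fun m => ¬ Jmp K c cp kk ll ref m) := ⟨_, rfl⟩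
  have hsub : E' ⊆ Eg := by rw [hE']; exact filter_subset _ _
  have hcard : (Eg.card : ℝ) = ((Eg.filter (fun m => Jmp K c cp kk ll ref m)).card : ℝ) +
      (E'.card : ℝ) := by
    rw [hE']
    have := card_filter_add_card_filter_not (s := Eg) (fun m => Jmp K c cp kk ll ref m)
    exact_mod_cast this.symm
  have hDb : (im E' (fun m => ((ps K c cp kk ll m, ii K c cp kk ll ref m), K.b m)) : ℝ) ≤
      2 * (Q : ℝ) * (G : ℝ) ^ 2 * W := by
    have a1 : im E' (fun m => ((ps K c cp kk ll m, K.b m), ii K c cp kk ll ref m)) ≤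
        Q * im E' (fun m => (ps K c cp kk ll m, K.b m)) := by
      refine im_fib E' (fun m => (ps K c cp kk ll m, K.b m))
        (ii K c cp kk ll ref) Q ?_
      intro n hn
      have := h3 ι K Q G M M' c cp kk ll ref uu S Eg H n (hsub hn)
      refine le_trans (card_le_card (image_subset_image ?_)) this
      intro m hm
      rw [mem_filter, hE', mem_filter, Prod.mk.injEq] at hm
      rw [mem_filter]
      exact ⟨hm.1.1, hm.1.2, hm.2.1, hm.2.2⟩
    have a2 := im_ps H E' hsub K.b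
    have a7 : im E' (fun m => (c m, K.b m)) ≤ im Eg (fun m => (c m, K.ln true m)) :=
      im_fac E' Eg hsub _ _ (fun m _ m' _ e => e)
    have a3 : im E' (fun m => ((ps K c cp kk ll m, ii K c cp kk ll ref m), K.b m)) ≤
        im E' (fun m => ((ps K c cp kk ll m, K.b m), ii K c cp kk ll ref m)) := by
      refine im_fac E' E' (Subset.refl _) _ _ ?_
      intro m _ m' _ e
      simp only [Prod.mk.injEq] at e ⊢
      exact ⟨⟨e.1.1, e.2⟩, e.1.2⟩
    have a4 : im E' (fun m => ((ps K c cp kk ll m, ii K c cp kk ll ref m), K.b m)) ≤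
        Q * ((2 * G ^ 2) * im Eg (fun m => (c m, K.ln true m))) :=
      le_trans a3 (le_trans a1 (Nat.mul_le_mul_left _ (le_trans a2 (Nat.mul_le_mul_left _ a7))))
    have a5 : (im E' (fun m => ((ps K c cp kk ll m, ii K c cp kk ll ref m), K.b m)) : ℝ) ≤
        (Q : ℝ) * ((2 * (G : ℝ) ^ 2) * (im Eg (fun m => (c m, K.ln true m)) : ℝ)) := by
      exact_mod_cast a4
    have a6 : (Q : ℝ) * ((2 * (G : ℝ) ^ 2) * (im Eg (fun m => (c m, K.ln true m)) : ℝ)) ≤
        (Q : ℝ) * ((2 * (G : ℝ) ^ 2) * W) := by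
      have := hW1 true
      gcongr
    calc _ ≤ _ := a5
      _ ≤ _ := a6
      _ = _ := by ring
  have hDa : (im E' (fun m => ((ps K c cp kk ll m, ii K c cp kk ll ref m), K.a m)) : ℝ) ≤ W := by
    refine le_trans ?_ (hW1 false)
    have : im E' (fun m => ((ps K c cp kk ll m, ii K c cp kk ll ref m), K.a m)) ≤
        im Eg (fun m => (c m, K.ln false m)) := by
      refine im_fac E' Eg hsub _ _ ?_
      intro m _ m' _ e
      have e1 : c m = c m' := congrArg Prod.fst e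
      have e2 : K.a m = K.a m' := congrArg Prod.snd e
      simp only [ps, ii, e1, e2]
    exact_mod_cast this
  have hLc : ∀ n ∈ E', ((E'.filter (fun m =>
      (fun m => (ps K c cp kk ll m, ii K c cp kk ll ref m)) m =
      (fun m => (ps K c cp kk ll m, ii K c cp kk ll ref m)) n)).image K.a).card ≤ Q * La := by
    intro n hn
    have := h4 ι K Q G M M' c cp kk ll ref uu S Eg H La hS n (hsub hn)
    refine le_trans (card_le_card (image_subset_image ?_)) this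
    intro m hm
    rw [mem_filter, Prod.mk.injEq] at hm
    rw [mem_filter]
    exact ⟨hsub hm.1, hm.2.1, hm.2.2⟩
  have hD := h5 ι K hx E' (fun n hn => mem_range.mpr (H.sub n (hsub hn))) _
    (fun m => (ps K c cp kk ll m, ii K c cp kk ll ref m)) (Q * La) hLc
  have hTB := hB false E' hsub
  have hTT := hB true E' hsub
  simp only [KSys.tok] at hTB hTT
  obtain ⟨xa, hxa⟩ : ∃ xa : ℝ, xa =
    (im E' (fun m => ((ps K c cp kk ll m, ii K c cp kk ll ref m), K.a m)) : ℝ) := ⟨_, rfl⟩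
  obtain ⟨xb, hxb⟩ : ∃ xb : ℝ, xb =
    (im E' (fun m => ((ps K c cp kk ll m, ii K c cp kk ll ref m), K.b m)) : ℝ) := ⟨_, rfl⟩
  obtain ⟨xB, hxB⟩ : ∃ xB : ℝ, xB =
    (im E' (fun m => ((ps K c cp kk ll m, ii K c cp kk ll ref m), K.tokB m)) : ℝ) := ⟨_, rfl⟩
  obtain ⟨xT, hxT⟩ : ∃ xT : ℝ, xT =
    (im E' (fun m => ((ps K c cp kk ll m, ii K c cp kk ll ref m), K.tokT m)) : ℝ) := ⟨_, rfl⟩
  have nb : 0 ≤ xb := by rw [hxb]; exact Nat.cast_nonneg _
  have nB : 0 ≤ xB := by rw [hxB]; exact Nat.cast_nonneg _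
  have nT : 0 ≤ xT := by rw [hxT]; exact Nat.cast_nonneg _
  rw [← hxa] at hDa
  rw [← hxb] at hDb
  rw [← hxB] at hTB
  rw [← hxT] at hTT
  rw [← hxa, ← hxb, ← hxB, ← hxT] at hD
  obtain ⟨q, hq⟩ : ∃ q : ℝ, q = (Q : ℝ) := ⟨_, rfl⟩
  obtain ⟨g, hg⟩ : ∃ g : ℝ, g = (G : ℝ) := ⟨_, rfl⟩
  obtain ⟨l, hl⟩ : ∃ l : ℝ, l = (La : ℝ) := ⟨_, rfl⟩
  push_cast at hD
  rw [← hq, ← hl] at hD
  rw [← hq, ← hg] at hJ hDb hTB hTT
  rw [← hq] at hQ
  rw [← hg] at hG
  rw [← hl] at hL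
  rw [← hq, ← hg, ← hl, hcard]
  have q0 : 0 ≤ q := by linarith
  have g0 : 0 ≤ g := by linarith
  have l0 : 0 ≤ l := by linarith
  have c1 : q * l * (xb * xB * xT) ≤ (2 * q ^ 3 * g ^ 2 * W) ^ 3 * l := by
    calc q * l * (xb * xB * xT)
        ≤ q * l * ((2 * q * g ^ 2 * W) * (2 * q ^ 3 * g ^ 2 * W) * (2 * q ^ 3 * g ^ 2 * W)) := by
          gcongr
      _ = 8 * q ^ 8 * g ^ 6 * W ^ 3 * l := by ring
      _ ≤ 8 * q ^ 9 * g ^ 6 * W ^ 3 * l := by
          have : q ^ 8 ≤ q ^ 9 := pow_le_pow_right₀ hQ (by norm_num)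
          gcongr
      _ = (2 * q ^ 3 * g ^ 2 * W) ^ 3 * l := by ring
  have c2 : (q * l * (xb * xB * xT)) ^ ((1 : ℝ) / 3) ≤
      2 * q ^ 3 * g ^ 2 * W * l ^ ((1 : ℝ) / 3) := by
    have d1 : (q * l * (xb * xB * xT)) ^ ((1 : ℝ) / 3) ≤
        ((2 * q ^ 3 * g ^ 2 * W) ^ 3 * l) ^ ((1 : ℝ) / 3) :=
      Real.rpow_le_rpow (by positivity) c1 (by norm_num)
    refine le_trans d1 (le_of_eq ?_)
    rw [Real.mul_rpow (by positivity) l0]
    congr 1
    rw [← Real.rpow_natCast, ← Real.rpow_mul (by positivity)]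
    norm_num
  have l1 : (1 : ℝ) ≤ l ^ ((1 : ℝ) / 3) := Real.one_le_rpow hL (by norm_num)
  have g1 : (1 : ℝ) ≤ g ^ 2 := one_le_pow₀ hG
  have q3 : q ^ 3 ≤ q ^ 4 := pow_le_pow_right₀ hQ (by norm_num)
  have q1 : q ≤ q ^ 4 := by simpa using pow_le_pow_right₀ hQ (show 1 ≤ 4 by norm_num)
  have q2 : (1 : ℝ) ≤ q ^ 4 := one_le_pow₀ hQ
  obtain ⟨X, hX⟩ : ∃ X : ℝ, X = q ^ 4 * g ^ 2 * W * l ^ ((1 : ℝ) / 3) := ⟨_, rfl⟩
  have e1 : q ^ 3 * g ^ 2 * W ≤ X := by
    rw [hX]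
    calc q ^ 3 * g ^ 2 * W = q ^ 3 * g ^ 2 * W * 1 := by ring
      _ ≤ q ^ 4 * g ^ 2 * W * l ^ ((1 : ℝ) / 3) := by gcongr
  have e2 : q * g ^ 2 * W ≤ X := by
    rw [hX]
    calc q * g ^ 2 * W = q * g ^ 2 * W * 1 := by ring
      _ ≤ q ^ 4 * g ^ 2 * W * l ^ ((1 : ℝ) / 3) := by gcongr
  have e3 : W ≤ X := by
    rw [hX]
    calc W = 1 * 1 * W * 1 := by ring
      _ ≤ q ^ 4 * g ^ 2 * W * l ^ ((1 : ℝ) / 3) := by gcongr
  have e4 : q ^ 3 * g ^ 2 * W * l ^ ((1 : ℝ) / 3) ≤ X := by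
    rw [hX]
    gcongr
  have e5 : 200 * q ^ 4 * g ^ 2 * W * l ^ ((1 : ℝ) / 3) = 200 * X := by rw [hX]; ring
  rw [e5]
  have X0 : 0 ≤ X := le_trans hW0 e3
  linarith

end Pool.Agent.Work.MP_e17eac_co.AS2

end

section

/-!
# Arbitrary sets, block AS2, item Clo: closure
-/

namespace Pool.Agent.Work.MP_e17eac_co.AS2

open Finset
open Pool.Agent.Work.MP_e17eac_co.DH
open Pool.Agent.Work.MP_e17eac_co.MX

namespace XClo

variable {ι : Type} [Fintype ι] [DecidableEq ι]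

/-- A line which leaves the bottom set. -/
theorem leave (K : KSys ι) (q : ι) (u : ℕ) : ∀ v, u ≤ v → v ≤ K.N → q ∈ K.S u → q ∉ K.S v →
    ∃ n, u ≤ n ∧ n < v ∧ K.a n = q := by
  intro v
  induction v with
  | zero =>
    intro huv _ h1 h2
    have : u = 0 := by omega
    exact absurd (this ▸ h1) h2
  | succ v ih =>
    intro huv hv h1 h2
    rcases Nat.lt_or_ge v u with h | h
    · have : u = v + 1 := by omega
      exact absurd (this ▸ h1) h2
    · by_cases h3 : q ∈ K.S v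
      · rw [K.S_succ v (by omega)] at h2
        refine ⟨v, h, by omega, ?_⟩
        by_contra h4
        exact h2 (mem_insert_of_mem (mem_erase.2 ⟨fun h5 => h4 h5.symm, h3⟩))
      · obtain ⟨n, h4, h5, h6⟩ := ih h (by omega) h1 h3
        exact ⟨n, h4, by omega, h6⟩

/-- A line which enters the bottom set. -/
theorem enter (K : KSys ι) (q : ι) (u : ℕ) : ∀ v, u ≤ v → v ≤ K.N → q ∉ K.S u → q ∈ K.S v →
    ∃ n, u ≤ n ∧ n < v ∧ K.b n = q := by
  intro v
  induction v with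
  | zero =>
    intro huv _ h1 h2
    have : u = 0 := by omega
    exact absurd h2 (this ▸ h1)
  | succ v ih =>
    intro huv hv h1 h2
    rcases Nat.lt_or_ge v u with h | h
    · have : u = v + 1 := by omega
      exact absurd h2 (this ▸ h1)
    · by_cases h3 : q ∈ K.S v
      · obtain ⟨n, h4, h5, h6⟩ := ih h (by omega) h1 h3
        exact ⟨n, h4, by omega, h6⟩
      · rw [K.S_succ v (by omega), mem_insert] at h2
        refine ⟨v, h, by omega, ?_⟩
        rcases h2 with h4 | h4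
        · exact h4.symm
        · exact absurd (mem_of_mem_erase h4) h3

/-- An affine function which is small at both ends is small between. -/
theorem aff (α β s0 s1 s d : ℝ) (h0 : s0 ≤ s) (h1 : s ≤ s1) (ha : |α + β * s0| < d)
    (hb : |α + β * s1| < d) : |α + β * s| < d := by
  rw [abs_lt] at ha hb ⊢
  rcases le_total 0 β with h | h
  · have h2 := mul_le_mul_of_nonneg_left h0 h
    have h3 := mul_le_mul_of_nonneg_left h1 h
    exact ⟨by linarith, by linarith⟩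
  · have h2 := mul_le_mul_of_nonpos_left h0 h
    have h3 := mul_le_mul_of_nonpos_left h1 h
    exact ⟨by linarith, by linarith⟩

theorem t_le (K : KSys ι) {n k : ℕ} (h : n ≤ k) (hk : k < K.N) : K.t n ≤ K.t k := by
  rcases Nat.lt_or_ge n k with h1 | h1
  · exact (K.t_lt n k h1 hk).le
  · have : n = k := by omega
    rw [this]

end XClo

open XClo in
theorem I_Clo (h0 : StUD) (h1 : StLeq) : StClo := by
  intro ι _ _ K p q i0 i1 h01 hN hA hB
  obtain ⟨-, ⟨jp, hp1, hp2, hup⟩, -, ⟨jm, hm1, hm2, hdn⟩⟩ := h0 ι K p i0 i1 h01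
  have hclose : ∀ j, i0 ≤ j → j ≤ i1 → |K.ht q (K.t j) - K.ht p (K.t j)| < del K p i0 i1 := by
    intro j hj1 hj2
    have e : ∀ s : ℝ, K.ht q s - K.ht p s = (K.y q - K.y p) + (K.x q - K.x p) * s := by
      intro s
      unfold KSys.ht
      ring
    rw [e] at hA hB ⊢
    exact aff _ _ _ _ _ _ (t_le K hj1 (by omega)) (t_le K hj2 hN) hA hB
  have hdu : del K p i0 i1 ≤ up K p i0 i1 := min_le_left _ _
  have hdd : del K p i0 i1 ≤ dn K p i0 i1 := min_le_right _ _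
  obtain ⟨hLp, -, -, hVp, hVp'⟩ := h1 ι K jp (by omega)
  obtain ⟨hLm, -, -, hVm, hVm'⟩ := h1 ι K jm (by omega)
  have hcp := hclose jp hp1 hp2
  have hcm := hclose jm hm1 hm2
  rw [abs_lt] at hcp hcm
  have hqp : K.ht q (K.t jp) < K.L (K.t jp) := by
    rw [hLp]
    linarith
  have hqm : K.L (K.t jm) < K.ht q (K.t jm) := by
    rw [hLm]
    linarith
  have hSp : ∀ n, K.Valid n (K.t jp) → q ∈ K.S n := by
    intro n hn
    by_contra h
    have := K.above n hn.1 _ hn.2.1 hn.2.2 q h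
    unfold KSys.ht at hqp
    linarith
  have hSm : ∀ n, K.Valid n (K.t jm) → q ∉ K.S n := by
    intro n hn h
    have := K.below n hn.1 _ hn.2.1 hn.2.2 q h
    unfold KSys.ht at hqm
    linarith
  unfold vi KSys.lines
  rw [mem_union, mem_image, mem_image]
  rcases lt_trichotomy jp jm with h | h | h
  · obtain ⟨n, h2, h3, h4⟩ := leave K q (jp + 1) jm h (by omega) (hSp _ hVp') (hSm _ hVm)
    exact Or.inl ⟨n, mem_Ico.2 ⟨by omega, by omega⟩, h4⟩
  · subst h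
    exact absurd (hSp _ hVp) (hSm _ hVm)
  · obtain ⟨n, h2, h3, h4⟩ := enter K q (jm + 1) jp h (by omega) (hSm _ hVm') (hSp _ hVp)
    exact Or.inr ⟨n, mem_Ico.2 ⟨by omega, by omega⟩, h4⟩

end Pool.Agent.Work.MP_e17eac_co.AS2

end

section

/-!
# Arbitrary sets, block AS2, item Long: few edges have long hulls
-/

set_option autoImplicit false

namespace Pool.Agent.Work.MP_e17eac_co.AS2

open Finset
open Pool.Agent.Work.MP_e17eac_co.DH
open Pool.Agent.Work.MP_e17eac_co.MX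

namespace XLong

/-- Sum of the lengths of disjoint intervals. -/
theorem sum_len (A B : ℕ → ℝ) (s : ℝ) (Z : Finset ℕ) : (∀ z ∈ Z, s ≤ A z) →
    (∀ z ∈ Z, ∀ z' ∈ Z, z < z' → B z ≤ A z') → ∀ u : ℝ, (∀ z ∈ Z, B z ≤ u) → s ≤ u →
    ∑ z ∈ Z, (B z - A z) ≤ u - s := by
  classical
  refine Finset.induction_on_max Z ?_ ?_
  · intro _ _ u _ hu
    rw [sum_empty]
    linarith
  · intro a Z ha ih h1 h2 u h3 hu
    have haZ : a ∉ Z := fun h => lt_irrefl _ (ha a h)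
    rw [sum_insert haZ]
    have e1 := ih (fun z hz => h1 z (mem_insert_of_mem hz))
      (fun z hz z' hz' => h2 z (mem_insert_of_mem hz) z' (mem_insert_of_mem hz')) (A a)
      (fun z hz => h2 z (mem_insert_of_mem hz) a (mem_insert_self _ _) (ha z hz))
      (h1 a (mem_insert_self _ _))
    have e2 := h3 a (mem_insert_self _ _)
    linarith

theorem main (hlh : StLoHi) (ι : Type) [Fintype ι] [DecidableEq ι] (K : KSys ι) (c : ℕ → ℕ)
    (M r : ℕ) (s s' lam : ℝ) (h0 h1 : ℕ → ℝ) (hc : IsCells K M c) (hM1 : 1 ≤ M) (hMN : M ≤ K.N)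
    (hlam : s' - s ≤ lam) (F : Finset ℕ) (hF : F ⊆ range K.N)
    (hh : ∀ n ∈ F, K.t (lo c n) ≤ h0 n ∧ h0 n ≤ h1 n ∧ h1 n ≤ K.t (hi K c n) ∧ s ≤ h0 n ∧
      h1 n ≤ s')
    (hlong : ∀ n ∈ F, (r : ℝ) * lam < M * (h1 n - h0 n)) :
    r * F.card ≤ 3 * K.N := by
  classical
  rcases F.eq_empty_or_nonempty with hE | hne
  · rw [hE]
    simp
  obtain ⟨n1, hn1⟩ := hne
  have hss : s ≤ s' := by
    obtain ⟨_, e2, _, e4, e5⟩ := hh n1 hn1
    linarith
  have hlam0 : 0 ≤ lam := by linarith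
  set Z := F.image c with hZ
  have hch : ∀ z : ℕ, ∃ n : ℕ, z ∈ Z → n ∈ F ∧ c n = z := by
    intro z
    by_cases hz : z ∈ Z
    · obtain ⟨n, hn, hnz⟩ := mem_image.1 hz
      exact ⟨n, fun _ => ⟨hn, hnz⟩⟩
    · exact ⟨0, fun h => absurd h hz⟩
  choose nz hnz using hch
  have hord : ∀ z ∈ Z, ∀ z' ∈ Z, z < z' → h1 (nz z) ≤ h0 (nz z') := by
    intro z hz z' hz' hlt
    obtain ⟨hn, hcn⟩ := hnz z hz
    obtain ⟨hn', hcn'⟩ := hnz z' hz'
    have hN := mem_range.1 (hF hn)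
    have hN' := mem_range.1 (hF hn')
    obtain ⟨a1, a2, a3, a4, a5, a6, a7, a8, a9⟩ := hlh ι K M c hc (nz z) hN
    obtain ⟨b1, b2, b3, b4, b5, b6, b7, b8, b9⟩ := hlh ι K M c hc (nz z') hN'
    have hlo : lo c (nz z') < K.N := lt_of_le_of_lt b1 hN'
    have e1 : hi K c (nz z) < lo c (nz z') := by
      refine (a8 _ hlo).1 ?_
      rw [b4, hcn, hcn']
      exact hlt
    have e2 := K.t_lt _ _ e1 hlo
    have e3 := (hh _ hn).2.2.1
    have e4 := (hh _ hn').1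
    linarith
  have hsum : ∑ z ∈ Z, (h1 (nz z) - h0 (nz z)) ≤ s' - s :=
    sum_len (fun z => h0 (nz z)) (fun z => h1 (nz z)) s Z
      (fun z hz => (hh _ (hnz z hz).1).2.2.2.1) hord s'
      (fun z hz => (hh _ (hnz z hz).1).2.2.2.2) hss
  have hZne : Z.Nonempty := ⟨c n1, mem_image_of_mem c hn1⟩
  have hlow : (Z.card : ℝ) * (r * lam) < M * lam := by
    calc (Z.card : ℝ) * (r * lam) = ∑ _z ∈ Z, (r : ℝ) * lam := by
          rw [sum_const, nsmul_eq_mul]
      _ < ∑ z ∈ Z, (M : ℝ) * (h1 (nz z) - h0 (nz z)) :=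
          sum_lt_sum_of_nonempty hZne fun z hz => hlong _ (hnz z hz).1
      _ = M * ∑ z ∈ Z, (h1 (nz z) - h0 (nz z)) := by rw [mul_sum]
      _ ≤ M * (s' - s) := mul_le_mul_of_nonneg_left hsum (Nat.cast_nonneg _)
      _ ≤ M * lam := mul_le_mul_of_nonneg_left hlam (Nat.cast_nonneg _)
  have hZr : Z.card * r < M := by
    by_contra hcon
    push Not at hcon
    have e1 : (M : ℝ) ≤ Z.card * r := by exact_mod_cast hcon
    have e2 := mul_le_mul_of_nonneg_right e1 hlam0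
    nlinarith
  have hcard : F.card * M ≤ Z.card * (3 * K.N) := by
    rw [card_eq_sum_card_image c F, sum_mul, ← hZ, ← smul_eq_mul (Z.card), ← sum_const]
    refine sum_le_sum fun z _ => ?_
    have e1 : (F.filter (fun n => c n = z)).card ≤
        ((range K.N).filter (fun n => c n = z)).card :=
      card_le_card (filter_subset_filter _ hF)
    have e2 := hc.size z
    have e3 := Nat.mul_le_mul_right M e1
    omega
  have hfin : (r * F.card) * M ≤ (3 * K.N) * M := by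
    calc (r * F.card) * M = r * (F.card * M) := by ring
      _ ≤ r * (Z.card * (3 * K.N)) := Nat.mul_le_mul_left _ hcard
      _ = (Z.card * r) * (3 * K.N) := by ring
      _ ≤ M * (3 * K.N) := Nat.mul_le_mul_right _ hZr.le
      _ = (3 * K.N) * M := by ring
  exact Nat.le_of_mul_le_mul_right hfin (by omega)

end XLong

theorem I_Long (h1 : StLoHi) : StLong := by
  classical
  intro ι _ _ K c M r s s' lam h0 h1' hc hM hMN _ hlam E hE hh
  have h := XLong.main h1 ι K c M r s s' lam h0 h1' hc hM hMN hlam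
    (E.filter (fun n => (r : ℝ) * lam < M * (h1' n - h0 n))) ((filter_subset _ _).trans hE)
    (fun n hn => hh n (mem_filter.1 hn).1) (fun n hn => (mem_filter.1 hn).2)
  convert h using 3

end Pool.Agent.Work.MP_e17eac_co.AS2

end

section

/-!
# Popular lines
-/

set_option autoImplicit false

namespace Pool.Agent.Work.MP_e17eac_co.AS2

open Finset
open Pool.Agent.Work.MP_e17eac_co.DH
open Pool.Agent.Work.MP_e17eac_co.DH.XSWEEP (GP)
open Pool.Agent.Work.MP_e17eac_co.MX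

namespace XPop

lemma exN (η : ℝ) (hη : 0 < η) (C : ℝ) : ∃ n0 : ℕ, 1 ≤ n0 ∧ ∀ n : ℕ, n0 ≤ n → C ≤ (n : ℝ) ^ η := by
  have h1 := ((tendsto_rpow_atTop hη).comp
    (tendsto_natCast_atTop_atTop (R := ℝ))).eventually (Filter.eventually_ge_atTop C)
  obtain ⟨a, ha⟩ := Filter.eventually_atTop.1 h1
  exact ⟨max a 1, le_max_right _ _, fun n hn => ha n (le_trans (le_max_left _ _) hn)⟩

/-- Lines with few edges have few edges together. -/
lemma few {ι : Type} [Fintype ι] [DecidableEq ι] (K : KSys ι) (E : Finset ℕ) (Z : ℕ)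
    (P : Finset ι) (hn : 0 < Fintype.card ι)
    (hP : ∀ p, p ∉ P → Z * (Fintype.card ι * (E.filter (fun n => K.a n = p)).card) ≤ K.N) :
    Z * (E.filter (fun n => ¬ K.a n ∈ P)).card ≤ K.N := by
  classical
  have h1 : (E.filter (fun n => ¬ K.a n ∈ P)).card =
      ∑ p ∈ univ.filter (fun p => ¬ p ∈ P), (E.filter (fun n => K.a n = p)).card := by
    rw [card_eq_sum_card_fiberwise (f := K.a) (t := univ.filter (fun p => ¬ p ∈ P))]
    · refine sum_congr rfl fun p hp => ?_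
      congr 1
      ext n
      simp only [mem_filter, mem_univ, true_and] at hp ⊢
      constructor
      · rintro ⟨⟨h2, _⟩, h4⟩
        exact ⟨h2, h4⟩
      · rintro ⟨h2, h4⟩
        exact ⟨⟨h2, by rw [h4]; exact hp⟩, h4⟩
    · intro n hn
      simpa using (mem_filter.1 hn).2
  have h2 : ∑ p ∈ univ.filter (fun p => ¬ p ∈ P),
      Z * (Fintype.card ι * (E.filter (fun n => K.a n = p)).card) ≤ Fintype.card ι * K.N := by
    calc ∑ p ∈ univ.filter (fun p => ¬ p ∈ P),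
          Z * (Fintype.card ι * (E.filter (fun n => K.a n = p)).card)
        ≤ ∑ p ∈ univ.filter (fun p => ¬ p ∈ P), K.N :=
          sum_le_sum fun p hp => hP p (mem_filter.1 hp).2
      _ = (univ.filter (fun p => ¬ p ∈ P)).card * K.N := by rw [sum_const, smul_eq_mul]
      _ ≤ Fintype.card ι * K.N := Nat.mul_le_mul_right _ (card_le_univ _)
  have h3 : ∑ p ∈ univ.filter (fun p => ¬ p ∈ P),
      Z * (Fintype.card ι * (E.filter (fun n => K.a n = p)).card) =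
      Fintype.card ι * (Z * (E.filter (fun n => ¬ K.a n ∈ P)).card) := by
    rw [h1, mul_sum, mul_sum]
    exact sum_congr rfl fun p _ => by ring
  rw [h3] at h2
  exact Nat.le_of_mul_le_mul_left h2 hn

end XPop

theorem I_Pop (h1 : StMc) (h2 : StLow) : StPop := by
  classical
  obtain ⟨C, hC, hLow⟩ := h2
  refine ⟨20, fun η D hη => ?_⟩
  obtain ⟨n0, hn0, hn1⟩ := XPop.exN η hη (C + 2)
  refine ⟨n0, ?_⟩
  intro ι _ _ K hinj hgp hn Q hQ hNQ E hE hEd
  have hcard : 0 < Fintype.card ι := lt_of_lt_of_le hn0 hn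
  have hcardR : (1 : ℝ) ≤ (Fintype.card ι : ℝ) := by exact_mod_cast hcard
  have hQC : C + 2 ≤ (Q : ℝ) := le_trans (hn1 _ hn) hQ
  have hQ3 : 3 ≤ Q := by
    have : (3 : ℝ) ≤ (Q : ℝ) := by linarith
    exact_mod_cast this
  have hQ1 : (1 : ℝ) ≤ (Q : ℝ) := by linarith
  have hN : 1 ≤ K.N := by
    rcases Nat.eq_zero_or_pos K.N with h0 | h0
    · exfalso
      rw [h0] at hNQ
      have h3 : (1 : ℝ) ≤ (Fintype.card ι : ℝ) ^ ((4 : ℝ) / 3) :=
        Real.one_le_rpow hcardR (by norm_num)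
      simp at hNQ
      linarith
    · exact h0
  obtain ⟨Z, hZ⟩ : ∃ Z : ℕ, Z = Q ^ (20 * (D + 1)) := ⟨_, rfl⟩
  rw [← hZ]
  have hZ2 : 2 * Q ^ D ≤ Z := by
    calc 2 * Q ^ D ≤ Q * Q ^ D := Nat.mul_le_mul_right _ (by omega)
      _ = Q ^ (D + 1) := by ring
      _ ≤ Q ^ (20 * (D + 1)) := Nat.pow_le_pow_right (by omega) (by omega)
      _ = Z := hZ.symm
  let P : Finset ι := univ.filter
    (fun p => K.N ≤ Z * (Fintype.card ι * (E.filter (fun n => K.a n = p)).card))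
  refine ⟨P, ?_, fun p hp => (mem_filter.1 hp).2⟩
  have hfew : Z * (E.filter (fun n => ¬ K.a n ∈ P)).card ≤ K.N := by
    refine XPop.few K E Z P hcard fun p hp => ?_
    have h3 : ¬ K.N ≤ Z * (Fintype.card ι * (E.filter (fun n => K.a n = p)).card) := by
      intro h4
      exact hp (mem_filter.2 ⟨mem_univ _, h4⟩)
    omega
  have hsplit := card_filter_add_card_filter_not (s := E) (fun n => K.a n ∈ P)
  set E2 := E.filter (fun n => K.a n ∈ P) with hE2
  have hhalf : E.card ≤ 2 * E2.card := by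
    have h3 : 2 * Q ^ D * (E.filter (fun n => ¬ K.a n ∈ P)).card ≤ Q ^ D * E.card :=
      le_trans (Nat.mul_le_mul_right _ hZ2) (le_trans hfew hEd)
    have h4 : Q ^ D * (2 * (E.filter (fun n => ¬ K.a n ∈ P)).card) ≤ Q ^ D * E.card := by
      calc Q ^ D * (2 * (E.filter (fun n => ¬ K.a n ∈ P)).card)
          = 2 * Q ^ D * (E.filter (fun n => ¬ K.a n ∈ P)).card := by ring
        _ ≤ _ := h3
    have h5 := Nat.le_of_mul_le_mul_left h4 (Nat.pow_pos (by omega))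
    omega
  have hdens : K.N ≤ Q ^ (D + 1) * E2.card := by
    calc K.N ≤ Q ^ D * E.card := hEd
      _ ≤ Q ^ D * (2 * E2.card) := Nat.mul_le_mul_left _ hhalf
      _ = 2 * (Q ^ D * E2.card) := by ring
      _ ≤ Q * (Q ^ D * E2.card) := Nat.mul_le_mul_right _ (by omega)
      _ = Q ^ (D + 1) * E2.card := by ring
  have hcells := (h1 ι K 1 one_pos).1
  have hH1 : (1 : ℝ) ≤ (Q : ℝ) ^ (D + 1) := one_le_pow₀ hQ1
  have hlow := (hLow ι K hinj hgp 1 (mc K 1) le_rfl hN hcells E2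
    ((filter_subset _ _).trans hE) ((Q : ℝ) ^ (D + 1)) hH1 (by exact_mod_cast hdens) (by
      refine le_trans hNQ (mul_le_mul_of_nonneg_right ?_ (Nat.cast_nonneg _))
      calc (Q : ℝ) = (Q : ℝ) ^ 1 := (pow_one _).symm
        _ ≤ (Q : ℝ) ^ (D + 1) := pow_le_pow_right₀ hQ1 (by omega))).1 false
  have him : im E2 (fun n => (mc K 1 n, K.ln false n)) ≤ P.card := by
    have h3 : E2.image (fun n => (mc K 1 n, K.ln false n)) ⊆ P.image (fun p => (0, p)) := by
      intro w hw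
      obtain ⟨n, hn2, rfl⟩ := mem_image.1 hw
      have h4 : n < K.N := mem_range.1 (hE (filter_subset _ _ hn2))
      have h5 : mc K 1 n = 0 := by
        unfold mc
        rw [mul_one]
        exact Nat.div_eq_of_lt h4
      refine mem_image.2 ⟨K.a n, (mem_filter.1 hn2).2, ?_⟩
      rw [h5]
      rfl
    exact le_trans (card_le_card h3) card_image_le
  have h6 : (Fintype.card ι : ℝ) ≤ (Z : ℝ) * (P.card : ℝ) := by
    have h7 : (Fintype.card ι : ℝ) ≤ C * ((Q : ℝ) ^ (D + 1)) ^ 9 *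
        (im E2 (fun n => (mc K 1 n, K.ln false n)) : ℝ) := by
      simpa using hlow
    have h8 : C * ((Q : ℝ) ^ (D + 1)) ^ 9 ≤ (Z : ℝ) := by
      calc C * ((Q : ℝ) ^ (D + 1)) ^ 9 ≤ (Q : ℝ) * ((Q : ℝ) ^ (D + 1)) ^ 9 :=
            mul_le_mul_of_nonneg_right (by linarith) (by positivity)
        _ = (Q : ℝ) ^ (1 + (D + 1) * 9) := by rw [← pow_mul, pow_add, pow_one]
        _ ≤ (Q : ℝ) ^ (20 * (D + 1)) := pow_le_pow_right₀ hQ1 (by omega)
        _ = (Z : ℝ) := by rw [hZ]; push_cast; rfl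
    calc (Fintype.card ι : ℝ) ≤ C * ((Q : ℝ) ^ (D + 1)) ^ 9 *
          (im E2 (fun n => (mc K 1 n, K.ln false n)) : ℝ) := h7
      _ ≤ (Z : ℝ) * (P.card : ℝ) := by
          refine mul_le_mul h8 (by exact_mod_cast him) (Nat.cast_nonneg _) (Nat.cast_nonneg _)
  exact_mod_cast h6

end Pool.Agent.Work.MP_e17eac_co.AS2

end

section

namespace Pool.Agent.Work.MP_e17eac_co.AS2

open Finset
open Pool.Agent.Work.MP_e17eac_co.DH
open Pool.Agent.Work.MP_e17eac_co.DH.XSWEEP (GP)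
open Pool.Agent.Work.MP_e17eac_co.MX

namespace XStag

variable {ι : Type} [Fintype ι] [DecidableEq ι]

lemma t_mono (K : KSys ι) {i j : ℕ} (h : i ≤ j) (hj : j < K.N) : K.t i ≤ K.t j := by
  rcases Nat.lt_or_ge i j with h1 | h1
  · exact le_of_lt (K.t_lt i j h1 hj)
  · have : i = j := le_antisymm h h1
    rw [this]

lemma lo_congr {c : ℕ → ℕ} {a b : ℕ} (h : c a = c b) : lo c a = lo c b := by
  unfold lo; rw [h]

lemma hi_congr (K : KSys ι) {c : ℕ → ℕ} {a b : ℕ} (h : c a = c b) : hi K c a = hi K c b := by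
  unfold hi; rw [h]

/-- Refinement of mass cells. -/
lemma mc_ref (h6 : StMc) (K : KSys ι) {M M' : ℕ} (hM : 0 < M) (hM' : 0 < M') {m n : ℕ}
    (h : mc K (M * M') m = mc K (M * M') n) : mc K M m = mc K M n := by
  have h1 := (h6 ι K M hM).2 M' hM'
  rw [← h1 m, ← h1 n, h]

/-- Facts about one level. -/
lemma lev_facts (h6 : StMc) (h7 : StLoHi) (K : KSys ι) {B g Q A : ℕ} (hB : 0 < B) (hQ : 0 < Q)
    {E : Finset ℕ} (hE : E ⊆ range K.N) {kk ll : ι → ℕ → ℕ} (hL : Lev K B g Q A E kk ll)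
    {n : ℕ} (hn : n ∈ E) :
    k0 K B g Q kk n ≤ n ∧ n ≤ k1 K B g Q ll n ∧ k1 K B g Q ll n < K.N ∧
    k0 K B g Q kk n < k1 K B g Q ll n ∧ mc K B (k0 K B g Q kk n) = mc K B n ∧
    mc K B (k1 K B g Q ll n) = mc K B n ∧
    (∀ m, m < K.N → mc K (B * Q ^ g) m = mc K (B * Q ^ g) n →
      k0 K B g Q kk n ≤ m ∧ m ≤ k1 K B g Q ll n) := by
  have hnN : n < K.N := mem_range.1 (hE hn)
  have hQg : 0 < Q ^ g := Nat.pow_pos hQ
  have hpd := hL.pd n hn
  set p := K.a n with hp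
  set z := mc K B n with hz
  set cp := mc K (B * Q ^ g) with hcp
  have hcells : IsCells K (B * Q ^ g) cp := (h6 ι K (B * Q ^ g) (Nat.mul_pos hB hQg)).1
  have hk0 : k0 K B g Q kk n = lo cp (kk p z) := rfl
  have hk1 : k1 K B g Q ll n = hi K cp (ll p z) := rfl
  obtain ⟨a1, a2, a3, a4, a5, a6, a7, a8, _⟩ := h7 ι K _ cp hcells (kk p z) hpd.kN
  obtain ⟨b1, b2, b3, b4, b5, b6, b7, b8, _⟩ := h7 ι K _ cp hcells (ll p z) hpd.lN
  have hlt := hpd.lt
  have e1 : hi K cp (kk p z) < ll p z := (a8 (ll p z) hpd.lN).1 hlt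
  have e2 : kk p z < lo cp (ll p z) := (b7 (kk p z) hpd.kN).1 hlt
  have key : ∀ m, m < K.N → cp m = cp n → k0 K B g Q kk n ≤ m ∧ m ≤ k1 K B g Q ll n := by
    intro m hm hmn
    rw [hk0, hk1]
    rcases hL.inn n hn with h | h
    · have : cp m = cp (kk p z) := by rw [hmn]; exact h
      have h3 := (a6 m hm).1 this
      exact ⟨h3.1, by omega⟩
    · have : cp m = cp (ll p z) := by rw [hmn]; exact h
      have h3 := (b6 m hm).1 this
      exact ⟨by omega, h3.2⟩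
  obtain ⟨f1, f2⟩ := key n hnN rfl
  refine ⟨f1, f2, ?_, ?_, ?_, ?_, key⟩
  · rw [hk1]; exact b3
  · rw [hk0, hk1]; omega
  · rw [hk0]
    have : mc K B (lo cp (kk p z)) = mc K B (kk p z) := mc_ref h6 K hB hQg a4
    rw [this]; exact hpd.ck
  · rw [hk1]
    have : mc K B (hi K cp (ll p z)) = mc K B (ll p z) := mc_ref h6 K hB hQg b5
    rw [this]; exact hpd.cl

lemma lbn_eq {K : KSys ι} {B g Q : ℕ} {kk ll : ι → ℕ → ℕ} {m n : ℕ}
    (h : lbn K B g Q kk ll m = lbn K B g Q kk ll n) :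
    mc K B m = mc K B n ∧ k0 K B g Q kk m = k0 K B g Q kk n ∧ k1 K B g Q ll m = k1 K B g Q ll n ∧
    ty K (K.a m) (k0 K B g Q kk n) (k1 K B g Q ll n) =
      ty K (K.a n) (k0 K B g Q kk n) (k1 K B g Q ll n) ∧
    Int.log 2 (dln K B g Q kk ll m) = Int.log 2 (dln K B g Q kk ll n) ∧
    mc K (B * Q ^ g) (kk (K.a m) (mc K B m)) = mc K (B * Q ^ g) (kk (K.a n) (mc K B n)) ∧
    mc K (B * Q ^ g) (ll (K.a m) (mc K B m)) = mc K (B * Q ^ g) (ll (K.a n) (mc K B n)) := by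
  unfold lbn lb at h
  rw [Prod.mk.injEq] at h
  obtain ⟨h1, h2⟩ := h
  unfold psi at h1
  rw [Prod.mk.injEq, Prod.mk.injEq, Prod.mk.injEq] at h1
  obtain ⟨h3, h4, h5, h6⟩ := h1
  have e0 : k0 K B g Q kk m = k0 K B g Q kk n := by
    unfold k0 j0; exact lo_congr h4
  have e1 : k1 K B g Q ll m = k1 K B g Q ll n := by
    unfold k1 j1; exact hi_congr K h5
  refine ⟨h3, e0, e1, ?_, h2, h4, h5⟩
  have : ty K (K.a m) (k0 K B g Q kk m) (k1 K B g Q ll m) =
      ty K (K.a n) (k0 K B g Q kk n) (k1 K B g Q ll n) := h6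
  rw [e0, e1] at this
  exact this

lemma log_bounds {x : ℝ} (hx : 0 < x) : (2 : ℝ) ^ (Int.log 2 x) ≤ x ∧ x < 2 * (2 : ℝ) ^ (Int.log 2 x) := by
  constructor
  · have := Int.zpow_log_le_self (b := 2) (r := x) (by norm_num) hx
    exact_mod_cast this
  · have := Int.lt_zpow_succ_log_self (b := 2) (by norm_num) x
    rw [zpow_add_one₀ (by norm_num)] at this
    push_cast at this
    linarith

lemma dlb_nonneg (K : KSys ι) (B g Q : ℕ) (kk ll : ι → ℕ → ℕ) (n : ℕ) :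
    0 < dlb K B g Q kk ll n := by
  unfold dlb; positivity

/-- Lines with the same label have close slopes. -/
lemma slope_bound (h5 : StCon) (h6 : StMc) (h7 : StLoHi) (K : KSys ι) {B g Q A : ℕ} (hB : 0 < B)
    (hQ : 0 < Q) {E : Finset ℕ} (hE : E ⊆ range K.N) {kk ll : ι → ℕ → ℕ}
    (hL : Lev K B g Q A E kk ll) {m1 m2 n : ℕ} (hm1 : m1 ∈ E) (hm2 : m2 ∈ E) (hn : n ∈ E)
    (e1 : lbn K B g Q kk ll m1 = lbn K B g Q kk ll n)
    (e2 : lbn K B g Q kk ll m2 = lbn K B g Q kk ll n) :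
    |K.x (K.a m1) - K.x (K.a m2)| * (K.t (k1 K B g Q ll n) - K.t (k0 K B g Q kk n)) ≤
      8 * Q * dlb K B g Q kk ll n := by
  obtain ⟨c1, i1, j1', t1, d1, p1, q1⟩ := lbn_eq e1
  obtain ⟨c2, i2, j2', t2, d2, p2, q2⟩ := lbn_eq e2
  have hQg : 0 < Q ^ g := Nat.pow_pos hQ
  have hcells : IsCells K (B * Q ^ g) (mc K (B * Q ^ g)) := (h6 ι K (B * Q ^ g) (Nat.mul_pos hB hQg)).1
  have pd1 := hL.pd m1 hm1
  have pd2 := hL.pd m2 hm2
  obtain ⟨_, _, F3, F4, _, _, _⟩ := lev_facts h6 h7 K hB hQ hE hL hn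
  set cp := mc K (B * Q ^ g) with hcp
  set i0 := k0 K B g Q kk n with hi0
  set i9 := k1 K B g Q ll n with hi9
  set k := kk (K.a m1) (mc K B m1) with hk
  set l := ll (K.a m1) (mc K B m1) with hl
  set k' := kk (K.a m2) (mc K B m2) with hk'
  set l' := ll (K.a m2) (mc K B m2) with hl'
  obtain ⟨a1, a2, a3, a4, a5, a6, a7, a8, _⟩ := h7 ι K _ cp hcells k pd1.kN
  obtain ⟨b1, b2, b3, b4, b5, b6, b7, b8, _⟩ := h7 ι K _ cp hcells l pd1.lN
  obtain ⟨a1', a2', a3', a4', a5', a6', a7', a8', _⟩ := h7 ι K _ cp hcells k' pd2.kN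
  obtain ⟨b1', b2', b3', b4', b5', b6', b7', b8', _⟩ := h7 ι K _ cp hcells l' pd2.lN
  have E0 : lo cp k = i0 := i1
  have E1 : hi K cp l = i9 := j1'
  have E0' : lo cp k' = i0 := i2
  have E1' : hi K cp l' = i9 := j2'
  have ckk : cp k' = cp k := by rw [p2, p1]
  have cll : cp l' = cp l := by rw [q2, q1]
  have hkN := pd1.kN
  have hlt : hi K cp k < lo cp l := by
    have : cp (hi K cp k) < cp l := by rw [a5]; exact pd1.lt
    exact (b7 _ a3).1 this
  have hloN : lo cp l < K.N := lt_of_le_of_lt b1 pd1.lN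
  have hk1' : k' ≤ hi K cp k := ((a6 k' pd2.kN).1 ckk).2
  have hl1' : lo cp l ≤ l' := ((b6 l' pd2.lN).1 cll).1
  have hgood : K.t i9 - K.t i0 ≤ (Q : ℝ) * (K.t (lo cp l) - K.t (hi K cp k)) := by
    have := pd1.good
    unfold hull gap at this
    rw [← E0, ← E1]
    exact this
  have hty : ty K (K.a m1) i0 i9 = ty K (K.a m2) i0 i9 := by rw [t1, t2]
  have con := h5 ι K (K.a m1) (K.a m2) i0 i9 k l k' l' (K.t (hi K cp k)) (K.t (lo cp l)) Q F3
    pd1.kN pd2.kN (by rw [← E0]; exact a1) (by rw [← E0']; exact a1') (by rw [← E1]; exact b2)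
    (by rw [← E1']; exact b2') pd1.ak pd1.al pd2.ak pd2.al (t_mono K a2 a3) (t_mono K hk1' a3)
    (K.t_lt _ _ hlt hloN) (t_mono K b1 pd1.lN) (t_mono K hl1' pd2.lN) hgood hty
  have con0 := con (K.t i0) (Or.inl rfl)
  have con1 := con (K.t i9) (Or.inr rfl)
  have hd1 : del K (K.a m1) i0 i9 = dln K B g Q kk ll m1 := by
    unfold dln dl
    have e : j0 cp kk (K.a m1) (mc K B m1) = i0 := E0
    have e' : j1 K cp ll (K.a m1) (mc K B m1) = i9 := E1
    rw [e, e']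
  have hd2 : del K (K.a m2) i0 i9 = dln K B g Q kk ll m2 := by
    unfold dln dl
    have e : j0 cp kk (K.a m2) (mc K B m2) = i0 := E0'
    have e' : j1 K cp ll (K.a m2) (mc K B m2) = i9 := E1'
    rw [e, e']
  have hm : max (del K (K.a m1) i0 i9) (del K (K.a m2) i0 i9) ≤ 2 * dlb K B g Q kk ll n := by
    apply max_le
    · rw [hd1]
      have := (log_bounds (hL.pos m1 hm1)).2
      unfold dlb
      rw [← d1]
      exact this.le
    · rw [hd2]
      have := (log_bounds (hL.pos m2 hm2)).2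
      unfold dlb
      rw [← d2]
      exact this.le
  have hQ0 : (0 : ℝ) ≤ Q := Nat.cast_nonneg _
  have hb : 2 * (Q : ℝ) * max (del K (K.a m1) i0 i9) (del K (K.a m2) i0 i9) ≤
      4 * Q * dlb K B g Q kk ll n := by nlinarith
  have hpos : 0 ≤ K.t i9 - K.t i0 := by
    have := K.t_lt i0 i9 F4 F3
    linarith
  have heq : (K.x (K.a m1) - K.x (K.a m2)) * (K.t i9 - K.t i0) =
      (K.ht (K.a m1) (K.t i9) - K.ht (K.a m2) (K.t i9)) -
      (K.ht (K.a m1) (K.t i0) - K.ht (K.a m2) (K.t i0)) := by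
    unfold KSys.ht; ring
  rw [← abs_of_nonneg hpos, ← abs_mul, heq]
  calc _ ≤ |K.ht (K.a m1) (K.t i9) - K.ht (K.a m2) (K.t i9)| +
        |K.ht (K.a m1) (K.t i0) - K.ht (K.a m2) (K.t i0)| := abs_sub _ _
    _ ≤ 4 * Q * dlb K B g Q kk ll n + 4 * Q * dlb K B g Q kk ll n := by
        linarith
    _ = 8 * Q * dlb K B g Q kk ll n := by ring

/-- The main estimate for an edge outside the exceptional sets. -/
lemma good (h5 : StCon) (h6 : StMc) (h7 : StLoHi) (h8 : StD2) (h9 : StMono) (h10 : StTok)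
    (K : KSys ι) {B g g' gp t Q A : ℕ} (hB : 0 < B)
    (hQ : 0 < Q) {E : Finset ℕ} (hE : E ⊆ range K.N) {kk ll kk' ll' : ι → ℕ → ℕ}
    (hL : Lev K B g Q A E kk ll) (hL' : Lev K (B * Q ^ (4 * gp)) g' Q A E kk' ll')
    {m1 m2 n : ℕ} (hm1 : m1 ∈ E) (hm2 : m2 ∈ E) (hn : n ∈ E)
    (e1 : lbn K B g Q kk ll m1 = lbn K B g Q kk ll n)
    (e2 : lbn K B g Q kk ll m2 = lbn K B g Q kk ll n)
    (s1 : K.tokB m1 = K.tokB n) (s2 : K.tokB m2 = K.tokB n)
    (c1 : mc K (B * Q ^ (4 * gp)) m1 < mc K (B * Q ^ (4 * gp)) n)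
    (c2 : mc K (B * Q ^ (4 * gp)) n < mc K (B * Q ^ (4 * gp)) m2)
    (hH : (Q : ℝ) ^ t * (K.t (k1 K (B * Q ^ (4 * gp)) g' Q ll' n) -
      K.t (k0 K (B * Q ^ (4 * gp)) g' Q kk' n)) ≤
      K.t (k1 K B g Q ll n) - K.t (k0 K B g Q kk n)) :
    (Q : ℝ) ^ t * dlb K (B * Q ^ (4 * gp)) g' Q kk' ll' n ≤ 8 * Q * dlb K B g Q kk ll n := by
  have hQp : 0 < Q ^ (4 * gp) := Nat.pow_pos hQ
  have hBp : 0 < B * Q ^ (4 * gp) := Nat.mul_pos hB hQp
  have hcells : IsCells K (B * Q ^ (4 * gp)) (mc K (B * Q ^ (4 * gp))) := (h6 ι K _ hBp).1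
  have hnN : n < K.N := mem_range.1 (hE hn)
  have hm1N : m1 < K.N := mem_range.1 (hE hm1)
  have hm2N : m2 < K.N := mem_range.1 (hE hm2)
  obtain ⟨F1, F2, F3, F4, F5, F6, _⟩ := lev_facts h6 h7 K hBp hQ hE hL' hn
  obtain ⟨G1, G2, G3, G4, _, _, _⟩ := lev_facts h6 h7 K hB hQ hE hL hn
  set c' := mc K (B * Q ^ (4 * gp)) with hc'
  set i0 := k0 K (B * Q ^ (4 * gp)) g' Q kk' n with hi0
  set i9 := k1 K (B * Q ^ (4 * gp)) g' Q ll' n with hi9
  have hi0N : i0 < K.N := lt_of_le_of_lt F1 hnN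
  have r1 : m1 < i0 := by
    by_contra hcon
    have := hcells.mono i0 m1 (by omega) hm1N
    rw [F5] at this
    omega
  have r2 : i9 < m2 := by
    by_contra hcon
    have := hcells.mono m2 i9 (by omega) F3
    rw [F6] at this
    omega
  set τ := K.tokB n with hτ
  have hτ0 : τ ∈ K.S 0 := (h10 ι K n hnN).1
  have hp1 : K.pos m1 τ = K.a m1 := by rw [← s1]; exact (h10 ι K m1 hm1N).2.2.1
  have hp2 : K.pos m2 τ = K.a m2 := by rw [← s2]; exact (h10 ι K m2 hm2N).2.2.1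
  have x1 : K.x (K.pos i0 τ) ≤ K.x (K.a m1) := by
    have := (h9 ι K m1 i0 (by omega) (by omega)).1 τ hτ0
    rwa [hp1] at this
  have x2 : K.x (K.a m2) ≤ K.x (K.pos (i9 + 1) τ) := by
    have := (h9 ι K (i9 + 1) m2 (by omega) (by omega)).1 τ hτ0
    rwa [hp2] at this
  have x3 : K.x (K.pos (i9 + 1) τ) ≤ K.x (K.pos i0 τ) :=
    (h9 ι K i0 (i9 + 1) (by omega) (by omega)).1 τ hτ0
  have hd2 := h8 ι K n i0 i9 F1 F2 F3
  have hdln : dln K (B * Q ^ (4 * gp)) g' Q kk' ll' n ≤ dn K (K.a n) i0 i9 := by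
    have : dln K (B * Q ^ (4 * gp)) g' Q kk' ll' n = min (up K (K.a n) i0 i9) (dn K (K.a n) i0 i9) :=
      rfl
    rw [this]; exact min_le_right _ _
  have hpos' : 0 ≤ K.t i9 - K.t i0 := by
    have := K.t_lt i0 i9 F4 F3
    linarith
  have hdisp : |K.x (K.pos i0 (K.tokB n)) - K.x (K.pos (i9 + 1) (K.tokB n))| ≤
      |K.x (K.a m1) - K.x (K.a m2)| := by
    rw [abs_of_nonneg (by rw [← hτ]; linarith), abs_of_nonneg (by linarith)]
    rw [← hτ]; linarith
  have hs := slope_bound h5 h6 h7 K hB hQ hE hL hm1 hm2 hn e1 e2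
  have hdlb : dlb K (B * Q ^ (4 * gp)) g' Q kk' ll' n ≤ dln K (B * Q ^ (4 * gp)) g' Q kk' ll' n :=
    (log_bounds (hL'.pos n hn)).1
  have hQt : (0 : ℝ) < (Q : ℝ) ^ t := by positivity
  set Δ := |K.x (K.a m1) - K.x (K.a m2)| with hΔ
  have hΔ0 : 0 ≤ Δ := abs_nonneg _
  calc (Q : ℝ) ^ t * dlb K (B * Q ^ (4 * gp)) g' Q kk' ll' n
      ≤ (Q : ℝ) ^ t * ((K.t i9 - K.t i0) * Δ) := by
        apply mul_le_mul_of_nonneg_left _ hQt.le
        calc _ ≤ _ := hdlb
          _ ≤ _ := hdln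
          _ ≤ _ := hd2
          _ ≤ _ := mul_le_mul_of_nonneg_left hdisp hpos'
    _ = ((Q : ℝ) ^ t * (K.t i9 - K.t i0)) * Δ := by ring
    _ ≤ (K.t (k1 K B g Q ll n) - K.t (k0 K B g Q kk n)) * Δ :=
        mul_le_mul_of_nonneg_right hH hΔ0
    _ = Δ * (K.t (k1 K B g Q ll n) - K.t (k0 K B g Q kk n)) := by ring
    _ ≤ _ := hs

/-- Fibres. -/
lemma im_le {α β : Type} [DecidableEq α] [DecidableEq β] (F : Finset ℕ) (f : ℕ → α) (g : ℕ → β)
    (D : ℕ) (h : ∀ n ∈ F, ((F.filter (fun k => g k = g n)).image f).card ≤ D) :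
    im F f ≤ D * im F g := by
  unfold im
  have hsub : F.image f ⊆ (F.image g).biUnion (fun v => (F.filter (fun k => g k = v)).image f) := by
    intro x hx
    obtain ⟨n, hn, rfl⟩ := mem_image.1 hx
    rw [mem_biUnion]
    refine ⟨g n, mem_image_of_mem g hn, ?_⟩
    exact mem_image_of_mem f (mem_filter.2 ⟨hn, rfl⟩)
  calc (F.image f).card ≤ _ := card_le_card hsub
    _ ≤ (F.image g).card * D := by
        apply card_biUnion_le_card_mul
        intro v hv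
        obtain ⟨n, hn, rfl⟩ := mem_image.1 hv
        exact h n hn
    _ = _ := Nat.mul_comm _ _

/-- Disjoint index windows inside `[i0, i1]`. -/
lemma sum_windows (K : KSys ι) (u v : ℕ → ℕ) (i0 : ℕ) (W : Finset ℕ) :
    ∀ i1, i0 ≤ i1 → i1 < K.N → (∀ w ∈ W, i0 ≤ u w ∧ u w ≤ v w ∧ v w ≤ i1) →
    (∀ w ∈ W, ∀ w' ∈ W, w < w' → v w < u w') →
    ∑ w ∈ W, (K.t (v w) - K.t (u w)) ≤ K.t i1 - K.t i0 := by
  induction W using Finset.induction_on_max with
  | empty =>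
    intro i1 h1 h2 _ _
    have := t_mono K h1 h2
    simp; linarith
  | insert w W hw ih =>
    intro i1 h1 h2 h3 h4
    have hwn : w ∉ W := fun h => lt_irrefl _ (hw w h)
    rw [sum_insert hwn]
    obtain ⟨a1, a2, a3⟩ := h3 w (mem_insert_self _ _)
    have huN : u w < K.N := by omega
    have := ih (u w) a1 huN (fun w' hw' => by
      obtain ⟨b1, b2, b3⟩ := h3 w' (mem_insert_of_mem hw')
      have := h4 w' (mem_insert_of_mem hw') w (mem_insert_self _ _) (hw w' hw')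
      exact ⟨b1, b2, this.le⟩) (fun w' hw' w'' hw'' h =>
        h4 w' (mem_insert_of_mem hw') w'' (mem_insert_of_mem hw'') h)
    have h5 := t_mono K a3 h2
    linarith

lemma k0_eq {K : KSys ι} {B g Q : ℕ} {kk : ι → ℕ → ℕ} {m n : ℕ} (h : K.a m = K.a n)
    (h' : mc K B m = mc K B n) : k0 K B g Q kk m = k0 K B g Q kk n := by
  unfold k0; rw [h, h']

lemma k1_eq {K : KSys ι} {B g Q : ℕ} {ll : ι → ℕ → ℕ} {m n : ℕ} (h : K.a m = K.a n)
    (h' : mc K B m = mc K B n) : k1 K B g Q ll m = k1 K B g Q ll n := by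
  unfold k1; rw [h, h']

/-- Hulls of the next level are inside the hull. -/
lemma nest (h6 : StMc) (h7 : StLoHi) (K : KSys ι) {B g g' gp Q A : ℕ} (hB : 0 < B) (hQ : 0 < Q)
    (hg : g ≤ 4 * gp)
    {E : Finset ℕ} (hE : E ⊆ range K.N) {kk ll kk' ll' : ι → ℕ → ℕ}
    (hL : Lev K B g Q A E kk ll) (hL' : Lev K (B * Q ^ (4 * gp)) g' Q A E kk' ll')
    {n : ℕ} (hn : n ∈ E) :
    k0 K B g Q kk n ≤ k0 K (B * Q ^ (4 * gp)) g' Q kk' n ∧
    k1 K (B * Q ^ (4 * gp)) g' Q ll' n ≤ k1 K B g Q ll n := by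
  have hQp : 0 < Q ^ (4 * gp) := Nat.pow_pos hQ
  have hBp : 0 < B * Q ^ (4 * gp) := Nat.mul_pos hB hQp
  have hQg : 0 < Q ^ g := Nat.pow_pos hQ
  have hnN : n < K.N := mem_range.1 (hE hn)
  obtain ⟨F1, F2, F3, F4, F5, F6, _⟩ := lev_facts h6 h7 K hBp hQ hE hL' hn
  obtain ⟨_, _, _, _, _, _, G7⟩ := lev_facts h6 h7 K hB hQ hE hL hn
  have e : B * Q ^ (4 * gp) = (B * Q ^ g) * Q ^ (4 * gp - g) := by
    rw [Nat.mul_assoc, ← Nat.pow_add]
    congr 2
    omega
  have hr : ∀ m, mc K (B * Q ^ (4 * gp)) m = mc K (B * Q ^ (4 * gp)) n →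
      mc K (B * Q ^ g) m = mc K (B * Q ^ g) n := by
    intro m hm
    rw [e] at hm
    exact mc_ref h6 K (Nat.mul_pos hB hQg) (Nat.pow_pos hQ) hm
  exact ⟨(G7 _ (lt_of_le_of_lt F1 hnN) (hr _ F5)).1, (G7 _ F3 (hr _ F6)).2⟩

/-- First exceptional set: long hulls at the next level. -/
lemma cardF1 (h6 : StMc) (h7 : StLoHi) (K : KSys ι) {B g g' gp t Q A : ℕ} (hB : 0 < B)
    (hQ : 0 < Q) (hg : g ≤ 4 * gp)
    {E : Finset ℕ} (hE : E ⊆ range K.N) {kk ll kk' ll' : ι → ℕ → ℕ}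
    (hL : Lev K B g Q A E kk ll) (hL' : Lev K (B * Q ^ (4 * gp)) g' Q A E kk' ll')
    (F : Finset ℕ) (hF : F ⊆ E)
    (hlong : ∀ n ∈ F, K.t (k1 K B g Q ll n) - K.t (k0 K B g Q kk n) <
      (Q : ℝ) ^ t * (K.t (k1 K (B * Q ^ (4 * gp)) g' Q ll' n) -
      K.t (k0 K (B * Q ^ (4 * gp)) g' Q kk' n))) :
    im F (fun n => (mc K (B * Q ^ (4 * gp)) n, K.a n)) ≤
      Q ^ t * im F (fun n => (mc K B n, K.a n)) := by
  have hQp : 0 < Q ^ (4 * gp) := Nat.pow_pos hQ
  have hBp : 0 < B * Q ^ (4 * gp) := Nat.mul_pos hB hQp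
  have hcells : IsCells K (B * Q ^ (4 * gp)) (mc K (B * Q ^ (4 * gp))) := (h6 ι K _ hBp).1
  apply im_le
  intro n hn
  set P := F.filter (fun k => (mc K B k, K.a k) = (mc K B n, K.a n)) with hP
  have hPm : ∀ k ∈ P, k ∈ F ∧ mc K B k = mc K B n ∧ K.a k = K.a n := by
    intro k hk
    rw [hP, mem_filter, Prod.mk.injEq] at hk
    exact ⟨hk.1, hk.2.1, hk.2.2⟩
  set W := P.image (mc K (B * Q ^ (4 * gp))) with hW
  have hcard : (P.image (fun n => (mc K (B * Q ^ (4 * gp)) n, K.a n))).card ≤ W.card := by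
    have : P.image (fun n => (mc K (B * Q ^ (4 * gp)) n, K.a n)) ⊆
        W.image (fun w => (w, K.a n)) := by
      intro x hx
      obtain ⟨k, hk, rfl⟩ := mem_image.1 hx
      rw [mem_image]
      exact ⟨mc K (B * Q ^ (4 * gp)) k, mem_image_of_mem _ hk, by rw [(hPm k hk).2.2]⟩
    exact le_trans (card_le_card this) card_image_le
  refine le_trans hcard ?_
  -- windows
  set p := K.a n with hp
  set u : ℕ → ℕ := fun w => j0 (mc K (B * Q ^ (4 * gp) * Q ^ g')) kk' p w with hu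
  set v : ℕ → ℕ := fun w => j1 K (mc K (B * Q ^ (4 * gp) * Q ^ g')) ll' p w with hv
  have huk : ∀ k ∈ P, u (mc K (B * Q ^ (4 * gp)) k) = k0 K (B * Q ^ (4 * gp)) g' Q kk' k := by
    intro k hk
    show j0 _ kk' p _ = j0 _ kk' (K.a k) _
    rw [(hPm k hk).2.2]
  have hvk : ∀ k ∈ P, v (mc K (B * Q ^ (4 * gp)) k) = k1 K (B * Q ^ (4 * gp)) g' Q ll' k := by
    intro k hk
    show j1 K _ ll' p _ = j1 K _ ll' (K.a k) _
    rw [(hPm k hk).2.2]
  have hnE := hF hn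
  obtain ⟨G1, G2, G3, G4, _, _, _⟩ := lev_facts h6 h7 K hB hQ hE hL hnE
  set i0 := k0 K B g Q kk n with hi0
  set i1 := k1 K B g Q ll n with hi1
  have hHpos : 0 < K.t i1 - K.t i0 := by
    have := K.t_lt i0 i1 G4 G3
    linarith
  have hsum := sum_windows K u v i0 W i1 G4.le G3 (by
    intro w hw
    obtain ⟨k, hk, rfl⟩ := mem_image.1 hw
    obtain ⟨q1, q2, q3⟩ := hPm k hk
    have hkE := hF q1
    obtain ⟨f1, f2, f3, f4, _, _, _⟩ := lev_facts h6 h7 K hBp hQ hE hL' hkE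
    obtain ⟨n1, n2⟩ := nest h6 h7 K hB hQ hg hE hL hL' hkE
    rw [huk k hk, hvk k hk]
    have e0 : k0 K B g Q kk k = i0 := k0_eq q3 q2
    have e1 : k1 K B g Q ll k = i1 := k1_eq q3 q2
    rw [e0] at n1; rw [e1] at n2
    exact ⟨n1, f4.le, n2⟩) (by
    intro w hw w' hw' hlt
    obtain ⟨k, hk, rfl⟩ := mem_image.1 hw
    obtain ⟨k', hk', rfl⟩ := mem_image.1 hw'
    have hkE := hF (hPm k hk).1
    have hkE' := hF (hPm k' hk').1
    obtain ⟨f1, f2, f3, f4, f5, f6, _⟩ := lev_facts h6 h7 K hBp hQ hE hL' hkE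
    obtain ⟨f1', f2', f3', f4', f5', f6', _⟩ := lev_facts h6 h7 K hBp hQ hE hL' hkE'
    rw [hvk k hk, huk k' hk']
    by_contra hcon
    have := hcells.mono _ _ (not_lt.1 hcon) f3
    rw [f5', f6] at this
    omega)
  have hlow : (W.card : ℝ) * (K.t i1 - K.t i0) ≤ (Q : ℝ) ^ t * ∑ w ∈ W, (K.t (v w) - K.t (u w)) := by
    rw [mul_sum, ← nsmul_eq_mul, ← sum_const]
    apply sum_le_sum
    intro w hw
    obtain ⟨k, hk, rfl⟩ := mem_image.1 hw
    obtain ⟨q1, q2, q3⟩ := hPm k hk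
    have := hlong k q1
    rw [huk k hk, hvk k hk]
    have e0 : k0 K B g Q kk k = i0 := k0_eq q3 q2
    have e1 : k1 K B g Q ll k = i1 := k1_eq q3 q2
    rw [e0, e1] at this
    exact this.le
  have hQt : (0 : ℝ) < (Q : ℝ) ^ t := by positivity
  have h3 : (W.card : ℝ) * (K.t i1 - K.t i0) ≤ (Q : ℝ) ^ t * (K.t i1 - K.t i0) :=
    le_trans hlow (mul_le_mul_of_nonneg_left hsum hQt.le)
  have h4 : (W.card : ℝ) ≤ (Q : ℝ) ^ t := le_of_mul_le_mul_right h3 hHpos
  exact_mod_cast h4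

/-- Second exceptional set: extremal cells of a token with a label. -/
lemma cardF2 (K : KSys ι) {B g gp Q A : ℕ}
    {E : Finset ℕ} {kk ll : ι → ℕ → ℕ}
    (hL : Lev K B g Q A E kk ll) (F : Finset ℕ) (hF : F ⊆ E)
    (hex : ∀ n ∈ F, (∀ m ∈ E, K.tokB m = K.tokB n → lbn K B g Q kk ll m = lbn K B g Q kk ll n →
        mc K (B * Q ^ (4 * gp)) n ≤ mc K (B * Q ^ (4 * gp)) m) ∨
      (∀ m ∈ E, K.tokB m = K.tokB n → lbn K B g Q kk ll m = lbn K B g Q kk ll n →
        mc K (B * Q ^ (4 * gp)) m ≤ mc K (B * Q ^ (4 * gp)) n)) :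
    im F (fun n => (mc K (B * Q ^ (4 * gp)) n, K.tokB n)) ≤
      2 * Q ^ A * im F (fun n => (mc K B n, K.tokB n)) := by
  have s1 : im F (fun n => (mc K (B * Q ^ (4 * gp)) n, K.tokB n)) ≤
      2 * im F (fun n => (lbn K B g Q kk ll n, K.tokB n)) := by
    apply im_le
    intro n hn
    set P := F.filter (fun k => (lbn K B g Q kk ll k, K.tokB k) =
      (lbn K B g Q kk ll n, K.tokB n)) with hP
    have hPm : ∀ k ∈ P, k ∈ F ∧ lbn K B g Q kk ll k = lbn K B g Q kk ll n ∧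
        K.tokB k = K.tokB n := by
      intro k hk
      rw [hP, mem_filter, Prod.mk.injEq] at hk
      exact ⟨hk.1, hk.2.1, hk.2.2⟩
    -- the minimum and the maximum
    have hnP : n ∈ P := by rw [hP, mem_filter]; exact ⟨hn, rfl⟩
    obtain ⟨kmin, hkmin, hmin⟩ := P.exists_min_image (fun k => mc K (B * Q ^ (4 * gp)) k) ⟨n, hnP⟩
    obtain ⟨kmax, hkmax, hmax⟩ := P.exists_max_image (fun k => mc K (B * Q ^ (4 * gp)) k) ⟨n, hnP⟩
    have hsub : P.image (fun n => (mc K (B * Q ^ (4 * gp)) n, K.tokB n)) ⊆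
        {(mc K (B * Q ^ (4 * gp)) kmin, K.tokB n), (mc K (B * Q ^ (4 * gp)) kmax, K.tokB n)} := by
      intro x hx
      obtain ⟨k, hk, rfl⟩ := mem_image.1 hx
      obtain ⟨q1, q2, q3⟩ := hPm k hk
      rw [mem_insert, mem_singleton, Prod.mk.injEq, Prod.mk.injEq]
      rcases hex k q1 with h | h
      · left
        obtain ⟨r1, r2, r3⟩ := hPm kmin hkmin
        have h1 := h kmin (hF r1) (by rw [r3, q3]) (by rw [r2, q2])
        have h2 := hmin k hk
        exact ⟨le_antisymm h1 h2, q3⟩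
      · right
        obtain ⟨r1, r2, r3⟩ := hPm kmax hkmax
        have h1 := h kmax (hF r1) (by rw [r3, q3]) (by rw [r2, q2])
        have h2 := hmax k hk
        exact ⟨le_antisymm h2 h1, q3⟩
    exact le_trans (card_le_card hsub) card_le_two
  have s2 : im F (fun n => (lbn K B g Q kk ll n, K.tokB n)) ≤
      Q ^ A * im F (fun n => (mc K B n, K.tokB n)) := by
    apply im_le
    intro n hn
    have hnE := hF hn
    have hsub : (F.filter (fun k => (mc K B k, K.tokB k) = (mc K B n, K.tokB n))).image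
        (fun n => (lbn K B g Q kk ll n, K.tokB n)) ⊆
        ((E.filter (fun k => mc K B k = mc K B n)).image (lbn K B g Q kk ll)).image
          (fun v => (v, K.tokB n)) := by
      intro x hx
      obtain ⟨k, hk, rfl⟩ := mem_image.1 hx
      rw [mem_filter, Prod.mk.injEq] at hk
      rw [mem_image]
      refine ⟨lbn K B g Q kk ll k, mem_image_of_mem _ (mem_filter.2 ⟨hF hk.1, hk.2.1⟩), ?_⟩
      rw [hk.2.2]
    exact le_trans (card_le_card hsub) (le_trans card_image_le (hL.cnt n hnE))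
  calc _ ≤ _ := s1
    _ ≤ 2 * (Q ^ A * im F (fun n => (mc K B n, K.tokB n))) := Nat.mul_le_mul_left 2 s2
    _ = _ := by ring

lemma exists_n0 (η X : ℝ) (hη : 0 < η) : ∃ n0 : ℕ, 1 ≤ n0 ∧ X ≤ (n0 : ℝ) ^ η := by
  have h := ((tendsto_rpow_atTop hη).comp tendsto_natCast_atTop_atTop).eventually
    (Filter.eventually_ge_atTop X)
  obtain ⟨n0, h1, h2⟩ := (h.and (Filter.eventually_ge_atTop 1)).exists
  exact ⟨n0, h2, h1⟩

/-- Contradiction with the lower bounds. -/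
lemma small {C1 C2 n : ℝ} {Q B gp A' : ℕ} (Dn imF : ℝ) (hC1 : 1 ≤ C1) (hC2 : 1 ≤ C2) (hn : 0 < n)
    (hB : 0 < B)
    (hD : C1 * C2 * (Q : ℝ) ^ (9 * (A' + 1)) * Dn < (Q : ℝ) ^ gp)
    (hlow : n * ((B * Q ^ (4 * gp) : ℕ) : ℝ) ^ ((1 : ℝ) / 4) ≤
      C2 * ((Q : ℝ) ^ (A' + 1)) ^ 9 * imF)
    (hup : imF ≤ Dn * (C1 * n * (B : ℝ) ^ ((1 : ℝ) / 4))) : False := by
  have hB' : (0 : ℝ) < B := by exact_mod_cast hB
  have hb : (0 : ℝ) < (B : ℝ) ^ ((1 : ℝ) / 4) := Real.rpow_pos_of_pos hB' _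
  have e1 : ((B * Q ^ (4 * gp) : ℕ) : ℝ) ^ ((1 : ℝ) / 4) =
      (B : ℝ) ^ ((1 : ℝ) / 4) * (Q : ℝ) ^ gp := by
    push_cast
    rw [Real.mul_rpow hB'.le (by positivity)]
    congr 1
    rw [Nat.mul_comm, pow_mul]
    have := Real.pow_rpow_inv_natCast (x := (Q : ℝ) ^ gp) (n := 4) (by positivity) (by norm_num)
    have e : ((1 : ℝ) / 4) = ((4 : ℕ) : ℝ)⁻¹ := by norm_num
    rw [e]; exact this
  rw [e1] at hlow
  have e2 : ((Q : ℝ) ^ (A' + 1)) ^ 9 = (Q : ℝ) ^ (9 * (A' + 1)) := by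
    rw [← pow_mul]; congr 1; ring
  rw [e2] at hlow
  have hq : (0 : ℝ) ≤ (Q : ℝ) ^ (9 * (A' + 1)) := by positivity
  have h3 : n * ((B : ℝ) ^ ((1 : ℝ) / 4) * (Q : ℝ) ^ gp) ≤
      (n * (B : ℝ) ^ ((1 : ℝ) / 4)) * (C1 * C2 * (Q : ℝ) ^ (9 * (A' + 1)) * Dn) := by
    calc _ ≤ C2 * (Q : ℝ) ^ (9 * (A' + 1)) * imF := hlow
      _ ≤ C2 * (Q : ℝ) ^ (9 * (A' + 1)) * (Dn * (C1 * n * (B : ℝ) ^ ((1 : ℝ) / 4))) :=
          mul_le_mul_of_nonneg_left hup (by positivity)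
      _ = _ := by ring
  have h4 : (n * (B : ℝ) ^ ((1 : ℝ) / 4)) * (C1 * C2 * (Q : ℝ) ^ (9 * (A' + 1)) * Dn) <
      (n * (B : ℝ) ^ ((1 : ℝ) / 4)) * (Q : ℝ) ^ gp :=
    mul_lt_mul_of_pos_left hD (by positivity)
  have h5 : n * ((B : ℝ) ^ ((1 : ℝ) / 4) * (Q : ℝ) ^ gp) =
      (n * (B : ℝ) ^ ((1 : ℝ) / 4)) * (Q : ℝ) ^ gp := by ring
  linarith

end XStag

open XStag in
theorem I_Stag (h1 : StMc) (h2 : StLoHi) (h3 : StUp) (h4 : StLow) (h5 : StCon) (h6 : StD2)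
    (h7 : StMono) (h8 : StTok) : StStag := by
  classical
  obtain ⟨C1, hC1, up⟩ := h3
  obtain ⟨C2, hC2, low⟩ := h4
  refine ⟨12, ?_⟩
  intro η A A' hη
  obtain ⟨n0, hn1, hn0⟩ := exists_n0 η (2 * (C1 * C2) + 2) hη
  refine ⟨n0, ?_⟩
  intro ι _ _ K hx hgp hn Q hQη hQN B g g' gp t hB hg hgp' hBN E hE kk ll kk' ll' hL hL'
  have hnpos : (0 : ℝ) < Fintype.card ι := by
    have : 1 ≤ Fintype.card ι := le_trans hn1 hn
    exact_mod_cast this
  have hQbig : 2 * (C1 * C2) + 2 ≤ (Q : ℝ) := by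
    refine le_trans hn0 (le_trans ?_ hQη)
    exact Real.rpow_le_rpow (by positivity) (by exact_mod_cast hn) hη.le
  have hCC : 1 ≤ C1 * C2 := by nlinarith
  have hQ1 : (1 : ℝ) ≤ Q := by linarith
  have hQ2 : 2 ≤ Q := by
    have : (2 : ℝ) ≤ Q := by linarith
    exact_mod_cast this
  have hQ : 0 < Q := by omega
  have hB0 : 0 < B := hB
  have hQp : 0 < Q ^ (4 * gp) := Nat.pow_pos hQ
  have hBp : 0 < B * Q ^ (4 * gp) := Nat.mul_pos hB0 hQp
  have hc : IsCells K B (mc K B) := (h1 ι K B hB0).1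
  have hc' : IsCells K (B * Q ^ (4 * gp)) (mc K (B * Q ^ (4 * gp))) := (h1 ι K _ hBp).1
  -- the two exceptional sets
  set F1 := E.filter (fun n => K.t (k1 K B g Q ll n) - K.t (k0 K B g Q kk n) <
      (Q : ℝ) ^ t * (K.t (k1 K (B * Q ^ (4 * gp)) g' Q ll' n) -
      K.t (k0 K (B * Q ^ (4 * gp)) g' Q kk' n))) with hF1
  set F2 := E.filter (fun n => (∀ m ∈ E, K.tokB m = K.tokB n →
        lbn K B g Q kk ll m = lbn K B g Q kk ll n →
        mc K (B * Q ^ (4 * gp)) n ≤ mc K (B * Q ^ (4 * gp)) m) ∨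
      (∀ m ∈ E, K.tokB m = K.tokB n → lbn K B g Q kk ll m = lbn K B g Q kk ll n →
        mc K (B * Q ^ (4 * gp)) m ≤ mc K (B * Q ^ (4 * gp)) n)) with hF2
  have hF1E : F1 ⊆ E := filter_subset _ _
  have hF2E : F2 ⊆ E := filter_subset _ _
  have hbad : E.filter (fun n => ¬ ((Q : ℝ) ^ t * dlb K (B * Q ^ (4 * gp)) g' Q kk' ll' n ≤
      8 * Q * dlb K B g Q kk ll n)) ⊆ F1 ∪ F2 := by
    intro n hnb
    rw [mem_filter] at hnb
    obtain ⟨hnE, hnb⟩ := hnb
    by_contra hcon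
    rw [mem_union, not_or, hF1, hF2, mem_filter, mem_filter, not_and, not_and, not_lt,
      not_or] at hcon
    obtain ⟨g1, g2⟩ := hcon
    obtain ⟨g3, g4⟩ := g2 hnE
    push Not at g3 g4
    obtain ⟨m1, hm1, s1, e1, c1⟩ := g3
    obtain ⟨m2, hm2, s2, e2, c2⟩ := g4
    exact hnb (good h5 h1 h2 h6 h7 h8 K hB0 hQ hE hL hL' hm1 hm2 hnE e1 e2 s1 s2 c1 c2 (g1 hnE))
  -- sizes
  have hH1 : (1 : ℝ) ≤ (Q : ℝ) ^ (A' + 1) := one_le_pow₀ hQ1
  have hQN' : (Fintype.card ι : ℝ) ^ ((4 : ℝ) / 3) ≤ (Q : ℝ) ^ (A' + 1) * K.N := by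
    refine le_trans hQN ?_
    apply mul_le_mul_of_nonneg_right _ (Nat.cast_nonneg _)
    calc (Q : ℝ) = (Q : ℝ) ^ 1 := (pow_one _).symm
      _ ≤ (Q : ℝ) ^ (A' + 1) := pow_le_pow_right₀ hQ1 (by omega)
  have hM1 : 1 ≤ B * Q ^ (4 * gp) := hBp
  have sz1 : Q ^ (A' + 1) * F1.card ≤ K.N := by
    by_contra hcon
    push Not at hcon
    have hd : (K.N : ℝ) ≤ (Q : ℝ) ^ (A' + 1) * F1.card := by exact_mod_cast hcon.le
    have hl := (low ι K hx hgp (B * Q ^ (4 * gp)) (mc K (B * Q ^ (4 * gp))) hM1 hBN hc' F1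
      (hF1E.trans hE) _ hH1 hd hQN').1 false
    have hu := (up ι K hx hgp B (mc K B) hc F1 (hF1E.trans hE)).1 false
    have hcf := cardF1 (t := t) h1 h2 K hB0 hQ hg hE hL hL' F1 hF1E (fun n hn => by
      rw [hF1, mem_filter] at hn; exact hn.2)
    have hcf' : (im F1 (fun n => (mc K (B * Q ^ (4 * gp)) n, K.ln false n)) : ℝ) ≤
        (Q : ℝ) ^ t * (im F1 (fun n => (mc K B n, K.ln false n)) : ℝ) := by
      exact_mod_cast hcf
    have hD : C1 * C2 * (Q : ℝ) ^ (9 * (A' + 1)) * (Q : ℝ) ^ t < (Q : ℝ) ^ gp := by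
      have e : (Q : ℝ) * ((Q : ℝ) ^ (9 * (A' + 1)) * (Q : ℝ) ^ t) ≤ (Q : ℝ) ^ gp := by
        rw [← pow_add, ← pow_succ']
        apply pow_le_pow_right₀ hQ1
        have : 12 * (A + A' + 1) = 12 * A + 12 * A' + 12 := by ring
        omega
      have e2 : (0 : ℝ) < (Q : ℝ) ^ (9 * (A' + 1)) * (Q : ℝ) ^ t := by positivity
      have e3 : C1 * C2 < Q := by linarith
      calc _ = C1 * C2 * ((Q : ℝ) ^ (9 * (A' + 1)) * (Q : ℝ) ^ t) := by ring
        _ < (Q : ℝ) * ((Q : ℝ) ^ (9 * (A' + 1)) * (Q : ℝ) ^ t) := mul_lt_mul_of_pos_right e3 e2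
        _ ≤ _ := e
    exact small ((Q : ℝ) ^ t) _ hC1 hC2 hnpos hB0 hD hl
      (le_trans hcf' (mul_le_mul_of_nonneg_left hu (by positivity)))
  have sz2 : Q ^ (A' + 1) * F2.card ≤ K.N := by
    by_contra hcon
    push Not at hcon
    have hd : (K.N : ℝ) ≤ (Q : ℝ) ^ (A' + 1) * F2.card := by exact_mod_cast hcon.le
    have hl := (low ι K hx hgp (B * Q ^ (4 * gp)) (mc K (B * Q ^ (4 * gp))) hM1 hBN hc' F2
      (hF2E.trans hE) _ hH1 hd hQN').2 false
    have hu := (up ι K hx hgp B (mc K B) hc F2 (hF2E.trans hE)).2 false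
    have hcf := cardF2 (gp := gp) K hL F2 hF2E (fun n hn => by
      rw [hF2, mem_filter] at hn; exact hn.2)
    have hcf' : (im F2 (fun n => (mc K (B * Q ^ (4 * gp)) n, K.tok false n)) : ℝ) ≤
        (2 * (Q : ℝ) ^ A) * (im F2 (fun n => (mc K B n, K.tok false n)) : ℝ) := by
      exact_mod_cast hcf
    have hD : C1 * C2 * (Q : ℝ) ^ (9 * (A' + 1)) * (2 * (Q : ℝ) ^ A) < (Q : ℝ) ^ gp := by
      have e : (Q : ℝ) * ((Q : ℝ) ^ (9 * (A' + 1)) * (Q : ℝ) ^ A) ≤ (Q : ℝ) ^ gp := by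
        rw [← pow_add, ← pow_succ']
        apply pow_le_pow_right₀ hQ1
        have : 12 * (A + A' + 1) = 12 * A + 12 * A' + 12 := by ring
        omega
      have e2 : (0 : ℝ) < (Q : ℝ) ^ (9 * (A' + 1)) * (Q : ℝ) ^ A := by positivity
      have e3 : 2 * (C1 * C2) < Q := by linarith
      calc _ = 2 * (C1 * C2) * ((Q : ℝ) ^ (9 * (A' + 1)) * (Q : ℝ) ^ A) := by ring
        _ < (Q : ℝ) * ((Q : ℝ) ^ (9 * (A' + 1)) * (Q : ℝ) ^ A) := mul_lt_mul_of_pos_right e3 e2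
        _ ≤ _ := e
    exact small (2 * (Q : ℝ) ^ A) _ hC1 hC2 hnpos hB0 hD hl
      (le_trans hcf' (mul_le_mul_of_nonneg_left hu (by positivity)))
  have hcardb := le_trans (card_le_card hbad) (card_union_le F1 F2)
  have h5' : Q * (Q ^ A' * (F1.card + F2.card)) ≤ Q * K.N := by
    calc Q * (Q ^ A' * (F1.card + F2.card)) = Q ^ (A' + 1) * F1.card + Q ^ (A' + 1) * F2.card := by
          ring
      _ ≤ K.N + K.N := Nat.add_le_add sz1 sz2
      _ = 2 * K.N := by ring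
      _ ≤ Q * K.N := Nat.mul_le_mul_right _ hQ2
  have h6' : Q ^ A' * (F1.card + F2.card) ≤ K.N := Nat.le_of_mul_le_mul_left h5' hQ
  exact le_trans (Nat.mul_le_mul_left _ hcardb) h6'

end Pool.Agent.Work.MP_e17eac_co.AS2

end

section

/-!
# Arbitrary sets, block AS2: the two-sided labels
-/

set_option autoImplicit false

namespace Pool.Agent.Work.MP_e17eac_co.AS2

open Finset
open Pool.Agent.Work.MP_e17eac_co.DH
open Pool.Agent.Work.MP_e17eac_co.DH.XSWEEP (GP)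
open Pool.Agent.Work.MP_e17eac_co.MX

namespace XTwo

variable {ι : Type} [Fintype ι] [DecidableEq ι]

/-- Labels are inherited by subsets, and the loss may be enlarged. -/
lemma isLab_sub {K : KSys ι} {r m : ℕ} {D D' : ℝ} {E E' : Finset ℕ} {s s' lam : ℝ}
    {lab : ℕ → ℕ → (ℕ × ℕ × ℕ × Bool) × ℤ} {h0 h1 del : ℕ → ℕ → ℝ}
    (h : IsLab K r m D E s s' lam lab h0 h1 del) (hE : E' ⊆ E) (hD : D ≤ D') :
    IsLab K r m D' E' s s' lam lab h0 h1 del where
  sub i hi := h.sub i (hE hi)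
  lab_cell x hx i hi i' hi' := h.lab_cell x hx i (hE hi) i' (hE hi')
  lab_line x hx i hi i' hi' := h.lab_line x hx i (hE hi) i' (hE hi')
  lab_card x hx i hi := by
    refine le_trans ?_ (le_trans (h.lab_card x hx i (hE hi)) hD)
    have : ((E'.filter (fun k => mc K (r ^ (4 * x)) k = mc K (r ^ (4 * x)) i)).image
        (lab x)).card ≤ ((E.filter (fun k => mc K (r ^ (4 * x)) k =
          mc K (r ^ (4 * x)) i)).image (lab x)).card :=
      card_le_card (image_subset_image (filter_subset_filter _ hE))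
    exact_mod_cast this
  mem x hx i hi := h.mem x hx i (hE hi)
  span x hx i hi := h.span x hx i (hE hi)
  nest x hx i hi := h.nest x hx i (hE hi)
  clo x hx i hi := h.clo x hx i (hE hi)
  con x hx i hi i' hi' hl := by
    obtain ⟨a1, a2⟩ := h.con x hx i (hE hi) i' (hE hi') hl
    have h3 := h.pos x hx i (hE hi)
    have h4 : D * del x i ≤ D' * del x i := mul_le_mul_of_nonneg_right hD h3.le
    exact ⟨le_trans a1 h4, le_trans a2 h4⟩
  pos x hx i hi := h.pos x hx i (hE hi)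
  dec x hx i hi := h.dec x hx i (hE hi)
  stag x hx i hi := h.stag x hx i (hE hi)
  short x hx i hi := h.short x hx i (hE hi)
  side x hx i hi := h.side x hx i (hE hi)

/-- Density of the edges of many lines with many edges. -/
lemma dens (a : ℕ → ι) (P : Finset ι) (E : Finset ℕ) {N n X Y : ℕ} (hn : 0 < n)
    (hY : n ≤ Y * P.card)
    (h : ∀ p ∈ P, N ≤ X * (n * (E.filter (fun i => a i = p)).card)) :
    N ≤ X * Y * (E.filter (fun i => a i ∈ P)).card := by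
  have h1 : (E.filter (fun i => a i ∈ P)).card = ∑ p ∈ P, (E.filter (fun i => a i = p)).card := by
    have hm : Set.MapsTo a ((E.filter (fun i => a i ∈ P) : Finset ℕ) : Set ℕ) (P : Set ι) :=
      fun i hi => by
        have hi' : i ∈ E.filter (fun i => a i ∈ P) := hi
        exact (mem_filter.1 hi').2
    rw [card_eq_sum_card_fiberwise hm]
    refine sum_congr rfl fun p hp => ?_
    rw [filter_filter]
    congr 1
    refine filter_congr fun i _ => ?_
    constructor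
    · exact fun h => h.2
    · intro h
      exact ⟨h ▸ hp, h⟩
  have h2 : N * P.card ≤ X * n * (E.filter (fun i => a i ∈ P)).card := by
    rw [h1, mul_sum]
    calc N * P.card = ∑ _p ∈ P, N := by rw [sum_const, smul_eq_mul, mul_comm]
      _ ≤ ∑ p ∈ P, X * n * (E.filter (fun i => a i = p)).card := by
          refine sum_le_sum fun p hp => ?_
          rw [mul_assoc]
          exact h p hp
  have h3 : N * n ≤ X * Y * (E.filter (fun i => a i ∈ P)).card * n := by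
    calc N * n ≤ N * (Y * P.card) := Nat.mul_le_mul_left _ hY
      _ = Y * (N * P.card) := by ring
      _ ≤ Y * (X * n * (E.filter (fun i => a i ∈ P)).card) := Nat.mul_le_mul_left _ h2
      _ = _ := by ring
  exact Nat.le_of_mul_le_mul_right h3 hn

end XTwo

open XTwo in
theorem I_Two (h1 : StRoot) (h2 : StOne) (h3 : StPop) (h4 : StMc) (h5 : StLoHi) : StTwo := by
  intro m D
  obtain ⟨A0, g0, h1⟩ := h1 D
  obtain ⟨C0, h3⟩ := h3
  obtain ⟨A1, hO1⟩ := h2 m (A0 + A0) g0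
  obtain ⟨A3, hO3⟩ := h2 m (A0 + C0 * (A1 + 1)) g0
  refine ⟨A0 + A1 + A3 + C0 * (A1 + 1) + C0 * (A3 + 1), fun η hη => ?_⟩
  obtain ⟨n0, h1⟩ := h1 η hη
  obtain ⟨n1, hO1⟩ := hO1 η hη
  obtain ⟨n2, hP1⟩ := h3 η A1 hη
  obtain ⟨n3, hO3⟩ := hO3 η hη
  obtain ⟨n4, hP3⟩ := h3 η A3 hη
  refine ⟨n0 + n1 + n2 + n3 + n4 + 1, ?_⟩
  intro ι _ _ K hx hgp hn Q gp hQη hQN hAgp hbig E hE hEN
  set n := Fintype.card ι with hndef
  have hnpos : 1 ≤ n := by omega
  have hnR : (1 : ℝ) ≤ n := by exact_mod_cast hnpos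
  have hQ1R : (1 : ℝ) ≤ Q := le_trans (Real.one_le_rpow hnR hη.le) hQη
  have hQ1 : 1 ≤ Q := by exact_mod_cast hQ1R
  have hNpos : 0 < K.N := by
    by_contra h0
    have h0' : K.N = 0 := by omega
    have h6 : (1 : ℝ) ≤ (n : ℝ) ^ ((4 : ℝ) / 3) := Real.one_le_rpow hnR (by norm_num)
    rw [h0'] at hQN
    simp at hQN
    linarith
  have hQpow : ∀ a b : ℕ, a ≤ b → Q ^ a ≤ Q ^ b := fun a b hab =>
    Nat.pow_le_pow_right hQ1 hab
  have hr1 : 1 ≤ (Q ^ gp) ^ (4 * m) := Nat.one_le_pow _ _ (Nat.one_le_pow _ _ hQ1)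
  have hbig' : ∀ a, a ≤ A0 + A1 + A3 + C0 * (A1 + 1) + C0 * (A3 + 1) →
      (Q ^ gp) ^ (4 * m) * Q ^ a ≤ n := fun a ha =>
    le_trans (Nat.mul_le_mul_left _ (hQpow _ _ ha)) hbig
  have hQA0 : Q ^ A0 ≤ n := by
    refine le_trans ?_ (hbig' A0 (by omega))
    calc Q ^ A0 = 1 * Q ^ A0 := (one_mul _).symm
      _ ≤ _ := Nat.mul_le_mul_right _ hr1
  -- the root pair
  obtain ⟨P0, k, l, hk, hl, hkl, hgood, hP0, hfib⟩ :=
    h1 ι K hx hgp (by omega) Q hQη hQN hQA0 E hE hEN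
  have hM0 : 0 < Q ^ g0 := Nat.pos_of_ne_zero (by positivity)
  have hc : IsCells K (Q ^ g0) (mc K (Q ^ g0)) := (h4 ι K (Q ^ g0) hM0).1
  obtain ⟨k1, k2, k3, k4, k5, k6, k7, k8, -⟩ := h5 ι K _ _ hc k hk
  obtain ⟨l1, l2, l3, l4, l5, l6, l7, l8, -⟩ := h5 ι K _ _ hc l hl
  have hkl2 : hi K (mc K (Q ^ g0)) k < lo (mc K (Q ^ g0)) l :=
    (k8 _ (by omega)).1 (by rw [l4]; exact hkl)
  have htle : ∀ p q : ℕ, p ≤ q → q < K.N → K.t p ≤ K.t q := by
    intro p q hpq hq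
    rcases hpq.lt_or_eq with h | h
    · exact (K.t_lt p q h hq).le
    · rw [h]
  have t1 : K.t (lo (mc K (Q ^ g0)) k) ≤ K.t (hi K (mc K (Q ^ g0)) k) :=
    htle _ _ (le_trans k1 k2) k3
  have t2 : K.t (hi K (mc K (Q ^ g0)) k) < K.t (lo (mc K (Q ^ g0)) l) :=
    K.t_lt _ _ hkl2 (by omega)
  have t3 : K.t (lo (mc K (Q ^ g0)) l) ≤ K.t (hi K (mc K (Q ^ g0)) l) :=
    htle _ _ (le_trans l1 l2) l3
  have hff : ∀ (z : ℕ) (p : ι), E.filter (fun n => K.a n = p ∧ mc K (Q ^ g0) n = z) =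
      (E.filter (fun n => mc K (Q ^ g0) n = z)).filter (fun n => K.a n = p) := by
    intro z p
    rw [filter_filter]
    refine filter_congr fun i _ => ?_
    exact and_comm
  -- the left side
  have hd1 : K.N ≤ Q ^ (A0 + A0) * ((E.filter (fun n => mc K (Q ^ g0) n =
      mc K (Q ^ g0) k)).filter (fun n => K.a n ∈ P0)).card := by
    rw [pow_add]
    refine dens K.a P0 _ hnpos hP0 fun p hp => ?_
    rw [← hff]
    exact (hfib p hp).1
  have hsubk : ((E.filter (fun n => mc K (Q ^ g0) n = mc K (Q ^ g0) k)).filter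
      (fun n => K.a n ∈ P0)) ⊆ E := (filter_subset _ _).trans (filter_subset _ _)
  obtain ⟨E0', hE0', lab, h0, h1', dl, hE0N, hlab⟩ := hO1 ι K hx hgp (by omega) Q gp hQη hQN
    (by omega) (hbig' A1 (by omega)) _ (hsubk.trans hE) hd1 k hk
    (fun n hn => (mem_filter.1 (mem_filter.1 hn).1).2)
    (K.t (hi K (mc K (Q ^ g0)) l) - K.t (lo (mc K (Q ^ g0)) k)) (by
      unfold len
      linarith)
  obtain ⟨P1, hP1n, hP1f⟩ := hP1 ι K hx hgp (by omega) Q hQη hQN E0'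
    (hE0'.trans (hsubk.trans hE)) hE0N
  have hP1P0 : ∀ p ∈ P1, p ∈ P0 := by
    intro p hp
    have h6 := hP1f p hp
    have h7 : (E0'.filter (fun n => K.a n = p)).Nonempty := by
      rw [← card_pos]
      by_contra h8
      have h9 : (E0'.filter (fun n => K.a n = p)).card = 0 := by omega
      rw [h9] at h6
      simp at h6
      omega
    obtain ⟨i, hi⟩ := h7
    obtain ⟨hi1, hi2⟩ := mem_filter.1 hi
    rw [← hi2]
    exact (mem_filter.1 (hE0' hi1)).2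
  -- the right side
  have hd2 : K.N ≤ Q ^ (A0 + C0 * (A1 + 1)) * ((E.filter (fun n => mc K (Q ^ g0) n =
      mc K (Q ^ g0) l)).filter (fun n => K.a n ∈ P1)).card := by
    rw [pow_add]
    refine dens K.a P1 _ hnpos hP1n fun p hp => ?_
    rw [← hff]
    exact (hfib p (hP1P0 p hp)).2
  have hsubl : ((E.filter (fun n => mc K (Q ^ g0) n = mc K (Q ^ g0) l)).filter
      (fun n => K.a n ∈ P1)) ⊆ E := (filter_subset _ _).trans (filter_subset _ _)
  obtain ⟨E1', hE1', lab', h0', h1'', dl', hE1N, hlab'⟩ := hO3 ι K hx hgp (by omega) Q gp hQη hQN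
    (by omega) (hbig' A3 (by omega)) _ (hsubl.trans hE) hd2 l hl
    (fun n hn => (mem_filter.1 (mem_filter.1 hn).1).2)
    (K.t (hi K (mc K (Q ^ g0)) l) - K.t (lo (mc K (Q ^ g0)) k)) (by
      unfold len
      linarith)
  obtain ⟨P2, hP2n, hP2f⟩ := hP3 ι K hx hgp (by omega) Q hQη hQN E1'
    (hE1'.trans (hsubl.trans hE)) hE1N
  have hP2P1 : ∀ p ∈ P2, p ∈ P1 := by
    intro p hp
    have h6 := hP2f p hp
    have h7 : (E1'.filter (fun n => K.a n = p)).Nonempty := by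
      rw [← card_pos]
      by_contra h8
      have h9 : (E1'.filter (fun n => K.a n = p)).card = 0 := by omega
      rw [h9] at h6
      simp at h6
      omega
    obtain ⟨i, hi⟩ := h7
    obtain ⟨hi1, hi2⟩ := mem_filter.1 hi
    rw [← hi2]
    exact (mem_filter.1 (hE1' hi1)).2
  have hres : ∀ (F : Finset ℕ) (p : ι), p ∈ P2 →
      (F.filter (fun n => K.a n ∈ P2)).filter (fun n => K.a n = p) =
        F.filter (fun n => K.a n = p) := by
    intro F p hp
    rw [filter_filter]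
    refine filter_congr fun i _ => ?_
    constructor
    · exact fun h => h.2
    · intro h
      exact ⟨h ▸ hp, h⟩
  have hQR : ∀ a b : ℕ, a ≤ b → (Q : ℝ) ^ a ≤ (Q : ℝ) ^ b := fun a b hab => by
    exact_mod_cast hQpow a b hab
  refine ⟨P2, E0'.filter (fun n => K.a n ∈ P2), E1'.filter (fun n => K.a n ∈ P2),
    K.t (lo (mc K (Q ^ g0)) k), K.t (hi K (mc K (Q ^ g0)) k), K.t (lo (mc K (Q ^ g0)) l),
    K.t (hi K (mc K (Q ^ g0)) l), lab, lab', h0, h1', dl, h0', h1'', dl',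
    ((filter_subset _ _).trans hE0').trans hsubk, ((filter_subset _ _).trans hE1').trans hsubl,
    t1, t2, t3, hgood, ?_, fun n hn => (mem_filter.1 hn).2, fun n hn => (mem_filter.1 hn).2,
    ?_, ?_, ?_, ?_⟩
  · exact le_trans hP2n (Nat.mul_le_mul_right _ (hQpow _ _ (by omega)))
  · intro p hp
    rw [hres _ _ hp]
    exact le_trans (hP1f p (hP2P1 p hp)) (Nat.mul_le_mul_right _ (hQpow _ _ (by omega)))
  · intro p hp
    rw [hres _ _ hp]
    exact le_trans (hP2f p hp) (Nat.mul_le_mul_right _ (hQpow _ _ (by omega)))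
  · exact isLab_sub hlab (filter_subset _ _) (hQR _ _ (by omega))
  · exact isLab_sub hlab' (filter_subset _ _) (hQR _ _ (by omega))

end Pool.Agent.Work.MP_e17eac_co.AS2

end
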