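import Pool.Agent.Work.MP_e17eac_co.Bd.B14
import Pool.Agent.Work.MP_e17eac_co.Bd.B25

/-! Bundle of small proof modules (one section per former module). -/

section

/-!
# Arbitrary sets, block AS2: contact
-/

namespace Pool.Agent.Work.MP_e17eac_co.AS2

open Finset
open Pool.Agent.Work.MP_e17eac_co.DH
open Pool.Agent.Work.MP_e17eac_co.MX

namespace XCon

theorem aff_le {α β u v w M : ℝ} (h1 : α + β * u ≤ M) (h2 : α + β * v ≤ M) (hu : u ≤ w)
    (hv : w ≤ v) : α + β * w ≤ M := by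
  rcases le_total 0 β with hb | hb
  · have := mul_le_mul_of_nonneg_left hv hb
    linarith
  · have := mul_le_mul_of_nonpos_left hu hb
    linarith

/-- Extension from the gap to a point of the hull. -/
theorem ext {α β g0 g1 s e d Q M : ℝ} (hd : g0 < g1) (a0 : |α + β * g0| ≤ M)
    (a1 : |α + β * g1| ≤ M) (hQ : e ≤ Q * (g1 - g0)) (hs : d = 0 ∨ d = 1)
    (h0 : d = 0 → s ≤ g0 ∧ g1 - s ≤ e) (h1 : d = 1 → g1 ≤ s ∧ s - g0 ≤ e) :
    |α + β * s| ≤ 2 * Q * M := by
  have hM : 0 ≤ M := le_trans (abs_nonneg _) a0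
  have hd' : 0 < g1 - g0 := by linarith
  rw [abs_le] at a0 a1
  rcases hs with h | h
  · obtain ⟨b1, b2⟩ := h0 h
    have e1 : (α + β * s) * (g1 - g0) = (α + β * g0) * (g1 - s) - (α + β * g1) * (g0 - s) := by
      ring
    have e2 : |(α + β * s) * (g1 - g0)| ≤ (2 * Q * M) * (g1 - g0) := by
      rw [e1, abs_le]
      have c1 : 0 ≤ g1 - s := by linarith
      have c2 : 0 ≤ g0 - s := by linarith
      have c3 : M * (g1 - s) ≤ M * (Q * (g1 - g0)) := mul_le_mul_of_nonneg_left (by linarith) hM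
      have c4 : M * (g0 - s) ≤ M * (Q * (g1 - g0)) := mul_le_mul_of_nonneg_left (by linarith) hM
      have d1 := mul_le_mul_of_nonneg_right a0.1 c1
      have d2 := mul_le_mul_of_nonneg_right a0.2 c1
      have d3 := mul_le_mul_of_nonneg_right a1.1 c2
      have d4 := mul_le_mul_of_nonneg_right a1.2 c2
      constructor <;> linarith
    rw [abs_mul, abs_of_pos hd'] at e2
    exact le_of_mul_le_mul_right e2 hd'
  · obtain ⟨b1, b2⟩ := h1 h
    have e1 : (α + β * s) * (g1 - g0) = (α + β * g1) * (s - g0) - (α + β * g0) * (s - g1) := by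
      ring
    have e2 : |(α + β * s) * (g1 - g0)| ≤ (2 * Q * M) * (g1 - g0) := by
      rw [e1, abs_le]
      have c1 : 0 ≤ s - g0 := by linarith
      have c2 : 0 ≤ s - g1 := by linarith
      have c3 : M * (s - g0) ≤ M * (Q * (g1 - g0)) := mul_le_mul_of_nonneg_left (by linarith) hM
      have c4 : M * (s - g1) ≤ M * (Q * (g1 - g0)) := mul_le_mul_of_nonneg_left (by linarith) hM
      have d1 := mul_le_mul_of_nonneg_right a1.1 c1
      have d2 := mul_le_mul_of_nonneg_right a1.2 c1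
      have d3 := mul_le_mul_of_nonneg_right a0.1 c2
      have d4 := mul_le_mul_of_nonneg_right a0.2 c2
      constructor <;> linarith
    rw [abs_mul, abs_of_pos hd'] at e2
    exact le_of_mul_le_mul_right e2 hd'

variable {ι : Type} [Fintype ι] [DecidableEq ι]

theorem t_le (K : KSys ι) {i j : ℕ} (h : i ≤ j) (hj : j < K.N) : K.t i ≤ K.t j := by
  rcases h.eq_or_lt with e | e
  · rw [e]
  · exact (K.t_lt i j e hj).le

theorem idx_lt (K : KSys ι) {k l : ℕ} {g0 g1 : ℝ} (hk : k < K.N) (h1 : K.t k ≤ g0) (h2 : g0 < g1)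
    (h3 : g1 ≤ K.t l) : k < l := by
  by_contra hc
  have := t_le K (not_lt.mp hc) hk
  linarith

/-- The core: one-sided bounds at the four edges. -/
theorem core (K : KSys ι) (p p' : ι) (i0 i1 k l k' l' : ℕ) (g0 g1 Q M : ℝ) (hN : i1 < K.N)
    (hk : i0 ≤ k) (hk1 : k ≤ i1) (hl : l ≤ i1)
    (c1 : K.t k ≤ g0) (c2 : K.t k' ≤ g0) (c3 : g0 < g1) (c4 : g1 ≤ K.t l) (c5 : g1 ≤ K.t l')
    (hQ : K.t i1 - K.t i0 ≤ Q * (g1 - g0))
    (u1 : K.ht p (K.t k) - K.ht p' (K.t k) ≤ M) (u2 : K.ht p (K.t l) - K.ht p' (K.t l) ≤ M)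
    (u3 : K.ht p' (K.t k') - K.ht p (K.t k') ≤ M) (u4 : K.ht p' (K.t l') - K.ht p (K.t l') ≤ M)
    (s : ℝ) (hs : s = K.t i0 ∨ s = K.t i1) : |K.ht p s - K.ht p' s| ≤ 2 * Q * M := by
  have key : ∀ s, K.ht p s - K.ht p' s = (K.y p - K.y p') + (K.x p - K.x p') * s := by
    intro s
    simp only [KSys.ht]
    ring
  have key' : ∀ s, K.ht p' s - K.ht p s = (K.y p' - K.y p) + (K.x p' - K.x p) * s := by
    intro s
    simp only [KSys.ht]
    ring
  rw [key] at u1 u2
  rw [key'] at u3 u4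
  have t0 : K.t i0 ≤ K.t k := t_le K hk (by omega)
  have t1 : K.t l ≤ K.t i1 := t_le K hl hN
  have f0 := aff_le u1 u2 c1 (by linarith)
  have f1 := aff_le u1 u2 (le_trans c1 c3.le) c4
  have f2 := aff_le u3 u4 c2 (by linarith)
  have f3 := aff_le u3 u4 (le_trans c2 c3.le) c5
  have a0 : |(K.y p - K.y p') + (K.x p - K.x p') * g0| ≤ M := by
    rw [abs_le]; constructor <;> linarith
  have a1 : |(K.y p - K.y p') + (K.x p - K.x p') * g1| ≤ M := by
    rw [abs_le]; constructor <;> linarith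
  rw [key]
  rcases hs with rfl | rfl
  · exact ext (d := 0) c3 a0 a1 hQ (Or.inl rfl) (fun _ => ⟨by linarith, by linarith⟩)
      (fun h => absurd h (by norm_num))
  · exact ext (d := 1) c3 a0 a1 hQ (Or.inr rfl) (fun h => absurd h (by norm_num))
      (fun _ => ⟨by linarith, by linarith⟩)

theorem con_core (h0 : StUD) (K : KSys ι) (p p' : ι) (i0 i1 k l k' l' : ℕ) (g0 g1 Q : ℝ)
    (hN : i1 < K.N) (hkN : k < K.N) (hkN' : k' < K.N) (hk : i0 ≤ k) (hk' : i0 ≤ k') (hl : l ≤ i1)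
    (hl' : l' ≤ i1) (ak : K.a k = p) (al : K.a l = p) (ak' : K.a k' = p') (al' : K.a l' = p')
    (c1 : K.t k ≤ g0) (c2 : K.t k' ≤ g0) (c3 : g0 < g1) (c4 : g1 ≤ K.t l) (c5 : g1 ≤ K.t l')
    (hQ : K.t i1 - K.t i0 ≤ Q * (g1 - g0)) (hty : ty K p i0 i1 = ty K p' i0 i1) (s : ℝ)
    (hs : s = K.t i0 ∨ s = K.t i1) :
    |K.ht p s - K.ht p' s| ≤ 2 * Q * max (del K p i0 i1) (del K p' i0 i1) := by
  have kl : k < l := idx_lt K hkN c1 c3 c4
  have kl' : k' < l' := idx_lt K hkN' c2 c3 c5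
  have hk : K.h k = K.ht p (K.t k) := by rw [KSys.h, ak]
  have hl : K.h l = K.ht p (K.t l) := by rw [KSys.h, al]
  have hk' : K.h k' = K.ht p' (K.t k') := by rw [KSys.h, ak']
  have hl' : K.h l' = K.ht p' (K.t l') := by rw [KSys.h, al']
  obtain ⟨U, -, D, -⟩ := h0 ι K p i0 i1 (by omega)
  obtain ⟨U', -, D', -⟩ := h0 ι K p' i0 i1 (by omega)
  have m1 := le_max_left (del K p i0 i1) (del K p' i0 i1)
  have m2 := le_max_right (del K p i0 i1) (del K p' i0 i1)
  by_cases ht : up K p i0 i1 ≤ dn K p i0 i1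
  · have ht' : up K p' i0 i1 ≤ dn K p' i0 i1 := by
      have : ty K p i0 i1 = true := by simp [ty, ht]
      rw [hty] at this
      simpa [ty] using this
    have d1 : del K p i0 i1 = up K p i0 i1 := min_eq_left ht
    have d2 : del K p' i0 i1 = up K p' i0 i1 := min_eq_left ht'
    have v1 := U' k (by omega) (by omega)
    have v2 := U' l (by omega) (by omega)
    have v3 := U k' (by omega) (by omega)
    have v4 := U l' (by omega) (by omega)
    exact core K p p' i0 i1 k l k' l' g0 g1 Q _ hN (by omega) (by omega) (by omega) c1 c2 c3 c4 c5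
      hQ (by linarith) (by linarith) (by linarith) (by linarith) s hs
  · have ht' : ¬ up K p' i0 i1 ≤ dn K p' i0 i1 := by
      have : ty K p i0 i1 = false := by simp [ty, ht]
      rw [hty] at this
      simpa [ty] using this
    have d1 : del K p i0 i1 = dn K p i0 i1 := min_eq_right (not_le.mp ht).le
    have d2 : del K p' i0 i1 = dn K p' i0 i1 := min_eq_right (not_le.mp ht').le
    have v1 := D' k (by omega) (by omega)
    have v2 := D' l (by omega) (by omega)
    have v3 := D k' (by omega) (by omega)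
    have v4 := D l' (by omega) (by omega)
    rw [abs_sub_comm]
    exact core K p' p i0 i1 k l k' l' g0 g1 Q _ hN (by omega) (by omega) (by omega) c1 c2 c3 c4 c5
      hQ (by linarith) (by linarith) (by linarith) (by linarith) s hs

end XCon

theorem I_Con (h0 : StUD) : StCon := by
  intro ι _ _ K p p' i0 i1 k l k' l' g0 g1 Q hN hkN hkN' hk hk' hl hl' ak al ak' al' c1 c2 c3 c4 c5
    hQ hty s hs
  exact XCon.con_core h0 K p p' i0 i1 k l k' l' g0 g1 Q hN hkN hkN' hk hk' hl hl' ak al ak' al' c1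
    c2 c3 c4 c5 hQ hty s hs

end Pool.Agent.Work.MP_e17eac_co.AS2

end

section

/-!
# Arbitrary sets, block AS2: item Crowd (helper66)

Few edges lie in crowded cells.
-/

set_option autoImplicit false

namespace Pool.Agent.Work.MP_e17eac_co.AS2

open Finset
open Pool.Agent.Work.MP_e17eac_co.DH
open Pool.Agent.Work.MP_e17eac_co.DH.XSWEEP (GP)
open Pool.Agent.Work.MP_e17eac_co.MX

namespace XCrowd

theorem num (C n q M X : ℝ) (hC : 1 ≤ C) (hn : 0 < n) (hq : 27 * C ^ 4 ≤ q) (hM : 0 < M)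
    (hX : 0 ≤ X)
    (h : X ≤ (C * n / (q * n / M ^ ((3 : ℝ) / 4))) ^ ((4 : ℝ) / 3)) : 3 * X * q ≤ M := by
  have hC0 : 0 < C := by linarith
  have hq0 : 0 < q := lt_of_lt_of_le (by positivity) hq
  obtain ⟨m, hm⟩ : ∃ m, m = M ^ ((3 : ℝ) / 4) := ⟨_, rfl⟩
  have hm0 : 0 < m := by
    rw [hm]
    exact Real.rpow_pos_of_pos hM _
  have hm4 : m ^ 4 = M ^ 3 := by
    rw [hm, ← Real.rpow_natCast, ← Real.rpow_mul hM.le, ← Real.rpow_natCast]
    norm_num
  rw [← hm] at h
  have e : C * n / (q * n / m) = C * m / q := by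
    field_simp
  rw [e] at h
  have hY : 0 ≤ C * m / q := by positivity
  have h3 : X ^ 3 ≤ (C * m / q) ^ 4 := by
    calc X ^ 3 ≤ ((C * m / q) ^ ((4 : ℝ) / 3)) ^ 3 := pow_le_pow_left₀ hX h 3
      _ = (C * m / q) ^ 4 := by
          rw [← Real.rpow_natCast, ← Real.rpow_mul hY, ← Real.rpow_natCast]
          norm_num
  have h4 : (3 * X * q) ^ 3 ≤ M ^ 3 := by
    calc (3 * X * q) ^ 3 = 27 * q ^ 3 * X ^ 3 := by ring
      _ ≤ 27 * q ^ 3 * (C * m / q) ^ 4 := mul_le_mul_of_nonneg_left h3 (by positivity)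
      _ = 27 * C ^ 4 * M ^ 3 / q := by
          rw [← hm4]
          field_simp
      _ ≤ M ^ 3 := by
          rw [div_le_iff₀ hq0, mul_comm (M ^ 3)]
          exact mul_le_mul_of_nonneg_right hq (by positivity)
  exact (pow_le_pow_iff_left₀ (by positivity) hM.le (by norm_num)).1 h4

end XCrowd

theorem I_Crowd (h1 : StT2i) (h2 : StLoHi) : StCrowd := by
  classical
  obtain ⟨C, hC, hT⟩ := h1
  refine ⟨⌈27 * C ^ 4⌉₊, ?_⟩
  intro ι _ _ K hinj hGP Q A M hQ hA hM hMN c hc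
  obtain ⟨Bd, hBd⟩ : ∃ Bd : Finset ℕ, Bd = (range K.N).filter (fun n =>
    (Q : ℝ) ^ A * Fintype.card ι < ((vf K c (c n)).card : ℝ) * (M : ℝ) ^ ((3 : ℝ) / 4)) :=
    ⟨_, rfl⟩
  have hlh := h2 ι K M c hc
  have hQR : 27 * C ^ 4 ≤ (Q : ℝ) := (Nat.le_ceil _).trans (by exact_mod_cast hQ)
  have hQ1 : (1 : ℝ) ≤ Q := by
    have : (1 : ℝ) ≤ C ^ 4 := one_le_pow₀ hC
    linarith
  have hqA : 27 * C ^ 4 ≤ (Q : ℝ) ^ A := by
    refine hQR.trans ?_
    calc (Q : ℝ) = (Q : ℝ) ^ 1 := (pow_one _).symm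
      _ ≤ (Q : ℝ) ^ A := pow_le_pow_right₀ hQ1 hA
  have hq0 : (0 : ℝ) < (Q : ℝ) ^ A := by positivity
  have hMR : (0 : ℝ) < M := by exact_mod_cast hM
  have hm0 : (0 : ℝ) < (M : ℝ) ^ ((3 : ℝ) / 4) := Real.rpow_pos_of_pos hMR _
  have hn0 : (0 : ℝ) < Fintype.card ι := by
    have : 0 < Fintype.card ι := Fintype.card_pos_iff.2 ⟨K.a 0⟩
    exact_mod_cast this
  have hBdN : ∀ n ∈ Bd, n < K.N := by
    intro n hn
    rw [hBd, mem_filter, mem_range] at hn
    exact hn.1
  -- windows of the classes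
  have hvf : ∀ n, n < K.N → vf K c (c n) = vi K (lo c n) (hi K c n + 1) := by
    intro n hn
    obtain ⟨-, -, hhi, -, -, hcl, -⟩ := hlh n hn
    unfold vf vi
    congr 1
    ext m
    rw [mem_filter, mem_range, mem_Ico]
    constructor
    · rintro ⟨hm, hm'⟩
      have := (hcl m hm).1 hm'
      omega
    · rintro ⟨hm, hm'⟩
      have hmN : m < K.N := by omega
      exact ⟨hmN, (hcl m hmN).2 ⟨hm, by omega⟩⟩
  have key := (hT ι K hinj hGP ℕ (Bd.image c) (fun z => sInf {m | c m = z})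
    (fun z => ((range K.N).filter (fun m => c m = z)).sup id + 1) ?_ ?_).2
    ((Q : ℝ) ^ A * Fintype.card ι / (M : ℝ) ^ ((3 : ℝ) / 4)) (by positivity) ?_
  rotate_left
  · intro z hz
    obtain ⟨n, hn, rfl⟩ := mem_image.1 hz
    exact (hlh n (hBdN n hn)).2.2.1
  · intro z hz z' hz' hne
    obtain ⟨n, hn, rfl⟩ := mem_image.1 hz
    obtain ⟨n', hn', rfl⟩ := mem_image.1 hz'
    obtain ⟨-, -, a3, -, a5, -, -, -, -⟩ := hlh n (hBdN n hn)
    obtain ⟨-, -, b3, -, b5, -, -, -, -⟩ := hlh n' (hBdN n' hn')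
    rcases lt_or_gt_of_ne hne with hlt | hlt
    · left
      exact ((hlh n' (hBdN n' hn')).2.2.2.2.2.2.1 (hi K c n) a3).1 (by rw [a5]; exact hlt)
    · right
      exact ((hlh n (hBdN n hn)).2.2.2.2.2.2.1 (hi K c n') b3).1 (by rw [b5]; exact hlt)
  · intro z hz
    obtain ⟨n, hn, rfl⟩ := mem_image.1 hz
    have hnN := hBdN n hn
    have e : vi K (sInf {m | c m = c n})
        (((range K.N).filter (fun m => c m = c n)).sup id + 1) = vf K c (c n) :=
      (hvf n hnN).symm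
    rw [hBd, mem_filter] at hn
    rw [e, div_le_iff₀ hm0]
    exact hn.2.le
  have hX := XCrowd.num C (Fintype.card ι) ((Q : ℝ) ^ A) M ((Bd.image c).card : ℝ) hC hn0 hqA hMR
    (by positivity) key
  -- sizes of the classes
  have hsz : Bd.card ≤ (K.N + 2 * M) / M * (Bd.image c).card := by
    refine card_le_mul_card_image Bd _ fun z _ => ?_
    rw [Nat.le_div_iff_mul_le hM]
    refine le_trans (Nat.mul_le_mul_right _ (card_le_card ?_)) (hc.size z)
    intro m hm
    rw [mem_filter] at hm ⊢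
    exact ⟨mem_range.2 (hBdN m hm.1), hm.2⟩
  have hsz2 : (Bd.card : ℝ) * M ≤ 3 * K.N * ((Bd.image c).card : ℝ) := by
    have h5 : Bd.card * M ≤ 3 * K.N * (Bd.image c).card := by
      calc Bd.card * M ≤ (K.N + 2 * M) / M * (Bd.image c).card * M := Nat.mul_le_mul_right _ hsz
        _ = (K.N + 2 * M) / M * M * (Bd.image c).card := by ring
        _ ≤ (K.N + 2 * M) * (Bd.image c).card :=
            Nat.mul_le_mul_right _ (Nat.div_mul_le_self _ _)
        _ ≤ 3 * K.N * (Bd.image c).card := Nat.mul_le_mul_right _ (by omega)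
    exact_mod_cast h5
  have hfin : (Q : ℝ) ^ A * (Bd.card : ℝ) ≤ K.N := by
    refine le_of_mul_le_mul_right ?_ hMR
    calc (Q : ℝ) ^ A * (Bd.card : ℝ) * M = (Q : ℝ) ^ A * ((Bd.card : ℝ) * M) := by ring
      _ ≤ (Q : ℝ) ^ A * (3 * K.N * ((Bd.image c).card : ℝ)) :=
          mul_le_mul_of_nonneg_left hsz2 hq0.le
      _ = (K.N : ℝ) * (3 * ((Bd.image c).card : ℝ) * (Q : ℝ) ^ A) := by ring
      _ ≤ (K.N : ℝ) * M := mul_le_mul_of_nonneg_left hX (by positivity)
  rw [hBd] at hfin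
  exact_mod_cast hfin

end Pool.Agent.Work.MP_e17eac_co.AS2

end

section

namespace Pool.Agent.Work.MP_e17eac_co.AS2

open Finset
open Pool.Agent.Work.MP_e17eac_co.DH
open Pool.Agent.Work.MP_e17eac_co.MX

theorem I_D2 (h0 : StUD) (h1 : StLeq) (h2 : StSand) : StD2 := by
  intro ι _ _ K n i0 i1 hn0 hn1 hN
  obtain ⟨_, _, _, j, hj0, hj1, hj⟩ := h0 ι K (K.a n) i0 i1 (by omega)
  rw [hj]
  have e0 := h1 ι K i0 (by omega)
  have e1 := h1 ι K i1 hN
  have ej := h1 ι K j (by omega)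
  have tm : ∀ a b, a ≤ b → b < K.N → K.t a ≤ K.t b := by
    intro a b hab hb
    rcases Nat.eq_or_lt_of_le hab with h | h
    · rw [h]
    · exact (K.t_lt a b h hb).le
  have := (h2 ι K n i0 (i1 + 1) (K.t i0) (K.t i1) (K.t j) false (by omega) e0.2.2.2.1
    e1.2.2.2.2 hn0 (by omega) (tm _ _ hj0 (by omega)) (tm _ _ hj1 hN)).1
  rw [ej.1] at this
  have e2 : K.ln false n = K.a n := rfl
  rw [e2] at this
  linarith

end Pool.Agent.Work.MP_e17eac_co.AS2

end

section

/-!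
# Arbitrary sets, block AS2, item DeyS: Dey's bound in every class, and Hoelder
-/

namespace Pool.Agent.Work.MP_e17eac_co.AS2

open Finset
open Pool.Agent.Work.MP_e17eac_co.DH
open Pool.Agent.Work.MP_e17eac_co.MX

namespace XDeyS

/-- The number of pairs (class, value) is the sum over the classes of the numbers of values. -/
theorem im_pair {α β : Type} [DecidableEq α] [DecidableEq β] (E : Finset ℕ) (κ : ℕ → β)
    (f : ℕ → α) : im E (fun n => (κ n, f n)) =
      ∑ z ∈ E.image κ, ((E.filter (fun m => κ m = z)).image f).card := by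
  unfold im
  rw [Finset.card_eq_sum_card_fiberwise (f := Prod.fst) (t := E.image κ)]
  · apply Finset.sum_congr rfl
    intro z _
    apply Finset.card_bij (fun (w : β × α) _ => w.2)
    · intro w hw
      rw [Finset.mem_filter, Finset.mem_image] at hw
      obtain ⟨⟨n, hn, rfl⟩, hz⟩ := hw
      exact Finset.mem_image.2 ⟨n, Finset.mem_filter.2 ⟨hn, hz⟩, rfl⟩
    · intro w hw w' hw' h
      rw [Finset.mem_filter] at hw hw'
      exact Prod.ext (hw.2.trans hw'.2.symm) h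
    · intro v hv
      rw [Finset.mem_image] at hv
      obtain ⟨n, hn, rfl⟩ := hv
      rw [Finset.mem_filter] at hn
      exact ⟨(z, f n), Finset.mem_filter.2 ⟨Finset.mem_image.2 ⟨n, hn.1, by rw [hn.2]⟩, rfl⟩, rfl⟩
  · intro w hw
    rw [Finset.mem_coe, Finset.mem_image] at hw
    obtain ⟨n, hn, rfl⟩ := hw
    exact Finset.mem_coe.2 (Finset.mem_image.2 ⟨n, hn, rfl⟩)

/-- Hoelder for three factors. -/
theorem holder {β : Type} (Z : Finset β) (b x y : β → ℝ) (hb : ∀ z ∈ Z, 0 ≤ b z)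
    (hx : ∀ z ∈ Z, 0 ≤ x z) (hy : ∀ z ∈ Z, 0 ≤ y z) :
    ∑ z ∈ Z, (b z * x z * y z) ^ ((1 : ℝ) / 3) ≤
      ((∑ z ∈ Z, b z) * (∑ z ∈ Z, x z) * (∑ z ∈ Z, y z)) ^ ((1 : ℝ) / 3) := by
  set B := ∑ z ∈ Z, b z with hB
  set X := ∑ z ∈ Z, x z with hX
  set Y := ∑ z ∈ Z, y z with hY
  have hB0 : 0 ≤ B := Finset.sum_nonneg hb
  have hX0 : 0 ≤ X := Finset.sum_nonneg hx
  have hY0 : 0 ≤ Y := Finset.sum_nonneg hy
  have hR0 : 0 ≤ (B * X * Y) ^ ((1 : ℝ) / 3) := Real.rpow_nonneg (by positivity) _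
  -- zero cases
  have key : ∀ c : β → ℝ, (∀ z ∈ Z, 0 ≤ c z) → (∑ z ∈ Z, c z) = 0 → ∀ z ∈ Z, c z = 0 := by
    intro c hc h
    exact (Finset.sum_eq_zero_iff_of_nonneg hc).1 h
  have zero : (∀ z ∈ Z, b z * x z * y z = 0) →
      ∑ z ∈ Z, (b z * x z * y z) ^ ((1 : ℝ) / 3) ≤ (B * X * Y) ^ ((1 : ℝ) / 3) := by
    intro h
    rw [Finset.sum_eq_zero]
    · exact hR0
    · intro z hz
      rw [h z hz, Real.zero_rpow (by norm_num)]
  rcases hB0.eq_or_lt with h | hBp
  · exact zero (fun z hz => by rw [key b hb h.symm z hz]; ring)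
  rcases hX0.eq_or_lt with h | hXp
  · exact zero (fun z hz => by rw [key x hx h.symm z hz]; ring)
  rcases hY0.eq_or_lt with h | hYp
  · exact zero (fun z hz => by rw [key y hy h.symm z hz]; ring)
  have hterm : ∀ z ∈ Z, (b z * x z * y z) ^ ((1 : ℝ) / 3) ≤
      (B * X * Y) ^ ((1 : ℝ) / 3) * ((1 / 3) * (b z / B) + (1 / 3) * (x z / X) +
        (1 / 3) * (y z / Y)) := by
    intro z hz
    have hb0 : 0 ≤ b z / B := div_nonneg (hb z hz) hB0
    have hx0 : 0 ≤ x z / X := div_nonneg (hx z hz) hX0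
    have hy0 : 0 ≤ y z / Y := div_nonneg (hy z hz) hY0
    have h1 := Real.geom_mean_le_arith_mean3_weighted (w₁ := 1 / 3) (w₂ := 1 / 3) (w₃ := 1 / 3)
      (by norm_num) (by norm_num) (by norm_num) hb0 hx0 hy0 (by norm_num)
    have h2 : b z * x z * y z = (B * X * Y) * ((b z / B) * (x z / X) * (y z / Y)) := by
      field_simp
    rw [h2, Real.mul_rpow (by positivity) (by positivity), Real.mul_rpow (by positivity) hy0,
      Real.mul_rpow hb0 hx0]
    exact mul_le_mul_of_nonneg_left h1 hR0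
  calc ∑ z ∈ Z, (b z * x z * y z) ^ ((1 : ℝ) / 3)
      ≤ ∑ z ∈ Z, (B * X * Y) ^ ((1 : ℝ) / 3) * ((1 / 3) * (b z / B) + (1 / 3) * (x z / X) +
        (1 / 3) * (y z / Y)) := Finset.sum_le_sum hterm
    _ = (B * X * Y) ^ ((1 : ℝ) / 3) * ((1 / 3) * (B / B) + (1 / 3) * (X / X) +
        (1 / 3) * (Y / Y)) := by
        rw [← Finset.mul_sum, Finset.sum_add_distrib, Finset.sum_add_distrib,
          ← Finset.mul_sum, ← Finset.mul_sum, ← Finset.mul_sum, ← Finset.sum_div,
          ← Finset.sum_div, ← Finset.sum_div]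
    _ = (B * X * Y) ^ ((1 : ℝ) / 3) := by
        rw [div_self hBp.ne', div_self hXp.ne', div_self hYp.ne']
        ring

/-- One class. -/
theorem one (e a b x y La : ℕ) (ha : a ≤ La)
    (h : 16 * a ≤ e → 16 * b ≤ e → e ^ 3 ≤ 2048 * (a * b * (x * y))) :
    (e : ℝ) ≤ 16 * (a : ℝ) + 16 * (b : ℝ) +
      13 * ((La : ℝ) ^ ((1 : ℝ) / 3) * ((b : ℝ) * x * y) ^ ((1 : ℝ) / 3)) := by
  have hR : 0 ≤ 13 * ((La : ℝ) ^ ((1 : ℝ) / 3) * ((b : ℝ) * x * y) ^ ((1 : ℝ) / 3)) := by
    positivity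
  by_cases h1 : 16 * a ≤ e
  · by_cases h2 : 16 * b ≤ e
    · have h3 := h h1 h2
      have h4 : ((e : ℝ)) ^ 3 ≤ 13 ^ 3 * ((La : ℝ) * ((b : ℝ) * x * y)) := by
        have h5 : ((e : ℝ)) ^ 3 ≤ 2048 * ((a : ℝ) * b * (x * y)) := by exact_mod_cast h3
        have h6 : (a : ℝ) ≤ La := by exact_mod_cast ha
        have h7 : (a : ℝ) * ((b : ℝ) * x * y) ≤ La * ((b : ℝ) * x * y) :=
          mul_le_mul_of_nonneg_right h6 (by positivity)
        have h8 : 0 ≤ (La : ℝ) * ((b : ℝ) * x * y) := by positivity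
        nlinarith
      have h9 : (e : ℝ) ≤ 13 * ((La : ℝ) ^ ((1 : ℝ) / 3) *
          ((b : ℝ) * x * y) ^ ((1 : ℝ) / 3)) := by
        have h10 : (13 * ((La : ℝ) ^ ((1 : ℝ) / 3) * ((b : ℝ) * x * y) ^ ((1 : ℝ) / 3))) ^ 3 =
            13 ^ 3 * ((La : ℝ) * ((b : ℝ) * x * y)) := by
          rw [← Real.mul_rpow (by positivity) (by positivity), mul_pow]
          congr 1
          rw [← Real.rpow_natCast, ← Real.rpow_mul (by positivity)]
          norm_num
        rw [← h10] at h4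
        exact le_of_pow_le_pow_left₀ (by norm_num) hR h4
      have : (0 : ℝ) ≤ a := Nat.cast_nonneg _
      have : (0 : ℝ) ≤ b := Nat.cast_nonneg _
      linarith
    · have h3 : (e : ℝ) ≤ 16 * (b : ℝ) := by
        push Not at h2
        exact_mod_cast h2.le
      have : (0 : ℝ) ≤ a := Nat.cast_nonneg _
      linarith
  · have h3 : (e : ℝ) ≤ 16 * (a : ℝ) := by
      push Not at h1
      exact_mod_cast h1.le
    have : (0 : ℝ) ≤ b := Nat.cast_nonneg _
    linarith

end XDeyS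

/-- Dey's bound in every class of `κ`, and Hoelder. -/
theorem I_DeyS (h0 : StDey) : StDeyS := by
  intro ι _ _ K hx E hE β _ κ La hLa
  have hsum : E.card = ∑ z ∈ E.image κ, (E.filter (fun m => κ m = z)).card :=
    Finset.card_eq_sum_card_fiberwise (fun n hn => Finset.mem_coe.2
      (Finset.mem_image_of_mem κ (Finset.mem_coe.1 hn)))
  have hz : ∀ z ∈ E.image κ, ((E.filter (fun m => κ m = z)).card : ℝ) ≤
      16 * ((((E.filter (fun m => κ m = z)).image K.a).card : ℕ) : ℝ) +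
      16 * ((((E.filter (fun m => κ m = z)).image K.b).card : ℕ) : ℝ) +
      13 * ((La : ℝ) ^ ((1 : ℝ) / 3) *
        (((((E.filter (fun m => κ m = z)).image K.b).card : ℕ) : ℝ) *
          (((E.filter (fun m => κ m = z)).image K.tokB).card : ℕ) *
          (((E.filter (fun m => κ m = z)).image K.tokT).card : ℕ)) ^ ((1 : ℝ) / 3)) := by
    intro z hz
    obtain ⟨n, hn, rfl⟩ := Finset.mem_image.1 hz
    exact XDeyS.one _ _ _ _ _ La (hLa n hn) (fun h1 h2 => h0 ι K hx _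
      (fun m hm => Finset.mem_range.1 (hE (Finset.mem_filter.1 hm).1)) h1 h2)
  have hS := Finset.sum_le_sum hz
  rw [Finset.sum_add_distrib, Finset.sum_add_distrib, ← Finset.mul_sum, ← Finset.mul_sum,
    ← Finset.mul_sum, ← Finset.mul_sum] at hS
  have hH := XDeyS.holder (E.image κ)
    (fun z => ((((E.filter (fun m => κ m = z)).image K.b).card : ℕ) : ℝ))
    (fun z => ((((E.filter (fun m => κ m = z)).image K.tokB).card : ℕ) : ℝ))
    (fun z => ((((E.filter (fun m => κ m = z)).image K.tokT).card : ℕ) : ℝ))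
    (fun z _ => Nat.cast_nonneg _) (fun z _ => Nat.cast_nonneg _) (fun z _ => Nat.cast_nonneg _)
  have ea := XDeyS.im_pair E κ K.a
  have eb := XDeyS.im_pair E κ K.b
  have ex := XDeyS.im_pair E κ K.tokB
  have ey := XDeyS.im_pair E κ K.tokT
  have hE' : (E.card : ℝ) = ∑ z ∈ E.image κ, ((E.filter (fun m => κ m = z)).card : ℝ) := by
    rw [← Nat.cast_sum, ← hsum]
  rw [← Nat.cast_sum, ← Nat.cast_sum, ← Nat.cast_sum, ← eb, ← ex, ← ey] at hH
  rw [← hE', ← Nat.cast_sum, ← Nat.cast_sum, ← ea, ← eb] at hS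
  have hL0 : (0 : ℝ) ≤ (La : ℝ) ^ ((1 : ℝ) / 3) := by positivity
  have hm := mul_le_mul_of_nonneg_left hH hL0
  rw [Real.mul_rpow (Nat.cast_nonneg La) (by positivity)]
  linarith

end Pool.Agent.Work.MP_e17eac_co.AS2

end

section

/-!
An affine function is not small in both children.
-/

namespace Pool.Agent.Work.MP_e17eac_co.AS2

namespace XGen

theorem aux (α β s0 s1 g0 g1 Q s s' u : ℝ) (hQ : 2 ≤ Q) (h0 : s0 ≤ s) (h1 : s ≤ g0)
    (h2 : g1 ≤ s') (h3 : s' ≤ s1) (hg : g0 < g1) (hl : s1 - s0 ≤ Q * (g1 - g0))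
    (hu0 : s0 ≤ u) (hu1 : u ≤ s1)
    (hs : 16 * Q * |α + β * s| < |α + β * u|) (hs' : 16 * Q * |α + β * s'| < |α + β * u|) :
    False := by
  have e1 : |β| * (s' - s) ≤ |α + β * s| + |α + β * s'| := by
    have : |β| * (s' - s) = |(α + β * s') - (α + β * s)| := by
      rw [show (α + β * s') - (α + β * s) = β * (s' - s) by ring, abs_mul,
        abs_of_nonneg (by linarith : 0 ≤ s' - s)]
    rw [this]
    have := abs_sub (α + β * s') (α + β * s)
    linarith
  have e2 : |α + β * u| ≤ |α + β * s| + |β| * (s1 - s0) := by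
    have h4 : |α + β * u| ≤ |α + β * s| + |β * (u - s)| := by
      have := abs_add_le (α + β * s) (β * (u - s))
      rwa [show α + β * s + β * (u - s) = α + β * u by ring] at this
    have h5 : |β * (u - s)| ≤ |β| * (s1 - s0) := by
      rw [abs_mul]
      refine mul_le_mul_of_nonneg_left ?_ (abs_nonneg _)
      rw [abs_le]
      constructor <;> linarith
    linarith
  have e3 : |β| * (s1 - s0) ≤ Q * (|β| * (s' - s)) := by
    have : |β| * (s1 - s0) ≤ |β| * (Q * (s' - s)) := by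
      refine mul_le_mul_of_nonneg_left ?_ (abs_nonneg _)
      refine hl.trans ?_
      refine mul_le_mul_of_nonneg_left ?_ (by linarith)
      linarith
    linarith
  have e4 : Q * (|β| * (s' - s)) ≤ Q * (|α + β * s| + |α + β * s'|) :=
    mul_le_mul_of_nonneg_left e1 (by linarith)
  have e5 : (0 : ℝ) ≤ |α + β * s| := abs_nonneg _
  have e6 : |α + β * s| ≤ Q * |α + β * s| := by nlinarith
  nlinarith

end XGen

theorem I_Gen : StGen := by
  intro α β s0 s1 g0 g1 Q hQ h0 hg h1 hl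
  by_contra hc
  push Not at hc
  obtain ⟨⟨s, hs0, hs1, hs⟩, s', hs'0, hs'1, hs'⟩ := hc
  rcases max_choice |α + β * s0| |α + β * s1| with h | h
  · rw [h] at hs hs'
    exact XGen.aux α β s0 s1 g0 g1 Q s s' s0 hQ hs0 hs1 hs'0 hs'1 hg hl le_rfl (by linarith) hs hs'
  · rw [h] at hs hs'
    exact XGen.aux α β s0 s1 g0 g1 Q s s' s1 hQ hs0 hs1 hs'0 hs'1 hg hl (by linarith) le_rfl hs hs'

end Pool.Agent.Work.MP_e17eac_co.AS2

end

section

/-!
# Block AS2, item Levs: all levels from the level step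
-/

namespace Pool.Agent.Work.MP_e17eac_co.AS2

open Finset
open Pool.Agent.Work.MP_e17eac_co.DH
open Pool.Agent.Work.MP_e17eac_co.DH.XSWEEP (GP)
open Pool.Agent.Work.MP_e17eac_co.MX

namespace XLevs

/-- `Lev` is monotone in the constant and inherited by subsets. -/
theorem lev_mono {ι : Type} [Fintype ι] [DecidableEq ι] {K : KSys ι} {B g Q A A' : ℕ}
    {E E' : Finset ℕ} {kk ll : ι → ℕ → ℕ} (h : Lev K B g Q A E kk ll) (hQ : 1 ≤ Q)
    (hA : A ≤ A') (hE : E' ⊆ E) : Lev K B g Q A' E' kk ll where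
  pd n hn := h.pd n (hE hn)
  pos n hn := h.pos n (hE hn)
  inn n hn := h.inn n (hE hn)
  cnt n hn := by
    refine le_trans (card_le_card ?_) (le_trans (h.cnt n (hE hn)) (Nat.pow_le_pow_right hQ hA))
    exact image_subset_image (filter_subset_filter _ hE)

/-- `Q` is positive. -/
theorem one_le_Q {n Q : ℕ} {η : ℝ} (hη : 0 < η) (hn : 1 ≤ n) (h : (n : ℝ) ^ η ≤ Q) : 1 ≤ Q := by
  have h1 : (1 : ℝ) ≤ n := by exact_mod_cast hn
  have h2 : (1 : ℝ) ≤ (n : ℝ) ^ η := Real.one_le_rpow h1 hη.le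
  exact_mod_cast h2.trans h

end XLevs

open XLevs in
theorem I_Levs (h1 : StLev) : StLevs := by
  obtain ⟨C0, hC⟩ := h1
  intro m D g0
  induction m with
  | zero =>
    refine ⟨C0 * (C0 * (D + 1) + g0 + D + 1) + (C0 * (D + 1) + g0), fun _ => C0 * (D + 1) + g0,
      fun x => ⟨Nat.le_add_left _ _, Nat.le_add_left _ _⟩, ?_⟩
    intro η hη
    obtain ⟨n0, h0⟩ := hC η D hη
    refine ⟨max 1 n0, ?_⟩
    intro ι _ _ K hK hGP hn Q gp hQ1 hQ2 hA hB E hE hEN
    have hQ : 1 ≤ Q := one_le_Q hη (le_trans (le_max_left _ _) hn) hQ1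
    have hB' : 1 * Q ^ (C0 * (C0 * (D + 1) + g0 + D + 1)) ≤ Fintype.card ι := by
      refine le_trans ?_ hB
      rw [Nat.mul_zero, pow_zero]
      exact Nat.mul_le_mul_left _ (Nat.pow_le_pow_right hQ (Nat.le_add_right _ _))
    obtain ⟨E', hE', kk, ll, h2, h3, h4⟩ := h0 ι K hK hGP (le_trans (le_max_right _ _) hn) Q
      hQ1 hQ2 1 (C0 * (D + 1) + g0) le_rfl (Nat.le_add_right _ _) hB' E hE hEN
    refine ⟨E', hE', fun _ => kk, fun _ => ll, ?_, ?_⟩
    · refine h2.trans (Nat.mul_le_mul_right _ (Nat.pow_le_pow_right hQ (Nat.le_add_right _ _)))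
    · intro x hx
      obtain rfl : x = 0 := Nat.le_zero.mp hx
      have hp : (Q ^ gp) ^ (4 * 0) = 1 := by rw [Nat.mul_zero, pow_zero]
      rw [hp]
      exact ⟨lev_mono h3 hQ (Nat.le_add_right _ _) (Subset.refl _), h4⟩
  | succ m ih =>
    obtain ⟨A, g, hg, ih⟩ := ih
    set G : ℕ := C0 * (A + 1) + g0 with hG
    set L : ℕ := C0 * (G + A + 1) with hL
    refine ⟨A + L + G, fun x => if x ≤ m then g x else G, ?_, ?_⟩
    · intro x
      dsimp only
      split_ifs with hx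
      · exact ⟨(hg x).1, le_trans (hg x).2 (by omega)⟩
      · exact ⟨by omega, by omega⟩
    intro η hη
    obtain ⟨n1, h1⟩ := ih η hη
    obtain ⟨n0, h0⟩ := hC η A hη
    refine ⟨max 1 (max n1 n0), ?_⟩
    intro ι _ _ K hK hGP hn Q gp hQ1 hQ2 hA hB E hE hEN
    have hn1 : 1 ≤ Fintype.card ι := le_trans (le_max_left _ _) hn
    have hn2 : n1 ≤ Fintype.card ι := le_trans (le_trans (le_max_left _ _) (le_max_right _ _)) hn
    have hn3 : n0 ≤ Fintype.card ι := le_trans (le_trans (le_max_right _ _) (le_max_right _ _)) hn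
    have hQ : 1 ≤ Q := one_le_Q hη hn1 hQ1
    have hR : 1 ≤ Q ^ gp := Nat.one_le_pow _ _ hQ
    have hB1 : (Q ^ gp) ^ (4 * m) * Q ^ A ≤ Fintype.card ι := by
      refine le_trans (Nat.mul_le_mul ?_ ?_) hB
      · exact Nat.pow_le_pow_right hR (by omega)
      · exact Nat.pow_le_pow_right hQ (by omega)
    obtain ⟨E1, hE1, kk, ll, h2, h3⟩ := h1 ι K hK hGP hn2 Q gp hQ1 hQ2 (by omega) hB1 E hE hEN
    have hB2 : (Q ^ gp) ^ (4 * (m + 1)) * Q ^ (C0 * (G + A + 1)) ≤ Fintype.card ι := by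
      refine le_trans (Nat.mul_le_mul_left _ ?_) hB
      exact Nat.pow_le_pow_right hQ (by omega)
    obtain ⟨E2, hE2, kk2, ll2, h4, h5, h6⟩ := h0 ι K hK hGP hn3 Q hQ1 hQ2
      ((Q ^ gp) ^ (4 * (m + 1))) G (Nat.one_le_pow _ _ hR) (Nat.le_add_right _ _) hB2 E1
      (hE1.trans hE) h2
    refine ⟨E2, hE2.trans hE1, fun x => if x ≤ m then kk x else kk2,
      fun x => if x ≤ m then ll x else ll2, ?_, ?_⟩
    · exact h4.trans (Nat.mul_le_mul_right _ (Nat.pow_le_pow_right hQ (by omega)))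
    · intro x hx
      by_cases hxm : x ≤ m
      · simp only [hxm, if_true]
        obtain ⟨h7, h8⟩ := h3 x hxm
        exact ⟨lev_mono h7 hQ (by omega) hE2, fun n hn => h8 n (hE2 hn)⟩
      · obtain rfl : x = m + 1 := by omega
        simp only [hxm, if_false]
        exact ⟨lev_mono h5 hQ (by omega) (Subset.refl _),
          fun n hn => ⟨hE1 (h6 n hn).1, hE1 (h6 n hn).2⟩⟩

end Pool.Agent.Work.MP_e17eac_co.AS2

end

section

/-!
# Arbitrary sets, block AS2, item TL: the token lemma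
-/

namespace Pool.Agent.Work.MP_e17eac_co.AS2

open Finset

namespace XTL

theorem log_le {x y : ℝ} (hx : 0 < x) (hy : 0 < y) (c : ℕ) (h : x ≤ c * y) :
    Int.log 2 x ≤ Int.log 2 y + c := by
  by_contra hn
  push Not at hn
  have h1 : ((2 : ℕ) : ℝ) ^ (Int.log 2 x) ≤ x := Int.zpow_log_le_self (by norm_num) hx
  have h2 : y < ((2 : ℕ) : ℝ) ^ (Int.log 2 y + 1) := Int.lt_zpow_succ_log_self (by norm_num) y
  have h3 : ((2 : ℕ) : ℝ) ^ (Int.log 2 y + 1 + (c : ℤ)) ≤ ((2 : ℕ) : ℝ) ^ (Int.log 2 x) :=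
    zpow_le_zpow_right₀ (by norm_num) (by omega)
  rw [zpow_add₀ (by norm_num), zpow_natCast] at h3
  have h4 : (c : ℝ) ≤ ((2 : ℕ) : ℝ) ^ c := by
    exact_mod_cast (Nat.lt_two_pow_self (n := c)).le
  have h5 : (c : ℝ) * y ≤ ((2 : ℕ) : ℝ) ^ c * y := mul_le_mul_of_nonneg_right h4 hy.le
  have h6 : ((2 : ℕ) : ℝ) ^ c * y < ((2 : ℕ) : ℝ) ^ (Int.log 2 y + 1) * ((2 : ℕ) : ℝ) ^ c := by
    rw [mul_comm]
    exact mul_lt_mul_of_pos_right h2 (by positivity)
  linarith

/-- The positive part. -/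
theorem part1 (Q : ℕ) (T : Finset ℕ) (t v s D : ℕ → ℝ) (H : ℝ) (hH : 0 < H)
    (h1 : ∀ n ∈ T, 0 < D n ∧ |v n| ≤ D n ∧ D n ≤ 16 * Q * |v n| ∧ |s n| * H ≤ 2 * D n)
    (h2 : ∀ n ∈ T, ∀ n' ∈ T, |t n - t n'| ≤ H ∧ v n' ≤ v n + s n * (t n' - t n))
    (hv : ∀ n ∈ T, 0 < v n) :
    (T.image (fun n => Int.log 2 (D n))).card ≤ 48 * Q + 2 := by
  rcases T.eq_empty_or_nonempty with rfl | hne
  · simp
  · obtain ⟨m, hm, hmax⟩ := T.exists_max_image v hne
    have hsub : T.image (fun n => Int.log 2 (D n)) ⊆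
        Icc (Int.log 2 (v m) - (1 + 32 * Q : ℕ)) (Int.log 2 (v m) + (16 * Q : ℕ)) := by
      intro l hl
      obtain ⟨n, hn, rfl⟩ := mem_image.1 hl
      obtain ⟨a1, a2, a3, a4⟩ := h1 n hn
      have hvn := hv n hn
      have hvm := hv m hm
      rw [abs_of_pos hvn] at a2 a3
      rw [mem_Icc]
      constructor
      · have b1 := (h2 n hn m hm).2
        have b2 := (h2 n hn m hm).1
        have b3 : s n * (t m - t n) ≤ |s n| * H := by
          calc s n * (t m - t n) ≤ |s n * (t m - t n)| := le_abs_self _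
            _ = |s n| * |t m - t n| := abs_mul _ _
            _ ≤ |s n| * H := by
                apply mul_le_mul_of_nonneg_left _ (abs_nonneg _)
                rw [abs_sub_comm]
                exact b2
        have b4 : v m ≤ ((1 + 32 * Q : ℕ) : ℝ) * D n := by
          push_cast
          nlinarith
        have := log_le hvm a1 (1 + 32 * Q) b4
        omega
      · have b4 : D n ≤ ((16 * Q : ℕ) : ℝ) * v m := by
          push_cast
          have := hmax n hn
          have hQ0 : (0 : ℝ) ≤ 16 * Q := by positivity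
          exact a3.trans (mul_le_mul_of_nonneg_left this hQ0)
        exact log_le a1 hvm (16 * Q) b4
    refine (card_le_card hsub).trans ?_
    rw [Int.card_Icc]
    omega

/-- Separation of the times. -/
theorem sepT (Q : ℕ) (t t' u u' s' D' H : ℝ) (hH : 0 < H) (hu : 0 < u) (hu' : 0 < u')
    (a3 : D' ≤ 16 * Q * u') (a4 : |s'| * H ≤ 2 * D') (h2 : -u ≤ -u' + s' * (t - t'))
    (hlt : 2 * u < u') : H < 64 * Q * |t - t'| := by
  have b1 : s' * (t - t') ≤ |s'| * |t - t'| := by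
    calc s' * (t - t') ≤ |s' * (t - t')| := le_abs_self _
      _ = |s'| * |t - t'| := abs_mul _ _
  have b2 : |s'| * H ≤ 32 * Q * u' := by linarith
  have b3 : u' < 2 * (|s'| * |t - t'|) := by linarith
  have b4 : u' * H < 2 * (|s'| * |t - t'|) * H := mul_lt_mul_of_pos_right b3 hH
  have b5 : |s'| * H * |t - t'| ≤ 32 * Q * u' * |t - t'| :=
    mul_le_mul_of_nonneg_right b2 (abs_nonneg _)
  have b6 : u' * H < u' * (64 * Q * |t - t'|) := by nlinarith
  exact lt_of_mul_lt_mul_left b6 hu'.le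

/-- The number of the dyadic values of `-v`. -/
theorem part2a (Q : ℕ) (T : Finset ℕ) (t v s D : ℕ → ℝ) (H : ℝ) (hH : 0 < H)
    (h1 : ∀ n ∈ T, 0 < D n ∧ |v n| ≤ D n ∧ D n ≤ 16 * Q * |v n| ∧ |s n| * H ≤ 2 * D n)
    (h2 : ∀ n ∈ T, ∀ n' ∈ T, |t n - t n'| ≤ H ∧ v n' ≤ v n + s n * (t n' - t n))
    (hv : ∀ n ∈ T, v n < 0) :
    (T.image (fun n => Int.log 2 (-v n))).card ≤ 2 * (128 * Q + 1) := by
  classical
  rcases T.eq_empty_or_nonempty with rfl | ⟨n0, hn0⟩
  · simp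
  · let g : ℤ → ℕ := fun j => if h : ∃ n ∈ T, Int.log 2 (-v n) = j then h.choose else 0
    have hg : ∀ j ∈ T.image (fun n => Int.log 2 (-v n)), g j ∈ T ∧
        Int.log 2 (-v (g j)) = j := by
      intro j hj
      obtain ⟨n, hn, hnj⟩ := mem_image.1 hj
      have hex : ∃ n ∈ T, Int.log 2 (-v n) = j := ⟨n, hn, hnj⟩
      have : g j = hex.choose := dif_pos hex
      rw [this]
      exact hex.choose_spec
    let f : ℤ → ℤ × ℤ := fun j => (j % 2, ⌊64 * (Q : ℝ) * (t (g j) - t n0) / H⌋)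
    have key : ∀ j ∈ T.image (fun n => Int.log 2 (-v n)), ∀ j' ∈ T.image
        (fun n => Int.log 2 (-v n)), f j = f j' → j < j' → False := by
      intro j hj j' hj' hf hlt
      obtain ⟨hg1, hg2⟩ := hg j hj
      obtain ⟨hg1', hg2'⟩ := hg j' hj'
      have e1 : j % 2 = j' % 2 := (Prod.mk.inj hf).1
      have e2 := (Prod.mk.inj hf).2
      have h3 : j + 2 ≤ j' := by omega
      have hu := hv _ hg1
      have hu' := hv _ hg1'
      have c1 : -v (g j) < ((2 : ℕ) : ℝ) ^ (j + 1) := by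
        have := Int.lt_zpow_succ_log_self (R := ℝ) (b := 2) (by norm_num) (-v (g j))
        rw [hg2] at this
        exact this
      have c2 : ((2 : ℕ) : ℝ) ^ j' ≤ -v (g j') := by
        have := Int.zpow_log_le_self (R := ℝ) (b := 2) (by norm_num)
          (show (0 : ℝ) < -v (g j') by linarith)
        rw [hg2'] at this
        exact this
      have c3 : ((2 : ℕ) : ℝ) ^ (j + 1 + 1) ≤ ((2 : ℕ) : ℝ) ^ j' :=
        zpow_le_zpow_right₀ (by norm_num) (by omega)
      rw [zpow_add_one₀ (by norm_num)] at c3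
      push_cast at c1 c2 c3
      obtain ⟨a1, a2, a3, a4⟩ := h1 _ hg1'
      rw [abs_of_neg hu'] at a3
      have d := sepT Q (t (g j)) (t (g j')) (-v (g j)) (-v (g j')) (s (g j')) (D (g j')) H hH
        (by linarith) (by linarith) a3 a4 (by
          have := (h2 _ hg1' _ hg1).2
          linarith) (by linarith)
      have e3 := Int.abs_sub_lt_one_of_floor_eq_floor e2
      have e4 : 64 * (Q : ℝ) * (t (g j) - t n0) / H - 64 * (Q : ℝ) * (t (g j') - t n0) / H =
          64 * (Q : ℝ) * (t (g j) - t (g j')) / H := by ring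
      rw [e4, abs_div, abs_of_pos hH, div_lt_one hH, abs_mul,
        abs_of_nonneg (by positivity : (0 : ℝ) ≤ 64 * Q)] at e3
      linarith
    have hmaps : ∀ j ∈ T.image (fun n => Int.log 2 (-v n)), f j ∈ (Icc (0 : ℤ) 1) ×ˢ
        (Icc (-(64 * Q : ℤ)) (64 * Q)) := by
      intro j hj
      obtain ⟨hg1, _⟩ := hg j hj
      have hab := (h2 _ hg1 _ hn0).1
      rw [mem_product]
      constructor
      · show j % 2 ∈ Icc (0 : ℤ) 1
        rw [mem_Icc]
        omega
      · show ⌊64 * (Q : ℝ) * (t (g j) - t n0) / H⌋ ∈ Icc (-(64 * Q : ℤ)) (64 * Q)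
        have hab' := abs_le.1 hab
        have hQ0 : (0 : ℝ) ≤ 64 * Q := by positivity
        rw [mem_Icc]
        constructor
        · apply Int.le_floor.2
          push_cast
          rw [le_div_iff₀ hH]
          nlinarith [hab'.1]
        · have : 64 * (Q : ℝ) * (t (g j) - t n0) / H ≤ ((64 * Q : ℤ) : ℝ) := by
            push_cast
            rw [div_le_iff₀ hH]
            nlinarith [hab'.2]
          have h4 := Int.floor_le_floor this
          rw [Int.floor_intCast] at h4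
          exact h4
    have hinj : Set.InjOn f (T.image (fun n => Int.log 2 (-v n)) : Finset ℤ) := by
      intro j hj j' hj' hf
      by_contra hne
      rcases lt_or_gt_of_ne hne with hlt | hgt
      · exact key j hj j' hj' hf hlt
      · exact key j' hj' j hj hf.symm hgt
    have := card_le_card_of_injOn f hmaps hinj
    rw [card_product, Int.card_Icc, Int.card_Icc] at this
    have e : ((64 * Q : ℤ) + 1 - -(64 * Q : ℤ)).toNat = 128 * Q + 1 := by omega
    rw [e] at this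
    simpa using this

/-- The negative part. -/
theorem part2 (Q : ℕ) (T : Finset ℕ) (t v s D : ℕ → ℝ) (H : ℝ) (hH : 0 < H)
    (h1 : ∀ n ∈ T, 0 < D n ∧ |v n| ≤ D n ∧ D n ≤ 16 * Q * |v n| ∧ |s n| * H ≤ 2 * D n)
    (h2 : ∀ n ∈ T, ∀ n' ∈ T, |t n - t n'| ≤ H ∧ v n' ≤ v n + s n * (t n' - t n))
    (hv : ∀ n ∈ T, v n < 0) :
    (T.image (fun n => Int.log 2 (D n))).card ≤ 2 * (128 * Q + 1) * (16 * Q + 2) := by
  classical
  have hsub : T.image (fun n => Int.log 2 (D n)) ⊆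
      ((T.image (fun n => Int.log 2 (-v n))) ×ˢ (Icc (-1 : ℤ) (16 * Q))).image
        (fun z => z.1 + z.2) := by
    intro l hl
    obtain ⟨n, hn, rfl⟩ := mem_image.1 hl
    obtain ⟨a1, a2, a3, a4⟩ := h1 n hn
    have hvn := hv n hn
    rw [abs_of_neg hvn] at a2 a3
    have b1 := log_le a1 (show (0 : ℝ) < -v n by linarith) (16 * Q) (by push_cast; exact a3)
    have b2 := log_le (show (0 : ℝ) < -v n by linarith) a1 1 (by push_cast; linarith)
    refine mem_image.2 ⟨(Int.log 2 (-v n), Int.log 2 (D n) - Int.log 2 (-v n)), ?_, ?_⟩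
    · rw [mem_product]
      refine ⟨mem_image.2 ⟨n, hn, rfl⟩, ?_⟩
      rw [mem_Icc]
      push_cast at b1 b2
      constructor
      · show -1 ≤ Int.log 2 (D n) - Int.log 2 (-v n)
        omega
      · show Int.log 2 (D n) - Int.log 2 (-v n) ≤ 16 * Q
        omega
    · show Int.log 2 (-v n) + (Int.log 2 (D n) - Int.log 2 (-v n)) = Int.log 2 (D n)
      omega
  have h3 := part2a Q T t v s D H hH h1 h2 hv
  calc (T.image (fun n => Int.log 2 (D n))).card ≤ _ := card_le_card hsub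
    _ ≤ ((T.image (fun n => Int.log 2 (-v n))) ×ˢ (Icc (-1 : ℤ) (16 * Q))).card :=
        card_image_le
    _ = (T.image (fun n => Int.log 2 (-v n))).card * (16 * Q + 2) := by
        rw [card_product, Int.card_Icc]
        have e : ((16 * Q : ℤ) + 1 - -1).toNat = 16 * Q + 2 := by omega
        rw [e]
    _ ≤ 2 * (128 * Q + 1) * (16 * Q + 2) := Nat.mul_le_mul_right _ h3

end XTL

open XTL in
theorem I_TL : StTL := by
  classical
  intro Q hQ T t v s D H hH h1 h2
  have hT : T = T.filter (fun n => 0 < v n) ∪ T.filter (fun n => v n < 0) := by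
    ext n
    simp only [mem_union, mem_filter]
    constructor
    · intro hn
      obtain ⟨a1, a2, a3, a4⟩ := h1 n hn
      rcases lt_trichotomy (v n) 0 with h | h | h
      · exact Or.inr ⟨hn, h⟩
      · exfalso
        rw [h, abs_zero, mul_zero] at a3
        linarith
      · exact Or.inl ⟨hn, h⟩
    · rintro (h | h)
      · exact h.1
      · exact h.1
  have p1 := part1 Q (T.filter (fun n => 0 < v n)) t v s D H hH
    (fun n hn => h1 n (mem_filter.1 hn).1)
    (fun n hn n' hn' => h2 n (mem_filter.1 hn).1 n' (mem_filter.1 hn').1)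
    (fun n hn => (mem_filter.1 hn).2)
  have p2 := part2 Q (T.filter (fun n => v n < 0)) t v s D H hH
    (fun n hn => h1 n (mem_filter.1 hn).1)
    (fun n hn n' hn' => h2 n (mem_filter.1 hn).1 n' (mem_filter.1 hn').1)
    (fun n hn => (mem_filter.1 hn).2)
  rw [hT, image_union]
  refine (card_union_le _ _).trans ((Nat.add_le_add p1 p2).trans ?_)
  have hQ' : 1048576 ≤ Q := by
    have : (2 : ℕ) ^ 20 = 1048576 := by norm_num
    omega
  nlinarith [Nat.mul_le_mul hQ' hQ', Nat.mul_le_mul (Nat.mul_le_mul hQ' hQ') hQ',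
    Nat.mul_le_mul_right (Q * Q) hQ']

end Pool.Agent.Work.MP_e17eac_co.AS2

end

section

/-!
# Block AS2, `StTokC`: every token meets few annuli
-/

set_option autoImplicit false

namespace Pool.Agent.Work.MP_e17eac_co.AS2

open Finset
open Pool.Agent.Work.MP_e17eac_co.DH
open Pool.Agent.Work.MP_e17eac_co.MX

namespace XTokC

variable {ι : Type} [Fintype ι] [DecidableEq ι]

theorem lo_congr {c : ℕ → ℕ} {n m : ℕ} (h : c n = c m) : lo c n = lo c m := by
  unfold lo; rw [h]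

theorem hi_congr {K : KSys ι} {c : ℕ → ℕ} {n m : ℕ} (h : c n = c m) : hi K c n = hi K c m := by
  unfold hi; rw [h]

/-- An affine function on an interval is bounded by its values at the ends. -/
theorem aff_le {α β s0 s1 s D : ℝ} (h0 : |α + β * s0| ≤ D) (h1 : |α + β * s1| ≤ D)
    (hs0 : s0 ≤ s) (hs1 : s ≤ s1) : |α + β * s| ≤ D := by
  rw [abs_le] at h0 h1 ⊢
  rcases le_total 0 β with hb | hb
  · have e1 : β * s0 ≤ β * s := mul_le_mul_of_nonneg_left hs0 hb
    have e2 : β * s ≤ β * s1 := mul_le_mul_of_nonneg_left hs1 hb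
    constructor <;> linarith [h0.1, h0.2, h1.1, h1.2]
  · have e1 : β * s ≤ β * s0 := mul_le_mul_of_nonpos_left hs0 hb
    have e2 : β * s1 ≤ β * s := mul_le_mul_of_nonpos_left hs1 hb
    constructor <;> linarith [h0.1, h0.2, h1.1, h1.2]

theorem del_congr (K : KSys ι) (p q : ι) (i0 i1 : ℕ) (h : ∀ s, K.ht p s = K.ht q s) :
    del K p i0 i1 = del K q i0 i1 := by
  unfold del up dn
  simp only [h]

end XTokC

open XTokC

theorem I_TokC (h0 : StTL) (h1 : StTouch) (h2 : StLoHi) (h3 : StLeq) : StTokC := by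
  classical
  intro ι _ _ K Q G M M' c cp kk ll ref uu S Eg hA r n hn
  obtain ⟨hnS, hnu⟩ := hA.eg n hn
  have hpdn := hA.pd _ hnS
  simp only at hpdn
  set J0 := j0 cp kk (K.a n) (c n) with hJ0
  set J1 := j1 K cp ll (K.a n) (c n) with hJ1
  set l := ref (K.a n) (c n) with hl
  have hk := h2 ι K M' cp hA.hcp (kk (K.a n) (c n)) hpdn.kN
  have hL := h2 ι K M' cp hA.hcp (ll (K.a n) (c n)) hpdn.lN
  have hkl : kk (K.a n) (c n) < lo cp (ll (K.a n) (c n)) :=
    (hL.2.2.2.2.2.2.1 _ hpdn.kN).1 hpdn.lt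
  have hJ01 : J0 < J1 := by
    have e1 : J0 ≤ kk (K.a n) (c n) := hk.1
    have e2 : lo cp (ll (K.a n) (c n)) ≤ ll (K.a n) (c n) := hL.1
    have e3 : ll (K.a n) (c n) ≤ J1 := hL.2.1
    omega
  have hJ1N : J1 < K.N := hL.2.2.1
  have hH : 0 < K.t J1 - K.t J0 := sub_pos.2 (K.t_lt _ _ hJ01 hJ1N)
  have tmono : ∀ i j, i ≤ j → j < K.N → K.t i ≤ K.t j := by
    intro i j hij hj
    rcases Nat.lt_or_eq_of_le hij with h | h
    · exact (K.t_lt _ _ h hj).le
    · rw [h]
  set T := Eg.filter (fun m => ps K c cp kk ll m = ps K c cp kk ll n ∧ K.tok r m = K.tok r n)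
    with hT
  -- facts on the members of T
  have key : ∀ m ∈ T, m ∈ Eg ∧ (K.a m, c m) ∈ S ∧ j0 cp kk (K.a m) (c m) = J0 ∧
      j1 K cp ll (K.a m) (c m) = J1 ∧ ref (K.a m) (c m) = l ∧ K.tok r m = K.tok r n ∧
      K.t J0 ≤ K.t m ∧ K.t m ≤ K.t J1 := by
    intro m hm
    obtain ⟨hmE, hps, htok⟩ := mem_filter.1 hm
    obtain ⟨hmS, hmu⟩ := hA.eg m hmE
    have hmN := hA.sub m hmE
    have hps' : psi K cp kk ll (K.a m) (c m) = psi K cp kk ll (K.a n) (c n) := hps
    have hps2 := hps'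
    simp only [psi, Prod.mk.injEq] at hps2
    obtain ⟨hc1, hc2, hc3, -⟩ := hps2
    have hj0 : j0 cp kk (K.a m) (c m) = J0 := lo_congr hc2
    have hj1 : j1 K cp ll (K.a m) (c m) = J1 := hi_congr hc3
    have hpdm := hA.pd _ hmS
    simp only at hpdm
    have hrr : ref (K.a m) (c m) = l := hA.refc _ hmS _ hnS hps'
    have hin : J0 ≤ m ∧ m ≤ J1 := by
      rcases hA.uuc _ hmS with hu | hu
      · simp only at hu
        have e : cp m = cp (kk (K.a n) (c n)) := by rw [hmu, hu, hc2]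
        have e1 := (hk.2.2.2.2.2.1 m hmN).1 e
        have e2 : m < lo cp (ll (K.a n) (c n)) :=
          (hL.2.2.2.2.2.2.1 m hmN).1 (by rw [e]; exact hpdn.lt)
        have e3 : lo cp (ll (K.a n) (c n)) ≤ ll (K.a n) (c n) := hL.1
        have e4 : ll (K.a n) (c n) ≤ J1 := hL.2.1
        exact ⟨e1.1, by omega⟩
      · simp only at hu
        have e : cp m = cp (ll (K.a n) (c n)) := by rw [hmu, hu, hc3]
        have e1 := (hL.2.2.2.2.2.1 m hmN).1 e
        have e2 : J0 ≤ kk (K.a n) (c n) := hk.1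
        exact ⟨by omega, e1.2⟩
    exact ⟨hmE, hmS, hj0, hj1, hrr, htok, tmono _ _ hin.1 hmN, tmono _ _ hin.2 hJ1N⟩
  set sg : ℝ := if r = true then -1 else 1 with hsg
  have hsg1 : |sg| = 1 := by
    rw [hsg]; split_ifs <;> simp
  set D : ℕ → ℝ := fun m => Dd K cp kk ll ref (K.a m) (c m) with hD
  have hDeq : ∀ m ∈ T, D m = max |K.ht (K.a m) (K.t J0) - K.ht l (K.t J0)|
      |K.ht (K.a m) (K.t J1) - K.ht l (K.t J1)| := by
    intro m hm
    obtain ⟨-, -, e1, e2, e3, -⟩ := key m hm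
    simp only [hD, Dd, e1, e2, e3]
  have hlin : ∀ (m : ℕ) (s : ℝ), K.ht (K.a m) s - K.ht l s =
      (K.y (K.a m) - K.y l) + (K.x (K.a m) - K.x l) * s := by
    intro m s
    simp only [KSys.ht]; ring
  have hmain := h0 Q hA.Qle T K.t
    (fun m => sg * (K.ht (K.a m) (K.t m) - K.ht l (K.t m)))
    (fun m => sg * (K.x (K.a m) - K.x l)) D (K.t J1 - K.t J0) hH ?_ ?_
  · exact hmain
  · -- bounds
    intro m hm
    obtain ⟨hmE, hmS, e1, e2, e3, htok, ht0, ht1⟩ := key m hm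
    have hmN := hA.sub m hmE
    have hb0 : |K.ht (K.a m) (K.t J0) - K.ht l (K.t J0)| ≤ D m := by
      rw [hDeq m hm]; exact le_max_left _ _
    have hb1 : |K.ht (K.a m) (K.t J1) - K.ht l (K.t J1)| ≤ D m := by
      rw [hDeq m hm]; exact le_max_right _ _
    have hDnn : 0 ≤ D m := le_trans (abs_nonneg _) hb0
    refine ⟨?_, ?_, ?_, ?_⟩
    · rcases hDnn.lt_or_eq with h | h
      · exact h
      · exfalso
        rw [← h] at hb0 hb1
        have z0 := abs_eq_zero.1 (le_antisymm hb0 (abs_nonneg _))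
        have z1 := abs_eq_zero.1 (le_antisymm hb1 (abs_nonneg _))
        rw [hlin] at z0 z1
        have hx : K.x (K.a m) - K.x l = 0 := by
          have : (K.x (K.a m) - K.x l) * (K.t J1 - K.t J0) = 0 := by linarith
          rcases mul_eq_zero.1 this with h' | h'
          · exact h'
          · exact absurd h' hH.ne'
        have hy : K.y (K.a m) - K.y l = 0 := by
          rw [hx] at z0; linarith
        have hall : ∀ s, K.ht (K.a m) s = K.ht l s := by
          intro s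
          have := hlin m s
          rw [hx, hy] at this
          linarith
        have hpr := hA.psir _ hmS
        simp only [psi, Prod.mk.injEq, e3] at hpr
        have w1 : j0 cp kk l (c m) = J0 := by
          rw [← e1]; exact lo_congr hpr.2.1
        have w2 : j1 K cp ll l (c m) = J1 := by
          rw [← e2]; exact hi_congr hpr.2.2.1
        have hdl : dl K cp kk ll (K.a m) (c m) = dl K cp kk ll l (c m) := by
          unfold dl
          rw [e1, e2, w1, w2]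
          exact del_congr K _ _ _ _ hall
        have hdlr := hA.dlr _ hmS
        have hposr := hA.posr _ hmS
        simp only [e3] at hdlr hposr
        rw [hdl] at hdlr
        linarith
    · simp only [abs_mul, hsg1, one_mul]
      rw [hlin] at hb0 hb1 ⊢
      exact aff_le hb0 hb1 ht0 ht1
    · simp only [abs_mul, hsg1, one_mul]
      have hg := hA.gen _ hmS m hmN (hA.eg m hmE).2
      simp only [e1, e2, e3] at hg
      rw [hDeq m hm]
      exact max_le (hg _ (Or.inl rfl)) (hg _ (Or.inr rfl))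
    · simp only [abs_mul, hsg1, one_mul]
      have : |K.x (K.a m) - K.x l| * (K.t J1 - K.t J0) =
          |(K.ht (K.a m) (K.t J1) - K.ht l (K.t J1)) -
            (K.ht (K.a m) (K.t J0) - K.ht l (K.t J0))| := by
        rw [hlin, hlin, ← abs_of_pos hH, ← abs_mul]
        congr 1; ring
      rw [this]
      calc _ ≤ |K.ht (K.a m) (K.t J1) - K.ht l (K.t J1)| +
            |K.ht (K.a m) (K.t J0) - K.ht l (K.t J0)| := abs_sub _ _
        _ ≤ 2 * D m := by linarith
  · -- supporting lines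
    intro m hm m' hm'
    obtain ⟨hmE, hmS, e1, e2, e3, htok, ht0, ht1⟩ := key m hm
    obtain ⟨hmE', hmS', e1', e2', e3', htok', ht0', ht1'⟩ := key m' hm'
    have hmN := hA.sub m hmE
    have hmN' := hA.sub m' hmE'
    refine ⟨?_, ?_⟩
    · rw [abs_le]; constructor <;> linarith
    · have htt : K.tok r m = K.tok r m' := htok.trans htok'.symm
      have hto := h1 ι K m m' false hmN hmN'
      have hh' : K.ht (K.a m') (K.t m') = K.h m' := rfl
      have hs : sg * K.h m' ≤ sg * K.ht (K.a m) (K.t m') := by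
        rw [hsg]
        cases r with
        | false =>
          have := hto.1 htt
          simpa [KSys.ln] using this
        | true =>
          have := hto.2 htt
          simpa [KSys.ln] using this
      have e : sg * (K.ht (K.a m) (K.t m) - K.ht l (K.t m)) +
          sg * (K.x (K.a m) - K.x l) * (K.t m' - K.t m) =
          sg * K.ht (K.a m) (K.t m') - sg * K.ht l (K.t m') := by
        simp only [KSys.ht]; ring
      show sg * (K.ht (K.a m') (K.t m') - K.ht l (K.t m')) ≤ _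
      rw [e, mul_sub, hh']
      linarith

end Pool.Agent.Work.MP_e17eac_co.AS2

end

section

/-!
# `up` and `dn` are maxima
-/

set_option autoImplicit false

namespace Pool.Agent.Work.MP_e17eac_co.AS2

open Finset
open Pool.Agent.Work.MP_e17eac_co.DH
open Pool.Agent.Work.MP_e17eac_co.MX

namespace XUD

lemma mx (f : ℕ → ℝ) (i0 i1 : ℕ) (h : i0 ≤ i1) :
    (∀ j, i0 ≤ j → j ≤ i1 → f j ≤ sSup (f '' Set.Icc i0 i1)) ∧
    (∃ j, i0 ≤ j ∧ j ≤ i1 ∧ sSup (f '' Set.Icc i0 i1) = f j) := by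
  have hfin : (f '' Set.Icc i0 i1).Finite := (Set.finite_Icc i0 i1).image f
  have hne : (f '' Set.Icc i0 i1).Nonempty := ⟨f i0, i0, ⟨le_rfl, h⟩, rfl⟩
  refine ⟨fun j h0 h1 => le_csSup hfin.bddAbove ⟨j, ⟨h0, h1⟩, rfl⟩, ?_⟩
  obtain ⟨j, ⟨h0, h1⟩, h2⟩ := hne.csSup_mem hfin
  exact ⟨j, h0, h1, h2.symm⟩

end XUD

theorem I_UD : StUD := by
  intro ι _ _ K p i0 i1 h
  have h1 := XUD.mx (fun j => K.h j - K.ht p (K.t j)) i0 i1 h
  have h2 := XUD.mx (fun j => K.ht p (K.t j) - K.h j) i0 i1 h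
  exact ⟨h1.1, h1.2, h2.1, h2.2⟩

end Pool.Agent.Work.MP_e17eac_co.AS2

end

section

/-!
# Block AS2, item Zero: few edges have radius zero
-/

namespace Pool.Agent.Work.MP_e17eac_co.AS2

open Finset
open Pool.Agent.Work.MP_e17eac_co.DH
open Pool.Agent.Work.MP_e17eac_co.DH.XSWEEP (GP)
open Pool.Agent.Work.MP_e17eac_co.MX

namespace XZero

variable {ι : Type} [Fintype ι] [DecidableEq ι]

theorem lo_congr (c : ℕ → ℕ) {n m : ℕ} (h : c n = c m) : lo c n = lo c m := by
  unfold lo; rw [h]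

theorem hi_congr (K : KSys ι) (c : ℕ → ℕ) {n m : ℕ} (h : c n = c m) :
    hi K c n = hi K c m := by
  unfold hi; rw [h]

theorem t_mono (K : KSys ι) {n m : ℕ} (h : n ≤ m) (hm : m < K.N) : K.t n ≤ K.t m := by
  rcases Nat.lt_or_eq_of_le h with h | h
  · exact (K.t_lt n m h hm).le
  · rw [h]

/-- Two lines with the same `psi` and radius zero are equal. -/
theorem inj (h3 : StCon) (h4 : StLoHi) (K : KSys ι) (hx : Function.Injective K.x) (Q M : ℕ)
    (c cp : ℕ → ℕ) (hcp : IsCells K M cp) (kk ll : ι → ℕ → ℕ) (p p' : ι) (z : ℕ)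
    (hp : PD K c cp Q kk ll p z) (hp' : PD K c cp Q kk ll p' z)
    (hd : dl K cp kk ll p z = 0) (hd' : dl K cp kk ll p' z = 0)
    (hk : cp (kk p z) = cp (kk p' z)) (hl : cp (ll p z) = cp (ll p' z))
    (ht : ty K p (j0 cp kk p z) (j1 K cp ll p z) = ty K p' (j0 cp kk p' z) (j1 K cp ll p' z)) :
    p = p' := by
  obtain ⟨a1, a2, a3, a4, a5, a6, a7, a8, -⟩ := h4 ι K M cp hcp (kk p z) hp.kN
  obtain ⟨b1, b2, b3, b4, b5, b6, b7, b8, -⟩ := h4 ι K M cp hcp (ll p z) hp.lN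
  obtain ⟨a1', a2', -⟩ := h4 ι K M cp hcp (kk p' z) hp'.kN
  obtain ⟨b1', b2', -⟩ := h4 ι K M cp hcp (ll p' z) hp'.lN
  have e0 : j0 cp kk p' z = j0 cp kk p z := lo_congr cp hk.symm
  have e1 : j1 K cp ll p' z = j1 K cp ll p z := hi_congr K cp hl.symm
  have hloN : lo cp (ll p z) < K.N := lt_of_le_of_lt b1 hp.lN
  have hg : hi K cp (kk p z) < lo cp (ll p z) := by
    refine (a8 _ hloN).1 ?_
    rw [b4]
    exact hp.lt
  rw [lo_congr cp hk.symm] at a1'
  rw [hi_congr K cp hk.symm] at a2'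
  rw [lo_congr cp hl.symm] at b1'
  rw [hi_congr K cp hl.symm] at b2'
  rw [e0, e1] at ht
  have key := h3 ι K p p' (j0 cp kk p z) (j1 K cp ll p z) (kk p z) (ll p z) (kk p' z) (ll p' z)
    (K.t (hi K cp (kk p z))) (K.t (lo cp (ll p z))) Q b3 hp.kN hp'.kN a1 a1' b2 b2' hp.ak hp.al hp'.ak hp'.al
    (t_mono K a2 a3) (t_mono K a2' a3) (K.t_lt _ _ hg hloN) (t_mono K b1 hp.lN)
    (t_mono K b1' hp'.lN) hp.good ht
  have z1 : del K p (j0 cp kk p z) (j1 K cp ll p z) = 0 := hd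
  have z2 : del K p' (j0 cp kk p z) (j1 K cp ll p z) = 0 := by
    have := hd'
    unfold dl at this
    rwa [e0, e1] at this
  rw [z1, z2, max_self, mul_zero] at key
  have k1 := abs_nonpos_iff.1 (key _ (Or.inl rfl))
  have k2 := abs_nonpos_iff.1 (key _ (Or.inr rfl))
  have hlt : K.t (j0 cp kk p z) < K.t (j1 K cp ll p z) := by
    refine K.t_lt _ _ ?_ b3
    show lo cp (kk p z) < hi K cp (ll p z)
    omega
  unfold KSys.ht at k1 k2
  apply hx
  have h5 : (K.x p - K.x p') * (K.t (j1 K cp ll p z) - K.t (j0 cp kk p z)) = 0 := by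
    linear_combination k2 - k1
  rcases mul_eq_zero.1 h5 with h6 | h6
  · linarith
  · linarith

end XZero

open XZero in
theorem I_Zero (h1 : StMc) (h2 : StLow) (h3 : StCon) (h4 : StLoHi) : StZero := by
  obtain ⟨C, hC1, hC⟩ := h2
  refine ⟨12, ?_⟩
  intro η D hη
  refine ⟨⌈(2 * C + 1) ^ (1 / η)⌉₊ + 1, ?_⟩
  intro ι _ _ K hx hGP hn Q hQn hQN B g hB hBQ F hF kk ll hF2
  by_contra hcon
  push Not at hcon
  have hn1 : (1 : ℝ) ≤ (Fintype.card ι : ℝ) := by
    have : 1 ≤ Fintype.card ι := by omega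
    exact_mod_cast this
  have hQC : 2 * C + 1 ≤ (Q : ℝ) := by
    refine le_trans ?_ hQn
    have e1 : ((2 * C + 1) ^ (1 / η) : ℝ) ≤ (Fintype.card ι : ℝ) := by
      refine le_trans (Nat.le_ceil _) ?_
      have : ⌈(2 * C + 1) ^ (1 / η)⌉₊ ≤ Fintype.card ι := by omega
      exact_mod_cast this
    have e2 := Real.rpow_le_rpow (by positivity) e1 hη.le
    rwa [← Real.rpow_mul (by positivity), one_div, inv_mul_cancel₀ hη.ne', Real.rpow_one] at e2
  have hQ1 : (1 : ℝ) ≤ Q := by linarith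
  have hQ0 : (0 : ℝ) < Q := by linarith
  have hQnat : 1 ≤ Q := by exact_mod_cast hQ1
  -- B ≤ N
  have hnN : (Fintype.card ι : ℝ) ≤ Q * K.N := by
    refine le_trans ?_ hQN
    calc (Fintype.card ι : ℝ) = (Fintype.card ι : ℝ) ^ (1 : ℝ) := (Real.rpow_one _).symm
      _ ≤ _ := Real.rpow_le_rpow_of_exponent_le hn1 (by norm_num)
  have hBN : B ≤ K.N := by
    have e1 : B * Q ≤ Q * K.N := by
      have e2 : Q ≤ Q ^ (12 * (g + D + 1)) := by
        calc Q = Q ^ 1 := (pow_one _).symm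
          _ ≤ _ := Nat.pow_le_pow_right hQnat (by omega)
      have e3 : Fintype.card ι ≤ Q * K.N := by exact_mod_cast hnN
      exact le_trans (Nat.mul_le_mul_left B e2) (le_trans hBQ e3)
    rw [mul_comm Q] at e1
    exact Nat.le_of_mul_le_mul_right e1 (by omega)
  have hG0 : 0 < Q ^ g := Nat.pos_of_ne_zero (by positivity)
  obtain ⟨m1, -⟩ := h1 ι K B (by omega)
  obtain ⟨m2, -⟩ := h1 ι K (B * Q ^ g) (by positivity)
  have m3 : ∀ n, mc K (B * Q ^ g) n / Q ^ g = mc K B n := (h1 ι K B (by omega)).2 _ hG0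
  -- StLow
  have low := (hC ι K hx hGP B (mc K B) hB hBN m1 F hF ((Q : ℝ) ^ (D + 1)) (one_le_pow₀ hQ1)
    (by
      have e1 : (K.N : ℝ) ≤ (Q : ℝ) ^ D * F.card := by exact_mod_cast hcon.le
      refine le_trans e1 ?_
      rw [pow_succ]
      have : (0 : ℝ) ≤ (Q : ℝ) ^ D * F.card := by positivity
      nlinarith)
    (by
      refine le_trans hQN ?_
      have e1 : (Q : ℝ) ≤ (Q : ℝ) ^ (D + 1) := by
        calc (Q : ℝ) = (Q : ℝ) ^ 1 := (pow_one _).symm
          _ ≤ _ := pow_le_pow_right₀ hQ1 (by omega)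
      exact mul_le_mul_of_nonneg_right e1 (Nat.cast_nonneg _))).1 false
  -- the count
  have hcount : im F (fun n => (mc K B n, K.ln false n)) ≤ B * (Q ^ g * (Q ^ g * 2)) := by
    have hcard : ((range B) ×ˢ ((range (Q ^ g)) ×ˢ ((range (Q ^ g)) ×ˢ
        (univ : Finset Bool)))).card = B * (Q ^ g * (Q ^ g * 2)) := by
      simp [card_product]
    rw [← hcard]
    refine card_le_card_of_injOn (fun w : ℕ × ι =>
      (w.1, mc K (B * Q ^ g) (kk w.2 w.1) % Q ^ g, mc K (B * Q ^ g) (ll w.2 w.1) % Q ^ g,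
        ty K w.2 (j0 (mc K (B * Q ^ g)) kk w.2 w.1) (j1 K (mc K (B * Q ^ g)) ll w.2 w.1))) ?_ ?_
    · intro w hw
      obtain ⟨n, hn', rfl⟩ := mem_image.1 (mem_coe.1 hw)
      simp only [coe_product, Set.mem_prod, mem_coe, mem_range, mem_univ, and_true]
      exact ⟨m1.lt n (mem_range.1 (hF hn')), Nat.mod_lt _ hG0, Nat.mod_lt _ hG0⟩
    · intro w hw w' hw' hww
      obtain ⟨n, hn', rfl⟩ := mem_image.1 (mem_coe.1 hw)
      obtain ⟨n', hn'', rfl⟩ := mem_image.1 (mem_coe.1 hw')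
      simp only [Prod.mk.injEq] at hww
      obtain ⟨q1, q2, q3, q4⟩ := hww
      simp only [KSys.ln] at q1 q2 q3 q4 ⊢
      obtain ⟨pd, pz⟩ := hF2 n hn'
      obtain ⟨pd', pz'⟩ := hF2 n' hn''
      rw [← q1] at q2 q3 q4 pd'
      have pz2 : dl K (mc K (B * Q ^ g)) kk ll (K.a n) (mc K B n) = 0 := pz
      have pz2' : dl K (mc K (B * Q ^ g)) kk ll (K.a n') (mc K B n) = 0 := by
        rw [q1]; exact pz'
      have c1 : mc K (B * Q ^ g) (kk (K.a n) (mc K B n)) =
          mc K (B * Q ^ g) (kk (K.a n') (mc K B n)) := by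
        rw [← Nat.div_add_mod (mc K (B * Q ^ g) (kk (K.a n) (mc K B n))) (Q ^ g),
          ← Nat.div_add_mod (mc K (B * Q ^ g) (kk (K.a n') (mc K B n))) (Q ^ g), q2, m3, m3,
          pd.ck, pd'.ck]
      have c2 : mc K (B * Q ^ g) (ll (K.a n) (mc K B n)) =
          mc K (B * Q ^ g) (ll (K.a n') (mc K B n)) := by
        rw [← Nat.div_add_mod (mc K (B * Q ^ g) (ll (K.a n) (mc K B n))) (Q ^ g),
          ← Nat.div_add_mod (mc K (B * Q ^ g) (ll (K.a n') (mc K B n))) (Q ^ g), q3, m3, m3,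
          pd.cl, pd'.cl]
      have := inj h3 h4 K hx Q (B * Q ^ g) (mc K B) (mc K (B * Q ^ g)) m2 kk ll (K.a n) (K.a n')
        (mc K B n) pd pd' pz2 pz2' c1 c2 q4
      rw [← q1, this]
  -- conclusion
  have hB1 : (1 : ℝ) ≤ (B : ℝ) ^ ((1 : ℝ) / 4) :=
    Real.one_le_rpow (by exact_mod_cast hB) (by norm_num)
  have hBpos : (0 : ℝ) < B := by
    have : 0 < B := by omega
    exact_mod_cast this
  have f1 : (Fintype.card ι : ℝ) ≤ C * ((Q : ℝ) ^ (D + 1)) ^ 9 * (B * (Q ^ g * (Q ^ g * 2))) := by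
    calc (Fintype.card ι : ℝ) = Fintype.card ι * 1 := (mul_one _).symm
      _ ≤ Fintype.card ι * (B : ℝ) ^ ((1 : ℝ) / 4) :=
          mul_le_mul_of_nonneg_left hB1 (by linarith)
      _ ≤ _ := low
      _ ≤ _ := by
          refine mul_le_mul_of_nonneg_left ?_ (by positivity)
          exact_mod_cast hcount
  have f2 : (B : ℝ) * (Q : ℝ) ^ (12 * (g + D + 1)) ≤ Fintype.card ι := by exact_mod_cast hBQ
  have f3 : (B : ℝ) * (Q : ℝ) ^ (12 * (g + D + 1)) ≤
      B * (2 * C * (Q : ℝ) ^ (9 * (D + 1) + 2 * g)) := by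
    refine le_trans f2 (le_trans f1 (le_of_eq ?_))
    ring
  have f4 := le_of_mul_le_mul_left f3 hBpos
  have f5 : (Q : ℝ) ^ (9 * (D + 1) + 2 * g + 1) ≤ (Q : ℝ) ^ (12 * (g + D + 1)) :=
    pow_le_pow_right₀ hQ1 (by omega)
  have f6 : (0 : ℝ) < (Q : ℝ) ^ (9 * (D + 1) + 2 * g) := by positivity
  rw [pow_succ] at f5
  have f7 : (Q : ℝ) ^ (9 * (D + 1) + 2 * g) * Q ≤ (Q : ℝ) ^ (9 * (D + 1) + 2 * g) * (2 * C) := by
    linarith
  have f8 := le_of_mul_le_mul_left f7 f6
  linarith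

end Pool.Agent.Work.MP_e17eac_co.AS2

end

section

/-!
# Arbitrary sets, block AS2: at most one jump for every (token, annulus)
-/

namespace Pool.Agent.Work.MP_e17eac_co.AS2

open Finset
open Pool.Agent.Work.MP_e17eac_co.DH
open Pool.Agent.Work.MP_e17eac_co.MX

namespace XJmpC

variable {ι : Type} [Fintype ι] [DecidableEq ι]

theorem core (h0 : StMono) (h1 : StTok) (h2 : StLoHi) {K : KSys ι} {Q G M M' : ℕ} {c cp : ℕ → ℕ}
    {kk ll : ι → ℕ → ℕ} {ref : ι → ℕ → ι} {uu : ι → ℕ → ℕ} {S : Finset (ι × ℕ)} {Eg : Finset ℕ}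
    (A : AnnS K Q G M M' c cp kk ll ref uu S Eg) {m m' : ℕ} (hm : m ∈ Eg) (hm' : m' ∈ Eg)
    (hlt : m < m') (hps : ps K c cp kk ll m = ps K c cp kk ll m')
    (hii : ii K c cp kk ll ref m = ii K c cp kk ll ref m') (htok : K.tokB m = K.tokB m')
    (hj : Jmp K c cp kk ll ref m) : False := by
  obtain ⟨hS, hu⟩ := A.eg m hm
  obtain ⟨hS', hu'⟩ := A.eg m' hm'
  have P' : PD K c cp Q kk ll (K.a m') (c m') := A.pd _ hS'
  have hmN' := A.sub m' hm'
  have hmN := A.sub m hm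
  have H' := XNJ.hullS h2 A P'
  have E := XNJ.psi_eq (p := K.a m) (q := K.a m') hps
  have hr : ref (K.a m) (c m) = ref (K.a m') (c m') := A.refc _ hS _ hS' hps
  have hD' := XNJ.Dd_pos h2 A hS'
  have hI2 : Dd K cp kk ll ref (K.a m') (c m') < (2 : ℝ) ^ (ii K c cp kk ll ref m' + 1) :=
    Int.lt_zpow_succ_log_self (by norm_num) _
  have t1 := h1 ι K m hmN
  have t2 := h1 ι K m' hmN'
  have hmono := (h0 ι K (m + 1) m' (by omega) hmN'.le).1 (K.tokB m) t1.1
  rw [t1.2.2.2.1] at hmono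
  have hpm : K.pos m' (K.tokB m) = K.a m' := by
    rw [htok]
    exact t2.2.2.1
  rw [hpm] at hmono
  have hD0 : |K.ht (K.a m') (K.t (j0 cp kk (K.a m') (c m'))) -
        K.ht (ref (K.a m') (c m')) (K.t (j0 cp kk (K.a m') (c m')))| ≤
        Dd K cp kk ll ref (K.a m') (c m') := le_max_left _ _
  have hD1 : |K.ht (K.a m') (K.t (j1 K cp ll (K.a m') (c m'))) -
        K.ht (ref (K.a m') (c m')) (K.t (j1 K cp ll (K.a m') (c m')))| ≤
        Dd K cp kk ll ref (K.a m') (c m') := le_max_right _ _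
  unfold Jmp hl at hj
  rw [E.2.1, E.2.2.1, hr, hii] at hj
  have hst : K.t (j0 cp kk (K.a m') (c m')) ≤ K.t (j1 K cp ll (K.a m') (c m')) :=
    XNJ.t_le K ((((H'.1.trans H'.2.1).trans H'.2.2.1.le).trans H'.2.2.2.1).trans H'.2.2.2.2.1)
      H'.2.2.2.2.2
  set s0 := K.t (j0 cp kk (K.a m') (c m'))
  set s1 := K.t (j1 K cp ll (K.a m') (c m'))
  set l := ref (K.a m') (c m')
  set D := Dd K cp kk ll ref (K.a m') (c m')
  set I := ii K c cp kk ll ref m'
  have hHpos : 0 ≤ s1 - s0 := by linarith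
  have e1 : (s1 - s0) * (K.x l - K.x (K.a m')) ≤ 2 * D := by
    unfold KSys.ht at hD0 hD1
    rw [abs_le] at hD0 hD1
    nlinarith
  have e2 : (s1 - s0) * (K.x l - K.x (K.b m)) ≤ 2 * D := by
    refine le_trans ?_ e1
    apply mul_le_mul_of_nonneg_left _ hHpos
    linarith
  have p0 : (2 : ℝ) ^ (I + 1) = 2 * 2 ^ I := by
    rw [zpow_add₀ (by norm_num)]; norm_num; ring
  have p7 : (2 : ℝ) ^ (I + 7) = 128 * 2 ^ I := by
    rw [zpow_add₀ (by norm_num)]; norm_num; ring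
  have hIpos : (0 : ℝ) < 2 ^ I := by positivity
  rw [p7] at hj
  rw [p0] at hI2
  linarith

end XJmpC

theorem I_JmpC (h0 : StMono) (h1 : StTok) (h2 : StLoHi) : StJmpC := by
  classical
  intro ι _ _ K Q G M M' c cp kk ll ref uu S Eg A
  unfold im
  apply card_le_card_of_injOn
    (fun m => ((ps K c cp kk ll m, ii K c cp kk ll ref m), K.tokB m))
  · intro m hm
    have hm1 := mem_filter.1 (mem_coe.1 hm)
    exact mem_coe.2 (mem_image_of_mem (fun m => ((ps K c cp kk ll m, ii K c cp kk ll ref m),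
      K.tokB m)) hm1.1)
  · intro m hm m' hm' h
    obtain ⟨a1, a2⟩ := mem_filter.1 (mem_coe.1 hm)
    obtain ⟨b1, b2⟩ := mem_filter.1 (mem_coe.1 hm')
    simp only [Prod.mk.injEq] at h
    rcases lt_trichotomy m m' with hlt | heq | hlt
    · exact (XJmpC.core h0 h1 h2 A a1 b1 hlt h.1.1 h.1.2 h.2 a2).elim
    · exact heq
    · exact (XJmpC.core h0 h1 h2 A b1 a1 hlt h.1.1.symm h.1.2.symm h.2.symm b2).elim

end Pool.Agent.Work.MP_e17eac_co.AS2

end

section

/-!
# Arbitrary sets, block AS2: number of lines of one annulus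
-/

namespace Pool.Agent.Work.MP_e17eac_co.AS2

open Finset
open Pool.Agent.Work.MP_e17eac_co.DH
open Pool.Agent.Work.MP_e17eac_co.MX

namespace XLaC

variable {ι : Type} [Fintype ι] [DecidableEq ι]

/-- The radius is Lipschitz in the line. -/
theorem del_lip (h1 : StUD) (K : KSys ι) (p q : ι) {i0 i1 : ℕ} (hi : i0 ≤ i1) (hN : i1 < K.N)
    {D : ℝ} (hD0 : |K.ht p (K.t i0) - K.ht q (K.t i0)| ≤ D)
    (hD1 : |K.ht p (K.t i1) - K.ht q (K.t i1)| ≤ D) :
    del K p i0 i1 ≤ del K q i0 i1 + D := by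
  obtain ⟨-, ⟨j, hj0, hj1, hj⟩, -, ⟨k, hk0, hk1, hk⟩⟩ := h1 ι K p i0 i1 hi
  obtain ⟨hu, -, hd, -⟩ := h1 ι K q i0 i1 hi
  have aff : ∀ j, i0 ≤ j → j ≤ i1 → |K.ht p (K.t j) - K.ht q (K.t j)| ≤ D := by
    intro j h0 h1
    exact XNJ.aff_le K p q (XNJ.t_le K h0 (by omega)) (XNJ.t_le K h1 hN) hD0 hD1
  have e1 : up K p i0 i1 ≤ up K q i0 i1 + D := by
    have a1 := hu j hj0 hj1
    have a2 := abs_le.1 (aff j hj0 hj1)
    rw [hj]
    linarith
  have e2 : dn K p i0 i1 ≤ dn K q i0 i1 + D := by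
    have a1 := hd k hk0 hk1
    have a2 := abs_le.1 (aff k hk0 hk1)
    rw [hk]
    linarith
  unfold del
  rcases le_total (up K q i0 i1) (dn K q i0 i1) with h | h
  · rw [min_eq_left h]
    exact (min_le_left _ _).trans e1
  · rw [min_eq_right h]
    exact (min_le_right _ _).trans e2

/-- Comparison of `Dd` and `dl` on `S`. -/
theorem comp (h0 : StCon) (h1 : StUD) (h2 : StLoHi) {K : KSys ι} {Q G M M' : ℕ} {c cp : ℕ → ℕ}
    {kk ll : ι → ℕ → ℕ} {ref : ι → ℕ → ι} {uu : ι → ℕ → ℕ} {S : Finset (ι × ℕ)} {Eg : Finset ℕ}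
    (A : AnnS K Q G M M' c cp kk ll ref uu S Eg) {p : ι} {z : ℕ} (hw : (p, z) ∈ S) :
    Dd K cp kk ll ref p z ≤ 2 * Q * dl K cp kk ll p z ∧
      dl K cp kk ll p z ≤ 2 * Dd K cp kk ll ref p z := by
  have P : PD K c cp Q kk ll p z := A.pd _ hw
  have P' : PD K c cp Q kk ll (ref p z) z := A.pdr _ hw
  have hps : psi K cp kk ll (ref p z) z = psi K cp kk ll p z := A.psir _ hw
  have E := XNJ.psi_eq hps
  have H := XNJ.hullS h2 A P
  have H' := XNJ.hullS h2 A P'
  have hlr : 2 * dl K cp kk ll (ref p z) z ≤ dl K cp kk ll p z := A.dlr _ hw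
  have hpr : 0 < dl K cp kk ll (ref p z) z := A.posr _ hw
  have hlo : lo cp (ll (ref p z) z) = lo cp (ll p z) := XNJ.lo_congr E.2.2.2.2.1
  have hhi : hi K cp (kk (ref p z) z) = hi K cp (kk p z) := XNJ.hi_congr K E.2.2.2.1
  have hJ : j0 cp kk p z ≤ j1 K cp ll p z :=
    (((H.1.trans H.2.1).trans H.2.2.1.le).trans H.2.2.2.1).trans H.2.2.2.2.1
  have hdr : dl K cp kk ll (ref p z) z =
      del K (ref p z) (j0 cp kk p z) (j1 K cp ll p z) := by
    unfold dl
    rw [E.2.1, E.2.2.1]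
  have hty : ty K p (j0 cp kk p z) (j1 K cp ll p z) =
      ty K (ref p z) (j0 cp kk p z) (j1 K cp ll p z) := by
    have := E.2.2.2.2.2
    rw [E.2.1, E.2.2.1] at this
    exact this.symm
  have hk1N : hi K cp (kk p z) < K.N := (h2 ι K M' cp A.hcp _ P.kN).2.2.1
  have hl0N : lo cp (ll p z) < K.N := H.2.2.2.1.trans_lt P.lN
  have con := h0 ι K p (ref p z) (j0 cp kk p z) (j1 K cp ll p z) (kk p z) (ll p z)
    (kk (ref p z) z) (ll (ref p z) z) (K.t (hi K cp (kk p z))) (K.t (lo cp (ll p z))) Q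
    H.2.2.2.2.2 P.kN P'.kN H.1 (E.2.1 ▸ H'.1) H.2.2.2.2.1 (E.2.2.1 ▸ H'.2.2.2.2.1) P.ak P.al P'.ak P'.al
    (XNJ.t_le K H.2.1 hk1N) (XNJ.t_le K (hhi ▸ H'.2.1) hk1N)
    (K.t_lt _ _ H.2.2.1 hl0N) (XNJ.t_le K H.2.2.2.1 P.lN)
    (XNJ.t_le K (hlo ▸ H'.2.2.2.1) P'.lN) P.good hty
  have hmax : max (del K p (j0 cp kk p z) (j1 K cp ll p z))
      (del K (ref p z) (j0 cp kk p z) (j1 K cp ll p z)) = dl K cp kk ll p z := by
    rw [← hdr]
    change max (dl K cp kk ll p z) _ = _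
    apply max_eq_left
    linarith
  rw [hmax] at con
  have c0 := con _ (Or.inl rfl)
  have c1 := con _ (Or.inr rfl)
  refine ⟨max_le c0 c1, ?_⟩
  have hD0 : |K.ht p (K.t (j0 cp kk p z)) - K.ht (ref p z) (K.t (j0 cp kk p z))| ≤
      Dd K cp kk ll ref p z := le_max_left _ _
  have hD1 : |K.ht p (K.t (j1 K cp ll p z)) - K.ht (ref p z) (K.t (j1 K cp ll p z))| ≤
      Dd K cp kk ll ref p z := le_max_right _ _
  have hl := del_lip h1 K p (ref p z) hJ H.2.2.2.2.2 hD0 hD1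
  rw [← hdr] at hl
  change dl K cp kk ll p z ≤ _ at hl
  linarith

end XLaC

theorem I_LaC (h0 : StCon) (h1 : StUD) (h2 : StLoHi) : StLaC := by
  classical
  intro ι _ _ K Q G M M' c cp kk ll ref uu S Eg A La hLa n hn
  set T := Eg.filter (fun m => ps K c cp kk ll m = ps K c cp kk ll n ∧
    ii K c cp kk ll ref m = ii K c cp kk ll ref n) with hT
  set f : ι → ℤ := fun p => Int.log 2 (dl K cp kk ll p (c n)) with hf
  have hcz : ∀ m ∈ T, c m = c n := by
    intro m hm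
    rw [hT, mem_filter] at hm
    exact (XNJ.psi_eq hm.2.1).1
  have hdyad : ∀ m ∈ T, (2 : ℝ) ^ (f (K.a m)) ≤ 2 * 2 ^ (ii K c cp kk ll ref n + 1) ∧
      (2 : ℝ) ^ (ii K c cp kk ll ref n) ≤ 2 * Q * 2 ^ (f (K.a m) + 1) := by
    intro m hm
    have hcm := hcz m hm
    rw [hT, mem_filter] at hm
    obtain ⟨hmE, hmp, hmi⟩ := hm
    have hS := (A.eg m hmE).1
    have C := XLaC.comp h0 h1 h2 A hS
    have hD := XNJ.Dd_pos h2 A hS
    have hI1 : (2 : ℝ) ^ (ii K c cp kk ll ref m) ≤ Dd K cp kk ll ref (K.a m) (c m) :=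
      Int.zpow_log_le_self (by norm_num) hD
    have hI2 : Dd K cp kk ll ref (K.a m) (c m) < (2 : ℝ) ^ (ii K c cp kk ll ref m + 1) :=
      Int.lt_zpow_succ_log_self (by norm_num) _
    have hdp : 0 < dl K cp kk ll (K.a m) (c m) := A.pos _ hS
    have hfm : f (K.a m) = Int.log 2 (dl K cp kk ll (K.a m) (c m)) := by
      rw [hf, hcm]
    have hJ1 : (2 : ℝ) ^ (f (K.a m)) ≤ dl K cp kk ll (K.a m) (c m) := by
      rw [hfm]
      exact Int.zpow_log_le_self (by norm_num) hdp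
    have hJ2 : dl K cp kk ll (K.a m) (c m) < (2 : ℝ) ^ (f (K.a m) + 1) := by
      rw [hfm]
      exact Int.lt_zpow_succ_log_self (by norm_num) _
    rw [hmi] at hI1 hI2
    have hQ0 : (0 : ℝ) ≤ Q := Nat.cast_nonneg _
    constructor
    · linarith [C.2]
    · have := mul_le_mul_of_nonneg_left hJ2.le (by positivity : (0 : ℝ) ≤ 2 * Q)
      linarith [C.1]
  have hcard : ((T.image K.a).image f).card ≤ Q := by
    apply XNJ.cnt Q A.Qle
    intro j hj j' hj'
    rw [mem_image] at hj hj'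
    obtain ⟨p, hp, rfl⟩ := hj
    obtain ⟨p', hp', rfl⟩ := hj'
    rw [mem_image] at hp hp'
    obtain ⟨m, hm, rfl⟩ := hp
    obtain ⟨m', hm', rfl⟩ := hp'
    have e1 := (hdyad m hm).1
    have e2 := (hdyad m' hm').2
    have e3 : (2 : ℝ) ^ (ii K c cp kk ll ref n + 1) = 2 * 2 ^ (ii K c cp kk ll ref n) := by
      rw [zpow_add₀ (by norm_num)]; norm_num; ring
    have e4 : (2 : ℝ) ^ (f (K.a m') + 1) = 2 * 2 ^ (f (K.a m')) := by
      rw [zpow_add₀ (by norm_num)]; norm_num; ring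
    have e5 : (2 : ℝ) ^ (f (K.a m') + 12) = 4096 * 2 ^ (f (K.a m')) := by
      rw [zpow_add₀ (by norm_num)]; norm_num; ring
    rw [e3] at e1
    rw [e4] at e2
    rw [e5]
    have hQ0 : (0 : ℝ) ≤ Q := Nat.cast_nonneg _
    have h3 : (0 : ℝ) ≤ Q * 2 ^ (f (K.a m')) := by positivity
    nlinarith
  have hmul : (T.image K.a).card ≤ La * ((T.image K.a).image f).card := by
    apply Finset.card_le_mul_card_image
    intro j hj
    rw [mem_image] at hj
    obtain ⟨p, hp, rfl⟩ := hj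
    rw [mem_image] at hp
    obtain ⟨m, hm, rfl⟩ := hp
    have hcm := hcz m hm
    have hmT := hm
    rw [hT, mem_filter] at hm
    obtain ⟨hmE, hmp, hmi⟩ := hm
    have hS := (A.eg m hmE).1
    refine le_trans ?_ (hLa _ hS)
    have hinj : Function.Injective (fun q : ι => (q, c m)) := by
      intro q q' h
      simpa using h
    rw [← Finset.card_image_of_injective _ hinj]
    apply Finset.card_le_card
    intro v hv
    rw [mem_image] at hv
    obtain ⟨q, hq, rfl⟩ := hv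
    rw [mem_filter, mem_image] at hq
    obtain ⟨⟨m', hm', rfl⟩, hfq⟩ := hq
    have hcm' := hcz m' hm'
    rw [hT, mem_filter] at hm'
    rw [mem_filter]
    refine ⟨?_, ?_⟩
    · have := (A.eg m' hm'.1).1
      rw [hcm', ← hcm] at this
      exact this
    · unfold lb
      simp only [Prod.mk.injEq]
      constructor
      · have := hm'.2.1.trans hmp.symm
        unfold ps at this
        rw [hcm', ← hcm] at this
        exact this
      · rw [hf] at hfq
        simp only at hfq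
        rw [← hcm] at hfq
        exact hfq
  calc (T.image K.a).card ≤ La * ((T.image K.a).image f).card := hmul
    _ ≤ La * Q := Nat.mul_le_mul_left _ hcard
    _ = Q * La := Nat.mul_comm _ _

end Pool.Agent.Work.MP_e17eac_co.AS2

end
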