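import Pool.Agent.Work.MP_e17eac_co.Bd.B33
import Pool.Agent.Work.MP_e17eac_co.Bd.B08
import Pool.Agent.Work.MP_e17eac_co.Bd.B26
import Pool.Agent.Work.MP_e17eac_co.Bd.B15
import Pool.Agent.Work.MP_e17eac_co.Bd.B25
import Pool.Agent.Work.MP_e17eac_co.AS2.P_Lev
import Pool.Agent.Work.MP_e17eac_co.Bd.B21
import Pool.Agent.Work.MP_e17eac_co.AS2.P_One
import Pool.Agent.Work.MP_e17eac_co.Bd.B14
import Pool.Agent.Work.MP_e17eac_co.Bd.B29
import Pool.Agent.Work.MP_e17eac_co.Bd.B30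

/-! Bundle of small proof modules (one section per former module). -/

section

/-!
# Block AS2: assembly without hypotheses (annuli lemma, all levels, two-sided labels)
-/

namespace Pool.Agent.Work.MP_e17eac_co.AS2

open Pool.Agent.Work.MP_e17eac_co.DH
open Pool.Agent.Work.MP_e17eac_co.MX

theorem tPosD : StPos := I_POS

theorem tTokD : StTok := I_TOK tPosD

theorem tMonoD : StMono := I_MONO tTokD

theorem tPathD : StPath := I_PATH tTokD tMonoD

theorem tMirD : StMir := I_MIR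

theorem tIdxD : StIdx := I_IDX

theorem tLeqD : StLeq := I_LEQ

theorem tSandD : StSand := I_SAND tPosD tTokD tMonoD tPathD tMirD tIdxD tLeqD

theorem tTouchD : StTouch := I_TOUCH tPosD tTokD tMonoD tPathD tMirD tLeqD

theorem tDeyID : StDeyI := I_DEYI tDey tTokD tMonoD

theorem tRegD : StReg := I_REG

theorem tUD : StUD := I_UD

theorem tClo : StClo := I_Clo tUD tLeqD

theorem tD2 : StD2 := I_D2 tUD tLeqD tSandD

theorem tCon : StCon := I_Con tUD

theorem tTL : StTL := I_TL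

theorem tGen : StGen := I_Gen

theorem tTokC : StTokC := I_TokC tTL tTouchD tLoHi tLeqD

theorem tJmpC : StJmpC := I_JmpC tMonoD tTokD tLoHi

theorem tNJ : StNJ := I_NJ tLoHi

theorem tLaC : StLaC := I_LaC tCon tUD tLoHi

theorem tDeyS : StDeyS := I_DeyS tDey

theorem tAnnUB : StAnnUB := I_AnnUB tTokC tJmpC tNJ tLaC tDeyS

theorem tAnnG : StAnnG := I_AnnG tGen tLoHi

/-- **Annuli lemma.** -/
theorem tAnn : StAnn := I_Ann tMc tUp tLow tAnnG tAnnUB

theorem tCrowd : StCrowd := I_Crowd tT2i tLoHi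

theorem tZero : StZero := I_Zero tMc tLow tCon tLoHi

/-- **Level step.** -/
theorem tLev : StLev := I_Lev tRegD tDeyID tMc tUp tLow tGP tZero tAnn tCrowd tUD

/-- **All levels.** -/
theorem tLevs : StLevs := I_Levs tLev

/-- **Stagnation.** -/
theorem tStag : StStag := I_Stag tMc tLoHi tUp tLow tCon tD2 tMonoD tTokD

theorem tLong : StLong := I_Long tLoHi

theorem tPop : StPop := I_Pop tMc tLow

theorem tRoot : StRoot := I_Root tRegD tDeyID tMc tUp tLow tGP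

/-- **Labels on one side.** -/
theorem tOne : StOne := I_One tLevs tStag tLong tClo tCon tMc tLoHi tUD

/-- **Two-sided labels.** -/
theorem tTwo : StTwo := I_Two tRoot tOne tPop tMc tLoHi

end Pool.Agent.Work.MP_e17eac_co.AS2

end

section

/-!
# Adapter: the two-sided labels of block AS2 in the form of the top assembly
-/

namespace Pool.Agent.Work.MP_e17eac_co.BB

open Finset
open Pool.Agent.Work.MP_e17eac_co.DH
open Pool.Agent.Work.MP_e17eac_co.B1

namespace AAS2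

/-- The values of the labels of block AS2. -/
abbrev LV : Type := (ℕ × ℕ × ℕ × Bool) × ℤ

/-- One label function from the labels of the two sides. -/
noncomputable def mkL (E1 : Finset ℕ) (lab lab' : ℕ → ℕ → LV) (h0 h1 dl h0' h1' dl' : ℕ → ℕ → ℝ) :
    Lab where
  lab x i := if i ∈ E1 then Encodable.encode (lab' x i) else Encodable.encode (lab x i)
  h0 x i := if i ∈ E1 then h0' x i else h0 x i
  h1 x i := if i ∈ E1 then h1' x i else h1 x i
  del x i := if i ∈ E1 then dl' x i else dl x i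

variable {ι : Type} [Fintype ι] [DecidableEq ι]

theorem labOK {K : KSys ι} {r m : ℕ} {D : ℝ} {E : Finset ℕ} {s s' s0 e0 : ℝ}
    {lab : ℕ → ℕ → LV} {h0 h1 dl : ℕ → ℕ → ℝ} {L : Lab} (hr : 1 ≤ r) (hD : 0 ≤ D)
    (h : AS2.IsLab K r m D E s s' (e0 - s0) lab h0 h1 dl) (hs : s0 ≤ s) (hs' : s' ≤ e0)
    (hb : s0 < e0) (hlab : ∀ x, ∀ i ∈ E, L.lab x i = Encodable.encode (lab x i))
    (hh0 : ∀ x, ∀ i ∈ E, L.h0 x i = h0 x i) (hh1 : ∀ x, ∀ i ∈ E, L.h1 x i = h1 x i)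
    (hdl : ∀ x, ∀ i ∈ E, L.del x i = dl x i) : LabOK K r m D s0 e0 L E := by
  have hlabiff : ∀ x, ∀ i ∈ E, ∀ i' ∈ E, L.lab x i = L.lab x i' ↔ lab x i = lab x i' := by
    intro x i hi i' hi'
    rw [hlab x i hi, hlab x i' hi', Encodable.encode_inj]
  refine
  { base := hb
    lt := h.sub
    tm := ?_
    leq := ?_
    line := ?_
    few := ?_
    hull := ?_
    nest := ?_
    disj := ?_
    pos := ?_
    clo := ?_
    con := ?_
    mono := ?_
    stag := ?_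
    short := ?_ }
  · intro i hi
    have e1 := h.mem 0 (Nat.zero_le _) i hi
    have e2 := h.side 0 (Nat.zero_le _) i hi
    constructor <;> linarith [e1.1, e1.2.1, e2.1, e2.2]
  · intro x _ hx i hi i' hi' he
    have e1 := h.lab_cell x hx i hi i' hi' ((hlabiff x i hi i' hi').1 he)
    refine ⟨e1.1, ?_, ?_, ?_⟩
    · rw [hh0 x i hi, hh0 x i' hi']; exact e1.2.1
    · rw [hh1 x i hi, hh1 x i' hi']; exact e1.2.2.1
    · rw [hdl x i hi, hdl x i' hi']; exact e1.2.2.2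
  · intro x _ hx i hi i' hi' ha hc
    exact (hlabiff x i hi i' hi').2 (h.lab_line x hx i hi i' hi' ha hc)
  · intro x _ hx c
    rcases (E.filter (fun i => cell K r x i = c)).eq_empty_or_nonempty with h0 | ⟨i, hi⟩
    · rw [h0]; simpa using hD
    · rw [mem_filter] at hi
      obtain ⟨hi, rfl⟩ := hi
      refine le_trans ?_ (h.lab_card x hx i hi)
      refine Nat.cast_le.2 ?_
      have e1 : (E.filter (fun j => cell K r x j = cell K r x i)).image (L.lab x) ⊆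
          (((E.filter (fun k => MX.mc K (r ^ (4 * x)) k = MX.mc K (r ^ (4 * x)) i)).image
            (lab x)).image Encodable.encode) := by
        intro v hv
        obtain ⟨j, hj, rfl⟩ := mem_image.1 hv
        rw [mem_filter] at hj
        rw [hlab x j hj.1]
        exact mem_image_of_mem _ (mem_image_of_mem _ (mem_filter.2 ⟨hj.1, hj.2⟩))
      exact (card_le_card e1).trans card_image_le
  · intro x _ hx i hi
    have e1 := h.mem x hx i hi
    have e2 := h.side x hx i hi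
    rw [hh0 x i hi, hh1 x i hi]
    exact ⟨hs.trans e2.1, e1.2.2, e2.2.trans hs', e1.1, e1.2.1⟩
  · intro x _ hx i hi
    have e1 := h.nest x (by omega) i hi
    rw [hh0 x i hi, hh1 x i hi, hh0 (x + 1) i hi, hh1 (x + 1) i hi]
    exact e1
  · intro x _ hx i hi i' hi' hc
    rw [hh1 x i hi, hh0 x i' hi']
    have hM : 0 < r ^ (4 * x) := by positivity
    have hcells := (MX.I_Mc ι K (r ^ (4 * x)) hM).1
    have hiN := h.sub i hi
    have hiN' := h.sub i' hi'
    have l1 := MX.I_LoHi ι K (r ^ (4 * x)) _ hcells i hiN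
    have l2 := MX.I_LoHi ι K (r ^ (4 * x)) _ hcells i' hiN'
    have hloN : MX.lo (MX.mc K (r ^ (4 * x))) i' < K.N := lt_of_le_of_lt l2.1 hiN'
    have hlt : MX.hi K (MX.mc K (r ^ (4 * x))) i < MX.lo (MX.mc K (r ^ (4 * x))) i' := by
      refine (l1.2.2.2.2.2.2.2.1 _ hloN).1 ?_
      rw [l2.2.2.2.1]
      exact hc
    have ht := K.t_lt _ _ hlt hloN
    have s1 := (h.span x hx i hi).2
    have s2 := (h.span x hx i' hi').1
    linarith
  · intro x _ hx i hi
    rw [hdl x i hi]; exact h.pos x hx i hi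
  · intro x _ hx i hi q h1' h2'
    rw [hh0 x i hi, hdl x i hi] at h1'
    rw [hh1 x i hi, hdl x i hi] at h2'
    exact h.clo x hx i hi q h1' h2'
  · intro x _ hx i hi i' hi' he
    have e1 := h.con x hx i hi i' hi' ((hlabiff x i hi i' hi').1 he)
    rw [hh0 x i hi, hh1 x i hi, hdl x i hi]
    exact e1
  · intro x _ hx i hi
    rw [hdl x i hi, hdl (x + 1) i hi]
    exact h.dec x (by omega) i hi
  · intro x _ hx i hi
    rw [hdl x i hi, hdl (x + 3) i hi]
    exact h.stag x hx i hi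
  · intro x _ hx i hi
    rw [hh0 x i hi, hh1 x i hi, mul_comm]
    exact h.short x hx i hi

end AAS2

open AAS2 in
/-- Block AS2 in the form of the top assembly. -/
theorem A_AS2 (h : AS2.StTwo) : StAS2 := by
  intro m
  obtain ⟨A, hA⟩ := h m 1
  refine ⟨A + 1, fun η hη => ?_⟩
  obtain ⟨n0, hn0⟩ := hA η hη
  refine ⟨max n0 1, ?_⟩
  intro ι _ _ K Q b H hinj hgp hn hQ hdense hb hpow E hyg hcard
  have hn1 : 1 ≤ Fintype.card ι := (le_max_right _ _).trans hn
  have hn1' : (1 : ℝ) ≤ (Fintype.card ι : ℝ) := by exact_mod_cast hn1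
  have hQ1' : (1 : ℝ) ≤ (Q : ℝ) := (Real.one_le_rpow hn1' hη.le).trans hQ
  have hQ1 : 1 ≤ Q := by exact_mod_cast hQ1'
  have hNpos : 0 < K.N := by
    rcases Nat.eq_zero_or_pos K.N with h0 | h0
    · rw [h0] at hdense
      have := Real.one_le_rpow hn1' (by norm_num : (0 : ℝ) ≤ 4 / 3)
      simp only [Nat.cast_zero, mul_zero] at hdense
      linarith
    · exact h0
  have hEsub : E ⊆ range K.N := fun i hi => mem_range.2 (hyg i hi).lt
  have hQA : Q ^ A ≤ Q ^ (A + 1) := Nat.pow_le_pow_right hQ1 (Nat.le_succ A)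
  obtain ⟨P, E0, E1, s0, s1, s2, e0, lab, lab', h0, h1, dl, h0', h1', dl', hE0, hE1, hs01, hs12,
    hs2e, hgap, hbig, ha0, ha1, hd0, hd1, hL0, hL1⟩ := hn0 ι K hinj hgp
      ((le_max_left _ _).trans hn) Q b hQ hdense (by omega)
      ((Nat.mul_le_mul_left _ hQA).trans hpow) E hEsub (by simpa using hcard)
  have hb0 : s0 < e0 := by linarith
  have hr : 1 ≤ Q ^ b := Nat.one_le_pow _ _ hQ1
  have hD0 : (0 : ℝ) ≤ (Q : ℝ) ^ (A + 1) := by positivity
  have hDD : (Q : ℝ) ^ A ≤ (Q : ℝ) ^ (A + 1) := pow_le_pow_right₀ hQ1' (Nat.le_succ A)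
  -- edges of the two sides are disjoint
  have hdisj : ∀ i ∈ E0, i ∉ E1 := by
    intro i hi hi'
    have e1 := (hL0.mem 0 (Nat.zero_le _) i hi).2.1
    have e2 := (hL0.side 0 (Nat.zero_le _) i hi).2
    have e3 := (hL1.mem 0 (Nat.zero_le _) i hi').1
    have e4 := (hL1.side 0 (Nat.zero_le _) i hi').1
    linarith
  have up : ∀ {E' : Finset ℕ} {s s' lam : ℝ} {lab : ℕ → ℕ → LV} {h0 h1 del : ℕ → ℕ → ℝ},
      AS2.IsLab K (Q ^ b) m ((Q : ℝ) ^ A) E' s s' lam lab h0 h1 del →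
      AS2.IsLab K (Q ^ b) m ((Q : ℝ) ^ (A + 1)) E' s s' lam lab h0 h1 del := by
    intro E' s s' lam lab h0 h1 del hL
    refine ⟨hL.sub, hL.lab_cell, hL.lab_line, fun x hx i hi => (hL.lab_card x hx i hi).trans hDD,
      hL.mem, hL.span, hL.nest, hL.clo, ?_, hL.pos, hL.dec, hL.stag, hL.short, hL.side⟩
    intro x hx i hi i' hi' he
    have e1 := hL.con x hx i hi i' hi' he
    have e2 : (Q : ℝ) ^ A * del x i ≤ (Q : ℝ) ^ (A + 1) * del x i :=
      mul_le_mul_of_nonneg_right hDD (hL.pos x hx i hi).le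
    exact ⟨e1.1.trans e2, e1.2.trans e2⟩
  have hdeg : ∀ {F : Finset ℕ}, (∀ p ∈ P, K.N ≤ Q ^ A * (Fintype.card ι *
      (F.filter (fun n => K.a n = p)).card)) → ∀ p ∈ P, (K.N : ℝ) ≤
      (Q : ℝ) ^ (A + 1) * Fintype.card ι * ((F.filter (fun i => K.a i = p)).card : ℝ) := by
    intro F hF p hp
    have e1 : (K.N : ℝ) ≤ (Q : ℝ) ^ A * (Fintype.card ι *
        ((F.filter (fun i => K.a i = p)).card : ℝ)) := by exact_mod_cast hF p hp
    refine e1.trans ?_
    rw [mul_assoc]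
    exact mul_le_mul_of_nonneg_right hDD (by positivity)
  refine ⟨s0, s1, s2, e0, mkL E1 lab lab' h0 h1 dl h0' h1' dl', P,
    fun s => if s then E1 else E0, ?_, ?_, ?_, ?_, ?_, ?_⟩
  · intro s
    cases s
    · simpa using hE0
    · simpa using hE1
  · refine ⟨?_, ?_, ?_, ?_, ?_⟩
    · intro s i hi
      cases s
      · exact hyg i (hE0 (by simpa using hi))
      · exact hyg i (hE1 (by simpa using hi))
    · intro s i hi
      cases s
      · exact ha0 i (by simpa using hi)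
      · exact ha1 i (by simpa using hi)
    · intro p hp
      have e1 := hd0 p hp
      have e2 : 0 < (E0.filter (fun n => K.a n = p)).card := by
        rcases Nat.eq_zero_or_pos (E0.filter (fun n => K.a n = p)).card with h0 | h0
        · rw [h0] at e1; simp only [Nat.mul_zero] at e1; omega
        · exact h0
      obtain ⟨i, hi⟩ := card_pos.1 e2
      rw [mem_filter] at hi
      have e3 := (hyg i (hE0 hi.1)).ps false
      have e4 : K.ln false i = p := hi.2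
      rw [e4] at e3
      exact e3
    · intro s p hp
      cases s
      · exact hdeg hd0 p hp
      · exact hdeg hd1 p hp
    · have e1 : (Fintype.card ι : ℝ) ≤ (Q : ℝ) ^ A * P.card := by exact_mod_cast hbig
      exact e1.trans (mul_le_mul_of_nonneg_right hDD (by positivity))
  · intro s
    cases s
    · have e1 : ∀ i ∈ E0, i ∉ E1 := hdisj
      refine labOK hr hD0 (up hL0) le_rfl (by linarith) hb0 ?_ ?_ ?_ ?_ <;>
      · intro x i hi
        have := e1 i hi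
        simp [mkL, this]
    · refine labOK hr hD0 (up hL1) (by linarith) le_rfl hb0 ?_ ?_ ?_ ?_ <;>
      · intro x i hi
        have : i ∈ E1 := hi
        simp [mkL, this]
  · intro x _ hx i hi
    have hi' : i ∈ E0 := by simpa using hi
    have := hdisj i hi'
    simp only [mkL, this, if_false]
    exact (hL0.side x hx i hi').2
  · intro x _ hx i hi
    have hi' : i ∈ E1 := by simpa using hi
    simp only [mkL, hi', if_true]
    exact (hL1.side x hx i hi').1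
  · refine hgap.trans (mul_le_mul_of_nonneg_right ?_ (by linarith))
    calc (Q : ℝ) = (Q : ℝ) ^ 1 := (pow_one _).symm
      _ ≤ (Q : ℝ) ^ (A + 1) := pow_le_pow_right₀ hQ1' (by omega)

end Pool.Agent.Work.MP_e17eac_co.BB

end

section

/-!
# Block SKM: assembly
-/

namespace Pool.Agent.Work.MP_e17eac_co.SK

open Finset
open Pool.Agent.Work.MP_e17eac_co.DH
open Pool.Agent.Work.MP_e17eac_co.B1

theorem Good.mono {x t t' : ℕ} (ht : t ≤ t') (h : Good x t) : Good x t' := by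
  obtain ⟨C, hC⟩ := h
  refine ⟨C, ?_⟩
  intro ι _ _ K r m H D P E hx hR hTS
  obtain ⟨P', E', κ, h1, h2, h3, h4⟩ := hC ι K r m H D P E hx hR hTS
  refine ⟨P', E', κ, h1, h2, h3, h4.trans ?_⟩
  have hr : (1 : ℝ) ≤ (r : ℝ) := by
    have := hR.std.two
    exact_mod_cast (by omega : 1 ≤ r)
  exact pow_le_pow_right₀ hr ht

theorem A_SKM (h0 : StGood0) (hW : StWalk) (hA : StArith) : StSKM :=
  hA Good h0 (fun _ _ _ ht h => h.mono ht) hW

theorem A_ALL (h : StSKM) : StSKMall := by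
  intro eps heps
  obtain ⟨d, hd⟩ := h eps heps
  refine ⟨d, ?_⟩
  intro M
  induction M with
  | zero =>
    obtain ⟨C, hC⟩ := hd 0
    refine ⟨C, ?_⟩
    intro ι _ _ K r m H D P E hM hR hTS
    obtain ⟨P', E', κ, h1, h2, h3, h4⟩ := hC ι K r m H D P E hM hR hTS
    refine ⟨P', E', fun _ => κ, h1, h2, ?_⟩
    intro y hy
    obtain rfl : y = 0 := by omega
    exact ⟨h3, h4⟩
  | succ M ih =>
    obtain ⟨C1, hC1⟩ := ih
    obtain ⟨C2, hC2⟩ := hd (M + 1)
    refine ⟨(C1 + 1) * (C2 + 1), ?_⟩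
    intro ι _ _ K r m H D P E hM hR hTS
    have hle1 : C1 ≤ (C1 + 1) * (C2 + 1) := by nlinarith
    obtain ⟨P1, E1, κ1, a1, a2, a3⟩ := hC1 ι K r m H D P E (by omega) (hR.mono hle1) hTS
    have hD : (1 : ℝ) ≤ D := hR.one_le
    have a2' : TS K r m H (D ^ (C1 + 1)) P1 E1 :=
      ts_mono a2 (pow_le_pow_right₀ hD (by omega))
    have hR2 : Rg K r m H (D ^ (C1 + 1)) C2 := hR.pow (by omega) (by nlinarith)
    obtain ⟨P2, E2, κ2, b1, b2, b3, b4⟩ := hC2 ι K r m H (D ^ (C1 + 1)) P1 E1 hM hR2 a2'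
    have e1 : (D ^ (C1 + 1)) ^ C2 ≤ D ^ ((C1 + 1) * (C2 + 1)) := by
      rw [← pow_mul]
      exact pow_le_pow_right₀ hD (by nlinarith)
    refine ⟨P2, E2, fun y => if y = M + 1 then κ2 else κ1 y, subts_trans a1 b1,
      ts_mono b2 e1, ?_⟩
    intro y hy
    by_cases hyM : y = M + 1
    · subst hyM
      simp only [if_true]
      exact ⟨b3.inh e1 (fun s => Subset.refl _), b4⟩
    · simp only [if_neg hyM]
      obtain ⟨c1, c2⟩ := a3 y (by omega)
      refine ⟨c1.inh (pow_le_pow_right₀ hD hle1) b1.2, ?_⟩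
      refine le_trans ?_ c2
      exact_mod_cast image_card_mono b1.1

theorem bb_log {n : ℕ} (hn : 8 ≤ n) : Real.log n ≤ (Nat.log 2 n : ℝ) := by
  have h1 : n < 2 ^ (Nat.log 2 n + 1) := Nat.lt_pow_succ_log_self (by norm_num) n
  have h2 : 3 ≤ Nat.log 2 n := by
    have : 2 ^ 3 ≤ n := by simpa using hn
    exact Nat.le_log_of_pow_le (by norm_num) this
  have h3 : Real.log n ≤ ((Nat.log 2 n + 1 : ℕ) : ℝ) * Real.log 2 := by
    rw [← Real.log_pow]
    apply Real.log_le_log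
    · exact_mod_cast (by omega : 0 < n)
    · exact_mod_cast h1.le
  have h4 : Real.log 2 < 0.6931471808 := Real.log_two_lt_d9
  have h5 : (3 : ℝ) ≤ (Nat.log 2 n : ℝ) := by exact_mod_cast h2
  push_cast at h3
  nlinarith

/-- The global assumptions of the other blocks give the range of this block. -/
theorem big_rg {ι : Type} [Fintype ι] [DecidableEq ι] {K : KSys ι} {r m : ℕ} {H D : ℝ} {C : ℕ}
    (h : BB.Big K r m H D (3 * C + 6)) : Rg K r m H D C := by
  have h2 : (1 : ℝ) ≤ D := by linarith [h.D2]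
  have hrD : D ^ (3 * C + 6) ≤ (r : ℝ) := h.Dr
  have hDr : D ≤ (r : ℝ) := by
    calc D = D ^ 1 := (pow_one D).symm
      _ ≤ D ^ (3 * C + 6) := pow_le_pow_right₀ h2 (by omega)
      _ ≤ _ := hrD
  have hr2 : (2 : ℝ) ≤ (r : ℝ) := h.D2.trans hDr
  have hr1 : (1 : ℝ) ≤ (r : ℝ) := by linarith
  have hn1 : (r : ℝ) ^ (3 * C + 6) ≤ Fintype.card ι := by
    refine le_trans ?_ h.rn
    exact pow_le_pow_right₀ hr1 (Nat.le_mul_of_pos_right _ (by omega))
  have hn8 : 8 ≤ Fintype.card ι := by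
    have e1 : (8 : ℝ) ≤ (r : ℝ) ^ (3 * C + 6) := by
      calc (8 : ℝ) ≤ 2 ^ 6 := by norm_num
        _ ≤ (r : ℝ) ^ 6 := pow_le_pow_left₀ (by norm_num) hr2 6
        _ ≤ (r : ℝ) ^ (3 * C + 6) := pow_le_pow_right₀ hr1 (by omega)
    exact_mod_cast e1.trans hn1
  refine ⟨h.std, h.gp, h.D2, h.HD, ?_, ?_, ?_⟩
  · have e1 := bb_log hn8
    have e2 := h.log
    linarith [h.HD]
  · exact (pow_le_pow_right₀ h2 (by omega)).trans hrD
  · have hn0 : (0 : ℝ) < (Fintype.card ι : ℝ) := by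
      exact_mod_cast (by omega : 0 < Fintype.card ι)
    have hd := h.std.dense
    have e1 : (Fintype.card ι : ℝ) ^ ((4 : ℝ) / 3) =
        (Fintype.card ι : ℝ) * (Fintype.card ι : ℝ) ^ ((1 : ℝ) / 3) := by
      rw [show (4 : ℝ) / 3 = 1 + 1 / 3 by norm_num, Real.rpow_add hn0, Real.rpow_one]
    have e2 : (r : ℝ) ^ (C + 2) ≤ (Fintype.card ι : ℝ) ^ ((1 : ℝ) / 3) := by
      have e3 : ((r : ℝ) ^ (C + 2)) ^ 3 ≤ Fintype.card ι := by
        rw [← pow_mul]
        rw [show (C + 2) * 3 = 3 * C + 6 by ring]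
        exact hn1
      have e4 : (((r : ℝ) ^ (C + 2)) ^ 3) ^ ((1 : ℝ) / 3) ≤
          (Fintype.card ι : ℝ) ^ ((1 : ℝ) / 3) :=
        Real.rpow_le_rpow (by positivity) e3 (by norm_num)
      rw [← Real.rpow_natCast ((r : ℝ) ^ (C + 2)) 3, ← Real.rpow_mul (by positivity)] at e4
      norm_num at e4
      convert e4 using 2
    have hH : H ≤ (r : ℝ) := h.HD.trans hDr
    have hH0 : 0 < H := by linarith [h.std.one]
    have e5 : (Fintype.card ι : ℝ) * (r : ℝ) ^ (C + 2) ≤ H * K.N := by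
      rw [e1] at hd
      exact (mul_le_mul_of_nonneg_left e2 hn0.le).trans hd
    have e6 : H * ((Fintype.card ι : ℝ) * (r : ℝ) ^ C) ≤ H * K.N := by
      refine le_trans ?_ e5
      have e7 : (r : ℝ) ^ (C + 2) = (r : ℝ) ^ C * (r * r) := by ring
      rw [e7]
      have e8 : H ≤ r * r := by nlinarith
      have e9 : (0 : ℝ) ≤ (Fintype.card ι : ℝ) * (r : ℝ) ^ C := by positivity
      calc H * ((Fintype.card ι : ℝ) * (r : ℝ) ^ C) ≤
          (r * r) * ((Fintype.card ι : ℝ) * (r : ℝ) ^ C) := by gcongr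
        _ = _ := by ring
    exact le_of_mul_le_mul_left e6 hH0

theorem A_BB (h : StSKMall) : BB.StSKM := by
  intro q hq
  have hq0 : (0 : ℝ) < 1 / (q : ℝ) := by positivity
  obtain ⟨d, hd⟩ := h (1 / (q : ℝ)) hq0
  refine ⟨d, ?_⟩
  intro m
  obtain ⟨C, hC⟩ := hd m
  refine ⟨3 * C + 6, C, ?_⟩
  intro ι _ _ K r H D P E hB hTS
  obtain ⟨P', E', κ, h1, h2, h3⟩ := hC ι K r m H D P E le_rfl (big_rg hB) hTS
  refine ⟨P', E', κ, h1, h2, ?_⟩
  intro y _ hy
  obtain ⟨c1, c2⟩ := h3 y hy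
  refine ⟨fun s => ⟨c1.h1 s, c1.key, c1.h4 s, c1.h5 s⟩, ?_⟩
  have e1 : ⌊1 / (q : ℝ) * (y : ℝ)⌋₊ = y / q := by
    rw [one_div, inv_mul_eq_div]
    exact Nat.floor_div_eq_div y q
  rw [e1] at c2
  have e2 : 4 * y + y / q + d = 4 * y + (y / q + d) := by ring
  rw [e2] at c2
  exact_mod_cast c2

end Pool.Agent.Work.MP_e17eac_co.SK

end

section

/-!
# Arbitrary sets, blueprint part B-4 (note 2878): assembly of the block
-/

set_option autoImplicit false

namespace Pool.Agent.Work.MP_e17eac_co.BB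

open Finset
open Pool.Agent.Work.MP_e17eac_co.DH
open Pool.Agent.Work.MP_e17eac_co.B1

namespace A4

theorem flux_list (hSub : StOneSub) (hFlux : StFlux) (m e kp l : ℕ) : ∀ M : ℕ, ∃ C C' : ℕ,
    ∀ (ι : Type) [Fintype ι] [DecidableEq ι]
    (K : KSys ι) (r : ℕ) (H D s0 e0 : ℝ) (L : Lab) (κ : ℕ → ι → ℕ) (X2 X4 : ℕ)
    (S E : Finset ℕ), Big K r m H D C → One K r m H D s0 e0 L κ e kp l X2 X4 S E →
    ∀ ps : List (ℕ × ℕ), ps.length ≤ M →
    (∀ p ∈ ps, p.1 ∈ S ∧ X2 + k6 kp l + 1 ≤ p.2 ∧ p.2 < p.1 ∧ p.1 ≤ 2 * p.2 ∧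
      p.1 + kp + 2 * k6 kp l ≤ X4) →
    ∃ E' ⊆ E, (E.card : ℝ) ≤ D ^ C' * E'.card ∧ ∀ p ∈ ps,
      (E'.image (fun i => (cell K r p.1 i, κ p.2 (K.a i)))).card ≤
        r ^ (3 * p.1 + 2 * p.2 + k8 e kp l) := by
  intro M
  induction M with
  | zero =>
    refine ⟨0, 0, ?_⟩
    intro ι _ _ K r H D s0 e0 L κ X2 X4 S E _ _ ps hps _
    refine ⟨E, Subset.refl _, by simp, ?_⟩
    intro p hp
    have : ps = [] := List.length_eq_zero_iff.1 (by omega)
    subst this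
    simp at hp
  | succ M ih =>
    obtain ⟨C1, C1', h1⟩ := ih
    obtain ⟨C2, C2', h2⟩ := hFlux m e kp l
    refine ⟨C1 + (C1' + 1) * C2, C1' + (C1' + 1) * C2', ?_⟩
    intro ι _ _ K r H D s0 e0 L κ X2 X4 S E hB hO ps hps hc
    have hD1 : (1 : ℝ) ≤ D := by linarith [hB.D2]
    have hD0 : (0 : ℝ) ≤ D := by linarith
    cases ps with
    | nil =>
      refine ⟨E, Subset.refl _, ?_, by simp⟩
      exact le_mul_of_one_le_left (Nat.cast_nonneg _) (one_le_pow₀ hD1)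
    | cons p ps =>
      obtain ⟨E1, hE1, hc1, hf1⟩ := h1 ι K r H D s0 e0 L κ X2 X4 S E
        (X3B3.big_le hB (Nat.le_add_right _ _)) hO ps (by simpa using hps)
        (fun p hp => hc p (List.mem_cons_of_mem _ hp))
      have hO1 : One K r m H (D ^ (C1' + 1)) s0 e0 L κ e kp l X2 X4 S E1 := by
        refine hSub ι K r m H D (D ^ (C1' + 1)) s0 e0 L κ e kp l X2 X4 S E E1 hD1
          (le_self_pow₀ hD1 (by omega)) hO hE1 ?_
        calc (K.N : ℝ) ≤ D * E.card := hO.card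
          _ ≤ D * (D ^ C1' * E1.card) := mul_le_mul_of_nonneg_left hc1 hD0
          _ = D ^ (C1' + 1) * E1.card := by ring
      have hB1 : Big K r m H (D ^ (C1' + 1)) C2 :=
        X3B3.big_pow hB (by omega) (Nat.le_add_left _ _)
      obtain ⟨hx, hy1, hy2, hy3, hx4⟩ := hc p List.mem_cons_self
      obtain ⟨E2, hE2, hc2, hf2⟩ := h2 ι K r H (D ^ (C1' + 1)) s0 e0 L κ X2 X4 S E1 hB1 hO1
        p.1 hx p.2 hy1 hy2 hy3 hx4
      refine ⟨E2, hE2.trans hE1, ?_, ?_⟩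
      · calc (E.card : ℝ) ≤ D ^ C1' * E1.card := hc1
          _ ≤ D ^ C1' * ((D ^ (C1' + 1)) ^ C2' * E2.card) :=
            mul_le_mul_of_nonneg_left hc2 (by positivity)
          _ = D ^ (C1' + (C1' + 1) * C2') * E2.card := by rw [← pow_mul, pow_add]; ring
      · intro q hq
        rcases List.mem_cons.1 hq with rfl | hq
        · exact hf2
        · exact (card_le_card (image_subset_image hE2)).trans (hf1 q hq)

theorem near_mono {ι : Type} [Fintype ι] [DecidableEq ι] (K : KSys ι) (r m : ℕ) (H s0 e0 : ℝ)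
    (L : Lab) {E E' : Finset ℕ} (h : E' ⊆ E) (x j i : ℕ) :
    near K r m H s0 e0 L E' x j i ≤ near K r m H s0 e0 L E x j i := by
  classical
  unfold near
  refine card_le_card ?_
  intro s hs
  rw [mem_filter] at hs ⊢
  obtain ⟨h1, ⟨i', h2, h3, h4⟩, h5⟩ := hs
  exact ⟨image_subset_image h h1, ⟨i', h h2, h3, h4⟩, h5⟩

/-- Removing few edges from finitely many small bad sets. -/
theorem remove_bad {α : Type} (E : Finset ℕ) (I : Finset α) (bad : α → Finset ℕ) (T : ℕ) (D : ℝ)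
    (hD : 2 ≤ D) (hI : I.card ≤ T)
    (hb : ∀ p ∈ I, D ^ (T + 2) * ((bad p).card : ℝ) ≤ D * E.card) :
    ∃ E' ⊆ E, (E.card : ℝ) ≤ D * E'.card ∧ ∀ p ∈ I, ∀ i ∈ E', i ∉ bad p := by
  classical
  have hD0 : 0 < D := by linarith
  have h3 : (((I.biUnion bad).card : ℕ) : ℝ) ≤ ∑ p ∈ I, ((bad p).card : ℝ) := by
    exact_mod_cast card_biUnion_le
  have h4 : D ^ (T + 2) * ∑ p ∈ I, ((bad p).card : ℝ) ≤ T * (D * E.card) := by
    rw [mul_sum]
    calc ∑ p ∈ I, D ^ (T + 2) * ((bad p).card : ℝ) ≤ ∑ _p ∈ I, D * (E.card : ℝ) :=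
          sum_le_sum hb
      _ = I.card * (D * E.card) := by rw [sum_const, nsmul_eq_mul]
      _ ≤ T * (D * E.card) := by
          apply mul_le_mul_of_nonneg_right (by exact_mod_cast hI) (by positivity)
  have h5 : (T : ℝ) ≤ 2 ^ T := by exact_mod_cast (Nat.lt_two_pow_self (n := T)).le
  have h6 : (2 : ℝ) ^ T ≤ D ^ T := pow_le_pow_left₀ (by norm_num) hD T
  have h9 : 0 ≤ ∑ p ∈ I, ((bad p).card : ℝ) := sum_nonneg fun _ _ => Nat.cast_nonneg _
  generalize ∑ p ∈ I, ((bad p).card : ℝ) = SS at *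
  have h7 : D ^ T * D * (2 * SS) ≤ D ^ T * D * E.card := by
    calc D ^ T * D * (2 * SS)
        ≤ D ^ T * D * (D * SS) := by gcongr
      _ = D ^ (T + 2) * SS := by ring
      _ ≤ T * (D * E.card) := h4
      _ ≤ D ^ T * (D * E.card) := by
          apply mul_le_mul_of_nonneg_right (h5.trans h6) (by positivity)
      _ = _ := by ring
  have h8 := le_of_mul_le_mul_left h7 (by positivity)
  refine ⟨E \ I.biUnion bad, sdiff_subset, ?_, ?_⟩
  · have h3 : E.card ≤ (E \ I.biUnion bad).card + (I.biUnion bad).card := by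
      have := le_card_sdiff (I.biUnion bad) E
      omega
    have h3' : (E.card : ℝ) ≤ (E \ I.biUnion bad).card + (I.biUnion bad).card := by
      exact_mod_cast h3
    have h4 : (E.card : ℝ) ≤ 2 * (E \ I.biUnion bad).card := by linarith
    exact h4.trans (mul_le_mul_of_nonneg_right hD (Nat.cast_nonneg _))
  · intro p hp i hi hb'
    rw [mem_sdiff] at hi
    exact hi.2 (mem_biUnion.2 ⟨p, hp, hb'⟩)

theorem flux_all (hSub : StOneSub) (hFlux : StFlux) (m e kp l : ℕ) : ∃ C C' : ℕ,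
    ∀ (ι : Type) [Fintype ι] [DecidableEq ι]
    (K : KSys ι) (r : ℕ) (H D s0 e0 : ℝ) (L : Lab) (κ : ℕ → ι → ℕ) (X2 X4 : ℕ)
    (S E : Finset ℕ), Big K r m H D C → One K r m H D s0 e0 L κ e kp l X2 X4 S E →
    ∃ E' ⊆ E, (E.card : ℝ) ≤ D ^ C' * E'.card ∧ ∀ x ∈ S, ∀ y, X2 + k6 kp l + 1 ≤ y → y < x →
      x ≤ 2 * y → x + kp + 2 * k6 kp l ≤ X4 →
      (E'.image (fun i => (cell K r x i, κ y (K.a i)))).card ≤
        r ^ (3 * x + 2 * y + k8 e kp l) := by
  obtain ⟨C1, C1', h1⟩ := flux_list hSub hFlux m e kp l ((m + 1) * (m + 1))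
  refine ⟨C1, C1', ?_⟩
  intro ι _ _ K r H D s0 e0 L κ X2 X4 S E hB hO
  have hSm : ∀ x ∈ S, x ≤ m := by
    intro x hx
    have h3 := mem_Icc.1 (hO.sub hx)
    have h4 := hO.lev.2
    omega
  obtain ⟨E1, hE1, hc1, hf1⟩ := h1 ι K r H D s0 e0 L κ X2 X4 S E hB hO
    (((S ×ˢ range (m + 1)).filter (fun p : ℕ × ℕ => X2 + k6 kp l + 1 ≤ p.2 ∧ p.2 < p.1 ∧
      p.1 ≤ 2 * p.2 ∧ p.1 + kp + 2 * k6 kp l ≤ X4)).toList)
    (by
      rw [length_toList]
      refine (card_filter_le _ _).trans ?_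
      rw [card_product, card_range]
      refine Nat.mul_le_mul_right _ ?_
      calc S.card ≤ (range (m + 1)).card := card_le_card (fun x hx => by
            have := hSm x hx
            rw [mem_range]; omega)
        _ = m + 1 := card_range _)
    (by
      intro p hp
      rw [mem_toList, mem_filter, mem_product] at hp
      exact ⟨hp.1.1, hp.2.1, hp.2.2.1, hp.2.2.2.1, hp.2.2.2.2⟩)
  refine ⟨E1, hE1, hc1, ?_⟩
  intro x hx y hy1 hy2 hy3 hx4
  refine hf1 (x, y) ?_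
  rw [mem_toList, mem_filter, mem_product]
  have := hSm x hx
  exact ⟨⟨hx, mem_range.2 (by omega)⟩, hy1, hy2, hy3, hx4⟩

theorem near_all (hNear : StNear) (m e kp l : ℕ) : ∃ C : ℕ,
    ∀ (ι : Type) [Fintype ι] [DecidableEq ι]
    (K : KSys ι) (r : ℕ) (H D s0 e0 : ℝ) (L : Lab) (κ : ℕ → ι → ℕ) (X2 X4 : ℕ)
    (S E : Finset ℕ), Big K r m H D C → One K r m H D s0 e0 L κ e kp l X2 X4 S E →
    ∃ E' ⊆ E, (E.card : ℝ) ≤ D * E'.card ∧ ∀ x, 1 ≤ x → x ≤ m → ∀ j, 4 * X2 ≤ j →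
      j + k6 kp l ≤ 4 * X4 → ∀ i ∈ E',
      near K r m H s0 e0 L E' x j i ^ 2 * r ^ (4 * x + j) ≤ Fintype.card ι ^ 2 * r ^ kN kp l := by
  classical
  obtain ⟨CN, hN⟩ := hNear m e kp l (m * (4 * m + 1) + 2)
  refine ⟨CN, ?_⟩
  intro ι _ _ K r H D s0 e0 L κ X2 X4 S E hB hO
  have hI : ((Icc 1 m ×ˢ range (4 * m + 1)).filter
      (fun p : ℕ × ℕ => 4 * X2 ≤ p.2 ∧ p.2 + k6 kp l ≤ 4 * X4)).card ≤ m * (4 * m + 1) := by
    refine (card_filter_le _ _).trans ?_
    rw [card_product, card_range, Nat.card_Icc, Nat.add_sub_cancel]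
  obtain ⟨E2, hE2, hc2, hb2⟩ := remove_bad E _ (fun p : ℕ × ℕ => E.filter (fun i =>
    Fintype.card ι ^ 2 * r ^ kN kp l < near K r m H s0 e0 L E p.1 p.2 i ^ 2 * r ^ (4 * p.1 + p.2)))
    (m * (4 * m + 1)) D hB.D2 hI (by
      intro p hp
      rw [mem_filter, mem_product, mem_Icc] at hp
      exact (hN ι K r H D s0 e0 L κ X2 X4 S E hB hO p.1 hp.1.1.1 hp.1.1.2 p.2 hp.2.1
        hp.2.2).trans hO.card)
  refine ⟨E2, hE2, hc2, ?_⟩
  intro x hx1 hx2 j hj1 hj2 i hi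
  have hlev := hO.lev.2
  have h3 := hb2 (x, j) (by
    rw [mem_filter, mem_product, mem_Icc, mem_range]
    exact ⟨⟨⟨hx1, hx2⟩, by dsimp only; omega⟩, hj1, hj2⟩) i hi
  rw [mem_filter, not_and, not_lt] at h3
  refine le_trans ?_ (h3 (hE2 hi))
  exact Nat.mul_le_mul_right _ (Nat.pow_le_pow_left (near_mono K r m H s0 e0 L hE2 x j i) 2)

end A4

open A4 X3B3 in
/-- **Block B-4.** -/
theorem A_B4 (hSub : StOneSub) (hGrow : StGrow) (hFlux : StFlux) (hNear : StNear) : StB4 := by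
  intro m e kp l
  obtain ⟨CG, hG⟩ := hGrow m e kp l
  obtain ⟨C1, C1', h1⟩ := flux_all hSub hFlux m e kp l
  obtain ⟨CN, hN⟩ := near_all hNear m e kp l
  refine ⟨CG + C1 + (C1' + 1) * CN, 2 * (C1' + 1), ?_⟩
  intro ι _ _ K r H D s0 e0 L κ X2 X4 S E hB hO
  have hD1 : (1 : ℝ) ≤ D := by linarith [hB.D2]
  have hD0 : (0 : ℝ) ≤ D := by linarith
  obtain ⟨E1, hE1, hc1, hf1⟩ := h1 ι K r H D s0 e0 L κ X2 X4 S E (big_le hB (by omega)) hO
  have hO1 : One K r m H (D ^ (C1' + 1)) s0 e0 L κ e kp l X2 X4 S E1 := by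
    refine hSub ι K r m H D (D ^ (C1' + 1)) s0 e0 L κ e kp l X2 X4 S E E1 hD1
      (le_self_pow₀ hD1 (by omega)) hO hE1 ?_
    calc (K.N : ℝ) ≤ D * E.card := hO.card
      _ ≤ D * (D ^ C1' * E1.card) := mul_le_mul_of_nonneg_left hc1 hD0
      _ = D ^ (C1' + 1) * E1.card := by ring
  have hB1 : Big K r m H (D ^ (C1' + 1)) CN := big_pow hB (by omega) (by omega)
  obtain ⟨E2, hE2, hc2, hn2⟩ := hN ι K r H (D ^ (C1' + 1)) s0 e0 L κ X2 X4 S E1 hB1 hO1
  refine ⟨E2, hE2.trans hE1, ?_⟩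
  exact
    { one := by
        refine hSub ι K r m H D (D ^ (2 * (C1' + 1))) s0 e0 L κ e kp l X2 X4 S E E2 hD1
          (le_self_pow₀ hD1 (by omega)) hO (hE2.trans hE1) ?_
        calc (K.N : ℝ) ≤ D ^ (C1' + 1) * E1.card := hO1.card
          _ ≤ D ^ (C1' + 1) * (D ^ (C1' + 1) * E2.card) :=
            mul_le_mul_of_nonneg_left hc2 (by positivity)
          _ = D ^ (2 * (C1' + 1)) * E2.card := by ring
      grow := fun j hj1 hj2 i hi => hG ι K r H D s0 e0 L κ X2 X4 S E (big_le hB (by omega)) hO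
        j hj1 hj2 i (hE1 (hE2 hi))
      flux := by
        intro x hx y hy1 hy2 hy3 hx4
        have hkt : x + kp + 2 * k6 kp l ≤ X4 := by unfold kt at hx4; omega
        have h3 := hf1 x hx y hy1 hy2 hy3 hkt
        exact (card_le_card (image_subset_image hE2)).trans h3
      near := hn2 }

end Pool.Agent.Work.MP_e17eac_co.BB

end

section

/-!
# Assembly: B-4, B-5 and the last step give `StEnd`
-/

namespace Pool.Agent.Work.MP_e17eac_co.BB

open Finset
open Pool.Agent.Work.MP_e17eac_co.DH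
open Pool.Agent.Work.MP_e17eac_co.B1

/-- **B-6** in the form of the assembly: no structure with profiles on a long interval. -/
def StSix : Prop := ∃ A : ℕ, ∀ (e l X2 X4 m : ℕ), A * (e + l + 1) ≤ X2 →
  X2 + A * (e + l + 1) ≤ X4 → X4 + 1 ≤ m → ∃ C : ℕ, ∀ (ι : Type) [Fintype ι] [DecidableEq ι]
  (K : KSys ι) (r : ℕ) (H D s0 e0 : ℝ) (L : Lab) (κ : ℕ → ι → ℕ) (S E : Finset ℕ),
  Big K r m H D C → ¬ Five K r m H D s0 e0 L κ e (e + 2) l X2 X4 S E

namespace AEND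

variable {ι : Type} [Fintype ι] [DecidableEq ι]

theorem big_mono {K : KSys ι} {r m : ℕ} {H D : ℝ} {C C' : ℕ} (h : Big K r m H D C)
    (hC : C' ≤ C) : Big K r m H D C' := by
  have h2 : (1 : ℝ) ≤ D := by linarith [h.D2]
  have hr : (1 : ℝ) ≤ (r : ℝ) := by
    have := h.std.two
    exact_mod_cast (by omega : 1 ≤ r)
  refine ⟨h.std, h.gp, h.HD, h.D2, h.log, h.ub, ?_, ?_⟩
  · exact (pow_le_pow_right₀ h2 hC).trans h.Dr
  · exact (pow_le_pow_right₀ hr (Nat.mul_le_mul_right _ hC)).trans h.rn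

theorem big_pow {K : KSys ι} {r m : ℕ} {H D : ℝ} {C j C' : ℕ} (h : Big K r m H D C)
    (hj : 1 ≤ j) (hC : j * C' ≤ C) : Big K r m H (D ^ j) C' := by
  have h2 : (1 : ℝ) ≤ D := by linarith [h.D2]
  have h3 : D ≤ D ^ j := by
    calc D = D ^ 1 := (pow_one D).symm
      _ ≤ D ^ j := pow_le_pow_right₀ h2 hj
  have h4 : C' ≤ C := le_trans (Nat.le_mul_of_pos_left C' (by omega)) hC
  have h5 := big_mono h h4
  refine ⟨h.std, h.gp, h.HD.trans h3, h.D2.trans h3, h.log, h.ub, ?_, h5.rn⟩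
  rw [← pow_mul]
  exact (big_mono h hC).Dr

/-- Losses may be increased. -/
theorem flw_mono (hs : StOneSub) {K : KSys ι} {r m : ℕ} {H D D' s0 e0 : ℝ} {L : Lab}
    {κ : ℕ → ι → ℕ} {e kp l X2 X4 : ℕ} {S E : Finset ℕ} (h1 : 1 ≤ D) (hD : D ≤ D')
    (h : Flw K r m H D s0 e0 L κ e kp l X2 X4 S E) :
    Flw K r m H D' s0 e0 L κ e kp l X2 X4 S E := by
  refine ⟨?_, h.grow, h.flux, h.near⟩
  refine hs ι K r m H D D' s0 e0 L κ e kp l X2 X4 S E E h1 hD h.one (Subset.refl _) ?_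
  exact h.one.card.trans (mul_le_mul_of_nonneg_right hD (by positivity))

theorem five_mono (hs : StOneSub) {K : KSys ι} {r m : ℕ} {H D D' s0 e0 : ℝ} {L : Lab}
    {κ : ℕ → ι → ℕ} {e kp l X2 X4 : ℕ} {S E : Finset ℕ} (h1 : 1 ≤ D) (hD : D ≤ D')
    (h : Five K r m H D s0 e0 L κ e kp l X2 X4 S E) :
    Five K r m H D' s0 e0 L κ e kp l X2 X4 S E :=
  ⟨flw_mono hs h1 hD h.flw, h.prof⟩

end AEND

open AEND in
/-- `StEnd` from B-4, B-5, B-6. -/
theorem A_END (hs : StOneSub) (h4 : StB4) (h5 : StB5) (h6 : StSix) : StEnd := by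
  obtain ⟨A, hA⟩ := h6
  refine ⟨A, fun e l X2 X4 m hX2 hX4 hm => ?_⟩
  obtain ⟨C6, hC6⟩ := hA e l X2 X4 m hX2 hX4 hm
  obtain ⟨C4, C4', hC4⟩ := h4 m e (e + 2) l
  obtain ⟨C5, C5', hC5⟩ := h5 m e (e + 2) l
  refine ⟨C4 + (C4' + 1) * C5 + (C4' + 1) * (C5' + 1) * C6, ?_⟩
  intro ι _ _ K r H D s0 e0 L κ S E hbig hone
  have hD1 : (1 : ℝ) ≤ D := by linarith [hbig.D2]
  obtain ⟨E4, -, h4'⟩ := hC4 ι K r H D s0 e0 L κ X2 X4 S E
    (big_mono hbig (by rw [Nat.add_assoc]; exact Nat.le_add_right _ _)) hone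
  have hf4 := flw_mono hs (one_le_pow₀ hD1) (pow_le_pow_right₀ hD1 (Nat.le_succ C4')) h4'
  have hbig4 : Big K r m H (D ^ (C4' + 1)) C5 := big_pow hbig (Nat.succ_le_succ (Nat.zero_le _))
    (le_trans (Nat.le_add_left _ C4) (Nat.le_add_right _ _))
  obtain ⟨E5, -, h5'⟩ := hC5 ι K r H (D ^ (C4' + 1)) s0 e0 L κ X2 X4 S E4 hbig4 hf4
  have hD4 : (1 : ℝ) ≤ D ^ (C4' + 1) := one_le_pow₀ hD1
  have hf5 := five_mono hs (one_le_pow₀ hD4) (pow_le_pow_right₀ hD4 (Nat.le_succ C5')) h5'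
  rw [← pow_mul] at hf5
  have hbig5 : Big K r m H (D ^ ((C4' + 1) * (C5' + 1))) C6 := big_pow hbig
    (Nat.mul_pos (Nat.succ_pos _) (Nat.succ_pos _)) (Nat.le_add_left _ _)
  exact hC6 ι K r H _ s0 e0 L κ S E5 hbig5 hf5

end Pool.Agent.Work.MP_e17eac_co.BB

end
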