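import Pool.Agent.Work.MP_e17eac_co.Bd.B36
import Pool.Agent.Work.MP_e17eac_co.Bd.B34
import Pool.Agent.Work.MP_e17eac_co.Bd.B24
import Pool.Agent.Work.MP_e17eac_co.Bd.B23
import Pool.Agent.Work.MP_e17eac_co.Bd.B31
import Pool.Agent.Work.MP_e17eac_co.Bd.B32
import Pool.Agent.Work.MP_e17eac_co.SK.Q_FLUXU
import Pool.Agent.Work.MP_e17eac_co.SK.Q_CORE
import Pool.Agent.Work.MP_e17eac_co.SK.Q_JUMP
import Pool.Agent.Work.MP_e17eac_co.Bd.B29
import Pool.Agent.Work.MP_e17eac_co.Bd.B33
import Pool.Agent.Work.MP_e17eac_co.Bd.B08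
import Pool.Agent.Work.MP_e17eac_co.Bd.B12
import Pool.Agent.Work.MP_e17eac_co.Bd.B20
import Pool.Agent.Work.MP_e17eac_co.Bd.B21
import Pool.Agent.Work.MP_e17eac_co.Bd.B19

/-! Bundle of small proof modules (one section per former module). -/

section

/-! Last step: assembly with the uniform ring theorem. -/

namespace Pool.Agent.Work.MP_e17eac_co.CFG

open Finset Real

variable {ι α β : Type} {s d : ℕ} {q θ M F : ℝ} {U : ℕ → ℝ} {PS PG : Finset ι} {u v : ι → ℝ}
  {p0 : ι} {Al : Finset β} {tm : β → ℝ} {A : ι → Finset β} {S : ι → β → Finset α}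
  {Un : β → Finset α}

open Classical in
/-- Incidences. -/
noncomputable def inc0 (T0 : Finset ι) (Al : Finset β) (A : ι → Finset β) : Finset (ι × β) :=
  (T0 ×ˢ Al).filter (fun z => z.2 ∈ A z.1)

open Classical in
theorem cls' (h : Cfg s d q θ M F U PS PG u v p0 Al tm A S Un) (T0 : Finset ι)
    (hT : T0 ⊆ PG) (x : ℝ) (hx : x ∈ Al.image tm) :
    (((((inc0 T0 Al A).image (fun z => (pt u v p0 (exp (-U d)) z.1, tm z.2))).filter
      fun z => z.2 = x).image fun z => ⌊z.1.2 - x * z.1.1⌋).card : ℝ) ≤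
      q ^ (2 * s + 20) * (2 * exp (U d - U 0)) ^ (log q / θ) := by
  obtain ⟨w, hw, rfl⟩ := Finset.mem_image.1 hx
  have hlq := lq_pos h.hq
  have hq1 : 1 ≤ q := by linarith [h.hq]
  set υ := exp (-U d) with hυ
  have hυpos : 0 < υ := Real.exp_pos _
  have hmono : ∀ x y : ℝ, x ≤ y → exp (x * log q) ≤ exp (y * log q) := fun x y hxy =>
    Real.exp_le_exp.2 (mul_le_mul_of_nonneg_right hxy hlq.le)
  set PP := T0.filter (fun p => w ∈ A p) with hPP
  have hsub : ((((inc0 T0 Al A).image (fun z => (pt u v p0 υ z.1, tm z.2))).filter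
      fun z => z.2 = tm w).image fun z => ⌊z.1.2 - tm w * z.1.1⌋) ⊆
      PP.image (fun p => ⌊(val u v (tm w) p - val u v (tm w) p0) / υ⌋) := by
    intro k hk
    rw [Finset.mem_image] at hk
    obtain ⟨z, hz, rfl⟩ := hk
    rw [Finset.mem_filter, Finset.mem_image] at hz
    obtain ⟨⟨z', hz', rfl⟩, hz2⟩ := hz
    rw [inc0, Finset.mem_filter, Finset.mem_product] at hz'
    have hw' : z'.2 = w := h.tm_inj _ hz'.1.2 _ hw hz2
    rw [Finset.mem_image]
    refine ⟨z'.1, ?_, ?_⟩
    · rw [hPP, Finset.mem_filter]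
      exact ⟨hz'.1.1, hw' ▸ hz'.2⟩
    · rw [pt_val]
  have h1 := values PP (fun p => (val u v (tm w) p - val u v (tm w) p0) / υ) (fun p => S p w)
    (Un w) F (fun p hp => h.S_sub p (hT (Finset.mem_filter.1 hp).1) w (Finset.mem_filter.1 hp).2)
    (fun p hp => h.S_card p (hT (Finset.mem_filter.1 hp).1) w (Finset.mem_filter.1 hp).2) (by
      intro p hp p' hp' z hz hz'
      have h2 := h.S_near p (hT (Finset.mem_filter.1 hp).1) p' (hT (Finset.mem_filter.1 hp').1) w
        (Finset.mem_filter.1 hp).2 (Finset.mem_filter.1 hp').2 z hz hz'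
      have h3 : (val u v (tm w) p - val u v (tm w) p0) / υ -
          (val u v (tm w) p' - val u v (tm w) p0) / υ =
          (val u v (tm w) p - val u v (tm w) p') / υ := by ring
      rw [h3, abs_div, abs_of_pos hυpos, div_le_one hυpos]
      exact h2)
  have h2 := h.Un_card w hw
  have h3 := R_ge h
  have h4 : ((PP.image (fun p => ⌊(val u v (tm w) p - val u v (tm w) p0) / υ⌋)).card : ℝ) ≤
      2 * q ^ (d + s) := by
    have h5 : F * ((PP.image (fun p => ⌊(val u v (tm w) p - val u v (tm w) p0) / υ⌋)).card : ℝ) ≤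
        F * (2 * q ^ (d + s)) := by
      refine h1.trans ?_
      linarith
    exact le_of_mul_le_mul_left h5 h.hF
  calc _ ≤ ((PP.image (fun p => ⌊(val u v (tm w) p - val u v (tm w) p0) / υ⌋)).card : ℝ) := by
        exact_mod_cast Finset.card_le_card hsub
    _ ≤ 2 * q ^ (d + s) := h4
    _ ≤ q * q ^ (d + s) := by
        apply mul_le_mul_of_nonneg_right _ (by positivity)
        linarith [h.hq]
    _ = q ^ (d + s + 1) := by ring
    _ ≤ q ^ (2 * s + 20) * exp (((d : ℝ) - 2) * log q) := by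
        rw [q_pow h.hq, q_pow h.hq, ← Real.exp_add, ← add_mul]
        apply hmono
        push_cast
        have : (0 : ℝ) ≤ s := Nat.cast_nonneg s
        linarith
    _ ≤ _ := mul_le_mul_of_nonneg_left h3 (by positivity)

theorem pt_inj (T0 : Finset ι) (u v : ι → ℝ) (p0 : ι) {υ : ℝ} (hυ : 0 < υ)
    (hsep : ∀ p ∈ T0, ∀ p' ∈ T0, p ≠ p' → υ ≤ d0 u v p p') :
    ∀ p ∈ T0, ∀ p' ∈ T0, pt u v p0 υ p = pt u v p0 υ p' → p = p' := by
  intro p hp p' hp' he
  by_contra hne
  have h1 := hsep p hp p' hp' hne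
  unfold pt at he
  rw [Prod.mk.injEq] at he
  have h2 : u p = u p' := by
    have := he.2
    rw [div_left_inj' hυ.ne'] at this
    linarith
  have h3 : v p = v p' := by
    have := he.1
    rw [neg_inj, div_left_inj' hυ.ne'] at this
    linarith
  have : d0 u v p p' = 0 := by unfold d0; simp [h2, h3]
  linarith

open Classical in
theorem card_inc (h : Cfg s d q θ M F U PS PG u v p0 Al tm A S Un) (T0 : Finset ι)
    (hT : T0 ⊆ PG) (hsep : ∀ p ∈ T0, ∀ p' ∈ T0, p ≠ p' → exp (-U d) ≤ d0 u v p p') :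
    (((inc0 T0 Al A).image (fun z => (pt u v p0 (exp (-U d)) z.1, tm z.2))).card : ℝ) =
      ∑ p ∈ T0, ((A p).card : ℝ) := by
  have h1 : ((inc0 T0 Al A).image (fun z => (pt u v p0 (exp (-U d)) z.1, tm z.2))).card =
      (inc0 T0 Al A).card := by
    apply Finset.card_image_of_injOn
    intro z hz z' hz' he
    rw [Finset.mem_coe, inc0, Finset.mem_filter, Finset.mem_product] at hz hz'
    simp only [Prod.mk.injEq] at he
    have e1 := pt_inj T0 u v p0 (Real.exp_pos _) hsep _ hz.1.1 _ hz'.1.1 he.1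
    have e2 := h.tm_inj _ hz.1.2 _ hz'.1.2 he.2
    exact Prod.ext e1 e2
  have h2 : inc0 T0 Al A = T0.biUnion (fun p => (A p).image (fun w => (p, w))) := by
    ext z
    rw [inc0, Finset.mem_filter, Finset.mem_product, Finset.mem_biUnion]
    constructor
    · rintro ⟨⟨h3, h4⟩, h5⟩
      exact ⟨z.1, h3, Finset.mem_image.2 ⟨z.2, h5, rfl⟩⟩
    · rintro ⟨p, hp, hz⟩
      obtain ⟨w, hw, rfl⟩ := Finset.mem_image.1 hz
      exact ⟨⟨hp, h.A_sub p (hT hp) hw⟩, hw⟩
  have h3 : (inc0 T0 Al A).card = ∑ p ∈ T0, (A p).card := by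
    rw [h2, Finset.card_biUnion]
    · refine Finset.sum_congr rfl fun p _ => ?_
      exact Finset.card_image_of_injective _ (Prod.mk_right_injective p)
    · intro p _ p' _ hne
      rw [Function.onFun, Finset.disjoint_left]
      intro z hz hz'
      obtain ⟨w, _, rfl⟩ := Finset.mem_image.1 hz
      obtain ⟨w', _, he⟩ := Finset.mem_image.1 hz'
      exact hne (congrArg Prod.fst he).symm
  rw [h1, h3]
  push_cast
  rfl

open Classical in
theorem stCfg : StCfg := by
  intro s
  obtain ⟨C, hC⟩ := RINGU.ringU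
  refine ⟨(2 * s + 20) * C + 10, ?_⟩
  intro ι α β d hd q θ M F U PS PG u v p0 Al tm A S Un h
  have hlq := lq_pos h.hq
  have hq1 : 1 ≤ q := by linarith [h.hq]
  have hd2 : 2 ≤ d := by omega
  have hmono : ∀ x y : ℝ, x ≤ y → exp (x * log q) ≤ exp (y * log q) := fun x y hxy =>
    Real.exp_le_exp.2 (mul_le_mul_of_nonneg_right hxy hlq.le)
  have hυpos : 0 < exp (-U d) := Real.exp_pos _
  have hMq : 0 < M * q ^ s / q ^ (2 * d) := by
    have := h.hM
    positivity
  obtain ⟨T0, hT, hsep, hsum⟩ := greedy PS u v (fun p => ((A p).card : ℝ)) (exp (-U d))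
    (M * q ^ s / q ^ (2 * d)) hυpos (fun p => Nat.cast_nonneg _) PG.card PG rfl h.sub (by
      intro p hp
      rw [le_div_iff₀ (by positivity)]
      exact h.mass_hi p hp d le_rfl)
  set R := 2 * exp (U d - U 0) with hR
  set I := (inc0 T0 Al A).image (fun z => (pt u v p0 (exp (-U d)) z.1, tm z.2)) with hI
  have hUd := U_le h hd2
  have hR1 : 1 ≤ exp (U d - U 0) := Real.one_le_exp (by linarith)
  have hK : (100 : ℝ) ≤ q ^ (2 * s + 20) := by
    calc (100 : ℝ) ≤ 10 ^ 2 := by norm_num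
      _ ≤ q ^ 2 := pow_le_pow_left₀ (by norm_num) h.hq 2
      _ ≤ q ^ (2 * s + 20) := pow_le_pow_right₀ hq1 (by omega)
  refine hC (log q / θ) R (q ^ (2 * s + 20)) (a_pos h.hq h.hθ) (a_le h.hq h.hθ) hK
    (by rw [hR]; linarith) ?_ (Al.image tm) (T0.image (pt u v p0 (exp (-U d)))) I ?_
  · refine le_trans ?_ (R_ge h)
    rw [← pow_mul, q_pow h.hq]
    apply hmono
    have h1 : ((((2 * s + 20) * C + 10 : ℕ)) : ℝ) ≤ (d : ℝ) := by exact_mod_cast hd
    push_cast at h1 ⊢
    linarith
  · refine ⟨?_, ?_, ?_, ?_, ?_, ?_, ?_⟩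
    · intro x hx
      obtain ⟨w, hw, rfl⟩ := Finset.mem_image.1 hx
      exact h.tm_mem w hw
    · intro z hz
      obtain ⟨p, hp, rfl⟩ := Finset.mem_image.1 hz
      have h1 := h.box p (hT hp)
      have h2 : |u p - u p0| ≤ d0 u v p p0 := le_max_left _ _
      have h3 : |v p - v p0| ≤ d0 u v p p0 := le_max_right _ _
      have h4 : R * exp (-U d) = 2 * exp (-U 0) := by
        rw [hR, mul_assoc, ← Real.exp_add]
        congr 2
        ring
      have h5 : 0 < exp (-U 0) := Real.exp_pos _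
      unfold pt
      constructor
      · simp only
        rw [abs_neg, abs_div, abs_of_pos hυpos, div_le_iff₀ hυpos, h4]
        have := abs_sub (v p - v p0) (u p - u p0)
        linarith
      · simp only
        rw [abs_div, abs_of_pos hυpos, div_le_iff₀ hυpos, h4]
        linarith
    · intro z hz
      obtain ⟨z', hz', rfl⟩ := Finset.mem_image.1 hz
      rw [inc0, Finset.mem_filter, Finset.mem_product] at hz'
      rw [Finset.mem_product]
      exact ⟨Finset.mem_image_of_mem _ hz'.1.1, Finset.mem_image_of_mem _ hz'.1.2⟩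
    · intro y r hr
      exact regA' h y r hr
    · intro z r hr
      exact regT' h hd2 T0 hT hsep z r hr
    · intro x hx
      have h1 := cls' h T0 hT x hx
      convert h1
    · rw [hI, card_inc h T0 hT hsep]
      have h1 := R_le h
      have hRpos : 0 < R := by positivity
      have h2 : R ^ (3 * (log q / θ)) = (R ^ (log q / θ)) ^ (3 : ℕ) := by
        rw [← Real.rpow_natCast, ← Real.rpow_mul hRpos.le]
        congr 1
        push_cast
        ring
      rw [h2]
      have h3 : (R ^ (log q / θ)) ^ (3 : ℕ) ≤ exp ((3 * (d : ℝ) + 9) * log q) := by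
        calc (R ^ (log q / θ)) ^ (3 : ℕ) ≤ (exp (((d : ℝ) + 3) * log q)) ^ (3 : ℕ) :=
              pow_le_pow_left₀ (by positivity) h1 3
          _ = exp ((3 * (d : ℝ) + 9) * log q) := by
              rw [← Real.exp_nat_mul]
              congr 1
              push_cast
              ring
      refine h3.trans ?_
      have h4 := h.inc
      set sT := ∑ p ∈ T0, ((A p).card : ℝ) with hsT
      have h5 : M * (q ^ d * q ^ (2 * d)) ≤ M * (q ^ (2 * s) * sT) := by
        have h6 : M * q ^ d ≤ q ^ s * (M * q ^ s / q ^ (2 * d) * sT) :=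
          h4.trans (mul_le_mul_of_nonneg_left hsum (by positivity))
        have h7 : q ^ s * (M * q ^ s / q ^ (2 * d) * sT) =
            (M * (q ^ (2 * s) * sT)) / q ^ (2 * d) := by
          field_simp
          ring
        rw [h7, le_div_iff₀ (by positivity)] at h6
        linarith
      have h6 := le_of_mul_le_mul_left h5 h.hM
      calc exp ((3 * (d : ℝ) + 9) * log q) = q ^ 9 * (q ^ d * q ^ (2 * d)) := by
            rw [← pow_add, ← pow_add, q_pow h.hq]
            congr 2
            push_cast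
            ring
        _ ≤ q ^ 9 * (q ^ (2 * s) * sT) := mul_le_mul_of_nonneg_left h6 (by positivity)
        _ = q ^ (2 * s + 9) * sT := by ring
        _ ≤ q ^ (2 * s + 20) * sT := by
            apply mul_le_mul_of_nonneg_right (pow_le_pow_right₀ hq1 (by omega))
            exact Finset.sum_nonneg fun p _ => Nat.cast_nonneg _

end Pool.Agent.Work.MP_e17eac_co.CFG

end

section

/-!
# Block SKM (B-2): the theorem without hypotheses
-/

namespace Pool.Agent.Work.MP_e17eac_co.SK

open Pool.Agent.Work.MP_e17eac_co.DH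
open Pool.Agent.Work.MP_e17eac_co.B1

theorem kTok : StTok := I_TOK I_POS

theorem kMono : StMono := I_MONO kTok

theorem kCinj : StCinj :=
  I_CINJ kTok (I_TOUCH I_POS kTok kMono (I_PATH kTok kMono) I_MIR I_LEQ) I_LEQ

theorem kCrl : StCrl := I_CRL (I_PL I_PLANAR I_LEQ)

theorem kDey : StDey := I_DEY kCrl (I_CCNT kCinj)

theorem kTokInt : StTokInt := I_TOKI I_ORD I_VS

theorem kTokCl : StTokClasses := I_TOKCL (I_ALT kTokInt) I_ALTC

theorem kCut : StCut := I_CUT kTokInt

theorem kHash : StHash := I_HASH I_HIT (I_KEYC I_ONCE)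

theorem kHomog : StHomog := I_HOMOG I_VS

theorem kCell : StCell := I_CELL

theorem kCellTok : StCellTok := I_CTOK kCell

theorem kClsDel : StClsDel := J_CLSDEL I_TS2

theorem kHashB : StHashB := J_HASHB kHash I_SKEY kCut J_WIN

theorem kH5Del : StH5Del := J_H5DEL kHomog J_WIN

theorem kH4 : StH4 := J_H4 kCell

theorem kCore : StCore := J_CORE kClsDel J_UNLOW kHashB kH5Del kH4 I_TS1

theorem kX : StX := I_X kCellTok (I_X0 kCrl) (I_X1 kCinj)

theorem kLower : StLower := J_LOWER kX

theorem kStepT : StStepT := J_STEPT kCore J_UTRIV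

theorem kT2c : StT2c := I_T2C kCell kCellTok NF.t2I NF.t2J

theorem kFluxU : StFluxU := J_FLUXU (J_LIGHT kDey) (J_TOKU kT2c kCellTok kCell kTokCl) kT2c

theorem kJump : StJump := J_JUMP kClsDel J_UNLOW kHashB kH5Del kH4 I_TS1 kFluxU

theorem kWalk : StWalk := J_WALK J_STAB kStepT kJump kLower

/-- **SKM** at all levels. -/
theorem kSKMall : StSKMall := A_ALL (A_SKM (J_GOOD0 kCell) kWalk J_ARITH)

/-- **SKM** in the form of the top assembly. -/
theorem kSKM : BB.StSKM := A_BB kSKMall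

end Pool.Agent.Work.MP_e17eac_co.SK

end

section

/-!
# Adapter: block B6 in the form of the assembly `A_END`
-/

namespace Pool.Agent.Work.MP_e17eac_co.BB

open Finset
open Pool.Agent.Work.MP_e17eac_co.DH
open Pool.Agent.Work.MP_e17eac_co.B1

namespace ASIX

variable {ι : Type} [Fintype ι] [DecidableEq ι]

/-- Labels instead of cells in the flux bound. -/
theorem lab_card {K : KSys ι} {r m : ℕ} {D s0 e0 : ℝ} {L : Lab} {E : Finset ℕ}
    (h : LabOK K r m D s0 e0 L E) {x : ℕ} (h1 : 1 ≤ x) (h2 : x ≤ m) (κ : ι → ℕ) :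
    ((E.image (fun i => (L.lab x i, κ (K.a i)))).card : ℝ) ≤
      D * ((E.image (fun i => (cell K r x i, κ (K.a i)))).card : ℝ) := by
  have e1 : E.image (fun i => (L.lab x i, κ (K.a i))) ⊆
      (E.image (fun i => (cell K r x i, κ (K.a i)))).biUnion
        (fun w => ((E.filter (fun i => cell K r x i = w.1)).image (L.lab x)).image
          (fun v => (v, w.2))) := by
    intro z hz
    obtain ⟨i, hi, rfl⟩ := mem_image.1 hz
    rw [mem_biUnion]
    refine ⟨(cell K r x i, κ (K.a i)), mem_image_of_mem _ hi, ?_⟩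
    exact mem_image_of_mem _ (mem_image_of_mem _ (mem_filter.2 ⟨hi, rfl⟩))
  have e2 := (card_le_card e1).trans card_biUnion_le
  have e3 : ((E.image (fun i => (L.lab x i, κ (K.a i)))).card : ℝ) ≤
      ∑ w ∈ E.image (fun i => (cell K r x i, κ (K.a i))),
        ((((E.filter (fun i => cell K r x i = w.1)).image (L.lab x)).image
          (fun v => (v, w.2))).card : ℝ) := by
    exact_mod_cast e2
  refine e3.trans ?_
  calc ∑ w ∈ E.image (fun i => (cell K r x i, κ (K.a i))),
        ((((E.filter (fun i => cell K r x i = w.1)).image (L.lab x)).image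
          (fun v => (v, w.2))).card : ℝ)
      ≤ ∑ w ∈ E.image (fun i => (cell K r x i, κ (K.a i))), D := by
        refine sum_le_sum fun w _ => ?_
        refine le_trans ?_ (h.few x h1 h2 w.1)
        exact_mod_cast card_image_le
    _ = D * ((E.image (fun i => (cell K r x i, κ (K.a i)))).card : ℝ) := by
        rw [sum_const, nsmul_eq_mul]; ring

end ASIX

open ASIX in
/-- Block B6 gives `StSix`. -/
theorem A_SIX (hRad : StRad) (hBig : StOneBig) (h : B6.StB6) : StSix := by
  obtain ⟨d0, hd0⟩ := h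
  obtain ⟨C1, hC1⟩ := hBig
  obtain ⟨dm, hdm⟩ : ∃ dm, dm = d0 + 4 := ⟨_, rfl⟩
  obtain ⟨I, hI⟩ : ∃ I, I = (dm + 2) ^ 2 := ⟨_, rfl⟩
  refine ⟨4200 * I + 10000, fun e l X2 X4 m hX2 hX4 hm => ?_⟩
  obtain ⟨k, hk⟩ : ∃ k, k = 2100 * (e + l + 1) := ⟨_, rfl⟩
  have hkI : 4200 * I * (e + l + 1) = 2 * (k * I) := by rw [hk]; ring
  have hA : (4200 * I + 10000) * (e + l + 1) = 2 * (k * I) + 10000 * (e + l + 1) := by
    rw [add_mul, hkI]
  rw [hA] at hX2 hX4
  have e6 : k6 (e + 2) l = 46 + 4 * l + e := by unfold k6; omega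
  have e8 : k8 e (e + 2) l = 6 * e + 12 * l + 144 := by unfold k8; omega
  have eN : kN (e + 2) l = 3 * e + 12 * l + 139 := by unfold kN; omega
  have eb : kb e (e + 2) l = 15 * e + 36 * l + 435 := by unfold kb; omega
  have ez : kz e (e + 2) l = 7 * e + 16 * l + 195 := by unfold kz; omega
  have et : kt e (e + 2) l = 20 * e + 52 * l + 621 := by unfold kt; omega
  obtain ⟨C6, hC6⟩ := hd0 dm I (by omega) hI.ge m e (e + 2) l k (k6 (e + 2) l + 1)
    (k8 e (e + 2) l + 1) (by omega)
  refine ⟨C6 + C1 + 1, ?_⟩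
  intro ι _ _ K r H D s0 e0 L κ S E hbig hfive
  have hD1 : (1 : ℝ) ≤ D := by linarith [hbig.D2]
  have hDr : D ≤ (r : ℝ) := by
    calc D = D ^ 1 := (pow_one D).symm
      _ ≤ D ^ (C6 + C1 + 1) := pow_le_pow_right₀ hD1 (by omega)
      _ ≤ r := hbig.Dr
  have hr1 : 1 ≤ r := by have := hbig.std.two; omega
  have hone := hfive.flw.one
  have hbase := hone.lab.base
  have hlt := (hC1 ι K r m H D s0 e0 L κ e (e + 2) l X2 X4 S E
    (AEND.big_mono hbig (by omega)) hone).2
  refine hC6 ι K r H D s0 e0 L κ X2 X4 S E (AEND.big_mono hbig (by omega)) hone (by omega)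
    (by omega) ?_ ?_ ?_
  · -- growth
    intro i hi j hj1 hj2
    have g := hfive.flw.grow j hj1 (by omega) i hi
    unfold rd at g
    have hj : 1 ≤ j + k6 (e + 2) l := by omega
    have mono := (hRad ι K (PS K r m H) s0 e0 r hbase hr1 (j + k6 (e + 2) l)
      (hlt _ hj)).2.2.2.1 (j + (k6 (e + 2) l + 1)) (by omega) (K.a i)
    exact (mul_le_mul_of_nonneg_left mono (by positivity)).trans g
  · -- flux
    intro x hx y hy1 hy2 hy3 hx4
    have f := hfive.flw.flux x hx y (by omega) hy2 hy3 (by omega)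
    have hxS := mem_Icc.1 (hone.sub hx)
    have hx1 : 1 ≤ x := le_trans hone.lev.1 hxS.1
    have hxm : x ≤ m := by omega
    have g := lab_card hone.lab hx1 hxm (κ y)
    have f' : ((E.image (fun i => (cell K r x i, κ y (K.a i)))).card : ℝ) ≤
        (r : ℝ) ^ (3 * x + 2 * y + k8 e (e + 2) l) := by exact_mod_cast f
    have key : ((E.image (fun i => (L.lab x i, κ y (K.a i)))).card : ℝ) ≤
        (r : ℝ) ^ (3 * x + 2 * y + (k8 e (e + 2) l + 1)) := by
      calc ((E.image (fun i => (L.lab x i, κ y (K.a i)))).card : ℝ)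
          ≤ D * ((E.image (fun i => (cell K r x i, κ y (K.a i)))).card : ℝ) := g
        _ ≤ r * (r : ℝ) ^ (3 * x + 2 * y + k8 e (e + 2) l) :=
            mul_le_mul hDr f' (by positivity) (by positivity)
        _ = (r : ℝ) ^ (3 * x + 2 * y + (k8 e (e + 2) l + 1)) := by
            rw [← add_assoc, pow_succ]; ring
    exact_mod_cast key
  · -- profile
    intro i hi
    have P := hfive.prof i hi
    have hu : ∀ j, B6.uu K r m H s0 e0 (X2 + k) k i j =
        pf K r m H s0 e0 (K.a i) (4 * (X2 + k + k * j)) := by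
      intro j
      unfold B6.uu pf rd
      rw [Nat.max_eq_left (by omega)]
    have Q := profile P k dm I (by unfold unit; omega) (by omega) hI.ge (by omega) (by omega)
      (by omega) (fun j => B6.uu K r m H s0 e0 (X2 + k) k i j) hu
    have hg : ∀ d, pg s0 e0 L i (2 * k * d + k) = B6.gg s0 e0 L i (2 * k * d + k) := by
      intro d
      unfold pg B6.gg
      rw [if_neg (by omega)]
    simp only [hg] at Q
    exact ⟨Q.1, Q.2.1, Q.2.2.1, Q.2.2.2⟩

end Pool.Agent.Work.MP_e17eac_co.BB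

end

section

/-!
# Arbitrary sets, block B5, item GEOB
-/

set_option autoImplicit false

namespace Pool.Agent.Work.MP_e17eac_co.BB

open Finset
open Pool.Agent.Work.MP_e17eac_co.DH
open Pool.Agent.Work.MP_e17eac_co.B1

theorem I5_GeoB (hNest : St5Nest) : St5GeoB := by
  classical
  intro ι _ _ K r m H D s0 e0 L E hL x' z hz hzx hxm i hi i' hi' hline hcell ε hε s hs
  unfold RB at hs
  rw [mem_filter] at hs
  obtain ⟨_, hs0, hs1⟩ := hs
  have hzm : z ≤ m := hzx.trans hxm
  have hlab := hL.line z hz hzm i hi i' hi' hline.symm hcell.symm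
  obtain ⟨_, e0', e1', _⟩ := hL.leq z hz hzm i hi i' hi' hlab
  obtain ⟨n0, n1⟩ := hNest ι K r m D s0 e0 L E hL z x' hz hzx hxm i' hi'
  have hh := (hL.hull x' (hz.trans hzx) hxm i' hi').2.1
  rw [← e0'] at n0
  rw [← e1'] at n1
  apply hL.clo x' (hz.trans hzx) hxm i' hi' s
  · rw [hline]
    exact lt_of_le_of_lt (abs_ht_between K s (K.a i) hs0 hs1 n0 (by linarith)) hε
  · rw [hline]
    exact lt_of_le_of_lt (abs_ht_between K s (K.a i) hs0 hs1 (by linarith) n1) hε

end Pool.Agent.Work.MP_e17eac_co.BB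

end

section

/-!
# Arbitrary sets, blueprint part B-5: few edges are in heavy pairs (class, cell)
-/

namespace Pool.Agent.Work.MP_e17eac_co.BB

open Finset
open Pool.Agent.Work.MP_e17eac_co.DH
open Pool.Agent.Work.MP_e17eac_co.B1

namespace X5Heavy

variable {ι : Type} [Fintype ι] [DecidableEq ι]

/-- One line: the heavy cells are few. -/
lemma line (K : KSys ι) (r : ℕ) (D : ℝ) (C' z x' : ℕ) (hr : 1 ≤ r) (hD : 0 < D) (hz : z ≤ x')
    (hc : ∀ i, cell K r z i = cell K r x' i / r ^ (4 * (x' - z)))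
    (κ : ι → ℕ) (E : Finset ℕ) (p : ι) (Cp : Finset ℕ)
    (hact : (((E.filter (fun i => κ (K.a i) = κ p)).image (cell K r x')).card : ℝ) ≤
      D * (r : ℝ) ^ x')
    (hheavy : ∀ c ∈ Cp, D ^ (C' + 1) * (r : ℝ) ^ (x' - z) <
      (((E.filter (fun j => κ (K.a j) = κ p ∧ cell K r z j = c)).image (cell K r x')).card : ℝ)) :
    D ^ C' * (Cp.card : ℝ) ≤ (r : ℝ) ^ z := by
  classical
  have hr0 : (0 : ℝ) < (r : ℝ) := by exact_mod_cast hr
  have h3 : (Cp.biUnion (fun c => (E.filter (fun j => κ (K.a j) = κ p ∧ cell K r z j = c)).image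
      (cell K r x'))).card = ∑ c ∈ Cp, ((E.filter (fun j => κ (K.a j) = κ p ∧
      cell K r z j = c)).image (cell K r x')).card := by
    refine card_biUnion ?_
    intro c _ c' _ hcc
    refine disjoint_left.2 ?_
    intro w hw hw'
    obtain ⟨j, hj, rfl⟩ := mem_image.1 hw
    obtain ⟨j', hj', e⟩ := mem_image.1 hw'
    apply hcc
    rw [← (mem_filter.1 hj).2.2, ← (mem_filter.1 hj').2.2, hc j, hc j', e]
  have h4 : (Cp.biUnion (fun c => (E.filter (fun j => κ (K.a j) = κ p ∧ cell K r z j = c)).image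
      (cell K r x'))) ⊆ (E.filter (fun i => κ (K.a i) = κ p)).image (cell K r x') := by
    intro w hw
    obtain ⟨c, _, hw⟩ := mem_biUnion.1 hw
    obtain ⟨j, hj, rfl⟩ := mem_image.1 hw
    exact mem_image_of_mem _ (mem_filter.2 ⟨(mem_filter.1 hj).1, (mem_filter.1 hj).2.1⟩)
  have h5 : (∑ c ∈ Cp, (((E.filter (fun j => κ (K.a j) = κ p ∧
      cell K r z j = c)).image (cell K r x')).card : ℝ)) ≤ D * (r : ℝ) ^ x' := by
    refine le_trans ?_ hact
    have h6 := card_le_card h4
    rw [h3] at h6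
    exact_mod_cast h6
  have h6 := card_nsmul_le_sum Cp (fun c => (((E.filter (fun j => κ (K.a j) = κ p ∧
      cell K r z j = c)).image (cell K r x')).card : ℝ)) (D ^ (C' + 1) * (r : ℝ) ^ (x' - z))
    (fun c hc => (hheavy c hc).le)
  rw [nsmul_eq_mul] at h6
  have h7 := h6.trans h5
  obtain ⟨d, rfl⟩ := Nat.exists_eq_add_of_le hz
  have hd : z + d - z = d := by omega
  rw [hd, pow_succ, pow_add] at h7
  have hpos : (0 : ℝ) < D * (r : ℝ) ^ d := by positivity
  refine le_of_mul_le_mul_right ?_ hpos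
  calc D ^ C' * (Cp.card : ℝ) * (D * (r : ℝ) ^ d)
      = (Cp.card : ℝ) * (D ^ C' * D * (r : ℝ) ^ d) := by ring
    _ ≤ D * ((r : ℝ) ^ z * (r : ℝ) ^ d) := h7
    _ = (r : ℝ) ^ z * (D * (r : ℝ) ^ d) := by ring

end X5Heavy

theorem I5_Heavy (hFew : St5Few) (hCell : B1.StCell) (hNum : St5Num) : St5Heavy := by
  classical
  intro k
  obtain ⟨C, C', h⟩ := hFew k
  refine ⟨C, C' + 1, ?_⟩
  intro ι _ _ K r m H D hBig z x' hz hx' κ E hE hHash E1 hE1 hheavy
  have hr2 : 2 ≤ r := hBig.std.two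
  have hr1 : 1 ≤ r := by omega
  have hD : 2 ≤ D := hBig.D2
  have hD0 : 0 < D := by linarith
  obtain ⟨_, _, c3, _⟩ := hCell ι K r x' hr1
  refine h ι K r m H D hBig z (hz.trans hx') E1 (fun i hi => hE i (hE1 hi)) ?_
  have hline : ∀ p ∈ E1.image K.a, D ^ C' * ((((E1.image (fun i => (cell K r z i, K.a i))).filter
      (fun w => w.2 = p)).card : ℕ) : ℝ) ≤ (r : ℝ) ^ z := by
    intro p _
    have h1 : (((E1.image (fun i => (cell K r z i, K.a i))).filter
        (fun w => w.2 = p)).image Prod.fst).card = ((E1.image (fun i => (cell K r z i, K.a i))).filter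
        (fun w => w.2 = p)).card := by
      refine card_image_of_injOn ?_
      intro w hw w' hw' e
      have e1 := (mem_filter.1 (mem_coe.1 hw)).2
      have e2 := (mem_filter.1 (mem_coe.1 hw')).2
      exact Prod.ext e (e1.trans e2.symm)
    rw [← h1]
    refine X5Heavy.line K r D C' z x' hr1 hD0 hz (fun i => c3 z hz i) κ E p _
      (hHash.act (κ p)) ?_
    intro c hc
    obtain ⟨w, hw, rfl⟩ := mem_image.1 hc
    obtain ⟨hw1, hw2⟩ := mem_filter.1 hw
    obtain ⟨i, hi, rfl⟩ := mem_image.1 hw1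
    subst hw2
    exact hheavy i hi
  have hfib := card_eq_sum_card_fiberwise (f := Prod.snd)
    (s := E1.image (fun i => (cell K r z i, K.a i))) (t := E1.image K.a) (by
      intro w hw
      obtain ⟨i, hi, rfl⟩ := mem_image.1 (mem_coe.1 hw)
      exact mem_coe.2 (mem_image_of_mem _ hi))
  rw [hfib]
  push_cast
  rw [mul_sum]
  calc ∑ p ∈ E1.image K.a, D ^ C' * ((((E1.image (fun i => (cell K r z i, K.a i))).filter
        (fun w => w.2 = p)).card : ℕ) : ℝ)
      ≤ ∑ _p ∈ E1.image K.a, (r : ℝ) ^ z := sum_le_sum hline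
    _ = ((E1.image K.a).card : ℝ) * (r : ℝ) ^ z := by rw [sum_const, nsmul_eq_mul]
    _ ≤ (Fintype.card ι : ℝ) * (r : ℝ) ^ z := by
        have h2 : (E1.image K.a).card ≤ Fintype.card ι := card_le_univ _
        have h3 : ((E1.image K.a).card : ℝ) ≤ (Fintype.card ι : ℝ) := by exact_mod_cast h2
        exact mul_le_mul_of_nonneg_right h3 (by positivity)

end Pool.Agent.Work.MP_e17eac_co.BB

end

section

/-!
# Cleaning 2: the light pairs (line, cell) contain few edges
-/

namespace Pool.Agent.Work.MP_e17eac_co.BB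

open Finset
open Pool.Agent.Work.MP_e17eac_co.DH
open Pool.Agent.Work.MP_e17eac_co.B1

namespace X5Light

theorem fib {α : Type} [DecidableEq α] (S : Finset ℕ) (f : ℕ → α) (T : Finset α)
    (hf : ∀ i ∈ S, f i ∈ T) (w c : ℝ) (hc0 : 0 ≤ c)
    (hc : ∀ i ∈ S, w * ((S.filter (fun j => f j = f i)).card : ℝ) ≤ c) :
    w * (S.card : ℝ) ≤ c * T.card := by
  have h1 : S.card = ∑ t ∈ T, (S.filter (fun j => f j = t)).card :=
    card_eq_sum_card_fiberwise (fun i hi => hf i hi)
  rw [h1, Nat.cast_sum, mul_sum]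
  calc ∑ t ∈ T, w * ((S.filter (fun j => f j = t)).card : ℝ) ≤ ∑ t ∈ T, c := by
        apply sum_le_sum
        intro t _
        by_cases h : ∃ i ∈ S, f i = t
        · obtain ⟨i, hi, rfl⟩ := h
          exact hc i hi
        · have : S.filter (fun j => f j = t) = ∅ := by
            rw [filter_eq_empty_iff]
            intro j hj he
            exact h ⟨j, hj, he⟩
          rw [this, card_empty, Nat.cast_zero, mul_zero]
          exact hc0
    _ = c * T.card := by rw [sum_const, nsmul_eq_mul]; ring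

end X5Light

open Classical in
theorem I5_Light (hT2 : B1.StT2c) : St5Light := by
  obtain ⟨C0, hC0, hT⟩ := hT2
  intro k
  obtain ⟨c, hc⟩ := pow_unbounded_of_one_lt (2 * C0) (by norm_num : (1 : ℝ) < 2)
  refine ⟨0, k + c, ?_⟩
  intro ι _ _ K r m H D hB z hz E1 hE hN
  have hn : 0 < Fintype.card ι := Fintype.card_pos_iff.2 ⟨K.a 0⟩
  have hnR : (0 : ℝ) < (Fintype.card ι : ℝ) := by exact_mod_cast hn
  have hr1 : 1 ≤ r := le_trans (by norm_num) hB.std.two
  have hr0 : (0 : ℝ) < (r : ℝ) := by exact_mod_cast (by omega : 0 < r)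
  have hrz : (0 : ℝ) < (r : ℝ) ^ z := pow_pos hr0 z
  have hD2 : (2 : ℝ) ≤ D := hB.D2
  have hD0 : (0 : ℝ) < D := by linarith
  have hNR : (0 : ℝ) ≤ (K.N : ℝ) := Nat.cast_nonneg _
  have hsub1 : E1 ⊆ range K.N := fun i hi => mem_range.2 (hE i hi).lt
  have hpairs : ((E1.image (fun i => (cell K r z i, K.a i))).card : ℝ) ≤
      C0 * Fintype.card ι * (r : ℝ) ^ z := by
    have h := ((hT ι K hB.std.inj hB.gp r z hr1).2.2.2.1 E1 hsub1 false).1
    exact h
  refine ⟨E1.filter (fun i => (K.N : ℝ) ≤ D ^ (k + c) * Fintype.card ι * (r : ℝ) ^ z *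
    ((E1.filter (fun j => K.a j = K.a i ∧ cell K r z j = cell K r z i)).card : ℝ)),
    filter_subset _ _, ?_, ?_⟩
  · set E2 := E1.filter (fun i => (K.N : ℝ) ≤ D ^ (k + c) * Fintype.card ι * (r : ℝ) ^ z *
      ((E1.filter (fun j => K.a j = K.a i ∧ cell K r z j = cell K r z i)).card : ℝ)) with hE2
    set E3 := E1 \ E2 with hE3
    have hE3sub : E3 ⊆ E1 := sdiff_subset
    have hE2s : E2 ⊆ E1 := filter_subset _ _
    have hcard : E1.card = E2.card + E3.card := by
      have h1 := card_le_card hE2s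
      have h2 : E3.card = E1.card - E2.card := card_sdiff_of_subset hE2s
      omega
    have hfib := X5Light.fib E3 (fun i => (cell K r z i, K.a i))
      (E1.image (fun i => (cell K r z i, K.a i)))
      (fun i hi => mem_image_of_mem _ (hE3sub hi))
      (D ^ (k + c) * Fintype.card ι * (r : ℝ) ^ z) K.N hNR (by
        intro i hi
        have hi1 : i ∈ E1 := hE3sub hi
        have hi2 : i ∉ E2 := (mem_sdiff.1 hi).2
        have hi3 : ¬ ((K.N : ℝ) ≤ D ^ (k + c) * Fintype.card ι * (r : ℝ) ^ z *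
            ((E1.filter (fun j => K.a j = K.a i ∧ cell K r z j = cell K r z i)).card : ℝ)) := by
          intro h
          exact hi2 (mem_filter.2 ⟨hi1, h⟩)
        have hsub : E3.filter (fun j => (cell K r z j, K.a j) = (cell K r z i, K.a i)) ⊆
            E1.filter (fun j => K.a j = K.a i ∧ cell K r z j = cell K r z i) := by
          intro j hj
          obtain ⟨hj1, hj2⟩ := mem_filter.1 hj
          have e := Prod.mk.inj hj2
          exact mem_filter.2 ⟨hE3sub hj1, e.2, e.1⟩
        have hc1 : ((E3.filter (fun j => (cell K r z j, K.a j) =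
            (cell K r z i, K.a i))).card : ℝ) ≤
            ((E1.filter (fun j => K.a j = K.a i ∧ cell K r z j = cell K r z i)).card : ℝ) := by
          exact_mod_cast card_le_card hsub
        have hw : (0 : ℝ) ≤ D ^ (k + c) * Fintype.card ι * (r : ℝ) ^ z := by positivity
        exact (mul_le_mul_of_nonneg_left hc1 hw).trans (le_of_lt (not_le.1 hi3)))
    have h1 : D ^ (k + c) * Fintype.card ι * (r : ℝ) ^ z * (E3.card : ℝ) ≤
        K.N * (C0 * Fintype.card ι * (r : ℝ) ^ z) :=
      hfib.trans (mul_le_mul_of_nonneg_left hpairs hNR)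
    have h2 : (D ^ (k + c) * (E3.card : ℝ)) * (Fintype.card ι * (r : ℝ) ^ z) ≤
        (C0 * K.N) * (Fintype.card ι * (r : ℝ) ^ z) := by
      calc _ = D ^ (k + c) * Fintype.card ι * (r : ℝ) ^ z * (E3.card : ℝ) := by ring
        _ ≤ K.N * (C0 * Fintype.card ι * (r : ℝ) ^ z) := h1
        _ = _ := by ring
    have h3 : D ^ (k + c) * (E3.card : ℝ) ≤ C0 * K.N :=
      le_of_mul_le_mul_right h2 (by positivity)
    have hDc : 2 * C0 ≤ D ^ c :=
      hc.le.trans (pow_le_pow_left₀ (by norm_num) hD2 c)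
    have hDk : (0 : ℝ) < D ^ k := pow_pos hD0 k
    have h4 : D ^ k * (D ^ c * (E3.card : ℝ)) ≤ D ^ k * (C0 * E1.card) := by
      calc D ^ k * (D ^ c * (E3.card : ℝ)) = D ^ (k + c) * (E3.card : ℝ) := by
            rw [pow_add]; ring
        _ ≤ C0 * K.N := h3
        _ ≤ C0 * (D ^ k * E1.card) := mul_le_mul_of_nonneg_left hN (by linarith)
        _ = _ := by ring
    have h5 : D ^ c * (E3.card : ℝ) ≤ C0 * E1.card := le_of_mul_le_mul_left h4 hDk
    have h6 : C0 * (2 * (E3.card : ℝ)) ≤ C0 * E1.card := by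
      calc C0 * (2 * (E3.card : ℝ)) = 2 * C0 * (E3.card : ℝ) := by ring
        _ ≤ D ^ c * (E3.card : ℝ) := mul_le_mul_of_nonneg_right hDc (Nat.cast_nonneg _)
        _ ≤ _ := h5
    have h7 : 2 * (E3.card : ℝ) ≤ E1.card := le_of_mul_le_mul_left h6 (by linarith)
    have h8 : 2 * E3.card ≤ E1.card := by exact_mod_cast h7
    omega
  · intro i hi
    obtain ⟨hi1, hi2⟩ := mem_filter.1 hi
    have heq : (E1.filter (fun i => (K.N : ℝ) ≤ D ^ (k + c) * Fintype.card ι * (r : ℝ) ^ z *
        ((E1.filter (fun j => K.a j = K.a i ∧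
          cell K r z j = cell K r z i)).card : ℝ))).filter
        (fun j => K.a j = K.a i ∧ cell K r z j = cell K r z i) =
        E1.filter (fun j => K.a j = K.a i ∧ cell K r z j = cell K r z i) := by
      ext j
      constructor
      · intro hj
        obtain ⟨hj1, hj2⟩ := mem_filter.1 hj
        exact mem_filter.2 ⟨(mem_filter.1 hj1).1, hj2⟩
      · intro hj
        obtain ⟨hj1, hj2⟩ := mem_filter.1 hj
        refine mem_filter.2 ⟨mem_filter.2 ⟨hj1, ?_⟩, hj2⟩
        rw [hj2.1, hj2.2]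
        exact hi2
    have hcardeq := congrArg Finset.card heq
    calc (K.N : ℝ) ≤ _ := hi2
      _ = _ := by rw [← hcardeq]

end Pool.Agent.Work.MP_e17eac_co.BB

end
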