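import Mathlib
import Pool.Agent.Work.MP_e17eac_co.Halving

/-! Bundle of small proof modules (one section per former module). -/

section

/-!
# A new lower bound for the number of halving lines: definitions and the list of claims

We work in the dual plane: a finite family of non-vertical lines `y = m i * x + c i`.
A crossing of exactly two lines is balanced if the number of lines strictly above it equals the
number of lines strictly below it.
-/

set_option autoImplicit false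

namespace Pool.Agent.Work.MP_e17eac_co.HL

open Finset

/-- The sign of a real number as an integer. -/
noncomputable def sg (r : ℝ) : ℤ := if 0 < r then 1 else if r < 0 then -1 else 0

/-- The lines `i ≠ j` cross at abscissa `x`, no other line passes through the crossing point, and
the point has as many lines strictly above it as strictly below it. -/
structure IsBal {ι : Type} [Fintype ι] (m c : ι → ℝ) (i j : ι) (x : ℝ) : Prop where
  ne : i ≠ j
  zero_iff : ∀ k, m k * x + c k = m i * x + c i ↔ k = i ∨ k = j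
  sum : ∑ k, sg (m k * x + c k - (m i * x + c i)) = 0

/-- There are `n` lines with at least `M` balanced crossings (as unordered pairs of lines: the
relation `E` is asymmetric). -/
def Realizable (n M : ℕ) : Prop :=
  ∃ (ι : Type) (_ : Fintype ι) (m c : ι → ℝ) (E : Finset (ι × ι)),
    Fintype.card ι = n ∧ (∀ e ∈ E, ∃ x, IsBal m c e.1 e.2 x) ∧
    (∀ e ∈ E, (e.2, e.1) ∉ E) ∧ M ≤ E.card

/-- A unit arrangement: lines with integer slopes `X k`, special lines `S`, each with `2 J + 1`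
balanced crossings in arithmetic progression with non-special parallel lines. -/
structure UnitArr where
  K : Type
  [fintypeK : Fintype K]
  X : K → ℤ
  φ : K → ℝ
  S : Finset K
  J : ℕ
  Xm : ℕ
  ξ : K → ℝ
  δ : ℝ
  κ : K → ℤ → K
  δ_pos : 0 < δ
  X_le : ∀ k, |X k| ≤ (Xm : ℤ)
  X_sum : ∑ k, X k = 0
  even : Even (Fintype.card K)
  κ_not : ∀ k ∈ S, ∀ a : ℤ, |a| ≤ (J : ℤ) → κ k a ∉ S
  κ_slope : ∀ k ∈ S, ∀ a : ℤ, |a| ≤ (J : ℤ) → X (κ k a) = X k + 1
  bal : ∀ k ∈ S, ∀ a : ℤ, |a| ≤ (J : ℤ) →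
    IsBal (fun k => (X k : ℝ)) φ k (κ k a) (ξ k + δ * a)

attribute [instance] UnitArr.fintypeK

/-- Item A: unit arrangements with many balanced crossings exist. -/
def ClaimUnit : Prop :=
  ∀ q : ℕ, 1 ≤ q → ∃ U : UnitArr, U.J = 4 ^ q ∧ U.Xm = 2 ^ q ∧
    0 < Fintype.card U.K ∧
    Fintype.card U.K ≤ 2 ^ (q ^ 2 + 4 * q + 2) ∧
    2 ^ q * Fintype.card U.K ≤ 8 * (U.S.card * (2 * 4 ^ q + 1))

/-- Item B: the composition theorem. -/
def ClaimComp : Prop :=
  ∀ (U : UnitArr) (B : ℕ), 2 * U.Xm * U.J ≤ B → U.J ≤ B → ∀ s : ℕ,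
    Realizable (2 * Fintype.card U.K ^ s * (2 * B + 1) ^ (s.choose 2))
      ((U.S.card * (2 * U.J + 1)) ^ s * (2 * (B - 2 * U.Xm * U.J) + 1) ^ (s.choose 2))

/-- Item C: from lines to points in general position. -/
def ClaimPoints : Prop :=
  ∀ n M : ℕ, Realizable n M → ∃ P : Finset (ℝ × ℝ), P.card = n ∧ GeneralPosition P ∧
    (bisectors P).Finite ∧ M ≤ (bisectors P).ncard

/-- Item D: parallel copies and padding. -/
def ClaimPad : Prop :=
  ∀ n M a b : ℕ, Realizable n M → Realizable (a * n + 2 * b) (a * M)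

/-- Item E1: the numerical consequence of items A and B. -/
def ClaimSparse : Prop :=
  ∀ q : ℕ, 1 ≤ q → ∃ n M : ℕ, Realizable n M ∧ Even n ∧ 0 < n ∧ n ≤ 2 ^ (13 * q ^ 3) ∧
    n * 2 ^ (q ^ 2) ≤ 2 ^ (3 * q + 2) * M

/-- Item E2: the final statement. -/
def ClaimFinal : Prop :=
  ∃ c : ℝ, 0 < c ∧ ∃ n₀ : ℕ, ∀ n : ℕ, n₀ ≤ n → Even n →
    ∃ P : Finset (ℝ × ℝ), P.card = n ∧ GeneralPosition P ∧ (bisectors P).Finite ∧
      (n : ℝ) * Real.exp (c * Real.log n ^ (2 / 3 : ℝ)) ≤ ((bisectors P).ncard : ℝ)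

/-! ### Basic lemmas on `sg` -/

lemma sg_of_pos {r : ℝ} (h : 0 < r) : sg r = 1 := by simp [sg, h]

lemma sg_of_neg {r : ℝ} (h : r < 0) : sg r = -1 := by simp [sg, h, not_lt.mpr h.le]

@[simp] lemma sg_zero : sg 0 = 0 := by simp [sg]

lemma sg_eq_zero {r : ℝ} : sg r = 0 ↔ r = 0 := by
  rcases lt_trichotomy r 0 with h | h | h
  · simp [sg_of_neg h, h.ne]
  · simp [h]
  · simp [sg_of_pos h, h.ne']

lemma sg_eq_one {r : ℝ} : sg r = 1 ↔ 0 < r := by
  rcases lt_trichotomy r 0 with h | h | h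
  · simp [sg_of_neg h, not_lt.mpr h.le]
  · simp [h]
  · simp [sg_of_pos h, h]

lemma sg_eq_neg_one {r : ℝ} : sg r = -1 ↔ r < 0 := by
  rcases lt_trichotomy r 0 with h | h | h
  · simp [sg_of_neg h, h]
  · simp [h]
  · simp [sg_of_pos h, not_lt.mpr h.le]

lemma sg_neg (r : ℝ) : sg (-r) = - sg r := by
  rcases lt_trichotomy r 0 with h | h | h
  · rw [sg_of_neg h, sg_of_pos (by linarith)]; norm_num
  · simp [h]
  · rw [sg_of_pos h, sg_of_neg (by linarith)]

lemma sg_mul_pos {a r : ℝ} (ha : 0 < a) : sg (a * r) = sg r := by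
  rcases lt_trichotomy r 0 with h | h | h
  · rw [sg_of_neg h, sg_of_neg (mul_neg_of_pos_of_neg ha h)]
  · simp [h]
  · rw [sg_of_pos h, sg_of_pos (mul_pos ha h)]

lemma sg_div_pos {a r : ℝ} (ha : 0 < a) : sg (r / a) = sg r := by
  rw [div_eq_inv_mul, sg_mul_pos (inv_pos.mpr ha)]

lemma sg_intCast (z : ℤ) : sg (z : ℝ) = Int.sign z := by
  rcases lt_trichotomy z 0 with h | h | h
  · rw [sg_of_neg (by exact_mod_cast h), Int.sign_eq_neg_one_of_neg h]
  · simp [h]
  · rw [sg_of_pos (by exact_mod_cast h), Int.sign_eq_one_of_pos h]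

/-- `sg` is locally constant away from `0`. -/
lemma eventually_sg_eq {α : Type*} {l : Filter α} {f : α → ℝ} {a : ℝ}
    (hf : Filter.Tendsto f l (nhds a)) (ha : a ≠ 0) : ∀ᶠ t in l, sg (f t) = sg a := by
  rcases lt_or_gt_of_ne ha with h | h
  · filter_upwards [hf.eventually (gt_mem_nhds h)] with t ht
    rw [sg_of_neg ht, sg_of_neg h]
  · filter_upwards [hf.eventually (lt_mem_nhds h)] with t ht
    rw [sg_of_pos ht, sg_of_pos h]

end Pool.Agent.Work.MP_e17eac_co.HL

end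

section

/-!
# Removing coincident pairs of lines

In `Realizable` the two lines of a balanced pair may coincide. A small rotation of the second line
about the balanced point removes this.
-/

set_option autoImplicit false

namespace Pool.Agent.Work.MP_e17eac_co.HL

open Finset Filter Topology

/-- Balancedness depends only on the signs. -/
theorem isBal_of_sg {ι : Type} [Fintype ι] {m c m' c' : ι → ℝ} {i j : ι} {x x' : ℝ}
    (h : IsBal m c i j x)
    (hs : ∀ k, sg (m' k * x' + c' k - (m' i * x' + c' i)) =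
      sg (m k * x + c k - (m i * x + c i))) : IsBal m' c' i j x' := by
  refine ⟨h.ne, fun k => ?_, ?_⟩
  · rw [← h.zero_iff k, ← sub_eq_zero, ← sg_eq_zero, hs, sg_eq_zero, sub_eq_zero]
  · rw [← h.sum]
    exact Finset.sum_congr rfl fun k _ => hs k

/-- Every realizable pair of numbers is realized by balanced pairs of non-parallel lines. -/
theorem Realizable.nondeg {n M : ℕ} (h : Realizable n M) :
    ∃ (ι : Type) (_ : Fintype ι) (m c : ι → ℝ) (E : Finset (ι × ι)),
      Fintype.card ι = n ∧ (∀ e ∈ E, ∃ x, IsBal m c e.1 e.2 x) ∧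
      (∀ e ∈ E, (e.2, e.1) ∉ E) ∧ M ≤ E.card ∧ ∀ e ∈ E, m e.1 ≠ m e.2 := by
  classical
  obtain ⟨ι, _, m, c, E, hn, hE, hsw, hM⟩ := h
  choose! x hx using hE
  -- a degenerate pair is determined by its second line
  have key : ∀ e ∈ E, ∀ e' ∈ E, m e'.1 = m e'.2 → (e'.2 = e.1 ∨ e'.2 = e.2) → e' = e := by
    intro e he e' he' hm hor
    have h1 := (hx e' he').zero_iff e'.2
    have h2 : m e'.2 * x e' + c e'.2 = m e'.1 * x e' + c e'.1 := h1.2 (Or.inr rfl)
    have h3 : c e'.2 = c e'.1 := by rw [hm] at h2; linarith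
    have h4 : ∀ y, m e'.1 * y + c e'.1 = m e'.2 * y + c e'.2 := by
      intro y
      rw [hm, h3]
    have h5 : m e.2 * x e + c e.2 = m e.1 * x e + c e.1 := ((hx e he).zero_iff e.2).2 (Or.inr rfl)
    have h6 : m e'.1 * x e + c e'.1 = m e.1 * x e + c e.1 := by
      rw [h4]
      rcases hor with h | h
      · rw [h]
      · rw [h, h5]
    have h7 := ((hx e he).zero_iff e'.1).1 h6
    have h8 := (hx e' he').ne
    rcases hor with h | h
    · rcases h7 with h7 | h7
      · exact absurd (h7.trans h.symm) h8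
      · exfalso
        apply hsw e he
        have : e' = (e.2, e.1) := Prod.ext h7 h
        rwa [← this]
    · rcases h7 with h7 | h7
      · exact Prod.ext h7 h
      · exact absurd (h7.trans h.symm) h8
  have hex : ∃ (r z : ι → ℝ), ∀ e ∈ E, r e.1 = 0 ∧ (m e.1 = m e.2 → r e.2 = 1 ∧ z e.2 = x e) ∧
      (m e.1 ≠ m e.2 → r e.2 = 0) := by
    refine ⟨fun j => if ∃ e ∈ E, e.2 = j ∧ m e.1 = m e.2 then 1 else 0,
      fun j => if h : ∃ e ∈ E, e.2 = j ∧ m e.1 = m e.2 then x (Classical.choose h) else 0, ?_⟩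
    intro e he
    refine ⟨?_, ?_, ?_⟩
    · simp only
      rw [if_neg]
      rintro ⟨e', he', h1, h2⟩
      have h3 := key e he e' he' h2 (Or.inl h1)
      rw [h3] at h1
      exact (hx e he).ne h1.symm
    · intro hm
      have hh : ∃ e' ∈ E, e'.2 = e.2 ∧ m e'.1 = m e'.2 := ⟨e, he, rfl, hm⟩
      simp only
      rw [if_pos hh, dif_pos hh]
      refine ⟨rfl, ?_⟩
      obtain ⟨h1, h2, h3⟩ := Classical.choose_spec hh
      rw [key e he _ h1 h3 (Or.inr h2)]
    · intro hm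
      simp only
      rw [if_neg]
      rintro ⟨e', he', h1, h2⟩
      have h3 := key e he e' he' h2 (Or.inr h1)
      rw [h3] at h2
      exact hm h2
  obtain ⟨r, z, hrz⟩ := hex
  have hev : ∀ e ∈ E, ∀ᶠ t in 𝓝[>] (0 : ℝ),
      IsBal (fun k => m k + t * r k) (fun k => c k - t * r k * z k) e.1 e.2 (x e) ∧
        m e.1 + t * r e.1 ≠ m e.2 + t * r e.2 := by
    intro e he
    obtain ⟨h1, h2, h3⟩ := hrz e he
    have h0 : ∀ t : ℝ, (m e.1 + t * r e.1) * x e + (c e.1 - t * r e.1 * z e.1) =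
        m e.1 * x e + c e.1 := by
      intro t
      rw [h1]
      ring
    have hk : ∀ k, ∀ᶠ t in 𝓝[>] (0 : ℝ),
        sg ((m k + t * r k) * x e + (c k - t * r k * z k) -
          ((m e.1 + t * r e.1) * x e + (c e.1 - t * r e.1 * z e.1))) =
        sg (m k * x e + c k - (m e.1 * x e + c e.1)) := by
      intro k
      by_cases hz : m k * x e + c k - (m e.1 * x e + c e.1) = 0
      · have h4 := ((hx e he).zero_iff k).1 (sub_eq_zero.1 hz)
        refine Eventually.of_forall fun t => ?_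
        rcases h4 with rfl | rfl
        · simp
        · rw [h0 t]
          congr 1
          by_cases hm : m e.1 = m e.2
          · rw [(h2 hm).2]
            ring
          · rw [h3 hm]
            ring
      · refine eventually_sg_eq ?_ hz
        have hc : Continuous fun t : ℝ => (m k + t * r k) * x e + (c k - t * r k * z k) -
          ((m e.1 + t * r e.1) * x e + (c e.1 - t * r e.1 * z e.1)) := by fun_prop
        have h5 := hc.tendsto 0
        have h6 : (fun t : ℝ => (m k + t * r k) * x e + (c k - t * r k * z k) -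
          ((m e.1 + t * r e.1) * x e + (c e.1 - t * r e.1 * z e.1))) 0 =
            m k * x e + c k - (m e.1 * x e + c e.1) := by
          simp
        rw [← h6]
        exact h5.mono_left nhdsWithin_le_nhds
    filter_upwards [eventually_all.2 hk, self_mem_nhdsWithin] with t ht ht0
    refine ⟨isBal_of_sg (hx e he) ht, ?_⟩
    rw [h1, mul_zero, add_zero]
    by_cases hm : m e.1 = m e.2
    · rw [(h2 hm).1, hm]
      have : (0 : ℝ) < t := ht0
      intro h
      linarith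
    · rw [h3 hm, mul_zero, add_zero]
      exact hm
  obtain ⟨t, ht⟩ := ((Finset.eventually_all E).2 hev).exists
  exact ⟨ι, inferInstance, fun k => m k + t * r k, fun k => c k - t * r k * z k, E, hn,
    fun e he => ⟨x e, (ht e he).1⟩, hsw, hM, fun e he => (ht e he).2⟩

end Pool.Agent.Work.MP_e17eac_co.HL

end

section

/-!
# Nested composition of halving-line configurations: definitions

A *configuration* (`Cfg`) is a finite family of points of the plane with a set of directed edges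
(from `src e` to `tgt e`), where every edge spans a halving line, together with quantitative
margins: vertical radii `ρ` (condition `R`) and a Harnack type condition (`H`).
A *pattern* (`Pat`) is a configuration with integer abscissas whose sum is zero.
`step c p F J` replaces every point of `c` by a small group of points; the new edges are lattice
copies of the pattern `p`.
-/

set_option autoImplicit false

namespace Pool.Agent.Work.MP_e17eac_co.NC

open Finset Pool.Agent.Work.MP_e17eac_co.HL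
open scoped Classical

/-- The integers between `-n` and `n`. -/
abbrev IZ (n : ℕ) : Type := ↥(Finset.Icc (-(n : ℤ)) (n : ℤ))

/-- The integer `z` clamped to `[-n, n]`. -/
def toIZ (n : ℕ) (z : ℤ) : IZ n :=
  ⟨max (-(n : ℤ)) (min (n : ℤ) z), by
    rw [Finset.mem_Icc]
    refine ⟨le_max_left _ _, max_le ?_ (min_le_left _ _)⟩
    have : (0 : ℤ) ≤ n := Int.natCast_nonneg n
    linarith⟩

lemma toIZ_val {n : ℕ} {z : ℤ} (h : |z| ≤ (n : ℤ)) : ((toIZ n z : IZ n) : ℤ) = z := by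
  rw [abs_le] at h
  show max (-(n : ℤ)) (min (n : ℤ) z) = z
  rw [min_eq_right h.2, max_eq_right h.1]

lemma IZ.abs_le {n : ℕ} (i : IZ n) : |(i : ℤ)| ≤ (n : ℤ) := by
  have := i.2
  rw [Finset.mem_Icc] at this
  exact _root_.abs_le.mpr this

/-! ### Configurations -/

/-- Data of a configuration. -/
structure Cfg where
  V : Type
  E : Type
  Q : Type
  [fV : Fintype V]
  [fE : Fintype E]
  [fQ : Fintype Q]
  /-- coordinates -/
  x : V → ℝ
  y : V → ℝ
  /-- vertical radius -/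
  ρ : V → ℝ
  /-- signs with sum zero -/
  σ : V → ℤ
  /-- the vertex may be the target of an edge -/
  isT : V → Prop
  src : E → V
  tgt : E → V
  /-- slot of the edge at its target -/
  slot : E → Q
  lam : ℝ

attribute [instance] Cfg.fV Cfg.fE Cfg.fQ

namespace Cfg

variable (c : Cfg)

/-- Relative abscissa with respect to the edge `e`: `0` at `tgt e` and `1` at `src e`. -/
noncomputable def xi (e : c.E) (a : ℝ) : ℝ :=
  (a - c.x (c.tgt e)) / (c.x (c.src e) - c.x (c.tgt e))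

/-- Vertical height of the point `(a, b)` above the line of the edge `e`. -/
noncomputable def ht (e : c.E) (a b : ℝ) : ℝ :=
  b - c.y (c.tgt e) - c.xi e a * (c.y (c.src e) - c.y (c.tgt e))

/-- Relative abscissa of a vertex. -/
noncomputable def ξ (e : c.E) (z : c.V) : ℝ := c.xi e (c.x z)

/-- Height of a vertex above the line of the edge `e`. -/
noncomputable def g (e : c.E) (z : c.V) : ℝ := c.ht e (c.x z) (c.y z)

/-- Height of `(a, b)` above the line that passes at height `av` above `tgt e` and at height `au`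
above `src e`. -/
noncomputable def gl (e : c.E) (av au a b : ℝ) : ℝ :=
  c.ht e a b - (1 - c.xi e a) * av - c.xi e a * au

/-- A good configuration. -/
structure Good : Prop where
  σ_or : ∀ v, c.σ v = 1 ∨ c.σ v = -1
  σ_sum : ∑ v, c.σ v = 0
  slot_inj : ∀ e e', c.tgt e = c.tgt e' → c.slot e = c.slot e' → e = e'
  edge_inj : ∀ e e', c.src e = c.src e' → c.tgt e = c.tgt e' → e = e'
  isT_src : ∀ e, ¬ c.isT (c.src e)
  isT_tgt : ∀ e, c.isT (c.tgt e)
  x_ne : ∀ e, c.x (c.src e) ≠ c.x (c.tgt e)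
  ρ_nonneg : ∀ v, 0 ≤ c.ρ v
  ρ_le : ∀ v, c.ρ v ≤ 1
  ρ_pos : ∀ e, 0 < c.ρ (c.src e)
  lam_pos : 0 < c.lam
  lam_le : c.lam ≤ 1 / 32
  ρ_tgt : ∀ e, c.ρ (c.tgt e) = c.lam * c.ρ (c.src e)
  bal : ∀ e, ∑ z, sg (c.g e z) = 0
  R : ∀ e z, z ≠ c.src e → z ≠ c.tgt e →
    c.ρ z + c.ρ (c.src e) * |c.ξ e z| + c.ρ (c.tgt e) * |1 - c.ξ e z| ≤ |c.g e z|
  H : ∀ e e', c.tgt e ≠ c.src e' → c.tgt e ≠ c.tgt e' →
    32 * c.lam * |c.g e' (c.src e)| ≤ |c.g e' (c.tgt e)|

/-- The edge with target `v` and slot `b`, if there is one. -/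
noncomputable def edgeAt (v : c.V) (b : c.Q) : Option c.E :=
  if h : ∃ e, c.tgt e = v ∧ c.slot e = b then some h.choose else none

end Cfg

/-! ### Patterns -/

/-- Data of a pattern. -/
structure Pat where
  K : Type
  E : Type
  Q : Type
  [fK : Fintype K]
  [fE : Fintype E]
  [fQ : Fintype Q]
  κ : K → ℤ
  δ : K → ℝ
  σ : K → ℤ
  isT : K → Prop
  src : E → K
  tgt : E → K
  slot : E → Q
  X : ℕ

attribute [instance] Pat.fK Pat.fE Pat.fQ

namespace Pat

variable (p : Pat)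

/-- Relative abscissa. -/
noncomputable def ξ (e : p.E) (k : p.K) : ℝ :=
  ((p.κ k : ℝ) - p.κ (p.tgt e)) / ((p.κ (p.src e) : ℝ) - p.κ (p.tgt e))

/-- Height of the point `k` above the line of the edge `e`. -/
noncomputable def g (e : p.E) (k : p.K) : ℝ :=
  p.δ k - p.δ (p.tgt e) - p.ξ e k * (p.δ (p.src e) - p.δ (p.tgt e))

/-- A good pattern. -/
structure Good : Prop where
  X_pos : 1 ≤ p.X
  σ_or : ∀ v, p.σ v = 1 ∨ p.σ v = -1
  σ_sum : ∑ v, p.σ v = 0
  slot_inj : ∀ e e', p.tgt e = p.tgt e' → p.slot e = p.slot e' → e = e'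
  edge_inj : ∀ e e', p.src e = p.src e' → p.tgt e = p.tgt e' → e = e'
  isT_src : ∀ e, ¬ p.isT (p.src e)
  isT_tgt : ∀ e, p.isT (p.tgt e)
  κ_ne : ∀ e, p.κ (p.src e) ≠ p.κ (p.tgt e)
  κ_le : ∀ k, |p.κ k| ≤ (p.X : ℤ)
  κ_sum : ∑ k, p.κ k = 0
  δ_le : ∀ k, |p.δ k| ≤ 1
  bal : ∀ e, ∑ k, sg (p.g e k) = 0
  margin : ∀ e k, k ≠ p.src e → k ≠ p.tgt e → 1 ≤ 2 * (p.X : ℝ) * |p.g e k|

end Pat

/-! ### The step -/

section Step

variable (c : Cfg) (p : Pat) (F J : ℕ)

/-- Half height of the lattice columns. -/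
def HH : ℕ := J + p.X * F

/-- `Δ v = η ρ v` is the vertical spacing of the copies of `v`. -/
noncomputable def eta : ℝ := 1 / (32 * ((F : ℝ) + 1))

/-- The parameter `θ = ε`. -/
noncomputable def th : ℝ := 1 / (16 * (HH p F J : ℝ))

/-- The size of the pattern inside a lattice row. -/
noncomputable def mu : ℝ := th p F J / 40

/-- The new `λ`. -/
noncomputable def lam' : ℝ := mu p F J / (512 * (HH p F J : ℝ) * (p.X : ℝ))

noncomputable def rk (k : p.K) : ℝ := 1 / (1 + (p.κ k : ℝ) * th p F J)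

noncomputable def Rk (k : p.K) : ℝ := 1 + (p.κ k : ℝ) * th p F J * rk p F J k

/-- Vertical spacing of the copies of `v`. -/
noncomputable def Dl (v : c.V) : ℝ := eta F * c.ρ v

/-- The new vertices: `(v, kind, (k, h))`. -/
abbrev NV : Type := c.V × (IZ F ⊕ (c.Q ⊕ c.Q)) × (p.K × IZ (HH p F J))

/-- The new edges: `(e, i, j, e₀)`. -/
abbrev NE : Type := c.E × IZ F × IZ J × p.E

/-- The neighbour that attracts the new vertex. -/
noncomputable def nb : NV c p F J → c.V
  | (v, Sum.inl _, _) => v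
  | (v, Sum.inr (Sum.inl b), _) => match c.edgeAt v b with
    | none => v
    | some e => c.src e
  | (v, Sum.inr (Sum.inr b), _) => match c.edgeAt v b with
    | none => v
    | some e => c.src e

/-- The homogeneous weight of the neighbour, divided by `λ`. -/
noncomputable def RR : NV c p F J → ℝ
  | (_, Sum.inl _, _) => 0
  | (v, Sum.inr (Sum.inl b), (k, _)) => match c.edgeAt v b with
    | none => 0
    | some _ => Rk p F J k
  | (v, Sum.inr (Sum.inr b), _) => match c.edgeAt v b with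
    | none => 0
    | some _ => -1

/-- The homogeneous vertical displacement. -/
noncomputable def tau : NV c p F J → ℝ
  | (v, Sum.inl i, (k, h)) =>
      Dl c F v * ((i : ℤ) + th p F J * ((h : ℤ) + (p.σ k : ℝ) / 4))
  | (v, Sum.inr (Sum.inl b), (k, h)) => match c.edgeAt v b with
    | none => ((F : ℝ) + 2) * Dl c F v
    | some _ => Dl c F v *
        (th p F J * rk p F J k * ((h : ℤ) + mu p F J * p.δ k) - 1 / 2)
  | (v, Sum.inr (Sum.inr b), _) => match c.edgeAt v b with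
    | none => -(((F : ℝ) + 2) * Dl c F v)
    | some _ => -((2 * (F : ℝ) + 2) * Dl c F v)

/-- Abscissa of a new vertex. -/
noncomputable def nx (w : NV c p F J) : ℝ :=
  (c.x w.1 + c.lam * RR c p F J w * c.x (nb c p F J w)) / (1 + c.lam * RR c p F J w)

/-- Ordinate of a new vertex. -/
noncomputable def ny (w : NV c p F J) : ℝ :=
  (c.y w.1 + c.lam * RR c p F J w * c.y (nb c p F J w) + tau c p F J w) /
    (1 + c.lam * RR c p F J w)

/-- Basic vertical radius of the lattice points of slots at `v`. -/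
noncomputable def rad (v : c.V) : ℝ :=
  Dl c F v * th p F J * mu p F J / (64 * (p.X : ℝ) ^ 2)

/-- New vertical radii. -/
noncomputable def nρ : NV c p F J → ℝ
  | (_, Sum.inl _, _) => 0
  | (v, Sum.inr (Sum.inl b), (k, _)) => match c.edgeAt v b with
    | none => 0
    | some _ => rad c p F J v * (if p.isT k then lam' p F J else 1)
  | (_, Sum.inr (Sum.inr _), _) => 0

/-- A lattice point of the slot of the edge `e`. -/
noncomputable def lat (e : c.E) (k : p.K) (h : ℤ) : NV c p F J :=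
  (c.tgt e, Sum.inr (Sum.inl (c.slot e)), (k, toIZ (HH p F J) h))

/-- Source of a new edge. -/
noncomputable def nsrc (a : NE c p F J) : NV c p F J :=
  lat c p F J a.1 (p.src a.2.2.2) (p.κ (p.src a.2.2.2) * (a.2.1 : ℤ) - (a.2.2.1 : ℤ))

/-- Target of a new edge. -/
noncomputable def ntgt (a : NE c p F J) : NV c p F J :=
  lat c p F J a.1 (p.tgt a.2.2.2) (p.κ (p.tgt a.2.2.2) * (a.2.1 : ℤ) - (a.2.2.1 : ℤ))

/-- The new configuration. -/
noncomputable def step : Cfg where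
  V := NV c p F J
  E := NE c p F J
  Q := IZ F × p.Q
  x := nx c p F J
  y := ny c p F J
  ρ := nρ c p F J
  σ := fun w => p.σ w.2.2.1
  isT := fun w => p.isT w.2.2.1
  src := nsrc c p F J
  tgt := ntgt c p F J
  slot := fun a => (a.2.1, p.slot a.2.2.2)
  lam := lam' p F J

end Step

end Pool.Agent.Work.MP_e17eac_co.NC

end

section

/-!
# Nested composition: basic lemmas on the step
-/

set_option autoImplicit false

namespace Pool.Agent.Work.MP_e17eac_co.NC

open Finset Pool.Agent.Work.MP_e17eac_co.HL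
open scoped Classical

namespace Cfg

variable {c : Cfg}

lemma edgeAt_some {v : c.V} {b : c.Q} {e : c.E} (h : c.edgeAt v b = some e) :
    c.tgt e = v ∧ c.slot e = b := by
  unfold edgeAt at h
  split_ifs at h with h1
  · rw [Option.some.injEq] at h
    rw [← h]
    exact h1.choose_spec

lemma edgeAt_tgt (hc : c.Good) (e : c.E) : c.edgeAt (c.tgt e) (c.slot e) = some e := by
  unfold edgeAt
  have h1 : ∃ e', c.tgt e' = c.tgt e ∧ c.slot e' = c.slot e := ⟨e, rfl, rfl⟩
  rw [dif_pos h1, Option.some.injEq]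
  exact hc.slot_inj _ _ h1.choose_spec.1 h1.choose_spec.2

lemma edgeAt_src (hc : c.Good) (e : c.E) (b : c.Q) : c.edgeAt (c.src e) b = none := by
  rcases h : c.edgeAt (c.src e) b with _ | e'
  · rfl
  · exfalso
    have h1 := (edgeAt_some h).1
    exact hc.isT_src e (h1 ▸ hc.isT_tgt e')

lemma src_ne_tgt (hc : c.Good) (e e' : c.E) : c.src e ≠ c.tgt e' :=
  fun h => hc.isT_src e (h ▸ hc.isT_tgt e')

lemma ρ_tgt_pos (hc : c.Good) (e : c.E) : 0 < c.ρ (c.tgt e) := by
  rw [hc.ρ_tgt]; exact mul_pos hc.lam_pos (hc.ρ_pos e)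

lemma dx_ne (hc : c.Good) (e : c.E) : c.x (c.src e) - c.x (c.tgt e) ≠ 0 :=
  sub_ne_zero.mpr (hc.x_ne e)

lemma xi_src (hc : c.Good) (e : c.E) : c.xi e (c.x (c.src e)) = 1 := by
  unfold xi; exact div_self (dx_ne hc e)

lemma xi_tgt (e : c.E) : c.xi e (c.x (c.tgt e)) = 0 := by
  unfold xi; simp

lemma ξ_src (hc : c.Good) (e : c.E) : c.ξ e (c.src e) = 1 := xi_src hc e

lemma ξ_tgt (e : c.E) : c.ξ e (c.tgt e) = 0 := xi_tgt e

lemma g_src (hc : c.Good) (e : c.E) : c.g e (c.src e) = 0 := by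
  unfold g ht; rw [xi_src hc]; ring

lemma g_tgt (e : c.E) : c.g e (c.tgt e) = 0 := by
  unfold g ht; rw [xi_tgt]; ring

lemma gl_vertex (e : c.E) (av au : ℝ) (z : c.V) :
    c.gl e av au (c.x z) (c.y z) = c.g e z - (1 - c.ξ e z) * av - c.ξ e z * au := rfl

lemma gl_tgt (e : c.E) (av au : ℝ) : c.gl e av au (c.x (c.tgt e)) (c.y (c.tgt e)) = -av := by
  rw [gl_vertex, g_tgt, ξ_tgt]; ring

lemma gl_src (hc : c.Good) (e : c.E) (av au : ℝ) :
    c.gl e av au (c.x (c.src e)) (c.y (c.src e)) = -au := by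
  rw [gl_vertex, g_src hc, ξ_src hc]; ring

lemma g_pos_of (hc : c.Good) (e : c.E) {z : c.V} (h1 : z ≠ c.src e) (h2 : z ≠ c.tgt e) :
    0 < |c.g e z| := by
  refine lt_of_lt_of_le ?_ (hc.R e z h1 h2)
  have h3 := hc.ρ_pos e
  have h4 := ρ_tgt_pos hc e
  have h5 := hc.ρ_nonneg z
  rcases eq_or_ne (c.ξ e z) 0 with h | h
  · rw [h]; simp; positivity
  · have : 0 < |c.ξ e z| := abs_pos.mpr h
    positivity

lemma ρ_le_g (hc : c.Good) (e : c.E) {z : c.V} (h1 : z ≠ c.src e) (h2 : z ≠ c.tgt e) :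
    c.ρ z ≤ |c.g e z| := by
  refine le_trans ?_ (hc.R e z h1 h2)
  have h3 := (hc.ρ_pos e).le
  have h4 := (ρ_tgt_pos hc e).le
  have := mul_nonneg h3 (abs_nonneg (c.ξ e z))
  have := mul_nonneg h4 (abs_nonneg (1 - c.ξ e z))
  linarith

/-- A line close to the edge `e` has almost the same height at the other vertices. -/
lemma gl_dev (hc : c.Good) (e : c.E) {av au : ℝ} (hv : |av| ≤ c.ρ (c.tgt e) / 16)
    (hu : |au| ≤ c.ρ (c.src e) / 16) {z : c.V} (h1 : z ≠ c.src e) (h2 : z ≠ c.tgt e) :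
    |c.gl e av au (c.x z) (c.y z) - c.g e z| ≤ |c.g e z| / 16 := by
  rw [gl_vertex]
  have hR := hc.R e z h1 h2
  have h5 := hc.ρ_nonneg z
  have e1 : c.g e z - (1 - c.ξ e z) * av - c.ξ e z * au - c.g e z
      = -((1 - c.ξ e z) * av + c.ξ e z * au) := by ring
  rw [e1, abs_neg]
  have h6 : |(1 - c.ξ e z) * av + c.ξ e z * au| ≤ |1 - c.ξ e z| * |av| + |c.ξ e z| * |au| := by
    refine (abs_add_le _ _).trans ?_
    rw [abs_mul, abs_mul]
  have h7 : |1 - c.ξ e z| * |av| ≤ |1 - c.ξ e z| * (c.ρ (c.tgt e) / 16) :=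
    mul_le_mul_of_nonneg_left hv (abs_nonneg _)
  have h8 : |c.ξ e z| * |au| ≤ |c.ξ e z| * (c.ρ (c.src e) / 16) :=
    mul_le_mul_of_nonneg_left hu (abs_nonneg _)
  nlinarith

end Cfg

namespace Pat

variable {p : Pat}

lemma κ_sub_ne (hp : p.Good) (e : p.E) : ((p.κ (p.src e) : ℝ) - p.κ (p.tgt e)) ≠ 0 := by
  have := hp.κ_ne e
  rw [sub_ne_zero]
  exact_mod_cast this

lemma one_le_abs_κ_sub (hp : p.Good) (e : p.E) :
    1 ≤ |((p.κ (p.src e) : ℝ) - p.κ (p.tgt e))| := by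
  have h1 : p.κ (p.src e) - p.κ (p.tgt e) ≠ 0 := sub_ne_zero.mpr (hp.κ_ne e)
  have h2 : (1 : ℤ) ≤ |p.κ (p.src e) - p.κ (p.tgt e)| := Int.one_le_abs h1
  exact_mod_cast h2

lemma abs_κ_le (hp : p.Good) (k : p.K) : |(p.κ k : ℝ)| ≤ (p.X : ℝ) := by
  have := hp.κ_le k
  have h2 : ((|p.κ k| : ℤ) : ℝ) ≤ ((p.X : ℤ) : ℝ) := by exact_mod_cast this
  simpa [Int.cast_abs] using h2

lemma ξ_src (hp : p.Good) (e : p.E) : p.ξ e (p.src e) = 1 := div_self (κ_sub_ne hp e)

lemma ξ_tgt (e : p.E) : p.ξ e (p.tgt e) = 0 := by unfold ξ; simp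

lemma g_src (hp : p.Good) (e : p.E) : p.g e (p.src e) = 0 := by
  unfold g; rw [ξ_src hp]; ring

lemma g_tgt (e : p.E) : p.g e (p.tgt e) = 0 := by
  unfold g; rw [ξ_tgt]; ring

lemma abs_ξ_le (hp : p.Good) (e : p.E) (k : p.K) : |p.ξ e k| ≤ 2 * (p.X : ℝ) := by
  unfold ξ
  rw [abs_div]
  have h1 := one_le_abs_κ_sub hp e
  have h2 := abs_κ_le hp k
  have h3 := abs_κ_le hp (p.tgt e)
  rw [abs_le] at h2 h3
  have h4 : |(p.κ k : ℝ) - p.κ (p.tgt e)| ≤ 2 * p.X := by
    rw [abs_le]; constructor <;> linarith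
  calc _ ≤ |(p.κ k : ℝ) - p.κ (p.tgt e)| := div_le_self (abs_nonneg _) h1
    _ ≤ _ := h4

lemma abs_one_sub_ξ_le (hp : p.Good) (e : p.E) (k : p.K) : |1 - p.ξ e k| ≤ 2 * (p.X : ℝ) := by
  have h0 : 1 - p.ξ e k = ((p.κ (p.src e) : ℝ) - p.κ k) /
      ((p.κ (p.src e) : ℝ) - p.κ (p.tgt e)) := by
    unfold ξ
    have := κ_sub_ne hp e
    field_simp
    ring
  rw [h0, abs_div]
  have h1 := one_le_abs_κ_sub hp e
  have h2 := abs_κ_le hp k
  have h3 := abs_κ_le hp (p.src e)
  rw [abs_le] at h2 h3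
  have h4 : |(p.κ (p.src e) : ℝ) - p.κ k| ≤ 2 * p.X := by
    rw [abs_le]; constructor <;> linarith
  calc _ ≤ |(p.κ (p.src e) : ℝ) - p.κ k| := div_le_self (abs_nonneg _) h1
    _ ≤ _ := h4

lemma src_ne_tgt (hp : p.Good) (e e' : p.E) : p.src e ≠ p.tgt e' :=
  fun h => hp.isT_src e (h ▸ hp.isT_tgt e')

end Pat

/-! ### Constants -/

section Consts

variable {p : Pat} {F J : ℕ}

lemma X_le_HH (hF : 1 ≤ F) : p.X ≤ HH p F J := by
  unfold HH
  have : p.X * 1 ≤ p.X * F := Nat.mul_le_mul_left _ hF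
  omega

lemma J_le_HH : J ≤ HH p F J := by unfold HH; omega

lemma F_le_HH (hp : p.Good) : F ≤ HH p F J := by
  unfold HH
  have := hp.X_pos
  have : 1 * F ≤ p.X * F := Nat.mul_le_mul_right _ this
  omega

lemma HH_real : (HH p F J : ℝ) = J + p.X * F := by unfold HH; push_cast; ring

lemma X_real_pos (hp : p.Good) : (1 : ℝ) ≤ p.X := by exact_mod_cast hp.X_pos

lemma HH_ge_X (hF : 1 ≤ F) : (p.X : ℝ) ≤ HH p F J := by exact_mod_cast X_le_HH hF

lemma HH_ge_one (hp : p.Good) (hF : 1 ≤ F) : (1 : ℝ) ≤ HH p F J :=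
  (X_real_pos hp).trans (HH_ge_X hF)

lemma th_pos (hp : p.Good) (hF : 1 ≤ F) : 0 < th p F J := by
  have := HH_ge_one (J := J) hp hF
  unfold th; positivity

lemma th_mul_HH (hp : p.Good) (hF : 1 ≤ F) : th p F J * HH p F J = 1 / 16 := by
  have := HH_ge_one (J := J) hp hF
  unfold th; field_simp

lemma th_le (hp : p.Good) (hF : 1 ≤ F) : th p F J ≤ 1 / 16 := by
  have h1 := HH_ge_one (J := J) hp hF
  have h2 := th_mul_HH (J := J) hp hF
  have h3 := th_pos (J := J) hp hF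
  nlinarith

lemma X_mul_th_le (hp : p.Good) (hF : 1 ≤ F) : (p.X : ℝ) * th p F J ≤ 1 / 16 := by
  have h1 := HH_ge_X (p := p) (J := J) hF
  have h2 := th_mul_HH (J := J) hp hF
  have h3 := th_pos (J := J) hp hF
  nlinarith

lemma J_mul_th_le (hp : p.Good) (hF : 1 ≤ F) : (J : ℝ) * th p F J ≤ 1 / 16 := by
  have h1 : (J : ℝ) ≤ HH p F J := by exact_mod_cast J_le_HH (p := p) (F := F) (J := J)
  have h2 := th_mul_HH (J := J) hp hF
  have h3 := th_pos (J := J) hp hF
  nlinarith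

lemma mu_pos (hp : p.Good) (hF : 1 ≤ F) : 0 < mu p F J := by
  have := th_pos (J := J) hp hF
  unfold mu; positivity

lemma th_eq_mu : th p F J = 40 * mu p F J := by unfold mu; ring

lemma lam'_pos (hp : p.Good) (hF : 1 ≤ F) : 0 < lam' p F J := by
  have h1 := HH_ge_one (J := J) hp hF
  have h2 := X_real_pos hp
  have h3 := mu_pos (J := J) hp hF
  unfold lam'; positivity

lemma lam'_mul (hp : p.Good) (hF : 1 ≤ F) :
    lam' p F J * (512 * HH p F J * p.X) = mu p F J := by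
  have h1 := HH_ge_one (J := J) hp hF
  have h2 := X_real_pos hp
  unfold lam'; field_simp

lemma lam'_le_mu (hp : p.Good) (hF : 1 ≤ F) : 512 * lam' p F J ≤ mu p F J := by
  have h1 := HH_ge_one (J := J) hp hF
  have h2 := X_real_pos hp
  have h3 := lam'_pos (J := J) hp hF
  have h4 := lam'_mul (J := J) hp hF
  have h5 : (1 : ℝ) ≤ HH p F J * p.X := by nlinarith
  nlinarith

lemma lam'_le (hp : p.Good) (hF : 1 ≤ F) : lam' p F J ≤ 1 / 32 := by
  have h1 := lam'_le_mu (J := J) hp hF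
  have h2 := th_le (J := J) hp hF
  have h3 := lam'_pos (J := J) hp hF
  rw [th_eq_mu] at h2
  linarith

lemma eta_pos : 0 < eta F := by unfold eta; positivity

lemma eta_mul : eta F * (32 * ((F : ℝ) + 1)) = 1 := by
  unfold eta; field_simp

lemma eta_le : eta F ≤ 1 / 32 := by
  have h := eta_mul (F := F)
  have h1 := eta_pos (F := F)
  have h2 : (0 : ℝ) ≤ F := Nat.cast_nonneg F
  nlinarith

lemma kth_abs (hp : p.Good) (hF : 1 ≤ F) (k : p.K) : |(p.κ k : ℝ) * th p F J| ≤ 1 / 16 := by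
  rw [abs_mul, abs_of_pos (th_pos (J := J) hp hF)]
  have h1 := Pat.abs_κ_le hp k
  have h2 := X_mul_th_le (J := J) hp hF
  have h3 := th_pos (J := J) hp hF
  nlinarith

lemma rk_den_pos (hp : p.Good) (hF : 1 ≤ F) (k : p.K) : 0 < 1 + (p.κ k : ℝ) * th p F J := by
  have := (abs_le.mp (kth_abs (J := J) hp hF k)).1
  linarith

lemma rk_mul (hp : p.Good) (hF : 1 ≤ F) (k : p.K) :
    rk p F J k * (1 + (p.κ k : ℝ) * th p F J) = 1 := by
  have := rk_den_pos (J := J) hp hF k
  unfold rk; field_simp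

lemma rk_pos (hp : p.Good) (hF : 1 ≤ F) (k : p.K) : 0 < rk p F J k := by
  have := rk_den_pos (J := J) hp hF k
  unfold rk; positivity

lemma rk_ge (hp : p.Good) (hF : 1 ≤ F) (k : p.K) : 16 / 17 ≤ rk p F J k := by
  have h1 := (abs_le.mp (kth_abs (J := J) hp hF k)).2
  have h2 := rk_mul (J := J) hp hF k
  have h3 := rk_pos (J := J) hp hF k
  nlinarith

lemma rk_le (hp : p.Good) (hF : 1 ≤ F) (k : p.K) : rk p F J k ≤ 16 / 15 := by
  have h1 := (abs_le.mp (kth_abs (J := J) hp hF k)).1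
  have h2 := rk_mul (J := J) hp hF k
  have h3 := rk_pos (J := J) hp hF k
  nlinarith

lemma Rk_ge (hp : p.Good) (hF : 1 ≤ F) (k : p.K) : 14 / 15 ≤ Rk p F J k := by
  have h1 := abs_le.mp (kth_abs (J := J) hp hF k)
  have h2 := rk_pos (J := J) hp hF k
  have h3 := rk_le (J := J) hp hF k
  unfold Rk
  nlinarith [h1.1, h1.2]

lemma Rk_le (hp : p.Good) (hF : 1 ≤ F) (k : p.K) : Rk p F J k ≤ 16 / 15 := by
  have h1 := abs_le.mp (kth_abs (J := J) hp hF k)
  have h2 := rk_pos (J := J) hp hF k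
  have h3 := rk_le (J := J) hp hF k
  unfold Rk
  nlinarith [h1.1, h1.2]

end Consts

/-! ### Values of `nb`, `RR`, `tau`, `nρ` -/

section Values

variable {c : Cfg} {p : Pat} {F J : ℕ}

lemma nb_inl (v : c.V) (i : IZ F) (t : p.K × IZ (HH p F J)) :
    nb c p F J (v, Sum.inl i, t) = v := rfl

lemma RR_inl (v : c.V) (i : IZ F) (t : p.K × IZ (HH p F J)) :
    RR c p F J (v, Sum.inl i, t) = 0 := rfl

lemma tau_inl (v : c.V) (i : IZ F) (k : p.K) (h : IZ (HH p F J)) :
    tau c p F J (v, Sum.inl i, (k, h)) =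
      Dl c F v * ((i : ℤ) + th p F J * ((h : ℤ) + (p.σ k : ℝ) / 4)) := rfl

lemma nρ_inl (v : c.V) (i : IZ F) (t : p.K × IZ (HH p F J)) :
    nρ c p F J (v, Sum.inl i, t) = 0 := rfl

lemma nρ_inr_inr (v : c.V) (b : c.Q) (t : p.K × IZ (HH p F J)) :
    nρ c p F J (v, Sum.inr (Sum.inr b), t) = 0 := rfl

variable {v : c.V} {b : c.Q} {e : c.E}

lemma nb_inr_inl_none (h : c.edgeAt v b = none) (t : p.K × IZ (HH p F J)) :
    nb c p F J (v, Sum.inr (Sum.inl b), t) = v := by
  simp only [nb, h]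

lemma nb_inr_inl_some (h : c.edgeAt v b = some e) (t : p.K × IZ (HH p F J)) :
    nb c p F J (v, Sum.inr (Sum.inl b), t) = c.src e := by
  simp only [nb, h]

lemma nb_inr_inr_none (h : c.edgeAt v b = none) (t : p.K × IZ (HH p F J)) :
    nb c p F J (v, Sum.inr (Sum.inr b), t) = v := by
  simp only [nb, h]

lemma nb_inr_inr_some (h : c.edgeAt v b = some e) (t : p.K × IZ (HH p F J)) :
    nb c p F J (v, Sum.inr (Sum.inr b), t) = c.src e := by
  simp only [nb, h]

lemma RR_inr_inl_none (h : c.edgeAt v b = none) (t : p.K × IZ (HH p F J)) :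
    RR c p F J (v, Sum.inr (Sum.inl b), t) = 0 := by
  obtain ⟨k, hh⟩ := t
  simp only [RR, h]

lemma RR_inr_inl_some (h : c.edgeAt v b = some e) (k : p.K) (hh : IZ (HH p F J)) :
    RR c p F J (v, Sum.inr (Sum.inl b), (k, hh)) = Rk p F J k := by
  simp only [RR, h]

lemma RR_inr_inr_none (h : c.edgeAt v b = none) (t : p.K × IZ (HH p F J)) :
    RR c p F J (v, Sum.inr (Sum.inr b), t) = 0 := by
  simp only [RR, h]

lemma RR_inr_inr_some (h : c.edgeAt v b = some e) (t : p.K × IZ (HH p F J)) :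
    RR c p F J (v, Sum.inr (Sum.inr b), t) = -1 := by
  simp only [RR, h]

lemma tau_inr_inl_none (h : c.edgeAt v b = none) (t : p.K × IZ (HH p F J)) :
    tau c p F J (v, Sum.inr (Sum.inl b), t) = ((F : ℝ) + 2) * Dl c F v := by
  obtain ⟨k, hh⟩ := t
  simp only [tau, h]

lemma tau_inr_inl_some (h : c.edgeAt v b = some e) (k : p.K) (hh : IZ (HH p F J)) :
    tau c p F J (v, Sum.inr (Sum.inl b), (k, hh)) = Dl c F v *
        (th p F J * rk p F J k * ((hh : ℤ) + mu p F J * p.δ k) - 1 / 2) := by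
  simp only [tau, h]

lemma tau_inr_inr_none (h : c.edgeAt v b = none) (t : p.K × IZ (HH p F J)) :
    tau c p F J (v, Sum.inr (Sum.inr b), t) = -(((F : ℝ) + 2) * Dl c F v) := by
  simp only [tau, h]

lemma tau_inr_inr_some (h : c.edgeAt v b = some e) (t : p.K × IZ (HH p F J)) :
    tau c p F J (v, Sum.inr (Sum.inr b), t) = -((2 * (F : ℝ) + 2) * Dl c F v) := by
  simp only [tau, h]

lemma nρ_inr_inl_none (h : c.edgeAt v b = none) (t : p.K × IZ (HH p F J)) :
    nρ c p F J (v, Sum.inr (Sum.inl b), t) = 0 := by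
  obtain ⟨k, hh⟩ := t
  simp only [nρ, h]

lemma nρ_inr_inl_some (h : c.edgeAt v b = some e) (k : p.K) (hh : IZ (HH p F J)) :
    nρ c p F J (v, Sum.inr (Sum.inl b), (k, hh)) =
      rad c p F J v * (if p.isT k then lam' p F J else 1) := by
  simp only [nρ, h]

lemma Dl_nonneg (hc : c.Good) (v : c.V) : 0 ≤ Dl c F v :=
  mul_nonneg eta_pos.le (hc.ρ_nonneg v)

lemma Dl_le (hc : c.Good) (v : c.V) : (2 * (F : ℝ) + 2) * Dl c F v = c.ρ v / 16 := by
  unfold Dl
  have h := eta_mul (F := F)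
  have : (2 * (F : ℝ) + 2) * (eta F * c.ρ v) = (eta F * (32 * ((F : ℝ) + 1))) * c.ρ v / 16 := by
    ring
  rw [this, h]; ring

lemma Dl_tgt (hc : c.Good) (e : c.E) : Dl c F (c.tgt e) = c.lam * Dl c F (c.src e) := by
  unfold Dl; rw [hc.ρ_tgt]; ring

lemma Dl_src_pos (hc : c.Good) (e : c.E) : 0 < Dl c F (c.src e) :=
  mul_pos eta_pos (hc.ρ_pos e)

lemma Dl_tgt_pos (hc : c.Good) (e : c.E) : 0 < Dl c F (c.tgt e) :=
  mul_pos eta_pos (Cfg.ρ_tgt_pos hc e)

lemma abs_RR_le (hp : p.Good) (hF : 1 ≤ F) (w : NV c p F J) : |RR c p F J w| ≤ 16 / 15 := by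
  obtain ⟨v, s, k, hh⟩ := w
  rcases s with i | b | b
  · rw [RR_inl]; norm_num
  · rcases h : c.edgeAt v b with _ | e
    · rw [RR_inr_inl_none h]; norm_num
    · rw [RR_inr_inl_some h, abs_of_nonneg (by linarith [Rk_ge (J := J) hp hF k])]
      exact Rk_le hp hF k
  · rcases h : c.edgeAt v b with _ | e
    · rw [RR_inr_inr_none h]; norm_num
    · rw [RR_inr_inr_some h]; norm_num

lemma den_pos (hc : c.Good) (hp : p.Good) (hF : 1 ≤ F) (w : NV c p F J) :
    0 < 1 + c.lam * RR c p F J w := by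
  have h1 := abs_le.mp (abs_RR_le (c := c) (J := J) hp hF w)
  have h2 := hc.lam_pos
  have h3 := hc.lam_le
  nlinarith [h1.1, h1.2]

lemma den_ge (hc : c.Good) (hp : p.Good) (hF : 1 ≤ F) (w : NV c p F J) :
    29 / 30 ≤ 1 + c.lam * RR c p F J w := by
  have h1 := abs_le.mp (abs_RR_le (c := c) (J := J) hp hF w)
  have h2 := hc.lam_pos
  have h3 := hc.lam_le
  nlinarith [h1.1, h1.2]

lemma den_le (hc : c.Good) (hp : p.Good) (hF : 1 ≤ F) (w : NV c p F J) :
    1 + c.lam * RR c p F J w ≤ 31 / 30 := by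
  have h1 := abs_le.mp (abs_RR_le (c := c) (J := J) hp hF w)
  have h2 := hc.lam_pos
  have h3 := hc.lam_le
  nlinarith [h1.1, h1.2]

/-- Affine functions in homogeneous coordinates. -/
lemma gl_homog (hc : c.Good) (hp : p.Good) (hF : 1 ≤ F) (e : c.E) (av au : ℝ)
    (w : NV c p F J) :
    (1 + c.lam * RR c p F J w) * c.gl e av au (nx c p F J w) (ny c p F J w) =
      c.gl e av au (c.x w.1) (c.y w.1) +
        c.lam * RR c p F J w * c.gl e av au (c.x (nb c p F J w)) (c.y (nb c p F J w)) +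
        tau c p F J w := by
  have hd := (den_pos hc hp hF w).ne'
  have hx := Cfg.dx_ne hc e
  have h1 : (1 + c.lam * RR c p F J w) * nx c p F J w =
      c.x w.1 + c.lam * RR c p F J w * c.x (nb c p F J w) := by
    unfold nx; field_simp
  have h2 : (1 + c.lam * RR c p F J w) * ny c p F J w =
      c.y w.1 + c.lam * RR c p F J w * c.y (nb c p F J w) + tau c p F J w := by
    unfold ny; field_simp
  have h3 : ∀ a : ℝ, c.xi e a = (a - c.x (c.tgt e)) * (c.x (c.src e) - c.x (c.tgt e))⁻¹ :=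
    fun a => rfl
  unfold Cfg.gl Cfg.ht
  simp only [h3]
  set I := (c.x (c.src e) - c.x (c.tgt e))⁻¹
  set D := 1 + c.lam * RR c p F J w with hD
  have hD' : c.lam * RR c p F J w = D - 1 := by rw [hD]; ring
  rw [hD'] at h1 h2 ⊢
  set X1 := nx c p F J w
  set Y1 := ny c p F J w
  linear_combination h2 - I * (c.y (c.src e) - c.y (c.tgt e)) * h1 + I * av * h1 - I * au * h1

end Values

end Pool.Agent.Work.MP_e17eac_co.NC

end

section

/-!
# Nested composition: the list of claims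
-/

set_option autoImplicit false

namespace Pool.Agent.Work.MP_e17eac_co.NC

open Finset Pool.Agent.Work.MP_e17eac_co.HL
open scoped Classical

section Lines

variable (c : Cfg) (p : Pat) (F J : ℕ)

/-- Height at `tgt e` of the line with parameters `(α, β)` near the edge `e`. -/
noncomputable def avv (e : c.E) (α β : ℝ) : ℝ :=
  -(Dl c F (c.tgt e) * (α + 1 / 2 + β * (2 * th p F J)))

/-- Height at `src e` of the line with parameters `(α, β)` near the edge `e`. -/
noncomputable def auu (e : c.E) (α β : ℝ) : ℝ :=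
  Dl c F (c.src e) * (α + β * th p F J)

/-- Height of the new vertex `w` above the line with parameters `(α, β)` near the edge `e`. -/
noncomputable def gw (e : c.E) (α β : ℝ) (w : NV c p F J) : ℝ :=
  c.gl e (avv c p F J e α β) (auu c p F J e α β) (nx c p F J w) (ny c p F J w)

/-- The parameters `(α, β)` describe a line close to the new edge `a`. -/
structure LineOK (a : NE c p F J) (α β : ℝ) : Prop where
  α_near : |α - ((a.2.1 : ℤ) : ℝ)| ≤ 4 * mu p F J
  β_near : |β - ((a.2.2.1 : ℤ) : ℝ)| ≤ 6 * mu p F J * p.X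
  col : ∀ k : p.K, |(α * (p.κ k : ℝ) - β) - (((p.κ k * (a.2.1 : ℤ) - (a.2.2.1 : ℤ) : ℤ) : ℝ) +
    mu p F J * (p.δ k - p.g a.2.2.2 k))| ≤ mu p F J / (8 * p.X)

/-- The sign of the position of the new vertex `w` with respect to the new edge `a`. -/
noncomputable def sgF (a : NE c p F J) : NV c p F J → ℤ
  | (v, s, (k, h)) =>
    if v = c.src a.1 then
      match s with
      | Sum.inl i' => if (i' : ℤ) = (a.2.1 : ℤ) then
          (if (h : ℤ) = (a.2.2.1 : ℤ) then p.σ k else Int.sign ((h : ℤ) - (a.2.2.1 : ℤ)))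
          else Int.sign ((i' : ℤ) - (a.2.1 : ℤ))
      | Sum.inr (Sum.inl _) => 1
      | Sum.inr (Sum.inr _) => -1
    else if v = c.tgt a.1 then
      match s with
      | Sum.inl i' => if 0 ≤ (i' : ℤ) + (a.2.1 : ℤ) then 1 else -1
      | Sum.inr (Sum.inl b) => match c.edgeAt v b with
        | none => 1
        | some e' => if e' = a.1 then
            (if (h : ℤ) = p.κ k * (a.2.1 : ℤ) - (a.2.2.1 : ℤ) then sg (p.g a.2.2.2 k)
              else Int.sign ((h : ℤ) - (p.κ k * (a.2.1 : ℤ) - (a.2.2.1 : ℤ))))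
            else sg (c.g a.1 (c.src e'))
      | Sum.inr (Sum.inr b) => match c.edgeAt v b with
        | none => -1
        | some e' => if e' = a.1 then -1 else - sg (c.g a.1 (c.src e'))
    else sg (c.g a.1 v)

end Lines

/-! ### The step: items A1 - A10 -/

/-- A1 (combinatorial): the signs add up to zero. -/
def ClaimSum : Prop :=
  ∀ (c : Cfg) (p : Pat) (F J : ℕ), c.Good → p.Good → 1 ≤ F → ∀ a : NE c p F J,
    ∑ w, sgF c p F J a w = 0

/-- A1': the signs vanish exactly at the two ends of the new edge. -/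
def ClaimNe : Prop :=
  ∀ (c : Cfg) (p : Pat) (F J : ℕ), c.Good → p.Good → 1 ≤ F → ∀ a : NE c p F J,
    sgF c p F J a (nsrc c p F J a) = 0 ∧ sgF c p F J a (ntgt c p F J a) = 0 ∧
    ∀ w, w ≠ nsrc c p F J a → w ≠ ntgt c p F J a →
      (sgF c p F J a w = 1 ∨ sgF c p F J a w = -1)

/-- A2: vertices of the groups that do not belong to the edge. -/
def ClaimFar : Prop :=
  ∀ (c : Cfg) (p : Pat) (F J : ℕ), c.Good → p.Good → 1 ≤ F → ∀ (a : NE c p F J) (α β : ℝ),
    LineOK c p F J a α β → ∀ w : NV c p F J, w.1 ≠ c.src a.1 → w.1 ≠ c.tgt a.1 →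
      |(1 + c.lam * RR c p F J w) * gw c p F J a.1 α β w - c.g a.1 w.1| ≤
        1 / 2 * |c.g a.1 w.1|

/-- A2': points in the slots of other edges at the target of the edge. -/
def ClaimSlot : Prop :=
  ∀ (c : Cfg) (p : Pat) (F J : ℕ), c.Good → p.Good → 1 ≤ F → ∀ (a : NE c p F J) (α β : ℝ),
    LineOK c p F J a α β → ∀ (e' : c.E), e' ≠ a.1 → c.tgt e' = c.tgt a.1 →
      ∀ w : NV c p F J, w.1 = c.tgt a.1 →
      (w.2.1 = Sum.inr (Sum.inl (c.slot e')) ∨ w.2.1 = Sum.inr (Sum.inr (c.slot e'))) →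
      |(1 + c.lam * RR c p F J w) * gw c p F J a.1 α β w -
          c.lam * RR c p F J w * c.g a.1 (c.src e')| ≤
        1 / 2 * |c.lam * RR c p F J w * c.g a.1 (c.src e')|

/-- A3: the key identity for lattice points. -/
def ClaimOwn : Prop :=
  ∀ (c : Cfg) (p : Pat) (F J : ℕ), c.Good → p.Good → 1 ≤ F → ∀ (e : c.E) (α β : ℝ)
    (k : p.K) (h : IZ (HH p F J)),
      (1 + c.lam * Rk p F J k) *
        gw c p F J e α β (c.tgt e, Sum.inr (Sum.inl (c.slot e)), (k, h)) =
      Dl c F (c.tgt e) * th p F J * rk p F J k *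
        (((h : ℤ) + mu p F J * p.δ k) - (α * (p.κ k : ℝ) - β))

/-- A4: the remaining points of the groups of the two ends of the edge. -/
def ClaimNear : Prop :=
  ∀ (c : Cfg) (p : Pat) (F J : ℕ), c.Good → p.Good → 1 ≤ F → ∀ (a : NE c p F J) (α β : ℝ),
    LineOK c p F J a α β →
      (∀ (s : IZ F ⊕ (c.Q ⊕ c.Q)) (t : p.K × IZ (HH p F J)),
        0 < sgF c p F J a (c.src a.1, s, t) * gw c p F J a.1 α β (c.src a.1, s, t)) ∧
      (∀ (i : IZ F) (t : p.K × IZ (HH p F J)),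
        0 < sgF c p F J a (c.tgt a.1, Sum.inl i, t) *
          gw c p F J a.1 α β (c.tgt a.1, Sum.inl i, t)) ∧
      (∀ (b : c.Q) (t : p.K × IZ (HH p F J)), c.edgeAt (c.tgt a.1) b = none →
        0 < sgF c p F J a (c.tgt a.1, Sum.inr (Sum.inl b), t) *
          gw c p F J a.1 α β (c.tgt a.1, Sum.inr (Sum.inl b), t) ∧
        0 < sgF c p F J a (c.tgt a.1, Sum.inr (Sum.inr b), t) *
          gw c p F J a.1 α β (c.tgt a.1, Sum.inr (Sum.inr b), t)) ∧
      (∀ (t : p.K × IZ (HH p F J)),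
        gw c p F J a.1 α β (c.tgt a.1, Sum.inr (Sum.inr (c.slot a.1)), t) < 0)

/-- A5: the line through the two (vertically perturbed) ends of a new edge. -/
def ClaimLine : Prop :=
  ∀ (c : Cfg) (p : Pat) (F J : ℕ), c.Good → p.Good → 1 ≤ F → ∀ (a : NE c p F J) (tu tv : ℝ),
    |tu| ≤ nρ c p F J (nsrc c p F J a) → |tv| ≤ nρ c p F J (ntgt c p F J a) →
    ∃ α β, LineOK c p F J a α β ∧ ∀ w : NV c p F J,
      (step c p F J).g a w - tu * (step c p F J).ξ a w - tv * (1 - (step c p F J).ξ a w) =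
        gw c p F J a.1 α β w

/-- A6: the sign function is correct, with margin. -/
def ClaimSign : Prop :=
  ∀ (c : Cfg) (p : Pat) (F J : ℕ), c.Good → p.Good → 1 ≤ F → ∀ (a : NE c p F J) (α β : ℝ),
    LineOK c p F J a α β → ∀ w : NV c p F J, w ≠ nsrc c p F J a → w ≠ ntgt c p F J a →
      0 < sgF c p F J a w * gw c p F J a.1 α β w ∧
      nρ c p F J w ≤ sgF c p F J a w * gw c p F J a.1 α β w

/-- A7: balance and condition `R` of the step. -/
def ClaimBalR : Prop :=
  ∀ (c : Cfg) (p : Pat) (F J : ℕ), c.Good → p.Good → 1 ≤ F → ∀ a : NE c p F J,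
    (∑ w, sg ((step c p F J).g a w) = 0) ∧
    ∀ w : NV c p F J, w ≠ nsrc c p F J a → w ≠ ntgt c p F J a →
      nρ c p F J w + nρ c p F J (nsrc c p F J a) * |(step c p F J).ξ a w| +
        nρ c p F J (ntgt c p F J a) * |1 - (step c p F J).ξ a w| ≤ |(step c p F J).g a w|

/-- A8: condition `H` of the step. -/
def ClaimH : Prop :=
  ∀ (c : Cfg) (p : Pat) (F J : ℕ), c.Good → p.Good → 1 ≤ F → ∀ a a' : NE c p F J,
    ntgt c p F J a ≠ nsrc c p F J a' → ntgt c p F J a ≠ ntgt c p F J a' →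
      32 * lam' p F J * |(step c p F J).g a' (nsrc c p F J a)| ≤
        |(step c p F J).g a' (ntgt c p F J a)|

/-- A9: the remaining fields of `Good` for the step. -/
def ClaimMisc : Prop :=
  ∀ (c : Cfg) (p : Pat) (F J : ℕ), c.Good → p.Good → 1 ≤ F →
    (∀ v : NV c p F J, p.σ v.2.2.1 = 1 ∨ p.σ v.2.2.1 = -1) ∧
    (∑ v : NV c p F J, p.σ v.2.2.1 = 0) ∧
    (∀ a a' : NE c p F J, ntgt c p F J a = ntgt c p F J a' →
      (a.2.1, p.slot a.2.2.2) = (a'.2.1, p.slot a'.2.2.2) → a = a') ∧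
    (∀ a a' : NE c p F J, nsrc c p F J a = nsrc c p F J a' →
      ntgt c p F J a = ntgt c p F J a' → a = a') ∧
    (∀ a : NE c p F J, nx c p F J (nsrc c p F J a) ≠ nx c p F J (ntgt c p F J a)) ∧
    (∀ v, 0 ≤ nρ c p F J v) ∧ (∀ v, nρ c p F J v ≤ 1) ∧
    (∀ a : NE c p F J, 0 < nρ c p F J (nsrc c p F J a)) ∧
    (∀ a : NE c p F J, nρ c p F J (ntgt c p F J a) =
      lam' p F J * nρ c p F J (nsrc c p F J a))

/-- The step lemma. -/
def ClaimStep : Prop :=
  ∀ (c : Cfg) (p : Pat) (F J : ℕ), c.Good → p.Good → 1 ≤ F → (step c p F J).Good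

/-- Quantitative data of a configuration. -/
structure Cfg.Meas (c : Cfg) (D r B : ℝ) : Prop where
  D_le : ∀ e, D ≤ |c.x (c.src e) - c.x (c.tgt e)|
  r_le : ∀ e, r ≤ c.ρ (c.tgt e)
  x_le : ∀ v, |c.x v| ≤ B
  y_le : ∀ v, |c.y v| ≤ B

/-- A10: cardinalities and quantitative data of the step. -/
def ClaimMeas : Prop :=
  ∀ (c : Cfg) (p : Pat) (F J : ℕ), c.Good → p.Good → 1 ≤ F →
    Fintype.card (step c p F J).V = Fintype.card c.V * (2 * F + 1 + 2 * Fintype.card c.Q) *
      (Fintype.card p.K * (2 * HH p F J + 1)) ∧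
    Fintype.card (step c p F J).E = Fintype.card c.E * ((2 * F + 1) * (2 * J + 1)) *
      Fintype.card p.E ∧
    Fintype.card (step c p F J).Q = (2 * F + 1) * Fintype.card p.Q ∧
    1 / (2 ^ 19 * (HH p F J : ℝ) ^ 3) ≤ (step c p F J).lam ∧
    ∀ D r B : ℝ, 0 < D → 0 < r → 1 ≤ B → c.Meas D r B →
      (step c p F J).Meas (D * c.lam / (32 * (HH p F J : ℝ)))
        (r / (2 ^ 44 * (HH p F J : ℝ) ^ 8)) (2 * B)

/-! ### Iteration: items B1 - B8 -/

/-- B1: the basic configuration (two points, one edge). -/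
def ClaimBaseCfg : Prop :=
  ∃ c : Cfg, c.Good ∧ c.Meas 1 (1 / 32) 1 ∧ c.lam = 1 / 32 ∧ Fintype.card c.V = 2 ∧
    Fintype.card c.E = 1 ∧ Fintype.card c.Q = 1

/-- There is a good pattern with at most `2 ^ S` points, abscissas bounded by `2 ^ S`, in-degrees
at most `2 ^ Q` and at least `2 ^ G` edges per point. -/
def PatEx (S Q : ℕ) (G : ℝ) : Prop :=
  ∃ p : Pat, p.Good ∧ 0 < Fintype.card p.K ∧ 0 < Fintype.card p.Q ∧
    Fintype.card p.K ≤ 2 ^ S ∧ p.X ≤ 2 ^ S ∧ Fintype.card p.Q ≤ 2 ^ Q ∧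
    (2 : ℝ) ^ G * Fintype.card p.K ≤ Fintype.card p.E

/-- B1': the basic pattern, from eight points with nine halving lines: the points
`(-1, 0), (0, -1), (-4, 2), (-6, 3), (1, 3), (4, -6), (5, 5), (-2, 2)`, edges
`0→1, 5→1, 7→1, 0→2, 3→2, 7→2, 0→4, 6→4, 7→4`, with `κ = 8 x + 3`, `δ = y / 6`, `X = 45`. -/
def ClaimBasePat : Prop := PatEx 6 2 (1 / 6)

/-- B2: rounding a configuration to a pattern. -/
def ClaimRound : Prop :=
  ∀ c : Cfg, c.Good → 0 < Fintype.card c.V → ∀ D r B : ℝ, 0 < D → D ≤ 1 → 0 < r → r ≤ 1 →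
    1 ≤ B → c.Meas D r B →
    ∃ p : Pat, p.Good ∧ Fintype.card p.K = Fintype.card c.V ∧
      Fintype.card p.E = Fintype.card c.E ∧ Fintype.card p.Q = Fintype.card c.Q ∧
      (p.X : ℝ) ≤ 2 ^ 9 * Fintype.card c.V * B ^ 3 / (D ^ 2 * r)

/-- B3: iteration of the step with a fixed pattern. -/
def ClaimIter : Prop :=
  ∀ (p : Pat) (S Q : ℕ), p.Good → 1 ≤ S → 1 ≤ Q → 0 < Fintype.card p.K →
    0 < Fintype.card p.Q → Fintype.card p.K ≤ 2 ^ S → p.X ≤ 2 ^ S →
    Fintype.card p.Q ≤ 2 ^ Q → ∀ k : ℕ,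
    ∃ c : Cfg, c.Good ∧ 0 < Fintype.card c.V ∧ 0 < Fintype.card c.Q ∧
      Fintype.card c.Q ≤ 2 ^ (10 * Q * k) ∧
      Fintype.card c.V ≤ 2 ^ (1 + 30 * S * k + 10 * Q * k ^ 2) ∧
      1 / 2 ^ (67 * S + 30 * Q * k) ≤ c.lam ∧
      c.Meas (1 / 2 ^ (90 * S * k + 20 * Q * k ^ 2)) (1 / 2 ^ (5 + 170 * S * k + 40 * Q * k ^ 2))
        (2 ^ k) ∧
      (100 ^ (2 * k) : ℝ) * (Fintype.card p.E : ℝ) ^ k * Fintype.card c.V ≤
        2 * (101 ^ (2 * k) : ℝ) * (Fintype.card p.K : ℝ) ^ k * Fintype.card c.E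

/-- B4: one stage of the nesting. -/
def ClaimStage : Prop :=
  ∀ (S Q K : ℕ) (G : ℝ), 1 ≤ S → 1 ≤ Q → 1 ≤ K → PatEx S Q G →
    PatEx (500 * (S * K + Q * K ^ 2)) (10 * Q * K) (K * (G - 3 / 100) - 1)

/-- B5: many stages. -/
def ClaimTower : Prop :=
  ∀ r K : ℕ, 1 ≤ r → 100 ≤ K →
    PatEx (6 * 2000 ^ r * K ^ (r + 1)) (2 * (10 * K) ^ r) (((K : ℝ) / 10) ^ r)

/-- B6: patterns are realizable. -/
def ClaimReal : Prop :=
  ∀ p : Pat, p.Good → Realizable (Fintype.card p.K) (Fintype.card p.E) ∧ Even (Fintype.card p.K)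

/-- B7: the consequence for line arrangements. -/
def ClaimSparse2 : Prop :=
  ∀ r K : ℕ, 1 ≤ r → 100 ≤ K → ∃ n M : ℕ, Realizable n M ∧ Even n ∧ 0 < n ∧
    n ≤ 2 ^ (6 * 2000 ^ r * K ^ (r + 1)) ∧ (2 : ℝ) ^ (((K : ℝ) / 10) ^ r) * n ≤ M

/-- B8: the final statement. -/
def ClaimFinal2 : Prop :=
  ∃ C : ℝ, 0 < C ∧ ∃ n₀ : ℕ, ∀ n : ℕ, n₀ ≤ n → Even n →
    ∃ P : Finset (ℝ × ℝ), P.card = n ∧ GeneralPosition P ∧ (bisectors P).Finite ∧
      (n : ℝ) * Real.exp (Real.log n / Real.exp (C * Real.sqrt (Real.log (Real.log n)))) ≤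
        ((bisectors P).ncard : ℝ)

/-- B8': the corollary for every fixed exponent below `1`. -/
def ClaimFinalEps : Prop :=
  ∀ ε : ℝ, 0 < ε → ∃ n₀ : ℕ, ∀ n : ℕ, n₀ ≤ n → Even n →
    ∃ P : Finset (ℝ × ℝ), P.card = n ∧ GeneralPosition P ∧ (bisectors P).Finite ∧
      (n : ℝ) * Real.exp (Real.log n ^ (1 - ε)) ≤ ((bisectors P).ncard : ℝ)

end Pool.Agent.Work.MP_e17eac_co.NC

end
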