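import Pool.Agent.Work.MP_e17eac_co.Bd.B31
import Pool.Agent.Work.MP_e17eac_co.Bd.B29
import Pool.Agent.Work.MP_e17eac_co.Bd.B33
import Pool.Agent.Work.MP_e17eac_co.Bd.B25
import Pool.Agent.Work.MP_e17eac_co.B1.P_HYG
import Pool.Agent.Work.MP_e17eac_co.Bd.B23
import Pool.Agent.Work.MP_e17eac_co.Bd.B20
import Pool.Agent.Work.MP_e17eac_co.B6.Br4

/-! Bundle of small proof modules (one section per former module). -/

section

/-!
# Block B1: all statements are theorems
-/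

namespace Pool.Agent.Work.MP_e17eac_co.B1

open Pool.Agent.Work.MP_e17eac_co.DH

theorem TCell : StCell := I_CELL

theorem TCellTok : StCellTok := I_CTOK TCell

theorem TT2c : StT2c := I_T2C TCell TCellTok NF.t2I NF.t2J

theorem TDeyV : MX.StDeyV := MX.I_DeyV bDey bTok

theorem TFP : StFP := I_FP TCell TCellTok TDeyV

theorem TFL : StFL := I_FL TDeyV

theorem THyg : StHygCnt := I_HYG TCell TCellTok TT2c TFP TFL

theorem TTSmono : StTSmono := I_TSmono

theorem TTS1 : StTS1 := I_TS1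

theorem TTS2 : StTS2 := I_TS2

theorem TTS3 : StTS3 := I_TS3

theorem TX0 : StX0 := I_X0 bCrl

theorem TX1 : StX1 := I_X1 bCinj

theorem TX : StX := I_X TCellTok TX0 TX1

theorem TP2 : StP2 := I_P2 TCell TT2c TX

theorem TAV : StAV := I_AV

end Pool.Agent.Work.MP_e17eac_co.B1

end

section

/-!
# MP_e17eac_co, block B3: item COL
-/

set_option autoImplicit false

namespace Pool.Agent.Work.MP_e17eac_co.BB

theorem I3_COL : StColour := by
  intro Th _ X0 X1 σ hX
  by_cases h : ∀ x, X0 ≤ x → x + (Th 1 + 1) ≤ X1 →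
      ∃ x', σ x' = false ∧ x ≤ x' ∧ x' ≤ x + (Th 1 + 1)
  · exact ⟨false, Th 1 + 1, X0, X1, le_refl _, le_refl _, hX, le_refl _, h⟩
  · push Not at h
    obtain ⟨x, hx0, hx1, hx⟩ := h
    refine ⟨true, 1, x, x + (Th 1 + 1), by omega, hx0, by omega, hx1, fun y hy hy1 => ?_⟩
    refine ⟨y, ?_, le_refl _, by omega⟩
    cases hs : σ y with
    | true => rfl
    | false => have := hx y hs hy; omega

end Pool.Agent.Work.MP_e17eac_co.BB

end

section

/-!
# Item B3 COUNT: the lines of one class share labels on both sides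
-/

namespace Pool.Agent.Work.MP_e17eac_co.BB

open Finset
open Pool.Agent.Work.MP_e17eac_co.DH
open Pool.Agent.Work.MP_e17eac_co.B1

namespace X3COUNT

/-- A function which is determined by another one has fewer values. -/
theorem det {α β : Type} [DecidableEq α] [DecidableEq β] (S : Finset ℕ) (f : ℕ → α) (g : ℕ → β)
    (h : ∀ i ∈ S, ∀ j ∈ S, f i = f j → g i = g j) : (S.image g).card ≤ (S.image f).card := by
  classical
  have h1 : ∀ y ∈ S.image f, ∃ i ∈ S, f i = y := fun y hy => mem_image.1 hy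
  rcases S.eq_empty_or_nonempty with he | ⟨i0, _⟩
  · subst he
    simp
  choose! k hk hk' using h1
  have hs : S.image g ⊆ (S.image f).image (fun y => g (k y)) := by
    intro z hz
    obtain ⟨i, hi, rfl⟩ := mem_image.1 hz
    refine mem_image.2 ⟨f i, mem_image_of_mem f hi, ?_⟩
    exact h _ (hk _ (mem_image_of_mem f hi)) _ hi (hk' _ (mem_image_of_mem f hi))
  exact (card_le_card hs).trans card_image_le

/-- Cauchy-Schwarz: many pairs with common elements on both sides. -/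
theorem cs {ι : Type} [DecidableEq ι] (P1 : Finset ι) (l : Bool → ι → Finset ℕ)
    (X : Bool → Finset ℕ) (hX : ∀ s, ∀ p ∈ P1, l s p ⊆ X s) (A U V : ℝ) (hA : 0 ≤ A)
    (hAl : ∀ s, ∀ p ∈ P1, A ≤ ((l s p).card : ℝ)) (hU : ∀ s, ∀ p ∈ P1, ((l s p).card : ℝ) ≤ U)
    (hV : ∀ s, ((X s).card : ℝ) ≤ V) (G : Finset (ι × ι))
    (hG : ∀ p ∈ P1, ∀ q ∈ P1, (∀ s, (l s p ∩ l s q).Nonempty) → (p, q) ∈ G) :
    (P1.card : ℝ) ^ 2 * A ^ 4 ≤ V ^ 2 * (U ^ 2 * (G.card : ℝ)) := by
  classical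
  set T : ι → Finset (ℕ × ℕ) := fun p => l false p ×ˢ l true p with hT
  set XX : Finset (ℕ × ℕ) := X false ×ˢ X true with hXX
  have hTX : ∀ p ∈ P1, T p ⊆ XX := fun p hp => product_subset_product (hX false p hp) (hX true p hp)
  set f : ι → ℕ × ℕ → ℝ := fun p z => if z ∈ T p then 1 else 0 with hf
  have hsum1 : ∀ p ∈ P1, ∑ z ∈ XX, f p z = ((T p).card : ℝ) := by
    intro p hp
    simp only [hf]
    rw [sum_boole, filter_mem_eq_inter, inter_eq_right.2 (hTX p hp)]
  have hTc : ∀ p, ((T p).card : ℝ) = ((l false p).card : ℝ) * ((l true p).card : ℝ) := by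
    intro p
    simp only [hT, card_product, Nat.cast_mul]
  -- lower bound of the total
  have hlow : (P1.card : ℝ) * A ^ 2 ≤ ∑ z ∈ XX, ∑ p ∈ P1, f p z := by
    rw [sum_comm, sum_congr rfl hsum1, ← nsmul_eq_mul]
    apply card_nsmul_le_sum
    intro p hp
    rw [hTc p, sq]
    exact mul_le_mul (hAl false p hp) (hAl true p hp) hA (Nat.cast_nonneg _)
  have hcs := sq_sum_le_card_mul_sum_sq (s := XX) (f := fun z => ∑ p ∈ P1, f p z)
  have hXXc : ((XX.card : ℕ) : ℝ) ≤ V ^ 2 := by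
    simp only [hXX, card_product, Nat.cast_mul]
    rw [sq]
    exact mul_le_mul (hV false) (hV true) (Nat.cast_nonneg _)
      (le_trans (Nat.cast_nonneg _) (hV false))
  -- the second moment
  have hpair : ∀ p ∈ P1, ∀ q ∈ P1, ∑ z ∈ XX, f p z * f q z ≤
      if (p, q) ∈ G then U ^ 2 else 0 := by
    intro p hp q hq
    have h1 : ∑ z ∈ XX, f p z * f q z = ((XX.filter (fun z => z ∈ T p ∧ z ∈ T q)).card : ℝ) := by
      rw [← sum_boole]
      apply sum_congr rfl
      intro z _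
      simp only [hf]
      by_cases h1 : z ∈ T p
      · by_cases h2 : z ∈ T q
        · simp only [h1, h2, if_true, and_self, mul_one]
        · simp only [h1, h2, if_false, and_false, mul_zero]
      · simp only [h1, if_false, false_and, zero_mul]
    rw [h1]
    by_cases hgood : (p, q) ∈ G
    · rw [if_pos hgood]
      have h2 : (XX.filter (fun z => z ∈ T p ∧ z ∈ T q)).card ≤ (T p).card :=
        card_le_card (fun z hz => (mem_filter.1 hz).2.1)
      have h3 : ((XX.filter (fun z => z ∈ T p ∧ z ∈ T q)).card : ℝ) ≤ ((T p).card : ℝ) := by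
        exact_mod_cast h2
      refine h3.trans ?_
      rw [hTc p, sq]
      exact mul_le_mul (hU false p hp) (hU true p hp) (Nat.cast_nonneg _)
        (le_trans (Nat.cast_nonneg _) (hU false p hp))
    · rw [if_neg hgood]
      have h2 : XX.filter (fun z => z ∈ T p ∧ z ∈ T q) = ∅ := by
        rw [filter_eq_empty_iff]
        rintro ⟨z0, z1⟩ _ ⟨h1, h2⟩
        apply hgood
        apply hG p hp q hq
        simp only [hT, mem_product] at h1 h2
        intro s
        cases s with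
        | false => exact ⟨z0, mem_inter.2 ⟨h1.1, h2.1⟩⟩
        | true => exact ⟨z1, mem_inter.2 ⟨h1.2, h2.2⟩⟩
      rw [h2]
      simp
  have hsec : ∑ z ∈ XX, (∑ p ∈ P1, f p z) ^ 2 ≤ U ^ 2 * (G.card : ℝ) := by
    have h1 : ∑ z ∈ XX, (∑ p ∈ P1, f p z) ^ 2 =
        ∑ p ∈ P1, ∑ q ∈ P1, ∑ z ∈ XX, f p z * f q z := by
      have h2 : ∀ z ∈ XX, (∑ p ∈ P1, f p z) ^ 2 = ∑ p ∈ P1, ∑ q ∈ P1, f p z * f q z := by
        intro z _
        rw [sq, sum_mul_sum]
      rw [sum_congr rfl h2, sum_comm]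
      apply sum_congr rfl
      intro p _
      rw [sum_comm]
    rw [h1]
    calc _ ≤ ∑ p ∈ P1, ∑ q ∈ P1, (if (p, q) ∈ G then U ^ 2 else 0) :=
          sum_le_sum (fun p hp => sum_le_sum (fun q hq => hpair p hp q hq))
      _ = ∑ z ∈ P1 ×ˢ P1, (if z ∈ G then U ^ 2 else 0) := by
          rw [sum_product]
      _ = (((P1 ×ˢ P1).filter (fun z => z ∈ G)).card : ℝ) * U ^ 2 := by
          rw [← sum_filter, sum_const, nsmul_eq_mul]
      _ ≤ (G.card : ℝ) * U ^ 2 := by
          apply mul_le_mul_of_nonneg_right _ (by positivity)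
          exact_mod_cast card_le_card (fun z hz => (mem_filter.1 hz).2)
      _ = _ := by ring
  have h1 : ((P1.card : ℝ) * A ^ 2) ^ 2 ≤ (∑ z ∈ XX, ∑ p ∈ P1, f p z) ^ 2 :=
    pow_le_pow_left₀ (by positivity) hlow 2
  calc (P1.card : ℝ) ^ 2 * A ^ 4 = ((P1.card : ℝ) * A ^ 2) ^ 2 := by ring
    _ ≤ _ := h1
    _ ≤ _ := hcs
    _ ≤ V ^ 2 * (U ^ 2 * (G.card : ℝ)) :=
        mul_le_mul hXXc hsec (sum_nonneg (fun _ _ => sq_nonneg _)) (by positivity)

variable {ι : Type} [Fintype ι] [DecidableEq ι]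

theorem cell_lt (K : KSys ι) (r x i : ℕ) (hr : 1 ≤ r) (hi : i < K.N) :
    cell K r x i < r ^ (4 * x) := by
  unfold cell
  apply Nat.div_lt_of_lt_mul
  exact Nat.mul_lt_mul_of_pos_right hi (Nat.pow_pos (by omega))

/-- Few labels at a line. -/
theorem labs_le (K : KSys ι) (r m x : ℕ) (D s0 e0 H : ℝ) (L : Lab) (E F : Finset ℕ)
    (hL : LabOK K r m D s0 e0 L E) (hF : F ⊆ E) (hr : 1 ≤ r) (hx : 1 ≤ x) (hxm : x ≤ m) (p : ι)
    (hp : p ∈ PS K r m H) : ((labs K L F x p).card : ℝ) ≤ H * (r : ℝ) ^ x := by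
  have h1 : (labs K L F x p).card ≤ ((F.filter (fun i => K.a i = p)).image (cell K r x)).card := by
    unfold labs
    apply det
    intro i hi j hj hij
    obtain ⟨hi, hi'⟩ := mem_filter.1 hi
    obtain ⟨hj, hj'⟩ := mem_filter.1 hj
    exact hL.line x hx hxm i (hF hi) j (hF hj) (hi'.trans hj'.symm) hij
  have h2 : ((F.filter (fun i => K.a i = p)).image (cell K r x)).card ≤ W K r x p := by
    unfold W
    apply card_le_card
    intro c hc
    obtain ⟨i, hi, rfl⟩ := mem_image.1 hc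
    obtain ⟨hi, hip⟩ := mem_filter.1 hi
    have hiN := hL.lt i (hF hi)
    refine mem_filter.2 ⟨mem_range.2 (cell_lt K r x i hr hiN), ?_⟩
    unfold vis KSys.lines
    refine mem_union_left _ (mem_image.2 ⟨i, ?_, hip⟩)
    unfold ce
    exact mem_filter.2 ⟨mem_range.2 hiN, rfl⟩
  have h3 : (W K r x p : ℝ) ≤ H * (r : ℝ) ^ x := (mem_filter.1 hp).2 x hxm
  have h4 : ((labs K L F x p).card : ℝ) ≤ (W K r x p : ℝ) := by exact_mod_cast h1.trans h2
  exact h4.trans h3

/-- Many labels at a line. -/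
theorem labs_ge (K : KSys ι) (r m x : ℕ) (D s0 e0 H : ℝ) (L : Lab) (E F : Finset ℕ)
    (hL : LabOK K r m D s0 e0 L E) (hF : F ⊆ E) (hx : 1 ≤ x) (hxm : x ≤ m)
    (hHyg : ∀ i ∈ E, Hyg K r m H i) (hN : 0 < K.N) (hD : 0 ≤ D) (hH : H ≤ D) (p : ι)
    (hp : (K.N : ℝ) ≤ D ^ 4 * Fintype.card ι * ((F.filter (fun i => K.a i = p)).card : ℝ)) :
    (r : ℝ) ^ x ≤ D ^ 5 * ((labs K L F x p).card : ℝ) := by
  set S := F.filter (fun i => K.a i = p) with hS
  have h1 : (S.image (cell K r x)).card ≤ (labs K L F x p).card := by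
    unfold labs
    apply det
    intro i hi j hj hij
    obtain ⟨hi, _⟩ := mem_filter.1 hi
    obtain ⟨hj, _⟩ := mem_filter.1 hj
    exact (hL.leq x hx hxm i (hF hi) j (hF hj) hij).1
  have hNr : (0 : ℝ) < K.N := by exact_mod_cast hN
  have h2 : (S.card : ℝ) * (Fintype.card ι * (r : ℝ) ^ x) ≤
      ((S.image (cell K r x)).card : ℝ) * (H * K.N) := by
    have hc := card_eq_sum_card_image (cell K r x) S
    have hc' : (S.card : ℝ) = ∑ c ∈ S.image (cell K r x),
        ((S.filter (fun i => cell K r x i = c)).card : ℝ) := by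
      rw [hc]
      push_cast
      rfl
    rw [hc', sum_mul, ← nsmul_eq_mul (S.image (cell K r x)).card (H * (K.N : ℝ))]
    apply sum_le_card_nsmul
    intro c hc
    obtain ⟨i, hi, rfl⟩ := mem_image.1 hc
    have hi2 := mem_filter.1 hi
    have h3 := (hHyg i (hF hi2.1)).light false x hxm
    refine le_trans (mul_le_mul_of_nonneg_right ?_ (by positivity)) h3
    have h4 : (S.filter (fun j => cell K r x j = cell K r x i)).card ≤
        ((range K.N).filter (fun j => K.ln false j = K.ln false i ∧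
          cell K r x j = cell K r x i)).card := by
      apply card_le_card
      intro j hj
      obtain ⟨hj, hj'⟩ := mem_filter.1 hj
      obtain ⟨hj, hjp⟩ := mem_filter.1 hj
      refine mem_filter.2 ⟨mem_range.2 (hL.lt j (hF hj)), ?_, hj'⟩
      change K.a j = K.a i
      rw [hjp, hi2.2]
    exact_mod_cast h4
  have hc0 : (0 : ℝ) ≤ ((S.image (cell K r x)).card : ℝ) := Nat.cast_nonneg _
  have h3 : (K.N : ℝ) * (r : ℝ) ^ x ≤ (K.N : ℝ) * (D ^ 5 * ((S.image (cell K r x)).card : ℝ)) := by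
    calc (K.N : ℝ) * (r : ℝ) ^ x ≤ (D ^ 4 * Fintype.card ι * (S.card : ℝ)) * (r : ℝ) ^ x :=
          mul_le_mul_of_nonneg_right hp (by positivity)
      _ = D ^ 4 * ((S.card : ℝ) * (Fintype.card ι * (r : ℝ) ^ x)) := by ring
      _ ≤ D ^ 4 * (((S.image (cell K r x)).card : ℝ) * (H * K.N)) :=
          mul_le_mul_of_nonneg_left h2 (by positivity)
      _ ≤ D ^ 4 * (((S.image (cell K r x)).card : ℝ) * (D * K.N)) := by
          apply mul_le_mul_of_nonneg_left _ (by positivity)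
          apply mul_le_mul_of_nonneg_left _ hc0
          exact mul_le_mul_of_nonneg_right hH hNr.le
      _ = _ := by ring
  have h4 := le_of_mul_le_mul_left h3 hNr
  refine h4.trans (mul_le_mul_of_nonneg_left ?_ (by positivity))
  exact_mod_cast h1

/-- Few labels of a class. -/
theorem class_le (K : KSys ι) (r m x : ℕ) (D s0 e0 : ℝ) (L : Lab) (E : Finset ℕ) (κ : ι → ℕ)
    (S : Finset ι) (hL : LabOK K r m D s0 e0 L E) (hh : HashOK K r D S x κ E) (hx : 1 ≤ x)
    (hxm : x ≤ m) (hD : 0 ≤ D) (B : ℕ) :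
    (((E.filter (fun i => κ (K.a i) = B)).image (L.lab x)).card : ℝ) ≤
      D ^ 2 * (r : ℝ) ^ x := by
  set Q := E.filter (fun i => κ (K.a i) = B) with hQ
  have h1 : Q.image (L.lab x) ⊆ (Q.image (cell K r x)).biUnion
      (fun c => (E.filter (fun i => cell K r x i = c)).image (L.lab x)) := by
    intro y hy
    obtain ⟨i, hi, rfl⟩ := mem_image.1 hy
    refine mem_biUnion.2 ⟨cell K r x i, mem_image_of_mem _ hi, mem_image.2 ⟨i, ?_, rfl⟩⟩
    exact mem_filter.2 ⟨(mem_filter.1 hi).1, rfl⟩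
  have h2 : ((Q.image (L.lab x)).card : ℝ) ≤ ∑ c ∈ Q.image (cell K r x),
      (((E.filter (fun i => cell K r x i = c)).image (L.lab x)).card : ℝ) := by
    exact_mod_cast (card_le_card h1).trans card_biUnion_le
  have h3 : ∑ c ∈ Q.image (cell K r x),
      (((E.filter (fun i => cell K r x i = c)).image (L.lab x)).card : ℝ) ≤
      ((Q.image (cell K r x)).card : ℝ) * D := by
    rw [← nsmul_eq_mul]
    exact sum_le_card_nsmul _ _ _ (fun c _ => hL.few x hx hxm c)
  have h4 := hh.act B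
  calc ((Q.image (L.lab x)).card : ℝ) ≤ ((Q.image (cell K r x)).card : ℝ) * D := h2.trans h3
    _ ≤ (D * (r : ℝ) ^ x) * D := mul_le_mul_of_nonneg_right h4 hD
    _ = _ := by ring

end X3COUNT

open X3COUNT in
theorem I3_COUNT : StCount := by
  refine ⟨26, ?_⟩
  intro ι _ _ K r m H D s0 s1 s2 e0 L κ e X0 X1 P E hBig hTwo x hx0 hx1 F hF B P1 hP1 hp1
  have hx : 1 ≤ x := le_trans hTwo.lev.1 hx0
  have hxm : x ≤ m := le_trans hx1 hTwo.lev.2
  have hr2 : 2 ≤ r := hBig.std.two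
  have hr1 : 1 ≤ r := by omega
  have hN : 0 < K.N := lt_of_lt_of_le (Nat.pow_pos (by omega)) hBig.std.pow
  have hD2 : (2 : ℝ) ≤ D := hBig.D2
  have hD0 : (0 : ℝ) < D := by linarith
  have hr0 : (0 : ℝ) < r := by exact_mod_cast hr1
  have hcs := cs P1 (fun s p => labs K L (F s) x p)
    (fun s => ((E s).filter (fun i => κ x (K.a i) = B)).image (L.lab x)) ?_
    ((r : ℝ) ^ x / D ^ 5) (D * (r : ℝ) ^ x) (D ^ 2 * (r : ℝ) ^ x) (by positivity) ?_ ?_ ?_
    ((P1 ×ˢ P1).filter (fun z => ∀ s, (labs K L (F s) x z.1 ∩ labs K L (F s) x z.2).Nonempty)) ?_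
  · have h1 : (P1.card : ℝ) ^ 2 * ((r : ℝ) ^ x / D ^ 5) ^ 4 =
        (((r : ℝ) ^ x) ^ 4 / D ^ 20) * (P1.card : ℝ) ^ 2 := by
      rw [div_pow, ← pow_mul]
      ring
    set G : ℝ := (((P1 ×ˢ P1).filter (fun z => ∀ s,
      (labs K L (F s) x z.1 ∩ labs K L (F s) x z.2).Nonempty)).card : ℝ) with hG
    have h2 : (D ^ 2 * (r : ℝ) ^ x) ^ 2 * ((D * (r : ℝ) ^ x) ^ 2 * G) =
        (((r : ℝ) ^ x) ^ 4 / D ^ 20) * (D ^ 26 * G) := by
      field_simp
    rw [h1, h2] at hcs
    exact le_of_mul_le_mul_left hcs (by positivity)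
  · intro s p hp y hy
    obtain ⟨i, hi, rfl⟩ := mem_image.1 hy
    obtain ⟨hi, hip⟩ := mem_filter.1 hi
    refine mem_image.2 ⟨i, mem_filter.2 ⟨hF s hi, ?_⟩, rfl⟩
    rw [hip]
    exact (hp1 p hp).1
  · intro s p hp
    rw [div_le_iff₀ (by positivity)]
    have := labs_ge K r m x D s0 e0 H L (E s) (F s) (hTwo.lab s) (hF s) hx hxm
      (hTwo.ts.hyg s) hN hD0.le hBig.HD p ((hp1 p hp).2 s)
    linarith [mul_comm (D ^ 5) ((labs K L (F s) x p).card : ℝ)]
  · intro s p hp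
    have h1 := labs_le K r m x D s0 e0 H L (E s) (F s) (hTwo.lab s) (hF s) hr1 hx hxm p
      (hTwo.ts.sub (hP1 hp))
    exact h1.trans (mul_le_mul_of_nonneg_right hBig.HD (by positivity))
  · intro s
    exact class_le K r m x D s0 e0 L (E s) (κ x) (PS K r m H) (hTwo.lab s)
      (hTwo.hash x hx0 hx1 s) hx hxm hD0.le B
  · intro p hp q hq h
    exact mem_filter.2 ⟨mem_product.2 ⟨hp, hq⟩, h⟩

end Pool.Agent.Work.MP_e17eac_co.BB

end

section

namespace Pool.Agent.Work.MP_e17eac_co.BB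

open Finset
open Pool.Agent.Work.MP_e17eac_co.DH
open Pool.Agent.Work.MP_e17eac_co.B1

/-- the geometry of `dist0` -/
theorem I3_DIST : StDist := by
  intro ι _ _ K s0 e0 hse
  refine ⟨?_, ?_, ?_, ?_, ?_, ?_⟩
  · intro p q
    exact le_trans (abs_nonneg _) (le_max_left _ _)
  · intro p
    simp [dist0]
  · intro p q
    unfold dist0
    rw [abs_sub_comm (K.ht p s0), abs_sub_comm (K.ht p e0)]
  · intro p q u
    unfold dist0
    apply max_le
    · calc |K.ht p s0 - K.ht u s0| ≤ |K.ht p s0 - K.ht q s0| + |K.ht q s0 - K.ht u s0| :=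
            abs_sub_le _ _ _
        _ ≤ _ := add_le_add (le_max_left _ _) (le_max_left _ _)
    · calc |K.ht p e0 - K.ht u e0| ≤ |K.ht p e0 - K.ht q e0| + |K.ht q e0 - K.ht u e0| :=
            abs_sub_le _ _ _
        _ ≤ _ := add_le_add (le_max_right _ _) (le_max_right _ _)
  · intro hinj p q hpq
    unfold dist0
    by_contra hcon
    push Not at hcon
    have h1 : |K.ht p s0 - K.ht q s0| ≤ 0 := le_trans (le_max_left _ _) hcon
    have h2 : |K.ht p e0 - K.ht q e0| ≤ 0 := le_trans (le_max_right _ _) hcon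
    have h3 := abs_nonpos_iff.1 h1
    have h4 := abs_nonpos_iff.1 h2
    apply hpq
    apply hinj
    unfold KSys.ht at h3 h4
    have h5 : (K.x p - K.x q) * (e0 - s0) = 0 := by linarith
    rcases mul_eq_zero.1 h5 with h6 | h6
    · linarith
    · linarith
  · intro p q t ht0 ht1
    unfold dist0
    -- convex combination
    set A := K.ht p s0 - K.ht q s0 with hA
    set B := K.ht p e0 - K.ht q e0 with hB
    have hM1 : |A| ≤ max |A| |B| := le_max_left _ _
    have hM2 : |B| ≤ max |A| |B| := le_max_right _ _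
    have h1 := abs_le.1 hM1
    have h2 := abs_le.1 hM2
    have hkey : (K.ht p t - K.ht q t) * (e0 - s0) = A * (e0 - t) + B * (t - s0) := by
      rw [hA, hB]; unfold KSys.ht; ring
    have hpos : 0 < e0 - s0 := by linarith
    have h3 : 0 ≤ e0 - t := by linarith
    have h4 : 0 ≤ t - s0 := by linarith
    rw [abs_le]
    constructor
    · have : -(max |A| |B|) * (e0 - s0) ≤ (K.ht p t - K.ht q t) * (e0 - s0) := by
        rw [hkey]
        have e1 := mul_le_mul_of_nonneg_right h1.1 h3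
        have e2 := mul_le_mul_of_nonneg_right h2.1 h4
        nlinarith
      exact le_of_mul_le_mul_right this hpos
    · have : (K.ht p t - K.ht q t) * (e0 - s0) ≤ (max |A| |B|) * (e0 - s0) := by
        rw [hkey]
        have e1 := mul_le_mul_of_nonneg_right h1.2 h3
        have e2 := mul_le_mul_of_nonneg_right h2.2 h4
        nlinarith
      exact le_of_mul_le_mul_right this hpos

end Pool.Agent.Work.MP_e17eac_co.BB

end

section

namespace Pool.Agent.Work.MP_e17eac_co.BB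

open Finset
open Pool.Agent.Work.MP_e17eac_co.DH
open Pool.Agent.Work.MP_e17eac_co.B1

theorem I3_PSBIG : StPSbig := by
  intro ι _ _ K r m H D P E hn hD hr hTS j hj
  have hbig := hTS.big
  have hn' : (0 : ℝ) < (Fintype.card ι : ℝ) := by exact_mod_cast hn
  have hP0 : P.card ≠ 0 := by
    intro h
    rw [h, Nat.cast_zero, mul_zero] at hbig
    linarith
  have hP1 : (0 : ℝ) < (P.card : ℝ) := by exact_mod_cast Nat.pos_of_ne_zero hP0
  have hsub : (P.card : ℝ) ≤ ((PS K r m H).card : ℝ) := by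
    exact_mod_cast Finset.card_le_card hTS.sub
  have hr1 : (1 : ℝ) ≤ (r : ℝ) := by exact_mod_cast hr
  have hrj : (r : ℝ) ≤ (r : ℝ) ^ j := by
    calc (r : ℝ) = (r : ℝ) ^ 1 := (pow_one _).symm
      _ ≤ (r : ℝ) ^ j := pow_le_pow_right₀ hr1 hj
  have h1 : (Fintype.card ι : ℝ) < ((PS K r m H).card : ℝ) * (r : ℝ) ^ j := by
    calc (Fintype.card ι : ℝ) ≤ D * P.card := hbig
      _ < (r : ℝ) * P.card := by exact mul_lt_mul_of_pos_right hD hP1
      _ ≤ (r : ℝ) ^ j * ((PS K r m H).card : ℝ) := by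
          apply mul_le_mul hrj hsub hP1.le
          positivity
      _ = ((PS K r m H).card : ℝ) * (r : ℝ) ^ j := mul_comm _ _
  exact_mod_cast h1

end Pool.Agent.Work.MP_e17eac_co.BB

end

section

/-!
# Item RAD: properties of the mass radius
-/

set_option autoImplicit false

namespace Pool.Agent.Work.MP_e17eac_co.BB

open Finset
open Pool.Agent.Work.MP_e17eac_co.DH
open Pool.Agent.Work.MP_e17eac_co.B1

namespace X3RAD

theorem lt_ex {α : Type} [DecidableEq α] (T : Finset α) (d : α → ℝ) (R : ℝ)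
    (h : ∀ q ∈ T, d q < R) : ∃ ρ, ρ < R ∧ ∀ q ∈ T, d q < ρ := by
  induction T using Finset.induction_on with
  | empty => exact ⟨R - 1, by linarith, fun q hq => absurd hq (Finset.notMem_empty q)⟩
  | insert a T _ ih =>
    obtain ⟨ρ, h1, h2⟩ := ih (fun q hq => h q (Finset.mem_insert_of_mem hq))
    have ha := h a (Finset.mem_insert_self a T)
    refine ⟨max ρ ((d a + R) / 2), max_lt h1 (by linarith), ?_⟩
    intro q hq
    rcases Finset.mem_insert.1 hq with rfl | hq
    · exact lt_of_lt_of_le (by linarith) (le_max_right _ _)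
    · exact lt_of_lt_of_le (h2 q hq) (le_max_left _ _)

theorem pos_ex {α : Type} [DecidableEq α] (T : Finset α) (d : α → ℝ)
    (h : ∀ q ∈ T, 0 < d q) : ∃ ρ, 0 < ρ ∧ ∀ q ∈ T, ρ ≤ d q := by
  induction T using Finset.induction_on with
  | empty => exact ⟨1, one_pos, fun q hq => absurd hq (Finset.notMem_empty q)⟩
  | insert a T _ ih =>
    obtain ⟨ρ, h1, h2⟩ := ih (fun q hq => h q (Finset.mem_insert_of_mem hq))
    have ha := h a (Finset.mem_insert_self a T)
    refine ⟨min ρ (d a), lt_min h1 ha, ?_⟩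
    intro q hq
    rcases Finset.mem_insert.1 hq with rfl | hq
    · exact min_le_right _ _
    · exact (min_le_left _ _).trans (h2 q hq)

variable {ι : Type} [Fintype ι] [DecidableEq ι]

theorem mass_mono (K : KSys ι) (S : Finset ι) (s0 e0 : ℝ) (p : ι) {ρ ρ' : ℝ} (h : ρ ≤ ρ') :
    mass K S s0 e0 p ρ ≤ mass K S s0 e0 p ρ' := by
  unfold mass
  apply Finset.card_le_card
  intro q hq
  rw [Finset.mem_filter] at hq ⊢
  exact ⟨hq.1, lt_of_lt_of_le hq.2 h⟩

/-- The set whose supremum is the radius. -/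
def AA (K : KSys ι) (S : Finset ι) (s0 e0 : ℝ) (r j : ℕ) (p : ι) : Set ℝ :=
  {ρ : ℝ | (mass K S s0 e0 p ρ : ℝ) * (r : ℝ) ^ j ≤ Fintype.card ι}

theorem mem_AA {K : KSys ι} {S : Finset ι} {s0 e0 : ℝ} {r j : ℕ} {p : ι} {ρ : ℝ} :
    ρ ∈ AA K S s0 e0 r j p ↔ mass K S s0 e0 p ρ * r ^ j ≤ Fintype.card ι := by
  unfold AA
  rw [Set.mem_ofPred_eq]
  constructor
  · intro h
    exact_mod_cast h
  · intro h
    exact_mod_cast h

theorem down {K : KSys ι} {S : Finset ι} {s0 e0 : ℝ} {r j : ℕ} {p : ι} {ρ ρ' : ℝ}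
    (h : ρ ≤ ρ') (h' : ρ' ∈ AA K S s0 e0 r j p) : ρ ∈ AA K S s0 e0 r j p := by
  rw [mem_AA] at h' ⊢
  exact (Nat.mul_le_mul_right _ (mass_mono K S s0 e0 p h)).trans h'

theorem zero_mem {K : KSys ι} {S : Finset ι} {s0 e0 : ℝ} {r j : ℕ} {p : ι}
    (hd : ∀ p q, 0 ≤ dist0 K s0 e0 p q) : (0 : ℝ) ∈ AA K S s0 e0 r j p := by
  rw [mem_AA]
  have : mass K S s0 e0 p 0 = 0 := by
    unfold mass
    rw [Finset.card_eq_zero, Finset.filter_eq_empty_iff]
    intro q _ hq
    exact absurd hq (not_lt.2 (hd p q))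
  rw [this, Nat.zero_mul]
  exact Nat.zero_le _

theorem bdd {K : KSys ι} {S : Finset ι} {s0 e0 : ℝ} {r j : ℕ} {p : ι}
    (hc : Fintype.card ι < S.card * r ^ j) : BddAbove (AA K S s0 e0 r j p) := by
  have hM : ∃ M : ℝ, ∀ q ∈ S, dist0 K s0 e0 p q < M := by
    refine ⟨∑ q ∈ S, |dist0 K s0 e0 p q| + 1, ?_⟩
    intro q hq
    have h1 : |dist0 K s0 e0 p q| ≤ ∑ q ∈ S, |dist0 K s0 e0 p q| :=
      Finset.single_le_sum (f := fun q => |dist0 K s0 e0 p q|) (fun q _ => abs_nonneg _) hq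
    have h2 := le_abs_self (dist0 K s0 e0 p q)
    linarith
  obtain ⟨M, hM⟩ := hM
  refine ⟨M, ?_⟩
  intro ρ hρ
  by_contra hlt
  rw [not_le] at hlt
  have h1 := down hlt.le hρ
  rw [mem_AA] at h1
  have h2 : mass K S s0 e0 p M = S.card := by
    unfold mass
    rw [Finset.filter_true_of_mem hM]
  rw [h2] at h1
  exact absurd hc (not_lt.2 h1)

theorem sup_mem {K : KSys ι} {S : Finset ι} {s0 e0 : ℝ} {r j : ℕ} {p : ι}
    (hd : ∀ p q, 0 ≤ dist0 K s0 e0 p q) (_hc : Fintype.card ι < S.card * r ^ j) :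
    rad K S s0 e0 r j p ∈ AA K S s0 e0 r j p := by
  classical
  obtain ⟨ρ, h1, h2⟩ := lt_ex (S.filter (fun q => dist0 K s0 e0 p q < rad K S s0 e0 r j p))
    (fun q => dist0 K s0 e0 p q) (rad K S s0 e0 r j p)
    (fun q hq => (Finset.mem_filter.1 hq).2)
  have h3 : ∃ a ∈ AA K S s0 e0 r j p, ρ < a :=
    exists_lt_of_lt_csSup ⟨0, zero_mem hd⟩ h1
  obtain ⟨a, ha, hρa⟩ := h3
  rw [mem_AA] at ha ⊢
  refine le_trans (Nat.mul_le_mul_right _ ?_) ha
  unfold mass
  apply Finset.card_le_card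
  intro q hq
  have h4 := h2 q hq
  rw [Finset.mem_filter] at hq ⊢
  exact ⟨hq.1, h4.trans hρa⟩

end X3RAD

open X3RAD in
/-- Properties of the mass radius. -/
theorem I3_RAD (hDist : StDist) : StRad := by
  classical
  intro ι _ _ K S s0 e0 r hse hr j hc
  obtain ⟨d1, d2, d3, d4, d5, d6⟩ := hDist ι K s0 e0 hse
  have hb : ∀ p, BddAbove (AA K S s0 e0 r j p) := fun p => bdd hc
  have hm : ∀ p, rad K S s0 e0 r j p ∈ AA K S s0 e0 r j p := fun p => sup_mem d1 hc
  have hle : ∀ p ρ, ρ ∈ AA K S s0 e0 r j p → ρ ≤ rad K S s0 e0 r j p := fun p ρ h =>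
    le_csSup (hb p) h
  refine ⟨?_, ?_, ?_, ?_, ?_, ?_⟩
  · intro p
    exact hle p 0 (zero_mem d1)
  · intro p ρ hρ
    exact mem_AA.1 (down hρ (hm p))
  · intro p ρ hρ
    by_contra h
    rw [not_lt] at h
    exact absurd (hle p ρ (mem_AA.2 h)) (not_le.2 hρ)
  · intro j' hj p
    apply csSup_le_csSup (hb p) ⟨0, zero_mem (j := j') d1⟩
    intro ρ hρ
    have h1 : ρ ∈ AA K S s0 e0 r j' p := hρ
    show ρ ∈ AA K S s0 e0 r j p
    rw [mem_AA] at h1 ⊢
    exact (Nat.mul_le_mul_left _ (Nat.pow_le_pow_right hr hj)).trans h1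
  · intro p q
    have h1 : rad K S s0 e0 r j p - dist0 K s0 e0 p q ∈ AA K S s0 e0 r j q := by
      have h2 := mem_AA.1 (hm p)
      rw [mem_AA]
      refine le_trans (Nat.mul_le_mul_right _ ?_) h2
      unfold mass
      apply Finset.card_le_card
      intro u hu
      rw [Finset.mem_filter] at hu ⊢
      refine ⟨hu.1, ?_⟩
      have h3 := d4 p q u
      linarith [hu.2]
    have h4 := hle q _ h1
    linarith
  · intro hinj hrj p
    obtain ⟨ρ, h1, h2⟩ := pos_ex (S.filter (fun q => q ≠ p)) (fun q => dist0 K s0 e0 p q)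
      (fun q hq => d5 hinj p q (Ne.symm (Finset.mem_filter.1 hq).2))
    have h3 : ρ ∈ AA K S s0 e0 r j p := by
      rw [mem_AA]
      have h4 : mass K S s0 e0 p ρ ≤ 1 := by
        unfold mass
        rw [← Finset.card_singleton p]
        apply Finset.card_le_card
        intro q hq
        rw [Finset.mem_filter] at hq
        rw [Finset.mem_singleton]
        by_contra hne
        exact absurd hq.2 (not_lt.2 (h2 q (Finset.mem_filter.2 ⟨hq.1, hne⟩)))
      calc mass K S s0 e0 p ρ * r ^ j ≤ 1 * r ^ j := Nat.mul_le_mul_right _ h4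
        _ = r ^ j := Nat.one_mul _
        _ ≤ _ := hrj
    exact lt_of_lt_of_le h1 (hle p ρ h3)

end Pool.Agent.Work.MP_e17eac_co.BB

end

section

/-!
# Item SHARE: two lines sharing labels on both sides are close
-/

set_option autoImplicit false

namespace Pool.Agent.Work.MP_e17eac_co.BB

open Finset
open Pool.Agent.Work.MP_e17eac_co.DH
open Pool.Agent.Work.MP_e17eac_co.B1

theorem I3_SHARE (hTwo : StTwoPt) : StShare := by
  intro ι _ _ K r m H D s0 s1 s2 e0 L κ e X0 X1 P E hD hT x hx hxm M i i' j j' hi hi' hj hj' ha ha'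
    hl hl' hM hM'
  have hLf := hT.lab false
  have hLt := hT.lab true
  obtain ⟨h1, h2, h3, h4, h5⟩ := hLf.hull x hx hxm i hi
  obtain ⟨g1, g2, g3, g4, g5⟩ := hLt.hull x hx hxm j hj
  have hleft := hT.left x hx hxm i hi
  have hright := hT.right x hx hxm j hj
  have c1 := (hLf.con x hx hxm i hi i' hi' hl).1
  have c2 := (hLt.con x hx hxm j hj j' hj' hl').2
  have p1 := hLf.pos x hx hxm i hi
  have hM0 : 0 < M := p1.trans_le hM
  have hD0 : 0 < D := by linarith
  rw [← ha, ← ha'] at c2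
  have key := hTwo ι K s0 e0 D (D * M) (L.h0 x i) (L.h1 x j) hLf.base (by linarith) (by positivity)
    h1 g3 (hT.gap.trans (mul_le_mul_of_nonneg_left (by linarith) hD0.le)) (K.a i) (K.a i')
    (c1.trans (mul_le_mul_of_nonneg_left hM hD0.le))
    (c2.trans (mul_le_mul_of_nonneg_left hM' hD0.le))
  calc dist0 K s0 e0 (K.a i) (K.a i') ≤ 3 * D * (D * M) := key
    _ = 3 * D ^ 2 * M := by ring

end Pool.Agent.Work.MP_e17eac_co.BB

end

section

/-!
# B-3, item SIDE: the popular colouring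
-/

namespace Pool.Agent.Work.MP_e17eac_co.BB

open Finset
open Pool.Agent.Work.MP_e17eac_co.DH
open Pool.Agent.Work.MP_e17eac_co.B1

namespace X3SIDE

/-- Pigeonhole: a popular value. -/
theorem pigeon {α β : Type*} [DecidableEq β] (P : Finset α) (T : Finset β) (f : α → β)
    (hf : ∀ p ∈ P, f p ∈ T) (hT : T.Nonempty) :
    ∃ t ∈ T, P.card ≤ T.card * (P.filter (fun p => f p = t)).card := by
  by_contra hcon
  push Not at hcon
  have h1 : P.card = ∑ t ∈ T, (P.filter (fun p => f p = t)).card :=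
    Finset.card_eq_sum_card_fiberwise (fun p hp => hf p hp)
  have h2 : T.card * P.card = ∑ t ∈ T, T.card * (P.filter (fun p => f p = t)).card := by
    rw [← Finset.mul_sum, ← h1]
  have h3 : ∑ t ∈ T, T.card * (P.filter (fun p => f p = t)).card < ∑ _t ∈ T, P.card :=
    Finset.sum_lt_sum_of_nonempty hT (fun t ht => hcon t ht)
  rw [← h2, Finset.sum_const, smul_eq_mul] at h3
  exact lt_irrefl _ h3

end X3SIDE

theorem I3_SIDE (hTS2 : StTS2) (hMono : StTSmono) (hSub : StTwoSub) : StSide := by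
  classical
  intro m e
  refine ⟨0, m + 2, ?_⟩
  intro ι _ _ K r H D s0 s1 s2 e0 L κ X0 X1 P E hB hF
  have hD2 : (2 : ℝ) ≤ D := hB.D2
  have hD1 : (1 : ℝ) ≤ D := by linarith
  -- the colour set of a line
  set f : ι → Finset ℕ := fun p => (range (m + 1)).filter (fun x =>
    ∀ i ∈ E true, K.a i = p → rad K (PS K r m H) s0 e0 r (4 * x + (e + 2)) p ≤ r * L.del x i)
    with hf
  obtain ⟨T, hT, hcard⟩ := X3SIDE.pigeon P (range (m + 1)).powerset f
    (fun p _ => by rw [Finset.mem_powerset]; exact Finset.filter_subset _ _)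
    ⟨∅, Finset.empty_mem_powerset _⟩
  rw [Finset.card_powerset, Finset.card_range] at hcard
  set P' := P.filter (fun p => f p = T) with hP'
  have hP'sub : P' ⊆ P := Finset.filter_subset _ _
  have hcardR : (P.card : ℝ) ≤ (2 : ℝ) ^ (m + 1) * (P'.card : ℝ) := by exact_mod_cast hcard
  have hTS := hTS2 ι K r m H D ((2 : ℝ) ^ (m + 1)) P P' E (by linarith)
    (one_le_pow₀ (by norm_num)) hF.two.ts hP'sub hcardR
  have hle1 : D * (2 : ℝ) ^ (m + 1) ≤ D ^ (m + 2) := by
    have : (2 : ℝ) ^ (m + 1) ≤ D ^ (m + 1) := pow_le_pow_left₀ (by norm_num) hD2 _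
    calc D * (2 : ℝ) ^ (m + 1) ≤ D * D ^ (m + 1) := by
          exact mul_le_mul_of_nonneg_left this (by linarith)
      _ = D ^ (m + 2) := by ring
  have hTS' := hMono ι K r m H _ _ _ _ hle1 hTS
  have hDle : D ≤ D ^ (m + 2) := le_self_pow₀ hD1 (by omega)
  have hsubTS : SubTS P' (fun s => (E s).filter (fun i => K.a i ∈ P')) P E :=
    ⟨hP'sub, fun s => Finset.filter_subset _ _⟩
  have hTwo := hSub ι K r m H D (D ^ (m + 2)) s0 s1 s2 e0 L κ e X0 X1 P P' E
    (fun s => (E s).filter (fun i => K.a i ∈ P')) hD1 hDle hF.two hsubTS hTS'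
  refine ⟨P', fun s => (E s).filter (fun i => K.a i ∈ P'), fun x => decide (x ∈ T), hsubTS,
    ⟨hTwo, ?_, ?_, ?_⟩, ?_⟩
  · intro x h0 h1 s i hi
    exact hF.up x h0 h1 s i (Finset.mem_filter.1 hi).1
  · intro x h0 h1 i hi j hj hij
    exact hF.low x h0 h1 i (Finset.mem_filter.1 hi).1 j (Finset.mem_filter.1 hj).1 hij
  · intro y h0 h1 p hp q hq hpq
    exact hF.dm y h0 h1 p (hP'sub hp) q (hP'sub hq) hpq
  · intro x h0 h1 i hi
    have hxm : x ∈ range (m + 1) := by
      have := hF.two.lev.2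
      exact Finset.mem_range.2 (by omega)
    by_cases hx : x ∈ T
    · simp only [hx, decide_true, Finset.mem_filter] at hi
      have hfi : f (K.a i) = T := (Finset.mem_filter.1 hi.2).2
      have hx' : x ∈ f (K.a i) := by rw [hfi]; exact hx
      exact (Finset.mem_filter.1 hx').2 i hi.1 rfl
    · simp only [hx, decide_false, Finset.mem_filter] at hi
      have hfi : f (K.a i) = T := (Finset.mem_filter.1 hi.2).2
      have hx' : x ∉ f (K.a i) := by rw [hfi]; exact hx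
      simp only [hf, Finset.mem_filter, not_and] at hx'
      have h2 := hx' hxm
      push Not at h2
      obtain ⟨j, hj, hja, hlt⟩ := h2
      have h3 := hF.low x h0 h1 i hi.1 j hj hja.symm
      rcases le_total (L.del x i) (L.del x j) with h | h
      · rw [max_eq_right h] at h3
        exact absurd h3 (not_le.2 hlt)
      · rwa [max_eq_left h] at h3

end Pool.Agent.Work.MP_e17eac_co.BB

end

section

/-!
# MP_e17eac_co, block B3, item TWOF (helper81)
-/

set_option autoImplicit false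
set_option linter.unusedSectionVars false

namespace Pool.Agent.Work.MP_e17eac_co.BB

open Finset
open Pool.Agent.Work.MP_e17eac_co.DH
open Pool.Agent.Work.MP_e17eac_co.B1

namespace X3TWOF

section

variable {ι : Type} [Fintype ι] [DecidableEq ι]

theorem ts_mono {K : KSys ι} {r m : ℕ} {H D D' : ℝ} {P : Finset ι} {E : Bool → Finset ℕ}
    (h : D ≤ D') (hts : TS K r m H D P E) : TS K r m H D' P E where
  hyg := hts.hyg
  aP := hts.aP
  sub := hts.sub
  deg := by
    intro s p hp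
    refine (hts.deg s p hp).trans ?_
    gcongr
  big := by
    refine hts.big.trans ?_
    gcongr

theorem big_pow {K : KSys ι} {r m : ℕ} {H D : ℝ} {C k : ℕ} (hk : k ≠ 0)
    (h : Big K r m H D (k * C)) : Big K r m H (D ^ k) C where
  std := h.std
  gp := h.gp
  HD := h.HD.trans (le_self_pow₀ (by linarith [h.D2]) hk)
  D2 := h.D2.trans (le_self_pow₀ (by linarith [h.D2]) hk)
  log := h.log
  ub := h.ub
  Dr := by rw [← pow_mul]; exact h.Dr
  rn := by
    refine le_trans (pow_le_pow_right₀ ?_ ?_) h.rn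
    · have := h.std.two
      exact_mod_cast (by omega : 1 ≤ r)
    · have : 1 * C ≤ k * C := Nat.mul_le_mul_right _ (Nat.pos_of_ne_zero hk)
      rw [one_mul] at this
      exact Nat.mul_le_mul_right _ this

theorem big_mono {K : KSys ι} {r m : ℕ} {H D : ℝ} {C C' : ℕ} (hC : C ≤ C')
    (h : Big K r m H D C') : Big K r m H D C where
  std := h.std
  gp := h.gp
  HD := h.HD
  D2 := h.D2
  log := h.log
  ub := h.ub
  Dr := (pow_le_pow_right₀ (by linarith [h.D2]) hC).trans h.Dr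
  rn := by
    refine le_trans (pow_le_pow_right₀ ?_ (Nat.mul_le_mul_right _ hC)) h.rn
    have := h.std.two
    exact_mod_cast (by omega : 1 ≤ r)

theorem sub_trans {P P' P'' : Finset ι} {E E' E'' : Bool → Finset ℕ} (h : SubTS P' E' P E)
    (h' : SubTS P'' E'' P' E') : SubTS P'' E'' P E :=
  ⟨h'.1.trans h.1, fun s => (h'.2 s).trans (h.2 s)⟩

theorem sub_refl (P : Finset ι) (E : Bool → Finset ℕ) : SubTS P E P E :=
  ⟨subset_rfl, fun _ => subset_rfl⟩

theorem upd (hSub : StTwoSub) {K : KSys ι} {r m : ℕ}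
    {H D s0 s1 s2 e0 : ℝ} {L : Lab} {κ : ℕ → ι → ℕ} {e X0 X1 : ℕ} {P P' : Finset ι}
    {E E' : Bool → Finset ℕ} {c : ℕ} (hD : 2 ≤ D) (two : Two K r m H D s0 s1 s2 e0 L κ e X0 X1 P E)
    (sub : SubTS P' E' P E) (ts : TS K r m H (D ^ c) P' E') :
    Two K r m H (D ^ (c + 1)) s0 s1 s2 e0 L κ e X0 X1 P' E' :=
  hSub ι K r m H D (D ^ (c + 1)) s0 s1 s2 e0 L κ e X0 X1 P P' E E' (by linarith)
    (le_self_pow₀ (by linarith) (by omega)) two sub
    (ts_mono (pow_le_pow_right₀ (by linarith) (Nat.le_succ c)) ts)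

/-- The facts at the level `x`. -/
structure Fact (K : KSys ι) (r m : ℕ) (H s0 e0 : ℝ) (L : Lab) (κ : ℕ → ι → ℕ)
    (e x : ℕ) (P : Finset ι) (E : Bool → Finset ℕ) : Prop where
  up : ∀ s, ∀ i ∈ E s, L.del x i ≤ rad K (PS K r m H) s0 e0 r (4 * x - 1) (K.a i)
  low : ∀ i ∈ E false, ∀ j ∈ E true, K.a i = K.a j →
    rad K (PS K r m H) s0 e0 r (4 * x + (e + 2)) (K.a i) ≤ r * max (L.del x i) (L.del x j)
  dm : ∀ p ∈ P, ∀ q ∈ P, κ x p = κ x q →
    dist0 K s0 e0 p q ≤ r * rad K (PS K r m H) s0 e0 r (4 * x - 1) p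

theorem Fact.sub {K : KSys ι} {r m : ℕ} {H s0 e0 : ℝ} {L : Lab} {κ : ℕ → ι → ℕ}
    {e x : ℕ} {P P' : Finset ι} {E E' : Bool → Finset ℕ}
    (h : Fact K r m H s0 e0 L κ e x P E) (hs : SubTS P' E' P E) :
    Fact K r m H s0 e0 L κ e x P' E' where
  up := fun s i hi => h.up s i (hs.2 s hi)
  low := fun i hi j hj => h.low i (hs.2 _ hi) j (hs.2 _ hj)
  dm := fun p hp q hq => h.dm p (hs.1 hp) q (hs.1 hq)

end

/-- One level. -/
theorem level (hSub : StTwoSub) (hUp : StUp) (hLow : StLow) (hDiam : StDiam) (e : ℕ) :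
    ∃ C C' : ℕ, C' ≠ 0 ∧ ∀ (ι : Type) [Fintype ι] [DecidableEq ι]
    (K : KSys ι) (r m : ℕ) (H D s0 s1 s2 e0 : ℝ) (L : Lab) (κ : ℕ → ι → ℕ) (X0 X1 : ℕ)
    (P : Finset ι) (E : Bool → Finset ℕ), Big K r m H D C →
    Two K r m H D s0 s1 s2 e0 L κ e X0 X1 P E → ∀ x, X0 ≤ x → x ≤ X1 →
    ∃ (P' : Finset ι) (E' : Bool → Finset ℕ), SubTS P' E' P E ∧
      Two K r m H (D ^ C') s0 s1 s2 e0 L κ e X0 X1 P' E' ∧
      Fact K r m H s0 e0 L κ e x P' E' := by
  obtain ⟨C1, c1, h1⟩ := hUp e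
  obtain ⟨C2, c2, h2⟩ := hLow e
  obtain ⟨C3, c3, h3⟩ := hDiam e
  refine ⟨C1 + (c1 + 1) * C1 + ((c1 + 1) * (c1 + 1)) * C2 +
    ((c1 + 1) * (c1 + 1) * (c2 + 1)) * C3, (c1 + 1) * (c1 + 1) * (c2 + 1) * (c3 + 1), ?_, ?_⟩
  · positivity
  intro ι _ _ K r m H D s0 s1 s2 e0 L κ X0 X1 P E hB two x hx0 hx1
  -- UP on the side `false`
  obtain ⟨P1, E1, hs1, ht1, hf1⟩ := h1 ι K r m H D s0 s1 s2 e0 L κ X0 X1 P E
    (big_mono (by omega) hB) two x hx0 hx1 false
  have two1 := upd hSub hB.D2 two hs1 ht1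
  have hB1 : Big K r m H (D ^ (c1 + 1)) C1 :=
    big_pow (Nat.succ_ne_zero _) (big_mono (by omega) hB)
  -- UP on the side `true`
  obtain ⟨P2, E2, hs2, ht2, hf2⟩ := h1 ι K r m H _ s0 s1 s2 e0 L κ X0 X1 P1 E1
    hB1 two1 x hx0 hx1 true
  have two2 := upd hSub hB1.D2 two1 hs2 ht2
  rw [← pow_mul] at two2
  have hB2 : Big K r m H (D ^ ((c1 + 1) * (c1 + 1))) C2 :=
    big_pow (by positivity) (big_mono (by omega) hB)
  -- LOW
  obtain ⟨P3, E3, hs3, ht3, hf3⟩ := h2 ι K r m H _ s0 s1 s2 e0 L κ X0 X1 P2 E2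
    hB2 two2 x hx0 hx1
  have two3 := upd hSub hB2.D2 two2 hs3 ht3
  rw [← pow_mul] at two3
  have hB3 : Big K r m H (D ^ ((c1 + 1) * (c1 + 1) * (c2 + 1))) C3 :=
    big_pow (by positivity) (big_mono (by omega) hB)
  have hup : ∀ s, ∀ i ∈ E3 s, L.del x i ≤ rad K (PS K r m H) s0 e0 r (4 * x - 1) (K.a i) := by
    intro s i hi
    cases s with
    | false => exact hf1 i (hs2.2 _ (hs3.2 _ hi))
    | true => exact hf2 i (hs3.2 _ hi)
  -- DIAM
  obtain ⟨P4, E4, hs4, ht4, hf4⟩ := h3 ι K r m H _ s0 s1 s2 e0 L κ X0 X1 P3 E3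
    hB3 two3 x hx0 hx1 hup
  have two4 := upd hSub hB3.D2 two3 hs4 ht4
  rw [← pow_mul] at two4
  refine ⟨P4, E4, sub_trans (sub_trans (sub_trans hs1 hs2) hs3) hs4, two4, ?_, ?_, hf4⟩
  · exact fun s i hi => hup s i (hs4.2 _ hi)
  · exact fun i hi j hj => hf3 i (hs4.2 _ hi) j (hs4.2 _ hj)

/-- Several levels. -/
theorem levels (hSub : StTwoSub) (hUp : StUp) (hLow : StLow) (hDiam : StDiam) (e k : ℕ) :
    ∃ C C' : ℕ, C' ≠ 0 ∧ ∀ (ι : Type) [Fintype ι] [DecidableEq ι]
    (K : KSys ι) (r m : ℕ) (H D s0 s1 s2 e0 : ℝ) (L : Lab) (κ : ℕ → ι → ℕ) (X0 X1 : ℕ)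
    (P : Finset ι) (E : Bool → Finset ℕ), Big K r m H D C →
    Two K r m H D s0 s1 s2 e0 L κ e X0 X1 P E →
    ∃ (P' : Finset ι) (E' : Bool → Finset ℕ), SubTS P' E' P E ∧
      Two K r m H (D ^ C') s0 s1 s2 e0 L κ e X0 X1 P' E' ∧
      ∀ x, X0 ≤ x → x ≤ X1 → x < X0 + k → Fact K r m H s0 e0 L κ e x P' E' := by
  induction k with
  | zero =>
    refine ⟨0, 1, one_ne_zero, ?_⟩
    intro ι _ _ K r m H D s0 s1 s2 e0 L κ X0 X1 P E _ two
    refine ⟨P, E, sub_refl P E, ?_, fun x hx0 hx1 hx => absurd hx (by omega)⟩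
    rw [pow_one]
    exact two
  | succ k ih =>
    obtain ⟨C1, c1, hc1, h1⟩ := ih
    obtain ⟨C2, c2, hc2, h2⟩ := level hSub hUp hLow hDiam e
    refine ⟨C1 + c1 * C2, c1 * c2, mul_ne_zero hc1 hc2, ?_⟩
    intro ι _ _ K r m H D s0 s1 s2 e0 L κ X0 X1 P E hB two
    obtain ⟨P1, E1, hs1, two1, hf1⟩ := h1 ι K r m H D s0 s1 s2 e0 L κ X0 X1 P E
      (big_mono (by omega) hB) two
    by_cases hk : X0 + k ≤ X1
    · obtain ⟨P2, E2, hs2, two2, hf2⟩ := h2 ι K r m H _ s0 s1 s2 e0 L κ X0 X1 P1 E1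
        (big_pow hc1 (big_mono (by omega) hB)) two1 (X0 + k) (by omega) hk
      rw [← pow_mul] at two2
      refine ⟨P2, E2, sub_trans hs1 hs2, two2, fun x hx0 hx1 hx => ?_⟩
      rcases Nat.lt_or_ge x (X0 + k) with h | h
      · exact (hf1 x hx0 hx1 h).sub hs2
      · have : x = X0 + k := by omega
        rw [this]
        exact hf2
    · have hD : (1 : ℝ) ≤ D := by linarith [hB.D2]
      refine ⟨P1, E1, hs1, ?_, fun x hx0 hx1 hx => hf1 x hx0 hx1 (by omega)⟩
      have h3 : D ^ c1 ≤ D ^ (c1 * c2) :=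
        pow_le_pow_right₀ hD (Nat.le_mul_of_pos_right _ (Nat.pos_of_ne_zero hc2))
      exact hSub ι K r m H (D ^ c1) (D ^ (c1 * c2)) s0 s1 s2 e0 L κ e X0 X1 P1 P1 E1 E1
        (one_le_pow₀ hD) h3 two1 (sub_refl P1 E1) (ts_mono h3 two1.ts)

end X3TWOF

open X3TWOF in
theorem I3_TWOF (hSub : StTwoSub) (hUp : StUp) (hLow : StLow) (hDiam : StDiam) : StTwoF := by
  intro m e
  obtain ⟨C, C', _, h⟩ := levels hSub hUp hLow hDiam e (m + 1)
  refine ⟨C, C', ?_⟩
  intro ι _ _ K r H D s0 s1 s2 e0 L κ X0 X1 P E hB two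
  obtain ⟨P', E', hs, two', hf⟩ := h ι K r m H D s0 s1 s2 e0 L κ X0 X1 P E hB two
  have hl := two.lev
  refine ⟨P', E', hs, two', ?_, ?_, ?_⟩
  · exact fun x hx0 hx1 => (hf x hx0 hx1 (by omega)).up
  · exact fun x hx0 hx1 => (hf x hx0 hx1 (by omega)).low
  · exact fun x hx0 hx1 => (hf x hx0 hx1 (by omega)).dm

end Pool.Agent.Work.MP_e17eac_co.BB

end

section

/-!
# B-3, item TWOPT: two separated times
-/

set_option autoImplicit false

namespace Pool.Agent.Work.MP_e17eac_co.BB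

open Finset
open Pool.Agent.Work.MP_e17eac_co.DH
open Pool.Agent.Work.MP_e17eac_co.B1

namespace X3TWOPT

/-- An affine function bounded by `M` at two separated times. -/
lemma affine {a b t t' s0 e0 D M : ℝ} (h0 : s0 < e0) (hD : 1 ≤ D) (hM : 0 ≤ M)
    (ht : s0 ≤ t) (ht' : t' ≤ e0) (hw : e0 - s0 ≤ D * (t' - t)) (h1 : |a + b * t| ≤ M)
    (h2 : |a + b * t'| ≤ M) : |a + b * s0| ≤ 3 * D * M ∧ |a + b * e0| ≤ 3 * D * M := by
  have hw0 : 0 < t' - t := by
    by_contra h
    push Not at h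
    nlinarith
  have hb : |b| * (t' - t) ≤ 2 * M := by
    have e1 : |b| * (t' - t) = |(a + b * t') - (a + b * t)| := by
      rw [← abs_of_pos hw0, ← abs_mul]
      congr 1
      ring
    rw [e1]
    have := abs_sub (a + b * t') (a + b * t)
    linarith
  have hb0 := abs_nonneg b
  have hkey : |b| * (e0 - s0 - (t' - t)) ≤ 2 * M * (D - 1) := by
    calc |b| * (e0 - s0 - (t' - t)) ≤ |b| * ((D - 1) * (t' - t)) :=
          mul_le_mul_of_nonneg_left (by linarith) hb0
      _ = (|b| * (t' - t)) * (D - 1) := by ring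
      _ ≤ 2 * M * (D - 1) := mul_le_mul_of_nonneg_right hb (by linarith)
  have hMD : 0 ≤ D * M := by positivity
  constructor
  · have e1 : a + b * s0 = (a + b * t) - b * (t - s0) := by ring
    have e2 : |b * (t - s0)| = |b| * (t - s0) := by
      rw [abs_mul, abs_of_nonneg (by linarith : (0 : ℝ) ≤ t - s0)]
    have e3 : |b| * (t - s0) ≤ |b| * (e0 - s0 - (t' - t)) :=
      mul_le_mul_of_nonneg_left (by linarith) hb0
    have e4 := abs_sub (a + b * t) (b * (t - s0))
    rw [e1]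
    nlinarith
  · have e1 : a + b * e0 = (a + b * t') + b * (e0 - t') := by ring
    have e2 : |b * (e0 - t')| = |b| * (e0 - t') := by
      rw [abs_mul, abs_of_nonneg (by linarith : (0 : ℝ) ≤ e0 - t')]
    have e3 : |b| * (e0 - t') ≤ |b| * (e0 - s0 - (t' - t)) :=
      mul_le_mul_of_nonneg_left (by linarith) hb0
    have e4 := abs_add_le (a + b * t') (b * (e0 - t'))
    rw [e1]
    nlinarith

end X3TWOPT

theorem I3_TWOPT : StTwoPt := by
  intro ι _ _ K s0 e0 D M t t' h0 hD hM ht ht' hw p q h1 h2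
  have e : ∀ s, K.ht p s - K.ht q s = (K.y p - K.y q) + (K.x p - K.x q) * s := by
    intro s
    unfold KSys.ht
    ring
  rw [e] at h1 h2
  obtain ⟨a1, a2⟩ := X3TWOPT.affine h0 hD hM ht ht' hw h1 h2
  unfold dist0
  rw [e, e]
  exact max_le a1 a2

end Pool.Agent.Work.MP_e17eac_co.BB

end

section

/-!
# Arbitrary sets, blueprint part B-3: inheritance of the two-sided structure (item TWOSUB)
-/

namespace Pool.Agent.Work.MP_e17eac_co.BB

open Finset
open Pool.Agent.Work.MP_e17eac_co.DH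
open Pool.Agent.Work.MP_e17eac_co.B1

namespace X3TWOSUB

variable {ι : Type} [Fintype ι] [DecidableEq ι]

theorem lab_sub (K : KSys ι) (r m : ℕ) (D D' s0 e0 : ℝ) (L : Lab) (E E' : Finset ℕ)
    (hDD : D ≤ D') (h : LabOK K r m D s0 e0 L E) (hE : E' ⊆ E) :
    LabOK K r m D' s0 e0 L E' where
  base := h.base
  lt := fun i hi => h.lt i (hE hi)
  tm := fun i hi => h.tm i (hE hi)
  leq := fun x h1 h2 i hi i' hi' => h.leq x h1 h2 i (hE hi) i' (hE hi')
  line := fun x h1 h2 i hi i' hi' => h.line x h1 h2 i (hE hi) i' (hE hi')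
  few := by
    intro x h1 h2 c
    refine le_trans ?_ (le_trans (h.few x h1 h2 c) hDD)
    exact_mod_cast card_le_card (image_subset_image (filter_subset_filter _ hE))
  hull := fun x h1 h2 i hi => h.hull x h1 h2 i (hE hi)
  nest := fun x h1 h2 i hi => h.nest x h1 h2 i (hE hi)
  disj := fun x h1 h2 i hi i' hi' => h.disj x h1 h2 i (hE hi) i' (hE hi')
  pos := fun x h1 h2 i hi => h.pos x h1 h2 i (hE hi)
  clo := fun x h1 h2 i hi => h.clo x h1 h2 i (hE hi)
  con := by
    intro x h1 h2 i hi i' hi' hl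
    have hp := h.pos x h1 h2 i (hE hi)
    have hm : D * L.del x i ≤ D' * L.del x i := mul_le_mul_of_nonneg_right hDD hp.le
    obtain ⟨ha, hb⟩ := h.con x h1 h2 i (hE hi) i' (hE hi') hl
    exact ⟨le_trans ha hm, le_trans hb hm⟩
  mono := fun x h1 h2 i hi => h.mono x h1 h2 i (hE hi)
  stag := fun x h1 h2 i hi => h.stag x h1 h2 i (hE hi)
  short := fun x h1 h2 i hi => h.short x h1 h2 i (hE hi)

theorem hash_sub (K : KSys ι) (r : ℕ) (D D' : ℝ) (S : Finset ι) (y : ℕ) (κ : ι → ℕ)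
    (E E' : Finset ℕ) (hDD : D ≤ D') (h : HashOK K r D S y κ E) (hE : E' ⊆ E) :
    HashOK K r D' S y κ E' where
  edge := fun i hi => h.edge i (hE hi)
  key := h.key
  act := by
    intro B
    have h1 : (0 : ℝ) ≤ (r : ℝ) ^ y := by positivity
    refine le_trans ?_ (le_trans (h.act B) (mul_le_mul_of_nonneg_right hDD h1))
    exact_mod_cast card_le_card (image_subset_image (filter_subset_filter _ hE))
  most := fun i hi => h.most i (hE hi)

end X3TWOSUB

open X3TWOSUB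

theorem I3_TWOSUB : StTwoSub := by
  intro ι _ _ K r m H D D' s0 s1 s2 e0 L κ e X0 X1 P P' E E' hD hDD h hS hT
  have hgap : e0 - s0 ≤ D' * (s2 - s1) := by
    have h0 := (h.lab false).base
    have h1 := h.gap
    have h2 : 0 < s2 - s1 := by
      by_contra hn
      push Not at hn
      have : D * (s2 - s1) ≤ 0 := mul_nonpos_of_nonneg_of_nonpos (by linarith) hn
      linarith
    have h3 : D * (s2 - s1) ≤ D' * (s2 - s1) := mul_le_mul_of_nonneg_right hDD h2.le
    linarith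
  exact
    { ts := hT
      lab := fun s => lab_sub K r m D D' s0 e0 L (E s) (E' s) hDD (h.lab s) (hS.2 s)
      left := fun x h1 h2 i hi => h.left x h1 h2 i (hS.2 false hi)
      right := fun x h1 h2 i hi => h.right x h1 h2 i (hS.2 true hi)
      gap := hgap
      lev := h.lev
      hash := fun y h1 h2 s =>
        hash_sub K r D D' (PS K r m H) y (κ y) (E s) (E' s) hDD (h.hash y h1 h2 s) (hS.2 s)
      beta := fun y h1 h2 =>
        le_trans (card_le_card (image_subset_image hS.1)) (h.beta y h1 h2) }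

end Pool.Agent.Work.MP_e17eac_co.BB

end

section

/-!
# Arbitrary sets, B-6, bridge, part 5: the choices (cleaned edges, level, class, line)
-/

set_option autoImplicit false

namespace Pool.Agent.Work.MP_e17eac_co.B6.Br

open Finset
open Pool.Agent.Work.MP_e17eac_co.DH
open Pool.Agent.Work.MP_e17eac_co.B1
open Pool.Agent.Work.MP_e17eac_co.BB

variable {ι : Type} [Fintype ι] [DecidableEq ι] {K : KSys ι} {r m : ℕ} {H D s0 e0 : ℝ}
  {L : Lab} {κ : ℕ → ι → ℕ} {X2 X4 : ℕ} {S E : Finset ℕ} {e kp l k k6 k8 I dm d C : ℕ}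

/-- The finest level of the windows. -/
def zs (k d : ℕ) : ℕ := 2 * k * (d + 1) + k

/-- The tuple of labels of an edge. -/
def Lb (K : KSys ι) (r : ℕ) (L : Lab) (k d i : ℕ) : ℕ × (Fin (d + 2) → ℕ) :=
  (cell K r (zs k d) i, fun j => L.lab (2 * k * j + k) i)

/-- The tuples of labels of a line. -/
def LB (K : KSys ι) (r : ℕ) (L : Lab) (k d : ℕ) (E' : Finset ℕ) (p : ι) :
    Finset (ℕ × (Fin (d + 2) → ℕ)) := (E'.filter (fun i => K.a i = p)).image (Lb K r L k d)

/-- The lines of a class. -/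
def PB (K : KSys ι) (κ : ℕ → ι → ℕ) (y : ℕ) (E' : Finset ℕ) (B : ℕ) : Finset ι :=
  (E'.image K.a).filter (fun p => κ y p = B)

/-- The labels of level `x` of a class. -/
def UB (K : KSys ι) (L : Lab) (κ : ℕ → ι → ℕ) (y x : ℕ) (E' : Finset ℕ) (B : ℕ) : Finset ℕ :=
  (E'.filter (fun i => κ y (K.a i) = B)).image (L.lab x)

/-- The result of the choices. -/
structure Ch (K : KSys ι) (r : ℕ) (H D : ℝ) (L : Lab) (κ : ℕ → ι → ℕ) (X2 : ℕ)
    (S E : Finset ℕ) (e l k k8 d : ℕ) (E' : Finset ℕ) (x B : ℕ) (p0 : ι) : Prop where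
  sub : E' ⊆ E
  thr : ∀ i ∈ E', (K.N : ℝ) ≤ 8 * Fintype.card ι * H * D * (r : ℝ) ^ (zs k d) *
    ((E'.filter (fun j => K.a j = K.a i ∧ cell K r (zs k d) j = cell K r (zs k d) i)).card : ℝ)
  xS : x ∈ S
  xlo : X2 + k * (d + 5) ≤ x
  xhi : x ≤ X2 + k * (d + 5) + l
  mem : p0 ∈ PB K κ (X2 + 4 * k) E' B
  bigB : (Fintype.card ι : ℝ) ≤ 4 * D * H * (r : ℝ) ^ (4 * (X2 + 4 * k) + e) *
    ((PB K κ (X2 + 4 * k) E' B).card : ℝ)
  labB : ((UB K L κ (X2 + 4 * k) x E' B).card : ℝ) * Fintype.card ι ≤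
    4 * D * H * (r : ℝ) ^ (3 * x + 2 * (X2 + 4 * k) + k8) *
    ((PB K κ (X2 + 4 * k) E' B).card : ℝ)
  share : ((PB K κ (X2 + 4 * k) E' B).card : ℝ) * (r : ℝ) ^ (zs k d) ≤
    128 * H ^ 3 * D ^ (d + 4) * ∑ p ∈ PB K κ (X2 + 4 * k) E' B,
      ((LB K r L k d E' p ∩ LB K r L k d E' p0).card : ℝ)

/-- The final computation for the choice of the line. -/
theorem cs_real (P R D H Φ s t : ℝ) (d : ℕ) (h1 : t ^ 2 ≤ P * Φ * s) (h2 : P * R ≤ 8 * D * H * t)
    (h3 : Φ ≤ 2 * (H * R) * D ^ (d + 2)) (hP : 0 < P) (hR : 0 < R) (hD : 0 < D) (hH : 0 < H)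
    (hs : 0 ≤ s) (ht : 0 ≤ t) : P * R ≤ 128 * H ^ 3 * D ^ (d + 4) * s := by
  have h4 : (P * R) * (P * R) ≤ (128 * H ^ 3 * D ^ (d + 4) * s) * (P * R) := by
    calc (P * R) * (P * R) ≤ (8 * D * H * t) * (8 * D * H * t) := by gcongr
      _ = 64 * D ^ 2 * H ^ 2 * t ^ 2 := by ring
      _ ≤ 64 * D ^ 2 * H ^ 2 * (P * Φ * s) := by gcongr
      _ ≤ 64 * D ^ 2 * H ^ 2 * (P * (2 * (H * R) * D ^ (d + 2)) * s) := by gcongr
      _ = _ := by ring
  exact le_of_mul_le_mul_right h4 (by positivity)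

namespace Hp

variable (h : Hp K r m H D s0 e0 L κ X2 X4 S E e kp l k k6 k8 I dm d C)

include h

theorem zs_le : zs k d ≤ X2 := (h.zz_le (d + 1) (by omega)).1

theorem zs_one : 1 ≤ zs k d := (h.zz_le (d + 1) (by omega)).2

theorem zs_m : zs k d ≤ m := h.zz_m (d + 1) (by omega)

theorem W_le (p : ι) (hp : p ∈ PS K r m H) (z : ℕ) (hz : z ≤ m) :
    (W K r z p : ℝ) ≤ H * (r : ℝ) ^ z := by
  unfold PS at hp
  rw [mem_filter] at hp
  exact hp.2 z hz

/-- Few pairs (cell, line). -/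
theorem pairs (z : ℕ) (hz : z ≤ m) :
    ((E.image (fun i => (cell K r z i, K.a i))).card : ℝ) ≤
      Fintype.card ι * (H * (r : ℝ) ^ z) := by
  classical
  have h1 : (E.image (fun i => (cell K r z i, K.a i))) ⊆ (PS K r m H).biUnion (fun p =>
      ((range (r ^ (4 * z))).filter (fun w => p ∈ vis K r z w)).image (fun w => (w, p))) := by
    intro t ht
    obtain ⟨i, hi, rfl⟩ := mem_image.1 ht
    have hiN := (h.one.hyg i hi).lt
    rw [mem_biUnion]
    refine ⟨K.a i, h.a_ps i hi, mem_image.2 ⟨cell K r z i, mem_filter.2 ⟨mem_range.2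
      ((h.hCell ι K r z h.r_nat).1 i hiN), a_mem_vis K r z i hiN⟩, rfl⟩⟩
  have h2 : (E.image (fun i => (cell K r z i, K.a i))).card ≤
      ∑ p ∈ PS K r m H, W K r z p := by
    refine (card_le_card h1).trans (card_biUnion_le.trans (Finset.sum_le_sum (fun p _ => ?_)))
    exact card_image_le
  calc ((E.image (fun i => (cell K r z i, K.a i))).card : ℝ)
      ≤ ∑ p ∈ PS K r m H, (W K r z p : ℝ) := by exact_mod_cast h2
    _ ≤ ∑ _p ∈ PS K r m H, H * (r : ℝ) ^ z :=
      Finset.sum_le_sum (fun p hp => h.W_le p hp z hz)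
    _ = (PS K r m H).card * (H * (r : ℝ) ^ z) := by rw [sum_const, nsmul_eq_mul]
    _ ≤ Fintype.card ι * (H * (r : ℝ) ^ z) := by
      have := h.H1
      have := h.r_pos
      gcongr
      exact card_le_univ _

/-- Cleaning. -/
theorem cleaned : ∃ E' ⊆ E,
    (∀ i ∈ E', (K.N : ℝ) ≤ 8 * Fintype.card ι * D *
      ((E'.filter (fun j => K.a j = K.a i)).card : ℝ)) ∧
    (∀ i ∈ E', (K.N : ℝ) ≤ 8 * Fintype.card ι * H * D * (r : ℝ) ^ (zs k d) *
      ((E'.filter (fun j => K.a j = K.a i ∧ cell K r (zs k d) j = cell K r (zs k d) i)).card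
        : ℝ)) ∧
    (Fintype.card ι : ℝ) ≤ 2 * D * H * ((E'.image K.a).card : ℝ) := by
  classical
  have hn := h.n_pos
  have hN := h.N_pos
  have hH := h.H1
  have hD := h.big.D2
  have hr := h.r_pos
  have hD0 : 0 < D := by linarith
  have hH0 : 0 < H := by linarith
  obtain ⟨E', hE', h1, h2⟩ := clean (α := ℕ × ι) (κ := Bool)
    (fun s i => if s then (cell K r (zs k d) i, K.a i) else (0, K.a i))
    (fun s => if s then (K.N : ℝ) / (8 * Fintype.card ι * H * D * (r : ℝ) ^ (zs k d))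
      else (K.N : ℝ) / (8 * Fintype.card ι * D))
    (by intro s; cases s <;> simp <;> positivity) E.card E le_rfl
  have hf : ((E.image (fun i => ((0 : ℕ), K.a i))).card : ℝ) ≤ Fintype.card ι := by
    have : (E.image (fun i => ((0 : ℕ), K.a i))).card ≤ Fintype.card ι := by
      rw [← Finset.card_univ]
      calc (E.image (fun i => ((0 : ℕ), K.a i))).card
          ≤ ((univ : Finset ι).image (fun p => ((0 : ℕ), p))).card := card_le_card (by
            intro t ht
            obtain ⟨i, _, rfl⟩ := mem_image.1 ht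
            exact mem_image_of_mem _ (mem_univ _))
        _ ≤ _ := card_image_le
    exact_mod_cast this
  have ht := h.pairs (zs k d) h.zs_m
  have hsub : ((E \ E').card : ℝ) ≤ K.N / (4 * D) := by
    refine h2.trans ?_
    rw [Fintype.sum_bool]
    simp only [if_true, Bool.false_eq_true, if_false]
    have e1 : (K.N : ℝ) / (8 * Fintype.card ι * H * D * (r : ℝ) ^ (zs k d)) *
        ((E.image (fun i => (cell K r (zs k d) i, K.a i))).card : ℝ) ≤ K.N / (8 * D) := by
      calc (K.N : ℝ) / (8 * Fintype.card ι * H * D * (r : ℝ) ^ (zs k d)) *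
          ((E.image (fun i => (cell K r (zs k d) i, K.a i))).card : ℝ)
          ≤ (K.N : ℝ) / (8 * Fintype.card ι * H * D * (r : ℝ) ^ (zs k d)) *
            (Fintype.card ι * (H * (r : ℝ) ^ (zs k d))) := by gcongr
        _ = K.N / (8 * D) := by field_simp
    have e2 : (K.N : ℝ) / (8 * Fintype.card ι * D) *
        ((E.image (fun i => ((0 : ℕ), K.a i))).card : ℝ) ≤ K.N / (8 * D) := by
      calc (K.N : ℝ) / (8 * Fintype.card ι * D) *
          ((E.image (fun i => ((0 : ℕ), K.a i))).card : ℝ)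
          ≤ (K.N : ℝ) / (8 * Fintype.card ι * D) * Fintype.card ι := by gcongr
        _ = K.N / (8 * D) := by field_simp
    have e3 : (K.N : ℝ) / (4 * D) = K.N / (8 * D) + K.N / (8 * D) := by
      field_simp
      norm_num
    rw [e3]
    exact add_le_add e1 e2
  refine ⟨E', hE', ?_, ?_, ?_⟩
  · intro i hi
    have h3 := h1 false i hi
    simp only [Bool.false_eq_true, if_false] at h3
    rw [div_le_iff₀ (by positivity)] at h3
    have e1 : (E'.filter (fun j => ((0 : ℕ), K.a j) = (0, K.a i))) =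
        (E'.filter (fun j => K.a j = K.a i)) := by
      apply filter_congr
      intro j _
      simp
    rw [e1] at h3
    linarith
  · intro i hi
    have h3 := h1 true i hi
    simp only [if_true] at h3
    rw [div_le_iff₀ (by positivity)] at h3
    have e1 : (E'.filter (fun j => (cell K r (zs k d) j, K.a j) = (cell K r (zs k d) i, K.a i))) =
        (E'.filter (fun j => K.a j = K.a i ∧ cell K r (zs k d) j = cell K r (zs k d) i)) := by
      apply filter_congr
      intro j _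
      rw [Prod.mk.injEq]
      exact and_comm
    rw [e1] at h3
    linarith
  · have h3 := h.card_le_lines E' hE'
    have h4 := h.one.card
    have h5 : (E.card : ℝ) ≤ E'.card + ((E \ E').card : ℝ) := by
      have : E.card ≤ E'.card + (E \ E').card := by
        have := Finset.card_sdiff_add_card_eq_card hE'
        omega
      exact_mod_cast this
    have h6 : (K.N : ℝ) ≤ 2 * D * E'.card := by
      have h7 : D * ((E \ E').card : ℝ) ≤ K.N / 4 := by
        calc D * ((E \ E').card : ℝ) ≤ D * (K.N / (4 * D)) := by gcongr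
          _ = K.N / 4 := by field_simp
      have h8 : D * (E.card : ℝ) ≤ D * E'.card + D * ((E \ E').card : ℝ) := by
        rw [← mul_add]
        gcongr
      linarith
    have h7 : (Fintype.card ι : ℝ) * K.N ≤ (2 * D * H * ((E'.image K.a).card : ℝ)) * K.N := by
      calc (Fintype.card ι : ℝ) * K.N ≤ Fintype.card ι * (2 * D * E'.card) := by gcongr
        _ = 2 * D * (E'.card * Fintype.card ι) := by ring
        _ ≤ 2 * D * (((E'.image K.a).card : ℝ) * (H * K.N)) := by gcongr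
        _ = _ := by ring
    exact le_of_mul_le_mul_right h7 hN

/-- The level. -/
theorem level : ∃ x ∈ S, X2 + k * (d + 5) ≤ x ∧ x ≤ X2 + k * (d + 5) + l := by
  have h1 := h.kI
  have h2 := h.XI'
  have h3 : k * (d + 12) = k * (d + 5) + 7 * k := by ring
  have h4 := h.kk
  exact h.one.gap (X2 + k * (d + 5)) (by omega) (by omega)

theorem y0_le : X2 ≤ X2 + 4 * k ∧ X2 + 4 * k ≤ X4 ∧ zs k d ≤ X2 + 4 * k := by
  have h1 := h.kI
  have h2 := h.XI'
  have h3 : k * (d + 12) = k * d + 12 * k := by ring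
  have h4 := h.zs_le
  refine ⟨by omega, by omega, by omega⟩

/-- The cells of a class. -/
theorem cells_class (E' : Finset ℕ) (hE' : E' ⊆ E) (B : ℕ) :
    ((((E'.filter (fun i => κ (X2 + 4 * k) (K.a i) = B)).image (cell K r (zs k d))).card : ℕ)
      : ℝ) ≤ 2 * (H * (r : ℝ) ^ (zs k d)) := by
  classical
  rcases (E'.filter (fun i => κ (X2 + 4 * k) (K.a i) = B)).eq_empty_or_nonempty with h0 | h0
  · rw [h0, image_empty, card_empty, Nat.cast_zero]
    have := h.H1
    have := h.r_pos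
    positivity
  · obtain ⟨i0, hi0⟩ := h0
    rw [mem_filter] at hi0
    refine cells_of_class K r (zs k d) _ ((PS K r m H).filter (fun q => κ (X2 + 4 * k) q = B))
      ⟨K.a i0, mem_filter.2 ⟨h.a_ps i0 (hE' hi0.1), hi0.2⟩⟩ ?_ _ ?_ ?_
    · intro p hp
      exact h.W_le p (mem_filter.1 hp).1 _ h.zs_m
    · intro c hc
      obtain ⟨i, hi, rfl⟩ := mem_image.1 hc
      rw [mem_range]
      exact (h.hCell ι K r _ h.r_nat).1 i (h.one.hyg i (hE' (mem_filter.1 hi).1)).lt
    · intro c hc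
      obtain ⟨i, hi, rfl⟩ := mem_image.1 hc
      rw [mem_filter] at hi
      have h1 := (h.one.hash (X2 + 4 * k) h.y0_le.1 h.y0_le.2.1).most i (hE' hi.1)
      rw [hi.2] at h1
      refine le_trans (Nat.mul_le_mul_left _ (card_le_card ?_)) h1
      exact sdiff_subset_sdiff le_rfl (vis_mono h.hCell K r h.r_nat _ _ h.y0_le.2.2 i)

/-- The choices. -/
theorem choices : ∃ (E' : Finset ℕ) (x B : ℕ) (p0 : ι),
    Ch K r H D L κ X2 S E e l k k8 d E' x B p0 := by
  classical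
  obtain ⟨E', hE', hthr0, hthr1, hn2⟩ := h.cleaned
  obtain ⟨x, hxS, hxlo, hxhi⟩ := h.level
  have hn := h.n_pos
  have hN := h.N_pos
  have hH := h.H1
  have hD := h.big.D2
  have hr := h.r_pos
  have hD0 : 0 < D := by linarith
  have hH0 : 0 < H := by linarith
  have hkI := h.kI
  have hXI := h.XI
  have hXI' := h.XI'
  have hkk := h.kk
  have hk12 : k * (d + 12) = k * (d + 5) + 7 * k := by ring
  have hP : (E'.image K.a).Nonempty := by
    rw [Finset.nonempty_iff_ne_empty]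
    intro h0
    rw [h0, card_empty, Nat.cast_zero, mul_zero] at hn2
    linarith
  set y := X2 + 4 * k with hy
  set Y := E'.image (fun i => (L.lab x i, κ y (K.a i))) with hY
  have hYc : Y.card ≤ r ^ (3 * x + 2 * y + k8) := by
    refine le_trans (card_le_card (image_subset_image hE')) ?_
    have hk5 : k * (d + 5) = k * d + 5 * k := by ring
    exact h.fl x hxS y (by omega) (by omega) (by omega) (by omega)
  have hAc : ((E'.image K.a).image (κ y)).card ≤ r ^ (4 * y + e) := by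
    refine le_trans (card_le_card (image_subset_image (image_subset_image hE'))) ?_
    exact h.one.beta y h.y0_le.1 h.y0_le.2.1
  obtain ⟨B, hBne, hB1, hB2⟩ := choose_class (E'.image K.a) hP (κ y) Y (r ^ (4 * y + e)) hAc
  have hPBdef : (E'.image K.a).filter (fun p => κ y p = B) = PB K κ y E' B := rfl
  rw [hPBdef] at hBne hB1 hB2
  -- number of labels
  have hUB : (UB K L κ y x E' B).card ≤ (Y.filter (fun z => z.2 = B)).card := by
    rw [← card_image_of_injective (UB K L κ y x E' B) (f := fun t => (t, B))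
      (fun a b hab => (Prod.mk.injEq _ _ _ _ ▸ hab).1)]
    apply card_le_card
    intro z hz
    obtain ⟨t, ht, rfl⟩ := mem_image.1 hz
    obtain ⟨i, hi, rfl⟩ := mem_image.1 ht
    rw [mem_filter] at hi ⊢
    refine ⟨mem_image.2 ⟨i, hi.1, ?_⟩, rfl⟩
    show (L.lab x i, κ y (K.a i)) = (L.lab x i, B)
    rw [hi.2]
  have hB1' : ((E'.image K.a).card : ℝ) ≤ 2 * (r : ℝ) ^ (4 * y + e) *
      ((PB K κ y E' B).card : ℝ) := by exact_mod_cast hB1
  have hB2' : ((UB K L κ y x E' B).card : ℝ) * ((E'.image K.a).card : ℝ) ≤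
      2 * (r : ℝ) ^ (3 * x + 2 * y + k8) * ((PB K κ y E' B).card : ℝ) := by
    have : (UB K L κ y x E' B).card * (E'.image K.a).card ≤
        2 * r ^ (3 * x + 2 * y + k8) * (PB K κ y E' B).card := by
      calc (UB K L κ y x E' B).card * (E'.image K.a).card
          ≤ (Y.filter (fun z => z.2 = B)).card * (E'.image K.a).card :=
            Nat.mul_le_mul_right _ hUB
        _ ≤ 2 * Y.card * (PB K κ y E' B).card := hB2
        _ ≤ _ := Nat.mul_le_mul_right _ (Nat.mul_le_mul_left _ hYc)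
    exact_mod_cast this
  -- Cauchy-Schwarz
  set Φ := (E'.filter (fun i => κ y (K.a i) = B)).image (Lb K r L k d) with hΦ
  obtain ⟨p0, hp0, hCS⟩ := choose_line (PB K κ y E' B) hBne (LB K r L k d E') Φ (by
    intro p hp
    unfold LB
    rw [hΦ]
    apply image_subset_image
    intro i hi
    rw [mem_filter] at hi ⊢
    refine ⟨hi.1, ?_⟩
    rw [hi.2]
    unfold PB at hp
    exact (mem_filter.1 hp).2)
  have hΦc : (Φ.card : ℝ) ≤ 2 * (H * (r : ℝ) ^ (zs k d)) * D ^ (d + 2) := by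
    have h1 := tuples (n := d + 2) (E'.filter (fun i => κ y (K.a i) = B))
      (cell K r (zs k d)) (fun j i => L.lab (2 * k * j + k) i) D (by
      intro j c hc
      obtain ⟨i0, hi0, hi0c⟩ := mem_image.1 hc
      rw [mem_filter] at hi0
      have hj : (j : ℕ) ≤ d + 1 := by have := j.2; omega
      have h2 := h.one.lab.few (2 * k * j + k) (h.zz_le j (by omega)).2 (h.zz_m j (by omega))
        (cell K r (2 * k * j + k) i0)
      refine le_trans ?_ h2
      have h3 : ((E'.filter (fun i => κ y (K.a i) = B)).filter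
          (fun i => cell K r (zs k d) i = c)).image (L.lab (2 * k * j + k)) ⊆
          (E.filter (fun i => cell K r (2 * k * j + k) i = cell K r (2 * k * j + k) i0)).image
            (L.lab (2 * k * j + k)) := by
        apply image_subset_image
        intro i hi
        rw [mem_filter, mem_filter] at hi
        rw [mem_filter]
        refine ⟨hE' hi.1.1, ?_⟩
        refine cell_nest h.hCell K r h.r_nat _ (zs k d) ?_ i i0 (by rw [hi.2, hi0c])
        unfold zs
        have : 2 * k * (j : ℕ) ≤ 2 * k * (d + 1) := Nat.mul_le_mul_left _ hj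
        omega
      exact_mod_cast card_le_card h3)
    refine h1.trans ?_
    gcongr
    exact h.cells_class E' hE' B
  have hLBlow : ∀ p ∈ PB K κ y E' B, (r : ℝ) ^ (zs k d) ≤
      8 * D * H * ((LB K r L k d E' p).card : ℝ) := by
    intro p hp
    unfold PB at hp
    obtain ⟨i, hi, rfl⟩ := mem_image.1 (mem_filter.1 hp).1
    have h1 := cells_ge K r m H E (E'.filter (fun j => K.a j = K.a i))
      ((filter_subset _ _).trans hE') h.one.hyg (zs k d) h.zs_m (K.a i)
      (fun j hj => (mem_filter.1 hj).2)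
    have h2 := hthr0 i hi
    have h3 : ((E'.filter (fun j => K.a j = K.a i)).image (cell K r (zs k d))).card ≤
        (LB K r L k d E' (K.a i)).card := by
      unfold LB
      have : ((E'.filter (fun j => K.a j = K.a i)).image (cell K r (zs k d))) =
          ((E'.filter (fun j => K.a j = K.a i)).image (Lb K r L k d)).image Prod.fst := by
        rw [image_image]
        rfl
      rw [this]
      exact card_image_le
    have h3' : (((E'.filter (fun j => K.a j = K.a i)).image (cell K r (zs k d))).card : ℝ) ≤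
        ((LB K r L k d E' (K.a i)).card : ℝ) := by exact_mod_cast h3
    have h4 : (r : ℝ) ^ (zs k d) * (Fintype.card ι * K.N) ≤
        (8 * D * H * ((LB K r L k d E' (K.a i)).card : ℝ)) * (Fintype.card ι * K.N) := by
      calc (r : ℝ) ^ (zs k d) * (Fintype.card ι * K.N)
          = (Fintype.card ι * (r : ℝ) ^ (zs k d)) * K.N := by ring
        _ ≤ (Fintype.card ι * (r : ℝ) ^ (zs k d)) * (8 * Fintype.card ι * D *
            ((E'.filter (fun j => K.a j = K.a i)).card : ℝ)) := by gcongr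
        _ = 8 * D * Fintype.card ι * (((E'.filter (fun j => K.a j = K.a i)).card : ℝ) *
            (Fintype.card ι * (r : ℝ) ^ (zs k d))) := by ring
        _ ≤ 8 * D * Fintype.card ι *
            ((((E'.filter (fun j => K.a j = K.a i)).image (cell K r (zs k d))).card : ℝ) *
              (H * K.N)) := by gcongr
        _ ≤ 8 * D * Fintype.card ι * (((LB K r L k d E' (K.a i)).card : ℝ) * (H * K.N)) := by
            gcongr
        _ = _ := by ring
    exact le_of_mul_le_mul_right h4 (by positivity)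
  have hPBpos : (0 : ℝ) < (PB K κ y E' B).card := by exact_mod_cast card_pos.2 hBne
  refine ⟨E', x, B, p0, hE', hthr1, hxS, hxlo, hxhi, hp0, ?_, ?_, ?_⟩
  · calc (Fintype.card ι : ℝ) ≤ 2 * D * H * ((E'.image K.a).card : ℝ) := hn2
      _ ≤ 2 * D * H * (2 * (r : ℝ) ^ (4 * y + e) * ((PB K κ y E' B).card : ℝ)) := by gcongr
      _ = _ := by ring
  · calc ((UB K L κ y x E' B).card : ℝ) * Fintype.card ι
        ≤ ((UB K L κ y x E' B).card : ℝ) * (2 * D * H * ((E'.image K.a).card : ℝ)) := by gcongr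
      _ = 2 * D * H * (((UB K L κ y x E' B).card : ℝ) * ((E'.image K.a).card : ℝ)) := by ring
      _ ≤ 2 * D * H * (2 * (r : ℝ) ^ (3 * x + 2 * y + k8) * ((PB K κ y E' B).card : ℝ)) := by
          gcongr
      _ = _ := by ring
  · have h1 : (∑ p ∈ PB K κ y E' B, ((LB K r L k d E' p).card : ℝ)) ^ 2 ≤
        ((PB K κ y E' B).card : ℝ) * Φ.card *
          ∑ p ∈ PB K κ y E' B, ((LB K r L k d E' p ∩ LB K r L k d E' p0).card : ℝ) := by
      exact_mod_cast hCS
    have h2 : ((PB K κ y E' B).card : ℝ) * (r : ℝ) ^ (zs k d) ≤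
        8 * D * H * ∑ p ∈ PB K κ y E' B, ((LB K r L k d E' p).card : ℝ) := by
      calc ((PB K κ y E' B).card : ℝ) * (r : ℝ) ^ (zs k d)
          = ∑ _p ∈ PB K κ y E' B, (r : ℝ) ^ (zs k d) := by rw [sum_const, nsmul_eq_mul]
        _ ≤ ∑ p ∈ PB K κ y E' B, 8 * D * H * ((LB K r L k d E' p).card : ℝ) :=
          Finset.sum_le_sum hLBlow
        _ = _ := by rw [Finset.mul_sum]
    exact cs_real _ _ D H _ _ _ d h1 h2 hΦc hPBpos (pow_pos hr _) hD0 hH0
      (Finset.sum_nonneg (fun _ _ => Nat.cast_nonneg _))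
      (Finset.sum_nonneg (fun _ _ => Nat.cast_nonneg _))

end Hp

end Pool.Agent.Work.MP_e17eac_co.B6.Br

end

section

/-!
# Arbitrary sets, B-6, bridge, part 6: the fields of the configuration
-/

set_option autoImplicit false

namespace Pool.Agent.Work.MP_e17eac_co.B6.Br

open Finset
open Pool.Agent.Work.MP_e17eac_co.DH
open Pool.Agent.Work.MP_e17eac_co.B1
open Pool.Agent.Work.MP_e17eac_co.BB

variable {ι : Type} [Fintype ι] [DecidableEq ι] {K : KSys ι} {r m : ℕ} {H D s0 e0 : ℝ}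
  {L : Lab} {κ : ℕ → ι → ℕ} {X2 X4 : ℕ} {S E : Finset ℕ} {e kp l k k6 k8 I dm d C : ℕ}
  {E' : Finset ℕ} {x B : ℕ} {p0 : ι}


/-- The cells of the common labels of `p` and `p0`. -/
def CM (K : KSys ι) (r : ℕ) (L : Lab) (k d : ℕ) (E' : Finset ℕ) (p0 p : ι) : Finset ℕ :=
  (E'.filter (fun i => K.a i = p ∧ Lb K r L k d i ∈ LB K r L k d E' p0)).image
    (cell K r (zs k d))

/-- The labels of level `x` of the class in a window. -/
def UN (K : KSys ι) (r : ℕ) (L : Lab) (κ : ℕ → ι → ℕ) (y x k d : ℕ) (E' : Finset ℕ) (B c : ℕ) :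
    Finset ℕ :=
  (E'.filter (fun i => κ y (K.a i) = B ∧ cell K r (zs k d) i = c)).image (L.lab x)

/-- The labels of level `x` of a line in a window. -/
def SS (K : KSys ι) (r : ℕ) (L : Lab) (x k d : ℕ) (E' : Finset ℕ) (p : ι) (c : ℕ) :
    Finset ℕ := (E'.filter (fun i => K.a i = p ∧ cell K r (zs k d) i = c)).image (L.lab x)

/-- The windows of `p0`. -/
def C0 (K : KSys ι) (r : ℕ) (k d : ℕ) (E' : Finset ℕ) (p0 : ι) : Finset ℕ :=
  (E'.filter (fun i => K.a i = p0)).image (cell K r (zs k d))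

open Classical in
/-- The windows which are not crowded. -/
noncomputable def ALs (K : KSys ι) (r : ℕ) (H D : ℝ) (L : Lab) (κ : ℕ → ι → ℕ)
    (y x k d : ℕ) (E' : Finset ℕ) (B : ℕ) (p0 : ι) : Finset ℕ :=
  (C0 K r k d E' p0).filter (fun c => ((UN K r L κ y x k d E' B c).card : ℝ) *
    (r : ℝ) ^ (zs k d) ≤ ((UB K L κ y x E' B).card : ℝ) * (256 * H ^ 3 * D ^ (d + 4)))

/-- The windows of a line. -/
noncomputable def AA (K : KSys ι) (r : ℕ) (H D : ℝ) (L : Lab) (κ : ℕ → ι → ℕ)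
    (y x k d : ℕ) (E' : Finset ℕ) (B : ℕ) (p0 p : ι) : Finset ℕ :=
  (CM K r L k d E' p0 p) ∩ (ALs K r H D L κ y x k d E' B p0)

/-- The lines with common labels. -/
def PG (K : KSys ι) (r : ℕ) (L : Lab) (κ : ℕ → ι → ℕ) (y k d : ℕ) (E' : Finset ℕ)
    (B : ℕ) (p0 : ι) : Finset ι :=
  (PB K κ y E' B).filter (fun p => (LB K r L k d E' p ∩ LB K r L k d E' p0).Nonempty)

/-- The chosen edge of `p0` in a window. -/
noncomputable def chs (K : KSys ι) (r : ℕ) (k d : ℕ) (E' : Finset ℕ) (p0 : ι) (c : ℕ) : ℕ :=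
  if hh : ∃ i ∈ E', K.a i = p0 ∧ cell K r (zs k d) i = c then hh.choose else 0

theorem chs_spec (c : ℕ) (hc : c ∈ C0 K r k d E' p0) : chs K r k d E' p0 c ∈ E' ∧
    K.a (chs K r k d E' p0 c) = p0 ∧ cell K r (zs k d) (chs K r k d E' p0 c) = c := by
  have hh : ∃ i ∈ E', K.a i = p0 ∧ cell K r (zs k d) i = c := by
    unfold C0 at hc
    obtain ⟨i, hi, hic⟩ := mem_image.1 hc
    rw [mem_filter] at hi
    exact ⟨i, hi.1, hi.2, hic⟩
  unfold chs
  rw [dif_pos hh]
  exact hh.choose_spec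

/-- Iterated nesting of the hulls. -/
theorem nest_le {z x' : ℕ} {F : Finset ℕ} (hL : LabOK K r m D s0 e0 L F) (hz : 1 ≤ z)
    (hzx : z ≤ x') (hx : x' ≤ m) (i : ℕ) (hi : i ∈ F) :
    L.h0 z i ≤ L.h0 x' i ∧ L.h1 x' i ≤ L.h1 z i := by
  induction x', hzx using Nat.le_induction with
  | base => exact ⟨le_rfl, le_rfl⟩
  | succ w hw ih =>
      have h1 := ih (by omega)
      have h2 := hL.nest w (by omega) hx i hi
      exact ⟨h1.1.trans h2.1, h2.2.trans h1.2⟩

namespace Hp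

variable (h : Hp K r m H D s0 e0 L κ X2 X4 S E e kp l k k6 k8 I dm d C)
  (hc : Ch K r H D L κ X2 S E e l k k8 d E' x B p0)

include h hc

/-- Uniqueness of the tuple of a line in a window. -/
theorem Lb_uniq (i i' : ℕ) (hi : i ∈ E') (hi' : i' ∈ E') (ha : K.a i = K.a i')
    (hcc : cell K r (zs k d) i = cell K r (zs k d) i') : Lb K r L k d i = Lb K r L k d i' := by
  unfold Lb
  rw [hcc]
  congr 1
  funext j
  have hj : (j : ℕ) ≤ d + 1 := by have := j.2; omega
  refine h.one.lab.line _ (h.zz_le j (by omega)).2 (h.zz_m j (by omega)) i (hc.sub hi) i'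
    (hc.sub hi') ha (cell_nest h.hCell K r h.r_nat _ (zs k d) ?_ i i' hcc)
  unfold zs
  have : 2 * k * (j : ℕ) ≤ 2 * k * (d + 1) := Nat.mul_le_mul_left _ hj
  omega

theorem inter_le (p : ι) : (LB K r L k d E' p ∩ LB K r L k d E' p0).card ≤
    (CM K r L k d E' p0 p).card := by
  have hinj : Set.InjOn Prod.fst
      ((LB K r L k d E' p ∩ LB K r L k d E' p0 : Finset _) : Set (ℕ × (Fin (d + 2) → ℕ))) := by
    intro t ht t' ht' htt
    rw [Finset.mem_coe, mem_inter] at ht ht'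
    unfold LB at ht ht'
    obtain ⟨i, hi, rfl⟩ := mem_image.1 ht.1
    obtain ⟨i', hi', rfl⟩ := mem_image.1 ht'.1
    rw [mem_filter] at hi hi'
    exact h.Lb_uniq hc i i' hi.1 hi'.1 (hi.2.trans hi'.2.symm) htt
  rw [← card_image_of_injOn hinj]
  apply card_le_card
  intro c hcm
  obtain ⟨t, ht, rfl⟩ := mem_image.1 hcm
  rw [mem_inter] at ht
  have ht1 := ht.1
  unfold LB at ht1
  obtain ⟨i, hi, rfl⟩ := mem_image.1 ht1
  rw [mem_filter] at hi
  unfold CM
  exact mem_image.2 ⟨i, mem_filter.2 ⟨hi.1, hi.2, ht.2⟩, rfl⟩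

theorem CM_sub (p : ι) : CM K r L k d E' p0 p ⊆ C0 K r k d E' p0 := by
  intro c hcm
  unfold CM at hcm
  obtain ⟨i, hi, rfl⟩ := mem_image.1 hcm
  rw [mem_filter] at hi
  have h1 := hi.2.2
  unfold LB at h1
  obtain ⟨i0, hi0, hl0⟩ := mem_image.1 h1
  unfold C0
  refine mem_image.2 ⟨i0, hi0, ?_⟩
  have := congrArg Prod.fst hl0
  exact this

theorem x_ge : zs k d ≤ x ∧ x ≤ m ∧ 1 ≤ x ∧ x + k ≤ X4 ∧ X2 ≤ x := by
  have h1 := hc.xlo
  have h2 := hc.xhi
  have h3 := h.kI
  have h4 := h.XI'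
  have h5 := h.X4m
  have h6 := h.zs_le
  have h7 := h.kk
  have h8 : k * (d + 12) = k * (d + 5) + 7 * k := by ring
  have h9 := h.one.lev.1
  refine ⟨by omega, by omega, by omega, by omega, by omega⟩

/-- Few crowded windows. -/
theorem bad : (((C0 K r k d E' p0) \ (ALs K r H D L κ (X2 + 4 * k) x k d E' B p0)).card : ℝ) *
    (256 * H ^ 3 * D ^ (d + 4)) ≤ (r : ℝ) ^ (zs k d) := by
  classical
  set y := X2 + 4 * k with hy
  set T := (C0 K r k d E' p0) \ (ALs K r H D L κ y x k d E' B p0) with hT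
  set W0 := (256 * H ^ 3 * D ^ (d + 4)) with hW0
  have hx := h.x_ge hc
  have hUpos : (0 : ℝ) < (UB K L κ y x E' B).card := by
    have h1 := hc.mem
    unfold PB at h1
    obtain ⟨i, hi, hip⟩ := mem_image.1 (mem_filter.1 h1).1
    have h2 := (mem_filter.1 h1).2
    rw [← hip] at h2
    have : L.lab x i ∈ UB K L κ y x E' B := mem_image.2 ⟨i, mem_filter.2 ⟨hi, h2⟩, rfl⟩
    exact_mod_cast card_pos.2 ⟨_, this⟩
  have h1 : ∀ c ∈ T, ((UB K L κ y x E' B).card : ℝ) * W0 ≤
      ((UN K r L κ y x k d E' B c).card : ℝ) * (r : ℝ) ^ (zs k d) := by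
    intro c hcT
    rw [hT, mem_sdiff] at hcT
    by_contra hcon
    push Not at hcon
    apply hcT.2
    unfold ALs
    exact mem_filter.2 ⟨hcT.1, hcon.le⟩
  have h2 : ∑ c ∈ T, (UN K r L κ y x k d E' B c).card ≤ (UB K L κ y x E' B).card := by
    rw [← card_biUnion]
    · apply card_le_card
      intro t ht
      rw [mem_biUnion] at ht
      obtain ⟨c, _, ht⟩ := ht
      unfold UN at ht
      obtain ⟨i, hi, rfl⟩ := mem_image.1 ht
      rw [mem_filter] at hi
      exact mem_image.2 ⟨i, mem_filter.2 ⟨hi.1, hi.2.1⟩, rfl⟩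
    · intro c _ c' _ hne
      rw [Function.onFun, Finset.disjoint_left]
      intro t ht ht'
      unfold UN at ht ht'
      obtain ⟨i, hi, hit⟩ := mem_image.1 ht
      obtain ⟨i', hi', hit'⟩ := mem_image.1 ht'
      rw [mem_filter] at hi hi'
      have h3 := (h.one.lab.leq x hx.2.2.1 hx.2.1 i (hc.sub hi.1) i' (hc.sub hi'.1)
        (hit.trans hit'.symm)).1
      have h4 := cell_nest h.hCell K r h.r_nat _ _ hx.1 i i' h3
      rw [hi.2.2, hi'.2.2] at h4
      exact hne h4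
  have h3 : ((T.card : ℝ) * W0) * ((UB K L κ y x E' B).card : ℝ) ≤
      (r : ℝ) ^ (zs k d) * ((UB K L κ y x E' B).card : ℝ) := by
    calc ((T.card : ℝ) * W0) * ((UB K L κ y x E' B).card : ℝ)
        = ∑ _c ∈ T, ((UB K L κ y x E' B).card : ℝ) * W0 := by
          rw [sum_const, nsmul_eq_mul]
          ring
      _ ≤ ∑ c ∈ T, ((UN K r L κ y x k d E' B c).card : ℝ) * (r : ℝ) ^ (zs k d) :=
          Finset.sum_le_sum h1
      _ = (∑ c ∈ T, ((UN K r L κ y x k d E' B c).card : ℝ)) * (r : ℝ) ^ (zs k d) := by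
          rw [Finset.sum_mul]
      _ ≤ ((UB K L κ y x E' B).card : ℝ) * (r : ℝ) ^ (zs k d) := by
          have := h.r_pos
          gcongr
          exact_mod_cast h2
      _ = _ := by ring
  exact le_of_mul_le_mul_right h3 hUpos

/-- Many incidences. -/
theorem inc0 : ((PB K κ (X2 + 4 * k) E' B).card : ℝ) * (r : ℝ) ^ (zs k d) ≤
    256 * H ^ 3 * D ^ (d + 4) * ∑ p ∈ PG K r L κ (X2 + 4 * k) k d E' B p0,
      ((AA K r H D L κ (X2 + 4 * k) x k d E' B p0 p).card : ℝ) := by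
  classical
  have hH := h.H1
  have hD := h.big.D2
  have hD0 : 0 < D := by linarith
  have hH0 : 0 < H := by linarith
  set y := X2 + 4 * k with hy
  set T := (C0 K r k d E' p0) \ (ALs K r H D L κ y x k d E' B p0) with hT
  have h1 : ∀ p, ((LB K r L k d E' p ∩ LB K r L k d E' p0).card : ℝ) ≤
      ((AA K r H D L κ y x k d E' B p0 p).card : ℝ) + T.card := by
    intro p
    have h2 := h.inter_le hc p
    have h3 : (CM K r L k d E' p0 p).card ≤ (AA K r H D L κ y x k d E' B p0 p).card + T.card := by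
      refine (card_le_card ?_).trans (card_union_le _ _)
      intro c hcm
      have h4 := h.CM_sub hc p hcm
      rw [mem_union, hT, mem_sdiff]
      unfold AA
      rw [mem_inter]
      by_cases h5 : c ∈ ALs K r H D L κ y x k d E' B p0
      · exact Or.inl ⟨hcm, h5⟩
      · exact Or.inr ⟨h4, h5⟩
    exact_mod_cast h2.trans h3
  have h2 : ∑ p ∈ PG K r L κ y k d E' B p0, ((AA K r H D L κ y x k d E' B p0 p).card : ℝ) =
      ∑ p ∈ PB K κ y E' B, ((AA K r H D L κ y x k d E' B p0 p).card : ℝ) := by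
    refine Finset.sum_subset (filter_subset _ _) (fun p hp hpn => ?_)
    have : AA K r H D L κ y x k d E' B p0 p = ∅ := by
      rw [← Finset.not_nonempty_iff_eq_empty]
      rintro ⟨c, hcm⟩
      unfold AA at hcm
      have h3 := (mem_inter.1 hcm).1
      unfold CM at h3
      obtain ⟨i, hi, _⟩ := mem_image.1 h3
      rw [mem_filter] at hi
      apply hpn
      unfold PG
      refine mem_filter.2 ⟨hp, ⟨Lb K r L k d i, mem_inter.2 ⟨?_, hi.2.2⟩⟩⟩
      unfold LB
      exact mem_image.2 ⟨i, mem_filter.2 ⟨hi.1, hi.2.1⟩, rfl⟩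
    rw [this, card_empty, Nat.cast_zero]
  have h3 := hc.share
  have h4 := h.bad hc
  rw [← hy] at h3 h4
  rw [← hT] at h4
  rw [h2]
  have h5 : ∑ p ∈ PB K κ y E' B, ((LB K r L k d E' p ∩ LB K r L k d E' p0).card : ℝ) ≤
      ∑ p ∈ PB K κ y E' B, ((AA K r H D L κ y x k d E' B p0 p).card : ℝ) +
      (PB K κ y E' B).card * T.card := by
    rw [← nsmul_eq_mul, ← sum_const, ← Finset.sum_add_distrib]
    exact Finset.sum_le_sum (fun p _ => h1 p)
  set s1 := ∑ p ∈ PB K κ y E' B, ((AA K r H D L κ y x k d E' B p0 p).card : ℝ) with hs1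
  set b := ((PB K κ y E' B).card : ℝ) with hb
  have hb0 : 0 ≤ b := Nat.cast_nonneg _
  have h6 : 128 * H ^ 3 * D ^ (d + 4) *
      ∑ p ∈ PB K κ y E' B, ((LB K r L k d E' p ∩ LB K r L k d E' p0).card : ℝ) ≤
      128 * H ^ 3 * D ^ (d + 4) * (s1 + b * T.card) := by gcongr
  have h7 : b * ((T.card : ℝ) * (256 * H ^ 3 * D ^ (d + 4))) ≤ b * (r : ℝ) ^ (zs k d) := by gcongr
  linarith

/-- Data of a line of `PG`. -/
theorem pg_data (p : ι) (hp : p ∈ PG K r L κ (X2 + 4 * k) k d E' B p0) :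
    ∃ i ∈ E', ∃ i0 ∈ E', K.a i = p ∧ K.a i0 = p0 ∧ κ (X2 + 4 * k) (K.a i) = B ∧
      κ (X2 + 4 * k) (K.a i0) = B ∧ Lb K r L k d i = Lb K r L k d i0 := by
  unfold PG at hp
  rw [mem_filter] at hp
  obtain ⟨t, ht⟩ := hp.2
  rw [mem_inter] at ht
  unfold LB at ht
  obtain ⟨i, hi, hit⟩ := mem_image.1 ht.1
  obtain ⟨i0, hi0, hi0t⟩ := mem_image.1 ht.2
  rw [mem_filter] at hi hi0
  have h1 := hp.1
  have h2 := hc.mem
  unfold PB at h1 h2
  refine ⟨i, hi.1, i0, hi0.1, hi.2, hi0.2, ?_, ?_, hit.trans hi0t.symm⟩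
  · rw [hi.2]
    exact (mem_filter.1 h1).2
  · rw [hi0.2]
    exact (mem_filter.1 h2).2

theorem Lb_lab (i i' : ℕ) (hl : Lb K r L k d i = Lb K r L k d i') (j : ℕ) (hj : j ≤ d + 1) :
    L.lab (2 * k * j + k) i = L.lab (2 * k * j + k) i' := by
  have h1 := congrArg Prod.snd hl
  have h2 := congrFun h1 (⟨j, by omega⟩ : Fin (d + 2))
  exact h2

/-- Comparison of radii, both directions. -/
theorem cmp (p : ι) (hp : p ∈ PG K r L κ (X2 + 4 * k) k d E' B p0) (j : ℕ) (hj : j ≤ d + 1) :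
    (rad K (PS K r m H) s0 e0 r) (4 * (X2 + k + k * (2 + j + 1))) p0 ≤ 2 * (rad K (PS K r m H) s0 e0 r) (4 * (X2 + k + k * (2 + j))) p ∧
    (rad K (PS K r m H) s0 e0 r) (4 * (X2 + k + k * (2 + j + 1))) p ≤ 2 * (rad K (PS K r m H) s0 e0 r) (4 * (X2 + k + k * (2 + j))) p0 := by
  obtain ⟨i, hi, i0, hi0, rfl, rfl, hκ, hκ0, hl⟩ := h.pg_data hc p hp
  have h1 := h.Lb_lab hc i i0 hl j hj
  exact ⟨h.comp i0 i (hc.sub hi0) (hc.sub hi) (hκ0.trans hκ.symm) j (by omega) h1.symm,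
    h.comp i i0 (hc.sub hi) (hc.sub hi0) (hκ.trans hκ0.symm) j (by omega) h1⟩

theorem cmp2 (p : ι) (hp : p ∈ PG K r L κ (X2 + 4 * k) k d E' B p0) :
    (rad K (PS K r m H) s0 e0 r) (4 * (X2 + k + k * 2)) p0 ≤ 2 * (rad K (PS K r m H) s0 e0 r) (4 * (X2 + k + k * 2)) p ∧
    (rad K (PS K r m H) s0 e0 r) (4 * (X2 + k + k * 2)) p ≤ 2 * (rad K (PS K r m H) s0 e0 r) (4 * (X2 + k + k * 2)) p0 := by
  obtain ⟨i, hi, i0, hi0, rfl, rfl, hκ, hκ0, hl⟩ := h.pg_data hc p hp
  exact ⟨h.rho2 i0 i (hc.sub hi0) (hc.sub hi) (hκ0.trans hκ.symm),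
    h.rho2 i i0 (hc.sub hi) (hc.sub hi0) (hκ.trans hκ0.symm)⟩

theorem box0 (p : ι) (hp : p ∈ PG K r L κ (X2 + 4 * k) k d E' B p0) :
    4 * dist0 K s0 e0 p p0 ≤ (rad K (PS K r m H) s0 e0 r) (4 * (X2 + k + k * 2)) p0 := by
  obtain ⟨i, hi, i0, hi0, rfl, rfl, hκ, hκ0, hl⟩ := h.pg_data hc p hp
  have h1 := h.Dm i0 i (hc.sub hi0) (hc.sub hi) (hκ0.trans hκ.symm)
  have h2 := (h.hDist ι K s0 e0 h.base)
  rw [h2.2.2.1 (K.a i) (K.a i0)]
  refine le_trans ?_ h1
  have h3 := h2.1 (K.a i0) (K.a i)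
  have : (4 : ℝ) ≤ (r : ℝ) ^ 7 := by
    calc (4 : ℝ) ≤ (2 : ℝ) ^ 100 := by norm_num
      _ ≤ r := h.r_big
      _ = (r : ℝ) ^ 1 := (pow_one _).symm
      _ ≤ (r : ℝ) ^ 7 := pow_le_pow_right₀ h.r_one (by norm_num)
  gcongr

omit hc in
/-- Mass of a ball of twice the radius. -/
theorem mass2 (i : ℕ) (hi : i ∈ E) (j : ℕ) (hj : j ≤ d + 12) (ρ : ℝ)
    (hρ : ρ ≤ 2 * (rad K (PS K r m H) s0 e0 r) (4 * (X2 + k + k * j)) (K.a i)) :
    (mass K (PS K r m H) s0 e0 (K.a i) ρ : ℝ) * (r : ℝ) ^ (4 * (X2 + k + k * j)) ≤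
      Fintype.card ι * (r : ℝ) ^ k6 := by
  have h0 := h.kk
  have h1 := h.lev_le j hj
  have h2 := h.gr i hi (4 * (X2 + k + k * j) - k6) (by omega) (by omega)
  have h3 : 4 * (X2 + k + k * j) - k6 + k6 = 4 * (X2 + k + k * j) := by omega
  rw [h3] at h2
  have h4 := h.rho_pos j hj (K.a i)
  have h5 : ρ ≤ (rad K (PS K r m H) s0 e0 r) (4 * (X2 + k + k * j) - k6) (K.a i) := by
    refine hρ.trans (le_trans ?_ h2)
    have : (2 : ℝ) ≤ (r : ℝ) ^ 2 := by
      calc (2 : ℝ) ≤ (2 : ℝ) ^ 100 := by norm_num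
        _ ≤ r := h.r_big
        _ = (r : ℝ) ^ 1 := (pow_one _).symm
        _ ≤ (r : ℝ) ^ 2 := pow_le_pow_right₀ h.r_one (by norm_num)
    gcongr
  have h6 := h.mass_le (4 * (X2 + k + k * j) - k6) (by omega) (K.a i) ρ h5
  have hr := h.r_pos
  calc (mass K (PS K r m H) s0 e0 (K.a i) ρ : ℝ) * (r : ℝ) ^ (4 * (X2 + k + k * j))
      = ((mass K (PS K r m H) s0 e0 (K.a i) ρ : ℝ) * (r : ℝ) ^ (4 * (X2 + k + k * j) - k6)) *
        (r : ℝ) ^ k6 := by
        rw [mul_assoc, ← pow_add, h3]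
    _ ≤ _ := by gcongr

end Hp

end Pool.Agent.Work.MP_e17eac_co.B6.Br

end
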