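import Pool.Agent.Work.MP_e17eac_co.Bd.B20
import Pool.Agent.Work.MP_e17eac_co.Bd.B33
import Pool.Agent.Work.MP_e17eac_co.Bd.B23
import Pool.Agent.Work.MP_e17eac_co.B4.P_Vit

/-! Bundle of small proof modules (one section per former module). -/

section

/-!
# Arbitrary sets, blueprint part B-3: item DIAM
-/

namespace Pool.Agent.Work.MP_e17eac_co.BB

open Finset
open Pool.Agent.Work.MP_e17eac_co.DH
open Pool.Agent.Work.MP_e17eac_co.B1

namespace X3DIAM

variable {ι : Type} [Fintype ι] [DecidableEq ι]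

/-- The assumptions `Big` for a smaller exponent. -/
lemma big_mono (K : KSys ι) (r m : ℕ) (H D : ℝ) (C C' : ℕ) (hC : C' ≤ C)
    (h : Big K r m H D C) : Big K r m H D C' := by
  have hD1 : (1 : ℝ) ≤ D := by linarith [h.D2]
  have hr1 : (1 : ℝ) ≤ (r : ℝ) := by
    have := h.std.two
    exact_mod_cast (by omega : 1 ≤ r)
  refine ⟨h.std, h.gp, h.HD, h.D2, h.log, h.ub, ?_, ?_⟩
  · exact (pow_le_pow_right₀ hD1 hC).trans h.Dr
  · exact (pow_le_pow_right₀ hr1 (Nat.mul_le_mul_right _ hC)).trans h.rn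

/-- A relation with many pairs has a popular element. -/
lemma popular {α : Type} [DecidableEq α] (P1 : Finset α) (R : α → α → Prop)
    [DecidableRel R] (T : ℝ) (h0 : P1.Nonempty)
    (h : (P1.card : ℝ) ^ 2 ≤ T * (((P1 ×ˢ P1).filter (fun z => R z.1 z.2)).card : ℝ))
    (hT : 0 ≤ T) :
    ∃ p ∈ P1, (P1.card : ℝ) ≤ T * ((P1.filter (fun q => R p q)).card : ℝ) := by
  by_contra hcon
  push Not at hcon
  have hsum : (((P1 ×ˢ P1).filter (fun z => R z.1 z.2)).card : ℝ) =
      ∑ p ∈ P1, ((P1.filter (fun q => R p q)).card : ℝ) := by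
    rw [card_filter, sum_product]
    push_cast
    refine sum_congr rfl (fun p _ => ?_)
    rw [card_filter]
    push_cast
    rfl
  have hlt : ∑ p ∈ P1, T * ((P1.filter (fun q => R p q)).card : ℝ) <
      ∑ p ∈ P1, (P1.card : ℝ) := sum_lt_sum_of_nonempty h0 hcon
  rw [← mul_sum, ← hsum, sum_const, nsmul_eq_mul] at hlt
  nlinarith

open Classical in
theorem main (hRad : StRad) (hPS : StPSbig) (hCount : StCount)
    (hDist : StDist) (hShare : StShare) (hTS2 : StTS2) : StDiam := by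
  intro e
  obtain ⟨C0, hC0⟩ := hCount
  refine ⟨max C0 9, C0 + 1, ?_⟩
  intro ι _ _ K r m H D s0 s1 s2 e0 L κ X0 X1 P E hBig hTwo y hy0 hy1 hUP
  have hD2 : (2 : ℝ) ≤ D := hBig.D2
  have hD1 : (1 : ℝ) ≤ D := by linarith
  have hD0 : (0 : ℝ) ≤ D := by linarith
  have hr2 : 2 ≤ r := hBig.std.two
  have hr1 : 1 ≤ r := by omega
  have hy : 1 ≤ y := hTwo.lev.1.trans hy0
  have hym : y ≤ m := hy1.trans hTwo.lev.2
  have hse : s0 < e0 := (hTwo.lab false).base
  have hD9 : D ^ 9 ≤ r := (pow_le_pow_right₀ hD1 (le_max_right C0 9)).trans hBig.Dr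
  have hDr : D < r := by
    have : D < D ^ 9 := by
      calc D = D ^ 1 := (pow_one D).symm
        _ < D ^ 9 := pow_lt_pow_right₀ (by linarith) (by norm_num)
    linarith
  have hcard : 0 < Fintype.card ι := by
    have h1 := hBig.rn
    have h2 : (0 : ℝ) < (r : ℝ) ^ (max C0 9 * (m + 1)) := by
      have : (0 : ℝ) < (r : ℝ) := by exact_mod_cast hr1
      positivity
    exact_mod_cast h2.trans_le h1
  have hPSb := hPS ι K r m H D P E hcard hDr hr1 hTwo.ts (4 * y - 1) (by omega)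
  obtain ⟨hR0, -, -, -, hRL, -⟩ := hRad ι K (PS K r m H) s0 e0 r hse hr1 (4 * y - 1) hPSb
  obtain ⟨hd0, -, hdsymm, hdtri, -, -⟩ := hDist ι K s0 e0 hse
  set ρ : ι → ℝ := fun p => rad K (PS K r m H) s0 e0 r (4 * y - 1) p with hρ
  -- the sharing relation
  let R : ι → ι → Prop := fun p q => ∀ s, (labs K L (E s) y p ∩ labs K L (E s) y q).Nonempty
  have hDT : (0 : ℝ) ≤ D ^ C0 := pow_nonneg hD0 _
  -- the popular line of a class
  have hpop : ∀ B : ℕ, ∃ p : ι, p ∈ P ∧ κ y p = B ∧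
      (((P.filter (fun q => κ y q = B)).card : ℝ) ≤
        D ^ C0 * (((P.filter (fun q => κ y q = B)).filter (fun q => R p q)).card : ℝ)) ∨
      (P.filter (fun q => κ y q = B)) = ∅ := by
    intro B
    by_cases hB : (P.filter (fun q => κ y q = B)).Nonempty
    · have hcnt := hC0 ι K r m H D s0 s1 s2 e0 L κ e X0 X1 P E
        (big_mono K r m H D _ _ (le_max_left C0 9) hBig) hTwo y hy0 hy1 E (fun s => Subset.rfl) B
        (P.filter (fun q => κ y q = B)) (filter_subset _ _) (by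
          intro p hp
          rw [mem_filter] at hp
          refine ⟨hp.2, fun s => ?_⟩
          have h1 := hTwo.ts.deg s p hp.1
          have h2 : D ≤ D ^ 4 := by
            calc D = D ^ 1 := (pow_one D).symm
              _ ≤ D ^ 4 := pow_le_pow_right₀ hD1 (by norm_num)
          have h3 : D * Fintype.card ι * (((E s).filter (fun i => K.a i = p)).card : ℝ) ≤
              D ^ 4 * Fintype.card ι * (((E s).filter (fun i => K.a i = p)).card : ℝ) := by
            gcongr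
          linarith)
      obtain ⟨p, hp, hpc⟩ := popular (P.filter (fun q => κ y q = B)) R (D ^ C0) hB
        (by convert hcnt) hDT
      rw [mem_filter] at hp
      exact ⟨p, Or.inl ⟨hp.1, hp.2, hpc⟩⟩
    · rw [not_nonempty_iff_eq_empty] at hB
      haveI : Nonempty ι := Fintype.card_pos_iff.mp hcard
      exact ⟨Classical.arbitrary ι, Or.inr hB⟩
  choose pf hpf using hpop
  have hpf' : ∀ q ∈ P, pf (κ y q) ∈ P ∧ κ y (pf (κ y q)) = κ y q ∧
      (((P.filter (fun u => κ y u = κ y q)).card : ℝ) ≤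
        D ^ C0 * (((P.filter (fun u => κ y u = κ y q)).filter
          (fun u => R (pf (κ y q)) u)).card : ℝ)) := by
    intro q hq
    rcases hpf (κ y q) with h | h
    · exact h
    · exfalso
      have : q ∈ P.filter (fun u => κ y u = κ y q) := mem_filter.mpr ⟨hq, rfl⟩
      rw [h] at this
      exact absurd this (notMem_empty q)
  let P' : Finset ι := P.filter (fun q => R (pf (κ y q)) q)
  have hP'P : P' ⊆ P := filter_subset _ _
  have hPP' : (P.card : ℝ) ≤ D ^ C0 * P'.card := by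
    have h1 : (P.card : ℝ) = ∑ B ∈ P.image (κ y), ((P.filter (fun q => κ y q = B)).card : ℝ) := by
      rw [card_eq_sum_card_image (κ y) P]
      push_cast
      rfl
    have h2 : (P'.card : ℝ) = ∑ B ∈ P.image (κ y), ((P'.filter (fun q => κ y q = B)).card : ℝ) := by
      have := card_eq_sum_card_fiberwise (s := P') (t := P.image (κ y)) (f := κ y)
        (fun q hq => mem_coe.mpr (mem_image_of_mem _ (hP'P (mem_coe.mp hq))))
      rw [this]
      push_cast
      rfl
    rw [h1, h2, mul_sum]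
    refine sum_le_sum (fun B hB => ?_)
    obtain ⟨q, hq, rfl⟩ := mem_image.mp hB
    refine (hpf' q hq).2.2.trans ?_
    refine mul_le_mul_of_nonneg_left ?_ hDT
    have : (P.filter (fun u => κ y u = κ y q)).filter (fun u => R (pf (κ y q)) u) ⊆
        P'.filter (fun u => κ y u = κ y q) := by
      intro u hu
      rw [mem_filter, mem_filter] at hu
      rw [mem_filter, mem_filter]
      refine ⟨⟨hu.1.1, ?_⟩, hu.1.2⟩
      rw [hu.1.2]
      exact hu.2
    exact_mod_cast card_le_card this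
  have hTS' := hTS2 ι K r m H D (D ^ C0) P P' E hD0 (one_le_pow₀ hD1) hTwo.ts hP'P hPP'
  refine ⟨P', fun s => (E s).filter (fun i => K.a i ∈ P'), ⟨hP'P, fun s => filter_subset _ _⟩,
    ?_, ?_⟩
  · have : D ^ (C0 + 1) = D * D ^ C0 := by ring
    rw [this]
    exact hTS'
  · -- closeness to the popular line
    have hclose : ∀ q ∈ P', dist0 K s0 e0 (pf (κ y q)) q ≤ 3 * D ^ 2 * min (ρ (pf (κ y q))) (ρ q) := by
      intro q hq
      have hq' := mem_filter.mp hq
      have hRq : R (pf (κ y q)) q := hq'.2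
      obtain ⟨l0, hl0⟩ := hRq false
      obtain ⟨l1, hl1⟩ := hRq true
      rw [mem_inter] at hl0 hl1
      simp only [labs, mem_image, mem_filter] at hl0 hl1
      obtain ⟨⟨i, ⟨hiE, hia⟩, hil⟩, ⟨i', ⟨hi'E, hi'a⟩, hi'l⟩⟩ := hl0
      obtain ⟨⟨j, ⟨hjE, hja⟩, hjl⟩, ⟨j', ⟨hj'E, hj'a⟩, hj'l⟩⟩ := hl1
      have e1 : L.lab y i = L.lab y i' := hil.trans hi'l.symm
      have e2 : L.lab y j = L.lab y j' := hjl.trans hj'l.symm
      have d1 : L.del y i = L.del y i' := ((hTwo.lab false).leq y hy hym i hiE i' hi'E e1).2.2.2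
      have d2 : L.del y j = L.del y j' := ((hTwo.lab true).leq y hy hym j hjE j' hj'E e2).2.2.2
      have u1 := hUP false i hiE
      have u1' := hUP false i' hi'E
      have u2 := hUP true j hjE
      have u2' := hUP true j' hj'E
      rw [hia] at u1
      rw [hi'a] at u1'
      rw [hja] at u2
      rw [hj'a] at u2'
      have := hShare ι K r m H D s0 s1 s2 e0 L κ e X0 X1 P E hD2 hTwo y hy hym
        (min (ρ (pf (κ y q))) (ρ q)) i i' j j' hiE hi'E hjE hj'E (hia.trans hja.symm)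
        (hi'a.trans hj'a.symm) e1 e2 (le_min u1 (d1 ▸ u1')) (le_min u2 (d2 ▸ u2'))
      rw [hia, hi'a] at this
      exact this
    intro p hp q hq hpq
    have c1 := hclose p hp
    have c2 := hclose q hq
    rw [← hpq] at c2
    set B := pf (κ y p) with hB
    have hL := hRL B p
    have hρp : 0 ≤ ρ p := hR0 p
    have hρB : 0 ≤ ρ B := hR0 B
    have hD2' : 0 ≤ 3 * D ^ 2 := by positivity
    have c1a : dist0 K s0 e0 B p ≤ 3 * D ^ 2 * ρ B :=
      c1.trans (mul_le_mul_of_nonneg_left (min_le_left _ _) hD2')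
    have c1b : dist0 K s0 e0 B p ≤ 3 * D ^ 2 * ρ p :=
      c1.trans (mul_le_mul_of_nonneg_left (min_le_right _ _) hD2')
    have c2a : dist0 K s0 e0 B q ≤ 3 * D ^ 2 * ρ B :=
      c2.trans (mul_le_mul_of_nonneg_left (min_le_left _ _) hD2')
    have htri := hdtri p B q
    rw [hdsymm p B] at htri
    have hρB' : ρ B ≤ (1 + 3 * D ^ 2) * ρ p := by
      have : ρ B ≤ ρ p + dist0 K s0 e0 B p := hL
      linarith
    have h1 : dist0 K s0 e0 p q ≤ 6 * D ^ 2 * ρ B := by linarith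
    have h2 : 6 * D ^ 2 * ρ B ≤ 6 * D ^ 2 * ((1 + 3 * D ^ 2) * ρ p) :=
      mul_le_mul_of_nonneg_left hρB' (by positivity)
    have h3 : 6 * D ^ 2 * (1 + 3 * D ^ 2) ≤ (r : ℝ) := by
      refine le_trans ?_ hD9
      have a1 : 6 * D ^ 2 ≤ D ^ 5 := by
        have : (6 : ℝ) ≤ D ^ 3 := by
          calc (6 : ℝ) ≤ 2 ^ 3 := by norm_num
            _ ≤ D ^ 3 := pow_le_pow_left₀ (by norm_num) hD2 3
        calc 6 * D ^ 2 ≤ D ^ 3 * D ^ 2 := mul_le_mul_of_nonneg_right this (by positivity)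
          _ = D ^ 5 := by ring
      have a2 : 1 + 3 * D ^ 2 ≤ D ^ 4 := by
        nlinarith [pow_le_pow_left₀ (by norm_num : (0 : ℝ) ≤ 2) hD2 2]
      calc 6 * D ^ 2 * (1 + 3 * D ^ 2) ≤ D ^ 5 * D ^ 4 :=
            mul_le_mul a1 a2 (by positivity) (by positivity)
        _ = D ^ 9 := by ring
    calc dist0 K s0 e0 p q ≤ 6 * D ^ 2 * ((1 + 3 * D ^ 2) * ρ p) := h1.trans h2
      _ = (6 * D ^ 2 * (1 + 3 * D ^ 2)) * ρ p := by ring
      _ ≤ r * ρ p := mul_le_mul_of_nonneg_right h3 hρp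

end X3DIAM

theorem I3_DIAM (hRad : StRad) (hPS : StPSbig) (hDist : StDist) (hCount : StCount)
    (hShare : StShare) (hTS2 : StTS2) (hMono : StTSmono) : StDiam :=
  X3DIAM.main hRad hPS hCount hDist hShare hTS2

end Pool.Agent.Work.MP_e17eac_co.BB

end

section

/-!
# Arbitrary sets, blueprint part B-3: UP (note 2875)
-/

namespace Pool.Agent.Work.MP_e17eac_co.BB

open Finset
open Pool.Agent.Work.MP_e17eac_co.DH
open Pool.Agent.Work.MP_e17eac_co.B1

namespace X3UP

/-- The largest threshold with many elements above it. -/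
theorem vex (A : Finset ℕ) (f : ℕ → ℝ) (N c : ℝ) (hN : 0 < N) (h : N ≤ c * (A.card : ℝ)) :
    ∃ v : ℝ, N ≤ c * ((A.filter (fun i => v ≤ f i)).card : ℝ) ∧
      c * ((A.filter (fun i => v < f i)).card : ℝ) < N := by
  classical
  have hne : ∀ B : Finset ℕ, N ≤ c * (B.card : ℝ) → B.Nonempty := by
    intro B hB
    rw [Finset.nonempty_iff_ne_empty]
    rintro rfl
    rw [Finset.card_empty, Nat.cast_zero, mul_zero] at hB
    linarith
  set T := (A.image f).filter
    (fun v => N ≤ c * ((A.filter (fun i => v ≤ f i)).card : ℝ)) with hT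
  have hTne : T.Nonempty := by
    obtain ⟨i0, hi0, hmin⟩ := Finset.exists_min_image A f (hne A h)
    refine ⟨f i0, ?_⟩
    rw [hT, Finset.mem_filter]
    refine ⟨Finset.mem_image_of_mem f hi0, ?_⟩
    rw [Finset.filter_true_of_mem (fun i hi => hmin i hi)]
    exact h
  refine ⟨T.max' hTne, (Finset.mem_filter.mp (T.max'_mem hTne)).2, ?_⟩
  by_contra hcon
  rw [not_lt] at hcon
  obtain ⟨i1, hi1, hmin⟩ := Finset.exists_min_image
    (A.filter (fun i => T.max' hTne < f i)) f (hne _ hcon)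
  rw [Finset.mem_filter] at hi1
  have hmem : f i1 ∈ T := by
    rw [hT, Finset.mem_filter]
    refine ⟨Finset.mem_image_of_mem f hi1.1, ?_⟩
    have heq : A.filter (fun i => f i1 ≤ f i) = A.filter (fun i => T.max' hTne < f i) := by
      ext i
      rw [Finset.mem_filter, Finset.mem_filter]
      constructor
      · rintro ⟨h1, h2⟩
        exact ⟨h1, lt_of_lt_of_le hi1.2 h2⟩
      · rintro ⟨h1, h2⟩
        exact ⟨h1, hmin i (Finset.mem_filter.mpr ⟨h1, h2⟩)⟩
    rw [heq]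
    exact hcon
  have := T.le_max' _ hmem
  exact absurd hi1.2 (not_lt.mpr this)

theorem dense4 (n N H : ℝ) (hn : 0 ≤ n) (h : n ^ ((4 : ℝ) / 3) ≤ H * N) :
    n ^ 4 ≤ H ^ 3 * N ^ 3 := by
  have h1 : (n ^ ((4 : ℝ) / 3)) ^ 3 = n ^ 4 := by
    rw [← Real.rpow_natCast, ← Real.rpow_mul hn]
    have : ((4 : ℝ) / 3) * ((3 : ℕ) : ℝ) = ((4 : ℕ) : ℝ) := by norm_num
    rw [this, Real.rpow_natCast]
  rw [← h1, ← mul_pow]
  exact pow_le_pow_left₀ (Real.rpow_nonneg hn _) h 3

theorem low45 (n N f H D : ℝ) (hH : 1 ≤ H) (hHD : H ≤ D) (hN : 0 ≤ N)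
    (hd : n ^ 4 ≤ H ^ 3 * N ^ 3) (hf : 0 ≤ f) (hNf : N ≤ D ^ 14 * f) :
    n ^ 4 ≤ D ^ 45 * f ^ 3 := by
  have hD0 : 0 ≤ D := by linarith
  have h1 : N ^ 3 ≤ (D ^ 14 * f) ^ 3 := pow_le_pow_left₀ hN hNf 3
  have h2 : H ^ 3 ≤ D ^ 3 := pow_le_pow_left₀ (by linarith) hHD 3
  have h3 : H ^ 3 * N ^ 3 ≤ D ^ 3 * (D ^ 14 * f) ^ 3 :=
    mul_le_mul h2 h1 (pow_nonneg hN 3) (pow_nonneg hD0 3)
  calc n ^ 4 ≤ H ^ 3 * N ^ 3 := hd
    _ ≤ D ^ 3 * (D ^ 14 * f) ^ 3 := h3
    _ = D ^ 45 * f ^ 3 := by ring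

theorem comb (N F f D : ℝ) (hD : 2 ≤ D) (hf : 0 ≤ f) (h1 : N ≤ 2 * D ^ 4 * F)
    (h2 : F ≤ D ^ 9 * f) : N ≤ D ^ 14 * f := by
  have hD0 : 0 < D := by linarith
  calc N ≤ 2 * D ^ 4 * F := h1
    _ ≤ 2 * D ^ 4 * (D ^ 9 * f) := mul_le_mul_of_nonneg_left h2 (by positivity)
    _ ≤ D * D ^ 4 * (D ^ 9 * f) :=
        mul_le_mul_of_nonneg_right (mul_le_mul_of_nonneg_right hD (by positivity))
          (by positivity)
    _ = D ^ 14 * f := by ring

theorem canc (n y g r : ℝ) (hy : y ≠ 0) : n / y * g * (y * r) = n * (r * g) := by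
  field_simp

theorem big32 (n f D : ℝ) (hD : 2 ≤ D) (hf : 0 ≤ f) (hn : D ^ 64 ≤ n)
    (h : n ^ 4 ≤ D ^ 45 * f ^ 3) : 32 * n ≤ f := by
  by_contra hcon
  rw [not_le] at hcon
  have hD0 : 0 < D := by linarith
  have hn0 : 0 < n := lt_of_lt_of_le (pow_pos hD0 64) hn
  have h1 : f ^ 3 ≤ (32 * n) ^ 3 := pow_le_pow_left₀ hf hcon.le 3
  have h2 : n ^ 4 ≤ D ^ 45 * (32 * n) ^ 3 :=
    h.trans (mul_le_mul_of_nonneg_left h1 (pow_nonneg hD0.le 45))
  have h3 : n * n ^ 3 ≤ (D ^ 45 * 32768) * n ^ 3 := by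
    calc n * n ^ 3 = n ^ 4 := by ring
      _ ≤ D ^ 45 * (32 * n) ^ 3 := h2
      _ = (D ^ 45 * 32768) * n ^ 3 := by ring
  have h4 : n ≤ D ^ 45 * 32768 := le_of_mul_le_mul_right h3 (pow_pos hn0 3)
  have h5 : (32768 : ℝ) ≤ D ^ 15 := by
    calc (32768 : ℝ) = 2 ^ 15 := by norm_num
      _ ≤ D ^ 15 := pow_le_pow_left₀ (by norm_num) hD 15
  have h6 : D ^ 45 * 32768 ≤ D ^ 60 := by
    calc D ^ 45 * 32768 ≤ D ^ 45 * D ^ 15 :=
          mul_le_mul_of_nonneg_left h5 (pow_nonneg hD0.le 45)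
      _ = D ^ 60 := by ring
  have h7 : D ^ 60 < D ^ 64 := pow_lt_pow_right₀ (by linarith) (by norm_num)
  linarith

theorem num (n f H D r C0 : ℝ) (c0 : ℕ) (hn : 0 < n) (hH : 1 ≤ H) (hHD : H ≤ D) (hD : 2 ≤ D)
    (hf : 0 ≤ f) (h45 : n ^ 4 ≤ D ^ 45 * f ^ 3) (hC01 : 1 ≤ C0) (hC0 : C0 < 2 ^ c0)
    (hr : D ^ (64 + c0) ≤ r) (hmain : r * f ^ 3 ≤ C0 * H ^ 4 * n ^ 4) : False := by
  have hD0 : 0 < D := by linarith
  have hf0 : 0 < f := by
    rcases hf.lt_or_eq with h | h
    · exact h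
    · exfalso
      rw [← h] at h45
      have : 0 < n ^ 4 := pow_pos hn 4
      norm_num at h45
      linarith
  have h1 : H ^ 4 ≤ D ^ 4 := pow_le_pow_left₀ (by linarith) hHD 4
  have h2 : C0 * H ^ 4 * n ^ 4 ≤ C0 * D ^ 4 * (D ^ 45 * f ^ 3) := by
    refine mul_le_mul (mul_le_mul_of_nonneg_left h1 (by linarith)) h45 (by positivity)
      (by positivity)
  have h3 : r * f ^ 3 ≤ (C0 * D ^ 49) * f ^ 3 := by
    calc r * f ^ 3 ≤ C0 * D ^ 4 * (D ^ 45 * f ^ 3) := hmain.trans h2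
      _ = (C0 * D ^ 49) * f ^ 3 := by ring
  have h4 : r ≤ C0 * D ^ 49 := le_of_mul_le_mul_right h3 (pow_pos hf0 3)
  have h5 : (2 : ℝ) ^ c0 ≤ D ^ c0 := pow_le_pow_left₀ (by norm_num) hD c0
  have h6 : C0 * D ^ 49 < D ^ c0 * D ^ 49 :=
    mul_lt_mul_of_pos_right (lt_of_lt_of_le hC0 h5) (pow_pos hD0 49)
  have h7 : D ^ c0 * D ^ 49 ≤ D ^ (64 + c0) := by
    rw [← pow_add]
    exact pow_le_pow_right₀ (by linarith) (by omega)
  linarith

end X3UP

theorem I3_UP (hRad : StRad) (hPS : StPSbig) (hDist : StDist) (hTS1 : StTS1) (hTS2 : StTS2)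
    (hTS3 : StTS3) (hMono : StTSmono) (hFP : StFP) (hP2 : StP2) (hAV : StAV) : StUp := by
  obtain ⟨C0, hC01, hP2'⟩ := hP2
  obtain ⟨c0, hc0⟩ := pow_unbounded_of_one_lt C0 (one_lt_two : (1 : ℝ) < 2)
  intro e
  refine ⟨64 + c0, 3, ?_⟩
  intro ι _ _ K r m H D s0 s1 s2 e0 L κ X0 X1 P E hBig hTwo x hx0 hx1 s
  classical
  have hD2 : (2 : ℝ) ≤ D := hBig.D2
  have hD0 : (0 : ℝ) < D := by linarith
  have hH1 : (1 : ℝ) ≤ H := hBig.std.one
  have hH0 : (0 : ℝ) < H := by linarith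
  have hHD : H ≤ D := hBig.HD
  have hr2 : 2 ≤ r := hBig.std.two
  have hr1 : 1 ≤ r := by omega
  have hrR : (1 : ℝ) ≤ (r : ℝ) := by exact_mod_cast hr1
  have hr0 : (0 : ℝ) < (r : ℝ) := by linarith
  have hxm : x ≤ m := hx1.trans hTwo.lev.2
  have hx1' : 1 ≤ x := hTwo.lev.1.trans hx0
  have hDr : D ^ (64 + c0) ≤ (r : ℝ) := hBig.Dr
  have hrn : (r : ℝ) ≤ (Fintype.card ι : ℝ) := by
    refine le_trans ?_ hBig.rn
    calc (r : ℝ) = (r : ℝ) ^ 1 := (pow_one _).symm
      _ ≤ (r : ℝ) ^ ((64 + c0) * (m + 1)) := by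
          refine pow_le_pow_right₀ hrR ?_
          exact Nat.one_le_iff_ne_zero.mpr (Nat.mul_ne_zero (by omega) (by omega))
  have hn0 : (0 : ℝ) < (Fintype.card ι : ℝ) := lt_of_lt_of_le hr0 hrn
  have hn0' : 0 < Fintype.card ι := by exact_mod_cast hn0
  have hNpos : 0 < K.N := lt_of_lt_of_le (Nat.pow_pos (by omega)) hBig.std.pow
  have hN0 : (0 : ℝ) < (K.N : ℝ) := by exact_mod_cast hNpos
  have hDltr : D < (r : ℝ) := by
    refine lt_of_lt_of_le ?_ hDr
    calc D = D ^ 1 := (pow_one _).symm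
      _ < D ^ (64 + c0) := pow_lt_pow_right₀ (by linarith) (by omega)
  have hD64 : D ^ 64 ≤ (Fintype.card ι : ℝ) := by
    refine le_trans ?_ (hDr.trans hrn)
    exact pow_le_pow_right₀ (by linarith) (by omega)
  have hbase : s0 < e0 := (hTwo.lab s).base
  have hhash := hTwo.hash x hx0 hx1 s
  have hlab := hTwo.lab s
  -- the thresholds
  have hD13 : D ≤ D ^ 3 := by
    calc D = D ^ 1 := (pow_one _).symm
      _ ≤ D ^ 3 := pow_le_pow_right₀ (by linarith) (by norm_num)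
  have hvex : ∀ p : ι, ∃ v : ℝ, p ∈ P →
      ((K.N : ℝ) ≤ D ^ 3 * (Fintype.card ι : ℝ) *
        ((((E s).filter (fun i => K.a i = p)).filter (fun i => v ≤ L.del x i)).card : ℝ) ∧
      D ^ 3 * (Fintype.card ι : ℝ) *
        ((((E s).filter (fun i => K.a i = p)).filter (fun i => v < L.del x i)).card : ℝ) <
          (K.N : ℝ)) := by
    intro p
    by_cases hp : p ∈ P
    · have h1 := hTwo.ts.deg s p hp
      have h2 : (K.N : ℝ) ≤ D ^ 3 * (Fintype.card ι : ℝ) *
          (((E s).filter (fun i => K.a i = p)).card : ℝ) := by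
        refine h1.trans ?_
        refine mul_le_mul_of_nonneg_right ?_ (Nat.cast_nonneg _)
        exact mul_le_mul_of_nonneg_right hD13 hn0.le
      obtain ⟨v, hv⟩ := X3UP.vex _ (L.del x) _ _ hN0 h2
      exact ⟨v, fun _ => hv⟩
    · exact ⟨0, fun h => absurd h hp⟩
  choose v hv using hvex
  -- deletion of the edges above the threshold
  set E1 : Bool → Finset ℕ := fun s' => if s' = s then
    (E s').filter (fun i => L.del x i ≤ v (K.a i)) else E s' with hE1
  have hE1s : E1 s = (E s).filter (fun i => L.del x i ≤ v (K.a i)) := by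
    rw [hE1]
    exact if_pos rfl
  have hE1sub : ∀ s', E1 s' ⊆ E s' := by
    intro s'
    rw [hE1]
    show (if s' = s then (E s').filter (fun i => L.del x i ≤ v (K.a i)) else E s') ⊆ E s'
    split_ifs
    · exact Finset.filter_subset _ _
    · exact Finset.Subset.refl _
  have hTSE1 : TS K r m H (2 * D) P E1 := by
    refine hTS3 ι K r m H D P E E1 hD0.le hTwo.ts hE1sub ?_
    intro s' p hp
    by_cases hs' : s' = s
    · subst hs'
      have h1 := (hv p hp).2
      have hsub : ((E s' \ E1 s').filter (fun i => K.a i = p)) ⊆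
          ((E s').filter (fun i => K.a i = p)).filter (fun i => v p < L.del x i) := by
        intro i hi
        rw [Finset.mem_filter, Finset.mem_sdiff, hE1s, Finset.mem_filter] at hi
        obtain ⟨⟨h2, h3⟩, h4⟩ := hi
        rw [Finset.mem_filter, Finset.mem_filter]
        refine ⟨⟨h2, h4⟩, ?_⟩
        by_contra hcon
        rw [not_lt] at hcon
        exact h3 ⟨h2, by rw [h4]; exact hcon⟩
      have h2 : (((E s' \ E1 s').filter (fun i => K.a i = p)).card : ℝ) ≤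
          ((((E s').filter (fun i => K.a i = p)).filter
            (fun i => v p < L.del x i)).card : ℝ) := by
        exact_mod_cast Finset.card_le_card hsub
      have h3 : 2 * D * (Fintype.card ι : ℝ) ≤ D ^ 3 * (Fintype.card ι : ℝ) := by
        refine mul_le_mul_of_nonneg_right ?_ hn0.le
        have : (2 : ℝ) ≤ D ^ 2 := by nlinarith
        calc 2 * D ≤ D ^ 2 * D := mul_le_mul_of_nonneg_right this hD0.le
          _ = D ^ 3 := by ring
      calc 2 * D * (Fintype.card ι : ℝ) *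
            (((E s' \ E1 s').filter (fun i => K.a i = p)).card : ℝ) ≤
            D ^ 3 * (Fintype.card ι : ℝ) *
            ((((E s').filter (fun i => K.a i = p)).filter
              (fun i => v p < L.del x i)).card : ℝ) :=
            mul_le_mul h3 h2 (Nat.cast_nonneg _) (by positivity)
        _ ≤ K.N := h1.le
    · have h1 : E1 s' = E s' := by
        rw [hE1]
        exact if_neg hs'
      rw [h1, Finset.sdiff_self, Finset.filter_empty, Finset.card_empty, Nat.cast_zero,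
        mul_zero]
      exact hN0.le
  -- the bad lines
  set Pb := P.filter (fun p => rad K (PS K r m H) s0 e0 r (4 * x - 1) p < v p) with hPb
  by_cases hcase : 2 * Pb.card ≤ P.card
  · -- few bad lines
    have hsub : P \ Pb ⊆ P := Finset.sdiff_subset
    have hPbP : Pb ⊆ P := Finset.filter_subset _ _
    have hcard : (P.card : ℝ) ≤ 2 * ((P \ Pb).card : ℝ) := by
      have h1 := Finset.card_sdiff_add_card_eq_card hPbP
      have h2 : P.card ≤ 2 * (P \ Pb).card := by omega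
      exact_mod_cast h2
    have h2 := hTS2 ι K r m H (2 * D) 2 P (P \ Pb) E1 (by linarith) (by norm_num) hTSE1 hsub
      hcard
    refine ⟨P \ Pb, fun s' => (E1 s').filter (fun i => K.a i ∈ P \ Pb),
      ⟨hsub, fun s' => (Finset.filter_subset _ _).trans (hE1sub s')⟩, ?_, ?_⟩
    · refine hMono ι K r m H (2 * D * 2) (D ^ 3) _ _ ?_ h2
      have : (4 : ℝ) ≤ D ^ 2 := by nlinarith
      calc 2 * D * 2 = 4 * D := by ring
        _ ≤ D ^ 2 * D := mul_le_mul_of_nonneg_right this hD0.le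
        _ = D ^ 3 := by ring
    · intro i hi
      rw [Finset.mem_filter, hE1s, Finset.mem_filter, Finset.mem_sdiff, hPb,
        Finset.mem_filter] at hi
      obtain ⟨⟨_, h3⟩, h4, h5⟩ := hi
      refine h3.trans ?_
      by_contra hcon
      rw [not_le] at hcon
      exact h5 ⟨h4, hcon⟩
  · -- many bad lines: contradiction
    exfalso
    rw [not_le] at hcase
    have hPbP : Pb ⊆ P := Finset.filter_subset _ _
    set F := (E s).filter (fun i => K.a i ∈ Pb ∧ v (K.a i) ≤ L.del x i) with hF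
    have hFE : F ⊆ E s := Finset.filter_subset _ _
    have hFhyg : ∀ i ∈ F, Hyg K r m H i := fun i hi => hTwo.ts.hyg s i (hFE hi)
    have hFdeg : ∀ p ∈ Pb, (K.N : ℝ) ≤ D ^ 3 * (Fintype.card ι : ℝ) *
        ((F.filter (fun i => K.a i = p)).card : ℝ) := by
      intro p hp
      have h1 := (hv p (hPbP hp)).1
      have h2 : F.filter (fun i => K.a i = p) =
          ((E s).filter (fun i => K.a i = p)).filter (fun i => v p ≤ L.del x i) := by
        ext i
        simp only [hF, Finset.mem_filter]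
        constructor
        · rintro ⟨⟨h3, h4, h5⟩, h6⟩
          rw [h6] at h5
          exact ⟨⟨h3, h6⟩, h5⟩
        · rintro ⟨⟨h3, h6⟩, h5⟩
          exact ⟨⟨h3, by rw [h6]; exact hp, by rw [h6]; exact h5⟩, h6⟩
      rw [h2]
      exact h1
    have hFcard : (K.N : ℝ) ≤ 2 * D ^ 4 * (F.card : ℝ) := by
      have h1 : F.card = ∑ p ∈ Pb, (F.filter (fun i => K.a i = p)).card := by
        refine Finset.card_eq_sum_card_fiberwise (f := K.a) ?_
        intro i hi
        have hi' : i ∈ F := hi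
        rw [hF, Finset.mem_filter] at hi'
        exact hi'.2.1
      have h2 : (Pb.card : ℝ) * K.N ≤ D ^ 3 * (Fintype.card ι : ℝ) * (F.card : ℝ) := by
        rw [h1, Nat.cast_sum, Finset.mul_sum, ← nsmul_eq_mul, ← Finset.sum_const]
        exact Finset.sum_le_sum fun p hp => hFdeg p hp
      have h3 : (Fintype.card ι : ℝ) ≤ D * P.card := hTwo.ts.big
      have h4 : (P.card : ℝ) ≤ 2 * Pb.card := by exact_mod_cast hcase.le
      have h5 : (Fintype.card ι : ℝ) * K.N ≤ (Fintype.card ι : ℝ) * (2 * D ^ 4 * (F.card : ℝ)) := by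
        calc (Fintype.card ι : ℝ) * K.N ≤ (D * (2 * Pb.card)) * K.N := by
              refine mul_le_mul_of_nonneg_right (h3.trans ?_) hN0.le
              exact mul_le_mul_of_nonneg_left h4 hD0.le
          _ = 2 * D * ((Pb.card : ℝ) * K.N) := by ring
          _ ≤ 2 * D * (D ^ 3 * (Fintype.card ι : ℝ) * (F.card : ℝ)) :=
              mul_le_mul_of_nonneg_left h2 (by linarith)
          _ = (Fintype.card ι : ℝ) * (2 * D ^ 4 * (F.card : ℝ)) := by ring
      exact le_of_mul_le_mul_left h5 hn0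
    -- cells of level 0
    have hcell0 : ∀ i, i < K.N → cell K r 0 i = 0 := by
      intro i hi
      show i * r ^ (4 * 0) / K.N = 0
      rw [Nat.mul_zero, pow_zero, Nat.mul_one]
      exact Nat.div_eq_of_lt hi
    have hFlt : ∀ i ∈ F, i < K.N := fun i hi => (hFhyg i hi).lt
    have hD4 : (1 : ℝ) ≤ D ^ 4 := one_le_pow₀ (by linarith)
    -- choice of one line in every class
    obtain ⟨pf, hpf1, hpf2⟩ := hAV ι ℕ K r m x 0 hr1 (Nat.zero_le x) hxm H (D ^ 4) hH0
      (by positivity) hNpos (fun i => κ x (K.a i)) F hFhyg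
      (fun i _ j _ h _ => by show κ x (K.a i) = κ x (K.a j); rw [h])
      (by
        intro i hi
        have hiPb : K.a i ∈ Pb := by
          rw [hF, Finset.mem_filter] at hi
          exact hi.2.1
        have h1 := hFdeg (K.a i) hiPb
        have h2 : F.filter (fun j => K.a j = K.a i ∧ cell K r 0 j = cell K r 0 i) =
            F.filter (fun j => K.a j = K.a i) := by
          refine Finset.filter_congr fun j hj => ?_
          constructor
          · intro h
            exact h.1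
          · intro h
            exact ⟨h, by rw [hcell0 j (hFlt j hj), hcell0 i (hFlt i hi)]⟩
        rw [h2, pow_zero, mul_one]
        refine h1.trans (mul_le_mul_of_nonneg_right (mul_le_mul_of_nonneg_right ?_ hn0.le)
          (Nat.cast_nonneg _))
        exact pow_le_pow_right₀ (by linarith) (by norm_num))
      (by
        intro i hi
        have h1 := hhash.act (κ x (K.a i))
        have hsub : (F.filter (fun j => κ x (K.a j) = κ x (K.a i))).image (cell K r x) ⊆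
            ((E s).filter (fun j => κ x (K.a j) = κ x (K.a i))).image (cell K r x) :=
          Finset.image_subset_image (Finset.filter_subset_filter _ hFE)
        have h2 : (((F.filter (fun j => κ x (K.a j) = κ x (K.a i))).image
            (cell K r x)).card : ℝ) ≤ (((E s).filter
            (fun j => κ x (K.a j) = κ x (K.a i))).image (cell K r x)).card := by
          exact_mod_cast Finset.card_le_card hsub
        refine (h2.trans h1).trans ?_
        rw [Nat.sub_zero]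
        refine mul_le_mul_of_nonneg_right ?_ (by positivity)
        calc D = D ^ 1 := (pow_one _).symm
          _ ≤ D ^ 4 := pow_le_pow_right₀ (by linarith) (by norm_num))
    set F2 := F.filter (fun i => ∃ j ∈ F, κ x (K.a j) = κ x (K.a i) ∧
      K.a j = pf (κ x (K.a i)) ∧ cell K r x j = cell K r x i) with hF2
    have hpf2' : (F.card : ℝ) ≤ H * (D ^ 4) ^ 2 * (F2.card : ℝ) := by
      convert hpf2 using 4
    have hF2F : F2 ⊆ F := Finset.filter_subset _ _
    have hNF2 : (K.N : ℝ) ≤ D ^ 14 * (F2.card : ℝ) := by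
      have h1 : H * (D ^ 4) ^ 2 ≤ D ^ 9 := by
        calc H * (D ^ 4) ^ 2 ≤ D * (D ^ 4) ^ 2 :=
              mul_le_mul_of_nonneg_right hHD (by positivity)
          _ = D ^ 9 := by ring
      have hf2 : (0 : ℝ) ≤ (F2.card : ℝ) := Nat.cast_nonneg _
      have h8 : (F.card : ℝ) ≤ D ^ 9 * (F2.card : ℝ) :=
        hpf2'.trans (mul_le_mul_of_nonneg_right h1 hf2)
      exact X3UP.comb (K.N : ℝ) (F.card : ℝ) (F2.card : ℝ) D hD2 hf2 hFcard h8
    have hd4 := X3UP.dense4 (Fintype.card ι : ℝ) K.N H hn0.le hBig.std.dense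
    have h45 := X3UP.low45 (Fintype.card ι : ℝ) K.N (F2.card : ℝ) H D hH1 hHD hN0.le hd4
      (Nat.cast_nonneg _) hNF2
    have h32 := X3UP.big32 (Fintype.card ι : ℝ) (F2.card : ℝ) D hD2 (Nat.cast_nonneg _) hD64 h45
    -- the sum of the sizes of the classes
    have hsumV : ∑ U ∈ F2.image (fun i => κ x (K.a i)),
        ((PS K r m H).filter (fun q => κ x q = U)).card ≤ Fintype.card ι := by
      rw [← Finset.card_biUnion]
      · exact Finset.card_le_univ _
      · intro U _ U' _ hne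
        rw [Function.onFun, Finset.disjoint_left]
        intro q h1 h2
        rw [Finset.mem_filter] at h1 h2
        exact hne (h1.2.symm.trans h2.2)
    have hPSb := hPS ι K r m H D P E hn0' hDltr hr1 hTwo.ts (4 * x - 1) (by omega)
    have hrad := (hRad ι K (PS K r m H) s0 e0 r hbase hr1 (4 * x - 1) hPSb).2.2.1
    have hdist := (hDist ι K s0 e0 hbase).2.2.2.2.2
    have hmain := hP2' ι ℕ K hBig.std.inj hBig.gp r m x 0 hr1 (Nat.zero_le x) hxm H hH0.le
      (fun i => κ x (K.a i)) (fun U => ((PS K r m H).filter (fun q => κ x q = U)).card) F2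
      (fun i hi => Finset.mem_range.mpr (hFlt i (hF2F hi)))
      (fun i hi => hFhyg i (hF2F hi))
      (fun i hi j hj _ => by rw [hcell0 i (hFlt i (hF2F hi)), hcell0 j (hFlt j (hF2F hj))])
      (by
        intro U _ s'
        refine Finset.card_le_card ?_
        intro q hq
        rw [Finset.mem_image] at hq
        obtain ⟨i, hi, rfl⟩ := hq
        rw [Finset.mem_filter] at hi
        rw [Finset.mem_filter]
        refine ⟨(hFhyg i (hF2F hi.1)).ps s', ?_⟩
        cases s'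
        · exact hi.2
        · show κ x (K.b i) = U
          rw [← hhash.edge i (hFE (hF2F hi.1))]
          exact hi.2)
      (by
        have h1 : 32 * Fintype.card ι ≤ F2.card := by exact_mod_cast h32
        exact (Nat.mul_le_mul_left 32 hsumV).trans h1)
      (fun U => (PS K r m H).filter (fun q => dist0 K s0 e0 (pf U) q < v (pf U)))
      ((Fintype.card ι : ℝ) / (r : ℝ) ^ (4 * x - 1))
      (by
        intro i hi
        have hi' := hi
        rw [hF2, Finset.mem_filter] at hi'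
        obtain ⟨hiF, j, hjF, hj1, hj2, hj3⟩ := hi'
        have hjF' := hjF
        rw [hF, Finset.mem_filter] at hjF'
        obtain ⟨hjE, hjb, hjv⟩ := hjF'
        rw [hj2] at hjb hjv
        have hjrad : rad K (PS K r m H) s0 e0 r (4 * x - 1) (pf (κ x (K.a i))) <
            v (pf (κ x (K.a i))) := by
          rw [hPb, Finset.mem_filter] at hjb
          exact hjb.2
        refine ⟨?_, ?_, ?_⟩
        · have h1 := hrad (pf (κ x (K.a i))) _ hjrad
          rw [div_le_iff₀ (by positivity)]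
          have h2 : (Fintype.card ι : ℝ) < ((mass K (PS K r m H) s0 e0 (pf (κ x (K.a i)))
              (v (pf (κ x (K.a i)))) * r ^ (4 * x - 1) : ℕ) : ℝ) := by exact_mod_cast h1
          rw [Nat.cast_mul, Nat.cast_pow] at h2
          unfold mass at h2
          exact h2.le
        · intro q hq
          rw [Finset.mem_filter] at hq
          have hq1 := hq.1
          unfold PS at hq1
          rw [Finset.mem_filter] at hq1
          rw [hcell0 i (hFlt i hiF)]
          unfold PSr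
          rw [Finset.mem_filter]
          refine ⟨?_, ?_⟩
          · have h1 : ce K r 0 0 = range K.N := by
              unfold ce
              refine Finset.filter_true_of_mem fun k hk => ?_
              exact hcell0 k (Finset.mem_range.mp hk)
            unfold vis
            rw [h1]
            exact hq1.1
          · intro x' _ hx'
            rw [Nat.sub_zero]
            refine le_trans ?_ (hq1.2 x' hx')
            have h1 : Wr K r 0 0 x' q ≤ W K r x' q := by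
              unfold Wr W
              refine Finset.card_le_card fun w hw => ?_
              rw [Finset.mem_filter] at hw ⊢
              exact ⟨hw.1, hw.2.2⟩
            exact_mod_cast h1
        · intro q hq
          rw [Finset.mem_filter] at hq
          have h1 := hlab.hull x hx1' hxm j hjE
          rw [← hj3]
          refine hlab.clo x hx1' hxm j hjE q ?_ ?_
          · rw [hj2, abs_sub_comm]
            refine lt_of_le_of_lt (hdist _ _ _ h1.1 (h1.2.1.le.trans h1.2.2.1)) ?_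
            exact lt_of_lt_of_le hq.2 hjv
          · rw [hj2, abs_sub_comm]
            refine lt_of_le_of_lt (hdist _ _ _ (h1.1.trans h1.2.1.le) h1.2.2.1) ?_
            exact lt_of_lt_of_le hq.2 hjv)
    -- conclusion
    have hsumR : ((∑ U ∈ F2.image (fun i => κ x (K.a i)),
        ((PS K r m H).filter (fun q => κ x q = U)).card : ℕ) : ℝ) ≤
        (Fintype.card ι : ℝ) := by exact_mod_cast hsumV
    have h6 : (Fintype.card ι : ℝ) / (r : ℝ) ^ (4 * x - 1) * (F2.card : ℝ) ^ 3 *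
        (r : ℝ) ^ (4 * x + 0) ≤ C0 * H ^ 4 * (Fintype.card ι : ℝ) ^ 3 *
        (Fintype.card ι : ℝ) ^ 2 := by
      refine hmain.trans ?_
      refine mul_le_mul_of_nonneg_left ?_ (by positivity)
      exact pow_le_pow_left₀ (Nat.cast_nonneg _) hsumR 2
    have h7 : (r : ℝ) ^ (4 * x + 0) = (r : ℝ) ^ (4 * x - 1) * r := by
      rw [← pow_succ]
      congr 1
      omega
    rw [h7] at h6
    have h8 : (Fintype.card ι : ℝ) / (r : ℝ) ^ (4 * x - 1) * (F2.card : ℝ) ^ 3 *
        ((r : ℝ) ^ (4 * x - 1) * r) = (Fintype.card ι : ℝ) * ((r : ℝ) * (F2.card : ℝ) ^ 3) := by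
      exact X3UP.canc _ _ _ _ (pow_ne_zero _ hr0.ne')
    rw [h8] at h6
    have h9 : (r : ℝ) * (F2.card : ℝ) ^ 3 ≤ C0 * H ^ 4 * (Fintype.card ι : ℝ) ^ 4 := by
      refine le_of_mul_le_mul_left ?_ hn0
      calc (Fintype.card ι : ℝ) * ((r : ℝ) * (F2.card : ℝ) ^ 3) ≤
            C0 * H ^ 4 * (Fintype.card ι : ℝ) ^ 3 * (Fintype.card ι : ℝ) ^ 2 := h6
        _ = (Fintype.card ι : ℝ) * (C0 * H ^ 4 * (Fintype.card ι : ℝ) ^ 4) := by ring
    exact X3UP.num (Fintype.card ι : ℝ) (F2.card : ℝ) H D r C0 c0 hn0 hH1 hHD hD2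
      (Nat.cast_nonneg _) h45 hC01 hc0 hDr h9

end Pool.Agent.Work.MP_e17eac_co.BB

end

section

/-! Last step: regularity of the set of lines. -/

namespace Pool.Agent.Work.MP_e17eac_co.CFG

open Finset Real

variable {ι α β : Type} {s d : ℕ} {q θ M F : ℝ} {U : ℕ → ℝ} {PS PG : Finset ι} {u v : ι → ℝ}
  {p0 : ι} {Al : Finset β} {tm : β → ℝ} {A : ι → Finset β} {S : ι → β → Finset α}
  {Un : β → Finset α}

/-- Coordinates of a line. -/
noncomputable def pt (u v : ι → ℝ) (p0 : ι) (υ : ℝ) (p : ι) : ℝ × ℝ :=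
  (-(((v p - v p0) - (u p - u p0)) / υ), (u p - u p0) / υ)

theorem pt_val (u v : ι → ℝ) (p0 : ι) (υ x : ℝ) (p : ι) :
    (pt u v p0 υ p).2 - x * (pt u v p0 υ p).1 = (val u v x p - val u v x p0) / υ := by
  unfold pt val
  ring

open Classical in
theorem sum_mass (PS B : Finset ι) (u v : ι → ℝ) (υ ρ : ℝ) (p1 : ι)
    (hsep : ∀ p ∈ B, ∀ p' ∈ B, p ≠ p' → υ ≤ d0 u v p p')
    (hin : ∀ p ∈ B, υ / 2 + d0 u v p p1 ≤ ρ) :
    ∑ p ∈ B, (mass PS u v p (υ / 2) : ℝ) ≤ (mass PS u v p1 ρ : ℝ) := by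
  have h : (B.biUnion (fun p => PS.filter (fun s => d0 u v s p < υ / 2))).card =
      ∑ p ∈ B, (PS.filter (fun s => d0 u v s p < υ / 2)).card := by
    apply Finset.card_biUnion
    intro p hp p' hp' hne
    rw [Function.onFun, Finset.disjoint_left]
    intro z hz hz'
    rw [Finset.mem_filter] at hz hz'
    have h1 := hsep p hp p' hp' hne
    have h2 := d0_tri u v p z p'
    rw [d0_comm u v p z] at h2
    linarith [hz.2, hz'.2]
  have h2 : (B.biUnion (fun p => PS.filter (fun s => d0 u v s p < υ / 2))) ⊆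
      PS.filter (fun s => d0 u v s p1 < ρ) := by
    intro z hz
    rw [Finset.mem_biUnion] at hz
    obtain ⟨p, hp, hz⟩ := hz
    rw [Finset.mem_filter] at hz ⊢
    refine ⟨hz.1, ?_⟩
    have h3 := d0_tri u v z p p1
    have h4 := hin p hp
    linarith [hz.2]
  have h3 := Finset.card_le_card h2
  rw [h] at h3
  unfold mass
  exact_mod_cast h3

theorem U_le (h : Cfg s d q θ M F U PS PG u v p0 Al tm A S Un) (hd : 2 ≤ d) : U 0 ≤ U d := by
  have h1 := h.lin_lo 0 d (by omega)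
  rw [Nat.zero_add] at h1
  have h2 := th_pos h.hq h.hθ
  have h3 : (2 : ℝ) ≤ d := by exact_mod_cast hd
  have : 0 ≤ θ * ((d : ℝ) - 2) := mul_nonneg h2.le (by linarith)
  linarith

open Classical in
theorem regT' (h : Cfg s d q θ M F U PS PG u v p0 Al tm A S Un) (hd : 2 ≤ d) (T0 : Finset ι)
    (hT : T0 ⊆ PG) (hsep : ∀ p ∈ T0, ∀ p' ∈ T0, p ≠ p' → exp (-U d) ≤ d0 u v p p')
    (z : ℝ × ℝ) (r : ℝ) (hr : 1 ≤ r) :
    (((T0.image (pt u v p0 (exp (-U d)))).filter
      fun p => |p.1 - z.1| ≤ r ∧ |p.2 - z.2| ≤ r).card : ℝ) ≤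
      q ^ (2 * s + 20) * r ^ (2 * (log q / θ)) := by
  have hlq := lq_pos h.hq
  have hq1 : 1 ≤ q := by linarith [h.hq]
  have hrpos : 0 < r := by linarith
  have hapos := a_pos h.hq h.hθ
  have hale := a_le h.hq h.hθ
  set a := log q / θ with ha
  have hra : 1 ≤ r ^ (2 * a) := Real.one_le_rpow hr (by linarith)
  set υ := exp (-U d) with hυ
  have hυpos : 0 < υ := Real.exp_pos _
  have hmono : ∀ x y : ℝ, x ≤ y → exp (x * log q) ≤ exp (y * log q) := fun x y hxy =>
    Real.exp_le_exp.2 (mul_le_mul_of_nonneg_right hxy hlq.le)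
  set B := T0.filter (fun p => |(pt u v p0 υ p).1 - z.1| ≤ r ∧ |(pt u v p0 υ p).2 - z.2| ≤ r)
    with hB
  have h0 : (((T0.image (pt u v p0 υ)).filter
      fun p => |p.1 - z.1| ≤ r ∧ |p.2 - z.2| ≤ r).card : ℝ) ≤ (B.card : ℝ) := by
    rw [Finset.filter_image]
    exact_mod_cast Finset.card_image_le
  refine h0.trans ?_
  rcases B.eq_empty_or_nonempty with he | ⟨p1, hp1⟩
  · rw [he]; simp; positivity
  have hBT : ∀ p ∈ B, p ∈ T0 := fun p hp => (Finset.mem_filter.1 hp).1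
  have hdist : ∀ p ∈ B, d0 u v p p1 ≤ 4 * r * υ := by
    intro p hp
    have e1 := (Finset.mem_filter.1 hp).2
    have e2 := (Finset.mem_filter.1 hp1).2
    have f1 : |(pt u v p0 υ p).2 - (pt u v p0 υ p1).2| ≤ 2 * r := by
      have := abs_sub_le (pt u v p0 υ p).2 z.2 (pt u v p0 υ p1).2
      rw [abs_sub_comm z.2] at this
      linarith [e1.2, e2.2]
    have f2 : |(pt u v p0 υ p).1 - (pt u v p0 υ p1).1| ≤ 2 * r := by
      have := abs_sub_le (pt u v p0 υ p).1 z.1 (pt u v p0 υ p1).1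
      rw [abs_sub_comm z.1] at this
      linarith [e1.1, e2.1]
    have g1 : (pt u v p0 υ p).2 - (pt u v p0 υ p1).2 = (u p - u p1) / υ := by
      unfold pt; ring
    have g2 : (pt u v p0 υ p).1 - (pt u v p0 υ p1).1 = -(((v p - v p1) - (u p - u p1)) / υ) := by
      unfold pt; ring
    rw [g1, abs_div, abs_of_pos hυpos, div_le_iff₀ hυpos] at f1
    rw [g2, abs_neg, abs_div, abs_of_pos hυpos, div_le_iff₀ hυpos] at f2
    have f3 : |v p - v p1| ≤ 4 * r * υ := by
      have : v p - v p1 = ((v p - v p1) - (u p - u p1)) + (u p - u p1) := by ring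
      rw [this]
      refine (abs_add_le _ _).trans ?_
      linarith
    unfold d0
    apply max_le _ f3
    have : 0 < r * υ := by positivity
    linarith
  have hU := U_le h hd
  have hυ0 : υ ≤ exp (-U 0) := Real.exp_le_exp.2 (by linarith)
  obtain ⟨i, hi, hP, hc⟩ := find d (fun i => min (5 * r * υ) (exp (-U 0)) ≤ exp (-U i))
    (min_le_right _ _)
  have hin : ∀ p ∈ B, υ / 2 + d0 u v p p1 ≤ exp (-U i) := by
    intro p hp
    refine le_trans (le_min ?_ ?_) hP
    · have := hdist p hp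
      have h3 : υ ≤ r * υ := le_mul_of_one_le_left hυpos.le hr
      linarith
    · have h3 := d0_tri u v p p0 p1
      rw [d0_comm u v p0 p1] at h3
      have h4 := h.box p (hT (hBT p hp))
      have h5 := h.box p1 (hT (hBT p1 hp1))
      linarith
  have hsum := sum_mass PS B u v υ (exp (-U i)) p1
    (fun p hp p' hp' hne => hsep p (hBT p hp) p' (hBT p' hp') hne) hin
  have hlow : (B.card : ℝ) * M ≤ q ^ (2 * d + s) * (mass PS u v p1 (exp (-U i)) : ℝ) := by
    calc (B.card : ℝ) * M = ∑ p ∈ B, M := by rw [Finset.sum_const, nsmul_eq_mul]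
      _ ≤ ∑ p ∈ B, q ^ (2 * d + s) * (mass PS u v p (υ / 2) : ℝ) :=
          Finset.sum_le_sum fun p hp => h.mass_lo p (hT (hBT p hp))
      _ = q ^ (2 * d + s) * ∑ p ∈ B, (mass PS u v p (υ / 2) : ℝ) := by rw [Finset.mul_sum]
      _ ≤ _ := mul_le_mul_of_nonneg_left hsum (by positivity)
  have hhi := h.mass_hi p1 (hT (hBT p1 hp1)) i hi
  have hcount : (B.card : ℝ) * q ^ (2 * i) ≤ q ^ (2 * d + 2 * s) := by
    have h1 : M * ((B.card : ℝ) * q ^ (2 * i)) ≤ M * q ^ (2 * d + 2 * s) := by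
      calc M * ((B.card : ℝ) * q ^ (2 * i)) = ((B.card : ℝ) * M) * q ^ (2 * i) := by ring
        _ ≤ (q ^ (2 * d + s) * (mass PS u v p1 (exp (-U i)) : ℝ)) * q ^ (2 * i) :=
            mul_le_mul_of_nonneg_right hlow (by positivity)
        _ = q ^ (2 * d + s) * ((mass PS u v p1 (exp (-U i)) : ℝ) * q ^ (2 * i)) := by ring
        _ ≤ q ^ (2 * d + s) * (M * q ^ s) := mul_le_mul_of_nonneg_left hhi (by positivity)
        _ = M * q ^ (2 * d + 2 * s) := by ring
    exact le_of_mul_le_mul_left h1 h.hM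
  have hcount2 : (B.card : ℝ) ≤ exp ((2 * (d : ℝ) - 2 * i + 2 * s) * log q) := by
    have h1 : (B.card : ℝ) * q ^ (2 * i) ≤
        exp ((2 * (d : ℝ) - 2 * i + 2 * s) * log q) * q ^ (2 * i) := by
      refine hcount.trans (le_of_eq ?_)
      rw [q_pow h.hq, q_pow h.hq, ← Real.exp_add, ← add_mul]
      congr 2
      push_cast
      ring
    exact le_of_mul_le_mul_right h1 (by positivity)
  by_cases hid : i = d
  · subst hid
    calc (B.card : ℝ) ≤ exp ((2 * (i : ℝ) - 2 * i + 2 * s) * log q) := hcount2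
      _ ≤ q ^ (2 * s + 20) := by
          rw [q_pow h.hq]
          apply hmono
          push_cast
          linarith
      _ ≤ _ := le_mul_of_one_le_right (by positivity) hra
  · have hc' : ¬ (min (5 * r * υ) (exp (-U 0)) ≤ exp (-U (i + 1))) := by
      rcases hc with hc | hc
      · exact absurd hc hid
      · exact hc
    have hlt : i + 1 ≤ d := by omega
    rw [not_le] at hc'
    have h3 : exp (-U (i + 1)) < 5 * r * υ := lt_of_lt_of_le hc' (min_le_left _ _)
    have h4 : -U (i + 1) < log 5 + log r + -U d := by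
      have h5 := Real.log_lt_log (Real.exp_pos _) h3
      rw [Real.log_exp, Real.log_mul (by positivity) hυpos.ne', Real.log_mul (by norm_num) hrpos.ne',
        hυ, Real.log_exp] at h5
      exact h5
    have h5 := h.lin_lo (i + 1) (d - (i + 1)) (by omega)
    rw [Nat.add_sub_cancel' hlt, Nat.cast_sub hlt] at h5
    push_cast at h5
    have h6 : log (5 : ℝ) ≤ θ := by
      have h7 : log (5 : ℝ) ≤ log q := Real.log_le_log (by norm_num) (by linarith [h.hq])
      linarith [h.hθ]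
    have h7 := rpow_ge h.hq h.hθ (k := (d : ℝ) - i - 4) hrpos (by
      have : θ * ((d : ℝ) - i - 4) = θ * ((d : ℝ) - (i + 1) - 2) - θ := by ring
      rw [this]
      linarith)
    have h8 : exp ((2 * (d : ℝ) - 2 * i - 8) * log q) ≤ r ^ (2 * a) := by
      have e1 : exp ((2 * (d : ℝ) - 2 * i - 8) * log q) = exp (((d : ℝ) - i - 4) * log q) *
          exp (((d : ℝ) - i - 4) * log q) := by
        rw [← Real.exp_add, ← add_mul]
        congr 2
        ring
      have e2 : r ^ (2 * a) = r ^ a * r ^ a := by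
        rw [← Real.rpow_add hrpos]
        congr 1
        ring
      rw [e1, e2]
      exact mul_le_mul h7 h7 (Real.exp_pos _).le (by positivity)
    calc (B.card : ℝ) ≤ exp ((2 * (d : ℝ) - 2 * i + 2 * s) * log q) := hcount2
      _ ≤ q ^ (2 * s + 20) * exp ((2 * (d : ℝ) - 2 * i - 8) * log q) := by
          rw [q_pow h.hq, ← Real.exp_add, ← add_mul]
          apply hmono
          push_cast
          linarith
      _ ≤ _ := mul_le_mul_of_nonneg_left h8 (by positivity)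

end Pool.Agent.Work.MP_e17eac_co.CFG

end

section

/-!
# FLUX: geometric part
-/

namespace Pool.Agent.Work.MP_e17eac_co.B4

open Finset
open Pool.Agent.Work.MP_e17eac_co.DH
open Pool.Agent.Work.MP_e17eac_co.B1
open Pool.Agent.Work.MP_e17eac_co.BB

variable {ι : Type} [Fintype ι] [DecidableEq ι]

/-- Lines of the core of the centre of `a i` are near to `a i`. -/
theorem core_near (K : KSys ι) {r m : ℕ} {H s0 e0 : ℝ} {j : ℕ} {p z q : ι}
    (h1 : 10 * dist0 K s0 e0 p z ≤ 2 * rd K r m H s0 e0 j z)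
    (h2 : 4 * rd K r m H s0 e0 j z ≤ 5 * rd K r m H s0 e0 j p)
    (hq : q ∈ Nb K r m H s0 e0 j 1 z) :
    8 * dist0 K s0 e0 p q < 3 * rd K r m H s0 e0 j p := by
  have h3 : dist0 K s0 e0 z q < 1 * rd K r m H s0 e0 j z / 10 := (mem_filter.1 hq).2
  have h4 := dist0_tri K s0 e0 p z q
  linarith

/-- The core of the centre of `a i` is visited in the cell of `i`. -/
theorem core_vis {K : KSys ι} {r m : ℕ} {H D s0 e0 : ℝ} {L : Lab} {κ : ℕ → ι → ℕ}
    {e kp l X2 X4 : ℕ} {S E : Finset ℕ} (ho : One K r m H D s0 e0 L κ e kp l X2 X4 S E)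
    (hr : 4 ≤ r) {x : ℕ} (hx : x ∈ S) {i : ℕ} (hi : i ∈ E) {j : ℕ}
    (hg : (r : ℝ) ^ 2 * rd K r m H s0 e0 j (K.a i) ≤ rd K r m H s0 e0 (4 * x + kp) (K.a i))
    {z : ι}
    (h1 : 10 * dist0 K s0 e0 (K.a i) z ≤ 2 * rd K r m H s0 e0 j z)
    (h2 : 4 * rd K r m H s0 e0 j z ≤ 5 * rd K r m H s0 e0 j (K.a i)) :
    Nb K r m H s0 e0 j 1 z ⊆ vis K r x (cell K r x i) := by
  intro q hq
  have h3 := core_near K h1 h2 hq
  have hxI := mem_Icc.1 (ho.sub hx)
  have hlev := ho.lev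
  have hx1 : 1 ≤ x := by omega
  have hxm : x ≤ m := by omega
  have hlow := ho.low x hx i hi
  have hr4 : (4 : ℝ) ≤ r := by exact_mod_cast hr
  have hhull := ho.lab.hull x hx1 hxm i hi
  have hpos := ho.lab.pos x hx1 hxm i hi
  have h4 : (r : ℝ) * (r * rd K r m H s0 e0 j (K.a i)) ≤ r * L.del x i := by
    have : rd K r m H s0 e0 (4 * x + kp) (K.a i) ≤ r * L.del x i := hlow
    nlinarith
  have h5 : (r : ℝ) * rd K r m H s0 e0 j (K.a i) ≤ L.del x i :=
    le_of_mul_le_mul_left h4 (by linarith)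
  have hd0 := dist0_nonneg K s0 e0 (K.a i) q
  have h6 : dist0 K s0 e0 (K.a i) q < L.del x i := by
    have h7 : 0 ≤ rd K r m H s0 e0 j (K.a i) := by linarith
    nlinarith
  refine ho.lab.clo x hx1 hxm i hi q ?_ ?_
  · rw [abs_sub_comm]
    exact lt_of_le_of_lt (abs_ht_le K s0 e0 _ _ _ hhull.1 (by linarith [hhull.2.1, hhull.2.2.1])) h6
  · rw [abs_sub_comm]
    exact lt_of_le_of_lt (abs_ht_le K s0 e0 _ _ _ (by linarith [hhull.2.1, hhull.1])
      hhull.2.2.1) h6

/-- The cores of the centres of a class of level `y` are in a ball. -/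
theorem core_ball {K : KSys ι} {r m : ℕ} {H D s0 e0 : ℝ} {L : Lab} {κ : ℕ → ι → ℕ}
    {e kp l X2 X4 : ℕ} {S E : Finset ℕ} (ho : One K r m H D s0 e0 L κ e kp l X2 X4 S E)
    (hr : 4 ≤ r) {y : ℕ} (hy1 : X2 ≤ y) (hy2 : y ≤ X4) {i i0 : ℕ} (hi : i ∈ E) (hi0 : i0 ∈ E)
    (hk : κ y (K.a i0) = κ y (K.a i)) {j : ℕ} (hj : 4 * y - 1 ≤ j)
    (hS : ∀ j' : ℕ, 1 ≤ j' → (Fintype.card ι : ℝ) < (PS K r m H).card * (r : ℝ) ^ j')
    (hpos : 0 < rd K r m H s0 e0 (4 * y - 1) (K.a i0))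
    {j2 : ℕ}
    (hg : (r : ℝ) ^ 2 * rd K r m H s0 e0 (4 * y - 1) (K.a i0) ≤ rd K r m H s0 e0 j2 (K.a i0))
    {z : ι}
    (h1 : 10 * dist0 K s0 e0 (K.a i) z ≤ 2 * rd K r m H s0 e0 j z)
    (h2 : 4 * rd K r m H s0 e0 j z ≤ 5 * rd K r m H s0 e0 j (K.a i)) :
    Nb K r m H s0 e0 j 1 z ⊆ (PS K r m H).filter
      (fun s => dist0 K s0 e0 (K.a i0) s < rad K (PS K r m H) s0 e0 r j2 (K.a i0)) := by
  intro q hq
  have hqP : q ∈ PS K r m H := (mem_filter.1 hq).1
  have h3 := core_near K h1 h2 hq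
  have hlev := ho.lev
  have hr4 : (4 : ℝ) ≤ r := by exact_mod_cast hr
  have hdm : dist0 K s0 e0 (K.a i0) (K.a i) ≤ r * rd K r m H s0 e0 (4 * y - 1) (K.a i0) :=
    ho.dm y hy1 hy2 i0 hi0 i hi hk
  have hlip : rd K r m H s0 e0 (4 * y - 1) (K.a i) ≤
      rd K r m H s0 e0 (4 * y - 1) (K.a i0) + dist0 K s0 e0 (K.a i0) (K.a i) :=
    rad_lip K (PS K r m H) s0 e0 r (4 * y - 1) (hS _ (by omega))
  have hanti : rd K r m H s0 e0 j (K.a i) ≤ rd K r m H s0 e0 (4 * y - 1) (K.a i) :=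
    rad_anti K (PS K r m H) s0 e0 r (4 * y - 1) (by omega) hj (hS _ (by omega))
  have htri := dist0_tri K s0 e0 (K.a i0) (K.a i) q
  refine mem_filter.2 ⟨hqP, ?_⟩
  have h5 : dist0 K s0 e0 (K.a i0) q <
      (r : ℝ) ^ 2 * rd K r m H s0 e0 (4 * y - 1) (K.a i0) := by
    set ρ := rd K r m H s0 e0 (4 * y - 1) (K.a i0) with hρ
    have e1 : dist0 K s0 e0 (K.a i0) q < 2 * r * ρ := by nlinarith
    have e2 : 2 * r * ρ ≤ (r : ℝ) ^ 2 * ρ :=
      mul_le_mul_of_nonneg_right (by nlinarith) hpos.le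
    linarith
  exact lt_of_lt_of_le h5 hg

/-- Few units. -/
theorem card_units {K : KSys ι} {r m : ℕ} {H D s0 e0 : ℝ} {L : Lab} {κ : ℕ → ι → ℕ}
    {e kp l X2 X4 : ℕ} {S E : Finset ℕ} (ho : One K r m H D s0 e0 L κ e kp l X2 X4 S E)
    (hr : 4 ≤ r) (hn : 0 < Fintype.card ι) {y j k j2 : ℕ} (hy1 : X2 ≤ y) (hy2 : y ≤ X4)
    (hj : 4 * y - 1 ≤ j) (hj2 : j2 ≤ 4 * y - 1) (hj1 : 1 ≤ j2)
    (hS : ∀ j' : ℕ, 1 ≤ j' → (Fintype.card ι : ℝ) < (PS K r m H).card * (r : ℝ) ^ j')
    (hpos : ∀ i ∈ E, 0 < rd K r m H s0 e0 (4 * y - 1) (K.a i))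
    (hg : ∀ i ∈ E, (r : ℝ) ^ 2 * rd K r m H s0 e0 (4 * y - 1) (K.a i) ≤
      rd K r m H s0 e0 j2 (K.a i))
    {E' E'' : Finset ℕ} {Z : Finset ι} {g : ι → ι} (hE' : E' ⊆ E)
    (hV : Vit K r m H s0 e0 j k E' Z g E'') :
    (E''.image (fun i => (κ y (K.a i), g (K.a i)))).card ≤
      r ^ (4 * y + e) * r ^ (j + k - j2) := by
  classical
  set U := E''.image (fun i => (κ y (K.a i), g (K.a i))) with hU
  have hmaps : ∀ u ∈ U, u.1 ∈ (E.image K.a).image (κ y) := by
    intro u hu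
    obtain ⟨i, hi, rfl⟩ := mem_image.1 hu
    exact mem_image_of_mem _ (mem_image_of_mem _ (hE' (hV.sub hi)))
  rw [card_eq_sum_card_fiberwise hmaps]
  refine (sum_le_card_nsmul _ _ (r ^ (j + k - j2)) (fun B _ => ?_)).trans ?_
  · rcases (U.filter (fun u => u.1 = B)).eq_empty_or_nonempty with h | ⟨u0, hu0⟩
    · rw [h]; simp
    · obtain ⟨hu0', hB⟩ := mem_filter.1 hu0
      obtain ⟨i0, hi0, rfl⟩ := mem_image.1 hu0'
      have hi0E : i0 ∈ E := hE' (hV.sub hi0)
      have e1 : (U.filter (fun u => u.1 = B)).card ≤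
          ((U.filter (fun u => u.1 = B)).image Prod.snd).card := by
        refine le_of_eq (card_image_of_injOn ?_).symm
        intro u hu u' hu' huu
        have h1 := (mem_filter.1 hu).2
        have h2 := (mem_filter.1 hu').2
        exact Prod.ext (h1.trans h2.symm) huu
      refine e1.trans ?_
      have hmem : ∀ z ∈ (U.filter (fun u => u.1 = B)).image Prod.snd, ∃ i ∈ E'',
          κ y (K.a i) = B ∧ g (K.a i) = z := by
        intro z hz
        obtain ⟨u, hu, rfl⟩ := mem_image.1 hz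
        obtain ⟨hu1, hu2⟩ := mem_filter.1 hu
        obtain ⟨i, hi, rfl⟩ := mem_image.1 hu1
        exact ⟨i, hi, hu2, rfl⟩
      refine card_centres hn (a := j + k) (b := j2) (by omega) _ (Nb K r m H s0 e0 j 1)
        ((PS K r m H).filter
          (fun s => dist0 K s0 e0 (K.a i0) s < rad K (PS K r m H) s0 e0 r j2 (K.a i0)))
        ?_ ?_ ?_ ?_
      · intro z hz z' hz' hne
        obtain ⟨i, hi, -, rfl⟩ := hmem z hz
        obtain ⟨i', hi', -, rfl⟩ := hmem z' hz'
        exact hV.disj _ (hV.gZ i (hV.sub hi)) _ (hV.gZ i' (hV.sub hi')) hne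
      · intro z hz
        obtain ⟨i, hi, hiB, rfl⟩ := hmem z hz
        have hi' := hV.sub hi
        exact core_ball ho hr hy1 hy2 (hE' hi') hi0E (hB.trans hiB.symm) hj hS (hpos i0 hi0E)
          (hg i0 hi0E) (hV.dist i hi') (hV.ge i hi')
      · intro z hz
        obtain ⟨i, hi, -, rfl⟩ := hmem z hz
        exact hV.core _ (hV.gZ i (hV.sub hi))
      · have := mass_rad K (PS K r m H) s0 e0 r j2 (hS j2 hj1) (p := K.a i0)
        unfold mass at this
        exact_mod_cast this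
  · rw [smul_eq_mul]
    exact Nat.mul_le_mul_right _ (ho.beta y hy1 hy2)

end Pool.Agent.Work.MP_e17eac_co.B4

end

section

/-!
# FLUX: sizes
-/

namespace Pool.Agent.Work.MP_e17eac_co.B4

open Finset
open Pool.Agent.Work.MP_e17eac_co.DH
open Pool.Agent.Work.MP_e17eac_co.B1
open Pool.Agent.Work.MP_e17eac_co.BB

variable {ι : Type} [Fintype ι] [DecidableEq ι]

/-- `n ^ 4 ≤ (H N) ^ 3`. -/
theorem dense4 {K : KSys ι} {r m : ℕ} {H : ℝ} (h : Std K r m H) :
    (Fintype.card ι : ℝ) ^ 4 ≤ (H * K.N) ^ 3 := by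
  have h0 : (0 : ℝ) ≤ Fintype.card ι := Nat.cast_nonneg _
  have h1 : ((Fintype.card ι : ℝ) ^ ((4 : ℝ) / 3)) ^ 3 = (Fintype.card ι : ℝ) ^ 4 := by
    rw [← Real.rpow_natCast, ← Real.rpow_mul h0]
    norm_num
  rw [← h1]
  exact pow_le_pow_left₀ (Real.rpow_nonneg h0 _) h.dense 3

/-- A large set of edges is larger than `4 n r ^ a`. -/
theorem size {K : KSys ι} {r m : ℕ} {H D : ℝ} {C : ℕ} (hb : Big K r m H D C) (hC : 60 ≤ C)
    {F : ℝ} (hF : (K.N : ℝ) ≤ D ^ 11 * F) {a : ℕ} (ha : a ≤ 4 * m) :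
    4 * (Fintype.card ι : ℝ) * (r : ℝ) ^ a ≤ F := by
  have hD2 := hb.D2
  have hD1 : (1 : ℝ) ≤ D := by linarith
  have hn0 : (0 : ℝ) ≤ Fintype.card ι := Nat.cast_nonneg _
  have hr1 : (1 : ℝ) ≤ r := le_trans (one_le_pow₀ hD1) hb.Dr
  have hN0 : (0 : ℝ) ≤ K.N := Nat.cast_nonneg _
  have hH := hb.HD
  have hH1 := hb.std.one
  have h1 : 64 * D ^ 36 ≤ (r : ℝ) := by
    refine le_trans ?_ hb.Dr
    calc 64 * D ^ 36 ≤ D ^ 6 * D ^ 36 := by
          have : (2 : ℝ) ^ 6 ≤ D ^ 6 := pow_le_pow_left₀ (by norm_num) hD2 6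
          have h2 : (64 : ℝ) ≤ D ^ 6 := by linarith
          exact mul_le_mul_of_nonneg_right h2 (by positivity)
      _ = D ^ 42 := by ring
      _ ≤ D ^ C := pow_le_pow_right₀ hD1 (by omega)
  have h2 : 64 * D ^ 36 * (r : ℝ) ^ (3 * a) ≤ Fintype.card ι := by
    refine le_trans ?_ hb.rn
    calc 64 * D ^ 36 * (r : ℝ) ^ (3 * a) ≤ (r : ℝ) * (r : ℝ) ^ (3 * a) :=
          mul_le_mul_of_nonneg_right h1 (by positivity)
      _ = (r : ℝ) ^ (3 * a + 1) := by ring
      _ ≤ (r : ℝ) ^ (C * (m + 1)) := pow_le_pow_right₀ hr1 (by nlinarith)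
  have h3 : (4 * (Fintype.card ι : ℝ) * (r : ℝ) ^ a * D ^ 12) ^ 3 ≤ (H * K.N) ^ 3 := by
    refine le_trans ?_ (dense4 hb.std)
    calc (4 * (Fintype.card ι : ℝ) * (r : ℝ) ^ a * D ^ 12) ^ 3
        = (Fintype.card ι : ℝ) ^ 3 * (64 * D ^ 36 * (r : ℝ) ^ (3 * a)) := by
          rw [show 3 * a = a * 3 by ring, pow_mul]; ring
      _ ≤ (Fintype.card ι : ℝ) ^ 3 * Fintype.card ι :=
          mul_le_mul_of_nonneg_left h2 (by positivity)
      _ = (Fintype.card ι : ℝ) ^ 4 := by ring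
  have h4 : 4 * (Fintype.card ι : ℝ) * (r : ℝ) ^ a * D ^ 12 ≤ H * K.N :=
    le_of_pow_le_pow_left₀ (by norm_num) (by positivity) h3
  have hF0 : 0 ≤ D ^ 11 * F := le_trans hN0 hF
  have h5 : H * K.N ≤ F * D ^ 12 := by
    calc H * K.N ≤ D * K.N := mul_le_mul_of_nonneg_right hH hN0
      _ ≤ D * (D ^ 11 * F) := mul_le_mul_of_nonneg_left hF (by linarith)
      _ = F * D ^ 12 := by ring
  exact le_of_mul_le_mul_right (h4.trans h5) (by positivity)

/-- The logarithm of the number of edges. -/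
theorem log_le {K : KSys ι} {r m : ℕ} {H D : ℝ} {C : ℕ} (hb : Big K r m H D C) (hC : 60 ≤ C)
    {F : ℕ} (hF : F ≤ K.N) : ((Nat.log 2 F : ℝ) + 1) ≤ D ^ 3 := by
  have hD2 := hb.D2
  have hD1 : (1 : ℝ) ≤ D := by linarith
  have hr1 : (1 : ℝ) ≤ r := le_trans (one_le_pow₀ hD1) hb.Dr
  have hHn : H ≤ Fintype.card ι := by
    calc H ≤ D := hb.HD
      _ ≤ D ^ C := le_self_pow₀ hD1 (by omega)
      _ ≤ r := hb.Dr
      _ ≤ (r : ℝ) ^ (C * (m + 1)) := le_self_pow₀ hr1 (by positivity)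
      _ ≤ _ := hb.rn
  have hn1 : (1 : ℝ) ≤ Fintype.card ι := le_trans hb.std.one hHn
  have h1 : (F : ℝ) ≤ (Fintype.card ι : ℝ) ^ 3 := by
    calc (F : ℝ) ≤ K.N := by exact_mod_cast hF
      _ ≤ H * (Fintype.card ι : ℝ) ^ ((4 : ℝ) / 3) := hb.ub
      _ ≤ Fintype.card ι * (Fintype.card ι : ℝ) ^ ((2 : ℝ)) := by
          refine mul_le_mul hHn (Real.rpow_le_rpow_of_exponent_le hn1 (by norm_num))
            (Real.rpow_nonneg (by linarith) _) (by linarith)
      _ = (Fintype.card ι : ℝ) ^ 3 := by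
          rw [show (2 : ℝ) = ((2 : ℕ) : ℝ) by norm_num, Real.rpow_natCast]; ring
  have h1' : F ≤ (Fintype.card ι) ^ 3 := by exact_mod_cast h1
  have h2 : Nat.log 2 F < 3 * (Nat.log 2 (Fintype.card ι) + 1) := by
    apply Nat.log_lt_of_lt_pow' (by omega)
    calc F ≤ (Fintype.card ι) ^ 3 := h1'
      _ < (2 ^ (Nat.log 2 (Fintype.card ι) + 1)) ^ 3 :=
          Nat.pow_lt_pow_left (Nat.lt_pow_succ_log_self (by norm_num) _) (by norm_num)
      _ = 2 ^ (3 * (Nat.log 2 (Fintype.card ι) + 1)) := by rw [← pow_mul]; congr 1; ring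
  have h3 : Nat.log 2 F + 1 ≤ 3 * (Nat.log 2 (Fintype.card ι) + 1) := h2
  have h4 : ((Nat.log 2 F : ℝ) + 1) ≤ 3 * ((Nat.log 2 (Fintype.card ι) : ℝ) + 1) := by
    exact_mod_cast h3
  have h5 := hb.log
  have h6 := hb.HD
  calc ((Nat.log 2 F : ℝ) + 1) ≤ 3 * ((Nat.log 2 (Fintype.card ι) : ℝ) + 1) := h4
    _ ≤ 3 * D := by linarith
    _ ≤ D ^ 2 * D := mul_le_mul_of_nonneg_right (by nlinarith) (by linarith)
    _ = D ^ 3 := by ring

/-- The final computation. -/
theorem flux_num {n D r G T Λ V F2 HN X U M : ℝ} {c a b d q : ℕ} (hn : 0 < n)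
    (hD : 2 ≤ D) (hr : 1 ≤ r) (hV0 : 0 ≤ V) (hM0 : 0 ≤ M)
    (hΛ0 : 0 ≤ Λ) (hT0 : 0 ≤ T) (hHN : n ^ 4 ≤ HN ^ 3) (hHN0 : 0 ≤ HN)
    (hHF : HN ≤ 2 * D ^ 12 * F2)
    (h0 : F2 ^ 3 ≤ 16384 * V ^ 2 * X) (h1 : X * G ^ 2 ≤ U * M ^ 2 * (Λ ^ 2 * T) ^ 2)
    (hV : V ≤ n * r ^ q) (hU : U ≤ r ^ a) (hM : M ≤ D * r ^ b) (hΛ : Λ ≤ D ^ 14)
    (hT : T ≤ D ^ c * n * r ^ d) :
    G ^ 2 ≤ D ^ (111 + 2 * c) * r ^ (2 * q + a + 2 * b + 2 * d) := by
  have hD0 : 0 < D := by linarith
  have hr0 : 0 < r := by linarith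
  have e1 : HN ^ 3 ≤ (2 * D ^ 12 * F2) ^ 3 := pow_le_pow_left₀ hHN0 hHF 3
  have e2 : n ^ 4 * G ^ 2 ≤ 8 * D ^ 36 * (16384 * V ^ 2 * (U * M ^ 2 * (Λ ^ 2 * T) ^ 2)) := by
    calc n ^ 4 * G ^ 2 ≤ (2 * D ^ 12 * F2) ^ 3 * G ^ 2 :=
          mul_le_mul_of_nonneg_right (hHN.trans e1) (by positivity)
      _ = 8 * D ^ 36 * (F2 ^ 3 * G ^ 2) := by ring
      _ ≤ 8 * D ^ 36 * ((16384 * V ^ 2 * X) * G ^ 2) :=
          mul_le_mul_of_nonneg_left (mul_le_mul_of_nonneg_right h0 (by positivity))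
            (by positivity)
      _ = 8 * D ^ 36 * (16384 * V ^ 2 * (X * G ^ 2)) := by ring
      _ ≤ _ := mul_le_mul_of_nonneg_left (mul_le_mul_of_nonneg_left h1 (by positivity))
            (by positivity)
  have e3 : V ^ 2 ≤ (n * r ^ q) ^ 2 := pow_le_pow_left₀ hV0 hV 2
  have e4 : M ^ 2 ≤ (D * r ^ b) ^ 2 := pow_le_pow_left₀ hM0 hM 2
  have e5 : (Λ ^ 2 * T) ^ 2 ≤ ((D ^ 14) ^ 2 * (D ^ c * n * r ^ d)) ^ 2 := by
    refine pow_le_pow_left₀ (by positivity) ?_ 2
    exact mul_le_mul (pow_le_pow_left₀ hΛ0 hΛ 2) hT hT0 (by positivity)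
  have e6 : U * M ^ 2 * (Λ ^ 2 * T) ^ 2 ≤ r ^ a * (D * r ^ b) ^ 2 *
      ((D ^ 14) ^ 2 * (D ^ c * n * r ^ d)) ^ 2 := by
    have : U * M ^ 2 ≤ r ^ a * (D * r ^ b) ^ 2 := by
      calc U * M ^ 2 ≤ r ^ a * M ^ 2 := mul_le_mul_of_nonneg_right hU (by positivity)
        _ ≤ _ := mul_le_mul_of_nonneg_left e4 (by positivity)
    calc U * M ^ 2 * (Λ ^ 2 * T) ^ 2 ≤ (r ^ a * (D * r ^ b) ^ 2) * (Λ ^ 2 * T) ^ 2 :=
          mul_le_mul_of_nonneg_right this (by positivity)
      _ ≤ _ := mul_le_mul_of_nonneg_left e5 (by positivity)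
  have e7 : n ^ 4 * G ^ 2 ≤ n ^ 4 * (131072 * D ^ (94 + 2 * c) *
      r ^ (2 * q + a + 2 * b + 2 * d)) := by
    calc n ^ 4 * G ^ 2 ≤ 8 * D ^ 36 * (16384 * V ^ 2 * (U * M ^ 2 * (Λ ^ 2 * T) ^ 2)) := e2
      _ ≤ 8 * D ^ 36 * (16384 * (n * r ^ q) ^ 2 * (r ^ a * (D * r ^ b) ^ 2 *
          ((D ^ 14) ^ 2 * (D ^ c * n * r ^ d)) ^ 2)) := by
          refine mul_le_mul_of_nonneg_left ?_ (by positivity)
          calc 16384 * V ^ 2 * (U * M ^ 2 * (Λ ^ 2 * T) ^ 2) ≤
              16384 * V ^ 2 * (r ^ a * (D * r ^ b) ^ 2 *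
                ((D ^ 14) ^ 2 * (D ^ c * n * r ^ d)) ^ 2) :=
                mul_le_mul_of_nonneg_left e6 (by positivity)
            _ ≤ _ := mul_le_mul_of_nonneg_right (by linarith) (by positivity)
      _ = _ := by
          have p1 : D ^ (94 + 2 * c) = D ^ 94 * (D ^ c) ^ 2 := by rw [pow_add, pow_mul' D 2 c]
          have p2 : r ^ (2 * q + a + 2 * b + 2 * d) =
              (r ^ q) ^ 2 * r ^ a * (r ^ b) ^ 2 * (r ^ d) ^ 2 := by
            rw [pow_add, pow_add, pow_add, pow_mul' r 2 q, pow_mul' r 2 b, pow_mul' r 2 d]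
          rw [p1, p2]; ring
  have e8 : G ^ 2 ≤ 131072 * D ^ (94 + 2 * c) * r ^ (2 * q + a + 2 * b + 2 * d) :=
    le_of_mul_le_mul_left e7 (by positivity)
  refine e8.trans (mul_le_mul_of_nonneg_right ?_ (by positivity))
  calc 131072 * D ^ (94 + 2 * c) ≤ D ^ 17 * D ^ (94 + 2 * c) := by
        have : (2 : ℝ) ^ 17 ≤ D ^ 17 := pow_le_pow_left₀ (by norm_num) hD 17
        exact mul_le_mul_of_nonneg_right (by linarith) (by positivity)
    _ = D ^ (111 + 2 * c) := by rw [← pow_add]; congr 1; ring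

end Pool.Agent.Work.MP_e17eac_co.B4

end
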