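import Mathlib
import Pool.Agent.Work.MP_e17eac_co.PL.Defs

/-! Bundle of small proof modules (one section per former module). -/

section

set_option autoImplicit false
set_option maxHeartbeats 4000000

/-!
# Gadgets: the local cases
-/

namespace Pool.Agent.Work.MP_e17eac_co.PL2

/-- The possible offsets (f, p, u, q, e) inside the gadget of a hop from the class `x`. -/
def Tup (x f p u q e : ℤ) : Prop :=
  (x % 2 = 0 ∧ f = 1 ∧ e = 0 ∧ u = 1 ∧ 0 ≤ p ∧ p ≤ 10 ∧ q = p) ∨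
  (x % 2 = 0 ∧ f = 1 ∧ e = 0 ∧ u = 0 ∧ 0 ≤ p ∧ p ≤ 9 ∧ q = p + 1) ∨
  (x % 2 = 1 ∧ f = 0 ∧ e = 1 ∧ u = -1 ∧ 0 ≤ p ∧ p ≤ 10 ∧ q = p) ∨
  (x % 2 = 1 ∧ f = 0 ∧ e = 1 ∧ u = 0 ∧ 1 ≤ p ∧ p ≤ 10 ∧ q = p - 1)

theorem Tup.bd {x f p u q e : ℤ} (h : Tup x f p u q e) :
    0 ≤ f ∧ f ≤ 1 ∧ 0 ≤ p ∧ p ≤ 10 ∧ -1 ≤ u ∧ u ≤ 1 ∧ 0 ≤ q ∧ q ≤ 10 ∧ 0 ≤ e ∧ e ≤ 1 := by
  unfold Tup at h
  omega

theorem oo (i j x y f1 p1 u1 q1 e1 f2 p2 u2 q2 e2 da db hxa hxb hya hyb oxr oxs oyr oys : ℤ)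
    (t1 : Tup x f1 p1 u1 q1 e1) (t2 : Tup y f2 p2 u2 q2 e2)
    (hij : i < j)
    (X : (x = i ∧ i + 1 = j ∧ hxa = -1 ∧ hxb = 1 ∧ oxr = -p1 ∧ oxs = q1) ∨
      (x = i ∧ i + 1 < j ∧ hxa = -1 ∧ hxb = 0 ∧ oxr = -p1 ∧ oxs = 0) ∨
      (x = i - 1 ∧ hxa = 1 ∧ hxb = 0 ∧ oxr = q1 ∧ oxs = 0) ∨
      (x = j ∧ hxa = 0 ∧ hxb = -1 ∧ oxr = 0 ∧ oxs = -p1) ∨
      (x = j - 1 ∧ i + 1 < j ∧ hxa = 0 ∧ hxb = 1 ∧ oxr = 0 ∧ oxs = q1) ∨
      ((x ≤ i - 2 ∨ (i < x ∧ x < j - 1) ∨ j < x) ∧ hxa = 0 ∧ hxb = 0 ∧ oxr = 0 ∧ oxs = 0))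
    (Y : (y = i ∧ i + 1 = j ∧ hya = -1 ∧ hyb = 1 ∧ oyr = -p2 ∧ oys = q2) ∨
      (y = i ∧ i + 1 < j ∧ hya = -1 ∧ hyb = 0 ∧ oyr = -p2 ∧ oys = 0) ∨
      (y = i - 1 ∧ hya = 1 ∧ hyb = 0 ∧ oyr = q2 ∧ oys = 0) ∨
      (y = j ∧ hya = 0 ∧ hyb = -1 ∧ oyr = 0 ∧ oys = -p2) ∨
      (y = j - 1 ∧ i + 1 < j ∧ hya = 0 ∧ hyb = 1 ∧ oyr = 0 ∧ oys = q2) ∨
      ((y ≤ i - 2 ∨ (i < y ∧ y < j - 1) ∨ j < y) ∧ hya = 0 ∧ hyb = 0 ∧ oyr = 0 ∧ oys = 0))
    (v00ab : ¬ (0 < da ∧ db < 0))
    (v01ab : ¬ (0 < da + hya ∧ db + hyb < 0))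
    (v10ab : ¬ (0 < da - hxa ∧ db - hxb < 0))
    (v11ab : ¬ (0 < da - hxa + hya ∧ db - hxb + hyb < 0)) :
    ¬ (0 < 10 * da + oyr - oxr ∧ 10 * db + oys - oxs < 0) := by
  have b1 := t1.bd
  have b2 := t2.bd
  rintro ⟨g1, g2⟩
  rcases X with X | X | X | X | X | X <;> rcases Y with Y | Y | Y | Y | Y | Y <;>
    first
      | omega
      | (unfold Tup at t1 t2; rcases t1 with t1 | t1 | t1 | t1 <;> rcases t2 with t2 | t2 | t2 | t2 <;> omega)

theorem roadj (i x y f1 p1 u1 q1 e1 f2 p2 u2 q2 e2 da db hxa hxb hya hyb oxr oxs oyr oys : ℤ)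
    (t1 : Tup x f1 p1 u1 q1 e1) (t2 : Tup y f2 p2 u2 q2 e2)
    (X : (x = i ∧ hxa = 0 ∧ hxb = -1 ∧ oxr = -f1 ∧ oxs = -p1) ∨
      (x = i - 1 ∧ hxa = -1 ∧ hxb = 1 ∧ oxr = u1 ∧ oxs = q1) ∨
      (x = i - 2 ∧ hxa = 1 ∧ hxb = 0 ∧ oxr = e1 ∧ oxs = 0) ∨
      ((x ≤ i - 3 ∨ i < x) ∧ hxa = 0 ∧ hxb = 0 ∧ oxr = 0 ∧ oxs = 0))
    (Y : (y = i ∧ hya = 0 ∧ hyb = -1 ∧ oyr = -f2 ∧ oys = -p2) ∨
      (y = i - 1 ∧ hya = -1 ∧ hyb = 1 ∧ oyr = u2 ∧ oys = q2) ∨
      (y = i - 2 ∧ hya = 1 ∧ hyb = 0 ∧ oyr = e2 ∧ oys = 0) ∨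
      ((y ≤ i - 3 ∨ i < y) ∧ hya = 0 ∧ hyb = 0 ∧ oyr = 0 ∧ oys = 0))
    (v00ab : ¬ (0 < da ∧ db < 0))
    (v01ab : ¬ (0 < da + hya ∧ db + hyb < 0))
    (v10ab : ¬ (0 < da - hxa ∧ db - hxb < 0))
    (v11ab : ¬ (0 < da - hxa + hya ∧ db - hxb + hyb < 0)) :
    ¬ (0 < da + db + oyr - oxr ∧ 10 * db + oys - oxs < 0) := by
  have b1 := t1.bd
  have b2 := t2.bd
  rintro ⟨g1, g2⟩
  rcases X with X | X | X | X <;> rcases Y with Y | Y | Y | Y <;>
    first
      | omega
      | (unfold Tup at t1 t2; rcases t1 with t1 | t1 | t1 | t1 <;> rcases t2 with t2 | t2 | t2 | t2 <;> omega)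

theorem oradj (j x y f1 p1 u1 q1 e1 f2 p2 u2 q2 e2 da db hxa hxb hya hyb oxr oxs oyr oys : ℤ)
    (t1 : Tup x f1 p1 u1 q1 e1) (t2 : Tup y f2 p2 u2 q2 e2)
    (X : (x = j ∧ hxa = 0 ∧ hxb = -1 ∧ oxr = 0 ∧ oxs = -f1) ∨
      (x = j - 1 ∧ hxa = -1 ∧ hxb = 1 ∧ oxr = -p1 ∧ oxs = u1) ∨
      (x = j - 2 ∧ hxa = 1 ∧ hxb = 0 ∧ oxr = q1 ∧ oxs = e1) ∨
      ((x ≤ j - 3 ∨ j < x) ∧ hxa = 0 ∧ hxb = 0 ∧ oxr = 0 ∧ oxs = 0))
    (Y : (y = j ∧ hya = 0 ∧ hyb = -1 ∧ oyr = 0 ∧ oys = -f2) ∨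
      (y = j - 1 ∧ hya = -1 ∧ hyb = 1 ∧ oyr = -p2 ∧ oys = u2) ∨
      (y = j - 2 ∧ hya = 1 ∧ hyb = 0 ∧ oyr = q2 ∧ oys = e2) ∨
      ((y ≤ j - 3 ∨ j < y) ∧ hya = 0 ∧ hyb = 0 ∧ oyr = 0 ∧ oys = 0))
    (v00ab : ¬ (0 < da ∧ db < 0))
    (v01ab : ¬ (0 < da + hya ∧ db + hyb < 0))
    (v10ab : ¬ (0 < da - hxa ∧ db - hxb < 0))
    (v11ab : ¬ (0 < da - hxa + hya ∧ db - hxb + hyb < 0)) :
    ¬ (0 < 10 * da + oyr - oxr ∧ da + db + oys - oxs < 0) := by
  have b1 := t1.bd
  have b2 := t2.bd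
  rintro ⟨g1, g2⟩
  rcases X with X | X | X | X <;> rcases Y with Y | Y | Y | Y <;>
    first
      | omega
      | (unfold Tup at t1 t2; rcases t1 with t1 | t1 | t1 | t1 <;> rcases t2 with t2 | t2 | t2 | t2 <;> omega)

end Pool.Agent.Work.MP_e17eac_co.PL2

end

section

/-!
# Strongly separated sets and permutations
-/

set_option autoImplicit false

namespace Pool.Agent.Work.MP_e17eac_co.PL

namespace Perms

variable {n : ℕ}

/-- `R` is the set of inversions of a permutation. -/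
structure IsInv (R : Fin n → Fin n → Prop) : Prop where
  lt : ∀ i j, R i j → i < j
  trans : ∀ i j k, R i j → R j k → R i k
  cotrans : ∀ i j k, i < j → j < k → R i k → R i j ∨ R j k

/-- `i` is before `j`. -/
def bef (R : Fin n → Fin n → Prop) (i j : Fin n) : Prop :=
  (i < j ∧ ¬ R i j) ∨ (j < i ∧ R j i)

theorem bef_irrefl (R : Fin n → Fin n → Prop) (i : Fin n) : ¬ bef R i i := by
  rintro (⟨h, -⟩ | ⟨h, -⟩) <;> exact lt_irrefl _ h

theorem bef_total (R : Fin n → Fin n → Prop) (i j : Fin n) (h : i ≠ j) :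
    bef R i j ∨ bef R j i := by
  rcases lt_or_gt_of_ne h with h1 | h1
  · by_cases h2 : R i j
    · exact Or.inr (Or.inr ⟨h1, h2⟩)
    · exact Or.inl (Or.inl ⟨h1, h2⟩)
  · by_cases h2 : R j i
    · exact Or.inl (Or.inr ⟨h1, h2⟩)
    · exact Or.inr (Or.inl ⟨h1, h2⟩)

theorem bef_trans {R : Fin n → Fin n → Prop} (h : IsInv R) (i j k : Fin n)
    (h1 : bef R i j) (h2 : bef R j k) : bef R i k := by
  rcases h1 with ⟨a1, b1⟩ | ⟨a1, b1⟩ <;> rcases h2 with ⟨a2, b2⟩ | ⟨a2, b2⟩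
  · refine Or.inl ⟨a1.trans a2, fun h3 => ?_⟩
    rcases h.cotrans i j k a1 a2 h3 with h4 | h4
    · exact b1 h4
    · exact b2 h4
  · rcases lt_trichotomy i k with h3 | h3 | h3
    · exact Or.inl ⟨h3, fun h4 => b1 (h.trans i k j h4 b2)⟩
    · rw [h3] at b1
      exact absurd b2 b1
    · rcases h.cotrans k i j h3 a1 b2 with h4 | h4
      · exact Or.inr ⟨h3, h4⟩
      · exact absurd h4 b1
  · rcases lt_trichotomy i k with h3 | h3 | h3
    · exact Or.inl ⟨h3, fun h4 => b2 (h.trans j i k b1 h4)⟩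
    · rw [h3] at b1
      exact absurd b1 b2
    · rcases h.cotrans j k i a2 h3 b1 with h4 | h4
      · exact absurd h4 b2
      · exact Or.inr ⟨h3, h4⟩
  · exact Or.inr ⟨a2.trans a1, h.trans k j i b2 b1⟩

theorem bef_asymm {R : Fin n → Fin n → Prop} (h : IsInv R) (i j : Fin n)
    (h1 : bef R i j) : ¬ bef R j i := fun h2 => bef_irrefl R i (bef_trans h i j i h1 h2)

open Classical in
/-- The position of `a`. -/
noncomputable def rk (R : Fin n → Fin n → Prop) (a : Fin n) : ℕ :=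
  (Finset.univ.filter fun b => bef R b a).card

theorem rk_lt_of_bef {R : Fin n → Fin n → Prop} (h : IsInv R) (a b : Fin n)
    (hab : bef R a b) : rk R a < rk R b := by
  classical
  unfold rk
  apply Finset.card_lt_card
  rw [Finset.ssubset_iff_of_subset]
  · refine ⟨a, ?_, ?_⟩
    · rw [Finset.mem_filter]
      exact ⟨Finset.mem_univ _, hab⟩
    · rw [Finset.mem_filter]
      exact fun hh => bef_irrefl R a hh.2
  · intro c hc
    rw [Finset.mem_filter] at hc ⊢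
    exact ⟨hc.1, bef_trans h c a b hc.2 hab⟩

theorem rk_lt_iff {R : Fin n → Fin n → Prop} (h : IsInv R) (a b : Fin n) :
    rk R a < rk R b ↔ bef R a b := by
  constructor
  · intro hlt
    by_contra hn
    by_cases hab : a = b
    · rw [hab] at hlt
      exact lt_irrefl _ hlt
    · rcases bef_total R a b hab with h1 | h1
      · exact hn h1
      · exact lt_asymm hlt (rk_lt_of_bef h b a h1)
  · exact rk_lt_of_bef h a b

theorem rk_lt (R : Fin n → Fin n → Prop) (a : Fin n) : rk R a < n := by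
  classical
  have h1 : rk R a < (Finset.univ : Finset (Fin n)).card := by
    unfold rk
    apply Finset.card_lt_card
    rw [Finset.ssubset_iff_of_subset (Finset.subset_univ _)]
    refine ⟨a, Finset.mem_univ _, ?_⟩
    rw [Finset.mem_filter]
    exact fun hh => bef_irrefl R a hh.2
  rw [Finset.card_univ, Fintype.card_fin] at h1
  exact h1

theorem rk_bij {R : Fin n → Fin n → Prop} (h : IsInv R) :
    Function.Bijective (fun a : Fin n => (⟨rk R a, rk_lt R a⟩ : Fin n)) := by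
  rw [← Finite.injective_iff_bijective]
  intro a b hab
  have h1 : rk R a = rk R b := congrArg Fin.val hab
  by_contra hne
  rcases bef_total R a b hne with h2 | h2
  · have := rk_lt_of_bef h a b h2
    omega
  · have := rk_lt_of_bef h b a h2
    omega

/-- The permutation with the inversions `R`. -/
noncomputable def prm {R : Fin n → Fin n → Prop} (h : IsInv R) : Equiv.Perm (Fin n) :=
  (Equiv.ofBijective _ (rk_bij h)).symm

theorem prm_symm {R : Fin n → Fin n → Prop} (h : IsInv R) (a : Fin n) :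
    ((prm h).symm a : ℕ) = rk R a := rfl

theorem prm_lt {R : Fin n → Fin n → Prop} (h : IsInv R) (a b : Fin n) :
    (prm h).symm a < (prm h).symm b ↔ bef R a b := by
  rw [← rk_lt_iff h, ← prm_symm h a, ← prm_symm h b]
  exact Iff.rfl

/-- Initial segments. -/
theorem first {R : Fin n → Fin n → Prop} (h : IsInv R) (M : ℕ) (I : Finset (Fin n))
    (hI : I.card = M) (hb : ∀ j ∈ I, ∀ i, i ∉ I → bef R j i) : firstSet M (prm h) = I := by
  classical
  ext a
  unfold firstSet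
  rw [Finset.mem_filter, prm_symm]
  constructor
  · rintro ⟨-, h1⟩
    by_contra ha
    have h2 : I ⊆ Finset.univ.filter fun b => bef R b a := by
      intro j hj
      rw [Finset.mem_filter]
      exact ⟨Finset.mem_univ _, hb j hj a ha⟩
    have h3 := Finset.card_le_card h2
    unfold rk at h1
    rw [hI] at h3
    exact absurd h1 (not_lt.mpr h3)
  · intro ha
    refine ⟨Finset.mem_univ _, ?_⟩
    rw [← hI]
    unfold rk
    apply Finset.card_lt_card
    rw [Finset.ssubset_iff_of_subset]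
    · refine ⟨a, ha, ?_⟩
      rw [Finset.mem_filter]
      exact fun hh => bef_irrefl R a hh.2
    · intro b hbb
      rw [Finset.mem_filter] at hbb
      by_contra hbI
      exact bef_asymm h a b (hb a ha b hbI) hbb.2

/-- The elementary inversions at time `t`. -/
def F (I : ℕ → Finset (Fin n)) (t : ℕ) (i j : Fin n) : Prop :=
  i < j ∧ ∃ s ≤ t, i ∉ I s ∧ j ∈ I s

/-- The inversions at time `t`. -/
def R (I : ℕ → Finset (Fin n)) (t : ℕ) : Fin n → Fin n → Prop := Relation.TransGen (F I t)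

theorem R_inv (I : ℕ → Finset (Fin n)) (t : ℕ) : IsInv (R I t) where
  lt := by
    intro i j h
    induction h with
    | single h => exact h.1
    | tail _ h ih => exact ih.trans h.1
  trans := fun i j k h1 h2 => h1.trans h2
  cotrans := by
    have key : ∀ b j k : Fin n, b < j → j < k → F I t b k → F I t b j ∨ F I t j k := by
      intro b j k h1 h2 h3
      obtain ⟨-, s, hs, h4, h5⟩ := h3
      by_cases h6 : j ∈ I s
      · exact Or.inl ⟨h1, s, hs, h4, h6⟩
      · exact Or.inr ⟨h2, s, hs, h6, h5⟩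
    intro i j k h1 h2 h3
    have gen : ∀ k : Fin n, Relation.TransGen (F I t) i k → j < k →
        Relation.TransGen (F I t) i j ∨ Relation.TransGen (F I t) j k := by
      intro k h
      induction h with
      | single h =>
        intro h2
        rcases key i j _ h1 h2 h with h4 | h4
        · exact Or.inl (Relation.TransGen.single h4)
        · exact Or.inr (Relation.TransGen.single h4)
      | @tail b c h5 h6 ih =>
        intro h2
        rcases lt_trichotomy j b with h7 | h7 | h7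
        · rcases ih h7 with h8 | h8
          · exact Or.inl h8
          · exact Or.inr (h8.tail h6)
        · rw [h7]
          exact Or.inl h5
        · rcases key b j c h7 h2 h6 with h8 | h8
          · exact Or.inl (h5.tail h8)
          · exact Or.inr (Relation.TransGen.single h8)
    exact gen k h3 h2

theorem R_mono (I : ℕ → Finset (Fin n)) (s t : ℕ) (hst : s ≤ t) (i j : Fin n)
    (h : R I s i j) : R I t i j := by
  have h0 : F I s ≤ F I t := by
    rintro a b ⟨h1, u, hu, h2, h3⟩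
    exact ⟨h1, u, hu.trans hst, h2, h3⟩
  exact Relation.TransGen.mono h0 i j h

/-- A chain from inside `A` to outside `A` has a link from inside to outside. -/
theorem link (I : ℕ → Finset (Fin n)) (t : ℕ) (A : Finset (Fin n)) (i j : Fin n)
    (hi : i ∈ A) (h : R I t i j) (hj : j ∉ A) : ∃ a b, a ∈ A ∧ b ∉ A ∧ F I t a b := by
  unfold R at h
  induction h with
  | single h => exact ⟨_, _, hi, hj, h⟩
  | @tail b c h5 h6 ih =>
    by_cases hb : b ∈ A
    · exact ⟨b, c, hb, hj, h6⟩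
    · exact ih hb

end Perms

theorem claimPerms : ClaimPerms := by
  intro n M m I hcard hsep
  refine ⟨fun t => Perms.prm (Perms.R_inv I t), ?_, ?_⟩
  · intro t ht
    apply Perms.first (Perms.R_inv I t) M (I t) (hcard t ht)
    intro j hj i hi
    have hne : i ≠ j := fun h => hi (h ▸ hj)
    rcases lt_or_gt_of_ne hne with h1 | h1
    · exact Or.inr ⟨h1, Relation.TransGen.single ⟨h1, t, le_refl t, hi, hj⟩⟩
    · refine Or.inl ⟨h1, fun h2 => ?_⟩
      obtain ⟨a, b, ha, hb, hab, s, hs, h3, h4⟩ := Perms.link I t (I t) j i hj h2 hi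
      exact lt_asymm hab (hsep s t hs ht b h4 hb a ha h3)
  · intro s t hst _ a b hab h
    rw [Perms.prm_lt] at h ⊢
    rcases h with ⟨h1, -⟩ | ⟨h1, h2⟩
    · exact absurd h1 (lt_asymm hab)
    · exact Or.inr ⟨h1, Perms.R_mono I s t hst a b h2⟩

end Pool.Agent.Work.MP_e17eac_co.PL

end

section

/-!
# Paths of adjacent exchanges: concatenation, and paths as allowable sequences
-/

set_option autoImplicit false

namespace Pool.Agent.Work.MP_e17eac_co.PL

theorem claimTrans : ClaimTrans := by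
  intro n M σ τ ρ l k l' k' h h'
  induction h with
  | nil σ =>
    rw [Nat.zero_add, Nat.zero_add]
    exact h'
  | cons σ τ i h hlt len k hp ih =>
    have h2 := Path.cons (M := M) σ ρ i h hlt (len + l') (k + k') (ih h')
    have e1 : len + 1 + l' = len + l' + 1 := by omega
    have e2 : (if i + 1 = M then k + 1 else k) + k' = if i + 1 = M then k + k' + 1 else k + k' := by
      split_ifs <;> omega
    rw [e1, e2]
    exact h2

namespace SeqAux

open Finset

/-- The pairs of positions with the larger entry first. -/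
def Inv {n : ℕ} (σ : Equiv.Perm (Fin n)) : Finset (Fin n × Fin n) :=
  univ.filter fun p => p.1 < p.2 ∧ σ p.2 < σ p.1

theorem adj_val {n i : ℕ} (h : i + 1 < n) (p : Fin n) :
    ((adj n i h p : Fin n) : ℕ) = if (p : ℕ) = i then i + 1 else if (p : ℕ) = i + 1 then i else p := by
  unfold adj
  rw [Equiv.swap_apply_def]
  simp only [Fin.ext_iff]
  split_ifs <;> rfl

theorem adj_adj {n i : ℕ} (h : i + 1 < n) (p : Fin n) : adj n i h (adj n i h p) = p := by
  unfold adj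
  rw [← Equiv.Perm.mul_apply, Equiv.swap_mul_self]
  rfl

theorem adj_lt {n i : ℕ} (h : i + 1 < n) {p q : Fin n} (hpq : p < q)
    (hne : ¬ ((p : ℕ) = i ∧ (q : ℕ) = i + 1)) : adj n i h p < adj n i h q := by
  rw [Fin.lt_def] at hpq ⊢
  rw [adj_val, adj_val]
  split_ifs <;> omega

theorem inv_step {n i : ℕ} (h : i + 1 < n) (σ : Equiv.Perm (Fin n))
    (hlt : σ ⟨i, Nat.lt_of_succ_lt h⟩ < σ ⟨i + 1, h⟩) :
    (Inv (σ * adj n i h)).card = (Inv σ).card + 1 := by
  have hI : Inv (σ * adj n i h) = insert (⟨i, Nat.lt_of_succ_lt h⟩, ⟨i + 1, h⟩)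
      ((Inv σ).image (fun p => (adj n i h p.1, adj n i h p.2))) := by
    ext ⟨p, q⟩
    simp only [Inv, mem_filter, mem_univ, true_and, mem_insert, mem_image, Prod.mk.injEq,
      Prod.exists, Equiv.Perm.mul_apply]
    constructor
    · rintro ⟨h1, h2⟩
      by_cases hc : (p : ℕ) = i ∧ (q : ℕ) = i + 1
      · left
        exact ⟨Fin.ext hc.1, Fin.ext hc.2⟩
      · right
        exact ⟨adj n i h p, adj n i h q, ⟨adj_lt h h1 hc, h2⟩, adj_adj h p, adj_adj h q⟩
    · rintro (⟨rfl, rfl⟩ | ⟨p', q', ⟨h1, h2⟩, rfl, rfl⟩)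
      · refine ⟨by rw [Fin.lt_def]; simp, ?_⟩
        have e1 : adj n i h ⟨i + 1, h⟩ = ⟨i, Nat.lt_of_succ_lt h⟩ := Equiv.swap_apply_right _ _
        have e2 : adj n i h ⟨i, Nat.lt_of_succ_lt h⟩ = ⟨i + 1, h⟩ := Equiv.swap_apply_left _ _
        rw [e1, e2]
        exact hlt
      · have hc : ¬ ((p' : ℕ) = i ∧ (q' : ℕ) = i + 1) := by
          rintro ⟨a, b⟩
          have e1 : p' = ⟨i, Nat.lt_of_succ_lt h⟩ := Fin.ext a
          have e2 : q' = ⟨i + 1, h⟩ := Fin.ext b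
          rw [e1, e2] at h2
          exact absurd h2 (not_lt.2 hlt.le)
        rw [adj_adj, adj_adj]
        exact ⟨adj_lt h h1 hc, h2⟩
  rw [hI, card_insert_of_notMem, card_image_of_injective]
  · intro p q hpq
    simp only [Prod.mk.injEq, EmbeddingLike.apply_eq_iff_eq] at hpq
    exact Prod.ext hpq.1 hpq.2
  · simp only [mem_image, Prod.mk.injEq, Prod.exists, not_exists, not_and]
    rintro p q hpq h1 h2
    have e1 : p = ⟨i + 1, h⟩ := by
      have := adj_adj h p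
      rw [h1] at this
      rw [← this]
      exact Equiv.swap_apply_left _ _
    have e2 : q = ⟨i, Nat.lt_of_succ_lt h⟩ := by
      have := adj_adj h q
      rw [h2] at this
      rw [← this]
      exact Equiv.swap_apply_right _ _
    simp only [Inv, mem_filter, mem_univ, true_and, e1, e2, Fin.lt_def] at hpq
    omega

theorem path_len {n M : ℕ} {σ τ : Equiv.Perm (Fin n)} {len k : ℕ} (h : Path n M σ τ len k) :
    (Inv τ).card = (Inv σ).card + len := by
  induction h with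
  | nil σ => rfl
  | cons σ τ i h hlt len k hp ih =>
    rw [ih, inv_step h σ hlt]
    omega

theorem inv_one (n : ℕ) : (Inv (1 : Equiv.Perm (Fin n))).card = 0 := by
  rw [card_eq_zero]
  apply filter_eq_empty_iff.2
  rintro ⟨p, q⟩ _ ⟨h1, h2⟩
  exact absurd h1 (not_lt.2 (le_of_lt h2))

theorem inv_rev (n : ℕ) : (Inv (Fin.revPerm : Equiv.Perm (Fin n))).card = n.choose 2 := by
  have h1 : Inv (Fin.revPerm : Equiv.Perm (Fin n)) =
      (univ : Finset (Fin n)).biUnion (fun q => (Iio q).image (fun p => (p, q))) := by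
    ext ⟨p, q⟩
    simp only [Inv, mem_filter, mem_univ, true_and, mem_biUnion, mem_image, mem_Iio, Prod.mk.injEq]
    constructor
    · rintro ⟨h1, _⟩
      exact ⟨q, p, h1, rfl, rfl⟩
    · rintro ⟨q', p', h1, rfl, rfl⟩
      refine ⟨h1, ?_⟩
      simp only [Fin.revPerm_apply]
      exact Fin.rev_lt_rev.2 h1
  rw [h1, card_biUnion]
  · have h2 : ∀ q : Fin n, ((Iio q).image (fun p => (p, q))).card = (q : ℕ) := by
      intro q
      rw [card_image_of_injective _ (fun a b hab => (Prod.mk.inj hab).1), Fin.card_Iio]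
    rw [sum_congr rfl (fun q _ => h2 q), Fin.sum_univ_eq_sum_range (fun i => i) n, sum_range_id,
      Nat.choose_two_right]
  · intro q _ q' _ hne
    rw [Function.onFun, disjoint_left]
    rintro ⟨a, b⟩ h1 h2
    simp only [mem_image, mem_Iio, Prod.mk.injEq] at h1 h2
    obtain ⟨_, _, _, rfl⟩ := h1
    obtain ⟨_, _, _, rfl⟩ := h2
    exact hne rfl

open Classical in
theorem path_perm {n M : ℕ} {σ τ : Equiv.Perm (Fin n)} {len k : ℕ} (hM : 1 ≤ M)
    (h : Path n M σ τ len k) : ∃ perm : ℕ → Equiv.Perm (Fin n), perm 0 = σ ∧ perm len = τ ∧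
      (∀ t, t < len → ∃ (i : ℕ) (h : i + 1 < n), perm (t + 1) = perm t * adj n i h) ∧
      k ≤ ((range len).filter (fun t => ∃ h : M - 1 + 1 < n,
        perm (t + 1) = perm t * adj n (M - 1) h)).card := by
  induction h with
  | nil σ =>
    exact ⟨fun _ => σ, rfl, rfl, fun t ht => absurd ht (Nat.not_lt_zero t), Nat.zero_le _⟩
  | cons σ τ i h hlt len k hp ih =>
    obtain ⟨perm, h0, h1, h2, h3⟩ := ih
    refine ⟨fun t => Nat.casesOn t σ perm, rfl, h1, ?_, ?_⟩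
    · intro t ht
      cases t with
      | zero =>
        refine ⟨i, h, ?_⟩
        show perm 0 = σ * adj n i h
        exact h0
      | succ t => exact h2 t (by omega)
    · rw [card_filter, sum_range_succ']
      rw [card_filter] at h3
      show _ ≤ (∑ t ∈ range len, if ∃ h : M - 1 + 1 < n,
        perm (t + 1) = perm t * adj n (M - 1) h then 1 else 0) +
        (if ∃ h : M - 1 + 1 < n, perm 0 = σ * adj n (M - 1) h then 1 else 0)
      by_cases hc : i + 1 = M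
      · rw [if_pos hc]
        have hi : i = M - 1 := by omega
        subst hi
        rw [if_pos ⟨h, h0⟩]
        omega
      · rw [if_neg hc]
        omega

end SeqAux

open SeqAux in
theorem claimSeq : ClaimSeq := by
  intro n M hM len k h
  have hlen := path_len h
  rw [inv_one, inv_rev, Nat.zero_add] at hlen
  subst hlen
  obtain ⟨perm, h0, h1, h2, h3⟩ := path_perm hM h
  refine ⟨⟨perm, h0, h1, h2⟩, ?_⟩
  refine h3.trans (le_of_eq ?_)
  classical
  rw [AllowableSeq.swaps, ← Set.ncard_coe_finset]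
  congr 1
  ext t
  simp only [Finset.coe_filter, Finset.mem_range]

end Pool.Agent.Work.MP_e17eac_co.PL

end

section

/-! Allowable sequences from strongly separated sets. -/

set_option autoImplicit false

namespace Pool.Agent.Work.MP_e17eac_co.PL

theorem claimSets (h1 : ClaimWeak) (h2 : ClaimTrans) (h3 : ClaimSeq) (h4 : ClaimPerms) :
    ClaimSets := by
  intro n M m I hM hcard hsep
  obtain ⟨π, hπ, hinv⟩ := h4 n M m I hcard hsep
  have hstart : InvLe (1 : Equiv.Perm (Fin n)) (π 0) := by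
    intro a b hab h
    exact absurd h (not_lt.2 hab.le)
  have hend : InvLe (π m) (Fin.revPerm : Equiv.Perm (Fin n)) := by
    intro a b hab _
    rw [Fin.revPerm_symm, Fin.revPerm_apply, Fin.revPerm_apply, Fin.rev_lt_rev]
    exact hab
  obtain ⟨l0, k0, hp0, -⟩ := h1 n M _ _ hstart
  obtain ⟨l2, k2, hp2, -⟩ := h1 n M _ _ hend
  have hmid : ∀ t ≤ m, ∃ len k, Path n M (π 0) (π t) len k ∧
      ((Finset.range t).filter fun s => I s ≠ I (s + 1)).card ≤ k := by
    intro t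
    induction t with
    | zero => intro _; exact ⟨0, 0, Path.nil _, by simp⟩
    | succ t ih =>
      intro ht
      obtain ⟨len, k, hp, hk⟩ := ih (by omega)
      obtain ⟨len', k', hp', hk'⟩ := h1 n M _ _ (hinv t (t + 1) (by omega) ht)
      refine ⟨len + len', k + k', h2 n M _ _ _ _ _ _ _ hp hp', ?_⟩
      rw [Finset.range_add_one, Finset.filter_insert]
      rw [hπ t (by omega), hπ (t + 1) ht] at hk'
      split_ifs with hne
      · rw [Finset.card_insert_of_notMem (by simp)]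
        have := hk' hne
        omega
      · omega
  obtain ⟨l, k, hp, hk⟩ := hmid m le_rfl
  obtain ⟨A, hA⟩ := h3 n M hM _ _ (h2 n M _ _ _ _ _ _ _ (h2 n M _ _ _ _ _ _ _ hp0 hp) hp2)
  refine ⟨A, le_trans ?_ hA⟩
  have e : {t : ℕ | t < m ∧ I t ≠ I (t + 1)}
      = ((Finset.range m).filter fun s => I s ≠ I (s + 1) : Finset ℕ) := by
    ext t
    simp
  rw [e, Set.ncard_coe_finset]
  omega

end Pool.Agent.Work.MP_e17eac_co.PL

end

section

/-!
# Classes of parallel pseudolines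
-/

set_option autoImplicit false

namespace Pool.Agent.Work.MP_e17eac_co.PL

namespace StatesAux

open Finset

/-- The first element of the class `c`. -/
def S (size : ℕ → ℕ) (c : ℕ) : ℕ := ∑ i ∈ range c, size i

/-- The elements below the level. -/
noncomputable def I (n C : ℕ) (size : ℕ → ℕ) (s : ℕ → ℕ → ℕ) (t : ℕ) : Finset (Fin n) :=
  open Classical in univ.filter fun e => ∃ c < C, S size c ≤ e ∧ (e : ℕ) < S size c + s t c

theorem mem_I {n C : ℕ} {size : ℕ → ℕ} {s : ℕ → ℕ → ℕ} {t : ℕ} {e : Fin n} :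
    e ∈ I n C size s t ↔ ∃ c < C, S size c ≤ e ∧ (e : ℕ) < S size c + s t c := by
  simp [I]

theorem S_succ (size : ℕ → ℕ) (c : ℕ) : S size (c + 1) = S size c + size c := sum_range_succ _ _

theorem S_mono (size : ℕ → ℕ) {c c' : ℕ} (h : c ≤ c') : S size c ≤ S size c' :=
  sum_le_sum_of_subset (range_subset_range.2 h)

theorem S_lt (size : ℕ → ℕ) {c c' : ℕ} (h : c < c') : S size c + size c ≤ S size c' := by
  rw [← S_succ]; exact S_mono size h

theorem uniq {size : ℕ → ℕ} {c c' e : ℕ} (h1 : S size c ≤ e) (h2 : e < S size c + size c)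
    (h3 : S size c' ≤ e) (h4 : e < S size c' + size c') : c = c' := by
  rcases lt_trichotomy c c' with h | h | h
  · have := S_lt size h
    omega
  · exact h
  · have := S_lt size h
    omega

theorem card_interval (n a k : ℕ) (h : a + k ≤ n) :
    (univ.filter fun e : Fin n => a ≤ (e : ℕ) ∧ (e : ℕ) < a + k).card = k := by
  have h1 : (univ.filter fun e : Fin n => a ≤ (e : ℕ) ∧ (e : ℕ) < a + k).image Fin.val =
      Ico a (a + k) := by
    ext x
    simp only [mem_image, mem_filter, mem_univ, true_and, mem_Ico]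
    constructor
    · rintro ⟨e, he, rfl⟩
      exact he
    · intro hx
      exact ⟨⟨x, by omega⟩, hx, rfl⟩
  rw [← card_image_of_injective _ Fin.val_injective, h1, Nat.card_Ico]
  omega

end StatesAux

open StatesAux Finset in
theorem claimStates (h : ClaimSets) : ClaimStates := by
  intro C M m n size s hM1 hn hs hM hsep
  have hSn : S size C = n := hn
  have hSc : ∀ c < C, S size c + size c ≤ n := by
    intro c hc
    rw [← hSn]
    exact S_lt size hc
  have hcard : ∀ t ≤ m, (I n C size s t).card = M := by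
    intro t ht
    have h1 : I n C size s t = (range C).biUnion (fun c =>
        univ.filter fun e : Fin n => S size c ≤ (e : ℕ) ∧ (e : ℕ) < S size c + s t c) := by
      ext e
      rw [mem_I]
      simp only [mem_biUnion, mem_range, mem_filter, mem_univ, true_and]
    rw [h1, card_biUnion]
    · rw [← hM t ht]
      refine sum_congr rfl fun c hc => ?_
      have hc' := mem_range.1 hc
      apply card_interval
      have := hSc c hc'
      have := hs t ht c hc'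
      omega
    · intro c hc c' hc' hne
      rw [Function.onFun, disjoint_left]
      intro e he he'
      simp only [mem_filter, mem_univ, true_and] at he he'
      have a1 := hs t ht c (mem_range.1 (mem_coe.1 hc))
      have a2 := hs t ht c' (mem_range.1 (mem_coe.1 hc'))
      exact hne (uniq he.1 (by omega) he'.1 (by omega))
  have hss : ∀ t t', t ≤ t' → t' ≤ m → ∀ i ∈ I n C size s t, i ∉ I n C size s t' →
      ∀ j ∈ I n C size s t', j ∉ I n C size s t → i < j := by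
    intro t t' htt ht' i hi hi' j hj hj'
    rw [mem_I] at hi hj
    obtain ⟨c, hc, h1, h2⟩ := hi
    obtain ⟨c', hc', h3, h4⟩ := hj
    have h5 : ¬ ((i : ℕ) < S size c + s t' c) := fun hlt => hi' (mem_I.2 ⟨c, hc, h1, hlt⟩)
    have h6 : ¬ ((j : ℕ) < S size c' + s t c') := fun hlt => hj' (mem_I.2 ⟨c', hc', h3, hlt⟩)
    have b1 := hs t (htt.trans ht') c hc
    rcases lt_trichotomy c c' with hlt | heq | hlt
    · have := S_lt size hlt
      rw [Fin.lt_def]
      omega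
    · subst heq
      omega
    · exfalso
      exact hsep t t' htt ht' c' c hlt hc ⟨by omega, by omega⟩
  obtain ⟨A, hA⟩ := h n M m (I n C size s) hM1 hcard hss
  refine ⟨A, le_trans (Set.ncard_le_ncard ?_ ?_) hA⟩
  · rintro t ⟨ht, c, hc, hne⟩
    refine ⟨ht, ?_⟩
    intro heq
    have b1 := hs t ht.le c hc
    have b2 := hs (t + 1) ht c hc
    have b3 := hSc c hc
    rcases lt_or_gt_of_ne hne with hlt | hlt
    · have h1 : (⟨S size c + s t c, by omega⟩ : Fin n) ∈ I n C size s (t + 1) :=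
        mem_I.2 ⟨c, hc, by simp, by simpa using hlt⟩
      rw [← heq, mem_I] at h1
      obtain ⟨c', hc', h2, h3⟩ := h1
      simp only at h2 h3
      have b4 := hs t ht.le c' hc'
      have := uniq (size := size) (c := c) (c' := c') (e := S size c + s t c) (by omega)
        (by omega) h2 (by omega)
      subst this
      omega
    · have h1 : (⟨S size c + s (t + 1) c, by omega⟩ : Fin n) ∈ I n C size s t :=
        mem_I.2 ⟨c, hc, by simp, by simpa using hlt⟩
      rw [heq, mem_I] at h1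
      obtain ⟨c', hc', h2, h3⟩ := h1
      simp only at h2 h3
      have b4 := hs (t + 1) ht c' hc'
      have := uniq (size := size) (c := c) (c' := c') (e := S size c + s (t + 1) c) (by omega)
        (by omega) h2 (by omega)
      subst this
      omega
  · exact (Set.finite_lt_nat m).subset fun t ht => ht.1

end Pool.Agent.Work.MP_e17eac_co.PL

end

section

/-! The weak order: paths between permutations with nested inversion sets. -/

set_option autoImplicit false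

namespace Pool.Agent.Work.MP_e17eac_co.PL

namespace WeakAux

variable {n : ℕ}

theorem adj_symm (i : ℕ) (h : i + 1 < n) : (adj n i h).symm = adj n i h := by
  simp [adj]

theorem mul_adj_symm (σ : Equiv.Perm (Fin n)) (i : ℕ) (h : i + 1 < n) (a : Fin n) :
    (σ * adj n i h).symm a = adj n i h (σ.symm a) := by
  rw [← adj_symm]
  rfl

theorem adj_val (i : ℕ) (h : i + 1 < n) (p : Fin n) :
    ((adj n i h p : Fin n) : ℕ)
      = if (p : ℕ) = i then i + 1 else if (p : ℕ) = i + 1 then i else (p : ℕ) := by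
  unfold adj
  by_cases h1 : (p : ℕ) = i
  · have e : p = ⟨i, Nat.lt_of_succ_lt h⟩ := Fin.ext h1
    rw [if_pos h1, e, Equiv.swap_apply_left]
  · rw [if_neg h1]
    by_cases h2 : (p : ℕ) = i + 1
    · have e : p = ⟨i + 1, h⟩ := Fin.ext h2
      rw [if_pos h2, e, Equiv.swap_apply_right]
    · rw [if_neg h2, Equiv.swap_apply_of_ne_of_ne (fun e => h1 (by rw [e]))
        (fun e => h2 (by rw [e]))]

theorem adj_lt (i : ℕ) (h : i + 1 < n) (p q : Fin n)
    (h1 : ¬ ((p : ℕ) = i ∧ (q : ℕ) = i + 1)) (h2 : ¬ ((p : ℕ) = i + 1 ∧ (q : ℕ) = i)) :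
    adj n i h p < adj n i h q ↔ p < q := by
  rw [Fin.lt_def, Fin.lt_def, adj_val, adj_val]
  split_ifs <;> omega

theorem exists_step (σ τ : Equiv.Perm (Fin n)) (hinv : InvLe σ τ) (hne : σ ≠ τ) :
    ∃ (i : ℕ) (h : i + 1 < n), σ ⟨i, Nat.lt_of_succ_lt h⟩ < σ ⟨i + 1, h⟩ ∧
      τ.symm (σ ⟨i + 1, h⟩) < τ.symm (σ ⟨i, Nat.lt_of_succ_lt h⟩) := by
  by_contra hcon
  push Not at hcon
  apply hne
  have hstep : ∀ (i : ℕ) (h : i + 1 < n),
      τ.symm (σ ⟨i, Nat.lt_of_succ_lt h⟩) < τ.symm (σ ⟨i + 1, h⟩) := by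
    intro i h
    rcases lt_trichotomy (σ ⟨i, Nat.lt_of_succ_lt h⟩) (σ ⟨i + 1, h⟩) with hlt | heq | hgt
    · refine lt_of_le_of_ne (hcon i h hlt) fun he => ?_
      have := σ.injective (τ.symm.injective he)
      simp [Fin.ext_iff] at this
    · have := σ.injective heq
      simp [Fin.ext_iff] at this
    · refine hinv _ _ hgt ?_
      rw [Equiv.symm_apply_apply, Equiv.symm_apply_apply]
      simp [Fin.lt_def]
  have hmono : StrictMono fun j : Fin n => τ.symm (σ j) := by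
    rcases n with _ | n
    · intro a
      exact a.elim0
    · rw [Fin.strictMono_iff_lt_succ]
      intro i
      exact hstep (i : ℕ) (by omega)
  have hid : (fun j : Fin n => τ.symm (σ j)) = id := by
    refine (hmono.range_inj strictMono_id).1 ?_
    rw [Set.range_id]
    exact (σ.trans τ.symm).surjective.range_eq
  ext1 j
  have := congrFun hid j
  simp only [id] at this
  rw [Equiv.symm_apply_eq] at this
  exact this

/-- the pairs which are inverted in `τ` but not in `σ` -/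
def pairs (σ τ : Equiv.Perm (Fin n)) : Finset (Fin n × Fin n) :=
  Finset.univ.filter fun p => p.1 < p.2 ∧ σ.symm p.1 < σ.symm p.2 ∧ τ.symm p.2 < τ.symm p.1

theorem step_props (σ τ : Equiv.Perm (Fin n)) (hinv : InvLe σ τ) (i : ℕ) (h : i + 1 < n)
    (hlt : σ ⟨i, Nat.lt_of_succ_lt h⟩ < σ ⟨i + 1, h⟩)
    (hτ : τ.symm (σ ⟨i + 1, h⟩) < τ.symm (σ ⟨i, Nat.lt_of_succ_lt h⟩)) :
    InvLe (σ * adj n i h) τ ∧ (pairs (σ * adj n i h) τ).card < (pairs σ τ).card := by
  set x := σ ⟨i, Nat.lt_of_succ_lt h⟩ with hx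
  set y := σ ⟨i + 1, h⟩ with hy
  have hxs : ((σ.symm x : Fin n) : ℕ) = i := by rw [hx, Equiv.symm_apply_apply]
  have hys : ((σ.symm y : Fin n) : ℕ) = i + 1 := by rw [hy, Equiv.symm_apply_apply]
  have hval : ∀ a : Fin n, ((σ.symm a : Fin n) : ℕ) = i → a = x := by
    intro a ha
    apply σ.symm.injective
    exact Fin.ext (ha.trans hxs.symm)
  have hval' : ∀ a : Fin n, ((σ.symm a : Fin n) : ℕ) = i + 1 → a = y := by
    intro a ha
    apply σ.symm.injective
    exact Fin.ext (ha.trans hys.symm)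
  constructor
  · intro a b hab hinvab
    rw [mul_adj_symm, mul_adj_symm] at hinvab
    by_cases h1 : ((σ.symm b : Fin n) : ℕ) = i ∧ ((σ.symm a : Fin n) : ℕ) = i + 1
    · have e1 := hval b h1.1
      have e2 := hval' a h1.2
      rw [e1, e2] at hab
      exact absurd hab (not_lt.2 hlt.le)
    by_cases h2 : ((σ.symm b : Fin n) : ℕ) = i + 1 ∧ ((σ.symm a : Fin n) : ℕ) = i
    · rw [hval' b h2.1, hval a h2.2]
      exact hτ
    · rw [adj_lt i h _ _ h1 h2] at hinvab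
      exact hinv a b hab hinvab
  · apply Finset.card_lt_card
    rw [Finset.ssubset_iff_of_subset]
    · refine ⟨(x, y), ?_, ?_⟩
      · simp only [pairs, Finset.mem_filter, Finset.mem_univ, true_and]
        refine ⟨hlt, ?_, hτ⟩
        rw [Fin.lt_def, hxs, hys]
        omega
      · simp only [pairs, Finset.mem_filter, Finset.mem_univ, true_and, not_and]
        intro _ hc
        exfalso
        rw [mul_adj_symm, mul_adj_symm, Fin.lt_def, adj_val, adj_val, hxs, hys] at hc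
        simp at hc
    · rintro ⟨a, b⟩ hab
      simp only [pairs, Finset.mem_filter, Finset.mem_univ, true_and] at hab ⊢
      refine ⟨hab.1, ?_, hab.2.2⟩
      have h3 := hab.2.1
      rw [mul_adj_symm, mul_adj_symm] at h3
      by_cases h1 : ((σ.symm a : Fin n) : ℕ) = i ∧ ((σ.symm b : Fin n) : ℕ) = i + 1
      · rw [Fin.lt_def]
        omega
      by_cases h2 : ((σ.symm a : Fin n) : ℕ) = i + 1 ∧ ((σ.symm b : Fin n) : ℕ) = i
      · have e1 := hval' a h2.1
        have e2 := hval b h2.2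
        have := hab.1
        rw [e1, e2] at this
        exact absurd this (not_lt.2 hlt.le)
      · rwa [adj_lt i h _ _ h1 h2] at h3

theorem firstSet_step (M : ℕ) (σ : Equiv.Perm (Fin n)) (i : ℕ) (h : i + 1 < n) (hM : i + 1 ≠ M) :
    firstSet M (σ * adj n i h) = firstSet M σ := by
  ext a
  simp only [firstSet, Finset.mem_filter, Finset.mem_univ, true_and]
  rw [mul_adj_symm, adj_val]
  split_ifs <;> omega

theorem weak (M : ℕ) (τ : Equiv.Perm (Fin n)) : ∀ (N : ℕ) (σ : Equiv.Perm (Fin n)),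
    (pairs σ τ).card = N → InvLe σ τ →
    ∃ len k, Path n M σ τ len k ∧ (firstSet M σ ≠ firstSet M τ → 1 ≤ k) := by
  intro N
  induction N using Nat.strong_induction_on with
  | _ N ih =>
    intro σ hN hinv
    by_cases hne : σ = τ
    · subst hne
      exact ⟨0, 0, Path.nil σ, fun h => absurd rfl h⟩
    · obtain ⟨i, h, hlt, hτ⟩ := exists_step σ τ hinv hne
      obtain ⟨hinv', hcard⟩ := step_props σ τ hinv i h hlt hτ
      obtain ⟨len, k, hp, hk⟩ := ih _ (hN ▸ hcard) (σ * adj n i h) rfl hinv'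
      refine ⟨len + 1, _, Path.cons σ τ i h hlt len k hp, fun hf => ?_⟩
      split_ifs with hM
      · omega
      · rw [firstSet_step M σ i h hM] at hk
        exact hk hf

end WeakAux

theorem claimWeak : ClaimWeak := fun _ M σ τ h => WeakAux.weak M τ _ σ rfl h

end Pool.Agent.Work.MP_e17eac_co.PL

end

section

/-!
# Gadgets: the local cases (continued)
-/

set_option autoImplicit false
set_option maxHeartbeats 4000000

namespace Pool.Agent.Work.MP_e17eac_co.PL2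

theorem rrfar (i j x y f1 p1 u1 q1 e1 f2 p2 u2 q2 e2 da db dc dd hxa hxb hxc hxd hya hyb hyc hyd oxr oxs oyr oys : ℤ)
    (t1 : Tup x f1 p1 u1 q1 e1) (t2 : Tup y f2 p2 u2 q2 e2)
    (hij : i ≤ j - 2)
    (X : (x = i - 2 ∧ hxa = 1 ∧ hxb = 0 ∧ hxc = 0 ∧ hxd = 0 ∧ oxr = e1 ∧ oxs = 0) ∨
      (x = i - 1 ∧ hxa = -1 ∧ hxb = 1 ∧ hxc = 0 ∧ hxd = 0 ∧ oxr = u1 ∧ oxs = 0) ∨
      (x = i ∧ i < j - 2 ∧ hxa = 0 ∧ hxb = -1 ∧ hxc = 0 ∧ hxd = 0 ∧ oxr = -f1 ∧ oxs = 0) ∨
      (x = i ∧ i = j - 2 ∧ hxa = 0 ∧ hxb = -1 ∧ hxc = 1 ∧ hxd = 0 ∧ oxr = -f1 ∧ oxs = e1) ∨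
      (x = j - 2 ∧ i < j - 2 ∧ hxa = 0 ∧ hxb = 0 ∧ hxc = 1 ∧ hxd = 0 ∧ oxr = 0 ∧ oxs = e1) ∨
      (x = j - 1 ∧ hxa = 0 ∧ hxb = 0 ∧ hxc = -1 ∧ hxd = 1 ∧ oxr = 0 ∧ oxs = u1) ∨
      (x = j ∧ hxa = 0 ∧ hxb = 0 ∧ hxc = 0 ∧ hxd = -1 ∧ oxr = 0 ∧ oxs = -f1) ∨
      ((x ≤ i - 3 ∨ (i < x ∧ x < j - 2) ∨ j < x) ∧ hxa = 0 ∧ hxb = 0 ∧ hxc = 0 ∧ hxd = 0 ∧ oxr = 0 ∧ oxs = 0))
    (Y : (y = i - 2 ∧ hya = 1 ∧ hyb = 0 ∧ hyc = 0 ∧ hyd = 0 ∧ oyr = e2 ∧ oys = 0) ∨
      (y = i - 1 ∧ hya = -1 ∧ hyb = 1 ∧ hyc = 0 ∧ hyd = 0 ∧ oyr = u2 ∧ oys = 0) ∨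
      (y = i ∧ i < j - 2 ∧ hya = 0 ∧ hyb = -1 ∧ hyc = 0 ∧ hyd = 0 ∧ oyr = -f2 ∧ oys = 0) ∨
      (y = i ∧ i = j - 2 ∧ hya = 0 ∧ hyb = -1 ∧ hyc = 1 ∧ hyd = 0 ∧ oyr = -f2 ∧ oys = e2) ∨
      (y = j - 2 ∧ i < j - 2 ∧ hya = 0 ∧ hyb = 0 ∧ hyc = 1 ∧ hyd = 0 ∧ oyr = 0 ∧ oys = e2) ∨
      (y = j - 1 ∧ hya = 0 ∧ hyb = 0 ∧ hyc = -1 ∧ hyd = 1 ∧ oyr = 0 ∧ oys = u2) ∨
      (y = j ∧ hya = 0 ∧ hyb = 0 ∧ hyc = 0 ∧ hyd = -1 ∧ oyr = 0 ∧ oys = -f2) ∨
      ((y ≤ i - 3 ∨ (i < y ∧ y < j - 2) ∨ j < y) ∧ hya = 0 ∧ hyb = 0 ∧ hyc = 0 ∧ hyd = 0 ∧ oyr = 0 ∧ oys = 0))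
    (v00 : (da ≤ 0 ∧ db ≤ 0) ∨ (0 ≤ dc ∧ 0 ≤ dd))
    (v01 : (da + hya ≤ 0 ∧ db + hyb ≤ 0) ∨ (0 ≤ dc + hyc ∧ 0 ≤ dd + hyd))
    (v10 : (da - hxa ≤ 0 ∧ db - hxb ≤ 0) ∨ (0 ≤ dc - hxc ∧ 0 ≤ dd - hxd))
    (v11 : (da - hxa + hya ≤ 0 ∧ db - hxb + hyb ≤ 0) ∨ (0 ≤ dc - hxc + hyc ∧ 0 ≤ dd - hxd + hyd)) :
    ¬ (0 < da + db + oyr - oxr ∧ dc + dd + oys - oxs < 0) := by
  have b1 := t1.bd
  have b2 := t2.bd
  rintro ⟨g1, g2⟩
  rcases X with X | X | X | X | X | X | X | X <;> rcases Y with Y | Y | Y | Y | Y | Y | Y | Y <;>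
    first
      | omega
      | (unfold Tup at t1 t2; rcases t1 with t1 | t1 | t1 | t1 <;> rcases t2 with t2 | t2 | t2 | t2 <;> omega)

end Pool.Agent.Work.MP_e17eac_co.PL2

end
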