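import Pool.Agent.Work.MP_e17eac_co.Bd.B01
import Pool.Agent.Work.MP_e17eac_co.PL2.Leaf2

/-! Bundle of small proof modules (one section per former module). -/

section

/-!
# The gadgets: separation of the refined states
-/

set_option autoImplicit false
set_option maxHeartbeats 4000000

namespace Pool.Agent.Work.MP_e17eac_co.PL2

/-- `d` is first nonpositive, then nonnegative. -/
def VV (d : ℤ → ℤ) : Prop := ∀ c c', c < c' → ¬ (0 < d c ∧ d c' < 0)

/-- The change of the state in a hop from the class `x` to the class `x + 1`. -/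
def hopv (x c : ℤ) : ℤ := if c = x then -1 else if c = x + 1 then 1 else 0

/-- The refined state: the class `k` becomes the class `2 k + 1`, with ten times as many lines, and
`2 k` is a new class between the old classes `k - 1` and `k`. -/
def base (a : ℤ → ℤ) (c : ℤ) : ℤ := if c % 2 = 0 then a (c / 2 - 1) + a (c / 2) else 10 * a (c / 2)

/-- The offsets inside the gadget of a hop from the class `x`. -/
def off (x f p u q e c : ℤ) : ℤ :=
  if c = 2 * x then -f else if c = 2 * x + 1 then -p else if c = 2 * x + 2 then u else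
    if c = 2 * x + 3 then q else if c = 2 * x + 4 then e else 0

/-- No gadget, or a state inside a gadget. -/
def Act (hx ox : ℤ → ℤ) : Prop :=
  (hx = 0 ∧ ox = 0) ∨ ∃ x f p u q e, Tup x f p u q e ∧ hx = hopv x ∧ ox = off x f p u q e

theorem exTup (x : ℤ) : ∃ f p u q e, Tup x f p u q e := by
  rcases Int.emod_two_eq_zero_or_one x with h | h
  · exact ⟨1, 0, 1, 0, 0, Or.inl ⟨h, rfl, rfl, rfl, by norm_num, by norm_num, rfl⟩⟩
  · exact ⟨0, 0, -1, 0, 1, Or.inr (Or.inr (Or.inl ⟨h, rfl, rfl, rfl, by norm_num, by norm_num,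
      rfl⟩))⟩

theorem act_oo {hx ox : ℤ → ℤ} (h : Act hx ox) (i j : ℤ) (hij : i < j) :
    ∃ x f p u q e, Tup x f p u q e ∧ (
      (x = i ∧ i + 1 = j ∧ hx i = -1 ∧ hx j = 1 ∧ ox (2 * i + 1) = -p ∧ ox (2 * j + 1) = q) ∨
      (x = i ∧ i + 1 < j ∧ hx i = -1 ∧ hx j = 0 ∧ ox (2 * i + 1) = -p ∧ ox (2 * j + 1) = 0) ∨
      (x = i - 1 ∧ hx i = 1 ∧ hx j = 0 ∧ ox (2 * i + 1) = q ∧ ox (2 * j + 1) = 0) ∨
      (x = j ∧ hx i = 0 ∧ hx j = -1 ∧ ox (2 * i + 1) = 0 ∧ ox (2 * j + 1) = -p) ∨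
      (x = j - 1 ∧ i + 1 < j ∧ hx i = 0 ∧ hx j = 1 ∧ ox (2 * i + 1) = 0 ∧ ox (2 * j + 1) = q) ∨
      ((x ≤ i - 2 ∨ (i < x ∧ x < j - 1) ∨ j < x) ∧ hx i = 0 ∧ hx j = 0 ∧ ox (2 * i + 1) = 0 ∧ ox (2 * j + 1) = 0)) := by
  rcases h with ⟨rfl, rfl⟩ | ⟨x, f, p, u, q, e, ht, rfl, rfl⟩
  · obtain ⟨f, p, u, q, e, ht⟩ := exTup (j + 1)
    refine ⟨j + 1, f, p, u, q, e, ht, ?_⟩
    exact Or.inr (Or.inr (Or.inr (Or.inr (Or.inr (⟨by omega, rfl, rfl, rfl, rfl⟩)))))
  · refine ⟨x, f, p, u, q, e, ht, ?_⟩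
    unfold hopv off
    have hc : (x = i ∧ i + 1 = j) ∨ (x = i ∧ i + 1 < j) ∨ (x = i - 1) ∨ (x = j) ∨ (x = j - 1 ∧ i + 1 < j) ∨ ((x ≤ i - 2 ∨ (i < x ∧ x < j - 1) ∨ j < x)) := by omega
    rcases hc with hc | hc | hc | hc | hc | hc
    · exact Or.inl (by omega)
    · exact Or.inr (Or.inl (by omega))
    · exact Or.inr (Or.inr (Or.inl (by omega)))
    · exact Or.inr (Or.inr (Or.inr (Or.inl (by omega))))
    · exact Or.inr (Or.inr (Or.inr (Or.inr (Or.inl (by omega)))))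
    · exact Or.inr (Or.inr (Or.inr (Or.inr (Or.inr ((by omega))))))

theorem act_roadj {hx ox : ℤ → ℤ} (h : Act hx ox) (i : ℤ) :
    ∃ x f p u q e, Tup x f p u q e ∧ (
      (x = i ∧ hx (i - 1) = 0 ∧ hx i = -1 ∧ ox (2 * i) = -f ∧ ox (2 * i + 1) = -p) ∨
      (x = i - 1 ∧ hx (i - 1) = -1 ∧ hx i = 1 ∧ ox (2 * i) = u ∧ ox (2 * i + 1) = q) ∨
      (x = i - 2 ∧ hx (i - 1) = 1 ∧ hx i = 0 ∧ ox (2 * i) = e ∧ ox (2 * i + 1) = 0) ∨
      ((x ≤ i - 3 ∨ i < x) ∧ hx (i - 1) = 0 ∧ hx i = 0 ∧ ox (2 * i) = 0 ∧ ox (2 * i + 1) = 0)) := by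
  rcases h with ⟨rfl, rfl⟩ | ⟨x, f, p, u, q, e, ht, rfl, rfl⟩
  · obtain ⟨f, p, u, q, e, ht⟩ := exTup (i + 1)
    refine ⟨i + 1, f, p, u, q, e, ht, ?_⟩
    exact Or.inr (Or.inr (Or.inr (⟨by omega, rfl, rfl, rfl, rfl⟩)))
  · refine ⟨x, f, p, u, q, e, ht, ?_⟩
    unfold hopv off
    have hc : (x = i) ∨ (x = i - 1) ∨ (x = i - 2) ∨ ((x ≤ i - 3 ∨ i < x)) := by omega
    rcases hc with hc | hc | hc | hc
    · exact Or.inl (by omega)
    · exact Or.inr (Or.inl (by omega))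
    · exact Or.inr (Or.inr (Or.inl (by omega)))
    · exact Or.inr (Or.inr (Or.inr ((by omega))))

theorem act_oradj {hx ox : ℤ → ℤ} (h : Act hx ox) (j : ℤ) :
    ∃ x f p u q e, Tup x f p u q e ∧ (
      (x = j ∧ hx (j - 1) = 0 ∧ hx j = -1 ∧ ox (2 * j - 1) = 0 ∧ ox (2 * j) = -f) ∨
      (x = j - 1 ∧ hx (j - 1) = -1 ∧ hx j = 1 ∧ ox (2 * j - 1) = -p ∧ ox (2 * j) = u) ∨
      (x = j - 2 ∧ hx (j - 1) = 1 ∧ hx j = 0 ∧ ox (2 * j - 1) = q ∧ ox (2 * j) = e) ∨
      ((x ≤ j - 3 ∨ j < x) ∧ hx (j - 1) = 0 ∧ hx j = 0 ∧ ox (2 * j - 1) = 0 ∧ ox (2 * j) = 0)) := by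
  rcases h with ⟨rfl, rfl⟩ | ⟨x, f, p, u, q, e, ht, rfl, rfl⟩
  · obtain ⟨f, p, u, q, e, ht⟩ := exTup (j + 1)
    refine ⟨j + 1, f, p, u, q, e, ht, ?_⟩
    exact Or.inr (Or.inr (Or.inr (⟨by omega, rfl, rfl, rfl, rfl⟩)))
  · refine ⟨x, f, p, u, q, e, ht, ?_⟩
    unfold hopv off
    have hc : (x = j) ∨ (x = j - 1) ∨ (x = j - 2) ∨ ((x ≤ j - 3 ∨ j < x)) := by omega
    rcases hc with hc | hc | hc | hc
    · exact Or.inl (by omega)
    · exact Or.inr (Or.inl (by omega))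
    · exact Or.inr (Or.inr (Or.inl (by omega)))
    · exact Or.inr (Or.inr (Or.inr ((by omega))))

theorem act_rradj {hx ox : ℤ → ℤ} (h : Act hx ox) (i : ℤ) :
    ∃ x f p u q e, Tup x f p u q e ∧ (
      (x = i + 1 ∧ hx (i - 1) = 0 ∧ hx i = 0 ∧ hx (i + 1) = -1 ∧ ox (2 * i) = 0 ∧ ox (2 * i + 2) = -f) ∨
      (x = i ∧ hx (i - 1) = 0 ∧ hx i = -1 ∧ hx (i + 1) = 1 ∧ ox (2 * i) = -f ∧ ox (2 * i + 2) = u) ∨
      (x = i - 1 ∧ hx (i - 1) = -1 ∧ hx i = 1 ∧ hx (i + 1) = 0 ∧ ox (2 * i) = u ∧ ox (2 * i + 2) = e) ∨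
      (x = i - 2 ∧ hx (i - 1) = 1 ∧ hx i = 0 ∧ hx (i + 1) = 0 ∧ ox (2 * i) = e ∧ ox (2 * i + 2) = 0) ∨
      ((i + 2 ≤ x ∨ x ≤ i - 3) ∧ hx (i - 1) = 0 ∧ hx i = 0 ∧ hx (i + 1) = 0 ∧ ox (2 * i) = 0 ∧ ox (2 * i + 2) = 0)) := by
  rcases h with ⟨rfl, rfl⟩ | ⟨x, f, p, u, q, e, ht, rfl, rfl⟩
  · obtain ⟨f, p, u, q, e, ht⟩ := exTup (i + 2)
    refine ⟨i + 2, f, p, u, q, e, ht, ?_⟩
    exact Or.inr (Or.inr (Or.inr (Or.inr (⟨by omega, rfl, rfl, rfl, rfl, rfl⟩))))
  · refine ⟨x, f, p, u, q, e, ht, ?_⟩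
    unfold hopv off
    have hc : (x = i + 1) ∨ (x = i) ∨ (x = i - 1) ∨ (x = i - 2) ∨ ((i + 2 ≤ x ∨ x ≤ i - 3)) := by omega
    rcases hc with hc | hc | hc | hc | hc
    · exact Or.inl (by omega)
    · exact Or.inr (Or.inl (by omega))
    · exact Or.inr (Or.inr (Or.inl (by omega)))
    · exact Or.inr (Or.inr (Or.inr (Or.inl (by omega))))
    · exact Or.inr (Or.inr (Or.inr (Or.inr ((by omega)))))

theorem act_rofar {hx ox : ℤ → ℤ} (h : Act hx ox) (i j : ℤ) (hij : i < j) :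
    ∃ x f p u q e, Tup x f p u q e ∧ (
      (x = i - 2 ∧ hx (i - 1) = 1 ∧ hx i = 0 ∧ hx j = 0 ∧ ox (2 * i) = e ∧ ox (2 * j + 1) = 0) ∨
      (x = i - 1 ∧ hx (i - 1) = -1 ∧ hx i = 1 ∧ hx j = 0 ∧ ox (2 * i) = u ∧ ox (2 * j + 1) = 0) ∨
      (x = i ∧ i + 1 = j ∧ hx (i - 1) = 0 ∧ hx i = -1 ∧ hx j = 1 ∧ ox (2 * i) = -f ∧ ox (2 * j + 1) = q) ∨
      (x = i ∧ i + 1 < j ∧ hx (i - 1) = 0 ∧ hx i = -1 ∧ hx j = 0 ∧ ox (2 * i) = -f ∧ ox (2 * j + 1) = 0) ∨
      (x = j ∧ hx (i - 1) = 0 ∧ hx i = 0 ∧ hx j = -1 ∧ ox (2 * i) = 0 ∧ ox (2 * j + 1) = -p) ∨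
      (x = j - 1 ∧ i + 1 < j ∧ hx (i - 1) = 0 ∧ hx i = 0 ∧ hx j = 1 ∧ ox (2 * i) = 0 ∧ ox (2 * j + 1) = q) ∨
      ((x ≤ i - 3 ∨ (i < x ∧ x < j - 1) ∨ j < x) ∧ hx (i - 1) = 0 ∧ hx i = 0 ∧ hx j = 0 ∧ ox (2 * i) = 0 ∧ ox (2 * j + 1) = 0)) := by
  rcases h with ⟨rfl, rfl⟩ | ⟨x, f, p, u, q, e, ht, rfl, rfl⟩
  · obtain ⟨f, p, u, q, e, ht⟩ := exTup (j + 1)
    refine ⟨j + 1, f, p, u, q, e, ht, ?_⟩
    exact Or.inr (Or.inr (Or.inr (Or.inr (Or.inr (Or.inr (⟨by omega, rfl, rfl, rfl, rfl, rfl⟩))))))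
  · refine ⟨x, f, p, u, q, e, ht, ?_⟩
    unfold hopv off
    have hc : (x = i - 2) ∨ (x = i - 1) ∨ (x = i ∧ i + 1 = j) ∨ (x = i ∧ i + 1 < j) ∨ (x = j) ∨ (x = j - 1 ∧ i + 1 < j) ∨ ((x ≤ i - 3 ∨ (i < x ∧ x < j - 1) ∨ j < x)) := by omega
    rcases hc with hc | hc | hc | hc | hc | hc | hc
    · exact Or.inl (by omega)
    · exact Or.inr (Or.inl (by omega))
    · exact Or.inr (Or.inr (Or.inl (by omega)))
    · exact Or.inr (Or.inr (Or.inr (Or.inl (by omega))))
    · exact Or.inr (Or.inr (Or.inr (Or.inr (Or.inl (by omega)))))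
    · exact Or.inr (Or.inr (Or.inr (Or.inr (Or.inr (Or.inl (by omega))))))
    · exact Or.inr (Or.inr (Or.inr (Or.inr (Or.inr (Or.inr ((by omega)))))))

theorem act_orfar {hx ox : ℤ → ℤ} (h : Act hx ox) (i j : ℤ) (hij : i ≤ j - 2) :
    ∃ x f p u q e, Tup x f p u q e ∧ (
      (x = j ∧ hx i = 0 ∧ hx (j - 1) = 0 ∧ hx j = -1 ∧ ox (2 * i + 1) = 0 ∧ ox (2 * j) = -f) ∨
      (x = j - 1 ∧ hx i = 0 ∧ hx (j - 1) = -1 ∧ hx j = 1 ∧ ox (2 * i + 1) = 0 ∧ ox (2 * j) = u) ∨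
      (x = j - 2 ∧ i = j - 2 ∧ hx i = -1 ∧ hx (j - 1) = 1 ∧ hx j = 0 ∧ ox (2 * i + 1) = -p ∧ ox (2 * j) = e) ∨
      (x = j - 2 ∧ i < j - 2 ∧ hx i = 0 ∧ hx (j - 1) = 1 ∧ hx j = 0 ∧ ox (2 * i + 1) = 0 ∧ ox (2 * j) = e) ∨
      (x = i ∧ i < j - 2 ∧ hx i = -1 ∧ hx (j - 1) = 0 ∧ hx j = 0 ∧ ox (2 * i + 1) = -p ∧ ox (2 * j) = 0) ∨
      (x = i - 1 ∧ hx i = 1 ∧ hx (j - 1) = 0 ∧ hx j = 0 ∧ ox (2 * i + 1) = q ∧ ox (2 * j) = 0) ∨
      ((x ≤ i - 2 ∨ (i < x ∧ x < j - 2) ∨ j < x) ∧ hx i = 0 ∧ hx (j - 1) = 0 ∧ hx j = 0 ∧ ox (2 * i + 1) = 0 ∧ ox (2 * j) = 0)) := by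
  rcases h with ⟨rfl, rfl⟩ | ⟨x, f, p, u, q, e, ht, rfl, rfl⟩
  · obtain ⟨f, p, u, q, e, ht⟩ := exTup (j + 1)
    refine ⟨j + 1, f, p, u, q, e, ht, ?_⟩
    exact Or.inr (Or.inr (Or.inr (Or.inr (Or.inr (Or.inr (⟨by omega, rfl, rfl, rfl, rfl, rfl⟩))))))
  · refine ⟨x, f, p, u, q, e, ht, ?_⟩
    unfold hopv off
    have hc : (x = j) ∨ (x = j - 1) ∨ (x = j - 2 ∧ i = j - 2) ∨ (x = j - 2 ∧ i < j - 2) ∨ (x = i ∧ i < j - 2) ∨ (x = i - 1) ∨ ((x ≤ i - 2 ∨ (i < x ∧ x < j - 2) ∨ j < x)) := by omega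
    rcases hc with hc | hc | hc | hc | hc | hc | hc
    · exact Or.inl (by omega)
    · exact Or.inr (Or.inl (by omega))
    · exact Or.inr (Or.inr (Or.inl (by omega)))
    · exact Or.inr (Or.inr (Or.inr (Or.inl (by omega))))
    · exact Or.inr (Or.inr (Or.inr (Or.inr (Or.inl (by omega)))))
    · exact Or.inr (Or.inr (Or.inr (Or.inr (Or.inr (Or.inl (by omega))))))
    · exact Or.inr (Or.inr (Or.inr (Or.inr (Or.inr (Or.inr ((by omega)))))))

theorem act_rrfar {hx ox : ℤ → ℤ} (h : Act hx ox) (i j : ℤ) (hij : i ≤ j - 2) :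
    ∃ x f p u q e, Tup x f p u q e ∧ (
      (x = i - 2 ∧ hx (i - 1) = 1 ∧ hx i = 0 ∧ hx (j - 1) = 0 ∧ hx j = 0 ∧ ox (2 * i) = e ∧ ox (2 * j) = 0) ∨
      (x = i - 1 ∧ hx (i - 1) = -1 ∧ hx i = 1 ∧ hx (j - 1) = 0 ∧ hx j = 0 ∧ ox (2 * i) = u ∧ ox (2 * j) = 0) ∨
      (x = i ∧ i < j - 2 ∧ hx (i - 1) = 0 ∧ hx i = -1 ∧ hx (j - 1) = 0 ∧ hx j = 0 ∧ ox (2 * i) = -f ∧ ox (2 * j) = 0) ∨
      (x = i ∧ i = j - 2 ∧ hx (i - 1) = 0 ∧ hx i = -1 ∧ hx (j - 1) = 1 ∧ hx j = 0 ∧ ox (2 * i) = -f ∧ ox (2 * j) = e) ∨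
      (x = j - 2 ∧ i < j - 2 ∧ hx (i - 1) = 0 ∧ hx i = 0 ∧ hx (j - 1) = 1 ∧ hx j = 0 ∧ ox (2 * i) = 0 ∧ ox (2 * j) = e) ∨
      (x = j - 1 ∧ hx (i - 1) = 0 ∧ hx i = 0 ∧ hx (j - 1) = -1 ∧ hx j = 1 ∧ ox (2 * i) = 0 ∧ ox (2 * j) = u) ∨
      (x = j ∧ hx (i - 1) = 0 ∧ hx i = 0 ∧ hx (j - 1) = 0 ∧ hx j = -1 ∧ ox (2 * i) = 0 ∧ ox (2 * j) = -f) ∨
      ((x ≤ i - 3 ∨ (i < x ∧ x < j - 2) ∨ j < x) ∧ hx (i - 1) = 0 ∧ hx i = 0 ∧ hx (j - 1) = 0 ∧ hx j = 0 ∧ ox (2 * i) = 0 ∧ ox (2 * j) = 0)) := by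
  rcases h with ⟨rfl, rfl⟩ | ⟨x, f, p, u, q, e, ht, rfl, rfl⟩
  · obtain ⟨f, p, u, q, e, ht⟩ := exTup (j + 1)
    refine ⟨j + 1, f, p, u, q, e, ht, ?_⟩
    exact Or.inr (Or.inr (Or.inr (Or.inr (Or.inr (Or.inr (Or.inr (⟨by omega, rfl, rfl, rfl, rfl, rfl, rfl⟩)))))))
  · refine ⟨x, f, p, u, q, e, ht, ?_⟩
    unfold hopv off
    have hc : (x = i - 2) ∨ (x = i - 1) ∨ (x = i ∧ i < j - 2) ∨ (x = i ∧ i = j - 2) ∨ (x = j - 2 ∧ i < j - 2) ∨ (x = j - 1) ∨ (x = j) ∨ ((x ≤ i - 3 ∨ (i < x ∧ x < j - 2) ∨ j < x)) := by omega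
    rcases hc with hc | hc | hc | hc | hc | hc | hc | hc
    · exact Or.inl (by omega)
    · exact Or.inr (Or.inl (by omega))
    · exact Or.inr (Or.inr (Or.inl (by omega)))
    · exact Or.inr (Or.inr (Or.inr (Or.inl (by omega))))
    · exact Or.inr (Or.inr (Or.inr (Or.inr (Or.inl (by omega)))))
    · exact Or.inr (Or.inr (Or.inr (Or.inr (Or.inr (Or.inl (by omega))))))
    · exact Or.inr (Or.inr (Or.inr (Or.inr (Or.inr (Or.inr (Or.inl (by omega)))))))
    · exact Or.inr (Or.inr (Or.inr (Or.inr (Or.inr (Or.inr (Or.inr ((by omega))))))))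

theorem VV.pair {d : ℤ → ℤ} (h : VV d) {a b c e : ℤ} (h1 : a < c) (h2 : a < e) (h3 : b < c)
    (h4 : b < e) : (d a ≤ 0 ∧ d b ≤ 0) ∨ (0 ≤ d c ∧ 0 ≤ d e) := by
  have k1 := h a c h1
  have k2 := h a e h2
  have k3 := h b c h3
  have k4 := h b e h4
  omega

theorem vmicro {d hx ox hy oy : ℤ → ℤ} (h1 : Act hx ox) (h2 : Act hy oy) (v00 : VV d)
    (v01 : VV (fun c => d c + hy c)) (v10 : VV (fun c => d c - hx c))
    (v11 : VV (fun c => d c - hx c + hy c)) :
    VV (fun c => base d c + oy c - ox c) := by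
  intro c c' hcc
  show ¬ (0 < base d c + oy c - ox c ∧ base d c' + oy c' - ox c' < 0)
  rcases Int.emod_two_eq_zero_or_one c with hc | hc <;>
    rcases Int.emod_two_eq_zero_or_one c' with hc' | hc'
  · -- relay, relay
    obtain ⟨i, rfl⟩ : ∃ i, c = 2 * i := ⟨c / 2, by omega⟩
    obtain ⟨j, rfl⟩ : ∃ j, c' = 2 * j := ⟨c' / 2, by omega⟩
    have hi : base d (2 * i) = d (i - 1) + d i := by
      unfold base
      rw [if_pos hc, show 2 * i / 2 = i by omega]
    have hj : base d (2 * j) = d (j - 1) + d j := by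
      unfold base
      rw [if_pos hc', show 2 * j / 2 = j by omega]
    rw [hi, hj]
    rcases (show j = i + 1 ∨ i ≤ j - 2 by omega) with rfl | hij
    · obtain ⟨x, f1, p1, u1, q1, e1, t1, X⟩ := act_rradj h1 i
      obtain ⟨y, f2, p2, u2, q2, e2, t2, Y⟩ := act_rradj h2 i
      rw [show 2 * (i + 1) = 2 * i + 2 by ring, show i + 1 - 1 = i by ring]
      exact rradj i x y f1 p1 u1 q1 e1 f2 p2 u2 q2 e2 (d (i - 1)) (d i) (d (i + 1)) (hx (i - 1))
        (hx i) (hx (i + 1)) (hy (i - 1)) (hy i) (hy (i + 1)) (ox (2 * i)) (ox (2 * i + 2))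
        (oy (2 * i)) (oy (2 * i + 2)) t1 t2 X Y
        (v00 _ _ (by omega)) (v00 _ _ (by omega)) (v00 _ _ (by omega))
        (v01 _ _ (by omega)) (v01 _ _ (by omega)) (v01 _ _ (by omega))
        (v10 _ _ (by omega)) (v10 _ _ (by omega)) (v10 _ _ (by omega))
        (v11 _ _ (by omega)) (v11 _ _ (by omega)) (v11 _ _ (by omega))
    · obtain ⟨x, f1, p1, u1, q1, e1, t1, X⟩ := act_rrfar h1 i j hij
      obtain ⟨y, f2, p2, u2, q2, e2, t2, Y⟩ := act_rrfar h2 i j hij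
      exact rrfar i j x y f1 p1 u1 q1 e1 f2 p2 u2 q2 e2 (d (i - 1)) (d i) (d (j - 1)) (d j)
        (hx (i - 1)) (hx i) (hx (j - 1)) (hx j) (hy (i - 1)) (hy i) (hy (j - 1)) (hy j)
        (ox (2 * i)) (ox (2 * j)) (oy (2 * i)) (oy (2 * j)) t1 t2 hij X Y
        (v00.pair (by omega) (by omega) (by omega) (by omega))
        (v01.pair (by omega) (by omega) (by omega) (by omega))
        (v10.pair (by omega) (by omega) (by omega) (by omega))
        (v11.pair (by omega) (by omega) (by omega) (by omega))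
  · -- relay, old
    obtain ⟨i, rfl⟩ : ∃ i, c = 2 * i := ⟨c / 2, by omega⟩
    obtain ⟨j, rfl⟩ : ∃ j, c' = 2 * j + 1 := ⟨c' / 2, by omega⟩
    have hi : base d (2 * i) = d (i - 1) + d i := by
      unfold base
      rw [if_pos hc, show 2 * i / 2 = i by omega]
    have hj : base d (2 * j + 1) = 10 * d j := by
      unfold base
      rw [if_neg (by omega), show (2 * j + 1) / 2 = j by omega]
    rw [hi, hj]
    rcases (show j = i ∨ i < j by omega) with rfl | hij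
    · obtain ⟨x, f1, p1, u1, q1, e1, t1, X⟩ := act_roadj h1 j
      obtain ⟨y, f2, p2, u2, q2, e2, t2, Y⟩ := act_roadj h2 j
      exact roadj j x y f1 p1 u1 q1 e1 f2 p2 u2 q2 e2 (d (j - 1)) (d j) (hx (j - 1))
        (hx j) (hy (j - 1)) (hy j) (ox (2 * j)) (ox (2 * j + 1))
        (oy (2 * j)) (oy (2 * j + 1)) t1 t2 X Y
        (v00 _ _ (by omega)) (v01 _ _ (by omega)) (v10 _ _ (by omega)) (v11 _ _ (by omega))
    · obtain ⟨x, f1, p1, u1, q1, e1, t1, X⟩ := act_rofar h1 i j hij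
      obtain ⟨y, f2, p2, u2, q2, e2, t2, Y⟩ := act_rofar h2 i j hij
      exact rofar i j x y f1 p1 u1 q1 e1 f2 p2 u2 q2 e2 (d (i - 1)) (d i) (d j) (hx (i - 1))
        (hx i) (hx j) (hy (i - 1)) (hy i) (hy j) (ox (2 * i)) (ox (2 * j + 1))
        (oy (2 * i)) (oy (2 * j + 1)) t1 t2 hij X Y
        (v00 _ _ (by omega)) (v00 _ _ (by omega)) (v00 _ _ (by omega))
        (v01 _ _ (by omega)) (v01 _ _ (by omega)) (v01 _ _ (by omega))
        (v10 _ _ (by omega)) (v10 _ _ (by omega)) (v10 _ _ (by omega))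
        (v11 _ _ (by omega)) (v11 _ _ (by omega)) (v11 _ _ (by omega))
  · -- old, relay
    obtain ⟨i, rfl⟩ : ∃ i, c = 2 * i + 1 := ⟨c / 2, by omega⟩
    obtain ⟨j, rfl⟩ : ∃ j, c' = 2 * j := ⟨c' / 2, by omega⟩
    have hi : base d (2 * i + 1) = 10 * d i := by
      unfold base
      rw [if_neg (by omega), show (2 * i + 1) / 2 = i by omega]
    have hj : base d (2 * j) = d (j - 1) + d j := by
      unfold base
      rw [if_pos hc', show 2 * j / 2 = j by omega]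
    rw [hi, hj]
    rcases (show i = j - 1 ∨ i ≤ j - 2 by omega) with rfl | hij
    · obtain ⟨x, f1, p1, u1, q1, e1, t1, X⟩ := act_oradj h1 j
      obtain ⟨y, f2, p2, u2, q2, e2, t2, Y⟩ := act_oradj h2 j
      rw [show 2 * (j - 1) + 1 = 2 * j - 1 by ring]
      exact oradj j x y f1 p1 u1 q1 e1 f2 p2 u2 q2 e2 (d (j - 1)) (d j) (hx (j - 1))
        (hx j) (hy (j - 1)) (hy j) (ox (2 * j - 1)) (ox (2 * j))
        (oy (2 * j - 1)) (oy (2 * j)) t1 t2 X Y
        (v00 _ _ (by omega)) (v01 _ _ (by omega)) (v10 _ _ (by omega)) (v11 _ _ (by omega))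
    · obtain ⟨x, f1, p1, u1, q1, e1, t1, X⟩ := act_orfar h1 i j hij
      obtain ⟨y, f2, p2, u2, q2, e2, t2, Y⟩ := act_orfar h2 i j hij
      exact orfar i j x y f1 p1 u1 q1 e1 f2 p2 u2 q2 e2 (d i) (d (j - 1)) (d j) (hx i)
        (hx (j - 1)) (hx j) (hy i) (hy (j - 1)) (hy j) (ox (2 * i + 1)) (ox (2 * j))
        (oy (2 * i + 1)) (oy (2 * j)) t1 t2 hij X Y
        (v00 _ _ (by omega)) (v00 _ _ (by omega)) (v00 _ _ (by omega))
        (v01 _ _ (by omega)) (v01 _ _ (by omega)) (v01 _ _ (by omega))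
        (v10 _ _ (by omega)) (v10 _ _ (by omega)) (v10 _ _ (by omega))
        (v11 _ _ (by omega)) (v11 _ _ (by omega)) (v11 _ _ (by omega))
  · -- old, old
    obtain ⟨i, rfl⟩ : ∃ i, c = 2 * i + 1 := ⟨c / 2, by omega⟩
    obtain ⟨j, rfl⟩ : ∃ j, c' = 2 * j + 1 := ⟨c' / 2, by omega⟩
    have hij : i < j := by omega
    have hi : base d (2 * i + 1) = 10 * d i := by
      unfold base
      rw [if_neg (by omega), show (2 * i + 1) / 2 = i by omega]
    have hj : base d (2 * j + 1) = 10 * d j := by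
      unfold base
      rw [if_neg (by omega), show (2 * j + 1) / 2 = j by omega]
    rw [hi, hj]
    obtain ⟨x, f1, p1, u1, q1, e1, t1, X⟩ := act_oo h1 i j hij
    obtain ⟨y, f2, p2, u2, q2, e2, t2, Y⟩ := act_oo h2 i j hij
    exact oo i j x y f1 p1 u1 q1 e1 f2 p2 u2 q2 e2 (d i) (d j) (hx i)
      (hx j) (hy i) (hy j) (ox (2 * i + 1)) (ox (2 * j + 1))
      (oy (2 * i + 1)) (oy (2 * j + 1)) t1 t2 hij X Y
      (v00 _ _ hij) (v01 _ _ hij) (v10 _ _ hij) (v11 _ _ hij)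

end Pool.Agent.Work.MP_e17eac_co.PL2

end

section

/-!
# The refinement step
-/

set_option autoImplicit false
set_option maxHeartbeats 4000000

namespace Pool.Agent.Work.MP_e17eac_co.PL2

/-- A list of states `s 0, …, s m` (the number of lines of every class below the level), with `N`
lines altogether, `M` of them below the level, and at least `T` steps which are hops: exchanges of
a line of some class `x` and a line of the next class. -/
def Config (N M T : ℕ) : Prop :=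
  ∃ (m C : ℕ) (size : ℤ → ℤ) (s : ℕ → ℤ → ℤ) (hp : ℕ → Option ℤ),
    (∀ c, 0 ≤ size c) ∧ (∀ c : ℤ, c < 0 ∨ (C : ℤ) ≤ c → size c = 0) ∧
    (∑ c ∈ Finset.range C, size (c : ℤ) = N) ∧
    (∀ t ≤ m, ∀ c, 0 ≤ s t c ∧ s t c ≤ size c) ∧
    (∀ t ≤ m, ∑ c ∈ Finset.range C, s t (c : ℤ) = M) ∧
    (∀ t t', t < t' → t' ≤ m → VV (fun c => s t' c - s t c)) ∧
    (∀ t < m, ∀ x, hp t = some x → s (t + 1) = fun c => s t c + hopv x c) ∧
    T ≤ ((Finset.range m).filter fun t => (hp t).isSome).card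

theorem config_zero : Config 2 1 1 := by
  refine ⟨1, 2, fun c => if c = 0 ∨ c = 1 then 1 else 0,
    fun t c => if c = (t : ℤ) then 1 else 0, fun _ => some 0, ?_, ?_, ?_, ?_, ?_, ?_, ?_, ?_⟩
  · intro c
    show (0 : ℤ) ≤ if c = 0 ∨ c = 1 then 1 else 0
    split_ifs <;> norm_num
  · intro c hc
    show (if c = 0 ∨ c = 1 then (1 : ℤ) else 0) = 0
    rw [if_neg]
    push_cast at hc
    omega
  · show ∑ c ∈ Finset.range 2, (if (c : ℤ) = 0 ∨ (c : ℤ) = 1 then (1 : ℤ) else 0) = ((2 : ℕ) : ℤ)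
    rw [Finset.sum_range_succ, Finset.sum_range_succ, Finset.sum_range_zero]
    norm_num
  · intro t ht c
    show (0 : ℤ) ≤ (if c = (t : ℤ) then 1 else 0) ∧
      (if c = (t : ℤ) then (1 : ℤ) else 0) ≤ if c = 0 ∨ c = 1 then 1 else 0
    split_ifs <;> omega
  · intro t ht
    have : t = 0 ∨ t = 1 := by omega
    rcases this with rfl | rfl <;> simp
  · intro t t' h1 h2
    have e1 : t = 0 := by omega
    have e2 : t' = 1 := by omega
    subst e1 e2
    intro c c' hcc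
    show ¬ (0 < (if c = ((1 : ℕ) : ℤ) then (1 : ℤ) else 0) - (if c = ((0 : ℕ) : ℤ) then 1 else 0) ∧
      (if c' = ((1 : ℕ) : ℤ) then (1 : ℤ) else 0) - (if c' = ((0 : ℕ) : ℤ) then 1 else 0) < 0)
    push_cast
    omega
  · intro t ht x hx
    have e1 : t = 0 := by omega
    subst e1
    have hx' : x = 0 := by
      have := Option.some.inj hx
      omega
    subst hx'
    funext c
    show (if c = ((0 + 1 : ℕ) : ℤ) then (1 : ℤ) else 0) =
      (if c = ((0 : ℕ) : ℤ) then (1 : ℤ) else 0) + hopv 0 c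
    unfold hopv
    push_cast
    split_ifs <;> omega
  · simp

/-- The offsets in the sub-step `r` of the gadget. -/
def goff (x : ℤ) (r : ℕ) : ℤ → ℤ :=
  if r = 0 then 0 else
    if x % 2 = 0 then off x 1 (((r - 1) / 2 : ℕ) : ℤ) ((r % 2 : ℕ) : ℤ) ((r / 2 : ℕ) : ℤ) 0
    else off x 0 ((r / 2 : ℕ) : ℤ) (-((r % 2 : ℕ) : ℤ)) (((r - 1) / 2 : ℕ) : ℤ) 1

theorem goff_tup (x : ℤ) (r : ℕ) (h1 : 1 ≤ r) (h2 : r ≤ 21) :
    ∃ f p u q e, Tup x f p u q e ∧ goff x r = off x f p u q e := by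
  unfold goff
  rw [if_neg (by omega)]
  by_cases hx : x % 2 = 0
  · rw [if_pos hx]
    refine ⟨_, _, _, _, _, ?_, rfl⟩
    unfold Tup
    rcases Nat.mod_two_eq_zero_or_one r with h | h
    · exact Or.inr (Or.inl (by omega))
    · exact Or.inl (by omega)
  · rw [if_neg hx]
    refine ⟨_, _, _, _, _, ?_, rfl⟩
    unfold Tup
    rcases Nat.mod_two_eq_zero_or_one r with h | h
    · exact Or.inr (Or.inr (Or.inr (by omega)))
    · exact Or.inr (Or.inr (Or.inl (by omega)))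

theorem act_goff (x : ℤ) (r : ℕ) (h1 : 1 ≤ r) (h2 : r ≤ 21) : Act (hopv x) (goff x r) := by
  obtain ⟨f, p, u, q, e, ht, he⟩ := goff_tup x r h1 h2
  exact Or.inr ⟨x, f, p, u, q, e, ht, rfl, he⟩

/-- Separation inside a gadget. -/
theorem same_gadget (x : ℤ) (r r' : ℕ) (h : r < r') (h2 : r' ≤ 21) :
    VV (fun c => goff x r' c - goff x r c) := by
  intro c c' hcc
  show ¬ (0 < goff x r' c - goff x r c ∧ goff x r' c' - goff x r c' < 0)
  unfold goff
  rw [if_neg (show ¬ r' = 0 by omega)]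
  by_cases hr : r = 0
  · rw [if_pos hr]
    by_cases hx : x % 2 = 0
    · rw [if_pos hx]
      simp only [Pi.zero_apply, sub_zero]
      unfold off
      omega
    · rw [if_neg hx]
      simp only [Pi.zero_apply, sub_zero]
      unfold off
      omega
  · rw [if_neg hr]
    by_cases hx : x % 2 = 0
    · rw [if_pos hx, if_pos hx]
      unfold off
      omega
    · rw [if_neg hx, if_neg hx]
      unfold off
      omega

/-- The hops inside a gadget. -/
theorem gadget_hop (x : ℤ) (r : ℕ) (h1 : 1 ≤ r) (h2 : r ≤ 20) (c : ℤ) :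
    goff x (r + 1) c = goff x r c +
      hopv (if (r % 2 = 1 ↔ x % 2 = 0) then 2 * x + 2 else 2 * x + 1) c := by
  unfold goff
  rw [if_neg (show ¬ r + 1 = 0 by omega), if_neg (show ¬ r = 0 by omega)]
  by_cases hx : x % 2 = 0
  · rw [if_pos hx, if_pos hx]
    rcases Nat.mod_two_eq_zero_or_one r with h | h
    · rw [if_neg (by omega)]
      unfold off hopv
      have e1 : ((r + 1 - 1) / 2 : ℕ) = (r - 1) / 2 + 1 := by omega
      have e2 : ((r + 1) % 2 : ℕ) = 1 := by omega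
      have e3 : ((r + 1) / 2 : ℕ) = r / 2 := by omega
      rw [e1, e2, e3, h]
      push_cast
      split_ifs <;> omega
    · rw [if_pos (by omega)]
      unfold off hopv
      have e1 : ((r + 1 - 1) / 2 : ℕ) = (r - 1) / 2 := by omega
      have e2 : ((r + 1) % 2 : ℕ) = 0 := by omega
      have e3 : ((r + 1) / 2 : ℕ) = r / 2 + 1 := by omega
      rw [e1, e2, e3, h]
      push_cast
      split_ifs <;> omega
  · rw [if_neg hx, if_neg hx]
    rcases Nat.mod_two_eq_zero_or_one r with h | h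
    · rw [if_pos (by omega)]
      unfold off hopv
      have e1 : ((r + 1 - 1) / 2 : ℕ) = (r - 1) / 2 + 1 := by omega
      have e2 : ((r + 1) % 2 : ℕ) = 1 := by omega
      have e3 : ((r + 1) / 2 : ℕ) = r / 2 := by omega
      rw [e1, e2, e3, h]
      push_cast
      split_ifs <;> omega
    · rw [if_neg (by omega)]
      unfold off hopv
      have e1 : ((r + 1 - 1) / 2 : ℕ) = (r - 1) / 2 := by omega
      have e2 : ((r + 1) % 2 : ℕ) = 0 := by omega
      have e3 : ((r + 1) / 2 : ℕ) = r / 2 + 1 := by omega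
      rw [e1, e2, e3, h]
      push_cast
      split_ifs <;> omega

theorem base_even (a : ℤ → ℤ) (i : ℤ) : base a (2 * i) = a (i - 1) + a i := by
  unfold base
  rw [if_pos (by omega), show 2 * i / 2 = i by omega]

theorem base_odd (a : ℤ → ℤ) (i : ℤ) : base a (2 * i + 1) = 10 * a i := by
  unfold base
  rw [if_neg (by omega), show (2 * i + 1) / 2 = i by omega]

theorem parity_cases (c : ℤ) : (∃ i, c = 2 * i) ∨ ∃ i, c = 2 * i + 1 := by
  rcases Int.emod_two_eq_zero_or_one c with h | h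
  · exact Or.inl ⟨c / 2, by omega⟩
  · exact Or.inr ⟨c / 2, by omega⟩

theorem sum_base (a : ℤ → ℤ) (C : ℕ) : ∑ c ∈ Finset.range (2 * C + 1), base a (c : ℤ) =
    12 * ∑ c ∈ Finset.range C, a (c : ℤ) + a (-1) + a (C : ℤ) := by
  induction C with
  | zero =>
    have := base_even a 0
    simp at this ⊢
    exact this
  | succ C ih =>
    rw [show 2 * (C + 1) + 1 = 2 * C + 1 + 1 + 1 by ring, Finset.sum_range_succ,
      Finset.sum_range_succ, ih, Finset.sum_range_succ]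
    have e1 : base a ((2 * C + 1 : ℕ) : ℤ) = 10 * a (C : ℤ) := by
      rw [← base_odd]
      push_cast
      rfl
    have e2 : base a ((2 * C + 1 + 1 : ℕ) : ℤ) = a (C : ℤ) + a ((C + 1 : ℕ) : ℤ) := by
      have := base_even a ((C + 1 : ℕ) : ℤ)
      rw [show ((C + 1 : ℕ) : ℤ) - 1 = (C : ℤ) by push_cast; ring] at this
      rw [← this]
      congr 1
    rw [e1, e2]
    ring

theorem sum_ind (n : ℕ) (k v : ℤ) (h0 : 0 ≤ k) (h1 : k < n) :
    ∑ c ∈ Finset.range n, (if (c : ℤ) = k then v else 0) = v := by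
  obtain ⟨j, rfl⟩ := Int.eq_ofNat_of_zero_le h0
  have h2 : j < n := by exact_mod_cast h1
  rw [Finset.sum_eq_single j]
  · rw [if_pos rfl]
  · intro b _ hb
    rw [if_neg (by exact_mod_cast hb)]
  · intro h
    exact absurd (Finset.mem_range.2 h2) h

theorem off_eq (x f p u q e c : ℤ) : off x f p u q e c =
    (if c = 2 * x then -f else 0) + (if c = 2 * x + 1 then -p else 0) +
      (if c = 2 * x + 2 then u else 0) + (if c = 2 * x + 3 then q else 0) +
      (if c = 2 * x + 4 then e else 0) := by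
  unfold off
  split_ifs <;> omega

theorem sum_off (x f p u q e : ℤ) (n : ℕ) (h0 : 0 ≤ x) (h1 : 2 * x + 4 < n) :
    ∑ c ∈ Finset.range n, off x f p u q e (c : ℤ) = -f - p + u + q + e := by
  simp only [off_eq, Finset.sum_add_distrib]
  rw [sum_ind n _ _ (by omega) (by omega), sum_ind n _ _ (by omega) (by omega),
    sum_ind n _ _ (by omega) (by omega), sum_ind n _ _ (by omega) (by omega),
    sum_ind n _ _ (by omega) (by omega)]
  ring

theorem Tup.sum {x f p u q e : ℤ} (h : Tup x f p u q e) : -f - p + u + q + e = 0 := by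
  unfold Tup at h
  omega

theorem bounds_off (a size : ℤ → ℤ) (x f p u q e : ℤ) (h0 : ∀ c, 0 ≤ a c ∧ a c ≤ size c)
    (h1 : 1 ≤ a x) (h2 : a (x + 1) + 1 ≤ size (x + 1)) (ht : Tup x f p u q e) (c : ℤ) :
    0 ≤ base a c + off x f p u q e c ∧ base a c + off x f p u q e c ≤ base size c := by
  have hb := ht.bd
  rcases parity_cases c with ⟨i, rfl⟩ | ⟨i, rfl⟩
  · rw [base_even, base_even]
    have k1 := h0 (i - 1)
    have k2 := h0 i
    rcases (show i = x ∨ i = x + 1 ∨ i = x + 2 ∨ (i ≠ x ∧ i ≠ x + 1 ∧ i ≠ x + 2) by omega) with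
      rfl | rfl | rfl | ⟨n1, n2, n3⟩
    · unfold off
      omega
    · rw [show x + 1 - 1 = x by ring] at k1 ⊢
      unfold off
      omega
    · rw [show x + 2 - 1 = x + 1 by ring] at k1 ⊢
      unfold off
      omega
    · unfold off
      omega
  · rw [base_odd, base_odd]
    have k1 := h0 i
    rcases (show i = x ∨ i = x + 1 ∨ (i ≠ x ∧ i ≠ x + 1) by omega) with rfl | rfl | ⟨n1, n2⟩
    · unfold off
      omega
    · unfold off
      omega
    · unfold off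
      omega

theorem bounds_base (a size : ℤ → ℤ) (h0 : ∀ c, 0 ≤ a c ∧ a c ≤ size c) (c : ℤ) :
    0 ≤ base a c ∧ base a c ≤ base size c := by
  rcases parity_cases c with ⟨i, rfl⟩ | ⟨i, rfl⟩
  · rw [base_even, base_even]
    have k1 := h0 (i - 1)
    have k2 := h0 i
    omega
  · rw [base_odd, base_odd]
    have k1 := h0 i
    omega

/-- the offsets in the sub-step `r` -/
def ov (o : Option ℤ) (r : ℕ) : ℤ → ℤ :=
  match o with
  | none => 0
  | some x => goff x r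

theorem ov_zero (o : Option ℤ) : ov o 0 = 0 := by
  cases o with
  | none => rfl
  | some x =>
    show goff x 0 = 0
    unfold goff
    rw [if_pos rfl]

/-- the hop in the sub-step `r` -/
def nh (o : Option ℤ) (r : ℕ) : Option ℤ :=
  match o with
  | none => none
  | some x => if 1 ≤ r ∧ r ≤ 20 then
      some (if (r % 2 = 1 ↔ x % 2 = 0) then 2 * x + 2 else 2 * x + 1) else none

theorem config_step {N M T : ℕ} (h : Config N M T) : Config (12 * N) (12 * M) (20 * T) := by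
  obtain ⟨m, C, size, s, hp, h0, hC, hN, hb, hM, hV, hH, hT⟩ := h
  have hle : ∀ t t', t ≤ t' → t' ≤ m → VV (fun c => s t' c - s t c) := by
    intro t t' h1 h2
    rcases Nat.lt_or_ge t t' with h3 | h3
    · exact hV t t' h3 h2
    · have e : t = t' := by omega
      subst e
      intro c c' _
      show ¬ (0 < s t c - s t c ∧ s t c' - s t c' < 0)
      omega
  -- the hops
  have hhop : ∀ t < m, ∀ x, hp t = some x → 1 ≤ s t x ∧ s t (x + 1) + 1 ≤ size (x + 1) ∧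
      0 ≤ x ∧ x + 1 < C := by
    intro t ht x hx
    have e := hH t ht x hx
    have b1 := hb (t + 1) (by omega) x
    have b2 := hb (t + 1) (by omega) (x + 1)
    have b3 := hb t (by omega) x
    have b4 := hb t (by omega) (x + 1)
    rw [e] at b1 b2
    have e1 : hopv x x = -1 := by
      unfold hopv
      rw [if_pos rfl]
    have e2 : hopv x (x + 1) = 1 := by
      unfold hopv
      rw [if_neg (by omega), if_pos rfl]
    replace b1 : 0 ≤ s t x + hopv x x ∧ s t x + hopv x x ≤ size x := b1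
    replace b2 : 0 ≤ s t (x + 1) + hopv x (x + 1) ∧
      s t (x + 1) + hopv x (x + 1) ≤ size (x + 1) := b2
    rw [e1] at b1
    rw [e2] at b2
    refine ⟨by omega, by omega, ?_, ?_⟩
    · by_contra hn
      have := hC x (Or.inl (by omega))
      omega
    · by_contra hn
      have := hC (x + 1) (Or.inr (by omega))
      omega
  -- inside a gadget
  have hact : ∀ t ≤ m, ∀ r ≤ 21, (1 ≤ r → t < m) → ∃ hx, Act hx (ov (hp t) r) ∧
      ∃ t1, t ≤ t1 ∧ t1 ≤ t + 1 ∧ t1 ≤ m ∧ ∀ c, s t1 c = s t c + hx c := by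
    intro t ht r hr htm
    rcases Nat.eq_zero_or_pos r with rfl | hr1
    · rw [ov_zero]
      exact ⟨0, Or.inl ⟨rfl, rfl⟩, t, le_refl _, by omega, ht, fun c => by simp⟩
    · cases ho : hp t with
      | none =>
        exact ⟨0, Or.inl ⟨rfl, rfl⟩, t, le_refl _, by omega, ht, fun c => by simp⟩
      | some x =>
        refine ⟨hopv x, act_goff x r hr1 hr, t + 1, by omega, le_refl _, ?_, fun c => ?_⟩
        · have := htm hr1
          omega
        · rw [hH t (htm hr1) x ho]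
  refine ⟨22 * m, 2 * C + 1, base size,
    fun τ c => base (s (τ / 22)) c + ov (hp (τ / 22)) (τ % 22) c,
    fun τ => nh (hp (τ / 22)) (τ % 22), ?_, ?_, ?_, ?_, ?_, ?_, ?_, ?_⟩
  · intro c
    rcases parity_cases c with ⟨i, rfl⟩ | ⟨i, rfl⟩
    · rw [base_even]
      have := h0 i
      have := h0 (i - 1)
      omega
    · rw [base_odd]
      have := h0 i
      omega
  · intro c hc
    push_cast at hc
    rcases parity_cases c with ⟨i, rfl⟩ | ⟨i, rfl⟩
    · rw [base_even, hC i (by omega), hC (i - 1) (by omega)]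
      rfl
    · rw [base_odd, hC i (by omega)]
      rfl
  · rw [sum_base, hN, hC (-1) (by omega), hC C (by omega)]
    push_cast
    ring
  · intro τ hτ c
    show 0 ≤ base (s (τ / 22)) c + ov (hp (τ / 22)) (τ % 22) c ∧
      base (s (τ / 22)) c + ov (hp (τ / 22)) (τ % 22) c ≤ base size c
    have ht : τ / 22 ≤ m := by omega
    rcases Nat.eq_zero_or_pos (τ % 22) with hr | hr
    · rw [hr, ov_zero]
      have := bounds_base (s (τ / 22)) size (hb _ ht) c
      simpa using this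
    · cases ho : hp (τ / 22) with
      | none =>
        have := bounds_base (s (τ / 22)) size (hb _ ht) c
        simpa [ov] using this
      | some x =>
        obtain ⟨f, p, u, q, e, htup, he⟩ := goff_tup x (τ % 22) hr (by omega)
        obtain ⟨g1, g2, _, _⟩ := hhop (τ / 22) (by omega) x ho
        show 0 ≤ base (s (τ / 22)) c + goff x (τ % 22) c ∧
          base (s (τ / 22)) c + goff x (τ % 22) c ≤ base size c
        rw [he]
        exact bounds_off _ size x f p u q e (hb _ ht) g1 g2 htup c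
  · intro τ hτ
    have ht : τ / 22 ≤ m := by omega
    show ∑ c ∈ Finset.range (2 * C + 1), (base (s (τ / 22)) (c : ℤ) +
      ov (hp (τ / 22)) (τ % 22) (c : ℤ)) = ((12 * M : ℕ) : ℤ)
    have hz : ∀ c : ℤ, c < 0 ∨ (C : ℤ) ≤ c → s (τ / 22) c = 0 := by
      intro c hc
      have h1 := hb _ ht c
      have h2 := hC c hc
      omega
    rw [Finset.sum_add_distrib, sum_base, hM _ ht, hz (-1) (by omega), hz C (by omega)]
    have h3 : ∑ c ∈ Finset.range (2 * C + 1), ov (hp (τ / 22)) (τ % 22) (c : ℤ) = 0 := by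
      rcases Nat.eq_zero_or_pos (τ % 22) with hr | hr
      · rw [hr, ov_zero]
        simp
      · cases ho : hp (τ / 22) with
        | none => simp [ov]
        | some x =>
          obtain ⟨f, p, u, q, e, htup, he⟩ := goff_tup x (τ % 22) hr (by omega)
          obtain ⟨_, _, g3, g4⟩ := hhop (τ / 22) (by omega) x ho
          show ∑ c ∈ Finset.range (2 * C + 1), goff x (τ % 22) (c : ℤ) = 0
          rw [he, sum_off x f p u q e _ g3 (by push_cast; omega)]
          exact htup.sum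
    rw [h3]
    push_cast
    ring
  · intro τ τ' hττ hτ'
    have ht' : τ' / 22 ≤ m := by omega
    rcases Nat.lt_or_ge (τ / 22) (τ' / 22) with hlt | hge
    · obtain ⟨hx, ax, t1, k1, k2, k3, k4⟩ := hact (τ / 22) (by omega) (τ % 22) (by omega)
        (by omega)
      obtain ⟨hy, ay, t2, l1, l2, l3, l4⟩ := hact (τ' / 22) ht' (τ' % 22) (by omega) (by omega)
      have v := vmicro (d := fun c => s (τ' / 22) c - s (τ / 22) c) ax ay
        (hle _ _ hlt.le ht')
        (by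
          have := hle (τ / 22) t2 (by omega) l3
          have e : (fun c => s t2 c - s (τ / 22) c) =
              fun c => (s (τ' / 22) c - s (τ / 22) c) + hy c := by
            funext c
            rw [l4 c]
            ring
          rwa [e] at this)
        (by
          have := hle t1 (τ' / 22) (by omega) ht'
          have e : (fun c => s (τ' / 22) c - s t1 c) =
              fun c => (s (τ' / 22) c - s (τ / 22) c) - hx c := by
            funext c
            rw [k4 c]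
            ring
          rwa [e] at this)
        (by
          have := hle t1 t2 (by omega) l3
          have e : (fun c => s t2 c - s t1 c) =
              fun c => (s (τ' / 22) c - s (τ / 22) c) - hx c + hy c := by
            funext c
            rw [k4 c, l4 c]
            ring
          rwa [e] at this)
      have e : (fun c => (base (s (τ' / 22)) c + ov (hp (τ' / 22)) (τ' % 22) c) -
          (base (s (τ / 22)) c + ov (hp (τ / 22)) (τ % 22) c)) =
          fun c => base (fun c => s (τ' / 22) c - s (τ / 22) c) c +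
            ov (hp (τ' / 22)) (τ' % 22) c - ov (hp (τ / 22)) (τ % 22) c := by
        funext c
        rcases parity_cases c with ⟨i, rfl⟩ | ⟨i, rfl⟩
        · rw [base_even, base_even, base_even]
          ring
        · rw [base_odd, base_odd, base_odd]
          ring
      show VV (fun c => (base (s (τ' / 22)) c + ov (hp (τ' / 22)) (τ' % 22) c) -
          (base (s (τ / 22)) c + ov (hp (τ / 22)) (τ % 22) c))
      rw [e]
      exact v
    · have et : τ' / 22 = τ / 22 := by omega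
      have hr : τ % 22 < τ' % 22 := by omega
      intro c c' hcc
      show ¬ (0 < (base (s (τ' / 22)) c + ov (hp (τ' / 22)) (τ' % 22) c) -
          (base (s (τ / 22)) c + ov (hp (τ / 22)) (τ % 22) c) ∧
          (base (s (τ' / 22)) c' + ov (hp (τ' / 22)) (τ' % 22) c') -
          (base (s (τ / 22)) c' + ov (hp (τ / 22)) (τ % 22) c') < 0)
      rw [et]
      cases ho : hp (τ / 22) with
      | none =>
        show ¬ (0 < (base (s (τ / 22)) c + (0 : ℤ)) - (base (s (τ / 22)) c + (0 : ℤ)) ∧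
          (base (s (τ / 22)) c' + (0 : ℤ)) - (base (s (τ / 22)) c' + (0 : ℤ)) < 0)
        omega
      | some x =>
        have := same_gadget x (τ % 22) (τ' % 22) hr (by omega) c c' hcc
        replace this : ¬ (0 < goff x (τ' % 22) c - goff x (τ % 22) c ∧
          goff x (τ' % 22) c' - goff x (τ % 22) c' < 0) := this
        show ¬ (0 < (base (s (τ / 22)) c + goff x (τ' % 22) c) -
          (base (s (τ / 22)) c + goff x (τ % 22) c) ∧
          (base (s (τ / 22)) c' + goff x (τ' % 22) c') -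
          (base (s (τ / 22)) c' + goff x (τ % 22) c') < 0)
        omega
  · intro τ hτ z hz
    replace hz : nh (hp (τ / 22)) (τ % 22) = some z := hz
    funext c
    show base (s ((τ + 1) / 22)) c + ov (hp ((τ + 1) / 22)) ((τ + 1) % 22) c =
      (base (s (τ / 22)) c + ov (hp (τ / 22)) (τ % 22) c) + hopv z c
    cases ho : hp (τ / 22) with
    | none =>
      rw [ho] at hz
      exact absurd hz (by simp [nh])
    | some x =>
      rw [ho] at hz
      by_cases hr : 1 ≤ τ % 22 ∧ τ % 22 ≤ 20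
      · have e1 : (τ + 1) / 22 = τ / 22 := by omega
        have e2 : (τ + 1) % 22 = τ % 22 + 1 := by omega
        have e3 : (if (τ % 22 % 2 = 1 ↔ x % 2 = 0) then 2 * x + 2 else 2 * x + 1) = z := by
          unfold nh at hz
          simp only [if_pos hr] at hz
          exact Option.some.inj hz
        rw [e1, e2, ho]
        show base (s (τ / 22)) c + goff x (τ % 22 + 1) c =
          (base (s (τ / 22)) c + goff x (τ % 22) c) + hopv z c
        rw [gadget_hop x (τ % 22) hr.1 hr.2 c, e3]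
        ring
      · exfalso
        unfold nh at hz
        simp only [if_neg hr] at hz
        exact absurd hz (by simp)
  · have hinj : (((Finset.range m).filter fun t => (hp t).isSome) ×ˢ Finset.Icc 1 20).card ≤
        ((Finset.range (22 * m)).filter fun τ => (nh (hp (τ / 22)) (τ % 22)).isSome).card := by
      refine Finset.card_le_card_of_injOn (fun p => 22 * p.1 + p.2) ?_ ?_
      · rintro ⟨t, r⟩ hp'
        simp only [Finset.coe_product, Set.mem_prod, Finset.mem_coe, Finset.mem_filter,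
          Finset.mem_range, Finset.mem_Icc] at hp' ⊢
        obtain ⟨⟨a1, a2⟩, a3, a4⟩ := hp'
        have e1 : (22 * t + r) / 22 = t := by omega
        have e2 : (22 * t + r) % 22 = r := by omega
        refine ⟨by omega, ?_⟩
        rw [e1, e2]
        obtain ⟨x, hx⟩ := Option.isSome_iff_exists.1 a2
        rw [hx]
        unfold nh
        simp [a3, a4]
      · rintro ⟨t, r⟩ h1 ⟨t', r'⟩ h2 h3
        simp only [Finset.coe_product, Set.mem_prod, Finset.mem_coe, Finset.mem_filter,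
          Finset.mem_range, Finset.mem_Icc] at h1 h2 h3
        have e1 : t = t' := by omega
        have e2 : r = r' := by omega
        rw [e1, e2]
    rw [Finset.card_product, Nat.card_Icc] at hinj
    have : 20 * T ≤ ((Finset.range m).filter fun t => (hp t).isSome).card * (20 + 1 - 1) := by
      omega
    exact this.trans hinj

theorem config_pow (k : ℕ) : Config (2 * 12 ^ k) (12 ^ k) (20 ^ k) := by
  induction k with
  | zero => exact config_zero
  | succ k ih =>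
    have := config_step ih
    rwa [show 12 * (2 * 12 ^ k) = 2 * 12 ^ (k + 1) by ring,
      show 12 * 12 ^ k = 12 ^ (k + 1) by ring, show 20 * 20 ^ k = 20 ^ (k + 1) by ring] at this

end Pool.Agent.Work.MP_e17eac_co.PL2

end
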