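import Pool.Agent.Work.MP_e17eac_co.Bd.B06

/-! Bundle of small proof modules (one section per former module). -/

section

/-!
# Item BALL: a ball is an interval of indices
-/

namespace Pool.Agent.Work.MP_e17eac_co.DH

open Finset

namespace XBALL

/-- A downward closed subset of `range N` is an initial interval. -/
lemma filter_eq (N : ℕ) (P : ℕ → Prop) [DecidablePred P]
    (hP : ∀ n k, n < k → k < N → P k → P n) :
    (range N).filter P = range ((range N).filter P).card := by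
  induction N with
  | zero => simp
  | succ N ih =>
    have ih' := ih (fun n k h1 h2 h3 => hP n k h1 (by omega) h3)
    by_cases hN : P N
    · have h1 : (range (N + 1)).filter P = range (N + 1) := by
        apply filter_true_of_mem
        intro n hn
        rw [mem_range] at hn
        rcases Nat.lt_or_ge n N with h | h
        · exact hP n N h (by omega) hN
        · have : n = N := by omega
          rw [this]
          exact hN
      rw [h1, card_range]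
    · have h1 : (range (N + 1)).filter P = (range N).filter P := by
        rw [range_add_one, filter_insert, if_neg hN]
      rw [h1]
      exact ih'

end XBALL

theorem I_BALL : StBall := by
  classical
  intro ι _ _ K c ρ
  have h1 := XBALL.filter_eq K.N (fun n => K.t n < c - ρ)
    (fun n k h1 h2 h3 => lt_trans (K.t_lt n k h1 h2) h3)
  have h2 := XBALL.filter_eq K.N (fun n => K.t n ≤ c + ρ)
    (fun n k h1 h2 h3 => le_trans (le_of_lt (K.t_lt n k h1 h2)) h3)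
  have e1 : ∀ n, n < ((range K.N).filter (fun n => K.t n < c - ρ)).card ↔
      n < K.N ∧ K.t n < c - ρ := by
    intro n
    have := congrArg (fun s => n ∈ s) h1
    simp only [mem_filter, mem_range, eq_iff_iff] at this
    exact this.symm
  have e2 : ∀ n, n < ((range K.N).filter (fun n => K.t n ≤ c + ρ)).card ↔
      n < K.N ∧ K.t n ≤ c + ρ := by
    intro n
    have := congrArg (fun s => n ∈ s) h2
    simp only [mem_filter, mem_range, eq_iff_iff] at this
    exact this.symm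
  refine ⟨((range K.N).filter (fun n => K.t n < c - ρ)).card,
    ((range K.N).filter (fun n => K.t n ≤ c + ρ)).card, ?_, ?_⟩
  · calc ((range K.N).filter (fun n => K.t n ≤ c + ρ)).card ≤ (range K.N).card :=
          card_filter_le _ _
      _ = K.N := card_range _
  · ext n
    unfold KSys.ball
    have e3 : ((range K.N).filter (fun n => K.t n < c - ρ)).card ≤ n ↔
        ¬ (n < K.N ∧ K.t n < c - ρ) := by rw [← not_lt, e1 n]
    rw [mem_filter, mem_range, mem_Ico, e2 n, e3, abs_le]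
    constructor
    · rintro ⟨h3, h4, h5⟩
      refine ⟨?_, h3, by linarith⟩
      rintro ⟨_, h6⟩
      linarith
    · rintro ⟨h3, h4, h5⟩
      have h6 : ¬ K.t n < c - ρ := fun h => h3 ⟨h4, h⟩
      rw [not_lt] at h6
      exact ⟨h4, by linarith, by linarith⟩

end Pool.Agent.Work.MP_e17eac_co.DH

end

section

namespace Pool.Agent.Work.MP_e17eac_co.DH

namespace XDCL

/-- A number in `[2^-g, 1]` lies in one of the `g+1` dyadic classes. -/
theorem exists_class (x : ℝ) (g : ℕ) (h1 : (1 : ℝ) / 2 ^ g ≤ x) (h2 : x ≤ 1) :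
    ∃ c : ℕ, c < g + 1 ∧ (1 : ℝ) / 2 ^ c ≤ x ∧ x < 2 * (1 / 2 ^ c) := by
  classical
  have hex : ∃ c : ℕ, (1 : ℝ) / 2 ^ c ≤ x := ⟨g, h1⟩
  refine ⟨Nat.find hex, ?_, Nat.find_spec hex, ?_⟩
  · exact Nat.lt_succ_of_le (Nat.find_min' hex h1)
  · rcases Nat.eq_zero_or_pos (Nat.find hex) with h0 | hpos
    · rw [h0]
      norm_num
      linarith
    · have hlt : Nat.find hex - 1 < Nat.find hex := Nat.sub_lt hpos Nat.one_pos
      have hno := Nat.find_min hex hlt
      have hlt2 : x < 1 / 2 ^ (Nat.find hex - 1) := not_le.mp hno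
      have heq : (2 : ℝ) * (1 / 2 ^ (Nat.find hex)) = 1 / 2 ^ (Nat.find hex - 1) := by
        obtain ⟨m, hm⟩ : ∃ m, Nat.find hex = m + 1 := ⟨Nat.find hex - 1, by omega⟩
        rw [hm, Nat.add_sub_cancel, pow_succ]
        have hp : (2 : ℝ) ^ m ≠ 0 := by positivity
        field_simp
      rw [heq]
      exact hlt2

/-- One function: the most popular dyadic class. -/
theorem step (u : ℕ → ℝ) (E : Finset ℕ) (g : ℕ) (hE : E.Nonempty)
    (hu : ∀ n ∈ E, (1 : ℝ) / 2 ^ g ≤ u n ∧ u n ≤ 1) :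
    ∃ E' ⊆ E, E'.Nonempty ∧ E.card ≤ (g + 1) * E'.card ∧
      ∃ D : ℝ, ∀ n ∈ E', D ≤ u n ∧ u n < 2 * D := by
  classical
  have hc : ∀ n, ∃ c : ℕ, n ∈ E → (c < g + 1 ∧ (1 : ℝ) / 2 ^ c ≤ u n ∧ u n < 2 * (1 / 2 ^ c)) := by
    intro n
    by_cases hn : n ∈ E
    · obtain ⟨c, hc⟩ := exists_class (u n) g (hu n hn).1 (hu n hn).2
      exact ⟨c, fun _ => hc⟩
    · exact ⟨0, fun h => absurd h hn⟩
  choose f hf using hc
  have hmaps : ∀ n ∈ E, f n ∈ Finset.range (g + 1) := fun n hn =>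
    Finset.mem_range.mpr (hf n hn).1
  have hsum : E.card = ∑ c ∈ Finset.range (g + 1), (E.filter (fun n => f n = c)).card :=
    Finset.card_eq_sum_card_fiberwise (fun n hn => hmaps n hn)
  obtain ⟨c, hcr, hcmax⟩ := Finset.exists_max_image (Finset.range (g + 1))
    (fun c => (E.filter (fun n => f n = c)).card) ⟨0, Finset.mem_range.mpr (Nat.succ_pos g)⟩
  have hbound : E.card ≤ (g + 1) * (E.filter (fun n => f n = c)).card := by
    rw [hsum]
    calc ∑ c' ∈ Finset.range (g + 1), (E.filter (fun n => f n = c')).card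
        ≤ ∑ _c' ∈ Finset.range (g + 1), (E.filter (fun n => f n = c)).card :=
          Finset.sum_le_sum (fun c' hc' => hcmax c' hc')
      _ = (g + 1) * (E.filter (fun n => f n = c)).card := by
          rw [Finset.sum_const, Finset.card_range, smul_eq_mul]
  refine ⟨E.filter (fun n => f n = c), Finset.filter_subset _ _, ?_, hbound, 1 / 2 ^ c, ?_⟩
  · rw [← Finset.card_pos]
    by_contra h0
    have h00 : (E.filter (fun n => f n = c)).card = 0 := by omega
    rw [h00, Nat.mul_zero] at hbound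
    have := Finset.card_pos.mpr hE
    omega
  · intro n hn
    obtain ⟨hnE, hfc⟩ := Finset.mem_filter.mp hn
    have h := (hf n hnE).2
    rw [hfc] at h
    exact h

theorem main (κ : Type) [Fintype κ] (v : κ → ℕ → ℝ) (E : Finset ℕ) (g : ℕ) (hE : E.Nonempty)
    (hv : ∀ k, ∀ n ∈ E, (1 : ℝ) / 2 ^ g ≤ v k n ∧ v k n ≤ 1) (s : Finset κ) :
    ∃ E' ⊆ E, E'.Nonempty ∧ E.card ≤ (g + 1) ^ s.card * E'.card ∧
      ∃ D : κ → ℝ, ∀ k ∈ s, ∀ n ∈ E', D k ≤ v k n ∧ v k n < 2 * D k := by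
  classical
  induction s using Finset.induction_on with
  | empty =>
    exact ⟨E, subset_rfl, hE, by simp, fun _ => 0, fun k hk => absurd hk (Finset.notMem_empty k)⟩
  | insert a s ha ih =>
    obtain ⟨E1, h1sub, h1ne, h1card, D, hD⟩ := ih
    obtain ⟨E2, h2sub, h2ne, h2card, d, hd⟩ := step (v a) E1 g h1ne
      (fun n hn => hv a n (h1sub hn))
    refine ⟨E2, h2sub.trans h1sub, h2ne, ?_, fun k => if k = a then d else D k, ?_⟩
    · rw [Finset.card_insert_of_notMem ha, pow_succ]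
      calc E.card ≤ (g + 1) ^ s.card * E1.card := h1card
        _ ≤ (g + 1) ^ s.card * ((g + 1) * E2.card) := Nat.mul_le_mul_left _ h2card
        _ = (g + 1) ^ s.card * (g + 1) * E2.card := by ring
    · intro k hk n hn
      by_cases hka : k = a
      · subst hka
        simp only [if_true]
        exact hd n hn
      · simp only [if_neg hka]
        rcases Finset.mem_insert.mp hk with h | h
        · exact absurd h hka
        · exact hD k h n (h2sub hn)

end XDCL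

theorem I_DCL : StDcl := by
  intro κ _ v E g hE hv
  obtain ⟨E', hsub, hne, hcard, D, hD⟩ := XDCL.main κ v E g hE hv Finset.univ
  exact ⟨E', hsub, hne, by simpa [Finset.card_univ] using hcard, D,
    fun k n hn => hD k (Finset.mem_univ k) n hn⟩

end Pool.Agent.Work.MP_e17eac_co.DH

end

section

/-! MP_e17eac_co, project DH, item FAN: the fan lemma. -/

namespace Pool.Agent.Work.MP_e17eac_co.DH

open Finset

namespace XFAN

variable {ι : Type} [Fintype ι] [DecidableEq ι]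

theorem ico_of_conv (N : ℕ) (E : Finset ℕ) (hN : ∀ n ∈ E, n < N)
    (hc : ∀ n ∈ E, ∀ n' ∈ E, ∀ k, n ≤ k → k ≤ n' → k ∈ E) : ∃ p q, q ≤ N ∧ E = Ico p q := by
  rcases E.eq_empty_or_nonempty with rfl | hE
  · exact ⟨0, 0, Nat.zero_le _, by simp⟩
  · refine ⟨E.min' hE, E.max' hE + 1, hN _ (E.max'_mem hE), ?_⟩
    ext k
    rw [mem_Ico]
    constructor
    · intro hk
      exact ⟨E.min'_le k hk, Nat.lt_succ_of_le (E.le_max' k hk)⟩
    · rintro ⟨h1, h2⟩
      exact hc _ (E.min'_mem hE) _ (E.max'_mem hE) k h1 (Nat.lt_succ_iff.1 h2)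

theorem t_mono (K : KSys ι) {n k : ℕ} (h : n ≤ k) (hk : k < K.N) : K.t n ≤ K.t k := by
  rcases Nat.lt_or_eq_of_le h with h | rfl
  · exact (K.t_lt n k h hk).le
  · exact le_rfl

theorem a_notMem_succ (K : KSys ι) {n : ℕ} (hn : n < K.N) : K.a n ∉ K.S (n + 1) := by
  have h1 := K.a_mem n hn
  have h2 := K.b_mem n hn
  rw [K.S_succ n hn]
  intro h
  rcases mem_insert.1 h with h | h
  · exact h2 (h ▸ h1)
  · exact absurd rfl (mem_erase.1 h).1

theorem b_mem_succ (K : KSys ι) {n : ℕ} (hn : n < K.N) : K.b n ∈ K.S (n + 1) := by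
  rw [K.S_succ n hn]
  exact mem_insert_self _ _

theorem card_step (K : KSys ι) (W : Finset ι) {n : ℕ} (hn : n < K.N) (ha : K.a n ∈ W)
    (hb : K.b n ∈ W) : (K.S (n + 1) ∩ W).card = (K.S n ∩ W).card := by
  have h1 := K.a_mem n hn
  have h2 := K.b_mem n hn
  have h3 : K.a n ∈ K.S n ∩ W := mem_inter.2 ⟨h1, ha⟩
  have e : K.S (n + 1) ∩ W = insert (K.b n) ((K.S n ∩ W).erase (K.a n)) := by
    rw [K.S_succ n hn]
    ext i
    simp only [mem_inter, mem_insert, mem_erase]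
    constructor
    · rintro ⟨h | ⟨h, h'⟩, hW⟩
      · exact Or.inl h
      · exact Or.inr ⟨h, h', hW⟩
    · rintro (rfl | ⟨h, h', hW⟩)
      · exact ⟨Or.inl rfl, hb⟩
      · exact ⟨Or.inr ⟨h, h'⟩, hW⟩
  rw [e, card_insert_of_notMem, card_erase_of_mem h3]
  · have := card_pos.2 ⟨_, h3⟩
    omega
  · intro h
    exact h2 (mem_inter.1 (mem_of_mem_erase h)).1

theorem card_const (K : KSys ι) (W : Finset ι) {p q : ℕ} (hq : q ≤ K.N)
    (hW : K.lines (Ico p q) ⊆ W) {n : ℕ} (h1 : p ≤ n) (h2 : n ≤ q) :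
    (K.S n ∩ W).card = (K.S p ∩ W).card := by
  induction n, h1 using Nat.le_induction with
  | base => rfl
  | succ n h1 ih =>
    have hn : n ∈ Ico p q := mem_Ico.2 ⟨h1, by omega⟩
    have ha : K.a n ∈ W := hW (mem_union_left _ (mem_image_of_mem _ hn))
    have hb : K.b n ∈ W := hW (mem_union_right _ (mem_image_of_mem _ hn))
    rw [card_step K W (by omega) ha hb, ih (by omega)]

theorem side (K : KSys ι) (W F : Finset ι) (v : ι → ℝ) {p q : ℕ} (hq : q ≤ K.N)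
    (hW : K.lines (Ico p q) ⊆ W) (hF : F ⊆ W) (hv : ∀ i i', v i = v i' → i = i')
    (hcl : ∀ n, p ≤ n → n < q → ∀ i ∈ F, ∀ i' ∈ F, v i' < v i →
      (i ∈ K.S n → i' ∈ K.S n) ∧ (i ∈ K.S (n + 1) → i' ∈ K.S (n + 1))) :
    (K.lines (Ico p q)).card ≤ 2 * (W \ F).card := by
  have key : ((K.lines (Ico p q)) ∩ F).card ≤ (W \ F).card := by
    rcases ((K.lines (Ico p q)) ∩ F).eq_empty_or_nonempty with h0 | hne
    · rw [h0, card_empty]
      exact Nat.zero_le _
    have wit : ∀ i ∈ K.lines (Ico p q) ∩ F,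
        (∃ n, p ≤ n ∧ n ≤ q ∧ i ∈ K.S n ∧ ∀ i' ∈ F, v i' < v i → i' ∈ K.S n) ∧
        (∃ n, p ≤ n ∧ n ≤ q ∧ i ∉ K.S n ∧ ∀ i' ∈ F, v i < v i' → i' ∉ K.S n) := by
      intro i hi
      obtain ⟨hi, hiF⟩ := mem_inter.1 hi
      rcases mem_union.1 hi with hi | hi
      · obtain ⟨n, hn, rfl⟩ := mem_image.1 hi
        rw [mem_Ico] at hn
        have h1 := K.a_mem n (by omega)
        have h2 := a_notMem_succ K (n := n) (by omega)
        exact ⟨⟨n, hn.1, by omega, h1, fun i' hi' hv => (hcl n hn.1 hn.2 _ hiF i' hi' hv).1 h1⟩,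
          ⟨n + 1, by omega, by omega, h2,
            fun i' hi' hv h => h2 ((hcl n hn.1 hn.2 i' hi' _ hiF hv).2 h)⟩⟩
      · obtain ⟨n, hn, rfl⟩ := mem_image.1 hi
        rw [mem_Ico] at hn
        have h1 := b_mem_succ K (n := n) (by omega)
        have h2 := K.b_mem n (by omega)
        exact ⟨⟨n + 1, by omega, by omega, h1,
          fun i' hi' hv => (hcl n hn.1 hn.2 _ hiF i' hi' hv).2 h1⟩,
          ⟨n, hn.1, by omega, h2,
            fun i' hi' hv h => h2 ((hcl n hn.1 hn.2 i' hi' _ hiF hv).1 h)⟩⟩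
    obtain ⟨i1, hi1, hmax⟩ := exists_max_image _ v hne
    obtain ⟨i0, hi0, hmin⟩ := exists_min_image _ v hne
    obtain ⟨⟨n, hpn, hnq, hin, hcn⟩, -⟩ := wit i1 hi1
    obtain ⟨-, ⟨n', hpn', hnq', hin', hcn'⟩⟩ := wit i0 hi0
    have hA : (F.filter (fun i => v i ≤ v i1)).card ≤ (K.S n ∩ F).card := by
      refine card_le_card fun i hi => ?_
      obtain ⟨hiF, hv1⟩ := mem_filter.1 hi
      refine mem_inter.2 ⟨?_, hiF⟩
      rcases lt_or_eq_of_le hv1 with h | h
      · exact hcn i hiF h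
      · rw [hv i i1 h]
        exact hin
    have hB : (K.S n' ∩ F).card ≤ (F.filter (fun i => v i < v i0)).card := by
      refine card_le_card fun i hi => ?_
      obtain ⟨hiS, hiF⟩ := mem_inter.1 hi
      refine mem_filter.2 ⟨hiF, ?_⟩
      by_contra hlt
      rcases lt_or_eq_of_le (not_lt.1 hlt) with h | h
      · exact hcn' i hiF h hiS
      · exact hin' (by rw [hv i0 i h]; exact hiS)
    have hBA : F.filter (fun i => v i < v i0) ⊆ F.filter (fun i => v i ≤ v i1) := by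
      intro i hi
      obtain ⟨hiF, hv1⟩ := mem_filter.1 hi
      exact mem_filter.2 ⟨hiF, (hv1.trans_le (hmin i1 hi1)).le⟩
    have hG : K.lines (Ico p q) ∩ F ⊆
        F.filter (fun i => v i ≤ v i1) \ F.filter (fun i => v i < v i0) := by
      intro i hi
      exact mem_sdiff.2 ⟨mem_filter.2 ⟨(mem_inter.1 hi).2, hmax i hi⟩,
        fun h => absurd (mem_filter.1 h).2 (not_lt.2 (hmin i hi))⟩
    have h5 : (K.S n ∩ F).card ≤ (K.S n' ∩ F).card + (W \ F).card := by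
      calc (K.S n ∩ F).card ≤ (K.S n ∩ W).card := card_le_card (inter_subset_inter_left hF)
        _ = (K.S n' ∩ W).card := by
          rw [card_const K W hq hW hpn hnq, card_const K W hq hW hpn' hnq']
        _ ≤ ((K.S n' ∩ F) ∪ (W \ F)).card := by
          refine card_le_card fun i hi => ?_
          obtain ⟨h1, h2⟩ := mem_inter.1 hi
          by_cases h3 : i ∈ F
          · exact mem_union_left _ (mem_inter.2 ⟨h1, h3⟩)
          · exact mem_union_right _ (mem_sdiff.2 ⟨h2, h3⟩)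
        _ ≤ (K.S n' ∩ F).card + (W \ F).card := card_union_le _ _
    have h6 := card_le_card hG
    rw [card_sdiff_of_subset hBA] at h6
    omega
  have h1 := card_inter_add_card_sdiff (K.lines (Ico p q)) F
  have h2 : (K.lines (Ico p q) \ F).card ≤ (W \ F).card :=
    card_le_card (sdiff_subset_sdiff hW le_rfl)
  omega

theorem side_bound (hDeyI : StDeyI) (hLeq : StLeq) (K : KSys ι) (hinj : Function.Injective K.x)
    (W F : Finset ι) (v : ι → ℝ) (E : Finset ℕ) (hN : ∀ n ∈ E, n < K.N)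
    (hc : ∀ n ∈ E, ∀ n' ∈ E, ∀ k, n ≤ k → k ≤ n' → k ∈ E) (hW : K.lines E ⊆ W) (hF : F ⊆ W)
    (hv : ∀ i i', v i = v i' → i = i')
    (hcl : ∀ n ∈ E, ∀ i ∈ F, ∀ i' ∈ F, v i' < v i → K.ht i' (K.t n) < K.ht i (K.t n)) :
    E.card ^ 3 ≤ 2 ^ 16 * (W \ F).card ^ 4 := by
  obtain ⟨p, q, hq, rfl⟩ := ico_of_conv K.N E hN hc
  have h1 := side K W F v hq hW hF hv (fun n hpn hnq i hi i' hi' hvi => by
    have hlt := hcl n (mem_Ico.2 ⟨hpn, hnq⟩) i hi i' hi' hvi
    obtain ⟨-, -, -, hV, hV'⟩ := hLeq ι K n (by omega)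
    constructor
    · intro h
      by_contra h'
      have e1 := K.below n hV.1 (K.t n) hV.2.1 hV.2.2 i h
      have e2 := K.above n hV.1 (K.t n) hV.2.1 hV.2.2 i' h'
      unfold KSys.ht at hlt
      linarith
    · intro h
      by_contra h'
      have e1 := K.below (n + 1) hV'.1 (K.t n) hV'.2.1 hV'.2.2 i h
      have e2 := K.above (n + 1) hV'.1 (K.t n) hV'.2.1 hV'.2.2 i' h'
      unfold KSys.ht at hlt
      linarith)
  calc (Ico p q).card ^ 3 ≤ 4096 * (K.lines (Ico p q)).card ^ 4 := hDeyI ι K hinj p q hq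
    _ ≤ 4096 * (2 * (W \ F).card) ^ 4 := Nat.mul_le_mul_left _ (Nat.pow_le_pow_left h1 4)
    _ = 2 ^ 16 * (W \ F).card ^ 4 := by ring

theorem vis_ex (hLeq : StLeq) (K : KSys ι) {c ρ : ℝ} {l : ι} (hl : l ∈ K.vis c ρ) :
    ∃ n, n < K.N ∧ |K.t n - c| ≤ ρ ∧ K.ht l (K.t n) = K.h n := by
  rcases mem_union.1 hl with h | h
  · obtain ⟨n, hn, rfl⟩ := mem_image.1 h
    obtain ⟨h1, h2⟩ := mem_filter.1 hn
    exact ⟨n, mem_range.1 h1, h2, (hLeq ι K n (mem_range.1 h1)).2.1⟩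
  · obtain ⟨n, hn, rfl⟩ := mem_image.1 h
    obtain ⟨h1, h2⟩ := mem_filter.1 hn
    exact ⟨n, mem_range.1 h1, h2, (hLeq ι K n (mem_range.1 h1)).2.2.1⟩

theorem close_aux (hLip : StLip) (K : KSys ι) {c ρ : ℝ} {l l' : ι} {n n' : ℕ} (h : n ≤ n')
    (hn' : n' < K.N) (h1 : |K.t n - c| ≤ ρ) (h2 : |K.t n' - c| ≤ ρ)
    (e1 : K.ht l (K.t n) = K.h n) (e2 : K.ht l' (K.t n') = K.h n') :
    |K.ht l c - K.ht l' c| ≤ 3 * ρ := by
  obtain ⟨g1, g2⟩ := hLip ι K n n' h hn'
  have hx0 := K.x_nonneg l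
  have hx1 := K.x_le_one l
  have hx0' := K.x_nonneg l'
  have hx1' := K.x_le_one l'
  have ht : 0 ≤ K.t n' - K.t n := by linarith
  have f1 : 0 ≤ K.x l * (K.t n' - K.t n) := mul_nonneg hx0 ht
  have f2 : K.x l * (K.t n' - K.t n) ≤ K.t n' - K.t n := mul_le_of_le_one_left ht hx1
  have f3 : |(K.x l - K.x l') * (c - K.t n')| ≤ ρ := by
    rw [abs_mul, abs_sub_comm c]
    calc |K.x l - K.x l'| * |K.t n' - c| ≤ 1 * ρ := by
          refine mul_le_mul ?_ h2 (abs_nonneg _) zero_le_one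
          rw [abs_le]
          constructor <;> linarith
      _ = ρ := one_mul ρ
  have e : K.ht l c - K.ht l' c = (K.x l * (K.t n' - K.t n) - (K.h n' - K.h n)) +
      (K.x l - K.x l') * (c - K.t n') := by
    rw [← e1, ← e2]
    unfold KSys.ht
    ring
  rw [e]
  rw [abs_le] at f3 h1 h2 ⊢
  constructor <;> linarith [f3.1, f3.2, h1.1, h1.2, h2.1, h2.2]

theorem close (hLip : StLip) (hLeq : StLeq) (K : KSys ι) {c ρ : ℝ} {l l' : ι}
    (hl : l ∈ K.vis c ρ) (hl' : l' ∈ K.vis c ρ) : |K.ht l c - K.ht l' c| ≤ 3 * ρ := by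
  obtain ⟨n, hn, h1, e1⟩ := vis_ex hLeq K hl
  obtain ⟨n', hn', h2, e2⟩ := vis_ex hLeq K hl'
  rcases le_total n n' with h | h
  · exact close_aux hLip K h hn' h1 h2 e1 e2
  · rw [abs_sub_comm]
    exact close_aux hLip K h hn h2 h1 e2 e1

theorem vis_mono (K : KSys ι) {c ρ R : ℝ} (h : ρ ≤ R) : K.vis c ρ ⊆ K.vis c R := by
  have hb : K.ball c ρ ⊆ K.ball c R := by
    intro n hn
    obtain ⟨h1, h2⟩ := mem_filter.1 hn
    exact mem_filter.2 ⟨h1, h2.trans h⟩
  exact union_subset_union (image_subset_image hb) (image_subset_image hb)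

theorem lines_mono (K : KSys ι) {E E' : Finset ℕ} (h : E ⊆ E') : K.lines E ⊆ K.lines E' :=
  union_subset_union (image_subset_image h) (image_subset_image h)

theorem gap (K : KSys ι) {m : ℝ} (hsep : K.Sep m) {i i' : ι}
    (h : K.x i < K.x i') : 1 ≤ m * (K.x i' - K.x i) := by
  have h1 := hsep i' i (fun e => by rw [e] at h; exact lt_irrefl _ h)
  rwa [abs_of_pos (by linarith)] at h1

end XFAN

open XFAN in
theorem I_FAN (hPos : StPos) (hTok : StTok) (hLip : StLip) (hDeyI : StDeyI) (hLeq : StLeq)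
    (hBall : StBall) (hSep : StSep) : StFan := by
  intro ι _ _ K m hm hsep c ρ R hρ
  have hm0 : 0 < m := by linarith
  have hinj : Function.Injective K.x := by
    intro i j hij
    by_contra hne
    have := hsep i j hne
    rw [hij, sub_self, abs_zero, mul_zero] at this
    linarith
  rcases lt_or_ge R ρ with hR | hR
  · have he : (K.ball c R).filter (fun n => 4 * m * ρ < |K.t n - c|) = ∅ := by
      rw [filter_eq_empty_iff]
      intro n hn h
      have h2 : |K.t n - c| ≤ R := (mem_filter.1 hn).2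
      nlinarith
    rw [he]
    simp
  have hF := vis_mono K (c := c) hR
  -- the two sides
  have hl : ((K.ball c R).filter (fun n => K.t n < c - 4 * m * ρ)).card ^ 3 ≤
      2 ^ 16 * (K.vis c R \ K.vis c ρ).card ^ 4 := by
    refine side_bound hDeyI hLeq K hinj (K.vis c R) (K.vis c ρ) (fun i => - K.x i) _ ?_ ?_
      (lines_mono K (filter_subset _ _)) hF ?_ ?_
    · intro n hn
      exact mem_range.1 (mem_filter.1 (mem_filter.1 hn).1).1
    · intro n hn n' hn' k h1 h2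
      obtain ⟨hn, hnt⟩ := mem_filter.1 hn
      obtain ⟨hn', hnt'⟩ := mem_filter.1 hn'
      obtain ⟨hnN, hnR⟩ := mem_filter.1 hn
      obtain ⟨hnN', hnR'⟩ := mem_filter.1 hn'
      rw [mem_range] at hnN hnN'
      have g1 := t_mono K h1 (by omega)
      have g2 := t_mono K h2 hnN'
      rw [abs_le] at hnR hnR'
      refine mem_filter.2 ⟨mem_filter.2 ⟨mem_range.2 (by omega), ?_⟩, by linarith⟩
      rw [abs_le]
      constructor <;> linarith [hnR.1, hnR'.2]
    · intro i i' h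
      exact hinj (by linarith [h])
    · intro n hn i hi i' hi' hv
      obtain ⟨hn, hnt⟩ := mem_filter.1 hn
      have hx : K.x i < K.x i' := by linarith
      have h1 := gap K hsep hx
      have h2 := close hLip hLeq K hi hi'
      rw [abs_le] at h2
      have e : K.ht i (K.t n) - K.ht i' (K.t n) = (K.ht i c - K.ht i' c) +
          (K.x i' - K.x i) * (c - K.t n) := by
        unfold KSys.ht
        ring
      have h3 : 3 * ρ < (K.x i' - K.x i) * (c - K.t n) := by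
        have h4 : 4 * m * ρ < c - K.t n := by linarith
        have h5 : (K.x i' - K.x i) * (4 * m * ρ) < (K.x i' - K.x i) * (c - K.t n) :=
          mul_lt_mul_of_pos_left h4 (by linarith)
        nlinarith
      linarith [h2.1]
  have hr : ((K.ball c R).filter (fun n => c + 4 * m * ρ < K.t n)).card ^ 3 ≤
      2 ^ 16 * (K.vis c R \ K.vis c ρ).card ^ 4 := by
    refine side_bound hDeyI hLeq K hinj (K.vis c R) (K.vis c ρ) (fun i => K.x i) _ ?_ ?_
      (lines_mono K (filter_subset _ _)) hF ?_ ?_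
    · intro n hn
      exact mem_range.1 (mem_filter.1 (mem_filter.1 hn).1).1
    · intro n hn n' hn' k h1 h2
      obtain ⟨hn, hnt⟩ := mem_filter.1 hn
      obtain ⟨hn', hnt'⟩ := mem_filter.1 hn'
      obtain ⟨hnN, hnR⟩ := mem_filter.1 hn
      obtain ⟨hnN', hnR'⟩ := mem_filter.1 hn'
      rw [mem_range] at hnN hnN'
      have g1 := t_mono K h1 (by omega)
      have g2 := t_mono K h2 hnN'
      rw [abs_le] at hnR hnR'
      refine mem_filter.2 ⟨mem_filter.2 ⟨mem_range.2 (by omega), ?_⟩, by linarith⟩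
      rw [abs_le]
      constructor <;> linarith [hnR.1, hnR'.2]
    · intro i i' h
      exact hinj h
    · intro n hn i hi i' hi' hv
      obtain ⟨hn, hnt⟩ := mem_filter.1 hn
      have hx : K.x i' < K.x i := hv
      have h1 := gap K hsep hx
      have h2 := close hLip hLeq K hi hi'
      rw [abs_le] at h2
      have e : K.ht i (K.t n) - K.ht i' (K.t n) = (K.ht i c - K.ht i' c) +
          (K.x i - K.x i') * (K.t n - c) := by
        unfold KSys.ht
        ring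
      have h3 : 3 * ρ < (K.x i - K.x i') * (K.t n - c) := by
        have h4 : 4 * m * ρ < K.t n - c := by linarith
        have h5 : (K.x i - K.x i') * (4 * m * ρ) < (K.x i - K.x i') * (K.t n - c) :=
          mul_lt_mul_of_pos_left h4 (by linarith)
        nlinarith
      linarith [h2.1]
  have hsub : (K.ball c R).filter (fun n => 4 * m * ρ < |K.t n - c|) ⊆
      (K.ball c R).filter (fun n => K.t n < c - 4 * m * ρ) ∪
        (K.ball c R).filter (fun n => c + 4 * m * ρ < K.t n) := by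
    intro n hn
    obtain ⟨hn, h⟩ := mem_filter.1 hn
    rcases lt_abs.1 h with h | h
    · exact mem_union_right _ (mem_filter.2 ⟨hn, by linarith⟩)
    · exact mem_union_left _ (mem_filter.2 ⟨hn, by linarith⟩)
  have hcard := (card_le_card hsub).trans (card_union_le _ _)
  generalize ((K.ball c R).filter (fun n => K.t n < c - 4 * m * ρ)).card = l at hl hcard
  generalize ((K.ball c R).filter (fun n => c + 4 * m * ρ < K.t n)).card = r at hr hcard
  generalize (K.vis c R \ K.vis c ρ).card = u at hl hr ⊢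
  generalize ((K.ball c R).filter (fun n => 4 * m * ρ < |K.t n - c|)).card = k at hcard ⊢
  have h4 : (l + r) ^ 3 ≤ 4 * (l ^ 3 + r ^ 3) := by
    zify
    nlinarith [mul_nonneg (add_nonneg (Nat.cast_nonneg (α := ℤ) l) (Nat.cast_nonneg (α := ℤ) r))
      (sq_nonneg ((l : ℤ) - r))]
  calc k ^ 3 ≤ (l + r) ^ 3 := Nat.pow_le_pow_left hcard 3
    _ ≤ 4 * (l ^ 3 + r ^ 3) := h4
    _ ≤ 4 * (2 ^ 16 * u ^ 4 + 2 ^ 16 * u ^ 4) := by omega
    _ = 2 ^ 19 * u ^ 4 := by ring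

end Pool.Agent.Work.MP_e17eac_co.DH

end

section

/-!
# Total displacement of a token
-/

namespace Pool.Agent.Work.MP_e17eac_co.DH

open Finset

theorem I_FLUX (hMono : StMono) : StFlux := by
  intro ι _ _ K p hp hN τ k
  have hstep : ∀ i, p i ≤ p (i + 1) := fun i => hp (Nat.le_succ i)
  by_cases hτ : τ ∈ K.S 0
  · have h1 : ∀ i ∈ range k, |K.x (K.pos (p i) τ) - K.x (K.pos (p (i + 1)) τ)| =
        K.x (K.pos (p i) τ) - K.x (K.pos (p (i + 1)) τ) := by
      intro i _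
      have h2 := (hMono ι K (p i) (p (i + 1)) (hstep i) (hN _)).1 τ hτ
      exact abs_of_nonneg (by linarith)
    rw [sum_congr rfl h1, sum_range_sub' (fun i => K.x (K.pos (p i) τ)) k]
    have h3 := K.x_le_one (K.pos (p 0) τ)
    have h4 := K.x_nonneg (K.pos (p k) τ)
    linarith
  · have h1 : ∀ i ∈ range k, |K.x (K.pos (p i) τ) - K.x (K.pos (p (i + 1)) τ)| =
        K.x (K.pos (p (i + 1)) τ) - K.x (K.pos (p i) τ) := by
      intro i _
      have h2 := (hMono ι K (p i) (p (i + 1)) (hstep i) (hN _)).2 τ hτ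
      rw [abs_sub_comm]
      exact abs_of_nonneg (by linarith)
    rw [sum_congr rfl h1, sum_range_sub (fun i => K.x (K.pos (p i) τ)) k]
    have h3 := K.x_le_one (K.pos (p k) τ)
    have h4 := K.x_nonneg (K.pos (p 0) τ)
    linarith

end Pool.Agent.Work.MP_e17eac_co.DH

end

section

/-!
# MP_e17eac_co, project DH, item JUMP: the displacement is at least the jump
-/

namespace Pool.Agent.Work.MP_e17eac_co.DH

theorem I_JUMP (hTok : StTok) (hMono : StMono) : StJump := by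
  intro ι _ _ K n p q hn hpn hnq hq
  obtain ⟨hB, hT, h1, h2, h3, h4, _⟩ := hTok ι K n hn
  have m1 := hMono ι K p n hpn hn.le
  have m2 := hMono ι K (n + 1) q hnq hq
  have b1 := m1.1 _ hB
  have b2 := m2.1 _ hB
  have t1 := m1.2 _ hT
  have t2 := m2.2 _ hT
  rw [h1] at b1
  rw [h2] at b2
  rw [h3] at t1
  rw [h4] at t2
  constructor
  · refine le_trans ?_ (le_abs_self _)
    linarith
  · rw [abs_sub_comm]
    refine le_trans ?_ (le_abs_self _)
    linarith

end Pool.Agent.Work.MP_e17eac_co.DH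

end

section

/-!
# The level is monotone and 1-Lipschitz
-/

namespace Pool.Agent.Work.MP_e17eac_co.DH

open Finset

namespace XLIP

theorem lower (hPos : StPos) (hTok : StTok) (hPath : StPath) (hLeq : StLeq) (ι : Type)
    [Fintype ι] [DecidableEq ι] (K : KSys ι) (n n' : ℕ) (hn : n ≤ n') (hN : n' < K.N) :
    K.h n ≤ K.h n' := by
  have hnN : n < K.N := lt_of_le_of_lt hn hN
  obtain ⟨hβ, _, h1, _⟩ := hTok ι K n hnN
  obtain ⟨_, ha, _, hv, _⟩ := hLeq ι K n hnN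
  obtain ⟨hL', _, _, hv', _⟩ := hLeq ι K n' hN
  have ht : K.t n ≤ K.t n' := by
    rcases hn.eq_or_lt with h | h
    · rw [h]
    · exact (K.t_lt n n' h hN).le
  obtain ⟨_, _, h3, _⟩ := hPath ι K n n' (K.t n) (K.t n') (K.tokB n) hβ hn hv hv' ht
  have h4 : K.pos n' (K.tokB n) ∈ K.S n' := by
    rw [hPos ι K n' hN.le, Equiv.symm_apply_apply]
    exact hβ
  have h5 := K.below n' hv'.1 (K.t n') hv'.2.1 hv'.2.2 _ h4
  rw [hL'] at h5
  rw [h1, ha] at h3
  have h6 := mul_nonneg (K.x_nonneg (K.pos n' (K.tokB n))) (sub_nonneg.2 ht)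
  unfold KSys.ht at h3
  linarith

end XLIP

theorem I_LIP (hPos : StPos) (hTok : StTok) (hMono : StMono) (hPath : StPath) (hMir : StMir)
    (hLeq : StLeq) : StLip := by
  intro ι _ _ K n n' hn hN
  have h1 := XLIP.lower hPos hTok hPath hLeq ι K n n' hn hN
  have h2 := XLIP.lower hPos hTok hPath hLeq ι K.mirror n n' hn hN
  obtain ⟨_, _, _, _, _, h3, _⟩ := hMir ι K
  rw [h3 n (lt_of_le_of_lt hn hN), h3 n' hN] at h2
  constructor <;> linarith

end Pool.Agent.Work.MP_e17eac_co.DH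

end

section

/-!
# Existence of a regular subset of edges
-/

namespace Pool.Agent.Work.MP_e17eac_co.DH

open Finset

namespace XREGEX

theorem regF_of_comp {α β : Type} [DecidableEq α] [DecidableEq β] (Λ : ℝ) (E : Finset ℕ)
    (f : ℕ → α) (g : α → β) (hg : Function.Injective g) (h : RegF Λ E (fun n => g (f n))) :
    RegF Λ E f := by
  have him : im E (fun n => g (f n)) = im E f := by
    unfold im
    rw [← Finset.card_image_of_injective (E.image f) hg, Finset.image_image]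
    rfl
  intro n hn
  have h1 := h n hn
  have hf : E.filter (fun k => g (f k) = g (f n)) = E.filter (fun k => f k = f n) := by
    apply Finset.filter_congr
    intro k _
    exact hg.eq_iff
  simp only [him, hf] at h1
  exact h1

theorem regF_mono {α : Type} [DecidableEq α] {Λ Λ' : ℝ} (hL : Λ ≤ Λ') (E : Finset ℕ)
    (f : ℕ → α) (h : RegF Λ E f) : RegF Λ' E f := by
  intro n hn
  obtain ⟨h1, h2⟩ := h n hn
  constructor
  · refine h1.trans ?_
    gcongr
  · refine h2.trans ?_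
    gcongr

theorem card_le {ι : Type} [Fintype ι] [DecidableEq ι] (K : KSys ι) (E : Finset ℕ)
    (hE : ∀ n ∈ E, n < K.N) : E.card ≤ Fintype.card ι * Fintype.card ι := by
  have hinj : Set.InjOn (fun n => (K.a n, K.b n)) (E : Set ℕ) := by
    intro n hn n' hn' h
    simp only [Prod.mk.injEq] at h
    obtain ⟨ha, hb⟩ := h
    have h1 := hE n hn
    have h2 := hE n' hn'
    have m1 := K.meet n h1
    have m2 := K.meet n' h2
    have hx := K.x_lt n h1
    rw [← ha, ← hb] at m2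
    have ht : K.t n = K.t n' := by
      have h0 : (K.x (K.a n) - K.x (K.b n)) * (K.t n - K.t n') = 0 := by
        linear_combination m1 - m2
      rcases mul_eq_zero.mp h0 with h | h
      · linarith
      · linarith
    rcases lt_trichotomy n n' with h | h | h
    · have := K.t_lt n n' h h2
      linarith
    · exact h
    · have := K.t_lt n' n h h1
      linarith
  have h2 := Finset.card_le_card_of_injOn (t := (Finset.univ : Finset (ι × ι))) _
    (fun n _ => Finset.mem_univ _) hinj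
  simpa using h2

theorem cell_bd {ι : Type} [Fintype ι] [DecidableEq ι] (K : KSys ι) (Q j n : ℕ) (hQ : 2 ≤ Q)
    (h0 : 0 ≤ K.t n) : ((K.cell Q j n : ℕ) : ℝ) / (Q : ℝ) ^ j ≤ K.t n ∧
      K.t n < ((K.cell Q j n + 1 : ℕ) : ℝ) / (Q : ℝ) ^ j := by
  have hQ' : (0 : ℝ) < Q := by
    have : 0 < Q := by omega
    exact_mod_cast this
  have hQj : (0 : ℝ) < (Q : ℝ) ^ j := pow_pos hQ' j
  constructor
  · rw [div_le_iff₀ hQj]
    exact Nat.floor_le (mul_nonneg h0 hQj.le)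
  · rw [lt_div_iff₀ hQj]
    push_cast
    exact Nat.lt_floor_add_one _

theorem disp_bd {ι : Type} [Fintype ι] [DecidableEq ι] (hJump : StJump) (hIdx : StIdx)
    (K : KSys ι) (m : ℝ) (hm : 2 ≤ m) (hs : K.Sep m) (Q j n : ℕ) (hQ : 2 ≤ Q) (hn : n < K.N)
    (h0 : 0 ≤ K.t n) (p : Bool) :
    1 ≤ m * K.disp Q j (K.cell Q j n) (K.tok p n) ∧
      K.disp Q j (K.cell Q j n) (K.tok p n) ≤ 1 := by
  obtain ⟨hc1, hc2⟩ := cell_bd K Q j n hQ h0
  obtain ⟨_, i2, _, i4⟩ := hIdx ι K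
  have hp : K.ci Q j (K.cell Q j n) ≤ n := by
    by_contra hcon
    push Not at hcon
    have := (i2 n _).mp hcon
    linarith [this.2]
  have hq : n < K.ci Q j (K.cell Q j n + 1) := (i2 n _).mpr ⟨hn, hc2⟩
  have hq' : K.ci Q j (K.cell Q j n + 1) ≤ K.N := i4 _
  obtain ⟨j1, j2⟩ := hJump ι K n _ _ hn hp hq hq'
  have hx := K.x_lt n hn
  have hab : K.a n ≠ K.b n := by
    intro h
    rw [h] at hx
    exact lt_irrefl _ hx
  have hsep := hs _ _ hab
  rw [abs_of_pos (by linarith)] at hsep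
  have hlow : K.x (K.a n) - K.x (K.b n) ≤ K.disp Q j (K.cell Q j n) (K.tok p n) := by
    cases p with
    | false => exact j1
    | true => exact j2
  constructor
  · refine hsep.trans ?_
    exact mul_le_mul_of_nonneg_left hlow (by linarith)
  · unfold KSys.disp
    have a1 := K.x_nonneg (K.pos (K.ci Q j (K.cell Q j n)) (K.tok p n))
    have a2 := K.x_le_one (K.pos (K.ci Q j (K.cell Q j n)) (K.tok p n))
    have a3 := K.x_nonneg (K.pos (K.ci Q j (K.cell Q j n + 1)) (K.tok p n))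
    have a4 := K.x_le_one (K.pos (K.ci Q j (K.cell Q j n + 1)) (K.tok p n))
    rw [abs_le]
    constructor <;> linarith

/-- The exponent for the dyadic classes. -/
theorem exists_g (m : ℝ) (hm : 2 ≤ m) : ∃ g : ℕ, m ≤ 2 ^ g ∧
    ((g : ℝ) + 1) ≤ 8 * (1 + Real.log m) := by
  have hl2 : (0.69 : ℝ) < Real.log 2 := by
    have := Real.log_two_gt_d9
    linarith
  have hlm : Real.log 2 ≤ Real.log m := Real.log_le_log (by norm_num) hm
  have hpos : 0 ≤ Real.logb 2 m := Real.logb_nonneg (by norm_num) (by linarith)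
  refine ⟨⌈Real.logb 2 m⌉₊, ?_, ?_⟩
  · have h1 : Real.logb 2 m ≤ ⌈Real.logb 2 m⌉₊ := Nat.le_ceil _
    have h2 : m = (2 : ℝ) ^ (Real.logb 2 m) :=
      (Real.rpow_logb (by norm_num) (by norm_num) (by linarith)).symm
    calc m = (2 : ℝ) ^ (Real.logb 2 m) := h2
      _ ≤ (2 : ℝ) ^ ((⌈Real.logb 2 m⌉₊ : ℕ) : ℝ) :=
        Real.rpow_le_rpow_of_exponent_le (by norm_num) h1
      _ = 2 ^ ⌈Real.logb 2 m⌉₊ := Real.rpow_natCast _ _
  · have h1 : (⌈Real.logb 2 m⌉₊ : ℝ) < Real.logb 2 m + 1 := Nat.ceil_lt_add_one hpos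
    have h2 : Real.logb 2 m * Real.log 2 = Real.log m := by
      unfold Real.logb
      field_simp
    have h3 : Real.logb 2 m ≤ 2 * Real.log m := by
      nlinarith
    linarith

/-- The logarithm of the number of edges. -/
theorem log_bd (m : ℝ) (hm : 2 ≤ m) (c : ℕ) (hc : 0 < c) (h : (c : ℝ) ≤ (m + 1) ^ 2) :
    ((Nat.log 2 c : ℝ) + 1) ≤ 8 * (1 + Real.log m) := by
  have hl2 : (0.69 : ℝ) < Real.log 2 := by
    have := Real.log_two_gt_d9
    linarith
  have hlm : Real.log 2 ≤ Real.log m := Real.log_le_log (by norm_num) hm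
  have h1 : (2 : ℝ) ^ (Nat.log 2 c) ≤ c := by
    exact_mod_cast Nat.pow_log_le_self 2 hc.ne'
  have h2 : (Nat.log 2 c : ℝ) * Real.log 2 ≤ Real.log c := by
    rw [← Real.log_pow]
    exact Real.log_le_log (by positivity) h1
  have h3 : Real.log c ≤ 2 * Real.log (m + 1) := by
    have h4 : Real.log c ≤ Real.log ((m + 1) ^ 2) :=
      Real.log_le_log (by exact_mod_cast hc) h
    rw [Real.log_pow] at h4
    simpa using h4
  have h5 : Real.log (m + 1) ≤ 2 * Real.log m := by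
    have h6 : Real.log (m + 1) ≤ Real.log (m ^ 2) :=
      Real.log_le_log (by linarith) (by nlinarith)
    rw [Real.log_pow] at h6
    simpa using h6
  have h7 : (Nat.log 2 c : ℝ) * 0.69 ≤ 4 * Real.log m := by
    have h8 : (0 : ℝ) ≤ (Nat.log 2 c : ℝ) := Nat.cast_nonneg _
    nlinarith
  linarith

end XREGEX

theorem I_REGEX (hReg : StReg) (hDcl : StDcl) (hJump : StJump) (hSep : StSep) (hIdx : StIdx)
    (hFlux : StFlux) : StRegEx := by
  intro ι _ _ K m hm hs Q J hQ E hE hEt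
  have hlm0 : 0 ≤ Real.log m := Real.log_nonneg (by linarith)
  obtain ⟨g, hg1, hg2⟩ := XREGEX.exists_g m hm
  -- dyadic classes
  have hbd : ∀ k : Bool × Fin (J + 1), ∀ n ∈ E, (1 : ℝ) / 2 ^ g ≤
      K.disp Q k.2 (K.cell Q k.2 n) (K.tok k.1 n) ∧
      K.disp Q k.2 (K.cell Q k.2 n) (K.tok k.1 n) ≤ 1 := by
    intro k n hn
    obtain ⟨h1, h2, h3⟩ := hEt n hn
    obtain ⟨d1, d2⟩ := XREGEX.disp_bd hJump hIdx K m hm hs Q k.2 n hQ h1 h2 k.1
    refine ⟨?_, d2⟩
    have d0 : 0 ≤ K.disp Q k.2 (K.cell Q k.2 n) (K.tok k.1 n) := abs_nonneg _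
    rw [div_le_iff₀ (by positivity)]
    calc (1 : ℝ) ≤ m * K.disp Q k.2 (K.cell Q k.2 n) (K.tok k.1 n) := d1
      _ ≤ 2 ^ g * K.disp Q k.2 (K.cell Q k.2 n) (K.tok k.1 n) :=
        mul_le_mul_of_nonneg_right hg1 d0
      _ = K.disp Q k.2 (K.cell Q k.2 n) (K.tok k.1 n) * 2 ^ g := mul_comm _ _
  obtain ⟨E1, hE1s, hE1n, hE1c, D, hD⟩ := hDcl (Bool × Fin (J + 1))
    (fun k n => K.disp Q k.2 (K.cell Q k.2 n) (K.tok k.1 n)) E g hE hbd
  -- the five families of functions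
  let f : (Option (Bool × Bool) × Fin (J + 1)) → ℕ → ℕ × Option ι := fun k n =>
    match k.1 with
    | none => (K.cell Q k.2 n, none)
    | some (true, s) => (K.cell Q k.2 n, some (K.ln s n))
    | some (false, s) => (K.cell Q k.2 n, some (K.tok s n))
  obtain ⟨E2, hE2s, hE2n, hE2c, hE2r⟩ := hReg (ℕ × Option ι)
    (Option (Bool × Bool) × Fin (J + 1)) f E1 hE1n
  have hcard1 : Fintype.card (Bool × Fin (J + 1)) = 2 * (J + 1) := by simp
  have hcard2 : Fintype.card (Option (Bool × Bool) × Fin (J + 1)) = 5 * (J + 1) := by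
    simp
  rw [hcard1] at hE1c
  rw [hcard2] at hE2c
  rw [hcard2] at hE2r
  -- sizes
  set B : ℝ := 8 * (1 + Real.log m) with hB
  have hB8 : 8 ≤ B := by rw [hB]; linarith
  have hcardE : (E1.card : ℝ) ≤ (m + 1) ^ 2 := by
    have h1 : E1.card ≤ Fintype.card ι * Fintype.card ι :=
      XREGEX.card_le K E1 (fun n hn => (hEt n (hE1s hn)).1)
    have h2 : (E1.card : ℝ) ≤ (Fintype.card ι : ℝ) * Fintype.card ι := by exact_mod_cast h1
    have h3 := (hSep ι K m (by linarith) hs).2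
    have h4 : (0 : ℝ) ≤ (Fintype.card ι : ℝ) := Nat.cast_nonneg _
    nlinarith
  have hM : ((Nat.log 2 E1.card : ℝ) + 1) ≤ B :=
    XREGEX.log_bd m hm E1.card (Finset.card_pos.mpr hE1n) hcardE
  set M : ℝ := (Nat.log 2 E1.card : ℝ) + 1 with hMdef
  have hM0 : 0 ≤ M := by rw [hMdef]; positivity
  have hJ0 : (0 : ℝ) ≤ J := Nat.cast_nonneg _
  have hMB : M ^ (5 * (J + 1)) ≤ B ^ (5 * (J + 1)) := pow_le_pow_left₀ hM0 hM _
  have hB2 : (64 : ℝ) ≤ B ^ (2 * (J + 1)) := by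
    have h1 : (64 : ℝ) ≤ B ^ 2 := by nlinarith
    have h2 : B ^ 2 ≤ B ^ (2 * (J + 1)) := pow_le_pow_right₀ (by linarith) (by omega)
    linarith
  have hB7 : B ^ (7 * (J + 1)) = B ^ (2 * (J + 1)) * B ^ (5 * (J + 1)) := by
    rw [← pow_add]
    congr 1
    ring
  have hB5 : 0 < B ^ (5 * (J + 1)) := by positivity
  have hB7' : 64 * B ^ (5 * (J + 1)) ≤ B ^ (7 * (J + 1)) := by
    rw [hB7]
    exact mul_le_mul_of_nonneg_right hB2 hB5.le
  have hLam : 8 * (((5 * (J + 1) : ℕ) : ℝ) + 1) * M ^ (5 * (J + 1)) ≤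
      40 * (J + 1) * B ^ (7 * (J + 1)) := by
    push_cast
    calc 8 * (5 * ((J : ℝ) + 1) + 1) * M ^ (5 * (J + 1))
        ≤ (48 * ((J : ℝ) + 1)) * B ^ (5 * (J + 1)) := by
          apply mul_le_mul _ hMB (by positivity) (by positivity)
          linarith
      _ ≤ (40 * ((J : ℝ) + 1)) * (64 * B ^ (5 * (J + 1))) := by
          have : 0 ≤ ((J : ℝ) + 1) * B ^ (5 * (J + 1)) := by positivity
          nlinarith
      _ ≤ 40 * ((J : ℝ) + 1) * B ^ (7 * (J + 1)) :=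
          mul_le_mul_of_nonneg_left hB7' (by positivity)
  have hB5' : (1 : ℝ) ≤ B ^ (5 * (J + 1)) := one_le_pow₀ (by linarith)
  have hreg : ∀ k, RegF (40 * (J + 1) * B ^ (7 * (J + 1))) E2 (f k) := fun k =>
    XREGEX.regF_mono hLam E2 (f k) (hE2r k)
  refine ⟨E2, hE2s.trans hE1s,
    fun p j => if h : j < J + 1 then D (p, ⟨j, h⟩) else 0, ?_, ?_⟩
  · refine ⟨?_, hE2n, ?_, ?_, ?_, ?_, ?_, ?_⟩
    · intro n hn
      exact hEt n (hE1s (hE2s hn))
    · have h1 : (1 : ℝ) ≤ B ^ (7 * (J + 1)) := by linarith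
      have h2 : (1 : ℝ) ≤ 40 * ((J : ℝ) + 1) := by linarith
      calc (1 : ℝ) = 1 * 1 := by norm_num
        _ ≤ 40 * ((J : ℝ) + 1) * B ^ (7 * (J + 1)) := mul_le_mul h2 h1 (by norm_num) (by linarith)
    · intro j hj
      have h := hreg (none, ⟨j, by omega⟩)
      exact XREGEX.regF_of_comp _ E2 (fun n => K.cell Q j n) (fun c => (c, (none : Option ι)))
        (fun c c' h => (Prod.mk.inj h).1) h
    · intro s j hj
      have h := hreg (some (true, s), ⟨j, by omega⟩)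
      refine XREGEX.regF_of_comp _ E2 (fun n => (K.cell Q j n, K.ln s n))
        (fun c : ℕ × ι => (c.1, some c.2)) ?_ h
      intro c c' h
      have h1 := (Prod.mk.inj h).1
      have h2 := Option.some.inj (Prod.mk.inj h).2
      exact Prod.ext h1 h2
    · intro s j hj
      have h := hreg (some (false, s), ⟨j, by omega⟩)
      refine XREGEX.regF_of_comp _ E2 (fun n => (K.cell Q j n, K.tok s n))
        (fun c : ℕ × ι => (c.1, some c.2)) ?_ h
      intro c c' h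
      have h1 := (Prod.mk.inj h).1
      have h2 := Option.some.inj (Prod.mk.inj h).2
      exact Prod.ext h1 h2
    · intro p j hj n hn
      have hj' : j < J + 1 := by omega
      simp only [hj', dite_true]
      exact (hD (p, ⟨j, hj'⟩) n (hE2s hn)).1
    · intro p j hj n hn
      have hj' : j < J + 1 := by omega
      simp only [hj', dite_true]
      exact (hD (p, ⟨j, hj'⟩) n (hE2s hn)).2
  · have h1 : (E.card : ℝ) ≤ ((g : ℝ) + 1) ^ (2 * (J + 1)) * E1.card := by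
      exact_mod_cast hE1c
    have h2 : ((g : ℝ) + 1) ^ (2 * (J + 1)) ≤ B ^ (2 * (J + 1)) :=
      pow_le_pow_left₀ (by positivity) hg2 _
    have h0 : (0 : ℝ) ≤ (E2.card : ℝ) := Nat.cast_nonneg _
    have h01 : (0 : ℝ) ≤ (E1.card : ℝ) := Nat.cast_nonneg _
    calc (E.card : ℝ) ≤ ((g : ℝ) + 1) ^ (2 * (J + 1)) * E1.card := h1
      _ ≤ B ^ (2 * (J + 1)) * E1.card := mul_le_mul_of_nonneg_right h2 h01
      _ ≤ B ^ (2 * (J + 1)) * (2 * M ^ (5 * (J + 1)) * E2.card) :=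
          mul_le_mul_of_nonneg_left hE2c (by positivity)
      _ ≤ B ^ (2 * (J + 1)) * (2 * B ^ (5 * (J + 1)) * E2.card) := by
          apply mul_le_mul_of_nonneg_left _ (by positivity)
          apply mul_le_mul_of_nonneg_right _ h0
          linarith
      _ = 2 * B ^ (7 * (J + 1)) * E2.card := by rw [hB7]; ring
      _ ≤ (40 * (J + 1) * B ^ (7 * (J + 1))) * E2.card := by
          apply mul_le_mul_of_nonneg_right _ h0
          apply mul_le_mul_of_nonneg_right _ (by positivity)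
          linarith

end Pool.Agent.Work.MP_e17eac_co.DH

end

section

namespace Pool.Agent.Work.MP_e17eac_co.DH

open Finset

namespace XSEP

theorem first {ι : Type} [Fintype ι] [DecidableEq ι] (K : KSys ι) (m : ℝ) (hm : 0 < m)
    (hS : K.Sep m) (G : Finset ι) (lam : ℝ) (hlam : 0 ≤ lam)
    (hG : ∀ i ∈ G, ∀ i' ∈ G, |K.x i - K.x i'| ≤ lam) : (G.card : ℝ) ≤ m * lam + 1 := by
  rcases G.eq_empty_or_nonempty with rfl | hne
  · simp only [card_empty, Nat.cast_zero]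
    positivity
  obtain ⟨i0, hi0, hmin⟩ := G.exists_min_image K.x hne
  have hinj : Set.InjOn (fun i => ⌊m * (K.x i - K.x i0)⌋₊) (G : Set ι) := by
    intro i hi j hj hij
    by_contra hne'
    have h1 := hS i j hne'
    have hi' : 0 ≤ m * (K.x i - K.x i0) := mul_nonneg hm.le (sub_nonneg.2 (hmin i hi))
    have hj' : 0 ≤ m * (K.x j - K.x i0) := mul_nonneg hm.le (sub_nonneg.2 (hmin j hj))
    have a1 := Nat.floor_le hi'
    have a2 := Nat.lt_floor_add_one (m * (K.x i - K.x i0))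
    have b1 := Nat.floor_le hj'
    have b2 := Nat.lt_floor_add_one (m * (K.x j - K.x i0))
    simp only at hij
    rw [hij] at a1 a2
    have h2 : m * |K.x i - K.x j| = |m * (K.x i - K.x i0) - m * (K.x j - K.x i0)| := by
      rw [← mul_sub, abs_mul, abs_of_pos hm]
      congr 2
      ring
    have h3 : |m * (K.x i - K.x i0) - m * (K.x j - K.x i0)| < 1 := by
      rw [abs_lt]
      constructor <;> linarith
    linarith
  have hmaps : ∀ i ∈ G, ⌊m * (K.x i - K.x i0)⌋₊ ∈ range (⌊m * lam⌋₊ + 1) := by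
    intro i hi
    rw [mem_range, Nat.lt_succ_iff]
    apply Nat.floor_le_floor
    apply mul_le_mul_of_nonneg_left _ hm.le
    exact (le_abs_self _).trans (hG i hi i0 hi0)
  have hcard := Finset.card_le_card_of_injOn _ hmaps hinj
  rw [card_range] at hcard
  have h4 : (⌊m * lam⌋₊ : ℝ) ≤ m * lam := Nat.floor_le (mul_nonneg hm.le hlam)
  have h5 : (G.card : ℝ) ≤ ((⌊m * lam⌋₊ + 1 : ℕ) : ℝ) := by exact_mod_cast hcard
  push_cast at h5
  linarith

end XSEP

theorem I_SEP : StSep := by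
  intro ι _ _ K m hm hS
  refine ⟨fun G lam hlam hG => XSEP.first K m hm hS G lam hlam hG, ?_⟩
  have h := XSEP.first K m hm hS Finset.univ 1 zero_le_one (by
    intro i _ i' _
    have h1 := K.x_nonneg i
    have h2 := K.x_le_one i
    have h3 := K.x_nonneg i'
    have h4 := K.x_le_one i'
    rw [abs_le]
    constructor <;> linarith)
  rw [Finset.card_univ] at h
  linarith

end Pool.Agent.Work.MP_e17eac_co.DH

end

section

/-!
# Start lines of the tokens of an edge are close to the level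
-/

namespace Pool.Agent.Work.MP_e17eac_co.DH

namespace XSFLAT

variable {ι : Type} [Fintype ι] [DecidableEq ι]

/-- an index between `p` and `q` which is valid at the time `s` -/
theorem exists_valid (hIdx : StIdx) (K : KSys ι) {p q : ℕ} {s0 s1 s : ℝ} (hp : K.Valid p s0)
    (hq : K.Valid q s1) (hpq : p ≤ q) (h0 : s0 ≤ s) (h1 : s ≤ s1) :
    ∃ k, p ≤ k ∧ k ≤ q ∧ K.Valid k s := by
  obtain ⟨hv, -, -, -⟩ := hIdx ι K
  have hk := hv s
  obtain ⟨hp1, hp2, hp3⟩ := hp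
  obtain ⟨hq1, hq2, hq3⟩ := hq
  obtain ⟨hk1, hk2, hk3⟩ := hk
  by_cases h2 : K.idx s < p
  · refine ⟨p, le_rfl, hpq, hp1, fun k hk => (hp2 k hk).trans h0, fun k hk hk' => ?_⟩
    exact hk3 k (by omega) hk'
  · by_cases h3 : q < K.idx s
    · refine ⟨q, hpq, le_rfl, hq1, fun k hk => hk2 k (by omega), fun k hk hk' => ?_⟩
      exact h1.trans (hq3 k hk hk')
    · exact ⟨K.idx s, by omega, by omega, hk1, hk2, hk3⟩

/-- the first claim -/
theorem first (hPos : StPos) (hTok : StTok) (hMono : StMono) (hPath : StPath) (hIdx : StIdx)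
    (hLeq : StLeq) (hSand : StSand) (hStart : StStart) (K : KSys ι) (n p q : ℕ) (s0 s1 s : ℝ)
    (hn : n < K.N) (hp : K.Valid p s0) (hq : K.Valid q s1) (hpn : p ≤ n) (hnq : n < q)
    (h0 : s0 ≤ s) (h1 : s ≤ s1) :
    |K.ht (K.pos p (K.tokB n)) s - K.L s| ≤
      (s1 - s0) * (|K.x (K.pos p (K.tokB n)) - K.x (K.pos q (K.tokB n))| +
        |K.x (K.pos p (K.tokT n)) - K.x (K.pos q (K.tokT n))|) := by
  obtain ⟨hB, -, hpB, -, -, -, -⟩ := hTok ι K n hn
  have hpq : p ≤ q := by omega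
  have hr : 0 ≤ s1 - s0 := by linarith
  set β := K.tokB n with hβ
  set dB := |K.x (K.pos p β) - K.x (K.pos q β)| with hdB
  set dT := |K.x (K.pos p (K.tokT n)) - K.x (K.pos q (K.tokT n))| with hdT
  have hdB0 : 0 ≤ dB := abs_nonneg _
  have hdT0 : 0 ≤ dT := abs_nonneg _
  have hrT : 0 ≤ (s1 - s0) * dT := mul_nonneg hr hdT0
  -- start
  have hi : K.pos p β ∈ K.S p := by
    rw [hPos ι K p hp.1, Equiv.symm_apply_apply]
    exact hB
  have hst := (hStart ι K p q s0 s1 s (K.pos p β) hp hq hpq h0 h1).1 hi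
  rw [Equiv.symm_apply_apply] at hst
  have hup : K.ht (K.pos p β) s - K.L s ≤ (s1 - s0) * (dB + dT) := by
    rw [mul_add]
    linarith
  -- the other side
  have hsand := (hSand ι K n p q s0 s1 s false hn hp hq hpn hnq h0 h1).2
  obtain ⟨k, hpk, hkq, hk⟩ := exists_valid hIdx K hp hq hpq h0 h1
  have hpath1 := (hPath ι K p k s0 s β hB hpk hp hk h0).1
  have hm1 := (hMono ι K p k hpk hk.1).1 β hB
  have hm2 := (hMono ι K k q hkq hq.1).1 β hB
  have hm3 := (hMono ι K p n hpn hn.le).1 β hB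
  have hm4 := (hMono ι K n q hnq.le hq.1).1 β hB
  have hval := (hLeq ι K n hn).2.2.2.1
  have htn0 : s0 ≤ K.t n := hp.2.2 n hpn hn
  have htn1 : K.t n ≤ s1 := hq.2.1 n hnq
  have hdBle : K.x (K.pos p β) - K.x (K.pos q β) ≤ dB := le_abs_self _
  have hlow : K.ht (K.a n) s - (s1 - s0) * dB ≤ K.ht (K.pos k β) s := by
    rw [← hpB]
    by_cases hkn : k ≤ n
    · have hs : s ≤ K.t n := hk.2.2 n hkn hn
      have h4 := (hPath ι K k n s (K.t n) β hB hkn hk hval hs).2.2.2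
      have h5 : (K.t n - s) * (K.x (K.pos k β) - K.x (K.pos n β)) ≤ (s1 - s0) * dB := by
        apply mul_le_mul (by linarith) (by linarith) _ hr
        have := (hMono ι K k n hkn hn.le).1 β hB
        linarith
      linarith
    · have hs : K.t n ≤ s := hk.2.1 n (by omega)
      have h4 := (hPath ι K n k (K.t n) s β hB (by omega) hval hk hs).2.1
      have h5 : (s - K.t n) * (K.x (K.pos n β) - K.x (K.pos k β)) ≤ (s1 - s0) * dB := by
        apply mul_le_mul (by linarith) (by linarith) _ hr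
        have := (hMono ι K n k (by omega) hk.1).1 β hB
        linarith
      linarith
  have hs' : K.L s ≤ K.ht (K.a n) s + (s1 - s0) * dT := hsand
  rw [abs_le]
  constructor
  · rw [mul_add]
    linarith
  · exact hup

end XSFLAT

open XSFLAT in
theorem I_SFLAT (hPos : StPos) (hTok : StTok) (hMono : StMono) (hPath : StPath) (hMir : StMir)
    (hIdx : StIdx) (hLeq : StLeq) (hSand : StSand) (hStart : StStart) : StSflat := by
  intro ι _ _ K n p q s0 s1 s hn hp hq hpn hnq h0 h1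
  refine ⟨first hPos hTok hMono hPath hIdx hLeq hSand hStart K n p q s0 s1 s hn hp hq hpn hnq
    h0 h1, ?_⟩
  obtain ⟨m1, m2, m3, -, m5, -, m7, -, -, -⟩ := hMir ι K
  have h := first hPos hTok hMono hPath hIdx hLeq hSand hStart K.mirror n p q s0 s1 s hn
    ((m7 p s0).2 hp) ((m7 q s1).2 hq) hpn hnq h0 h1
  rw [m2 n, m3 n, m1 p, m1 q, m5] at h
  have e1 : s - K.ht (K.pos p (K.tokT n)) s - K.mirror.L s =
      -(K.ht (K.pos p (K.tokT n)) s - K.L s) := by
    change s - K.ht (K.pos p (K.tokT n)) s - (s - K.L s) = _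
    ring
  have e2 : ∀ i j : ι, |K.mirror.x i - K.mirror.x j| = |K.x i - K.x j| := by
    intro i j
    change |1 - K.x i - (1 - K.x j)| = _
    rw [← abs_neg]
    congr 1
    ring
  rw [e1, abs_neg, e2, e2, add_comm] at h
  exact h

end Pool.Agent.Work.MP_e17eac_co.DH

end

section

set_option autoImplicit false

namespace Pool.Agent.Work.MP_e17eac_co.DH

open Finset

namespace XSTART

variable {ι : Type} [Fintype ι] [DecidableEq ι]

/-- an index between `p` and `q` which is valid at the time `s` -/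
theorem exists_valid (hIdx : StIdx) (K : KSys ι) {p q : ℕ} {s0 s1 s : ℝ} (hp : K.Valid p s0)
    (hq : K.Valid q s1) (hpq : p ≤ q) (h0 : s0 ≤ s) (h1 : s ≤ s1) :
    ∃ k, p ≤ k ∧ k ≤ q ∧ K.Valid k s := by
  obtain ⟨i1, i2, -, -⟩ := hIdx ι K
  by_cases h2 : K.idx s < p
  · refine ⟨p, le_refl p, hpq, hp.1, fun k hk => (hp.2.1 k hk).trans h0, fun k hk hkN => ?_⟩
    by_contra h3
    push Not at h3
    have h4 := (i2 k s).2 ⟨hkN, h3⟩
    omega
  by_cases h3 : q < K.idx s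
  · refine ⟨q, hpq, le_refl q, hq.1, fun k hk => ?_, fun k hk hkN => h1.trans (hq.2.2 k hk hkN)⟩
    exact ((i2 k s).1 (hk.trans h3)).2.le
  exact ⟨K.idx s, by omega, by omega, i1 s⟩

/-- the first claim -/
theorem first (hPos : StPos) (hMono : StMono) (hPath : StPath) (hIdx : StIdx) (K : KSys ι)
    {p q : ℕ} {s0 s1 s : ℝ} {i : ι} (hp : K.Valid p s0) (hq : K.Valid q s1) (hpq : p ≤ q)
    (h0 : s0 ≤ s) (h1 : s ≤ s1) (hi : i ∈ K.S p) :
    K.ht i s - (s1 - s0) * |K.x i - K.x (K.pos q ((K.pos p).symm i))| ≤ K.L s := by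
  obtain ⟨k, hpk, hkq, hk⟩ := exists_valid hIdx K hp hq hpq h0 h1
  obtain ⟨τ, hτ⟩ : ∃ τ, τ = (K.pos p).symm i := ⟨_, rfl⟩
  have hτ0 : τ ∈ K.S 0 := by
    rw [hτ]
    exact (hPos ι K p hp.1 i).1 hi
  have hτi : K.pos p τ = i := by
    rw [hτ]
    exact Equiv.apply_symm_apply _ _
  rw [← hτ]
  have h2 : K.pos k τ ∈ K.S k := by
    rw [hPos ι K k hk.1, Equiv.symm_apply_apply]
    exact hτ0
  have h3 : K.ht (K.pos k τ) s ≤ K.L s := K.below k hk.1 s hk.2.1 hk.2.2 _ h2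
  have h4 := (hPath ι K p k s0 s τ hτ0 hpk hp hk h0).2.1
  rw [hτi] at h4
  have h5 := (hMono ι K p k hpk hk.1).1 τ hτ0
  have h6 := (hMono ι K k q hkq hq.1).1 τ hτ0
  rw [hτi] at h5
  have h7 : |K.x i - K.x (K.pos q τ)| = K.x i - K.x (K.pos q τ) :=
    abs_of_nonneg (by linarith)
  have h8 : (s - s0) * (K.x i - K.x (K.pos k τ)) ≤ (s1 - s0) * (K.x i - K.x (K.pos q τ)) :=
    mul_le_mul (by linarith) (by linarith) (by linarith) (by linarith)
  rw [h7]
  linarith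

end XSTART

open XSTART

theorem I_START (hPos : StPos) (hMono : StMono) (hPath : StPath) (hMir : StMir)
    (hIdx : StIdx) : StStart := by
  intro ι _ _ K p q s0 s1 s i hp hq hpq h0 h1
  refine ⟨first hPos hMono hPath hIdx K hp hq hpq h0 h1, fun hi => ?_⟩
  obtain ⟨m1, -, -, -, m5, -, m7, -, -, -⟩ := hMir ι K
  have hi' : i ∈ K.mirror.S p := by
    show i ∈ (K.S p)ᶜ
    exact Finset.mem_compl.2 hi
  have h2 := first hPos hMono hPath hIdx K.mirror ((m7 p s0).2 hp) ((m7 q s1).2 hq) hpq h0 h1 hi'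
  rw [m5, m1, m1] at h2
  have e1 : K.mirror.x i - K.mirror.x (K.pos q ((K.pos p).symm i)) =
      -(K.x i - K.x (K.pos q ((K.pos p).symm i))) := by
    show (1 - K.x i) - (1 - K.x (K.pos q ((K.pos p).symm i))) = _
    ring
  have e2 : K.mirror.L s = s - K.L s := rfl
  rw [e1, abs_neg, e2] at h2
  linarith

end Pool.Agent.Work.MP_e17eac_co.DH

end

section

/-!
MP_e17eac_co, block DH, item BRL: branching of lines, flatness by the smaller displacement.
-/

namespace Pool.Agent.Work.MP_e17eac_co.DH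

open Finset

namespace XBRL

variable {ι : Type} [Fintype ι] [DecidableEq ι]

theorem cell_div (K : KSys ι) (Q j n : ℕ) (hQ : 1 ≤ Q) :
    K.cell Q j n = K.cell Q (j + 1) n / Q := by
  unfold KSys.cell
  have hQ' : (Q : ℝ) ≠ 0 := by
    have : (0 : ℝ) < Q := by exact_mod_cast hQ
    exact this.ne'
  rw [← Nat.floor_div_natCast]
  congr 1
  rw [pow_succ]
  field_simp

theorem three (C : Finset ℕ) (h : 3 ≤ C.card) : ∃ a ∈ C, ∃ b ∈ C, a + 2 ≤ b := by
  have hne : C.Nonempty := by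
    rw [← Finset.card_pos]; omega
  refine ⟨C.min' hne, C.min'_mem hne, C.max' hne, C.max'_mem hne, ?_⟩
  have h1 : C ⊆ Icc (C.min' hne) (C.max' hne) := by
    intro x hx
    rw [mem_Icc]
    exact ⟨C.min'_le x hx, C.le_max' x hx⟩
  have h2 := card_le_card h1
  rw [Nat.card_Icc] at h2
  omega

/-- Every line of an edge of `E` has two children cells at distance at least two. -/
theorem pairs (hCnt : StCnt) (K : KSys ι) (Q J : ℕ) (E : Finset ℕ) (Λ : ℝ) (D : Bool → ℕ → ℝ)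
    (hQ : 2 ≤ Q) (hR : Reg K Q J E Λ D) (s : Bool) (j : ℕ) (hj : j + 1 ≤ J)
    (h3 : 3 * Λ ^ 2 * PL K Q E s j ≤ PL K Q E s (j + 1)) (n : ℕ) (hn : n ∈ E) :
    ∃ p : ℕ × ℕ, p.1 < Q ∧ p.2 < Q ∧ p.1 + 2 ≤ p.2 ∧
      (∃ k ∈ E, K.cell Q j k = K.cell Q j n ∧ K.ln s k = K.ln s n ∧
        K.cell Q (j + 1) k = Q * K.cell Q j n + p.1) ∧
      (∃ k ∈ E, K.cell Q j k = K.cell Q j n ∧ K.ln s k = K.ln s n ∧
        K.cell Q (j + 1) k = Q * K.cell Q j n + p.2) := by
  have hQ1 : 1 ≤ Q := by omega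
  obtain ⟨h1, -⟩ := hCnt (ℕ × ι) (ℕ × ι) Λ E (fun n => (K.cell Q j n, K.ln s n))
    (fun n => (K.cell Q (j + 1) n, K.ln s n)) hR.one_le (hR.regL s j (by omega))
    (hR.regL s (j + 1) hj) (by
      intro n _ k _ h
      simp only [Prod.mk.injEq] at h ⊢
      exact ⟨by rw [cell_div K Q j n hQ1, cell_div K Q j k hQ1, h.1], h.2⟩) n hn
  have hpos : 0 < im E (fun n => (K.cell Q j n, K.ln s n)) := by
    unfold im
    rw [card_pos]
    exact hR.ne.image _
  have hpos' : (0 : ℝ) < (im E (fun n => (K.cell Q j n, K.ln s n)) : ℝ) := by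
    exact_mod_cast hpos
  have hΛ : 0 < Λ := lt_of_lt_of_le one_pos hR.one_le
  unfold PL at h3
  have h4 : (3 : ℝ) ≤ (im (E.filter (fun k => (K.cell Q j k, K.ln s k) =
      (K.cell Q j n, K.ln s n))) (fun n => (K.cell Q (j + 1) n, K.ln s n)) : ℝ) := by
    have h5 : 0 < Λ ^ 2 * (im E (fun n => (K.cell Q j n, K.ln s n)) : ℝ) := by positivity
    refine le_of_mul_le_mul_right ?_ h5
    calc 3 * (Λ ^ 2 * (im E (fun n => (K.cell Q j n, K.ln s n)) : ℝ))
        = 3 * Λ ^ 2 * (im E (fun n => (K.cell Q j n, K.ln s n)) : ℝ) := by ring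
      _ ≤ _ := h3
      _ ≤ _ := h1
      _ = _ := by ring
  have h6 : 3 ≤ im (E.filter (fun k => (K.cell Q j k, K.ln s k) =
      (K.cell Q j n, K.ln s n))) (fun n => (K.cell Q (j + 1) n, K.ln s n)) := by
    exact_mod_cast h4
  have h7 : 3 ≤ ((E.filter (fun k => (K.cell Q j k, K.ln s k) =
      (K.cell Q j n, K.ln s n))).image (fun k => K.cell Q (j + 1) k)).card := by
    refine h6.trans ?_
    unfold im
    have h8 : (E.filter (fun k => (K.cell Q j k, K.ln s k) =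
      (K.cell Q j n, K.ln s n))).image (fun n => (K.cell Q (j + 1) n, K.ln s n)) ⊆
      ((E.filter (fun k => (K.cell Q j k, K.ln s k) =
      (K.cell Q j n, K.ln s n))).image (fun k => K.cell Q (j + 1) k)).image
        (fun c => (c, K.ln s n)) := by
      intro z hz
      rw [mem_image] at hz
      obtain ⟨k, hk, rfl⟩ := hz
      rw [mem_image]
      refine ⟨K.cell Q (j + 1) k, mem_image_of_mem _ hk, ?_⟩
      rw [mem_filter, Prod.mk.injEq] at hk
      rw [hk.2.2]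
    exact (card_le_card h8).trans card_image_le
  obtain ⟨a, ha, b, hb, hab⟩ := three _ h7
  rw [mem_image] at ha hb
  obtain ⟨k1, hk1, rfl⟩ := ha
  obtain ⟨k2, hk2, rfl⟩ := hb
  rw [mem_filter, Prod.mk.injEq] at hk1 hk2
  have e1 : K.cell Q (j + 1) k1 = Q * K.cell Q j n + K.cell Q (j + 1) k1 % Q := by
    rw [← hk1.2.1, cell_div K Q j k1 hQ1]
    exact (Nat.div_add_mod _ _).symm
  have e2 : K.cell Q (j + 1) k2 = Q * K.cell Q j n + K.cell Q (j + 1) k2 % Q := by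
    rw [← hk2.2.1, cell_div K Q j k2 hQ1]
    exact (Nat.div_add_mod _ _).symm
  refine ⟨(K.cell Q (j + 1) k1 % Q, K.cell Q (j + 1) k2 % Q), Nat.mod_lt _ (by omega),
    Nat.mod_lt _ (by omega), ?_, ⟨k1, hk1.1, hk1.2.1, hk1.2.2, e1⟩,
    ⟨k2, hk2.1, hk2.2.1, hk2.2.2, e2⟩⟩
  show K.cell Q (j + 1) k1 % Q + 2 ≤ K.cell Q (j + 1) k2 % Q
  omega

theorem times (K : KSys ι) (Q i e : ℕ) (hQ : 1 ≤ Q) (h0 : 0 ≤ K.t e) :
    (K.cell Q i e : ℝ) / (Q : ℝ) ^ i ≤ K.t e ∧
      K.t e < ((K.cell Q i e : ℝ) + 1) / (Q : ℝ) ^ i := by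
  have hQ' : (0 : ℝ) < Q := by exact_mod_cast hQ
  have hP : 0 < (Q : ℝ) ^ i := by positivity
  unfold KSys.cell
  constructor
  · rw [div_le_iff₀ hP]
    exact Nat.floor_le (by positivity)
  · rw [lt_div_iff₀ hP]
    exact Nat.lt_floor_add_one _

theorem idxs (hIdx : StIdx) (K : KSys ι) (Q J : ℕ) (E : Finset ℕ) (Λ : ℝ) (D : Bool → ℕ → ℝ)
    (hQ : 1 ≤ Q) (hR : Reg K Q J E Λ D) (j : ℕ) (n : ℕ) (hn : n ∈ E) :
    K.ci Q j (K.cell Q j n) ≤ n ∧ n < K.ci Q j (K.cell Q j n + 1) ∧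
      K.Valid (K.ci Q j (K.cell Q j n)) ((K.cell Q j n : ℝ) / (Q : ℝ) ^ j) ∧
      K.Valid (K.ci Q j (K.cell Q j n + 1)) (((K.cell Q j n : ℝ) + 1) / (Q : ℝ) ^ j) := by
  obtain ⟨hV, hlt, -, -⟩ := hIdx ι K
  obtain ⟨hN, ht0, -⟩ := hR.sub n hn
  obtain ⟨t1, t2⟩ := times K Q j n hQ ht0
  have e : (((K.cell Q j n + 1 : ℕ) : ℝ)) = (K.cell Q j n : ℝ) + 1 := by push_cast; ring
  refine ⟨?_, ?_, hV _, ?_⟩
  · by_contra hc
    push Not at hc
    have := (hlt n _).1 hc
    linarith [this.2]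
  · refine (hlt n _).2 ⟨hN, ?_⟩
    rw [e]
    exact t2
  · have := hV (((K.cell Q j n + 1 : ℕ) : ℝ) / (Q : ℝ) ^ j)
    rw [e] at this
    unfold KSys.ci
    rw [e]
    exact this

theorem sandE (hSand : StSand) (hIdx : StIdx) (K : KSys ι) (Q J : ℕ) (E : Finset ℕ) (Λ : ℝ)
    (D : Bool → ℕ → ℝ) (hQ : 1 ≤ Q) (hR : Reg K Q J E Λ D) (j : ℕ) (hj : j ≤ J) (n : ℕ)
    (hn : n ∈ E) (c : Bool) (r : ℝ) (h0 : (K.cell Q j n : ℝ) / (Q : ℝ) ^ j ≤ r)
    (h1 : r ≤ ((K.cell Q j n : ℝ) + 1) / (Q : ℝ) ^ j) :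
    K.ht (K.ln c n) r ≤ K.L r + 2 * D false j / (Q : ℝ) ^ j ∧
      K.L r ≤ K.ht (K.ln c n) r + 2 * D true j / (Q : ℝ) ^ j := by
  have hQ' : (0 : ℝ) < Q := by exact_mod_cast hQ
  have hP : 0 < (Q : ℝ) ^ j := by positivity
  obtain ⟨hp, hq, v1, v2⟩ := idxs hIdx K Q J E Λ D hQ hR j n hn
  obtain ⟨s1, s2⟩ := hSand ι K n _ _ _ _ r c (hR.sub n hn).1 v1 v2 hp hq h0 h1
  have e : ((K.cell Q j n : ℝ) + 1) / (Q : ℝ) ^ j - (K.cell Q j n : ℝ) / (Q : ℝ) ^ j =
      1 / (Q : ℝ) ^ j := by ring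
  rw [e] at s1 s2
  have d1 : |K.x (K.pos (K.ci Q j (K.cell Q j n)) (K.tokB n)) -
      K.x (K.pos (K.ci Q j (K.cell Q j n + 1)) (K.tokB n))| < 2 * D false j :=
    hR.dhi false j hj n hn
  have d2 : |K.x (K.pos (K.ci Q j (K.cell Q j n)) (K.tokT n)) -
      K.x (K.pos (K.ci Q j (K.cell Q j n + 1)) (K.tokT n))| < 2 * D true j :=
    hR.dhi true j hj n hn
  have hi : 0 < 1 / (Q : ℝ) ^ j := by positivity
  have m1 := mul_le_mul_of_nonneg_left d1.le hi.le
  have m2 := mul_le_mul_of_nonneg_left d2.le hi.le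
  have f1 : 1 / (Q : ℝ) ^ j * (2 * D false j) = 2 * D false j / (Q : ℝ) ^ j := by ring
  have f2 : 1 / (Q : ℝ) ^ j * (2 * D true j) = 2 * D true j / (Q : ℝ) ^ j := by ring
  rw [f1] at m1
  rw [f2] at m2
  constructor
  · linarith
  · linarith

theorem jumpE (hJump : StJump) (hIdx : StIdx) (K : KSys ι) (Q J : ℕ) (E : Finset ℕ) (Λ : ℝ)
    (D : Bool → ℕ → ℝ) (hQ : 1 ≤ Q) (hR : Reg K Q J E Λ D) (j : ℕ) (hj : j ≤ J) (n : ℕ)
    (hn : n ∈ E) : K.x (K.a n) - K.x (K.b n) ≤ 2 * min (D false j) (D true j) := by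
  obtain ⟨hp, hq, v1, v2⟩ := idxs hIdx K Q J E Λ D hQ hR j n hn
  obtain ⟨j1, j2⟩ := hJump ι K n _ _ (hR.sub n hn).1 hp hq v2.1
  have d1 : |K.x (K.pos (K.ci Q j (K.cell Q j n)) (K.tokB n)) -
      K.x (K.pos (K.ci Q j (K.cell Q j n + 1)) (K.tokB n))| < 2 * D false j :=
    hR.dhi false j hj n hn
  have d2 : |K.x (K.pos (K.ci Q j (K.cell Q j n)) (K.tokT n)) -
      K.x (K.pos (K.ci Q j (K.cell Q j n + 1)) (K.tokT n))| < 2 * D true j :=
    hR.dhi true j hj n hn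
  rcases min_choice (D false j) (D true j) with h | h
  · rw [h]; linarith
  · rw [h]; linarith

theorem leqc (hLeq : StLeq) (K : KSys ι) (n : ℕ) (hn : n < K.N) (c : Bool) :
    K.ht (K.ln c n) (K.t n) = K.L (K.t n) := by
  obtain ⟨h1, h2, h3, -, -⟩ := hLeq ι K n hn
  cases c
  · show K.ht (K.a n) (K.t n) = _
    rw [h1, h2]
  · show K.ht (K.b n) (K.t n) = _
    rw [h1, h3]

theorem meetE (hLeq : StLeq) (K : KSys ι) (n : ℕ) (hn : n < K.N) (c c' : Bool) (r ρ : ℝ)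
    (hr : |r - K.t n| ≤ ρ) :
    |K.ht (K.ln c n) r - K.ht (K.ln c' n) r| ≤ (K.x (K.a n) - K.x (K.b n)) * ρ := by
  have hx := K.x_lt n hn
  have hx0 : 0 < K.x (K.a n) - K.x (K.b n) := by linarith
  have hρ : 0 ≤ ρ := (abs_nonneg _).trans hr
  obtain ⟨h1, h2, h3, -, -⟩ := hLeq ι K n hn
  have e : K.ht (K.a n) r - K.ht (K.b n) r = (K.x (K.a n) - K.x (K.b n)) * (r - K.t n) := by
    unfold KSys.ht at h2 h3 ⊢
    linarith
  have e1 : |K.ht (K.a n) r - K.ht (K.b n) r| ≤ (K.x (K.a n) - K.x (K.b n)) * ρ := by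
    rw [e, abs_mul, abs_of_pos hx0]
    exact mul_le_mul_of_nonneg_left hr hx0.le
  have e0 : 0 ≤ (K.x (K.a n) - K.x (K.b n)) * ρ := by positivity
  cases c <;> cases c'
  · show |K.ht (K.a n) r - K.ht (K.a n) r| ≤ _
    rw [sub_self, abs_zero]; exact e0
  · exact e1
  · show |K.ht (K.b n) r - K.ht (K.a n) r| ≤ _
    rw [abs_sub_comm]; exact e1
  · show |K.ht (K.b n) r - K.ht (K.b n) r| ≤ _
    rw [sub_self, abs_zero]; exact e0

theorem dpos (K : KSys ι) (Q J : ℕ) (E : Finset ℕ) (Λ : ℝ) (D : Bool → ℕ → ℝ)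
    (hR : Reg K Q J E Λ D) (j : ℕ) (hj : j ≤ J) (p : Bool) : 0 < D p j := by
  obtain ⟨n, hn⟩ := hR.ne
  have h1 := hR.dhi p j hj n hn
  have h2 : 0 ≤ K.disp Q j (K.cell Q j n) (K.tok p n) := abs_nonneg _
  linarith

/-- The lines of kind `s` are close. -/
theorem close (hContact : StContact) (hSand : StSand) (hLeq : StLeq) (hIdx : StIdx) (K : KSys ι)
    (Q J : ℕ) (E : Finset ℕ) (Λ : ℝ) (D : Bool → ℕ → ℝ) (hQ : 1 ≤ Q) (hR : Reg K Q J E Λ D)
    (s : Bool) (j : ℕ) (hj : j ≤ J) (n n' k1 k2 k1' k2' : ℕ) (p : ℕ × ℕ) (hn : n ∈ E)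
    (hn' : n' ∈ E) (hc : K.cell Q j n = K.cell Q j n') (hp : p.1 + 2 ≤ p.2)
    (hk1 : k1 ∈ E) (hk2 : k2 ∈ E) (hk1' : k1' ∈ E) (hk2' : k2' ∈ E)
    (h1 : K.cell Q j k1 = K.cell Q j n ∧ K.ln s k1 = K.ln s n ∧
        K.cell Q (j + 1) k1 = Q * K.cell Q j n + p.1)
    (h2 : K.cell Q j k2 = K.cell Q j n ∧ K.ln s k2 = K.ln s n ∧
        K.cell Q (j + 1) k2 = Q * K.cell Q j n + p.2)
    (h1' : K.cell Q j k1' = K.cell Q j n' ∧ K.ln s k1' = K.ln s n' ∧
        K.cell Q (j + 1) k1' = Q * K.cell Q j n' + p.1)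
    (h2' : K.cell Q j k2' = K.cell Q j n' ∧ K.ln s k2' = K.ln s n' ∧
        K.cell Q (j + 1) k2' = Q * K.cell Q j n' + p.2)
    (r : ℝ) (hr0 : (K.cell Q j n : ℝ) / (Q : ℝ) ^ j ≤ r)
    (hr1 : r ≤ ((K.cell Q j n : ℝ) + 1) / (Q : ℝ) ^ j) :
    |K.ht (K.ln s n) r - K.ht (K.ln s n') r| ≤
      (2 + 4 * Q) * min (D false j) (D true j) / (Q : ℝ) ^ j := by
  have hQ' : (0 : ℝ) < Q := by exact_mod_cast hQ
  have hP : 0 < (Q : ℝ) ^ j := by positivity
  have hw : 0 < 1 / (Q : ℝ) ^ (j + 1) := by positivity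
  have hDf := dpos K Q J E Λ D hR j hj false
  have hDt := dpos K Q J E Λ D hR j hj true
  -- times of the contact edges
  have tt : ∀ k ∈ E, K.cell Q j k = K.cell Q j n → (K.cell Q j n : ℝ) / (Q : ℝ) ^ j ≤ K.t k ∧
      K.t k ≤ ((K.cell Q j n : ℝ) + 1) / (Q : ℝ) ^ j := by
    intro k hk hck
    have := times K Q j k hQ (hR.sub k hk).2.1
    rw [hck] at this
    exact ⟨this.1, this.2.le⟩
  obtain ⟨a1, a2⟩ := tt k1 hk1 h1.1
  obtain ⟨b1, b2⟩ := tt k2 hk2 h2.1
  obtain ⟨a1', a2'⟩ := tt k1' hk1' (h1'.1.trans hc.symm)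
  obtain ⟨b1', b2'⟩ := tt k2' hk2' (h2'.1.trans hc.symm)
  have gap : ∀ k ∈ E, ∀ k' ∈ E, K.cell Q (j + 1) k = Q * K.cell Q j n + p.1 →
      K.cell Q (j + 1) k' = Q * K.cell Q j n + p.2 →
      K.t k + 1 / (Q : ℝ) ^ (j + 1) ≤ K.t k' := by
    intro k hk k' hk' e1 e2
    have t1 := (times K Q (j + 1) k hQ (hR.sub k hk).2.1).2
    have t2 := (times K Q (j + 1) k' hQ (hR.sub k' hk').2.1).1
    have e3 : K.cell Q (j + 1) k + 2 ≤ K.cell Q (j + 1) k' := by omega
    have e4 : (K.cell Q (j + 1) k : ℝ) + 2 ≤ (K.cell Q (j + 1) k' : ℝ) := by exact_mod_cast e3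
    have hP1 : 0 < (Q : ℝ) ^ (j + 1) := by positivity
    have e5 : ((K.cell Q (j + 1) k : ℝ) + 1) / (Q : ℝ) ^ (j + 1) + 1 / (Q : ℝ) ^ (j + 1) ≤
        (K.cell Q (j + 1) k' : ℝ) / (Q : ℝ) ^ (j + 1) := by
      rw [← add_div]
      exact div_le_div_of_nonneg_right (by linarith) hP1.le
    linarith
  have g1 := gap k1 hk1 k2 hk2 h1.2.2 h2.2.2
  have g2 := gap k1 hk1 k2' hk2' h1.2.2 (by rw [hc]; exact h2'.2.2)
  have g3 := gap k1' hk1' k2 hk2 (by rw [hc]; exact h1'.2.2) h2.2.2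
  have g4 := gap k1' hk1' k2' hk2' (by rw [hc]; exact h1'.2.2) (by rw [hc]; exact h2'.2.2)
  have L1 : K.ht (K.ln s n) (K.t k1) = K.L (K.t k1) := by
    rw [← h1.2.1]; exact leqc hLeq K k1 (hR.sub k1 hk1).1 s
  have L2 : K.ht (K.ln s n) (K.t k2) = K.L (K.t k2) := by
    rw [← h2.2.1]; exact leqc hLeq K k2 (hR.sub k2 hk2).1 s
  have L1' : K.ht (K.ln s n') (K.t k1') = K.L (K.t k1') := by
    rw [← h1'.2.1]; exact leqc hLeq K k1' (hR.sub k1' hk1').1 s
  have L2' : K.ht (K.ln s n') (K.t k2') = K.L (K.t k2') := by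
    rw [← h2'.2.1]; exact leqc hLeq K k2' (hR.sub k2' hk2').1 s
  have S1 := fun r h0 h1 => sandE hSand hIdx K Q J E Λ D hQ hR j hj n hn s r h0 h1
  have S2 := fun r h0 h1 => sandE hSand hIdx K Q J E Λ D hQ hR j hj n' hn' s r h0 h1
  rw [← hc] at S2
  have e6 : ((K.cell Q j n : ℝ) + 1) / (Q : ℝ) ^ j - (K.cell Q j n : ℝ) / (Q : ℝ) ^ j =
      1 / (Q : ℝ) ^ j := by ring
  have key : ∀ d : ℝ, 2 * d / (Q : ℝ) ^ j + 2 * (2 * d / (Q : ℝ) ^ j) *
      (((K.cell Q j n : ℝ) + 1) / (Q : ℝ) ^ j - (K.cell Q j n : ℝ) / (Q : ℝ) ^ j) /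
        (1 / (Q : ℝ) ^ (j + 1)) = (2 + 4 * Q) * d / (Q : ℝ) ^ j := by
    intro d
    rw [e6, pow_succ]
    field_simp
    ring
  have C1 : |K.ht (K.ln s n) r - K.ht (K.ln s n') r| ≤
      (2 + 4 * Q) * D false j / (Q : ℝ) ^ j := by
    have := hContact (K.y (K.ln s n)) (K.x (K.ln s n)) (K.y (K.ln s n')) (K.x (K.ln s n'))
      (2 * D false j / (Q : ℝ) ^ j) (1 / (Q : ℝ) ^ (j + 1))
      ((K.cell Q j n : ℝ) / (Q : ℝ) ^ j) (((K.cell Q j n : ℝ) + 1) / (Q : ℝ) ^ j)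
      (K.t k1) (K.t k1') (K.t k2) (K.t k2') K.L (by positivity) hw
      (fun r h0 h1 => (S1 r h0 h1).1) (fun r h0 h1 => (S2 r h0 h1).1)
      a1 a2 a1' a2' b1 b2 b1' b2' g1 g2 g3 g4 L1.ge L2.ge L1'.ge L2'.ge r hr0 hr1
    rw [key] at this
    exact this
  have C2 : |K.ht (K.ln s n) r - K.ht (K.ln s n') r| ≤
      (2 + 4 * Q) * D true j / (Q : ℝ) ^ j := by
    have := hContact (-K.y (K.ln s n)) (-K.x (K.ln s n)) (-K.y (K.ln s n'))
      (-K.x (K.ln s n'))
      (2 * D true j / (Q : ℝ) ^ j) (1 / (Q : ℝ) ^ (j + 1))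
      ((K.cell Q j n : ℝ) / (Q : ℝ) ^ j) (((K.cell Q j n : ℝ) + 1) / (Q : ℝ) ^ j)
      (K.t k1) (K.t k1') (K.t k2) (K.t k2') (fun r => - K.L r) (by positivity) hw
      (fun r h0 h1 => by
        have := (S1 r h0 h1).2
        unfold KSys.ht at this
        show -K.y (K.ln s n) + -K.x (K.ln s n) * r ≤ - K.L r + _
        linarith) (fun r h0 h1 => by
        have := (S2 r h0 h1).2
        unfold KSys.ht at this
        show -K.y (K.ln s n') + -K.x (K.ln s n') * r ≤ - K.L r + _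
        linarith)
      a1 a2 a1' a2' b1 b2 b1' b2' g1 g2 g3 g4
      (by unfold KSys.ht at L1; show - K.L (K.t k1) ≤ _; linarith)
      (by unfold KSys.ht at L2; show - K.L (K.t k2) ≤ _; linarith)
      (by unfold KSys.ht at L1'; show - K.L (K.t k1') ≤ _; linarith)
      (by unfold KSys.ht at L2'; show - K.L (K.t k2') ≤ _; linarith) r hr0 hr1
    rw [key] at this
    have e7 : (-K.y (K.ln s n) + -K.x (K.ln s n) * r) - (-K.y (K.ln s n') +
        -K.x (K.ln s n') * r) = -(K.ht (K.ln s n) r - K.ht (K.ln s n') r) := by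
      unfold KSys.ht
      ring
    rw [e7, abs_neg] at this
    exact this
  rcases min_choice (D false j) (D true j) with h | h
  · rw [h]; exact C1
  · rw [h]; exact C2

end XBRL

theorem I_BRL (hContact : StContact) (hPop : StPop) (hCnt : StCnt) (hSand : StSand)
    (hJump : StJump) (hLeq : StLeq) (hIdx : StIdx) (hInc : StInc) : StBrL := by
  intro ι _ _ K Q J E Λ D hQ hR s j hj h3
  have hQ1 : 1 ≤ Q := by omega
  have hj' : j ≤ J := by omega
  have hQ' : (0 : ℝ) < Q := by exact_mod_cast hQ1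
  have hQ2 : (2 : ℝ) ≤ Q := by exact_mod_cast hQ
  have hP : 0 < (Q : ℝ) ^ j := by positivity
  have hex : ∀ n, ∃ p : ℕ × ℕ, n ∈ E → p.1 < Q ∧ p.2 < Q ∧ p.1 + 2 ≤ p.2 ∧
      (∃ k ∈ E, K.cell Q j k = K.cell Q j n ∧ K.ln s k = K.ln s n ∧
        K.cell Q (j + 1) k = Q * K.cell Q j n + p.1) ∧
      (∃ k ∈ E, K.cell Q j k = K.cell Q j n ∧ K.ln s k = K.ln s n ∧
        K.cell Q (j + 1) k = Q * K.cell Q j n + p.2) := by
    intro n
    by_cases hn : n ∈ E
    · obtain ⟨p, hp⟩ := XBRL.pairs hCnt K Q J E Λ D hQ hR s j hj h3 n hn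
      exact ⟨p, fun _ => hp⟩
    · exact ⟨(0, 0), fun h => absurd h hn⟩
  choose g hg using hex
  obtain ⟨E2, hE2, hcard, hpop⟩ := hPop Q E (fun n => K.cell Q j n) g hQ1
    (fun n hn => ⟨(hg n hn).1, (hg n hn).2.1⟩)
  refine ⟨E2, hE2, hcard, fun c n hn n' hn' hc => ?_⟩
  have hnE := hE2 hn
  have hnE' := hE2 hn'
  have hgg := hpop n hn n' hn' hc
  obtain ⟨-, -, hp, ⟨k1, hk1, h1⟩, ⟨k2, hk2, h2⟩⟩ := hg n hnE
  obtain ⟨-, -, -, ⟨k1', hk1', h1'⟩, ⟨k2', hk2', h2'⟩⟩ := hg n' hnE'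
  rw [← hgg] at h1' h2'
  have hDf := XBRL.dpos K Q J E Λ D hR j hj' false
  have hDt := XBRL.dpos K Q J E Λ D hR j hj' true
  have hm : 0 < min (D false j) (D true j) := lt_min hDf hDt
  have main : ∀ r, (K.cell Q j n : ℝ) / (Q : ℝ) ^ j ≤ r →
      r ≤ ((K.cell Q j n : ℝ) + 1) / (Q : ℝ) ^ j →
      |K.ht (K.ln c n) r - K.ht (K.ln c n') r| ≤
        8 * Q * min (D false j) (D true j) / (Q : ℝ) ^ j := by
    intro r hr0 hr1
    have C := XBRL.close hContact hSand hLeq hIdx K Q J E Λ D hQ1 hR s j hj' n n' k1 k2 k1' k2'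
      (g n) hnE hnE' hc hp hk1 hk2 hk1' hk2' h1 h2 h1' h2' r hr0 hr1
    have near : ∀ e ∈ E, K.cell Q j e = K.cell Q j n → |r - K.t e| ≤ 1 / (Q : ℝ) ^ j := by
      intro e he hce
      have tt := XBRL.times K Q j e hQ1 (hR.sub e he).2.1
      rw [hce] at tt
      have e6 : ((K.cell Q j n : ℝ) + 1) / (Q : ℝ) ^ j - (K.cell Q j n : ℝ) / (Q : ℝ) ^ j =
        1 / (Q : ℝ) ^ j := by ring
      rw [abs_le]
      constructor <;> linarith [tt.1, tt.2]
    have M : ∀ e ∈ E, K.cell Q j e = K.cell Q j n → ∀ c1 c2 : Bool,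
        |K.ht (K.ln c1 e) r - K.ht (K.ln c2 e) r| ≤
          2 * min (D false j) (D true j) / (Q : ℝ) ^ j := by
      intro e he hce c1 c2
      have m1 := XBRL.meetE hLeq K e (hR.sub e he).1 c1 c2 r _ (near e he hce)
      have m2 := XBRL.jumpE hJump hIdx K Q J E Λ D hQ1 hR j hj' e he
      have hi : 0 < 1 / (Q : ℝ) ^ j := by positivity
      have m3 := mul_le_mul_of_nonneg_right m2 hi.le
      have e7 : 2 * min (D false j) (D true j) * (1 / (Q : ℝ) ^ j) =
        2 * min (D false j) (D true j) / (Q : ℝ) ^ j := by ring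
      linarith
    have M1 := M n hnE rfl c s
    have M2 := M n' hnE' hc.symm s c
    have tri : |K.ht (K.ln c n) r - K.ht (K.ln c n') r| ≤
        |K.ht (K.ln c n) r - K.ht (K.ln s n) r| + |K.ht (K.ln s n) r - K.ht (K.ln s n') r| +
          |K.ht (K.ln s n') r - K.ht (K.ln c n') r| := by
      have := abs_add_three (K.ht (K.ln c n) r - K.ht (K.ln s n) r)
        (K.ht (K.ln s n) r - K.ht (K.ln s n') r) (K.ht (K.ln s n') r - K.ht (K.ln c n') r)
      have e8 : K.ht (K.ln c n) r - K.ht (K.ln c n') r =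
        (K.ht (K.ln c n) r - K.ht (K.ln s n) r) + (K.ht (K.ln s n) r - K.ht (K.ln s n') r) +
          (K.ht (K.ln s n') r - K.ht (K.ln c n') r) := by ring
      rw [e8]
      exact this
    have sum : 2 * min (D false j) (D true j) / (Q : ℝ) ^ j +
        (2 + 4 * Q) * min (D false j) (D true j) / (Q : ℝ) ^ j +
        2 * min (D false j) (D true j) / (Q : ℝ) ^ j ≤
        8 * Q * min (D false j) (D true j) / (Q : ℝ) ^ j := by
      rw [← add_div, ← add_div]
      apply div_le_div_of_nonneg_right _ hP.le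
      nlinarith
    linarith
  have e6 : (K.cell Q j n : ℝ) / (Q : ℝ) ^ j ≤ ((K.cell Q j n : ℝ) + 1) / (Q : ℝ) ^ j :=
    div_le_div_of_nonneg_right (by linarith) hP.le
  exact ⟨main _ le_rfl e6, main _ e6 le_rfl⟩

end Pool.Agent.Work.MP_e17eac_co.DH

end

section

namespace Pool.Agent.Work.MP_e17eac_co.DH

open Finset

namespace XBRS

variable {ι : Type} [Fintype ι] [DecidableEq ι]

theorem cell_div (K : KSys ι) (Q j n : ℕ) (hQ : 1 ≤ Q) :
    K.cell Q (j + 1) n / Q = K.cell Q j n := by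
  unfold KSys.cell
  rw [← Nat.floor_div_natCast]
  congr 1
  have hQ0 : (Q : ℝ) ≠ 0 := by
    have : (0 : ℝ) < Q := by exact_mod_cast hQ
    exact this.ne'
  rw [pow_succ]
  field_simp

theorem cell_bounds (K : KSys ι) (Q j n : ℕ) (hQ : 1 ≤ Q) (h0 : 0 ≤ K.t n) :
    (K.cell Q j n : ℝ) / (Q : ℝ) ^ j ≤ K.t n ∧
      K.t n < ((K.cell Q j n : ℝ) + 1) / (Q : ℝ) ^ j := by
  have hQ0 : (0 : ℝ) < Q := by exact_mod_cast hQ
  have hp : (0 : ℝ) < (Q : ℝ) ^ j := by positivity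
  constructor
  · rw [div_le_iff₀ hp]
    exact Nat.floor_le (by positivity)
  · rw [lt_div_iff₀ hp]
    exact Nat.lt_floor_add_one _

/-- A finite set of at least three numbers contains two at distance at least two. -/
theorem exists_far (C : Finset ℕ) (hC : 3 ≤ C.card) : ∃ a ∈ C, ∃ b ∈ C, a + 2 ≤ b := by
  have hne : C.Nonempty := Finset.card_pos.mp (by omega)
  refine ⟨C.min' hne, C.min'_mem hne, C.max' hne, C.max'_mem hne, ?_⟩
  have hsub : C ⊆ Finset.Icc (C.min' hne) (C.max' hne) := fun c hc =>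
    Finset.mem_Icc.mpr ⟨C.min'_le c hc, C.le_max' c hc⟩
  have hcard := Finset.card_le_card hsub
  rw [Nat.card_Icc] at hcard
  omega

/-- Two lines with contacts in the same children stay close. -/
theorem flat (hContact : StContact) (hStart : StStart) (hIdx : StIdx)
    (K : KSys ι) (Q j k c1 c2 : ℕ) (th : ℝ) (hQ : 1 ≤ Q) (hth : 0 ≤ th) (l l' : ι)
    (r1 r2 r1' r2' : ℝ) (hc : c1 + 2 ≤ c2)
    (b1 : r1 < ((c1 : ℝ) + 1) / (Q : ℝ) ^ (j + 1)) (b1' : r1' < ((c1 : ℝ) + 1) / (Q : ℝ) ^ (j + 1))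
    (b2 : (c2 : ℝ) / (Q : ℝ) ^ (j + 1) ≤ r2) (b2' : (c2 : ℝ) / (Q : ℝ) ^ (j + 1) ≤ r2')
    (i1 : (k : ℝ) / (Q : ℝ) ^ j ≤ r1) (i1' : (k : ℝ) / (Q : ℝ) ^ j ≤ r1')
    (i2 : r2 ≤ ((k : ℝ) + 1) / (Q : ℝ) ^ j) (i2' : r2' ≤ ((k : ℝ) + 1) / (Q : ℝ) ^ j)
    (e1 : K.L r1 = K.ht l r1) (e2 : K.L r2 = K.ht l r2)
    (e1' : K.L r1' = K.ht l' r1') (e2' : K.L r2' = K.ht l' r2')
    (d : |K.x l - K.x (K.pos (K.ci Q j (k + 1)) ((K.pos (K.ci Q j k)).symm l))| ≤ th)
    (d' : |K.x l' - K.x (K.pos (K.ci Q j (k + 1)) ((K.pos (K.ci Q j k)).symm l'))| ≤ th)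
    (hty : l ∈ K.S (K.ci Q j k) ↔ l' ∈ K.S (K.ci Q j k)) :
    K.FlatP Q j k (3 * Q * th) l l' := by
  obtain ⟨hV, -, hmono, -⟩ := hIdx ι K
  have hQ0 : (0 : ℝ) < Q := by exact_mod_cast hQ
  have hQ1 : (1 : ℝ) ≤ Q := by exact_mod_cast hQ
  have hp : (0 : ℝ) < (Q : ℝ) ^ j := by positivity
  have hp1 : (0 : ℝ) < (Q : ℝ) ^ (j + 1) := by positivity
  set s0 : ℝ := (k : ℝ) / (Q : ℝ) ^ j with hs0
  set s1 : ℝ := ((k : ℝ) + 1) / (Q : ℝ) ^ j with hs1
  have hle : s0 ≤ s1 := by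
    rw [hs0, hs1]
    exact div_le_div_of_nonneg_right (by linarith) hp.le
  have hV0 : K.Valid (K.ci Q j k) s0 := hV s0
  have hV1 : K.Valid (K.ci Q j (k + 1)) s1 := by
    have h := hV (((k + 1 : ℕ) : ℝ) / (Q : ℝ) ^ j)
    have hcast : (((k + 1 : ℕ) : ℝ)) / (Q : ℝ) ^ j = s1 := by
      rw [hs1]; push_cast; rfl
    unfold KSys.ci
    rw [hcast] at h ⊢
    exact h
  have hpq : K.ci Q j k ≤ K.ci Q j (k + 1) := by
    unfold KSys.ci
    apply hmono
    push_cast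
    exact hle
  have hdiff : s1 - s0 = 1 / (Q : ℝ) ^ j := by
    rw [hs0, hs1]; ring
  have hw : (0 : ℝ) < 1 / (Q : ℝ) ^ (j + 1) := by positivity
  have hgap : ((c1 : ℝ) + 1) / (Q : ℝ) ^ (j + 1) + 1 / (Q : ℝ) ^ (j + 1) ≤
      (c2 : ℝ) / (Q : ℝ) ^ (j + 1) := by
    rw [← add_div]
    apply div_le_div_of_nonneg_right _ hp1.le
    have : ((c1 : ℝ) + 2) ≤ c2 := by exact_mod_cast hc
    linarith
  have hc0 : 0 ≤ th / (Q : ℝ) ^ j := by positivity
  -- positions inside the cell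
  have A1 : r1 + 1 / (Q : ℝ) ^ (j + 1) ≤ r2 := by linarith
  have A2 : r1 + 1 / (Q : ℝ) ^ (j + 1) ≤ r2' := by linarith
  have A3 : r1' + 1 / (Q : ℝ) ^ (j + 1) ≤ r2 := by linarith
  have A4 : r1' + 1 / (Q : ℝ) ^ (j + 1) ≤ r2' := by linarith
  have u1 : r1 ≤ s1 := by linarith
  have u1' : r1' ≤ s1 := by linarith
  have u2 : s0 ≤ r2 := by linarith
  have u2' : s0 ≤ r2' := by linarith
  -- the key estimate
  have key : ∀ r, s0 ≤ r → r ≤ s1 →
      |K.ht l r - K.ht l' r| ≤ th / (Q : ℝ) ^ j + 2 * (th / (Q : ℝ) ^ j) * (s1 - s0) /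
        (1 / (Q : ℝ) ^ (j + 1)) := by
    by_cases hl : l ∈ K.S (K.ci Q j k)
    · have hl' := hty.mp hl
      have B : ∀ r, s0 ≤ r → r ≤ s1 → K.y l + K.x l * r ≤ K.L r + th / (Q : ℝ) ^ j := by
        intro r h0 h1
        have h := (hStart ι K _ _ s0 s1 r l hV0 hV1 hpq h0 h1).1 hl
        have h2 : (s1 - s0) *
            |K.x l - K.x (K.pos (K.ci Q j (k + 1)) ((K.pos (K.ci Q j k)).symm l))| ≤
            th / (Q : ℝ) ^ j := by
          rw [hdiff, one_div, div_eq_inv_mul]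
          exact mul_le_mul_of_nonneg_left d (by positivity)
        have h3 : K.ht l r = K.y l + K.x l * r := rfl
        rw [← h3]
        linarith
      have B' : ∀ r, s0 ≤ r → r ≤ s1 → K.y l' + K.x l' * r ≤ K.L r + th / (Q : ℝ) ^ j := by
        intro r h0 h1
        have h := (hStart ι K _ _ s0 s1 r l' hV0 hV1 hpq h0 h1).1 hl'
        have h2 : (s1 - s0) *
            |K.x l' - K.x (K.pos (K.ci Q j (k + 1)) ((K.pos (K.ci Q j k)).symm l'))| ≤
            th / (Q : ℝ) ^ j := by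
          rw [hdiff, one_div, div_eq_inv_mul]
          exact mul_le_mul_of_nonneg_left d' (by positivity)
        have h3 : K.ht l' r = K.y l' + K.x l' * r := rfl
        rw [← h3]
        linarith
      exact hContact (K.y l) (K.x l) (K.y l') (K.x l') (th / (Q : ℝ) ^ j)
        (1 / (Q : ℝ) ^ (j + 1)) s0 s1 r1 r1' r2 r2' K.L hc0 hw B B' i1 u1 i1' u1' u2 i2 u2' i2'
        A1 A2 A3 A4 e1.le e2.le e1'.le e2'.le
    · have hl' : l' ∉ K.S (K.ci Q j k) := fun h => hl (hty.mpr h)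
      have B : ∀ r, s0 ≤ r → r ≤ s1 →
          -K.y l + (-K.x l) * r ≤ (fun r => -K.L r) r + th / (Q : ℝ) ^ j := by
        intro r h0 h1
        have h := (hStart ι K _ _ s0 s1 r l hV0 hV1 hpq h0 h1).2 hl
        have h2 : (s1 - s0) *
            |K.x l - K.x (K.pos (K.ci Q j (k + 1)) ((K.pos (K.ci Q j k)).symm l))| ≤
            th / (Q : ℝ) ^ j := by
          rw [hdiff, one_div, div_eq_inv_mul]
          exact mul_le_mul_of_nonneg_left d (by positivity)
        have h3 : K.ht l r = K.y l + K.x l * r := rfl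
        rw [h3] at h
        show -K.y l + (-K.x l) * r ≤ -K.L r + th / (Q : ℝ) ^ j
        linarith
      have B' : ∀ r, s0 ≤ r → r ≤ s1 →
          -K.y l' + (-K.x l') * r ≤ (fun r => -K.L r) r + th / (Q : ℝ) ^ j := by
        intro r h0 h1
        have h := (hStart ι K _ _ s0 s1 r l' hV0 hV1 hpq h0 h1).2 hl'
        have h2 : (s1 - s0) *
            |K.x l' - K.x (K.pos (K.ci Q j (k + 1)) ((K.pos (K.ci Q j k)).symm l'))| ≤
            th / (Q : ℝ) ^ j := by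
          rw [hdiff, one_div, div_eq_inv_mul]
          exact mul_le_mul_of_nonneg_left d' (by positivity)
        have h3 : K.ht l' r = K.y l' + K.x l' * r := rfl
        rw [h3] at h
        show -K.y l' + (-K.x l') * r ≤ -K.L r + th / (Q : ℝ) ^ j
        linarith
      intro r h0 h1
      have hL : ∀ i s, K.L s = K.ht i s → (fun r => -K.L r) s ≤ -K.y i + (-K.x i) * s := by
        intro i s h
        show -K.L s ≤ -K.y i + (-K.x i) * s
        have h3 : K.ht i s = K.y i + K.x i * s := rfl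
        rw [h, h3]
        linarith
      have h := hContact (-K.y l) (-K.x l) (-K.y l') (-K.x l') (th / (Q : ℝ) ^ j)
        (1 / (Q : ℝ) ^ (j + 1)) s0 s1 r1 r1' r2 r2' (fun r => -K.L r) hc0 hw B B' i1 u1 i1' u1'
        u2 i2 u2' i2' A1 A2 A3 A4 (hL l r1 e1) (hL l r2 e2) (hL l' r1' e1') (hL l' r2' e2') r h0 h1
      have h4 : K.ht l r - K.ht l' r = -((-K.y l + (-K.x l) * r) - (-K.y l' + (-K.x l') * r)) := by
        have h3 : K.ht l r = K.y l + K.x l * r := rfl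
        have h3' : K.ht l' r = K.y l' + K.x l' * r := rfl
        rw [h3, h3']
        ring
      rw [h4, abs_neg]
      exact h
  have hfin : th / (Q : ℝ) ^ j + 2 * (th / (Q : ℝ) ^ j) * (s1 - s0) / (1 / (Q : ℝ) ^ (j + 1)) ≤
      (3 * Q * th) / (Q : ℝ) ^ j := by
    rw [hdiff]
    have h1 : th / (Q : ℝ) ^ j + 2 * (th / (Q : ℝ) ^ j) * (1 / (Q : ℝ) ^ j) /
        (1 / (Q : ℝ) ^ (j + 1)) = ((1 + 2 * Q) * th) / (Q : ℝ) ^ j := by
      rw [pow_succ]
      field_simp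
    rw [h1]
    apply div_le_div_of_nonneg_right _ hp.le
    apply mul_le_mul_of_nonneg_right _ hth
    linarith
  exact ⟨(key s0 le_rfl hle).trans hfin, (key s1 hle le_rfl).trans hfin⟩

/-- The displacement of the start token of a pair (cell, line). -/
noncomputable def dd (K : KSys ι) (Q j : ℕ) (z : ℕ × ι) : ℝ :=
  |K.x z.2 - K.x (K.pos (K.ci Q j (z.1 + 1)) ((K.pos (K.ci Q j z.1)).symm z.2))|

theorem sum_dd (hFlux : StFlux) (hIdx : StIdx) (K : KSys ι) (Q j : ℕ)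
    (F : Finset (ℕ × ι)) : ∑ z ∈ F, dd K Q j z ≤ Fintype.card ι := by
  classical
  obtain ⟨-, -, hmono, hN⟩ := hIdx ι K
  obtain ⟨R, hR⟩ := Finset.exists_nat_subset_range (F.image Prod.fst)
  have hsub : F ⊆ (range R) ×ˢ (Finset.univ : Finset ι) := by
    intro z hz
    rw [Finset.mem_product]
    exact ⟨hR (Finset.mem_image_of_mem _ hz), Finset.mem_univ _⟩
  have hmonoci : Monotone (fun k => K.ci Q j k) := by
    intro a b hab
    unfold KSys.ci
    apply hmono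
    apply div_le_div_of_nonneg_right _ (by positivity)
    exact_mod_cast hab
  calc ∑ z ∈ F, dd K Q j z ≤ ∑ z ∈ (range R) ×ˢ (Finset.univ : Finset ι), dd K Q j z :=
        Finset.sum_le_sum_of_subset_of_nonneg hsub (fun z _ _ => abs_nonneg _)
    _ = ∑ k ∈ range R, ∑ l : ι, dd K Q j (k, l) := Finset.sum_product _ _ _
    _ = ∑ k ∈ range R, ∑ τ : ι, |K.x (K.pos (K.ci Q j k) τ) - K.x (K.pos (K.ci Q j (k + 1)) τ)| := by
        apply Finset.sum_congr rfl
        intro k _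
        rw [← Equiv.sum_comp (K.pos (K.ci Q j k))]
        apply Finset.sum_congr rfl
        intro τ _
        unfold dd
        simp
    _ = ∑ τ : ι, ∑ k ∈ range R, |K.x (K.pos (K.ci Q j k) τ) - K.x (K.pos (K.ci Q j (k + 1)) τ)| :=
        Finset.sum_comm
    _ ≤ ∑ _τ : ι, (1 : ℝ) := by
        apply Finset.sum_le_sum
        intro τ _
        exact hFlux ι K (fun k => K.ci Q j k) hmonoci (fun i => hN _) τ R
    _ = Fintype.card ι := by simp

/-- Few edges have a start token with large displacement. -/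
theorem bad_card {α : Type} [DecidableEq α] (E : Finset ℕ) (f : ℕ → α) (Λ m : ℝ) (δ : α → ℝ)
    (hE : E.Nonempty) (hΛ : 1 ≤ Λ) (hm : 0 < m) (hreg : RegF Λ E f) (hδ : ∀ z, 0 ≤ δ z)
    (hsum : ∑ z ∈ E.image f, δ z ≤ 2 * m) :
    4 * (E.filter (fun n => 8 * Λ ^ 2 * m / (im E f : ℝ) < δ (f n))).card ≤ E.card := by
  classical
  set th : ℝ := 8 * Λ ^ 2 * m / (im E f : ℝ) with hth
  have hNpos : (0 : ℝ) < E.card := by exact_mod_cast Finset.card_pos.mpr hE
  have hPpos : (0 : ℝ) < (im E f : ℝ) := by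
    unfold im
    exact_mod_cast Finset.card_pos.mpr (hE.image f)
  have hΛ0 : 0 < Λ := by linarith
  have hthpos : 0 < th := by positivity
  set B := (E.image f).filter (fun z => th < δ z) with hB
  -- Markov
  have hMar : (B.card : ℝ) * th ≤ 2 * m := by
    calc (B.card : ℝ) * th = ∑ _z ∈ B, th := by rw [Finset.sum_const, nsmul_eq_mul]
      _ ≤ ∑ z ∈ B, δ z := Finset.sum_le_sum (fun z hz => (Finset.mem_filter.mp hz).2.le)
      _ ≤ ∑ z ∈ E.image f, δ z :=
        Finset.sum_le_sum_of_subset_of_nonneg (Finset.filter_subset _ _) (fun z _ _ => hδ z)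
      _ ≤ 2 * m := hsum
  have hB4 : (B.card : ℝ) * (4 * Λ ^ 2) ≤ (im E f : ℝ) := by
    have h1 : (B.card : ℝ) * th = (B.card : ℝ) * (4 * Λ ^ 2) * (2 * m) / (im E f : ℝ) := by
      rw [hth]; ring
    rw [h1, div_le_iff₀ hPpos] at hMar
    have h2 : (B.card : ℝ) * (4 * Λ ^ 2) * (2 * m) ≤ (im E f : ℝ) * (2 * m) := by linarith
    exact le_of_mul_le_mul_right h2 (by linarith)
  -- fibres
  have hmaps : ∀ n ∈ E.filter (fun n => th < δ (f n)), f n ∈ B := by
    intro n hn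
    obtain ⟨h1, h2⟩ := Finset.mem_filter.mp hn
    exact Finset.mem_filter.mpr ⟨Finset.mem_image_of_mem f h1, h2⟩
  have hcard := Finset.card_eq_sum_card_fiberwise (f := f) (t := B)
    (s := E.filter (fun n => th < δ (f n))) (fun n hn => hmaps n hn)
  have hfib : ∀ z ∈ B, (((E.filter (fun n => th < δ (f n))).filter (fun n => f n = z)).card : ℝ) *
      (im E f : ℝ) ≤ Λ * E.card := by
    intro z hz
    obtain ⟨hz1, -⟩ := Finset.mem_filter.mp hz
    obtain ⟨n, hn, rfl⟩ := Finset.mem_image.mp hz1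
    have h := (hreg n hn).2
    refine le_trans (mul_le_mul_of_nonneg_right ?_ hPpos.le) h
    have hsub : (E.filter (fun n => th < δ (f n))).filter (fun k => f k = f n) ⊆
        E.filter (fun k => f k = f n) :=
      Finset.filter_subset_filter _ (Finset.filter_subset _ _)
    exact_mod_cast Finset.card_le_card hsub
  have hbadP : ((E.filter (fun n => th < δ (f n))).card : ℝ) * (im E f : ℝ) ≤
      B.card * (Λ * E.card) := by
    rw [hcard]
    push_cast
    rw [Finset.sum_mul]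
    calc ∑ z ∈ B, (((E.filter (fun n => th < δ (f n))).filter (fun n => f n = z)).card : ℝ) *
        (im E f : ℝ) ≤ ∑ _z ∈ B, Λ * (E.card : ℝ) := Finset.sum_le_sum hfib
      _ = B.card * (Λ * E.card) := by rw [Finset.sum_const, nsmul_eq_mul]
  set b : ℝ := ((E.filter (fun n => th < δ (f n))).card : ℝ) with hb
  have hb0 : 0 ≤ b := by positivity
  have h3 : b * (im E f : ℝ) * (4 * Λ ^ 2) ≤ (im E f : ℝ) * (Λ * E.card) := by
    calc b * (im E f : ℝ) * (4 * Λ ^ 2) ≤ (B.card * (Λ * E.card)) * (4 * Λ ^ 2) :=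
          mul_le_mul_of_nonneg_right hbadP (by positivity)
      _ = (B.card * (4 * Λ ^ 2)) * (Λ * E.card) := by ring
      _ ≤ (im E f : ℝ) * (Λ * E.card) := mul_le_mul_of_nonneg_right hB4 (by positivity)
  have h4 : 4 * b * Λ ≤ E.card := by
    have h5 : ((im E f : ℝ) * Λ) * (4 * b * Λ) ≤ ((im E f : ℝ) * Λ) * E.card := by
      calc ((im E f : ℝ) * Λ) * (4 * b * Λ) = b * (im E f : ℝ) * (4 * Λ ^ 2) := by ring
        _ ≤ _ := h3
        _ = ((im E f : ℝ) * Λ) * E.card := by ring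
    exact le_of_mul_le_mul_left h5 (by positivity)
  have h6 : 4 * b ≤ E.card := by
    have : 4 * b * 1 ≤ 4 * b * Λ := mul_le_mul_of_nonneg_left hΛ (by positivity)
    linarith
  rw [hb] at h6
  exact_mod_cast h6

/-- Every (cell, line) pair has two visited children at distance at least two. -/
theorem children (hCnt : StCnt) (K : KSys ι) (Q J : ℕ) (E : Finset ℕ) (Λ : ℝ) (D : Bool → ℕ → ℝ)
    (hQ : 2 ≤ Q) (hR : Reg K Q J E Λ D) (s : Bool) (j : ℕ) (hj : j + 1 ≤ J)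
    (hbr : 3 * Λ ^ 2 * PL K Q E s j ≤ PL K Q E s (j + 1)) (n : ℕ) (hn : n ∈ E) :
    ∃ a b : ℕ, a ∈ E ∧ b ∈ E ∧ K.cell Q j a = K.cell Q j n ∧ K.ln s a = K.ln s n ∧
      K.cell Q j b = K.cell Q j n ∧ K.ln s b = K.ln s n ∧
      K.cell Q (j + 1) a + 2 ≤ K.cell Q (j + 1) b := by
  classical
  have hΛ := hR.one_le
  have hfine : ∀ n ∈ E, ∀ k ∈ E, (K.cell Q (j + 1) n, K.ln s n) = (K.cell Q (j + 1) k, K.ln s k) →
      (K.cell Q j n, K.ln s n) = (K.cell Q j k, K.ln s k) := by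
    intro n _ k _ h
    have h1 : K.cell Q (j + 1) n = K.cell Q (j + 1) k := congrArg Prod.fst h
    have h2 : K.ln s n = K.ln s k := congrArg Prod.snd h
    rw [← cell_div K Q j n (by omega), ← cell_div K Q j k (by omega), h1, h2]
  have h := (hCnt (ℕ × ι) (ℕ × ι) Λ E (fun n => (K.cell Q j n, K.ln s n))
    (fun n => (K.cell Q (j + 1) n, K.ln s n)) hΛ (hR.regL s j (by omega)) (hR.regL s (j + 1) hj)
    hfine n hn).1
  set Fb := E.filter (fun k => (K.cell Q j k, K.ln s k) = (K.cell Q j n, K.ln s n)) with hFb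
  have hPpos : (0 : ℝ) < (PL K Q E s j : ℝ) := by
    unfold PL im
    exact_mod_cast Finset.card_pos.mpr (hR.ne.image _)
  have hΛ0 : 0 < Λ := by linarith
  have h3 : (3 : ℝ) ≤ (im Fb (fun n => (K.cell Q (j + 1) n, K.ln s n)) : ℝ) := by
    have h4 : 3 * (Λ ^ 2 * (PL K Q E s j : ℝ)) ≤
        (im Fb (fun n => (K.cell Q (j + 1) n, K.ln s n)) : ℝ) * (Λ ^ 2 * (PL K Q E s j : ℝ)) := by
      have h5 : (PL K Q E s (j + 1) : ℝ) ≤
        Λ ^ 2 * (im Fb (fun n => (K.cell Q (j + 1) n, K.ln s n)) : ℝ) * (PL K Q E s j : ℝ) := h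
      linarith
    exact le_of_mul_le_mul_right h4 (by positivity)
  have h6 : 3 ≤ (Fb.image (fun n => (K.cell Q (j + 1) n, K.ln s n))).card := by
    unfold im at h3
    exact_mod_cast h3
  have h7 : Fb.image (fun n => (K.cell Q (j + 1) n, K.ln s n)) ⊆
      (Fb.image (fun n => K.cell Q (j + 1) n)).image (fun c => (c, K.ln s n)) := by
    intro z hz
    obtain ⟨k, hk, rfl⟩ := Finset.mem_image.mp hz
    have hk2 : K.ln s k = K.ln s n := congrArg Prod.snd (Finset.mem_filter.mp hk).2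
    rw [hk2]
    exact Finset.mem_image_of_mem (fun c => (c, K.ln s n)) (Finset.mem_image_of_mem _ hk)
  have h8 : 3 ≤ (Fb.image (fun n => K.cell Q (j + 1) n)).card :=
    le_trans h6 (le_trans (Finset.card_le_card h7) Finset.card_image_le)
  obtain ⟨a', ha', b', hb', hab⟩ := exists_far _ h8
  obtain ⟨a, ha, rfl⟩ := Finset.mem_image.mp ha'
  obtain ⟨b, hb, rfl⟩ := Finset.mem_image.mp hb'
  obtain ⟨haE, ha2⟩ := Finset.mem_filter.mp ha
  obtain ⟨hbE, hb2⟩ := Finset.mem_filter.mp hb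
  exact ⟨a, b, haE, hbE, congrArg Prod.fst ha2, congrArg Prod.snd ha2, congrArg Prod.fst hb2,
    congrArg Prod.snd hb2, hab⟩

theorem ln_contact (hLeq : StLeq) (K : KSys ι) (s : Bool) (n : ℕ) (hn : n < K.N) :
    K.L (K.t n) = K.ht (K.ln s n) (K.t n) := by
  obtain ⟨h1, h2, h3, -, -⟩ := hLeq ι K n hn
  cases s
  · rw [h1]; exact h2.symm
  · rw [h1]; exact h3.symm

end XBRS

theorem I_BRS (hContact : StContact) (hPop : StPop) (hCnt : StCnt) (hStart : StStart)
    (hFlux : StFlux) (hSep : StSep) (hLeq : StLeq) (hIdx : StIdx) (hInc : StInc)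
    (hPos : StPos) : StBrS := by
  classical
  intro ι _ _ K m Q J E Λ D hm hsep hQ hR s j hj hbr
  have hΛ := hR.one_le
  have hm0 : 0 < m := by linarith
  -- the children
  have hch : ∀ n, ∃ ab : ℕ × ℕ, n ∈ E → (ab.1 ∈ E ∧ ab.2 ∈ E ∧ K.cell Q j ab.1 = K.cell Q j n ∧
      K.ln s ab.1 = K.ln s n ∧ K.cell Q j ab.2 = K.cell Q j n ∧ K.ln s ab.2 = K.ln s n ∧
      K.cell Q (j + 1) ab.1 + 2 ≤ K.cell Q (j + 1) ab.2) := by
    intro n
    by_cases hn : n ∈ E
    · obtain ⟨a, b, h⟩ := XBRS.children hCnt K Q J E Λ D hQ hR s j hj hbr n hn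
      exact ⟨(a, b), fun _ => h⟩
    · exact ⟨(0, 0), fun h => absurd h hn⟩
  choose ab hab using hch
  -- the bad edges
  set f : ℕ → ℕ × ι := fun n => (K.cell Q j n, K.ln s n) with hf
  have hP : PL K Q E s j = im E f := rfl
  have hsum : ∑ z ∈ E.image f, XBRS.dd K Q j z ≤ 2 * m := by
    have h1 := XBRS.sum_dd hFlux hIdx K Q j (E.image f)
    have h2 := (hSep ι K m hm0 hsep).2
    linarith
  have hbad := XBRS.bad_card E f Λ m (XBRS.dd K Q j) hR.ne hΛ hm0 (hR.regL s j (by omega))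
    (fun z => abs_nonneg _) hsum
  set th : ℝ := 8 * Λ ^ 2 * m / (im E f : ℝ) with hth
  have hth0 : 0 ≤ th := by positivity
  set G := E.filter (fun n => ¬ th < XBRS.dd K Q j (f n)) with hG
  have hGcard : (E.filter (fun n => th < XBRS.dd K Q j (f n))).card + G.card = E.card :=
    Finset.card_filter_add_card_filter_not _
  -- the types
  have hE3 : ∃ E3 ⊆ G, E.card ≤ 4 * E3.card ∧ ∀ n ∈ E3, ∀ n' ∈ E3,
      (K.ln s n ∈ K.S (K.ci Q j (K.cell Q j n)) ↔ K.ln s n' ∈ K.S (K.ci Q j (K.cell Q j n'))) := by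
    have hsplit : (G.filter (fun n => K.ln s n ∈ K.S (K.ci Q j (K.cell Q j n)))).card +
        (G.filter (fun n => ¬ K.ln s n ∈ K.S (K.ci Q j (K.cell Q j n)))).card = G.card :=
      Finset.card_filter_add_card_filter_not _
    by_cases hbig : E.card ≤ 4 * (G.filter (fun n => K.ln s n ∈ K.S (K.ci Q j (K.cell Q j n)))).card
    · refine ⟨_, Finset.filter_subset _ _, hbig, ?_⟩
      intro n hn n' hn'
      exact ⟨fun _ => (Finset.mem_filter.mp hn').2, fun _ => (Finset.mem_filter.mp hn).2⟩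
    · refine ⟨G.filter (fun n => ¬ K.ln s n ∈ K.S (K.ci Q j (K.cell Q j n))),
        Finset.filter_subset _ _, ?_, ?_⟩
      · omega
      · intro n hn n' hn'
        exact ⟨fun h => absurd h (Finset.mem_filter.mp hn).2,
          fun h => absurd h (Finset.mem_filter.mp hn').2⟩
  obtain ⟨E3, hE3G, hE3card, hE3type⟩ := hE3
  have hE3E : E3 ⊆ E := hE3G.trans (Finset.filter_subset _ _)
  -- popular children
  obtain ⟨E2, hE2sub, hE2card, hE2⟩ := hPop Q E3 (fun n => K.cell Q j n)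
    (fun n => (K.cell Q (j + 1) (ab n).1 % Q, K.cell Q (j + 1) (ab n).2 % Q)) (by omega)
    (fun n _ => ⟨Nat.mod_lt _ (by omega), Nat.mod_lt _ (by omega)⟩)
  refine ⟨E2, hE2sub.trans hE3E, ?_, ?_⟩
  · calc E.card ≤ 4 * E3.card := hE3card
      _ ≤ 4 * (Q ^ 2 * E2.card) := Nat.mul_le_mul_left _ hE2card
      _ = 4 * Q ^ 2 * E2.card := by ring
  · intro n hn n' hn' hcell
    have hnE := hE3E (hE2sub hn)
    have hnE' := hE3E (hE2sub hn')
    obtain ⟨a1, a2, a3, a4, a5, a6, a7⟩ := hab n hnE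
    obtain ⟨b1, b2, b3, b4, b5, b6, b7⟩ := hab n' hnE'
    have hg := hE2 n hn n' hn' hcell
    have hg1 : K.cell Q (j + 1) (ab n).1 % Q = K.cell Q (j + 1) (ab n').1 % Q :=
      congrArg Prod.fst hg
    have hg2 : K.cell Q (j + 1) (ab n).2 % Q = K.cell Q (j + 1) (ab n').2 % Q :=
      congrArg Prod.snd hg
    have hc1 : K.cell Q (j + 1) (ab n').1 = K.cell Q (j + 1) (ab n).1 := by
      rw [← Nat.div_add_mod (K.cell Q (j + 1) (ab n').1) Q,
        ← Nat.div_add_mod (K.cell Q (j + 1) (ab n).1) Q,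
        XBRS.cell_div K Q j _ (by omega), XBRS.cell_div K Q j _ (by omega), hg1, a3, b3, hcell]
    have hc2 : K.cell Q (j + 1) (ab n').2 = K.cell Q (j + 1) (ab n).2 := by
      rw [← Nat.div_add_mod (K.cell Q (j + 1) (ab n').2) Q,
        ← Nat.div_add_mod (K.cell Q (j + 1) (ab n).2) Q,
        XBRS.cell_div K Q j _ (by omega), XBRS.cell_div K Q j _ (by omega), hg2, a5, b5, hcell]
    have hQ1 : 1 ≤ Q := by omega
    have fa1 := hR.sub _ a1
    have fa2 := hR.sub _ a2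
    have fb1 := hR.sub _ b1
    have fb2 := hR.sub _ b2
    have ca1 := XBRS.cell_bounds K Q (j + 1) _ hQ1 fa1.2.1
    have ca2 := XBRS.cell_bounds K Q (j + 1) _ hQ1 fa2.2.1
    have cb1 := XBRS.cell_bounds K Q (j + 1) _ hQ1 fb1.2.1
    have cb2 := XBRS.cell_bounds K Q (j + 1) _ hQ1 fb2.2.1
    have da1 := XBRS.cell_bounds K Q j _ hQ1 fa1.2.1
    have da2 := XBRS.cell_bounds K Q j _ hQ1 fa2.2.1
    have db1 := XBRS.cell_bounds K Q j _ hQ1 fb1.2.1
    have db2 := XBRS.cell_bounds K Q j _ hQ1 fb2.2.1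
    rw [a3] at da1
    rw [a5] at da2
    rw [b3, ← hcell] at db1
    rw [b5, ← hcell] at db2
    rw [hc1] at cb1
    rw [hc2] at cb2
    have hgood : ∀ n ∈ E2, XBRS.dd K Q j (f n) ≤ th := fun n hn =>
      not_lt.mp (Finset.mem_filter.mp (hE3G (hE2sub hn))).2
    have d := hgood n hn
    have d' := hgood n' hn'
    have hty := hE3type n (hE2sub hn) n' (hE2sub hn')
    have hfn' : f n' = (K.cell Q j n, K.ln s n') := by rw [hf, hcell]
    rw [hfn'] at d'
    rw [← hcell] at hty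
    have e1 := XBRS.ln_contact hLeq K s _ fa1.1
    have e2 := XBRS.ln_contact hLeq K s _ fa2.1
    have e1' := XBRS.ln_contact hLeq K s _ fb1.1
    have e2' := XBRS.ln_contact hLeq K s _ fb2.1
    rw [a4] at e1
    rw [a6] at e2
    rw [b4] at e1'
    rw [b6] at e2'
    have hfl := XBRS.flat hContact hStart hIdx K Q j (K.cell Q j n) (K.cell Q (j + 1) (ab n).1)
      (K.cell Q (j + 1) (ab n).2) th hQ1 hth0 (K.ln s n) (K.ln s n') _ _ _ _ a7
      ca1.2 cb1.2 ca2.1 cb2.1 da1.1 db1.1 da2.2.le db2.2.le e1 e2 e1' e2' d d' hty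
    have hΔ : 3 * (Q : ℝ) * th = 24 * Q * Λ ^ 2 * m / PL K Q E s j := by
      rw [hP, hth]; ring
    rw [hΔ] at hfl
    exact hfl

end Pool.Agent.Work.MP_e17eac_co.DH

end

section

/-!
# Slots: the bottom tokens of a cell visit many slopes
-/

set_option linter.unusedVariables false

namespace Pool.Agent.Work.MP_e17eac_co.DH

open Finset

namespace XSLOT

/-! ### Counting slots -/

theorem count_gap (A : Finset ℕ) (z : ℕ → ℝ) (d u w : ℝ) (hd : 0 < d) (hu : 0 ≤ u)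
    (h : ∀ a ∈ A, ∀ b ∈ A, ∀ c ∈ A, a < b → b < c → z c + d ≤ z a)
    (hz : ∀ a ∈ A, w ≤ z a ∧ z a ≤ w + u) : (A.card : ℝ) * d ≤ 2 * u + 2 * d := by
  rcases A.eq_empty_or_nonempty with rfl | hA
  · simp only [card_empty, Nat.cast_zero, zero_mul]
    linarith
  have hc : 0 < A.card := card_pos.2 hA
  set f := A.orderEmbOfFin rfl with hf
  have hmem : ∀ i : Fin A.card, f i ∈ A := fun i => A.orderEmbOfFin_mem rfl i
  have key : ∀ i : ℕ, ∀ hi : 2 * i < A.card, z (f ⟨2 * i, hi⟩) + i * d ≤ z (f ⟨0, hc⟩) := by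
    intro i
    induction i with
    | zero =>
      intro hi
      simp
    | succ k ih =>
      intro hi
      have h1 : 2 * k < A.card := by omega
      have h2 : 2 * k + 1 < A.card := by omega
      have h3 := ih h1
      have h4 := h (f ⟨2 * k, h1⟩) (hmem _) (f ⟨2 * k + 1, h2⟩) (hmem _)
        (f ⟨2 * (k + 1), hi⟩) (hmem _) (f.strictMono (by simp [Fin.lt_def]))
        (f.strictMono (by rw [Fin.lt_def]; simp only; omega))
      push_cast
      linarith
  have h1 : 2 * ((A.card - 1) / 2) < A.card := by omega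
  have h2 := key _ h1
  have h3 := (hz _ (hmem ⟨2 * ((A.card - 1) / 2), h1⟩)).1
  have h4 := (hz _ (hmem ⟨0, hc⟩)).2
  have h5 : (A.card : ℝ) ≤ 2 * (((A.card - 1) / 2 : ℕ) : ℝ) + 2 := by
    have : A.card ≤ 2 * ((A.card - 1) / 2) + 2 := by omega
    exact_mod_cast this
  have h6 : (((A.card - 1) / 2 : ℕ) : ℝ) * d ≤ u := by linarith
  calc (A.card : ℝ) * d ≤ (2 * (((A.card - 1) / 2 : ℕ) : ℝ) + 2) * d :=
        mul_le_mul_of_nonneg_right h5 hd.le
    _ = 2 * ((((A.card - 1) / 2 : ℕ) : ℝ) * d) + 2 * d := by ring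
    _ ≤ 2 * u + 2 * d := by linarith

theorem slots (A : Finset ℕ) (z : ℕ → ℝ) (d u : ℝ) (hd : 0 < d) (hu : d ≤ u)
    (h : ∀ a ∈ A, ∀ b ∈ A, ∀ c ∈ A, a < b → b < c → z c + d ≤ z a) :
    (A.card : ℝ) * d ≤ 4 * u * ((A.image (fun a => ⌊z a / u⌋)).card : ℝ) := by
  have hu0 : 0 < u := lt_of_lt_of_le hd hu
  have h1 : (A.card : ℝ) = ∑ b ∈ A.image (fun a => ⌊z a / u⌋),
      ((A.filter (fun a => ⌊z a / u⌋ = b)).card : ℝ) := by
    rw [card_eq_sum_card_image (fun a => ⌊z a / u⌋) A]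
    push_cast
    rfl
  rw [h1, sum_mul]
  have h2 : ∀ b ∈ A.image (fun a => ⌊z a / u⌋),
      ((A.filter (fun a => ⌊z a / u⌋ = b)).card : ℝ) * d ≤ 4 * u := by
    intro b _
    have h3 := count_gap (A.filter (fun a => ⌊z a / u⌋ = b)) z d u (b * u) hd hu0.le
      (fun a ha b hb c hc => h a (mem_filter.1 ha).1 b (mem_filter.1 hb).1 c (mem_filter.1 hc).1)
      (fun a ha => by
        have h4 := (mem_filter.1 ha).2
        rw [Int.floor_eq_iff, le_div_iff₀ hu0, div_lt_iff₀ hu0] at h4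
        constructor
        · exact h4.1
        · linarith [h4.2])
    linarith
  refine (sum_le_sum h2).trans ?_
  rw [sum_const, nsmul_eq_mul]
  linarith

theorem card_le_two (T : Finset ℤ) (h : ∀ a ∈ T, ∀ b ∈ T, a ≤ b + 1) : T.card ≤ 2 := by
  rcases T.eq_empty_or_nonempty with rfl | hT
  · simp
  have h1 : T ⊆ Icc (T.min' hT) (T.min' hT + 1) := by
    intro a ha
    rw [mem_Icc]
    exact ⟨T.min'_le a ha, h a ha _ (T.min'_mem hT)⟩
  have h2 := card_le_card h1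
  rw [Int.card_Icc] at h2
  omega

theorem floor_close (a b u : ℝ) (hu : 0 < u) (h : |a - b| ≤ u) : ⌊a / u⌋ ≤ ⌊b / u⌋ + 1 := by
  have h1 : a / u ≤ b / u + 1 := by
    rw [div_add_one hu.ne', div_le_div_iff_of_pos_right hu]
    have := (abs_le.1 h).2
    linarith
  calc ⌊a / u⌋ ≤ ⌊b / u + 1⌋ := Int.floor_le_floor h1
    _ = ⌊b / u⌋ + 1 := Int.floor_add_one _

/-! ### Double counting -/

theorem dc {α β : Type} (s : Finset α) (t : Finset β) (r : α → β → Prop)
    [∀ a b, Decidable (r a b)] (m n : ℝ)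
    (hm : ∀ a ∈ s, m ≤ ((t.filter (fun b => r a b)).card : ℝ))
    (hn : ∀ b ∈ t, ((s.filter (fun a => r a b)).card : ℝ) ≤ n) :
    (s.card : ℝ) * m ≤ t.card * n := by
  have h := card_nsmul_le_card_nsmul (s := s) (t := t) r hm hn
  rwa [nsmul_eq_mul, nsmul_eq_mul] at h

section abs

variable {ι : Type} [DecidableEq ι]

/-- The cells of the line `l`. -/
def Nl (E : Finset ℕ) (cl : ℕ → ℕ) (ln : ℕ → ι) (l : ι) : Finset ℕ :=
  (E.filter (fun n => ln n = l)).image cl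

/-- The lines of the cell `k`. -/
def Vk (E : Finset ℕ) (cl : ℕ → ℕ) (ln : ℕ → ι) (k : ℕ) : Finset ι :=
  (E.filter (fun n => cl n = k)).image ln

theorem mem_Nl {E : Finset ℕ} {cl : ℕ → ℕ} {ln : ℕ → ι} {l : ι} {k : ℕ} :
    k ∈ Nl E cl ln l ↔ ∃ n ∈ E, ln n = l ∧ cl n = k := by
  unfold Nl
  simp only [mem_image, mem_filter, and_assoc]

theorem mem_Vk {E : Finset ℕ} {cl : ℕ → ℕ} {ln : ℕ → ι} {l : ι} {k : ℕ} :
    l ∈ Vk E cl ln k ↔ ∃ n ∈ E, ln n = l ∧ cl n = k := by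
  unfold Vk
  simp only [mem_image, mem_filter, and_assoc]
  constructor
  · rintro ⟨n, h1, h2, h3⟩
    exact ⟨n, h1, h3, h2⟩
  · rintro ⟨n, h1, h2, h3⟩
    exact ⟨n, h1, h3, h2⟩

theorem far_dist (W a b : ℕ) (hW : 0 < W) (h : ¬ (a / W ∈ Icc (b / W - 1) (b / W + 1))) :
    (W : ℝ) ≤ |(b : ℝ) - a| := by
  rw [mem_Icc, not_and_or, not_le, not_le] at h
  rcases h with h | h
  · have h1 : a / W + 2 ≤ b / W := by
      generalize a / W = x at h
      generalize b / W = y at h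
      omega
    have h2 : a < W * (a / W + 1) := Nat.lt_mul_div_succ a hW
    have h3 : W * (b / W) ≤ b := Nat.mul_div_le b W
    have h4 : W * (a / W + 2) ≤ W * (b / W) := Nat.mul_le_mul_left W h1
    have h5 : W + a ≤ b := by
      rw [Nat.mul_add] at h2 h4
      omega
    have h6 : (W : ℝ) + a ≤ b := by exact_mod_cast h5
    rw [le_abs]
    left
    linarith
  · have h2 : b < W * (b / W + 1) := Nat.lt_mul_div_succ b hW
    have h3 : W * (a / W) ≤ a := Nat.mul_div_le a W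
    have h1 : b / W + 2 ≤ a / W := by
      generalize a / W = x at h
      generalize b / W = y at h
      omega
    have h4 : W * (b / W + 2) ≤ W * (a / W) := Nat.mul_le_mul_left W h1
    have h5 : W + b ≤ a := by
      rw [Nat.mul_add] at h2 h4
      omega
    have h6 : (W : ℝ) + b ≤ a := by exact_mod_cast h5
    rw [le_abs]
    right
    linarith

/-- Few cells of a line are near a given cell. -/
theorem near_card (E : Finset ℕ) (cl : ℕ → ℕ) (ln : ℕ → ι) (W b : ℕ) (Pi R : ℝ) (hR : 0 ≤ R)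
    (c3 : ∀ n ∈ E, (((E.filter (fun k => cl k / W = cl n / W ∧ ln k = ln n)).image cl).card : ℝ)
      * Pi ≤ R) (l : ι) :
    (((Nl E cl ln l).filter (fun k => k / W ∈ Icc (b - 1) (b + 1))).card : ℝ) * Pi ≤ 3 * R := by
  have h1 : ((Nl E cl ln l).filter (fun k => k / W ∈ Icc (b - 1) (b + 1))) =
      (Icc (b - 1) (b + 1)).biUnion (fun c => (Nl E cl ln l).filter (fun k => k / W = c)) := by
    ext k
    simp only [mem_filter, mem_biUnion]
    constructor
    · rintro ⟨h2, h3⟩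
      exact ⟨_, h3, h2, rfl⟩
    · rintro ⟨c, h2, h3, rfl⟩
      exact ⟨h3, h2⟩
  have h2 : ∀ c, (((Nl E cl ln l).filter (fun k => k / W = c)).card : ℝ) * Pi ≤ R := by
    intro c
    rcases ((Nl E cl ln l).filter (fun k => k / W = c)).eq_empty_or_nonempty with h3 | ⟨k, hk⟩
    · rw [h3]
      simpa using hR
    · rw [mem_filter, mem_Nl] at hk
      obtain ⟨⟨n, hn, h4, h5⟩, h6⟩ := hk
      have h7 : (Nl E cl ln l).filter (fun k => k / W = c) =
          (E.filter (fun k => cl k / W = cl n / W ∧ ln k = ln n)).image cl := by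
        ext k'
        rw [mem_filter, mem_Nl, mem_image]
        simp only [mem_filter]
        constructor
        · rintro ⟨⟨n', h8, h9, h10⟩, h11⟩
          refine ⟨n', ⟨h8, ?_, h9.trans h4.symm⟩, h10⟩
          rw [h10, h5, h11, h6]
        · rintro ⟨n', ⟨h8, h9, h10⟩, h11⟩
          refine ⟨⟨n', h8, h10.trans h4, h11⟩, ?_⟩
          rw [← h11, h9, h5, h6]
      rw [h7]
      exact c3 n hn
  have h3 : (((Nl E cl ln l).filter (fun k => k / W ∈ Icc (b - 1) (b + 1))).card : ℝ) ≤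
      ∑ c ∈ Icc (b - 1) (b + 1), (((Nl E cl ln l).filter (fun k => k / W = c)).card : ℝ) := by
    rw [h1]
    exact_mod_cast card_biUnion_le
  have h4 : ((Icc (b - 1) (b + 1)).card : ℝ) ≤ 3 := by
    have : (Icc (b - 1) (b + 1)).card ≤ 3 := by
      rw [Nat.card_Icc]
      omega
    exact_mod_cast this
  by_cases hP : 0 ≤ Pi
  · calc _ ≤ (∑ c ∈ Icc (b - 1) (b + 1),
          (((Nl E cl ln l).filter (fun k => k / W = c)).card : ℝ)) * Pi :=
          mul_le_mul_of_nonneg_right h3 hP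
      _ = ∑ c ∈ Icc (b - 1) (b + 1),
          (((Nl E cl ln l).filter (fun k => k / W = c)).card : ℝ) * Pi := sum_mul _ _ _
      _ ≤ ∑ c ∈ Icc (b - 1) (b + 1), R := sum_le_sum fun c _ => h2 c
      _ = ((Icc (b - 1) (b + 1)).card : ℝ) * R := by rw [sum_const, nsmul_eq_mul]
      _ ≤ 3 * R := mul_le_mul_of_nonneg_right h4 hR
  · have h5 : (((Nl E cl ln l).filter (fun k => k / W ∈ Icc (b - 1) (b + 1))).card : ℝ) * Pi ≤ 0 :=
      mul_nonpos_of_nonneg_of_nonpos (Nat.cast_nonneg _) (not_le.1 hP).le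
    linarith

/-- Many cells of a line are far from a given cell. -/
theorem far_card (E : Finset ℕ) (cl : ℕ → ℕ) (ln : ℕ → ι) (W b : ℕ) (Lam P0 Pi Pj : ℝ)
    (hL : 1 ≤ Lam) (hPj : 0 < Pj) (hP : 6 * Lam ^ 4 * P0 ≤ Pi)
    (c1 : ∀ n ∈ E, Pj ≤ Lam ^ 2 * ((Nl E cl ln (ln n)).card : ℝ) * P0)
    (c3 : ∀ n ∈ E, (((E.filter (fun k => cl k / W = cl n / W ∧ ln k = ln n)).image cl).card : ℝ)
      * Pi ≤ Lam ^ 2 * Pj) (n : ℕ) (hn : n ∈ E) :
    Pj ≤ 2 * Lam ^ 2 * P0 *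
      (((Nl E cl ln (ln n)).filter (fun k => ¬ (k / W ∈ Icc (b - 1) (b + 1)))).card : ℝ) := by
  have hL0 : 0 < Lam := by linarith
  have h1 := near_card E cl ln W b Pi (Lam ^ 2 * Pj) (by positivity) c3 (ln n)
  have h2 := c1 n hn
  have h3 : ((Nl E cl ln (ln n)).card : ℝ) =
      (((Nl E cl ln (ln n)).filter (fun k => k / W ∈ Icc (b - 1) (b + 1))).card : ℝ) +
      (((Nl E cl ln (ln n)).filter (fun k => ¬ (k / W ∈ Icc (b - 1) (b + 1)))).card : ℝ) := by
    rw [← card_filter_add_card_filter_not (fun k => k / W ∈ Icc (b - 1) (b + 1))]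
    push_cast
    rfl
  set x := (((Nl E cl ln (ln n)).filter (fun k => k / W ∈ Icc (b - 1) (b + 1))).card : ℝ)
  set y := (((Nl E cl ln (ln n)).filter (fun k => ¬ (k / W ∈ Icc (b - 1) (b + 1)))).card : ℝ)
  rw [h3] at h2
  have hx : 0 ≤ x := Nat.cast_nonneg _
  have h4 : x * (6 * Lam ^ 4 * P0) ≤ 3 * (Lam ^ 2 * Pj) :=
    (mul_le_mul_of_nonneg_left hP hx).trans h1
  have h5 : Lam ^ 2 * (2 * (Lam ^ 2 * x * P0)) ≤ Lam ^ 2 * Pj := by nlinarith
  have h6 : 2 * (Lam ^ 2 * x * P0) ≤ Pj := le_of_mul_le_mul_left h5 (by positivity)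
  nlinarith

theorem main_count (E : Finset ℕ) (cl : ℕ → ℕ) (ln : ℕ → ι) (x : ι → ℝ) (W b : ℕ)
    (Lam P0 Pi Pj M m Dm : ℝ) (hW : 0 < W) (hL : 1 ≤ Lam) (hP0 : 0 < P0) (hPj : 0 < Pj)
    (hM : 0 < M) (hD : 0 < Dm) (hP : 6 * Lam ^ 4 * P0 ≤ Pi)
    (c1 : ∀ n ∈ E, Pj ≤ Lam ^ 2 * ((Nl E cl ln (ln n)).card : ℝ) * P0)
    (c2 : ∀ n ∈ E, ((Nl E cl ln (ln n)).card : ℝ) * P0 ≤ Lam ^ 2 * Pj)
    (c3 : ∀ n ∈ E, (((E.filter (fun k => cl k / W = cl n / W ∧ ln k = ln n)).image cl).card : ℝ)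
      * Pi ≤ Lam ^ 2 * Pj)
    (c4 : ∀ n ∈ E, Pj ≤ Lam ^ 2 * ((Vk E cl ln (cl n)).card : ℝ) * M)
    (f1 : ∀ k, ∀ l ∈ Vk E cl ln k, ∀ l' ∈ Vk E cl ln k, |x l - x l'| ≤ 8 * Dm)
    (f2 : ∀ k k', ∀ l ∈ Vk E cl ln k, ∀ l' ∈ Vk E cl ln k, l ∈ Vk E cl ln k' →
      l' ∈ Vk E cl ln k' → |x l - x l'| * |(k : ℝ) - k'| ≤ 8 * Dm)
    (sep : ∀ G : Finset ι, (∀ i ∈ G, ∀ i' ∈ G, |x i - x i'| ≤ 32 * Dm) →
      (G.card : ℝ) ≤ 32 * m * Dm + 1)
    (T : Finset ℤ) (L : ℤ → ι)
    (hT : ∀ h ∈ T, L h ∈ Vk E cl ln b ∧ ⌊x (L h) / (8 * Dm / W)⌋ = h) :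
    (T.card : ℝ) * Pj ≤ 4 * Lam ^ 6 * (32 * m * Dm + 1) * M := by
  classical
  have hL0 : 0 < Lam := by linarith
  have hWr : (0 : ℝ) < W := by exact_mod_cast hW
  set Z := (E.image cl).filter (fun k => ¬ (k / W ∈ Icc (b / W - 1) (b / W + 1)) ∧
    ∃ l, l ∈ Vk E cl ln b ∧ l ∈ Vk E cl ln k) with hZ
  have memZ : ∀ k, k ∈ Z ↔ (∃ n ∈ E, cl n = k) ∧ ¬ (k / W ∈ Icc (b / W - 1) (b / W + 1)) ∧
      ∃ l, l ∈ Vk E cl ln b ∧ l ∈ Vk E cl ln k := by
    intro k
    rw [hZ, mem_filter, mem_image]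
  -- first double counting
  have d1 : (T.card : ℝ) * (Pj / (2 * Lam ^ 2 * P0)) ≤ Z.card * 2 := by
    refine dc T Z (fun h k => L h ∈ Vk E cl ln k) _ _ (fun h hh => ?_) (fun k hk => ?_)
    · obtain ⟨n, hn, h1, h2⟩ := mem_Vk.1 (hT h hh).1
      have h3 := far_card E cl ln W (b / W) Lam P0 Pi Pj hL hPj hP c1 c3 n hn
      have h4 : ((Nl E cl ln (ln n)).filter (fun k => ¬ (k / W ∈ Icc (b / W - 1) (b / W + 1)))) ⊆
          Z.filter (fun k => L h ∈ Vk E cl ln k) := by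
        intro k hk
        rw [mem_filter, mem_Nl] at hk
        obtain ⟨⟨n', hn', h5, h6⟩, h7⟩ := hk
        have h8 : L h ∈ Vk E cl ln k := mem_Vk.2 ⟨n', hn', h5.trans h1, h6⟩
        rw [mem_filter, memZ]
        exact ⟨⟨⟨n', hn', h6⟩, h7, ⟨L h, (hT h hh).1, h8⟩⟩, h8⟩
      have h5 : (((Nl E cl ln (ln n)).filter
          (fun k => ¬ (k / W ∈ Icc (b / W - 1) (b / W + 1)))).card : ℝ) ≤
          ((Z.filter (fun k => L h ∈ Vk E cl ln k)).card : ℝ) := by
        exact_mod_cast card_le_card h4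
      rw [div_le_iff₀ (by positivity)]
      calc Pj ≤ _ := h3
        _ ≤ 2 * Lam ^ 2 * P0 * ((Z.filter (fun k => L h ∈ Vk E cl ln k)).card : ℝ) :=
            mul_le_mul_of_nonneg_left h5 (by positivity)
        _ = _ := by ring
    · have h1 : (T.filter (fun h => L h ∈ Vk E cl ln k)).card ≤ 2 := by
        refine card_le_two _ fun h hh h' hh' => ?_
        rw [mem_filter] at hh hh'
        obtain ⟨h2, h3⟩ := hT h hh.1
        obtain ⟨h4, h5⟩ := hT h' hh'.1
        have h6 := f2 b k _ h2 _ h4 hh.2 hh'.2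
        have h7 := far_dist W k b hW ((memZ k).1 hk).2.1
        have h8 : |x (L h) - x (L h')| * W ≤ 8 * Dm :=
          (mul_le_mul_of_nonneg_left h7 (abs_nonneg _)).trans h6
        have h9 : |x (L h) - x (L h')| ≤ 8 * Dm / W := by
          rw [le_div_iff₀ hWr]
          exact h8
        have h10 := floor_close _ _ _ (by positivity) h9
        rw [h3, h5] at h10
        exact h10
      exact_mod_cast h1
  -- second double counting
  set G := Z.biUnion (Vk E cl ln) with hG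
  have d2 : (Z.card : ℝ) * (Pj / (Lam ^ 2 * M)) ≤ G.card * (Lam ^ 2 * Pj / P0) := by
    refine dc Z G (fun k l => l ∈ Vk E cl ln k) _ _ (fun k hk => ?_) (fun l hl => ?_)
    · obtain ⟨n, hn, h1⟩ := ((memZ k).1 hk).1
      have h2 := c4 n hn
      rw [h1] at h2
      have h3 : Vk E cl ln k ⊆ G.filter (fun l => l ∈ Vk E cl ln k) := by
        intro l hl
        rw [mem_filter, hG, mem_biUnion]
        exact ⟨⟨k, hk, hl⟩, hl⟩
      have h4 : ((Vk E cl ln k).card : ℝ) ≤ ((G.filter (fun l => l ∈ Vk E cl ln k)).card : ℝ) := by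
        exact_mod_cast card_le_card h3
      rw [div_le_iff₀ (by positivity)]
      calc Pj ≤ _ := h2
        _ = ((Vk E cl ln k).card : ℝ) * (Lam ^ 2 * M) := by ring
        _ ≤ _ := mul_le_mul_of_nonneg_right h4 (by positivity)
    · rw [hG, mem_biUnion] at hl
      obtain ⟨k, hk, h1⟩ := hl
      obtain ⟨n, hn, h2, h3⟩ := mem_Vk.1 h1
      have h4 := c2 n hn
      rw [h2] at h4
      have h5 : Z.filter (fun k => l ∈ Vk E cl ln k) ⊆ Nl E cl ln l := by
        intro k' hk'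
        rw [mem_filter] at hk'
        exact mem_Nl.2 (mem_Vk.1 hk'.2)
      have h6 : ((Z.filter (fun k => l ∈ Vk E cl ln k)).card : ℝ) ≤ ((Nl E cl ln l).card : ℝ) := by
        exact_mod_cast card_le_card h5
      rw [le_div_iff₀ hP0]
      exact (mul_le_mul_of_nonneg_right h6 hP0.le).trans h4
  have hGc : (G.card : ℝ) ≤ 32 * m * Dm + 1 := by
    refine sep G fun l hl l' hl' => ?_
    rw [hG, mem_biUnion] at hl hl'
    obtain ⟨k, hk, h1⟩ := hl
    obtain ⟨k', hk', h2⟩ := hl'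
    obtain ⟨l1, h3, h4⟩ := ((memZ k).1 hk).2.2
    obtain ⟨l2, h5, h6⟩ := ((memZ k').1 hk').2.2
    have h7 := f1 k l h1 l1 h4
    have h8 := f1 b l1 h3 l2 h5
    have h9 := f1 k' l2 h6 l' h2
    have h10 : |x l - x l'| ≤ |x l - x l1| + |x l1 - x l2| + |x l2 - x l'| := by
      have e : x l - x l' = (x l - x l1) + (x l1 - x l2) + (x l2 - x l') := by ring
      rw [e]
      exact (abs_add_le _ _).trans (add_le_add (abs_add_le _ _) le_rfl)
    linarith
  have e1 : (T.card : ℝ) * Pj ≤ 4 * Lam ^ 2 * P0 * Z.card := by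
    have h1 : (T.card : ℝ) * (Pj / (2 * Lam ^ 2 * P0)) * (2 * Lam ^ 2 * P0) ≤
        Z.card * 2 * (2 * Lam ^ 2 * P0) := mul_le_mul_of_nonneg_right d1 (by positivity)
    have h2 : (T.card : ℝ) * (Pj / (2 * Lam ^ 2 * P0)) * (2 * Lam ^ 2 * P0) = T.card * Pj := by
      field_simp
    rw [h2] at h1
    linarith
  have e2 : (Z.card : ℝ) * P0 ≤ G.card * Lam ^ 4 * M := by
    have h1 : (Z.card : ℝ) * (Pj / (Lam ^ 2 * M)) * (Lam ^ 2 * M * P0 / Pj) ≤
        G.card * (Lam ^ 2 * Pj / P0) * (Lam ^ 2 * M * P0 / Pj) :=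
      mul_le_mul_of_nonneg_right d2 (by positivity)
    have h2 : (Z.card : ℝ) * (Pj / (Lam ^ 2 * M)) * (Lam ^ 2 * M * P0 / Pj) = Z.card * P0 := by
      field_simp
    have h3 : (G.card : ℝ) * (Lam ^ 2 * Pj / P0) * (Lam ^ 2 * M * P0 / Pj) =
        G.card * Lam ^ 4 * M := by
      field_simp
    rwa [h2, h3] at h1
  calc (T.card : ℝ) * Pj ≤ 4 * Lam ^ 2 * P0 * Z.card := e1
    _ = 4 * Lam ^ 2 * (Z.card * P0) := by ring
    _ ≤ 4 * Lam ^ 2 * (G.card * Lam ^ 4 * M) := mul_le_mul_of_nonneg_left e2 (by positivity)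
    _ = 4 * Lam ^ 6 * M * G.card := by ring
    _ ≤ 4 * Lam ^ 6 * M * (32 * m * Dm + 1) := mul_le_mul_of_nonneg_left hGc (by positivity)
    _ = _ := by ring

/-! ### Number of values of pairs -/

theorem im_right (F : Finset ℕ) (c : ℕ → ℕ) (l : ℕ → ι) (l0 : ι) (h : ∀ k ∈ F, l k = l0) :
    im F (fun n => (c n, l n)) = (F.image c).card := by
  unfold im
  have h1 : F.image (fun n => (c n, l n)) = (F.image c).image (fun a => (a, l0)) := by
    rw [image_image]
    refine image_congr fun k hk => ?_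
    simp only [Function.comp]
    rw [h k hk]
  rw [h1, card_image_of_injective _ (fun a b hab => (Prod.mk.inj hab).1)]

theorem im_left (F : Finset ℕ) (c : ℕ → ℕ) (l : ℕ → ι) (c0 : ℕ) (h : ∀ k ∈ F, c k = c0) :
    im F (fun n => (c n, l n)) = (F.image l).card := by
  unfold im
  have h1 : F.image (fun n => (c n, l n)) = (F.image l).image (fun a => (c0, a)) := by
    rw [image_image]
    refine image_congr fun k hk => ?_
    simp only [Function.comp]
    rw [h k hk]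
  rw [h1, card_image_of_injective _ (fun a b hab => (Prod.mk.inj hab).2)]

theorem im_pos {β : Type} [DecidableEq β] (E : Finset ℕ) (hE : E.Nonempty) (f : ℕ → β) :
    (0 : ℝ) < im E f := by
  unfold im
  exact_mod_cast card_pos.2 (hE.image f)

end abs


/-! ### The sweep -/

section sweep

variable {ι : Type} [Fintype ι] [DecidableEq ι]

theorem cell_div (K : KSys ι) (Q i j n : ℕ) (hQ : 1 ≤ Q) (hij : i ≤ j) :
    K.cell Q i n = K.cell Q j n / Q ^ (j - i) := by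
  unfold KSys.cell
  rw [← Nat.floor_div_natCast]
  congr 1
  have hQ' : (Q : ℝ) ≠ 0 := by
    have : (0 : ℝ) < Q := by exact_mod_cast hQ
    exact this.ne'
  rw [Nat.cast_pow, eq_div_iff (pow_ne_zero _ hQ'), mul_assoc, ← pow_add,
    Nat.add_sub_cancel' hij]

theorem cell_zero (K : KSys ι) (Q n : ℕ) (h1 : K.t n < 1) : K.cell Q 0 n = 0 := by
  unfold KSys.cell
  rw [pow_zero, mul_one, Nat.floor_eq_zero]
  exact h1

/-- The gaps between the slopes of a bottom token. -/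
theorem gap (hMono : StMono) (hTok : StTok) (hIdx : StIdx) (K : KSys ι) (Q J : ℕ)
    (E : Finset ℕ) (Λ : ℝ) (D : Bool → ℕ → ℝ) (hQ : 1 ≤ Q) (hR : Reg K Q J E Λ D) (s : Bool)
    (l : ℕ) (hl : l ≤ J) (β : ι) (p q r : ℕ) (hp : p ∈ E) (hq : q ∈ E) (hr : r ∈ E)
    (bp : K.tokB p = β) (bq : K.tokB q = β) (br : K.tokB r = β)
    (h1 : K.cell Q l p < K.cell Q l q) (h2 : K.cell Q l q < K.cell Q l r) :
    K.x (K.ln s r) + D false l ≤ K.x (K.ln s p) := by
  have hQr : (0 : ℝ) < (Q : ℝ) ^ l := by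
    have : (0 : ℝ) < Q := by exact_mod_cast hQ
    positivity
  obtain ⟨hpN, hp0, _⟩ := hR.sub p hp
  obtain ⟨hqN, _, _⟩ := hR.sub q hq
  obtain ⟨hrN, hr0, _⟩ := hR.sub r hr
  have hβ : β ∈ K.S 0 := bp ▸ (hTok ι K p hpN).1
  obtain ⟨_, i2, i3, i4⟩ := hIdx ι K
  set c := K.cell Q l q with hc
  -- the edge `p` is before the cell `c`
  have a1 : p + 1 ≤ K.ci Q l c := by
    have h3 : K.t p * (Q : ℝ) ^ l < c := by
      have h4 := Nat.lt_floor_add_one (K.t p * (Q : ℝ) ^ l)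
      have h5 : (⌊K.t p * (Q : ℝ) ^ l⌋₊ : ℝ) + 1 ≤ c := by
        have : ⌊K.t p * (Q : ℝ) ^ l⌋₊ + 1 ≤ c := h1
        exact_mod_cast this
      linarith
    have h4 : K.t p < (c : ℝ) / (Q : ℝ) ^ l := by
      rw [lt_div_iff₀ hQr]
      exact h3
    exact (i2 p _).2 ⟨hpN, h4⟩
  -- the edge `r` is after the cell `c`
  have a2 : K.ci Q l (c + 1) ≤ r := by
    by_contra hcon
    have h3 : r < K.ci Q l (c + 1) := not_le.1 hcon
    have h4 := ((i2 r _).1 h3).2
    rw [lt_div_iff₀ hQr] at h4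
    have h5 := Nat.floor_le (mul_nonneg hr0 hQr.le)
    have h6 : ((c + 1 : ℕ) : ℝ) ≤ (⌊K.t r * (Q : ℝ) ^ l⌋₊ : ℝ) := by
      have : c + 1 ≤ ⌊K.t r * (Q : ℝ) ^ l⌋₊ := h2
      exact_mod_cast this
    linarith
  have a3 : K.ci Q l c ≤ K.ci Q l (c + 1) := by
    refine i3 _ _ ?_
    refine div_le_div_of_nonneg_right ?_ hQr.le
    push_cast
    linarith
  have a4 : K.ci Q l (c + 1) ≤ K.N := i4 _
  have m1 := (hMono ι K (p + 1) (K.ci Q l c) a1 (a3.trans a4)).1 β hβ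
  have m2 := (hMono ι K (K.ci Q l c) (K.ci Q l (c + 1)) a3 a4).1 β hβ
  have m3 := (hMono ι K (K.ci Q l (c + 1)) r a2 hrN.le).1 β hβ
  have d1 := hR.dlo false l hl q hq
  have d2 : D false l ≤ |K.x (K.pos (K.ci Q l c) β) - K.x (K.pos (K.ci Q l (c + 1)) β)| := by
    have e : K.tok false q = β := bq
    rw [e] at d1
    exact d1
  rw [abs_of_nonneg (sub_nonneg.2 m2)] at d2
  have n1 : K.pos (p + 1) β = K.b p := bp ▸ (hTok ι K p hpN).2.2.2.1
  have n2 : K.pos r β = K.a r := br ▸ (hTok ι K r hrN).2.2.1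
  rw [n1] at m1
  rw [n2] at m3
  have x1 := K.x_lt p hpN
  have x2 := K.x_lt r hrN
  cases s
  · change K.x (K.a r) + D false l ≤ K.x (K.a p)
    linarith
  · change K.x (K.b r) + D false l ≤ K.x (K.b p)
    linarith

end sweep

end XSLOT

theorem I_SLOT (hCnt : StCnt) (hFlat0 : StFlat0) (hFlatX : StFlatX) (hMono : StMono)
    (hDrange : StDrange) (hTok : StTok) (hIdx : StIdx) (hSep : StSep) (hInc : StInc) :
    StSlot := by
  intro ι _ _ K m Q J E Λ D hm hsep hQ hR s i j l hij hjl hlJ hP hDl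
  classical
  have hm0 : 0 < m := by linarith
  have hjJ : j ≤ J := hjl.trans hlJ
  have hiJ : i ≤ J := hij.trans hjJ
  have hΛ : 1 ≤ Λ := hR.one_le
  have hΛ0 : 0 < Λ := by linarith
  have hDpos : ∀ p j, j ≤ J → 0 < D p j := by
    intro p j' hj'
    have h1 := (hDrange ι K m Q J E Λ D hm0 hsep hQ hR p j' hj').2.1
    by_contra hcon
    have h2 : 2 * m * D p j' ≤ 0 := mul_nonpos_of_nonneg_of_nonpos (by positivity) (not_lt.1 hcon)
    linarith
  set Dm := max (D false j) (D true j) with hDm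
  have hDm0 : 0 < Dm := lt_max_of_lt_left (hDpos false j hjJ)
  have hDl0 : 0 < D false l := hDpos false l hlJ
  set W := Q ^ (j - i) with hW
  have hW0 : 0 < W := by
    rw [hW]
    exact Nat.pow_pos hQ
  have hWr : (W : ℝ) = (Q : ℝ) ^ (j - i) := by
    rw [hW]
    push_cast
    rfl
  rw [← hWr] at hDl ⊢
  set u := 8 * Dm / (W : ℝ) with hu
  have hu0 : 0 < u := by
    rw [hu]
    have : (0 : ℝ) < W := by exact_mod_cast hW0
    positivity
  have hcd : ∀ n, K.cell Q i n = K.cell Q j n / W := fun n => XSLOT.cell_div K Q i j n hQ hij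
  -- positivity of the counting functions
  have hP0 : (0 : ℝ) < PL K Q E s 0 := XSLOT.im_pos E hR.ne _
  have hPj : (0 : ℝ) < PL K Q E s j := XSLOT.im_pos E hR.ne _
  have hM : (0 : ℝ) < PM K Q E j := XSLOT.im_pos E hR.ne _
  -- counting of the cells of a line
  have hN : ∀ n ∈ E, (im (E.filter (fun k => (K.cell Q 0 k, K.ln s k) = (K.cell Q 0 n, K.ln s n)))
      (fun n => (K.cell Q j n, K.ln s n)) : ℝ) =
      ((XSLOT.Nl E (K.cell Q j) (K.ln s) (K.ln s n)).card : ℝ) := by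
    intro n hn
    rw [XSLOT.im_right _ (K.cell Q j) (K.ln s) (K.ln s n)
      (fun k hk => (Prod.mk.inj (mem_filter.1 hk).2).2)]
    unfold XSLOT.Nl
    congr 3
    refine filter_congr fun k hk => ?_
    rw [XSLOT.cell_zero K Q k (hR.sub k hk).2.2, XSLOT.cell_zero K Q n (hR.sub n hn).2.2]
    constructor
    · intro h
      exact (Prod.mk.inj h).2
    · intro h
      rw [h]
  have c12 : ∀ n ∈ E,
      (PL K Q E s j : ℝ) ≤ Λ ^ 2 * ((XSLOT.Nl E (K.cell Q j) (K.ln s) (K.ln s n)).card : ℝ) *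
        PL K Q E s 0 ∧
      ((XSLOT.Nl E (K.cell Q j) (K.ln s) (K.ln s n)).card : ℝ) * PL K Q E s 0 ≤
        Λ ^ 2 * PL K Q E s j := by
    intro n hn
    have h1 := hCnt (ℕ × ι) (ℕ × ι) Λ E (fun n => (K.cell Q 0 n, K.ln s n))
      (fun n => (K.cell Q j n, K.ln s n)) hΛ (hR.regL s 0 (Nat.zero_le _)) (hR.regL s j hjJ)
      (fun n hn k hk h => by
        have h2 := (Prod.mk.inj h).2
        simp only [XSLOT.cell_zero K Q k (hR.sub k hk).2.2,
          XSLOT.cell_zero K Q n (hR.sub n hn).2.2, h2]) n hn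
    rw [hN n hn] at h1
    exact h1
  have c3 : ∀ n ∈ E, (((E.filter (fun k => K.cell Q j k / W = K.cell Q j n / W ∧
      K.ln s k = K.ln s n)).image (K.cell Q j)).card : ℝ) * PL K Q E s i ≤
      Λ ^ 2 * PL K Q E s j := by
    intro n hn
    have h1 := hCnt (ℕ × ι) (ℕ × ι) Λ E (fun n => (K.cell Q i n, K.ln s n))
      (fun n => (K.cell Q j n, K.ln s n)) hΛ (hR.regL s i hiJ) (hR.regL s j hjJ)
      (fun n hn k hk h => by
        have h2 := Prod.mk.inj h
        simp only [hcd, h2.1, h2.2]) n hn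
    rw [XSLOT.im_right _ (K.cell Q j) (K.ln s) (K.ln s n)
      (fun k hk => (Prod.mk.inj (mem_filter.1 hk).2).2)] at h1
    have h2 : (E.filter (fun k => (K.cell Q i k, K.ln s k) = (K.cell Q i n, K.ln s n))) =
        (E.filter (fun k => K.cell Q j k / W = K.cell Q j n / W ∧ K.ln s k = K.ln s n)) := by
      refine filter_congr fun k hk => ?_
      rw [hcd, hcd, Prod.mk.injEq]
    rw [h2] at h1
    exact h1.2
  have c4 : ∀ n ∈ E, (PL K Q E s j : ℝ) ≤
      Λ ^ 2 * ((XSLOT.Vk E (K.cell Q j) (K.ln s) (K.cell Q j n)).card : ℝ) * PM K Q E j := by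
    intro n hn
    have h1 := hCnt ℕ (ℕ × ι) Λ E (fun n => K.cell Q j n)
      (fun n => (K.cell Q j n, K.ln s n)) hΛ (hR.regM j hjJ) (hR.regL s j hjJ)
      (fun n hn k hk h => (Prod.mk.inj h).1) n hn
    rw [XSLOT.im_left _ (K.cell Q j) (K.ln s) (K.cell Q j n)
      (fun k hk => (mem_filter.1 hk).2)] at h1
    exact h1.1
  -- flatness
  have flat : ∀ k, ∀ a ∈ XSLOT.Vk E (K.cell Q j) (K.ln s) k,
      ∀ a' ∈ XSLOT.Vk E (K.cell Q j) (K.ln s) k, K.FlatP Q j k (4 * Dm) a a' := by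
    intro k a ha a' ha'
    obtain ⟨n, hn, h1, h2⟩ := XSLOT.mem_Vk.1 ha
    obtain ⟨n', hn', h3, h4⟩ := XSLOT.mem_Vk.1 ha'
    have h5 := hFlat0 ι K Q J E Λ D hQ hR j hjJ n hn n' hn' (h2.trans h4.symm) s s
    rw [h1, h2, h3] at h5
    exact h5
  have f1 : ∀ k, ∀ a ∈ XSLOT.Vk E (K.cell Q j) (K.ln s) k,
      ∀ a' ∈ XSLOT.Vk E (K.cell Q j) (K.ln s) k, |K.x a - K.x a'| ≤ 8 * Dm := by
    intro k a ha a' ha'
    have h1 := (hFlatX ι K Q j k (4 * Dm) a a' hQ (flat k a ha a' ha')).1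
    linarith
  have f2 : ∀ k k' : ℕ, ∀ a ∈ XSLOT.Vk E (K.cell Q j) (K.ln s) k,
      ∀ a' ∈ XSLOT.Vk E (K.cell Q j) (K.ln s) k, a ∈ XSLOT.Vk E (K.cell Q j) (K.ln s) k' →
      a' ∈ XSLOT.Vk E (K.cell Q j) (K.ln s) k' →
      |K.x a - K.x a'| * |(k : ℝ) - k'| ≤ 8 * Dm := by
    intro k k' a ha a' ha' hb hb'
    have h1 := (hFlatX ι K Q j k (4 * Dm) a a' hQ (flat k a ha a' ha')).2 k'
      (flat k' a hb a' hb')
    linarith
  have sep : ∀ G : Finset ι, (∀ i ∈ G, ∀ i' ∈ G, |K.x i - K.x i'| ≤ 32 * Dm) →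
      (G.card : ℝ) ≤ 32 * m * Dm + 1 := by
    intro G hG
    have h1 := (hSep ι K m hm0 hsep).1 G (32 * Dm) (by positivity) hG
    linarith
  -- the bottom token and the cell
  obtain ⟨n0, hn0⟩ := hR.ne
  set S := E.filter (fun k => (K.cell Q j k, K.tok false k) = (K.cell Q j n0, K.tok false n0))
    with hS
  have memS : ∀ k, k ∈ S ↔ k ∈ E ∧ K.cell Q j k = K.cell Q j n0 ∧ K.tokB k = K.tokB n0 := by
    intro k
    rw [hS, mem_filter, Prod.mk.injEq]
    rfl
  have hq := (hCnt (ℕ × ι) (ℕ × ι) Λ E (fun n => (K.cell Q j n, K.tok false n))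
    (fun n => (K.cell Q l n, K.tok false n)) hΛ (hR.regT false j hjJ) (hR.regT false l hlJ)
    (fun n hn k hk h => by
      have h2 := Prod.mk.inj h
      simp only [XSLOT.cell_div K Q j l _ hQ hjl, h2.1, h2.2]) n0 hn0).1
  rw [XSLOT.im_right _ (K.cell Q l) (K.tok false) (K.tok false n0)
      (fun k hk => (Prod.mk.inj (mem_filter.1 hk).2).2)] at hq
  set A := S.image (K.cell Q l) with hA
  have hrep : ∀ c : ℕ, ∃ e : ℕ, c ∈ A → e ∈ S ∧ K.cell Q l e = c := by
    intro c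
    by_cases hc : c ∈ A
    · rw [hA, mem_image] at hc
      obtain ⟨e, h1, h2⟩ := hc
      exact ⟨e, fun _ => ⟨h1, h2⟩⟩
    · exact ⟨0, fun h => absurd h hc⟩
  choose e he using hrep
  have hslots := XSLOT.slots A (fun c => K.x (K.ln s (e c))) (D false l) u hDl0 hDl
    (fun a ha b hb c hc hab hbc => by
      obtain ⟨a1, a2⟩ := he a ha
      obtain ⟨b1, b2⟩ := he b hb
      obtain ⟨c1, c2⟩ := he c hc
      rw [memS] at a1 b1 c1
      exact XSLOT.gap hMono hTok hIdx K Q J E Λ D hQ hR s l hlJ (K.tokB n0) (e a) (e b) (e c)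
        a1.1 b1.1 c1.1 a1.2.2 b1.2.2 c1.2.2 (by rw [a2, b2]; exact hab) (by rw [b2, c2]; exact hbc))
  set T := A.image (fun c => ⌊K.x (K.ln s (e c)) / u⌋) with hT
  have hL : ∀ h : ℤ, ∃ a : ι, h ∈ T → a ∈ XSLOT.Vk E (K.cell Q j) (K.ln s) (K.cell Q j n0) ∧
      ⌊K.x a / u⌋ = h := by
    intro h
    by_cases hh : h ∈ T
    · rw [hT, mem_image] at hh
      obtain ⟨c, h1, h2⟩ := hh
      have h3 := (he c h1).1
      rw [memS] at h3
      exact ⟨K.ln s (e c), fun _ => ⟨XSLOT.mem_Vk.2 ⟨e c, h3.1, rfl, h3.2.1⟩, h2⟩⟩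
    · exact ⟨K.a 0, fun h => absurd h hh⟩
  choose L hL using hL
  have hmain := XSLOT.main_count E (K.cell Q j) (K.ln s) K.x W (K.cell Q j n0) Λ
    (PL K Q E s 0) (PL K Q E s i) (PL K Q E s j) (PM K Q E j) m Dm hW0 hΛ hP0 hPj hM hDm0 hP
    (fun n hn => (c12 n hn).1) (fun n hn => (c12 n hn).2) c3 c4 f1 f2 sep T L hL
  -- the final computation
  have hb0 : (0 : ℝ) ≤ PT K Q E false j := Nat.cast_nonneg _
  have hq' : (PT K Q E false l : ℝ) ≤ Λ ^ 2 * (A.card : ℝ) * PT K Q E false j := hq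
  have s1 : (A.card : ℝ) * D false l * PL K Q E s j ≤
      16 * u * Λ ^ 6 * (32 * m * Dm + 1) * PM K Q E j := by
    calc (A.card : ℝ) * D false l * PL K Q E s j
        ≤ 4 * u * (T.card : ℝ) * PL K Q E s j := mul_le_mul_of_nonneg_right hslots hPj.le
      _ = 4 * u * ((T.card : ℝ) * PL K Q E s j) := by ring
      _ ≤ 4 * u * (4 * Λ ^ 6 * (32 * m * Dm + 1) * PM K Q E j) :=
          mul_le_mul_of_nonneg_left hmain (by positivity)
      _ = _ := by ring
  calc (PT K Q E false l : ℝ) * D false l * PL K Q E s j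
      ≤ Λ ^ 2 * (A.card : ℝ) * PT K Q E false j * D false l * PL K Q E s j :=
        mul_le_mul_of_nonneg_right (mul_le_mul_of_nonneg_right hq' hDl0.le) hPj.le
    _ = Λ ^ 2 * PT K Q E false j * ((A.card : ℝ) * D false l * PL K Q E s j) := by ring
    _ ≤ Λ ^ 2 * PT K Q E false j * (16 * u * Λ ^ 6 * (32 * m * Dm + 1) * PM K Q E j) :=
        mul_le_mul_of_nonneg_left s1 (by positivity)
    _ = _ := by ring


end Pool.Agent.Work.MP_e17eac_co.DH

end
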