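import Pool.Agent.Work.MP_e17eac_co.DH.St4

/-! Bundle of small proof modules (one section per former module). -/

section

/-!
# Basic consequences of the hypotheses of the assembly
-/

namespace Pool.Agent.Work.MP_e17eac_co.DH

open Finset

namespace XA0

theorem im_pos {α : Type} [DecidableEq α] (E : Finset ℕ) (f : ℕ → α) (h : E.Nonempty) :
    1 ≤ im E f := Finset.card_pos.2 (h.image f)

theorem log_succ (m : ℝ) (hm : 2 ≤ m) : Real.log (m + 1) - Real.log m ≤ 1 := by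
  have hm0 : 0 < m := by linarith
  rw [← Real.log_div (by linarith) hm0.ne']
  have h1 := Real.log_le_sub_one_of_pos (show 0 < (m + 1) / m by positivity)
  have h2 : (m + 1) / m - 1 ≤ 1 := by
    rw [sub_le_iff_le_add, div_le_iff₀ hm0]
    linarith
  linarith

end XA0

theorem I_A0 (hDrange : StDrange) (hInc : StInc) (hSep : StSep) : StA0 := by
  intro ι _ _ K m Q J E Λ D W hA
  have hm0 : (0 : ℝ) < m := by have := hA.hm; linarith
  have hQ2 : (2 : ℝ) ≤ Q := by exact_mod_cast hA.hQ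
  have hlQ : 0 < Real.log Q := Real.log_pos (by linarith)
  have hE := hA.reg.ne
  have hsub : ∀ n ∈ E, 0 ≤ K.t n ∧ K.t n < 1 := fun n hn => (hA.reg.sub n hn).2
  obtain ⟨hI1, -, -, -, -, -, -, hI8, -⟩ := hInc ι K Q E (by have := hA.hQ; omega) hsub
  have hmono : Monotone (fun j => PM K Q E j) := monotone_nat_of_le_succ fun j => (hI1 j).1
  have hPMtop : ∀ j, j ≤ J → (PM K Q E j : ℝ) ≤ (Q : ℝ) ^ 69001 := fun j hj => by
    have h1 : PM K Q E j ≤ PM K Q E J := hmono hj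
    have h2 : (PM K Q E j : ℝ) ≤ PM K Q E J := by exact_mod_cast h1
    exact h2.trans hA.top
  have hPM1 : ∀ j, 1 ≤ PM K Q E j := fun j => XA0.im_pos E _ hE
  have hcard := (hSep ι K m hm0 hA.sep).2
  refine ⟨hlQ, Real.log_nonneg hA.reg.one_le, Real.log_nonneg hA.hW, Real.log_nonneg ?_, ?_, ?_,
    ?_, ?_⟩
  · have h1 : 0 ≤ (J : ℝ) * Real.log Q := mul_nonneg (Nat.cast_nonneg _) hlQ.le
    linarith
  · intro j hj
    have h1 : (1 : ℝ) ≤ PM K Q E j := by exact_mod_cast hPM1 j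
    refine ⟨hPM1 j, hPMtop j hj, ?_, Real.log_nonneg h1⟩
    have h2 := Real.log_le_log (by linarith) (hPMtop j hj)
    rw [Real.log_pow] at h2
    exact_mod_cast h2
  · intro s j hj
    have h0 : 1 ≤ PL K Q E s j := XA0.im_pos E _ hE
    refine ⟨h0, ?_⟩
    have h1 : (1 : ℝ) ≤ PL K Q E s j := by exact_mod_cast h0
    have h2 : (PL K Q E s j : ℝ) ≤ PM K Q E j * Fintype.card ι := by exact_mod_cast hI8 s j
    have h3 : (PM K Q E j : ℝ) * Fintype.card ι ≤ (Q : ℝ) ^ 69001 * (m + 1) :=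
      mul_le_mul (hPMtop j hj) hcard (Nat.cast_nonneg _) (by positivity)
    have h4 := Real.log_le_log (by linarith) (h2.trans h3)
    rw [Real.log_mul (by positivity) (by positivity), Real.log_pow] at h4
    have h5 := XA0.log_succ m hA.hm
    unfold lA
    push_cast at h4
    linarith
  · intro p j _
    exact XA0.im_pos E _ hE
  · intro p j hj
    obtain ⟨h1, h2, -⟩ := hDrange ι K m Q J E Λ D hm0 hA.sep (by have := hA.hQ; omega) hA.reg p j hj
    have h3 : 0 < D p j := by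
      by_contra h
      have h4 : 2 * m * D p j ≤ 0 := mul_nonpos_of_nonneg_of_nonpos (by linarith) (not_lt.1 h)
      linarith
    refine ⟨h3, ?_, h2⟩
    unfold lD
    have := Real.log_nonpos h3.le h1
    linarith

end Pool.Agent.Work.MP_e17eac_co.DH

end

section

set_option autoImplicit false

namespace Pool.Agent.Work.MP_e17eac_co.DH

open Finset

namespace XA1

theorem log_mono {a b : ℕ} (ha : 1 ≤ a) (h : a ≤ b) : Real.log (a : ℝ) ≤ Real.log (b : ℝ) :=
  Real.log_le_log (by exact_mod_cast ha) (by exact_mod_cast h)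

theorem log_step {a b Q : ℕ} (ha : 1 ≤ a) (hb : 1 ≤ b) (hQ : 1 ≤ Q) (h : b ≤ Q * a) :
    Real.log (b : ℝ) ≤ Real.log (a : ℝ) + Real.log (Q : ℝ) := by
  have ha' : (0 : ℝ) < a := by exact_mod_cast ha
  have hb' : (0 : ℝ) < b := by exact_mod_cast hb
  have hQ' : (0 : ℝ) < Q := by exact_mod_cast hQ
  rw [← Real.log_mul ha'.ne' hQ'.ne']
  apply Real.log_le_log hb'
  have h1 : (b : ℝ) ≤ Q * a := by exact_mod_cast h
  linarith

end XA1

open XA1

theorem I_A1 (hInc : StInc) (hSep : StSep) (hFlux1 : StFlux1) (hDrange : StDrange)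
    (hA0 : StA0) : StA1 := by
  intro ι _ _ K m Q J E Λ D W hA
  obtain ⟨a1, a2, a3, a4, a5, a6, a7, a8⟩ := hA0 ι K m Q J E Λ D W hA
  have hm2 := hA.hm
  have hm0 : 0 < m := by linarith
  have hQ1 : 1 ≤ Q := le_trans (by norm_num) hA.hQ
  obtain ⟨b1, b2, b3, b4, b5, b6, b7, b8, b9⟩ := hInc ι K Q E hQ1
    (fun n hn => ⟨(hA.reg.sub n hn).2.1, (hA.reg.sub n hn).2.2⟩)
  have he : 30 ≤ eL Λ W Q J := by
    unfold eL
    linarith
  have hlog2 : Real.log 2 ≤ 1 := by
    have := Real.log_two_lt_d9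
    linarith
  have hlogm1 : Real.log (m + 1) ≤ 1 + Real.log m := by
    have h1 : Real.log (m + 1) ≤ Real.log (2 * m) := Real.log_le_log (by linarith) (by linarith)
    rw [Real.log_mul (by norm_num) hm0.ne'] at h1
    linarith
  have hcard := (hSep ι K m hm0 hA.sep).2
  have mM : Monotone (PM K Q E) := monotone_nat_of_le_succ fun j => (b1 j).1
  have mL : ∀ s, Monotone (PL K Q E s) := fun s => monotone_nat_of_le_succ fun j => (b2 s j).1
  have mT : ∀ p, Monotone (PT K Q E p) := fun p => monotone_nat_of_le_succ fun j => (b3 p j).1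
  refine ⟨?_, ?_, ?_, ?_, ?_, ?_, ?_, ?_, ?_, ?_⟩
  · have h1 := log_mono (a5 0 (Nat.zero_le J)).1 b5
    unfold lM
    rw [Nat.cast_one, Real.log_one] at h1
    linarith
  · intro s
    have h1 : (1 : ℝ) ≤ PL K Q E s 0 := by exact_mod_cast (a6 s 0 (Nat.zero_le J)).1
    have h2 : (PL K Q E s 0 : ℝ) ≤ m + 1 :=
      le_trans (by exact_mod_cast b6 s) hcard
    have h3 := Real.log_le_log (by linarith) h2
    unfold lA
    linarith
  · intro i j hij hj
    exact log_mono (a5 i (hij.trans hj)).1 (mM hij)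
  · intro s i j hij hj
    have := log_mono (a6 s i (hij.trans hj)).1 (mL s hij)
    unfold lA
    linarith
  · intro p i j hij hj
    have := log_mono (a7 p i (hij.trans hj)) (mT p hij)
    unfold lT
    linarith
  · intro p i j hij hj
    have h1 := (hDrange ι K m Q J E Λ D hm0 hA.sep hQ1 hA.reg p j hj).2.2 i hij
    have h2 := (a8 p j hj).1
    have h3 := (a8 p i (hij.trans hj)).1
    have h4 := Real.log_le_log h2 h1
    rw [Real.log_mul (by norm_num) h3.ne'] at h4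
    unfold lD
    linarith
  · intro j hj
    exact log_step (a5 j hj.le).1 (a5 (j + 1) hj).1 hQ1 (b1 j).2
  · intro s j hj
    have := log_step (a6 s j hj.le).1 (a6 s (j + 1) hj).1 hQ1 (b2 s j).2
    unfold lA
    linarith
  · intro p j hj
    have := log_step (a7 p j hj.le) (a7 p (j + 1) hj) hQ1 (b3 p j).2
    unfold lT
    linarith
  · intro p j hj
    have h1 := hFlux1 ι K m Q J E Λ D hm0 hA.sep hQ1 hA.reg p j hj
    have h2 := (a8 p j hj).1
    have h3 : (0 : ℝ) < PT K Q E p j := by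
      have := a7 p j hj
      exact_mod_cast this
    have h4 := Real.log_le_log (mul_pos h3 h2) h1
    rw [Real.log_mul h3.ne' h2.ne'] at h4
    unfold lT lD
    linarith

end Pool.Agent.Work.MP_e17eac_co.DH

end

section

/-!
# Counting with all distances in logarithmic form
-/

namespace Pool.Agent.Work.MP_e17eac_co.DH

open Finset

namespace XA3

theorem log_max {a b : ℝ} (ha : 0 < a) (hb : 0 < b) :
    Real.log (max a b) = -min (-Real.log a) (-Real.log b) := by
  rcases le_total a b with h | h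
  · have h1 := Real.log_le_log ha h
    rw [max_eq_right h, min_eq_right (by linarith)]
    ring
  · have h1 := Real.log_le_log hb h
    rw [max_eq_left h, min_eq_left (by linarith)]
    ring

theorem core (P L M X Y m D W : ℝ) (hP : 1 ≤ P) (hL : 1 ≤ L) (hM : 1 ≤ M) (hm : 1 ≤ m)
    (hD : 0 < D) (hY : 3 ≤ Y) (hX : X ≤ Y) (hMm : M ≤ m) (hW : 0 ≤ W)
    (h : P ^ 2 ≤ L ^ 4 * M * (2304 * X * m ^ 2 * D + 64 * m * D * M)) :
    2 * (Real.log P - Real.log m) ≤ Real.log M + Real.log D +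
      (30 + 13 * Real.log L + 3 * W + Real.log Y) := by
  have h1 : 2304 * X * m ^ 2 * D + 64 * m * D * M ≤ 2368 * Y * m ^ 2 * D := by
    have e1 : 2304 * X * m ^ 2 * D ≤ 2304 * Y * m ^ 2 * D := by
      have : 0 ≤ m ^ 2 * D := by positivity
      nlinarith
    have e2 : 64 * m * D * M ≤ 64 * m * D * m := mul_le_mul_of_nonneg_left hMm (by positivity)
    have e3 : 64 * m * D * m ≤ 64 * Y * m ^ 2 * D := by
      have : 0 ≤ m ^ 2 * D := by positivity
      nlinarith
    linarith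
  have h2 : P ^ 2 ≤ L ^ 4 * M * (2368 * Y * m ^ 2 * D) :=
    h.trans (mul_le_mul_of_nonneg_left h1 (by positivity))
  have h3 := Real.log_le_log (by positivity) h2
  have hY0 : 0 < Y := by linarith
  have hm0 : 0 < m := by linarith
  have hL0 : 0 < L := by linarith
  have hM0 : 0 < M := by linarith
  rw [Real.log_pow, Real.log_mul (by positivity) (by positivity),
    Real.log_mul (by positivity) (by positivity), Real.log_mul (by positivity) (by positivity),
    Real.log_mul (by positivity) (by positivity), Real.log_mul (by positivity) (by positivity),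
    Real.log_pow, Real.log_pow] at h3
  have h4 : Real.log 2368 ≤ 30 := by
    have e1 : Real.log 2368 ≤ Real.log (2 ^ 12) := Real.log_le_log (by norm_num) (by norm_num)
    rw [Real.log_pow] at e1
    have := Real.log_two_lt_d9
    push_cast at e1
    linarith
  have h5 := Real.log_nonneg hL
  push_cast at h3
  linarith

end XA3

theorem I_A3 (hStar : StStar) (hA0 : StA0) : StA3 := by
  intro ι _ _ K m Q J E Λ D W hA
  obtain ⟨hlQ, hlL, hlW, -, hMj, hLj, hTj, hDj⟩ := hA0 ι K m Q J E Λ D W hA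
  have hm1 : 1 ≤ m := by have := hA.hm; linarith
  have hm0 : 0 < m := by linarith
  have hQ1 : 1 ≤ Q := by have := hA.hQ; omega
  have hPMm : ∀ j, j ≤ J → (PM K Q E j : ℝ) ≤ m := by
    intro j hj
    obtain ⟨h1, -, h3, -⟩ := hMj j hj
    have h1' : (1 : ℝ) ≤ PM K Q E j := by exact_mod_cast h1
    rw [← Real.log_le_log_iff (by linarith) hm0]
    have h4 : Real.log (PM K Q E j) ≤ 69001 * Real.log Q := h3
    have := hA.hmQ
    linarith
  have hX : ∀ j, j ≤ J → 3 + (j : ℝ) * Real.log Q ≤ 3 + (J : ℝ) * Real.log Q := by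
    intro j hj
    have : (j : ℝ) ≤ J := by exact_mod_cast hj
    have := mul_le_mul_of_nonneg_right this hlQ.le
    linarith
  have hY : 3 ≤ 3 + (J : ℝ) * Real.log Q := by
    have : 0 ≤ (J : ℝ) * Real.log Q := mul_nonneg (Nat.cast_nonneg _) hlQ.le
    linarith
  have hDm : ∀ j, j ≤ J → 0 < max (D false j) (D true j) ∧
      Real.log (max (D false j) (D true j)) = -min (lD D false j) (lD D true j) := by
    intro j hj
    have h1 := (hDj false j hj).1
    have h2 := (hDj true j hj).1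
    exact ⟨lt_max_of_lt_left h1, XA3.log_max h1 h2⟩
  constructor
  · intro s j hj
    have h := (hStar ι K m Q J E Λ D hm1 hA.sep hQ1 hA.reg j hj).1 s
    have h1 := XA3.core (PL K Q E s j) Λ (PM K Q E j) (3 + j * Real.log Q)
      (3 + J * Real.log Q) m (max (D false j) (D true j)) (Real.log W)
      (by exact_mod_cast (hLj s j hj).1) hA.reg.one_le (by exact_mod_cast (hMj j hj).1) hm1
      (hDm j hj).1 hY (hX j hj) (hPMm j hj) hlW h
    rw [(hDm j hj).2] at h1
    unfold lA lM eL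
    linarith
  · intro p j hj
    have h := (hStar ι K m Q J E Λ D hm1 hA.sep hQ1 hA.reg j hj).2 p
    have h1 := XA3.core (PT K Q E p j) Λ (PM K Q E j) (3 + j * Real.log Q)
      (3 + J * Real.log Q) m (max (D false j) (D true j)) (Real.log W)
      (by exact_mod_cast hTj p j hj) hA.reg.one_le (by exact_mod_cast (hMj j hj).1) hm1
      (hDm j hj).1 hY (hX j hj) (hPMm j hj) hlW h
    rw [(hDm j hj).2] at h1
    unfold lT lM eL
    linarith

end Pool.Agent.Work.MP_e17eac_co.DH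

end

section

/-!
# Item A4: counting with far pairs in logarithmic form
-/

namespace Pool.Agent.Work.MP_e17eac_co.DH

open Finset

namespace XA4

lemma exp_nat_lb (n : ℕ) : (2.7 : ℝ) ^ n ≤ Real.exp n := by
  have h1 : (2.7 : ℝ) ≤ Real.exp 1 := by
    have := Real.exp_one_gt_d9
    linarith
  have h2 : Real.exp n = Real.exp 1 ^ n := by
    rw [← Real.exp_nat_mul, mul_one]
  rw [h2]
  exact pow_le_pow_left₀ (by norm_num) h1 n

lemma log_le_nat (a : ℝ) (n : ℕ) (ha : 0 < a) (h : a ≤ (2.7 : ℝ) ^ n) : Real.log a ≤ n := by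
  rw [Real.log_le_iff_le_exp ha]
  exact h.trans (exp_nat_lb n)

lemma log768 : Real.log 768 ≤ 7 := by
  have := log_le_nat 768 7 (by norm_num) (by norm_num)
  exact_mod_cast this

lemma log2560 : Real.log 2560 ≤ 8 := by
  have := log_le_nat 2560 8 (by norm_num) (by norm_num)
  exact_mod_cast this

lemma log1280 : Real.log 1280 ≤ 8 := by
  have := log_le_nat 1280 8 (by norm_num) (by norm_num)
  exact_mod_cast this

lemma log24 : Real.log 24 ≤ 4 := by
  have := log_le_nat 24 4 (by norm_num) (by norm_num)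
  exact_mod_cast this

lemma log4 : Real.log 4 ≤ 2 := by
  have := log_le_nat 4 2 (by norm_num) (by norm_num)
  exact_mod_cast this

/-- The hypothesis of the far counting. -/
lemma farhyp (θ Λ P0 Pi Q : ℝ) (hP0 : 0 ≤ P0) (hQ : 768 * Λ ^ 5 ≤ Q)
    (hQ0 : 0 < Q) (hθ : 1 ≤ θ * (4 * Q ^ 2)) (h : P0 * Q ^ 5 ≤ Pi) :
    48 * Λ ^ 5 * P0 ≤ θ ^ 2 * Pi := by
  have h1 : 1 ≤ (θ * (4 * Q ^ 2)) ^ 2 := one_le_pow₀ hθ
  have h2 : (θ * (4 * Q ^ 2)) ^ 2 = θ ^ 2 * Q ^ 4 * 16 := by ring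
  have h3 : 1 ≤ θ ^ 2 * Q ^ 4 * 16 := by rw [← h2]; exact h1
  have h4 : θ ^ 2 * (P0 * Q ^ 5) ≤ θ ^ 2 * Pi := mul_le_mul_of_nonneg_left h (sq_nonneg _)
  have h5 : 48 * Λ ^ 5 * P0 ≤ Q / 16 * P0 := by
    apply mul_le_mul_of_nonneg_right _ hP0
    linarith
  have h6 : Q / 16 * P0 * 1 ≤ Q / 16 * P0 * (θ ^ 2 * Q ^ 4 * 16) :=
    mul_le_mul_of_nonneg_left h3 (by positivity)
  have h7 : Q / 16 * P0 * (θ ^ 2 * Q ^ 4 * 16) = θ ^ 2 * (P0 * Q ^ 5) := by ring
  linarith

/-- Logarithms, far case. -/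
lemma case1 (θ P M Λ m Δ q : ℝ) (hθ : 0 < θ) (hP : 0 < P) (hM : 0 < M) (hΛ : 0 < Λ) (hm : 0 < m)
    (hΔ : 0 < Δ) (hq : 0 < q)
    (h : θ ^ 5 * P ^ 2 ≤ 64 * Λ ^ 10 * M ^ 2 * (8 * m * Δ + 1) * (2 * m * Δ / q + 1))
    (h1 : 1 ≤ 2 * m * Δ) (h2 : 1 ≤ 2 * m * Δ / q) :
    5 * Real.log θ + 2 * Real.log P + Real.log q ≤
      8 + 10 * Real.log Λ + 2 * Real.log M + 2 * Real.log m + 2 * Real.log Δ := by
  have h3 : θ ^ 5 * P ^ 2 ≤ 2560 * Λ ^ 10 * M ^ 2 * (m ^ 2 * Δ ^ 2) / q := by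
    have e1 : 64 * Λ ^ 10 * M ^ 2 * (8 * m * Δ + 1) * (2 * m * Δ / q + 1) ≤
        64 * Λ ^ 10 * M ^ 2 * (10 * m * Δ) * (4 * m * Δ / q) := by
      apply mul_le_mul
      · apply mul_le_mul_of_nonneg_left _ (by positivity)
        linarith
      · have : 4 * m * Δ / q = 2 * m * Δ / q + 2 * m * Δ / q := by ring
        linarith
      · positivity
      · positivity
    have e2 : 64 * Λ ^ 10 * M ^ 2 * (10 * m * Δ) * (4 * m * Δ / q) =
        2560 * Λ ^ 10 * M ^ 2 * (m ^ 2 * Δ ^ 2) / q := by ring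
    linarith
  have h4 : θ ^ 5 * P ^ 2 * q ≤ 2560 * Λ ^ 10 * M ^ 2 * (m ^ 2 * Δ ^ 2) := by
    rwa [le_div_iff₀ hq] at h3
  have h5 := Real.log_le_log (by positivity) h4
  have h6 : Real.log (θ ^ 5 * P ^ 2 * q) = 5 * Real.log θ + 2 * Real.log P + Real.log q := by
    rw [Real.log_mul (by positivity) (by positivity), Real.log_mul (by positivity) (by positivity),
      Real.log_pow, Real.log_pow]
    push_cast
    ring
  have h7 : Real.log (2560 * Λ ^ 10 * M ^ 2 * (m ^ 2 * Δ ^ 2)) =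
      Real.log 2560 + 10 * Real.log Λ + 2 * Real.log M + 2 * Real.log m + 2 * Real.log Δ := by
    rw [Real.log_mul (by positivity) (by positivity), Real.log_mul (by positivity) (by positivity),
      Real.log_mul (by positivity) (by positivity), Real.log_mul (by positivity) (by positivity),
      Real.log_pow, Real.log_pow, Real.log_pow, Real.log_pow]
    push_cast
    ring
  have h8 := log2560
  rw [h6, h7] at h5
  linarith

/-- Logarithms, near case. -/
lemma case2 (θ P M Λ m Δ q : ℝ) (hθ : 0 < θ) (hP : 0 < P) (hM : 0 < M) (hΛ : 0 < Λ) (hm : 0 < m)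
    (hΔ : 0 < Δ) (hq : 0 < q)
    (h : θ ^ 5 * P ^ 2 ≤ 64 * Λ ^ 10 * M ^ 2 * (8 * m * Δ + 1) * (2 * m * Δ / q + 1))
    (h1 : 1 ≤ 2 * m * Δ) (h2 : 2 * m * Δ / q < 1) :
    5 * Real.log θ + 2 * Real.log P ≤
      8 + 10 * Real.log Λ + 2 * Real.log M + Real.log m + Real.log Δ := by
  have h4 : θ ^ 5 * P ^ 2 ≤ 1280 * Λ ^ 10 * M ^ 2 * (m * Δ) := by
    have e1 : 64 * Λ ^ 10 * M ^ 2 * (8 * m * Δ + 1) * (2 * m * Δ / q + 1) ≤
        64 * Λ ^ 10 * M ^ 2 * (10 * m * Δ) * 2 := by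
      apply mul_le_mul
      · apply mul_le_mul_of_nonneg_left _ (by positivity)
        linarith
      · linarith
      · positivity
      · positivity
    have e2 : 64 * Λ ^ 10 * M ^ 2 * (10 * m * Δ) * 2 =
        1280 * Λ ^ 10 * M ^ 2 * (m * Δ) := by ring
    linarith
  have h5 := Real.log_le_log (by positivity) h4
  have h6 : Real.log (θ ^ 5 * P ^ 2) = 5 * Real.log θ + 2 * Real.log P := by
    rw [Real.log_mul (by positivity) (by positivity),
      Real.log_pow, Real.log_pow]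
    push_cast
    ring
  have h7 : Real.log (1280 * Λ ^ 10 * M ^ 2 * (m * Δ)) =
      Real.log 1280 + 10 * Real.log Λ + 2 * Real.log M + Real.log m + Real.log Δ := by
    rw [Real.log_mul (by positivity) (by positivity), Real.log_mul (by positivity) (by positivity),
      Real.log_mul (by positivity) (by positivity), Real.log_mul (by positivity) (by positivity),
      Real.log_pow, Real.log_pow]
    push_cast
    ring
  have h8 := log1280
  rw [h6, h7] at h5
  linarith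

/-- Upper bound for `log Δ`. -/
lemma logDelta (Q Λ Δ e : ℝ) (hQ : 0 < Q) (hΛ : 0 < Λ) (hΔ : 0 < Δ)
    (h : Δ ≤ 24 * Q * Λ ^ 2 * Real.exp e) :
    Real.log Δ ≤ 4 + Real.log Q + 2 * Real.log Λ + e := by
  have h1 := Real.log_le_log hΔ h
  rw [Real.log_mul (by positivity) (by positivity), Real.log_mul (by positivity) (by positivity),
      Real.log_mul (by positivity) (by positivity), Real.log_pow, Real.log_exp] at h1
  push_cast at h1
  have h2 := log24
  linarith

/-- Lower bound for `log θ`. -/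
lemma logTheta (Q θ : ℝ) (hQ : 0 < Q) (hθ : 0 < θ) (h : 1 ≤ θ * (4 * Q ^ 2)) :
    -2 - 2 * Real.log Q ≤ Real.log θ := by
  have h1 := Real.log_le_log (by norm_num) h
  rw [Real.log_one, Real.log_mul (by positivity) (by positivity),
    Real.log_mul (by positivity) (by positivity), Real.log_pow] at h1
  push_cast at h1
  have h2 := log4
  linarith

end XA4

theorem I_A4 (hFar : StFar) (hInc : StInc) (hA0 : StA0) (hA1 : StA1) (hA2 : StA2) : StA4 := by
  intro ι _ _ K m Q J E Λ D W hA s i j hij hjJ hi E2 θ Δ hE2 hθ hθ1 hcard hΔ1 hΔ2 hflat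
  obtain ⟨hX, hlΛ, hlW, hl3, hPM, hPL, hPT, hD⟩ := hA0 ι K m Q J E Λ D W hA
  obtain ⟨-, -, -, hLmono, -, -, -, -, -, -⟩ := hA1 ι K m Q J E Λ D W hA
  obtain ⟨hlo, -, -⟩ := hA2 ι K m Q J E Λ D W hA
  have hm2 := hA.hm
  have hm : 0 < m := by linarith
  have hQ2 := hA.hQ
  have hQ : (0 : ℝ) < (Q : ℝ) := by
    have : 0 < Q := by omega
    exact_mod_cast this
  have hΛ1 := hA.reg.one_le
  have hΛ : 0 < Λ := by linarith
  have he := hA.he
  have hmQ := hA.hmQ
  have hedef : eL Λ W Q J = 30 + 13 * Real.log Λ + 3 * Real.log W +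
    Real.log (3 + J * Real.log Q) := rfl
  -- positivity of `θ` and `Δ`
  have hθ0 : 0 < θ := by
    by_contra hcon
    have h1 : θ * (4 * (Q : ℝ) ^ 2) ≤ 0 := mul_nonpos_of_nonpos_of_nonneg (not_lt.mp hcon)
      (by positivity)
    linarith
  have hΔ0 : 0 < Δ := by
    by_contra hcon
    have h1 : 2 * m * Δ ≤ 0 := mul_nonpos_of_nonneg_of_nonpos (by positivity) (not_lt.mp hcon)
    linarith
  -- the counts are positive
  have hPLj := (hPL s j hjJ).1
  have hPLi := (hPL s i (hij.trans hjJ)).1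
  have hPL0 := (hPL s 0 (Nat.zero_le _)).1
  have hPMj := (hPM j hjJ).1
  have pPLj : (0 : ℝ) < (PL K Q E s j : ℝ) := by exact_mod_cast hPLj
  have pPLi : (0 : ℝ) < (PL K Q E s i : ℝ) := by exact_mod_cast hPLi
  have pPL0 : (0 : ℝ) < (PL K Q E s 0 : ℝ) := by exact_mod_cast hPL0
  have pPMj : (0 : ℝ) < (PM K Q E j : ℝ) := by exact_mod_cast hPMj
  -- `Q` is large
  have hQbig : 768 * Λ ^ 5 ≤ (Q : ℝ) := by
    have h1 : Real.log (768 * Λ ^ 5) ≤ Real.log Q := by
      rw [Real.log_mul (by positivity) (by positivity), Real.log_pow]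
      have := XA4.log768
      push_cast
      linarith
    exact (Real.log_le_log_iff (by positivity) hQ).mp h1
  -- the ratio of the counts
  have hratio : (PL K Q E s 0 : ℝ) * (Q : ℝ) ^ 5 ≤ (PL K Q E s i : ℝ) := by
    have h1 : Real.log ((PL K Q E s 0 : ℝ) * (Q : ℝ) ^ 5) ≤ Real.log (PL K Q E s i : ℝ) := by
      rw [Real.log_mul (by positivity) (by positivity), Real.log_pow]
      unfold lA at hi
      push_cast
      linarith
    exact (Real.log_le_log_iff (by positivity) pPLi).mp h1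
  have hfh := XA4.farhyp θ Λ _ _ (Q : ℝ) pPL0.le hQbig hQ hθ hratio
  have hfar := hFar ι K m Q J E Λ D (by linarith) hA.sep (by omega) hA.reg s i j hij hjJ E2 θ Δ
    hE2 hθ0 hθ1 hΔ0.le hcard hflat hfh
  have hq : (0 : ℝ) < (Q : ℝ) ^ (j - i) := by positivity
  have hlogq : Real.log ((Q : ℝ) ^ (j - i)) = ((j : ℝ) - i) * Real.log Q := by
    rw [Real.log_pow, Nat.cast_sub hij]
  rcases le_or_gt 1 (2 * m * Δ / (Q : ℝ) ^ (j - i)) with hc | hc
  · have h1 := XA4.case1 θ _ _ Λ m Δ _ hθ0 pPLj pPMj hΛ hm hΔ0 hq hfar hΔ1 hc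
    rw [hlogq] at h1
    unfold lA lM
    linarith
  · exfalso
    have h1 := XA4.case2 θ _ _ Λ m Δ _ hθ0 pPLj pPMj hΛ hm hΔ0 hq hfar hΔ1 hc
    have h2 := XA4.logDelta (Q : ℝ) Λ Δ _ hQ hΛ hΔ0 hΔ2
    have h3 := XA4.logTheta (Q : ℝ) θ hQ hθ0 hθ
    have h4 := hLmono s 0 j (Nat.zero_le _) hjJ
    have h5 := hlo s
    have h6 := (hPM j hjJ).2.2.1
    have h7 : Real.log m - eL Λ W Q J ≤ Real.log (PL K Q E s j : ℝ) := by
      have h8 : lA K m Q E s j = Real.log (PL K Q E s j) - Real.log m := rfl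
      linarith
    have h9 : lM K Q E j = Real.log (PM K Q E j) := rfl
    rw [h9] at h6
    linarith

end Pool.Agent.Work.MP_e17eac_co.DH

end

section

namespace Pool.Agent.Work.MP_e17eac_co.DH

open Finset

namespace XA5

lemma log_max {a b : ℝ} (ha : 0 < a) (hb : 0 < b) :
    Real.log (max a b) = - min (- Real.log a) (- Real.log b) := by
  rcases le_total a b with h | h
  · have h1 : Real.log a ≤ Real.log b := Real.log_le_log ha h
    rw [max_eq_right h, min_eq_right (by linarith)]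
    ring
  · have h1 : Real.log b ≤ Real.log a := Real.log_le_log hb h
    rw [max_eq_left h, min_eq_left (by linarith)]
    ring

lemma log_min {a b : ℝ} (ha : 0 < a) (hb : 0 < b) :
    Real.log (min a b) = - max (- Real.log a) (- Real.log b) := by
  rcases le_total a b with h | h
  · have h1 : Real.log a ≤ Real.log b := Real.log_le_log ha h
    rw [min_eq_left h, max_eq_left (by linarith)]
    ring
  · have h1 : Real.log b ≤ Real.log a := Real.log_le_log hb h
    rw [min_eq_right h, max_eq_right (by linarith)]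
    ring

lemma br {Λ c : ℝ} {P0 P1 : ℕ} (hΛ : 1 ≤ Λ) (h0 : 1 ≤ P0) (h1 : 1 ≤ P1)
    (h : Real.log P0 - c + (2 * Real.log Λ + Real.log 3) < Real.log P1 - c) :
    3 * Λ ^ 2 * P0 ≤ P1 := by
  have hP0 : (0 : ℝ) < P0 := by exact_mod_cast h0
  have hP1 : (0 : ℝ) < P1 := by exact_mod_cast h1
  have hΛ' : (0 : ℝ) < Λ := by linarith
  have e1 : Real.log (3 * Λ ^ 2 * P0) = Real.log P0 + (2 * Real.log Λ + Real.log 3) := by
    rw [Real.log_mul (by positivity) (by positivity), Real.log_mul (by norm_num) (by positivity),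
      Real.log_pow]
    push_cast
    ring
  have h2 : Real.log (3 * Λ ^ 2 * P0) < Real.log P1 := by rw [e1]; linarith
  exact ((Real.log_lt_log_iff (by positivity) hP1).mp h2).le

lemma log4 : Real.log 4 ≤ 1.4 := by
  have h := Real.log_two_lt_d9
  have e : Real.log 4 = 2 * Real.log 2 := by
    rw [show (4 : ℝ) = 2 ^ 2 by norm_num, Real.log_pow]
    norm_num
  rw [e]
  norm_num at h ⊢
  linarith

lemma log8 : Real.log 8 ≤ 2.1 := by
  have h := Real.log_two_lt_d9
  have e : Real.log 8 = 3 * Real.log 2 := by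
    rw [show (8 : ℝ) = 2 ^ 3 by norm_num, Real.log_pow]
    norm_num
  rw [e]
  norm_num at h ⊢
  linarith

lemma log6 : Real.log 6 ≤ 2.1 := by
  have h1 : Real.log 6 ≤ Real.log 8 := Real.log_le_log (by norm_num) (by norm_num)
  linarith [log8]

lemma card_le {Q : ℕ} (hQ : 2 ≤ Q) {E E2 : Finset ℕ} (h : E.card ≤ Q ^ 2 * E2.card) :
    1 / (Q : ℝ) ^ 2 * E.card ≤ E2.card := by
  have hQ0 : (0 : ℝ) < (Q : ℝ) ^ 2 := by positivity
  have h' : (E.card : ℝ) ≤ (Q : ℝ) ^ 2 * E2.card := by exact_mod_cast h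
  rw [div_mul_eq_mul_div, one_mul, div_le_iff₀ hQ0]
  linarith

end XA5

open XA5

theorem I_A5 (hA4 : StA4) (hA0 : StA0) (hFlat0 : StFlat0) (hBrT : StBrT) (hBrL : StBrL)
    (hFlatX : StFlatX) : StA5 := by
  intro ι _ _ K m Q J E Λ D W hA
  obtain ⟨hX, hlam, hlW, hl3, -, hPL, hPT, hD⟩ := hA0 ι K m Q J E Λ D W hA
  have A4 := hA4 ι K m Q J E Λ D W hA
  have hΛ : 1 ≤ Λ := hA.reg.one_le
  have hQ2 : (2 : ℝ) ≤ Q := by exact_mod_cast hA.hQ
  have hQ0 : (0 : ℝ) < Q := by linarith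
  have hQ1 : 1 ≤ Q := le_trans (by norm_num) hA.hQ
  have he := hA.he
  have heL : eL Λ W Q J = 30 + 13 * Real.log Λ + 3 * Real.log W + Real.log (3 + J * Real.log Q) :=
    rfl
  have he0 : 30 + 13 * Real.log Λ ≤ eL Λ W Q J := by rw [heL]; linarith
  have hexp : 1 ≤ Real.exp (eL Λ W Q J) := Real.one_le_exp (by linarith)
  have hm := hA.hm
  have hrange : ∀ p j, j ≤ J → D p j ≤ 1 := by
    intro p j hj
    have h1 := (hD p j hj).1
    have h2 := (hD p j hj).2.1
    unfold lD at h2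
    by_contra h3
    push Not at h3
    have := Real.log_pos h3
    linarith
  -- upper bound for `Δ`
  have hup : ∀ Δ : ℝ, Δ ≤ 8 * Q → Δ ≤ 24 * Q * Λ ^ 2 * Real.exp (eL Λ W Q J) := by
    intro Δ h
    have h1 : 1 ≤ Λ ^ 2 := one_le_pow₀ hΛ
    have h2 : 1 ≤ Λ ^ 2 * Real.exp (eL Λ W Q J) := one_le_mul_of_one_le_of_one_le h1 hexp
    have h3 : 24 * (Q : ℝ) * 1 ≤ 24 * Q * (Λ ^ 2 * Real.exp (eL Λ W Q J)) :=
      mul_le_mul_of_nonneg_left h2 (by positivity)
    calc Δ ≤ 8 * Q := h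
      _ ≤ 24 * (Q : ℝ) * 1 := by linarith
      _ ≤ 24 * Q * (Λ ^ 2 * Real.exp (eL Λ W Q J)) := h3
      _ = _ := by ring
  have hth : 1 ≤ 1 / (Q : ℝ) ^ 2 * (4 * (Q : ℝ) ^ 2) := by
    field_simp
    norm_num
  have hth1 : 1 / (Q : ℝ) ^ 2 ≤ 1 := by
    rw [div_le_one (by positivity)]
    exact one_le_pow₀ (by linarith)
  have hlth : Real.log (1 / (Q : ℝ) ^ 2) = - 2 * Real.log Q := by
    rw [one_div, Real.log_inv, Real.log_pow]
    push_cast
    ring
  refine ⟨?_, ?_, ?_⟩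
  · -- (1)
    intro s i j hij hj hcond
    have hDf := (hD false j hj)
    have hDt := (hD true j hj)
    have hmaxpos : 0 < max (D false j) (D true j) := lt_max_of_lt_left hDf.1
    have h := A4 s i j hij hj hcond E 1 (4 * max (D false j) (D true j)) (Subset.refl _)
      (by rw [one_mul]; nlinarith) le_rfl (by rw [one_mul])
      (by
        have h1 := hDf.2.2
        have h2 : D false j ≤ max (D false j) (D true j) := le_max_left _ _
        have h3 : 2 * m * D false j ≤ 2 * m * max (D false j) (D true j) :=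
          mul_le_mul_of_nonneg_left h2 (by linarith)
        nlinarith)
      (by
        apply hup
        have h1 : max (D false j) (D true j) ≤ 1 := max_le (hrange false j hj) (hrange true j hj)
        linarith)
      (fun n hn n' hn' hc => hFlat0 ι K Q J E Λ D hQ1 hA.reg j hj n hn n' hn' hc s s)
    rw [Real.log_mul (by norm_num) hmaxpos.ne', log_max hDf.1 hDt.1, Real.log_one] at h
    have e1 : -Real.log (D false j) = lD D false j := rfl
    have e2 : -Real.log (D true j) = lD D true j := rfl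
    rw [e1, e2] at h
    have := log4
    linarith
  · -- (2)
    intro s p i j hij hj hcond hbr
    have hj' : j ≤ J := hj.le
    have hDp := (hD p j hj')
    have hb : 3 * Λ ^ 2 * PT K Q E p j ≤ PT K Q E p (j + 1) :=
      br hΛ (hPT p j hj') (hPT p (j + 1) hj) hbr
    obtain ⟨E2, hE2, hcard, hflat⟩ := hBrT ι K Q J E Λ D hA.hQ hA.reg p j hj hb
    have h := A4 s i j hij hj' hcond E2 (1 / (Q : ℝ) ^ 2) (6 * Q * D p j) hE2
      hth hth1 (card_le hA.hQ hcard)
      (by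
        have h1 := hDp.2.2
        have h2 : 2 * m * (6 * Q * D p j) = (6 * Q) * (2 * m * D p j) := by ring
        rw [h2]
        nlinarith)
      (by
        apply hup
        have h1 := hrange p j hj'
        have h2 : 6 * (Q : ℝ) * D p j ≤ 6 * Q * 1 := mul_le_mul_of_nonneg_left h1 (by positivity)
        linarith)
      (fun n hn n' hn' hc => hflat s n hn n' hn' hc)
    rw [Real.log_mul (by positivity) hDp.1.ne', Real.log_mul (by norm_num) hQ0.ne', hlth] at h
    have e1 : Real.log (D p j) = - lD D p j := by unfold lD; ring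
    rw [e1] at h
    have := log6
    linarith
  · -- (3)
    intro s q i j hij hj hcond hbr
    have hj' : j ≤ J := hj.le
    have hDf := (hD false j hj')
    have hDt := (hD true j hj')
    have hb : 3 * Λ ^ 2 * PL K Q E q j ≤ PL K Q E q (j + 1) :=
      br hΛ (hPL q j hj').1 (hPL q (j + 1) hj).1 hbr
    have hminpos : 0 < min (D false j) (D true j) := lt_min hDf.1 hDt.1
    obtain ⟨E2, hE2, hcard, hflat⟩ := hBrL ι K Q J E Λ D hA.hQ hA.reg q j hj hb
    have h := A4 s i j hij hj' hcond E2 (1 / (Q : ℝ) ^ 2) (8 * Q * min (D false j) (D true j)) hE2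
      hth hth1 (card_le hA.hQ hcard)
      (by
        have h0 : 1 ≤ 2 * m * min (D false j) (D true j) := by
          rcases min_choice (D false j) (D true j) with h | h
          · rw [h]; exact hDf.2.2
          · rw [h]; exact hDt.2.2
        have h2 : 2 * m * (8 * Q * min (D false j) (D true j)) =
          (8 * Q) * (2 * m * min (D false j) (D true j)) := by ring
        rw [h2]
        nlinarith)
      (by
        apply hup
        have h1 : min (D false j) (D true j) ≤ 1 := le_trans (min_le_left _ _) (hrange false j hj')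
        have h2 : 8 * (Q : ℝ) * min (D false j) (D true j) ≤ 8 * Q * 1 :=
          mul_le_mul_of_nonneg_left h1 (by positivity)
        linarith)
      (fun n hn n' hn' hc => hflat s n hn n' hn' hc)
    rw [Real.log_mul (by positivity) hminpos.ne', Real.log_mul (by norm_num) hQ0.ne', hlth,
      log_min hDf.1 hDt.1] at h
    have e1 : -Real.log (D false j) = lD D false j := rfl
    have e2 : -Real.log (D true j) = lD D true j := rfl
    rw [e1, e2] at h
    have := log8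
    linarith

end Pool.Agent.Work.MP_e17eac_co.DH

end

section

/-!
# Far pairs: flatness by the displacement of the start tokens
-/

namespace Pool.Agent.Work.MP_e17eac_co.DH

open Finset

namespace XA6

theorem log24 : Real.log 24 ≤ 3.466 := by
  have h1 : Real.log 24 ≤ Real.log ((2 : ℝ) ^ 5) := Real.log_le_log (by norm_num) (by norm_num)
  rw [Real.log_pow] at h1
  have h2 := Real.log_two_lt_d9
  push_cast at h1
  linarith

theorem log4 : Real.log 4 ≤ 1.3863 := by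
  have h1 : Real.log 4 = Real.log ((2 : ℝ) ^ 2) := by norm_num
  rw [h1, Real.log_pow]
  have h2 := Real.log_two_lt_d9
  push_cast
  linarith

theorem log48 : 1 ≤ Real.log 48 := by
  rw [Real.le_log_iff_exp_le (by norm_num)]
  have := Real.exp_one_lt_d9
  linarith

end XA6

open XA6 in
theorem I_A6 (hA4 : StA4) (hA0 : StA0) (hA1 : StA1) (hA2 : StA2) (hBrS : StBrS) : StA6 := by
  intro ι _ _ K m Q J E Λ D W h s i j hij hjJ hlarge hgrow
  obtain ⟨a1, a2, a3, a4, -, a6, -, -⟩ := hA0 ι K m Q J E Λ D W h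
  obtain ⟨-, -, -, b4, -, -, -, -, -, -⟩ := hA1 ι K m Q J E Λ D W h
  obtain ⟨c1, -, -⟩ := hA2 ι K m Q J E Λ D W h
  set X := Real.log Q with hX
  have hm2 := h.hm
  have hm0 : (0 : ℝ) < m := by linarith
  have hm1 : (1 : ℝ) ≤ m := by linarith
  have hQ2 : (2 : ℝ) ≤ Q := by exact_mod_cast h.hQ
  have hQ0 : (0 : ℝ) < Q := by linarith
  have hΛ1 := h.reg.one_le
  have hΛ0 : (0 : ℝ) < Λ := by linarith
  have hP1 : 1 ≤ PL K Q E s j := (a6 s j hjJ.le).1
  have hP0 : (0 : ℝ) < PL K Q E s j := by exact_mod_cast hP1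
  have hP1' : 1 ≤ PL K Q E s (j + 1) := (a6 s (j + 1) hjJ).1
  have hP0' : (0 : ℝ) < PL K Q E s (j + 1) := by exact_mod_cast hP1'
  have hAj : lA K m Q E s j = Real.log (PL K Q E s j) - Real.log m := rfl
  have hAj' : lA K m Q E s (j + 1) = Real.log (PL K Q E s (j + 1)) - Real.log m := rfl
  -- the branching
  have hbr : 3 * Λ ^ 2 * (PL K Q E s j : ℝ) ≤ PL K Q E s (j + 1) := by
    rw [← Real.log_le_log_iff (by positivity) hP0', Real.log_mul (by positivity) hP0.ne',
      Real.log_mul (by norm_num) (by positivity), Real.log_pow]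
    rw [hAj, hAj'] at hgrow
    push_cast
    linarith
  obtain ⟨E2, hE2, hcard, hflat⟩ := hBrS ι K m Q J E Λ D hm1 h.sep h.hQ h.reg s j hjJ hbr
  have hcard' : (E.card : ℝ) ≤ 4 * Q ^ 2 * E2.card := by exact_mod_cast hcard
  -- the logarithm of `Δ`
  have hΔ : Real.log (24 * Q * Λ ^ 2 * m / PL K Q E s j) =
      Real.log 24 + X + 2 * Real.log Λ - lA K m Q E s j := by
    rw [Real.log_div (by positivity) hP0.ne', Real.log_mul (by positivity) hm0.ne',
      Real.log_mul (by positivity) (by positivity), Real.log_mul (by norm_num) hQ0.ne',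
      Real.log_pow, hAj]
    push_cast
    ring
  have hθ : Real.log (1 / (4 * (Q : ℝ) ^ 2)) = -(Real.log 4 + 2 * X) := by
    rw [one_div, Real.log_inv, Real.log_mul (by norm_num) (by positivity), Real.log_pow]
    push_cast
    ring
  have hup := (a6 s j hjJ.le).2
  have hmQ := h.hmQ
  have h4 := hA4 ι K m Q J E Λ D W h s i j hij hjJ.le hlarge E2 (1 / (4 * (Q : ℝ) ^ 2))
    (24 * Q * Λ ^ 2 * m / PL K Q E s j) hE2 ?_ ?_ ?_ ?_ ?_ hflat
  · rw [hΔ, hθ] at h4
    have he := h.he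
    unfold eL at he
    have h24 := log24
    have h44 := log4
    have hX' : 11 + 7 * Real.log Λ ≤ X := by linarith
    have e1 : ((j : ℝ) - i) * X / 2 = (((j : ℝ) - i) * X) / 2 := rfl
    rw [e1]
    linarith
  · rw [one_div, inv_mul_cancel₀ (by positivity)]
  · rw [div_le_one (by positivity)]
    nlinarith
  · rw [one_div, inv_mul_le_iff₀ (by positivity)]
    exact hcard'
  · rw [← mul_div_assoc, le_div_iff₀ hP0, one_mul]
    have h5 : (PL K Q E s j : ℝ) ≤ 48 * Q * Λ ^ 2 * m ^ 2 := by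
      rw [← Real.log_le_log_iff hP0 (by positivity), Real.log_mul (by positivity) (by positivity),
        Real.log_mul (by positivity) (by positivity), Real.log_mul (by norm_num) hQ0.ne',
        Real.log_pow, Real.log_pow]
      have h48 := log48
      rw [hAj] at hup
      push_cast
      linarith
    calc (PL K Q E s j : ℝ) ≤ _ := h5
      _ = _ := by ring
  · have h6 : m / PL K Q E s j ≤ Real.exp (eL Λ W Q J) := by
      rw [← Real.log_le_iff_le_exp (by positivity), Real.log_div hm0.ne' hP0.ne']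
      have h7 := c1 s
      have h8 := b4 s 0 j (Nat.zero_le _) hjJ.le
      rw [hAj] at h8
      linarith
    calc 24 * Q * Λ ^ 2 * m / PL K Q E s j = 24 * Q * Λ ^ 2 * (m / PL K Q E s j) := by ring
      _ ≤ _ := mul_le_mul_of_nonneg_left h6 (by positivity)

end Pool.Agent.Work.MP_e17eac_co.DH

end

section

set_option autoImplicit false

/-!
# MP_e17eac_co, project DH, item ASY: asymptotics
-/

open Filter Topology

namespace Pool.Agent.Work.MP_e17eac_co.DH

namespace XASY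

lemma ev (ε : ℝ) (hε : 0 < ε) : ∀ᶠ x : ℝ in atTop, Real.log (1 + x) ≤ ε * x := by
  have h1 : ∀ᶠ y : ℝ in atTop, ‖Real.log y‖ ≤ ε / 2 * ‖id y‖ :=
    Real.isLittleO_log_id_atTop.def (half_pos hε)
  have h2 : Tendsto (fun x : ℝ => 1 + x) atTop atTop := tendsto_atTop_add_const_left _ _ tendsto_id
  filter_upwards [h2.eventually h1, eventually_ge_atTop (1 : ℝ)] with x hx hx1
  have h3 : Real.log (1 + x) ≤ ε / 2 * (1 + x) := by
    calc Real.log (1 + x) ≤ ‖Real.log (1 + x)‖ := Real.le_norm_self _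
      _ ≤ ε / 2 * ‖id (1 + x)‖ := hx
      _ = ε / 2 * (1 + x) := by rw [id, Real.norm_of_nonneg (by linarith)]
  nlinarith

end XASY

theorem I_ASY : StAsy := by
  intro ε hε
  have h1 : ∀ᶠ m : ℝ in atTop, Real.log (1 + Real.log m) ≤ ε * Real.log m :=
    Real.tendsto_log_atTop.eventually (XASY.ev ε hε)
  have h2 : ∀ᶠ m : ℝ in atTop, 1 / ε ≤ Real.log m :=
    Real.tendsto_log_atTop.eventually (eventually_ge_atTop (1 / ε))
  obtain ⟨m1, hm1⟩ := eventually_atTop.1 (h1.and h2)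
  refine ⟨max 100 m1, le_max_left _ _, fun m hm => ?_⟩
  obtain ⟨h3, h4⟩ := hm1 m ((le_max_right _ _).trans hm)
  refine ⟨?_, h3⟩
  rw [div_le_iff₀ hε] at h4
  linarith

end Pool.Agent.Work.MP_e17eac_co.DH

end

section

set_option autoImplicit false

namespace Pool.Agent.Work.MP_e17eac_co.DH

namespace XDIR

/-- polar coordinates with angle in `[0, 2 pi)` -/
theorem polar (x y : ℝ) (h : x ≠ 0 ∨ y ≠ 0) : ∃ r φ : ℝ, 0 < r ∧ 0 ≤ φ ∧ φ < 2 * Real.pi ∧
    x = r * Real.cos φ ∧ y = r * Real.sin φ := by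
  set z : ℂ := ⟨x, y⟩ with hz
  have hz0 : z ≠ 0 := by
    intro h0
    rcases h with h | h
    · exact h (by have := congrArg Complex.re h0; simpa [hz] using this)
    · exact h (by have := congrArg Complex.im h0; simpa [hz] using this)
  have hr : 0 < ‖z‖ := norm_pos_iff.2 hz0
  have hc : x = ‖z‖ * Real.cos (Complex.arg z) := by
    rw [Complex.norm_mul_cos_arg]
  have hs : y = ‖z‖ * Real.sin (Complex.arg z) := by
    rw [Complex.norm_mul_sin_arg]
  have hpi := Real.pi_pos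
  rcases le_or_gt 0 (Complex.arg z) with h1 | h1
  · refine ⟨‖z‖, Complex.arg z, hr, h1, ?_, hc, hs⟩
    have := Complex.arg_le_pi z
    linarith
  · refine ⟨‖z‖, Complex.arg z + 2 * Real.pi, hr, ?_, by linarith, ?_, ?_⟩
    · have := Complex.neg_pi_lt_arg z
      linarith
    · rw [Real.cos_add_two_pi]; exact hc
    · rw [Real.sin_add_two_pi]; exact hs

end XDIR

open XDIR in
theorem I_DIR  : StDir := by
  intro R p q hR hpq
  have hne : q.1 - p.1 ≠ 0 ∨ q.2 - p.2 ≠ 0 := by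
    by_contra h
    push Not at h
    apply hpq
    ext
    · linarith [h.1]
    · linarith [h.2]
  obtain ⟨r, φ, hr, hφ0, hφ, h1, h2⟩ := polar _ _ hne
  have hRp : (0 : ℝ) < 10 * R := by linarith
  set i := ⌊10 * R * φ⌋₊ with hi
  have hlo : (i : ℝ) ≤ 10 * R * φ := Nat.floor_le (by positivity)
  have hhi : 10 * R * φ < i + 1 := Nat.lt_floor_add_one _
  set θ := (i : ℝ) / (10 * R) with hθ
  have hθ1 : θ ≤ φ := by
    rw [hθ, div_le_iff₀ hRp]
    linarith
  have hθ2 : φ - θ < 1 / (10 * R) := by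
    rw [hθ, lt_div_iff₀ hRp, sub_mul, div_mul_cancel₀ _ hRp.ne']
    linarith
  set ψ := φ - θ with hψ
  have hψ0 : 0 ≤ ψ := by linarith
  have hψ1 : ψ < 1 / 10 := by
    refine lt_of_lt_of_le hθ2 ?_
    apply one_div_le_one_div_of_le (by norm_num)
    linarith
  have hcos : (0.99 : ℝ) ≤ Real.cos ψ := by
    have := Real.one_sub_sq_div_two_le_cos (x := ψ)
    nlinarith
  have hsin0 : 0 ≤ Real.sin ψ := by
    apply Real.sin_nonneg_of_nonneg_of_le_pi hψ0
    have := Real.pi_gt_three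
    linarith
  have hsin1 : Real.sin ψ ≤ ψ := Real.sin_le hψ0
  have hRψ : 8 * R * ψ ≤ 0.8 := by
    have h3 : ψ * (10 * R) < 1 := by
      rwa [lt_div_iff₀ hRp] at hθ2
    linarith
  have e1 : (rt θ q).1 - (rt θ p).1 = r * Real.cos ψ := by
    rw [hψ, Real.cos_sub]
    have : (rt θ q).1 - (rt θ p).1 = Real.cos θ * (q.1 - p.1) + Real.sin θ * (q.2 - p.2) := by
      simp only [rt]
      ring
    rw [this, h1, h2]
    ring
  have e2 : (rt θ q).2 - (rt θ p).2 = r * Real.sin ψ := by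
    rw [hψ, Real.sin_sub]
    have : (rt θ q).2 - (rt θ p).2 = Real.cos θ * (q.2 - p.2) - Real.sin θ * (q.1 - p.1) := by
      simp only [rt]
      ring
    rw [this, h1, h2]
    ring
  refine ⟨i, ?_, ?_, ?_, ?_⟩
  · have := Real.pi_lt_d2
    have h3 : 10 * R * φ ≤ 10 * R * (2 * 3.15) := by
      apply mul_le_mul_of_nonneg_left _ hRp.le
      linarith
    linarith
  · have : 0 < r * Real.cos ψ := by positivity
    linarith
  · rw [e2]
    positivity
  · rw [e1, e2]
    have h3 : 8 * R * Real.sin ψ ≤ 0.8 := by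
      have : 8 * R * Real.sin ψ ≤ 8 * R * ψ := by
        apply mul_le_mul_of_nonneg_left hsin1
        linarith
      linarith
    calc 8 * R * (r * Real.sin ψ) = r * (8 * R * Real.sin ψ) := by ring
      _ ≤ r * Real.cos ψ := by
          apply mul_le_mul_of_nonneg_left _ hr.le
          linarith

end Pool.Agent.Work.MP_e17eac_co.DH

end

section

/-!
# IIO: unit separated sets
-/

namespace Pool.Agent.Work.MP_e17eac_co.DH

open Finset

namespace XIIO

theorem pair_inj {f : ℝ × ℝ → ℝ × ℝ} (hf : Function.Injective f) :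
    Function.Injective (fun e : (ℝ × ℝ) × (ℝ × ℝ) => (f e.1, f e.2)) := by
  intro e e' h
  exact Prod.ext (hf (Prod.ext_iff.1 h).1) (hf (Prod.ext_iff.1 h).2)

theorem pow_eq {R : ℝ} (hR : 0 < R) : R * R ^ ((4 : ℝ) / 3 - 1 / 10 ^ 9) =
    R ^ ((7 : ℝ) / 3 - 1 / 10 ^ 9) := by
  have h : (7 : ℝ) / 3 - 1 / 10 ^ 9 = 1 + ((4 : ℝ) / 3 - 1 / 10 ^ 9) := by ring
  rw [h, Real.rpow_add hR, Real.rpow_one]

end XIIO

open XIIO in
theorem I_IIO (hWin : StWin) (hRot : StRot) (hDir : StDir) : StIIo := by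
  classical
  obtain ⟨C, hC, hW⟩ := hWin
  refine ⟨65 * C, by positivity, ?_⟩
  intro P R hR hGP hdist k T hT
  have hR0 : 0 < R := by linarith
  have hdir : ∀ e : (ℝ × ℝ) × (ℝ × ℝ), ∃ i : ℕ, e ∈ T → ((i : ℝ) ≤ 64 * R ∧
      (rt ((i : ℝ) / (10 * R)) e.1).1 < (rt ((i : ℝ) / (10 * R)) e.2).1 ∧
      0 ≤ (rt ((i : ℝ) / (10 * R)) e.2).2 - (rt ((i : ℝ) / (10 * R)) e.1).2 ∧
      8 * R * ((rt ((i : ℝ) / (10 * R)) e.2).2 - (rt ((i : ℝ) / (10 * R)) e.1).2) ≤
        (rt ((i : ℝ) / (10 * R)) e.2).1 - (rt ((i : ℝ) / (10 * R)) e.1).1) := by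
    intro e
    by_cases he : e ∈ T
    · obtain ⟨i, hi⟩ := hDir R e.1 e.2 hR (hT e he).2.2.1
      exact ⟨i, fun _ => hi⟩
    · exact ⟨0, fun h => absurd h he⟩
  choose i hi using hdir
  set W : ℕ := ⌊64 * R⌋₊ + 1 with hWdef
  have hWle : (W : ℝ) ≤ 65 * R := by
    have h1 : ((⌊64 * R⌋₊ : ℕ) : ℝ) ≤ 64 * R := Nat.floor_le (by positivity)
    rw [hWdef]
    push_cast
    linarith
  have hmaps : ∀ e ∈ T, i e ∈ range W := by
    intro e he
    rw [mem_range, hWdef, Nat.lt_succ_iff]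
    exact Nat.le_floor (hi e he).1
  have hfib : ∀ v ∈ range W, ((T.filter fun e => i e = v).card : ℝ) ≤
      C * R ^ ((4 : ℝ) / 3 - 1 / 10 ^ 9) := by
    intro v _
    obtain ⟨hinj, hside, hd, hgp, hke⟩ := hRot ((v : ℝ) / (10 * R))
    have h1 := hW (P.image (rt ((v : ℝ) / (10 * R)))) R hR (by convert hgp P hGP) (by
        intro p hp q hq hpq
        obtain ⟨p', hp', rfl⟩ := mem_image.1 hp
        obtain ⟨q', hq', rfl⟩ := mem_image.1 hq
        rw [hd]
        exact hdist p' hp' q' hq' fun h => hpq (by rw [h])) k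
      ((T.filter fun e => i e = v).image
        fun e => (rt ((v : ℝ) / (10 * R)) e.1, rt ((v : ℝ) / (10 * R)) e.2)) (by
        intro e' he'
        obtain ⟨e, he, rfl⟩ := mem_image.1 he'
        obtain ⟨heT, hev⟩ := mem_filter.1 he
        obtain ⟨_, h2, h3, h4⟩ := hi e heT
        rw [hev] at h2 h3 h4
        refine ⟨?_, h2, h3, h4⟩
        convert hke P k e.1 e.2 (hT e heT))
    rwa [card_image_of_injective _ (pair_inj hinj)] at h1
  have hcard : (T.card : ℝ) = ∑ v ∈ range W, ((T.filter fun e => i e = v).card : ℝ) := by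
    have := Finset.card_eq_sum_card_fiberwise (f := i) (s := T) (t := range W)
      (fun e he => Finset.mem_coe.2 (hmaps e (Finset.mem_coe.1 he)))
    rw [this]
    push_cast
    rfl
  have hpow : 0 ≤ R ^ ((4 : ℝ) / 3 - 1 / 10 ^ 9) := Real.rpow_nonneg hR0.le _
  calc (T.card : ℝ) = ∑ v ∈ range W, ((T.filter fun e => i e = v).card : ℝ) := hcard
    _ ≤ ∑ _v ∈ range W, C * R ^ ((4 : ℝ) / 3 - 1 / 10 ^ 9) := Finset.sum_le_sum hfib
    _ = (W : ℝ) * (C * R ^ ((4 : ℝ) / 3 - 1 / 10 ^ 9)) := by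
        rw [Finset.sum_const, card_range, nsmul_eq_mul]
    _ ≤ 65 * R * (C * R ^ ((4 : ℝ) / 3 - 1 / 10 ^ 9)) :=
        mul_le_mul_of_nonneg_right hWle (by positivity)
    _ = 65 * C * (R * R ^ ((4 : ℝ) / 3 - 1 / 10 ^ 9)) := by ring
    _ = 65 * C * R ^ ((7 : ℝ) / 3 - 1 / 10 ^ 9) := by rw [pow_eq hR0]

end Pool.Agent.Work.MP_e17eac_co.DH

end

section

/-!
# Main theorem for sweeps from its version for large `m`
-/

namespace Pool.Agent.Work.MP_e17eac_co.DH

open Finset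

theorem I_MAIN (hMainL : StMainL) (hTriv : StTriv) : StMain := by
  obtain ⟨m0, hm0, h⟩ := hMainL
  refine ⟨(m0 + 1) ^ 2, by positivity, ?_⟩
  intro ι _ _ K m hm hsep
  have he : (0 : ℝ) ≤ (4 : ℝ) / 3 - 1 / 10 ^ 9 := by norm_num
  have h1 : (1 : ℝ) ≤ m ^ ((4 : ℝ) / 3 - 1 / 10 ^ 9) := Real.one_le_rpow hm he
  have hC : (1 : ℝ) ≤ (m0 + 1) ^ 2 := one_le_pow₀ (by linarith)
  rcases le_or_gt m0 m with hc | hc
  · have h2 := h ι K m hc hsep
    have h3 : m ^ ((4 : ℝ) / 3 - 1 / 10 ^ 9) ≤ (m0 + 1) ^ 2 * m ^ ((4 : ℝ) / 3 - 1 / 10 ^ 9) :=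
      le_mul_of_one_le_left (by linarith) hC
    exact h2.trans h3
  · have h2 := hTriv ι K m (by linarith) hsep
    have h3 : (m + 1) ^ 2 ≤ (m0 + 1) ^ 2 := pow_le_pow_left₀ (by linarith) (by linarith) 2
    have h4 : (m0 + 1) ^ 2 ≤ (m0 + 1) ^ 2 * m ^ ((4 : ℝ) / 3 - 1 / 10 ^ 9) :=
      le_mul_of_one_le_right (by positivity) h1
    exact (h2.trans h3).trans h4

end Pool.Agent.Work.MP_e17eac_co.DH

end

section

/-!
# Item MID: regular subset with many cells at the last level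
-/

namespace Pool.Agent.Work.MP_e17eac_co.DH

open Finset

namespace XMID

/-- Separated slopes are distinct. -/
lemma inj {ι : Type} [Fintype ι] [DecidableEq ι] (K : KSys ι) (m : ℝ) (h : K.Sep m) :
    Function.Injective K.x := by
  intro i j hij
  by_contra hne
  have h1 := h i j hne
  rw [hij, sub_self, abs_zero, mul_zero] at h1
  linarith

/-- Cube root. -/
lemma cube (c H : ℝ) (hc : 0 ≤ c) (hH : 0 < H) (h : c ^ 3 ≤ 4096 * H ^ 4) :
    c ≤ 16 * H ^ ((4 : ℝ) / 3) := by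
  have h0 : 0 ≤ 16 * H ^ ((4 : ℝ) / 3) := by positivity
  have h1 : (16 * H ^ ((4 : ℝ) / 3)) ^ 3 = 4096 * H ^ 4 := by
    rw [mul_pow, ← Real.rpow_natCast (H ^ ((4 : ℝ) / 3)) 3, ← Real.rpow_mul hH.le]
    have e : (4 : ℝ) / 3 * ((3 : ℕ) : ℝ) = ((4 : ℕ) : ℝ) := by norm_num
    rw [e, Real.rpow_natCast]
    norm_num
  rw [← h1] at h
  exact (pow_le_pow_iff_left₀ hc h0 (by norm_num)).1 h

/-- Times with the same floor at scale `Q ^ J` are close. -/
lemma close (a b q ρ : ℝ) (hq : 0 < q) (ha : 0 ≤ a) (hb : 0 ≤ b) (h : ⌊a * q⌋₊ = ⌊b * q⌋₊)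
    (hρ : 1 ≤ ρ * q) : |a - b| ≤ ρ := by
  have h1 := Nat.floor_le (mul_nonneg ha hq.le)
  have h2 := Nat.lt_floor_add_one (a * q)
  have h3 := Nat.floor_le (mul_nonneg hb hq.le)
  have h4 := Nat.lt_floor_add_one (b * q)
  rw [h] at h1 h2
  have h5 : |a - b| * q ≤ ρ * q := by
    have : |a - b| * q = |a * q - b * q| := by
      rw [← sub_mul, abs_mul, abs_of_pos hq]
    rw [this, abs_le]
    constructor <;> linarith
  exact le_of_mul_le_mul_right h5 hq

/-- Size of a fibre. -/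
lemma fibre (hDeyI : StDeyI) (hBall : StBall) {ι : Type} [Fintype ι] [DecidableEq ι]
    (K : KSys ι) (m H ρ : ℝ) (Q J : ℕ) (E : Finset ℕ) (hK : K.Sep m) (hQ : 2 ≤ Q) (hH : 0 < H)
    (hE : ∀ n ∈ E, n < K.N ∧ 0 ≤ K.t n ∧ K.t n < 1 ∧ ((K.vis (K.t n) ρ).card : ℝ) < H)
    (hρ : 1 ≤ ρ * (Q : ℝ) ^ J) (n : ℕ) (hn : n ∈ E) :
    ((E.filter (fun k => K.cell Q J k = K.cell Q J n)).card : ℝ) ≤ 16 * H ^ ((4 : ℝ) / 3) := by
  classical
  obtain ⟨p, q, hq, hpq⟩ := hBall ι K (K.t n) ρ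
  have hQ' : (0 : ℝ) < (Q : ℝ) ^ J := by
    have : (0 : ℝ) < (Q : ℝ) := by exact_mod_cast (by omega : 0 < Q)
    positivity
  have hsub : E.filter (fun k => K.cell Q J k = K.cell Q J n) ⊆ K.ball (K.t n) ρ := by
    intro k hk
    rw [mem_filter] at hk
    obtain ⟨hk1, hk2⟩ := hk
    unfold KSys.ball
    rw [mem_filter, mem_range]
    exact ⟨(hE k hk1).1, close _ _ _ _ hQ' (hE k hk1).2.1 (hE n hn).2.1 hk2 hρ⟩
  have h1 : ((E.filter (fun k => K.cell Q J k = K.cell Q J n)).card : ℝ) ≤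
      ((K.ball (K.t n) ρ).card : ℝ) := by exact_mod_cast card_le_card hsub
  refine le_trans h1 (cube _ _ (Nat.cast_nonneg _) hH ?_)
  have h2 := hDeyI ι K (inj K m hK) p q hq
  have h3 : K.vis (K.t n) ρ = K.lines (Ico p q) := by
    unfold KSys.vis
    rw [hpq]
  have h4 := (hE n hn).2.2.2
  rw [hpq]
  rw [h3] at h4
  calc (((Ico p q).card : ℝ)) ^ 3 ≤ 4096 * ((K.lines (Ico p q)).card : ℝ) ^ 4 := by
        exact_mod_cast h2
    _ ≤ 4096 * H ^ 4 := by
        have := pow_le_pow_left₀ (Nat.cast_nonneg (K.lines (Ico p q)).card) h4.le 4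
        linarith

end XMID

theorem I_MID (hRegEx : StRegEx) (hDeyI : StDeyI) (hBall : StBall) (hSep : StSep) : StMid := by
  classical
  intro ι _ _ K m H ρ Q J E hm hK hQ hne hH hE hρ
  obtain ⟨E', hsub, D, hReg, hcard⟩ := hRegEx ι K m hm hK Q J hQ E hne
    (fun n hn => ⟨(hE n hn).1, (hE n hn).2.1, (hE n hn).2.2.1⟩)
  refine ⟨E', hsub, D, hReg, hcard, ?_⟩
  have hE' : ∀ n ∈ E', n < K.N ∧ 0 ≤ K.t n ∧ K.t n < 1 ∧ ((K.vis (K.t n) ρ).card : ℝ) < H :=
    fun n hn => hE n (hsub hn)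
  have h1 : (E'.card : ℝ) = ∑ c ∈ E'.image (fun n => K.cell Q J n),
      ((E'.filter (fun k => K.cell Q J k = c)).card : ℝ) := by
    have := card_eq_sum_card_image (fun n => K.cell Q J n) E'
    exact_mod_cast this
  have h2 : ∑ c ∈ E'.image (fun n => K.cell Q J n),
      ((E'.filter (fun k => K.cell Q J k = c)).card : ℝ) ≤
      ∑ _c ∈ E'.image (fun n => K.cell Q J n), 16 * H ^ ((4 : ℝ) / 3) := by
    apply sum_le_sum
    intro c hc
    rw [mem_image] at hc
    obtain ⟨n, hn, rfl⟩ := hc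
    exact XMID.fibre hDeyI hBall K m H ρ Q J E' hK hQ hH hE' hρ n hn
  rw [sum_const, nsmul_eq_mul] at h2
  rw [h1]
  refine le_trans h2 (le_of_eq ?_)
  unfold PM im
  ring

end Pool.Agent.Work.MP_e17eac_co.DH

end

section

/-!
# Item RESI: result (i) from the main theorem for ordered pairs
-/

namespace Pool.Agent.Work.MP_e17eac_co.DH

open Finset

namespace XRESI

theorem side_swap (p q r : ℝ × ℝ) : side q p r = - side p q r := by
  unfold side; ring

theorem filter_swap (P : Finset (ℝ × ℝ)) (p q : ℝ × ℝ) :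
    (P.filter fun r => side q p r < 0) = P.filter fun r => 0 < side p q r := by
  apply Finset.filter_congr
  intro r _
  rw [side_swap, neg_lt_zero]

end XRESI

open Classical XRESI in
theorem I_RESI (hLev : StLev) : StResI := by
  obtain ⟨C, hC, h⟩ := hLev
  refine ⟨2 * C, by positivity, ?_⟩
  intro P m w hm hw hgen hsep k
  set T : ℕ → Finset ((ℝ × ℝ) × (ℝ × ℝ)) := fun j =>
    (P ×ˢ P).filter fun e => e.1.1 < e.2.1 ∧ (P.filter fun r => side e.1 e.2 r < 0).card = j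
    with hT
  have hTb : ∀ j, ((T j).card : ℝ) ≤ C * m ^ ((4 : ℝ) / 3 - 1 / 10 ^ 9) := by
    intro j
    refine h P m w hm hw hgen hsep j (T j) ?_
    intro e he
    simp only [hT, Finset.mem_filter, Finset.mem_product] at he
    exact ⟨he.1.1, he.1.2, he.2.1, he.2.2⟩
  have hsub : kEdges P k ⊆ (T (P.card - 2 - k) ∪ T k).image fun e => ({e.1, e.2} : Finset (ℝ × ℝ)) := by
    intro e he
    simp only [kEdges, Finset.mem_filter] at he
    obtain ⟨-, p, q, rfl, hp, hq, hne, hk1, hk2⟩ := he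
    have hx : p.1 ≠ q.1 := by
      intro hx
      have := (hsep p hp q hq hne).1
      rw [hx, sub_self, abs_zero] at this
      linarith
    rcases lt_or_gt_of_ne hx with hlt | hlt
    · refine Finset.mem_image.2 ⟨(p, q), Finset.mem_union_left _ ?_, rfl⟩
      simp only [hT, Finset.mem_filter, Finset.mem_product]
      refine ⟨⟨hp, hq⟩, hlt, ?_⟩
      omega
    · refine Finset.mem_image.2 ⟨(q, p), Finset.mem_union_right _ ?_, Finset.pair_comm q p⟩
      simp only [hT, Finset.mem_filter, Finset.mem_product]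
      refine ⟨⟨hq, hp⟩, hlt, ?_⟩
      rw [filter_swap]
      exact hk1
  have h1 : (kEdges P k).card ≤ (T (P.card - 2 - k)).card + (T k).card :=
    (Finset.card_le_card hsub).trans (Finset.card_image_le.trans (Finset.card_union_le _ _))
  have h2 : ((kEdges P k).card : ℝ) ≤ (T (P.card - 2 - k)).card + (T k).card := by
    exact_mod_cast h1
  linarith [hTb (P.card - 2 - k), hTb k]

end Pool.Agent.Work.MP_e17eac_co.DH

end

section

set_option autoImplicit false

/-!
# Item ROT: rotations preserve everything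
-/

namespace Pool.Agent.Work.MP_e17eac_co.DH

open Finset

namespace XROT

theorem cs (θ : ℝ) : Real.cos θ ^ 2 + Real.sin θ ^ 2 = 1 := Real.cos_sq_add_sin_sq θ

theorem side_rt (θ : ℝ) (p q r : ℝ × ℝ) :
    side (rt θ p) (rt θ q) (rt θ r) = side p q r := by
  have h := cs θ
  have e : side (rt θ p) (rt θ q) (rt θ r) =
      (Real.cos θ ^ 2 + Real.sin θ ^ 2) * side p q r := by
    simp only [side, rt]
    ring
  rw [e, h, one_mul]

theorem dist_rt (θ : ℝ) (p q : ℝ × ℝ) :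
    ((rt θ p).1 - (rt θ q).1) ^ 2 + ((rt θ p).2 - (rt θ q).2) ^ 2 =
      (p.1 - q.1) ^ 2 + (p.2 - q.2) ^ 2 := by
  have h := cs θ
  have e : ((rt θ p).1 - (rt θ q).1) ^ 2 + ((rt θ p).2 - (rt θ q).2) ^ 2 =
      (Real.cos θ ^ 2 + Real.sin θ ^ 2) * ((p.1 - q.1) ^ 2 + (p.2 - q.2) ^ 2) := by
    simp only [rt]
    ring
  rw [e, h, one_mul]

theorem inj_rt (θ : ℝ) : Function.Injective (rt θ) := by
  intro p q hpq
  have h := dist_rt θ p q
  rw [hpq] at h
  have h1 : (p.1 - q.1) ^ 2 + (p.2 - q.2) ^ 2 = 0 := by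
    rw [← h]
    ring
  have h2 : 0 ≤ (p.1 - q.1) ^ 2 := sq_nonneg _
  have h3 : 0 ≤ (p.2 - q.2) ^ 2 := sq_nonneg _
  have h4 : (p.1 - q.1) ^ 2 = 0 := by linarith
  have h5 : (p.2 - q.2) ^ 2 = 0 := by linarith
  have h6 : p.1 - q.1 = 0 := by simpa using h4
  have h7 : p.2 - q.2 = 0 := by simpa using h5
  exact Prod.ext (by linarith) (by linarith)

theorem genPos_image {f : ℝ × ℝ → ℝ × ℝ}
    (hs : ∀ p q r, side (f p) (f q) (f r) = side p q r) {P : Finset (ℝ × ℝ)} (h : GenPos P)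
    {Q : Finset (ℝ × ℝ)} (hQ : ∀ p, p ∈ Q ↔ ∃ p' ∈ P, f p' = p) : GenPos Q := by
  intro p hp q hq r hr hpq hpr hqr
  obtain ⟨p', hp', rfl⟩ := (hQ p).1 hp
  obtain ⟨q', hq', rfl⟩ := (hQ q).1 hq
  obtain ⟨r', hr', rfl⟩ := (hQ r).1 hr
  rw [hs]
  exact h p' hp' q' hq' r' hr' (fun e => hpq (by rw [e])) (fun e => hpr (by rw [e]))
    (fun e => hqr (by rw [e]))

theorem card_filter {f : ℝ × ℝ → ℝ × ℝ} (hf : Function.Injective f) (P Q : Finset (ℝ × ℝ))
    (hQ : ∀ p, p ∈ Q ↔ ∃ p' ∈ P, f p' = p) (A B : ℝ × ℝ → Prop) [DecidablePred A]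
    [DecidablePred B] (hAB : ∀ p, B (f p) ↔ A p) :
    (Q.filter B).card = (P.filter A).card := by
  symm
  apply Finset.card_bij (fun p _ => f p)
  · intro p hp
    rw [mem_filter] at hp ⊢
    exact ⟨(hQ _).2 ⟨p, hp.1, rfl⟩, (hAB p).2 hp.2⟩
  · intro p _ q _ h
    exact hf h
  · intro q hq
    rw [mem_filter] at hq
    obtain ⟨p, hp, rfl⟩ := (hQ q).1 hq.1
    exact ⟨p, mem_filter.2 ⟨hp, (hAB p).1 hq.2⟩, rfl⟩

theorem isKEdge_image {f : ℝ × ℝ → ℝ × ℝ} (hf : Function.Injective f)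
    (hs : ∀ p q r, side (f p) (f q) (f r) = side p q r) {P Q : Finset (ℝ × ℝ)}
    (hQ : ∀ p, p ∈ Q ↔ ∃ p' ∈ P, f p' = p) {k : ℕ} {p q : ℝ × ℝ} (h : IsKEdge P k p q) :
    IsKEdge Q k (f p) (f q) := by
  obtain ⟨h1, h2, h3, h4, h5⟩ := h
  refine ⟨(hQ _).2 ⟨p, h1, rfl⟩, (hQ _).2 ⟨q, h2, rfl⟩, fun e => h3 (hf e), ?_, ?_⟩
  · rw [← h4]
    exact card_filter hf P Q hQ _ _ (fun r => by rw [hs])
  · rw [card_filter hf P Q hQ (fun r => side p q r < 0) _ (fun r => by rw [hs]), h5]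
    have h6 := card_filter hf P Q hQ (fun _ => True) (fun _ => True) (fun _ => Iff.rfl)
    simpa using h6.symm

end XROT

theorem I_ROT : StRot := by
  intro θ
  refine ⟨XROT.inj_rt θ, XROT.side_rt θ, XROT.dist_rt θ, ?_, ?_⟩
  · intro P hP
    exact XROT.genPos_image (XROT.side_rt θ) hP (fun p => by simp only [mem_image])
  · intro P k p q h
    exact XROT.isKEdge_image (XROT.inj_rt θ) (XROT.side_rt θ)
      (fun p => by simp only [mem_image]) h

end Pool.Agent.Work.MP_e17eac_co.DH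

end

section

set_option autoImplicit false

namespace Pool.Agent.Work.MP_e17eac_co.DH

open Finset

namespace XWIN

/-- Slope of the line through the two points of `e`. -/
noncomputable def sl (e : (ℝ × ℝ) × (ℝ × ℝ)) : ℝ := (e.2.2 - e.1.2) / (e.2.1 - e.1.1)

/-- The line through the two points of `e`, as a function. -/
noncomputable def lf (e : (ℝ × ℝ) × (ℝ × ℝ)) (X : ℝ) : ℝ := e.1.2 + sl e * (X - e.1.1)

theorem side_eq (e : (ℝ × ℝ) × (ℝ × ℝ)) (h : e.1.1 < e.2.1) (r : ℝ × ℝ) :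
    side e.1 e.2 r = (e.2.1 - e.1.1) * (r.2 - lf e r.1) := by
  have h' : e.2.1 - e.1.1 ≠ 0 := sub_ne_zero.2 (ne_of_gt h)
  unfold side lf sl
  field_simp
  ring

theorem side_pos (e : (ℝ × ℝ) × (ℝ × ℝ)) (h : e.1.1 < e.2.1) (r : ℝ × ℝ) :
    0 < side e.1 e.2 r ↔ lf e r.1 < r.2 := by
  have h' : 0 < e.2.1 - e.1.1 := by linarith
  rw [side_eq e h, mul_pos_iff_of_pos_left h', sub_pos]

theorem side_neg (e : (ℝ × ℝ) × (ℝ × ℝ)) (h : e.1.1 < e.2.1) (r : ℝ × ℝ) :
    side e.1 e.2 r < 0 ↔ r.2 < lf e r.1 := by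
  have h' : 0 < e.2.1 - e.1.1 := by linarith
  rw [side_eq e h]
  constructor
  · intro h1
    by_contra h2
    push Not at h2
    have := mul_nonneg h'.le (sub_nonneg.2 h2)
    linarith
  · intro h1
    exact mul_neg_of_pos_of_neg h' (by linarith)

theorem lf_fst (e : (ℝ × ℝ) × (ℝ × ℝ)) : lf e e.1.1 = e.1.2 := by
  unfold lf; ring

theorem lf_snd (e : (ℝ × ℝ) × (ℝ × ℝ)) (h : e.1.1 < e.2.1) : lf e e.2.1 = e.2.2 := by
  have h' : e.2.1 - e.1.1 ≠ 0 := sub_ne_zero.2 (ne_of_gt h)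
  unfold lf sl
  field_simp
  ring

theorem lf_diff (e : (ℝ × ℝ) × (ℝ × ℝ)) (X Y : ℝ) : lf e X - lf e Y = sl e * (X - Y) := by
  unfold lf; ring

theorem cross_exists (P : Finset (ℝ × ℝ)) (k : ℕ) (e f : (ℝ × ℝ) × (ℝ × ℝ))
    (he : IsKEdge P k e.1 e.2) (hf : IsKEdge P k f.1 f.2) (he1 : e.1.1 < e.2.1)
    (hf1 : f.1.1 < f.2.1) : ∃ r ∈ P, lf e r.1 ≤ lf f r.1 := by
  by_contra hcon
  push Not at hcon
  obtain ⟨hp, -, -, hc, -⟩ := he
  obtain ⟨-, -, -, hc', -⟩ := hf
  have hsub : insert e.1 (P.filter fun r => 0 < side e.1 e.2 r) ⊆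
      (P.filter fun r => 0 < side f.1 f.2 r) := by
    intro r hr
    rw [mem_insert, mem_filter] at hr
    rw [mem_filter, side_pos f hf1]
    rcases hr with rfl | ⟨h1, h2⟩
    · refine ⟨hp, ?_⟩
      have := hcon _ hp
      rw [lf_fst] at this
      exact this
    · rw [side_pos e he1] at h2
      exact ⟨h1, lt_trans (hcon r h1) h2⟩
  have hni : e.1 ∉ (P.filter fun r => 0 < side e.1 e.2 r) := by
    rw [mem_filter, side_pos e he1, lf_fst]
    rintro ⟨-, h⟩
    exact lt_irrefl _ h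
  have := card_le_card hsub
  rw [card_insert_of_notMem hni, hc, hc'] at this
  omega

theorem sl_bounds (e : (ℝ × ℝ) × (ℝ × ℝ)) (R : ℝ) (hR : 1 ≤ R) (h : e.1.1 < e.2.1)
    (h0 : 0 ≤ e.2.2 - e.1.2) (h1 : 8 * R * (e.2.2 - e.1.2) ≤ e.2.1 - e.1.1) :
    0 ≤ sl e ∧ sl e ≤ 1 / (8 * R) := by
  have h' : 0 < e.2.1 - e.1.1 := by linarith
  have hR' : 0 < 8 * R := by linarith
  refine ⟨div_nonneg h0 h'.le, ?_⟩
  unfold sl
  rw [div_le_div_iff₀ h' hR', one_mul]
  linarith

theorem absc {P : Finset (ℝ × ℝ)} {R : ℝ} (hR : 1 ≤ R)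
    (hP : ∀ p ∈ P, ∀ q ∈ P, p ≠ q → 1 ≤ (p.1 - q.1) ^ 2 + (p.2 - q.2) ^ 2 ∧
      (p.1 - q.1) ^ 2 + (p.2 - q.2) ^ 2 ≤ R ^ 2) {p q : ℝ × ℝ} (hp : p ∈ P) (hq : q ∈ P) :
    |p.1 - q.1| ≤ R := by
  by_cases h : p = q
  · rw [h, sub_self, abs_zero]; linarith
  · apply abs_le_of_sq_le_sq' _ (by linarith) |> abs_le.2
    have := (hP p hp q hq h).2
    nlinarith [sq_nonneg (p.2 - q.2)]

theorem close {P : Finset (ℝ × ℝ)} {R : ℝ} {k : ℕ} (hR : 1 ≤ R)
    (hP : ∀ p ∈ P, ∀ q ∈ P, p ≠ q → 1 ≤ (p.1 - q.1) ^ 2 + (p.2 - q.2) ^ 2 ∧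
      (p.1 - q.1) ^ 2 + (p.2 - q.2) ^ 2 ≤ R ^ 2) (e f : (ℝ × ℝ) × (ℝ × ℝ))
    (he : IsKEdge P k e.1 e.2) (hf : IsKEdge P k f.1 f.2) (he1 : e.1.1 < e.2.1)
    (hf1 : f.1.1 < f.2.1) (hes : 0 ≤ sl e ∧ sl e ≤ 1 / (8 * R))
    (hfs : 0 ≤ sl f ∧ sl f ≤ 1 / (8 * R)) {r : ℝ × ℝ} (hr : r ∈ P) :
    lf e r.1 - lf f r.1 ≤ 1 / 8 := by
  obtain ⟨r1, hr1, h1⟩ := cross_exists P k e f he hf he1 hf1
  have h2 := absc hR hP hr hr1
  have h3 : lf e r.1 - lf f r.1 = (lf e r1.1 - lf f r1.1) + (sl e - sl f) * (r.1 - r1.1) := by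
    have := lf_diff e r.1 r1.1
    have := lf_diff f r.1 r1.1
    linarith
  have h4 : |sl e - sl f| ≤ 1 / (8 * R) := by
    rw [abs_le]; constructor <;> linarith [hes.1, hes.2, hfs.1, hfs.2]
  have h5 : (sl e - sl f) * (r.1 - r1.1) ≤ 1 / 8 := by
    calc (sl e - sl f) * (r.1 - r1.1) ≤ |(sl e - sl f) * (r.1 - r1.1)| := le_abs_self _
      _ = |sl e - sl f| * |r.1 - r1.1| := abs_mul _ _
      _ ≤ 1 / (8 * R) * R := mul_le_mul h4 h2 (abs_nonneg _) (by positivity)
      _ = 1 / 8 := by field_simp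
  linarith

end XWIN

open XWIN in
theorem I_WIN (hLev : StLev) : StWin := by
  obtain ⟨C, hC, hL⟩ := hLev
  refine ⟨2 * C, by linarith, ?_⟩
  intro P R hR hG hP k T hT
  rcases T.eq_empty_or_nonempty with rfl | ⟨e0, he0⟩
  · rw [card_empty, Nat.cast_zero]
    have := Real.rpow_nonneg (by linarith : (0 : ℝ) ≤ R) ((4 : ℝ) / 3 - 1 / 10 ^ 9)
    positivity
  · obtain ⟨k0, x0, y0, z0⟩ := hT e0 he0
    have s0 := sl_bounds e0 R hR x0 y0 z0
    have hcl : ∀ e ∈ T, ∀ r ∈ P, |lf e r.1 - lf e0 r.1| ≤ 1 / 8 := by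
      intro e he r hr
      obtain ⟨k1, x1, y1, z1⟩ := hT e he
      have s1 := sl_bounds e R hR x1 y1 z1
      rw [abs_le]
      have h1 := close hR hP e e0 k1 k0 x1 x0 s1 s0 hr
      have h2 := close hR hP e0 e k0 k1 x0 x1 s0 s1 hr
      constructor <;> linarith
    obtain ⟨V, hV⟩ : ∃ V : Finset (ℝ × ℝ), V = P.filter (fun r => |r.2 - lf e0 r.1| ≤ 1 / 8) :=
      ⟨_, rfl⟩
    have hVP : V ⊆ P := by rw [hV]; exact filter_subset _ _
    have hVm : ∀ r, r ∈ V ↔ r ∈ P ∧ |r.2 - lf e0 r.1| ≤ 1 / 8 := by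
      intro r; rw [hV, mem_filter]
    have hGV : GenPos V := fun p hp q hq r hr => hG p (hVP hp) q (hVP hq) r (hVP hr)
    have hsep : ∀ p ∈ V, ∀ q ∈ V, p ≠ q → (3 / 4 : ℝ) ≤ |p.1 - q.1| ∧
        |p.1 - q.1| ≤ 4 * R / 3 * (3 / 4) := by
      intro p hp q hq hne
      have hp' := hVP hp
      have hq' := hVP hq
      have h1 := absc hR hP hp' hq'
      refine ⟨?_, by linarith⟩
      have h2 := ((hVm p).1 hp).2
      have h3 := ((hVm q).1 hq).2
      have h4 := lf_diff e0 p.1 q.1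
      have h5 : |sl e0 * (p.1 - q.1)| ≤ 1 / 8 := by
        rw [abs_mul, abs_of_nonneg s0.1]
        calc sl e0 * |p.1 - q.1| ≤ 1 / (8 * R) * R :=
              mul_le_mul s0.2 h1 (abs_nonneg _) (by positivity)
          _ = 1 / 8 := by field_simp
      have h6 : |p.2 - q.2| ≤ 3 / 8 := by
        rw [abs_le] at h2 h3 h5 ⊢
        constructor <;> linarith [h2.1, h2.2, h3.1, h3.2, h5.1, h5.2]
      have h7 := (hP p hp' q hq' hne).1
      have h8 : (p.2 - q.2) ^ 2 ≤ (3 / 8) ^ 2 := by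
        rw [← sq_abs]
        exact pow_le_pow_left₀ (abs_nonneg _) h6 2
      have h9 : (3 / 4 : ℝ) ^ 2 ≤ |p.1 - q.1| ^ 2 := by
        rw [sq_abs]; nlinarith
      exact (pow_le_pow_iff_left₀ (by norm_num) (abs_nonneg _) (by norm_num)).1 h9
    have hm : (1 : ℝ) ≤ 4 * R / 3 := by linarith
    have key := hL V (4 * R / 3) (3 / 4) hm (by norm_num) hGV hsep
      (P.card - k - 2 - ((P \ V).filter (fun r => r.2 < lf e0 r.1)).card) T (by
        intro e he
        obtain ⟨k1, x1, y1, z1⟩ := hT e he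
        have hmem1 : e.1 ∈ V := by
          rw [hV, mem_filter]
          refine ⟨k1.1, ?_⟩
          have := hcl e he e.1 k1.1
          rwa [lf_fst] at this
        have hmem2 : e.2 ∈ V := by
          rw [hV, mem_filter]
          refine ⟨k1.2.1, ?_⟩
          have := hcl e he e.2 k1.2.1
          rwa [lf_snd e x1] at this
        refine ⟨hmem1, hmem2, x1, ?_⟩
        have hsplit : (P.filter fun r => side e.1 e.2 r < 0) =
            (V.filter fun r => side e.1 e.2 r < 0) ∪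
              ((P \ V).filter (fun r => r.2 < lf e0 r.1)) := by
          ext r
          rw [mem_union, mem_filter, mem_filter, mem_filter, mem_sdiff]
          by_cases hrV : r ∈ V
          · have := hVP hrV
            simp [hrV, this]
          · by_cases hrP : r ∈ P
            · have h1 : ¬ |r.2 - lf e0 r.1| ≤ 1 / 8 := fun h => hrV ((hVm r).2 ⟨hrP, h⟩)
              have h2 := hcl e he r hrP
              rw [side_neg e x1]
              have h3 : r.2 < lf e r.1 ↔ r.2 < lf e0 r.1 := by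
                push Not at h1
                rw [abs_le] at h2
                rcases lt_abs.1 h1 with h4 | h4
                · constructor <;> intro h5 <;> linarith [h2.1, h2.2]
                · constructor <;> intro h5 <;> linarith [h2.1, h2.2]
              simp [hrV, hrP, h3]
            · simp [hrV, hrP]
        have hdisj : Disjoint (V.filter fun r => side e.1 e.2 r < 0)
            ((P \ V).filter (fun r => r.2 < lf e0 r.1)) := by
          rw [Finset.disjoint_left]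
          intro r h1 h2
          exact (mem_sdiff.1 (mem_filter.1 h2).1).2 (mem_filter.1 h1).1
        have hcard := card_union_of_disjoint hdisj
        rw [← hsplit] at hcard
        have h6 := k1.2.2.2.2
        omega)
    refine le_trans key ?_
    have hR0 : (0 : ℝ) ≤ R := by linarith
    have h1 : (4 * R / 3) ^ ((4 : ℝ) / 3 - 1 / 10 ^ 9) =
        (4 / 3) ^ ((4 : ℝ) / 3 - 1 / 10 ^ 9) * R ^ ((4 : ℝ) / 3 - 1 / 10 ^ 9) := by
      rw [← Real.mul_rpow (by norm_num) hR0]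
      congr 1
      ring
    have h2 : (4 / 3 : ℝ) ^ ((4 : ℝ) / 3 - 1 / 10 ^ 9) ≤ 2 := by
      calc (4 / 3 : ℝ) ^ ((4 : ℝ) / 3 - 1 / 10 ^ 9) ≤ (4 / 3 : ℝ) ^ ((2 : ℕ) : ℝ) :=
            Real.rpow_le_rpow_of_exponent_le (by norm_num) (by norm_num)
        _ = (4 / 3 : ℝ) ^ 2 := Real.rpow_natCast _ _
        _ ≤ 2 := by norm_num
    rw [h1]
    have h3 := Real.rpow_nonneg hR0 ((4 : ℝ) / 3 - 1 / 10 ^ 9)
    calc C * ((4 / 3) ^ ((4 : ℝ) / 3 - 1 / 10 ^ 9) * R ^ ((4 : ℝ) / 3 - 1 / 10 ^ 9)) ≤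
        C * (2 * R ^ ((4 : ℝ) / 3 - 1 / 10 ^ 9)) :=
          mul_le_mul_of_nonneg_left (mul_le_mul_of_nonneg_right h2 h3) hC.le
      _ = 2 * C * R ^ ((4 : ℝ) / 3 - 1 / 10 ^ 9) := by ring

end Pool.Agent.Work.MP_e17eac_co.DH

end
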