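import Pool.Agent.Work.MP_e17eac_co.Bd.B06

/-! Bundle of small proof modules (one section per former module). -/

section

namespace Pool.Agent.Work.MP_e17eac_co.DH

variable {J : ℕ} {δ e e1 : ℝ} {μ : ℕ → ℝ} {A Θ d : Bool → ℕ → ℝ}

lemma ExpData.mu_le (h : ExpData J δ e e1 μ A Θ d) {j : ℕ} (hj : j ≤ J) :
    μ j ≤ 3 * (A false j + A true j) + 7 * e := by
  have h2 := h.h2 j hj
  have hT0 := h.h3T false j hj
  have hT1 := h.h3T true j hj
  have h10 := h.h1 false j hj
  have h11 := h.h1 true j hj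
  have he := h.he
  rcases le_total (d false j) (d true j) with hd | hd
  · rw [min_eq_left hd] at hT0 hT1
    linarith
  · rw [min_eq_right hd] at hT0 hT1
    linarith

/-- `Far s i`: lines of kind `s` have branched. -/
def FarAt (δ : ℝ) (A : Bool → ℕ → ℝ) (s : Bool) (i : ℕ) : Prop := A s 0 + 5 * δ ≤ A s i

lemma ExpData.mu_lip (h : ExpData J δ e e1 μ A Θ d) {i j : ℕ} (hij : i ≤ j) (hj : j ≤ J) :
    μ j ≤ μ i + ((j : ℝ) - i) * δ := by
  induction j, hij using Nat.le_induction with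
  | base => simp
  | succ k hk ih =>
    have h1 := ih (by omega)
    have h2 := h.muinc k (by omega)
    push_cast
    linarith

/-- One step of a slowly growing function: either no branching or a bound at the branching. -/
lemma grow_bound {f : ℕ → ℝ} {δ e1 C : ℝ} {i k : ℕ} (he1 : 0 ≤ e1)
    (hinc : ∀ j, i ≤ j → j < k → f (j + 1) ≤ f j + δ)
    (hbase : f i ≤ C + δ)
    (hbr : ∀ j, i ≤ j → j < k → f j + e1 < f (j + 1) → f j ≤ C) :
    ∀ j, i ≤ j → j ≤ k → f j ≤ C + δ + ((j : ℝ) - i) * e1 := by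
  intro j hij
  induction j, hij using Nat.le_induction with
  | base => intro _; simpa using hbase
  | succ n hn ih =>
    intro hk
    have h1 := ih (by omega)
    have h2 := hinc n hn (by omega)
    have h3 : (0 : ℝ) ≤ ((n : ℝ) - i) * e1 := by
      apply mul_nonneg _ he1
      have : (i : ℝ) ≤ n := by exact_mod_cast hn
      linarith
    by_cases hb : f n + e1 < f (n + 1)
    · have h4 := hbr n hn (by omega) hb
      push_cast
      nlinarith
    · push Not at hb
      push_cast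
      nlinarith

/-- Stage 2: while lines of kind `!s` have not branched, lines of kind `s` branch only a little. -/
lemma ExpData.stage2 (h : ExpData J δ e e1 μ A Θ d) {s : Bool} {i k : ℕ} (hik : i ≤ k) (hk : k ≤ J)
    (hfar : FarAt δ A s i) (hsi : A s i ≤ A s 0 + 6 * δ) (hmu : μ i ≤ 38 * δ)
    (hnf : ∀ j, i ≤ j → j < k → A (!s) j < A (!s) 0 + 5 * δ) :
    A s k ≤ 134 * δ := by
  have hδ := h.hδ
  have he := h.he
  have he10 := h.he10
  have key : ∀ j, i ≤ j → j < k → A s j + e1 < A s (j + 1) → A s j ≤ 132 * δ := by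
    intro j hij hjk hbr
    have hjJ : j ≤ J := by omega
    have hc := h.h3c s s i j hij (by omega) hfar hbr
    have h2 := h.h2 j hjJ
    have hA' := hnf j hij hjk
    have hA0 := h.A0u (!s)
    have hlip := h.mu_lip hij hjJ
    have h3A := h.h3A s j hjJ
    have hT0 := h.h3T false j hjJ
    have hT1 := h.h3T true j hjJ
    have h10 := h.h1 false j hjJ
    have h11 := h.h1 true j hjJ
    have hd0 := h.d0 false j hjJ
    have hd1 := h.d0 true j hjJ
    have hsum : A false j + A true j = A s j + A (!s) j := by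
      cases s <;> simp [add_comm]
    rcases le_total (d false j) (d true j) with hd | hd
    · rw [min_eq_left hd] at hT0 hT1 h3A
      rw [max_eq_right hd] at hc
      have hdd : 2 * d true j - d false j ≤ 63 * δ := by linarith
      have hd2 : d true j ≤ 63 * δ := by linarith
      have h4 : μ j ≤ A s j + 131 * δ + 4 * e := by linarith
      linarith
    · rw [min_eq_right hd] at hT0 hT1 h3A
      rw [max_eq_left hd] at hc
      have hdd : 2 * d false j - d true j ≤ 63 * δ := by linarith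
      have hd2 : d false j ≤ 63 * δ := by linarith
      have h4 : μ j ≤ A s j + 131 * δ + 4 * e := by linarith
      linarith
  have hg := grow_bound (f := A s) (δ := δ) (e1 := e1) (C := 132 * δ) (i := i) (k := k) h.he1
    (fun j _ hjk => h.Ainc s j (by omega)) (by have := h.A0u s; linarith) key k hik le_rfl
  have h5 : ((k : ℝ) - i) * e1 ≤ δ := by
    refine le_trans ?_ h.hJ
    apply mul_le_mul_of_nonneg_right _ h.he1
    have h6 : (k : ℝ) ≤ J := by exact_mod_cast hk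
    have h7 : (0 : ℝ) ≤ i := Nat.cast_nonneg i
    linarith
  linarith

/-- Existence of a common far index with small `μ`. -/
lemma ExpData.exists_far (h : ExpData J δ e e1 μ A Θ d) :
    ∃ i, i ≤ J ∧ (∀ s, FarAt δ A s i) ∧ μ i ≤ 421 * δ ∧ (∀ s, A s i ≤ 134 * δ) := by
  classical
  have hδ := h.hδ
  have he := h.he
  have he10 := h.he10
  have h6 := h.h6
  -- a bound on the last index
  have hJ1 := h.mu_le (j := J) le_rfl
  -- first far index for `s`
  have first : ∀ s, (∃ i, i ≤ J ∧ FarAt δ A s i) → ∃ i, i ≤ J ∧ FarAt δ A s i ∧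
      A s i ≤ A s 0 + 6 * δ ∧ ∀ j, j < i → A s j < A s 0 + 5 * δ := by
    intro s hs
    have hne : ∃ i, FarAt δ A s i ∧ i ≤ J := by
      obtain ⟨i, h1, h2⟩ := hs
      exact ⟨i, h2, h1⟩
    refine ⟨Nat.find hne, (Nat.find_spec hne).2, (Nat.find_spec hne).1, ?_, ?_⟩
    · have hf := (Nat.find_spec hne).1
      have hpos : Nat.find hne ≠ 0 := by
        intro h0
        rw [h0] at hf
        unfold FarAt at hf
        linarith
      obtain ⟨n, hn⟩ := Nat.exists_eq_succ_of_ne_zero hpos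
      have hmin := Nat.find_min hne (m := n) (by omega)
      have hle : n < J := by
        have := (Nat.find_spec hne).2
        omega
      have hnf : A s n < A s 0 + 5 * δ := by
        by_contra hcon
        push Not at hcon
        exact hmin ⟨hcon, by omega⟩
      have hinc := h.Ainc s n hle
      rw [hn]
      simp only [Nat.succ_eq_add_one]
      linarith
    · intro j hj
      have hmin := Nat.find_min hne hj
      have hle := (Nat.find_spec hne).2
      by_contra hcon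
      push Not at hcon
      exact hmin ⟨hcon, by omega⟩
  -- the general argument, with `s` the kind that branches first
  have main : ∀ s, ∀ i, i ≤ J → FarAt δ A s i → A s i ≤ A s 0 + 6 * δ →
      (∀ j, j < i → A (!s) j < A (!s) 0 + 5 * δ) → A (!s) i ≤ A (!s) 0 + 6 * δ →
      ∃ i, i ≤ J ∧ (∀ s, FarAt δ A s i) ∧ μ i ≤ 421 * δ ∧ (∀ s, A s i ≤ 134 * δ) := by
    intro s i hiJ hfi hsi hprev hns
    have hA0 := h.A0u s
    have hA0' := h.A0u (!s)
    have hsum : ∀ j, A false j + A true j = A s j + A (!s) j := by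
      intro j
      cases s <;> simp [add_comm]
    have hmui : μ i ≤ 38 * δ := by
      have h1 := h.mu_le hiJ
      rw [hsum] at h1
      linarith
    by_cases hex : ∃ k, k ≤ J ∧ FarAt δ A (!s) k
    · obtain ⟨k, hkJ, hfk, hsk, hmin⟩ := first (!s) hex
      rcases le_total k i with hki | hik
      · -- both far at `i`
        have hf' : FarAt δ A (!s) i := by
          unfold FarAt at hfk ⊢
          have := h.Amono (!s) k i hki hiJ
          linarith
        refine ⟨i, hiJ, ?_, by linarith, ?_⟩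
        · intro q
          cases s <;> cases q <;> first | exact hfi | exact hf'
        · intro q
          have h1 : A s i ≤ 134 * δ := by linarith
          have h2 : A (!s) i ≤ 134 * δ := by linarith
          cases s <;> cases q <;> first | exact h1 | exact h2
      · have hst := h.stage2 hik hkJ hfi hsi hmui (fun j _ hj => hmin j hj)
        have hfk' : FarAt δ A s k := by
          unfold FarAt at hfi ⊢
          have := h.Amono s i k hik hkJ
          linarith
        refine ⟨k, hkJ, ?_, ?_, ?_⟩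
        · intro q
          cases s <;> cases q <;> first | exact hfk | exact hfk'
        · have h1 := h.mu_le hkJ
          rw [hsum] at h1
          linarith
        · intro q
          have h2 : A (!s) k ≤ 134 * δ := by linarith
          cases s <;> cases q <;> first | exact hst | exact h2
    · exfalso
      have hnf : ∀ j, j ≤ J → A (!s) j < A (!s) 0 + 5 * δ := by
        intro j hj
        by_contra hcon
        push Not at hcon
        exact hex ⟨j, hj, hcon⟩
      have hst := h.stage2 hiJ le_rfl hfi hsi hmui (fun j _ hj => hnf j (by omega))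
      have h1 := h.mu_le (j := J) le_rfl
      rw [hsum] at h1
      have h2 := hnf J le_rfl
      linarith
  by_cases h0 : ∃ i, i ≤ J ∧ FarAt δ A false i
  · obtain ⟨i, hiJ, hfi, hsi, hmin⟩ := first false h0
    by_cases h1 : ∃ i, i ≤ J ∧ FarAt δ A true i
    · obtain ⟨k, hkJ, hfk, hsk, hmin'⟩ := first true h1
      rcases le_total i k with hik | hki
      · refine main false i hiJ hfi hsi (fun j hj => hmin' j (by omega)) ?_
        simp only [Bool.not_false]
        exact le_trans (h.Amono true i k hik hkJ) hsk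
      · refine main true k hkJ hfk hsk (fun j hj => hmin j (by omega)) ?_
        simp only [Bool.not_true]
        exact le_trans (h.Amono false k i hki hiJ) hsi
    · have hnf : ∀ j, j ≤ J → A true j < A true 0 + 5 * δ := by
        intro j hj
        by_contra hcon
        push Not at hcon
        exact h1 ⟨j, hj, hcon⟩
      refine main false i hiJ hfi hsi (fun j hj => hnf j (by omega)) ?_
      have := hnf i hiJ
      simp only [Bool.not_false]
      linarith
  · have hnf0 : ∀ j, j ≤ J → A false j < A false 0 + 5 * δ := by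
      intro j hj
      by_contra hcon
      push Not at hcon
      exact h0 ⟨j, hj, hcon⟩
    by_cases h1 : ∃ i, i ≤ J ∧ FarAt δ A true i
    · obtain ⟨k, hkJ, hfk, hsk, hmin'⟩ := first true h1
      refine main true k hkJ hfk hsk (fun j hj => hnf0 j (by omega)) ?_
      have := hnf0 k hkJ
      simp only [Bool.not_true]
      linarith
    · exfalso
      have hnf1 : A true J < A true 0 + 5 * δ := by
        by_contra hcon
        push Not at hcon
        exact h1 ⟨J, le_rfl, hcon⟩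
      have h2 := hnf0 J le_rfl
      have h3 := h.A0u false
      have h4 := h.A0u true
      linarith

/-- Lower tail bound on the increments of a function without branching. -/
lemma no_branch {f : ℕ → ℝ} {e1 : ℝ} {i k : ℕ} (hik : i ≤ k)
    (hnb : ∀ j, i ≤ j → j < k → ¬ (f j + e1 < f (j + 1))) :
    f k ≤ f i + ((k : ℝ) - i) * e1 := by
  induction k, hik using Nat.le_induction with
  | base => simp
  | succ n hn ih =>
    have h1 := ih (fun j hij hj => hnb j hij (by omega))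
    have h2 := hnb n hn (by omega)
    push Not at h2
    push_cast
    linarith

/-- Claim B: good scales are dense. `j0` is the far index. -/
lemma ExpData.good (h : ExpData J δ e e1 μ A Θ d) {i : ℕ} (_hiJ : i ≤ J)
    (hfar : ∀ s, FarAt δ A s i) (hmui : μ i ≤ 421 * δ) (hAi : ∀ s, A s i ≤ 134 * δ)
    {j : ℕ} (hij : i ≤ j) (hj : j ≤ J) (hρ : 700 * δ ≤ ((j : ℝ) - i) * δ) :
    ∃ k, i ≤ k ∧ k < j ∧ ((j : ℝ) - k) * δ ≤ 900 * δ ∧
      μ k ≤ ((k : ℝ) - i) * δ + 421 * δ ∧
      (∀ p, ((k : ℝ) - i) * δ / 2 - (A false k + A true k) / 2 - 460 * δ ≤ d p k) ∧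
      (∀ p, d p k ≤ ((k : ℝ) - i) * δ / 2 - (A false k + A true k) / 2 + 870 * δ) ∧
      (∀ p, ((k : ℝ) - i) * δ / 2 - (A false k + A true k) / 2 - 460 * δ ≤ Θ p k) ∧
      (∀ p, Θ p k ≤ ((k : ℝ) - i) * δ / 2 - (A false k + A true k) / 2 + 870 * δ) := by
  classical
  have hδ := h.hδ
  have he := h.he
  have he10 := h.he10
  -- `p` is the kind with the larger `d` at `j`
  have main : ∀ p : Bool, d (!p) j ≤ d p j → ∃ k, i ≤ k ∧ k < j ∧ ((j : ℝ) - k) * δ ≤ 900 * δ ∧
      μ k ≤ ((k : ℝ) - i) * δ + 421 * δ ∧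
      (∀ p, ((k : ℝ) - i) * δ / 2 - (A false k + A true k) / 2 - 460 * δ ≤ d p k) ∧
      (∀ p, d p k ≤ ((k : ℝ) - i) * δ / 2 - (A false k + A true k) / 2 + 870 * δ) ∧
      (∀ p, ((k : ℝ) - i) * δ / 2 - (A false k + A true k) / 2 - 460 * δ ≤ Θ p k) ∧
      (∀ p, Θ p k ≤ ((k : ℝ) - i) * δ / 2 - (A false k + A true k) / 2 + 870 * δ) := by
    intro p hdp
    have hmin : min (d false j) (d true j) = d (!p) j := by
      cases p
      · simp only [Bool.not_false] at hdp ⊢
        exact min_eq_right hdp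
      · simp only [Bool.not_true] at hdp ⊢
        exact min_eq_left hdp
    have hTsum : ∀ n, Θ false n + Θ true n = Θ p n + Θ (!p) n := by
      intro n
      cases p <;> simp [add_comm]
    have ha0 := h.h3a false i j hij hj (hfar false)
    have ha1 := h.h3a true i j hij hj (hfar true)
    rw [hmin] at ha0 ha1
    have h2 := h.h2 j hj
    have h1' := h.h1 (!p) j hj
    have hTs := hTsum j
    have hlow : ((j : ℝ) - i) * δ / 2 - 3 * e ≤ Θ p j + (A false j + A true j) / 2 := by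
      linarith
    -- the last branching step
    set Br : ℕ → Prop := fun n => (i ≤ n ∧ n < j) ∧ (Θ p n + e1 < Θ p (n + 1) ∨
      A false n + e1 < A false (n + 1) ∨ A true n + e1 < A true (n + 1)) with hBr
    have herr : ∀ n, i ≤ n → n ≤ j → ((j : ℝ) - n) * e1 ≤ δ := by
      intro n _ _
      refine le_trans ?_ h.hJ
      apply mul_le_mul_of_nonneg_right _ h.he1
      have h6 : (j : ℝ) ≤ J := by exact_mod_cast hj
      have h7 : (0 : ℝ) ≤ n := Nat.cast_nonneg n
      linarith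
    by_cases hex : ∃ n, Br n
    · -- take the largest
      obtain ⟨k, hk, hkmax⟩ : ∃ k, Br k ∧ ∀ n, k < n → ¬ Br n := by
        have hb : ∀ n, Br n → n ≤ j := fun n hn => le_of_lt hn.1.2
        obtain ⟨n0, hn0⟩ := hex
        refine ⟨Nat.findGreatest Br j, Nat.findGreatest_spec (hb n0 hn0) hn0, ?_⟩
        intro n hn hBn
        exact absurd (Nat.le_findGreatest (hb n hBn) hBn) (by omega)
      obtain ⟨⟨hik, hkj⟩, hbr⟩ := hk
      have hkJ : k < J := by omega
      have hnbr : ∀ n, k + 1 ≤ n → n < j → ¬ (Θ p n + e1 < Θ p (n + 1)) ∧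
          ¬ (A false n + e1 < A false (n + 1)) ∧ ¬ (A true n + e1 < A true (n + 1)) := by
        intro n hn hnj
        have := hkmax n (by omega)
        rw [hBr] at this
        simp only [not_and_or] at this
        rcases this with h7 | h7
        · omega
        · simp only [not_or] at h7
          exact h7
      have hΘj := no_branch (f := Θ p) (e1 := e1) (i := k + 1) (k := j) (by omega)
        (fun n hn hnj => (hnbr n hn hnj).1)
      have hA0j := no_branch (f := A false) (e1 := e1) (i := k + 1) (k := j) (by omega)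
        (fun n hn hnj => (hnbr n hn hnj).2.1)
      have hA1j := no_branch (f := A true) (e1 := e1) (i := k + 1) (k := j) (by omega)
        (fun n hn hnj => (hnbr n hn hnj).2.2)
      have herr1 := herr (k + 1) (by omega) (by omega)
      have hTi := h.Tinc p k hkJ
      have hAi0 := h.Ainc false k hkJ
      have hAi1 := h.Ainc true k hkJ
      -- flatness at `k`
      have hfl : ∀ s, A s k ≤ μ k - d p k - ((k : ℝ) - i) * δ / 2 + 7 * δ := by
        intro s
        rcases hbr with h7 | h7 | h7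
        · exact h.h3b s p i k hik hkJ (hfar s) h7
        · have h8 := h.h3c s false i k hik hkJ (hfar s) h7
          have h9 : d p k ≤ max (d false k) (d true k) := by
            cases p
            · exact le_max_left _ _
            · exact le_max_right _ _
          linarith
        · have h8 := h.h3c s true i k hik hkJ (hfar s) h7
          have h9 : d p k ≤ max (d false k) (d true k) := by
            cases p
            · exact le_max_left _ _
            · exact le_max_right _ _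
          linarith
      have hf0 := hfl false
      have hf1 := hfl true
      have hlip := h.mu_lip hik (by omega : k ≤ J)
      have h1k := h.h1 p k (by omega)
      have h1k' := h.h1 (!p) k (by omega)
      have h2k := h.h2 k (by omega)
      have hTk := hTsum k
      have hlipj := h.mu_lip hij hj
      have hmonoA0 := h.Amono false k j (by omega) hj
      have hmonoA1 := h.Amono true k j (by omega) hj
      have hdm := h.dmono (!p) k j (by omega) hj
      have hΘjk : Θ p j ≤ Θ p k + 2 * δ := by linarith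
      have hA0jk : A false j ≤ A false k + 2 * δ := by linarith
      have hA1jk : A true j ≤ A true k + 2 * δ := by linarith
      have hjk : (0 : ℝ) ≤ ((j : ℝ) - k) * δ := by
        apply mul_nonneg _ hδ.le
        have : (k : ℝ) ≤ j := by exact_mod_cast hkj.le
        linarith
      have h9 : ((j : ℝ) - i) * δ = ((j : ℝ) - k) * δ + ((k : ℝ) - i) * δ := by ring
      have hdist : ((j : ℝ) - k) * δ ≤ 866 * δ := by linarith
      have hBA : ((k : ℝ) - i) * δ / 2 - 5 * δ ≤ Θ p k + (A false k + A true k) / 2 := by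
        linarith
      -- the four bounds for kind p
      have hdp_lo : ((k : ℝ) - i) * δ / 2 - (A false k + A true k) / 2 - 6 * δ ≤ d p k := by
        linarith
      have hdp_hi : d p k ≤ ((k : ℝ) - i) * δ / 2 - (A false k + A true k) / 2 + 428 * δ := by
        linarith
      have hΘp_hi : Θ p k ≤ ((k : ℝ) - i) * δ / 2 - (A false k + A true k) / 2 + 429 * δ := by
        linarith
      have hmuk_lo : ((k : ℝ) - i) * δ - 13 * δ ≤ μ k := by linarith
      have hdq_hi : d (!p) k ≤ ((k : ℝ) - i) * δ / 2 - (A false k + A true k) / 2 + 856 * δ := by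
        have h9 : ((j : ℝ) - i) * δ = ((j : ℝ) - k) * δ + ((k : ℝ) - i) * δ := by ring
        linarith
      have hΘq_lo : ((k : ℝ) - i) * δ / 2 - (A false k + A true k) / 2 - 444 * δ ≤ Θ (!p) k := by
        linarith
      refine ⟨k, hik, hkj, by linarith, by linarith, ?_, ?_, ?_, ?_⟩
      · have hA : ((k : ℝ) - i) * δ / 2 - (A false k + A true k) / 2 - 460 * δ ≤ d p k := by
          linarith
        have hB : ((k : ℝ) - i) * δ / 2 - (A false k + A true k) / 2 - 460 * δ ≤ d (!p) k := by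
          linarith
        intro q
        cases p <;> cases q <;> first | exact hA | exact hB
      · have hA : d p k ≤ ((k : ℝ) - i) * δ / 2 - (A false k + A true k) / 2 + 870 * δ := by
          linarith
        have hB : d (!p) k ≤ ((k : ℝ) - i) * δ / 2 - (A false k + A true k) / 2 + 870 * δ := by
          linarith
        intro q
        cases p <;> cases q <;> first | exact hA | exact hB
      · have hA : ((k : ℝ) - i) * δ / 2 - (A false k + A true k) / 2 - 460 * δ ≤ Θ p k := by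
          linarith
        have hB : ((k : ℝ) - i) * δ / 2 - (A false k + A true k) / 2 - 460 * δ ≤ Θ (!p) k := by
          linarith
        intro q
        cases p <;> cases q <;> first | exact hA | exact hB
      · have hA : Θ p k ≤ ((k : ℝ) - i) * δ / 2 - (A false k + A true k) / 2 + 870 * δ := by
          linarith
        have hB : Θ (!p) k ≤ ((k : ℝ) - i) * δ / 2 - (A false k + A true k) / 2 + 870 * δ := by
          linarith
        intro q
        cases p <;> cases q <;> first | exact hA | exact hB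
    · exfalso
      have hnbr : ∀ n, i ≤ n → n < j → ¬ (Θ p n + e1 < Θ p (n + 1)) ∧
          ¬ (A false n + e1 < A false (n + 1)) ∧ ¬ (A true n + e1 < A true (n + 1)) := by
        intro n hn hnj
        have h7 : ¬ Br n := fun hB => hex ⟨n, hB⟩
        rw [hBr] at h7
        simp only [not_and_or] at h7
        rcases h7 with h7 | h7
        · omega
        · simp only [not_or] at h7
          exact h7
      have hΘj := no_branch (f := Θ p) (e1 := e1) (i := i) (k := j) hij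
        (fun n hn hnj => (hnbr n hn hnj).1)
      have hA0j := no_branch (f := A false) (e1 := e1) (i := i) (k := j) hij
        (fun n hn hnj => (hnbr n hn hnj).2.1)
      have hA1j := no_branch (f := A true) (e1 := e1) (i := i) (k := j) hij
        (fun n hn hnj => (hnbr n hn hnj).2.2)
      have herr1 := herr i le_rfl hij
      have h3T := h.h3T p i (by omega)
      have hd0 := h.d0 false i (by omega)
      have hd1 := h.d0 true i (by omega)
      have hmn : (0 : ℝ) ≤ min (d false i) (d true i) := le_min hd0 hd1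
      have hA0 := hAi false
      have hA1 := hAi true
      linarith
  rcases le_total (d false j) (d true j) with hd | hd
  · exact main true (by simpa using hd)
  · exact main false (by simpa using hd)

/-- Claim C: lines branch slowly. -/
lemma ExpData.line_quarter (h : ExpData J δ e e1 μ A Θ d) {i : ℕ} (_hiJ : i ≤ J)
    (hfar : ∀ s, FarAt δ A s i) (hmui : μ i ≤ 421 * δ) (hAi : ∀ s, A s i ≤ 134 * δ)
    {j : ℕ} (hij : i ≤ j) (hj : j ≤ J) (s : Bool) :
    A s j ≤ ((j : ℝ) - i) * δ / 4 + 216 * δ := by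
  have hδ := h.hδ
  have he1 := h.he1
  have key : ∀ n, i ≤ n → n ≤ j → A s n ≤ ((n : ℝ) - i) * δ / 4 + 215 * δ + ((n : ℝ) - i) * e1 := by
    intro n hn
    induction n, hn using Nat.le_induction with
    | base =>
      intro _
      have := hAi s
      simp only [sub_self, zero_mul, zero_div, zero_add, add_zero]
      linarith
    | succ n hn ih =>
      intro hnj
      have h1 := ih (by omega)
      have hnJ : n < J := by omega
      have hn' : (0 : ℝ) ≤ (n : ℝ) - i := by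
        have : (i : ℝ) ≤ n := by exact_mod_cast hn
        linarith
      have h3 : (0 : ℝ) ≤ ((n : ℝ) - i) * e1 := mul_nonneg hn' he1
      by_cases hb : A s n + e1 < A s (n + 1)
      · have h4 := h.h3d s i n hn hnJ (hfar s) hb
        have h5 := h.mu_lip hn hnJ.le
        have h6 := h.Ainc s n hnJ
        push_cast
        nlinarith
      · push Not at hb
        push_cast
        nlinarith
  have h1 := key j hij le_rfl
  have h5 : ((j : ℝ) - i) * e1 ≤ δ := by
    refine le_trans ?_ h.hJ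
    apply mul_le_mul_of_nonneg_right _ h.he1
    have h6 : (j : ℝ) ≤ J := by exact_mod_cast hj
    have h7 : (0 : ℝ) ≤ i := Nat.cast_nonneg i
    linarith
  linarith

/-- The inequalities of `ExpData` are contradictory. -/
theorem expData_absurd (h : ExpData J δ e e1 μ A Θ d) : False := by
  have hδ := h.hδ
  have he := h.he
  have he10 := h.he10
  obtain ⟨i, hiJ, hfar, hmui, hAi⟩ := h.exists_far
  -- there are at least 68500 steps after `i`
  have hroom : i + 68500 ≤ J := by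
    by_contra hcon
    push Not at hcon
    have h1 := h.mu_lip hiJ le_rfl
    have h2 := h.h6
    have h3 : ((J : ℝ) - i) ≤ 68500 := by
      have : (J : ℝ) ≤ i + 68500 := by exact_mod_cast hcon.le
      linarith
    nlinarith
  -- first good scale
  obtain ⟨k1, hk1, hk1', hd1, hmu1, hlo1, hhi1, hTlo1, hThi1⟩ :=
    h.good hiJ hfar hmui hAi (j := i + 10000) (by omega) (by omega) (by push_cast; nlinarith)
  -- second good scale
  obtain ⟨k2, hk2, hk2', hd2, hmu2, hlo2, hhi2, hTlo2, hThi2⟩ :=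
    h.good hiJ hfar hmui hAi (j := i + 68000) (by omega) (by omega) (by push_cast; nlinarith)
  push_cast at hd1 hd2
  have e1' : 9100 ≤ (k1 : ℝ) - i := by
    by_contra hcon
    push Not at hcon
    nlinarith
  have e1'' : (k1 : ℝ) - i ≤ 10000 := by
    have : (k1 : ℝ) ≤ i + 10000 := by exact_mod_cast hk1'.le
    linarith
  have e2' : 67100 ≤ (k2 : ℝ) - i := by
    by_contra hcon
    push Not at hcon
    nlinarith
  have hk12 : k1 ≤ k2 := by
    have : (k1 : ℝ) ≤ k2 := by linarith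
    exact_mod_cast this
  have hk2J : k2 ≤ J := by omega
  have hk1J : k1 ≤ J := by omega
  -- bounds on `A`
  have hAk1l : ∀ s, -e ≤ A s k1 := fun s => le_trans (h.A0l s) (h.Amono s 0 k1 (by omega) hk1J)
  have hq20 := h.line_quarter hiJ hfar hmui hAi hk2 hk2J false
  have hq21 := h.line_quarter hiJ hfar hmui hAi hk2 hk2J true
  set ρ1 := ((k1 : ℝ) - i) * δ with hρ1
  set ρ2 := ((k2 : ℝ) - i) * δ with hρ2
  have hρ1lo : 9100 * δ ≤ ρ1 := by rw [hρ1]; nlinarith
  have hρ1hi : ρ1 ≤ 10000 * δ := by rw [hρ1]; nlinarith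
  have hρ2lo : 67100 * δ ≤ ρ2 := by rw [hρ2]; nlinarith
  set mn := min (d false k1) (d true k1) with hmn
  have hmnlo : ρ1 / 2 - (A false k1 + A true k1) / 2 - 460 * δ ≤ mn := le_min (hlo1 false) (hlo1 true)
  have hmnhi : mn ≤ ρ1 / 2 - (A false k1 + A true k1) / 2 + 870 * δ :=
    le_trans (min_le_left _ _) (hhi1 false)
  have hA0 := hAk1l false
  have hA1 := hAk1l true
  have hcond : ρ1 + mn ≤ d false k2 := by
    have h5 := hlo2 false
    linarith
  have hS0 := h.hS false i k1 k2 hk1 hk12 hk2J (hfar false) hcond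
  have hS1 := h.hS true i k1 k2 hk1 hk12 hk2J (hfar true) hcond
  rw [← hmn] at hS0 hS1
  have h6 := hTlo2 false
  have h7 := hhi2 false
  have h8 := hThi1 false
  linarith

end Pool.Agent.Work.MP_e17eac_co.DH

end

section

/-!
# Branching of tokens: flatness by their displacement
-/

namespace Pool.Agent.Work.MP_e17eac_co.DH

open Finset

namespace XBRT

variable {ι : Type} [Fintype ι] [DecidableEq ι]

theorem cell_div (K : KSys ι) {Q : ℕ} (hQ : 2 ≤ Q) (j n : ℕ) :
    K.cell Q (j + 1) n / Q = K.cell Q j n := by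
  unfold KSys.cell
  rw [← Nat.floor_div_natCast]
  congr 1
  have : (Q : ℝ) ≠ 0 := by
    have : Q ≠ 0 := by omega
    exact_mod_cast this
  rw [pow_succ]
  field_simp

theorem cell_bounds (K : KSys ι) {Q : ℕ} (hQ : 2 ≤ Q) {j n k : ℕ} (h0 : 0 ≤ K.t n)
    (hc : K.cell Q j n = k) :
    (k : ℝ) / (Q : ℝ) ^ j ≤ K.t n ∧ K.t n < ((k : ℝ) + 1) / (Q : ℝ) ^ j := by
  have hQ0 : (0 : ℝ) < (Q : ℝ) ^ j := by
    have : (0 : ℝ) < Q := by
      have : 0 < Q := by omega
      exact_mod_cast this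
    positivity
  subst hc
  unfold KSys.cell
  constructor
  · rw [div_le_iff₀ hQ0]
    exact Nat.floor_le (mul_nonneg h0 hQ0.le)
  · rw [lt_div_iff₀ hQ0]
    exact Nat.lt_floor_add_one _

/-- the contact edges of `n` -/
def Con (K : KSys ι) (Q : ℕ) (E : Finset ℕ) (p : Bool) (j n : ℕ) (ab : ℕ × ℕ) : Prop :=
  ab.1 + 2 ≤ ab.2 ∧ ab.2 < Q ∧
  (∃ k ∈ E, K.cell Q (j + 1) k = Q * K.cell Q j n + ab.1 ∧ K.tok p k = K.tok p n) ∧
  ∃ k ∈ E, K.cell Q (j + 1) k = Q * K.cell Q j n + ab.2 ∧ K.tok p k = K.tok p n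

theorem exists_con (hCnt : StCnt) (K : KSys ι) (Q J : ℕ) (E : Finset ℕ) (Λ : ℝ)
    (D : Bool → ℕ → ℝ) (hQ : 2 ≤ Q) (hR : Reg K Q J E Λ D) (p : Bool) (j : ℕ) (hj : j + 1 ≤ J)
    (hB : 3 * Λ ^ 2 * PT K Q E p j ≤ PT K Q E p (j + 1)) (n : ℕ) (hn : n ∈ E) :
    ∃ ab : ℕ × ℕ, Con K Q E p j n ab := by
  classical
  set f : ℕ → ℕ × ι := fun n => (K.cell Q j n, K.tok p n) with hf
  set g : ℕ → ℕ × ι := fun n => (K.cell Q (j + 1) n, K.tok p n) with hg
  have h1 := (hCnt (ℕ × ι) (ℕ × ι) Λ E f g hR.one_le (hR.regT p j (by omega))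
    (hR.regT p (j + 1) hj) (fun n _ k _ h => by
      simp only [hg, Prod.mk.injEq] at h
      simp only [hf, Prod.mk.injEq]
      refine ⟨?_, h.2⟩
      rw [← cell_div K hQ j n, ← cell_div K hQ j k, h.1]) n hn).1
  set F := E.filter (fun k => f k = f n) with hF
  have hΛ : (0 : ℝ) < Λ ^ 2 := by have := hR.one_le; positivity
  have hpos : (0 : ℝ) < (im E f : ℝ) := by
    have : 0 < im E f := Finset.card_pos.2 (hR.ne.image f)
    exact_mod_cast this
  have h2 : 3 * Λ ^ 2 * (im E f : ℝ) ≤ (im E g : ℝ) := hB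
  have h3 : (3 : ℝ) ≤ (im F g : ℝ) := by
    have h4 : Λ ^ 2 * (im E f : ℝ) * 3 ≤ Λ ^ 2 * (im E f : ℝ) * (im F g : ℝ) := by
      have := h2.trans h1
      nlinarith [this]
    exact le_of_mul_le_mul_left h4 (by positivity)
  have h3' : 3 ≤ im F g := by exact_mod_cast h3
  -- the children
  set c : ℕ → ℕ := fun k => K.cell Q (j + 1) k % Q with hc
  have hFm : ∀ k ∈ F, k ∈ E ∧ K.cell Q j k = K.cell Q j n ∧ K.tok p k = K.tok p n := by
    intro k hk
    rw [hF, mem_filter] at hk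
    have := hk.2
    simp only [hf, Prod.mk.injEq] at this
    exact ⟨hk.1, this.1, this.2⟩
  have hcell : ∀ k ∈ F, K.cell Q (j + 1) k = Q * K.cell Q j n + c k := by
    intro k hk
    have e1 := Nat.div_add_mod (K.cell Q (j + 1) k) Q
    rw [cell_div K hQ, (hFm k hk).2.1] at e1
    exact e1.symm
  have h4 : im F g ≤ (F.image c).card := by
    unfold im
    have h5 : F.image g ⊆ (F.image c).image (fun r => (Q * K.cell Q j n + r, K.tok p n)) := by
      intro z hz
      rw [mem_image] at hz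
      obtain ⟨k, hk, rfl⟩ := hz
      rw [mem_image]
      refine ⟨c k, mem_image_of_mem c hk, ?_⟩
      simp only [hg, Prod.mk.injEq]
      exact ⟨(hcell k hk).symm, (hFm k hk).2.2.symm⟩
    exact (card_le_card h5).trans card_image_le
  have hne : (F.image c).Nonempty := card_pos.1 (by omega)
  set al := (F.image c).min' hne with hal
  set be := (F.image c).max' hne with hbe
  have hsub : F.image c ⊆ Icc al be := by
    intro z hz
    rw [mem_Icc]
    exact ⟨min'_le _ _ hz, le_max' _ _ hz⟩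
  have hcard := card_le_card hsub
  rw [Nat.card_Icc] at hcard
  refine ⟨(al, be), by simp only; omega, ?_, ?_, ?_⟩
  · have : be ∈ F.image c := max'_mem _ hne
    rw [mem_image] at this
    obtain ⟨k, -, hk⟩ := this
    rw [← hk]
    exact Nat.mod_lt _ (by omega)
  · have : al ∈ F.image c := min'_mem _ hne
    rw [mem_image] at this
    obtain ⟨k, hkF, hk⟩ := this
    refine ⟨k, (hFm k hkF).1, ?_, (hFm k hkF).2.2⟩
    rw [hcell k hkF, hk]
  · have : be ∈ F.image c := max'_mem _ hne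
    rw [mem_image] at this
    obtain ⟨k, hkF, hk⟩ := this
    refine ⟨k, (hFm k hkF).1, ?_, (hFm k hkF).2.2⟩
    rw [hcell k hkF, hk]

/-- the bounds of the level by the lines of an edge of the cell -/
theorem sand (hSand : StSand) (hIdx : StIdx) (K : KSys ι) (Q J : ℕ) (E : Finset ℕ) (Λ : ℝ)
    (D : Bool → ℕ → ℝ) (hQ : 2 ≤ Q) (hR : Reg K Q J E Λ D) (j : ℕ) (hj : j ≤ J) (n : ℕ)
    (hn : n ∈ E) (c : Bool) (r : ℝ) (h0 : (K.cell Q j n : ℝ) / (Q : ℝ) ^ j ≤ r)
    (h1 : r ≤ ((K.cell Q j n : ℝ) + 1) / (Q : ℝ) ^ j) :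
    K.ht (K.ln c n) r ≤ K.L r + 2 * D false j / (Q : ℝ) ^ j ∧
      K.L r ≤ K.ht (K.ln c n) r + 2 * D true j / (Q : ℝ) ^ j := by
  have hQ0 : (0 : ℝ) < (Q : ℝ) ^ j := by
    have : (0 : ℝ) < Q := by
      have : 0 < Q := by omega
      exact_mod_cast this
    positivity
  obtain ⟨hnN, ht0, -⟩ := hR.sub n hn
  obtain ⟨b0, b1⟩ := cell_bounds K hQ (j := j) ht0 rfl
  obtain ⟨i1, i2, -, -⟩ := hIdx ι K
  have hv0 := i1 ((K.cell Q j n : ℝ) / (Q : ℝ) ^ j)
  have hv1 := i1 (((K.cell Q j n : ℝ) + 1) / (Q : ℝ) ^ j)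
  have hp : K.idx ((K.cell Q j n : ℝ) / (Q : ℝ) ^ j) ≤ n := by
    by_contra hcon
    have := ((i2 n _).1 (not_le.1 hcon)).2
    linarith
  have hq : n < K.idx (((K.cell Q j n : ℝ) + 1) / (Q : ℝ) ^ j) := (i2 n _).2 ⟨hnN, b1⟩
  obtain ⟨s1, s2⟩ := hSand ι K n _ _ _ _ r c hnN hv0 hv1 hp hq h0 h1
  have e : ((K.cell Q j n : ℝ) + 1) / (Q : ℝ) ^ j - (K.cell Q j n : ℝ) / (Q : ℝ) ^ j =
      1 / (Q : ℝ) ^ j := by ring
  have d1 := hR.dhi false j hj n hn
  have d2 := hR.dhi true j hj n hn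
  unfold KSys.disp KSys.ci KSys.tok at d1 d2
  push_cast at d1 d2
  rw [e] at s1 s2
  have m1 := mul_le_mul_of_nonneg_left d1.le (show (0 : ℝ) ≤ 1 / (Q : ℝ) ^ j by positivity)
  have m2 := mul_le_mul_of_nonneg_left d2.le (show (0 : ℝ) ≤ 1 / (Q : ℝ) ^ j by positivity)
  have e1 : 1 / (Q : ℝ) ^ j * (2 * D false j) = 2 * D false j / (Q : ℝ) ^ j := by ring
  have e2 : 1 / (Q : ℝ) ^ j * (2 * D true j) = 2 * D true j / (Q : ℝ) ^ j := by ring
  rw [e1] at m1
  rw [e2] at m2
  constructor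
  · linarith
  · linarith

/-- times in different children are separated -/
theorem times (K : KSys ι) {Q : ℕ} (hQ : 2 ≤ Q) {j k al be n1 n2 : ℕ} (h : al + 2 ≤ be)
    (h1 : 0 ≤ K.t n1) (h2 : 0 ≤ K.t n2) (c1 : K.cell Q (j + 1) n1 = Q * k + al)
    (c2 : K.cell Q (j + 1) n2 = Q * k + be) : K.t n1 + 1 / (Q : ℝ) ^ (j + 1) ≤ K.t n2 := by
  have hQ0 : (0 : ℝ) < (Q : ℝ) ^ (j + 1) := by
    have : (0 : ℝ) < Q := by
      have : 0 < Q := by omega
      exact_mod_cast this
    positivity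
  obtain ⟨-, a2⟩ := cell_bounds K hQ h1 c1
  obtain ⟨b1, -⟩ := cell_bounds K hQ h2 c2
  have h' : ((Q * k + al : ℕ) : ℝ) + 2 ≤ ((Q * k + be : ℕ) : ℝ) := by
    exact_mod_cast (by omega : Q * k + al + 2 ≤ Q * k + be)
  have h3 : (((Q * k + al : ℕ) : ℝ) + 1) / (Q : ℝ) ^ (j + 1) + 1 / (Q : ℝ) ^ (j + 1) ≤
      ((Q * k + be : ℕ) : ℝ) / (Q : ℝ) ^ (j + 1) := by
    rw [← add_div]
    exact div_le_div_of_nonneg_right (by linarith) hQ0.le
  linarith

theorem key (hContact : StContact) (hSand : StSand) (hTouch : StTouch) (hLeq : StLeq)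
    (hIdx : StIdx) (K : KSys ι) (Q J : ℕ) (E : Finset ℕ) (Λ : ℝ)
    (D : Bool → ℕ → ℝ) (hQ : 2 ≤ Q) (hR : Reg K Q J E Λ D) (p : Bool) (j : ℕ) (hj : j ≤ J)
    (c : Bool) (n n' : ℕ) (hn : n ∈ E) (hn' : n' ∈ E) (hcc : K.cell Q j n = K.cell Q j n')
    (ab : ℕ × ℕ) (hC : Con K Q E p j n ab) (hC' : Con K Q E p j n' ab) (r : ℝ)
    (h0 : (K.cell Q j n : ℝ) / (Q : ℝ) ^ j ≤ r)
    (h1 : r ≤ ((K.cell Q j n : ℝ) + 1) / (Q : ℝ) ^ j) :
    |K.ht (K.ln c n) r - K.ht (K.ln c n') r| ≤ 6 * Q * D p j / (Q : ℝ) ^ j := by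
  have hQ1 : (0 : ℝ) < Q := by
    have : 0 < Q := by omega
    exact_mod_cast this
  have hQ2 : (2 : ℝ) ≤ Q := by exact_mod_cast hQ
  have hQ0 : (0 : ℝ) < (Q : ℝ) ^ j := by positivity
  obtain ⟨hab, habQ, ⟨k1, k1E, k1c, k1t⟩, k2, k2E, k2c, k2t⟩ := hC
  obtain ⟨-, -, ⟨l1, l1E, l1c, l1t⟩, l2, l2E, l2c, l2t⟩ := hC'
  rw [← hcc] at l1c l2c
  have hD : 0 ≤ D p j := by
    have d1 := hR.dhi p j hj n hn
    have d2 : 0 ≤ K.disp Q j (K.cell Q j n) (K.tok p n) := abs_nonneg _
    linarith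
  have hcell : ∀ (k a : ℕ), a < Q → K.cell Q (j + 1) k = Q * K.cell Q j n + a →
      K.cell Q j k = K.cell Q j n := by
    intro k a ha hk
    rw [← cell_div K hQ j k, hk, Nat.mul_add_div (by omega), Nat.div_eq_of_lt ha, add_zero]
  have hin : ∀ k ∈ E, K.cell Q j k = K.cell Q j n → (K.cell Q j n : ℝ) / (Q : ℝ) ^ j ≤ K.t k ∧
      K.t k ≤ ((K.cell Q j n : ℝ) + 1) / (Q : ℝ) ^ j := by
    intro k hk hkc
    obtain ⟨a1, a2⟩ := cell_bounds K hQ (hR.sub k hk).2.1 hkc
    exact ⟨a1, a2.le⟩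
  have ik1 := hin k1 k1E (hcell k1 ab.1 (by omega) k1c)
  have ik2 := hin k2 k2E (hcell k2 ab.2 habQ k2c)
  have il1 := hin l1 l1E (hcell l1 ab.1 (by omega) l1c)
  have il2 := hin l2 l2E (hcell l2 ab.2 habQ l2c)
  have nk1 := hR.sub k1 k1E
  have nk2 := hR.sub k2 k2E
  have nl1 := hR.sub l1 l1E
  have nl2 := hR.sub l2 l2E
  have w1 := times K hQ hab nk1.2.1 nk2.2.1 k1c k2c
  have w2 := times K hQ hab nk1.2.1 nl2.2.1 k1c l2c
  have w3 := times K hQ hab nl1.2.1 nk2.2.1 l1c k2c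
  have w4 := times K hQ hab nl1.2.1 nl2.2.1 l1c l2c
  have hnN := (hR.sub n hn).1
  have hnN' := (hR.sub n' hn').1
  have hfin : 2 * D p j / (Q : ℝ) ^ j + 2 * (2 * D p j / (Q : ℝ) ^ j) *
      (((K.cell Q j n : ℝ) + 1) / (Q : ℝ) ^ j - (K.cell Q j n : ℝ) / (Q : ℝ) ^ j) /
        (1 / (Q : ℝ) ^ (j + 1)) ≤ 6 * Q * D p j / (Q : ℝ) ^ j := by
    have e : 2 * D p j / (Q : ℝ) ^ j + 2 * (2 * D p j / (Q : ℝ) ^ j) *
      (((K.cell Q j n : ℝ) + 1) / (Q : ℝ) ^ j - (K.cell Q j n : ℝ) / (Q : ℝ) ^ j) /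
        (1 / (Q : ℝ) ^ (j + 1)) = (2 + 4 * Q) * D p j / (Q : ℝ) ^ j := by
      rw [pow_succ]
      field_simp
      ring
    rw [e]
    refine div_le_div_of_nonneg_right ?_ hQ0.le
    exact mul_le_mul_of_nonneg_right (by linarith) hD
  refine le_trans ?_ hfin
  have S1 := fun r h0 h1 => sand hSand hIdx K Q J E Λ D hQ hR j hj n hn c r h0 h1
  have S2 := fun r h0 h1 => sand hSand hIdx K Q J E Λ D hQ hR j hj n' hn' c r
    (by rw [← hcc]; exact h0) (by rw [← hcc]; exact h1)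
  have hc0 : 0 ≤ 2 * D p j / (Q : ℝ) ^ j := by positivity
  have hw0 : (0 : ℝ) < 1 / (Q : ℝ) ^ (j + 1) := by positivity
  cases p
  · have T := fun k (hk : k < K.N) m (hm : m < K.N) (e : K.tok false k = K.tok false m) =>
      (hTouch ι K m k c hm hk).1 e.symm
    refine hContact (K.y (K.ln c n)) (K.x (K.ln c n)) (K.y (K.ln c n')) (K.x (K.ln c n'))
      (2 * D false j / (Q : ℝ) ^ j) (1 / (Q : ℝ) ^ (j + 1)) _ _ (K.t k1) (K.t l1) (K.t k2)
      (K.t l2) K.L hc0 hw0 (fun r h0 h1 => (S1 r h0 h1).1)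
      (fun r h0 h1 => (S2 r h0 h1).1) ik1.1 ik1.2 il1.1 il1.2 ik2.1 ik2.2 il2.1 il2.2
      w1 w2 w3 w4 ?_ ?_ ?_ ?_ r h0 h1
    · rw [(hLeq ι K k1 nk1.1).1]
      exact T k1 nk1.1 n hnN k1t
    · rw [(hLeq ι K k2 nk2.1).1]
      exact T k2 nk2.1 n hnN k2t
    · rw [(hLeq ι K l1 nl1.1).1]
      exact T l1 nl1.1 n' hnN' l1t
    · rw [(hLeq ι K l2 nl2.1).1]
      exact T l2 nl2.1 n' hnN' l2t
  · have T := fun k (hk : k < K.N) m (hm : m < K.N) (e : K.tok true k = K.tok true m) =>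
      (hTouch ι K m k c hm hk).2 e.symm
    have H := hContact (-K.y (K.ln c n)) (-K.x (K.ln c n)) (-K.y (K.ln c n')) (-K.x (K.ln c n'))
      (2 * D true j / (Q : ℝ) ^ j) (1 / (Q : ℝ) ^ (j + 1)) _ _ (K.t k1) (K.t l1) (K.t k2)
      (K.t l2) (fun r => -K.L r) hc0 hw0 (fun r h0 h1 => by
        have := (S1 r h0 h1).2
        unfold KSys.ht at this
        linarith)
      (fun r h0 h1 => by
        have := (S2 r h0 h1).2
        unfold KSys.ht at this
        linarith) ik1.1 ik1.2 il1.1 il1.2 ik2.1 ik2.2 il2.1 il2.2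
      w1 w2 w3 w4 (by
        have := T k1 nk1.1 n hnN k1t
        unfold KSys.ht at this
        rw [(hLeq ι K k1 nk1.1).1]
        linarith) (by
        have := T k2 nk2.1 n hnN k2t
        unfold KSys.ht at this
        rw [(hLeq ι K k2 nk2.1).1]
        linarith) (by
        have := T l1 nl1.1 n' hnN' l1t
        unfold KSys.ht at this
        rw [(hLeq ι K l1 nl1.1).1]
        linarith) (by
        have := T l2 nl2.1 n' hnN' l2t
        unfold KSys.ht at this
        rw [(hLeq ι K l2 nl2.1).1]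
        linarith) r h0 h1
    rw [abs_sub_comm]
    have e : K.ht (K.ln c n') r - K.ht (K.ln c n) r =
        -K.y (K.ln c n) + -K.x (K.ln c n) * r - (-K.y (K.ln c n') + -K.x (K.ln c n') * r) := by
      unfold KSys.ht
      ring
    rw [e]
    exact H

end XBRT

theorem I_BRT (hContact : StContact) (hPop : StPop) (hCnt : StCnt) (hSand : StSand)
    (hTouch : StTouch) (hLeq : StLeq) (hIdx : StIdx) (hInc : StInc) : StBrT := by
  intro ι _ _ K Q J E Λ D hQ hR p j hj hB
  have h1 : ∀ n, ∃ ab : ℕ × ℕ, n ∈ E → XBRT.Con K Q E p j n ab := by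
    intro n
    by_cases hn : n ∈ E
    · obtain ⟨ab, h⟩ := XBRT.exists_con hCnt K Q J E Λ D hQ hR p j hj hB n hn
      exact ⟨ab, fun _ => h⟩
    · exact ⟨(0, 0), fun h => absurd h hn⟩
  choose g hg using h1
  obtain ⟨E2, hE2, hcard, hpop⟩ := hPop Q E (fun n => K.cell Q j n) g (by omega) (fun n hn => by
    obtain ⟨a1, a2, -⟩ := hg n hn
    exact ⟨by omega, a2⟩)
  refine ⟨E2, hE2, hcard, fun c n hn n' hn' hcc => ?_⟩
  have hC := hg n (hE2 hn)
  have hC' := hg n' (hE2 hn')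
  rw [← hpop n hn n' hn' hcc] at hC'
  have hQ0 : (0 : ℝ) < (Q : ℝ) ^ j := by
    have : (0 : ℝ) < Q := by
      have : 0 < Q := by omega
      exact_mod_cast this
    positivity
  have hle : (K.cell Q j n : ℝ) / (Q : ℝ) ^ j ≤ ((K.cell Q j n : ℝ) + 1) / (Q : ℝ) ^ j :=
    div_le_div_of_nonneg_right (by linarith) hQ0.le
  have H := fun r h0 h1 => XBRT.key hContact hSand hTouch hLeq hIdx K Q J E Λ D hQ hR p j
    (by omega) c n n' (hE2 hn) (hE2 hn') hcc (g n) hC hC' r h0 h1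
  exact ⟨H _ le_rfl hle, H _ hle le_rfl⟩

end Pool.Agent.Work.MP_e17eac_co.DH

end

section

/-!
# The contact lemma
-/

namespace Pool.Agent.Work.MP_e17eac_co.DH

open Finset

namespace XCONTACT

/-- the slope is at most `2 c / w` -/
theorem slope (G H c w s t s' t' : ℝ) (hw : 0 < w) (hst' : s + w ≤ t') (hts' : t + w ≤ s')
    (h1 : G + H * t ≤ c) (h2 : G + H * t' ≤ c) (h3 : -c ≤ G + H * s)
    (h4 : -c ≤ G + H * s') : |H| ≤ 2 * c / w := by
  rw [le_div_iff₀ hw]
  rcases le_total 0 H with h | h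
  · rw [abs_of_nonneg h]
    have h5 : H * w ≤ H * (t' - s) := mul_le_mul_of_nonneg_left (by linarith) h
    linarith
  · rw [abs_of_nonpos h]
    have h5 : -H * w ≤ -H * (s' - t) := mul_le_mul_of_nonneg_left (by linarith) (by linarith)
    linarith

end XCONTACT

theorem I_CONTACT : StContact := by
  intro u v u' v' c w s0 s1 s t s' t' L hc hw hL hL' a1 a2 a3 a4 a5 a6 a7 a8 d1 d2 d3 d4
    e1 e2 e3 e4 r hr0 hr1
  have g1 : (u - u') + (v - v') * t ≤ c := by
    have := hL t a3 a4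
    linarith
  have g2 : (u - u') + (v - v') * t' ≤ c := by
    have := hL t' a7 a8
    linarith
  have g3 : -c ≤ (u - u') + (v - v') * s := by
    have := hL' s a1 a2
    linarith
  have g4 : -c ≤ (u - u') + (v - v') * s' := by
    have := hL' s' a5 a6
    linarith
  have hs := XCONTACT.slope (u - u') (v - v') c w s t s' t' hw d2 d3 g1 g2 g3 g4
  have hl : 0 ≤ s1 - s0 := by linarith
  have hm : |v - v'| * (s1 - s0) ≤ 2 * c * (s1 - s0) / w := by
    have h1 := mul_le_mul_of_nonneg_right hs hl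
    have h2 : 2 * c / w * (s1 - s0) = 2 * c * (s1 - s0) / w := by ring
    rw [h2] at h1
    exact h1
  have hb : ∀ p, s0 ≤ p → p ≤ s1 → |(v - v') * (r - p)| ≤ 2 * c * (s1 - s0) / w := by
    intro p hp0 hp1
    refine le_trans ?_ hm
    rw [abs_mul]
    refine mul_le_mul_of_nonneg_left ?_ (abs_nonneg _)
    rw [abs_le]
    constructor <;> linarith
  rw [abs_le]
  constructor
  · have := (abs_le.1 (hb s a1 a2)).1
    linarith
  · have := (abs_le.1 (hb t a3 a4)).2
    linarith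

end Pool.Agent.Work.MP_e17eac_co.DH

end

section

/-!
# CORD: cells with many lines
-/

namespace Pool.Agent.Work.MP_e17eac_co.DH

open Finset

namespace XCORD

/-- Cauchy-Schwarz over the lines of `U`. -/
theorem cs {ι : Type} [DecidableEq ι] (A : Finset ℕ) (G : ℕ → Finset ι) (U : Finset ι)
    (h : ∀ k ∈ A, G k ⊆ U) :
    (∑ k ∈ A, ((G k).card : ℝ)) ^ 2 ≤
      (U.card : ℝ) * ∑ k ∈ A, ∑ k' ∈ A, ((G k ∩ G k').card : ℝ) := by
  have h1 : ∑ k ∈ A, ((G k).card : ℝ) =
      ∑ i ∈ U, ∑ k ∈ A, (if i ∈ G k then (1 : ℝ) else 0) := by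
    rw [Finset.sum_comm]
    refine Finset.sum_congr rfl fun k hk => ?_
    rw [← Finset.sum_filter, Finset.filter_mem_eq_inter, Finset.inter_eq_right.2 (h k hk)]
    simp
  have h2 : ∑ i ∈ U, (∑ k ∈ A, (if i ∈ G k then (1 : ℝ) else 0)) ^ 2 =
      ∑ k ∈ A, ∑ k' ∈ A, ((G k ∩ G k').card : ℝ) := by
    have h3 : ∀ i ∈ U, (∑ k ∈ A, (if i ∈ G k then (1 : ℝ) else 0)) ^ 2 =
        ∑ k ∈ A, ∑ k' ∈ A, (if i ∈ G k ∩ G k' then (1 : ℝ) else 0) := by
      intro i _
      rw [sq, Finset.sum_mul_sum]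
      refine Finset.sum_congr rfl fun k _ => Finset.sum_congr rfl fun k' _ => ?_
      by_cases hk : i ∈ G k
      · by_cases hk' : i ∈ G k'
        · simp [hk, hk']
        · simp [hk, hk']
      · simp [hk]
    rw [Finset.sum_congr rfl h3, Finset.sum_comm]
    refine Finset.sum_congr rfl fun k hk => ?_
    rw [Finset.sum_comm]
    refine Finset.sum_congr rfl fun k' _ => ?_
    rw [← Finset.sum_filter, Finset.filter_mem_eq_inter,
      Finset.inter_eq_right.2 (Finset.inter_subset_left.trans (h k hk))]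
    simp
  rw [h1, ← h2]
  exact sq_sum_le_card_mul_sum_sq

/-- Harmonic sums over an injective image. -/
theorem harm_inj (B : Finset ℕ) (φ : ℕ → ℕ) (R : ℕ) (hφ : Set.InjOn φ B)
    (hR : ∀ k ∈ B, φ k < R) : ∑ k ∈ B, ((φ k : ℝ) + 1)⁻¹ ≤ 1 + Real.log R := by
  have h1 : ∑ k ∈ B, ((φ k : ℝ) + 1)⁻¹ = ∑ j ∈ B.image φ, ((j : ℝ) + 1)⁻¹ :=
    (Finset.sum_image (f := fun j : ℕ => ((j : ℝ) + 1)⁻¹) hφ).symm
  have h2 : B.image φ ⊆ range R := by
    intro j hj
    obtain ⟨k, hk, rfl⟩ := mem_image.1 hj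
    exact mem_range.2 (hR k hk)
  have h3 : ∑ j ∈ range R, ((j : ℝ) + 1)⁻¹ = ((harmonic R : ℚ) : ℝ) := by
    rw [harmonic]
    push_cast
    rfl
  rw [h1]
  refine (Finset.sum_le_sum_of_subset_of_nonneg h2 fun j _ _ => by positivity).trans ?_
  rw [h3]
  exact harmonic_le_one_add_log R

/-- The sum of the inverse distances. -/
theorem harm (A : Finset ℕ) (k R : ℕ) (hk : k < R) (hA : ∀ k' ∈ A, k' < R) :
    ∑ k' ∈ A.erase k, |(k : ℝ) - k'|⁻¹ ≤ 2 * (1 + Real.log R) := by
  have hsplit : ∑ k' ∈ A.erase k, |(k : ℝ) - k'|⁻¹ =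
      ∑ k' ∈ (A.erase k).filter (fun k' => k' < k), |(k : ℝ) - k'|⁻¹ +
      ∑ k' ∈ (A.erase k).filter (fun k' => ¬ k' < k), |(k : ℝ) - k'|⁻¹ :=
    (Finset.sum_filter_add_sum_filter_not _ _ _).symm
  have h1 : ∑ k' ∈ (A.erase k).filter (fun k' => k' < k), |(k : ℝ) - k'|⁻¹ =
      ∑ k' ∈ (A.erase k).filter (fun k' => k' < k), (((k - k' - 1 : ℕ) : ℝ) + 1)⁻¹ := by
    refine Finset.sum_congr rfl fun k' hk' => ?_
    have h2 := (mem_filter.1 hk').2
    have h3 : (k : ℝ) = ((k - k' - 1 : ℕ) : ℝ) + 1 + k' := by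
      have : k = (k - k' - 1) + 1 + k' := by omega
      exact_mod_cast this
    have h4 : (0 : ℝ) ≤ ((k - k' - 1 : ℕ) : ℝ) := Nat.cast_nonneg _
    rw [abs_of_nonneg (by linarith)]
    congr 1
    linarith
  have h1' : ∑ k' ∈ (A.erase k).filter (fun k' => ¬ k' < k), |(k : ℝ) - k'|⁻¹ =
      ∑ k' ∈ (A.erase k).filter (fun k' => ¬ k' < k), (((k' - k - 1 : ℕ) : ℝ) + 1)⁻¹ := by
    refine Finset.sum_congr rfl fun k' hk' => ?_
    have h2 := (mem_filter.1 hk').2
    have h2' := (mem_erase.1 (mem_filter.1 hk').1).1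
    have h3 : (k' : ℝ) = ((k' - k - 1 : ℕ) : ℝ) + 1 + k := by
      have : k' = (k' - k - 1) + 1 + k := by omega
      exact_mod_cast this
    have h4 : (0 : ℝ) ≤ ((k' - k - 1 : ℕ) : ℝ) := Nat.cast_nonneg _
    rw [abs_of_nonpos (by linarith)]
    congr 1
    linarith
  rw [hsplit, h1, h1']
  have h5 : ∑ k' ∈ (A.erase k).filter (fun k' => k' < k), (((k - k' - 1 : ℕ) : ℝ) + 1)⁻¹ ≤
      1 + Real.log R := by
    refine harm_inj _ (fun k' => k - k' - 1) R ?_ ?_
    · intro p hp q hq hpq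
      have h6 := (mem_filter.1 (Finset.mem_coe.1 hp)).2
      have h7 := (mem_filter.1 (Finset.mem_coe.1 hq)).2
      have h8 : k - p - 1 = k - q - 1 := hpq
      omega
    · intro p _
      have : k - p - 1 ≤ k := by omega
      exact lt_of_le_of_lt this hk
  have h6 : ∑ k' ∈ (A.erase k).filter (fun k' => ¬ k' < k), (((k' - k - 1 : ℕ) : ℝ) + 1)⁻¹ ≤
      1 + Real.log R := by
    refine harm_inj _ (fun k' => k' - k - 1) R ?_ ?_
    · intro p hp q hq hpq
      have h6 := mem_filter.1 (Finset.mem_coe.1 hp)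
      have h7 := mem_filter.1 (Finset.mem_coe.1 hq)
      have h6' := (mem_erase.1 h6.1).1
      have h7' := (mem_erase.1 h7.1).1
      have h8 : p - k - 1 = q - k - 1 := hpq
      have h9 := h6.2
      have h10 := h7.2
      omega
    · intro p hp
      have h11 := hA p (mem_erase.1 (mem_filter.1 hp).1).2
      have : p - k - 1 ≤ p := by omega
      exact lt_of_le_of_lt this h11
  linarith

variable {ι : Type} [Fintype ι] [DecidableEq ι]

/-- Row sum of the intersections. -/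
theorem row (hSep : StSep) (K : KSys ι) (m Δ : ℝ) (R : ℕ) (A : Finset ℕ) (G : ℕ → Finset ι)
    (hm : 1 ≤ m) (hS : K.Sep m) (hΔ : 1 ≤ m * Δ) (hR : ∀ k ∈ A, k < R)
    (h1 : ∀ k ∈ A, ∀ i ∈ G k, ∀ i' ∈ G k, |K.x i - K.x i'| ≤ 2 * Δ)
    (h2 : ∀ k ∈ A, ∀ k' ∈ A, k ≠ k' → ∀ i, i ∈ G k → i ∈ G k' → ∀ i', i' ∈ G k → i' ∈ G k' →
      |K.x i - K.x i'| * |(k : ℝ) - k'| ≤ 2 * Δ) (k : ℕ) (hk : k ∈ A) :
    ∑ k' ∈ A, ((G k ∩ G k').card : ℝ) ≤ 4 * (m * Δ) * (3 + Real.log R) + A.card := by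
  have hm0 : 0 < m := by linarith
  have hΔ0 : 0 < Δ := by
    by_contra hcon
    have := mul_nonpos_of_nonneg_of_nonpos hm0.le (not_lt.1 hcon)
    linarith
  have hsep := (hSep ι K m hm0 hS).1
  have hdiag : ((G k ∩ G k).card : ℝ) ≤ 8 * (m * Δ) := by
    rw [Finset.inter_self]
    have := hsep (G k) (2 * Δ) (by linarith) (h1 k hk)
    nlinarith
  have hoff : ∀ k' ∈ A.erase k, ((G k ∩ G k').card : ℝ) ≤
      2 * (m * Δ) * |(k : ℝ) - k'|⁻¹ + 1 := by
    intro k' hk'
    have hne : k ≠ k' := fun h => (mem_erase.1 hk').1 h.symm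
    have hk'A := (mem_erase.1 hk').2
    have hpos : 0 < |(k : ℝ) - k'| := abs_pos.2 (sub_ne_zero.2 (by exact_mod_cast hne))
    have := hsep (G k ∩ G k') (2 * Δ * |(k : ℝ) - k'|⁻¹) (by positivity) (by
      intro i hi i' hi'
      rw [← div_eq_mul_inv, le_div_iff₀ hpos]
      exact h2 k hk k' hk'A hne i (mem_inter.1 hi).1 (mem_inter.1 hi).2 i'
        (mem_inter.1 hi').1 (mem_inter.1 hi').2)
    linarith
  have hsum := Finset.sum_le_sum hoff
  rw [Finset.sum_add_distrib, ← Finset.mul_sum, Finset.sum_const, nsmul_eq_mul, mul_one] at hsum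
  have hharm := harm A k R (hR k hk) hR
  have hcard : ((A.erase k).card : ℝ) ≤ A.card := by exact_mod_cast Finset.card_erase_le
  have h3 : 2 * (m * Δ) * ∑ k' ∈ A.erase k, |(k : ℝ) - k'|⁻¹ ≤
      2 * (m * Δ) * (2 * (1 + Real.log R)) :=
    mul_le_mul_of_nonneg_left hharm (by positivity)
  rw [← Finset.add_sum_erase A (fun k' => ((G k ∩ G k').card : ℝ)) hk]
  linarith

/-- The bound for one window. -/
theorem win (hSep : StSep) (K : KSys ι) (m Δ g : ℝ) (R : ℕ) (A : Finset ℕ) (G : ℕ → Finset ι)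
    (U : Finset ι)
    (hm : 1 ≤ m) (hS : K.Sep m) (hΔ : 1 ≤ m * Δ) (hg : 0 ≤ g) (hR : ∀ k ∈ A, k < R)
    (hG : ∀ k ∈ A, g ≤ ((G k).card : ℝ))
    (h1 : ∀ k ∈ A, ∀ i ∈ G k, ∀ i' ∈ G k, |K.x i - K.x i'| ≤ 2 * Δ)
    (h2 : ∀ k ∈ A, ∀ k' ∈ A, k ≠ k' → ∀ i, i ∈ G k → i ∈ G k' → ∀ i', i' ∈ G k → i' ∈ G k' →
      |K.x i - K.x i'| * |(k : ℝ) - k'| ≤ 2 * Δ)
    (hU : ∀ k ∈ A, G k ⊆ U) (hUc : (U.card : ℝ) ≤ 8 * (m * Δ)) :
    (A.card : ℝ) * g ^ 2 ≤ 8 * (m * Δ) * (4 * (m * Δ) * (3 + Real.log R) + A.card) := by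
  have hlog : 0 ≤ Real.log R := Real.log_natCast_nonneg R
  rcases Finset.eq_empty_or_nonempty A with rfl | hA
  · simp only [Finset.card_empty, Nat.cast_zero, zero_mul, add_zero]
    positivity
  have hZ : (0 : ℝ) < A.card := by exact_mod_cast hA.card_pos
  have hcs := cs A G U hU
  have hlow : (A.card : ℝ) * g ≤ ∑ k ∈ A, ((G k).card : ℝ) := by
    rw [← nsmul_eq_mul]
    exact Finset.card_nsmul_le_sum A _ g hG
  have hup : ∑ k ∈ A, ∑ k' ∈ A, ((G k ∩ G k').card : ℝ) ≤
      (A.card : ℝ) * (4 * (m * Δ) * (3 + Real.log R) + A.card) := by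
    rw [← nsmul_eq_mul]
    exact Finset.sum_le_card_nsmul A _ _ fun k hk =>
      row hSep K m Δ R A G hm hS hΔ hR h1 h2 k hk
  have h3 : ((A.card : ℝ) * g) ^ 2 ≤ 8 * (m * Δ) *
      ((A.card : ℝ) * (4 * (m * Δ) * (3 + Real.log R) + A.card)) := by
    calc ((A.card : ℝ) * g) ^ 2 ≤ (∑ k ∈ A, ((G k).card : ℝ)) ^ 2 :=
          pow_le_pow_left₀ (by positivity) hlow 2
      _ ≤ (U.card : ℝ) * ∑ k ∈ A, ∑ k' ∈ A, ((G k ∩ G k').card : ℝ) := hcs
      _ ≤ 8 * (m * Δ) * ((A.card : ℝ) * (4 * (m * Δ) * (3 + Real.log R) + A.card)) :=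
          mul_le_mul hUc hup (Finset.sum_nonneg fun _ _ => Finset.sum_nonneg fun _ _ =>
            Nat.cast_nonneg _) (by positivity)
  have h4 : (A.card : ℝ) * ((A.card : ℝ) * g ^ 2) ≤ (A.card : ℝ) *
      (8 * (m * Δ) * (4 * (m * Δ) * (3 + Real.log R) + A.card)) := by
    calc (A.card : ℝ) * ((A.card : ℝ) * g ^ 2) = ((A.card : ℝ) * g) ^ 2 := by ring
      _ ≤ _ := h3
      _ = _ := by ring
  exact le_of_mul_le_mul_left h4 hZ

end XCORD

open XCORD in
theorem I_CORD (hSep : StSep) : StCord := by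
  intro ι _ _ K m Δ g R 𝒦 G hm hS hΔ hΔ8 hg hR hG h1 h2
  have hm0 : 0 < m := by linarith
  have hΔ0 : 0 < Δ := by
    by_contra hcon
    have := mul_nonpos_of_nonneg_of_nonpos hm0.le (not_lt.1 hcon)
    linarith
  have hlog : 0 ≤ Real.log R := Real.log_natCast_nonneg R
  rcases hg.eq_or_lt with rfl | hgpos
  · have h3 : (0 : ℝ) ≤ 𝒦.card := Nat.cast_nonneg _
    rw [zero_pow two_ne_zero, mul_zero]
    positivity
  have hne : ∀ k ∈ 𝒦, (G k).Nonempty := by
    intro k hk
    rw [← Finset.card_pos]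
    have := hG k hk
    exact_mod_cast lt_of_lt_of_le hgpos this
  have hsep := (hSep ι K m hm0 hS).1
  rcases 𝒦.eq_empty_or_nonempty with rfl | ⟨k0, hk0⟩
  · simp only [Finset.card_empty, Nat.cast_zero, zero_mul, mul_zero, add_zero]
    positivity
  have hι : Nonempty ι := ⟨(hne k0 hk0).choose⟩
  -- the chosen line and the window
  choose! c hc using hne
  set w : ℕ → ℕ := fun k => ⌊K.x (c k) / Δ⌋₊ with hw
  set W : ℕ := ⌊1 / Δ⌋₊ + 1 with hWdef
  have hWle : (W : ℝ) ≤ 9 / Δ := by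
    have h3 : ((⌊1 / Δ⌋₊ : ℕ) : ℝ) ≤ 1 / Δ := Nat.floor_le (by positivity)
    have h4 : (1 : ℝ) ≤ 8 / Δ := by rw [le_div_iff₀ hΔ0]; linarith
    rw [hWdef]
    push_cast
    calc ((⌊1 / Δ⌋₊ : ℕ) : ℝ) + 1 ≤ 1 / Δ + 8 / Δ := add_le_add h3 h4
      _ = 9 / Δ := by ring
  have hwlt : ∀ k ∈ 𝒦, w k ∈ range W := by
    intro k _
    rw [mem_range, hWdef, Nat.lt_succ_iff]
    exact Nat.floor_le_floor (div_le_div_of_nonneg_right (K.x_le_one _) hΔ0.le)
  have hwin : ∀ v ∈ range W, ((𝒦.filter fun k => w k = v).card : ℝ) * g ^ 2 ≤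
      8 * (m * Δ) * (4 * (m * Δ) * (3 + Real.log R) + (𝒦.filter fun k => w k = v).card) := by
    intro v _
    refine win hSep K m Δ g R (𝒦.filter fun k => w k = v) G
      (univ.filter fun i => ((v : ℝ) - 2) * Δ ≤ K.x i ∧ K.x i ≤ ((v : ℝ) + 3) * Δ)
      hm hS hΔ hg (fun k hk => hR k (mem_filter.1 hk).1) (fun k hk => hG k (mem_filter.1 hk).1)
      (fun k hk => h1 k (mem_filter.1 hk).1)
      (fun k hk k' hk' => h2 k (mem_filter.1 hk).1 k' (mem_filter.1 hk').1) ?_ ?_
    · intro k hk i hi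
      obtain ⟨hk1, hk2⟩ := mem_filter.1 hk
      have h3 := h1 k hk1 i hi (c k) (hc k hk1)
      have h4 : ((w k : ℕ) : ℝ) ≤ K.x (c k) / Δ :=
        Nat.floor_le (div_nonneg (K.x_nonneg _) hΔ0.le)
      have h5 : K.x (c k) / Δ < (w k : ℝ) + 1 := Nat.lt_floor_add_one _
      rw [hk2, le_div_iff₀ hΔ0] at h4
      rw [hk2, div_lt_iff₀ hΔ0] at h5
      have h6 := abs_le.1 h3
      rw [mem_filter]
      refine ⟨mem_univ _, ?_, ?_⟩
      · linarith [h6.1]
      · linarith [h6.2]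
    · have h3 := hsep (univ.filter fun i => ((v : ℝ) - 2) * Δ ≤ K.x i ∧
        K.x i ≤ ((v : ℝ) + 3) * Δ) (5 * Δ) (by positivity) (by
          intro i hi i' hi'
          have h4 := (mem_filter.1 hi).2
          have h5 := (mem_filter.1 hi').2
          rw [abs_le]
          constructor
          · linarith [h4.1, h5.2]
          · linarith [h4.2, h5.1])
      linarith
  have hsum := Finset.sum_le_sum hwin
  rw [← Finset.sum_mul, ← Finset.mul_sum, Finset.sum_add_distrib, Finset.sum_const,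
    card_range, nsmul_eq_mul] at hsum
  have hcard : ∑ v ∈ range W, ((𝒦.filter fun k => w k = v).card : ℝ) = 𝒦.card := by
    have := Finset.card_eq_sum_card_fiberwise (f := w) (s := 𝒦) (t := range W)
      (fun k hk => Finset.mem_coe.2 (hwlt k (Finset.mem_coe.1 hk)))
    rw [this]
    push_cast
    rfl
  rw [hcard] at hsum
  have h5 : (W : ℝ) * (4 * (m * Δ) * (3 + Real.log R)) ≤
      9 / Δ * (4 * (m * Δ) * (3 + Real.log R)) :=
    mul_le_mul_of_nonneg_right hWle (by positivity)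
  have h6 : 9 / Δ * (4 * (m * Δ) * (3 + Real.log R)) = 36 * m * (3 + Real.log R) := by
    field_simp
    ring
  calc (𝒦.card : ℝ) * g ^ 2
      ≤ 8 * (m * Δ) * ((W : ℝ) * (4 * (m * Δ) * (3 + Real.log R)) + 𝒦.card) := hsum
    _ ≤ 8 * (m * Δ) * (36 * m * (3 + Real.log R) + 𝒦.card) := by
        refine mul_le_mul_of_nonneg_left ?_ (by positivity)
        linarith
    _ = 288 * (3 + Real.log R) * m ^ 2 * Δ + 8 * m * Δ * 𝒦.card := by ring

end Pool.Agent.Work.MP_e17eac_co.DH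

end

section

/-!
# The bound of Dey type in a cell
-/

namespace Pool.Agent.Work.MP_e17eac_co.DH

open Finset

namespace XDEY2

/-- On a set of edges with constant first coordinate the pairs are counted by the second. -/
theorem card_pair {α β : Type} [DecidableEq α] [DecidableEq β] (F : Finset ℕ) (f : ℕ → α)
    (g : ℕ → β) (c : α) (hf : ∀ k ∈ F, f k = c) :
    im F (fun n => (f n, g n)) = (F.image g).card := by
  unfold im
  have h : F.image (fun n => (f n, g n)) = (F.image g).image (Prod.mk c) := by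
    rw [Finset.image_image]
    apply Finset.image_congr
    intro k hk
    simp only [Function.comp]
    rw [hf k hk]
  rw [h, Finset.card_image_of_injective _ (fun x y hxy => (Prod.mk.inj hxy).2)]

theorem final {Λ M N e a b c d A B C D : ℝ} (hΛ : 1 ≤ Λ) (hM : 0 < M) (hN : 0 ≤ N) (he : 0 ≤ e)
    (ha : 0 ≤ a) (hb : 0 ≤ b) (hc : 0 ≤ c) (hd : 0 ≤ d) (h0 : N ≤ Λ * e * M)
    (h1 : a * M ≤ Λ ^ 2 * A) (h2 : b * M ≤ Λ ^ 2 * B) (h3 : c * M ≤ Λ ^ 2 * C)
    (h4 : d * M ≤ Λ ^ 2 * D) (h5 : e ^ 3 ≤ 2048 * (a * b * (c * d))) :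
    M * N ^ 3 ≤ 2048 * Λ ^ 11 * (A * B * (C * D)) := by
  have hΛ0 : 0 < Λ := by linarith
  have e1 : (a * M) * (b * M) ≤ (Λ ^ 2 * A) * (Λ ^ 2 * B) :=
    mul_le_mul h1 h2 (by positivity) (le_trans (by positivity) h1)
  have e2 : (c * M) * (d * M) ≤ (Λ ^ 2 * C) * (Λ ^ 2 * D) :=
    mul_le_mul h3 h4 (by positivity) (le_trans (by positivity) h3)
  have e3 : ((a * M) * (b * M)) * ((c * M) * (d * M)) ≤
      ((Λ ^ 2 * A) * (Λ ^ 2 * B)) * ((Λ ^ 2 * C) * (Λ ^ 2 * D)) :=
    mul_le_mul e1 e2 (by positivity) (le_trans (by positivity) e1)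
  calc M * N ^ 3 ≤ M * (Λ * e * M) ^ 3 := by gcongr
    _ = Λ ^ 3 * M ^ 4 * e ^ 3 := by ring
    _ ≤ Λ ^ 3 * M ^ 4 * (2048 * (a * b * (c * d))) := by gcongr
    _ = 2048 * Λ ^ 3 * (((a * M) * (b * M)) * ((c * M) * (d * M))) := by ring
    _ ≤ 2048 * Λ ^ 3 * (((Λ ^ 2 * A) * (Λ ^ 2 * B)) * ((Λ ^ 2 * C) * (Λ ^ 2 * D))) := by gcongr
    _ = 2048 * Λ ^ 11 * (A * B * (C * D)) := by ring

theorem small {Λ M N e a A : ℝ} (hΛ : 1 ≤ Λ) (hM : 0 < M) (h0 : N ≤ Λ * e * M)
    (h1 : a * M ≤ Λ ^ 2 * A) (h2 : 16 * Λ ^ 3 * A ≤ N) : 16 * a ≤ e := by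
  have hΛ0 : 0 < Λ := by linarith
  have e1 : Λ * (16 * Λ ^ 2 * A) ≤ Λ * (e * M) := by
    calc Λ * (16 * Λ ^ 2 * A) = 16 * Λ ^ 3 * A := by ring
      _ ≤ N := h2
      _ ≤ Λ * e * M := h0
      _ = Λ * (e * M) := by ring
  have e2 : 16 * Λ ^ 2 * A ≤ e * M := le_of_mul_le_mul_left e1 hΛ0
  have e3 : (16 * a) * M ≤ e * M := by linarith
  exact le_of_mul_le_mul_right e3 hM

end XDEY2

open XDEY2 in
theorem I_DEY2 (hDey : StDey) (hCnt : StCnt) (hSep : StSep) : StDey2 := by
  intro ι _ _ K m Q J E Λ D hm hsep hQ hreg j hj hA hB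
  have hinj : Function.Injective K.x := by
    intro a b hab
    by_contra hne'
    have := hsep a b hne'
    rw [hab, sub_self, abs_zero, mul_zero] at this
    linarith
  have hΛ := hreg.one_le
  obtain ⟨n, hn⟩ := hreg.ne
  set F : Finset ℕ := E.filter (fun k => K.cell Q j k = K.cell Q j n) with hF
  have hFE : F ⊆ E := Finset.filter_subset _ _
  have hFc : ∀ k ∈ F, K.cell Q j k = K.cell Q j n := fun k hk => (Finset.mem_filter.1 hk).2
  have hM : 0 < (PM K Q E j : ℝ) := by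
    have : 0 < PM K Q E j := by
      unfold PM im
      exact Finset.card_pos.2 ⟨_, Finset.mem_image_of_mem _ hn⟩
    exact_mod_cast this
  have h0 : (E.card : ℝ) ≤ Λ * (F.card : ℝ) * (PM K Q E j : ℝ) := (hreg.regM j hj n hn).1
  have hL : ∀ s, ((F.image (K.ln s)).card : ℝ) * (PM K Q E j : ℝ) ≤
      Λ ^ 2 * (PL K Q E s j : ℝ) := by
    intro s
    have h := (hCnt ℕ (ℕ × ι) Λ E (fun n => K.cell Q j n) (fun n => (K.cell Q j n, K.ln s n)) hΛ
      (hreg.regM j hj) (hreg.regL s j hj) (fun n _ k _ h => (Prod.mk.inj h).1) n hn).2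
    rw [← card_pair F (fun n => K.cell Q j n) (K.ln s) _ hFc]
    exact h
  have hT : ∀ p, ((F.image (K.tok p)).card : ℝ) * (PM K Q E j : ℝ) ≤
      Λ ^ 2 * (PT K Q E p j : ℝ) := by
    intro p
    have h := (hCnt ℕ (ℕ × ι) Λ E (fun n => K.cell Q j n) (fun n => (K.cell Q j n, K.tok p n)) hΛ
      (hreg.regM j hj) (hreg.regT p j hj) (fun n _ k _ h => (Prod.mk.inj h).1) n hn).2
    rw [← card_pair F (fun n => K.cell Q j n) (K.tok p) _ hFc]
    exact h
  have hsa : 16 * (F.image K.a).card ≤ F.card := by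
    have := small hΛ hM h0 (hL false) hA
    exact_mod_cast this
  have hsb : 16 * (F.image K.b).card ≤ F.card := by
    have := small hΛ hM h0 (hL true) hB
    exact_mod_cast this
  have hdey := hDey ι K hinj F (fun k hk => (hreg.sub k (hFE hk)).1) hsa hsb
  have hdey' : (F.card : ℝ) ^ 3 ≤ 2048 * (((F.image K.a).card : ℝ) * ((F.image K.b).card : ℝ) *
      (((F.image K.tokB).card : ℝ) * ((F.image K.tokT).card : ℝ))) := by exact_mod_cast hdey
  exact final hΛ hM (by positivity) (by positivity) (by positivity) (by positivity)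
    (by positivity) (by positivity) h0 (hL false) (hL true) (hT false) (hT true) hdey'

end Pool.Agent.Work.MP_e17eac_co.DH

end

section

/-!
# The range of the displacement classes
-/

namespace Pool.Agent.Work.MP_e17eac_co.DH

open Finset

namespace XDRANGE

variable {ι : Type} [Fintype ι] [DecidableEq ι]

/-- the cell of an edge contains the edge -/
theorem ci_le (hIdx : StIdx) (K : KSys ι) {Q j n : ℕ} (hQ : 1 ≤ Q) (hn : n < K.N)
    (ht : 0 ≤ K.t n) : K.ci Q j (K.cell Q j n) ≤ n ∧ n < K.ci Q j (K.cell Q j n + 1) := by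
  obtain ⟨-, h2, -, -⟩ := hIdx ι K
  have hQ' : (0 : ℝ) < (Q : ℝ) ^ j := by positivity
  unfold KSys.ci KSys.cell
  constructor
  · by_contra hcon
    have h3 := ((h2 n _).1 (not_le.1 hcon)).2
    rw [lt_div_iff₀ hQ'] at h3
    have h4 := Nat.floor_le (a := K.t n * (Q : ℝ) ^ j) (by positivity)
    linarith
  · refine (h2 n _).2 ⟨hn, ?_⟩
    rw [lt_div_iff₀ hQ']
    push_cast
    exact Nat.lt_floor_add_one _

/-- the cells are nested -/
theorem ci_nested (hIdx : StIdx) (K : KSys ι) {Q i j n : ℕ} (hQ : 1 ≤ Q) (hij : i ≤ j)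
    (ht : 0 ≤ K.t n) : K.ci Q i (K.cell Q i n) ≤ K.ci Q j (K.cell Q j n) ∧
      K.ci Q j (K.cell Q j n) ≤ K.ci Q j (K.cell Q j n + 1) ∧
      K.ci Q j (K.cell Q j n + 1) ≤ K.ci Q i (K.cell Q i n + 1) := by
  obtain ⟨-, -, h3, -⟩ := hIdx ι K
  have hQ0 : (0 : ℝ) < (Q : ℝ) := by exact_mod_cast hQ
  have hQi : (0 : ℝ) < (Q : ℝ) ^ i := by positivity
  have hQj : (0 : ℝ) < (Q : ℝ) ^ j := by positivity
  have hQe : (Q : ℝ) ^ j = (Q : ℝ) ^ i * (Q : ℝ) ^ (j - i) := by
    rw [← pow_add, Nat.add_sub_cancel' hij]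
  have hQd : (0 : ℝ) < (Q : ℝ) ^ (j - i) := by positivity
  have e1 : K.cell Q i n * Q ^ (j - i) ≤ K.cell Q j n := by
    apply Nat.le_floor
    push_cast
    rw [hQe, ← mul_assoc]
    have h4 := Nat.floor_le (a := K.t n * (Q : ℝ) ^ i) (by positivity)
    exact mul_le_mul_of_nonneg_right h4 hQd.le
  have e2 : K.cell Q j n + 1 ≤ (K.cell Q i n + 1) * Q ^ (j - i) := by
    apply Nat.succ_le_of_lt
    rw [KSys.cell, Nat.floor_lt (by positivity)]
    push_cast
    rw [hQe, ← mul_assoc]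
    have h4 := Nat.lt_floor_add_one (K.t n * (Q : ℝ) ^ i)
    exact mul_lt_mul_of_pos_right h4 hQd
  have e1' : (K.cell Q i n : ℝ) * (Q : ℝ) ^ (j - i) ≤ (K.cell Q j n : ℝ) := by exact_mod_cast e1
  have e2' : (K.cell Q j n : ℝ) + 1 ≤ ((K.cell Q i n : ℝ) + 1) * (Q : ℝ) ^ (j - i) := by
    exact_mod_cast e2
  unfold KSys.ci
  refine ⟨h3 _ _ ?_, h3 _ _ ?_, h3 _ _ ?_⟩
  · rw [div_le_div_iff₀ hQi hQj, hQe]
    nlinarith
  · push_cast
    gcongr
    linarith
  · push_cast
    rw [div_le_div_iff₀ hQj hQi, hQe]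
    nlinarith

end XDRANGE

open XDRANGE in
theorem I_DRANGE (hJump : StJump) (hMono : StMono) (hIdx : StIdx) (hTok : StTok) : StDrange := by
  intro ι _ _ K m Q J E Λ D hm hsep hQ hR p j hj
  obtain ⟨n, hn⟩ := hR.ne
  obtain ⟨hnN, ht0, ht1⟩ := hR.sub n hn
  have hN : ∀ s, K.idx s ≤ K.N := (hIdx ι K).2.2.2
  have hdlo := hR.dlo p j hj n hn
  have hdhi := hR.dhi p j hj n hn
  refine ⟨?_, ?_, ?_⟩
  · refine hdlo.trans ?_
    unfold KSys.disp
    rw [abs_le]
    have h1 := K.x_nonneg (K.pos (K.ci Q j (K.cell Q j n)) (K.tok p n))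
    have h2 := K.x_le_one (K.pos (K.ci Q j (K.cell Q j n)) (K.tok p n))
    have h3 := K.x_nonneg (K.pos (K.ci Q j (K.cell Q j n + 1)) (K.tok p n))
    have h4 := K.x_le_one (K.pos (K.ci Q j (K.cell Q j n + 1)) (K.tok p n))
    constructor <;> linarith
  · have hx := K.x_lt n hnN
    have hne : K.a n ≠ K.b n := fun h => by rw [h] at hx; exact lt_irrefl _ hx
    have h1 := hsep _ _ hne
    rw [abs_of_pos (by linarith)] at h1
    have h2 := ci_le (j := j) hIdx K hQ hnN ht0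
    have h3 := hJump ι K n _ _ hnN h2.1 h2.2 (hN _)
    have h4 : K.x (K.a n) - K.x (K.b n) ≤ K.disp Q j (K.cell Q j n) (K.tok p n) := by
      unfold KSys.disp
      cases p
      · exact h3.1
      · exact h3.2
    have h5 : m * (K.x (K.a n) - K.x (K.b n)) ≤ m * (2 * D p j) :=
      mul_le_mul_of_nonneg_left (by linarith) hm.le
    linarith
  · intro i hij
    have hdhi' := hR.dhi p i (hij.trans hj) n hn
    obtain ⟨h1, h2, h3⟩ := ci_nested hIdx K hQ hij ht0 (n := n)
    have h4 : K.disp Q j (K.cell Q j n) (K.tok p n) ≤ K.disp Q i (K.cell Q i n) (K.tok p n) := by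
      obtain ⟨hb, hb', -⟩ := hTok ι K n hnN
      have g1 := hMono ι K _ _ h1 (hN _)
      have g2 := hMono ι K _ _ h2 (hN _)
      have g3 := hMono ι K _ _ h3 (hN _)
      unfold KSys.disp
      cases p
      · have k1 := g1.1 _ hb
        have k2 := g2.1 _ hb
        have k3 := g3.1 _ hb
        change |K.x (K.pos _ (K.tokB n)) - K.x (K.pos _ (K.tokB n))| ≤
          |K.x (K.pos _ (K.tokB n)) - K.x (K.pos _ (K.tokB n))|
        rw [abs_of_nonneg (by linarith), abs_of_nonneg (by linarith)]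
        linarith
      · have k1 := g1.2 _ hb'
        have k2 := g2.2 _ hb'
        have k3 := g3.2 _ hb'
        change |K.x (K.pos _ (K.tokT n)) - K.x (K.pos _ (K.tokT n))| ≤
          |K.x (K.pos _ (K.tokT n)) - K.x (K.pos _ (K.tokT n))|
        rw [abs_of_nonpos (by linarith), abs_of_nonpos (by linarith)]
        linarith
    linarith

end Pool.Agent.Work.MP_e17eac_co.DH

end

section

/-!
# Counting with far pairs
-/

namespace Pool.Agent.Work.MP_e17eac_co.DH

open Finset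

namespace XFAR

/-- indicator of `l ∈ V K` -/
def chi {ι : Type} [DecidableEq ι] (V : ℕ → Finset ι) (l : ι) (K : ℕ) : ℝ :=
  if l ∈ V K then 1 else 0

theorem chi_nonneg {ι : Type} [DecidableEq ι] (V : ℕ → Finset ι) (l : ι) (K : ℕ) :
    0 ≤ chi V l K := by
  unfold chi; split_ifs <;> norm_num

theorem sum_chi {ι : Type} [DecidableEq ι] (V : ℕ → Finset ι) (W : Finset ι) (K : ℕ)
    (h : V K ⊆ W) : ((V K).card : ℝ) = ∑ l ∈ W, chi V l K := by
  unfold chi
  rw [sum_boole, filter_mem_eq_inter, inter_eq_right.2 h]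

theorem sum_chi_chi {ι : Type} [DecidableEq ι] (V : ℕ → Finset ι) (W : Finset ι) (K K' : ℕ)
    (h : V K ⊆ W) : ((V K ∩ V K').card : ℝ) = ∑ l ∈ W, chi V l K * chi V l K' := by
  have e : ∀ l, chi V l K * chi V l K' = if l ∈ V K ∩ V K' then 1 else 0 := by
    intro l
    unfold chi
    by_cases h1 : l ∈ V K <;> by_cases h2 : l ∈ V K' <;> simp [h1, h2]
  simp only [e]
  rw [sum_boole, filter_mem_eq_inter, inter_eq_right.2 (inter_subset_left.trans h)]

open Classical in
theorem core {ι : Type} [DecidableEq ι] (W : Finset ι) (A : Finset ℕ) (V : ℕ → Finset ι)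
    (close : ℕ → ℕ → Prop) (g c F H : ℝ) (hg : 0 ≤ g) (hF : 0 ≤ F)
    (hV : ∀ K ∈ A, V K ⊆ W)
    (c2 : ∀ l, ∀ K ∈ A, l ∈ V K → ((A.filter (fun K' => l ∈ V K' ∧ close K K')).card : ℝ) ≤ c)
    (c3 : ∀ K ∈ A, ∀ K' ∈ A, ¬ close K K' → ((V K ∩ V K').card : ℝ) ≤ F)
    (c4 : ∀ K ∈ A, ((A.filter (fun K' => (V K ∩ V K').Nonempty)).card : ℝ) * g ≤ H) :
    ∃ far : ℝ, (∑ K ∈ A, ((V K).card : ℝ)) ^ 2 ≤
      (W.card : ℝ) * (c * (∑ K ∈ A, ((V K).card : ℝ)) + far) ∧ far * g ≤ A.card * H * F := by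
  refine ⟨∑ K ∈ A, ∑ K' ∈ A, if close K K' then 0 else ((V K ∩ V K').card : ℝ), ?_, ?_⟩
  · have hT : (∑ K ∈ A, ((V K).card : ℝ)) = ∑ l ∈ W, ∑ K ∈ A, chi V l K := by
      rw [sum_comm]
      exact sum_congr rfl fun K hK => sum_chi V W K (hV K hK)
    have hsq : (∑ K ∈ A, ((V K).card : ℝ)) ^ 2 ≤
        (W.card : ℝ) * ∑ l ∈ W, (∑ K ∈ A, chi V l K) ^ 2 := by
      rw [hT]; exact sq_sum_le_card_mul_sum_sq
    refine hsq.trans (mul_le_mul_of_nonneg_left ?_ (Nat.cast_nonneg _))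
    have h1 : ∀ l ∈ W, (∑ K ∈ A, chi V l K) ^ 2 ≤
        c * (∑ K ∈ A, chi V l K) +
          ∑ K ∈ A, ∑ K' ∈ A, if close K K' then 0 else chi V l K * chi V l K' := by
      intro l _
      rw [sq, sum_mul_sum, mul_sum, ← sum_add_distrib]
      refine sum_le_sum fun K hK => ?_
      by_cases hl : l ∈ V K
      · have h2 : ∑ K' ∈ A, chi V l K * chi V l K' =
            ((A.filter (fun K' => l ∈ V K' ∧ close K K')).card : ℝ) +
              ∑ K' ∈ A, if close K K' then 0 else chi V l K * chi V l K' := by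
          rw [← sum_boole, ← sum_add_distrib]
          refine sum_congr rfl fun K' _ => ?_
          unfold chi
          by_cases h3 : close K K' <;> by_cases h4 : l ∈ V K' <;> simp [h3, h4, hl]
        rw [h2]
        have h5 : chi V l K = 1 := by unfold chi; simp [hl]
        rw [h5, mul_one]
        have := c2 l K hK hl
        simp only [h5] at *
        linarith
      · have h5 : chi V l K = 0 := by unfold chi; simp [hl]
        simp [h5]
    refine (sum_le_sum h1).trans ?_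
    rw [sum_add_distrib, ← mul_sum, ← hT]
    refine add_le_add le_rfl (le_of_eq ?_)
    rw [sum_comm]
    refine sum_congr rfl fun K hK => ?_
    rw [sum_comm]
    refine sum_congr rfl fun K' _ => ?_
    by_cases h3 : close K K'
    · simp [h3]
    · simp only [h3, if_false]
      exact (sum_chi_chi V W K K' (hV K hK)).symm
  · have h1 : ∀ K ∈ A, (∑ K' ∈ A, if close K K' then 0 else ((V K ∩ V K').card : ℝ)) * g ≤
        H * F := by
      intro K hK
      have h2 : (∑ K' ∈ A, if close K K' then 0 else ((V K ∩ V K').card : ℝ)) ≤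
          ((A.filter (fun K' => (V K ∩ V K').Nonempty)).card : ℝ) * F := by
        rw [← sum_boole, sum_mul]
        refine sum_le_sum fun K' hK' => ?_
        by_cases h3 : close K K'
        · rw [if_pos h3]
          split_ifs
          · linarith
          · linarith
        · rw [if_neg h3]
          by_cases h4 : (V K ∩ V K').Nonempty
          · rw [if_pos h4, one_mul]
            exact c3 K hK K' hK' h3
          · rw [if_neg h4, zero_mul]
            rw [not_nonempty_iff_eq_empty] at h4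
            simp [h4]
      calc (∑ K' ∈ A, if close K K' then 0 else ((V K ∩ V K').card : ℝ)) * g
          ≤ (((A.filter (fun K' => (V K ∩ V K').Nonempty)).card : ℝ) * F) * g :=
            mul_le_mul_of_nonneg_right h2 hg
        _ = (((A.filter (fun K' => (V K ∩ V K').Nonempty)).card : ℝ) * g) * F := by ring
        _ ≤ H * F := mul_le_mul_of_nonneg_right (c4 K hK) hF
    rw [sum_mul]
    refine (sum_le_sum h1).trans ?_
    rw [sum_const, nsmul_eq_mul, mul_assoc]


theorem fin (θ L Pj Pi P0 M T far a B F : ℝ) (hθ : 0 < θ) (hL : 1 ≤ L) (hPj : 0 < Pj)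
    (hPi : 0 < Pi) (hP0 : 0 < P0) (hM : 0 < M) (hB : 0 ≤ B) (hF : 0 ≤ F)
    (h1 : θ ^ 2 * Pj ≤ 4 * L ^ 3 * T) (h2 : T ^ 2 ≤ P0 * (3 * L ^ 2 * Pj / Pi * T + far))
    (h3 : 48 * L ^ 5 * P0 ≤ θ ^ 2 * Pi)
    (h4 : far * (θ * Pj / (2 * L ^ 2 * M)) ≤ a * (B * (L ^ 2 * Pj / P0)) * F) (h5 : a ≤ M) :
    θ ^ 5 * Pj ^ 2 ≤ 64 * L ^ 10 * M ^ 2 * B * F := by
  have hL0 : 0 < L := by linarith
  have hT : 0 < T := by
    by_contra h
    push Not at h
    have : 0 < θ ^ 2 * Pj := by positivity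
    have h' : 4 * L ^ 3 * T ≤ 0 := mul_nonpos_of_nonneg_of_nonpos (by positivity) h
    linarith
  -- c * P0 ≤ T / 4
  have h6 : P0 * (3 * L ^ 2 * Pj / Pi) ≤ T / 4 := by
    have e1 : P0 * (3 * L ^ 2 * Pj / Pi) = (48 * L ^ 5 * P0) * Pj / (16 * L ^ 3 * Pi) := by
      field_simp
      ring
    have e2 : (48 * L ^ 5 * P0) * Pj / (16 * L ^ 3 * Pi) ≤ (θ ^ 2 * Pi) * Pj / (16 * L ^ 3 * Pi) := by
      gcongr
    have e3 : (θ ^ 2 * Pi) * Pj / (16 * L ^ 3 * Pi) = (θ ^ 2 * Pj) / (16 * L ^ 3) := by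
      field_simp
    have e4 : (θ ^ 2 * Pj) / (16 * L ^ 3) ≤ (4 * L ^ 3 * T) / (16 * L ^ 3) := by
      gcongr
    have e5 : (4 * L ^ 3 * T) / (16 * L ^ 3) = T / 4 := by
      field_simp
      ring
    linarith
  have h7 : T ^ 2 ≤ 2 * (P0 * far) := by
    have : P0 * (3 * L ^ 2 * Pj / Pi) * T ≤ T / 4 * T := mul_le_mul_of_nonneg_right h6 hT.le
    nlinarith
  have h8 : θ ^ 4 * Pj ^ 2 ≤ 16 * L ^ 6 * T ^ 2 := by
    have h0 : 0 ≤ θ ^ 2 * Pj := by positivity
    have := mul_self_le_mul_self h0 h1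
    nlinarith
  have h9 : θ ^ 4 * Pj ^ 2 ≤ 32 * L ^ 6 * (P0 * far) := by
    have : 16 * L ^ 6 * T ^ 2 ≤ 16 * L ^ 6 * (2 * (P0 * far)) :=
      mul_le_mul_of_nonneg_left h7 (by positivity)
    linarith
  have hg : 0 < θ * Pj / (2 * L ^ 2 * M) := by positivity
  have h10 : θ ^ 4 * Pj ^ 2 * (θ * Pj / (2 * L ^ 2 * M)) ≤
      32 * L ^ 6 * P0 * (M * (B * (L ^ 2 * Pj / P0)) * F) := by
    calc θ ^ 4 * Pj ^ 2 * (θ * Pj / (2 * L ^ 2 * M))
        ≤ 32 * L ^ 6 * (P0 * far) * (θ * Pj / (2 * L ^ 2 * M)) :=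
          mul_le_mul_of_nonneg_right h9 hg.le
      _ = 32 * L ^ 6 * P0 * (far * (θ * Pj / (2 * L ^ 2 * M))) := by ring
      _ ≤ 32 * L ^ 6 * P0 * (a * (B * (L ^ 2 * Pj / P0)) * F) :=
          mul_le_mul_of_nonneg_left h4 (by positivity)
      _ ≤ 32 * L ^ 6 * P0 * (M * (B * (L ^ 2 * Pj / P0)) * F) := by gcongr
  have h11 : 32 * L ^ 6 * P0 * (M * (B * (L ^ 2 * Pj / P0)) * F) =
      (64 * L ^ 10 * M ^ 2 * B * F) * (Pj / (2 * L ^ 2 * M)) := by
    field_simp
    ring
  have h12 : θ ^ 4 * Pj ^ 2 * (θ * Pj / (2 * L ^ 2 * M)) =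
      (θ ^ 5 * Pj ^ 2) * (Pj / (2 * L ^ 2 * M)) := by
    ring
  rw [h11, h12] at h10
  exact le_of_mul_le_mul_right h10 (by positivity)

section cells

variable {ι : Type} [Fintype ι] [DecidableEq ι]

theorem cell_div (K : KSys ι) {Q i j : ℕ} (hQ : 1 ≤ Q) (hij : i ≤ j) (n : ℕ) :
    K.cell Q i n = K.cell Q j n / Q ^ (j - i) := by
  unfold KSys.cell
  rw [← Nat.floor_div_natCast]
  congr 1
  have hQ' : (0 : ℝ) < Q := by exact_mod_cast hQ
  push_cast
  rw [eq_div_iff (by positivity), mul_assoc, ← pow_add]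
  congr 2
  omega

theorem cell_zero (K : KSys ι) {Q : ℕ} {n : ℕ} (h : 0 ≤ K.t n ∧ K.t n < 1) :
    K.cell Q 0 n = 0 := by
  unfold KSys.cell
  rw [pow_zero, mul_one, Nat.floor_eq_zero]
  exact h.2

theorem im_pos {α : Type} [DecidableEq α] {E : Finset ℕ} (hE : E.Nonempty) (f : ℕ → α) :
    0 < (im E f : ℝ) := by
  unfold im
  exact_mod_cast card_pos.2 (hE.image f)

theorem cnt_cells (hCnt : StCnt) (K : KSys ι) {Q J : ℕ} {E : Finset ℕ} {L : ℝ}
    {D : Bool → ℕ → ℝ} (hQ : 1 ≤ Q) (hR : Reg K Q J E L D) (s : Bool) {i j : ℕ} (hij : i ≤ j)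
    (hjJ : j ≤ J) (l : ι) (c : ℕ) (B : Finset ℕ)
    (hB : ∀ k ∈ B, k / Q ^ (j - i) = c ∧ ∃ n ∈ E, K.cell Q j n = k ∧ K.ln s n = l) :
    (B.card : ℝ) * PL K Q E s i ≤ L ^ 2 * PL K Q E s j := by
  rcases B.eq_empty_or_nonempty with h | ⟨k0, hk0⟩
  · subst h
    simp only [card_empty, Nat.cast_zero, zero_mul]
    positivity
  obtain ⟨hc0, n0, hn0, hcell0, hln0⟩ := hB k0 hk0
  have hci : ∀ n k, K.cell Q j n = k → K.cell Q i n = k / Q ^ (j - i) := by
    intro n k h
    rw [cell_div K hQ hij n, h]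
  have h := (hCnt _ _ L E (fun n => (K.cell Q i n, K.ln s n)) (fun n => (K.cell Q j n, K.ln s n))
    hR.one_le (hR.regL s i (hij.trans hjJ)) (hR.regL s j hjJ) (by
      intro n _ k _ hnk
      rw [Prod.mk.injEq] at hnk ⊢
      refine ⟨?_, hnk.2⟩
      rw [cell_div K hQ hij n, cell_div K hQ hij k, hnk.1]) n0 hn0).2
  refine le_trans (mul_le_mul_of_nonneg_right ?_ (Nat.cast_nonneg _)) h
  unfold im
  have hinj : B.card = (B.image (fun k => (k, l))).card := by
    rw [card_image_of_injective]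
    intro a b hab
    exact (Prod.mk.inj hab).1
  rw [hinj]
  have hsub : B.image (fun k => (k, l)) ⊆
      (E.filter (fun k => (K.cell Q i k, K.ln s k) = (K.cell Q i n0, K.ln s n0))).image
        (fun n => (K.cell Q j n, K.ln s n)) := by
    intro z hz
    rw [mem_image] at hz
    obtain ⟨k, hk, rfl⟩ := hz
    obtain ⟨hc, n, hn, hcell, hln⟩ := hB k hk
    rw [mem_image]
    refine ⟨n, mem_filter.2 ⟨hn, ?_⟩, ?_⟩
    · rw [hci n k hcell, hci n0 k0 hcell0, hc, hc0, hln, hln0]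
    · rw [hcell, hln]
  exact_mod_cast card_le_card hsub

/-- the lines of `E2` in the cell `k` -/
noncomputable def VV (K : KSys ι) (Q j : ℕ) (s : Bool) (E2 : Finset ℕ) (k : ℕ) : Finset ι :=
  (E2.filter (fun n => K.cell Q j n = k)).image (K.ln s)

theorem mem_VV (K : KSys ι) (Q j : ℕ) (s : Bool) (E2 : Finset ℕ) (k : ℕ) (l : ι) :
    l ∈ VV K Q j s E2 k ↔ ∃ n ∈ E2, K.cell Q j n = k ∧ K.ln s n = l := by
  unfold VV
  simp only [mem_image, mem_filter]
  constructor
  · rintro ⟨n, ⟨h1, h2⟩, h3⟩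
    exact ⟨n, h1, h2, h3⟩
  · rintro ⟨n, h1, h2, h3⟩
    exact ⟨n, ⟨h1, h2⟩, h3⟩


open Classical in
/-- the cells with many edges of `E2` -/
noncomputable def AA (K : KSys ι) (Q j : ℕ) (E E2 : Finset ℕ) (θ : ℝ) : Finset ℕ :=
  (E.image (fun n => K.cell Q j n)).filter (fun k =>
    θ * ((E.filter (fun n => K.cell Q j n = k)).card : ℝ) ≤
      2 * ((E2.filter (fun n => K.cell Q j n = k)).card : ℝ))

theorem AA_large (K : KSys ι) {Q J : ℕ} {E : Finset ℕ} {L : ℝ}
    {D : Bool → ℕ → ℝ} (hR : Reg K Q J E L D) {j : ℕ} (hjJ : j ≤ J) {E2 : Finset ℕ}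
    (hE2 : E2 ⊆ E) {θ : ℝ} (hθ : 0 < θ) (h : θ * E.card ≤ E2.card) :
    θ * (PM K Q E j : ℝ) ≤ 2 * L * (AA K Q j E E2 θ).card := by
  classical
  have hN : (0 : ℝ) < E.card := by exact_mod_cast card_pos.2 hR.ne
  have hM : (0 : ℝ) < PM K Q E j := im_pos hR.ne _
  have hL : 0 < L := lt_of_lt_of_le one_pos hR.one_le
  have e1 : (E.card : ℝ) = ∑ k ∈ E.image (fun n => K.cell Q j n),
      ((E.filter (fun n => K.cell Q j n = k)).card : ℝ) := by
    rw [card_eq_sum_card_image (fun n => K.cell Q j n) E]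
    push_cast
    rfl
  have e2 : (E2.card : ℝ) = ∑ k ∈ E.image (fun n => K.cell Q j n),
      ((E2.filter (fun n => K.cell Q j n = k)).card : ℝ) := by
    rw [card_eq_sum_card_fiberwise (f := fun n => K.cell Q j n)
      (t := E.image (fun n => K.cell Q j n))
      (fun n hn => mem_coe.2 (mem_image_of_mem _ (hE2 hn)))]
    push_cast
    rfl
  have h1 : ∀ k ∈ E.image (fun n => K.cell Q j n),
      ((E2.filter (fun n => K.cell Q j n = k)).card : ℝ) ≤
        θ / 2 * ((E.filter (fun n => K.cell Q j n = k)).card : ℝ) +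
          (if θ * ((E.filter (fun n => K.cell Q j n = k)).card : ℝ) ≤
            2 * ((E2.filter (fun n => K.cell Q j n = k)).card : ℝ) then (1 : ℝ) else 0) *
              (L * E.card / PM K Q E j) := by
    intro k hk
    by_cases h2 : θ * ((E.filter (fun n => K.cell Q j n = k)).card : ℝ) ≤
            2 * ((E2.filter (fun n => K.cell Q j n = k)).card : ℝ)
    · rw [if_pos h2, one_mul]
      rw [mem_image] at hk
      obtain ⟨n, hn, hnk⟩ := hk
      have h3 := (hR.regM j hjJ n hn).2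
      simp only [hnk] at h3
      have h4 : ((E2.filter (fun n => K.cell Q j n = k)).card : ℝ) ≤
          ((E.filter (fun n => K.cell Q j n = k)).card : ℝ) := by
        exact_mod_cast card_le_card (filter_subset_filter _ hE2)
      have h5 : ((E.filter (fun n => K.cell Q j n = k)).card : ℝ) ≤ L * E.card / PM K Q E j := by
        rw [le_div_iff₀ hM]
        exact h3
      have h6 : 0 ≤ θ / 2 * ((E.filter (fun n => K.cell Q j n = k)).card : ℝ) := by positivity
      linarith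
    · rw [if_neg h2, zero_mul]
      push Not at h2
      linarith
  have h2 := sum_le_sum h1
  rw [← e2, sum_add_distrib, ← mul_sum, ← e1, ← sum_mul, sum_boole] at h2
  have h3 : θ * E.card ≤ 2 * (((AA K Q j E E2 θ).card : ℝ) * (L * E.card / PM K Q E j)) := by
    have : (((E.image (fun n => K.cell Q j n)).filter (fun k =>
        θ * ((E.filter (fun n => K.cell Q j n = k)).card : ℝ) ≤
        2 * ((E2.filter (fun n => K.cell Q j n = k)).card : ℝ))).card : ℝ) =
        ((AA K Q j E E2 θ).card : ℝ) := by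
      unfold AA
      rfl
    rw [this] at h2
    linarith
  have h4 : 2 * (((AA K Q j E E2 θ).card : ℝ) * (L * E.card / PM K Q E j)) =
      (2 * L * (AA K Q j E E2 θ).card) / PM K Q E j * E.card := by
    field_simp
  rw [h4] at h3
  have h5 := le_of_mul_le_mul_right h3 hN
  rwa [le_div_iff₀ hM] at h5

theorem VV_large (K : KSys ι) {Q J : ℕ} {E : Finset ℕ} {L : ℝ}
    {D : Bool → ℕ → ℝ} (hR : Reg K Q J E L D) {j : ℕ} (hjJ : j ≤ J) {E2 : Finset ℕ}
    (hE2 : E2 ⊆ E) {θ : ℝ} (s : Bool) (k : ℕ) (hk : k ∈ AA K Q j E E2 θ) :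
    θ * PL K Q E s j ≤ 2 * L ^ 2 * PM K Q E j * (VV K Q j s E2 k).card := by
  classical
  have hN : (0 : ℝ) < E.card := by exact_mod_cast card_pos.2 hR.ne
  have hM : (0 : ℝ) < PM K Q E j := im_pos hR.ne _
  have hP : (0 : ℝ) < PL K Q E s j := im_pos hR.ne _
  have hL : 0 < L := lt_of_lt_of_le one_pos hR.one_le
  unfold AA at hk
  rw [mem_filter] at hk
  obtain ⟨hk1, hk2⟩ := hk
  rw [mem_image] at hk1
  obtain ⟨n0, hn0, hnk⟩ := hk1
  have h3 := (hR.regM j hjJ n0 hn0).1
  simp only [hnk] at h3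
  -- fibres
  have h4 : ((E2.filter (fun n => K.cell Q j n = k)).card : ℝ) * PL K Q E s j ≤
      (VV K Q j s E2 k).card * (L * E.card) := by
    have e1 : ((E2.filter (fun n => K.cell Q j n = k)).card : ℝ) =
        ∑ l ∈ VV K Q j s E2 k,
          (((E2.filter (fun n => K.cell Q j n = k)).filter (fun n => K.ln s n = l)).card : ℝ) := by
      rw [card_eq_sum_card_image (K.ln s) (E2.filter (fun n => K.cell Q j n = k))]
      push_cast
      rfl
    rw [e1, sum_mul, ← nsmul_eq_mul, ← sum_const]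
    refine sum_le_sum fun l hl => ?_
    rw [mem_VV] at hl
    obtain ⟨n, hn, hn1, hn2⟩ := hl
    have h5 := (hR.regL s j hjJ n (hE2 hn)).2
    refine le_trans (mul_le_mul_of_nonneg_right ?_ hP.le) h5
    have : (E2.filter (fun n => K.cell Q j n = k)).filter (fun n => K.ln s n = l) ⊆
        E.filter (fun k => (K.cell Q j k, K.ln s k) = (K.cell Q j n, K.ln s n)) := by
      intro n' hn'
      rw [mem_filter, mem_filter] at hn'
      rw [mem_filter]
      refine ⟨hE2 hn'.1.1, ?_⟩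
      rw [hn'.1.2, hn'.2, hn1, hn2]
    exact_mod_cast card_le_card this
  have h5 : θ * PL K Q E s j * E.card ≤
      (2 * L ^ 2 * PM K Q E j * (VV K Q j s E2 k).card) * E.card := by
    have h3' : (E.card : ℝ) ≤ L * ((E.filter (fun n => K.cell Q j n = k)).card : ℝ) *
        PM K Q E j := h3
    by_cases hθ : 0 < θ
    · calc θ * PL K Q E s j * E.card
          ≤ θ * PL K Q E s j * (L * ((E.filter (fun n => K.cell Q j n = k)).card : ℝ) *
            PM K Q E j) := mul_le_mul_of_nonneg_left h3' (by positivity)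
        _ = (θ * ((E.filter (fun n => K.cell Q j n = k)).card : ℝ)) *
            (PL K Q E s j * L * PM K Q E j) := by ring
        _ ≤ (2 * ((E2.filter (fun n => K.cell Q j n = k)).card : ℝ)) *
            (PL K Q E s j * L * PM K Q E j) := mul_le_mul_of_nonneg_right hk2 (by positivity)
        _ = (((E2.filter (fun n => K.cell Q j n = k)).card : ℝ) * PL K Q E s j) *
            (2 * L * PM K Q E j) := by ring
        _ ≤ ((VV K Q j s E2 k).card * (L * E.card)) * (2 * L * PM K Q E j) :=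
            mul_le_mul_of_nonneg_right h4 (by positivity)
        _ = _ := by ring
    · push Not at hθ
      have h6 : θ * PL K Q E s j * E.card ≤ 0 := by
        apply mul_nonpos_of_nonpos_of_nonneg _ hN.le
        exact mul_nonpos_of_nonpos_of_nonneg hθ hP.le
      refine h6.trans (by positivity)
  exact le_of_mul_le_mul_right h5 hN

/-- closeness of two cells at a coarser level -/
def Close (R k k' : ℕ) : Prop := k' / R = k / R ∨ k' / R = k / R + 1 ∨ k' / R + 1 = k / R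

open Classical in
theorem close_count (hCnt : StCnt) (K : KSys ι) {Q J : ℕ} {E : Finset ℕ} {L : ℝ}
    {D : Bool → ℕ → ℝ} (hQ : 1 ≤ Q) (hR : Reg K Q J E L D) (s : Bool) {i j : ℕ} (hij : i ≤ j)
    (hjJ : j ≤ J) {E2 : Finset ℕ} (hE2 : E2 ⊆ E) (A : Finset ℕ) (l : ι) (k : ℕ) :
    ((A.filter (fun k' => l ∈ VV K Q j s E2 k' ∧ Close (Q ^ (j - i)) k k')).card : ℝ) ≤
      3 * L ^ 2 * PL K Q E s j / PL K Q E s i := by
  have hPi : (0 : ℝ) < PL K Q E s i := im_pos hR.ne _
  have key : ∀ c, ((A.filter (fun k' => l ∈ VV K Q j s E2 k' ∧ k' / Q ^ (j - i) = c)).card : ℝ) *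
      PL K Q E s i ≤ L ^ 2 * PL K Q E s j := by
    intro c
    refine cnt_cells hCnt K hQ hR s hij hjJ l c _ fun k' hk' => ?_
    rw [mem_filter, mem_VV] at hk'
    obtain ⟨_, ⟨n, h1, h2, h3⟩, h4⟩ := hk'
    exact ⟨h4, n, hE2 h1, h2, h3⟩
  have hsub : A.filter (fun k' => l ∈ VV K Q j s E2 k' ∧ Close (Q ^ (j - i)) k k') ⊆
      (A.filter (fun k' => l ∈ VV K Q j s E2 k' ∧ k' / Q ^ (j - i) = k / Q ^ (j - i))) ∪
      ((A.filter (fun k' => l ∈ VV K Q j s E2 k' ∧ k' / Q ^ (j - i) = k / Q ^ (j - i) + 1)) ∪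
      (A.filter (fun k' => l ∈ VV K Q j s E2 k' ∧ k' / Q ^ (j - i) = k / Q ^ (j - i) - 1))) := by
    intro k' hk'
    rw [mem_filter] at hk'
    obtain ⟨h1, h2, h3⟩ := hk'
    rw [mem_union, mem_union, mem_filter, mem_filter, mem_filter]
    rcases h3 with h3 | h3 | h3
    · exact Or.inl ⟨h1, h2, h3⟩
    · exact Or.inr (Or.inl ⟨h1, h2, h3⟩)
    · exact Or.inr (Or.inr ⟨h1, h2, Nat.eq_sub_of_add_eq h3⟩)
  have h1 := card_le_card hsub
  have h2 := h1.trans ((card_union_le _ _).trans (Nat.add_le_add_left (card_union_le _ _) _))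
  have h3 : ((A.filter (fun k' => l ∈ VV K Q j s E2 k' ∧ Close (Q ^ (j - i)) k k')).card : ℝ) ≤
      ((A.filter (fun k' => l ∈ VV K Q j s E2 k' ∧ k' / Q ^ (j - i) = k / Q ^ (j - i))).card : ℝ) +
      (((A.filter (fun k' => l ∈ VV K Q j s E2 k' ∧
        k' / Q ^ (j - i) = k / Q ^ (j - i) + 1)).card : ℝ) +
      ((A.filter (fun k' => l ∈ VV K Q j s E2 k' ∧
        k' / Q ^ (j - i) = k / Q ^ (j - i) - 1)).card : ℝ)) := by
    exact_mod_cast h2
  rw [le_div_iff₀ hPi]
  have k1 := key (k / Q ^ (j - i))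
  have k2 := key (k / Q ^ (j - i) + 1)
  have k3 := key (k / Q ^ (j - i) - 1)
  have h4 := mul_le_mul_of_nonneg_right h3 hPi.le
  rw [add_mul, add_mul] at h4
  linarith

open Classical in
/-- a line is in few cells -/
theorem line_count (hCnt : StCnt) (K : KSys ι) {Q J : ℕ} {E : Finset ℕ} {L : ℝ}
    {D : Bool → ℕ → ℝ} (hQ : 1 ≤ Q) (hR : Reg K Q J E L D) (s : Bool) {j : ℕ}
    (hjJ : j ≤ J) {E2 : Finset ℕ} (hE2 : E2 ⊆ E) (A : Finset ℕ) (l : ι) :
    ((A.filter (fun k' => l ∈ VV K Q j s E2 k')).card : ℝ) ≤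
      L ^ 2 * PL K Q E s j / PL K Q E s 0 := by
  have hPi : (0 : ℝ) < PL K Q E s 0 := im_pos hR.ne _
  rw [le_div_iff₀ hPi]
  refine cnt_cells hCnt K hQ hR s (Nat.zero_le j) hjJ l 0 _ fun k' hk' => ?_
  rw [mem_filter, mem_VV] at hk'
  obtain ⟨_, n, h1, h2, h3⟩ := hk'
  refine ⟨?_, n, hE2 h1, h2, h3⟩
  rw [← h2, ← cell_div K hQ (Nat.zero_le j) n]
  exact cell_zero K (hR.sub n (hE2 h1)).2

theorem not_close {R k k' : ℕ} (hR : 0 < R) (h : ¬ Close R k k') : (R : ℝ) ≤ |(k : ℝ) - k'| := by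
  unfold Close at h
  push Not at h
  obtain ⟨h1, h2, h3⟩ := h
  have e1 := Nat.div_add_mod k R
  have e2 := Nat.div_add_mod k' R
  have e3 := Nat.mod_lt k hR
  have e4 := Nat.mod_lt k' hR
  rcases lt_or_ge (k / R) (k' / R) with h4 | h4
  · have h5 : k / R + 2 ≤ k' / R := by omega
    have h6 : k + R ≤ k' := by
      have := Nat.mul_le_mul_left R h5
      rw [mul_add] at this
      omega
    have h7 : (k : ℝ) + R ≤ k' := by exact_mod_cast h6
    rw [abs_sub_comm]
    exact (by linarith : (R : ℝ) ≤ k' - k).trans (le_abs_self _)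
  · have h5 : k' / R + 2 ≤ k / R := by omega
    have h6 : k' + R ≤ k := by
      have := Nat.mul_le_mul_left R h5
      rw [mul_add] at this
      omega
    have h7 : (k' : ℝ) + R ≤ k := by exact_mod_cast h6
    exact (by linarith : (R : ℝ) ≤ k - k').trans (le_abs_self _)


end cells

end XFAR

open XFAR in
theorem I_FAR (hCnt : StCnt) (hFlatX : StFlatX) (hSep : StSep) (hInc : StInc) : StFar := by
  classical
  intro ι _ _ K m Q J E L D hm hsep hQ hR s i j hij hjJ E2 θ Δ hE2 hθ hθ1 hΔ hθE hflat hP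
  have _ := hInc
  have hm0 : 0 < m := by linarith
  have hM : (0 : ℝ) < PM K Q E j := im_pos hR.ne _
  have hPj : (0 : ℝ) < PL K Q E s j := im_pos hR.ne _
  have hPi : (0 : ℝ) < PL K Q E s i := im_pos hR.ne _
  have hP0 : (0 : ℝ) < PL K Q E s 0 := im_pos hR.ne _
  have hL : 0 < L := lt_of_lt_of_le one_pos hR.one_le
  have hQ0 : 0 < Q := hQ
  have hRp : 0 < Q ^ (j - i) := pow_pos hQ0 _
  have hRr : (0 : ℝ) < (Q : ℝ) ^ (j - i) := by exact_mod_cast hRp
  set A := AA K Q j E E2 θ with hA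
  set V := VV K Q j s E2 with hV
  -- flatness
  have hfl : ∀ k, ∀ l ∈ V k, ∀ l' ∈ V k, K.FlatP Q j k Δ l l' := by
    intro k l hl l' hl'
    rw [hV, mem_VV] at hl hl'
    obtain ⟨n, hn, h1, h2⟩ := hl
    obtain ⟨n', hn', h1', h2'⟩ := hl'
    have := hflat n hn n' hn' (h1.trans h1'.symm)
    rw [h1, h2, h2'] at this
    exact this
  have hAM : (A.card : ℝ) ≤ PM K Q E j := by
    have : A.card ≤ (E.image (fun n => K.cell Q j n)).card := by
      rw [hA]; unfold AA; exact card_filter_le _ _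
    exact_mod_cast this
  have hbig := AA_large K hR hjJ hE2 hθ hθE
  rw [← hA] at hbig
  have hVb : ∀ k ∈ A, θ * PL K Q E s j / (2 * L ^ 2 * PM K Q E j) ≤ ((V k).card : ℝ) := by
    intro k hk
    rw [div_le_iff₀ (by positivity)]
    have := VV_large K hR hjJ hE2 s k hk
    rw [← hV] at this
    linarith
  -- the lines
  set W := E.image (K.ln s) with hW
  have hWc : (W.card : ℝ) = PL K Q E s 0 := by
    unfold PL im
    have : E.image (fun n => (K.cell Q 0 n, K.ln s n)) = W.image (fun l => (0, l)) := by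
      rw [hW, image_image]
      refine image_congr fun n hn => ?_
      simp only [Function.comp_apply]
      rw [cell_zero K (hR.sub n (mem_coe.1 hn)).2]
    have hinj : Function.Injective (fun l : ι => ((0 : ℕ), l)) :=
      fun a b hab => (Prod.mk.inj hab).2
    rw [this, card_image_of_injective W hinj]
  have hVW : ∀ k, V k ⊆ W := by
    intro k l hl
    rw [hV, mem_VV] at hl
    obtain ⟨n, hn, _, h2⟩ := hl
    rw [hW, mem_image]
    exact ⟨n, hE2 hn, h2⟩
  have hF : 0 ≤ 2 * m * Δ / (Q : ℝ) ^ (j - i) + 1 := by positivity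
  have hg : 0 ≤ θ * PL K Q E s j / (2 * L ^ 2 * PM K Q E j) := by positivity
  obtain ⟨far, hf1, hf2⟩ := core W A V (Close (Q ^ (j - i)))
    (θ * PL K Q E s j / (2 * L ^ 2 * PM K Q E j)) (3 * L ^ 2 * PL K Q E s j / PL K Q E s i)
    (2 * m * Δ / (Q : ℝ) ^ (j - i) + 1)
    ((8 * m * Δ + 1) * (L ^ 2 * PL K Q E s j / PL K Q E s 0)) hg hF (fun k _ => hVW k)
    (fun l k _ _ => close_count hCnt K hQ hR s hij hjJ hE2 A l k)
    (by
      intro k _ k' _ hkk
      have h1 := not_close hRp hkk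
      push_cast at h1
      have h2 := (hSep ι K m hm0 hsep).1 (V k ∩ V k') (2 * Δ / (Q : ℝ) ^ (j - i))
        (by positivity) (by
          intro l hl l' hl'
          rw [mem_inter] at hl hl'
          have h3 := (hFlatX ι K Q j k Δ l l' hQ (hfl k l hl.1 l' hl'.1)).2 k'
            (hfl k' l hl.2 l' hl'.2)
          rw [le_div_iff₀ hRr]
          exact (mul_le_mul_of_nonneg_left h1 (abs_nonneg _)).trans h3)
      refine h2.trans (le_of_eq ?_)
      ring)
    (by
      intro k _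
      rcases (V k).eq_empty_or_nonempty with hVe | ⟨l0, hl0⟩
      · have : A.filter (fun k' => (V k ∩ V k').Nonempty) = ∅ := by
          rw [filter_eq_empty_iff]
          intro k' _
          rw [hVe, empty_inter]
          exact not_nonempty_empty
        rw [this, card_empty, Nat.cast_zero, zero_mul]
        positivity
      · set B := A.filter (fun k' => (V k ∩ V k').Nonempty) with hB
        set W' := W.filter (fun l => |K.x l - K.x l0| ≤ 4 * Δ) with hW'
        have h1 : (W'.card : ℝ) ≤ 8 * m * Δ + 1 := by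
          have := (hSep ι K m hm0 hsep).1 W' (8 * Δ) (by positivity) (by
            intro l hl l' hl'
            rw [hW', mem_filter] at hl hl'
            have e : K.x l - K.x l' = (K.x l - K.x l0) - (K.x l' - K.x l0) := by ring
            rw [e]
            exact (abs_sub _ _).trans (by linarith [hl.2, hl'.2]))
          linarith
        have h2 : ∀ k' ∈ B, V k' ⊆ W' := by
          intro k' hk' l hl
          rw [hB, mem_filter] at hk'
          obtain ⟨_, l1, hl1⟩ := hk'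
          rw [mem_inter] at hl1
          rw [hW', mem_filter]
          refine ⟨hVW k' hl, ?_⟩
          have h3 := (hFlatX ι K Q j k Δ l1 l0 hQ (hfl k l1 hl1.1 l0 hl0)).1
          have h4 := (hFlatX ι K Q j k' Δ l l1 hQ (hfl k' l hl l1 hl1.2)).1
          have e : K.x l - K.x l0 = (K.x l - K.x l1) + (K.x l1 - K.x l0) := by ring
          rw [e]
          exact (abs_add_le _ _).trans (by linarith)
        have h3 : ∑ k' ∈ B, ((V k').card : ℝ) ≤
            (W'.card : ℝ) * (L ^ 2 * PL K Q E s j / PL K Q E s 0) := by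
          have e1 : ∑ k' ∈ B, ((V k').card : ℝ) = ∑ k' ∈ B, ∑ l ∈ W', chi V l k' :=
            sum_congr rfl fun k' hk' => sum_chi V W' k' (h2 k' hk')
          rw [e1, sum_comm, ← nsmul_eq_mul, ← sum_const]
          refine sum_le_sum fun l _ => ?_
          have := line_count hCnt K hQ hR s hjJ hE2 B l
          rw [← sum_boole] at this
          exact this
        have h4 : (B.card : ℝ) * (θ * PL K Q E s j / (2 * L ^ 2 * PM K Q E j)) ≤
            ∑ k' ∈ B, ((V k').card : ℝ) := by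
          rw [← nsmul_eq_mul, ← sum_const]
          refine sum_le_sum fun k' hk' => hVb k' (mem_filter.1 hk').1
        exact h4.trans (h3.trans (mul_le_mul_of_nonneg_right h1 (by positivity))))
  rw [hWc] at hf1
  refine fin θ L (PL K Q E s j) (PL K Q E s i) (PL K Q E s 0) (PM K Q E j)
    (∑ k ∈ A, ((V k).card : ℝ)) far A.card (8 * m * Δ + 1)
    (2 * m * Δ / (Q : ℝ) ^ (j - i) + 1) hθ hR.one_le hPj hPi hP0 hM (by positivity) hF ?_ hf1
    hP hf2 hAM
  -- lower bound for T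
  have h1 : (A.card : ℝ) * (θ * PL K Q E s j / (2 * L ^ 2 * PM K Q E j)) ≤
      ∑ k ∈ A, ((V k).card : ℝ) := by
    rw [← nsmul_eq_mul, ← sum_const]
    exact sum_le_sum fun k hk => hVb k hk
  have h2 : θ ^ 2 * PL K Q E s j ≤ 4 * L ^ 3 *
      ((A.card : ℝ) * (θ * PL K Q E s j / (2 * L ^ 2 * PM K Q E j))) := by
    have e : 4 * L ^ 3 * ((A.card : ℝ) * (θ * PL K Q E s j / (2 * L ^ 2 * PM K Q E j))) =
        (2 * L * A.card) * (θ * PL K Q E s j / PM K Q E j) := by
      field_simp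
      ring
    rw [e]
    have e2 : θ ^ 2 * PL K Q E s j = (θ * PM K Q E j) * (θ * PL K Q E s j / PM K Q E j) := by
      field_simp
    rw [e2]
    exact mul_le_mul_of_nonneg_right hbig (by positivity)
  exact h2.trans (mul_le_mul_of_nonneg_left h1 (by positivity))

end Pool.Agent.Work.MP_e17eac_co.DH

end

section

/-!
# Lines of edges of a regular set in the same cell are flat (`StFlat0`)
-/

namespace Pool.Agent.Work.MP_e17eac_co.DH

open Finset

namespace XFLAT0

variable {ι : Type} [Fintype ι] [DecidableEq ι]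

lemma qpow_pos (Q j : ℕ) (hQ : 1 ≤ Q) : (0 : ℝ) < (Q : ℝ) ^ j := by
  have : (0 : ℝ) < (Q : ℝ) := by exact_mod_cast hQ
  positivity

lemma cell_le (K : KSys ι) (Q j n : ℕ) (hQ : 1 ≤ Q) (h0 : 0 ≤ K.t n) :
    ((K.cell Q j n : ℕ) : ℝ) / (Q : ℝ) ^ j ≤ K.t n := by
  have hp := qpow_pos Q j hQ
  rw [div_le_iff₀ hp]
  exact Nat.floor_le (by positivity)

lemma lt_cell (K : KSys ι) (Q j n : ℕ) (hQ : 1 ≤ Q) :
    K.t n < (((K.cell Q j n : ℕ) : ℝ) + 1) / (Q : ℝ) ^ j := by
  have hp := qpow_pos Q j hQ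
  rw [lt_div_iff₀ hp]
  exact Nat.lt_floor_add_one _

lemma key (hSand : StSand) (hIdx : StIdx) (K : KSys ι) (Q J : ℕ) (E : Finset ℕ) (Λ : ℝ)
    (D : Bool → ℕ → ℝ) (hQ : 1 ≤ Q) (hR : Reg K Q J E Λ D) (j : ℕ) (hj : j ≤ J) (n : ℕ)
    (hn : n ∈ E) (c : Bool) (s : ℝ) (h1 : ((K.cell Q j n : ℕ) : ℝ) / (Q : ℝ) ^ j ≤ s)
    (h2 : s ≤ (((K.cell Q j n : ℕ) : ℝ) + 1) / (Q : ℝ) ^ j) :
    |K.ht (K.ln c n) s - K.L s| ≤ 2 * max (D false j) (D true j) / (Q : ℝ) ^ j := by
  have hp := qpow_pos Q j hQ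
  obtain ⟨hN, ht0, _⟩ := hR.sub n hn
  obtain ⟨hV, hI, _, _⟩ := hIdx ι K
  have ha := cell_le K Q j n hQ ht0
  have hb := lt_cell K Q j n hQ
  have hcast : (((K.cell Q j n + 1 : ℕ) : ℕ) : ℝ) / (Q : ℝ) ^ j =
      (((K.cell Q j n : ℕ) : ℝ) + 1) / (Q : ℝ) ^ j := by push_cast; ring
  have hpn : K.ci Q j (K.cell Q j n) ≤ n := by
    by_contra hlt
    have := (hI n (((K.cell Q j n : ℕ) : ℝ) / (Q : ℝ) ^ j)).1 (not_le.1 hlt)
    linarith [this.2]
  have hnq : n < K.ci Q j (K.cell Q j n + 1) := by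
    unfold KSys.ci
    rw [hI, hcast]
    exact ⟨hN, hb⟩
  have hVq : K.Valid (K.ci Q j (K.cell Q j n + 1))
      ((((K.cell Q j n : ℕ) : ℝ) + 1) / (Q : ℝ) ^ j) := by
    rw [← hcast]
    exact hV _
  obtain ⟨hlo, hhi⟩ := hSand ι K n (K.ci Q j (K.cell Q j n)) (K.ci Q j (K.cell Q j n + 1))
    (((K.cell Q j n : ℕ) : ℝ) / (Q : ℝ) ^ j) ((((K.cell Q j n : ℕ) : ℝ) + 1) / (Q : ℝ) ^ j) s c hN
    (hV _) hVq hpn hnq h1 h2
  have hlen : (((K.cell Q j n : ℕ) : ℝ) + 1) / (Q : ℝ) ^ j -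
      ((K.cell Q j n : ℕ) : ℝ) / (Q : ℝ) ^ j = 1 / (Q : ℝ) ^ j := by
    rw [← sub_div]
    congr 1
    ring
  rw [hlen] at hlo hhi
  have hB : |K.x (K.pos (K.ci Q j (K.cell Q j n)) (K.tokB n)) -
      K.x (K.pos (K.ci Q j (K.cell Q j n + 1)) (K.tokB n))| ≤
      2 * max (D false j) (D true j) := by
    have h := (hR.dhi false j hj n hn).le
    have h' := le_max_left (D false j) (D true j)
    calc _ ≤ 2 * D false j := h
      _ ≤ _ := by linarith
  have hT : |K.x (K.pos (K.ci Q j (K.cell Q j n)) (K.tokT n)) -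
      K.x (K.pos (K.ci Q j (K.cell Q j n + 1)) (K.tokT n))| ≤
      2 * max (D false j) (D true j) := by
    have h := (hR.dhi true j hj n hn).le
    have h' := le_max_right (D false j) (D true j)
    calc _ ≤ 2 * D true j := h
      _ ≤ _ := by linarith
  have hinv : 0 ≤ 1 / (Q : ℝ) ^ j := by positivity
  have hB' := mul_le_mul_of_nonneg_left hB hinv
  have hT' := mul_le_mul_of_nonneg_left hT hinv
  have e : 1 / (Q : ℝ) ^ j * (2 * max (D false j) (D true j)) =
      2 * max (D false j) (D true j) / (Q : ℝ) ^ j := by ring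
  rw [e] at hB' hT'
  rw [abs_le]
  constructor <;> linarith

end XFLAT0

open XFLAT0 in
theorem I_FLAT0 (hSand : StSand) (hIdx : StIdx) : StFlat0 := by
  intro ι _ _ K Q J E Λ D hQ hR j hj n hn n' hn' hc c c'
  have hp := qpow_pos Q j hQ
  have h12 : ((K.cell Q j n : ℕ) : ℝ) / (Q : ℝ) ^ j ≤
      (((K.cell Q j n : ℕ) : ℝ) + 1) / (Q : ℝ) ^ j :=
    div_le_div_of_nonneg_right (by linarith) hp.le
  have tri : ∀ s : ℝ, ((K.cell Q j n : ℕ) : ℝ) / (Q : ℝ) ^ j ≤ s →
      s ≤ (((K.cell Q j n : ℕ) : ℝ) + 1) / (Q : ℝ) ^ j →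
      |K.ht (K.ln c n) s - K.ht (K.ln c' n') s| ≤
        4 * max (D false j) (D true j) / (Q : ℝ) ^ j := by
    intro s h1 h2
    have k1 := key hSand hIdx K Q J E Λ D hQ hR j hj n hn c s h1 h2
    have k2 := key hSand hIdx K Q J E Λ D hQ hR j hj n' hn' c' s (by rw [← hc]; exact h1)
      (by rw [← hc]; exact h2)
    have e : 4 * max (D false j) (D true j) / (Q : ℝ) ^ j =
        2 * max (D false j) (D true j) / (Q : ℝ) ^ j +
        2 * max (D false j) (D true j) / (Q : ℝ) ^ j := by ring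
    rw [e]
    rw [abs_le] at k1 k2 ⊢
    constructor <;> linarith [k1.1, k1.2, k2.1, k2.2]
  exact ⟨tri _ le_rfl h12, tri _ h12 le_rfl⟩

end Pool.Agent.Work.MP_e17eac_co.DH

end

section

/-!
# Start lines of tokens in the same cell are close
-/

namespace Pool.Agent.Work.MP_e17eac_co.DH

open Finset

namespace XFLATS

/-- the start line of each token of an edge is close to the level at both ends of its cell -/
theorem near (hSflat : StSflat) (hIdx : StIdx) (ι : Type) [Fintype ι] [DecidableEq ι] (K : KSys ι)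
    (Q J : ℕ) (E : Finset ℕ) (Λ : ℝ) (D : Bool → ℕ → ℝ) (hQ : 1 ≤ Q) (hR : Reg K Q J E Λ D)
    (j : ℕ) (hj : j ≤ J) (n : ℕ) (hn : n ∈ E) (p : Bool) (s : ℝ)
    (hs0 : (K.cell Q j n : ℝ) / (Q : ℝ) ^ j ≤ s)
    (hs1 : s ≤ ((K.cell Q j n : ℝ) + 1) / (Q : ℝ) ^ j) :
    |K.ht (K.pos (K.ci Q j (K.cell Q j n)) (K.tok p n)) s - K.L s| ≤
      4 * max (D false j) (D true j) / (Q : ℝ) ^ j := by
  have hQj : (0 : ℝ) < (Q : ℝ) ^ j := pow_pos (by exact_mod_cast hQ) j
  obtain ⟨hnN, ht0, ht1⟩ := hR.sub n hn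
  obtain ⟨hV, hlt, -, -⟩ := hIdx ι K
  set k := K.cell Q j n with hk
  have hk1 : (k : ℝ) / (Q : ℝ) ^ j ≤ K.t n := by
    rw [div_le_iff₀ hQj, hk]
    exact Nat.floor_le (mul_nonneg ht0 hQj.le)
  have hk2 : K.t n < ((k : ℝ) + 1) / (Q : ℝ) ^ j := by
    rw [lt_div_iff₀ hQj, hk]
    exact Nat.lt_floor_add_one _
  have hci1 : K.ci Q j k ≤ n := by
    by_contra hcon
    push Not at hcon
    have := ((hlt n _).1 hcon).2
    linarith
  have hcast : (((k + 1 : ℕ) : ℝ)) / (Q : ℝ) ^ j = ((k : ℝ) + 1) / (Q : ℝ) ^ j := by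
    push_cast; rfl
  have hci2 : n < K.ci Q j (k + 1) := by
    refine (hlt n _).2 ⟨hnN, ?_⟩
    rw [hcast]
    exact hk2
  have hV1 : K.Valid (K.ci Q j k) ((k : ℝ) / (Q : ℝ) ^ j) := hV _
  have hV2 : K.Valid (K.ci Q j (k + 1)) (((k : ℝ) + 1) / (Q : ℝ) ^ j) := by
    have := hV ((((k + 1 : ℕ) : ℝ)) / (Q : ℝ) ^ j)
    rw [hcast] at this
    have h2 : K.ci Q j (k + 1) = K.idx (((k : ℝ) + 1) / (Q : ℝ) ^ j) := by
      unfold KSys.ci
      rw [hcast]
    rw [h2]
    exact this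
  obtain ⟨hB, hT⟩ := hSflat ι K n _ _ _ _ s hnN hV1 hV2 hci1 hci2 hs0 hs1
  have hd : ((k : ℝ) + 1) / (Q : ℝ) ^ j - (k : ℝ) / (Q : ℝ) ^ j = 1 / (Q : ℝ) ^ j := by
    rw [← sub_div]
    congr 1
    ring
  have hD0 : K.disp Q j k (K.tok false n) < 2 * D false j := hR.dhi false j hj n hn
  have hD1 : K.disp Q j k (K.tok true n) < 2 * D true j := hR.dhi true j hj n hn
  have hbound : (((k : ℝ) + 1) / (Q : ℝ) ^ j - (k : ℝ) / (Q : ℝ) ^ j) *
      (|K.x (K.pos (K.ci Q j k) (K.tokB n)) - K.x (K.pos (K.ci Q j (k + 1)) (K.tokB n))| +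
        |K.x (K.pos (K.ci Q j k) (K.tokT n)) - K.x (K.pos (K.ci Q j (k + 1)) (K.tokT n))|) ≤
      4 * max (D false j) (D true j) / (Q : ℝ) ^ j := by
    rw [hd, div_mul_eq_mul_div, one_mul]
    refine div_le_div_of_nonneg_right ?_ hQj.le
    have h1 : |K.x (K.pos (K.ci Q j k) (K.tokB n)) - K.x (K.pos (K.ci Q j (k + 1)) (K.tokB n))| <
      2 * D false j := hD0
    have h2 : |K.x (K.pos (K.ci Q j k) (K.tokT n)) - K.x (K.pos (K.ci Q j (k + 1)) (K.tokT n))| <
      2 * D true j := hD1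
    have h3 := le_max_left (D false j) (D true j)
    have h4 := le_max_right (D false j) (D true j)
    linarith
  cases p
  · exact hB.trans hbound
  · exact hT.trans hbound

end XFLATS

theorem I_FLATS (hSflat : StSflat) (hIdx : StIdx) : StFlatS := by
  intro ι _ _ K Q J E Λ D hQ hR j hj n hn n' hn' hcell p p'
  have hQj : (0 : ℝ) < (Q : ℝ) ^ j := pow_pos (by exact_mod_cast hQ) j
  have hle : (K.cell Q j n : ℝ) / (Q : ℝ) ^ j ≤ ((K.cell Q j n : ℝ) + 1) / (Q : ℝ) ^ j :=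
    div_le_div_of_nonneg_right (by linarith) hQj.le
  have hmain : ∀ s : ℝ, (K.cell Q j n : ℝ) / (Q : ℝ) ^ j ≤ s →
      s ≤ ((K.cell Q j n : ℝ) + 1) / (Q : ℝ) ^ j →
      |K.ht (K.pos (K.ci Q j (K.cell Q j n)) (K.tok p n)) s -
        K.ht (K.pos (K.ci Q j (K.cell Q j n)) (K.tok p' n')) s| ≤
        8 * max (D false j) (D true j) / (Q : ℝ) ^ j := by
    intro s hs0 hs1
    have h1 := XFLATS.near hSflat hIdx ι K Q J E Λ D hQ hR j hj n hn p s hs0 hs1
    have h2 := XFLATS.near hSflat hIdx ι K Q J E Λ D hQ hR j hj n' hn' p' s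
      (by rw [← hcell]; exact hs0) (by rw [← hcell]; exact hs1)
    rw [← hcell] at h2
    have h3 := abs_sub_le (K.ht (K.pos (K.ci Q j (K.cell Q j n)) (K.tok p n)) s) (K.L s)
      (K.ht (K.pos (K.ci Q j (K.cell Q j n)) (K.tok p' n')) s)
    rw [abs_sub_comm (K.L s)] at h3
    have h4 : 8 * max (D false j) (D true j) / (Q : ℝ) ^ j =
        4 * max (D false j) (D true j) / (Q : ℝ) ^ j +
          4 * max (D false j) (D true j) / (Q : ℝ) ^ j := by ring
    rw [h4]
    linarith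
  exact ⟨hmain _ le_rfl hle, hmain _ hle le_rfl⟩

end Pool.Agent.Work.MP_e17eac_co.DH

end

section

/-!
# Consequences of flatness for the slopes
-/

namespace Pool.Agent.Work.MP_e17eac_co.DH

open Finset

namespace XFLATX

theorem key (y x y' x' r u v Δ : ℝ) (hr : 0 < r)
    (h1 : |(y + x * (u / r)) - (y' + x' * (u / r))| ≤ Δ / r)
    (h2 : |(y + x * (v / r)) - (y' + x' * (v / r))| ≤ Δ / r) :
    |x - x'| * |u - v| ≤ 2 * Δ := by
  have h3 : (x - x') * (u - v) = r * (((y + x * (u / r)) - (y' + x' * (u / r))) -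
      ((y + x * (v / r)) - (y' + x' * (v / r)))) := by
    field_simp
    ring
  rw [← abs_mul, h3, abs_mul, abs_of_pos hr]
  have h4 := abs_sub ((y + x * (u / r)) - (y' + x' * (u / r)))
    ((y + x * (v / r)) - (y' + x' * (v / r)))
  have h5 : |((y + x * (u / r)) - (y' + x' * (u / r))) -
      ((y + x * (v / r)) - (y' + x' * (v / r)))| ≤ 2 * (Δ / r) := by linarith
  calc r * |((y + x * (u / r)) - (y' + x' * (u / r))) -
      ((y + x * (v / r)) - (y' + x' * (v / r)))| ≤ r * (2 * (Δ / r)) :=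
        mul_le_mul_of_nonneg_left h5 hr.le
    _ = 2 * Δ := by field_simp

end XFLATX

theorem I_FLATX : StFlatX := by
  intro ι _ _ K Q j k Δ i i' hQ h
  have hr : (0 : ℝ) < (Q : ℝ) ^ j := by
    have : (0 : ℝ) < Q := by exact_mod_cast hQ
    positivity
  refine ⟨?_, fun k' h' => ?_⟩
  · have h1 := XFLATX.key (K.y i) (K.x i) (K.y i') (K.x i') ((Q : ℝ) ^ j) ((k : ℝ) + 1) k Δ hr
      h.2 h.1
    rwa [add_sub_cancel_left, abs_one, mul_one] at h1
  · exact XFLATX.key (K.y i) (K.x i) (K.y i') (K.x i') ((Q : ℝ) ^ j) k k' Δ hr h.1 h'.1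

end Pool.Agent.Work.MP_e17eac_co.DH

end

section

set_option autoImplicit false

namespace Pool.Agent.Work.MP_e17eac_co.DH

open Finset

namespace XFLUX1

variable {ι : Type} [Fintype ι] [DecidableEq ι]

theorem cell_lt (K : KSys ι) {Q : ℕ} (hQ : 1 ≤ Q) (j : ℕ) {n : ℕ} (h1 : K.t n < 1) :
    K.cell Q j n < Q ^ j := by
  have hQ0 : (0 : ℝ) < (Q : ℝ) ^ j := pow_pos (by exact_mod_cast hQ) j
  unfold KSys.cell
  have h2 : K.t n * (Q : ℝ) ^ j < ((Q ^ j : ℕ) : ℝ) := by
    push_cast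
    nlinarith
  have hne : Q ^ j ≠ 0 := (pow_pos hQ j).ne'
  exact (Nat.floor_lt' hne).2 h2

theorem ci_mono (hIdx : StIdx) (K : KSys ι) (Q j : ℕ) : Monotone (K.ci Q j) := by
  obtain ⟨-, -, i3, -⟩ := hIdx ι K
  intro k k' h
  unfold KSys.ci
  apply i3
  apply div_le_div_of_nonneg_right _ (by positivity)
  exact_mod_cast h

end XFLUX1

open XFLUX1

theorem I_FLUX1 (hFlux : StFlux) (hSep : StSep) (hIdx : StIdx) : StFlux1 := by
  intro ι _ _ K m Q J E Λ D hm hS hQ hR p j hj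
  have h1 := (hSep ι K m hm hS).2
  set I := E.image (fun n => (K.cell Q j n, K.tok p n)) with hI
  have h2 : ∀ z ∈ I, D p j ≤ K.disp Q j z.1 z.2 := by
    intro z hz
    rw [hI, Finset.mem_image] at hz
    obtain ⟨n, hn, rfl⟩ := hz
    exact hR.dlo p j hj n hn
  have h3 : I ⊆ (Finset.range (Q ^ j)) ×ˢ (Finset.univ : Finset ι) := by
    intro z hz
    rw [hI, Finset.mem_image] at hz
    obtain ⟨n, hn, rfl⟩ := hz
    rw [Finset.mem_product]
    exact ⟨Finset.mem_range.2 (cell_lt K hQ j (hR.sub n hn).2.2), Finset.mem_univ _⟩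
  calc (PT K Q E p j : ℝ) * D p j = ∑ z ∈ I, D p j := by
        rw [Finset.sum_const, nsmul_eq_mul]
        rfl
    _ ≤ ∑ z ∈ I, K.disp Q j z.1 z.2 := Finset.sum_le_sum h2
    _ ≤ ∑ z ∈ (Finset.range (Q ^ j)) ×ˢ (Finset.univ : Finset ι), K.disp Q j z.1 z.2 :=
        Finset.sum_le_sum_of_subset_of_nonneg h3 fun z _ _ => abs_nonneg _
    _ = ∑ τ : ι, ∑ k ∈ Finset.range (Q ^ j), K.disp Q j k τ := by
        rw [Finset.sum_product, Finset.sum_comm]
    _ ≤ ∑ τ : ι, (1 : ℝ) := by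
        refine Finset.sum_le_sum fun τ _ => ?_
        exact hFlux ι K (K.ci Q j) (ci_mono hIdx K Q j) (fun i => (hIdx ι K).2.2.2 _) τ (Q ^ j)
    _ = (Fintype.card ι : ℝ) := by
        rw [Finset.sum_const, nsmul_eq_mul, mul_one, Finset.card_univ]
    _ ≤ m + 1 := h1

end Pool.Agent.Work.MP_e17eac_co.DH

end

section

/-!
# Monotonicity of the numbers of cells, lines and tokens in the level
-/

namespace Pool.Agent.Work.MP_e17eac_co.DH

open Finset

namespace XINC

theorem im_le {α β : Type} [DecidableEq α] [DecidableEq β] (E : Finset ℕ) (f : ℕ → α) (g : ℕ → β)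
    (φ : β → α) (h : ∀ n ∈ E, f n = φ (g n)) : im E f ≤ im E g := by
  unfold im
  have h1 : E.image f ⊆ (E.image g).image φ := by
    intro a ha
    obtain ⟨n, hn, rfl⟩ := mem_image.1 ha
    exact mem_image.2 ⟨g n, mem_image_of_mem g hn, (h n hn).symm⟩
  exact (card_le_card h1).trans card_image_le

theorem im_le_mul {α β : Type} [DecidableEq α] [DecidableEq β] (E : Finset ℕ) (f : ℕ → α)
    (g : ℕ → β) (Q : ℕ) (c : ℕ → ℕ) (ψ : α → ℕ → β) (hc : ∀ n ∈ E, c n < Q)
    (h : ∀ n ∈ E, g n = ψ (f n) (c n)) : im E g ≤ Q * im E f := by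
  unfold im
  have h1 : E.image g ⊆ ((E.image f) ×ˢ (range Q)).image (fun z => ψ z.1 z.2) := by
    intro a ha
    obtain ⟨n, hn, rfl⟩ := mem_image.1 ha
    exact mem_image.2 ⟨(f n, c n), mem_product.2 ⟨mem_image_of_mem f hn, mem_range.2 (hc n hn)⟩,
      (h n hn).symm⟩
  refine (card_le_card h1).trans (card_image_le.trans ?_)
  rw [card_product, card_range, mul_comm]

variable {ι : Type} [Fintype ι] [DecidableEq ι]

theorem cell_succ (K : KSys ι) (Q j n : ℕ) (hQ : 1 ≤ Q) :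
    K.cell Q j n = K.cell Q (j + 1) n / Q := by
  unfold KSys.cell
  rw [← Nat.floor_div_natCast]
  congr 1
  have h : (Q : ℝ) ≠ 0 := by
    have : (0 : ℝ) < Q := by exact_mod_cast hQ
    exact this.ne'
  rw [pow_succ, ← mul_assoc, mul_div_assoc, div_self h, mul_one]

theorem pair_le {β : Type} [DecidableEq β] (K : KSys ι) (Q : ℕ) (E : Finset ℕ) (hQ : 1 ≤ Q)
    (b : ℕ → β) (j : ℕ) :
    im E (fun n => (K.cell Q j n, b n)) ≤ im E (fun n => (K.cell Q (j + 1) n, b n)) ∧
    im E (fun n => (K.cell Q (j + 1) n, b n)) ≤ Q * im E (fun n => (K.cell Q j n, b n)) := by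
  constructor
  · refine im_le E _ _ (fun z => (z.1 / Q, z.2)) fun n _ => ?_
    rw [cell_succ K Q j n hQ]
  · refine im_le_mul E _ _ Q (fun n => K.cell Q (j + 1) n % Q) (fun z c => (Q * z.1 + c, z.2))
      (fun n _ => Nat.mod_lt _ hQ) fun n _ => ?_
    dsimp only
    rw [cell_succ K Q j n hQ, Nat.div_add_mod]

theorem cell_le (K : KSys ι) (Q : ℕ) (E : Finset ℕ) (hQ : 1 ≤ Q) (j : ℕ) :
    im E (fun n => K.cell Q j n) ≤ im E (fun n => K.cell Q (j + 1) n) ∧
    im E (fun n => K.cell Q (j + 1) n) ≤ Q * im E (fun n => K.cell Q j n) := by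
  constructor
  · refine im_le E _ _ (fun z => z / Q) fun n _ => ?_
    rw [cell_succ K Q j n hQ]
  · refine im_le_mul E _ _ Q (fun n => K.cell Q (j + 1) n % Q) (fun z c => Q * z + c)
      (fun n _ => Nat.mod_lt _ hQ) fun n _ => ?_
    rw [cell_succ K Q j n hQ, Nat.div_add_mod]

theorem cell_pow (K : KSys ι) (Q : ℕ) (E : Finset ℕ) (hQ : 1 ≤ Q)
    (hE : ∀ n ∈ E, 0 ≤ K.t n ∧ K.t n < 1) (j : ℕ) : im E (fun n => K.cell Q j n) ≤ Q ^ j := by
  unfold im
  have h1 : E.image (fun n => K.cell Q j n) ⊆ range (Q ^ j) := by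
    intro a ha
    obtain ⟨n, hn, rfl⟩ := mem_image.1 ha
    obtain ⟨h0, h1⟩ := hE n hn
    have hq : (0 : ℝ) < (Q : ℝ) ^ j := by
      have : (0 : ℝ) < Q := by exact_mod_cast hQ
      positivity
    rw [mem_range]
    unfold KSys.cell
    rw [Nat.floor_lt (mul_nonneg h0 hq.le)]
    push_cast
    calc K.t n * (Q : ℝ) ^ j < 1 * (Q : ℝ) ^ j := mul_lt_mul_of_pos_right h1 hq
      _ = (Q : ℝ) ^ j := one_mul _
  exact (card_le_card h1).trans (by rw [card_range])

theorem pair_prod (K : KSys ι) (Q : ℕ) (E : Finset ℕ) (b : ℕ → ι) (j : ℕ) :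
    im E (fun n => (K.cell Q j n, b n)) ≤ im E (fun n => K.cell Q j n) * Fintype.card ι := by
  unfold im
  have h1 : E.image (fun n => (K.cell Q j n, b n)) ⊆
      (E.image (fun n => K.cell Q j n)) ×ˢ (univ : Finset ι) := by
    intro a ha
    obtain ⟨n, hn, rfl⟩ := mem_image.1 ha
    exact mem_product.2 ⟨mem_image_of_mem (fun n => K.cell Q j n) hn, mem_univ _⟩
  refine (card_le_card h1).trans ?_
  rw [card_product, card_univ]

end XINC

theorem I_INC : StInc := by
  intro ι _ _ K Q E hQ hE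
  have h0 : PM K Q E 0 ≤ 1 := by
    have := XINC.cell_pow K Q E hQ hE 0
    rwa [pow_zero] at this
  refine ⟨fun j => XINC.cell_le K Q E hQ j, fun s j => XINC.pair_le K Q E hQ (K.ln s) j,
    fun p j => XINC.pair_le K Q E hQ (K.tok p) j, fun j => XINC.cell_pow K Q E hQ hE j, h0,
    fun s => ?_, fun p => ?_, fun s j => XINC.pair_prod K Q E (K.ln s) j,
    fun p j => XINC.pair_prod K Q E (K.tok p) j⟩
  · refine (XINC.pair_prod K Q E (K.ln s) 0).trans ?_
    calc _ ≤ 1 * Fintype.card ι := Nat.mul_le_mul_right _ h0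
      _ = _ := one_mul _
  · refine (XINC.pair_prod K Q E (K.tok p) 0).trans ?_
    calc _ ≤ 1 * Fintype.card ι := Nat.mul_le_mul_right _ h0
      _ = _ := one_mul _

end Pool.Agent.Work.MP_e17eac_co.DH

end

section

/-!
# Popular pair of children
-/

namespace Pool.Agent.Work.MP_e17eac_co.DH

open Finset

namespace XPOP

theorem fib (Q : ℕ) (F : Finset ℕ) (g : ℕ → ℕ × ℕ)
    (hg : ∀ n ∈ F, (g n).1 < Q ∧ (g n).2 < Q) :
    ∃ w, F.card ≤ Q ^ 2 * (F.filter (fun n => g n = w)).card := by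
  by_contra hcon
  push Not at hcon
  have h1 : F.card = ∑ w ∈ range Q ×ˢ range Q, (F.filter (fun n => g n = w)).card := by
    apply Finset.card_eq_sum_card_fiberwise
    intro n hn
    have := hg n (by simpa using hn)
    simp [this.1, this.2]
  have hF : F.Nonempty := by
    rw [← card_pos]
    have := hcon (0, 0)
    omega
  obtain ⟨n0, hn0⟩ := hF
  have hQ : 0 < Q := lt_of_le_of_lt (Nat.zero_le _) (hg n0 hn0).1
  have h2 : ∑ w ∈ range Q ×ˢ range Q, Q ^ 2 * (F.filter (fun n => g n = w)).card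
      < ∑ w ∈ range Q ×ˢ range Q, F.card := by
    apply Finset.sum_lt_sum_of_nonempty
    · exact ⟨(0, 0), by simp [hQ]⟩
    · intro w _
      exact hcon w
  rw [← Finset.mul_sum, ← h1, Finset.sum_const, card_product, card_range, smul_eq_mul,
    ← pow_two] at h2
  exact lt_irrefl _ h2

end XPOP

theorem I_POP : StPop := by
  intro Q E f g _ hg
  classical
  have hex : ∀ v, ∃ w, (E.filter (fun n => f n = v)).card ≤
      Q ^ 2 * ((E.filter (fun n => f n = v)).filter (fun n => g n = w)).card := by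
    intro v
    apply XPOP.fib
    intro n hn
    exact hg n (mem_filter.1 hn).1
  choose pop hpop using hex
  refine ⟨E.filter (fun n => g n = pop (f n)), filter_subset _ _, ?_, ?_⟩
  · have h1 : E.card = ∑ v ∈ E.image f, (E.filter (fun n => f n = v)).card :=
      Finset.card_eq_sum_card_image f E
    have h2 : (E.filter (fun n => g n = pop (f n))).card = ∑ v ∈ E.image f,
        ((E.filter (fun n => g n = pop (f n))).filter (fun n => f n = v)).card := by
      apply Finset.card_eq_sum_card_fiberwise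
      intro n hn
      rw [mem_coe, mem_filter] at hn
      rw [mem_coe]
      exact mem_image_of_mem _ hn.1
    rw [h1, h2, Finset.mul_sum]
    apply Finset.sum_le_sum
    intro v _
    refine (hpop v).trans ?_
    apply Nat.mul_le_mul_left
    apply card_le_card
    intro n hn
    simp only [mem_filter] at hn ⊢
    obtain ⟨⟨h3, h4⟩, h5⟩ := hn
    exact ⟨⟨h3, by rw [h4]; exact h5⟩, h4⟩
  · intro n hn n' hn' h
    rw [(mem_filter.1 hn).2, (mem_filter.1 hn').2, h]

end Pool.Agent.Work.MP_e17eac_co.DH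

end

section

/-!
# Counting of cells with many lines, applied to lines and to start lines of tokens
-/

namespace Pool.Agent.Work.MP_e17eac_co.DH

open Finset

namespace XSTAR

variable {ι : Type} [Fintype ι] [DecidableEq ι]

theorem flat_mono (K : KSys ι) {Q j k : ℕ} {Δ Δ' : ℝ} {i i' : ι} (hQ : 1 ≤ Q) (h : Δ ≤ Δ')
    (hf : K.FlatP Q j k Δ i i') : K.FlatP Q j k Δ' i i' := by
  have hQ' : (0 : ℝ) < (Q : ℝ) ^ j := pow_pos (by exact_mod_cast hQ) j
  have h1 : Δ / (Q : ℝ) ^ j ≤ Δ' / (Q : ℝ) ^ j := div_le_div_of_nonneg_right h hQ'.le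
  exact ⟨hf.1.trans h1, hf.2.trans h1⟩

/-! the value of the pair (cell, `v`) on a fibre -/
omit [Fintype ι] in
theorem card_fib (c : ℕ → ℕ) (v : ℕ → ι) (σ : ℕ → Equiv.Perm ι) (E : Finset ℕ) (k : ℕ) :
    ((E.filter (fun n => c n = k)).image (fun n => σ k (v n))).card =
      im (E.filter (fun n => c n = k)) (fun n => (c n, v n)) := by
  unfold im
  have h1 : (E.filter (fun n => c n = k)).image (fun n => σ k (v n)) =
      ((E.filter (fun n => c n = k)).image (fun n => (c n, v n))).image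
        (fun z => σ k z.2) := by
    rw [image_image]
    rfl
  rw [h1]
  apply card_image_of_injOn
  intro z hz z' hz' hzz
  simp only [coe_image, coe_filter, Set.mem_image, Set.mem_ofPred_eq] at hz hz'
  obtain ⟨n, ⟨-, hn⟩, rfl⟩ := hz
  obtain ⟨n', ⟨-, hn'⟩, rfl⟩ := hz'
  have h2 : v n = v n' := (σ k).injective hzz
  rw [hn, hn', h2]

/-- the general form of the two claims -/
theorem gen (hCord : StCord) (hFlatX : StFlatX) (hCnt : StCnt) (K : KSys ι) (m : ℝ) (Q j : ℕ)
    (E : Finset ℕ) (Λ Dm : ℝ) (hm : 1 ≤ m) (hS : K.Sep m) (hQ : 1 ≤ Q) (hE : E.Nonempty)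
    (hΛ : 1 ≤ Λ) (ht : ∀ n ∈ E, 0 ≤ K.t n ∧ K.t n < 1) (hD1 : Dm ≤ 1) (hD2 : 1 ≤ 2 * m * Dm)
    (hM : RegF Λ E (fun n => K.cell Q j n)) (v : ℕ → ι) (σ : ℕ → Equiv.Perm ι)
    (hV : RegF Λ E (fun n => (K.cell Q j n, v n)))
    (hflat : ∀ n ∈ E, ∀ n' ∈ E, K.cell Q j n = K.cell Q j n' →
      K.FlatP Q j (K.cell Q j n) (8 * Dm) (σ (K.cell Q j n) (v n)) (σ (K.cell Q j n) (v n'))) :
    (im E (fun n => (K.cell Q j n, v n)) : ℝ) ^ 2 ≤ Λ ^ 4 * PM K Q E j *
      (2304 * (3 + j * Real.log Q) * m ^ 2 * Dm + 64 * m * Dm * PM K Q E j) := by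
  classical
  set X : ℝ := (im E (fun n => (K.cell Q j n, v n)) : ℝ) with hX
  have hX0 : 0 ≤ X := Nat.cast_nonneg _
  have hMc : PM K Q E j = (E.image (fun n => K.cell Q j n)).card := rfl
  have hM1 : 0 < PM K Q E j := by
    rw [hMc, card_pos]
    exact hE.image _
  have hM0 : (0 : ℝ) < PM K Q E j := by exact_mod_cast hM1
  have hΛ0 : (0 : ℝ) < Λ := by linarith
  have hmem : ∀ k ∈ E.image (fun n => K.cell Q j n), ∀ i,
      i ∈ (E.filter (fun n => K.cell Q j n = k)).image (fun n => σ k (v n)) →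
      ∀ i', i' ∈ (E.filter (fun n => K.cell Q j n = k)).image (fun n => σ k (v n)) →
      K.FlatP Q j k (8 * Dm) i i' := by
    intro k _ i hi i' hi'
    rw [mem_image] at hi hi'
    obtain ⟨n, hn, rfl⟩ := hi
    obtain ⟨n', hn', rfl⟩ := hi'
    rw [mem_filter] at hn hn'
    obtain ⟨hn, rfl⟩ := hn
    exact hflat n hn n' hn'.1 hn'.2.symm
  have hcord := hCord ι K m (8 * Dm) (X / (Λ ^ 2 * PM K Q E j)) (Q ^ j)
    (E.image (fun n => K.cell Q j n))
    (fun k => (E.filter (fun n => K.cell Q j n = k)).image (fun n => σ k (v n))) hm hS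
    (by linarith) (by linarith) (by positivity) ?_ ?_ ?_ ?_
  · rw [← hMc] at hcord
    have hlog : Real.log ((Q ^ j : ℕ) : ℝ) = j * Real.log Q := by
      rw [Nat.cast_pow, Real.log_pow]
    rw [hlog, div_pow] at hcord
    have h1 : (PM K Q E j : ℝ) * (X ^ 2 / (Λ ^ 2 * PM K Q E j) ^ 2) =
        X ^ 2 / (Λ ^ 4 * PM K Q E j) := by
      field_simp
    rw [h1, div_le_iff₀ (by positivity)] at hcord
    calc X ^ 2 ≤ _ := hcord
      _ = _ := by ring
  · intro k hk
    rw [mem_image] at hk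
    obtain ⟨n, hn, rfl⟩ := hk
    obtain ⟨h0, h1⟩ := ht n hn
    have hQ' : (0 : ℝ) < (Q : ℝ) ^ j := pow_pos (by exact_mod_cast hQ) j
    unfold KSys.cell
    rw [Nat.floor_lt (mul_nonneg h0 hQ'.le), Nat.cast_pow]
    calc K.t n * (Q : ℝ) ^ j < 1 * (Q : ℝ) ^ j := mul_lt_mul_of_pos_right h1 hQ'
      _ = _ := one_mul _
  · intro k hk
    rw [mem_image] at hk
    obtain ⟨n, hn, rfl⟩ := hk
    have h1 := (hCnt ℕ (ℕ × ι) Λ E (fun n => K.cell Q j n) (fun n => (K.cell Q j n, v n)) hΛ hM hV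
      (fun a _ b _ hab => congrArg Prod.fst hab) n hn).1
    rw [div_le_iff₀ (by positivity)]
    rw [card_fib (fun n => K.cell Q j n) v σ E (K.cell Q j n)]
    calc X ≤ _ := h1
      _ = _ := by
        rw [hMc]
        unfold im
        ring
  · intro k hk i hi i' hi'
    exact (hFlatX ι K Q j k (8 * Dm) i i' hQ (hmem k hk i hi i' hi')).1
  · intro k hk k' hk' _ i hi hi2 i' hi' hi2'
    exact (hFlatX ι K Q j k (8 * Dm) i i' hQ (hmem k hk i hi i' hi')).2 k'
      (hmem k' hk' i hi2 i' hi2')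

end XSTAR

open XSTAR in
theorem I_STAR (hCord : StCord) (hFlat0 : StFlat0) (hFlatS : StFlatS) (hFlatX : StFlatX)
    (hCnt : StCnt) (hInc : StInc) (hDrange : StDrange) : StStar := by
  intro ι _ _ K m Q J E Λ D hm hS hQ hR j hj
  have hm0 : (0 : ℝ) < m := by linarith
  have hd : ∀ p, D p j ≤ 1 ∧ 1 ≤ 2 * m * D p j := fun p =>
    ⟨(hDrange ι K m Q J E Λ D hm0 hS hQ hR p j hj).1,
      (hDrange ι K m Q J E Λ D hm0 hS hQ hR p j hj).2.1⟩
  have hD1 : max (D false j) (D true j) ≤ 1 := max_le (hd false).1 (hd true).1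
  have hD2 : 1 ≤ 2 * m * max (D false j) (D true j) := by
    have h1 := (hd false).2
    have h2 : 2 * m * D false j ≤ 2 * m * max (D false j) (D true j) :=
      mul_le_mul_of_nonneg_left (le_max_left _ _) (by linarith)
    linarith
  have hD0 : 0 ≤ max (D false j) (D true j) := by
    by_contra hneg
    push Not at hneg
    have h3 : 2 * m * max (D false j) (D true j) ≤ 0 :=
      mul_nonpos_of_nonneg_of_nonpos (by linarith) hneg.le
    linarith
  have ht : ∀ n ∈ E, 0 ≤ K.t n ∧ K.t n < 1 := fun n hn => (hR.sub n hn).2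
  constructor
  · intro s
    refine gen hCord hFlatX hCnt K m Q j E Λ _ hm hS hQ hR.ne hR.one_le ht hD1 hD2
      (hR.regM j hj) (K.ln s) (fun _ => 1) (hR.regL s j hj) ?_
    intro n hn n' hn' h
    exact flat_mono K hQ (by linarith) (hFlat0 ι K Q J E Λ D hQ hR j hj n hn n' hn' h s s)
  · intro p
    refine gen hCord hFlatX hCnt K m Q j E Λ _ hm hS hQ hR.ne hR.one_le ht hD1 hD2
      (hR.regM j hj) (K.tok p) (fun k => K.pos (K.ci Q j k)) (hR.regT p j hj) ?_
    intro n hn n' hn' h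
    exact hFlatS ι K Q J E Λ D hQ hR j hj n hn n' hn' h p p

end Pool.Agent.Work.MP_e17eac_co.DH

end
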