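import Pool.Agent.Work.MP_e17eac_co.Bd.B06
import Pool.Agent.Work.MP_e17eac_co.Bd.B10
import Pool.Agent.Work.MP_e17eac_co.DH.St4

/-! Bundle of small proof modules (one section per former module). -/

section

/-!
# The sum over the scales around the centre
-/

namespace Pool.Agent.Work.MP_e17eac_co.DH

open Finset

namespace XCHAIN

variable {ι : Type} [Fintype ι] [DecidableEq ι]

/-- Telescoping sum over a finite set of integers. -/
theorem sum_chain (n v : ℤ → ℝ) (C : ℝ) (S : Finset ℤ) :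
    (∀ k ∈ S, (∀ k' ∈ S, k' ≤ k) → n k ≤ C * v k) →
    (∀ k ∈ S, ∀ k' ∈ S, k < k' → n k ≤ C * (v k - v k')) →
    ∀ a ∈ S, (∀ x ∈ S, a ≤ x) → ∑ k ∈ S, n k ≤ C * v a := by
  induction S using Finset.induction_on_min with
  | empty => intro _ _ a ha; simp at ha
  | insert b s hb ih =>
    intro h1 h2 a ha hmin
    have hbs : b ∉ s := fun h => lt_irrefl _ (hb b h)
    have hab : a = b := by
      rcases Finset.mem_insert.1 ha with h | h
      · exact h
      · have e1 := hb a h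
        have e2 := hmin b (Finset.mem_insert_self _ _)
        omega
    subst hab
    rw [Finset.sum_insert hbs]
    rcases s.eq_empty_or_nonempty with hs | hs
    · subst hs
      have := h1 a (Finset.mem_insert_self _ _) (by simp)
      simpa using this
    · have hm := Finset.min'_mem s hs
      have e1 := ih (fun k hk hk' => h1 k (Finset.mem_insert_of_mem hk) (by
        intro k' hk''
        rcases Finset.mem_insert.1 hk'' with h | h
        · subst h; exact (hb k hk).le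
        · exact hk' k' h)) (fun k hk k' hk' =>
          h2 k (Finset.mem_insert_of_mem hk) k' (Finset.mem_insert_of_mem hk'))
        (s.min' hs) hm (fun x hx => Finset.min'_le s x hx)
      have e2 := h2 a (Finset.mem_insert_self _ _) (s.min' hs) (Finset.mem_insert_of_mem hm)
        (hb _ hm)
      linarith

theorem ball_sub (K : KSys ι) (c ρ c' ρ' : ℝ) (h : |c - c'| + ρ ≤ ρ') :
    K.ball c ρ ⊆ K.ball c' ρ' := by
  intro n hn
  rw [KSys.ball, Finset.mem_filter] at hn ⊢
  refine ⟨hn.1, ?_⟩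
  have := abs_sub_le (K.t n) c c'
  linarith [hn.2]

theorem vis_sub (K : KSys ι) (c ρ c' ρ' : ℝ) (h : |c - c'| + ρ ≤ ρ') :
    K.vis c ρ ⊆ K.vis c' ρ' := by
  unfold KSys.vis KSys.lines
  exact Finset.union_subset_union (Finset.image_subset_image (ball_sub K c ρ c' ρ' h))
    (Finset.image_subset_image (ball_sub K c ρ c' ρ' h))

theorem root_le {N X u y : ℝ} {B : ℝ} (hN : 0 ≤ N) (hX : N ≤ X) (hu : 0 ≤ u) (hy : 0 ≤ y)
    (hyX : y ^ 4 = X) (hB : B ≤ 27 ^ 4) (h : N ^ 3 ≤ B * u ^ 4) : N ≤ 27 * y * u := by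
  have h0 : 0 ≤ 27 * y * u := by positivity
  by_contra hc
  push Not at hc
  have h1 : (27 * y * u) ^ 4 < N ^ 4 := by gcongr
  have h2 : N ^ 4 ≤ X * (B * u ^ 4) := by
    calc N ^ 4 = N * N ^ 3 := by ring
      _ ≤ X * (B * u ^ 4) := mul_le_mul hX h (by positivity) (le_trans hN hX)
  have h3 : X * (B * u ^ 4) ≤ X * (27 ^ 4 * u ^ 4) :=
    mul_le_mul_of_nonneg_left (mul_le_mul_of_nonneg_right hB (by positivity)) (le_trans hN hX)
  have h4 : (27 * y * u) ^ 4 = X * (27 ^ 4 * u ^ 4) := by rw [← hyX]; ring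
  linarith

end XCHAIN

open XCHAIN in
theorem I_CHAIN (hFan : StFan) (hDeyI : StDeyI) (hBall : StBall) (hSep : StSep) : StChain := by
  intro ι _ _ K m H G j0 r κ j V E E3 ω hm hsep hG hH hC hω hE3 hne hdist
  have hm0 : (0 : ℝ) < m := by linarith
  have hm1 : (1 : ℝ) ≤ m := by linarith
  have hinj : Function.Injective K.x := by
    intro a b hab
    by_contra hne'
    have := hsep a b hne'
    rw [hab, sub_self, abs_zero, mul_zero] at this
    linarith
  -- the powers
  set z : ℤ → ℝ := fun k => m ^ (-2 * k) with hz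
  have zpos : ∀ k, 0 < z k := fun k => zpow_pos hm0 _
  have zsucc : ∀ k, z (k + 1) * m ^ 2 = z k := by
    intro k
    simp only [hz]
    rw [← zpow_natCast m 2, ← zpow_add₀ hm0.ne']
    congr 1
    push_cast
    ring
  have zle : ∀ k k' : ℤ, k ≤ k' → z k' ≤ z k := by
    intro k k' h
    exact zpow_le_zpow_right₀ hm1 (by omega)
  have zfar : ∀ k k' : ℤ, k + (2 * j0 + 4) ≤ k' → z k' * m ^ (4 * j0 + 8) ≤ z k := by
    intro k k' h
    simp only [hz]
    rw [← zpow_natCast m (4 * j0 + 8), ← zpow_add₀ hm0.ne']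
    apply zpow_le_zpow_right₀ hm1
    push_cast
    linarith
  have hP1 : (1 : ℝ) ≤ m ^ (4 * j) := one_le_pow₀ hm1
  set P : ℝ := m ^ (4 * j) with hP
  set c : ℝ := K.t ω with hc
  set R : ℤ → ℝ := fun k => 32 * m * (P * z k) with hR
  have Rle : ∀ k k' : ℤ, k ≤ k' → R k' ≤ R k := by
    intro k k' h
    simp only [hR]
    have := zle k k' h
    gcongr
  have Rnn : ∀ k, 0 ≤ R k := by
    intro k
    have := zpos k
    simp only [hR]
    positivity
  set v : ℤ → ℕ := fun k => (K.vis c (R k)).card with hv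
  -- (a)
  have hHv : ∀ e ∈ E3, H ≤ (v (κ e) : ℝ) := by
    intro e he
    have hz0 := zpos (κ e)
    have h1 : |K.t e - c| ≤ 24 * m * P * z (κ e) := (hdist e he).1
    have h2 : r e ≤ z (κ e) := hC.kapu e (hE3 he)
    have h3 : z (κ e) ≤ 8 * m * (P * z (κ e)) := by
      have : (1 : ℝ) ≤ 8 * m * P := by nlinarith
      nlinarith
    have hsub := vis_sub K (K.t e) (r e) c (R (κ e)) (by
      simp only [hR]
      nlinarith)
    exact le_trans (hC.heavy e (hE3 he)) (by
      simp only [hv]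
      exact_mod_cast Finset.card_le_card hsub)
  have hvV : ∀ e ∈ E3, (v (κ e) : ℝ) ≤ 2 * G * V := by
    intro e he
    have hz0 := zpos (κ e)
    have h1 : |K.t e - c| ≤ 24 * m * P * z (κ e) := (hdist e he).1
    have h2 : z (κ e + 1) < r e := hC.kapl e (hE3 he)
    have h3 := zsucc (κ e)
    have h4 : m ^ (4 * (j + 1)) = P * m ^ 4 := by
      rw [hP, ← pow_add]
      congr 1
    have h5 : m ^ 2 * (P * z (κ e)) ≤ m ^ (4 * (j + 1)) * r e := by
      rw [h4, ← h3]
      have : m ^ 2 * (P * (z (κ e + 1) * m ^ 2)) = P * m ^ 4 * z (κ e + 1) := by ring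
      rw [this]
      gcongr
    have h6 : 56 * m * (P * z (κ e)) ≤ m ^ 2 * (P * z (κ e)) := by
      have : 56 * m ≤ m ^ 2 := by nlinarith
      gcongr
    have hsub := vis_sub K c (R (κ e)) (K.t e) (m ^ (4 * (j + 1)) * r e) (by
      rw [abs_sub_comm]
      simp only [hR]
      nlinarith)
    exact le_trans (by
      simp only [hv]
      exact_mod_cast Finset.card_le_card hsub) (hC.grow e (hE3 he))
  set S : Finset ℤ := E3.image κ with hS
  have hSne : S.Nonempty := hne.image κ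
  set N : ℤ → ℕ := fun k => (E3.filter (fun n => κ n = k)).card with hN
  obtain ⟨κ0, hκ0, hmax⟩ := Finset.exists_max_image S N hSne
  refine ⟨κ0, ?_⟩
  -- edges are in the ball
  have hball : ∀ k, E3.filter (fun n => κ n = k) ⊆ K.ball c (R k) := by
    intro k n hn
    rw [Finset.mem_filter] at hn
    rw [KSys.ball, Finset.mem_filter, Finset.mem_range]
    refine ⟨hC.sub n (hE3 hn.1), ?_⟩
    have h1 : |K.t n - c| ≤ 24 * m * P * z (κ n) := (hdist n hn.1).1
    rw [hn.2] at h1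
    have hz0 := zpos k
    have : 0 ≤ m * (P * z k) := by positivity
    simp only [hR]
    linarith
  -- (b)
  have hb : ∀ k ∈ S, ∀ k' ∈ S, k < k' →
      (N k : ℝ) ^ 3 ≤ 2 ^ 19 * ((v k : ℝ) - v k') ^ 4 ∧ (0 : ℝ) ≤ (v k : ℝ) - v k' := by
    intro k hk k' hk' hkk
    obtain ⟨e', he', rfl⟩ := Finset.mem_image.1 hk'
    obtain ⟨e0, he0, hke0⟩ := Finset.mem_image.1 hk
    have hres := hC.res e0 (hE3 he0) e' (hE3 he') (by rw [hke0]; exact hkk)
    rw [hke0] at hres
    have hsub : K.vis c (R (κ e')) ⊆ K.vis c (R k) := vis_sub K _ _ _ _ (by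
      rw [sub_self, abs_zero, zero_add]
      exact Rle _ _ hkk.le)
    have hcard := Finset.card_sdiff_add_card_eq_card hsub
    have hcard' : ((K.vis c (R k) \ K.vis c (R (κ e'))).card : ℝ) = (v k : ℝ) - v (κ e') := by
      have : ((K.vis c (R k) \ K.vis c (R (κ e'))).card : ℝ) + (v (κ e') : ℝ) = (v k : ℝ) := by
        exact_mod_cast hcard
      linarith
    refine ⟨?_, by rw [← hcard']; positivity⟩
    have hfan := hFan ι K m hm1 hsep c (R (κ e')) (R k) (Rnn _)
    have hNle : N k ≤ ((K.ball c (R k)).filter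
        (fun n => 4 * m * R (κ e') < |K.t n - c|)).card := by
      apply Finset.card_le_card
      intro n hn
      rw [Finset.mem_filter]
      refine ⟨hball k hn, ?_⟩
      rw [Finset.mem_filter] at hn
      by_contra hcon
      push Not at hcon
      have hz0 := zpos k
      have hz0' := zpos (κ e')
      have hRn := Rnn (κ e')
      have hs := vis_sub K c (R (κ e')) (K.t n) (5 * m * R (κ e')) (by
        rw [abs_sub_comm]
        nlinarith)
      have hcard2 : (v (κ e') : ℝ) ≤ ((K.vis (K.t n) (5 * m * R (κ e'))).card : ℝ) := by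
        simp only [hv]
        exact_mod_cast Finset.card_le_card hs
      have hH1 := hHv e' he'
      have hrle : r n ≤ 5 * m * R (κ e') := by
        by_contra h
        push Not at h
        have := hC.light n (hE3 hn.1) _ h
        linarith
      have hkl : z (k + 1) < r n := by
        have := hC.kapl n (hE3 hn.1)
        rw [hn.2] at this
        exact this
      have hfar := zfar k (κ e') (by exact_mod_cast hres)
      have hzs := zsucc k
      -- 160 m^4 P z k' ≤ z k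
      have hpow : 160 * m ^ 4 * P ≤ m ^ (4 * j0 + 8) := by
        have hj := hC.jlt
        have e1 : m ^ (4 * j + 12) ≤ m ^ (4 * j0 + 8) := pow_le_pow_right₀ hm1 (by omega)
        have e2 : m ^ (4 * j + 12) = P * m ^ 4 * m ^ 8 := by
          rw [hP, ← pow_add, ← pow_add]
        have e3 : (160 : ℝ) ≤ m ^ 8 := by
          calc (160 : ℝ) ≤ 100 ^ 8 := by norm_num
            _ ≤ m ^ 8 := by gcongr
        have e4 : P * m ^ 4 * 160 ≤ P * m ^ 4 * m ^ 8 := by gcongr
        linarith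
      have h1 : 160 * m ^ 4 * P * z (κ e') ≤ z k := by
        calc 160 * m ^ 4 * P * z (κ e') ≤ m ^ (4 * j0 + 8) * z (κ e') := by gcongr
          _ = z (κ e') * m ^ (4 * j0 + 8) := by ring
          _ ≤ z k := hfar
      have h2 : (5 * m * R (κ e')) * m ^ 2 = 160 * m ^ 4 * P * z (κ e') := by
        simp only [hR]
        ring
      have h3 : (5 * m * R (κ e')) * m ^ 2 ≤ z (k + 1) * m ^ 2 := by
        rw [h2, hzs]
        exact h1
      have h4 : 5 * m * R (κ e') ≤ z (k + 1) := le_of_mul_le_mul_right h3 (by positivity)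
      linarith
    calc (N k : ℝ) ^ 3 ≤ (((K.ball c (R k)).filter
        (fun n => 4 * m * R (κ e') < |K.t n - c|)).card : ℝ) ^ 3 := by
          have : (N k : ℝ) ≤ (((K.ball c (R k)).filter
            (fun n => 4 * m * R (κ e') < |K.t n - c|)).card : ℝ) := by exact_mod_cast hNle
          gcongr
      _ ≤ 2 ^ 19 * ((K.vis c (R k) \ K.vis c (R (κ e'))).card : ℝ) ^ 4 := by exact_mod_cast hfan
      _ = 2 ^ 19 * ((v k : ℝ) - v (κ e')) ^ 4 := by rw [hcard']
  -- (c)
  have hlast : ∀ k, (N k : ℝ) ^ 3 ≤ 4096 * (v k : ℝ) ^ 4 := by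
    intro k
    obtain ⟨p, q, hq, hpq⟩ := hBall ι K c (R k)
    have hd := hDeyI ι K hinj p q hq
    have h1 : N k ≤ (Ico p q).card := by
      rw [← hpq]
      exact Finset.card_le_card (hball k)
    have h2 : (K.lines (Ico p q)).card = v k := by
      rw [← hpq]
      rfl
    rw [h2] at hd
    have h3 : N k ^ 3 ≤ 4096 * v k ^ 4 := le_trans (Nat.pow_le_pow_left h1 3) hd
    exact_mod_cast h3
  -- the root
  set X : ℝ := (N κ0 : ℝ) with hX
  have hX0 : 0 ≤ X := by positivity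
  set y : ℝ := Real.sqrt (Real.sqrt X) with hy
  have hy0 : 0 ≤ y := Real.sqrt_nonneg _
  have hy4 : y ^ 4 = X := by
    have e1 : y ^ 2 = Real.sqrt X := Real.sq_sqrt (Real.sqrt_nonneg _)
    have e2 : (Real.sqrt X) ^ 2 = X := Real.sq_sqrt hX0
    calc y ^ 4 = (y ^ 2) ^ 2 := by ring
      _ = X := by rw [e1, e2]
  have hNX : ∀ k ∈ S, (N k : ℝ) ≤ X := fun k hk => by
    have := hmax k hk
    rw [hX]
    exact_mod_cast this
  have hsum := sum_chain (fun k => (N k : ℝ)) (fun k => (v k : ℝ)) (27 * y) S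
    (fun k hk _ => root_le (by positivity) (hNX k hk) (by positivity) hy0 hy4 (by norm_num)
      (hlast k))
    (fun k hk k' hk' hkk => root_le (by positivity) (hNX k hk) (hb k hk k' hk' hkk).2 hy0 hy4
      (by norm_num) (hb k hk k' hk' hkk).1)
    (S.min' hSne) (Finset.min'_mem S hSne) (fun x hx => Finset.min'_le S x hx)
  obtain ⟨e1, he1, hke1⟩ := Finset.mem_image.1 (Finset.min'_mem S hSne)
  have hV := hvV e1 he1
  rw [hke1] at hV
  have hcard : (E3.card : ℝ) = ∑ k ∈ S, (N k : ℝ) := by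
    have := Finset.card_eq_sum_card_image κ E3
    rw [this]
    push_cast
    rfl
  have hfin : (E3.card : ℝ) ≤ 54 * G * V * y := by
    rw [hcard]
    calc ∑ k ∈ S, (N k : ℝ) ≤ 27 * y * (v (S.min' hSne) : ℝ) := hsum
      _ ≤ 27 * y * (2 * G * V) := by gcongr
      _ = 54 * G * V * y := by ring
  calc (E3.card : ℝ) ^ 4 ≤ (54 * G * V * y) ^ 4 := by gcongr
    _ = (54 * G * V) ^ 4 * X := by rw [mul_pow, hy4]

end Pool.Agent.Work.MP_e17eac_co.DH

end

section

set_option autoImplicit false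

namespace Pool.Agent.Work.MP_e17eac_co.DH

open Finset

namespace XCRIT

variable {ι : Type} [Fintype ι] [DecidableEq ι]

theorem mem_ball (K : KSys ι) (c ρ : ℝ) (k : ℕ) :
    k ∈ K.ball c ρ ↔ k < K.N ∧ |K.t k - c| ≤ ρ := by
  unfold KSys.ball
  rw [Finset.mem_filter, Finset.mem_range]

/-- the critical radius of one edge -/
theorem one (K : KSys ι) (H : ℝ) (h2 : 2 < H) (hH : H ≤ (K.lines (range K.N)).card)
    (n : ℕ) (hn : n < K.N) :
    ∃ r : ℝ, 0 < r ∧ H ≤ (K.vis (K.t n) r).card ∧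
      ∀ ρ, ρ < r → ((K.vis (K.t n) ρ).card : ℝ) < H := by
  classical
  have hne : (range K.N).Nonempty := ⟨n, Finset.mem_range.2 hn⟩
  obtain ⟨k1, hk1, hmax⟩ := Finset.exists_max_image (range K.N)
    (fun k => |K.t k - K.t n|) hne
  have hball : K.ball (K.t n) |K.t k1 - K.t n| = range K.N := by
    ext k
    rw [mem_ball, Finset.mem_range]
    exact ⟨fun h => h.1, fun h => ⟨h, hmax k (Finset.mem_range.2 h)⟩⟩
  obtain ⟨A, hA⟩ : ∃ A, A = (range K.N).filter
    (fun k => H ≤ ((K.vis (K.t n) |K.t k - K.t n|).card : ℝ)) := ⟨_, rfl⟩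
  have hAne : A.Nonempty := by
    refine ⟨k1, ?_⟩
    rw [hA, Finset.mem_filter]
    refine ⟨hk1, ?_⟩
    unfold KSys.vis
    rw [hball]
    exact hH
  obtain ⟨k0, hk0, hmin⟩ := Finset.exists_min_image A (fun k => |K.t k - K.t n|) hAne
  have hk0' := hk0
  rw [hA, Finset.mem_filter] at hk0'
  refine ⟨|K.t k0 - K.t n|, ?_, hk0'.2, ?_⟩
  · rcases (abs_nonneg (K.t k0 - K.t n)).lt_or_eq with h | h
    · exact h
    exfalso
    have h3 := hk0'.2
    rw [← h] at h3
    have h4 : K.ball (K.t n) 0 ⊆ {n} := by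
      intro k hk
      rw [mem_ball] at hk
      rw [Finset.mem_singleton]
      have h5 : K.t k = K.t n := by
        have h6 := le_antisymm hk.2 (abs_nonneg _)
        have h7 := abs_eq_zero.1 h6
        linarith
      rcases lt_trichotomy k n with h6 | h6 | h6
      · exact absurd h5 (K.t_lt k n h6 hn).ne
      · exact h6
      · exact absurd h5 (K.t_lt n k h6 hk.1).ne'
    have h5 : K.vis (K.t n) 0 ⊆ {K.a n, K.b n} := by
      intro i hi
      unfold KSys.vis KSys.lines at hi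
      rw [Finset.mem_union, Finset.mem_image, Finset.mem_image] at hi
      rw [Finset.mem_insert, Finset.mem_singleton]
      rcases hi with ⟨k, hk, rfl⟩ | ⟨k, hk, rfl⟩
      · exact Or.inl (by rw [Finset.mem_singleton.1 (h4 hk)])
      · exact Or.inr (by rw [Finset.mem_singleton.1 (h4 hk)])
    have h6 : (K.vis (K.t n) 0).card ≤ 2 :=
      (Finset.card_le_card h5).trans Finset.card_le_two
    have h7 : ((K.vis (K.t n) 0).card : ℝ) ≤ 2 := by exact_mod_cast h6
    linarith
  · intro ρ hρ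
    by_contra h3
    push Not at h3
    have h4 : (K.ball (K.t n) ρ).Nonempty := by
      rw [Finset.nonempty_iff_ne_empty]
      intro h5
      unfold KSys.vis KSys.lines at h3
      rw [h5] at h3
      simp at h3
      linarith
    obtain ⟨k2, hk2, hmax2⟩ := Finset.exists_max_image _ (fun k => |K.t k - K.t n|) h4
    rw [mem_ball] at hk2
    have h5 : K.ball (K.t n) |K.t k2 - K.t n| = K.ball (K.t n) ρ := by
      ext k
      constructor
      · intro h
        rw [mem_ball] at h ⊢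
        exact ⟨h.1, h.2.trans hk2.2⟩
      · intro h
        have h6 := hmax2 k h
        rw [mem_ball] at h ⊢
        exact ⟨h.1, h6⟩
    have h6 : k2 ∈ A := by
      rw [hA, Finset.mem_filter]
      refine ⟨Finset.mem_range.2 hk2.1, ?_⟩
      unfold KSys.vis
      rw [h5]
      exact h3
    have h7 := hmin k2 h6
    exact absurd (lt_of_le_of_lt (h7.trans hk2.2) hρ) (lt_irrefl _)

end XCRIT

theorem I_CRIT : StCrit := by
  intro ι _ _ K H h2 hH
  have h := XCRIT.one K H h2 hH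
  choose! r hr using h
  exact ⟨r, hr⟩

end Pool.Agent.Work.MP_e17eac_co.DH

end

section

/-!
# Item DESC: the descent
-/

namespace Pool.Agent.Work.MP_e17eac_co.DH

open Finset

namespace XDESC

/-- The final computation. -/
theorem final {N e e3 e1 m G V lg a b : ℝ} (hN0 : 0 ≤ N) (he : 0 ≤ e) (he1 : 0 ≤ e1)
    (hm : 0 ≤ m) (hG : 0 ≤ G) (hV : 0 < V) (hlg : 0 ≤ lg) (ha : 0 ≤ a) (hb : 0 ≤ b)
    (h1 : N ≤ a * b * (2 + 2 * lg) * e) (h2 : e * V ≤ 6 * m * e3)
    (h3 : e3 ^ 4 ≤ (54 * G * V) ^ 4 * e1) :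
    N ^ 4 ≤ (2000 * a * b * (1 + lg) * m * G) ^ 4 * e1 := by
  have h4 : (e * V) ^ 4 ≤ (6 * m * e3) ^ 4 := pow_le_pow_left₀ (by positivity) h2 4
  have h5 : e ^ 4 * V ^ 4 ≤ ((324 * m * G) ^ 4 * e1) * V ^ 4 := by
    calc e ^ 4 * V ^ 4 = (e * V) ^ 4 := by ring
      _ ≤ (6 * m * e3) ^ 4 := h4
      _ = (6 * m) ^ 4 * e3 ^ 4 := by ring
      _ ≤ (6 * m) ^ 4 * ((54 * G * V) ^ 4 * e1) := by
          apply mul_le_mul_of_nonneg_left h3; positivity
      _ = ((324 * m * G) ^ 4 * e1) * V ^ 4 := by ring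
  have h6 : e ^ 4 ≤ (324 * m * G) ^ 4 * e1 := le_of_mul_le_mul_right h5 (by positivity)
  have h7 : N ^ 4 ≤ (a * b * (2 + 2 * lg) * e) ^ 4 := pow_le_pow_left₀ hN0 h1 4
  calc N ^ 4 ≤ (a * b * (2 + 2 * lg) * e) ^ 4 := h7
    _ = (a * b * (2 + 2 * lg)) ^ 4 * e ^ 4 := by ring
    _ ≤ (a * b * (2 + 2 * lg)) ^ 4 * ((324 * m * G) ^ 4 * e1) := by
        apply mul_le_mul_of_nonneg_left h6; positivity
    _ = (648 * a * b * (1 + lg) * m * G) ^ 4 * e1 := by ring
    _ ≤ (2000 * a * b * (1 + lg) * m * G) ^ 4 * e1 := by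
        apply mul_le_mul_of_nonneg_right _ he1
        apply pow_le_pow_left₀ (by positivity)
        gcongr
        norm_num

/-- The small radius is smaller than the critical radius. -/
theorem small {m : ℝ} (hm : 100 ≤ m) {j j0 : ℕ} (hj : j < j0) (κ : ℤ) :
    24 * m * m ^ (4 * j) * m ^ (-2 * κ) / m ^ (4 * j0 + 1) ≤ m ^ (-2 * (κ + 1)) := by
  have hm0 : 0 < m := by linarith
  have h1 : m ^ (-2 * (κ + 1)) = m ^ (-2 * κ) / m ^ 2 := by
    have : -2 * (κ + 1) = -2 * κ - 2 := by ring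
    rw [this, zpow_sub₀ hm0.ne']
    norm_cast
  have h2 : m ^ (4 * j) * m ^ 5 ≤ m ^ (4 * j0 + 1) := by
    rw [← pow_add]
    exact pow_le_pow_right₀ (by linarith) (by omega)
  rw [h1, div_le_div_iff₀ (by positivity) (by positivity)]
  have h3 : 24 * m * m ^ (4 * j) * m ^ 2 ≤ m ^ (4 * j) * m ^ 5 := by
    have h4 : 24 * m ^ 3 ≤ m ^ 5 := by
      have : 24 ≤ m ^ 2 := by nlinarith
      calc 24 * m ^ 3 ≤ m ^ 2 * m ^ 3 := by
            apply mul_le_mul_of_nonneg_right this; positivity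
        _ = m ^ 5 := by ring
    calc 24 * m * m ^ (4 * j) * m ^ 2 = m ^ (4 * j) * (24 * m ^ 3) := by ring
      _ ≤ m ^ (4 * j) * m ^ 5 := by
          apply mul_le_mul_of_nonneg_left h4; positivity
  have hz : 0 < m ^ (-2 * κ) := zpow_pos hm0 _
  calc 24 * m * m ^ (4 * j) * m ^ (-2 * κ) * m ^ 2
      = m ^ (-2 * κ) * (24 * m * m ^ (4 * j) * m ^ 2) := by ring
    _ ≤ m ^ (-2 * κ) * m ^ (4 * j0 + 1) := by
        apply mul_le_mul_of_nonneg_left (h3.trans h2) hz.le

end XDESC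

theorem I_DESC (hCrit : StCrit) (hPig : StPig) (hTerm : StTerm) (hChain : StChain) : StDesc := by
  intro ι _ _ K m H G j0 hm hSep hG hj0 hH hcard hlines
  have hm0 : 0 < m := by linarith
  have hsq : 10 ≤ Real.sqrt m := by
    rw [show (10 : ℝ) = Real.sqrt 100 by
      rw [show (100 : ℝ) = 10 ^ 2 by norm_num, Real.sqrt_sq (by norm_num)]]
    exact Real.sqrt_le_sqrt hm
  have hH2 : 2 < H := by nlinarith
  have hN : 0 < K.N := by
    rcases Nat.eq_zero_or_pos K.N with h | h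
    · rw [h] at hlines
      simp [KSys.lines] at hlines
      linarith
    · exact h
  obtain ⟨r, hr⟩ := hCrit ι K H hH2 hlines
  obtain ⟨κ, j, V, E, hEne, hCD, hNE⟩ :=
    hPig ι K m H G j0 r (by linarith) hSep hG hj0 hH2 hcard hN hr
  obtain ⟨ω, hω, E3, hE3E, hE3c, hE3⟩ := hTerm ι K m H G j0 r κ j V E hm hSep hG hH hCD hEne
  have hV : 0 < V := by have := hCD.HV; linarith
  have hE0 : (0 : ℝ) < E.card := by exact_mod_cast hEne.card_pos
  have hE30 : (0 : ℝ) < E3.card := by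
    by_contra h
    have h0 : (0 : ℝ) < E.card * V := by positivity
    have h1 : (E3.card : ℝ) ≤ 0 := not_lt.mp h
    nlinarith
  have hE3ne : E3.Nonempty := by
    rw [← Finset.card_pos]
    exact_mod_cast hE30
  obtain ⟨κ0, hκ0⟩ :=
    hChain ι K m H G j0 r κ j V E E3 ω hm hSep hG (by linarith) hCD hω hE3E hE3ne hE3
  refine ⟨K.t ω, 24 * m * m ^ (4 * j) * m ^ (-2 * κ0), E3.filter (fun n => κ n = κ0),
    by positivity, ?_, ?_⟩
  · intro n hn
    rw [Finset.mem_filter] at hn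
    obtain ⟨hn3, hnκ⟩ := hn
    have hnE := hE3E hn3
    refine ⟨hCD.sub n hnE, ?_, ?_⟩
    · have := (hE3 n hn3).1
      rwa [hnκ] at this
    · apply hCD.light n hnE
      have h1 := hCD.kapl n hnE
      rw [hnκ] at h1
      exact lt_of_le_of_lt (XDESC.small hm hCD.jlt κ0) h1
  · have hlg : 0 ≤ Real.log m := Real.log_nonneg (by linarith)
    exact XDESC.final (Nat.cast_nonneg _) hE0.le (Nat.cast_nonneg _) hm0.le (by linarith) hV hlg
      (Nat.cast_nonneg _) (by positivity) hNE hE3c hκ0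

end Pool.Agent.Work.MP_e17eac_co.DH

end

section

namespace Pool.Agent.Work.MP_e17eac_co.DH

theorem I_EXP : StExp := fun _ _ _ _ _ _ _ _ h => expData_absurd h

end Pool.Agent.Work.MP_e17eac_co.DH

end

section

/-!
# Pigeonhole: growth step, dyadic class, residue class
-/

namespace Pool.Agent.Work.MP_e17eac_co.DH

open Finset

namespace XPIG

theorem vis_mono {ι : Type} [Fintype ι] [DecidableEq ι] (K : KSys ι) (c ρ ρ' : ℝ)
    (h : ρ ≤ ρ') : K.vis c ρ ⊆ K.vis c ρ' := by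
  have hb : K.ball c ρ ⊆ K.ball c ρ' := by
    intro n hn
    unfold KSys.ball at hn ⊢
    rw [Finset.mem_filter] at hn ⊢
    exact ⟨hn.1, hn.2.trans h⟩
  unfold KSys.vis KSys.lines
  exact Finset.union_subset_union (Finset.image_subset_image hb) (Finset.image_subset_image hb)

/-- A sequence that never grows by at most the factor `G` is large. -/
theorem growth (v : ℕ → ℕ) (G H C : ℝ) (j0 : ℕ) (hG : 1 ≤ G) (hj0 : 1 ≤ j0) (hH : 0 < H)
    (h0 : H ≤ v 0) (hC : C ≤ H * G ^ j0) (hv : (v j0 : ℝ) ≤ C) :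
    ∃ j, j < j0 ∧ (v (j + 1) : ℝ) ≤ G * v j := by
  by_contra hcon
  push Not at hcon
  have key : ∀ j, j ≤ j0 → H * G ^ j ≤ v j := by
    intro j
    induction j with
    | zero => intro _; simpa using h0
    | succ j ih =>
      intro hj
      have h1 := ih (by omega)
      have h2 := hcon j (by omega)
      calc H * G ^ (j + 1) = G * (H * G ^ j) := by ring
        _ ≤ G * v j := mul_le_mul_of_nonneg_left h1 (by linarith)
        _ ≤ v (j + 1) := h2.le
  obtain ⟨i, rfl⟩ : ∃ i, j0 = i + 1 := ⟨j0 - 1, by omega⟩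
  have h1 := key i (by omega)
  have h2 := hcon i (by omega)
  have h3 : H * G ^ (i + 1) ≤ G * v i := by
    calc H * G ^ (i + 1) = G * (H * G ^ i) := by ring
      _ ≤ G * v i := mul_le_mul_of_nonneg_left h1 (by linarith)
  linarith

theorem exists_kap (m r : ℝ) (hm : 2 ≤ m) (hr : 0 < r) :
    ∃ k : ℤ, m ^ (-2 * (k + 1)) < r ∧ r ≤ m ^ (-2 * k) := by
  have hm0 : m ≠ 0 := by linarith
  obtain ⟨n, hn⟩ := exists_mem_Ioc_zpow (x := r) (y := m ^ (2 : ℤ)) hr (by
    have : m ^ (2 : ℤ) = m ^ 2 := by norm_cast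
    rw [this]
    nlinarith)
  refine ⟨-(n + 1), ?_, ?_⟩
  · have h1 := hn.1
    rw [← zpow_mul] at h1
    have e : (-2 * (-(n + 1) + 1) : ℤ) = 2 * n := by ring
    rw [e]
    exact h1
  · have h1 := hn.2
    rw [← zpow_mul] at h1
    have e : (-2 * (-(n + 1)) : ℤ) = 2 * (n + 1) := by ring
    rw [e]
    exact h1

theorem log_bd (m : ℝ) (hm : 2 ≤ m) (c : ℕ) (hc : 0 < c) (h : (c : ℝ) ≤ m + 1) :
    ((Nat.log 2 c : ℝ) + 1) ≤ 2 + 2 * Real.log m := by
  have hl2 : (0.69 : ℝ) < Real.log 2 := by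
    have := Real.log_two_gt_d9
    linarith
  have hlm : Real.log 2 ≤ Real.log m := Real.log_le_log (by norm_num) hm
  have h1 : (2 : ℝ) ^ (Nat.log 2 c) ≤ c := by
    exact_mod_cast Nat.pow_log_le_self 2 hc.ne'
  have h2 : (Nat.log 2 c : ℝ) * Real.log 2 ≤ Real.log c := by
    rw [← Real.log_pow]
    exact Real.log_le_log (by positivity) h1
  have h3 : Real.log c ≤ Real.log (m + 1) := Real.log_le_log (by exact_mod_cast hc) h
  have h5 : Real.log (m + 1) ≤ Real.log m + 1 / 2 := by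
    have h6 : Real.log (m + 1) = Real.log m + Real.log (1 + 1 / m) := by
      rw [← Real.log_mul (by linarith) (by positivity)]
      congr 1
      field_simp
    have h7 : Real.log (1 + 1 / m) ≤ 1 / m := by
      have := Real.log_le_sub_one_of_pos (show (0 : ℝ) < 1 + 1 / m by positivity)
      linarith
    have h8 : 1 / m ≤ 1 / 2 := one_div_le_one_div_of_le (by norm_num) hm
    linarith
  have h8 : (0 : ℝ) ≤ (Nat.log 2 c : ℝ) := Nat.cast_nonneg _
  have h7 : (Nat.log 2 c : ℝ) * 0.69 ≤ Real.log m + 1 / 2 := by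
    nlinarith
  linarith

end XPIG

theorem I_PIG (hSep : StSep) : StPig := by
  intro ι _ _ K m H G j0 r hm hs hG hj0 hH hcard hN hr
  have hm0 : 0 < m := by linarith
  have hlm0 : 0 ≤ Real.log m := Real.log_nonneg (by linarith)
  -- the growth step
  have hvmono : ∀ n, n < K.N → ∀ i i', i ≤ i' →
      (K.vis (K.t n) (m ^ (4 * i) * r n)).card ≤ (K.vis (K.t n) (m ^ (4 * i') * r n)).card := by
    intro n hn i i' hii
    apply Finset.card_le_card
    apply XPIG.vis_mono
    apply mul_le_mul_of_nonneg_right _ (hr n hn).1.le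
    exact pow_le_pow_right₀ (by linarith) (by omega)
  have hv0 : ∀ n, n < K.N → H ≤ (K.vis (K.t n) (m ^ (4 * 0) * r n)).card := by
    intro n hn
    have := (hr n hn).2.1
    simpa using this
  have hj : ∀ n, ∃ j, n < K.N → j < j0 ∧
      ((K.vis (K.t n) (m ^ (4 * (j + 1)) * r n)).card : ℝ) ≤
        G * (K.vis (K.t n) (m ^ (4 * j) * r n)).card := by
    intro n
    by_cases hn : n < K.N
    · obtain ⟨j, h1, h2⟩ := XPIG.growth
        (fun i => (K.vis (K.t n) (m ^ (4 * i) * r n)).card) G H (Fintype.card ι) j0 hG hj0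
        (by linarith) (hv0 n hn) hcard (by exact_mod_cast Finset.card_le_univ _)
      exact ⟨j, fun _ => ⟨h1, h2⟩⟩
    · exact ⟨0, fun h => absurd h hn⟩
  choose jj hjj using hj
  have hk : ∀ n, ∃ k : ℤ, n < K.N → m ^ (-2 * (k + 1)) < r n ∧ r n ≤ m ^ (-2 * k) := by
    intro n
    by_cases hn : n < K.N
    · obtain ⟨k, h⟩ := XPIG.exists_kap m (r n) hm (hr n hn).1
      exact ⟨k, fun _ => h⟩
    · exact ⟨0, fun h => absurd h hn⟩
  choose κ hκ using hk
  -- the classes
  let f : ℕ → ℕ × ℕ × ℕ := fun n =>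
    (jj n, Nat.log 2 (K.vis (K.t n) (m ^ (4 * jj n) * r n)).card,
      (κ n % (2 * (j0 : ℤ) + 4)).toNat)
  let T : Finset (ℕ × ℕ × ℕ) :=
    range j0 ×ˢ (range (Nat.log 2 (Fintype.card ι) + 1) ×ˢ range (2 * j0 + 4))
  have hmaps : ∀ n ∈ range K.N, f n ∈ T := by
    intro n hn
    rw [Finset.mem_range] at hn
    simp only [f, T, Finset.mem_product, Finset.mem_range]
    refine ⟨(hjj n hn).1, ?_, ?_⟩
    · have : Nat.log 2 (K.vis (K.t n) (m ^ (4 * jj n) * r n)).card ≤
        Nat.log 2 (Fintype.card ι) := Nat.log_mono_right (Finset.card_le_univ _)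
      omega
    · have h1 : 0 ≤ κ n % (2 * (j0 : ℤ) + 4) := Int.emod_nonneg _ (by omega)
      have h2 : κ n % (2 * (j0 : ℤ) + 4) < 2 * (j0 : ℤ) + 4 := Int.emod_lt_of_pos _ (by omega)
      omega
  have hTcard : T.card = j0 * ((Nat.log 2 (Fintype.card ι) + 1) * (2 * j0 + 4)) := by
    simp [T]
  have hTne : T.Nonempty := ⟨f 0, hmaps 0 (Finset.mem_range.mpr hN)⟩
  have hTpos : (0 : ℝ) < T.card := by exact_mod_cast Finset.card_pos.mpr hTne
  obtain ⟨y, hyT, hy⟩ := Finset.exists_le_card_fiber_of_nsmul_le_card_of_maps_to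
    (b := (K.N : ℝ) / T.card) hmaps hTne (by
      rw [nsmul_eq_mul, Finset.card_range]
      apply le_of_eq
      field_simp)
  set E : Finset ℕ := (range K.N).filter (fun n => f n = y) with hEdef
  have hNE : (K.N : ℝ) ≤ T.card * E.card := by
    rw [div_le_iff₀ hTpos] at hy
    linarith
  have hEcard : 0 < E.card := by
    by_contra hcon
    have h0 : E.card = 0 := by omega
    rw [h0] at hNE
    have : (0 : ℝ) < K.N := by exact_mod_cast hN
    simp at hNE
    omega
  have hEne : E.Nonempty := Finset.card_pos.mp hEcard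
  have hEN : ∀ n ∈ E, n < K.N := fun n hn => Finset.mem_range.mp (Finset.mem_filter.mp hn).1
  have hEj : ∀ n ∈ E, jj n = y.1 := fun n hn => by
    have := (Finset.mem_filter.mp hn).2
    rw [← this]
  have hEw : ∀ n ∈ E, Nat.log 2 (K.vis (K.t n) (m ^ (4 * y.1) * r n)).card = y.2.1 :=
    fun n hn => by
      have h1 := hEj n hn
      have := (Finset.mem_filter.mp hn).2
      rw [← h1, ← this]
  have hEr : ∀ n ∈ E, (κ n % (2 * (j0 : ℤ) + 4)).toNat = y.2.2 := fun n hn => by
    have := (Finset.mem_filter.mp hn).2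
    rw [← this]
  have hpos : ∀ n ∈ E, (K.vis (K.t n) (m ^ (4 * y.1) * r n)).card ≠ 0 := by
    intro n hn h0
    have h1 := hvmono n (hEN n hn) 0 y.1 (Nat.zero_le _)
    have h2 := hv0 n (hEN n hn)
    rw [h0] at h1
    have h3 : (K.vis (K.t n) (m ^ (4 * 0) * r n)).card = 0 := by omega
    rw [h3] at h2
    simp at h2
    linarith
  have hlo : ∀ n ∈ E, (2 : ℝ) ^ y.2.1 ≤ (K.vis (K.t n) (m ^ (4 * y.1) * r n)).card := by
    intro n hn
    rw [← hEw n hn]
    exact_mod_cast Nat.pow_log_le_self 2 (hpos n hn)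
  have hup : ∀ n ∈ E, ((K.vis (K.t n) (m ^ (4 * y.1) * r n)).card : ℝ) ≤ 2 * 2 ^ y.2.1 := by
    intro n hn
    have h1 : (K.vis (K.t n) (m ^ (4 * y.1) * r n)).card <
        2 ^ (Nat.log 2 (K.vis (K.t n) (m ^ (4 * y.1) * r n)).card + 1) :=
      Nat.lt_pow_succ_log_self (by norm_num) _
    rw [hEw n hn] at h1
    have h2 : ((K.vis (K.t n) (m ^ (4 * y.1) * r n)).card : ℝ) ≤ ((2 ^ (y.2.1 + 1) : ℕ) : ℝ) := by
      exact_mod_cast h1.le
    rw [pow_succ] at h2
    push_cast at h2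
    linarith
  refine ⟨κ, y.1, 2 ^ y.2.1, E, hEne, ?_, ?_⟩
  · refine ⟨hEN, ?_, ?_, ?_, ?_, ?_, ?_, ?_, hlo, ?_, ?_⟩
    · have := (Finset.mem_product.mp hyT).1
      exact Finset.mem_range.mp this
    · intro n hn
      exact (hr n (hEN n hn)).1
    · intro n hn
      exact (hr n (hEN n hn)).2.1
    · intro n hn
      exact (hr n (hEN n hn)).2.2
    · intro n hn
      exact (hκ n (hEN n hn)).1
    · intro n hn
      exact (hκ n (hEN n hn)).2
    · intro n hn n' hn' hlt
      have h1 := hEr n hn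
      have h2 := hEr n' hn'
      have a1 : 0 ≤ κ n % (2 * (j0 : ℤ) + 4) := Int.emod_nonneg _ (by omega)
      have a2 : 0 ≤ κ n' % (2 * (j0 : ℤ) + 4) := Int.emod_nonneg _ (by omega)
      have h3 : κ n' % (2 * (j0 : ℤ) + 4) = κ n % (2 * (j0 : ℤ) + 4) := by omega
      have h4 : (2 * (j0 : ℤ) + 4) ∣ κ n' - κ n := Int.ModEq.dvd h3.symm
      have h5 := Int.le_of_dvd (by omega) h4
      omega
    · intro n hn
      have h1 := (hjj n (hEN n hn)).2
      rw [hEj n hn] at h1
      have h2 := hup n hn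
      calc ((K.vis (K.t n) (m ^ (4 * (y.1 + 1)) * r n)).card : ℝ)
          ≤ G * (K.vis (K.t n) (m ^ (4 * y.1) * r n)).card := h1
        _ ≤ G * (2 * 2 ^ y.2.1) := mul_le_mul_of_nonneg_left h2 (by linarith)
        _ = 2 * G * 2 ^ y.2.1 := by ring
    · obtain ⟨n, hn⟩ := hEne
      have h1 := hvmono n (hEN n hn) 0 y.1 (Nat.zero_le _)
      have h2 := hv0 n (hEN n hn)
      have h3 := hup n hn
      have h4 : ((K.vis (K.t n) (m ^ (4 * 0) * r n)).card : ℝ) ≤
          (K.vis (K.t n) (m ^ (4 * y.1) * r n)).card := by exact_mod_cast h1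
      linarith
  · have hcm := (hSep ι K m hm0 hs).2
    have hcpos : 0 < Fintype.card ι := Fintype.card_pos_iff.mpr ⟨K.a 0⟩
    have hW := XPIG.log_bd m hm (Fintype.card ι) hcpos hcm
    rw [hTcard] at hNE
    push_cast at hNE
    have h0 : (0 : ℝ) ≤ E.card := Nat.cast_nonneg _
    have hj0' : (0 : ℝ) ≤ j0 := Nat.cast_nonneg _
    calc (K.N : ℝ) ≤ (j0 : ℝ) * (((Nat.log 2 (Fintype.card ι) : ℝ) + 1) * (2 * j0 + 4)) * E.card :=
          hNE
      _ = ((j0 : ℝ) * (2 * j0 + 4) * E.card) * ((Nat.log 2 (Fintype.card ι) : ℝ) + 1) := by ring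
      _ ≤ ((j0 : ℝ) * (2 * j0 + 4) * E.card) * (2 + 2 * Real.log m) :=
          mul_le_mul_of_nonneg_left hW (by positivity)
      _ = j0 * (2 * j0 + 4) * (2 + 2 * Real.log m) * E.card := by ring

end Pool.Agent.Work.MP_e17eac_co.DH

end

section

/-! MP_e17eac, project DH, item RESC: rescaling the time. -/

namespace Pool.Agent.Work.MP_e17eac_co.DH

namespace XRESC

theorem abs_iff (t c R s ρ : ℝ) (hR : 0 < R) :
    |(t - c) / R - s| ≤ ρ ↔ |t - (c + R * s)| ≤ R * ρ := by
  have h : (t - c) / R - s = (t - (c + R * s)) / R := by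
    field_simp
    ring
  rw [h, abs_div, abs_of_pos hR, div_le_iff₀ hR, mul_comm ρ R]

end XRESC

theorem I_RESC : StResc := by
  intro ι _ _ K c R hR
  refine ⟨fun s ρ => ?_, fun m h => h⟩
  have h : (K.resc c R hR).ball s ρ = K.ball (c + R * s) (R * ρ) := by
    unfold KSys.ball
    ext n
    simp only [Finset.mem_filter, Finset.mem_range]
    refine and_congr Iff.rfl ?_
    exact XRESC.abs_iff (K.t n) c R s ρ hR
  unfold KSys.vis
  rw [h]
  rfl

end Pool.Agent.Work.MP_e17eac_co.DH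

end

section

/-!
MP_e17eac_co, block DH, item TERM: choice of a centre.
-/

namespace Pool.Agent.Work.MP_e17eac_co.DH

open Finset

namespace XTERM

section lines

variable {ι : Type} [Fintype ι] [DecidableEq ι]

theorem mem_vis (hLeq : StLeq) (K : KSys ι) (c ρ : ℝ) (l : ι) (hl : l ∈ K.vis c ρ) :
    ∃ k, k < K.N ∧ |K.t k - c| ≤ ρ ∧ K.ht l (K.t k) = K.h k := by
  unfold KSys.vis KSys.lines at hl
  rw [mem_union, mem_image, mem_image] at hl
  rcases hl with ⟨k, hk, rfl⟩ | ⟨k, hk, rfl⟩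
  · have hk' : k < K.N ∧ |K.t k - c| ≤ ρ := by simpa [KSys.ball] using hk
    exact ⟨k, hk'.1, hk'.2, (hLeq ι K k hk'.1).2.1⟩
  · have hk' : k < K.N ∧ |K.t k - c| ≤ ρ := by simpa [KSys.ball] using hk
    exact ⟨k, hk'.1, hk'.2, (hLeq ι K k hk'.1).2.2.1⟩

theorem slope_lt (hLip : StLip) (K : KSys ι) (k k' : ℕ) (h : k < k') (hk' : k' < K.N) :
    ∃ lam : ℝ, 0 ≤ lam ∧ lam ≤ 1 ∧ K.h k' - K.h k = lam * (K.t k' - K.t k) := by
  obtain ⟨h1, h2⟩ := hLip ι K k k' h.le hk'
  have ht : 0 < K.t k' - K.t k := sub_pos.2 (K.t_lt k k' h hk')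
  refine ⟨(K.h k' - K.h k) / (K.t k' - K.t k), div_nonneg h1 ht.le, ?_, ?_⟩
  · rw [div_le_one ht]
    exact h2
  · rw [div_mul_cancel₀ _ ht.ne']

theorem slope (hLip : StLip) (K : KSys ι) (k k' : ℕ) (hk : k < K.N) (hk' : k' < K.N) :
    ∃ lam : ℝ, 0 ≤ lam ∧ lam ≤ 1 ∧ K.h k - K.h k' = lam * (K.t k - K.t k') := by
  rcases lt_trichotomy k k' with h | h | h
  · obtain ⟨lam, h0, h1, h2⟩ := slope_lt hLip K k k' h hk'
    exact ⟨lam, h0, h1, by linarith⟩
  · exact ⟨0, le_rfl, zero_le_one, by rw [h]; ring⟩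
  · exact slope_lt hLip K k' k h hk

theorem close (hLip : StLip) (hLeq : StLeq) (K : KSys ι) (c ρ : ℝ) (l l' : ι)
    (hl : l ∈ K.vis c ρ) (hl' : l' ∈ K.vis c ρ) : |K.ht l c - K.ht l' c| ≤ 2 * ρ := by
  obtain ⟨k, hk, hkc, hkh⟩ := mem_vis hLeq K c ρ l hl
  obtain ⟨k', hk', hkc', hkh'⟩ := mem_vis hLeq K c ρ l' hl'
  obtain ⟨lam, h0, h1, he⟩ := slope hLip K k k' hk hk'
  have e : K.ht l c - K.ht l' c =
      (K.x l - lam) * (c - K.t k) + (lam - K.x l') * (c - K.t k') := by
    unfold KSys.ht at *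
    linear_combination hkh - hkh' + he
  rw [e]
  have a1 : |K.x l - lam| ≤ 1 := abs_le.2 ⟨by linarith [K.x_nonneg l], by linarith [K.x_le_one l]⟩
  have a2 : |lam - K.x l'| ≤ 1 :=
    abs_le.2 ⟨by linarith [K.x_le_one l'], by linarith [K.x_nonneg l']⟩
  rw [abs_sub_comm] at hkc hkc'
  calc |(K.x l - lam) * (c - K.t k) + (lam - K.x l') * (c - K.t k')|
      ≤ |(K.x l - lam) * (c - K.t k)| + |(lam - K.x l') * (c - K.t k')| := abs_add_le _ _
    _ = |K.x l - lam| * |c - K.t k| + |lam - K.x l'| * |c - K.t k'| := by rw [abs_mul, abs_mul]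
    _ ≤ 1 * ρ + 1 * ρ := add_le_add (mul_le_mul a1 hkc (abs_nonneg _) zero_le_one)
        (mul_le_mul a2 hkc' (abs_nonneg _) zero_le_one)
    _ = 2 * ρ := by ring

theorem inter (hLip : StLip) (hLeq : StLeq) (K : KSys ι) (m : ℝ) (hm : 0 < m) (hS : K.Sep m)
    (c c' ρ ρ' M : ℝ) (h : ρ ≤ M) (h' : ρ' ≤ M) (hM : 0 ≤ M) (hd : 8 * m * M < |c - c'|) :
    (K.vis c ρ ∩ K.vis c' ρ').card ≤ 1 := by
  rw [card_le_one]
  intro l hl l' hl'
  rw [mem_inter] at hl hl'
  by_contra hne
  have h1 := close hLip hLeq K c ρ l l' hl.1 hl'.1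
  have h2 := close hLip hLeq K c' ρ' l l' hl.2 hl'.2
  have h3 := hS l l' hne
  have e : (K.x l - K.x l') * (c - c') =
      (K.ht l c - K.ht l' c) + -(K.ht l c' - K.ht l' c') := by
    unfold KSys.ht
    ring
  have h4 : |K.x l - K.x l'| * |c - c'| ≤ 4 * M := by
    rw [← abs_mul, e]
    refine (abs_add_le _ _).trans ?_
    rw [abs_neg]
    linarith
  have h5 : |c - c'| ≤ m * |K.x l - K.x l'| * |c - c'| := by
    have := mul_le_mul_of_nonneg_right h3 (abs_nonneg (c - c'))
    linarith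
  have h6 : m * (|K.x l - K.x l'| * |c - c'|) ≤ m * (4 * M) := mul_le_mul_of_nonneg_left h4 hm.le
  have h7 : 0 ≤ m * M := mul_nonneg hm.le hM
  rw [← mul_assoc] at h6
  linarith

end lines

theorem bonf {α β : Type} [DecidableEq α] [DecidableEq β] (s : Finset α) (A : α → Finset β)
    (h : ∀ i ∈ s, ∀ j ∈ s, i ≠ j → (A i ∩ A j).card ≤ 1) :
    2 * ∑ i ∈ s, (A i).card ≤ 2 * (s.biUnion A).card + s.card * s.card := by
  induction s using Finset.induction_on with
  | empty => simp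
  | insert a s ha ih =>
    have ih' := ih (fun i hi j hj hij => h i (mem_insert_of_mem hi) j (mem_insert_of_mem hj) hij)
    rw [sum_insert ha, biUnion_insert, card_insert_of_notMem ha]
    have h1 : (A a ∪ s.biUnion A).card + (A a ∩ s.biUnion A).card =
        (A a).card + (s.biUnion A).card := card_union_add_card_inter _ _
    have h2 : (A a ∩ s.biUnion A).card ≤ s.card := by
      rw [inter_biUnion]
      refine card_biUnion_le.trans ?_
      calc ∑ i ∈ s, (A a ∩ A i).card ≤ ∑ _i ∈ s, 1 := by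
            apply sum_le_sum
            intro i hi
            apply h a (mem_insert_self _ _) i (mem_insert_of_mem hi)
            rintro rfl
            exact ha hi
        _ = s.card := by simp
    nlinarith

theorem terminal (E : Finset ℕ) (κ : ℕ → ℤ) (R : ℤ → ℝ) (t : ℕ → ℝ) (hR0 : ∀ k, 0 ≤ R k)
    (hRh : ∀ n ∈ E, ∀ n' ∈ E, κ n < κ n' → 2 * R (κ n') ≤ R (κ n)) (k : ℕ) :
    ∀ e ∈ E, (E.filter (fun n => κ e < κ n)).card = k →
      ∃ w ∈ E, (∀ n' ∈ E, κ w < κ n' → R (κ w) < |t w - t n'|) ∧ κ e ≤ κ w ∧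
        |t e - t w| ≤ 2 * R (κ e) := by
  induction k using Nat.strong_induction_on with
  | _ k ih =>
    intro e he hk
    by_cases hT : ∀ n' ∈ E, κ e < κ n' → R (κ e) < |t e - t n'|
    · refine ⟨e, he, hT, le_rfl, ?_⟩
      rw [sub_self, abs_zero]
      linarith [hR0 (κ e)]
    · push Not at hT
      obtain ⟨n', hn', h1, h2⟩ := hT
      have hlt : (E.filter (fun n => κ n' < κ n)).card < k := by
        rw [← hk]
        apply card_lt_card
        rw [ssubset_iff_of_subset]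
        · exact ⟨n', mem_filter.2 ⟨hn', h1⟩, fun hh => lt_irrefl _ (mem_filter.1 hh).2⟩
        · intro n hn
          rw [mem_filter] at hn ⊢
          exact ⟨hn.1, h1.trans hn.2⟩
      obtain ⟨w, hw, hT', h3, h4⟩ := ih _ hlt n' hn' rfl
      refine ⟨w, hw, hT', h1.le.trans h3, ?_⟩
      have h6 := hRh e he n' hn' h1
      have h5 : |t e - t w| ≤ |t e - t n'| + |t n' - t w| := abs_sub_le _ _ _
      linarith

/-- Pairwise separated set. -/
def Net (P : ℕ → ℕ → Prop) (U : Finset ℕ) : Prop := ∀ w ∈ U, ∀ w' ∈ U, w ≠ w' → P w w'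

open Classical in
theorem net (T : Finset ℕ) (P : ℕ → ℕ → Prop) (hP : ∀ a b, P a b → P b a) :
    ∃ Om ⊆ T, (∀ w ∈ Om, ∀ w' ∈ Om, w ≠ w' → P w w') ∧
      ∀ w ∈ T, w ∈ Om ∨ ∃ w' ∈ Om, ¬ P w w' := by
  obtain ⟨Om, hOm, hmax⟩ := exists_max_image
    (T.powerset.filter (fun U => Net P U)) Finset.card
    ⟨∅, mem_filter.2 ⟨empty_mem_powerset _, fun w hw => absurd hw (notMem_empty w)⟩⟩
  rw [mem_filter, mem_powerset] at hOm
  refine ⟨Om, hOm.1, hOm.2, ?_⟩
  intro w hw
  by_contra hc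
  push Not at hc
  have h1 := hmax (insert w Om) (by
    rw [mem_filter, mem_powerset]
    refine ⟨insert_subset hw hOm.1, ?_⟩
    intro u hu u' hu' huu
    rw [mem_insert] at hu hu'
    rcases hu with rfl | hu
    · rcases hu' with rfl | hu'
      · exact absurd rfl huu
      · exact hc.2 u' hu'
    · rcases hu' with rfl | hu'
      · exact hP _ _ (hc.2 u hu)
      · exact hOm.2 u hu u' hu' huu)
  rw [card_insert_of_notMem hc.1] at h1
  omega

theorem count (m V : ℝ) (hm : 100 ≤ m) (hV : 5 * Real.sqrt m ≤ V) {ι : Type} [Fintype ι]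
    [DecidableEq ι] (hι : (Fintype.card ι : ℝ) ≤ m + 1) (Om : Finset ℕ) (A : ℕ → Finset ι)
    (hA : ∀ w ∈ Om, V ≤ (A w).card)
    (h : ∀ i ∈ Om, ∀ j ∈ Om, i ≠ j → (A i ∩ A j).card ≤ 1) : (Om.card : ℝ) * V ≤ 6 * m := by
  have hm0 : 0 < m := by linarith
  have hs : 0 < Real.sqrt m := Real.sqrt_pos.2 hm0
  have hss : Real.sqrt m * Real.sqrt m = m := Real.mul_self_sqrt hm0.le
  have hs10 : 10 ≤ Real.sqrt m := by
    rw [show (10 : ℝ) = Real.sqrt (10 ^ 2) by rw [Real.sqrt_sq (by norm_num)]]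
    exact Real.sqrt_le_sqrt (by norm_num; exact hm)
  have hV0 : 0 < V := by linarith
  by_contra hc
  rw [not_le] at hc
  have hcV : 6 * m / V < Om.card := by rwa [div_lt_iff₀ hV0]
  have h4 : 4 * m / V ≤ 0.8 * Real.sqrt m := by
    rw [div_le_iff₀ hV0]
    nlinarith
  have hle : ⌈4 * m / V⌉₊ ≤ Om.card := by
    apply Nat.ceil_le.2
    refine le_trans ?_ hcV.le
    apply div_le_div_of_nonneg_right _ hV0.le
    linarith
  obtain ⟨U, hU, hUc⟩ := exists_subset_card_eq hle
  have hb := bonf U A (fun i hi j hj hij => h i (hU hi) j (hU hj) hij)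
  have hu1 : 4 * m ≤ U.card * V := by
    rw [hUc, ← div_le_iff₀ hV0]
    exact Nat.le_ceil _
  have hu2 : (U.card : ℝ) ≤ Real.sqrt m := by
    rw [hUc]
    have := Nat.ceil_lt_add_one (show 0 ≤ 4 * m / V by positivity)
    linarith
  have hsum : (U.card : ℝ) * V ≤ ∑ i ∈ U, ((A i).card : ℝ) := by
    have := card_nsmul_le_sum U (fun i => ((A i).card : ℝ)) V (fun i hi => hA i (hU hi))
    rwa [nsmul_eq_mul] at this
  have hun : ((U.biUnion A).card : ℝ) ≤ m + 1 := by
    refine le_trans ?_ hι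
    exact_mod_cast card_le_univ _
  have hb' : 2 * ∑ i ∈ U, ((A i).card : ℝ) ≤ 2 * ((U.biUnion A).card : ℝ) +
      (U.card : ℝ) * (U.card : ℝ) := by exact_mod_cast hb
  have hu3 : (U.card : ℝ) * (U.card : ℝ) ≤ m := by
    rw [← hss]
    exact mul_le_mul hu2 hu2 (Nat.cast_nonneg _) hs.le
  linarith

end XTERM

theorem I_TERM (hLip : StLip) (hLeq : StLeq) (hSep : StSep) (hBall : StBall) : StTerm := by
  classical
  intro ι _ _ K m H G j0 r κ j V E hm hS hG hH hC hE
  have hm0 : 0 < m := by linarith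
  have hm1 : (1 : ℝ) ≤ m := by linarith
  have hs : 0 < Real.sqrt m := Real.sqrt_pos.2 hm0
  have hV : 5 * Real.sqrt m ≤ V := by linarith [hC.HV]
  have hV0 : 0 < V := by linarith
  -- the radii
  set rad : ℤ → ℝ := fun k => m ^ (4 * j) * m ^ (-2 * k) with hrad
  have hrad0 : ∀ k, 0 < rad k := fun k => mul_pos (pow_pos hm0 _) (zpow_pos hm0 _)
  have hanti : ∀ k k', k ≤ k' → rad k' ≤ rad k := by
    intro k k' hk
    apply mul_le_mul_of_nonneg_left _ (pow_pos hm0 _).le
    exact zpow_le_zpow_right₀ hm1 (by omega)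
  have hhalf : ∀ k k', k < k' → 2 * rad k' ≤ rad k := by
    intro k k' hk
    have h1 : rad k' ≤ rad (k + 1) := hanti _ _ (by omega)
    have h2 : rad k = m ^ 2 * rad (k + 1) := by
      simp only [hrad]
      rw [show (-2 * k : ℤ) = 2 + (-2 * (k + 1)) by ring, zpow_add₀ hm0.ne']
      rw [show (m ^ (2 : ℤ) : ℝ) = m ^ 2 by norm_cast]
      ring
    have h3 := hrad0 (k + 1)
    have h4 : (2 : ℝ) ≤ m ^ 2 := by nlinarith
    nlinarith
  set R : ℤ → ℝ := fun k => 8 * m * rad k with hRdef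
  have hR0 : ∀ k, 0 ≤ R k := fun k => by
    have := (hrad0 k).le
    simp only [hRdef]
    positivity
  have hRh : ∀ n ∈ E, ∀ n' ∈ E, κ n < κ n' → 2 * R (κ n') ≤ R (κ n) := by
    intro n _ n' _ h
    have h1 := hhalf _ _ h
    simp only [hRdef]
    nlinarith
  -- terminal edges
  set T : Finset ℕ := E.filter (fun w => ∀ n' ∈ E, κ w < κ n' → R (κ w) < |K.t w - K.t n'|)
    with hT
  obtain ⟨Om, hOmT, hOm1, hOm2⟩ := XTERM.net T
    (fun w w' => κ w = κ w' → R (κ w) < |K.t w - K.t w'|) (by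
      intro a b h hab
      rw [abs_sub_comm, hab]
      exact h hab.symm)
  have hOmE : ∀ w ∈ Om, w ∈ E := fun w hw => (mem_filter.1 (hOmT hw)).1
  have hsep : ∀ w ∈ Om, ∀ w' ∈ Om, w ≠ w' →
      R (κ w) < |K.t w - K.t w'| ∧ R (κ w') < |K.t w - K.t w'| := by
    intro w hw w' hw' hne
    rcases lt_trichotomy (κ w) (κ w') with h | h | h
    · have h1 := (mem_filter.1 (hOmT hw)).2 w' (hOmE w' hw') h
      refine ⟨h1, lt_of_le_of_lt ?_ h1⟩
      have := hRh w (hOmE w hw) w' (hOmE w' hw') h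
      linarith [hR0 (κ w')]
    · have h1 := hOm1 w hw w' hw' hne h
      exact ⟨h1, by rw [← h]; exact h1⟩
    · have h1 := (mem_filter.1 (hOmT hw')).2 w (hOmE w hw) h
      rw [abs_sub_comm] at h1
      refine ⟨lt_of_le_of_lt ?_ h1, h1⟩
      have := hRh w' (hOmE w' hw') w (hOmE w hw) h
      linarith [hR0 (κ w)]
  have hcard : (Om.card : ℝ) * V ≤ 6 * m := by
    refine XTERM.count m V hm hV (hSep ι K m hm0 hS).2 Om
      (fun n => K.vis (K.t n) (m ^ (4 * j) * r n)) (fun w hw => hC.Vlo w (hOmE w hw)) ?_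
    intro w hw w' hw' hne
    obtain ⟨h1, h2⟩ := hsep w hw w' hw' hne
    have hr : ∀ n ∈ E, m ^ (4 * j) * r n ≤ rad (κ n) := fun n hn =>
      mul_le_mul_of_nonneg_left (hC.kapu n hn) (pow_pos hm0 _).le
    apply XTERM.inter hLip hLeq K m hm0 hS _ _ _ _ (max (rad (κ w)) (rad (κ w')))
      ((hr w (hOmE w hw)).trans (le_max_left _ _)) ((hr w' (hOmE w' hw')).trans (le_max_right _ _))
      ((hrad0 _).le.trans (le_max_left _ _))
    rcases max_choice (rad (κ w)) (rad (κ w')) with h | h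
    · rw [h]; exact h1
    · rw [h]; exact h2
  -- every edge is close to a centre
  have hcl : ∀ e ∈ E, ∃ w ∈ Om, |K.t e - K.t w| ≤ 24 * m * rad (κ e) ∧ κ e ≤ κ w := by
    intro e he
    obtain ⟨w, hw, hwT, h1, h2⟩ := XTERM.terminal E κ R K.t hR0 hRh _ e he rfl
    have hwT' : w ∈ T := mem_filter.2 ⟨hw, hwT⟩
    have hRe : R (κ w) ≤ R (κ e) := by
      simp only [hRdef]
      exact mul_le_mul_of_nonneg_left (hanti _ _ h1) (by positivity)
    have hR3 : 24 * m * rad (κ e) = 3 * R (κ e) := by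
      simp only [hRdef]
      ring
    rcases hOm2 w hwT' with h | ⟨w', hw', h⟩
    · refine ⟨w, h, ?_, h1⟩
      rw [hR3]
      linarith [hR0 (κ e)]
    · push Not at h
      obtain ⟨h3, h4⟩ := h
      refine ⟨w', hw', ?_, by rw [← h3]; exact h1⟩
      have h5 : |K.t e - K.t w'| ≤ |K.t e - K.t w| + |K.t w - K.t w'| := abs_sub_le _ _ _
      rw [hR3]
      linarith
  choose! f hf1 hf2 hf3 using hcl
  -- pigeonhole
  have hOmne : Om.Nonempty := by
    obtain ⟨e, he⟩ := hE
    exact ⟨f e, hf1 e he⟩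
  obtain ⟨ω, hω, hωmax⟩ := exists_max_image Om (fun w => (E.filter (fun n => f n = w)).card) hOmne
  refine ⟨ω, hOmE ω hω, E.filter (fun n => f n = ω), filter_subset _ _, ?_, ?_⟩
  · have h1 : E.card = ∑ w ∈ Om, (E.filter (fun n => f n = w)).card :=
      card_eq_sum_card_fiberwise (fun n hn => hf1 n hn)
    have h2 : E.card ≤ Om.card * (E.filter (fun n => f n = ω)).card := by
      rw [h1, ← smul_eq_mul]
      exact sum_le_card_nsmul _ _ _ hωmax
    have h3 : (E.card : ℝ) ≤ Om.card * ((E.filter (fun n => f n = ω)).card : ℝ) := by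
      exact_mod_cast h2
    calc (E.card : ℝ) * V ≤ (Om.card * ((E.filter (fun n => f n = ω)).card : ℝ)) * V :=
          mul_le_mul_of_nonneg_right h3 hV0.le
      _ = (Om.card * V) * ((E.filter (fun n => f n = ω)).card : ℝ) := by ring
      _ ≤ (6 * m) * ((E.filter (fun n => f n = ω)).card : ℝ) :=
          mul_le_mul_of_nonneg_right hcard (Nat.cast_nonneg _)
      _ = 6 * m * ((E.filter (fun n => f n = ω)).card : ℝ) := by ring
  · intro n hn
    rw [mem_filter] at hn
    obtain ⟨hnE, rfl⟩ := hn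
    refine ⟨?_, hf3 n hnE⟩
    have := hf2 n hnE
    simp only [hrad] at this
    linarith

end Pool.Agent.Work.MP_e17eac_co.DH

end

section

/-!
MP_e17eac_co, block DH, item A2: the bound of Dey in logarithmic form.
-/

namespace Pool.Agent.Work.MP_e17eac_co.DH

open Finset

namespace XA2

variable {ι : Type} [Fintype ι] [DecidableEq ι]

theorem log_card (K : KSys ι) (m : ℝ) (Q J : ℕ) (E : Finset ℕ) (Λ : ℝ) (D : Bool → ℕ → ℝ) (W : ℝ)
    (h : Asm K m Q J E Λ D W) : (4 / 3) * Real.log m - Real.log W ≤ Real.log E.card := by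
  have hm : 0 < m := by linarith [h.hm]
  have hE : 0 < (E.card : ℝ) := by exact_mod_cast h.reg.ne.card_pos
  have hW : 0 < W := by linarith [h.hW]
  have h1 := Real.log_le_log (Real.rpow_pos_of_pos hm _) h.big
  rw [Real.log_rpow hm, Real.log_mul hW.ne' hE.ne'] at h1
  linarith

theorem log16 : Real.log 16 ≤ 2.78 := by
  rw [show (16 : ℝ) = 2 ^ 4 by norm_num, Real.log_pow]
  have := Real.log_two_lt_d9
  norm_num
  linarith

theorem log2048 : Real.log 2048 ≤ 7.7 := by
  rw [show (2048 : ℝ) = 2 ^ 11 by norm_num, Real.log_pow]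
  have := Real.log_two_lt_d9
  norm_num
  linarith

theorem cond (hA0 : StA0) (K : KSys ι) (m : ℝ) (Q J : ℕ) (E : Finset ℕ) (Λ : ℝ)
    (D : Bool → ℕ → ℝ) (W : ℝ) (h : Asm K m Q J E Λ D W) (s : Bool) (j : ℕ) (hj : j ≤ J) :
    16 * Λ ^ 3 * PL K Q E s j ≤ E.card := by
  obtain ⟨hQ, hΛ, hW, hl, _, hPL, _, _⟩ := hA0 ι K m Q J E Λ D W h
  obtain ⟨h1, h2⟩ := hPL s j hj
  have hE : 0 < (E.card : ℝ) := by exact_mod_cast h.reg.ne.card_pos
  have hΛ0 : 0 < Λ := by linarith [h.reg.one_le]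
  have hP : 0 < (PL K Q E s j : ℝ) := by exact_mod_cast h1
  rw [← Real.log_le_log_iff (by positivity) hE, Real.log_mul (by positivity) hP.ne',
    Real.log_mul (by norm_num) (by positivity), Real.log_pow]
  have h3 := log_card K m Q J E Λ D W h
  have h4 := log16
  have h5 := h.he
  have h6 := h.hmQ
  unfold lA at h2
  unfold eL at h5
  push_cast
  linarith

theorem dey (hDey2 : StDey2) (hA0 : StA0) (K : KSys ι) (m : ℝ) (Q J : ℕ) (E : Finset ℕ) (Λ : ℝ)
    (D : Bool → ℕ → ℝ) (W : ℝ) (h : Asm K m Q J E Λ D W) (j : ℕ) (hj : j ≤ J) :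
    lM K Q E j ≤ lA K m Q E false j + lA K m Q E true j + lT K m Q E false j +
      lT K m Q E true j + (7.7 + 11 * Real.log Λ + 3 * Real.log W) := by
  obtain ⟨hQ, hΛ, hW, hl, hPM, hPL, hPT, _⟩ := hA0 ι K m Q J E Λ D W h
  have hm : 0 < m := by linarith [h.hm]
  have hE : 0 < (E.card : ℝ) := by exact_mod_cast h.reg.ne.card_pos
  have hΛ0 : 0 < Λ := by linarith [h.reg.one_le]
  have hM : 0 < (PM K Q E j : ℝ) := by exact_mod_cast (hPM j hj).1
  have hLf : 0 < (PL K Q E false j : ℝ) := by exact_mod_cast (hPL false j hj).1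
  have hLt : 0 < (PL K Q E true j : ℝ) := by exact_mod_cast (hPL true j hj).1
  have hTf : 0 < (PT K Q E false j : ℝ) := by exact_mod_cast (hPT false j hj)
  have hTt : 0 < (PT K Q E true j : ℝ) := by exact_mod_cast (hPT true j hj)
  have h1 := hDey2 ι K m Q J E Λ D hm h.sep (by linarith [h.hQ]) h.reg j hj
    (cond hA0 K m Q J E Λ D W h false j hj) (cond hA0 K m Q J E Λ D W h true j hj)
  have h2 := Real.log_le_log (by positivity) h1
  rw [Real.log_mul hM.ne' (by positivity), Real.log_pow, Real.log_mul (by positivity)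
    (by positivity), Real.log_mul (by norm_num) (by positivity), Real.log_pow,
    Real.log_mul (by positivity) (by positivity), Real.log_mul hLf.ne' hLt.ne',
    Real.log_mul hTf.ne' hTt.ne'] at h2
  have h3 := log_card K m Q J E Λ D W h
  have h4 := log2048
  unfold lM lA lT
  push_cast at h2
  linarith

end XA2

theorem I_A2 (hDey2 : StDey2) (hInc : StInc) (hSep : StSep) (hA0 : StA0) (hA1 : StA1) : StA2 := by
  intro ι _ _ K m Q J E Λ D W h
  obtain ⟨hQ, hΛ, hW, hl, hPM, hPL, hPT, _⟩ := hA0 ι K m Q J E Λ D W h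
  have hm2 : 2 ≤ m := h.hm
  have hm : 0 < m := by linarith
  have hd := fun j hj => XA2.dey hDey2 hA0 K m Q J E Λ D W h j hj
  have hcard : (Fintype.card ι : ℝ) ≤ m + 1 := (hSep ι K m hm h.sep).2
  have hlog : Real.log (m + 1) ≤ Real.log m + 1 / 2 := by
    have h1 : m + 1 = m * ((m + 1) / m) := by field_simp
    have h2 : 0 < (m + 1) / m := by positivity
    rw [h1, Real.log_mul hm.ne' h2.ne']
    have h3 := Real.log_le_sub_one_of_pos h2
    have h4 : (m + 1) / m - 1 ≤ 1 / 2 := by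
      rw [sub_le_iff_le_add, div_le_iff₀ hm]
      linarith
    linarith
  obtain ⟨_, _, _, _, _, hL0, hT0, _, _⟩ := hInc ι K Q E (by linarith [h.hQ])
    (fun n hn => (h.reg.sub n hn).2)
  have hup : ∀ x : ℕ, 1 ≤ x → x ≤ Fintype.card ι → Real.log x - Real.log m ≤ 1 / 2 := by
    intro x hx1 hx2
    have h1 : (x : ℝ) ≤ m + 1 := le_trans (by exact_mod_cast hx2) hcard
    have h2 := Real.log_le_log (by exact_mod_cast hx1) h1
    linarith
  have hAu : ∀ s, lA K m Q E s 0 ≤ 1 / 2 := fun s =>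
    hup _ (hPL s 0 (Nat.zero_le _)).1 (hL0 s)
  have hTu : ∀ p, lT K m Q E p 0 ≤ 1 / 2 := fun p =>
    hup _ (hPT p 0 (Nat.zero_le _)) (hT0 p)
  have hM0 : 0 ≤ lM K Q E 0 := (hPM 0 (Nat.zero_le _)).2.2.2
  have hd0 := hd 0 (Nat.zero_le _)
  have hf1 := hAu false
  have hf2 := hAu true
  have hf3 := hTu false
  have hf4 := hTu true
  refine ⟨fun s => ?_, fun p => ?_, fun j hj => ?_⟩
  · unfold eL
    cases s <;> linarith
  · unfold eL
    cases p <;> linarith
  · have h1 := hd j hj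
    unfold eL
    linarith

end Pool.Agent.Work.MP_e17eac_co.DH

end

section

/-!
# Slots in logarithmic form
-/

namespace Pool.Agent.Work.MP_e17eac_co.DH

open Finset

namespace XA7

theorem log_max (a b : ℝ) (ha : 0 < a) (hb : 0 < b) :
    Real.log (max a b) = -min (-Real.log a) (-Real.log b) := by
  rcases le_total a b with h | h
  · rw [max_eq_right h, min_eq_right (neg_le_neg (Real.log_le_log ha h)), neg_neg]
  · rw [max_eq_left h, min_eq_left (neg_le_neg (Real.log_le_log hb h)), neg_neg]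

theorem log_const : Real.log 4352 ≤ 13 := by
  have h1 : Real.log 4352 ≤ Real.log ((2 : ℝ) ^ 13) :=
    Real.log_le_log (by norm_num) (by norm_num)
  rw [Real.log_pow] at h1
  have h2 := Real.log_two_lt_d9
  push_cast at h1
  linarith

theorem log_six : Real.log 6 ≤ 5 := by
  have h1 := Real.log_le_sub_one_of_pos (show (0 : ℝ) < 6 by norm_num)
  linarith

end XA7

theorem I_A7 (hSlot : StSlot) (hA0 : StA0) : StA7 := by
  intro ι _ _ K m Q J E Λ D W hA s i j l hij hjl hlJ hi hl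
  obtain ⟨hlQ, hlΛ, hlW, hl3, hPM, hPL, hPT, hD⟩ := hA0 ι K m Q J E Λ D W hA
  have hjJ : j ≤ J := hjl.trans hlJ
  have hiJ : i ≤ J := hij.trans hjJ
  have hm0 : (0 : ℝ) < m := by have := hA.hm; linarith
  have hQ0 : (0 : ℝ) < Q := by
    have : (2 : ℝ) ≤ Q := by exact_mod_cast hA.hQ
    linarith
  have hΛ0 : (0 : ℝ) < Λ := by have := hA.reg.one_le; linarith
  have he := hA.he
  obtain ⟨hDf, -, -⟩ := hD false j hjJ
  obtain ⟨hDt, -, -⟩ := hD true j hjJ
  obtain ⟨hDl, -, -⟩ := hD false l hlJ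
  have hDf2 := (hD false j hjJ).2.2
  set Dm := max (D false j) (D true j) with hDm
  have hDm0 : 0 < Dm := lt_max_of_lt_left hDf
  have hlDm : Real.log Dm = -min (lD D false j) (lD D true j) :=
    XA7.log_max _ _ hDf hDt
  set μ := min (lD D false j) (lD D true j) with hμ
  -- positivity of the counts
  have hPLpos : ∀ j, j ≤ J → (0 : ℝ) < PL K Q E s j := fun j hj => by
    have := (hPL s j hj).1
    exact_mod_cast this
  have hPTpos : ∀ j, j ≤ J → (0 : ℝ) < PT K Q E false j := fun j hj => by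
    have := hPT false j hj
    exact_mod_cast this
  have hPMpos : (0 : ℝ) < PM K Q E j := by
    have := (hPM j hjJ).1
    exact_mod_cast this
  have heL : 30 + 13 * Real.log Λ ≤ eL Λ W Q J := by
    unfold eL
    linarith
  -- first hypothesis
  have h1 : 6 * Λ ^ 4 * PL K Q E s 0 ≤ (PL K Q E s i : ℝ) := by
    have hp0 := hPLpos 0 (Nat.zero_le _)
    have hpi := hPLpos i hiJ
    have hlog : Real.log (6 * Λ ^ 4 * PL K Q E s 0) ≤ Real.log (PL K Q E s i) := by
      rw [Real.log_mul (by positivity) hp0.ne', Real.log_mul (by norm_num) (by positivity),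
        Real.log_pow]
      unfold lA at hi
      have h6 := XA7.log_six
      push_cast
      linarith
    exact (Real.log_le_log_iff (by positivity) hpi).1 hlog
  -- second hypothesis
  have hcast : ((j - i : ℕ) : ℝ) = (j : ℝ) - i := Nat.cast_sub hij
  have h2 : D false l ≤ 8 * Dm / (Q : ℝ) ^ (j - i) := by
    have hlog : Real.log (D false l) ≤ Real.log (Dm / (Q : ℝ) ^ (j - i)) := by
      rw [Real.log_div hDm0.ne' (by positivity), Real.log_pow, hcast, hlDm]
      have h3 : lD D false l = -Real.log (D false l) := rfl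
      linarith
    have h4 := (Real.log_le_log_iff hDl (by positivity)).1 hlog
    refine h4.trans (div_le_div_of_nonneg_right ?_ (by positivity))
    linarith
  have hmain := hSlot ι K m Q J E Λ D (by have := hA.hm; linarith) hA.sep
    (by have := hA.hQ; omega) hA.reg s i j l hij hjl hlJ h1 h2
  have h34 : 32 * m * Dm + 1 ≤ 34 * m * Dm := by
    have h5 : 2 * m * D false j ≤ 2 * m * Dm :=
      mul_le_mul_of_nonneg_left (le_max_left _ _) (by linarith)
    linarith
  have hPTl := hPTpos l hlJ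
  have hPTj := hPTpos j hjJ
  have hPLj := hPLpos j hjJ
  have hmain2 : (PT K Q E false l : ℝ) * D false l * PL K Q E s j ≤
      16 * Λ ^ 8 * PT K Q E false j * (8 * Dm / (Q : ℝ) ^ (j - i)) *
        (34 * m * Dm) * PM K Q E j := by
    refine hmain.trans ?_
    refine mul_le_mul_of_nonneg_right (mul_le_mul_of_nonneg_left h34 ?_) hPMpos.le
    positivity
  have hform : 16 * Λ ^ 8 * PT K Q E false j * (8 * Dm / (Q : ℝ) ^ (j - i)) *
      (34 * m * Dm) * PM K Q E j =
      4352 * (Λ ^ 8 * (PT K Q E false j * (Dm * (m * (Dm * PM K Q E j))))) /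
        (Q : ℝ) ^ (j - i) := by
    ring
  rw [hform] at hmain2
  have hlog := Real.log_le_log (by positivity) hmain2
  rw [Real.log_mul (by positivity) hPLj.ne', Real.log_mul hPTl.ne' hDl.ne',
    Real.log_div (by positivity) (by positivity), Real.log_mul (by norm_num) (by positivity),
    Real.log_mul (by positivity) (by positivity), Real.log_mul hPTj.ne' (by positivity),
    Real.log_mul hDm0.ne' (by positivity), Real.log_mul hm0.ne' (by positivity),
    Real.log_mul hDm0.ne' hPMpos.ne', Real.log_pow, Real.log_pow, hcast, hlDm] at hlog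
  have hc := XA7.log_const
  have e1 : lT K m Q E false l = Real.log (PT K Q E false l) - Real.log m := rfl
  have e2 : lT K m Q E false j = Real.log (PT K Q E false j) - Real.log m := rfl
  have e3 : lA K m Q E s j = Real.log (PL K Q E s j) - Real.log m := rfl
  have e4 : lM K Q E j = Real.log (PM K Q E j) := rfl
  have e5 : lD D false l = -Real.log (D false l) := rfl
  rw [e1, e2, e3, e4, e5]
  push_cast at hlog
  linarith

end Pool.Agent.Work.MP_e17eac_co.DH

end

section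

set_option autoImplicit false

namespace Pool.Agent.Work.MP_e17eac_co.DH

open Finset

namespace XASM

theorem reg_mono {ι : Type} [Fintype ι] [DecidableEq ι] {K : KSys ι} {Q J J' : ℕ} {E : Finset ℕ}
    {Λ : ℝ} {D : Bool → ℕ → ℝ} (h : Reg K Q J E Λ D) (hJ : J' ≤ J) : Reg K Q J' E Λ D where
  sub := h.sub
  ne := h.ne
  one_le := h.one_le
  regM j hj := h.regM j (le_trans hj hJ)
  regL s j hj := h.regL s j (le_trans hj hJ)
  regT p j hj := h.regT p j (le_trans hj hJ)
  dlo p j hj := h.dlo p j (le_trans hj hJ)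
  dhi p j hj := h.dhi p j (le_trans hj hJ)

theorem final (hA0 : StA0) (hA1 : StA1) (hA2 : StA2) (hA3 : StA3) (hA5 : StA5)
    (hA6 : StA6) (hA7 : StA7) (hExp : StExp) {ι : Type} [Fintype ι] [DecidableEq ι]
    (K : KSys ι) (m : ℝ) (Q J : ℕ) (E : Finset ℕ) (Λ : ℝ) (D : Bool → ℕ → ℝ) (W : ℝ)
    (h : Asm K m Q J E Λ D W) (hP : (Q : ℝ) ^ 69000 ≤ PM K Q E J) : False := by
  obtain ⟨b1, b2, b3, b4, b5, b6, b7, b8⟩ := hA0 ι K m Q J E Λ D W h
  obtain ⟨c1, c2, c3, c4, c5, c6, c7, c8, c9, c10⟩ := hA1 ι K m Q J E Λ D W h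
  obtain ⟨d1, d2, d3⟩ := hA2 ι K m Q J E Λ D W h
  obtain ⟨e1, e2⟩ := hA3 ι K m Q J E Λ D W h
  obtain ⟨f1, f2, f3⟩ := hA5 ι K m Q J E Λ D W h
  have g := hA6 ι K m Q J E Λ D W h
  have k := hA7 ι K m Q J E Λ D W h
  have hl3 : Real.log 3 ≤ 2 := by
    have := Real.log_le_sub_one_of_pos (show (0 : ℝ) < 3 by norm_num); linarith
  have hl3' : 0 ≤ Real.log 3 := Real.log_nonneg (by norm_num)
  have hJ0 : (0 : ℝ) ≤ (J : ℝ) := Nat.cast_nonneg J
  apply hExp J (Real.log Q) (eL Λ W Q J) (2 * Real.log Λ + Real.log 3) (lM K Q E) (lA K m Q E)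
    (lT K m Q E) (lD D)
  exact
    { hδ := b1
      he := by unfold eL; linarith
      he10 := h.he
      he1 := by linarith
      hJ := by
        have h1 := h.hJ
        have h2 : (J : ℝ) * (2 * Real.log Λ + Real.log 3) ≤ J * (2 * Real.log Λ + 2) :=
          mul_le_mul_of_nonneg_left (by linarith) hJ0
        linarith
      mu0 := c1
      A0l := d1
      A0u := c2
      T0l := d2
      d0 := fun p j hj => (b8 p j hj).2.1
      mumono := c3
      Amono := c4
      Tmono := c5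
      dmono := c6
      muinc := c7
      Ainc := c8
      Tinc := c9
      h1 := c10
      h2 := d3
      h3A := e1
      h3T := e2
      h3a := f1
      h3b := f2
      h3c := f3
      h3d := g
      hS := k
      h6 := by
        have hQ0 : (0 : ℝ) < (Q : ℝ) := by
          have := h.hQ
          exact_mod_cast (by omega : 0 < Q)
        have h1 := Real.log_le_log (pow_pos hQ0 _) hP
        rw [Real.log_pow] at h1
        refine le_trans (le_of_eq ?_) h1
        push_cast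
        ring }

end XASM

theorem I_ASM (hA0 : StA0) (hA1 : StA1) (hA2 : StA2) (hA3 : StA3) (hA5 : StA5) (hA6 : StA6)
    (hA7 : StA7) (hExp : StExp) (hInc : StInc) : StAsm := by
  intro ι _ _ K m Q J E Λ D W hm hs hQ hR hW hbig he hJ hmQ hP
  classical
  have hQ1 : 1 ≤ Q := by omega
  have hQ0 : (0 : ℝ) < (Q : ℝ) := by exact_mod_cast hQ1
  have hQ1' : (1 : ℝ) < (Q : ℝ) := by exact_mod_cast (by omega : 1 < Q)
  have hlQ : 0 < Real.log (Q : ℝ) := Real.log_pos hQ1'
  have hlL : 0 ≤ Real.log Λ := Real.log_nonneg hR.one_le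
  obtain ⟨i1, -, -, -, i5, -, -, -, -⟩ := hInc ι K Q E hQ1 (fun n hn => (hR.sub n hn).2)
  have hex : ∃ j, (Q : ℝ) ^ 69000 ≤ (PM K Q E j : ℝ) := ⟨J, hP⟩
  obtain ⟨J', h1, h2⟩ : ∃ J', (Q : ℝ) ^ 69000 ≤ (PM K Q E J' : ℝ) ∧
      ∀ j, j < J' → ¬ (Q : ℝ) ^ 69000 ≤ (PM K Q E j : ℝ) :=
    ⟨Nat.find hex, Nat.find_spec hex, fun j hj => Nat.find_min hex hj⟩
  have hJ' : J' ≤ J := by
    by_contra hc
    exact h2 J (by omega) hP
  have hpos : J' ≠ 0 := by
    rintro rfl
    have h3 : (PM K Q E 0 : ℝ) ≤ 1 := by exact_mod_cast i5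
    have h4 : (1 : ℝ) < (Q : ℝ) ^ 69000 := one_lt_pow₀ hQ1' (by norm_num)
    linarith
  obtain ⟨j, rfl⟩ := Nat.exists_eq_succ_of_ne_zero hpos
  have h3 : (PM K Q E j : ℝ) < (Q : ℝ) ^ 69000 := not_le.1 (h2 j (by omega))
  have h4 : (PM K Q E (j + 1) : ℝ) ≤ Q * PM K Q E j := by exact_mod_cast (i1 j).2
  have h5 : (PM K Q E (j + 1) : ℝ) ≤ (Q : ℝ) ^ 69001 := by
    calc (PM K Q E (j + 1) : ℝ) ≤ Q * PM K Q E j := h4
      _ ≤ Q * (Q : ℝ) ^ 69000 := mul_le_mul_of_nonneg_left h3.le hQ0.le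
      _ = (Q : ℝ) ^ 69001 := (pow_succ' (Q : ℝ) 69000).symm
  have hjJ : ((j + 1 : ℕ) : ℝ) ≤ (J : ℝ) := by exact_mod_cast hJ'
  refine XASM.final hA0 hA1 hA2 hA3 hA5 hA6 hA7 hExp K m Q (j + 1) E Λ D W
    { hm := hm
      sep := hs
      hQ := hQ
      reg := XASM.reg_mono hR hJ'
      hW := hW
      big := hbig
      he := ?_
      hJ := ?_
      hmQ := hmQ
      top := h5 } h1
  · refine le_trans ?_ he
    unfold eL
    have h6 : (0 : ℝ) < 3 + ((j + 1 : ℕ) : ℝ) * Real.log Q := by positivity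
    have h7 : 3 + ((j + 1 : ℕ) : ℝ) * Real.log Q ≤ 3 + (J : ℝ) * Real.log Q := by
      have := mul_le_mul_of_nonneg_right hjJ hlQ.le
      linarith
    have h8 := Real.log_le_log h6 h7
    linarith
  · refine le_trans ?_ hJ
    exact mul_le_mul_of_nonneg_right hjJ (by linarith)

end Pool.Agent.Work.MP_e17eac_co.DH

end

section

/-!
# Point sets with separated abscissae
-/

namespace Pool.Agent.Work.MP_e17eac_co.DH

open Finset

namespace XLEV

/-- The determinant in scaled coordinates. -/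
theorem scale (X0 u : ℝ) (hu : 0 < u) (p q r : ℝ × ℝ) :
    (q.1 - X0) / u - (p.1 - X0) / u = (q.1 - p.1) / u ∧
    ((q.1 - X0) / u - (p.1 - X0) / u) * (r.2 - p.2) - (q.2 - p.2) *
      ((r.1 - X0) / u - (p.1 - X0) / u) = side p q r / u := by
  constructor
  · field_simp
    ring
  · unfold side
    field_simp
    ring

end XLEV

open XLEV in
theorem I_LEV (hSweep : StSweep) (hMain : StMain) : StLev := by
  classical
  obtain ⟨C, hC, hM⟩ := hMain
  refine ⟨C, hC, ?_⟩
  intro P m w hm hw hgen hsep k T hT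
  have hm0 : 0 < m := by linarith
  have hmw : 0 < m * w := by positivity
  rcases P.eq_empty_or_nonempty with hP | hP
  · have : T = ∅ := by
      apply Finset.eq_empty_of_forall_notMem
      intro e he
      have := (hT e he).1
      rw [hP] at this
      simp at this
    rw [this]
    simp only [Finset.card_empty, Nat.cast_zero]
    positivity
  obtain ⟨p0, hp0, hmin⟩ := Finset.exists_min_image P Prod.fst hP
  haveI : Nonempty P := ⟨⟨p0, hp0⟩⟩
  set X0 : ℝ := p0.1 with hX0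
  let x : P → ℝ := fun i => ((i : ℝ × ℝ).1 - X0) / (m * w)
  let y : P → ℝ := fun i => (i : ℝ × ℝ).2
  have hx01 : ∀ i, 0 ≤ x i ∧ x i ≤ 1 := by
    intro i
    have h1 := hmin i i.2
    constructor
    · exact div_nonneg (by linarith) hmw.le
    · rw [div_le_one hmw]
      by_cases h : (i : ℝ × ℝ) = p0
      · rw [h, hX0]
        simp only [sub_self]
        exact hmw.le
      · have := (hsep i i.2 p0 hp0 h).2
        exact le_trans (le_abs_self _) this
  have hdiff : ∀ i j : P, x i - x j = ((i : ℝ × ℝ).1 - (j : ℝ × ℝ).1) / (m * w) := by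
    intro i j
    exact (scale X0 (m * w) hmw j i i).1
  have hsepx : ∀ i j : P, i ≠ j → 1 ≤ m * |x i - x j| := by
    intro i j hij
    have hne : (i : ℝ × ℝ) ≠ j := fun h => hij (Subtype.ext h)
    have h1 := (hsep i i.2 j j.2 hne).1
    rw [hdiff, abs_div, abs_of_pos hmw]
    have : m * (|(i : ℝ × ℝ).1 - (j : ℝ × ℝ).1| / (m * w)) =
        |(i : ℝ × ℝ).1 - (j : ℝ × ℝ).1| / w := by
      field_simp
    rw [this, le_div_iff₀ hw]
    linarith
  have hinj : Function.Injective x := by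
    intro i j h
    by_contra hne
    have := hsepx i j hne
    rw [h, sub_self, abs_zero, mul_zero] at this
    linarith
  have hnc : ∀ i j l : P, i ≠ j → i ≠ l → j ≠ l →
      (x j - x i) * (y l - y i) ≠ (y j - y i) * (x l - x i) := by
    intro i j l hij hil hjl h
    have h1 := (scale X0 (m * w) hmw i j l).2
    have h2 : side (i : ℝ × ℝ) j l / (m * w) = 0 := by
      rw [← h1]
      exact sub_eq_zero.2 h
    have h3 : side (i : ℝ × ℝ) j l = 0 := by
      rcases div_eq_zero_iff.1 h2 with h | h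
      · exact h
      · exact absurd h hmw.ne'
    exact hgen i i.2 j j.2 l l.2 (fun h => hij (Subtype.ext h)) (fun h => hil (Subtype.ext h))
      (fun h => hjl (Subtype.ext h)) h3
  let F : Finset (P × P) := Finset.univ.filter
    (fun e : P × P => ((e.1 : ℝ × ℝ), (e.2 : ℝ × ℝ)) ∈ T)
  have hF : ∀ e ∈ F, x e.1 < x e.2 ∧
      {l : P | (x e.2 - x e.1) * (y l - y e.1) < (y e.2 - y e.1) * (x l - x e.1)}.ncard = k := by
    intro e he
    have heT : ((e.1 : ℝ × ℝ), (e.2 : ℝ × ℝ)) ∈ T := (Finset.mem_filter.1 he).2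
    obtain ⟨-, -, h1, h2⟩ := hT _ heT
    constructor
    · have h3 := hdiff e.2 e.1
      have h4 : 0 < ((e.2 : ℝ × ℝ).1 - (e.1 : ℝ × ℝ).1) / (m * w) :=
        div_pos (by simpa using sub_pos.2 h1) hmw
      linarith
    · rw [← h2, ← Set.ncard_coe_finset, ← Set.ncard_image_of_injective _ Subtype.val_injective]
      congr 1
      ext r
      constructor
      · rintro ⟨l, hl, rfl⟩
        rw [Finset.mem_coe, Finset.mem_filter]
        refine ⟨l.2, ?_⟩
        have h3 := (scale X0 (m * w) hmw e.1 e.2 l).2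
        have hl' : (x e.2 - x e.1) * (y l - y e.1) - (y e.2 - y e.1) * (x l - x e.1) < 0 :=
          sub_neg.2 hl
        have h4 : side (e.1 : ℝ × ℝ) e.2 l / (m * w) < 0 := by
          rw [← h3]
          exact hl'
        exact (div_neg_iff.1 h4).elim (fun h => absurd h.2 (not_lt.2 hmw.le)) (fun h => h.1)
      · intro hr
        rw [Finset.mem_coe, Finset.mem_filter] at hr
        refine ⟨⟨r, hr.1⟩, ?_, rfl⟩
        have h3 := (scale X0 (m * w) hmw e.1 e.2 r).2
        have h4 : side (e.1 : ℝ × ℝ) e.2 r / (m * w) < 0 := div_neg_of_neg_of_pos hr.2 hmw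
        rw [← h3] at h4
        exact sub_neg.1 h4
  obtain ⟨K, hKx, hKN⟩ := hSweep P x y k hx01 hinj hnc F hF
  have hKsep : K.Sep m := by
    intro i j hij
    rw [hKx]
    exact hsepx i j hij
  have hN := hM P K m hm hKsep
  have hTF : T.card ≤ F.card := by
    have hsub : T ⊆ F.image (fun e : P × P => ((e.1 : ℝ × ℝ), (e.2 : ℝ × ℝ))) := by
      intro e he
      obtain ⟨h1, h2, -, -⟩ := hT e he
      rw [Finset.mem_image]
      exact ⟨(⟨e.1, h1⟩, ⟨e.2, h2⟩), Finset.mem_filter.2 ⟨Finset.mem_univ _, he⟩, rfl⟩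
    exact le_trans (Finset.card_le_card hsub) Finset.card_image_le
  calc (T.card : ℝ) ≤ (K.N : ℝ) := by exact_mod_cast le_trans hTF hKN
    _ ≤ C * m ^ ((4 : ℝ) / 3 - 1 / 10 ^ 9) := hN

end Pool.Agent.Work.MP_e17eac_co.DH

end

section

set_option autoImplicit false

namespace Pool.Agent.Work.MP_e17eac_co.DH

open Finset

namespace XMAINL

/-- Numerical bounds for the logarithms of some constants. -/
theorem log2_le : Real.log 2 ≤ 1 := by
  have := Real.log_le_sub_one_of_pos (show (0 : ℝ) < 2 by norm_num); linarith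

theorem log10_le : Real.log 10 ≤ 9 := by
  have := Real.log_le_sub_one_of_pos (show (0 : ℝ) < 10 by norm_num); linarith

theorem log_pow10 (n : ℕ) : Real.log ((10 : ℝ) ^ n) ≤ 9 * n := by
  rw [Real.log_pow]
  have := log10_le
  have hn : (0 : ℝ) ≤ n := Nat.cast_nonneg n
  nlinarith

theorem inj_of_sep {ι : Type} [Fintype ι] [DecidableEq ι] (K : KSys ι) (m : ℝ) (h : K.Sep m) :
    Function.Injective K.x := by
  intro i j hij
  by_contra hne
  have := h i j hne
  rw [hij, sub_self, abs_zero, mul_zero] at this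
  linarith

/-- `H`-type comparison: for `m = exp l`. -/
theorem rpow_exp {m : ℝ} (hm : 0 < m) (a : ℝ) : m ^ a = Real.exp (a * Real.log m) := by
  rw [Real.rpow_def_of_pos hm, mul_comm]

theorem logLL {m : ℝ} {J : ℕ} (hJ : (J : ℝ) = 10 ^ 15) (hl : 0 ≤ Real.log m)
    (h1 : 1 ≤ (1 / 10 ^ 40 : ℝ) * Real.log m)
    (h2 : Real.log (1 + Real.log m) ≤ (1 / 10 ^ 40 : ℝ) * Real.log m) :
    0 < LL m J ∧ Real.log (LL m J) ≤ (1 / 10 ^ 23 : ℝ) * Real.log m := by
  have hJ0 : (0 : ℝ) < (J : ℝ) + 1 := by positivity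
  have hp : (0 : ℝ) < 1 + Real.log m := by linarith
  have hA : (0 : ℝ) < 40 * ((J : ℝ) + 1) := by positivity
  have hB : (0 : ℝ) < 8 * (1 + Real.log m) := by positivity
  have hC : (0 : ℝ) < (8 * (1 + Real.log m)) ^ (7 * (J + 1)) := pow_pos hB _
  refine ⟨by unfold LL; positivity, ?_⟩
  unfold LL
  rw [Real.log_mul hA.ne' hC.ne', Real.log_pow, Real.log_mul (by norm_num) hp.ne']
  have e1 : Real.log (40 * ((J : ℝ) + 1)) ≤ 9 * (17 : ℕ) := by
    refine le_trans (Real.log_le_log hA ?_) (log_pow10 17)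
    rw [hJ]; norm_num
  have e2 : Real.log 8 ≤ 7 := by
    have := Real.log_le_sub_one_of_pos (show (0 : ℝ) < 8 by norm_num); linarith
  have e3 : ((7 * (J + 1) : ℕ) : ℝ) = 7 * (10 ^ 15 + 1) := by push_cast; rw [hJ]
  rw [e3]
  push_cast at e1
  have e4 : (7 * (10 ^ 15 + 1) : ℝ) * (Real.log 8 + Real.log (1 + Real.log m)) ≤
      (7 * (10 ^ 15 + 1) : ℝ) * (7 * ((1 / 10 ^ 40 : ℝ) * Real.log m) +
        (1 / 10 ^ 40 : ℝ) * Real.log m) := by
    apply mul_le_mul_of_nonneg_left _ (by norm_num)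
    linarith
  have e5 : Real.log (40 * ((J : ℝ) + 1)) ≤ 153 * ((1 / 10 ^ 40 : ℝ) * Real.log m) := by linarith
  have : (153 * ((1 / 10 ^ 40 : ℝ) * Real.log m)) + (7 * (10 ^ 15 + 1) : ℝ) *
      (7 * ((1 / 10 ^ 40 : ℝ) * Real.log m) + (1 / 10 ^ 40 : ℝ) * Real.log m) ≤
      (1 / 10 ^ 23 : ℝ) * Real.log m := by
    have : (153 * ((1 / 10 ^ 40 : ℝ) * Real.log m)) + (7 * (10 ^ 15 + 1) : ℝ) *
      (7 * ((1 / 10 ^ 40 : ℝ) * Real.log m) + (1 / 10 ^ 40 : ℝ) * Real.log m) =
      (153 / 10 ^ 40 + (7 * (10 ^ 15 + 1)) * 8 / 10 ^ 40 : ℝ) * Real.log m := by ring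
    rw [this]
    apply mul_le_mul_of_nonneg_right _ hl
    norm_num
  linarith

/-- The number `Q`. -/
theorem exQ {m : ℝ} (hm : 1 ≤ m) (h1 : 1 ≤ (1 / 10 ^ 40 : ℝ) * Real.log m) :
    ∃ Q : ℕ, 2 ≤ Q ∧ Real.log m / 600000 ≤ Real.log Q ∧ Real.log Q ≤ Real.log m / 500000 := by
  have hm0 : 0 < m := by linarith
  have hl : (10 : ℝ) ^ 40 ≤ Real.log m := by
    have := mul_le_mul_of_nonneg_left h1 (show (0 : ℝ) ≤ 10 ^ 40 by positivity)
    have e : (10 : ℝ) ^ 40 * ((1 / 10 ^ 40 : ℝ) * Real.log m) = Real.log m := by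
      field_simp
    linarith
  set z : ℝ := Real.exp (Real.log m / 500000) with hz
  have hz2 : 2 ≤ z := by
    have h3 : Real.log m / 500000 + 1 ≤ z := Real.add_one_le_exp _
    have h4 : (1 : ℝ) ≤ Real.log m / 500000 := by
      rw [le_div_iff₀ (by norm_num)]
      refine le_trans ?_ hl
      norm_num
    linarith
  have hz0 : 0 < z := by linarith
  refine ⟨⌊z⌋₊, ?_, ?_, ?_⟩
  · exact Nat.le_floor (by exact_mod_cast hz2)
  · have h5 : z / 2 ≤ (⌊z⌋₊ : ℝ) := by
      have := Nat.sub_one_lt_floor z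
      linarith
    have h6 : Real.log (z / 2) ≤ Real.log (⌊z⌋₊ : ℝ) := Real.log_le_log (by positivity) h5
    rw [Real.log_div hz0.ne' (by norm_num), hz, Real.log_exp] at h6
    have h7 := log2_le
    have h8 : Real.log m / 600000 + 1 ≤ Real.log m / 500000 := by
      have : (3000000 : ℝ) ≤ Real.log m := le_trans (by norm_num) hl
      linarith
    linarith
  · have h5 : (⌊z⌋₊ : ℝ) ≤ z := Nat.floor_le hz0.le
    have h6 : (0 : ℝ) < (⌊z⌋₊ : ℝ) := by
      have : 2 ≤ ⌊z⌋₊ := Nat.le_floor (by exact_mod_cast hz2)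
      exact_mod_cast (by omega : 0 < ⌊z⌋₊)
    have h7 := Real.log_le_log h6 h5
    rwa [hz, Real.log_exp] at h7

theorem core (hDesc : StDesc) (hResc : StResc) (hMid : StMid) (hAsm : StAsm) (hDeyI : StDeyI)
    (hSep : StSep) (ι : Type) [Fintype ι] [DecidableEq ι] (K : KSys ι) (m : ℝ) (hm : 100 ≤ m)
    (h1 : 1 ≤ (1 / 10 ^ 40 : ℝ) * Real.log m)
    (h2 : Real.log (1 + Real.log m) ≤ (1 / 10 ^ 40 : ℝ) * Real.log m) (hs : K.Sep m) :
    (K.N : ℝ) ≤ m ^ ((4 : ℝ) / 3 - 1 / 10 ^ 9) := by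
  by_contra hcon
  push Not at hcon
  have hm0 : 0 < m := by linarith
  have hl : (10 : ℝ) ^ 40 ≤ Real.log m := by
    have := mul_le_mul_of_nonneg_left h1 (show (0 : ℝ) ≤ 10 ^ 40 by positivity)
    have e : (10 : ℝ) ^ 40 * ((1 / 10 ^ 40 : ℝ) * Real.log m) = Real.log m := by
      field_simp
    linarith
  have hl0 : 0 ≤ Real.log m := le_trans (by positivity) hl
  have hlp : (0 : ℝ) < 1 + Real.log m := by linarith
  -- (a) the number of edges
  have hN0 : (0 : ℝ) < K.N := lt_trans (Real.rpow_pos_of_pos hm0 _) hcon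
  have hNl : (4 / 3 - 1 / 10 ^ 9) * Real.log m < Real.log K.N := by
    have := Real.log_lt_log (Real.rpow_pos_of_pos hm0 _) hcon
    rwa [Real.log_rpow hm0] at this
  -- (b) the number of lines
  have hinj := inj_of_sep K m hs
  have hdey := hDeyI ι K hinj 0 K.N le_rfl
  rw [← Finset.range_eq_Ico, card_range] at hdey
  have hdeyR : (K.N : ℝ) ^ 3 ≤ 4096 * ((K.lines (range K.N)).card : ℝ) ^ 4 := by
    exact_mod_cast hdey
  have hLpos : (0 : ℝ) < ((K.lines (range K.N)).card : ℝ) := by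
    rcases Nat.eq_zero_or_pos (K.lines (range K.N)).card with h | h
    · rw [h] at hdeyR
      have h3 : 0 < (K.N : ℝ) ^ 3 := by positivity
      norm_num at hdeyR
      linarith
    · exact_mod_cast h
  have hLlog : 3 * Real.log K.N ≤ 12 + 4 * Real.log ((K.lines (range K.N)).card : ℝ) := by
    have h3 := Real.log_le_log (by positivity) hdeyR
    rw [Real.log_pow, Real.log_mul (by norm_num) (by positivity), Real.log_pow,
      show (4096 : ℝ) = 2 ^ 12 by norm_num, Real.log_pow] at h3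
    push_cast at h3
    have := log2_le
    linarith
  -- the number `H`
  obtain ⟨H, hH⟩ : ∃ H : ℝ, H = Real.exp (87 / 100 * Real.log m) := ⟨_, rfl⟩
  have hH0 : 0 < H := by rw [hH]; exact Real.exp_pos _
  have hHl : Real.log H = 87 / 100 * Real.log m := by rw [hH, Real.log_exp]
  have hHL : H ≤ (K.lines (range K.N)).card := by
    apply (Real.log_le_log_iff hH0 hLpos).1
    rw [hHl]
    linarith
  -- (c)
  have h10 : 10 * Real.sqrt m ≤ H := by
    have hsq : 0 < Real.sqrt m := Real.sqrt_pos.2 hm0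
    apply (Real.log_le_log_iff (by positivity) hH0).1
    rw [hHl, Real.log_mul (by norm_num) hsq.ne', Real.log_sqrt hm0.le]
    have := log10_le
    linarith
  -- (d)
  obtain ⟨j0, hj0⟩ : ∃ j0 : ℕ, (j0 : ℝ) = 2 * 10 ^ 8 := ⟨200000000, by norm_num⟩
  obtain ⟨J, hJ⟩ : ∃ J : ℕ, (J : ℝ) = 10 ^ 15 := ⟨1000000000000000, by norm_num⟩
  obtain ⟨G, hG⟩ : ∃ G : ℝ, G = Real.exp (1 / 10 ^ 9 * Real.log m) := ⟨_, rfl⟩
  have hG0 : 0 < G := by rw [hG]; exact Real.exp_pos _
  have hGl : Real.log G = 1 / 10 ^ 9 * Real.log m := by rw [hG, Real.log_exp]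
  have hG1 : 1 ≤ G := by
    rw [hG]
    exact Real.one_le_exp (by positivity)
  have hj01 : 1 ≤ j0 := by
    have : (1 : ℝ) ≤ (j0 : ℝ) := by rw [hj0]; norm_num
    exact_mod_cast this
  have hcard : (Fintype.card ι : ℝ) ≤ H * G ^ j0 := by
    have h3 := (hSep ι K m hm0 hs).2
    have h4 : m + 1 ≤ H * G ^ j0 := by
      have h5 : m + 1 ≤ 2 * m := by linarith
      refine le_trans h5 ?_
      apply (Real.log_le_log_iff (by positivity) (by positivity)).1
      rw [Real.log_mul (by norm_num) hm0.ne', Real.log_mul hH0.ne' (pow_pos hG0 _).ne', hHl,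
        Real.log_pow, hGl, hj0]
      have h6 := log2_le
      have h7 : (2 * 10 ^ 8 : ℝ) * (1 / 10 ^ 9 * Real.log m) = 1 / 5 * Real.log m := by ring
      rw [h7]
      linarith
    linarith
  -- (e)
  obtain ⟨c, R, E1, hR, hE1, hbig⟩ := hDesc ι K m H G j0 hm hs hG1 hj01 h10 hcard hHL
  have hE1pos : (0 : ℝ) < (E1.card : ℝ) := by
    rcases Nat.eq_zero_or_pos E1.card with h | h
    · rw [h, Nat.cast_zero, mul_zero] at hbig
      have h3 : 0 < (K.N : ℝ) ^ 4 := by positivity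
      linarith
    · exact_mod_cast h
  have hE1ne : E1.Nonempty := by
    rw [← Finset.card_pos]
    exact_mod_cast hE1pos
  have hj0p : (0 : ℝ) < (j0 : ℝ) := by rw [hj0]; norm_num
  have hAlog : Real.log (2000 * (j0 : ℝ) * (2 * j0 + 4)) ≤ 9 * (21 : ℕ) := by
    refine le_trans (Real.log_le_log (by positivity) ?_) (log_pow10 21)
    rw [hj0]; norm_num
  have hE1l : (4 / 3 - 9 / 10 ^ 9) * Real.log m ≤ Real.log E1.card := by
    have h3 := Real.log_le_log (by positivity) hbig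
    have hA0 : (0 : ℝ) < 2000 * (j0 : ℝ) * (2 * j0 + 4) := by positivity
    rw [Real.log_pow, Real.log_mul (by positivity) hE1pos.ne', Real.log_pow,
      Real.log_mul (by positivity) hG0.ne', Real.log_mul (by positivity) hm0.ne',
      Real.log_mul hA0.ne' hlp.ne', hGl] at h3
    push_cast at h3 hAlog
    linarith
  -- (f)
  obtain ⟨Q, hQ2, hQlo, hQhi⟩ := exQ (by linarith : (1 : ℝ) ≤ m) h1
  have hQ0 : (0 : ℝ) < (Q : ℝ) := by exact_mod_cast (by omega : 0 < Q)
  -- (g)
  have hmp : 0 < m ^ (4 * j0 + 1) := pow_pos hm0 _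
  have hρ : 1 ≤ 1 / (4 * m ^ (4 * j0 + 1)) * (Q : ℝ) ^ J := by
    rw [div_mul_eq_mul_div, one_mul, le_div_iff₀ (by positivity), one_mul]
    apply (Real.log_le_log_iff (by positivity) (pow_pos hQ0 _)).1
    rw [Real.log_mul (by norm_num) hmp.ne', Real.log_pow, Real.log_pow, hJ]
    push_cast
    rw [hj0]
    have h4 : Real.log 4 ≤ 3 := by
      have := Real.log_le_sub_one_of_pos (show (0 : ℝ) < 4 by norm_num); linarith
    have h5 : (10 ^ 15 : ℝ) * (Real.log m / 600000) ≤ 10 ^ 15 * Real.log Q :=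
      mul_le_mul_of_nonneg_left hQlo (by norm_num)
    have h6 : (10 ^ 15 : ℝ) * (Real.log m / 600000) = 5000000000 / 3 * Real.log m := by ring
    rw [h6] at h5
    refine le_trans ?_ h5
    have h7 : (4 * (2 * 10 ^ 8) + 1 : ℝ) * Real.log m = 800000001 * Real.log m := by ring
    rw [h7]
    linarith
  -- (h)
  have h4R : 0 < 4 * R := by linarith
  have hres := hResc ι K (c - R) (4 * R) h4R
  -- (i)
  obtain ⟨E', hsub, D, hReg, hc1, hc2⟩ := hMid ι (K.resc (c - R) (4 * R) h4R) m H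
    (1 / (4 * m ^ (4 * j0 + 1))) Q J E1 (by linarith) (hres.2 m hs) hQ2 hE1ne hH0
    (by
      intro n hn
      obtain ⟨hn1, hn2, hn3⟩ := hE1 n hn
      have ht : (K.resc (c - R) (4 * R) h4R).t n = (K.t n - (c - R)) / (4 * R) := rfl
      rw [abs_le] at hn2
      refine ⟨hn1, ?_, ?_, ?_⟩
      · rw [ht]
        apply div_nonneg _ h4R.le
        linarith [hn2.1]
      · rw [ht, div_lt_one h4R]
        linarith [hn2.2]
      · rw [hres.1, ht]
        have e1 : c - R + 4 * R * ((K.t n - (c - R)) / (4 * R)) = K.t n := by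
          field_simp
          ring
        have e2 : 4 * R * (1 / (4 * m ^ (4 * j0 + 1))) = R / m ^ (4 * j0 + 1) := by
          field_simp
        rw [e1, e2]
        exact hn3)
    hρ
  obtain ⟨hLL0, hLLl⟩ := logLL hJ hl0 h1 h2
  have hE'pos : (0 : ℝ) < (E'.card : ℝ) := by
    exact_mod_cast Finset.card_pos.2 hReg.ne
  -- (j)
  have hE'l : (4 / 3 - 10 / 10 ^ 9) * Real.log m ≤ Real.log E'.card := by
    have h3 := Real.log_le_log hE1pos hc1
    rw [Real.log_mul hLL0.ne' hE'pos.ne'] at h3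
    linarith
  obtain ⟨W, hW⟩ : ∃ W : ℝ, W = Real.exp (1 / 10 ^ 8 * Real.log m) := ⟨_, rfl⟩
  have hW0 : 0 < W := by rw [hW]; exact Real.exp_pos _
  have hWl : Real.log W = 1 / 10 ^ 8 * Real.log m := by rw [hW, Real.log_exp]
  have hW1 : 1 ≤ W := by
    rw [hW]
    exact Real.one_le_exp (by positivity)
  -- (k)
  have hPM0 : (0 : ℝ) < (PM (K.resc (c - R) (4 * R) h4R) Q E' J : ℝ) := by
    rcases Nat.eq_zero_or_pos (PM (K.resc (c - R) (4 * R) h4R) Q E' J) with h | h
    · rw [h, Nat.cast_zero, mul_zero] at hc2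
      linarith
    · exact_mod_cast h
  have hHp : 0 < H ^ ((4 : ℝ) / 3) := Real.rpow_pos_of_pos hH0 _
  have hPMl : 17 / 100 * Real.log m ≤
      Real.log (PM (K.resc (c - R) (4 * R) h4R) Q E' J : ℝ) := by
    have h3 := Real.log_le_log hE'pos hc2
    rw [Real.log_mul (by positivity) hPM0.ne', Real.log_mul (by norm_num) hHp.ne',
      Real.log_rpow hH0, hHl] at h3
    have h4 : Real.log 16 ≤ 15 := by
      have := Real.log_le_sub_one_of_pos (show (0 : ℝ) < 16 by norm_num); linarith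
    linarith
  -- (l)
  refine hAsm ι (K.resc (c - R) (4 * R) h4R) m Q J E' (LL m J) D W (by linarith) (hres.2 m hs)
    hQ2 hReg hW1 ?_ ?_ ?_ ?_ ?_
  · apply (Real.log_le_log_iff (Real.rpow_pos_of_pos hm0 _) (by positivity)).1
    rw [Real.log_rpow hm0, Real.log_mul hW0.ne' hE'pos.ne', hWl]
    linarith
  · have h3 : Real.log (3 + J * Real.log Q) ≤ 9 * (16 : ℕ) + Real.log (1 + Real.log m) := by
      have h4 : (3 : ℝ) + J * Real.log Q ≤ 10 ^ 16 * (1 + Real.log m) := by
        rw [hJ]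
        have h5 : (10 ^ 15 : ℝ) * Real.log Q ≤ 10 ^ 15 * (Real.log m / 500000) :=
          mul_le_mul_of_nonneg_left hQhi (by norm_num)
        have h6 : (10 ^ 15 : ℝ) * (Real.log m / 500000) = 2000000000 * Real.log m := by ring
        linarith
      have h7 : (0 : ℝ) < 3 + J * Real.log Q := by
        have : 0 ≤ Real.log (Q : ℝ) := le_trans (by positivity) hQlo
        have : 0 ≤ (J : ℝ) * Real.log Q := by positivity
        linarith
      have h8 := Real.log_le_log h7 h4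
      rw [Real.log_mul (by norm_num) hlp.ne'] at h8
      have h9 := log_pow10 16
      linarith
    rw [hWl]
    push_cast at h3
    linarith
  · rw [hJ]
    have h3 : 2 * Real.log (LL m J) + 2 ≤
        2 * (1 / 10 ^ 23 * Real.log m) + 2 * (1 / 10 ^ 40 * Real.log m) := by linarith
    have h4 : (10 ^ 15 : ℝ) * (2 * Real.log (LL m J) + 2) ≤
        10 ^ 15 * (2 * (1 / 10 ^ 23 * Real.log m) + 2 * (1 / 10 ^ 40 * Real.log m)) :=
      mul_le_mul_of_nonneg_left h3 (by norm_num)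
    refine le_trans h4 (le_trans ?_ hQlo)
    have h5 : (10 ^ 15 : ℝ) * (2 * (1 / 10 ^ 23 * Real.log m) + 2 * (1 / 10 ^ 40 * Real.log m)) =
      (10 ^ 15 * (2 / 10 ^ 23 + 2 / 10 ^ 40)) * Real.log m := by ring
    have h6 : Real.log m / 600000 = (1 / 600000) * Real.log m := by ring
    rw [h5, h6]
    apply mul_le_mul_of_nonneg_right _ hl0
    norm_num
  · linarith
  · apply (Real.log_le_log_iff (pow_pos hQ0 _) hPM0).1
    rw [Real.log_pow]
    have h3 : ((69000 : ℕ) : ℝ) * Real.log Q ≤ 69000 * (Real.log m / 500000) := by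
      push_cast
      exact mul_le_mul_of_nonneg_left hQhi (by norm_num)
    refine le_trans h3 (le_trans ?_ hPMl)
    linarith

end XMAINL

theorem I_MAINL (hDesc : StDesc) (hResc : StResc) (hMid : StMid) (hAsm : StAsm) (hAsy : StAsy)
    (hDeyI : StDeyI) (hSep : StSep) : StMainL := by
  obtain ⟨m0, hm0, hm⟩ := hAsy (1 / 10 ^ 40) (by norm_num)
  refine ⟨m0, by linarith, ?_⟩
  intro ι _ _ K m hmm hs
  obtain ⟨h1, h2⟩ := hm m hmm
  exact XMAINL.core hDesc hResc hMid hAsm hDeyI hSep ι K m (by linarith) h1 h2 hs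

end Pool.Agent.Work.MP_e17eac_co.DH

end

section

/-! Project DH, item RESII: from unit separated sets (ordered pairs) to all scales. -/

set_option autoImplicit false

namespace Pool.Agent.Work.MP_e17eac_co.DH

open Finset

namespace XRESII

/-- scaling by `1 / d` -/
noncomputable def sc (d : ℝ) (p : ℝ × ℝ) : ℝ × ℝ := (p.1 / d, p.2 / d)

theorem sc_inj {d : ℝ} (hd : 0 < d) : Function.Injective (sc d) := by
  intro p q h
  have h1 : p.1 / d = q.1 / d := congrArg Prod.fst h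
  have h2 : p.2 / d = q.2 / d := congrArg Prod.snd h
  ext
  · field_simp at h1; exact h1
  · field_simp at h2; exact h2

theorem side_sc {d : ℝ} (hd : 0 < d) (p q r : ℝ × ℝ) :
    side (sc d p) (sc d q) (sc d r) = side p q r / d ^ 2 := by
  unfold side sc
  field_simp

theorem side_pos {d : ℝ} (hd : 0 < d) (p q r : ℝ × ℝ) :
    0 < side (sc d p) (sc d q) (sc d r) ↔ 0 < side p q r := by
  rw [side_sc hd]
  have h : 0 < d ^ 2 := by positivity
  constructor
  · intro h1
    by_contra h2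
    exact absurd h1 (not_lt.2 (div_nonpos_of_nonpos_of_nonneg (not_lt.1 h2) h.le))
  · intro h1
    exact div_pos h1 h

theorem side_neg {d : ℝ} (hd : 0 < d) (p q r : ℝ × ℝ) :
    side (sc d p) (sc d q) (sc d r) < 0 ↔ side p q r < 0 := by
  rw [side_sc hd]
  have h : 0 < d ^ 2 := by positivity
  constructor
  · intro h1
    by_contra h2
    exact absurd h1 (not_lt.2 (div_nonneg (not_lt.1 h2) h.le))
  · intro h1
    exact div_neg_of_neg_of_pos h1 h

theorem dist_sc {d : ℝ} (hd : 0 < d) (p q : ℝ × ℝ) :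
    ((sc d p).1 - (sc d q).1) ^ 2 + ((sc d p).2 - (sc d q).2) ^ 2 =
      ((p.1 - q.1) ^ 2 + (p.2 - q.2) ^ 2) / d ^ 2 := by
  unfold sc
  field_simp

open Classical in
theorem genPos_sc {d : ℝ} (hd : 0 < d) {P : Finset (ℝ × ℝ)} (h : GenPos P) :
    GenPos (P.image (sc d)) := by
  intro p' hp' q' hq' r' hr' h1 h2 h3
  obtain ⟨p, hp, rfl⟩ := mem_image.1 hp'
  obtain ⟨q, hq, rfl⟩ := mem_image.1 hq'
  obtain ⟨r, hr, rfl⟩ := mem_image.1 hr'
  rw [side_sc hd]
  have h4 := h p hp q hq r hr (fun e => h1 (by rw [e])) (fun e => h2 (by rw [e]))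
    (fun e => h3 (by rw [e]))
  exact div_ne_zero h4 (by positivity)

open Classical in
theorem kEdge_sc {d : ℝ} (hd : 0 < d) {P : Finset (ℝ × ℝ)} {k : ℕ} {p q : ℝ × ℝ}
    (h : IsKEdge P k p q) : IsKEdge (P.image (sc d)) k (sc d p) (sc d q) := by
  obtain ⟨hp, hq, hne, h1, h2⟩ := h
  have e1 : ((P.image (sc d)).filter fun r => 0 < side (sc d p) (sc d q) r) =
      (P.filter fun r => 0 < side p q r).image (sc d) := by
    ext r
    simp only [mem_filter, mem_image]
    constructor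
    · rintro ⟨⟨r, hr, rfl⟩, h3⟩
      exact ⟨r, ⟨hr, (side_pos hd p q r).1 h3⟩, rfl⟩
    · rintro ⟨r, ⟨hr, h3⟩, rfl⟩
      exact ⟨⟨r, hr, rfl⟩, (side_pos hd p q r).2 h3⟩
  have e2 : ((P.image (sc d)).filter fun r => side (sc d p) (sc d q) r < 0) =
      (P.filter fun r => side p q r < 0).image (sc d) := by
    ext r
    simp only [mem_filter, mem_image]
    constructor
    · rintro ⟨⟨r, hr, rfl⟩, h3⟩
      exact ⟨r, ⟨hr, (side_neg hd p q r).1 h3⟩, rfl⟩
    · rintro ⟨r, ⟨hr, h3⟩, rfl⟩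
      exact ⟨⟨r, hr, rfl⟩, (side_neg hd p q r).2 h3⟩
  refine ⟨mem_image_of_mem _ hp, mem_image_of_mem _ hq, fun e => hne (sc_inj hd e), ?_, ?_⟩
  · rw [e1, card_image_of_injective _ (sc_inj hd)]
    exact h1
  · rw [e2, card_image_of_injective _ (sc_inj hd), card_image_of_injective _ (sc_inj hd)]
    exact h2

end XRESII

theorem I_RESII (hIIo : StIIo) : StResII := by
  classical
  obtain ⟨C, hC, H⟩ := hIIo
  refine ⟨C, hC, ?_⟩
  intro P R d hR hd hP hdist k
  have hd2 : 0 < d ^ 2 := by positivity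
  have key : ∀ e : {e // e ∈ kEdges P k}, ∃ pq : (ℝ × ℝ) × (ℝ × ℝ),
      (e : Finset (ℝ × ℝ)) = {pq.1, pq.2} ∧ IsKEdge P k pq.1 pq.2 := by
    rintro ⟨e, he⟩
    have he' := he
    unfold kEdges at he'
    obtain ⟨_, p, q, h1, h2⟩ := mem_filter.1 he'
    refine ⟨(p, q), ?_, h2⟩
    change e = {p, q}
    rw [h1]
  choose g hg using key
  set T : Finset ((ℝ × ℝ) × (ℝ × ℝ)) :=
    (kEdges P k).attach.image (fun e => (XRESII.sc d (g e).1, XRESII.sc d (g e).2)) with hT
  have hTc : T.card = (kEdges P k).card := by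
    rw [hT, card_image_of_injective, card_attach]
    intro e e' h
    have h1 : XRESII.sc d (g e).1 = XRESII.sc d (g e').1 := congrArg Prod.fst h
    have h2 : XRESII.sc d (g e).2 = XRESII.sc d (g e').2 := congrArg Prod.snd h
    have h3 := XRESII.sc_inj hd h1
    have h4 := XRESII.sc_inj hd h2
    apply Subtype.ext
    rw [(hg e).1, (hg e').1, h3, h4]
  rw [← hTc]
  refine H (P.image (XRESII.sc d)) R hR (XRESII.genPos_sc hd hP) ?_ k T ?_
  · intro p' hp' q' hq' hne
    obtain ⟨p, hp, rfl⟩ := mem_image.1 hp'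
    obtain ⟨q, hq, rfl⟩ := mem_image.1 hq'
    obtain ⟨h1, h2⟩ := hdist p hp q hq (fun e => hne (by rw [e]))
    rw [XRESII.dist_sc hd]
    have h3 : 0 ≤ (p.1 - q.1) ^ 2 + (p.2 - q.2) ^ 2 := by positivity
    rw [Real.le_sqrt hd.le h3] at h1
    rw [Real.sqrt_le_left (by positivity)] at h2
    constructor
    · rw [le_div_iff₀ hd2, one_mul]
      exact h1
    · rw [div_le_iff₀ hd2]
      calc (p.1 - q.1) ^ 2 + (p.2 - q.2) ^ 2 ≤ (R * d) ^ 2 := h2
        _ = R ^ 2 * d ^ 2 := by ring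
  · intro e he
    rw [hT] at he
    obtain ⟨e', _, rfl⟩ := mem_image.1 he
    exact XRESII.kEdge_sc hd (hg e').2

end Pool.Agent.Work.MP_e17eac_co.DH

end

section

/-!
# RESIII: dense sets (helper53)
-/

namespace Pool.Agent.Work.MP_e17eac_co.DH

open Finset

namespace XRESIII

theorem pow_bound {C α n : ℝ} (hC : 0 < C) (hα : 1 ≤ α) (hn : 1 ≤ n) :
    C * (α * Real.sqrt n) ^ ((7 : ℝ) / 3 - 1 / 10 ^ 9) ≤
      C * α ^ ((7 : ℝ) / 3) * n ^ ((7 : ℝ) / 6 - 1 / (2 * 10 ^ 9)) := by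
  have hα0 : 0 ≤ α := by linarith
  have hn0 : 0 ≤ n := by linarith
  rw [Real.mul_rpow hα0 (Real.sqrt_nonneg n), Real.sqrt_eq_rpow, ← Real.rpow_mul hn0, ← mul_assoc]
  have h1 : (1 : ℝ) / 2 * (7 / 3 - 1 / 10 ^ 9) = 7 / 6 - 1 / (2 * 10 ^ 9) := by norm_num
  rw [h1]
  refine mul_le_mul_of_nonneg_right ?_ (Real.rpow_nonneg hn0 _)
  refine mul_le_mul_of_nonneg_left ?_ hC.le
  exact Real.rpow_le_rpow_of_exponent_le hα (by norm_num)

theorem kEdges_small (P : Finset (ℝ × ℝ)) (k : ℕ) (h : P.card < 2) : (kEdges P k).card = 0 := by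
  classical
  unfold kEdges
  rw [Finset.powersetCard_eq_empty.2 h, Finset.filter_empty, Finset.card_empty]

end XRESIII

theorem I_RESIII (hResII : StResII) : StResIII := by
  obtain ⟨C, hC, h⟩ := hResII
  refine ⟨C, hC, fun P α d hα hd hP hdist k => ?_⟩
  by_cases hc : P.card < 2
  · rw [XRESIII.kEdges_small P k hc, Nat.cast_zero]
    have h1 : 0 ≤ α ^ ((7 : ℝ) / 3) := Real.rpow_nonneg (by linarith) _
    have h2 : 0 ≤ (P.card : ℝ) ^ ((7 : ℝ) / 6 - 1 / (2 * 10 ^ 9)) :=
      Real.rpow_nonneg (Nat.cast_nonneg _) _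
    positivity
  · have hn : (1 : ℝ) ≤ (P.card : ℝ) := by
      have : 1 ≤ P.card := by omega
      exact_mod_cast this
    have hs : 1 ≤ Real.sqrt P.card := Real.one_le_sqrt.2 hn
    have hR : 1 ≤ α * Real.sqrt P.card := by nlinarith
    refine (h P (α * Real.sqrt P.card) d hR hd hP (fun p hp q hq hpq => ?_) k).trans
      (XRESIII.pow_bound hC hα hn)
    obtain ⟨h1, h2⟩ := hdist p hp q hq hpq
    refine ⟨h1, h2.trans (le_of_eq ?_)⟩
    ring

end Pool.Agent.Work.MP_e17eac_co.DH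

end

section

/-!
# The trivial bound
-/

namespace Pool.Agent.Work.MP_e17eac_co.DH

open Finset

theorem I_TRIV (hSep : StSep) : StTriv := by
  intro ι _ _ K m hm hK
  have hcard : (Fintype.card ι : ℝ) ≤ m + 1 := by
    exact (hSep ι K m hm hK).2
  have hinj : Set.InjOn (fun n => (K.a n, K.b n)) (range K.N : Set ℕ) := by
    intro n hn n' hn' h
    simp only [coe_range, Set.mem_Iio] at hn hn'
    simp only [Prod.mk.injEq] at h
    obtain ⟨h1, h2⟩ := h
    have e1 := K.meet n hn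
    have e2 := K.meet n' hn'
    rw [← h1, ← h2] at e2
    have hx := K.x_lt n hn
    have hne : K.x (K.a n) - K.x (K.b n) ≠ 0 := by
      intro h
      linarith
    have ht : K.t n = K.t n' := by
      have h3 : (K.x (K.a n) - K.x (K.b n)) * (K.t n - K.t n') = 0 := by linear_combination e1 - e2
      rcases mul_eq_zero.1 h3 with h4 | h4
      · exact absurd h4 hne
      · linarith
    rcases lt_trichotomy n n' with h | h | h
    · exact absurd ht (ne_of_lt (K.t_lt n n' h hn'))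
    · exact h
    · exact absurd ht.symm (ne_of_lt (K.t_lt n' n h hn))
  have h1 : K.N ≤ Fintype.card ι * Fintype.card ι := by
    calc K.N = ((range K.N).image fun n => (K.a n, K.b n)).card := by
          rw [card_image_of_injOn hinj, card_range]
      _ ≤ (Finset.univ : Finset (ι × ι)).card := card_le_card (subset_univ _)
      _ = Fintype.card ι * Fintype.card ι := by rw [card_univ, Fintype.card_prod]
  have h2 : (K.N : ℝ) ≤ (Fintype.card ι : ℝ) * Fintype.card ι := by exact_mod_cast h1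
  have h3 : (0 : ℝ) ≤ Fintype.card ι := by positivity
  nlinarith

end Pool.Agent.Work.MP_e17eac_co.DH

end
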