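import Pool.Agent.Work.MP_e17eac_co.Bd.B21
import Pool.Agent.Work.MP_e17eac_co.Bd.B19

/-! Bundle of small proof modules (one section per former module). -/

section

/-!
# Arbitrary sets, block B5: (AV) and (P2) for the units (class, cell)
-/

namespace Pool.Agent.Work.MP_e17eac_co.BB

open Finset
open Pool.Agent.Work.MP_e17eac_co.DH
open Pool.Agent.Work.MP_e17eac_co.B1

namespace X5AVP

variable {ι : Type} [Fintype ι] [DecidableEq ι]

/-- The unit of an edge. -/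
def un (K : KSys ι) (r z : ℕ) (κ : ι → ℕ) (i : ℕ) : ℕ × ℕ := (κ (K.a i), cell K r z i)

/-- The lines of a unit. -/
def Vs (K : KSys ι) (r z : ℕ) (κ : ι → ℕ) (U : ℕ × ℕ) : Finset ι :=
  (vis K r z U.2).filter (fun p => κ p = U.1)

theorem cell_lt (K : KSys ι) {r z i : ℕ} (hr : 1 ≤ r) (hi : i < K.N) :
    cell K r z i < r ^ (4 * z) := by
  have hN : 0 < K.N := by omega
  unfold cell
  rw [Nat.div_lt_iff_lt_mul hN]
  have : 0 < r ^ (4 * z) := by positivity
  nlinarith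

theorem ln_vis (K : KSys ι) {r m z i : ℕ} {H : ℝ} (h : Hyg K r m H i) (hz : z ≤ m) (s : Bool) :
    K.ln s i ∈ vis K r z (cell K r z i) := by
  have := h.rel s z hz
  unfold PSr at this
  exact (mem_filter.1 this).1

theorem sumV (K : KSys ι) {r m z : ℕ} {H : ℝ} (κ : ι → ℕ) (E : Finset ℕ) (hr : 1 ≤ r)
    (hE : ∀ i ∈ E, Hyg K r m H i) :
    ∑ U ∈ E.image (un K r z κ), (Vs K r z κ U).card ≤
      ∑ c ∈ range (r ^ (4 * z)), (vis K r z c).card := by
  have h1 : ∑ U ∈ E.image (un K r z κ), (Vs K r z κ U).card =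
      ((E.image (un K r z κ)).sigma (fun U => Vs K r z κ U)).card := by
    rw [Finset.card_sigma]
  have h2 : ∑ c ∈ range (r ^ (4 * z)), (vis K r z c).card =
      ((range (r ^ (4 * z))).sigma (fun c => vis K r z c)).card := by
    rw [Finset.card_sigma]
  rw [h1, h2]
  refine Finset.card_le_card_of_injOn
    (fun w => (⟨w.1.2, w.2⟩ : (_ : ℕ) × ι)) ?_ ?_
  · rintro ⟨U, p⟩ hw
    rw [Finset.mem_coe, Finset.mem_sigma] at hw
    obtain ⟨hU, hp⟩ := hw
    rw [Finset.mem_coe, Finset.mem_sigma]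
    obtain ⟨i, hi, rfl⟩ := mem_image.1 hU
    exact ⟨mem_range.2 (cell_lt K hr (hE i hi).lt), (mem_filter.1 hp).1⟩
  · rintro ⟨U, p⟩ hw ⟨U', p'⟩ hw' heq
    rw [Finset.mem_coe, Finset.mem_sigma] at hw hw'
    have hp := (mem_filter.1 hw.2).2
    have hp' := (mem_filter.1 hw'.2).2
    obtain ⟨U1, U2⟩ := U
    obtain ⟨U1', U2'⟩ := U'
    simp only [Sigma.mk.injEq, heq_eq_eq] at heq
    obtain ⟨h1, h2⟩ := heq
    simp only at hp hp'
    subst h1 h2
    rw [hp] at hp'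
    subst hp'
    rfl

theorem pow_bound (C D : ℝ) (hD : 2 ≤ D) : ∀ t : ℕ, C ≤ 2 ^ t → C ≤ D ^ t := fun t ht =>
  ht.trans (pow_le_pow_left₀ (by norm_num) hD t)

theorem exists_pow (C : ℝ) : ∃ t : ℕ, C ≤ 2 ^ t := by
  obtain ⟨t, ht⟩ := pow_unbounded_of_one_lt C (by norm_num : (1 : ℝ) < 2)
  exact ⟨t, ht.le⟩

theorem final {M N n D H E3 E2 V rz rx CP CT : ℝ} {k tP tT : ℕ}
    (hM : 0 ≤ M) (hN : 0 < N) (hn : 0 ≤ n) (hD : 2 ≤ D) (hH : 0 ≤ H) (hHD : H ≤ D)
    (hrz : 0 < rz) (hrx : 0 ≤ rx) (hV0 : 0 ≤ V) (_hCP : 0 ≤ CP) (hCT : 0 ≤ CT)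
    (hE3 : 0 ≤ E3)
    (h1 : E2 ≤ H * (D ^ k) ^ 2 * E3) (h2 : N ≤ D ^ k * E2)
    (h3 : V ≤ CT * n * rz) (h4 : M * E3 ^ 3 * (rx * rz) ≤ CP * H ^ 4 * n ^ 3 * V ^ 2)
    (h5 : n ^ 4 ≤ D ^ 3 * N ^ 3) (hP : CP ≤ D ^ tP) (hT : CT ≤ D ^ tT) :
    M * rx ≤ D ^ (9 * k + 10 + tP + 2 * tT) * n * rz := by
  have hD0 : 0 < D := by linarith
  have hk : 0 < D ^ k := by positivity
  -- N ≤ D^(3k+1) E3
  have hNE : N ≤ D ^ (3 * k + 1) * E3 := by
    have a1 : N ≤ D ^ k * (H * (D ^ k) ^ 2 * E3) :=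
      h2.trans (mul_le_mul_of_nonneg_left h1 hk.le)
    have a2 : D ^ k * (H * (D ^ k) ^ 2 * E3) ≤ D ^ k * (D * (D ^ k) ^ 2 * E3) := by gcongr
    have a3 : D ^ k * (D * (D ^ k) ^ 2 * E3) = D ^ (3 * k + 1) * E3 := by ring
    linarith
  have hN3 : N ^ 3 ≤ (D ^ (3 * k + 1)) ^ 3 * E3 ^ 3 := by
    rw [← mul_pow]
    exact pow_le_pow_left₀ hN.le hNE 3
  have b1 : V ^ 2 ≤ (CT * n * rz) ^ 2 := pow_le_pow_left₀ hV0 h3 2
  have b2 : CP * H ^ 4 * n ^ 3 * V ^ 2 ≤ D ^ tP * D ^ 4 * n ^ 3 * (D ^ tT * n * rz) ^ 2 := by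
    have : (CT * n * rz) ^ 2 ≤ (D ^ tT * n * rz) ^ 2 := by gcongr
    calc CP * H ^ 4 * n ^ 3 * V ^ 2 ≤ D ^ tP * D ^ 4 * n ^ 3 * V ^ 2 := by gcongr
      _ ≤ D ^ tP * D ^ 4 * n ^ 3 * (CT * n * rz) ^ 2 := by gcongr
      _ ≤ _ := by gcongr
  have c1 : M * rx * rz * N ^ 3 ≤ (D ^ (3 * k + 1)) ^ 3 * (M * E3 ^ 3 * (rx * rz)) := by
    have : M * rx * rz * N ^ 3 ≤ M * rx * rz * ((D ^ (3 * k + 1)) ^ 3 * E3 ^ 3) := by gcongr
    calc M * rx * rz * N ^ 3 ≤ M * rx * rz * ((D ^ (3 * k + 1)) ^ 3 * E3 ^ 3) := this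
      _ = _ := by ring
  have c2 : M * rx * rz * N ^ 3 ≤
      (D ^ (3 * k + 1)) ^ 3 * (D ^ tP * D ^ 4 * n ^ 3 * (D ^ tT * n * rz) ^ 2) :=
    c1.trans (mul_le_mul_of_nonneg_left (h4.trans b2) (by positivity))
  have c3 : (D ^ (3 * k + 1)) ^ 3 * (D ^ tP * D ^ 4 * n ^ 3 * (D ^ tT * n * rz) ^ 2) =
      D ^ (9 * k + 7 + tP + 2 * tT) * n * rz ^ 2 * n ^ 4 := by ring
  have c4 : D ^ (9 * k + 7 + tP + 2 * tT) * n * rz ^ 2 * n ^ 4 ≤
      D ^ (9 * k + 7 + tP + 2 * tT) * n * rz ^ 2 * (D ^ 3 * N ^ 3) := by gcongr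
  have c5 : D ^ (9 * k + 7 + tP + 2 * tT) * n * rz ^ 2 * (D ^ 3 * N ^ 3) =
      (D ^ (9 * k + 10 + tP + 2 * tT) * n * rz) * (rz * N ^ 3) := by ring
  have hpos : 0 < rz * N ^ 3 := by positivity
  have c6 : (M * rx) * (rz * N ^ 3) ≤
      (D ^ (9 * k + 10 + tP + 2 * tT) * n * rz) * (rz * N ^ 3) := by
    have : (M * rx) * (rz * N ^ 3) = M * rx * rz * N ^ 3 := by ring
    rw [this]
    calc _ ≤ _ := c2
      _ = _ := c3
      _ ≤ _ := c4
      _ = _ := c5
  exact le_of_mul_le_mul_right c6 hpos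

end X5AVP

open X5AVP Classical in
theorem I5_AVP (hAV : B1.StAV) (hP2 : B1.StP2) (hT2 : B1.StT2c) (hNum : St5Num) : St5AVP := by
  intro k
  obtain ⟨CP, hCP1, hP2⟩ := hP2
  obtain ⟨CT, hCT1, hT2⟩ := hT2
  obtain ⟨tP, htP⟩ := exists_pow CP
  obtain ⟨tT, htT⟩ := exists_pow CT
  obtain ⟨C, hC⟩ := hNum (3 * k + 6 + tT)
  refine ⟨C, 9 * k + 10 + tP + 2 * tT, ?_⟩
  intro ι _ _ K r m H D hBig z x' hzx hx κ E2 hyg hκ hcard hdeg hcell R M hR hRv
  obtain ⟨hn0, hN0, hr2, -, hn4, hj⟩ := hC ι K r m H D hBig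
  have hr1 : 1 ≤ r := by omega
  have hD2 : 2 ≤ D := hBig.D2
  have hH1 : 1 ≤ H := hBig.std.one
  have hHD : H ≤ D := hBig.HD
  have hD0 : 0 < D := by linarith
  have hzm : z ≤ m := hzx.trans hx
  obtain ⟨-, hDn⟩ := hj z (by nlinarith)
  have hnR : (0 : ℝ) < Fintype.card ι := by exact_mod_cast hn0
  have hNR : (0 : ℝ) < K.N := by exact_mod_cast hN0
  have hrR : (0 : ℝ) < r := by exact_mod_cast (by omega : 0 < r)
  by_cases hM : M < 0
  · have h1 : M * (r : ℝ) ^ (4 * x') ≤ 0 :=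
      mul_nonpos_of_nonpos_of_nonneg hM.le (by positivity)
    exact h1.trans (by positivity)
  replace hM : 0 ≤ M := not_lt.1 hM
  set u : ℕ → ℕ × ℕ := un K r z κ with hu
  have hu_def : ∀ i, u i = (κ (K.a i), cell K r z i) := fun i => rfl
  have hu_iff : ∀ i j, u j = u i ↔ κ (K.a j) = κ (K.a i) ∧ cell K r z j = cell K r z i := by
    intro i j
    rw [hu_def, hu_def, Prod.mk.injEq]
  obtain ⟨pf, hpf, hE3⟩ := hAV ι (ℕ × ℕ) K r m x' z hr1 hzx hx H (D ^ k) (by linarith)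
    (by positivity) hN0 u E2 hyg
    (fun i _ j _ hab hc => by rw [hu_def, hu_def, hab, hc])
    hdeg
    (fun i hi => by
      have h := hcell i hi
      have he : (E2.filter (fun j => u j = u i)) = E2.filter (fun j =>
          κ (K.a j) = κ (K.a i) ∧ cell K r z j = cell K r z i) :=
        Finset.filter_congr (fun j _ => hu_iff i j)
      rw [he]
      exact h)
  set E3 := E2.filter (fun i => ∃ j ∈ E2, u j = u i ∧ K.a j = pf (u i) ∧
      cell K r x' j = cell K r x' i) with hE3def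
  have hE3sub : E3 ⊆ E2 := Finset.filter_subset _ _
  have hE3hyg : ∀ i ∈ E3, Hyg K r m H i := fun i hi => hyg i (hE3sub hi)
  -- choice of the sets
  let R' : ℕ × ℕ → Finset ι := fun U =>
    if h : ∃ j ∈ E2, u j = U ∧ K.a j = pf U then R h.choose else ∅
  have hR' : ∀ i ∈ E3, M ≤ ((R' (u i)).card : ℝ) ∧ R' (u i) ⊆ PSr K r m H z (cell K r z i) ∧
      R' (u i) ⊆ vis K r x' (cell K r x' i) := by
    intro i hi
    obtain ⟨hi2, j, hj2, huj, haj, hcj⟩ := mem_filter.1 hi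
    have hex : ∃ j ∈ E2, u j = u i ∧ K.a j = pf (u i) := ⟨j, hj2, huj, haj⟩
    have hR'eq : R' (u i) = R hex.choose := by
      simp only [R']
      rw [dif_pos hex]
    obtain ⟨h0mem, h0u, h0a⟩ := hex.choose_spec
    set j0 := hex.choose with hj0
    have hc0 : cell K r z j0 = cell K r z i := ((hu_iff i j0).1 h0u).2
    have hcji : cell K r z j = cell K r z i := ((hu_iff i j).1 huj).2
    obtain ⟨g1, g2⟩ := hR j0 h0mem
    rw [hR'eq]
    refine ⟨g1, ?_, ?_⟩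
    · rw [← hc0]; exact g2
    · rw [← hcj]
      exact hRv j0 h0mem j hj2 (by rw [haj, h0a]) (by rw [hcji, hc0])
  -- the number of lines of a unit
  have hVs : ∀ U ∈ E3.image u, ∀ s, ((E3.filter (fun i => u i = U)).image (K.ln s)).card ≤
      (Vs K r z κ U).card := by
    intro U _ s
    refine Finset.card_le_card ?_
    intro p hp
    obtain ⟨i, hi, rfl⟩ := mem_image.1 hp
    obtain ⟨hi3, rfl⟩ := mem_filter.1 hi
    unfold Vs
    rw [mem_filter]
    refine ⟨ln_vis K (hE3hyg i hi3) hzm s, ?_⟩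
    rw [hu_def]
    cases s
    · rfl
    · exact (hκ i (hE3sub hi3)).symm
  have hsum := sumV (m := m) (z := z) (H := H) K κ E3 hr1 hE3hyg
  have hT2' := (hT2 ι K hBig.std.inj hBig.gp r z hr1).1
  have hVT : ((∑ U ∈ E3.image u, (Vs K r z κ U).card : ℕ) : ℝ) ≤
      CT * Fintype.card ι * (r : ℝ) ^ z := by
    refine le_trans ?_ hT2'
    rw [← Nat.cast_sum]
    exact_mod_cast hsum
  have hE3N : (K.N : ℝ) ≤ D ^ (3 * k + 1) * (E3.card : ℝ) := by
    have hk : 0 < D ^ k := by positivity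
    have a1 : (K.N : ℝ) ≤ D ^ k * (H * (D ^ k) ^ 2 * E3.card) :=
      hcard.trans (mul_le_mul_of_nonneg_left hE3 hk.le)
    have a2 : D ^ k * (H * (D ^ k) ^ 2 * (E3.card : ℝ)) ≤ D ^ k * (D * (D ^ k) ^ 2 * E3.card) := by
      gcongr
    have a3 : D ^ k * (D * (D ^ k) ^ 2 * (E3.card : ℝ)) = D ^ (3 * k + 1) * E3.card := by ring
    linarith
  have h32 : 32 * ∑ U ∈ E3.image u, (Vs K r z κ U).card ≤ E3.card := by
    have e1 : (32 : ℝ) * ((∑ U ∈ E3.image u, (Vs K r z κ U).card : ℕ) : ℝ) ≤ E3.card := by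
      have e2 : D ^ (3 * k + 1) * (32 * (CT * Fintype.card ι * (r : ℝ) ^ z)) ≤
          D ^ (3 * k + 1) * (E3.card : ℝ) := by
        have hCTD : CT ≤ D ^ tT := pow_bound CT D hD2 tT htT
        have h32D : (32 : ℝ) ≤ D ^ 5 := by
          calc (32 : ℝ) = 2 ^ 5 := by norm_num
            _ ≤ D ^ 5 := pow_le_pow_left₀ (by norm_num) hD2 5
        calc D ^ (3 * k + 1) * (32 * (CT * Fintype.card ι * (r : ℝ) ^ z)) ≤
            D ^ (3 * k + 1) * (D ^ 5 * (D ^ tT * Fintype.card ι * (r : ℝ) ^ z)) := by gcongr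
          _ = D ^ (3 * k + 6 + tT) * (Fintype.card ι * (r : ℝ) ^ z) := by ring
          _ ≤ K.N := hDn
          _ ≤ _ := hE3N
      have e3 := le_of_mul_le_mul_left e2 (by positivity)
      calc (32 : ℝ) * ((∑ U ∈ E3.image u, (Vs K r z κ U).card : ℕ) : ℝ) ≤
          32 * (CT * Fintype.card ι * (r : ℝ) ^ z) := by gcongr
        _ ≤ _ := e3
    exact_mod_cast e1
  have hmain := hP2 ι (ℕ × ℕ) K hBig.std.inj hBig.gp r m x' z hr1 hzx hx H (by linarith) u
    (fun U => (Vs K r z κ U).card) E3 (fun i hi => mem_range.2 (hE3hyg i hi).lt) hE3hyg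
    (fun i _ j _ h => ((hu_iff j i).1 h).2) hVs h32 R' M hR'
  have hfin := final (k := k) (tP := tP) (tT := tT) (rx := (r : ℝ) ^ (4 * x'))
    (rz := (r : ℝ) ^ z) (n := (Fintype.card ι : ℝ)) hM hNR hnR.le hD2 (by linarith) hHD
    (by positivity) (by positivity)
    (V := ((∑ U ∈ E3.image u, (Vs K r z κ U).card : ℕ) : ℝ)) (Nat.cast_nonneg _)
    (CP := CP) (CT := CT) (by linarith) (by linarith) (E3 := (E3.card : ℝ)) (Nat.cast_nonneg _)
    hE3 hcard hVT (by rw [← pow_add]; exact hmain) hn4 (pow_bound CP D hD2 tP htP)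
    (pow_bound CT D hD2 tT htT)
  exact hfin

end Pool.Agent.Work.MP_e17eac_co.BB

end

section

/-!
# Arbitrary sets, B-5: the lines of one class are few
-/

set_option autoImplicit false

namespace Pool.Agent.Work.MP_e17eac_co.BB

open Finset
open Pool.Agent.Work.MP_e17eac_co.DH
open Pool.Agent.Work.MP_e17eac_co.B1

namespace X5Ball

variable {ι : Type} [Fintype ι] [DecidableEq ι]

theorem big_mono {K : KSys ι} {r m : ℕ} {H D : ℝ} {C C' : ℕ} (h : Big K r m H D C)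
    (hC : C' ≤ C) : Big K r m H D C' := by
  have h2 : (1 : ℝ) ≤ D := by linarith [h.D2]
  have hr : (1 : ℝ) ≤ (r : ℝ) := by
    have := h.std.two
    exact_mod_cast (by omega : 1 ≤ r)
  refine ⟨h.std, h.gp, h.HD, h.D2, h.log, h.ub, ?_, ?_⟩
  · exact (pow_le_pow_right₀ h2 hC).trans h.Dr
  · exact (pow_le_pow_right₀ hr (Nat.mul_le_mul_right _ hC)).trans h.rn

end X5Ball

open X5Ball in
theorem I5_Ball (hRad : StRad) (hBig : StOneBig) (hNum : St5Num) : St5Ball := by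
  intro kp l
  obtain ⟨C1, hC1⟩ := hBig
  obtain ⟨C2, hC2⟩ := hNum 4
  refine ⟨max C1 C2, ?_⟩
  intro ι _ _ K r m H D s0 e0 L κ e X2 X4 S E hB hF y hy1 hy2 i hi
  have hB1 := big_mono hB (le_max_left C1 C2)
  have hB2 := big_mono hB (le_max_right C1 C2)
  have ho := hF.one
  obtain ⟨-, hcard⟩ := hC1 ι K r m H D s0 e0 L κ e kp l X2 X4 S E hB1 ho
  obtain ⟨-, -, hr2, -, -, hpow⟩ := hC2 ι K r m H D hB2
  obtain ⟨hX2, hX4⟩ := ho.lev
  obtain ⟨j, hj⟩ : ∃ j, j = 4 * y - 1 - k6 kp l := ⟨_, rfl⟩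
  have hj1 : 4 * X2 ≤ j := by omega
  have hj2 : j + k6 kp l = 4 * y - 1 := by omega
  have hj3 : j + k6 kp l ≤ 4 * X4 := by omega
  have hg := hF.grow j hj1 hj3 i hi
  rw [hj2] at hg
  have hr1 : 1 ≤ r := by omega
  obtain ⟨-, -, -, -, -, hpos⟩ := hRad ι K (PS K r m H) s0 e0 r ho.lab.base hr1 (4 * y - 1)
    (hcard (4 * y - 1) (by omega))
  have hp := hpos hB.std.inj (hpow (4 * y - 1) (by omega)).1 (K.a i)
  have hrR : (2 : ℝ) ≤ (r : ℝ) := by exact_mod_cast hr2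
  set R := rad K (PS K r m H) s0 e0 r (4 * y - 1) (K.a i) with hR
  have hgr : (r : ℝ) * R < rad K (PS K r m H) s0 e0 r j (K.a i) := by
    have h1 : (r : ℝ) ^ 2 * R ≤ rad K (PS K r m H) s0 e0 r j (K.a i) := hg
    have h2 : (r : ℝ) * R < (r : ℝ) ^ 2 * R := by nlinarith [mul_pos (by linarith : (0:ℝ) < r) hp]
    linarith
  have hT := card_le_of_lt_rad K (PS K r m H) s0 e0 (r := r) (j := j) (p := K.a i) hgr
    (T := (E.image K.a).filter (fun p => κ y p = κ y (K.a i))) ?_ ?_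
  · have e1 : 4 * y = j + (k6 kp l + 1) := by omega
    rw [e1, pow_add, ← mul_assoc]
    exact mul_le_mul_of_nonneg_right hT (by positivity)
  · intro p hp'
    rw [mem_filter, mem_image] at hp'
    obtain ⟨⟨i', hi', rfl⟩, -⟩ := hp'
    exact (ho.hyg i' hi').ps false
  · intro p hp'
    rw [mem_filter, mem_image] at hp'
    obtain ⟨⟨i', hi', rfl⟩, hk⟩ := hp'
    exact ho.dm y (by omega) hy2 i hi i' hi' hk.symm

end Pool.Agent.Work.MP_e17eac_co.BB

end

section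

/-!
# Arbitrary sets, blueprint part B-5: FAR

Two lines which are far apart share few labels in long hulls.
-/

set_option autoImplicit false

namespace Pool.Agent.Work.MP_e17eac_co.BB

open Finset
open Pool.Agent.Work.MP_e17eac_co.DH
open Pool.Agent.Work.MP_e17eac_co.B1

namespace X5Far

/-- If `g` is determined by `f` on `F`, then `g` has at most as many values as `f`. -/
lemma card_image_le_of_det {α β γ : Type*} [DecidableEq β] [DecidableEq γ] (F : Finset α)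
    (f : α → β) (g : α → γ) (h : ∀ i ∈ F, ∀ j ∈ F, f i = f j → g i = g j) :
    (F.image g).card ≤ (F.image f).card := by
  classical
  rcases F.eq_empty_or_nonempty with rfl | ⟨i0, _⟩
  · simp
  have : Nonempty α := ⟨i0⟩
  have hch : ∀ y ∈ F.image g, ∃ i ∈ F, g i = y := fun y hy => by simpa using hy
  choose! u hu hgu using hch
  apply card_le_card_of_injOn (fun y => f (u y))
  · intro y hy
    exact mem_coe.2 (mem_image_of_mem f (hu y hy))
  · intro y hy y' hy' he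
    have := h _ (hu y hy) _ (hu y' hy') he
    rw [hgu y hy, hgu y' hy'] at this
    exact this

/-- Three sorted elements. -/
lemma three {s : Finset ℕ} (h : 2 < s.card) : ∃ a ∈ s, ∃ b ∈ s, ∃ c ∈ s, a < b ∧ b < c := by
  obtain ⟨a, b, c, ha, hb, hc, hab, hac, hbc⟩ := Finset.two_lt_card_iff.1 h
  rcases lt_or_gt_of_ne hab with h1 | h1 <;> rcases lt_or_gt_of_ne hac with h2 | h2 <;>
    rcases lt_or_gt_of_ne hbc with h3 | h3
  · exact ⟨a, ha, b, hb, c, hc, h1, h3⟩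
  · exact ⟨a, ha, c, hc, b, hb, h2, h3⟩
  · omega
  · exact ⟨c, hc, a, ha, b, hb, h2, h1⟩
  · exact ⟨b, hb, a, ha, c, hc, h1, h2⟩
  · omega
  · exact ⟨b, hb, c, hc, a, ha, h3, h2⟩
  · exact ⟨c, hc, b, hb, a, ha, h3, h1⟩

section

variable {ι : Type} [Fintype ι] [DecidableEq ι]

/-- The number of cells of level `z` is at most two. -/
lemma cells_le_two (hNest : St5Nest) (K : KSys ι) (r m : ℕ) (D s0 e0 : ℝ) (L : Lab)
    (E : Finset ℕ) (hL : LabOK K r m D s0 e0 L E) (x z : ℕ) (hz : 1 ≤ z) (hzx : z ≤ x)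
    (hxm : x ≤ m) (p q : ι) (ε ρ : ℝ) (hε : 0 ≤ ε) (hρ : ρ ≤ dist0 K s0 e0 p q)
    (F : Finset ℕ) (hFE : F ⊆ E)
    (hF : ∀ i ∈ F, K.a i = p ∧ (∃ i' ∈ E, K.a i' = q ∧ L.lab x i' = L.lab x i) ∧
      D * L.del x i ≤ ε ∧ 4 * ε * (e0 - s0) < ρ * (L.h1 z i - L.h0 z i)) :
    (F.image (cell K r z)).card ≤ 2 := by
  by_contra hcon
  push Not at hcon
  obtain ⟨c1, hc1, c2, hc2, c3, hc3, h12, h23⟩ := three hcon
  obtain ⟨i1, hi1, rfl⟩ := mem_image.1 hc1
  obtain ⟨i2, hi2, rfl⟩ := mem_image.1 hc2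
  obtain ⟨i3, hi3, rfl⟩ := mem_image.1 hc3
  have hzm : z ≤ m := hzx.trans hxm
  have hx1 : 1 ≤ x := hz.trans hzx
  have hbase := hL.base
  have d12 := hL.disj z hz hzm i1 (hFE hi1) i2 (hFE hi2) h12
  have d23 := hL.disj z hz hzm i2 (hFE hi2) i3 (hFE hi3) h23
  have n1 := hNest ι K r m D s0 e0 L E hL z x hz hzx hxm i1 (hFE hi1)
  have n3 := hNest ι K r m D s0 e0 L E hL z x hz hzx hxm i3 (hFE hi3)
  have u1 := hL.hull x hx1 hxm i1 (hFE hi1)
  have u3 := hL.hull x hx1 hxm i3 (hFE hi3)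
  have u2 := hL.hull z hz hzm i2 (hFE hi2)
  -- heights at `h0 x i`
  have key : ∀ i ∈ F, |K.ht p (L.h0 x i) - K.ht q (L.h0 x i)| ≤ ε := by
    intro i hi
    obtain ⟨h1, ⟨i', hi', hq, hlab⟩, h3, h4⟩ := hF i hi
    have := (hL.con x hx1 hxm i (hFE hi) i' hi' hlab.symm).1
    rw [h1, hq] at this
    exact this.trans h3
  have huv : L.h0 x i1 < L.h0 x i3 := by linarith
  have hd := dist0_le_of_two K hbase p q huv u1.1 (by linarith) (key i1 hi1) (key i3 hi3)
  have hlen : L.h1 z i2 - L.h0 z i2 < L.h0 x i3 - L.h0 x i1 := by linarith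
  have hpos : 0 < L.h1 z i2 - L.h0 z i2 := by linarith
  have h4 := (hF i2 hi2).2.2.2
  have hw : 0 < e0 - s0 := by linarith
  have hεw : 0 ≤ ε * (e0 - s0) := mul_nonneg hε hw.le
  have hρpos : 0 < ρ := by
    by_contra hn
    push Not at hn
    have : ρ * (L.h1 z i2 - L.h0 z i2) ≤ 0 := mul_nonpos_of_nonpos_of_nonneg hn hpos.le
    nlinarith
  have e1 : ρ * (L.h1 z i2 - L.h0 z i2) ≤ ρ * (L.h0 x i3 - L.h0 x i1) :=
    mul_le_mul_of_nonneg_left hlen.le hρpos.le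
  have e2 : ρ * (L.h0 x i3 - L.h0 x i1) ≤ (L.h0 x i3 - L.h0 x i1) * dist0 K s0 e0 p q := by
    rw [mul_comm]
    exact mul_le_mul_of_nonneg_left hρ (by linarith)
  nlinarith

/-- The number of labels in one cell of level `z`. -/
lemma labs_le (hCell : B1.StCell) (K : KSys ι) (r m : ℕ) (H D s0 e0 : ℝ) (L : Lab)
    (E : Finset ℕ) (hL : LabOK K r m D s0 e0 L E) (hH : ∀ i ∈ E, Hyg K r m H i) (hr : 1 ≤ r)
    (hH0 : 0 ≤ H) (x z : ℕ) (hz : 1 ≤ z) (hzx : z ≤ x) (hxm : x ≤ m) (p : ι)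
    (F : Finset ℕ) (hFE : F ⊆ E) (hF : ∀ i ∈ F, K.a i = p) (c : ℕ) :
    (((F.filter (fun i => cell K r z i = c)).image (L.lab x)).card : ℝ) ≤
      H * (r : ℝ) ^ (x - z) := by
  have hx1 : 1 ≤ x := hz.trans hzx
  set G := F.filter (fun i => cell K r z i = c) with hG
  rcases G.eq_empty_or_nonempty with h0 | ⟨i0, hi0⟩
  · rw [h0]
    simp only [image_empty, card_empty, Nat.cast_zero]
    positivity
  have hGF : ∀ i ∈ G, i ∈ F ∧ cell K r z i = c := fun i hi => by simpa [hG] using hi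
  have h1 : (G.image (L.lab x)).card ≤ (G.image (cell K r x)).card := by
    apply card_image_le_of_det
    intro i hi j hj hij
    have hi' := hGF i hi
    have hj' := hGF j hj
    exact hL.line x hx1 hxm i (hFE hi'.1) j (hFE hj'.1) ((hF i hi'.1).trans (hF j hj'.1).symm) hij
  have h2 : G.image (cell K r x) ⊆ (range (r ^ (4 * x))).filter
      (fun w => w / r ^ (4 * (x - z)) = c ∧ p ∈ vis K r x w) := by
    intro w hw
    obtain ⟨i, hi, rfl⟩ := mem_image.1 hw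
    have hi' := hGF i hi
    have hlt := hL.lt i (hFE hi'.1)
    have hC := hCell ι K r x hr
    refine mem_filter.2 ⟨mem_range.2 (hC.1 i hlt), ?_, ?_⟩
    · rw [← hC.2.2.1 z hzx i]
      exact hi'.2
    · unfold vis KSys.lines
      apply mem_union_left
      rw [← hF i hi'.1]
      apply mem_image_of_mem
      simp [ce, hlt]
  have h3 : (G.image (cell K r x)).card ≤ Wr K r z c x p := card_le_card h2
  have hi0' := hGF i0 hi0
  have h4 := (hH i0 (hFE hi0'.1)).rel false z (hzx.trans hxm)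
  have h5 : K.ln false i0 = p := by
    rw [← hF i0 hi0'.1]; rfl
  rw [h5, hi0'.2] at h4
  have h6 := (mem_filter.1 h4).2 x hzx hxm
  refine le_trans ?_ h6
  exact_mod_cast h1.trans h3

end

end X5Far

open X5Far in
/-- Two lines which are far apart share few labels in long hulls. -/
theorem I5_Far (hNest : St5Nest) (hCell : B1.StCell) : St5Far := by
  intro ι _ _ K r m H D s0 e0 L E hL hHyg hr hH0 x z hz hzx hxm p q ε ρ hε hρ F hFE hF
  have h2 := cells_le_two hNest K r m D s0 e0 L E hL x z hz hzx hxm p q ε ρ hε hρ F hFE hF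
  have hsub : F.image (L.lab x) ⊆ (F.image (cell K r z)).biUnion
      (fun c => (F.filter (fun i => cell K r z i = c)).image (L.lab x)) := by
    intro w hw
    obtain ⟨i, hi, rfl⟩ := mem_image.1 hw
    refine mem_biUnion.2 ⟨cell K r z i, mem_image_of_mem _ hi, ?_⟩
    exact mem_image_of_mem _ (mem_filter.2 ⟨hi, rfl⟩)
  have h3 : (F.image (L.lab x)).card ≤ ∑ c ∈ F.image (cell K r z),
      ((F.filter (fun i => cell K r z i = c)).image (L.lab x)).card :=
    (card_le_card hsub).trans card_biUnion_le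
  have h4 : ((F.image (L.lab x)).card : ℝ) ≤ ∑ c ∈ F.image (cell K r z),
      (((F.filter (fun i => cell K r z i = c)).image (L.lab x)).card : ℝ) := by
    exact_mod_cast h3
  refine h4.trans ?_
  have h5 : ∑ c ∈ F.image (cell K r z),
      (((F.filter (fun i => cell K r z i = c)).image (L.lab x)).card : ℝ) ≤
      ∑ _c ∈ F.image (cell K r z), H * (r : ℝ) ^ (x - z) :=
    sum_le_sum (fun c _ => labs_le hCell K r m H D s0 e0 L E hL hHyg hr hH0 x z hz hzx hxm p F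
      hFE (fun i hi => (hF i hi).1) c)
  refine h5.trans ?_
  rw [sum_const, nsmul_eq_mul, mul_assoc]
  apply mul_le_mul_of_nonneg_right
  · exact_mod_cast h2
  · positivity

end Pool.Agent.Work.MP_e17eac_co.BB

end

section

/-!
# B-5, item FEW: few pairs (cell, line) give few edges
-/

namespace Pool.Agent.Work.MP_e17eac_co.BB

open Finset
open Pool.Agent.Work.MP_e17eac_co.DH
open Pool.Agent.Work.MP_e17eac_co.B1

theorem I5_Few (hFP : B1.StFP) (hNum : St5Num) : St5Few := by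
  intro k
  obtain ⟨C, hC⟩ := hNum 1
  refine ⟨C, 3 * k + 18, ?_⟩
  intro ι _ _ K r m H D hB x hx F hF hP
  obtain ⟨hn0, hN0, hr2, -, hcube, -⟩ := hC ι K r m H D hB
  have hD2 : (2 : ℝ) ≤ D := hB.D2
  have hD1 : (1 : ℝ) ≤ D := by linarith
  have hD0 : (0 : ℝ) < D := by linarith
  have hH1 : (1 : ℝ) ≤ H := hB.std.one
  have hH0 : (0 : ℝ) ≤ H := by linarith
  have hr0 : (0 : ℝ) < r := by
    have : (2 : ℝ) ≤ r := by exact_mod_cast hr2
    linarith
  have hrx : (0 : ℝ) < (r : ℝ) ^ x := pow_pos hr0 x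
  have hFr : F ⊆ range K.N := fun i hi => mem_range.mpr (hF i hi).lt
  have h1 := (hFP ι K hB.std.inj r x (by omega) H hH0 F hFr
    (fun i hi => (hF i hi).crowd x hx) false).1
  have hln : K.ln false = K.a := rfl
  rw [hln] at h1
  obtain ⟨P, hPd⟩ : ∃ P : ℝ, P = (((F.image (fun i => (cell K r x i, K.a i))).card : ℕ) : ℝ) :=
    ⟨_, rfl⟩
  rw [← hPd] at h1 hP
  have hP0 : 0 ≤ P := by rw [hPd]; exact Nat.cast_nonneg _
  obtain ⟨n, hn⟩ : ∃ n : ℝ, n = (Fintype.card ι : ℝ) := ⟨_, rfl⟩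
  rw [← hn] at h1 hP hcube
  have hn0' : 0 < n := by rw [hn]; exact_mod_cast hn0
  have hHD : H ^ 3 ≤ D ^ 3 := pow_le_pow_left₀ hH0 hB.HD 3
  have h4096 : (4096 : ℝ) ≤ D ^ 12 := by
    calc (4096 : ℝ) = 2 ^ 12 := by norm_num
      _ ≤ D ^ 12 := pow_le_pow_left₀ (by norm_num) hD2 12
  have h2 : (D ^ 3 * (r : ℝ) ^ x) * (D ^ k * (F.card : ℝ)) ^ 3 ≤
      (D ^ 3 * (r : ℝ) ^ x) * (K.N : ℝ) ^ 3 := by
    calc (D ^ 3 * (r : ℝ) ^ x) * (D ^ k * (F.card : ℝ)) ^ 3
        = D ^ (3 * k + 3) * ((F.card : ℝ) ^ 3 * (r : ℝ) ^ x) := by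
          rw [mul_pow, ← pow_mul, pow_add, mul_comm k 3]
          ring
      _ ≤ D ^ (3 * k + 3) * (4096 * H ^ 3 * n ^ 3 * P) := by gcongr
      _ ≤ D ^ (3 * k + 3) * (D ^ 12 * D ^ 3 * n ^ 3 * P) := by gcongr
      _ = n ^ 3 * (D ^ (3 * k + 18) * P) := by
          rw [show 3 * k + 18 = (3 * k + 3) + 12 + 3 by ring, pow_add, pow_add]
          ring
      _ ≤ n ^ 3 * (n * (r : ℝ) ^ x) := by gcongr
      _ = n ^ 4 * (r : ℝ) ^ x := by ring
      _ ≤ (D ^ 3 * (K.N : ℝ) ^ 3) * (r : ℝ) ^ x := by gcongr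
      _ = _ := by ring
  have h3 : (D ^ k * (F.card : ℝ)) ^ 3 ≤ (K.N : ℝ) ^ 3 :=
    le_of_mul_le_mul_left h2 (by positivity)
  exact le_of_pow_le_pow_left₀ (by norm_num) (Nat.cast_nonneg _) h3

end Pool.Agent.Work.MP_e17eac_co.BB

end

section

/-!
# Arbitrary sets, blueprint part B-5: the lines of the unit of a violating edge are close to its
line on the hull of level `z`
-/

set_option autoImplicit false

namespace Pool.Agent.Work.MP_e17eac_co.BB

open Finset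
open Pool.Agent.Work.MP_e17eac_co.DH
open Pool.Agent.Work.MP_e17eac_co.B1

namespace X5GeoA

theorem shift {ι : Type} [Fintype ι] [DecidableEq ι] (K : KSys ι) {s0 e0 : ℝ} (hse : s0 < e0)
    (p q : ι) {u t len D δ R Ry r : ℝ} (hr : 0 ≤ r) (hD : 2 ≤ D) (hR : 0 ≤ R)
    (h0 : |K.ht p u - K.ht q u| ≤ D * δ) (hδ : δ ≤ R) (hd : dist0 K s0 e0 p q ≤ r * Ry)
    (hlen : |t - u| ≤ len) (hv : r * len * Ry ≤ R * (e0 - s0)) :
    |K.ht q t - K.ht p t| ≤ 2 * D * R := by
  have hw : 0 < e0 - s0 := by linarith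
  have h1 := abs_ht_shift K hse p q u t
  have hdn := dist0_nonneg K s0 e0 p q
  have hlen0 : 0 ≤ len := (abs_nonneg _).trans hlen
  have h2 : dist0 K s0 e0 p q * (|t - u| / (e0 - s0)) ≤ R := by
    rw [mul_div_assoc', div_le_iff₀ hw]
    calc dist0 K s0 e0 p q * |t - u| ≤ (r * Ry) * len :=
          mul_le_mul hd hlen (abs_nonneg _) (hdn.trans hd)
      _ = r * len * Ry := by ring
      _ ≤ R * (e0 - s0) := hv
  have h3 : D * δ ≤ D * R := mul_le_mul_of_nonneg_left hδ (by linarith)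
  have h4 : 2 * R ≤ D * R := mul_le_mul_of_nonneg_right hD hR
  rw [abs_sub_comm]
  calc |K.ht p t - K.ht q t| ≤ |K.ht p u - K.ht q u| +
      2 * dist0 K s0 e0 p q * (|t - u| / (e0 - s0)) := h1
    _ ≤ D * R + 2 * R := by linarith
    _ ≤ 2 * D * R := by linarith

end X5GeoA

theorem I5_GeoA (hNest : St5Nest) (hCell : B1.StCell) (hDist : StDist) : St5GeoA := by
  classical
  intro ι _ _ K r m H D s0 e0 L κ e kp l X2 X4 S E hr hD O x y z hx2 hx4 hy2 hy4 hz1 hzx i hi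
    hR hv s hs
  unfold unl at hs
  rw [mem_image] at hs
  obtain ⟨i', hi', rfl⟩ := hs
  rw [mem_filter] at hi'
  obtain ⟨hiE', hlab, hkap⟩ := hi'
  have hlev := O.lev
  have hx1 : 1 ≤ x := hlev.1.trans hx2
  have hxm : x ≤ m := by omega
  have hzm : z ≤ m := hzx.trans hxm
  have hse := O.lab.base
  obtain ⟨hc, -, -, -⟩ := O.lab.leq x hx1 hxm i' hiE' i hi hlab
  have hcz : cell K r z i' = cell K r z i := by
    have h1 := (hCell ι K r x hr).2.2.1 z hzx
    rw [h1 i', h1 i, hc]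
  obtain ⟨hn0, hn1⟩ := hNest ι K r m D s0 e0 L E O.lab z x hz1 hzx hxm i hi
  obtain ⟨-, hlt, -, -, -⟩ := O.lab.hull x hx1 hxm i hi
  obtain ⟨hcon0, hcon1⟩ := O.lab.con x hx1 hxm i hi i' hiE' hlab.symm
  have hup : L.del x i ≤ rd K r m H s0 e0 (4 * x - 1) (K.a i) := O.up x hx2 hx4 i hi
  have hdm : dist0 K s0 e0 (K.a i) (K.a i') ≤ r * rd K r m H s0 e0 (4 * y - 1) (K.a i) :=
    O.dm y hy2 hy4 i hi i' hiE' hkap.symm
  have hr0 : (0 : ℝ) ≤ r := Nat.cast_nonneg _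
  unfold RB
  rw [mem_filter]
  refine ⟨?_, ?_, ?_⟩
  · have := (O.hyg i' hiE').rel false z hzm
    rw [hcz] at this
    exact this
  · apply X5GeoA.shift K hse (K.a i) (K.a i') hr0 hD hR hcon0 hup hdm
      (len := L.h1 z i - L.h0 z i) _ hv
    rw [abs_le]
    constructor <;> linarith
  · apply X5GeoA.shift K hse (K.a i) (K.a i') hr0 hD hR hcon1 hup hdm
      (len := L.h1 z i - L.h0 z i) _ hv
    rw [abs_le]
    constructor <;> linarith

end Pool.Agent.Work.MP_e17eac_co.BB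

end

section

/-!
# Inheritance of the output of B-4
-/

set_option autoImplicit false

namespace Pool.Agent.Work.MP_e17eac_co.BB

open Finset
open Pool.Agent.Work.MP_e17eac_co.DH
open Pool.Agent.Work.MP_e17eac_co.B1

namespace X5Inh

lemma near_mono {ι : Type} [Fintype ι] [DecidableEq ι] (K : KSys ι) (r m : ℕ) (H s0 e0 : ℝ)
    (L : Lab) (E E' : Finset ℕ) (h : E' ⊆ E) (x j i : ℕ) :
    near K r m H s0 e0 L E' x j i ≤ near K r m H s0 e0 L E x j i := by
  classical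
  unfold near
  refine card_le_card ?_
  intro s hs
  simp only [mem_filter, mem_image] at hs ⊢
  obtain ⟨⟨a, ha, ha2⟩, ⟨i', hi', h1, h2⟩, h3⟩ := hs
  exact ⟨⟨a, h ha, ha2⟩, ⟨i', h hi', h1, h2⟩, h3⟩

end X5Inh

theorem I5_Inh (hSub : StOneSub) : St5Inh := by
  intro ι _ _ K r m H D D' s0 e0 L κ e kp l X2 X4 S E E' hD hDD hF hsub hcard
  refine ⟨hSub ι K r m H D D' s0 e0 L κ e kp l X2 X4 S E E' hD hDD hF.one hsub hcard, ?_, ?_, ?_⟩
  · intro j hj hj2 i hi
    exact hF.grow j hj hj2 i (hsub hi)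
  · intro x hx y hy hyx hx2 hx3
    exact (card_le_card (image_subset_image hsub)).trans (hF.flux x hx y hy hyx hx2 hx3)
  · intro x hx hxm j hj hj2 i hi
    refine le_trans ?_ (hF.near x hx hxm j hj hj2 i (hsub hi))
    have h1 := X5Inh.near_mono K r m H s0 e0 L E E' hsub x j i
    gcongr

end Pool.Agent.Work.MP_e17eac_co.BB

end

section

/-!
# Block B5: nested hulls
-/

namespace Pool.Agent.Work.MP_e17eac_co.BB

open Finset

theorem I5_Nest : St5Nest := by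
  intro ι _ _ K r m D s0 e0 L E h z x hz hzx
  induction x, hzx using Nat.le_induction with
  | base => intro _ i _; exact ⟨le_rfl, le_rfl⟩
  | succ x hx ih =>
    intro hm i hi
    have h1 := ih (by omega) i hi
    have h2 := h.nest x (by omega) hm i hi
    exact ⟨h1.1.trans h2.1, h2.2.trans h1.2⟩

end Pool.Agent.Work.MP_e17eac_co.BB

end

section

/-!
# B-5, item NUM: numerical consequences of the global assumptions
-/

namespace Pool.Agent.Work.MP_e17eac_co.BB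

open Finset
open Pool.Agent.Work.MP_e17eac_co.DH
open Pool.Agent.Work.MP_e17eac_co.B1

namespace X5Num

theorem cube_rpow {x : ℝ} (hx : 0 ≤ x) : (x ^ ((4 : ℝ) / 3)) ^ 3 = x ^ 4 := by
  rw [← Real.rpow_natCast (x ^ ((4 : ℝ) / 3)) 3, ← Real.rpow_mul hx]
  norm_num

end X5Num

theorem I5_Num : St5Num := by
  intro k
  refine ⟨3 * k + 3, ?_⟩
  intro ι _ _ K r m H D hB
  have hr2 : 2 ≤ r := hB.std.two
  have hr2' : (2 : ℝ) ≤ r := by exact_mod_cast hr2
  have hr1 : (1 : ℝ) ≤ r := by linarith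
  have hD2 : (2 : ℝ) ≤ D := hB.D2
  have hD1 : (1 : ℝ) ≤ D := by linarith
  have hn1 : (1 : ℝ) ≤ Fintype.card ι := le_trans (one_le_pow₀ hr1) hB.rn
  have hn0 : 0 < Fintype.card ι := by
    have : (0 : ℝ) < Fintype.card ι := by linarith
    exact_mod_cast this
  have hN0 : 0 < K.N := lt_of_lt_of_le (Nat.pow_pos (by omega)) hB.std.pow
  have hDk : ∀ j, j ≤ 3 * k + 3 → D ^ j ≤ r := fun j hj =>
    le_trans (pow_le_pow_right₀ hD1 hj) hB.Dr
  have hDN : (Fintype.card ι : ℝ) ^ ((4 : ℝ) / 3) ≤ D * K.N := by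
    refine le_trans hB.std.dense ?_
    exact mul_le_mul_of_nonneg_right hB.HD (Nat.cast_nonneg _)
  have hcube : (Fintype.card ι : ℝ) ^ 4 ≤ D ^ 3 * (K.N : ℝ) ^ 3 := by
    rw [← X5Num.cube_rpow (Nat.cast_nonneg _), ← mul_pow]
    exact pow_le_pow_left₀ (Real.rpow_nonneg (Nat.cast_nonneg _) _) hDN 3
  refine ⟨hn0, hN0, hr2, hDk k (by omega), hcube, ?_⟩
  intro j hj
  constructor
  · have h1 : (r : ℝ) ^ j ≤ Fintype.card ι := by
      refine le_trans (pow_le_pow_right₀ hr1 ?_) hB.rn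
      nlinarith
    exact_mod_cast h1
  · have hexp : 3 * (j + 1) ≤ (3 * k + 3) * (m + 1) := by nlinarith
    have h1 : (D * (D ^ k * (Fintype.card ι * (r : ℝ) ^ j))) ^ 3 ≤ (D * K.N) ^ 3 := by
      have h2 : D * (D ^ k * (Fintype.card ι * (r : ℝ) ^ j)) =
          D ^ (k + 1) * ((Fintype.card ι : ℝ) * (r : ℝ) ^ j) := by ring
      have h3 : D ^ (k + 1) * ((Fintype.card ι : ℝ) * (r : ℝ) ^ j) ≤
          (r : ℝ) * ((Fintype.card ι : ℝ) * (r : ℝ) ^ j) :=
        mul_le_mul_of_nonneg_right (hDk (k + 1) (by omega)) (by positivity)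
      calc (D * (D ^ k * (Fintype.card ι * (r : ℝ) ^ j))) ^ 3
          ≤ ((r : ℝ) * ((Fintype.card ι : ℝ) * (r : ℝ) ^ j)) ^ 3 := by
            rw [h2]
            exact pow_le_pow_left₀ (by positivity) h3 3
        _ = (Fintype.card ι : ℝ) ^ 3 * (r : ℝ) ^ (3 * (j + 1)) := by ring
        _ ≤ (Fintype.card ι : ℝ) ^ 3 * (Fintype.card ι : ℝ) := by
            refine mul_le_mul_of_nonneg_left ?_ (by positivity)
            exact le_trans (pow_le_pow_right₀ hr1 hexp) hB.rn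
        _ = (Fintype.card ι : ℝ) ^ 4 := by ring
        _ ≤ (D * K.N) ^ 3 := by rw [mul_pow]; exact hcube
    have h4 : D * (D ^ k * (Fintype.card ι * (r : ℝ) ^ j)) ≤ D * K.N :=
      le_of_pow_le_pow_left₀ (by norm_num) (by positivity) h1
    exact le_of_mul_le_mul_left h4 (by linarith)

end Pool.Agent.Work.MP_e17eac_co.BB

end

section

/-!
# Item THICK: few edges are in thin units
-/

namespace Pool.Agent.Work.MP_e17eac_co.BB

open Finset
open Pool.Agent.Work.MP_e17eac_co.DH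
open Pool.Agent.Work.MP_e17eac_co.B1

namespace X5Thick

variable {ι : Type} [Fintype ι] [DecidableEq ι]

theorem big_mono {K : KSys ι} {r m : ℕ} {H D : ℝ} {C C' : ℕ} (h : Big K r m H D C)
    (hC : C' ≤ C) : Big K r m H D C' := by
  have h2 : (1 : ℝ) ≤ D := by linarith [h.D2]
  have hr : (1 : ℝ) ≤ (r : ℝ) := by
    have := h.std.two
    exact_mod_cast (by omega : 1 ≤ r)
  refine ⟨h.std, h.gp, h.HD, h.D2, h.log, h.ub, ?_, ?_⟩
  · exact (pow_le_pow_right₀ h2 hC).trans h.Dr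
  · exact (pow_le_pow_right₀ hr (Nat.mul_le_mul_right _ hC)).trans h.rn

/-- A coarser function has fewer values. -/
theorem image_le {α β γ : Type} [DecidableEq β] [DecidableEq γ] (E : Finset α) (f : α → β)
    (g : α → γ) (h : ∀ i ∈ E, ∀ j ∈ E, g i = g j → f i = f j) :
    (E.image f).card ≤ (E.image g).card := by
  classical
  rcases E.eq_empty_or_nonempty with he | ⟨i0, _⟩
  · subst he
    simp
  have hex : ∀ u, ∃ i, u ∈ E.image f → i ∈ E ∧ f i = u := by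
    intro u
    by_cases hu : u ∈ E.image f
    · obtain ⟨i, hi, rfl⟩ := mem_image.mp hu
      exact ⟨i, fun _ => ⟨hi, rfl⟩⟩
    · exact ⟨i0, fun h => absurd h hu⟩
  choose c hc using hex
  refine card_le_card_of_injOn (fun u => g (c u)) ?_ ?_
  · intro u hu
    exact mem_image_of_mem _ (hc u hu).1
  · intro u hu v hv huv
    have h1 := h (c u) (hc u hu).1 (c v) (hc v hv).1 huv
    rw [← (hc u hu).2, ← (hc v hv).2]
    exact h1

/-- Pairs (label, line) are counted by the units. -/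
theorem step2 (K : KSys ι) (L : Lab) (κ : ℕ → ι → ℕ) (E E1 : Finset ℕ) (hE : E1 ⊆ E)
    (x y T n : ℕ) (hT : ∀ i ∈ E1, (unl K L κ E x y i).card * T ≤ n) :
    (E1.image (fun i => (L.lab x i, K.a i))).card * T ≤
      (E1.image (fun i => (L.lab x i, κ y (K.a i)))).card * n := by
  have h1 := card_eq_sum_card_fiberwise (s := E1.image (fun i => (L.lab x i, K.a i)))
    (t := E1.image (fun i => (L.lab x i, κ y (K.a i)))) (f := fun z => (z.1, κ y z.2)) (by
      intro z hz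
      obtain ⟨i, hi, rfl⟩ := mem_image.mp (mem_coe.mp hz)
      exact mem_coe.mpr (mem_image.mpr ⟨i, hi, rfl⟩))
  rw [h1, sum_mul, ← smul_eq_mul (α := ℕ), ← sum_const]
  refine sum_le_sum fun u hu => ?_
  obtain ⟨i, hi, rfl⟩ := mem_image.mp hu
  refine le_trans (Nat.mul_le_mul_right T ?_) (hT i hi)
  refine card_le_card_of_injOn Prod.snd ?_ ?_
  · intro z hz
    obtain ⟨hz1, hz2⟩ := mem_filter.mp (mem_coe.mp hz)
    obtain ⟨j, hj, rfl⟩ := mem_image.mp hz1
    have h2 : L.lab x j = L.lab x i := congrArg Prod.fst hz2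
    have h3 : κ y (K.a j) = κ y (K.a i) := congrArg Prod.snd hz2
    exact mem_coe.mpr (mem_image.mpr ⟨j, mem_filter.mpr ⟨hE hj, h2, h3⟩, rfl⟩)
  · intro z hz z' hz' h
    obtain ⟨_, hz2⟩ := mem_filter.mp (mem_coe.mp hz)
    obtain ⟨_, hz2'⟩ := mem_filter.mp (mem_coe.mp hz')
    have h2 : z.1 = L.lab x i := congrArg Prod.fst hz2
    have h3 : z'.1 = L.lab x i := congrArg Prod.fst hz2'
    exact Prod.ext (h2.trans h3.symm) h

/-- Units are counted by pairs (cell, class). -/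
theorem step3 (K : KSys ι) (r m : ℕ) (D s0 e0 : ℝ) (L : Lab) (κ : ℕ → ι → ℕ)
    (E E1 : Finset ℕ) (hL : LabOK K r m D s0 e0 L E) (hE : E1 ⊆ E) (x y : ℕ) (hx : 1 ≤ x)
    (hxm : x ≤ m) :
    ((E1.image (fun i => (L.lab x i, κ y (K.a i)))).card : ℝ) ≤
      D * (E.image (fun i => (cell K r x i, κ y (K.a i)))).card := by
  have hD : 0 ≤ D := le_trans (Nat.cast_nonneg _) (hL.few x hx hxm 0)
  let W : Finset (ℕ × ℕ × ℕ) := E1.image (fun i => (L.lab x i, cell K r x i, κ y (K.a i)))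
  have h1 : (E1.image (fun i => (L.lab x i, κ y (K.a i)))).card ≤ W.card := by
    apply image_le
    intro i _ j _ hij
    have h2 : L.lab x i = L.lab x j := congrArg Prod.fst hij
    have h3 : κ y (K.a i) = κ y (K.a j) := congrArg (fun z => z.2.2) hij
    rw [h2, h3]
  have h2 : W.card ≤ ⌊D⌋₊ * (W.image (fun z => z.2)).card := by
    apply card_le_mul_card_image
    intro u _
    apply Nat.le_floor
    refine le_trans ?_ (hL.few x hx hxm u.1)
    have h3 : (W.filter (fun z => z.2 = u)).card ≤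
        ((E.filter (fun i => cell K r x i = u.1)).image (L.lab x)).card := by
      refine card_le_card_of_injOn Prod.fst ?_ ?_
      · intro z hz
        obtain ⟨hz1, hz2⟩ := mem_filter.mp (mem_coe.mp hz)
        obtain ⟨j, hj, rfl⟩ := mem_image.mp hz1
        have h4 : cell K r x j = u.1 := congrArg Prod.fst hz2
        exact mem_coe.mpr (mem_image.mpr ⟨j, mem_filter.mpr ⟨hE hj, h4⟩, rfl⟩)
      · intro z hz z' hz' h
        obtain ⟨_, hz2⟩ := mem_filter.mp (mem_coe.mp hz)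
        obtain ⟨_, hz2'⟩ := mem_filter.mp (mem_coe.mp hz')
        exact Prod.ext h (hz2.trans hz2'.symm)
    exact_mod_cast h3
  have h4 : (W.image (fun z => z.2)).card ≤
      (E.image (fun i => (cell K r x i, κ y (K.a i)))).card := by
    apply card_le_card
    intro u hu
    obtain ⟨z, hz, rfl⟩ := mem_image.mp hu
    obtain ⟨i, hi, rfl⟩ := mem_image.mp hz
    exact mem_image.mpr ⟨i, hE hi, rfl⟩
  have h5 : ((E1.image (fun i => (L.lab x i, κ y (K.a i)))).card : ℝ) ≤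
      ((⌊D⌋₊ * (E.image (fun i => (cell K r x i, κ y (K.a i)))).card : ℕ) : ℝ) := by
    exact_mod_cast h1.trans (h2.trans (Nat.mul_le_mul_left _ h4))
  refine h5.trans ?_
  push_cast
  exact mul_le_mul_of_nonneg_right (Nat.floor_le hD) (Nat.cast_nonneg _)

end X5Thick

theorem I5_Thick (hFew : St5Few) (hNum : St5Num) : St5Thick := by
  intro m e kp l k
  obtain ⟨C1, C1', hC1⟩ := hFew k
  obtain ⟨C2, hC2⟩ := hNum (C1' + 1)
  refine ⟨max C1 C2, ?_⟩
  intro ι _ _ K r H D s0 e0 L κ X2 X4 S E hB hF x hxS y hy1 hy2 hy3 hy4 E1 hE1 hthin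
  have hxI := mem_Icc.mp (hF.one.sub hxS)
  have hlev := hF.one.lev
  have hx1 : 1 ≤ x := hlev.1.trans hxI.1
  have hxm : x ≤ m := by omega
  obtain ⟨_, _, hr2, hDr, _, _⟩ := hC2 ι K r m H D (X5Thick.big_mono hB (le_max_right _ _))
  have hD2 : (2 : ℝ) ≤ D := hB.D2
  have hrpos : (1 : ℝ) ≤ (r : ℝ) := by exact_mod_cast (by omega : 1 ≤ r)
  apply hC1 ι K r m H D (X5Thick.big_mono hB (le_max_left _ _)) x hxm E1
    (fun i hi => hF.one.hyg i (hE1 hi))
  -- pairs (cell, line) are at most the pairs (label, line)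
  have s1 : (E1.image (fun i => (cell K r x i, K.a i))).card ≤
      (E1.image (fun i => (L.lab x i, K.a i))).card := by
    apply X5Thick.image_le
    intro i hi j hj hij
    have h1 : L.lab x i = L.lab x j := congrArg Prod.fst hij
    have h2 : K.a i = K.a j := congrArg Prod.snd hij
    rw [(hF.one.lab.leq x hx1 hxm i (hE1 hi) j (hE1 hj) h1).1, h2]
  have s2 := X5Thick.step2 K L κ E E1 hE1 x y (r ^ (2 * x + 2 * y + k8 e kp l + 2))
    (Fintype.card ι) (by
      intro i hi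
      have h1 := (hthin i hi).le
      exact_mod_cast h1)
  have s3 := X5Thick.step3 K r m D s0 e0 L κ E E1 hF.one.lab hE1 x y hx1 hxm
  have s4 := hF.flux x hxS y hy1 hy2 hy3 hy4
  set P0 := (E1.image (fun i => (cell K r x i, K.a i))).card with hP0
  set P1 := (E1.image (fun i => (L.lab x i, K.a i))).card with hP1
  set U := (E1.image (fun i => (L.lab x i, κ y (K.a i)))).card with hU
  set V := (E.image (fun i => (cell K r x i, κ y (K.a i)))).card with hV
  have t1 : (P0 : ℝ) ≤ P1 := by exact_mod_cast s1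
  have t2 : (P1 : ℝ) * (r : ℝ) ^ (2 * x + 2 * y + k8 e kp l + 2) ≤ U * Fintype.card ι := by
    exact_mod_cast s2
  have t4 : (V : ℝ) ≤ (r : ℝ) ^ (3 * x + 2 * y + k8 e kp l) := by exact_mod_cast s4
  have hn : (0 : ℝ) ≤ (Fintype.card ι : ℝ) := Nat.cast_nonneg _
  have t5 : (P1 : ℝ) * (r : ℝ) ^ (2 * x + 2 * y + k8 e kp l + 2) ≤
      D * (r : ℝ) ^ (3 * x + 2 * y + k8 e kp l) * Fintype.card ι := by
    refine t2.trans (mul_le_mul_of_nonneg_right ?_ hn)
    exact s3.trans (mul_le_mul_of_nonneg_left t4 (by linarith))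
  have hpos : (0 : ℝ) < (r : ℝ) ^ (2 * x + 2 * y + k8 e kp l) := by positivity
  have t6 : (P1 : ℝ) * (r : ℝ) ^ 2 ≤ D * (Fintype.card ι * (r : ℝ) ^ x) := by
    have h1 : (r : ℝ) ^ (2 * x + 2 * y + k8 e kp l) * ((P1 : ℝ) * (r : ℝ) ^ 2) ≤
        (r : ℝ) ^ (2 * x + 2 * y + k8 e kp l) * (D * (Fintype.card ι * (r : ℝ) ^ x)) := by
      have e1 : (r : ℝ) ^ (2 * x + 2 * y + k8 e kp l) * ((P1 : ℝ) * (r : ℝ) ^ 2) =
          (P1 : ℝ) * (r : ℝ) ^ (2 * x + 2 * y + k8 e kp l + 2) := by ring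
      have e2 : (r : ℝ) ^ (2 * x + 2 * y + k8 e kp l) * (D * (Fintype.card ι * (r : ℝ) ^ x)) =
          D * (r : ℝ) ^ (3 * x + 2 * y + k8 e kp l) * Fintype.card ι := by
        have e3 : 3 * x + 2 * y + k8 e kp l = (2 * x + 2 * y + k8 e kp l) + x := by ring
        rw [e3, pow_add]
        ring
      rw [e1, e2]
      exact t5
    exact le_of_mul_le_mul_left h1 hpos
  have t7 : D ^ (C1' + 1) * (P1 : ℝ) ≤ (P1 : ℝ) * (r : ℝ) ^ 2 := by
    have h1 : D ^ (C1' + 1) ≤ (r : ℝ) ^ 2 := by nlinarith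
    calc D ^ (C1' + 1) * (P1 : ℝ) ≤ (r : ℝ) ^ 2 * (P1 : ℝ) :=
          mul_le_mul_of_nonneg_right h1 (Nat.cast_nonneg _)
      _ = (P1 : ℝ) * (r : ℝ) ^ 2 := by ring
  have t8 : D * (D ^ C1' * (P1 : ℝ)) ≤ D * (Fintype.card ι * (r : ℝ) ^ x) := by
    calc D * (D ^ C1' * (P1 : ℝ)) = D ^ (C1' + 1) * (P1 : ℝ) := by ring
      _ ≤ D * (Fintype.card ι * (r : ℝ) ^ x) := t7.trans t6
  have t9 : D ^ C1' * (P1 : ℝ) ≤ Fintype.card ι * (r : ℝ) ^ x :=
    le_of_mul_le_mul_left t8 (by linarith)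
  refine le_trans (mul_le_mul_of_nonneg_left t1 ?_) t9
  have : (0 : ℝ) ≤ D := by linarith
  positivity

end Pool.Agent.Work.MP_e17eac_co.BB

end

section

/-!
# Item TRIP of B-5: Cauchy-Schwarz and near and far triples
-/

namespace Pool.Agent.Work.MP_e17eac_co.BB

open Finset

namespace X5Trip

variable {ι : Type} [DecidableEq ι]

theorem farSum (P1 : Finset (ℕ × ι)) (κ : ι → ℕ) (far : ι → ι → Prop) [DecidableRel far]
    (B M : ℝ) (hB0 : 0 ≤ B)
    (hB : ∀ p q, far p q → ((P1.filter (fun z => z.2 = p ∧ (z.1, q) ∈ P1)).card : ℝ) ≤ B)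
    (hM : ∀ p ∈ P1.image Prod.snd,
      (((P1.image Prod.snd).filter (fun q => κ q = κ p)).card : ℝ) ≤ M) :
    ∑ z ∈ P1, ((P1.filter (fun z' => z'.1 = z.1 ∧ κ z'.2 = κ z.2 ∧ far z.2 z'.2)).card : ℝ) ≤
      (P1.image Prod.snd).card * M * B := by
  classical
  set I := P1.image Prod.snd with hI
  have hmaps : ∀ z ∈ P1, z.2 ∈ I := fun z hz => mem_image_of_mem _ hz
  rw [← sum_fiberwise_of_maps_to (g := Prod.snd) hmaps]
  have h1 : ∀ p ∈ I, ∑ z ∈ P1.filter (fun z => z.2 = p),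
      ((P1.filter (fun z' => z'.1 = z.1 ∧ κ z'.2 = κ z.2 ∧ far z.2 z'.2)).card : ℝ) ≤ M * B := by
    intro p hp
    calc ∑ z ∈ P1.filter (fun z => z.2 = p),
        ((P1.filter (fun z' => z'.1 = z.1 ∧ κ z'.2 = κ z.2 ∧ far z.2 z'.2)).card : ℝ)
        ≤ ∑ z ∈ P1.filter (fun z => z.2 = p), ∑ q ∈ I.filter (fun q => κ q = κ p),
          (if far p q ∧ (z.1, q) ∈ P1 then (1 : ℝ) else 0) := by
          refine sum_le_sum fun z hz => ?_
          rw [mem_filter] at hz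
          have e1 : ∑ q ∈ I.filter (fun q => κ q = κ p),
              (if far p q ∧ (z.1, q) ∈ P1 then (1 : ℝ) else 0) =
              (((I.filter (fun q => κ q = κ p)).filter
                (fun q => far p q ∧ (z.1, q) ∈ P1)).card : ℝ) := by
            rw [sum_boole]
          rw [e1]
          refine Nat.cast_le.2 (card_le_card_of_injOn Prod.snd ?_ ?_)
          · intro z' hz'
            rw [mem_coe, mem_filter] at hz'
            obtain ⟨h1, h2, h3, h4⟩ := hz'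
            rw [mem_coe, mem_filter, mem_filter]
            refine ⟨⟨hmaps z' h1, ?_⟩, ?_, ?_⟩
            · rw [h3, hz.2]
            · rw [← hz.2]; exact h4
            · rw [← h2]; exact h1
          · intro z' hz' z'' hz'' he
            rw [mem_coe, mem_filter] at hz' hz''
            exact Prod.ext (hz'.2.1.trans hz''.2.1.symm) he
      _ = ∑ q ∈ I.filter (fun q => κ q = κ p), ∑ z ∈ P1.filter (fun z => z.2 = p),
          (if far p q ∧ (z.1, q) ∈ P1 then (1 : ℝ) else 0) := sum_comm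
      _ ≤ ∑ q ∈ I.filter (fun q => κ q = κ p), B := by
          refine sum_le_sum fun q hq => ?_
          by_cases hf : far p q
          · refine le_trans (le_of_eq ?_) (hB p q hf)
            rw [sum_boole, filter_filter]
            congr 2
            ext z
            simp [hf]
          · simp only [hf, false_and, if_false, sum_const_zero]
            exact hB0
      _ = ((I.filter (fun q => κ q = κ p)).card : ℝ) * B := by rw [sum_const, nsmul_eq_mul]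
      _ ≤ M * B := mul_le_mul_of_nonneg_right (hM p hp) hB0
  calc _ ≤ ∑ p ∈ I, M * B := sum_le_sum h1
    _ = _ := by rw [sum_const, nsmul_eq_mul]; ring

end X5Trip

theorem I5_Trip : St5Trip := by
  intro ι _ P1 κ far _ A B M U hA0 hB0 hU hA hB hM
  classical
  set f : ℕ × ι → ℕ × ℕ := fun z => (z.1, κ z.2) with hf
  -- Cauchy-Schwarz
  have h1 : (P1.card : ℝ) ^ 2 ≤ ((P1.image f).card : ℝ) *
      ∑ b ∈ P1.image f, ((P1.filter (fun z => f z = b)).card : ℝ) ^ 2 := by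
    have e1 : (P1.card : ℝ) = ∑ b ∈ P1.image f, ((P1.filter (fun z => f z = b)).card : ℝ) := by
      exact_mod_cast card_eq_sum_card_image f P1
    rw [e1]
    exact sq_sum_le_card_mul_sum_sq
  have h2 : ∑ b ∈ P1.image f, ((P1.filter (fun z => f z = b)).card : ℝ) ^ 2 =
      ∑ z ∈ P1, ((P1.filter (fun z' => f z' = f z)).card : ℝ) := by
    rw [sum_comp (fun b => ((P1.filter (fun z' => f z' = b)).card : ℝ)) f]
    refine sum_congr rfl fun b _ => ?_
    rw [nsmul_eq_mul, sq]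
  have h3 : ∀ z ∈ P1, ((P1.filter (fun z' => f z' = f z)).card : ℝ) ≤
      A + ((P1.filter (fun z' => z'.1 = z.1 ∧ κ z'.2 = κ z.2 ∧ far z.2 z'.2)).card : ℝ) := by
    intro z hz
    have e1 : P1.filter (fun z' => f z' = f z) ⊆
        P1.filter (fun z' => z'.1 = z.1 ∧ κ z'.2 = κ z.2 ∧ ¬ far z.2 z'.2) ∪
        P1.filter (fun z' => z'.1 = z.1 ∧ κ z'.2 = κ z.2 ∧ far z.2 z'.2) := by
      intro z' hz'
      rw [mem_filter] at hz'
      have e2 : z'.1 = z.1 ∧ κ z'.2 = κ z.2 := by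
        have := hz'.2
        simp only [hf, Prod.mk.injEq] at this
        exact this
      rw [mem_union, mem_filter, mem_filter]
      by_cases hfar : far z.2 z'.2
      · exact Or.inr ⟨hz'.1, e2.1, e2.2, hfar⟩
      · exact Or.inl ⟨hz'.1, e2.1, e2.2, hfar⟩
    have e3 := (card_le_card e1).trans (card_union_le _ _)
    have e4 : ((P1.filter (fun z' => f z' = f z)).card : ℝ) ≤
        ((P1.filter (fun z' => z'.1 = z.1 ∧ κ z'.2 = κ z.2 ∧ ¬ far z.2 z'.2)).card : ℝ) +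
        ((P1.filter (fun z' => z'.1 = z.1 ∧ κ z'.2 = κ z.2 ∧ far z.2 z'.2)).card : ℝ) := by
      exact_mod_cast e3
    linarith [hA z hz]
  have h4 := X5Trip.farSum P1 κ far B M hB0 hB hM
  have h5 : ∑ z ∈ P1, ((P1.filter (fun z' => f z' = f z)).card : ℝ) ≤
      P1.card * A + (P1.image Prod.snd).card * M * B := by
    calc ∑ z ∈ P1, ((P1.filter (fun z' => f z' = f z)).card : ℝ)
        ≤ ∑ z ∈ P1, (A +
          ((P1.filter (fun z' => z'.1 = z.1 ∧ κ z'.2 = κ z.2 ∧ far z.2 z'.2)).card : ℝ)) :=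
          sum_le_sum h3
      _ = P1.card * A + ∑ z ∈ P1,
          ((P1.filter (fun z' => z'.1 = z.1 ∧ κ z'.2 = κ z.2 ∧ far z.2 z'.2)).card : ℝ) := by
          rw [sum_add_distrib, sum_const, nsmul_eq_mul]
      _ ≤ _ := by linarith
  rw [h2] at h1
  have h6 : (0 : ℝ) ≤ ∑ z ∈ P1, ((P1.filter (fun z' => f z' = f z)).card : ℝ) :=
    sum_nonneg fun _ _ => Nat.cast_nonneg _
  calc (P1.card : ℝ) ^ 2
      ≤ ((P1.image f).card : ℝ) * ∑ z ∈ P1, ((P1.filter (fun z' => f z' = f z)).card : ℝ) := h1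
    _ ≤ U * ∑ z ∈ P1, ((P1.filter (fun z' => f z' = f z)).card : ℝ) :=
        mul_le_mul_of_nonneg_right hU h6
    _ ≤ U * (P1.card * A + (P1.image Prod.snd).card * M * B) := by
        refine mul_le_mul_of_nonneg_left h5 ?_
        exact (Nat.cast_nonneg _).trans hU

end Pool.Agent.Work.MP_e17eac_co.BB

end
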